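import Mathlib

/-!
# (U): the algebra

`F = p0 + p1 + P`, `DF = κ0 p0 + κ1 p1 + Q`, `D²F = (κ0² + l0) p0 + (κ1² + l1) p1 + S` and
`DF + m F = 0`, `m > 0`.  Then
`D²F/DF - DF/F = (κ0 + m)(κ1 + m)/m · (1 + X + e_N)/(1 + e_B)`,
`X = (l0/(κ0+m) - l1/(κ1+m))/(κ0 - κ1)`, `e_B = (Q - κ1 P)/((κ0 - κ1) p0)`,
`e_N = (S + m Q - κ1' (Q + m P))/((κ0 + m)(κ0 - κ1) p0)`, `κ1' = κ1 + l1/(κ1 + m)`.
-/

set_option autoImplicit false

namespace SokalF1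

/-- `u` lies in the open cone of half angle `arctan t` around the positive half line. -/
def Cone (t : ℝ) (u : ℂ) : Prop := 0 < u.re ∧ |u.im| ≤ t * u.re

theorem Cone.ne_zero {t : ℝ} {u : ℂ} (h : Cone t u) : u ≠ 0 := by
  rintro rfl
  exact lt_irrefl _ h.1

theorem Cone.mono {s t : ℝ} {u : ℂ} (h : Cone s u) (hst : s ≤ t) : Cone t u :=
  ⟨h.1, h.2.trans (mul_le_mul_of_nonneg_right hst h.1.le)⟩

theorem Cone.conj {t : ℝ} {u : ℂ} (h : Cone t u) : Cone t ((starRingEnd ℂ) u) := by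
  refine ⟨by simpa using h.1, by simpa using h.2⟩

/-- `1 + z`, `|z| ≤ e < 1`. -/
theorem Cone.one_add {e : ℝ} {z : ℂ} (he : e < 1) (hz : ‖z‖ ≤ e) : Cone (e / √(1 - e ^ 2)) (1 + z) := by
  have he0 : 0 ≤ e := (norm_nonneg _).trans hz
  have hs : 0 < 1 - e ^ 2 := by nlinarith
  have hz2 : z.re ^ 2 + z.im ^ 2 ≤ e ^ 2 := by
    have h1 : ‖z‖ ^ 2 = z.re ^ 2 + z.im ^ 2 := by
      rw [Complex.sq_norm, Complex.normSq_apply]
      ring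
    rw [← h1]
    exact pow_le_pow_left₀ (norm_nonneg _) hz 2
  have hre : 0 < 1 + z.re := by
    have h1 : -e ≤ z.re := by
      have := Complex.abs_re_le_norm z
      have := (abs_le.1 this).1
      linarith
    linarith
  refine ⟨by simpa using hre, ?_⟩
  simp only [Complex.add_im, Complex.one_im, zero_add, Complex.add_re, Complex.one_re]
  have h2 : 0 < √(1 - e ^ 2) := Real.sqrt_pos.2 hs
  rw [div_mul_eq_mul_div, le_div_iff₀ h2]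
  have h3 : |z.im * √(1 - e ^ 2)| ≤ e * (1 + z.re) := by
    refine abs_le_of_sq_le_sq ?_ (by positivity)
    rw [mul_pow, Real.sq_sqrt hs.le]
    nlinarith [sq_nonneg (z.re + e ^ 2)]
  rwa [abs_mul, abs_of_pos h2] at h3

/-- The product of three cones. -/
theorem Cone.re_mul3 {t₁ t₂ t₃ : ℝ} {u v w : ℂ} (h1 : Cone t₁ u) (h2 : Cone t₂ v) (h3 : Cone t₃ w)
    (ht1 : 0 ≤ t₁) (ht2 : 0 ≤ t₂) (ht : t₁ * t₂ + t₁ * t₃ + t₂ * t₃ < 1) :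
    0 < (u * v * w).re := by
  obtain ⟨a1, b1⟩ := h1
  obtain ⟨a2, b2⟩ := h2
  obtain ⟨a3, b3⟩ := h3
  have e : (u * v * w).re = u.re * v.re * w.re - u.im * v.im * w.re - u.re * v.im * w.im -
      u.im * v.re * w.im := by
    simp only [Complex.mul_re, Complex.mul_im]
    ring
  have c1 : |u.im * v.im * w.re| ≤ t₁ * t₂ * (u.re * v.re * w.re) := by
    rw [abs_mul, abs_mul, abs_of_pos a3]
    calc |u.im| * |v.im| * w.re ≤ (t₁ * u.re) * (t₂ * v.re) * w.re := by gcongr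
      _ = _ := by ring
  have c2 : |u.re * v.im * w.im| ≤ t₂ * t₃ * (u.re * v.re * w.re) := by
    rw [abs_mul, abs_mul, abs_of_pos a1]
    calc u.re * |v.im| * |w.im| ≤ u.re * (t₂ * v.re) * (t₃ * w.re) := by gcongr
      _ = _ := by ring
  have c3 : |u.im * v.re * w.im| ≤ t₁ * t₃ * (u.re * v.re * w.re) := by
    rw [abs_mul, abs_mul, abs_of_pos a2]
    calc |u.im| * v.re * |w.im| ≤ (t₁ * u.re) * v.re * (t₃ * w.re) := by gcongr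
      _ = _ := by ring
  have hp : 0 < u.re * v.re * w.re := by positivity
  have d1 := (abs_le.1 c1).2
  have d2 := (abs_le.1 c2).2
  have d3 := (abs_le.1 c3).2
  rw [e]
  nlinarith

/-- The exact formula. -/
theorem U_formula {κ0 κ1 l0 l1 p0 p1 P Q S : ℂ} {m : ℝ} (hm : 0 < m)
    (h : (κ0 * p0 + κ1 * p1 + Q) + m * (p0 + p1 + P) = 0)
    (h0 : κ0 + m ≠ 0) (h1 : κ1 + m ≠ 0) (h01 : κ0 - κ1 ≠ 0) (hp : p0 ≠ 0)
    (hB : 1 + (Q - κ1 * P) / ((κ0 - κ1) * p0) ≠ 0) :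
    ((κ0 ^ 2 + l0) * p0 + (κ1 ^ 2 + l1) * p1 + S) / (κ0 * p0 + κ1 * p1 + Q) -
      (κ0 * p0 + κ1 * p1 + Q) / (p0 + p1 + P) =
    (κ0 + m) * (κ1 + m) / m *
      ((1 + (l0 / (κ0 + m) - l1 / (κ1 + m)) / (κ0 - κ1) +
        (S + m * Q - (κ1 + l1 / (κ1 + m)) * (Q + m * P)) / ((κ0 + m) * (κ0 - κ1) * p0)) /
       (1 + (Q - κ1 * P) / ((κ0 - κ1) * p0))) := by
  have hmc : (m : ℂ) ≠ 0 := by exact_mod_cast hm.ne'
  have e1 : p1 = -((κ0 + m) * p0 + Q + m * P) / (κ1 + m) := by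
    rw [eq_div_iff h1]
    linear_combination h
  have hDF : κ0 * p0 + κ1 * p1 + Q =
      m / (κ1 + m) * ((κ0 - κ1) * p0) * (1 + (Q - κ1 * P) / ((κ0 - κ1) * p0)) := by
    have hq : (κ0 - κ1) * p0 ≠ 0 := mul_ne_zero h01 hp
    rw [e1]
    field_simp
    ring
  have hF : p0 + p1 + P = -(κ0 * p0 + κ1 * p1 + Q) / m := by
    rw [eq_div_iff hmc]
    linear_combination h
  have hDF0 : κ0 * p0 + κ1 * p1 + Q ≠ 0 := by
    rw [hDF]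
    exact mul_ne_zero (mul_ne_zero (div_ne_zero hmc h1) (mul_ne_zero h01 hp)) hB
  have hN : (κ0 ^ 2 + l0) * p0 + (κ1 ^ 2 + l1) * p1 + S + m * (κ0 * p0 + κ1 * p1 + Q) =
      (κ0 + m) * ((κ0 - κ1) * p0) * (1 + (l0 / (κ0 + m) - l1 / (κ1 + m)) / (κ0 - κ1) +
        (S + m * Q - (κ1 + l1 / (κ1 + m)) * (Q + m * P)) / ((κ0 + m) * (κ0 - κ1) * p0)) := by
    rw [e1]
    field_simp
    ring
  have hL : ((κ0 ^ 2 + l0) * p0 + (κ1 ^ 2 + l1) * p1 + S) / (κ0 * p0 + κ1 * p1 + Q) -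
      (κ0 * p0 + κ1 * p1 + Q) / (p0 + p1 + P) =
      ((κ0 ^ 2 + l0) * p0 + (κ1 ^ 2 + l1) * p1 + S + m * (κ0 * p0 + κ1 * p1 + Q)) /
        (κ0 * p0 + κ1 * p1 + Q) := by
    rw [hF]
    field_simp
    ring
  rw [hL, hN, hDF]
  set B := 1 + (Q - κ1 * P) / ((κ0 - κ1) * p0) with hBdef
  set N := 1 + (l0 / (κ0 + m) - l1 / (κ1 + m)) / (κ0 - κ1) +
        (S + m * Q - (κ1 + l1 / (κ1 + m)) * (Q + m * P)) / ((κ0 + m) * (κ0 - κ1) * p0)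
  have hq : (κ0 - κ1) * p0 ≠ 0 := mul_ne_zero h01 hp
  rw [div_eq_iff (by
    exact mul_ne_zero (mul_ne_zero (div_ne_zero hmc h1) hq) hB)]
  field_simp

/-- (U) from bounds. -/
theorem U_pos {κ0 κ1 l0 l1 p0 p1 P Q S : ℂ} {m : ℝ} (hm : 0 < m)
    (h : (κ0 * p0 + κ1 * p1 + Q) + m * (p0 + p1 + P) = 0)
    (h0 : κ0 + m ≠ 0) (h1 : κ1 + m ≠ 0) (h01 : κ0 - κ1 ≠ 0) (hp : p0 ≠ 0)
    {tA χ b n : ℝ} (htA : 0 ≤ tA) (hA : Cone tA ((κ0 + m) * (κ1 + m)))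
    (hb : ‖Q - κ1 * P‖ ≤ b * (‖κ0 - κ1‖ * ‖p0‖)) (hb1 : b < 1)
    (hX : ‖(l0 / (κ0 + m) - l1 / (κ1 + m)) / (κ0 - κ1)‖ ≤ χ)
    (hn : ‖S + m * Q - (κ1 + l1 / (κ1 + m)) * (Q + m * P)‖ ≤ n * (‖κ0 + m‖ * ‖κ0 - κ1‖ * ‖p0‖))
    (hn1 : n + χ < 1)
    (ht : tA * ((n + χ) / √(1 - (n + χ) ^ 2)) + tA * (b / √(1 - b ^ 2)) +
      ((n + χ) / √(1 - (n + χ) ^ 2)) * (b / √(1 - b ^ 2)) < 1) :
    0 < (((κ0 ^ 2 + l0) * p0 + (κ1 ^ 2 + l1) * p1 + S) / (κ0 * p0 + κ1 * p1 + Q) -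
      (κ0 * p0 + κ1 * p1 + Q) / (p0 + p1 + P)).re := by
  have hn01 : 0 < ‖κ0 - κ1‖ := norm_pos_iff.2 h01
  have hnp : 0 < ‖p0‖ := norm_pos_iff.2 hp
  have hn0 : 0 < ‖κ0 + m‖ := norm_pos_iff.2 h0
  have hB : ‖(Q - κ1 * P) / ((κ0 - κ1) * p0)‖ ≤ b := by
    rw [norm_div, norm_mul, div_le_iff₀ (by positivity)]
    exact hb
  have hN : ‖(l0 / (κ0 + m) - l1 / (κ1 + m)) / (κ0 - κ1) +
      (S + m * Q - (κ1 + l1 / (κ1 + m)) * (Q + m * P)) / ((κ0 + m) * (κ0 - κ1) * p0)‖ ≤ n + χ := by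
    refine (norm_add_le _ _).trans ?_
    have h2 : ‖(S + m * Q - (κ1 + l1 / (κ1 + m)) * (Q + m * P)) / ((κ0 + m) * (κ0 - κ1) * p0)‖ ≤ n := by
      rw [norm_div, norm_mul, norm_mul, div_le_iff₀ (by positivity)]
      exact hn
    linarith
  have cB := Cone.one_add hb1 hB
  have cN := Cone.one_add hn1 hN
  rw [U_formula hm h h0 h1 h01 hp cB.ne_zero]
  set B := 1 + (Q - κ1 * P) / ((κ0 - κ1) * p0) with hBd
  rw [show (1 : ℂ) + (l0 / (κ0 + m) - l1 / (κ1 + m)) / (κ0 - κ1) +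
        (S + m * Q - (κ1 + l1 / (κ1 + m)) * (Q + m * P)) / ((κ0 + m) * (κ0 - κ1) * p0) =
      1 + ((l0 / (κ0 + m) - l1 / (κ1 + m)) / (κ0 - κ1) +
        (S + m * Q - (κ1 + l1 / (κ1 + m)) * (Q + m * P)) / ((κ0 + m) * (κ0 - κ1) * p0)) by ring]
  set N := 1 + ((l0 / (κ0 + m) - l1 / (κ1 + m)) / (κ0 - κ1) +
        (S + m * Q - (κ1 + l1 / (κ1 + m)) * (Q + m * P)) / ((κ0 + m) * (κ0 - κ1) * p0)) with hNd
  have he0 : 0 ≤ n + χ := (norm_nonneg _).trans hN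
  have hb0 : 0 ≤ b := (norm_nonneg _).trans hB
  have key := Cone.re_mul3 hA cN cB.conj htA (by positivity) ht
  have hBn : 0 < Complex.normSq B := Complex.normSq_pos.2 cB.ne_zero
  have e : (κ0 + m) * (κ1 + m) / m * (N / B) =
      ((1 / (m * Complex.normSq B) : ℝ) : ℂ) * ((κ0 + m) * (κ1 + m) * N * (starRingEnd ℂ) B) := by
    have hmc : (m : ℂ) ≠ 0 := by exact_mod_cast hm.ne'
    have h3 : (Complex.normSq B : ℂ) ≠ 0 := by exact_mod_cast hBn.ne'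
    have h4 : B * (starRingEnd ℂ) B = (Complex.normSq B : ℂ) := Complex.mul_conj B
    have hB0 := cB.ne_zero
    push_cast
    rw [← h4] at h3 ⊢
    have h5 : (starRingEnd ℂ) B ≠ 0 := right_ne_zero_of_mul h3
    field_simp
  rw [e, Complex.re_ofReal_mul]
  positivity

end SokalF1
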