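import Pool.Agent.Lib_MP_af4de1_f1.TwoPiece

/-!
# F1, `N ≥ 3`: the combination of two top waves and the far waves, general lemma

`p0` is the larger top wave, `p1` the other one, `P, Q, S` the sums of the far waves and of their first and second
derivatives.  The far sums are measured by `(D - r)^i` in units `H^i L`.
-/

set_option autoImplicit false

namespace SokalF1

open Complex

/-- Product of a number in the upper half and one in the lower half of a cone. -/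
theorem Cone.opp {t : ℝ} {u v : ℂ} (hu : Cone t u) (hv : Cone t v) (ht : 0 ≤ t) (h1 : 0 ≤ u.im)
    (h2 : v.im ≤ 0) : Cone t (u * v) := by
  obtain ⟨a1, b1⟩ := hu
  obtain ⟨a2, b2⟩ := hv
  rw [abs_of_nonneg h1] at b1
  rw [abs_of_nonpos h2] at b2
  have h3 : 0 ≤ u.im * (-v.im) := mul_nonneg h1 (by linarith)
  have h4 : u.im * v.re ≤ t * u.re * v.re := mul_le_mul_of_nonneg_right b1 a2.le
  have h5 : u.re * (-v.im) ≤ u.re * (t * v.re) := mul_le_mul_of_nonneg_left b2 a1.le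
  have h6 : 0 ≤ u.im * v.re := mul_nonneg h1 a2.le
  have h7 : 0 ≤ u.re * (-v.im) := mul_nonneg a1.le (by linarith)
  have h8 : 0 ≤ t * (u.im * (-v.im)) := mul_nonneg ht h3
  refine ⟨?_, ?_⟩
  · simp only [Complex.mul_re]
    nlinarith [mul_pos a1 a2]
  · simp only [Complex.mul_re, Complex.mul_im]
    rw [abs_le]
    constructor <;> nlinarith

/-- A point `k` in the cone plus a positive number. -/
theorem Cone.add_pos {t m : ℝ} {k : ℂ} (ht : 0 ≤ t) (hk : |k.im| ≤ t * k.re) (hk0 : 0 ≤ k.re) (hm : 0 < m) :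
    Cone t (k + m) := by
  refine ⟨?_, ?_⟩
  · simp only [Complex.add_re, Complex.ofReal_re]
    linarith
  · simp only [Complex.add_re, Complex.ofReal_re, Complex.add_im, Complex.ofReal_im, add_zero]
    have : 0 ≤ t * m := mul_nonneg ht hm.le
    linarith

/-- `|k + m| ≥ |k|` -/
theorem comb_norm_le {k : ℂ} {m : ℝ} (hk : 0 ≤ k.re) (hm : 0 ≤ m) : ‖k‖ ≤ ‖k + m‖ := by
  refine abs_le_of_sq_le_sq' ?_ (norm_nonneg _) |>.2
  rw [Complex.sq_norm, Complex.sq_norm, Complex.normSq_apply, Complex.normSq_apply]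
  simp only [Complex.add_re, Complex.ofReal_re, Complex.add_im, Complex.ofReal_im, add_zero]
  nlinarith [mul_nonneg hk hm]

/-- `|k + m| ≥ c (|k| + m)` if `Re k ≥ (2c² - 1)|k|`. -/
theorem comb_le_norm {k : ℂ} {m c : ℝ} (hc : 0 ≤ c) (hc1 : c ≤ 1) (hk : (2 * c ^ 2 - 1) * ‖k‖ ≤ k.re) (hm : 0 ≤ m) :
    c * (‖k‖ + m) ≤ ‖k + m‖ := by
  refine abs_le_of_sq_le_sq' ?_ (norm_nonneg _) |>.2
  have h1 : ‖k‖ ^ 2 = k.re ^ 2 + k.im ^ 2 := by
    rw [Complex.sq_norm, Complex.normSq_apply]; ring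
  have h2 : ‖k + m‖ ^ 2 = ‖k‖ ^ 2 + 2 * k.re * m + m ^ 2 := by
    rw [h1, Complex.sq_norm, Complex.normSq_apply]
    simp only [Complex.add_re, Complex.ofReal_re, Complex.add_im, Complex.ofReal_im, add_zero]
    ring
  rw [h2, mul_pow]
  have h3 : (2 * c ^ 2 - 1) * ‖k‖ * m ≤ k.re * m := mul_le_mul_of_nonneg_right hk hm
  have h4 : 0 ≤ (1 - c ^ 2) * (‖k‖ - m) ^ 2 := mul_nonneg (by nlinarith) (sq_nonneg _)
  nlinarith

/-- The combination. -/
theorem comb {κ0 κ1 l0 l1 p0 p1 P Q S : ℂ} {r m H L b0 b1 b2 cT cD cm d e tA χ b ν : ℝ}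
    (hm : 0 < m) (hr : 0 < r) (hH : 0 < H) (hL : 0 < L)
    (h : (κ0 * p0 + κ1 * p1 + Q) + m * (p0 + p1 + P) = 0)
    (hcT : 0 < cT) (hcD : 0 < cD) (hcm : 0 < cm) (hd0 : 0 ≤ d) (he0 : 0 ≤ e)
    (hp : cT * L ≤ ‖p0‖) (htA : 0 ≤ tA) (hA : Cone tA ((κ0 + m) * (κ1 + m)))
    (hD : cD * H ≤ ‖κ0 - κ1‖) (hM : cm * (r + m) ≤ ‖κ0 + m‖)
    (hd : ‖κ1 - r‖ ≤ d * H) (he : ‖κ1 + l1 / (κ1 + m) - r‖ ≤ e * H)
    (hX : ‖(l0 / (κ0 + m) - l1 / (κ1 + m)) / (κ0 - κ1)‖ ≤ χ)
    (h0 : ‖P‖ ≤ b0 * L) (h1 : ‖Q - r * P‖ ≤ b1 * H * L)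
    (h2 : ‖S - 2 * r * Q + r ^ 2 * P‖ ≤ b2 * H ^ 2 * L)
    (hb : b1 + d * b0 ≤ b * (cD * cT)) (hb1 : b < 1)
    (hn : b1 + e * b0 + H / r * (b2 + e * b1) ≤ (ν - χ) * (cm * cD * cT)) (hν : ν < 1)
    (ht : tA * (ν / √(1 - ν ^ 2)) + tA * (b / √(1 - b ^ 2)) +
      (ν / √(1 - ν ^ 2)) * (b / √(1 - b ^ 2)) < 1) :
    0 < (((κ0 ^ 2 + l0) * p0 + (κ1 ^ 2 + l1) * p1 + S) / (κ0 * p0 + κ1 * p1 + Q) -
      (κ0 * p0 + κ1 * p1 + Q) / (p0 + p1 + P)).re := by
  have hnp : 0 < ‖p0‖ := lt_of_lt_of_le (by positivity) hp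
  have hp0 : p0 ≠ 0 := norm_pos_iff.1 hnp
  have hn01 : 0 < ‖κ0 - κ1‖ := lt_of_lt_of_le (by positivity) hD
  have h01 : κ0 - κ1 ≠ 0 := norm_pos_iff.1 hn01
  have hprod := hA.ne_zero
  have hk0 : κ0 + m ≠ 0 := left_ne_zero_of_mul hprod
  have hk1 : κ1 + m ≠ 0 := right_ne_zero_of_mul hprod
  have hb0 : 0 ≤ b0 := by
    have := (norm_nonneg P).trans h0
    exact nonneg_of_mul_nonneg_left this hL
  have hb1' : 0 ≤ b1 := by
    have := (norm_nonneg _).trans h1
    have h3 : 0 ≤ b1 * (H * L) := by rw [← mul_assoc]; exact this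
    exact nonneg_of_mul_nonneg_left h3 (by positivity)
  have hb2' : 0 ≤ b2 := by
    have := (norm_nonneg _).trans h2
    have h3 : 0 ≤ b2 * (H ^ 2 * L) := by rw [← mul_assoc]; exact this
    exact nonneg_of_mul_nonneg_left h3 (by positivity)
  -- e_B
  have hbb : 0 ≤ b := by
    by_contra hneg
    push Not at hneg
    have h3 : b * (cD * cT) < 0 := mul_neg_of_neg_of_pos hneg (by positivity)
    have h4 : 0 ≤ b1 + d * b0 := by positivity
    linarith
  have eB : ‖Q - κ1 * P‖ ≤ b * (‖κ0 - κ1‖ * ‖p0‖) := by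
    have e1 : Q - κ1 * P = (Q - r * P) - (κ1 - r) * P := by ring
    rw [e1]
    have h3 : ‖(κ1 - r) * P‖ ≤ d * H * (b0 * L) := by
      rw [norm_mul]
      exact mul_le_mul hd h0 (norm_nonneg _) (by positivity)
    have h4 := norm_sub_le (Q - r * P) ((κ1 - r) * P)
    have h5 : b1 * H * L + d * H * (b0 * L) ≤ b * (cD * H * (cT * L)) := by
      have h6 : (b1 + d * b0) * (H * L) ≤ b * (cD * cT) * (H * L) :=
        mul_le_mul_of_nonneg_right hb (by positivity)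
      linarith
    have h7 : b * (cD * H * (cT * L)) ≤ b * (‖κ0 - κ1‖ * ‖p0‖) :=
      mul_le_mul_of_nonneg_left (mul_le_mul hD hp (by positivity) hn01.le) hbb
    linarith
  -- e_N
  have hνχ : 0 ≤ ν - χ := by
    by_contra hneg
    push Not at hneg
    have h3 : (ν - χ) * (cm * cD * cT) < 0 := mul_neg_of_neg_of_pos hneg (by positivity)
    have h4 : 0 ≤ b1 + e * b0 + H / r * (b2 + e * b1) := by positivity
    linarith
  have eN : ‖S + m * Q - (κ1 + l1 / (κ1 + m)) * (Q + m * P)‖ ≤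
      (ν - χ) * (‖κ0 + m‖ * ‖κ0 - κ1‖ * ‖p0‖) := by
    set κ' := κ1 + l1 / (κ1 + m) with hκ'
    have e1 : S + m * Q - κ' * (Q + m * P) =
        ((r + m : ℝ) : ℂ) * ((Q - r * P) - (κ' - r) * P) +
        ((S - 2 * r * Q + r ^ 2 * P) - (κ' - r) * (Q - r * P)) := by
      push_cast
      ring
    rw [e1]
    have h3 : ‖(κ' - r) * P‖ ≤ e * H * (b0 * L) := by
      rw [norm_mul]
      exact mul_le_mul he h0 (norm_nonneg _) (by positivity)
    have h4 : ‖(κ' - r) * (Q - r * P)‖ ≤ e * H * (b1 * H * L) := by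
      rw [norm_mul]
      exact mul_le_mul he h1 (norm_nonneg _) (by positivity)
    have h5 : ‖((r + m : ℝ) : ℂ) * ((Q - r * P) - (κ' - r) * P)‖ ≤
        (r + m) * (b1 * H * L + e * H * (b0 * L)) := by
      rw [norm_mul, Complex.norm_real, Real.norm_of_nonneg (by linarith)]
      exact mul_le_mul_of_nonneg_left ((norm_sub_le _ _).trans (by linarith)) (by linarith)
    have h6 : ‖(S - 2 * r * Q + r ^ 2 * P) - (κ' - r) * (Q - r * P)‖ ≤
        b2 * H ^ 2 * L + e * H * (b1 * H * L) := (norm_sub_le _ _).trans (by linarith)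
    have h7 : (r + m) * (b1 * H * L + e * H * (b0 * L)) + (b2 * H ^ 2 * L + e * H * (b1 * H * L)) ≤
        (ν - χ) * (cm * (r + m) * (cD * H) * (cT * L)) := by
      have h8 : (b1 + e * b0 + H / r * (b2 + e * b1)) * ((r + m) * H * L) ≤
          (ν - χ) * (cm * cD * cT) * ((r + m) * H * L) :=
        mul_le_mul_of_nonneg_right hn (by positivity)
      have h9 : H * (b2 + e * b1) * (H * L) ≤ H / r * (b2 + e * b1) * ((r + m) * H * L) := by
        have e2 : H / r * (b2 + e * b1) * ((r + m) * H * L) =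
            H * (b2 + e * b1) * (H * L) * ((r + m) / r) := by
          field_simp
        rw [e2]
        refine le_mul_of_one_le_right (by positivity) ?_
        rw [one_le_div hr]
        linarith
      nlinarith
    have h10 : (ν - χ) * (cm * (r + m) * (cD * H) * (cT * L)) ≤
        (ν - χ) * (‖κ0 + m‖ * ‖κ0 - κ1‖ * ‖p0‖) := by
      refine mul_le_mul_of_nonneg_left ?_ hνχ
      refine mul_le_mul (mul_le_mul hM hD (by positivity) (norm_nonneg _)) hp (by positivity) ?_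
      positivity
    refine (norm_add_le _ _).trans ?_
    linarith
  have e3 : ν - χ + χ = ν := by ring
  refine U_pos (n := ν - χ) (χ := χ) (b := b) hm h hk0 hk1 h01 hp0 htA hA eB hb1 hX eN
    (by rw [e3]; exact hν) ?_
  rw [e3]
  exact ht

end SokalF1
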