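import Pool.Agent.Lib_MP_af4de1_BPlus.Lifts2
import Pool.Agent.Lib_MP_af4de1_fu.Tub

/-!
# The wave decomposition on a circle

`q = e^{iα}`, `α = 2 π a / N + del`, `t = -i del`; the points `w_j = r e^{i (θ_j - r del + del/2)}`,
`θ_j = (x + j) 2 π/N`, `0 ≤ x < 1`.
-/

set_option autoImplicit false

namespace SokalF1

open Complex SokalU SokalFU

/-- the point at the centred angle `θ` on the circle of radius `r` -/
noncomputable def wp (r del θ : ℝ) : ℂ := r * cexp (((θ - r * del + del / 2 : ℝ) : ℂ) * I)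

theorem norm_wp {r : ℝ} (hr : 0 ≤ r) (del θ : ℝ) : ‖wp r del θ‖ = r := by
  unfold wp
  rw [norm_mul, Complex.norm_exp_ofReal_mul_I, mul_one, Complex.norm_real, Real.norm_of_nonneg hr]

/-- `t = -i del` -/
noncomputable def tt (del : ℝ) : ℂ := -((del : ℂ) * I)

theorem re_tt (del : ℝ) : (tt del).re = 0 := by simp [tt]

theorem exp_neg_tt (del : ℝ) : cexp (-tt del) = qa del := by simp [tt, qa]

/-- multiplication by `q'` moves the angle by `del` -/
theorem qa_mul_wp (r del θ : ℝ) : qa del * wp r del θ = wp r del (θ + del) := by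
  unfold qa wp
  rw [← mul_assoc, mul_comm (cexp _) (r : ℂ), mul_assoc, ← Complex.exp_add]
  congr 2
  push_cast; ring

/-- the step -/
noncomputable def hst (N : ℕ) : ℝ := 2 * Real.pi / N

/-- (L2) the waves on the circle `‖z‖ = r`. -/
theorem dec (N : ℕ) (hN : 0 < N) (a : ℤ) (ha : IsCoprime a (N : ℤ)) :
    ∃ g0 : ℝ, 0 < g0 ∧ ∀ (r del : ℝ) (z : ℂ), 0 < r → ‖z‖ = r →
      ∃ (x : ℝ) (c : ℤ → ℂ), 0 ≤ x ∧ x < 1 ∧ (∀ j, ‖c j‖ = g0) ∧ ∀ j0 : ℤ,
        SokalF.F (qa (2 * Real.pi * a / N + del)) z =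
          ∑ j ∈ Finset.Ico j0 (j0 + N), c j * E (tt del) (wp r del ((x + j) * hst N)) ∧
        z * SokalF.F (qa (2 * Real.pi * a / N + del)) (qa (2 * Real.pi * a / N + del) * z) =
          ∑ j ∈ Finset.Ico j0 (j0 + N), c j * DE (tt del) (wp r del ((x + j) * hst N)) ∧
        z * SokalF.F (qa (2 * Real.pi * a / N + del)) (qa (2 * Real.pi * a / N + del) * z) +
          z * (qa (2 * Real.pi * a / N + del) * z * SokalF.F (qa (2 * Real.pi * a / N + del))
            (qa (2 * Real.pi * a / N + del) * (qa (2 * Real.pi * a / N + del) * z))) =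
          ∑ j ∈ Finset.Ico j0 (j0 + N), c j *
            SokalBPlus.D2E (tt del) (wp r del ((x + j) * hst N)) := by
  obtain ⟨g, ε, g0, hg0, hg, hl⟩ := SokalBPlus.lifts2 N hN a ha
  refine ⟨g0, hg0, fun r del z hr hz => ?_⟩
  have hN' : (N : ℝ) ≠ 0 := by exact_mod_cast hN.ne'
  have hpi := Real.pi_pos
  set y : ℝ := (Complex.arg z + r * del - del / 2) * N / (2 * Real.pi) + ε with hy
  refine ⟨Int.fract y, fun j => g (j - ⌊y⌋), Int.fract_nonneg y, Int.fract_lt_one y,
    fun j => hg _, fun j0 => ?_⟩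
  have hq : qa (2 * Real.pi * a / N + del) = cexp (2 * Real.pi * I * a / N) * cexp (-tt del) := by
    rw [exp_neg_tt]
    unfold qa
    rw [← Complex.exp_add]
    congr 1
    push_cast; ring
  have hpt : ∀ j : ℤ, cexp (2 * Real.pi * (((j - ⌊y⌋ : ℤ) : ℂ) + ε) / N * I) * z =
      wp r del ((Int.fract y + j) * hst N) := by
    intro j
    have hz2 : z = r * cexp (Complex.arg z * I) := by
      rw [← hz]; exact (Complex.norm_mul_exp_arg_mul_I z).symm
    conv_lhs => rw [hz2]
    unfold wp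
    rw [← mul_assoc, mul_comm (cexp _) (r : ℂ), mul_assoc, ← Complex.exp_add]
    congr 2
    have h1 : (Int.fract y + j) * hst N - r * del + del / 2 =
        2 * Real.pi * (((j - ⌊y⌋ : ℤ) : ℝ) + ε) / N + Complex.arg z := by
      rw [← Int.self_sub_floor, hy]
      unfold hst
      push_cast
      field_simp
      ring
    rw [h1]
    push_cast
    ring
  have key : ∀ G : ℂ → ℂ, ∑ m ∈ Finset.Ico (j0 - ⌊y⌋) (j0 - ⌊y⌋ + N),
      g m * G (cexp (2 * Real.pi * (m + ε) / N * I) * z) =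
      ∑ j ∈ Finset.Ico j0 (j0 + N), g (j - ⌊y⌋) * G (wp r del ((Int.fract y + j) * hst N)) := by
    intro G
    refine Finset.sum_nbij' (fun m => m + ⌊y⌋) (fun j => j - ⌊y⌋) ?_ ?_ ?_ ?_ ?_
    · intro m hm
      simp only [Finset.mem_Ico] at hm ⊢
      omega
    · intro m hm
      simp only [Finset.mem_Ico] at hm ⊢
      omega
    · intro m _; ring
    · intro m _; ring
    · intro m _
      have h1 := hpt (m + ⌊y⌋)
      rw [add_sub_cancel_right] at h1 ⊢
      rw [h1]
  have h := hl (tt del) z (qa (2 * Real.pi * a / N + del)) (j0 - ⌊y⌋) (re_tt del).ge hq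
  rw [key (E (tt del)), key (DE (tt del)), key (SokalBPlus.D2E (tt del))] at h
  exact h

/-! ### Conjugation -/

theorem conj_F (q z : ℂ) :
    SokalF.F ((starRingEnd ℂ) q) ((starRingEnd ℂ) z) = (starRingEnd ℂ) (SokalF.F q z) := by
  unfold SokalF.F
  rw [Complex.conj_tsum]
  refine tsum_congr fun k => ?_
  simp

theorem qa_neg (α : ℝ) : qa (-α) = (starRingEnd ℂ) (qa α) := by
  unfold qa
  rw [← Complex.exp_conj]
  simp

theorem deriv_F_neg (α : ℝ) (z : ℂ) :
    deriv (SokalF.F (qa (-α))) z = (starRingEnd ℂ) (deriv (SokalF.F (qa α)) ((starRingEnd ℂ) z)) := by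
  have hF : SokalF.F (qa (-α)) = fun w => (starRingEnd ℂ) (SokalF.F (qa α) ((starRingEnd ℂ) w)) := by
    funext w
    rw [← conj_F, qa_neg, Complex.conj_conj]
  rw [hF]
  exact congrFun (deriv_conj_conj (f := SokalF.F (qa α))) z

theorem dist_neg {α r : ℝ} (h : Dist α r) : Dist (-α) r := by
  intro z hz h0
  have h1 : ‖(starRingEnd ℂ) z‖ = r := by rw [Complex.norm_conj]; exact hz
  have hF : ∀ w, SokalF.F (qa (-α)) w = (starRingEnd ℂ) (SokalF.F (qa α) ((starRingEnd ℂ) w)) := by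
    intro w
    rw [← conj_F, qa_neg, Complex.conj_conj]
  have h2 : SokalF.F (qa α) ((starRingEnd ℂ) z) = 0 := by
    have := hF z
    rw [h0] at this
    exact (map_eq_zero (starRingEnd ℂ)).mp this.symm
  obtain ⟨h3, h4⟩ := h _ h1 h2
  refine ⟨?_, fun w hw hw0 => ?_⟩
  · rw [deriv_F_neg]
    exact (map_ne_zero (starRingEnd ℂ)).mpr h3
  · have h5 : SokalF.F (qa α) ((starRingEnd ℂ) w) = 0 := by
      have := hF w
      rw [hw0] at this
      exact (map_eq_zero (starRingEnd ℂ)).mp this.symm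
    have h6 := h4 ((starRingEnd ℂ) w) (by rw [Complex.norm_conj]; exact hw) h5
    exact (starRingEnd ℂ).injective h6

theorem dist_neg_iff {α r : ℝ} : Dist (-α) r ↔ Dist α r :=
  ⟨fun h => by have := dist_neg h; rwa [neg_neg] at this, dist_neg⟩

theorem qa_add_two_pi (α : ℝ) (n : ℤ) : qa (α + n * (2 * Real.pi)) = qa α := by
  unfold qa
  have : ((α + n * (2 * Real.pi) : ℝ) : ℂ) * I = (α : ℂ) * I + n * (2 * Real.pi * I) := by
    push_cast; ring
  rw [this, Complex.exp_add, Complex.exp_int_mul_two_pi_mul_I, mul_one]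

/-- `Dist` has period `2π` -/
theorem dist_add_two_pi {α r : ℝ} (n : ℤ) : Dist (α + n * (2 * Real.pi)) r ↔ Dist α r := by
  unfold SokalFU.Dist
  rw [qa_add_two_pi]

end SokalF1
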