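import Mathlib

/-!
# G-lemmas: polynomial certificates (A)
-/

set_option autoImplicit false

namespace SokalF1G

namespace Cert

theorem g1p_z0_c {p q u v : ℝ} (hp : 0 ≤ p) (hq : 0 ≤ q) (hu : 0 ≤ u) (hv : 0 ≤ v) :
    0 ≤ (1 / 264) * q ^ 5 * u ^ 2 * v ^ 4 +
    (1 / 66) * q ^ 5 * u ^ 3 * v ^ 3 +
    (1 / 44) * q ^ 5 * u ^ 4 * v ^ 2 +
    (1 / 66) * q ^ 5 * u ^ 5 * v +
    (1 / 264) * q ^ 5 * u ^ 6 +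
    (1 / 2) * p * q ^ 4 * u * v ^ 5 +
    (83 / 33) * p * q ^ 4 * u ^ 2 * v ^ 4 +
    (1325 / 264) * p * q ^ 4 * u ^ 3 * v ^ 3 +
    (437 / 88) * p * q ^ 4 * u ^ 4 * v ^ 2 +
    (643 / 264) * p * q ^ 4 * u ^ 5 * v +
    (125 / 264) * p * q ^ 4 * u ^ 6 +
    (3 / 2) * p ^ 2 * q ^ 3 * u * v ^ 5 +
    (86 / 11) * p ^ 2 * q ^ 3 * u ^ 2 * v ^ 4 +
    (1421 / 88) * p ^ 2 * q ^ 3 * u ^ 3 * v ^ 3 +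
    (8719 / 528) * p ^ 2 * q ^ 3 * u ^ 4 * v ^ 2 +
    (1103 / 132) * p ^ 2 * q ^ 3 * u ^ 5 * v +
    (883 / 528) * p ^ 2 * q ^ 3 * u ^ 6 +
    (4 / 3) * p ^ 3 * q ^ 2 * u * v ^ 5 +
    (81 / 11) * p ^ 3 * q ^ 2 * u ^ 2 * v ^ 4 +
    (1415 / 88) * p ^ 3 * q ^ 2 * u ^ 3 * v ^ 3 +
    (1145 / 66) * p ^ 3 * q ^ 2 * u ^ 4 * v ^ 2 +
    (14635 / 1584) * p ^ 3 * q ^ 2 * u ^ 5 * v +
    (3073 / 1584) * p ^ 3 * q ^ 2 * u ^ 6 +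
    (1 / 3) * p ^ 4 * q * u * v ^ 5 +
    (3503 / 1672) * p ^ 4 * q * u ^ 2 * v ^ 4 +
    (25525 / 5016) * p ^ 4 * q * u ^ 3 * v ^ 3 +
    (20179 / 3344) * p ^ 4 * q * u ^ 4 * v ^ 2 +
    (105619 / 30096) * p ^ 4 * q * u ^ 5 * v +
    (12035 / 15048) * p ^ 4 * q * u ^ 6 +
    (1 / 11) * p ^ 5 * u ^ 2 * v ^ 4 +
    (4 / 11) * p ^ 5 * u ^ 3 * v ^ 3 +
    (6 / 11) * p ^ 5 * u ^ 4 * v ^ 2 +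
    (4 / 11) * p ^ 5 * u ^ 5 * v +
    (1 / 11) * p ^ 5 * u ^ 6 := by
  positivity

theorem g1p_z0 {c s : ℝ} (h1 : 0 ≤ c) (h2 : c ≤ 1) (h3 : 0 ≤ s) (h4 : s ≤ 1) :
    0 ≤ c ^ 2 * s ^ 2 + (1 - c) * (1 + c * s) - 0 * s - (1 - c) * ((1 + c * s + (c * s) ^ 2 / 2 + (c * s) ^ 3 / 6 + (c * s) ^ 4 / 19) * (1 - s ^ 2 / 2 + s ^ 4 / 24)) + 0 * ((1 + c * s + (c * s) ^ 2 / 2 + (c * s) ^ 3 / 6) * (s - s ^ 3 / 6)) -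
      (1 - s ^ 2 / 11) * s ^ 2 * ((1 - c) ^ 2 * (1 + c) / 2 + c ^ 2 + c * 0) := by
  have hp : 0 ≤ c - 0 := sub_nonneg.2 h1
  have hq : 0 ≤ 1 - c := sub_nonneg.2 h2
  have hu : 0 ≤ s - 0 := sub_nonneg.2 h3
  have hv : 0 ≤ 1 - s := sub_nonneg.2 h4
  have h := g1p_z0_c hp hq hu hv
  have h5 := mul_nonneg (sq_nonneg s) h
  refine h5.trans (le_of_eq ?_)
  ring

theorem g1p_zp_c {p q u v : ℝ} (hp : 0 ≤ p) (hq : 0 ≤ q) (hu : 0 ≤ u) (hv : 0 ≤ v) :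
    0 ≤ (1 / 264) * q ^ 5 * u ^ 2 * v ^ 4 +
    (1 / 66) * q ^ 5 * u ^ 3 * v ^ 3 +
    (1 / 44) * q ^ 5 * u ^ 4 * v ^ 2 +
    (1 / 66) * q ^ 5 * u ^ 5 * v +
    (1 / 264) * q ^ 5 * u ^ 6 +
    (19 / 50) * p * q ^ 4 * u * v ^ 5 +
    (316 / 165) * p * q ^ 4 * u ^ 2 * v ^ 4 +
    (5041 / 1320) * p * q ^ 4 * u ^ 3 * v ^ 3 +
    (1657 / 440) * p * q ^ 4 * u ^ 4 * v ^ 2 +
    (2423 / 1320) * p * q ^ 4 * u ^ 5 * v +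
    (2333 / 6600) * p * q ^ 4 * u ^ 6 +
    (51 / 50) * p ^ 2 * q ^ 3 * u * v ^ 5 +
    (59 / 11) * p ^ 2 * q ^ 3 * u ^ 2 * v ^ 4 +
    (4897 / 440) * p ^ 2 * q ^ 3 * u ^ 3 * v ^ 3 +
    (30059 / 2640) * p ^ 2 * q ^ 3 * u ^ 4 * v ^ 2 +
    (3787 / 660) * p ^ 2 * q ^ 3 * u ^ 5 * v +
    (15019 / 13200) * p ^ 2 * q ^ 3 * u ^ 6 +
    (73 / 75) * p ^ 3 * q ^ 2 * u * v ^ 5 +
    (27 / 5) * p ^ 3 * q ^ 2 * u ^ 2 * v ^ 4 +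
    (2353 / 200) * p ^ 3 * q ^ 2 * u ^ 3 * v ^ 3 +
    (944 / 75) * p ^ 3 * q ^ 2 * u ^ 4 * v ^ 2 +
    (23777 / 3600) * p ^ 3 * q ^ 2 * u ^ 5 * v +
    (4883 / 3600) * p ^ 3 * q ^ 2 * u ^ 6 +
    (43 / 75) * p ^ 4 * q * u * v ^ 5 +
    (135911 / 41800) * p ^ 4 * q * u ^ 2 * v ^ 4 +
    (902149 / 125400) * p ^ 4 * q * u ^ 3 * v ^ 3 +
    (651459 / 83600) * p ^ 4 * q * u ^ 4 * v ^ 2 +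
    (3111067 / 752400) * p ^ 4 * q * u ^ 5 * v +
    (322079 / 376200) * p ^ 4 * q * u ^ 6 +
    (6 / 25) * p ^ 5 * u * v ^ 5 +
    (373 / 275) * p ^ 5 * u ^ 2 * v ^ 4 +
    (1631 / 550) * p ^ 5 * u ^ 3 * v ^ 3 +
    (863 / 275) * p ^ 5 * u ^ 4 * v ^ 2 +
    (883 / 550) * p ^ 5 * u ^ 5 * v +
    (87 / 275) * p ^ 5 * u ^ 6 := by
  positivity

theorem g1p_zp {c s : ℝ} (h1 : 0 ≤ c) (h2 : c ≤ 1) (h3 : 0 ≤ s) (h4 : s ≤ 1) :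
    0 ≤ c ^ 2 * s ^ 2 + (1 - c) * (1 + c * s) - (18 / 25 * c) * s - (1 - c) * ((1 + c * s + (c * s) ^ 2 / 2 + (c * s) ^ 3 / 6 + (c * s) ^ 4 / 19) * (1 - s ^ 2 / 2 + s ^ 4 / 24)) + (18 / 25 * c) * ((1 + c * s + (c * s) ^ 2 / 2 + (c * s) ^ 3 / 6) * (s - s ^ 3 / 6)) -
      (1 - s ^ 2 / 11) * s ^ 2 * ((1 - c) ^ 2 * (1 + c) / 2 + c ^ 2 + c * (18 / 25 * c)) := by
  have hp : 0 ≤ c - 0 := sub_nonneg.2 h1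
  have hq : 0 ≤ 1 - c := sub_nonneg.2 h2
  have hu : 0 ≤ s - 0 := sub_nonneg.2 h3
  have hv : 0 ≤ 1 - s := sub_nonneg.2 h4
  have h := g1p_zp_c hp hq hu hv
  have h5 := mul_nonneg (sq_nonneg s) h
  refine h5.trans (le_of_eq ?_)
  ring

theorem g2pu_z0_c {p q u v : ℝ} (hp : 0 ≤ p) (hq : 0 ≤ q) (hu : 0 ≤ u) (hv : 0 ≤ v) :
    0 ≤ (152 / 15) * q ^ 5 * v ^ 6 +
    (872 / 15) * q ^ 5 * u * v ^ 5 +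
    138 * q ^ 5 * u ^ 2 * v ^ 4 +
    (520 / 3) * q ^ 5 * u ^ 3 * v ^ 3 +
    (364 / 3) * q ^ 5 * u ^ 4 * v ^ 2 +
    (224 / 5) * q ^ 5 * u ^ 5 * v +
    (34 / 5) * q ^ 5 * u ^ 6 +
    (1048 / 15) * p * q ^ 4 * v ^ 6 +
    (6308 / 15) * p * q ^ 4 * u * v ^ 5 +
    1050 * p * q ^ 4 * u ^ 2 * v ^ 4 +
    (4175 / 3) * p * q ^ 4 * u ^ 3 * v ^ 3 +
    (3097 / 3) * p * q ^ 4 * u ^ 4 * v ^ 2 +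
    (2031 / 5) * p * q ^ 4 * u ^ 5 * v +
    (331 / 5) * p * q ^ 4 * u ^ 6 +
    (2644 / 15) * p ^ 2 * q ^ 3 * v ^ 6 +
    (16364 / 15) * p ^ 2 * q ^ 3 * u * v ^ 5 +
    (8408 / 3) * p ^ 2 * q ^ 3 * u ^ 2 * v ^ 4 +
    3825 * p ^ 2 * q ^ 3 * u ^ 3 * v ^ 3 +
    (11697 / 4) * p ^ 2 * q ^ 3 * u ^ 4 * v ^ 2 +
    (11871 / 10) * p ^ 2 * q ^ 3 * u ^ 5 * v +
    (3997 / 20) * p ^ 2 * q ^ 3 * u ^ 6 +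
    (9148 / 45) * p ^ 3 * q ^ 2 * v ^ 6 +
    (57298 / 45) * p ^ 3 * q ^ 2 * u * v ^ 5 +
    (9946 / 3) * p ^ 3 * q ^ 2 * u ^ 2 * v ^ 4 +
    4592 * p ^ 3 * q ^ 2 * u ^ 3 * v ^ 3 +
    (14269 / 4) * p ^ 3 * q ^ 2 * u ^ 4 * v ^ 2 +
    (176773 / 120) * p ^ 3 * q ^ 2 * u ^ 5 * v +
    (10101 / 40) * p ^ 3 * q ^ 2 * u ^ 6 +
    (84392 / 765) * p ^ 4 * q * v ^ 6 +
    (524522 / 765) * p ^ 4 * q * u * v ^ 5 +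
    (90628 / 51) * p ^ 4 * q * u ^ 2 * v ^ 4 +
    (125336 / 51) * p ^ 4 * q * u ^ 3 * v ^ 3 +
    (65011 / 34) * p ^ 4 * q * u ^ 4 * v ^ 2 +
    (1618037 / 2040) * p ^ 4 * q * u ^ 5 * v +
    (23281 / 170) * p ^ 4 * q * u ^ 6 +
    (128 / 5) * p ^ 5 * v ^ 6 +
    (768 / 5) * p ^ 5 * u * v ^ 5 +
    384 * p ^ 5 * u ^ 2 * v ^ 4 +
    512 * p ^ 5 * u ^ 3 * v ^ 3 +
    384 * p ^ 5 * u ^ 4 * v ^ 2 +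
    (768 / 5) * p ^ 5 * u ^ 5 * v +
    (128 / 5) * p ^ 5 * u ^ 6 := by
  positivity

theorem g2pu_z0 {c s : ℝ} (h1 : 0 ≤ c) (h2 : c ≤ 1) (h3 : 1 ≤ s) (h4 : s ≤ 3 / 2) :
    0 ≤ c ^ 2 * s ^ 2 + (1 - c) * (1 + c * s) - 0 * s - (1 - c) * ((1 + c * s + (c * s) ^ 2 / 2 + (c * s) ^ 3 / 6 + (c * s) ^ 4 / 17) * (1 - s ^ 2 / 2 + s ^ 4 / 24)) + 0 * ((1 + c * s + (c * s) ^ 2 / 2 + (c * s) ^ 3 / 6) * (s - s ^ 3 / 6)) -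
      (3 / 5) * s ^ 2 * ((1 - c) ^ 2 * (1 + c) / 2 + c ^ 2 + c * 0) := by
  have hp : 0 ≤ c - 0 := sub_nonneg.2 h1
  have hq : 0 ≤ 1 - c := sub_nonneg.2 h2
  have hu : 0 ≤ s - 1 := sub_nonneg.2 h3
  have hv : 0 ≤ 3 / 2 - s := sub_nonneg.2 h4
  have h := g2pu_z0_c hp hq hu hv
  have h5 := mul_nonneg (sq_nonneg s) h
  refine h5.trans (le_of_eq ?_)
  ring

theorem g2pu_zp_c {p q u v : ℝ} (hp : 0 ≤ p) (hq : 0 ≤ q) (hu : 0 ≤ u) (hv : 0 ≤ v) :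
    0 ≤ (152 / 15) * q ^ 5 * v ^ 6 +
    (872 / 15) * q ^ 5 * u * v ^ 5 +
    138 * q ^ 5 * u ^ 2 * v ^ 4 +
    (520 / 3) * q ^ 5 * u ^ 3 * v ^ 3 +
    (364 / 3) * q ^ 5 * u ^ 4 * v ^ 2 +
    (224 / 5) * q ^ 5 * u ^ 5 * v +
    (34 / 5) * q ^ 5 * u ^ 6 +
    (4664 / 75) * p * q ^ 4 * v ^ 6 +
    (27796 / 75) * p * q ^ 4 * u * v ^ 5 +
    (4578 / 5) * p * q ^ 4 * u ^ 2 * v ^ 4 +
    (3599 / 3) * p * q ^ 4 * u ^ 3 * v ^ 3 +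
    (13181 / 15) * p * q ^ 4 * u ^ 4 * v ^ 2 +
    (8523 / 25) * p * q ^ 4 * u ^ 5 * v +
    (1367 / 25) * p * q ^ 4 * u ^ 6 +
    (58612 / 375) * p ^ 2 * q ^ 3 * v ^ 6 +
    (355532 / 375) * p ^ 2 * q ^ 3 * u * v ^ 5 +
    (178952 / 75) * p ^ 2 * q ^ 3 * u ^ 2 * v ^ 4 +
    (79689 / 25) * p ^ 2 * q ^ 3 * u ^ 3 * v ^ 3 +
    (238281 / 100) * p ^ 2 * q ^ 3 * u ^ 4 * v ^ 2 +
    (236103 / 250) * p ^ 2 * q ^ 3 * u ^ 5 * v +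
    (77461 / 500) * p ^ 2 * q ^ 3 * u ^ 6 +
    (234748 / 1125) * p ^ 3 * q ^ 2 * v ^ 6 +
    (1423378 / 1125) * p ^ 3 * q ^ 2 * u * v ^ 5 +
    (47786 / 15) * p ^ 3 * q ^ 2 * u ^ 2 * v ^ 4 +
    (106532 / 25) * p ^ 3 * q ^ 2 * u ^ 3 * v ^ 3 +
    (319141 / 100) * p ^ 3 * q ^ 2 * u ^ 4 * v ^ 2 +
    (3803293 / 3000) * p ^ 3 * q ^ 2 * u ^ 5 * v +
    (208461 / 1000) * p ^ 3 * q ^ 2 * u ^ 6 +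
    (2995976 / 19125) * p ^ 4 * q * v ^ 6 +
    (18013946 / 19125) * p ^ 4 * q * u * v ^ 5 +
    (2998468 / 1275) * p ^ 4 * q * u ^ 2 * v ^ 4 +
    (3976736 / 1275) * p ^ 4 * q * u ^ 3 * v ^ 3 +
    (1968199 / 850) * p ^ 4 * q * u ^ 4 * v ^ 2 +
    (46477901 / 51000) * p ^ 4 * q * u ^ 5 * v +
    (630373 / 4250) * p ^ 4 * q * u ^ 6 +
    (6784 / 125) * p ^ 5 * v ^ 6 +
    (40624 / 125) * p ^ 5 * u * v ^ 5 +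
    (20152 / 25) * p ^ 5 * u ^ 2 * v ^ 4 +
    (26468 / 25) * p ^ 5 * u ^ 3 * v ^ 3 +
    (19386 / 25) * p ^ 5 * u ^ 4 * v ^ 2 +
    (37464 / 125) * p ^ 5 * u ^ 5 * v +
    (5954 / 125) * p ^ 5 * u ^ 6 := by
  positivity

theorem g2pu_zp {c s : ℝ} (h1 : 0 ≤ c) (h2 : c ≤ 1) (h3 : 1 ≤ s) (h4 : s ≤ 3 / 2) :
    0 ≤ c ^ 2 * s ^ 2 + (1 - c) * (1 + c * s) - (18 / 25 * c) * s - (1 - c) * ((1 + c * s + (c * s) ^ 2 / 2 + (c * s) ^ 3 / 6 + (c * s) ^ 4 / 17) * (1 - s ^ 2 / 2 + s ^ 4 / 24)) + (18 / 25 * c) * ((1 + c * s + (c * s) ^ 2 / 2 + (c * s) ^ 3 / 6) * (s - s ^ 3 / 6)) -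
      (3 / 5) * s ^ 2 * ((1 - c) ^ 2 * (1 + c) / 2 + c ^ 2 + c * (18 / 25 * c)) := by
  have hp : 0 ≤ c - 0 := sub_nonneg.2 h1
  have hq : 0 ≤ 1 - c := sub_nonneg.2 h2
  have hu : 0 ≤ s - 1 := sub_nonneg.2 h3
  have hv : 0 ≤ 3 / 2 - s := sub_nonneg.2 h4
  have h := g2pu_zp_c hp hq hu hv
  have h5 := mul_nonneg (sq_nonneg s) h
  refine h5.trans (le_of_eq ?_)
  ring

theorem g2pc_z0_c {p q u v : ℝ} (hp : 0 ≤ p) (hq : 0 ≤ q) (hu : 0 ≤ u) (hv : 0 ≤ v) :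
    0 ≤ (112359 / 500) * q ^ 3 * v ^ 4 +
    (266703 / 250) * q ^ 3 * u * v ^ 3 +
    (1841799 / 1000) * q ^ 3 * u ^ 2 * v ^ 2 +
    (1373877 / 1000) * q ^ 3 * u ^ 3 * v +
    (2985219 / 8000) * q ^ 3 * u ^ 4 +
    (167559 / 250) * p * q ^ 2 * v ^ 4 +
    (377703 / 125) * p * q ^ 2 * u * v ^ 3 +
    (2484999 / 500) * p * q ^ 2 * u ^ 2 * v ^ 2 +
    (1769877 / 500) * p * q ^ 2 * u ^ 3 * v +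
    (3676419 / 4000) * p * q ^ 2 * u ^ 4 +
    (311559 / 500) * p ^ 2 * q * v ^ 4 +
    (656703 / 250) * p ^ 2 * q * u * v ^ 3 +
    (4014999 / 1000) * p ^ 2 * q * u ^ 2 * v ^ 2 +
    (2633877 / 1000) * p ^ 2 * q * u ^ 3 * v +
    (4972419 / 8000) * p ^ 2 * q * u ^ 4 +
    (864 / 5) * p ^ 3 * v ^ 4 +
    648 * p ^ 3 * u * v ^ 3 +
    (4212 / 5) * p ^ 3 * u ^ 2 * v ^ 2 +
    432 * p ^ 3 * u ^ 3 * v +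
    (324 / 5) * p ^ 3 * u ^ 4 := by
  positivity

theorem g2pc_z0 {c s : ℝ} (h1 : 2 / 3 ≤ c) (h2 : c ≤ 1) (h3 : 1 ≤ s) (h4 : s ≤ 3 / 2) :
    0 ≤ c * s + 2 * (1 - c) - 0 * s - (1 - c) * ((2719 / 1000) * (1 - s ^ 2 / 2 + s ^ 4 / 24)) + 0 * ((2718 / 1000) * (s - s ^ 3 / 6 + s ^ 5 / 120 - s ^ 7 / 5040)) -
      (3 / 5) * s ^ 2 * ((1 - c) ^ 2 * (1 + c) / 2 + c ^ 2 + c * 0) := by
  have hp : 0 ≤ c - 2 / 3 := sub_nonneg.2 h1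
  have hq : 0 ≤ 1 - c := sub_nonneg.2 h2
  have hu : 0 ≤ s - 1 := sub_nonneg.2 h3
  have hv : 0 ≤ 3 / 2 - s := sub_nonneg.2 h4
  have h := g2pc_z0_c hp hq hu hv
  refine h.trans (le_of_eq ?_)
  ring

theorem g2pc_zp_c {p q u v : ℝ} (hp : 0 ≤ p) (hq : 0 ≤ q) (hu : 0 ≤ u) (hv : 0 ≤ v) :
    0 ≤ (357585618 / 109375) * q ^ 3 * v ^ 7 +
    (374281554 / 15625) * q ^ 3 * u * v ^ 6 +
    (1161637359 / 15625) * q ^ 3 * u ^ 2 * v ^ 5 +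
    (396015387 / 3125) * q ^ 3 * u ^ 3 * v ^ 4 +
    (3202660119 / 25000) * q ^ 3 * u ^ 4 * v ^ 3 +
    (9595539363 / 125000) * q ^ 3 * u ^ 5 * v ^ 2 +
    (1576480959 / 62500) * q ^ 3 * u ^ 6 * v +
    (6126715197 / 1750000) * q ^ 3 * u ^ 7 +
    (159074184 / 15625) * p * q ^ 2 * v ^ 7 +
    (1135882314 / 15625) * p * q ^ 2 * u * v ^ 6 +
    (3429243819 / 15625) * p * q ^ 2 * u ^ 2 * v ^ 5 +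
    (2268303609 / 6250) * p * q ^ 2 * u ^ 3 * v ^ 4 +
    (1108185588 / 3125) * p * q ^ 2 * u ^ 4 * v ^ 3 +
    (25544185083 / 125000) * p * q ^ 2 * u ^ 5 * v ^ 2 +
    (16029579051 / 250000) * p * q ^ 2 * u ^ 6 * v +
    (4205752947 / 500000) * p * q ^ 2 * u ^ 7 +
    (1098337722 / 109375) * p ^ 2 * q * v ^ 7 +
    (1084983966 / 15625) * p ^ 2 * q * u * v ^ 6 +
    (3155793561 / 15625) * p ^ 2 * q * u ^ 2 * v ^ 5 +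
    (998339448 / 3125) * p ^ 2 * q * u ^ 3 * v ^ 4 +
    (7387725051 / 25000) * p ^ 2 * q * u ^ 4 * v ^ 3 +
    (19840216077 / 125000) * p ^ 2 * q * u ^ 5 * v ^ 2 +
    (5659605297 / 125000) * p ^ 2 * q * u ^ 6 * v +
    (4523070519 / 875000) * p ^ 2 * q * u ^ 7 +
    (338204052 / 109375) * p ^ 3 * v ^ 7 +
    (318583206 / 15625) * p ^ 3 * u * v ^ 6 +
    (871837101 / 15625) * p ^ 3 * u ^ 2 * v ^ 5 +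
    (508106061 / 6250) * p ^ 3 * u ^ 3 * v ^ 4 +
    (834850233 / 12500) * p ^ 3 * u ^ 4 * v ^ 3 +
    (3706770357 / 125000) * p ^ 3 * u ^ 5 * v ^ 2 +
    (1458755379 / 250000) * p ^ 3 * u ^ 6 * v +
    (603041841 / 3500000) * p ^ 3 * u ^ 7 := by
  positivity

theorem g2pc_zp {c s : ℝ} (h1 : 2 / 3 ≤ c) (h2 : c ≤ 1) (h3 : 1 ≤ s) (h4 : s ≤ 3 / 2) :
    0 ≤ c * s + 2 * (1 - c) - (18 / 25 * c) * s - (1 - c) * ((2719 / 1000) * (1 - s ^ 2 / 2 + s ^ 4 / 24)) + (18 / 25 * c) * ((2718 / 1000) * (s - s ^ 3 / 6 + s ^ 5 / 120 - s ^ 7 / 5040)) -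
      (3 / 5) * s ^ 2 * ((1 - c) ^ 2 * (1 + c) / 2 + c ^ 2 + c * (18 / 25 * c)) := by
  have hp : 0 ≤ c - 2 / 3 := sub_nonneg.2 h1
  have hq : 0 ≤ 1 - c := sub_nonneg.2 h2
  have hu : 0 ≤ s - 1 := sub_nonneg.2 h3
  have hv : 0 ≤ 3 / 2 - s := sub_nonneg.2 h4
  have h := g2pc_zp_c hp hq hu hv
  refine h.trans (le_of_eq ?_)
  ring

end Cert

end SokalF1G
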