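import Mathlib

/-!
# G-lemmas: polynomial certificates (B)
-/

set_option autoImplicit false

namespace SokalF1G

namespace Cert

theorem g3pu_z0_0_c {p q u v : ℝ} (hp : 0 ≤ p) (hq : 0 ≤ q) (hu : 0 ≤ u) (hv : 0 ≤ v) :
    0 ≤ (256 / 405) * q ^ 5 * u * v ^ 5 +
    (704 / 243) * q ^ 5 * u ^ 2 * v ^ 4 +
    (1280 / 243) * q ^ 5 * u ^ 3 * v ^ 3 +
    (128 / 27) * q ^ 5 * u ^ 4 * v ^ 2 +
    (512 / 243) * q ^ 5 * u ^ 5 * v +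
    (448 / 1215) * q ^ 5 * u ^ 6 +
    (2176 / 1215) * p * q ^ 4 * u * v ^ 5 +
    (1888 / 243) * p * q ^ 4 * u ^ 2 * v ^ 4 +
    (3248 / 243) * p * q ^ 4 * u ^ 3 * v ^ 3 +
    (2768 / 243) * p * q ^ 4 * u ^ 4 * v ^ 2 +
    (1168 / 243) * p * q ^ 4 * u ^ 5 * v +
    (976 / 1215) * p * q ^ 4 * u ^ 6 +
    (1856 / 1215) * p ^ 2 * q ^ 3 * u * v ^ 5 +
    (160 / 27) * p ^ 2 * q ^ 3 * u ^ 2 * v ^ 4 +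
    (2216 / 243) * p ^ 2 * q ^ 3 * u ^ 3 * v ^ 3 +
    (1702 / 243) * p ^ 2 * q ^ 3 * u ^ 4 * v ^ 2 +
    (220 / 81) * p ^ 2 * q ^ 3 * u ^ 5 * v +
    (526 / 1215) * p ^ 2 * q ^ 3 * u ^ 6 +
    (1184 / 3645) * p ^ 3 * q ^ 2 * u * v ^ 5 +
    (560 / 729) * p ^ 3 * q ^ 2 * u ^ 2 * v ^ 4 +
    (448 / 729) * p ^ 3 * q ^ 2 * u ^ 3 * v ^ 3 +
    (217 / 729) * p ^ 3 * q ^ 2 * u ^ 4 * v ^ 2 +
    (319 / 1458) * p ^ 3 * q ^ 2 * u ^ 5 * v +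
    (673 / 7290) * p ^ 3 * q ^ 2 * u ^ 6 +
    (32 / 1215) * p ^ 4 * q * u * v ^ 5 +
    (28 / 243) * p ^ 4 * q * u ^ 2 * v ^ 4 +
    (44 / 81) * p ^ 4 * q * u ^ 3 * v ^ 3 +
    (521 / 486) * p ^ 4 * q * u ^ 4 * v ^ 2 +
    (847 / 972) * p ^ 4 * q * u ^ 5 * v +
    (1081 / 4320) * p ^ 4 * q * u ^ 6 +
    (256 / 3645) * p ^ 5 * u * v ^ 5 +
    (298 / 729) * p ^ 5 * u ^ 2 * v ^ 4 +
    (716 / 729) * p ^ 5 * u ^ 3 * v ^ 3 +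
    (3407 / 2916) * p ^ 5 * u ^ 4 * v ^ 2 +
    (1993 / 2916) * p ^ 5 * u ^ 5 * v +
    (36619 / 233280) * p ^ 5 * u ^ 6 := by
  positivity

theorem g3pu_z0_0 {c s : ℝ} (h1 : 0 ≤ c) (h2 : c ≤ 1 / 2) (h3 : 0 ≤ s) (h4 : s ≤ 3 / 2) :
    0 ≤ c ^ 2 * s ^ 2 + (1 - c) * (1 - c * s) + 0 * s - (1 - c) * ((1 - c * s + (c * s) ^ 2 / 2 - (c * s) ^ 3 / 6 + (c * s) ^ 4 / 24) * (1 - s ^ 2 / 2 + s ^ 4 / 24)) - 0 * ((1 - c * s + (c * s) ^ 2 / 2 - (c * s) ^ 3 / 6 + (c * s) ^ 4 / 24) * (s - s ^ 3 / 6 + s ^ 5 / 120)) -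
      (1 - 3 / 10 * s) * s ^ 2 * ((1 - c) ^ 2 * (1 + c) / 2 + c ^ 2 + c * 0) := by
  have hp : 0 ≤ c - 0 := sub_nonneg.2 h1
  have hq : 0 ≤ 1 / 2 - c := sub_nonneg.2 h2
  have hu : 0 ≤ s - 0 := sub_nonneg.2 h3
  have hv : 0 ≤ 3 / 2 - s := sub_nonneg.2 h4
  have h := g3pu_z0_0_c hp hq hu hv
  have h5 := mul_nonneg (sq_nonneg s) h
  refine h5.trans (le_of_eq ?_)
  ring

theorem g3pu_z0_1_c {p q u v : ℝ} (hp : 0 ≤ p) (hq : 0 ≤ q) (hu : 0 ≤ u) (hv : 0 ≤ v) :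
    0 ≤ (256 / 3645) * q ^ 5 * u * v ^ 5 +
    (298 / 729) * q ^ 5 * u ^ 2 * v ^ 4 +
    (716 / 729) * q ^ 5 * u ^ 3 * v ^ 3 +
    (3407 / 2916) * q ^ 5 * u ^ 4 * v ^ 2 +
    (1993 / 2916) * q ^ 5 * u ^ 5 * v +
    (36619 / 233280) * q ^ 5 * u ^ 6 +
    (2464 / 3645) * p * q ^ 4 * u * v ^ 5 +
    (2896 / 729) * p * q ^ 4 * u ^ 2 * v ^ 4 +
    (6764 / 729) * p * q ^ 4 * u ^ 3 * v ^ 3 +
    (7736 / 729) * p * q ^ 4 * u ^ 4 * v ^ 2 +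
    (17389 / 2916) * p * q ^ 4 * u ^ 5 * v +
    (38477 / 29160) * p * q ^ 4 * u ^ 6 +
    (1184 / 405) * p ^ 2 * q ^ 3 * u * v ^ 5 +
    (1312 / 81) * p ^ 2 * q ^ 3 * u ^ 2 * v ^ 4 +
    (320 / 9) * p ^ 2 * q ^ 3 * u ^ 3 * v ^ 3 +
    (3115 / 81) * p ^ 2 * q ^ 3 * u ^ 4 * v ^ 2 +
    (3335 / 162) * p ^ 2 * q ^ 3 * u ^ 5 * v +
    (1573 / 360) * p ^ 2 * q ^ 3 * u ^ 6 +
    (19712 / 3645) * p ^ 3 * q ^ 2 * u * v ^ 5 +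
    (20864 / 729) * p ^ 3 * q ^ 2 * u ^ 2 * v ^ 4 +
    (43816 / 729) * p ^ 3 * q ^ 2 * u ^ 3 * v ^ 3 +
    (45580 / 729) * p ^ 3 * q ^ 2 * u ^ 4 * v ^ 2 +
    (23591 / 729) * p ^ 3 * q ^ 2 * u ^ 5 * v +
    (48649 / 7290) * p ^ 3 * q ^ 2 * u ^ 6 +
    (15872 / 3645) * p ^ 4 * q * u * v ^ 5 +
    (16256 / 729) * p ^ 4 * q * u ^ 2 * v ^ 4 +
    (33136 / 729) * p ^ 4 * q * u ^ 3 * v ^ 3 +
    (33616 / 729) * p ^ 4 * q * u ^ 4 * v ^ 2 +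
    (17030 / 729) * p ^ 4 * q * u ^ 5 * v +
    (68963 / 14580) * p ^ 4 * q * u ^ 6 +
    (512 / 405) * p ^ 5 * u * v ^ 5 +
    (512 / 81) * p ^ 5 * u ^ 2 * v ^ 4 +
    (1024 / 81) * p ^ 5 * u ^ 3 * v ^ 3 +
    (1024 / 81) * p ^ 5 * u ^ 4 * v ^ 2 +
    (512 / 81) * p ^ 5 * u ^ 5 * v +
    (512 / 405) * p ^ 5 * u ^ 6 := by
  positivity

theorem g3pu_z0_1 {c s : ℝ} (h1 : 1 / 2 ≤ c) (h2 : c ≤ 1) (h3 : 0 ≤ s) (h4 : s ≤ 3 / 2) :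
    0 ≤ c ^ 2 * s ^ 2 + (1 - c) * (1 - c * s) + 0 * s - (1 - c) * ((1 - c * s + (c * s) ^ 2 / 2 - (c * s) ^ 3 / 6 + (c * s) ^ 4 / 24) * (1 - s ^ 2 / 2 + s ^ 4 / 24)) - 0 * ((1 - c * s + (c * s) ^ 2 / 2 - (c * s) ^ 3 / 6 + (c * s) ^ 4 / 24) * (s - s ^ 3 / 6 + s ^ 5 / 120)) -
      (1 - 3 / 10 * s) * s ^ 2 * ((1 - c) ^ 2 * (1 + c) / 2 + c ^ 2 + c * 0) := by
  have hp : 0 ≤ c - 1 / 2 := sub_nonneg.2 h1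
  have hq : 0 ≤ 1 - c := sub_nonneg.2 h2
  have hu : 0 ≤ s - 0 := sub_nonneg.2 h3
  have hv : 0 ≤ 3 / 2 - s := sub_nonneg.2 h4
  have h := g3pu_z0_1_c hp hq hu hv
  have h5 := mul_nonneg (sq_nonneg s) h
  refine h5.trans (le_of_eq ?_)
  ring

theorem g3pu_z0 {c s : ℝ} (h1 : 0 ≤ c) (h2 : c ≤ 1) (h3 : 0 ≤ s) (h4 : s ≤ 3 / 2) :
    0 ≤ c ^ 2 * s ^ 2 + (1 - c) * (1 - c * s) + 0 * s - (1 - c) * ((1 - c * s + (c * s) ^ 2 / 2 - (c * s) ^ 3 / 6 + (c * s) ^ 4 / 24) * (1 - s ^ 2 / 2 + s ^ 4 / 24)) - 0 * ((1 - c * s + (c * s) ^ 2 / 2 - (c * s) ^ 3 / 6 + (c * s) ^ 4 / 24) * (s - s ^ 3 / 6 + s ^ 5 / 120)) -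
      (1 - 3 / 10 * s) * s ^ 2 * ((1 - c) ^ 2 * (1 + c) / 2 + c ^ 2 + c * 0) := by
  rcases le_total c (1 / 2) with h5 | h5
  · exact g3pu_z0_0 (by linarith) h5 h3 h4
  exact g3pu_z0_1 (by linarith) h2 h3 h4

theorem g3pu_zp_c {p q u v : ℝ} (hp : 0 ≤ p) (hq : 0 ≤ q) (hu : 0 ≤ u) (hv : 0 ≤ v) :
    0 ≤ (16 / 1215) * q ^ 5 * u * v ^ 6 +
    (268 / 3645) * q ^ 5 * u ^ 2 * v ^ 5 +
    (124 / 729) * q ^ 5 * u ^ 3 * v ^ 4 +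
    (152 / 729) * q ^ 5 * u ^ 4 * v ^ 3 +
    (104 / 729) * q ^ 5 * u ^ 5 * v ^ 2 +
    (188 / 3645) * q ^ 5 * u ^ 6 * v +
    (28 / 3645) * q ^ 5 * u ^ 7 +
    (352 / 18225) * p * q ^ 4 * u * v ^ 6 +
    (1712 / 18225) * p * q ^ 4 * u ^ 2 * v ^ 5 +
    (17042 / 91125) * p * q ^ 4 * u ^ 3 * v ^ 4 +
    (17768 / 91125) * p * q ^ 4 * u ^ 4 * v ^ 3 +
    (10252 / 91125) * p * q ^ 4 * u ^ 5 * v ^ 2 +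
    (3128 / 91125) * p * q ^ 4 * u ^ 6 * v +
    (134 / 30375) * p * q ^ 4 * u ^ 7 +
    (656 / 30375) * p ^ 2 * q ^ 3 * u * v ^ 6 +
    (128 / 1125) * p ^ 2 * q ^ 3 * u ^ 2 * v ^ 5 +
    (298 / 1125) * p ^ 2 * q ^ 3 * u ^ 3 * v ^ 4 +
    (21221 / 60750) * p ^ 2 * q ^ 3 * u ^ 4 * v ^ 3 +
    (613 / 2250) * p ^ 2 * q ^ 3 * u ^ 5 * v ^ 2 +
    (791 / 6750) * p ^ 2 * q ^ 3 * u ^ 6 * v +
    (1297 / 60750) * p ^ 2 * q ^ 3 * u ^ 7 +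
    (20992 / 273375) * p ^ 3 * q ^ 2 * u * v ^ 6 +
    (13888 / 30375) * p ^ 3 * q ^ 2 * u ^ 2 * v ^ 5 +
    (104542 / 91125) * p ^ 3 * q ^ 2 * u ^ 3 * v ^ 4 +
    (422507 / 273375) * p ^ 3 * q ^ 2 * u ^ 4 * v ^ 3 +
    (142793 / 121500) * p ^ 3 * q ^ 2 * u ^ 5 * v ^ 2 +
    (87029 / 182250) * p ^ 3 * q ^ 2 * u ^ 6 * v +
    (88561 / 1093500) * p ^ 3 * q ^ 2 * u ^ 7 +
    (23392 / 273375) * p ^ 4 * q * u * v ^ 6 +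
    (45904 / 91125) * p ^ 4 * q * u ^ 2 * v ^ 5 +
    (37846 / 30375) * p ^ 4 * q * u ^ 3 * v ^ 4 +
    (453014 / 273375) * p ^ 4 * q * u ^ 4 * v ^ 3 +
    (455617 / 364500) * p ^ 4 * q * u ^ 5 * v ^ 2 +
    (10943 / 21600) * p ^ 4 * q * u ^ 6 * v +
    (752147 / 8748000) * p ^ 4 * q * u ^ 7 +
    (736 / 30375) * p ^ 5 * u * v ^ 6 +
    (1472 / 10125) * p ^ 5 * u ^ 2 * v ^ 5 +
    (3728 / 10125) * p ^ 5 * u ^ 3 * v ^ 4 +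
    (3034 / 6075) * p ^ 5 * u ^ 4 * v ^ 3 +
    (3851 / 10125) * p ^ 5 * u ^ 5 * v ^ 2 +
    (6251 / 40500) * p ^ 5 * u ^ 6 * v +
    (25397 / 972000) * p ^ 5 * u ^ 7 := by
  positivity

theorem g3pu_zp {c s : ℝ} (h1 : 0 ≤ c) (h2 : c ≤ 1) (h3 : 0 ≤ s) (h4 : s ≤ 3 / 2) :
    0 ≤ c ^ 2 * s ^ 2 + (1 - c) * (1 - c * s) + (18 / 25 * c) * s - (1 - c) * ((1 - c * s + (c * s) ^ 2 / 2 - (c * s) ^ 3 / 6 + (c * s) ^ 4 / 24) * (1 - s ^ 2 / 2 + s ^ 4 / 24)) - (18 / 25 * c) * ((1 - c * s + (c * s) ^ 2 / 2 - (c * s) ^ 3 / 6 + (c * s) ^ 4 / 24) * (s - s ^ 3 / 6 + s ^ 5 / 120)) -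
      (1 - 3 / 10 * s) * s ^ 2 * ((1 - c) ^ 2 * (1 + c) / 2 + c ^ 2 + c * (18 / 25 * c)) := by
  have hp : 0 ≤ c - 0 := sub_nonneg.2 h1
  have hq : 0 ≤ 1 - c := sub_nonneg.2 h2
  have hu : 0 ≤ s - 0 := sub_nonneg.2 h3
  have hv : 0 ≤ 3 / 2 - s := sub_nonneg.2 h4
  have h := g3pu_zp_c hp hq hu hv
  have h5 := mul_nonneg (sq_nonneg s) h
  refine h5.trans (le_of_eq ?_)
  ring

theorem g3pc_z0_c {p q u v : ℝ} (hp : 0 ≤ p) (hq : 0 ≤ q) (hu : 0 ≤ u) (hv : 0 ≤ v) :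
    0 ≤ (484519 / 5000) * q ^ 3 * v ^ 4 +
    (1065223 / 2500) * q ^ 3 * u * v ^ 3 +
    (6943559 / 10000) * q ^ 3 * u ^ 2 * v ^ 2 +
    (5056557 / 10000) * q ^ 3 * u ^ 3 * v +
    (11227779 / 80000) * q ^ 3 * u ^ 4 +
    (948519 / 2500) * p * q ^ 2 * v ^ 4 +
    (2021223 / 1250) * p * q ^ 2 * u * v ^ 3 +
    (12803559 / 5000) * p * q ^ 2 * u ^ 2 * v ^ 2 +
    (9082557 / 5000) * p * q ^ 2 * u ^ 3 * v +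
    (19723779 / 40000) * p * q ^ 2 * u ^ 4 +
    (2088519 / 5000) * p ^ 2 * q * v ^ 4 +
    (4286223 / 2500) * p ^ 2 * q * u * v ^ 3 +
    (26153559 / 10000) * p ^ 2 * q * u ^ 2 * v ^ 2 +
    (17947557 / 10000) * p ^ 2 * q * u ^ 3 * v +
    (38083779 / 80000) * p ^ 2 * q * u ^ 4 +
    (648 / 5) * p ^ 3 * v ^ 4 +
    (2484 / 5) * p ^ 3 * u * v ^ 3 +
    702 * p ^ 3 * u ^ 2 * v ^ 2 +
    (2241 / 5) * p ^ 3 * u ^ 3 * v +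
    (567 / 5) * p ^ 3 * u ^ 4 := by
  positivity

theorem g3pc_z0 {c s : ℝ} (h1 : 2 / 3 ≤ c) (h2 : c ≤ 1) (h3 : 1 ≤ s) (h4 : s ≤ 3 / 2) :
    0 ≤ c * s + 0 * s - (1 - c) * ((3679 / 10000) * (1 - s ^ 2 / 2 + s ^ 4 / 24)) - 0 * ((3679 / 10000) * (s - s ^ 3 / 6 + s ^ 5 / 120)) -
      (1 - 3 / 10 * s) * s ^ 2 * ((1 - c) ^ 2 * (1 + c) / 2 + c ^ 2 + c * 0) := by
  have hp : 0 ≤ c - 2 / 3 := sub_nonneg.2 h1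
  have hq : 0 ≤ 1 - c := sub_nonneg.2 h2
  have hu : 0 ≤ s - 1 := sub_nonneg.2 h3
  have hv : 0 ≤ 3 / 2 - s := sub_nonneg.2 h4
  have h := g3pc_z0_c hp hq hu hv
  refine h.trans (le_of_eq ?_)
  ring

theorem g3pc_zp_c {p q u v : ℝ} (hp : 0 ≤ p) (hq : 0 ≤ q) (hu : 0 ≤ u) (hv : 0 ≤ v) :
    0 ≤ (89554343 / 312500) * q ^ 3 * v ^ 5 +
    (19047387 / 12500) * q ^ 3 * u * v ^ 4 +
    (404178543 / 125000) * q ^ 3 * u ^ 2 * v ^ 3 +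
    (215651761 / 62500) * q ^ 3 * u ^ 3 * v ^ 2 +
    (372438483 / 200000) * q ^ 3 * u ^ 4 * v +
    (2039678937 / 5000000) * q ^ 3 * u ^ 5 +
    (77088222 / 78125) * p * q ^ 2 * v ^ 5 +
    (63815217 / 12500) * p * q ^ 2 * u * v ^ 4 +
    (329812497 / 31250) * p * q ^ 2 * u ^ 2 * v ^ 3 +
    (1375225977 / 125000) * p * q ^ 2 * u ^ 3 * v ^ 2 +
    (18209052 / 3125) * p * q ^ 2 * u ^ 4 * v +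
    (6302307717 / 5000000) * p * q ^ 2 * u ^ 5 +
    (301422747 / 312500) * p ^ 2 * q * v ^ 5 +
    (59699073 / 12500) * p ^ 2 * q * u * v ^ 4 +
    (1180210347 / 125000) * p ^ 2 * q * u ^ 2 * v ^ 3 +
    (295287597 / 31250) * p ^ 2 * q * u ^ 3 * v ^ 2 +
    (970486407 / 200000) * p ^ 2 * q * u ^ 4 * v +
    (5166898623 / 5000000) * p ^ 2 * q * u ^ 5 +
    (39562101 / 156250) * p ^ 3 * v ^ 5 +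
    (14121243 / 12500) * p ^ 3 * u * v ^ 4 +
    (123344451 / 62500) * p ^ 3 * u ^ 2 * v ^ 3 +
    (216552933 / 125000) * p ^ 3 * u ^ 3 * v ^ 2 +
    (79652781 / 100000) * p ^ 3 * u ^ 4 * v +
    (805269843 / 5000000) * p ^ 3 * u ^ 5 := by
  positivity

theorem g3pc_zp {c s : ℝ} (h1 : 2 / 3 ≤ c) (h2 : c ≤ 1) (h3 : 1 ≤ s) (h4 : s ≤ 3 / 2) :
    0 ≤ c * s + (18 / 25 * c) * s - (1 - c) * ((3679 / 10000) * (1 - s ^ 2 / 2 + s ^ 4 / 24)) - (18 / 25 * c) * ((3679 / 10000) * (s - s ^ 3 / 6 + s ^ 5 / 120)) -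
      (1 - 3 / 10 * s) * s ^ 2 * ((1 - c) ^ 2 * (1 + c) / 2 + c ^ 2 + c * (18 / 25 * c)) := by
  have hp : 0 ≤ c - 2 / 3 := sub_nonneg.2 h1
  have hq : 0 ≤ 1 - c := sub_nonneg.2 h2
  have hu : 0 ≤ s - 1 := sub_nonneg.2 h3
  have hv : 0 ≤ 3 / 2 - s := sub_nonneg.2 h4
  have h := g3pc_zp_c hp hq hu hv
  refine h.trans (le_of_eq ?_)
  ring

end Cert

end SokalF1G
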