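import Mathlib

/-!
# G-lemmas: polynomial certificates (C)
-/

set_option autoImplicit false

namespace SokalF1G

namespace Cert

theorem g1m_z0_c {p q u v : ℝ} (hp : 0 ≤ p) (hq : 0 ≤ q) (hu : 0 ≤ u) (hv : 0 ≤ v) :
    0 ≤ (1 / 8) * q ^ 5 * u * v ^ 5 +
    (7 / 12) * q ^ 5 * u ^ 2 * v ^ 4 +
    (13 / 12) * q ^ 5 * u ^ 3 * v ^ 3 +
    1 * q ^ 5 * u ^ 4 * v ^ 2 +
    (11 / 24) * q ^ 5 * u ^ 5 * v +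
    (1 / 12) * q ^ 5 * u ^ 6 +
    1 * p * q ^ 4 * u * v ^ 5 +
    (29 / 6) * p * q ^ 4 * u ^ 2 * v ^ 4 +
    (223 / 24) * p * q ^ 4 * u ^ 3 * v ^ 3 +
    (71 / 8) * p * q ^ 4 * u ^ 4 * v ^ 2 +
    (101 / 24) * p * q ^ 4 * u ^ 5 * v +
    (19 / 24) * p * q ^ 4 * u ^ 6 +
    (19 / 8) * p ^ 2 * q ^ 3 * u * v ^ 5 +
    (95 / 8) * p ^ 2 * q ^ 3 * u ^ 2 * v ^ 4 +
    (189 / 8) * p ^ 2 * q ^ 3 * u ^ 3 * v ^ 3 +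
    (1121 / 48) * p ^ 2 * q ^ 3 * u ^ 4 * v ^ 2 +
    (275 / 24) * p ^ 2 * q ^ 3 * u ^ 5 * v +
    (107 / 48) * p ^ 2 * q ^ 3 * u ^ 6 +
    (7 / 3) * p ^ 3 * q ^ 2 * u * v ^ 5 +
    12 * p ^ 3 * q ^ 2 * u ^ 2 * v ^ 4 +
    (197 / 8) * p ^ 3 * q ^ 2 * u ^ 3 * v ^ 3 +
    (151 / 6) * p ^ 3 * q ^ 2 * u ^ 4 * v ^ 2 +
    (1841 / 144) * p ^ 3 * q ^ 2 * u ^ 5 * v +
    (371 / 144) * p ^ 3 * q ^ 2 * u ^ 6 +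
    (13 / 12) * p ^ 4 * q * u * v ^ 5 +
    (847 / 152) * p ^ 4 * q * u ^ 2 * v ^ 4 +
    (5243 / 456) * p ^ 4 * q * u ^ 3 * v ^ 3 +
    (3617 / 304) * p ^ 4 * q * u ^ 4 * v ^ 2 +
    (16877 / 2736) * p ^ 4 * q * u ^ 5 * v +
    (1747 / 1368) * p ^ 4 * q * u ^ 6 +
    (1 / 4) * p ^ 5 * u * v ^ 5 +
    (5 / 4) * p ^ 5 * u ^ 2 * v ^ 4 +
    (5 / 2) * p ^ 5 * u ^ 3 * v ^ 3 +
    (5 / 2) * p ^ 5 * u ^ 4 * v ^ 2 +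
    (5 / 4) * p ^ 5 * u ^ 5 * v +
    (1 / 4) * p ^ 5 * u ^ 6 := by
  positivity

theorem g1m_z0 {c s : ℝ} (h1 : 0 ≤ c) (h2 : c ≤ 1) (h3 : 0 ≤ s) (h4 : s ≤ 1) :
    0 ≤ c ^ 2 * s ^ 2 + (1 - c) * (1 + c * s) - 0 * s - (1 - c) * ((1 + c * s + (c * s) ^ 2 / 2 + (c * s) ^ 3 / 6 + (c * s) ^ 4 / 19) * (1 - s ^ 2 / 2 + s ^ 4 / 24)) + 0 * ((1 + c * s + (c * s) ^ 2 / 2 + (c * s) ^ 3 / 6 + (c * s) ^ 4 / 19) * (s - s ^ 3 / 6 + s ^ 5 / 120)) -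
      (1 - s / 4) * s ^ 2 * ((1 - c) ^ 2 * (1 + c) / 2 + c ^ 2 + c * 0) := by
  have hp : 0 ≤ c - 0 := sub_nonneg.2 h1
  have hq : 0 ≤ 1 - c := sub_nonneg.2 h2
  have hu : 0 ≤ s - 0 := sub_nonneg.2 h3
  have hv : 0 ≤ 1 - s := sub_nonneg.2 h4
  have h := g1m_z0_c hp hq hu hv
  have h5 := mul_nonneg (sq_nonneg s) h
  refine h5.trans (le_of_eq ?_)
  ring

theorem g1m_zm_c {p q u v : ℝ} (hp : 0 ≤ p) (hq : 0 ≤ q) (hu : 0 ≤ u) (hv : 0 ≤ v) :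
    0 ≤ (400000 / 371293) * q ^ 5 * u * v ^ 6 +
    (6800000 / 1113879) * q ^ 5 * u ^ 2 * v ^ 5 +
    (16000000 / 1113879) * q ^ 5 * u ^ 3 * v ^ 4 +
    (20000000 / 1113879) * q ^ 5 * u ^ 4 * v ^ 3 +
    (14000000 / 1113879) * q ^ 5 * u ^ 5 * v ^ 2 +
    (400000 / 85683) * q ^ 5 * u ^ 6 * v +
    (800000 / 1113879) * q ^ 5 * u ^ 7 +
    (9172000 / 1113879) * p * q ^ 4 * u * v ^ 6 +
    (17764000 / 371293) * p * q ^ 4 * u ^ 2 * v ^ 5 +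
    (128578400 / 1113879) * p * q ^ 4 * u ^ 3 * v ^ 4 +
    (164833600 / 1113879) * p * q ^ 4 * u ^ 4 * v ^ 3 +
    (39456800 / 371293) * p * q ^ 4 * u ^ 5 * v ^ 2 +
    (3471200 / 85683) * p * q ^ 4 * u ^ 6 * v +
    (2376800 / 371293) * p * q ^ 4 * u ^ 7 +
    (22355800 / 1113879) * p ^ 2 * q ^ 3 * u * v ^ 6 +
    (44243200 / 371293) * p ^ 2 * q ^ 3 * u ^ 2 * v ^ 5 +
    (109091200 / 371293) * p ^ 2 * q ^ 3 * u ^ 3 * v ^ 4 +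
    (428802860 / 1113879) * p ^ 2 * q ^ 3 * u ^ 4 * v ^ 3 +
    (104908660 / 371293) * p ^ 2 * q ^ 3 * u ^ 5 * v ^ 2 +
    (3144220 / 28561) * p ^ 2 * q ^ 3 * u ^ 6 * v +
    (19801660 / 1113879) * p ^ 2 * q ^ 3 * u ^ 7 +
    (22870990 / 1113879) * p ^ 3 * q ^ 2 * u * v ^ 6 +
    (138791240 / 1113879) * p ^ 3 * q ^ 2 * u ^ 2 * v ^ 5 +
    (349984210 / 1113879) * p ^ 3 * q ^ 2 * u ^ 3 * v ^ 4 +
    (469164545 / 1113879) * p ^ 3 * q ^ 2 * u ^ 4 * v ^ 3 +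
    (1057226486 / 3341637) * p ^ 3 * q ^ 2 * u ^ 5 * v ^ 2 +
    (32430139 / 257049) * p ^ 3 * q ^ 2 * u ^ 6 * v +
    (69667076 / 3341637) * p ^ 3 * q ^ 2 * u ^ 7 +
    (9648190 / 1113879) * p ^ 4 * q * u * v ^ 6 +
    (1139176528 / 21163701) * p ^ 4 * q * u ^ 2 * v ^ 5 +
    (2945174075 / 21163701) * p ^ 4 * q * u ^ 3 * v ^ 4 +
    (639876784 / 3341637) * p ^ 4 * q * u ^ 4 * v ^ 3 +
    (4170456031 / 28218268) * p ^ 4 * q * u ^ 5 * v ^ 2 +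
    (1479951797 / 24419655) * p ^ 4 * q * u ^ 6 * v +
    (13081360549 / 1269822060) * p ^ 4 * q * u ^ 7 +
    (387000 / 371293) * p ^ 5 * u * v ^ 6 +
    (141771247 / 21163701) * p ^ 5 * u ^ 2 * v ^ 5 +
    (632268628 / 35272835) * p ^ 5 * u ^ 3 * v ^ 4 +
    (16225799641 / 634911030) * p ^ 5 * u ^ 4 * v ^ 3 +
    (5197202017 / 253964412) * p ^ 5 * u ^ 5 * v ^ 2 +
    (113539493 / 13023816) * p ^ 5 * u ^ 6 * v +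
    (6521028083 / 4232740200) * p ^ 5 * u ^ 7 := by
  positivity

theorem g1m_zm {c s : ℝ} (h1 : 0 ≤ c) (h2 : c ≤ 13 / 20) (h3 : 0 ≤ s) (h4 : s ≤ 1) :
    0 ≤ c ^ 2 * s ^ 2 + (1 - c) * (1 + c * s) - (-(4 / 5) * c) * s - (1 - c) * ((1 + c * s + (c * s) ^ 2 / 2 + (c * s) ^ 3 / 6 + (c * s) ^ 4 / 19) * (1 - s ^ 2 / 2 + s ^ 4 / 24)) + (-(4 / 5) * c) * ((1 + c * s + (c * s) ^ 2 / 2 + (c * s) ^ 3 / 6 + (c * s) ^ 4 / 19) * (s - s ^ 3 / 6 + s ^ 5 / 120)) -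
      (1 - s / 4) * s ^ 2 * ((1 - c) ^ 2 * (1 + c) / 2 + c ^ 2 + c * (-(4 / 5) * c)) := by
  have hp : 0 ≤ c - 0 := sub_nonneg.2 h1
  have hq : 0 ≤ 13 / 20 - c := sub_nonneg.2 h2
  have hu : 0 ≤ s - 0 := sub_nonneg.2 h3
  have hv : 0 ≤ 1 - s := sub_nonneg.2 h4
  have h := g1m_zm_c hp hq hu hv
  have h5 := mul_nonneg (sq_nonneg s) h
  refine h5.trans (le_of_eq ?_)
  ring

theorem g1m_zL_c {p q u v : ℝ} (hp : 0 ≤ p) (hq : 0 ≤ q) (hu : 0 ≤ u) (hv : 0 ≤ v) :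
    0 ≤ (7740000 / 117649) * q ^ 6 * u * v ^ 6 +
    (2835424940 / 6705993) * q ^ 6 * u ^ 2 * v ^ 5 +
    (2529074512 / 2235331) * q ^ 6 * u ^ 3 * v ^ 4 +
    (32451599282 / 20117979) * q ^ 6 * u ^ 4 * v ^ 3 +
    (3712287155 / 2873997) * q ^ 6 * u ^ 5 * v ^ 2 +
    (7380067045 / 13411986) * q ^ 6 * u ^ 6 * v +
    (6521028083 / 67059930) * q ^ 6 * u ^ 7 +
    (107791286 / 352947) * p * q ^ 5 * u * v ^ 6 +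
    (134457176657 / 67059930) * p * q ^ 5 * u ^ 2 * v ^ 5 +
    (3674438898227 / 670599300) * p * q ^ 5 * u ^ 3 * v ^ 4 +
    (5349895578113 / 670599300) * p * q ^ 5 * u ^ 4 * v ^ 3 +
    (750028270573 / 114959880) * p * q ^ 5 * u ^ 5 * v ^ 2 +
    (4568273961733 / 1609438320) * p * q ^ 5 * u ^ 6 * v +
    (2168750918713 / 4235364000) * p * q ^ 5 * u ^ 7 +
    (187119512 / 352947) * p ^ 2 * q ^ 4 * u * v ^ 6 +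
    (240850203217 / 67059930) * p ^ 2 * q ^ 4 * u ^ 2 * v ^ 5 +
    (135678780959 / 13411986) * p ^ 2 * q ^ 4 * u ^ 3 * v ^ 4 +
    (6104211360803 / 402359580) * p ^ 2 * q ^ 4 * u ^ 4 * v ^ 3 +
    (734279901259 / 57479940) * p ^ 2 * q ^ 4 * u ^ 5 * v ^ 2 +
    (46029461096477 / 8047191600) * p ^ 2 * q ^ 4 * u ^ 6 * v +
    (8537997666607 / 8047191600) * p ^ 2 * q ^ 4 * u ^ 7 +
    (145888366 / 352947) * p ^ 3 * q ^ 3 * u * v ^ 6 +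
    (19800314956 / 6705993) * p ^ 3 * q ^ 3 * u ^ 2 * v ^ 5 +
    (19516093787 / 2235331) * p ^ 3 * q ^ 3 * u ^ 3 * v ^ 4 +
    (275757391990 / 20117979) * p ^ 3 * q ^ 3 * u ^ 4 * v ^ 3 +
    (693236982521 / 57479940) * p ^ 3 * q ^ 3 * u ^ 5 * v ^ 2 +
    (75555663959 / 13411986) * p ^ 3 * q ^ 3 * u ^ 6 * v +
    (48614816227 / 44706620) * p ^ 3 * q ^ 3 * u ^ 7 +
    (46611340 / 352947) * p ^ 4 * q ^ 2 * u * v ^ 6 +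
    (7075417760 / 6705993) * p ^ 4 * q ^ 2 * u ^ 2 * v ^ 5 +
    (7649954360 / 2235331) * p ^ 4 * q ^ 2 * u ^ 3 * v ^ 4 +
    (39076033226 / 6705993) * p ^ 4 * q ^ 2 * u ^ 4 * v ^ 3 +
    (2266307759 / 410571) * p ^ 4 * q ^ 2 * u ^ 5 * v ^ 2 +
    (55515349426 / 20117979) * p ^ 4 * q ^ 2 * u ^ 6 * v +
    (11393219393 / 20117979) * p ^ 4 * q ^ 2 * u ^ 7 +
    (1466400 / 117649) * p ^ 5 * q * u * v ^ 6 +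
    (878422400 / 6705993) * p ^ 5 * q * u ^ 2 * v ^ 5 +
    (3439051640 / 6705993) * p ^ 5 * q * u ^ 3 * v ^ 4 +
    (20416163120 / 20117979) * p ^ 5 * q * u ^ 4 * v ^ 3 +
    (3143689660 / 2873997) * p ^ 5 * q * u ^ 5 * v ^ 2 +
    (12316515640 / 20117979) * p ^ 5 * q * u ^ 6 * v +
    (2783840420 / 20117979) * p ^ 5 * q * u ^ 7 +
    (376000 / 117649) * p ^ 6 * u * v ^ 6 +
    (2256000 / 117649) * p ^ 6 * u ^ 2 * v ^ 5 +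
    (118543200 / 2235331) * p ^ 6 * u ^ 3 * v ^ 4 +
    (198308000 / 2235331) * p ^ 6 * u ^ 4 * v ^ 3 +
    (29641200 / 319333) * p ^ 6 * u ^ 5 * v ^ 2 +
    (122062800 / 2235331) * p ^ 6 * u ^ 6 * v +
    (29836000 / 2235331) * p ^ 6 * u ^ 7 := by
  positivity

theorem g1m_zL {c s : ℝ} (h1 : 13 / 20 ≤ c) (h2 : c ≤ 1) (h3 : 0 ≤ s) (h4 : s ≤ 1) :
    0 ≤ c ^ 2 * s ^ 2 + (1 - c) * (1 + c * s) - ((-(4 / 5) + 109 / 100 * (c - 13 / 20)) * c) * s - (1 - c) * ((1 + c * s + (c * s) ^ 2 / 2 + (c * s) ^ 3 / 6 + (c * s) ^ 4 / 19) * (1 - s ^ 2 / 2 + s ^ 4 / 24)) + ((-(4 / 5) + 109 / 100 * (c - 13 / 20)) * c) * ((1 + c * s + (c * s) ^ 2 / 2 + (c * s) ^ 3 / 6 + (c * s) ^ 4 / 19) * (s - s ^ 3 / 6 + s ^ 5 / 120)) -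
      (1 - s / 4) * s ^ 2 * ((1 - c) ^ 2 * (1 + c) / 2 + c ^ 2 + c * ((-(4 / 5) + 109 / 100 * (c - 13 / 20)) * c)) := by
  have hp : 0 ≤ c - 13 / 20 := sub_nonneg.2 h1
  have hq : 0 ≤ 1 - c := sub_nonneg.2 h2
  have hu : 0 ≤ s - 0 := sub_nonneg.2 h3
  have hv : 0 ≤ 1 - s := sub_nonneg.2 h4
  have h := g1m_zL_c hp hq hu hv
  have h5 := mul_nonneg (sq_nonneg s) h
  refine h5.trans (le_of_eq ?_)
  ring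

theorem g1r_z0_c {p q u v : ℝ} (hp : 0 ≤ p) (hq : 0 ≤ q) (hu : 0 ≤ u) (hv : 0 ≤ v) :
    0 ≤ (1 / 20) * q ^ 5 * v ^ 6 +
    (3 / 10) * q ^ 5 * u * v ^ 5 +
    (17 / 24) * q ^ 5 * u ^ 2 * v ^ 4 +
    (5 / 6) * q ^ 5 * u ^ 3 * v ^ 3 +
    (1 / 2) * q ^ 5 * u ^ 4 * v ^ 2 +
    (2 / 15) * q ^ 5 * u ^ 5 * v +
    (1 / 120) * q ^ 5 * u ^ 6 +
    (1 / 5) * p * q ^ 4 * v ^ 6 +
    (17 / 10) * p * q ^ 4 * u * v ^ 5 +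
    (16 / 3) * p * q ^ 4 * u ^ 2 * v ^ 4 +
    (199 / 24) * p * q ^ 4 * u ^ 3 * v ^ 3 +
    (55 / 8) * p * q ^ 4 * u ^ 4 * v ^ 2 +
    (349 / 120) * p * q ^ 4 * u ^ 5 * v +
    (59 / 120) * p * q ^ 4 * u ^ 6 +
    (7 / 20) * p ^ 2 * q ^ 3 * v ^ 6 +
    (18 / 5) * p ^ 2 * q ^ 3 * u * v ^ 5 +
    (51 / 4) * p ^ 2 * q ^ 3 * u ^ 2 * v ^ 4 +
    (175 / 8) * p ^ 2 * q ^ 3 * u ^ 3 * v ^ 3 +
    (953 / 48) * p ^ 2 * q ^ 3 * u ^ 4 * v ^ 2 +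
    (551 / 60) * p ^ 2 * q ^ 3 * u ^ 5 * v +
    (409 / 240) * p ^ 2 * q ^ 3 * u ^ 6 +
    (2 / 5) * p ^ 3 * q ^ 2 * v ^ 6 +
    (56 / 15) * p ^ 3 * q ^ 2 * u * v ^ 5 +
    13 * p ^ 3 * q ^ 2 * u ^ 2 * v ^ 4 +
    (181 / 8) * p ^ 3 * q ^ 2 * u ^ 3 * v ^ 3 +
    (127 / 6) * p ^ 3 * q ^ 2 * u ^ 4 * v ^ 2 +
    (7333 / 720) * p ^ 3 * q ^ 2 * u ^ 5 * v +
    (1423 / 720) * p ^ 3 * q ^ 2 * u ^ 6 +
    (3 / 10) * p ^ 4 * q * v ^ 6 +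
    (32 / 15) * p ^ 4 * q * u * v ^ 5 +
    (961 / 152) * p ^ 4 * q * u ^ 2 * v ^ 4 +
    (4559 / 456) * p ^ 4 * q * u ^ 3 * v ^ 3 +
    (2705 / 304) * p ^ 4 * q * u ^ 4 * v ^ 2 +
    (57709 / 13680) * p ^ 4 * q * u ^ 5 * v +
    (5657 / 6840) * p ^ 4 * q * u ^ 6 +
    (1 / 10) * p ^ 5 * v ^ 6 +
    (3 / 5) * p ^ 5 * u * v ^ 5 +
    (3 / 2) * p ^ 5 * u ^ 2 * v ^ 4 +
    2 * p ^ 5 * u ^ 3 * v ^ 3 +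
    (3 / 2) * p ^ 5 * u ^ 4 * v ^ 2 +
    (3 / 5) * p ^ 5 * u ^ 5 * v +
    (1 / 10) * p ^ 5 * u ^ 6 := by
  positivity

theorem g1r_z0 {c s : ℝ} (h1 : 0 ≤ c) (h2 : c ≤ 1) (h3 : 0 ≤ s) (h4 : s ≤ 1) :
    0 ≤ c ^ 2 * s ^ 2 + (1 - c) * (1 + c * s) - 0 * s - (1 - c) * ((1 + c * s + (c * s) ^ 2 / 2 + (c * s) ^ 3 / 6 + (c * s) ^ 4 / 19) * (1 - s ^ 2 / 2 + s ^ 4 / 24)) + 0 * ((1 + c * s + (c * s) ^ 2 / 2 + (c * s) ^ 3 / 6 + (c * s) ^ 4 / 19) * (s - s ^ 3 / 6 + s ^ 5 / 120)) -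
      (9 / 10) * s ^ 2 * ((1 - c) ^ 2 * (1 + c) / 2 + c ^ 2 + c * 0) := by
  have hp : 0 ≤ c - 0 := sub_nonneg.2 h1
  have hq : 0 ≤ 1 - c := sub_nonneg.2 h2
  have hu : 0 ≤ s - 0 := sub_nonneg.2 h3
  have hv : 0 ≤ 1 - s := sub_nonneg.2 h4
  have h := g1r_z0_c hp hq hu hv
  have h5 := mul_nonneg (sq_nonneg s) h
  refine h5.trans (le_of_eq ?_)
  ring

theorem g1r_zm_c {p q u v : ℝ} (hp : 0 ≤ p) (hq : 0 ≤ q) (hu : 0 ≤ u) (hv : 0 ≤ v) :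
    0 ≤ (1953125 / 7558272) * q ^ 5 * v ^ 7 +
    (13671875 / 7558272) * q ^ 5 * u * v ^ 6 +
    (236328125 / 45349632) * q ^ 5 * u ^ 2 * v ^ 5 +
    (361328125 / 45349632) * q ^ 5 * u ^ 3 * v ^ 4 +
    (9765625 / 1417176) * q ^ 5 * u ^ 4 * v ^ 3 +
    (37109375 / 11337408) * q ^ 5 * u ^ 5 * v ^ 2 +
    (33203125 / 45349632) * q ^ 5 * u ^ 6 * v +
    (1953125 / 45349632) * q ^ 5 * u ^ 7 +
    (8359375 / 7558272) * p * q ^ 4 * v ^ 7 +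
    (76328125 / 7558272) * p * q ^ 4 * u * v ^ 6 +
    (1652734375 / 45349632) * p * q ^ 4 * u ^ 2 * v ^ 5 +
    (3141453125 / 45349632) * p * q ^ 4 * u ^ 3 * v ^ 4 +
    (430296875 / 5668704) * p * q ^ 4 * u ^ 4 * v ^ 3 +
    (68421875 / 1417176) * p * q ^ 4 * u ^ 5 * v ^ 2 +
    (750734375 / 45349632) * p * q ^ 4 * u ^ 6 * v +
    (107078125 / 45349632) * p * q ^ 4 * u ^ 7 +
    (6649375 / 3779136) * p ^ 2 * q ^ 3 * v ^ 7 +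
    (77108125 / 3779136) * p ^ 2 * q ^ 3 * u * v ^ 6 +
    (1926593125 / 22674816) * p ^ 2 * q ^ 3 * u ^ 2 * v ^ 5 +
    (4075821875 / 22674816) * p ^ 2 * q ^ 3 * u ^ 3 * v ^ 4 +
    (4892291875 / 22674816) * p ^ 2 * q ^ 3 * u ^ 4 * v ^ 3 +
    (3385965625 / 22674816) * p ^ 2 * q ^ 3 * u ^ 5 * v ^ 2 +
    (630998125 / 11337408) * p ^ 2 * q ^ 3 * u ^ 6 * v +
    (98170625 / 11337408) * p ^ 2 * q ^ 3 * u ^ 7 +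
    (5000125 / 3779136) * p ^ 3 * q ^ 2 * v ^ 7 +
    (69119875 / 3779136) * p ^ 3 * q ^ 2 * u * v ^ 6 +
    (1889492875 / 22674816) * p ^ 3 * q ^ 2 * u ^ 2 * v ^ 5 +
    (4266387875 / 22674816) * p ^ 3 * q ^ 2 * u ^ 3 * v ^ 4 +
    (5410880875 / 22674816) * p ^ 3 * q ^ 2 * u ^ 4 * v ^ 3 +
    (3938021575 / 22674816) * p ^ 3 * q ^ 2 * u ^ 5 * v ^ 2 +
    (384949475 / 5668704) * p ^ 3 * q ^ 2 * u ^ 6 * v +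
    (62760925 / 5668704) * p ^ 3 * q ^ 2 * u ^ 7 +
    (3776125 / 7558272) * p ^ 4 * q * v ^ 7 +
    (52533475 / 7558272) * p ^ 4 * q * u * v ^ 6 +
    (28100660155 / 861643008) * p ^ 4 * q * u ^ 2 * v ^ 5 +
    (65805393575 / 861643008) * p ^ 4 * q * u ^ 3 * v ^ 4 +
    (2285827565 / 22674816) * p ^ 4 * q * u ^ 4 * v ^ 3 +
    (32970264155 / 430821504) * p ^ 4 * q * u ^ 5 * v ^ 2 +
    (26930582789 / 861643008) * p ^ 4 * q * u ^ 6 * v +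
    (4588430629 / 861643008) * p ^ 4 * q * u ^ 7 +
    (668375 / 7558272) * p ^ 5 * v ^ 7 +
    (5853725 / 7558272) * p ^ 5 * u * v ^ 6 +
    (2644100537 / 861643008) * p ^ 5 * u ^ 2 * v ^ 5 +
    (1561047113 / 226748160) * p ^ 5 * u ^ 3 * v ^ 4 +
    (19932857879 / 2154107520) * p ^ 5 * u ^ 4 * v ^ 3 +
    (3178027483 / 430821504) * p ^ 5 * u ^ 5 * v ^ 2 +
    (13843070159 / 4308215040) * p ^ 5 * u ^ 6 * v +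
    (12659787353 / 21541075200) * p ^ 5 * u ^ 7 := by
  positivity

theorem g1r_zm {c s : ℝ} (h1 : 0 ≤ c) (h2 : c ≤ 18 / 25) (h3 : 0 ≤ s) (h4 : s ≤ 1) :
    0 ≤ c ^ 2 * s ^ 2 + (1 - c) * (1 + c * s) - (-(4 / 5) * c) * s - (1 - c) * ((1 + c * s + (c * s) ^ 2 / 2 + (c * s) ^ 3 / 6 + (c * s) ^ 4 / 19) * (1 - s ^ 2 / 2 + s ^ 4 / 24)) + (-(4 / 5) * c) * ((1 + c * s + (c * s) ^ 2 / 2 + (c * s) ^ 3 / 6 + (c * s) ^ 4 / 19) * (s - s ^ 3 / 6 + s ^ 5 / 120)) -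
      (9 / 10) * s ^ 2 * ((1 - c) ^ 2 * (1 + c) / 2 + c ^ 2 + c * (-(4 / 5) * c)) := by
  have hp : 0 ≤ c - 0 := sub_nonneg.2 h1
  have hq : 0 ≤ 18 / 25 - c := sub_nonneg.2 h2
  have hu : 0 ≤ s - 0 := sub_nonneg.2 h3
  have hv : 0 ≤ 1 - s := sub_nonneg.2 h4
  have h := g1r_zm_c hp hq hu hv
  have h5 := mul_nonneg (sq_nonneg s) h
  refine h5.trans (le_of_eq ?_)
  ring

theorem g1r_zT_c {p q u v : ℝ} (hp : 0 ≤ p) (hq : 0 ≤ q) (hu : 0 ≤ u) (hv : 0 ≤ v) :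
    0 ≤ (168500 / 16807) * q ^ 5 * v ^ 7 +
    (5057425 / 57624) * q ^ 5 * u * v ^ 6 +
    (380285261 / 1094856) * q ^ 5 * u ^ 2 * v ^ 5 +
    (17040075841 / 21897120) * q ^ 5 * u ^ 3 * v ^ 4 +
    (11437350227 / 10948560) * q ^ 5 * u ^ 4 * v ^ 3 +
    (1821574333 / 2189712) * q ^ 5 * u ^ 5 * v ^ 2 +
    (3963743051 / 10948560) * q ^ 5 * u ^ 6 * v +
    (50712260563 / 766399200) * q ^ 5 * u ^ 7 +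
    (10895375 / 134456) * p * q ^ 4 * v ^ 7 +
    (33497425 / 57624) * p * q ^ 4 * u * v ^ 6 +
    (349526585 / 182476) * p * q ^ 4 * u ^ 2 * v ^ 5 +
    (680648085 / 182476) * p * q ^ 4 * u ^ 3 * v ^ 4 +
    (6660734165 / 1459808) * p * q ^ 4 * u ^ 4 * v ^ 3 +
    (5026516385 / 1459808) * p * q ^ 4 * u ^ 5 * v ^ 2 +
    (2131984049 / 1459808) * p * q ^ 4 * u ^ 6 * v +
    (8118646673 / 30655968) * p * q ^ 4 * u ^ 7 +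
    (32324875 / 134456) * p ^ 2 * q ^ 3 * v ^ 7 +
    (3846250 / 2401) * p ^ 2 * q ^ 3 * u * v ^ 6 +
    (216912125 / 45619) * p ^ 2 * q ^ 3 * u ^ 2 * v ^ 5 +
    (9006351125 / 1094856) * p ^ 2 * q ^ 3 * u ^ 3 * v ^ 4 +
    (13135927125 / 1459808) * p ^ 2 * q ^ 3 * u ^ 4 * v ^ 3 +
    (54356145475 / 8758848) * p ^ 2 * q ^ 3 * u ^ 5 * v ^ 2 +
    (3609163675 / 1459808) * p ^ 2 * q ^ 3 * u ^ 6 * v +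
    (26469434875 / 61311936) * p ^ 2 * q ^ 3 * u ^ 7 +
    (45168125 / 134456) * p ^ 3 * q ^ 2 * v ^ 7 +
    (42586875 / 19208) * p ^ 3 * q ^ 2 * u * v ^ 6 +
    (6971543125 / 1094856) * p ^ 3 * q ^ 2 * u ^ 2 * v ^ 5 +
    (270840625 / 26068) * p ^ 3 * q ^ 2 * u ^ 3 * v ^ 4 +
    (137800593125 / 13138272) * p ^ 3 * q ^ 2 * u ^ 4 * v ^ 3 +
    (43354773125 / 6569136) * p ^ 3 * q ^ 2 * u ^ 5 * v ^ 2 +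
    (63176463125 / 26276544) * p ^ 3 * q ^ 2 * u ^ 6 * v +
    (71578283125 / 183935808) * p ^ 3 * q ^ 2 * u ^ 7 +
    (30203125 / 134456) * p ^ 4 * q * v ^ 7 +
    (29109375 / 19208) * p ^ 4 * q * u * v ^ 6 +
    (344171875 / 78204) * p ^ 4 * q * u ^ 2 * v ^ 5 +
    (31307984375 / 4379424) * p ^ 4 * q * u ^ 3 * v ^ 4 +
    (13215078125 / 1876896) * p ^ 4 * q * u ^ 4 * v ^ 3 +
    (15857609375 / 3753792) * p ^ 4 * q * u ^ 5 * v ^ 2 +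
    (37746453125 / 26276544) * p ^ 4 * q * u ^ 6 * v +
    (19688234375 / 91967904) * p ^ 4 * q * u ^ 7 +
    (1953125 / 33614) * p ^ 5 * v ^ 7 +
    (1953125 / 4802) * p ^ 5 * u * v ^ 6 +
    (5859375 / 4802) * p ^ 5 * u ^ 2 * v ^ 5 +
    (9765625 / 4802) * p ^ 5 * u ^ 3 * v ^ 4 +
    (9765625 / 4802) * p ^ 5 * u ^ 4 * v ^ 3 +
    (5859375 / 4802) * p ^ 5 * u ^ 5 * v ^ 2 +
    (1953125 / 4802) * p ^ 5 * u ^ 6 * v +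
    (1953125 / 33614) * p ^ 5 * u ^ 7 := by
  positivity

theorem g1r_zT {c s : ℝ} (h1 : 18 / 25 ≤ c) (h2 : c ≤ 1) (h3 : 0 ≤ s) (h4 : s ≤ 1) :
    0 ≤ c ^ 2 * s ^ 2 + (1 - c) * (1 + c * s) - (-(41 / 20) * (1 - c)) * s - (1 - c) * ((1 + c * s + (c * s) ^ 2 / 2 + (c * s) ^ 3 / 6 + (c * s) ^ 4 / 19) * (1 - s ^ 2 / 2 + s ^ 4 / 24)) + (-(41 / 20) * (1 - c)) * ((1 + c * s + (c * s) ^ 2 / 2 + (c * s) ^ 3 / 6 + (c * s) ^ 4 / 19) * (s - s ^ 3 / 6 + s ^ 5 / 120)) -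
      (9 / 10) * s ^ 2 * ((1 - c) ^ 2 * (1 + c) / 2 + c ^ 2 + c * (-(41 / 20) * (1 - c))) := by
  have hp : 0 ≤ c - 18 / 25 := sub_nonneg.2 h1
  have hq : 0 ≤ 1 - c := sub_nonneg.2 h2
  have hu : 0 ≤ s - 0 := sub_nonneg.2 h3
  have hv : 0 ≤ 1 - s := sub_nonneg.2 h4
  have h := g1r_zT_c hp hq hu hv
  have h5 := mul_nonneg (sq_nonneg s) h
  refine h5.trans (le_of_eq ?_)
  ring

end Cert

end SokalF1G
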