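import Mathlib

/-!
# G-lemmas: polynomial certificates (E)
-/

set_option autoImplicit false

namespace SokalF1G

namespace Cert

theorem g3mu_z0_c {p q u v : ℝ} (hp : 0 ≤ p) (hq : 0 ≤ q) (hu : 0 ≤ u) (hv : 0 ≤ v) :
    0 ≤ (224 / 6075) * q ^ 5 * u * v ^ 5 +
    (202 / 1215) * q ^ 5 * u ^ 2 * v ^ 4 +
    (8 / 27) * q ^ 5 * u ^ 3 * v ^ 3 +
    (316 / 1215) * q ^ 5 * u ^ 4 * v ^ 2 +
    (136 / 1215) * q ^ 5 * u ^ 5 * v +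
    (38 / 2025) * q ^ 5 * u ^ 6 +
    (496 / 6075) * p * q ^ 4 * u * v ^ 5 +
    (136 / 405) * p * q ^ 4 * u ^ 2 * v ^ 4 +
    (131 / 243) * p * q ^ 4 * u ^ 3 * v ^ 3 +
    (509 / 1215) * p * q ^ 4 * u ^ 4 * v ^ 2 +
    (7 / 45) * p * q ^ 4 * u ^ 5 * v +
    (131 / 6075) * p * q ^ 4 * u ^ 6 +
    (368 / 6075) * p ^ 2 * q ^ 3 * u * v ^ 5 +
    (284 / 1215) * p ^ 2 * q ^ 3 * u ^ 2 * v ^ 4 +
    (89 / 243) * p ^ 2 * q ^ 3 * u ^ 3 * v ^ 3 +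
    (1423 / 4860) * p ^ 2 * q ^ 3 * u ^ 4 * v ^ 2 +
    (289 / 2430) * p ^ 2 * q ^ 3 * u ^ 5 * v +
    (467 / 24300) * p ^ 2 * q ^ 3 * u ^ 6 +
    (2176 / 18225) * p ^ 3 * q ^ 2 * u * v ^ 5 +
    (2128 / 3645) * p ^ 3 * q ^ 2 * u ^ 2 * v ^ 4 +
    (841 / 729) * p ^ 3 * q ^ 2 * u ^ 3 * v ^ 3 +
    (8263 / 7290) * p ^ 3 * q ^ 2 * u ^ 4 * v ^ 2 +
    (16007 / 29160) * p ^ 3 * q ^ 2 * u ^ 5 * v +
    (15263 / 145800) * p ^ 3 * q ^ 2 * u ^ 6 +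
    (3232 / 18225) * p ^ 4 * q * u * v ^ 5 +
    (3136 / 3645) * p ^ 4 * q * u ^ 2 * v ^ 4 +
    (1207 / 729) * p ^ 4 * q * u ^ 3 * v ^ 3 +
    (5753 / 3645) * p ^ 4 * q * u ^ 4 * v ^ 2 +
    (21839 / 29160) * p ^ 4 * q * u ^ 5 * v +
    (165103 / 1166400) * p ^ 4 * q * u ^ 6 +
    (448 / 6075) * p ^ 5 * u * v ^ 5 +
    (424 / 1215) * p ^ 5 * u ^ 2 * v ^ 4 +
    (160 / 243) * p ^ 5 * u ^ 3 * v ^ 3 +
    (752 / 1215) * p ^ 5 * u ^ 4 * v ^ 2 +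
    (352 / 1215) * p ^ 5 * u ^ 5 * v +
    (328 / 6075) * p ^ 5 * u ^ 6 := by
  positivity

theorem g3mu_z0 {c s : ℝ} (h1 : 0 ≤ c) (h2 : c ≤ 1) (h3 : 0 ≤ s) (h4 : s ≤ 3 / 2) :
    0 ≤ c ^ 2 * s ^ 2 + (1 - c) * (1 - c * s) + 0 * s - (1 - c) * ((1 - c * s + (c * s) ^ 2 / 2 - (c * s) ^ 3 / 6 + (c * s) ^ 4 / 24) * (1 - s ^ 2 / 2 + s ^ 4 / 24)) - 0 * ((1 - c * s + (c * s) ^ 2 / 2 - (c * s) ^ 3 / 6) * (s - s ^ 3 / 6)) -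
      (1 - 14 / 25 * s + s ^ 2 / 10) * s ^ 2 * ((1 - c) ^ 2 * (1 + c) / 2 + c ^ 2 + c * 0) := by
  have hp : 0 ≤ c - 0 := sub_nonneg.2 h1
  have hq : 0 ≤ 1 - c := sub_nonneg.2 h2
  have hu : 0 ≤ s - 0 := sub_nonneg.2 h3
  have hv : 0 ≤ 3 / 2 - s := sub_nonneg.2 h4
  have h := g3mu_z0_c hp hq hu hv
  have h5 := mul_nonneg (sq_nonneg s) h
  refine h5.trans (le_of_eq ?_)
  ring

theorem g3mu_zm_0_c {p q u v : ℝ} (hp : 0 ≤ p) (hq : 0 ≤ q) (hu : 0 ≤ u) (hv : 0 ≤ v) :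
    0 ≤ (917504000 / 90224199) * q ^ 5 * u * v ^ 5 +
    (4136960000 / 90224199) * q ^ 5 * u ^ 2 * v ^ 4 +
    (819200000 / 10024911) * q ^ 5 * u ^ 3 * v ^ 3 +
    (6471680000 / 90224199) * q ^ 5 * u ^ 4 * v ^ 2 +
    (2785280000 / 90224199) * q ^ 5 * u ^ 5 * v +
    (155648000 / 30074733) * q ^ 5 * u ^ 6 +
    (10844569600 / 270672597) * p * q ^ 4 * u * v ^ 5 +
    (47903744000 / 270672597) * p * q ^ 4 * u ^ 2 * v ^ 4 +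
    (83468800000 / 270672597) * p * q ^ 4 * u ^ 3 * v ^ 3 +
    (71429632000 / 270672597) * p * q ^ 4 * u ^ 4 * v ^ 2 +
    (29844992000 / 270672597) * p * q ^ 4 * u ^ 5 * v +
    (4824985600 / 270672597) * p * q ^ 4 * u ^ 6 +
    (16197885952 / 270672597) * p ^ 2 * q ^ 3 * u * v ^ 5 +
    (69873582080 / 270672597) * p ^ 2 * q ^ 3 * u ^ 2 * v ^ 4 +
    (118616204800 / 270672597) * p ^ 2 * q ^ 3 * u ^ 3 * v ^ 3 +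
    (98512973440 / 270672597) * p ^ 2 * q ^ 3 * u ^ 4 * v ^ 2 +
    (39682231040 / 270672597) * p ^ 2 * q ^ 3 * u ^ 5 * v +
    (6109766272 / 270672597) * p ^ 2 * q ^ 3 * u ^ 6 +
    (11337075712 / 270672597) * p ^ 3 * q ^ 2 * u * v ^ 5 +
    (47583802880 / 270672597) * p ^ 3 * q ^ 2 * u ^ 2 * v ^ 4 +
    (78355649920 / 270672597) * p ^ 3 * q ^ 2 * u ^ 3 * v ^ 3 +
    (62739593200 / 270672597) * p ^ 3 * q ^ 2 * u ^ 4 * v ^ 2 +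
    (24073933400 / 270672597) * p ^ 3 * q ^ 2 * u ^ 5 * v +
    (3443262952 / 270672597) * p ^ 3 * q ^ 2 * u ^ 6 +
    (3677932928 / 270672597) * p ^ 4 * q * u * v ^ 5 +
    (14987250832 / 270672597) * p ^ 4 * q * u ^ 2 * v ^ 4 +
    (23868501008 / 270672597) * p ^ 4 * q * u ^ 3 * v ^ 3 +
    (18305695550 / 270672597) * p ^ 4 * q * u ^ 4 * v ^ 2 +
    (6585098629 / 270672597) * p ^ 4 * q * u ^ 5 * v +
    (6697122259 / 2165380776) * p ^ 4 * q * u ^ 6 +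
    (446685568 / 270672597) * p ^ 5 * u * v ^ 5 +
    (1786393790 / 270672597) * p ^ 5 * u ^ 2 * v ^ 4 +
    (2787566920 / 270672597) * p ^ 5 * u ^ 3 * v ^ 3 +
    (8301376441 / 1082690388) * p ^ 5 * u ^ 4 * v ^ 2 +
    (1416285691 / 541345194) * p ^ 5 * u ^ 5 * v +
    (5099612821 / 17323046208) * p ^ 5 * u ^ 6 := by
  positivity

theorem g3mu_zm_0 {c s : ℝ} (h1 : 0 ≤ c) (h2 : c ≤ 13 / 40) (h3 : 0 ≤ s) (h4 : s ≤ 3 / 2) :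
    0 ≤ c ^ 2 * s ^ 2 + (1 - c) * (1 - c * s) + (-(4 / 5) * c) * s - (1 - c) * ((1 - c * s + (c * s) ^ 2 / 2 - (c * s) ^ 3 / 6 + (c * s) ^ 4 / 24) * (1 - s ^ 2 / 2 + s ^ 4 / 24)) - (-(4 / 5) * c) * ((1 - c * s + (c * s) ^ 2 / 2 - (c * s) ^ 3 / 6) * (s - s ^ 3 / 6)) -
      (1 - 14 / 25 * s + s ^ 2 / 10) * s ^ 2 * ((1 - c) ^ 2 * (1 + c) / 2 + c ^ 2 + c * (-(4 / 5) * c)) := by
  have hp : 0 ≤ c - 0 := sub_nonneg.2 h1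
  have hq : 0 ≤ 13 / 40 - c := sub_nonneg.2 h2
  have hu : 0 ≤ s - 0 := sub_nonneg.2 h3
  have hv : 0 ≤ 3 / 2 - s := sub_nonneg.2 h4
  have h := g3mu_zm_0_c hp hq hu hv
  have h5 := mul_nonneg (sq_nonneg s) h
  refine h5.trans (le_of_eq ?_)
  ring

theorem g3mu_zm_1_c {p q u v : ℝ} (hp : 0 ≤ p) (hq : 0 ≤ q) (hu : 0 ≤ u) (hv : 0 ≤ v) :
    0 ≤ (14293938176 / 270672597) * q ^ 5 * u * v ^ 5 +
    (57164601280 / 270672597) * q ^ 5 * u ^ 2 * v ^ 4 +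
    (89202141440 / 270672597) * q ^ 5 * u ^ 3 * v ^ 3 +
    (66411011528 / 270672597) * q ^ 5 * u ^ 4 * v ^ 2 +
    (22660571056 / 270672597) * q ^ 5 * u ^ 5 * v +
    (5099612821 / 541345194) * q ^ 5 * u ^ 6 +
    (48357609472 / 270672597) * p * q ^ 4 * u * v ^ 5 +
    (188938496288 / 270672597) * p * q ^ 4 * u ^ 2 * v ^ 4 +
    (287120044672 / 270672597) * p * q ^ 4 * u ^ 3 * v ^ 3 +
    (205191457660 / 270672597) * p * q ^ 4 * u ^ 4 * v ^ 2 +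
    (64592704856 / 270672597) * p * q ^ 4 * u ^ 5 * v +
    (22917214243 / 1082690388) * p * q ^ 4 * u ^ 6 +
    (59228653568 / 270672597) * p ^ 2 * q ^ 3 * u * v ^ 5 +
    (228097871968 / 270672597) * p ^ 2 * q ^ 3 * u ^ 2 * v ^ 4 +
    (342517284992 / 270672597) * p ^ 2 * q ^ 3 * u ^ 3 * v ^ 3 +
    (238817732180 / 270672597) * p ^ 2 * q ^ 3 * u ^ 4 * v ^ 2 +
    (70284847576 / 270672597) * p ^ 2 * q ^ 3 * u ^ 5 * v +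
    (18205122977 / 1082690388) * p ^ 2 * q ^ 3 * u ^ 6 +
    (31330082816 / 270672597) * p ^ 3 * q ^ 2 * u * v ^ 5 +
    (125581688848 / 270672597) * p ^ 3 * q ^ 2 * u ^ 2 * v ^ 4 +
    (201314633792 / 270672597) * p ^ 3 * q ^ 2 * u ^ 3 * v ^ 3 +
    (151914861710 / 270672597) * p ^ 3 * q ^ 2 * u ^ 4 * v ^ 2 +
    (50345647516 / 270672597) * p ^ 3 * q ^ 2 * u ^ 5 * v +
    (38016532363 / 2165380776) * p ^ 3 * q ^ 2 * u ^ 6 +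
    (6898393856 / 270672597) * p ^ 4 * q * u * v ^ 5 +
    (36582648748 / 270672597) * p ^ 4 * q * u ^ 2 * v ^ 4 +
    (77081225552 / 270672597) * p ^ 4 * q * u ^ 3 * v ^ 3 +
    (151280212045 / 541345194) * p ^ 4 * q * u ^ 4 * v ^ 2 +
    (34710016111 / 270672597) * p ^ 4 * q * u ^ 5 * v +
    (191636771737 / 8661523104) * p ^ 4 * q * u ^ 6 +
    (244431104 / 90224199) * p ^ 5 * u * v ^ 5 +
    (814129402 / 30074733) * p ^ 5 * u ^ 2 * v ^ 4 +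
    (6791628184 / 90224199) * p ^ 5 * u ^ 3 * v ^ 3 +
    (31697854241 / 360896796) * p ^ 5 * u ^ 4 * v ^ 2 +
    (314098295 / 6683274) * p ^ 5 * u ^ 5 * v +
    (55649229085 / 5774348736) * p ^ 5 * u ^ 6 := by
  positivity

theorem g3mu_zm_1 {c s : ℝ} (h1 : 13 / 40 ≤ c) (h2 : c ≤ 39 / 80) (h3 : 0 ≤ s) (h4 : s ≤ 3 / 2) :
    0 ≤ c ^ 2 * s ^ 2 + (1 - c) * (1 - c * s) + (-(4 / 5) * c) * s - (1 - c) * ((1 - c * s + (c * s) ^ 2 / 2 - (c * s) ^ 3 / 6 + (c * s) ^ 4 / 24) * (1 - s ^ 2 / 2 + s ^ 4 / 24)) - (-(4 / 5) * c) * ((1 - c * s + (c * s) ^ 2 / 2 - (c * s) ^ 3 / 6) * (s - s ^ 3 / 6)) -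
      (1 - 14 / 25 * s + s ^ 2 / 10) * s ^ 2 * ((1 - c) ^ 2 * (1 + c) / 2 + c ^ 2 + c * (-(4 / 5) * c)) := by
  have hp : 0 ≤ c - 13 / 40 := sub_nonneg.2 h1
  have hq : 0 ≤ 39 / 80 - c := sub_nonneg.2 h2
  have hu : 0 ≤ s - 0 := sub_nonneg.2 h3
  have hv : 0 ≤ 3 / 2 - s := sub_nonneg.2 h4
  have h := g3mu_zm_1_c hp hq hu hv
  have h5 := mul_nonneg (sq_nonneg s) h
  refine h5.trans (le_of_eq ?_)
  ring

theorem g3mu_zm_2_c {p q u v : ℝ} (hp : 0 ≤ p) (hq : 0 ≤ q) (hu : 0 ≤ u) (hv : 0 ≤ v) :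
    0 ≤ (244431104 / 90224199) * q ^ 5 * u * v ^ 5 +
    (814129402 / 30074733) * q ^ 5 * u ^ 2 * v ^ 4 +
    (6791628184 / 90224199) * q ^ 5 * u ^ 3 * v ^ 3 +
    (31697854241 / 360896796) * q ^ 5 * u ^ 4 * v ^ 2 +
    (314098295 / 6683274) * q ^ 5 * u ^ 5 * v +
    (55649229085 / 5774348736) * q ^ 5 * u ^ 6 +
    (434539264 / 270672597) * p * q ^ 4 * u * v ^ 5 +
    (36688997432 / 270672597) * p * q ^ 4 * u ^ 2 * v ^ 4 +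
    (126667619968 / 270672597) * p * q ^ 4 * u ^ 3 * v ^ 3 +
    (162093800785 / 270672597) * p * q ^ 4 * u ^ 4 * v ^ 2 +
    (92499793364 / 270672597) * p * q ^ 4 * u ^ 5 * v +
    (321550832269 / 4330761552) * p * q ^ 4 * u ^ 6 +
    (5474664448 / 270672597) * p ^ 2 * q ^ 3 * u * v ^ 5 +
    (126007083584 / 270672597) * p ^ 2 * q ^ 3 * u ^ 2 * v ^ 4 +
    (399660211456 / 270672597) * p ^ 2 * q ^ 3 * u ^ 3 * v ^ 3 +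
    (497729640760 / 270672597) * p ^ 2 * q ^ 3 * u ^ 4 * v ^ 2 +
    (281504756528 / 270672597) * p ^ 2 * q ^ 3 * u ^ 5 * v +
    (122370356291 / 541345194) * p ^ 2 * q ^ 3 * u ^ 6 +
    (21853855744 / 270672597) * p ^ 3 * q ^ 2 * u * v ^ 5 +
    (233581860608 / 270672597) * p ^ 3 * q ^ 2 * u ^ 2 * v ^ 4 +
    (645411868672 / 270672597) * p ^ 3 * q ^ 2 * u ^ 3 * v ^ 3 +
    (759180148000 / 270672597) * p ^ 3 * q ^ 2 * u ^ 4 * v ^ 2 +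
    (416427126656 / 270672597) * p ^ 3 * q ^ 2 * u ^ 5 * v +
    (88918148794 / 270672597) * p ^ 3 * q ^ 2 * u ^ 6 +
    (25318850560 / 270672597) * p ^ 4 * q * u * v ^ 5 +
    (199055684096 / 270672597) * p ^ 4 * q * u ^ 2 * v ^ 4 +
    (496218056704 / 270672597) * p ^ 4 * q * u ^ 3 * v ^ 3 +
    (554286731200 / 270672597) * p ^ 4 * q * u ^ 4 * v ^ 2 +
    (294559044992 / 270672597) * p ^ 4 * q * u ^ 5 * v +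
    (61596816460 / 270672597) * p ^ 4 * q * u ^ 6 +
    (342163456 / 10024911) * p ^ 5 * u * v ^ 5 +
    (20707100672 / 90224199) * p ^ 5 * u ^ 2 * v ^ 4 +
    (48060858368 / 90224199) * p ^ 5 * u ^ 3 * v ^ 3 +
    (17169630464 / 30074733) * p ^ 5 * u ^ 4 * v ^ 2 +
    (26620587008 / 90224199) * p ^ 5 * u ^ 5 * v +
    (5458555952 / 90224199) * p ^ 5 * u ^ 6 := by
  positivity

theorem g3mu_zm_2 {c s : ℝ} (h1 : 39 / 80 ≤ c) (h2 : c ≤ 13 / 20) (h3 : 0 ≤ s) (h4 : s ≤ 3 / 2) :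
    0 ≤ c ^ 2 * s ^ 2 + (1 - c) * (1 - c * s) + (-(4 / 5) * c) * s - (1 - c) * ((1 - c * s + (c * s) ^ 2 / 2 - (c * s) ^ 3 / 6 + (c * s) ^ 4 / 24) * (1 - s ^ 2 / 2 + s ^ 4 / 24)) - (-(4 / 5) * c) * ((1 - c * s + (c * s) ^ 2 / 2 - (c * s) ^ 3 / 6) * (s - s ^ 3 / 6)) -
      (1 - 14 / 25 * s + s ^ 2 / 10) * s ^ 2 * ((1 - c) ^ 2 * (1 + c) / 2 + c ^ 2 + c * (-(4 / 5) * c)) := by
  have hp : 0 ≤ c - 39 / 80 := sub_nonneg.2 h1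
  have hq : 0 ≤ 13 / 20 - c := sub_nonneg.2 h2
  have hu : 0 ≤ s - 0 := sub_nonneg.2 h3
  have hv : 0 ≤ 3 / 2 - s := sub_nonneg.2 h4
  have h := g3mu_zm_2_c hp hq hu hv
  have h5 := mul_nonneg (sq_nonneg s) h
  refine h5.trans (le_of_eq ?_)
  ring

theorem g3mu_zm {c s : ℝ} (h1 : 0 ≤ c) (h2 : c ≤ 13 / 20) (h3 : 0 ≤ s) (h4 : s ≤ 3 / 2) :
    0 ≤ c ^ 2 * s ^ 2 + (1 - c) * (1 - c * s) + (-(4 / 5) * c) * s - (1 - c) * ((1 - c * s + (c * s) ^ 2 / 2 - (c * s) ^ 3 / 6 + (c * s) ^ 4 / 24) * (1 - s ^ 2 / 2 + s ^ 4 / 24)) - (-(4 / 5) * c) * ((1 - c * s + (c * s) ^ 2 / 2 - (c * s) ^ 3 / 6) * (s - s ^ 3 / 6)) -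
      (1 - 14 / 25 * s + s ^ 2 / 10) * s ^ 2 * ((1 - c) ^ 2 * (1 + c) / 2 + c ^ 2 + c * (-(4 / 5) * c)) := by
  rcases le_total c (13 / 40) with h5 | h5
  · exact g3mu_zm_0 (by linarith) h5 h3 h4
  rcases le_total c (39 / 80) with h5 | h5
  · exact g3mu_zm_1 (by linarith) h5 h3 h4
  exact g3mu_zm_2 (by linarith) h2 h3 h4

theorem g3mu_zL_c {p q u v : ℝ} (hp : 0 ≤ p) (hq : 0 ≤ q) (hu : 0 ≤ u) (hv : 0 ≤ v) :
    0 ≤ (334144 / 453789) * q ^ 5 * u * v ^ 5 +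
    (20221778 / 4084101) * q ^ 5 * u ^ 2 * v ^ 4 +
    (46934432 / 4084101) * q ^ 5 * u ^ 3 * v ^ 3 +
    (9581267 / 777924) * q ^ 5 * u ^ 4 * v ^ 2 +
    (25996667 / 4084101) * q ^ 5 * u ^ 5 * v +
    (341159747 / 261382464) * q ^ 5 * u ^ 6 +
    (2833648432 / 306307575) * p * q ^ 4 * u * v ^ 5 +
    (16126128338 / 306307575) * p * q ^ 4 * u ^ 2 * v ^ 4 +
    (34192170022 / 306307575) * p * q ^ 4 * u ^ 3 * v ^ 3 +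
    (3959423927 / 35006580) * p * q ^ 4 * u ^ 4 * v ^ 2 +
    (17195410661 / 306307575) * p * q ^ 4 * u ^ 5 * v +
    (3411213322 / 306307575) * p * q ^ 4 * u ^ 6 +
    (3604934288 / 102102525) * p ^ 2 * q ^ 3 * u * v ^ 5 +
    (1267958672 / 6806835) * p ^ 2 * q ^ 3 * u ^ 2 * v ^ 4 +
    (7671627074 / 20420505) * p ^ 2 * q ^ 3 * u ^ 3 * v ^ 3 +
    (214347482 / 583443) * p ^ 2 * q ^ 3 * u ^ 4 * v ^ 2 +
    (402253616 / 2268945) * p ^ 2 * q ^ 3 * u ^ 5 * v +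
    (7008696521 / 204205050) * p ^ 2 * q ^ 3 * u ^ 6 +
    (17685142592 / 306307575) * p ^ 3 * q ^ 2 * u * v ^ 5 +
    (17863536896 / 61261515) * p ^ 3 * q ^ 2 * u ^ 2 * v ^ 4 +
    (6980596712 / 12252303) * p ^ 3 * q ^ 2 * u ^ 3 * v ^ 3 +
    (4760549104 / 8751645) * p ^ 3 * q ^ 2 * u ^ 4 * v ^ 2 +
    (15763496768 / 61261515) * p ^ 3 * q ^ 2 * u ^ 5 * v +
    (14988503612 / 306307575) * p ^ 3 * q ^ 2 * u ^ 6 +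
    (870047744 / 20420505) * p ^ 4 * q * u * v ^ 5 +
    (853960192 / 4084101) * p ^ 4 * q * u ^ 2 * v ^ 4 +
    (181480160 / 453789) * p ^ 4 * q * u ^ 3 * v ^ 3 +
    (31314784 / 83349) * p ^ 4 * q * u ^ 4 * v ^ 2 +
    (715937536 / 4084101) * p ^ 4 * q * u ^ 5 * v +
    (224019028 / 6806835) * p ^ 4 * q * u ^ 6 +
    (47630336 / 4084101) * p ^ 5 * u * v ^ 5 +
    (229219840 / 4084101) * p ^ 5 * u ^ 2 * v ^ 4 +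
    (432540800 / 4084101) * p ^ 5 * u ^ 3 * v ^ 3 +
    (57517760 / 583443) * p ^ 5 * u ^ 4 * v ^ 2 +
    (186353920 / 4084101) * p ^ 5 * u ^ 5 * v +
    (34680896 / 4084101) * p ^ 5 * u ^ 6 := by
  positivity

theorem g3mu_zL {c s : ℝ} (h1 : 13 / 20 ≤ c) (h2 : c ≤ 1) (h3 : 0 ≤ s) (h4 : s ≤ 3 / 2) :
    0 ≤ c ^ 2 * s ^ 2 + (1 - c) * (1 - c * s) + ((-(4 / 5) + 109 / 100 * (c - 13 / 20)) * c) * s - (1 - c) * ((1 - c * s + (c * s) ^ 2 / 2 - (c * s) ^ 3 / 6 + (c * s) ^ 4 / 24) * (1 - s ^ 2 / 2 + s ^ 4 / 24)) - ((-(4 / 5) + 109 / 100 * (c - 13 / 20)) * c) * ((1 - c * s + (c * s) ^ 2 / 2 - (c * s) ^ 3 / 6) * (s - s ^ 3 / 6)) -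
      (1 - 14 / 25 * s + s ^ 2 / 10) * s ^ 2 * ((1 - c) ^ 2 * (1 + c) / 2 + c ^ 2 + c * ((-(4 / 5) + 109 / 100 * (c - 13 / 20)) * c)) := by
  have hp : 0 ≤ c - 13 / 20 := sub_nonneg.2 h1
  have hq : 0 ≤ 1 - c := sub_nonneg.2 h2
  have hu : 0 ≤ s - 0 := sub_nonneg.2 h3
  have hv : 0 ≤ 3 / 2 - s := sub_nonneg.2 h4
  have h := g3mu_zL_c hp hq hu hv
  have h5 := mul_nonneg (sq_nonneg s) h
  refine h5.trans (le_of_eq ?_)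
  ring

theorem g3mc_z0_c {p q u v : ℝ} (hp : 0 ≤ p) (hq : 0 ≤ q) (hu : 0 ≤ u) (hv : 0 ≤ v) :
    0 ≤ (670119 / 5000) * q ^ 3 * v ^ 4 +
    (1546623 / 2500) * q ^ 3 * u * v ^ 3 +
    (10597559 / 10000) * q ^ 3 * u ^ 2 * v ^ 2 +
    (8031957 / 10000) * q ^ 3 * u ^ 3 * v +
    (18118179 / 80000) * q ^ 3 * u ^ 4 +
    (1274919 / 2500) * p * q ^ 2 * v ^ 4 +
    (2867823 / 1250) * p * q ^ 2 * u * v ^ 3 +
    (19229559 / 5000) * p * q ^ 2 * u ^ 2 * v ^ 2 +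
    (14315157 / 5000) * p * q ^ 2 * u ^ 3 * v +
    (31841379 / 40000) * p * q ^ 2 * u ^ 4 +
    (2894919 / 5000) * p ^ 2 * q * v ^ 4 +
    (6377823 / 2500) * p ^ 2 * q * u * v ^ 3 +
    (42029559 / 10000) * p ^ 2 * q * u ^ 2 * v ^ 2 +
    (30875157 / 10000) * p ^ 2 * q * u ^ 3 * v +
    (68021379 / 80000) * p ^ 2 * q * u ^ 4 +
    (4968 / 25) * p ^ 3 * v ^ 4 +
    (21384 / 25) * p ^ 3 * u * v ^ 3 +
    (6912 / 5) * p ^ 3 * u ^ 2 * v ^ 2 +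
    (25056 / 25) * p ^ 3 * u ^ 3 * v +
    (13689 / 50) * p ^ 3 * u ^ 4 := by
  positivity

theorem g3mc_z0 {c s : ℝ} (h1 : 2 / 3 ≤ c) (h2 : c ≤ 1) (h3 : 1 ≤ s) (h4 : s ≤ 3 / 2) :
    0 ≤ c * s + 0 * s - (1 - c) * ((3679 / 10000) * (1 - s ^ 2 / 2 + s ^ 4 / 24)) - 0 * ((3678 / 10000) * (s - s ^ 3 / 6)) -
      (1 - 14 / 25 * s + s ^ 2 / 10) * s ^ 2 * ((1 - c) ^ 2 * (1 + c) / 2 + c ^ 2 + c * 0) := by
  have hp : 0 ≤ c - 2 / 3 := sub_nonneg.2 h1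
  have hq : 0 ≤ 1 - c := sub_nonneg.2 h2
  have hu : 0 ≤ s - 1 := sub_nonneg.2 h3
  have hv : 0 ≤ 3 / 2 - s := sub_nonneg.2 h4
  have h := g3mc_z0_c hp hq hu hv
  refine h.trans (le_of_eq ?_)
  ring

theorem g3mc_zL_c {p q u v : ℝ} (hp : 0 ≤ p) (hq : 0 ≤ q) (hu : 0 ≤ u) (hv : 0 ≤ v) :
    0 ≤ (1841571 / 31250) * q ^ 3 * v ^ 4 +
    (350544507 / 1250000) * q ^ 3 * u * v ^ 3 +
    (241160973 / 500000) * q ^ 3 * u ^ 2 * v ^ 2 +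
    (1789334367 / 5000000) * q ^ 3 * u ^ 3 * v +
    (192800997 / 2000000) * q ^ 3 * u ^ 4 +
    (80641983 / 250000) * p * q ^ 2 * v ^ 4 +
    (3642066129 / 2500000) * p * q ^ 2 * u * v ^ 3 +
    (2415978681 / 1000000) * p * q ^ 2 * u ^ 2 * v ^ 2 +
    (17500116549 / 10000000) * p * q ^ 2 * u ^ 3 * v +
    (932464737 / 2000000) * p * q ^ 2 * u ^ 4 +
    (56042961 / 125000) * p ^ 2 * q * v ^ 4 +
    (1235103939 / 625000) * p ^ 2 * q * u * v ^ 3 +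
    (201309399 / 62500) * p ^ 2 * q * u ^ 2 * v ^ 2 +
    (5773399659 / 2500000) * p ^ 2 * q * u ^ 3 * v +
    (1226823363 / 2000000) * p ^ 2 * q * u ^ 4 +
    (42742107 / 250000) * p ^ 3 * v ^ 4 +
    (1839166641 / 2500000) * p ^ 3 * u * v ^ 3 +
    (1177901649 / 1000000) * p ^ 3 * u ^ 2 * v ^ 2 +
    (8363158821 / 10000000) * p ^ 3 * u ^ 3 * v +
    (443084823 / 2000000) * p ^ 3 * u ^ 4 := by
  positivity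

theorem g3mc_zL {c s : ℝ} (h1 : 2 / 3 ≤ c) (h2 : c ≤ 1) (h3 : 1 ≤ s) (h4 : s ≤ 3 / 2) :
    0 ≤ c * s + ((-(4 / 5) + 109 / 100 * (c - 13 / 20)) * c) * s - (1 - c) * ((3679 / 10000) * (1 - s ^ 2 / 2 + s ^ 4 / 24)) - ((-(4 / 5) + 109 / 100 * (c - 13 / 20)) * c) * ((3678 / 10000) * (s - s ^ 3 / 6)) -
      (1 - 14 / 25 * s + s ^ 2 / 10) * s ^ 2 * ((1 - c) ^ 2 * (1 + c) / 2 + c ^ 2 + c * ((-(4 / 5) + 109 / 100 * (c - 13 / 20)) * c)) := by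
  have hp : 0 ≤ c - 2 / 3 := sub_nonneg.2 h1
  have hq : 0 ≤ 1 - c := sub_nonneg.2 h2
  have hu : 0 ≤ s - 1 := sub_nonneg.2 h3
  have hv : 0 ≤ 3 / 2 - s := sub_nonneg.2 h4
  have h := g3mc_zL_c hp hq hu hv
  refine h.trans (le_of_eq ?_)
  ring

end Cert

end SokalF1G
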