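import Mathlib

/-!
# Taylor bounds for `cos`, `sin`, `exp`
-/

set_option autoImplicit false

namespace SokalF1G

open Real

theorem nonneg_of_deriv {f f' : ℝ → ℝ} (h : ∀ x, HasDerivAt f (f' x) x) (h0 : f 0 = 0)
    (h1 : ∀ x, 0 ≤ x → 0 ≤ f' x) {x : ℝ} (hx : 0 ≤ x) : 0 ≤ f x := by
  have hm : MonotoneOn f (Set.Ici 0) := by
    refine monotoneOn_of_deriv_nonneg (convex_Ici 0)
      (fun y _ => (h y).continuousAt.continuousWithinAt)
      (fun y _ => (h y).differentiableAt.differentiableWithinAt) fun y hy => ?_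
    rw [interior_Ici] at hy
    rw [(h y).deriv]
    exact h1 y (le_of_lt hy)
  have := hm (Set.mem_Ici.2 le_rfl) (Set.mem_Ici.2 hx) hx
  rwa [h0] at this

theorem sin_le1 {x : ℝ} (hx : 0 ≤ x) : sin x ≤ x := Real.sin_le hx

theorem cos_ge2 {x : ℝ} : 1 - x ^ 2 / 2 ≤ cos x := Real.one_sub_sq_div_two_le_cos

theorem sin_ge3 {x : ℝ} (hx : 0 ≤ x) : x - x ^ 3 / 6 ≤ sin x := by
  have h := nonneg_of_deriv (f := fun x => sin x - (x - x ^ 3 / 6))
    (f' := fun x => cos x - (1 - x ^ 2 / 2)) (fun y => by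
      have h1 := (hasDerivAt_sin y).sub ((hasDerivAt_id y).sub ((hasDerivAt_pow 3 y).div_const 6))
      refine h1.congr_deriv ?_
      push_cast
      ring) (by simp) (fun y _ => sub_nonneg.2 cos_ge2) hx
  simpa using h

theorem cos_le4 {x : ℝ} (hx : 0 ≤ x) : cos x ≤ 1 - x ^ 2 / 2 + x ^ 4 / 24 := by
  have h := nonneg_of_deriv (f := fun x => 1 - x ^ 2 / 2 + x ^ 4 / 24 - cos x)
    (f' := fun x => sin x - (x - x ^ 3 / 6)) (fun y => by
      have h1 := (((hasDerivAt_const y (1 : ℝ)).sub ((hasDerivAt_pow 2 y).div_const 2)).add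
        ((hasDerivAt_pow 4 y).div_const 24)).sub (hasDerivAt_cos y)
      refine h1.congr_deriv ?_
      push_cast
      ring) (by simp) (fun y hy => sub_nonneg.2 (sin_ge3 hy)) hx
  simpa using h

theorem sin_le5 {x : ℝ} (hx : 0 ≤ x) : sin x ≤ x - x ^ 3 / 6 + x ^ 5 / 120 := by
  have h := nonneg_of_deriv (f := fun x => x - x ^ 3 / 6 + x ^ 5 / 120 - sin x)
    (f' := fun x => 1 - x ^ 2 / 2 + x ^ 4 / 24 - cos x) (fun y => by
      have h1 := (((hasDerivAt_id y).sub ((hasDerivAt_pow 3 y).div_const 6)).add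
        ((hasDerivAt_pow 5 y).div_const 120)).sub (hasDerivAt_sin y)
      refine h1.congr_deriv ?_
      push_cast
      ring) (by simp) (fun y hy => sub_nonneg.2 (cos_le4 hy)) hx
  simpa using h

theorem cos_ge6 {x : ℝ} (hx : 0 ≤ x) : 1 - x ^ 2 / 2 + x ^ 4 / 24 - x ^ 6 / 720 ≤ cos x := by
  have h := nonneg_of_deriv (f := fun x => cos x - (1 - x ^ 2 / 2 + x ^ 4 / 24 - x ^ 6 / 720))
    (f' := fun x => x - x ^ 3 / 6 + x ^ 5 / 120 - sin x) (fun y => by
      have h1 := (hasDerivAt_cos y).sub ((((hasDerivAt_const y (1 : ℝ)).sub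
        ((hasDerivAt_pow 2 y).div_const 2)).add ((hasDerivAt_pow 4 y).div_const 24)).sub
        ((hasDerivAt_pow 6 y).div_const 720))
      refine h1.congr_deriv ?_
      push_cast
      ring) (by simp) (fun y hy => sub_nonneg.2 (sin_le5 hy)) hx
  simpa using h

theorem sin_ge7 {x : ℝ} (hx : 0 ≤ x) : x - x ^ 3 / 6 + x ^ 5 / 120 - x ^ 7 / 5040 ≤ sin x := by
  have h := nonneg_of_deriv (f := fun x => sin x - (x - x ^ 3 / 6 + x ^ 5 / 120 - x ^ 7 / 5040))
    (f' := fun x => cos x - (1 - x ^ 2 / 2 + x ^ 4 / 24 - x ^ 6 / 720)) (fun y => by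
      have h1 := (hasDerivAt_sin y).sub ((((hasDerivAt_id y).sub
        ((hasDerivAt_pow 3 y).div_const 6)).add ((hasDerivAt_pow 5 y).div_const 120)).sub
        ((hasDerivAt_pow 7 y).div_const 5040))
      refine h1.congr_deriv ?_
      push_cast
      ring) (by simp) (fun y hy => sub_nonneg.2 (cos_ge6 hy)) hx
  simpa using h

/-! ### `exp (-b)` -/

theorem hasDerivAt_expneg (y : ℝ) : HasDerivAt (fun x => exp (-x)) (-exp (-y)) y := by
  have h1 := (hasDerivAt_neg y).exp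
  refine h1.congr_deriv ?_
  ring

theorem en_ge1 {x : ℝ} : 1 - x ≤ exp (-x) := by
  have := add_one_le_exp (-x)
  linarith

theorem en_le2 {x : ℝ} (hx : 0 ≤ x) : exp (-x) ≤ 1 - x + x ^ 2 / 2 := by
  have h := nonneg_of_deriv (f := fun x => 1 - x + x ^ 2 / 2 - exp (-x))
    (f' := fun x => exp (-x) - (1 - x)) (fun y => by
      have h1 := (((hasDerivAt_const y (1 : ℝ)).sub (hasDerivAt_id y)).add
        ((hasDerivAt_pow 2 y).div_const 2)).sub (hasDerivAt_expneg y)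
      refine h1.congr_deriv ?_
      push_cast
      ring) (by simp) (fun y _ => sub_nonneg.2 en_ge1) hx
  simpa using h

theorem en_ge3 {x : ℝ} (hx : 0 ≤ x) : 1 - x + x ^ 2 / 2 - x ^ 3 / 6 ≤ exp (-x) := by
  have h := nonneg_of_deriv (f := fun x => exp (-x) - (1 - x + x ^ 2 / 2 - x ^ 3 / 6))
    (f' := fun x => 1 - x + x ^ 2 / 2 - exp (-x)) (fun y => by
      have h1 := (hasDerivAt_expneg y).sub ((((hasDerivAt_const y (1 : ℝ)).sub
        (hasDerivAt_id y)).add ((hasDerivAt_pow 2 y).div_const 2)).sub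
        ((hasDerivAt_pow 3 y).div_const 6))
      refine h1.congr_deriv ?_
      push_cast
      ring) (by simp) (fun y hy => sub_nonneg.2 (en_le2 hy)) hx
  simpa using h

theorem en_le4 {x : ℝ} (hx : 0 ≤ x) : exp (-x) ≤ 1 - x + x ^ 2 / 2 - x ^ 3 / 6 + x ^ 4 / 24 := by
  have h := nonneg_of_deriv (f := fun x => 1 - x + x ^ 2 / 2 - x ^ 3 / 6 + x ^ 4 / 24 - exp (-x))
    (f' := fun x => exp (-x) - (1 - x + x ^ 2 / 2 - x ^ 3 / 6)) (fun y => by
      have h1 := (((((hasDerivAt_const y (1 : ℝ)).sub (hasDerivAt_id y)).add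
        ((hasDerivAt_pow 2 y).div_const 2)).sub ((hasDerivAt_pow 3 y).div_const 6)).add
        ((hasDerivAt_pow 4 y).div_const 24)).sub (hasDerivAt_expneg y)
      refine h1.congr_deriv ?_
      push_cast
      ring) (by simp) (fun y hy => sub_nonneg.2 (en_ge3 hy)) hx
  simpa using h

/-! ### `exp a` -/

theorem e_ge3 {x : ℝ} (hx : 0 ≤ x) : 1 + x + x ^ 2 / 2 + x ^ 3 / 6 ≤ exp x := by
  have := Real.sum_le_exp_of_nonneg hx 4
  norm_num [Finset.sum_range_succ, Nat.factorial] at this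
  linarith

theorem e_le3 {x : ℝ} (hx : 0 ≤ x) (h1 : x ≤ 1) :
    exp x ≤ 1 + x + x ^ 2 / 2 + x ^ 3 / 6 + x ^ 4 / 19 := by
  have := Real.exp_bound' hx h1 (n := 5) (by norm_num)
  norm_num [Finset.sum_range_succ, Nat.factorial] at this
  have h2 : x ^ 5 ≤ x ^ 4 := pow_le_pow_of_le_one hx h1 (by norm_num)
  have h3 : 0 ≤ x ^ 4 := by positivity
  linarith

/-- For `x ≤ 3/2`. -/
theorem e_le3' {x : ℝ} (hx : 0 ≤ x) (h1 : x ≤ 3 / 2) :
    exp x ≤ 1 + x + x ^ 2 / 2 + x ^ 3 / 6 + x ^ 4 / 17 := by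
  have h2 := Real.exp_bound' (x := x / 2) (by positivity) (by linarith) (n := 6) (by norm_num)
  norm_num [Finset.sum_range_succ, Nat.factorial] at h2
  have h3 : exp x = exp (x / 2) ^ 2 := by
    rw [← exp_nat_mul]
    congr 1
    push_cast
    ring
  have h4 : 0 < exp (x / 2) := exp_pos _
  rw [h3]
  have h5 : exp (x / 2) ^ 2 ≤ (1 + x / 2 + (x / 2) ^ 2 / 2 + (x / 2) ^ 3 / 6 + (x / 2) ^ 4 / 24 +
      (x / 2) ^ 5 / 120 + (x / 2) ^ 6 * 7 / 4320) ^ 2 := by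
    refine pow_le_pow_left₀ h4.le ?_ 2
    linarith
  refine h5.trans ?_
  have h6 : 0 ≤ x ^ 4 := by positivity
  have k5 : x ^ 5 ≤ 3 / 2 * x ^ 4 := by nlinarith
  have k6 : x ^ 6 ≤ 9 / 4 * x ^ 4 := by nlinarith [mul_nonneg h6 hx]
  have k7 : x ^ 7 ≤ 27 / 8 * x ^ 4 := by nlinarith [mul_nonneg h6 hx, pow_nonneg hx 6]
  have k8 : x ^ 8 ≤ 81 / 16 * x ^ 4 := by nlinarith [mul_nonneg h6 hx, pow_nonneg hx 7]
  have k9 : x ^ 9 ≤ 243 / 32 * x ^ 4 := by nlinarith [mul_nonneg h6 hx, pow_nonneg hx 8]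
  have k10 : x ^ 10 ≤ 729 / 64 * x ^ 4 := by nlinarith [mul_nonneg h6 hx, pow_nonneg hx 9]
  have k11 : x ^ 11 ≤ 2187 / 128 * x ^ 4 := by nlinarith [mul_nonneg h6 hx, pow_nonneg hx 10]
  have k12 : x ^ 12 ≤ 6561 / 256 * x ^ 4 := by nlinarith [mul_nonneg h6 hx, pow_nonneg hx 11]
  nlinarith

end SokalF1G
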