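import Pool.Agent.Lib_MP_af4de1_BPlus.Soft2
import Pool.Agent.Lib_MP_af4de1_fu.Tub

/-!
# One circle: at most one zero, and it is simple

Let `|q| = 1`, `q ≠ 1`.  If `Re (1 + M(qz) - M(z)) > 0` at all `z` with `r - ε < |z| < r` and
`M(z) = z F(qz) / F(z) < 0`, then `F(.;q)` has at most one zero on `|z| = r`, and it is simple.
(Near a zero `w` of any multiplicity the points with `M < 0` meet all circles of radius slightly less
than `|w|`; `F'(z) = F(qz)`, so a double zero `w` gives the second zero `q w` on the same circle.)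
-/

set_option autoImplicit false

namespace SokalF1

open Real Filter Topology SokalF SokalRay SokalBPlus

/-- Near a simple zero `w` of `k` with `⟨w, 1/k'(w)⟩ > 0` the points with `k < 0` meet all circles of
radius slightly less than `‖w‖`. -/
theorem curve_of {k : ℂ → ℂ} {w : ℂ} (hka : AnalyticAt ℂ k w) (hkw : k w = 0)
    (hkd0 : deriv k w ≠ 0) (hpos : 0 < inner ℝ w (deriv k w)⁻¹) {ε : ℝ} (hε : 0 < ε) :
    ∃ δ > 0, ∀ r', ‖w‖ - δ < r' → r' < ‖w‖ → ∃ u : ℂ, ‖u - w‖ < ε ∧ ‖u‖ = r' ∧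
      ∃ s : ℝ, 0 < s ∧ k u = -(s : ℂ) := by
  set φ : ℂ → ℂ := hka.hasStrictDerivAt.localInverse _ _ _ hkd0 with hφ
  have hφa : AnalyticAt ℂ φ (k w) := hka.analyticAt_localInverse hkd0
  have hφd : HasStrictDerivAt φ (deriv k w)⁻¹ (k w) := hka.hasStrictDerivAt.to_localInverse hkd0
  have hφw : φ (k w) = w := HasStrictFDerivAt.localInverse_apply_image ..
  have hright : ∀ᶠ y in 𝓝 (k w), k (φ y) = y :=
    HasStrictDerivAt.eventually_right_inverse hka.hasStrictDerivAt hkd0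
  rw [hkw] at hφa hφd hφw hright
  -- the curve
  set γ : ℝ → ℂ := fun s => φ (-(s : ℂ)) with hγ
  have hγ0 : γ 0 = w := by simp [hγ, hφw]
  have hneg : Tendsto (fun s : ℝ => -(s : ℂ)) (𝓝 0) (𝓝 0) := by
    have : Continuous fun s : ℝ => -(s : ℂ) := by fun_prop
    simpa using this.tendsto 0
  have hγd : HasDerivAt γ (-(deriv k w)⁻¹) 0 := by
    have h1 : HasDerivAt (fun s : ℝ => -(s : ℂ)) (-1) 0 := by
      have h0 : HasDerivAt (fun s : ℝ => (s : ℂ)) 1 0 := by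
        exact (Complex.ofRealCLM.hasDerivAt (x := (0 : ℝ))).congr_deriv (by simp)
      exact h0.neg
    have h2 : HasDerivAt φ (deriv k w)⁻¹ (-((0 : ℝ) : ℂ)) := by
      simpa using hφd.hasDerivAt
    refine (h2.comp (0 : ℝ) h1).congr_deriv ?_
    ring
  -- the squared modulus decreases
  have hNd : HasDerivAt (fun s => ‖γ s‖ ^ 2) (2 * inner ℝ (γ 0) (-(deriv k w)⁻¹)) 0 :=
    hγd.norm_sq
  have hinner : inner ℝ (γ 0) (-(deriv k w)⁻¹) < 0 := by
    rw [hγ0, inner_neg_right, neg_lt_zero]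
    exact hpos
  -- a neighbourhood of `0`
  have hc0 : ∀ᶠ s : ℝ in 𝓝 0, ContinuousAt φ (-(s : ℂ)) :=
    hneg.eventually (hφa.eventually_analyticAt.mono fun z hz => hz.continuousAt)
  have hr0 : ∀ᶠ s : ℝ in 𝓝 0, k (φ (-(s : ℂ))) = -(s : ℂ) := hneg.eventually hright
  have hγc : ContinuousAt γ 0 := hγd.continuousAt
  have hball : ∀ᶠ s : ℝ in 𝓝 0, ‖γ s - w‖ < ε := by
    have := Metric.continuousAt_iff'.1 hγc ε hε
    simpa [dist_eq_norm, hγ0] using this
  obtain ⟨η, hη, hall⟩ := Metric.eventually_nhds_iff_ball.1 (hc0.and (hr0.and hball))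
  have hslope := hNd.tendsto_slope
  have h3 : ∀ᶠ s in 𝓝[≠] (0 : ℝ), slope (fun s => ‖γ s‖ ^ 2) 0 s < 0 :=
    hslope.eventually_lt_const (by linarith)
  have h4 : ∀ᶠ s in 𝓝[>] (0 : ℝ), slope (fun s => ‖γ s‖ ^ 2) 0 s < 0 :=
    h3.filter_mono (nhdsWithin_mono _ fun x hx => ne_of_gt hx)
  have h5 : ∀ᶠ s in 𝓝[>] (0 : ℝ), s < η := eventually_nhdsWithin_of_eventually_nhds (gt_mem_nhds hη)
  have h6 : ∀ᶠ s in 𝓝[>] (0 : ℝ), 0 < s := eventually_mem_nhdsWithin
  obtain ⟨s₀, hs1, hs2, hs3⟩ := (h4.and (h5.and h6)).exists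
  have hlt : ‖γ s₀‖ < ‖w‖ := by
    rw [slope_def_field, sub_zero, div_lt_iff₀ hs3, zero_mul, sub_neg] at hs1
    have h7 : ‖γ s₀‖ ^ 2 < ‖γ 0‖ ^ 2 := hs1
    rw [hγ0] at h7
    exact lt_of_pow_lt_pow_left₀ 2 (norm_nonneg _) h7
  refine ⟨‖w‖ - ‖γ s₀‖, by linarith, fun r' hr1 hr2 => ?_⟩
  have hmem : ∀ s ∈ Set.Icc (0 : ℝ) s₀, s ∈ Metric.ball (0 : ℝ) η := by
    intro s hs
    rw [mem_ball_zero_iff, Real.norm_of_nonneg hs.1]
    linarith [hs.2]
  have hcont : ContinuousOn (fun s => ‖γ s‖) (Set.Icc 0 s₀) := by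
    intro s hs
    have h8 := (hall s (hmem s hs)).1
    have h9 : ContinuousAt γ s := by
      refine ContinuousAt.comp (f := fun s : ℝ => -(s : ℂ)) (g := φ) h8 ?_
      fun_prop
    exact h9.norm.continuousWithinAt
  have hivt := intermediate_value_Ioo' hs3.le hcont
  have hr'mem : r' ∈ Set.Ioo (‖γ s₀‖) (‖γ 0‖) := by
    rw [hγ0]
    exact ⟨by linarith, hr2⟩
  obtain ⟨s, hs, hsr⟩ := hivt hr'mem
  obtain ⟨-, c2, c3⟩ := hall s (hmem s ⟨hs.1.le, hs.2.le⟩)
  exact ⟨γ s, c3, hsr, s, hs.1, c2⟩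

/-- Near a zero of any multiplicity. -/
theorem curve_mult {G : ℂ → ℂ} (hG : Differentiable ℂ G) (hG0 : G 0 ≠ 0) {w : ℂ} (hw : G w = 0)
    {ε : ℝ} (hε : 0 < ε) :
    ∃ δ > 0, ∀ r', ‖w‖ - δ < r' → r' < ‖w‖ → ∃ u : ℂ, ‖u - w‖ < ε ∧ ‖u‖ = r' ∧
      ∃ s : ℝ, 0 < s ∧ G u + s * (u * deriv G u) = 0 := by
  have hw0 : w ≠ 0 := by
    rintro rfl
    exact hG0 hw
  have hda : ∀ z, AnalyticAt ℂ G z := fun z => hG.analyticAt z
  have hne : ∃ᶠ z in 𝓝 w, G z ≠ 0 := by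
    have h1 := eventually_ne hG hG0 w
    exact h1.frequently.filter_mono nhdsWithin_le_nhds
  have hfin : analyticOrderAt G w ≠ ⊤ := by
    rw [Ne, analyticOrderAt_eq_top]
    intro h
    exact (hne.and_eventually h).exists.elim fun z hz => hz.1 hz.2
  obtain ⟨n, hn⟩ := ENat.ne_top_iff_exists.1 hfin
  obtain ⟨g, hga, hgw, hgG⟩ := ((hda w).analyticOrderAt_eq_natCast (n := n)).1 hn.symm
  have hn0 : n ≠ 0 := by
    rintro rfl
    have h1 := hgG.self_of_nhds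
    rw [hw] at h1
    simp only [pow_zero, smul_eq_mul, one_mul] at h1
    exact hgw h1.symm
  have hnc : (n : ℂ) ≠ 0 := by exact_mod_cast hn0
  -- the derivative near `w`
  have hGd : ∀ᶠ z in 𝓝 w, deriv G z = (z - w) ^ (n - 1) * (n * g z + (z - w) * deriv g z) := by
    have h1 : ∀ᶠ z in 𝓝 w, G =ᶠ[𝓝 z] fun z => (z - w) ^ n • g z := hgG.eventually_nhds
    filter_upwards [h1, hga.eventually_analyticAt] with z hz hz2
    rw [hz.deriv_eq]
    have h2 : HasDerivAt (fun z => (z - w) ^ n) (n * (z - w) ^ (n - 1)) z := by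
      have h0 : HasDerivAt (fun u : ℂ => u - w) 1 z := (hasDerivAt_id z).sub_const w
      have := h0.fun_pow n
      simpa using this
    have h3 := h2.mul hz2.differentiableAt.hasDerivAt
    have h4 : deriv (fun z => (z - w) ^ n • g z) z = _ := h3.deriv
    rw [h4]
    obtain ⟨k, rfl⟩ := Nat.exists_eq_succ_of_ne_zero hn0
    rw [Nat.succ_sub_one, pow_succ]
    ring
  set den : ℂ → ℂ := fun u => u * (n * g u + (u - w) * deriv g u) with hden
  have hdena : AnalyticAt ℂ den w := by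
    have h1 : AnalyticAt ℂ (fun u : ℂ => u - w) w := analyticAt_id.sub analyticAt_const
    exact analyticAt_id.mul ((analyticAt_const.mul hga).add (h1.mul hga.deriv))
  have hdenw : den w = n * w * g w := by
    simp only [hden]
    ring
  have hdenw0 : den w ≠ 0 := by
    rw [hdenw]
    exact mul_ne_zero (mul_ne_zero hnc hw0) hgw
  set k : ℂ → ℂ := fun u => (u - w) * g u / den u with hk
  have hka : AnalyticAt ℂ k w := by
    have h1 : AnalyticAt ℂ (fun u : ℂ => u - w) w := analyticAt_id.sub analyticAt_const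
    exact (h1.mul hga).div hdena hdenw0
  have hkw : k w = 0 := by simp [hk]
  have hkd : deriv k w = 1 / (n * w) := by
    have h0 : HasDerivAt (fun u : ℂ => u - w) 1 w := (hasDerivAt_id w).sub_const w
    have h1 : HasDerivAt (fun u : ℂ => (u - w) * g u) (1 * g w + (w - w) * deriv g w) w :=
      h0.mul hga.differentiableAt.hasDerivAt
    have h2 := (h1.div hdena.differentiableAt.hasDerivAt hdenw0).deriv
    have h3 : deriv k w = _ := h2
    rw [h3, hdenw, sub_self]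
    field_simp
    ring
  have hkd0 : deriv k w ≠ 0 := by
    rw [hkd]
    exact one_div_ne_zero (mul_ne_zero hnc hw0)
  have hpos : 0 < inner ℝ w (deriv k w)⁻¹ := by
    rw [hkd, one_div, inv_inv]
    have h1 : (n : ℂ) * w = (n : ℝ) • w := by
      rw [Complex.real_smul]
      push_cast
      rfl
    rw [h1, inner_smul_right, real_inner_self_eq_norm_sq]
    have : 0 < ‖w‖ := norm_pos_iff.2 hw0
    have hn1 : (0 : ℝ) < n := by exact_mod_cast Nat.pos_of_ne_zero hn0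
    positivity
  have hev : ∀ᶠ z in 𝓝 w, den z ≠ 0 ∧ G z = (z - w) ^ n • g z ∧
      deriv G z = (z - w) ^ (n - 1) * (n * g z + (z - w) * deriv g z) := by
    filter_upwards [hdena.continuousAt.eventually_ne hdenw0, hgG, hGd] with z h1 h2 h3
    exact ⟨h1, h2, h3⟩
  obtain ⟨η, hη, hall⟩ := Metric.eventually_nhds_iff_ball.1 hev
  obtain ⟨δ, hδ, hc⟩ := curve_of hka hkw hkd0 hpos (lt_min hε hη)
  refine ⟨δ, hδ, fun r' h1 h2 => ?_⟩
  obtain ⟨u, hu1, hu2, s, hs, hu3⟩ := hc r' h1 h2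
  obtain ⟨c1, c2, c3⟩ := hall u (mem_ball_iff_norm.2 (hu1.trans_le (min_le_right _ _)))
  refine ⟨u, hu1.trans_le (min_le_left _ _), hu2, s, hs, ?_⟩
  have c4 : (u - w) * g u = -(s : ℂ) * den u := by
    have c5 : (u - w) * g u / den u = -(s : ℂ) := hu3
    rwa [div_eq_iff c1] at c5
  rw [c2, c3, smul_eq_mul]
  obtain ⟨m, rfl⟩ := Nat.exists_eq_succ_of_ne_zero hn0
  rw [Nat.succ_sub_one, pow_succ]
  simp only [hden] at c4
  linear_combination (u - w) ^ m * c4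

/-- (U) on the circles `r - ε < |z| < r` implies: at most one zero on `|z| = r`. -/
theorem eq_of_U {q : ℂ} (hq0 : q ≠ 0) (hq1 : ‖q‖ ≤ 1) {r ε : ℝ} (hε : 0 < ε)
    (hm : ∀ u, r - ε < ‖u‖ → ‖u‖ < r → F q u ≠ 0 →
      (∃ s : ℝ, 0 < s ∧ F q u + s * (u * F q (q * u)) = 0) →
      0 < (1 + q * u * F q (q * (q * u)) / F q (q * u) - u * F q (q * u) / F q u).re)
    {u v : ℂ} (hur : ‖u‖ = r) (hvr : ‖v‖ = r) (hu : F q u = 0) (hv : F q v = 0) : u = v := by
  have hG : Differentiable ℂ (F q) := differentiable_F hq1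
  have hG0 : F q 0 ≠ 0 := by rw [F_zero]; exact one_ne_zero
  by_contra hne
  have hu0 : u ≠ 0 := by
    rintro rfl
    exact hG0 hu
  set ε' := ‖u - v‖ / 2 with hε'
  have hε0 : 0 < ε' := by
    have : 0 < ‖u - v‖ := norm_pos_iff.2 (sub_ne_zero.2 hne)
    positivity
  obtain ⟨δ1, hδ1, hc1⟩ := curve_mult hG hG0 hu hε0
  obtain ⟨δ2, hδ2, hc2⟩ := curve_mult hG hG0 hv hε0
  have hr : 0 < r := by rw [← hur]; exact norm_pos_iff.2 hu0
  set δ := min (min (min δ1 δ2) r) ε with hδ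
  have hδ0 : 0 < δ := lt_min (lt_min (lt_min hδ1 hδ2) hr) hε
  have hfin := ((finite_zeros hG hG0 r).image (fun z => ‖z‖)).union
    ((finite_zeros hG hG0 r).image (fun z => ‖z‖ / ‖q‖))
  have hinf : (Set.Ioo (r - δ) r).Infinite := Set.Ioo_infinite (by linarith)
  obtain ⟨r', hr', hr''⟩ := hinf.exists_notMem_finite hfin
  have d0 : δ ≤ r := (min_le_left _ _).trans (min_le_right _ _)
  have d1 : δ ≤ δ1 := (min_le_left _ _).trans ((min_le_left _ _).trans (min_le_left _ _))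
  have d2 : δ ≤ δ2 := (min_le_left _ _).trans ((min_le_left _ _).trans (min_le_right _ _))
  have d3 : δ ≤ ε := min_le_right _ _
  have hqn : 0 < ‖q‖ := norm_pos_iff.2 hq0
  have hr'0 : 0 < r' := by linarith [hr'.1]
  obtain ⟨x, hx1, hx2, hx3⟩ := hc1 r' (by rw [hur]; linarith [hr'.1]) (by rw [hur]; exact hr'.2)
  obtain ⟨y, hy1, hy2, hy3⟩ := hc2 r' (by rw [hvr]; linarith [hr'.1]) (by rw [hvr]; exact hr'.2)
  rw [deriv_F hq1] at hx3 hy3
  have hxy : x ≠ y := by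
    rintro rfl
    have h1 : ‖u - v‖ ≤ ‖x - u‖ + ‖x - v‖ := by
      have := norm_sub_le (x - v) (x - u)
      rw [show x - v - (x - u) = u - v by ring] at this
      linarith
    linarith
  have hcirc : ∀ z : ℂ, ‖z‖ = r' → F q z ≠ 0 := by
    intro z hz hz0
    exact hr'' (Or.inl ⟨z, ⟨by rw [hz]; exact hr'.2.le, hz0⟩, hz⟩)
  have hcirc' : ∀ z : ℂ, ‖z‖ = ‖q‖ * r' → F q z ≠ 0 := by
    intro z hz hz0
    refine hr'' (Or.inr ⟨z, ⟨?_, hz0⟩, ?_⟩)
    · rw [hz]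
      have : ‖q‖ * r' ≤ r' := mul_le_of_le_one_left hr'0.le hq1
      linarith [hr'.2]
    · simp only [hz]
      field_simp
  refine one_point_le hG hG0 hq0 hq1 hr'0 hcirc hcirc' ?_ hx2 hy2 hxy hx3 hy3
  rintro z hz hz'
  rw [deriv_F hq1, deriv_F hq1]
  exact hm z (by rw [hz]; linarith [hr'.1]) (by rw [hz]; exact hr'.2) (hcirc z hz) hz'

/-- (U) on the circles `r - ε < |z| < r` implies `Dist α r`. -/
theorem dist_of_U {α r ε : ℝ} (hα : SokalFU.qa α ≠ 1) (hε : 0 < ε)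
    (hm : ∀ u, r - ε < ‖u‖ → ‖u‖ < r → F (SokalFU.qa α) u ≠ 0 →
      (∃ s : ℝ, 0 < s ∧ F (SokalFU.qa α) u + s * (u * F (SokalFU.qa α) (SokalFU.qa α * u)) = 0) →
      0 < (1 + SokalFU.qa α * u * F (SokalFU.qa α) (SokalFU.qa α * (SokalFU.qa α * u)) /
        F (SokalFU.qa α) (SokalFU.qa α * u) - u * F (SokalFU.qa α) (SokalFU.qa α * u) /
        F (SokalFU.qa α) u).re) : SokalFU.Dist α r := by
  set q := SokalFU.qa α with hq
  have hq1 : ‖q‖ = 1 := SokalFU.norm_qa α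
  have hq0 : q ≠ 0 := by
    intro h
    rw [h, norm_zero] at hq1
    exact zero_ne_one hq1
  intro z hz hz0
  refine ⟨?_, fun w hw hw0 => eq_of_U hq0 hq1.le hε hm hw hz hw0 hz0⟩
  rw [← hq, deriv_F hq1.le]
  intro h
  have h1 : q * z = z := by
    refine eq_of_U hq0 hq1.le hε hm ?_ hz h hz0
    rw [norm_mul, hq1, one_mul, hz]
  have hz1 : z ≠ 0 := by
    rintro rfl
    rw [F_zero] at hz0
    exact one_ne_zero hz0
  exact hα (mul_right_cancel₀ hz1 (by rw [h1, one_mul]))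

end SokalF1
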