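import Pool.Agent.Lib_MP_af4de1_f1.Lat
import Pool.Agent.Lib_MP_af4de1_f1.Dec
import Pool.Agent.Lib_MP_af4de1_f1.Soft

/-!
# F1: from the waves to `Dist`, and the reduction of the parameters

`WaveU N del r`: (U) for every combination of the `N` waves with coefficients of equal size on the circle of
radius `r`.  `dist_of_waves`: `WaveU` near `r` gives `Dist (2πa/N + del) r`.
`dist_F1_of`: F1 from the cases `N = 1`, `N = 2` and `N ≥ 3`.
-/

set_option autoImplicit false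

namespace SokalF1

open Complex SokalU SokalFU

/-- the wave point `w_j` -/
noncomputable def wj (N : ℕ) (r del x : ℝ) (j : ℤ) : ℂ := wp r del ((x + j) * hst N)

/-- (U) for the combinations of the waves -/
def WaveU (N : ℕ) (del r : ℝ) : Prop :=
  ∀ (x g0 m : ℝ) (c : ℤ → ℂ), 0 ≤ x → x < 1 → 0 < g0 → (∀ j, ‖c j‖ = g0) → 0 < m →
    ∑ j ∈ Finset.Ico (-1 : ℤ) (-1 + N), c j * E (tt del) (wj N r del x j) ≠ 0 →
    ∑ j ∈ Finset.Ico (-1 : ℤ) (-1 + N), c j * DE (tt del) (wj N r del x j) +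
      m * ∑ j ∈ Finset.Ico (-1 : ℤ) (-1 + N), c j * E (tt del) (wj N r del x j) = 0 →
    0 < ((∑ j ∈ Finset.Ico (-1 : ℤ) (-1 + N), c j * SokalBPlus.D2E (tt del) (wj N r del x j)) /
          (∑ j ∈ Finset.Ico (-1 : ℤ) (-1 + N), c j * DE (tt del) (wj N r del x j)) -
        (∑ j ∈ Finset.Ico (-1 : ℤ) (-1 + N), c j * DE (tt del) (wj N r del x j)) /
          (∑ j ∈ Finset.Ico (-1 : ℤ) (-1 + N), c j * E (tt del) (wj N r del x j))).re

/-- `Dist` from (U) for the waves on the slightly smaller circles -/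
theorem dist_of_waves {N : ℕ} (hN : 0 < N) {a : ℤ} (ha : IsCoprime a (N : ℤ)) {del r ε : ℝ} (hε : 0 < ε)
    (hr : ε ≤ r) (hq : qa (2 * Real.pi * a / N + del) ≠ 1)
    (H : ∀ r', r - ε < r' → r' < r → WaveU N del r') :
    SokalFU.Dist (2 * Real.pi * a / N + del) r := by
  obtain ⟨g0, hg0, hdec⟩ := dec N hN a ha
  refine dist_of_U hq hε fun u hu1 hu2 hF hs => ?_
  obtain ⟨s, hs0, hs⟩ := hs
  set q := qa (2 * Real.pi * a / N + del) with hqdef
  have hupos : 0 < ‖u‖ := by linarith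
  obtain ⟨x, c, hx0, hx1, hc, hsum⟩ := hdec ‖u‖ del u hupos rfl
  obtain ⟨e1, e2, e3⟩ := hsum (-1)
  have hU := H ‖u‖ hu1 hu2 x g0 (1 / s) c hx0 hx1 hg0 hc (by positivity)
  unfold wj at hU
  rw [← e1, ← e2, ← e3] at hU
  have hsC : (s : ℂ) ≠ 0 := by exact_mod_cast hs0.ne'
  have h1 : u * SokalF.F q (q * u) + ((1 / s : ℝ) : ℂ) * SokalF.F q u = 0 := by
    have h2 : u * SokalF.F q (q * u) + ((1 / s : ℝ) : ℂ) * SokalF.F q u =
        (1 / (s : ℂ)) * (SokalF.F q u + s * (u * SokalF.F q (q * u))) := by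
      push_cast
      rw [mul_add, ← mul_assoc (1 / (s : ℂ)), one_div_mul_cancel hsC]
      ring
    rw [h2, hs, mul_zero]
  have hD : u * SokalF.F q (q * u) ≠ 0 := by
    intro h0
    rw [h0, zero_add] at h1
    rcases mul_eq_zero.mp h1 with h2 | h2
    · have : (1 / s : ℝ) = 0 := by exact_mod_cast h2
      have h3 : 0 < 1 / s := by positivity
      linarith
    · exact hF h2
  have h2 := hU hF h1
  have hu0 : u ≠ 0 := left_ne_zero_of_mul hD
  have hFq : SokalF.F q (q * u) ≠ 0 := right_ne_zero_of_mul hD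
  have h3 : (u * SokalF.F q (q * u) + u * (q * u * SokalF.F q (q * (q * u)))) / (u * SokalF.F q (q * u)) =
      1 + q * u * SokalF.F q (q * (q * u)) / SokalF.F q (q * u) := by
    rw [add_div, div_self hD, mul_div_mul_left _ _ hu0]
  rw [h3] at h2
  exact h2

/-- `q' ≠ 1` -/
theorem qa_ne_one {N : ℕ} (hN : 2 ≤ N) {a : ℤ} (ha : IsCoprime a (N : ℤ)) {del r : ℝ} (hr : 40 ≤ r)
    (hQ : (N : ℝ) ^ 2 * (1 + (r * del) ^ 2) ≤ 7.26 * r) : qa (2 * Real.pi * a / N + del) ≠ 1 := by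
  intro h
  unfold qa at h
  rw [Complex.exp_eq_one_iff] at h
  obtain ⟨n, hn⟩ := h
  have hNpos : (0 : ℝ) < N := by exact_mod_cast (by omega : 0 < N)
  have hpi := Real.pi_gt_three
  have h1 : 2 * Real.pi * a / N + del = n * (2 * Real.pi) := by
    have h2 : ((2 * Real.pi * a / N + del : ℝ) : ℂ) * I = ((n * (2 * Real.pi) : ℝ) : ℂ) * I := by
      rw [hn]; push_cast; ring
    exact_mod_cast mul_right_cancel₀ Complex.I_ne_zero h2
  have h2 : (N : ℝ) * del = 2 * Real.pi * (n * N - a) := by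
    have : del = n * (2 * Real.pi) - 2 * Real.pi * a / N := by linarith
    rw [this]; field_simp
  have h3 : (n * N - a : ℤ) ≠ 0 := by
    intro h4
    have h5 : a = n * N := by linarith
    rw [h5] at ha
    have h6 : IsUnit (N : ℤ) := by
      have : IsCoprime (n * (N : ℤ)) (N : ℤ) := ha
      have h7 : IsCoprime (N : ℤ) (N : ℤ) := this.of_mul_left_right
      exact isCoprime_self.mp h7
    have h7 := Int.isUnit_iff.mp h6
    omega
  have h4 : (1 : ℝ) ≤ (((n * N - a : ℤ) : ℝ)) ^ 2 := by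
    have h5 : 1 ≤ (n * N - a : ℤ) ^ 2 := by
      have := Int.one_le_abs h3
      rw [← sq_abs]; nlinarith
    exact_mod_cast h5
  push_cast at h4
  have h5 : (N : ℝ) ^ 2 * (r * del) ^ 2 = r ^ 2 * (2 * Real.pi * (n * N - a)) ^ 2 := by
    rw [← h2]; ring
  have h6 : 36 ≤ (2 * Real.pi * ((n : ℝ) * N - a)) ^ 2 := by
    have : (2 * Real.pi * ((n : ℝ) * N - a)) ^ 2 = (2 * Real.pi) ^ 2 * ((n : ℝ) * N - a) ^ 2 := by ring
    rw [this]
    have h7 : 36 ≤ (2 * Real.pi) ^ 2 := by nlinarith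
    nlinarith
  have h7 : r ^ 2 * 36 ≤ r ^ 2 * (2 * Real.pi * ((n : ℝ) * N - a)) ^ 2 :=
    mul_le_mul_of_nonneg_left h6 (sq_nonneg r)
  nlinarith [sq_nonneg (N : ℝ)]

/-- F1, one wave system: `WaveU` for all `r ≥ 499/10` with `N²(1 + (r del)²) ≤ 7.2552 r`. -/
theorem dist_wave {N : ℕ} (hN : 2 ≤ N) {a : ℤ} (ha : IsCoprime a (N : ℤ)) {del r ρ₀ : ℝ}
    (hr : 50 ≤ r) (hdel : 0 ≤ del) (hρ : ρ₀ < r * del ∨ ρ₀ ≤ 0)
    (hQ : (N : ℝ) ^ 2 * (1 + (r * del) ^ 2) ≤ 7.2551976 * r)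
    (H : ∀ r', 499 / 10 ≤ r' → ρ₀ ≤ r' * del → (N : ℝ) ^ 2 * (1 + (r' * del) ^ 2) ≤ 7.2552 * r' →
      WaveU N del r') :
    SokalFU.Dist (2 * Real.pi * a / N + del) r := by
  have hq := qa_ne_one hN ha (by linarith : 40 ≤ r) (hQ.trans (by linarith))
  -- the width
  have hex : ∃ ε, 0 < ε ∧ ε ≤ r / 10000000 ∧ ∀ r', r - ε < r' → r' < r → ρ₀ ≤ r' * del := by
    rcases hρ with hρ | hρ
    · rcases hdel.lt_or_eq with hd | hd
      · refine ⟨min (r / 10000000) ((r * del - ρ₀) / del), lt_min (by positivity)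
          (div_pos (by linarith) hd), min_le_left _ _, fun r' h1 h2 => ?_⟩
        have h3 : r - (r * del - ρ₀) / del < r' := by
          have := min_le_right (r / 10000000) ((r * del - ρ₀) / del)
          linarith
        have h4 : (r - (r * del - ρ₀) / del) * del = ρ₀ := by field_simp; ring
        nlinarith
      · refine ⟨r / 10000000, by positivity, le_rfl, fun r' h1 h2 => ?_⟩
        rw [← hd] at hρ ⊢
        linarith
    · refine ⟨r / 10000000, by positivity, le_rfl, fun r' h1 h2 => ?_⟩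
      have : 0 ≤ r' * del := mul_nonneg (by linarith) hdel
      linarith
  obtain ⟨ε, hε, hε2, hε3⟩ := hex
  refine dist_of_waves (by omega) ha hε (by linarith) hq fun r' h1 h2 => ?_
  refine H r' (by linarith) (hε3 r' h1 h2) ?_
  have h3 : r * 0.9999999 ≤ r' := by linarith
  have h4 : (r' * del) ^ 2 ≤ (r * del) ^ 2 := by
    have : r' * del ≤ r * del := mul_le_mul_of_nonneg_right h2.le hdel
    exact pow_le_pow_left₀ (mul_nonneg (by linarith) hdel) this 2
  have h5 : (N : ℝ) ^ 2 * (1 + (r' * del) ^ 2) ≤ (N : ℝ) ^ 2 * (1 + (r * del) ^ 2) :=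
    mul_le_mul_of_nonneg_left (by linarith) (by positivity)
  linarith

/-- **F1 from the cases.**  `ρ₀`: the bound for `N = 2`. -/
theorem dist_F1_of {ρ₀ : ℝ}
    (h1 : ∀ α r : ℝ, 0 < α → 50 ≤ r → 9 / 2 ≤ α * r → 1 + (α * r) ^ 2 ≤ 7.2552 * r → SokalFU.Dist α r)
    (h2 : ∀ α r : ℝ, 50 ≤ r → |α - Real.pi| * r ≤ ρ₀ → SokalFU.Dist α r)
    (hW2 : ∀ del r : ℝ, 0 ≤ del → 499 / 10 ≤ r → ρ₀ ≤ r * del → 4 * (1 + (r * del) ^ 2) ≤ 7.2552 * r →
      WaveU 2 del r)
    (hW : ∀ (N : ℕ) (del r : ℝ), 3 ≤ N → 0 ≤ del → 499 / 10 ≤ r →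
      (N : ℝ) ^ 2 * (1 + (r * del) ^ 2) ≤ 7.2552 * r → WaveU N del r) :
    ∀ α r : ℝ, 0 < α → α ≤ Real.pi → 50 ≤ r → 9 / 2 ≤ α * r → SokalFU.Dist α r := by
  intro α r hα hα2 hr hαr
  obtain ⟨N, a, hN0, hcop, hN1, hN1', ha0, hQ, -⟩ := lat1 hα hα2 (by linarith : 40 ≤ r)
  set del : ℝ := α - 2 * Real.pi * a / N with hdel
  have hαd : α = 2 * Real.pi * a / N + del := by rw [hdel]; ring
  have hmain : ∀ (ρ1 : ℝ) (_ : 2 ≤ N)
      (_ : ∀ d : ℝ, d = |del| → ρ1 < r * d ∨ ρ1 ≤ 0)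
      (_ : ∀ r', 499 / 10 ≤ r' → ρ1 ≤ r' * |del| → (N : ℝ) ^ 2 * (1 + (r' * |del|) ^ 2) ≤ 7.2552 * r' →
        WaveU N |del| r'), SokalFU.Dist α r := by
    intro ρ1 hN2 hρ1 H
    have hQ' : (N : ℝ) ^ 2 * (1 + (r * |del|) ^ 2) ≤ 7.2551976 * r := by
      rw [mul_pow, sq_abs, ← mul_pow]; exact hQ
    rcases le_total 0 del with hd | hd
    · rw [abs_of_nonneg hd] at hQ' H
      rw [hαd]
      exact dist_wave hN2 hcop hr hd (by simpa [abs_of_nonneg hd] using hρ1 _ rfl) hQ' H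
    · rw [abs_of_nonpos hd] at hQ' H
      have h3 : SokalFU.Dist (2 * Real.pi * (-a : ℤ) / N + -del) r :=
        dist_wave hN2 hcop.neg_left hr (by linarith) (by simpa [abs_of_nonpos hd] using hρ1 _ rfl) hQ' H
      have h4 : 2 * Real.pi * (-a : ℤ) / N + -del = -α := by
        rw [hαd]; push_cast; ring
      rw [h4] at h3
      exact dist_neg_iff.mp h3
  rcases (by omega : N = 1 ∨ N = 2 ∨ 3 ≤ N) with h | h | h
  · have ha : a = 0 := hN1 h
    refine h1 α r hα hr hαr ?_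
    have hd : del = α := by rw [hdel, ha]; simp
    rw [hd, h] at hQ
    push_cast at hQ
    have : (r * α) ^ 2 = (α * r) ^ 2 := by ring
    linarith
  · -- `N = 2`
    have ha1 : a = 1 := by
      have hane : a ≠ 0 := fun h0 => by have := hN1' h0; omega
      have hpi := Real.pi_gt_three
      by_contra hne
      have ha2 : 2 ≤ a := by omega
      have ha2' : (2 : ℝ) ≤ a := by exact_mod_cast ha2
      have hd : del ≤ -3 := by
        rw [hdel, h]; push_cast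
        nlinarith
      rw [h] at hQ
      push_cast at hQ
      have h3 : 9 ≤ del ^ 2 := by nlinarith
      have h4 : r ^ 2 * 9 ≤ r ^ 2 * del ^ 2 := mul_le_mul_of_nonneg_left h3 (sq_nonneg r)
      nlinarith
    by_cases hc : |α - Real.pi| * r ≤ ρ₀
    · exact h2 α r hr hc
    · push Not at hc
      have hd : del = α - Real.pi := by
        rw [hdel, ha1, h]; push_cast; ring
      refine hmain ρ₀ (by omega) (fun d hd' => Or.inl ?_) (fun r' h3 h4 h5 => ?_)
      · rw [hd', hd]; linarith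
      · subst h
        exact hW2 _ _ (abs_nonneg _) h3 h4 (by push_cast at h5; linarith)
  · exact hmain 0 (by omega) (fun _ _ => Or.inr le_rfl) fun r' h3 _ h5 => hW N _ _ h (abs_nonneg _) h3 h5

end SokalF1
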