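import Pool.Agent.Lib_MP_af4de1_fa.PathGen

/-!
# LEMMA MAIN, exact half: integration by parts, the formulas for `DE/E`, `D²E/E`, the Gaussian

`t = -i δ`, `κ` arbitrary with `|Im κ| < c s₁/δ`, `K = δ κ`, `br w = ∫ pv(s) w(σ) f(σ) ds`, `σ = pz c s₁ s`,
`g σ = e^σ - 1 - σ`.
-/

set_option autoImplicit false

open Complex MeasureTheory Filter Topology SokalU SokalPG

namespace SokalF1M

/-- The bracket. -/
noncomputable def br (c s1 δ : ℝ) (κ : ℂ) (w : ℂ → ℂ) : ℂ :=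
  ∫ s : ℝ, gi c s1 w κ 0 (-((δ : ℂ) * I)) s

/-- `e^σ - 1 - σ` -/
noncomputable def gs (σ : ℂ) : ℂ := cexp σ - 1 - σ

/-! ### weights -/

theorem wt_norm {x y : ℝ} (hx : |x| ≤ 1) : ‖(x + y * I : ℂ)‖ ≤ 1 + |y| := by
  refine (norm_add_le _ _).trans ?_
  rw [Complex.norm_real, norm_mul, Complex.norm_real, Complex.norm_I, mul_one, Real.norm_eq_abs,
    Real.norm_eq_abs]
  linarith

theorem wt_norm_exp {x y : ℝ} (hx : |x| ≤ 1) : ‖cexp (x + y * I : ℂ)‖ ≤ 3 := by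
  rw [Complex.norm_exp]
  have h1 : ((x : ℂ) + y * I).re = x := by simp
  rw [h1]
  have h2 : Real.exp x ≤ Real.exp 1 := Real.exp_le_exp.2 (abs_le.1 hx).2
  linarith [Real.exp_one_lt_d9]

theorem one_le_sq (y : ℝ) : 1 ≤ (1 + |y|) ^ 2 := by
  nlinarith [abs_nonneg y]

theorem wt_const (a : ℂ) : Wt (fun _ => a) ‖a‖ := by
  refine ⟨differentiable_const _, fun x y _ => ?_⟩
  nlinarith [norm_nonneg a, one_le_sq y]

theorem wt_id : Wt (fun h => h) 1 := by
  refine ⟨differentiable_id, fun x y hx => ?_⟩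
  have h1 := wt_norm (y := y) hx
  have h2 := abs_nonneg y
  nlinarith

theorem wt_sq : Wt (fun h => h ^ 2) 1 := by
  refine ⟨by fun_prop, fun x y hx => ?_⟩
  rw [norm_pow, one_mul]
  exact pow_le_pow_left₀ (norm_nonneg _) (wt_norm hx) 2

theorem wt_nonneg {m : ℂ → ℂ} {K : ℝ} (h : Wt m K) : 0 ≤ K := by
  have h4 := h.2 0 0 (by simp)
  have h5 := norm_nonneg (m (((0 : ℝ) : ℂ) + ((0 : ℝ) : ℂ) * I))
  simp only [abs_zero, add_zero, one_pow, mul_one] at h4
  linarith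

theorem wt_mexp {m : ℂ → ℂ} {K : ℝ} (h : Wt m K) : Wt (fun σ => m σ * cexp σ) (3 * K) := by
  refine ⟨h.1.mul Complex.differentiable_exp, fun x y hx => ?_⟩
  rw [norm_mul]
  have h1 := h.2 x y hx
  have h2 := wt_norm_exp (y := y) hx
  have h3 : 0 ≤ K * (1 + |y|) ^ 2 := (norm_nonneg _).trans h1
  calc ‖m (x + y * I)‖ * ‖cexp (x + y * I)‖ ≤ (K * (1 + |y|) ^ 2) * 3 :=
        mul_le_mul h1 h2 (norm_nonneg _) h3
    _ = _ := by ring

theorem wt_add {m n : ℂ → ℂ} {K L : ℝ} (h : Wt m K) (h' : Wt n L) :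
    Wt (fun σ => m σ + n σ) (K + L) := by
  refine ⟨h.1.add h'.1, fun x y hx => ?_⟩
  refine (norm_add_le _ _).trans ?_
  rw [add_mul]
  exact add_le_add (h.2 x y hx) (h'.2 x y hx)

theorem wt_cmul {m : ℂ → ℂ} {K : ℝ} (a : ℂ) (h : Wt m K) :
    Wt (fun σ => a * m σ) (‖a‖ * K) := by
  refine ⟨h.1.const_mul a, fun x y hx => ?_⟩
  rw [norm_mul, mul_assoc]
  exact mul_le_mul_of_nonneg_left (h.2 x y hx) (norm_nonneg _)

theorem wt_congr {m n : ℂ → ℂ} {K : ℝ} (h : Wt m K) (e : ∀ σ, m σ = n σ) : Wt n K := by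
  rwa [show n = m from funext fun σ => (e σ).symm]

theorem wt_exp : Wt cexp 3 := by
  have := wt_mexp (wt_const 1)
  rw [norm_one, mul_one] at this
  exact wt_congr this fun σ => one_mul _

/-- `e^(2σ)` -/
theorem wt_exp2 : Wt (fun σ => cexp σ * cexp σ) 9 := by
  have := wt_mexp wt_exp
  norm_num at this
  exact this

theorem wt_em1 : Wt (fun σ => cexp σ - 1) 4 := by
  have := wt_add wt_exp (wt_const (-1))
  rw [norm_neg, norm_one] at this
  norm_num at this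
  exact wt_congr this fun σ => by ring

theorem wt_mul_em1 {m : ℂ → ℂ} {K : ℝ} (h : Wt m K) : Wt (fun σ => m σ * (cexp σ - 1)) (4 * K) := by
  have h1 := wt_add (wt_mexp h) (wt_cmul (-1) h)
  rw [norm_neg, norm_one, one_mul] at h1
  have : 3 * K + K = 4 * K := by ring
  rw [this] at h1
  exact wt_congr h1 fun σ => by ring

theorem wt_gs : Wt gs 5 := by
  have h1 := wt_add wt_em1 (wt_cmul (-1) wt_id)
  rw [norm_neg, norm_one] at h1
  norm_num at h1
  exact wt_congr h1 fun σ => by unfold gs; ring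

theorem wt_mul_gs : Wt (fun σ => σ * gs σ) 5 := by
  have h1 := wt_add (wt_mul_em1 wt_id) (wt_cmul (-1) wt_sq)
  rw [norm_neg, norm_one] at h1
  norm_num at h1
  exact wt_congr h1 fun σ => by unfold gs; ring

/-! ### linearity -/

section br

variable {c s1 δ : ℝ} (hc : 0 < c) (hs : 0 < s1) (hcs : c * s1 ≤ 1) (hδ : 0 < δ) {κ : ℂ}
  (hk : |κ.im| < c * s1 / δ)

include hc hs hcs hδ hk

theorem int_gi {m : ℂ → ℂ} {K : ℝ} (h : Wt m K) :
    Integrable (gi c s1 m κ 0 (-((δ : ℂ) * I))) := integrable_path hc hs hcs hδ κ 0 hk h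

theorem br_add {m n : ℂ → ℂ} {K L : ℝ} (h : Wt m K) (h' : Wt n L) :
    br c s1 δ κ (fun σ => m σ + n σ) = br c s1 δ κ m + br c s1 δ κ n := by
  unfold br
  rw [← integral_add (int_gi hc hs hcs hδ hk h) (int_gi hc hs hcs hδ hk h')]
  refine integral_congr_ae (Eventually.of_forall fun s => ?_)
  simp only [gi]
  ring

omit hc hs hcs hδ hk in
theorem br_const_mul (a : ℂ) (m : ℂ → ℂ) :
    br c s1 δ κ (fun σ => a * m σ) = a * br c s1 δ κ m := by
  unfold br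
  rw [← integral_const_mul]
  refine integral_congr_ae (Eventually.of_forall fun s => ?_)
  simp only [gi]
  ring

/-! ### integration by parts -/

omit hc hs hcs hδ hk in
theorem hasDerivAt_f (κ : ℂ) (t h : ℂ) :
    HasDerivAt (f t κ 0) (f t κ 0 h * (h * t⁻¹ + κ * (cexp h - 1))) h := by
  unfold f
  have e1 : HasDerivAt (fun h : ℂ => h ^ 2 / (2 * t) + κ * (cexp (0 + h) - 1 - h))
      (h * t⁻¹ + κ * (cexp h - 1)) h := by
    have a1 : HasDerivAt (fun h : ℂ => h ^ 2 / (2 * t)) (h * t⁻¹) h := by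
      have := (hasDerivAt_pow 2 h).div_const (2 * t)
      refine this.congr_deriv ?_
      rcases eq_or_ne t 0 with rfl | ht
      · simp
      · push_cast
        field_simp
    have a2 : HasDerivAt (fun h : ℂ => κ * (cexp (0 + h) - 1 - h)) (κ * (cexp h - 1)) h := by
      have b1 : HasDerivAt (fun h : ℂ => cexp (0 + h)) (cexp h) h := by
        have := ((hasDerivAt_id h).const_add 0).cexp
        simpa using this
      exact ((b1.sub_const 1).sub (hasDerivAt_id h)).const_mul κ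
    exact a1.add a2
  have e2 := e1.cexp
  exact e2

omit hs hcs hδ hk in
theorem hasDerivAt_pz {s : ℝ} (h1 : s ≠ s1) (h2 : s ≠ -s1) (hs : 0 < s1) :
    HasDerivAt (pz c s1) (I * pv c s1 s) s := by
  have hI : HasDerivAt (fun s : ℝ => (s : ℂ) * I) I s := by
    simpa using (Complex.ofRealCLM.hasDerivAt (x := s)).mul_const I
  rcases lt_or_gt_of_ne h2 with h3 | h3
  · have e1 : pz c s1 =ᶠ[𝓝 s] fun s => -((c * s1 : ℝ) : ℂ) + s * I := by
      filter_upwards [Iio_mem_nhds h3] with x hx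
      unfold pz
      rw [pc_left hc hs (le_of_lt hx), Complex.ofReal_neg]
    have e2 : pv c s1 s = 1 := by
      unfold pv
      rw [if_neg]
      rw [not_lt, abs_of_neg (by linarith)]
      linarith
    rw [e2, mul_one]
    exact (hI.const_add _).congr_of_eventuallyEq e1
  rcases lt_or_gt_of_ne h1 with h4 | h4
  · have e1 : pz c s1 =ᶠ[𝓝 s] fun s => (c : ℂ) * s + s * I := by
      filter_upwards [Ioo_mem_nhds h3 h4] with x hx
      unfold pz
      rw [pc_mid hc hx.1.le hx.2.le]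
      push_cast
      ring
    have e2 : pv c s1 s = 1 - c * I := by
      unfold pv
      rw [if_pos (abs_lt.2 ⟨h3, h4⟩)]
    have e3 : HasDerivAt (fun s : ℝ => (c : ℂ) * s) c s := by
      simpa using (Complex.ofRealCLM.hasDerivAt (x := s)).const_mul (c : ℂ)
    rw [e2]
    refine ((e3.add hI).congr_of_eventuallyEq e1).congr_deriv ?_
    linear_combination (c : ℂ) * Complex.I_sq
  · have e1 : pz c s1 =ᶠ[𝓝 s] fun s => ((c * s1 : ℝ) : ℂ) + s * I := by
      filter_upwards [Ioi_mem_nhds h4] with x hx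
      unfold pz
      rw [pc_right hc hs (le_of_lt hx)]
    have e2 : pv c s1 s = 1 := by
      unfold pv
      rw [if_neg]
      rw [not_lt, abs_of_pos (by linarith)]
      linarith
    rw [e2, mul_one]
    exact (hI.const_add _).congr_of_eventuallyEq e1

/-- Integration by parts. -/
theorem by_parts {m m' : ℂ → ℂ} (hm : ∀ h, HasDerivAt m (m' h) h) {K K' : ℝ} (hw : Wt m K)
    (hw' : Wt (fun h => m' h + m h * (h * (-((δ : ℂ) * I))⁻¹ + κ * (cexp h - 1))) K') :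
    br c s1 δ κ (fun h => m' h + m h * (h * (-((δ : ℂ) * I))⁻¹ + κ * (cexp h - 1))) = 0 := by
  set t : ℂ := -((δ : ℂ) * I) with ht
  set w : ℂ → ℂ := fun h => m' h + m h * (h * t⁻¹ + κ * (cexp h - 1)) with hwd
  set Φ : ℝ → ℂ := fun s => m (pz c s1 s) * f t κ 0 (pz c s1 s) with hΦ
  have hcont : Continuous Φ :=
    (hw.1.continuous.comp (continuous_pz c s1)).mul ((continuous_f t κ 0).comp (continuous_pz c s1))
  have hder : ∀ s : ℝ, s ∉ ({s1, -s1} : Set ℝ) → HasDerivAt Φ (I * gi c s1 w κ 0 t s) s := by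
    intro s hs'
    simp only [Set.mem_insert_iff, Set.mem_singleton_iff, not_or] at hs'
    have e1 := hasDerivAt_pz hc hs'.1 hs'.2 hs
    have e2 : HasDerivAt (fun h => m h * f t κ 0 h)
        (m' (pz c s1 s) * f t κ 0 (pz c s1 s) + m (pz c s1 s) * (f t κ 0 (pz c s1 s) *
          (pz c s1 s * t⁻¹ + κ * (cexp (pz c s1 s) - 1)))) (pz c s1 s) :=
      (hm _).mul (hasDerivAt_f κ t _)
    have e3 := e2.comp s e1
    refine e3.congr_deriv ?_
    simp only [gi, hwd]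
    ring
  have hint : Integrable (fun s => I * gi c s1 w κ 0 t s) :=
    (integrable_path hc hs hcs hδ κ 0 hk hw').const_mul I
  have hftc : ∀ R : ℝ, 0 ≤ R → ∫ s in (-R)..R, I * gi c s1 w κ 0 t s = Φ R - Φ (-R) := by
    intro R hR
    exact integral_eq_of_hasDerivAt_off_countable_of_le Φ _ (by linarith)
      ((Set.countable_singleton (-s1)).insert s1) hcont.continuousOn (fun x hx => hder x hx.2)
      hint.intervalIntegrable
  -- decay at the ends
  set b : ℝ := (c * s1 / δ - |κ.im|) / 2 with hb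
  have hb0 : 0 < b := by rw [hb]; linarith
  have hbound : ∀ s : ℝ, s1 < |s| → ‖Φ s‖ ≤ domC c s1 δ K 0 κ 0 * Real.exp (-b * |s|) := by
    intro s hs'
    have h1 := norm_gi_le hc hs hcs hδ le_rfl κ 0 (t := t) (t0_inv hδ) hk hw s
    have e2 : pv c s1 s = 1 := by
      unfold pv
      rw [if_neg]
      exact not_lt.2 hs'.le
    unfold gi at h1
    rw [e2, one_mul] at h1
    exact h1
  have hexp : Tendsto (fun R : ℝ => domC c s1 δ K 0 κ 0 * Real.exp (-b * R)) atTop (𝓝 0) := by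
    have h1 : Tendsto (fun R : ℝ => Real.exp (-b * R)) atTop (𝓝 0) := by
      have h2 : Tendsto (fun R : ℝ => b * R) atTop atTop := tendsto_id.const_mul_atTop hb0
      refine (Real.tendsto_exp_neg_atTop_nhds_zero.comp h2).congr fun R => ?_
      simp only [Function.comp]
      congr 1
      ring
    simpa using h1.const_mul (domC c s1 δ K 0 κ 0)
  have hlim1 : Tendsto Φ atTop (𝓝 0) := by
    rw [tendsto_zero_iff_norm_tendsto_zero]
    refine squeeze_zero' (Eventually.of_forall fun _ => norm_nonneg _) ?_ hexp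
    filter_upwards [eventually_gt_atTop s1] with R hR
    have := hbound R (hR.trans_le (le_abs_self R))
    rwa [abs_of_pos (hs.trans hR)] at this
  have hlim2 : Tendsto (fun R : ℝ => Φ (-R)) atTop (𝓝 0) := by
    rw [tendsto_zero_iff_norm_tendsto_zero]
    refine squeeze_zero' (Eventually.of_forall fun _ => norm_nonneg _) ?_ hexp
    filter_upwards [eventually_gt_atTop s1] with R hR
    have := hbound (-R) (by rw [abs_neg]; exact hR.trans_le (le_abs_self R))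
    rwa [abs_neg, abs_of_pos (hs.trans hR)] at this
  have hT := intervalIntegral_tendsto_integral hint (a := fun R : ℝ => -R) (b := fun R : ℝ => R)
    (l := atTop) tendsto_neg_atTop_atBot tendsto_id
  have hT2 : Tendsto (fun R : ℝ => ∫ s in (-R)..R, I * gi c s1 w κ 0 t s) atTop (𝓝 0) := by
    have h1 := hlim1.sub hlim2
    rw [sub_zero] at h1
    refine h1.congr' ?_
    filter_upwards [eventually_ge_atTop 0] with R hR
    exact (hftc R hR).symm
  have hzero := tendsto_nhds_unique hT hT2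
  rw [integral_const_mul] at hzero
  exact (mul_eq_zero.1 hzero).resolve_left I_ne_zero

omit hc hs hcs hk in
theorem inv_tt : (-((δ : ℂ) * I))⁻¹ = I / δ := by
  have h : (δ : ℂ) ≠ 0 := by exact_mod_cast hδ.ne'
  rw [inv_eq_iff_eq_inv, inv_div]
  rw [eq_div_iff I_ne_zero]
  linear_combination (-(δ : ℂ)) * Complex.I_sq

theorem parts_one : I / δ * br c s1 δ κ (fun h => h) + κ * br c s1 δ κ (fun h => cexp h - 1) = 0 := by
  have h1 : Wt (fun h => I / δ * h) (‖I / (δ : ℂ)‖ * 1) := wt_cmul _ wt_id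
  have h2 : Wt (fun h => κ * (cexp h - 1)) (‖κ‖ * 4) := wt_cmul _ wt_em1
  have h3 := wt_add h1 h2
  have h4 := by_parts hc hs hcs hδ hk (m := fun _ => 1) (m' := fun _ => 0)
    (fun h => hasDerivAt_const h 1) (wt_const 1) (wt_congr h3 fun σ => by rw [inv_tt hδ]; ring)
  rw [← br_const_mul, ← br_const_mul, ← br_add hc hs hcs hδ hk h1 h2, ← h4]
  congr 1
  funext σ
  rw [inv_tt hδ]
  ring

theorem parts_sig : br c s1 δ κ (fun _ => 1) + I / δ * br c s1 δ κ (fun h => h ^ 2) +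
    κ * br c s1 δ κ (fun h => h * (cexp h - 1)) = 0 := by
  have h0 : Wt (fun _ : ℂ => (1 : ℂ)) ‖(1 : ℂ)‖ := wt_const 1
  have h1 : Wt (fun h => I / δ * h ^ 2) (‖I / (δ : ℂ)‖ * 1) := wt_cmul _ wt_sq
  have h2 : Wt (fun h => κ * (h * (cexp h - 1))) (‖κ‖ * (4 * 1)) := wt_cmul _ (wt_mul_em1 wt_id)
  have h3 := wt_add (wt_add h0 h1) h2
  have h4 := by_parts hc hs hcs hδ hk (m := fun h => h) (m' := fun _ => 1)
    (fun h => hasDerivAt_id h) wt_id (wt_congr h3 fun σ => by rw [inv_tt hδ]; ring)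
  rw [← br_const_mul, ← br_const_mul, ← br_add hc hs hcs hδ hk h0 h1,
    ← br_add hc hs hcs hδ hk (wt_add h0 h1) h2, ← h4]
  congr 1
  funext σ
  rw [inv_tt hδ]
  ring

theorem parts_exp : br c s1 δ κ cexp + I / δ * br c s1 δ κ (fun h => h * (cexp h - 1)) +
    κ * br c s1 δ κ (fun h => (cexp h - 1) * (cexp h - 1)) = 0 := by
  have h0 : Wt cexp 3 := wt_exp
  have h1 : Wt (fun h => I / δ * (h * (cexp h - 1))) (‖I / (δ : ℂ)‖ * (4 * 1)) :=
    wt_cmul _ (wt_mul_em1 wt_id)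
  have h2 : Wt (fun h => κ * ((cexp h - 1) * (cexp h - 1))) (‖κ‖ * (4 * 4)) :=
    wt_cmul _ (wt_mul_em1 wt_em1)
  have h3 := wt_add (wt_add h0 h1) h2
  have h4 := by_parts hc hs hcs hδ hk (m := fun h => cexp h - 1) (m' := cexp)
    (fun h => (Complex.hasDerivAt_exp h).sub_const 1) wt_em1
    (wt_congr h3 fun σ => by rw [inv_tt hδ]; ring)
  rw [← br_const_mul, ← br_const_mul, ← br_add hc hs hcs hδ hk h0 h1,
    ← br_add hc hs hcs hδ hk (wt_add h0 h1) h2, ← h4]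
  congr 1
  funext σ
  rw [inv_tt hδ]
  ring

/-! ### the formulas for `DE/E`, `D²E/E` -/

omit hc hs hcs hδ hk in
theorem Ef_zero (t z : ℂ) : Ef 0 t z = E t z := by
  unfold Ef
  simp

omit hc hs hcs hδ hk in
theorem Ef_one (t z : ℂ) : Ef 1 t z = DE t z := by
  unfold Ef DE
  simp

omit hc hs hcs hδ hk in
/-- `D² E`. -/
theorem Ef_two (t z : ℂ) : Ef 2 t z = z ^ 2 * cexp (-t) * E t (cexp (-(2 * t)) * z) := by
  unfold Ef
  have e1 : -(t * (((2 : ℕ) : ℂ) * (((2 : ℕ) : ℂ) - 1) / 2)) = -t := by push_cast; ring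
  have e2 : -(t * ((2 : ℕ) : ℂ)) = -(2 * t) := by push_cast; ring
  rw [e1, e2]

/-- `E` in terms of the bracket. -/
theorem E_eq : gcst (-((δ : ℂ) * I))⁻¹ * E (-((δ : ℂ) * I)) (zp (-((δ : ℂ) * I)) κ) =
    cexp (S (-((δ : ℂ) * I)) κ) * br c s1 δ κ (fun _ => 1) := by
  have h1 := path_formula hc hs hcs hδ κ 0 hk 0
  rw [Complex.exp_zero, mul_one, Ef_zero] at h1
  rw [h1]
  unfold br
  congr 2

theorem DE_eq : gcst (-((δ : ℂ) * I))⁻¹ * DE (-((δ : ℂ) * I)) (zp (-((δ : ℂ) * I)) κ) =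
    cexp (S (-((δ : ℂ) * I)) κ) * (κ * br c s1 δ κ cexp) := by
  have h1 := path_formula hc hs hcs hδ κ 0 hk 1
  rw [Complex.exp_zero, mul_one, Ef_one] at h1
  rw [h1, ← br_const_mul]
  unfold br
  congr 2
  funext s
  simp only [gi, pow_one, zero_add]

theorem D2E_eq : gcst (-((δ : ℂ) * I))⁻¹ * (DE (-((δ : ℂ) * I)) (zp (-((δ : ℂ) * I)) κ) +
    Ef 2 (-((δ : ℂ) * I)) (zp (-((δ : ℂ) * I)) κ)) =
    cexp (S (-((δ : ℂ) * I)) κ) * (κ * br c s1 δ κ cexp +
      κ ^ 2 * br c s1 δ κ (fun h => cexp h * cexp h)) := by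
  have h1 := path_formula hc hs hcs hδ κ 0 hk 2
  rw [Complex.exp_zero, mul_one] at h1
  have h2 : cexp (S (-((δ : ℂ) * I)) κ) * (κ ^ 2 * br c s1 δ κ (fun h => cexp h * cexp h)) =
      gcst (-((δ : ℂ) * I))⁻¹ * Ef 2 (-((δ : ℂ) * I)) (zp (-((δ : ℂ) * I)) κ) := by
    rw [h1, ← br_const_mul]
    unfold br
    congr 2
    funext s
    simp only [gi, zero_add]
    ring
  rw [mul_add, DE_eq hc hs hcs hδ hk, ← h2]
  ring

omit hc hs hcs hk in
theorem gcst_ne : gcst (-((δ : ℂ) * I))⁻¹ ≠ 0 := by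
  rw [gcst_inv, Ne, Complex.cpow_eq_zero_iff]
  push Not
  intro h0
  exfalso
  have h1 : (2 * Real.pi : ℂ) ≠ 0 := by
    have := Real.pi_ne_zero
    exact mul_ne_zero two_ne_zero (by exact_mod_cast this)
  exact mul_ne_zero h1 (t0_ne hδ) h0

omit hc hs hcs hk in
theorem norm_gcst : ‖gcst (-((δ : ℂ) * I))⁻¹‖ = √(2 * Real.pi * δ) := by
  rw [gcst_inv]
  have e : ((1 / 2 : ℂ)) = ((1 / 2 : ℝ) : ℂ) := by push_cast; rfl
  rw [e, Complex.norm_cpow_real, Real.sqrt_eq_rpow]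
  congr 1
  rw [norm_mul, norm_neg, norm_mul, norm_mul, Complex.norm_I, mul_one, Complex.norm_real,
    Complex.norm_real, Real.norm_of_nonneg hδ.le, Real.norm_of_nonneg Real.pi_pos.le]
  simp

/-- The size of `E`. -/
theorem norm_E : ‖E (-((δ : ℂ) * I)) (zp (-((δ : ℂ) * I)) κ)‖ =
    Real.exp (S (-((δ : ℂ) * I)) κ).re * ‖br c s1 δ κ (fun _ => 1)‖ / √(2 * Real.pi * δ) := by
  have h1 := congrArg norm (E_eq hc hs hcs hδ hk)
  rw [norm_mul, norm_mul, norm_gcst hδ, Complex.norm_exp] at h1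
  have h2 : 0 < √(2 * Real.pi * δ) := Real.sqrt_pos.2 (by positivity)
  rw [eq_div_iff h2.ne', ← h1]
  ring

theorem br_em1 : br c s1 δ κ (fun h => cexp h - 1) =
    br c s1 δ κ gs + br c s1 δ κ (fun h => h) := by
  rw [← br_add hc hs hcs hδ hk wt_gs wt_id]
  congr 1
  funext σ
  unfold gs
  ring

theorem br_exp : br c s1 δ κ cexp = br c s1 δ κ (fun h => cexp h - 1) + br c s1 δ κ (fun _ => 1) := by
  rw [← br_add hc hs hcs hδ hk wt_em1 (wt_const 1)]
  congr 1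
  funext σ
  ring

theorem br_exp2 : br c s1 δ κ (fun h => cexp h * cexp h) =
    br c s1 δ κ (fun h => (cexp h - 1) * (cexp h - 1)) + 2 * br c s1 δ κ (fun h => cexp h - 1) +
      br c s1 δ κ (fun _ => 1) := by
  rw [← br_const_mul, ← br_add hc hs hcs hδ hk (wt_mul_em1 wt_em1) (wt_cmul 2 wt_em1),
    ← br_add hc hs hcs hδ hk (wt_add (wt_mul_em1 wt_em1) (wt_cmul 2 wt_em1)) (wt_const 1)]
  congr 1
  funext σ
  ring

theorem br_sig_em1 : br c s1 δ κ (fun h => h * (cexp h - 1)) =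
    br c s1 δ κ (fun h => h * gs h) + br c s1 δ κ (fun h => h ^ 2) := by
  rw [← br_add hc hs hcs hδ hk wt_mul_gs wt_sq]
  congr 1
  funext σ
  unfold gs
  ring

/-- `⟨e^σ - 1⟩ (1 - i K) = ⟨g⟩` -/
theorem em1_eq : (1 - I * (δ * κ)) * br c s1 δ κ (fun h => cexp h - 1) = br c s1 δ κ gs := by
  have hd : (δ : ℂ) ≠ 0 := by exact_mod_cast hδ.ne'
  have h1 := parts_one hc hs hcs hδ hk
  have h2 := br_em1 hc hs hcs hδ hk
  have h3 : I * br c s1 δ κ (fun h => h) = -(δ * κ) * br c s1 δ κ (fun h => cexp h - 1) := by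
    have : (δ : ℂ) * (I / δ) = I := mul_div_cancel₀ _ hd
    linear_combination δ * h1 - br c s1 δ κ (fun h => h) * this
  linear_combination h2 - I * h3 + br c s1 δ κ (fun h => h) * Complex.I_sq

/-- `DE/E - κ = κ ⟨g⟩/((1 - iK) ⟨1⟩)` -/
theorem DE_div {κ' : ℂ} (hκ' : κ' = DE (-((δ : ℂ) * I)) (zp (-((δ : ℂ) * I)) κ) /
      E (-((δ : ℂ) * I)) (zp (-((δ : ℂ) * I)) κ))
    (h0 : br c s1 δ κ (fun _ => 1) ≠ 0) (hK : 1 - I * (δ * κ) ≠ 0) :
    κ' - κ = κ * br c s1 δ κ gs / ((1 - I * (δ * κ)) * br c s1 δ κ (fun _ => 1)) := by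
  have hE := E_eq hc hs hcs hδ hk
  have hD := DE_eq hc hs hcs hδ hk
  have hg := gcst_ne hδ
  have he : cexp (S (-((δ : ℂ) * I)) κ) ≠ 0 := exp_ne_zero _
  have hE0 : E (-((δ : ℂ) * I)) (zp (-((δ : ℂ) * I)) κ) ≠ 0 := by
    intro h1
    rw [h1, mul_zero] at hE
    exact mul_ne_zero he h0 hE.symm
  have h1 : κ' = κ * br c s1 δ κ cexp / br c s1 δ κ (fun _ => 1) := by
    rw [hκ', div_eq_div_iff hE0 h0]
    apply mul_left_cancel₀ (mul_ne_zero hg he)
    linear_combination (cexp (S (-((δ : ℂ) * I)) κ) * br c s1 δ κ (fun _ => 1)) * hD -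
      (κ * br c s1 δ κ cexp * cexp (S (-((δ : ℂ) * I)) κ)) * hE
  rw [h1, br_exp hc hs hcs hδ hk, ← em1_eq hc hs hcs hδ hk]
  generalize 1 - I * (δ * κ) = A at hK ⊢
  field_simp
  ring

/-- `D²E/E - (DE/E)² = κ/(1 - iK) (1 - (i/δ)⟨σ g⟩/⟨1⟩) - (DE/E - κ)²` -/
theorem D2E_div {κ' : ℂ} (hκ' : κ' = DE (-((δ : ℂ) * I)) (zp (-((δ : ℂ) * I)) κ) /
      E (-((δ : ℂ) * I)) (zp (-((δ : ℂ) * I)) κ))
    (h0 : br c s1 δ κ (fun _ => 1) ≠ 0) (hK : 1 - I * (δ * κ) ≠ 0) :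
    (DE (-((δ : ℂ) * I)) (zp (-((δ : ℂ) * I)) κ) + Ef 2 (-((δ : ℂ) * I)) (zp (-((δ : ℂ) * I)) κ)) /
      E (-((δ : ℂ) * I)) (zp (-((δ : ℂ) * I)) κ) - κ' ^ 2 =
      κ / (1 - I * (δ * κ)) * (1 - I / δ * (br c s1 δ κ (fun h => h * gs h) /
        br c s1 δ κ (fun _ => 1))) - (κ' - κ) ^ 2 := by
  have hd : (δ : ℂ) ≠ 0 := by exact_mod_cast hδ.ne'
  have hE := E_eq hc hs hcs hδ hk
  have hD := DE_eq hc hs hcs hδ hk
  have hD2 := D2E_eq hc hs hcs hδ hk
  have hg := gcst_ne hδ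
  have he : cexp (S (-((δ : ℂ) * I)) κ) ≠ 0 := exp_ne_zero _
  have hE0 : E (-((δ : ℂ) * I)) (zp (-((δ : ℂ) * I)) κ) ≠ 0 := by
    intro h1
    rw [h1, mul_zero] at hE
    exact mul_ne_zero he h0 hE.symm
  set b1 := br c s1 δ κ (fun _ => 1) with hb1
  have h1 : κ' = κ * br c s1 δ κ cexp / b1 := by
    rw [hκ', div_eq_div_iff hE0 h0]
    apply mul_left_cancel₀ (mul_ne_zero hg he)
    linear_combination (cexp (S (-((δ : ℂ) * I)) κ) * b1) * hD -
      (κ * br c s1 δ κ cexp * cexp (S (-((δ : ℂ) * I)) κ)) * hE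
  have h2 : (DE (-((δ : ℂ) * I)) (zp (-((δ : ℂ) * I)) κ) +
      Ef 2 (-((δ : ℂ) * I)) (zp (-((δ : ℂ) * I)) κ)) / E (-((δ : ℂ) * I)) (zp (-((δ : ℂ) * I)) κ) =
      (κ * br c s1 δ κ cexp + κ ^ 2 * br c s1 δ κ (fun h => cexp h * cexp h)) / b1 := by
    rw [div_eq_div_iff hE0 h0]
    apply mul_left_cancel₀ (mul_ne_zero hg he)
    linear_combination (cexp (S (-((δ : ℂ) * I)) κ) * b1) * hD2 -
      ((κ * br c s1 δ κ cexp + κ ^ 2 * br c s1 δ κ (fun h => cexp h * cexp h)) *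
        cexp (S (-((δ : ℂ) * I)) κ)) * hE
  have p1 := parts_sig hc hs hcs hδ hk
  have p2 := parts_exp hc hs hcs hδ hk
  have p3 := br_sig_em1 hc hs hcs hδ hk
  have p4 := br_exp hc hs hcs hδ hk
  have p5 := br_exp2 hc hs hcs hδ hk
  set e1 := br c s1 δ κ (fun h => cexp h - 1) with he1
  set ee := br c s1 δ κ (fun h => (cexp h - 1) * (cexp h - 1)) with hee
  set se := br c s1 δ κ (fun h => h * (cexp h - 1)) with hse
  set sg := br c s1 δ κ (fun h => h * gs h) with hsg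
  set s2 := br c s1 δ κ (fun h => h ^ 2) with hs2
  set be := br c s1 δ κ cexp with hbe
  -- `se (1 - iK) = i δ b1 + sg`
  have q1 : (1 - I * (δ * κ)) * se = I * δ * b1 + sg := by
    have : (δ : ℂ) * (I / δ) = I := mul_div_cancel₀ _ hd
    have r1 : δ * b1 + I * s2 + δ * κ * se = 0 := by
      linear_combination δ * p1 - s2 * this
    linear_combination (-I) * r1 + p3 + s2 * Complex.I_sq
  -- `κ ee = - be - (i/δ) se`
  have q2 : κ * ee = -be - I / δ * se := by linear_combination p2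
  rw [h2, h1, p5, p4]
  have q3 : (κ * (e1 + b1) + κ ^ 2 * (ee + 2 * e1 + b1)) / b1 - (κ * (e1 + b1) / b1) ^ 2 =
      κ * (κ * ee + (e1 + b1)) / b1 - (κ * (e1 + b1) / b1 - κ) ^ 2 := by
    field_simp
    ring
  rw [q3, q2, p4]
  have q4 : κ * (-(e1 + b1) - I / δ * se + (e1 + b1)) / b1 =
      κ / (1 - I * (δ * κ)) * (1 - I / δ * (sg / b1)) := by
    have r1 : se = (I * δ * b1 + sg) / (1 - I * (δ * κ)) := by
      rw [eq_div_iff hK, ← q1]
      ring
    rw [r1]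
    generalize 1 - I * (δ * κ) = A at hK ⊢
    field_simp
    linear_combination (-(κ * δ * b1)) * Complex.I_sq
  rw [q4]

end br

/-! ### the Gaussian -/

/-- The Gaussian on the tilted line. -/
theorem gauss_norm {c δ : ℝ} (hδ : 0 < δ) {K : ℂ} (hK : 1 - I * K ≠ 0)
    (hb : (I / δ * (1 - I * K) * ((c : ℂ) + I) ^ 2).re < 0) :
    ‖∫ s : ℝ, (1 - c * I) * cexp (I / δ * (1 - I * K) * (((c : ℂ) + I) * s) ^ 2 / 2)‖ =
      √(2 * Real.pi * δ / ‖1 - I * K‖) := by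
  set Λ : ℂ := I / δ * (1 - I * K) with hΛ
  set b : ℂ := -(Λ * ((c : ℂ) + I) ^ 2) / 2 with hbd
  have hbre : 0 < b.re := by
    have : b = ((1 / 2 : ℝ) : ℂ) * (-(Λ * ((c : ℂ) + I) ^ 2)) := by rw [hbd]; push_cast; ring
    rw [this, Complex.re_ofReal_mul, Complex.neg_re]
    linarith
  have h1 : ∀ s : ℝ, (1 - c * I) * cexp (Λ * (((c : ℂ) + I) * s) ^ 2 / 2) =
      (1 - c * I) * cexp (-b * (s : ℂ) ^ 2) := by
    intro s
    congr 2
    rw [hbd]
    ring
  simp_rw [h1]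
  rw [integral_const_mul, integral_gaussian_complex hbre, norm_mul]
  have e : ((1 / 2 : ℂ)) = ((1 / 2 : ℝ) : ℂ) := by push_cast; rfl
  rw [e, Complex.norm_cpow_real, ← Real.sqrt_eq_rpow]
  have hc2 : ‖(1 - c * I : ℂ)‖ ^ 2 = 1 + c ^ 2 := by
    rw [Complex.sq_norm, Complex.normSq_apply]
    simp
    ring
  have hc3 : ‖((c : ℂ) + I)‖ ^ 2 = 1 + c ^ 2 := by
    rw [Complex.sq_norm, Complex.normSq_apply]
    simp
    ring
  have hΛn : ‖Λ‖ = ‖1 - I * K‖ / δ := by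
    rw [hΛ, norm_mul, norm_div, Complex.norm_I, Complex.norm_real, Real.norm_of_nonneg hδ.le]
    ring
  have hbn : ‖b‖ = ‖1 - I * K‖ / δ * (1 + c ^ 2) / 2 := by
    rw [hbd, norm_div, norm_neg, norm_mul, norm_pow, hc3, hΛn]
    simp
  have hKp : 0 < ‖1 - I * K‖ := norm_pos_iff.2 hK
  have h2 : ‖(Real.pi : ℂ) / b‖ = Real.pi / (‖1 - I * K‖ / δ * (1 + c ^ 2) / 2) := by
    rw [norm_div, hbn, Complex.norm_real, Real.norm_of_nonneg Real.pi_pos.le]
  have hcp : 0 < 1 + c ^ 2 := by positivity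
  rw [h2]
  have h3 : ‖(1 - c * I : ℂ)‖ = √(1 + c ^ 2) := by
    rw [← hc2, Real.sqrt_sq (norm_nonneg _)]
  rw [h3, ← Real.sqrt_mul hcp.le]
  congr 1
  field_simp

end SokalF1M
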