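import Pool.Agent.Lib_MP_af4de1_f1.MainA
import Pool.Agent.Lib_MP_af4de1_f1.GLem

/-!
# LEMMA MAIN: pointwise bounds on the middle part `|s| < 1`
-/

set_option autoImplicit false

open Complex MeasureTheory Set SokalU SokalPG SokalF1G SokalF1M

namespace SokalF1B

/-- integration of a bound on `[0, 1]` -/
theorem step {f f' : ℝ → ℂ} (hf : ∀ t, HasDerivAt f (f' t) t) (h0 : f 0 = 0)
    {B B' : ℝ → ℝ} (hB : ∀ t, HasDerivAt B (B' t) t) (hB0 : 0 ≤ B 0)
    (hb : ∀ t, 0 ≤ t → t ≤ 1 → ‖f' t‖ ≤ B' t) (t : ℝ) (ht : 0 ≤ t) (ht1 : t ≤ 1) :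
    ‖f t‖ ≤ B t := by
  have h := image_norm_le_of_norm_deriv_right_le_deriv_boundary (f := f) (f' := f')
    (a := 0) (b := 1) (fun x _ => (hf x).continuousAt.continuousWithinAt)
    (fun x _ => (hf x).hasDerivWithinAt) (B := B) (B' := B')
    (by rw [h0, norm_zero]; exact hB0) hB (fun x hx => hb x hx.1 hx.2.le)
  exact h ⟨ht, ht1⟩

theorem d0 (v : ℂ) (t : ℝ) :
    HasDerivAt (fun t : ℝ => cexp (t * v)) (v * cexp (t * v)) t := by
  have h1 : HasDerivAt (fun t : ℝ => (t : ℂ) * v) (1 * v) t :=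
    (Complex.ofRealCLM.hasDerivAt (x := t)).mul_const v
  have h2 := h1.cexp
  rwa [one_mul, mul_comm] at h2

theorem d1 (v : ℂ) (t : ℝ) :
    HasDerivAt (fun t : ℝ => (t : ℂ) * v) v t := by
  have h1 : HasDerivAt (fun t : ℝ => (t : ℂ) * v) (1 * v) t :=
    (Complex.ofRealCLM.hasDerivAt (x := t)).mul_const v
  rwa [one_mul] at h1

theorem exp_chord {t a b : ℝ} (ht : 0 ≤ t) (ht1 : t ≤ 1) :
    Real.exp ((1 - t) * a + t * b) ≤ (1 - t) * Real.exp a + t * Real.exp b := by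
  have h := convexOn_exp.2 (mem_univ a) (mem_univ b) (sub_nonneg.2 ht1) ht (by ring)
  simpa using h

/-- trapezoidal mean value bound -/
theorem norm_exp_sub_exp2 (u v : ℂ) :
    ‖cexp u - cexp v‖ ≤ ‖u - v‖ * ((Real.exp u.re + Real.exp v.re) / 2) := by
  have h := step (f := fun t : ℝ => (cexp (t * (u - v)) - 1) * cexp v)
    (f' := fun t : ℝ => (u - v) * cexp (t * (u - v)) * cexp v)
    (fun t => (((d0 (u - v) t).sub_const 1).mul_const _)) (by simp)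
    (B := fun t => ‖u - v‖ * (t * Real.exp v.re + t ^ 2 * ((Real.exp u.re - Real.exp v.re) / 2)))
    (B' := fun t => ‖u - v‖ * (1 * Real.exp v.re +
      (2 * t) * ((Real.exp u.re - Real.exp v.re) / 2)))
    (fun t => by
      have h1 := (hasDerivAt_id t).mul_const (Real.exp v.re)
      have h2 := (hasDerivAt_pow 2 t).mul_const ((Real.exp u.re - Real.exp v.re) / 2)
      have h3 := (h1.add h2).const_mul ‖u - v‖
      simpa using h3)
    (by simp)
    (fun t ht ht1 => by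
      rw [mul_assoc, ← Complex.exp_add, norm_mul, Complex.norm_exp]
      refine mul_le_mul_of_nonneg_left ?_ (norm_nonneg _)
      have e1 : ((t : ℂ) * (u - v) + v).re = (1 - t) * v.re + t * u.re := by
        rw [Complex.add_re, Complex.re_ofReal_mul, Complex.sub_re]
        ring
      rw [e1]
      refine (exp_chord ht ht1).trans (le_of_eq ?_)
      ring) 1 zero_le_one le_rfl
  have e1 : (cexp (((1 : ℝ) : ℂ) * (u - v)) - 1) * cexp v = cexp u - cexp v := by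
    rw [Complex.ofReal_one, one_mul, sub_mul, ← Complex.exp_add, sub_add_cancel, one_mul]
  have e2 : ‖u - v‖ * (1 * Real.exp v.re + 1 ^ 2 * ((Real.exp u.re - Real.exp v.re) / 2)) =
      ‖u - v‖ * ((Real.exp u.re + Real.exp v.re) / 2) := by ring
  simp only [e1] at h
  rwa [e2] at h

theorem e1_bound {t a : ℝ} (ht : 0 ≤ t) (ht1 : t ≤ 1) (ha : a ≤ 1) :
    Real.exp (t * a) ≤ 1 + t * (216 / 125 * max a 0) := by
  rcases le_total a 0 with h | h
  · rw [max_eq_right h, mul_zero, mul_zero, add_zero]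
    exact Real.exp_le_one_iff.2 (mul_nonpos_of_nonneg_of_nonpos ht h)
  · rw [max_eq_left h]
    have h1 : t * a ≤ 1 := mul_le_one₀ ht1 h ha
    have h2 := exp_chord (t := t * a) (a := 0) (b := 1) (mul_nonneg ht h) h1
    have h3 : (1 - t * a) * 0 + t * a * 1 = t * a := by ring
    rw [h3, Real.exp_zero] at h2
    have h4 := Real.exp_one_lt_d9
    have h5 : t * a * Real.exp 1 ≤ t * a * (1 + 216 / 125) :=
      mul_le_mul_of_nonneg_left (by linarith) (mul_nonneg ht h)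
    linarith

theorem r0 {v : ℂ} (hv : v.re ≤ 1) (t : ℝ) (ht : 0 ≤ t) (ht1 : t ≤ 1) :
    ‖cexp (t * v) - 1‖ ≤ ‖v‖ * (t + t ^ 2 * (108 / 125 * max v.re 0)) := by
  refine step (f := fun t : ℝ => cexp (t * v) - 1) (f' := fun t : ℝ => v * cexp (t * v))
    (fun t => (d0 v t).sub_const 1) (by simp)
    (B := fun t => ‖v‖ * (t + t ^ 2 * (108 / 125 * max v.re 0)))
    (B' := fun t => ‖v‖ * (1 + (2 * t) * (108 / 125 * max v.re 0)))
    (fun t => ?_) (by simp) (fun s hs hs1 => ?_) t ht ht1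
  · have h2 := (hasDerivAt_pow 2 t).mul_const (108 / 125 * max v.re 0)
    have h3 := ((hasDerivAt_id t).add h2).const_mul ‖v‖
    simpa using h3
  · rw [norm_mul, Complex.norm_exp, Complex.re_ofReal_mul]
    refine mul_le_mul_of_nonneg_left ?_ (norm_nonneg _)
    refine (e1_bound hs hs1 hv).trans (le_of_eq ?_)
    ring

theorem r1 {v : ℂ} (hv : v.re ≤ 1) (t : ℝ) (ht : 0 ≤ t) (ht1 : t ≤ 1) :
    ‖cexp (t * v) - 1 - t * v‖ ≤ ‖v‖ ^ 2 * (t ^ 2 / 2 + t ^ 3 * (36 / 125 * max v.re 0)) := by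
  refine step (f := fun t : ℝ => cexp (t * v) - 1 - t * v)
    (f' := fun t : ℝ => v * cexp (t * v) - v)
    (fun t => ((d0 v t).sub_const 1).sub (d1 v t)) (by simp)
    (B := fun t => ‖v‖ ^ 2 * (t ^ 2 / 2 + t ^ 3 * (36 / 125 * max v.re 0)))
    (B' := fun t => ‖v‖ ^ 2 * ((2 * t) / 2 + (3 * t ^ 2) * (36 / 125 * max v.re 0)))
    (fun t => ?_) (by simp) (fun s hs hs1 => ?_) t ht ht1
  · have h2 := (hasDerivAt_pow 3 t).mul_const (36 / 125 * max v.re 0)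
    have h1 := (hasDerivAt_pow 2 t).div_const 2
    have h3 := (h1.add h2).const_mul (‖v‖ ^ 2)
    simpa using h3
  · have h := r0 hv s hs hs1
    have e : v * cexp (s * v) - v = v * (cexp (s * v) - 1) := by ring
    rw [e, norm_mul]
    calc ‖v‖ * ‖cexp (s * v) - 1‖ ≤ ‖v‖ * (‖v‖ * (s + s ^ 2 * (108 / 125 * max v.re 0))) :=
          mul_le_mul_of_nonneg_left h (norm_nonneg v)
      _ = _ := by ring

theorem r2 {v : ℂ} (hv : v.re ≤ 1) (t : ℝ) (ht : 0 ≤ t) (ht1 : t ≤ 1) :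
    ‖cexp (t * v) - 1 - t * v - (t * v) ^ 2 / 2‖ ≤
      ‖v‖ ^ 3 * (t ^ 3 / 6 + t ^ 4 * (9 / 125 * max v.re 0)) := by
  refine step (f := fun t : ℝ => cexp (t * v) - 1 - t * v - (t * v) ^ 2 / 2)
    (f' := fun t : ℝ => v * cexp (t * v) - v - v * (t * v))
    (fun t => ?_) (by simp)
    (B := fun t => ‖v‖ ^ 3 * (t ^ 3 / 6 + t ^ 4 * (9 / 125 * max v.re 0)))
    (B' := fun t => ‖v‖ ^ 3 * ((3 * t ^ 2) / 6 + (4 * t ^ 3) * (9 / 125 * max v.re 0)))
    (fun t => ?_) (by simp) (fun s hs hs1 => ?_) t ht ht1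
  · have h := (((d1 v t).pow 2).div_const 2)
    have h2 := (((d0 v t).sub_const 1).sub (d1 v t)).sub h
    have e : v * (t * v) = (((2 : ℕ) : ℂ) * ((t : ℂ) * v) ^ (2 - 1) * v) / 2 := by
      push_cast
      ring
    rw [e]
    exact h2
  · have h2 := (hasDerivAt_pow 4 t).mul_const (9 / 125 * max v.re 0)
    have h1 := (hasDerivAt_pow 3 t).div_const 6
    have h3 := (h1.add h2).const_mul (‖v‖ ^ 3)
    simpa using h3
  · have h := r1 hv s hs hs1
    have e : v * cexp (s * v) - v - v * (s * v) = v * (cexp (s * v) - 1 - s * v) := by ring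
    rw [e, norm_mul]
    calc ‖v‖ * ‖cexp (s * v) - 1 - s * v‖ ≤
          ‖v‖ * (‖v‖ ^ 2 * (s ^ 2 / 2 + s ^ 3 * (36 / 125 * max v.re 0))) :=
          mul_le_mul_of_nonneg_left h (norm_nonneg v)
      _ = _ := by ring

theorem taylor2 {v : ℂ} (hv : v.re ≤ 1) :
    ‖cexp v - 1 - v‖ ≤ ‖v‖ ^ 2 * (1 / 2 + 36 / 125 * max v.re 0) := by
  have h := r1 hv 1 zero_le_one le_rfl
  simpa using h

theorem taylor3 {v : ℂ} (hv : v.re ≤ 1) :
    ‖cexp v - 1 - v - v ^ 2 / 2‖ ≤ ‖v‖ ^ 3 * (1 / 6 + 9 / 125 * max v.re 0) := by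
  have h := r2 hv 1 zero_le_one le_rfl
  simpa using h

/-! ### the integrand -/

theorem re_pair (u v : ℝ) : ((u : ℂ) + (v : ℂ) * I).re = u := by simp

theorem f_eq {δ : ℝ} (hδ : 0 < δ) (K σ : ℂ) :
    f (-((δ : ℂ) * I)) (K / δ) 0 σ =
      cexp (I / δ * (1 - I * K) * σ ^ 2 / 2 + K / δ * (cexp σ - 1 - σ - σ ^ 2 / 2)) := by
  have hd : (δ : ℂ) ≠ 0 := by exact_mod_cast hδ.ne'
  have h1 : σ ^ 2 / (2 * -((δ : ℂ) * I)) = σ ^ 2 / 2 * (I / δ) := by
    rw [← div_div, div_eq_mul_inv _ (-((δ : ℂ) * I)), inv_tt hδ]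
  unfold f
  rw [zero_add, h1]
  congr 1
  linear_combination (K * σ ^ 2 / (2 * δ)) * Complex.I_sq

theorem norm_f_K {x y δ : ℝ} (hδ : 0 < δ) (a s : ℝ) :
    ‖f (-((δ : ℂ) * I)) (((x : ℂ) + y * I) / δ) 0 ((a : ℂ) + s * I)‖ =
      Real.exp (-(Ha x y a s / δ)) := by
  have hd : (δ : ℂ) ≠ 0 := by exact_mod_cast hδ.ne'
  have h1 : ((a : ℂ) + s * I) ^ 2 / (2 * -((δ : ℂ) * I)) = ((a : ℂ) + s * I) ^ 2 / 2 * (I / δ) := by
    rw [← div_div, div_eq_mul_inv _ (-((δ : ℂ) * I)), inv_tt hδ]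
  unfold f
  rw [zero_add, h1, Complex.norm_exp]
  congr 1
  have h2 : cexp ((a : ℂ) + s * I) = ((Real.exp a * Real.cos s : ℝ) : ℂ) +
      ((Real.exp a * Real.sin s : ℝ) : ℂ) * I := by
    have e0 : (((a : ℂ) + s * I)).re = a := by simp
    have e1 : (((a : ℂ) + s * I)).im = s := by simp
    apply Complex.ext
    · rw [exp_re, e0, e1, add_re, ofReal_re, re_ofReal_mul, I_re]; ring
    · rw [exp_im, e0, e1, add_im, ofReal_im, im_ofReal_mul, I_im]; ring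
  rw [h2]
  have h3 : ((a : ℂ) + s * I) ^ 2 / 2 * (I / δ) + ((x : ℂ) + y * I) / δ *
      (((Real.exp a * Real.cos s : ℝ) : ℂ) + ((Real.exp a * Real.sin s : ℝ) : ℂ) * I - 1 -
        (a + s * I)) =
      ((-(Ha x y a s / δ) : ℝ) : ℂ) + (((a ^ 2 - s ^ 2) / (2 * δ) +
        (x * (Real.exp a * Real.sin s - s) + y * (Real.exp a * Real.cos s - 1 - a)) / δ : ℝ) : ℂ) *
        I := by
    unfold Ha
    push_cast
    field_simp
    have h4 : (I : ℂ) ^ 3 = -I := by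
      rw [pow_succ, Complex.I_sq]
      ring
    ring_nf
    simp only [h4, Complex.I_sq]
    ring
  rw [h3, re_pair]

/-- the Gaussian exponent on the path -/
theorem gauss_re {x y δ : ℝ} (hδ : 0 < δ) (s : ℝ) :
    (I / δ * (1 - I * ((x : ℂ) + y * I)) *
      ((((1 / (1 + x) : ℝ) : ℂ) + I) * s) ^ 2 / 2).re = -(Qf x y / δ * s ^ 2) := by
  have hd : (δ : ℂ) ≠ 0 := by exact_mod_cast hδ.ne'
  obtain ⟨c, hc⟩ : ∃ c : ℝ, c = 1 / (1 + x) := ⟨_, rfl⟩
  have hq : Qf x y = (1 + y) * c + x * (1 - c ^ 2) / 2 := by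
    unfold Qf
    rw [hc]
    ring
  rw [hq, ← hc]
  have h3 : I / δ * (1 - I * ((x : ℂ) + y * I)) * ((((c : ℝ) : ℂ) + I) * s) ^ 2 / 2 =
      ((-(((1 + y) * c + x * (1 - c ^ 2) / 2) / δ * s ^ 2) : ℝ) : ℂ) +
      (((2 * c * x + (1 + y) * (c ^ 2 - 1)) / (2 * δ) * s ^ 2 : ℝ) : ℂ) * I := by
    push_cast
    field_simp
    have h4 : (I : ℂ) ^ 3 = -I := by
      rw [pow_succ, Complex.I_sq]
      ring
    have h5 : (I : ℂ) ^ 4 = 1 := by
      rw [show (4 : ℕ) = 2 * 2 from rfl, pow_mul, Complex.I_sq]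
      ring
    have h6 : (I : ℂ) ^ 5 = I := by
      rw [pow_succ, h5, one_mul]
    ring_nf
    simp only [h4, h5, h6, Complex.I_sq]
    ring
  rw [h3, re_pair]

end SokalF1B
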