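import Mathlib

/-!
# LEMMA MAIN: reduction of the bounds to numbers (squares)

`G = √(2πδ/D)`, `B = q/δ`, `W² = 1 + c²`, `W² D ≤ 2 l q`.
-/

set_option autoImplicit false

namespace SokalF1B

open Real

theorem le_mul_sqrt {a k X : ℝ} (ha : 0 ≤ a) (hk : 0 ≤ k) (hX : 0 ≤ X) (h : a ^ 2 ≤ k ^ 2 * X) :
    a ≤ k * √X := by
  have h1 : 0 ≤ k * √X := by positivity
  rw [← pow_le_pow_iff_left₀ ha h1 two_ne_zero, mul_pow, Real.sq_sqrt hX]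
  exact h

section

variable {W D q l δ : ℝ} (hW : 0 < W) (hD : 0 < D) (hq : 0 < q) (hδ : 0 < δ)
  (hL : W ^ 2 * D ≤ 2 * l * q)

include hD hq hL in
theorem wq : W ^ 2 / q ≤ 2 * l / D := by
  rw [div_le_div_iff₀ hq hD]
  linarith

include hW hD hq hδ hL in
/-- `W⁴ X/B² ≤ k G` -/
theorem redA {X k : ℝ} (hX : 0 ≤ X) (hk : 0 ≤ k)
    (h : 16 * l ^ 4 * X ^ 2 * δ ^ 3 ≤ 2 * π * k ^ 2 * D ^ 3) :
    W ^ 4 * X / (q / δ) ^ 2 ≤ k * √(2 * π * δ / D) := by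
  have hp := Real.pi_pos
  refine le_mul_sqrt (by positivity) hk (by positivity) ?_
  have h1 := wq hD hq hL
  have h0 : 0 ≤ W ^ 2 / q := by positivity
  have h2 : (W ^ 2 / q) ^ 4 ≤ (2 * l / D) ^ 4 := pow_le_pow_left₀ h0 h1 4
  have e1 : (W ^ 4 * X / (q / δ) ^ 2) ^ 2 = (W ^ 2 / q) ^ 4 * (X ^ 2 * δ ^ 4) := by
    field_simp
  rw [e1]
  calc (W ^ 2 / q) ^ 4 * (X ^ 2 * δ ^ 4) ≤ (2 * l / D) ^ 4 * (X ^ 2 * δ ^ 4) := by gcongr
    _ = (16 * l ^ 4 * X ^ 2 * δ ^ 3) * (δ / D ^ 4) := by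
      field_simp
      ring
    _ ≤ (2 * π * k ^ 2 * D ^ 3) * (δ / D ^ 4) := by gcongr
    _ = k ^ 2 * (2 * π * δ / D) := by field_simp

include hW hD hq hδ hL in
/-- `W³ √Y ≤ k (δ/D) G` from `Y = y/B³` -/
theorem redB {a y k : ℝ} (ha : 0 ≤ a) (hk : 0 ≤ k) (hy : 0 ≤ y) (hay : a ^ 2 ≤ y / (q / δ) ^ 3)
    (h : 8 * l ^ 3 * y ≤ 2 * π * k ^ 2) :
    W ^ 3 * a ≤ k * (δ / D) * √(2 * π * δ / D) := by
  have hp := Real.pi_pos
  refine le_mul_sqrt (by positivity) (by positivity) (by positivity) ?_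
  have h1 := wq hD hq hL
  have h0 : 0 ≤ W ^ 2 / q := by positivity
  have h2 : (W ^ 2 / q) ^ 3 ≤ (2 * l / D) ^ 3 := pow_le_pow_left₀ h0 h1 3
  calc (W ^ 3 * a) ^ 2 = W ^ 6 * a ^ 2 := by ring
    _ ≤ W ^ 6 * (y / (q / δ) ^ 3) := by gcongr
    _ = (W ^ 2 / q) ^ 3 * (y * δ ^ 3) := by
      field_simp
    _ ≤ (2 * l / D) ^ 3 * (y * δ ^ 3) := by gcongr
    _ = (8 * l ^ 3 * y) * (δ ^ 3 / D ^ 3) := by
      field_simp
      ring
    _ ≤ (2 * π * k ^ 2) * (δ ^ 3 / D ^ 3) := by gcongr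
    _ = (k * (δ / D)) ^ 2 * (2 * π * δ / D) := by
      field_simp

include hW hD hq hδ hL in
/-- the exponentially small part: `B W e^(-μB)/(μB) ≤ g G` -/
theorem redE {μ g : ℝ} (hμ : 0 < μ) (hg : 0 ≤ g)
    (h : l * (q / δ) * exp (-(2 * (μ * (q / δ)))) ≤ π * g ^ 2 * μ ^ 2) :
    (q / δ) * (W * (exp (-(μ * (q / δ))) / (μ * (q / δ)))) ≤ g * √(2 * π * δ / D) := by
  have hp := Real.pi_pos
  have hB : 0 < q / δ := by positivity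
  refine le_mul_sqrt (by positivity) hg (by positivity) ?_
  have e1 : ((q / δ) * (W * (exp (-(μ * (q / δ))) / (μ * (q / δ))))) ^ 2 =
      W ^ 2 * exp (-(2 * (μ * (q / δ)))) / μ ^ 2 := by
    have h3 : exp (-(2 * (μ * (q / δ)))) = exp (-(μ * (q / δ))) ^ 2 := by
      rw [← Real.exp_nat_mul]
      congr 1
      push_cast
      ring
    rw [h3]
    field_simp
  rw [e1, div_le_iff₀ (by positivity)]
  have h4 : W ^ 2 * exp (-(2 * (μ * (q / δ)))) * D ≤ 2 * (π * g ^ 2 * μ ^ 2) * δ := by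
    calc W ^ 2 * exp (-(2 * (μ * (q / δ)))) * D = W ^ 2 * D * exp (-(2 * (μ * (q / δ)))) := by ring
      _ ≤ 2 * l * q * exp (-(2 * (μ * (q / δ)))) := by gcongr
      _ = 2 * (l * (q / δ) * exp (-(2 * (μ * (q / δ))))) * δ := by
        field_simp
      _ ≤ 2 * (π * g ^ 2 * μ ^ 2) * δ := by gcongr
  have h5 : g ^ 2 * (2 * π * δ / D) * μ ^ 2 = 2 * (π * g ^ 2 * μ ^ 2) * δ / D := by ring
  rw [h5, le_div_iff₀ hD]
  exact h4

include hD hq hδ hL in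
/-- `W² ≤ 2 l B δ/D` -/
theorem wB : W ^ 2 ≤ 2 * l * (q / δ) * (δ / D) := by
  have h1 := wq hD hq hL
  have h2 : W ^ 2 / q * q ≤ 2 * l / D * q := mul_le_mul_of_nonneg_right h1 hq.le
  rw [div_mul_cancel₀ _ hq.ne'] at h2
  refine h2.trans (le_of_eq ?_)
  field_simp

end

end SokalF1B
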