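import Mathlib

/-!
# One dimensional integrals for LEMMA MAIN
-/

set_option autoImplicit false

namespace SokalF1B

open Real MeasureTheory Set

private theorem mi_cast (k : ℕ) {μ : ℝ} :
    Set.EqOn (fun s : ℝ => s ^ (k : ℝ) * exp (-μ * s ^ (2 : ℝ)))
      (fun s : ℝ => s ^ k * exp (-(μ * s ^ 2))) (Ioi 0) := by
  intro s _
  simp only []
  rw [Real.rpow_natCast, Real.rpow_two, neg_mul]

private theorem mi_ii (k : ℕ) {μ : ℝ} (hμ : 0 < μ) :
    IntegrableOn (fun s : ℝ => s ^ k * exp (-(μ * s ^ 2))) (Ioi 0) := by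
  have h := integrableOn_rpow_mul_exp_neg_mul_rpow (p := 2) (s := (k : ℝ)) (b := μ)
    (by have : (0 : ℝ) ≤ k := Nat.cast_nonneg k
        linarith) (by norm_num) hμ
  exact (integrableOn_congr_fun (mi_cast k) measurableSet_Ioi).1 h

private theorem mi_int (k : ℕ) {μ : ℝ} (hμ : 0 < μ) :
    ∫ s in Ioi (0 : ℝ), s ^ k * exp (-(μ * s ^ 2)) =
      μ ^ (-((k : ℝ) + 1) / 2) * (1 / 2) * Gamma (((k : ℝ) + 1) / 2) := by
  rw [← integral_rpow_mul_exp_neg_mul_rpow (p := 2) (q := (k : ℝ)) (b := μ) (by norm_num)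
    (by have : (0 : ℝ) ≤ k := Nat.cast_nonneg k
        linarith) hμ]
  exact (setIntegral_congr_fun measurableSet_Ioi (mi_cast k)).symm

theorem ii_m2 {μ : ℝ} (hμ : 0 < μ) :
    IntegrableOn (fun s : ℝ => s ^ 2 * exp (-(μ * s ^ 2))) (Ioi 0) := by
  exact mi_ii 2 hμ

theorem int_m2 {μ : ℝ} (hμ : 0 < μ) :
    ∫ s in Ioi (0 : ℝ), s ^ 2 * exp (-(μ * s ^ 2)) = √(π / μ) / (4 * μ) := by
  rw [mi_int 2 hμ]
  have h1 : (((2 : ℕ) : ℝ) + 1) / 2 = 1 / 2 + 1 := by norm_num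
  rw [h1, Real.Gamma_add_one (by norm_num), Real.Gamma_one_half_eq]
  have h2 : -(((2 : ℕ) : ℝ) + 1) / 2 = -(1 / 2) + -1 := by norm_num
  rw [h2, Real.rpow_add hμ, Real.rpow_neg hμ.le, Real.rpow_neg_one, ← Real.sqrt_eq_rpow,
    Real.sqrt_div Real.pi_pos.le]
  have h3 : √μ ≠ 0 := (Real.sqrt_pos.2 hμ).ne'
  field_simp
  norm_num

theorem ii_m3 {μ : ℝ} (hμ : 0 < μ) :
    IntegrableOn (fun s : ℝ => s ^ 3 * exp (-(μ * s ^ 2))) (Ioi 0) := by
  exact mi_ii 3 hμ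

theorem int_m3 {μ : ℝ} (hμ : 0 < μ) :
    ∫ s in Ioi (0 : ℝ), s ^ 3 * exp (-(μ * s ^ 2)) = 1 / (2 * μ ^ 2) := by
  rw [mi_int 3 hμ]
  have h1 : (((3 : ℕ) : ℝ) + 1) / 2 = ((1 : ℕ) : ℝ) + 1 := by norm_num
  rw [h1, Real.Gamma_nat_eq_factorial]
  have h2 : -(((3 : ℕ) : ℝ) + 1) / 2 = -((2 : ℕ) : ℝ) := by norm_num
  rw [h2, Real.rpow_neg hμ.le, Real.rpow_natCast]
  field_simp
  norm_num

theorem ii_m5 {μ : ℝ} (hμ : 0 < μ) :
    IntegrableOn (fun s : ℝ => s ^ 5 * exp (-(μ * s ^ 2))) (Ioi 0) := by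
  exact mi_ii 5 hμ

theorem int_m5 {μ : ℝ} (hμ : 0 < μ) :
    ∫ s in Ioi (0 : ℝ), s ^ 5 * exp (-(μ * s ^ 2)) = 1 / μ ^ 3 := by
  rw [mi_int 5 hμ]
  have h1 : (((5 : ℕ) : ℝ) + 1) / 2 = ((2 : ℕ) : ℝ) + 1 := by norm_num
  rw [h1, Real.Gamma_nat_eq_factorial]
  have h2 : -(((5 : ℕ) : ℝ) + 1) / 2 = -((3 : ℕ) : ℝ) := by norm_num
  rw [h2, Real.rpow_neg hμ.le, Real.rpow_natCast]
  field_simp
  norm_num [Nat.factorial]

private theorem mi_tend {μ : ℝ} (hμ : 0 < μ) :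
    Filter.Tendsto (fun s : ℝ => μ * s ^ 2) Filter.atTop Filter.atTop :=
  (Filter.tendsto_pow_atTop (by norm_num : (2 : ℕ) ≠ 0)).const_mul_atTop hμ

private theorem mi_exp0 {μ : ℝ} (hμ : 0 < μ) :
    Filter.Tendsto (fun s : ℝ => exp (-(μ * s ^ 2))) Filter.atTop (nhds 0) :=
  (Real.tendsto_exp_neg_atTop_nhds_zero).comp (mi_tend hμ)

private theorem mi_sq_deriv (μ s : ℝ) :
    HasDerivAt (fun s : ℝ => exp (-(μ * s ^ 2))) (exp (-(μ * s ^ 2)) * (-(μ * (2 * s)))) s := by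
  have h1 : HasDerivAt (fun s : ℝ => s ^ 2) (2 * s) s := by
    have := hasDerivAt_pow 2 s
    simpa using this
  exact ((h1.const_mul μ).neg).exp

/-- `∫_1^∞ s e^(-B s²)` -/
private theorem mi_one {B : ℝ} (hB : 0 < B) :
    IntegrableOn (fun s : ℝ => s * exp (-(B * s ^ 2))) (Ioi 1) ∧
    ∫ s in Ioi (1 : ℝ), s * exp (-(B * s ^ 2)) = exp (-B) / (2 * B) := by
  have hd : ∀ x ∈ Ici (1 : ℝ), HasDerivAt (fun s : ℝ => -(exp (-(B * s ^ 2)) / (2 * B)))
      (x * exp (-(B * x ^ 2))) x := by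
    intro x _
    have h := ((mi_sq_deriv B x).div_const (2 * B)).neg
    refine h.congr_deriv ?_
    field_simp
  have ht : Filter.Tendsto (fun s : ℝ => -(exp (-(B * s ^ 2)) / (2 * B))) Filter.atTop
      (nhds 0) := by
    have := ((mi_exp0 hB).div_const (2 * B)).neg
    simpa using this
  have hp : ∀ x ∈ Ioi (1 : ℝ), 0 ≤ x * exp (-(B * x ^ 2)) := by
    intro x hx
    have hx' : (1 : ℝ) < x := hx
    have := Real.exp_pos (-(B * x ^ 2))
    positivity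
  refine ⟨integrableOn_Ioi_deriv_of_nonneg' hd hp ht, ?_⟩
  rw [integral_Ioi_of_hasDerivAt_of_nonneg' hd hp ht]
  norm_num

private theorem mi_gint {B : ℝ} (hB : 0 < B) :
    Integrable (fun s : ℝ => exp (-(B * s ^ 2))) := by
  have := integrable_exp_neg_mul_sq hB
  refine this.congr (Filter.Eventually.of_forall (fun s => ?_))
  simp only []
  rw [neg_mul]

private theorem mi_right {B : ℝ} (hB : 0 < B) :
    ∫ s in Ioi (1 : ℝ), exp (-(B * s ^ 2)) ≤ exp (-B) / (2 * B) := by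
  obtain ⟨h1, h2⟩ := mi_one hB
  rw [← h2]
  apply setIntegral_mono_on (mi_gint hB).integrableOn h1 measurableSet_Ioi
  intro s hs
  have hs' : (1 : ℝ) < s := hs
  have := Real.exp_pos (-(B * s ^ 2))
  nlinarith

/-- `∫_{|s| ≥ 1}` of the Gaussian (use `1 ≤ |s|`) -/
theorem int_gtail {B : ℝ} (hB : 0 < B) :
    ∫ s in (Ioo (-1 : ℝ) 1)ᶜ, exp (-(B * s ^ 2)) ≤ exp (-B) / B := by
  have h1 : (Ioo (-1 : ℝ) 1)ᶜ = Iic (-1) ∪ Ici 1 := by
    ext x
    simp only [mem_compl_iff, mem_Ioo, not_and, not_lt, mem_union, mem_Iic, mem_Ici]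
    constructor
    · intro h
      rcases le_or_gt x (-1) with h2 | h2
      · exact Or.inl h2
      · exact Or.inr (h h2)
    · rintro (h | h) h2
      · linarith
      · exact h
  have hdis : Disjoint (Iic (-1 : ℝ)) (Ici 1) := by
    rw [Set.disjoint_left]
    intro x hx hx'
    rw [mem_Iic] at hx
    rw [mem_Ici] at hx'
    linarith
  rw [h1, setIntegral_union hdis measurableSet_Ici (mi_gint hB).integrableOn
    (mi_gint hB).integrableOn, integral_Ici_eq_integral_Ioi]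
  have h2 : ∫ s in Iic (-1 : ℝ), exp (-(B * s ^ 2)) = ∫ s in Ioi (1 : ℝ), exp (-(B * s ^ 2)) := by
    have h := integral_comp_neg_Iic (-1) (fun s : ℝ => exp (-(B * s ^ 2)))
    simp only [neg_neg, even_two, Even.neg_pow] at h
    exact h
  rw [h2]
  have h3 := mi_right hB
  have h4 : exp (-B) / B = exp (-B) / (2 * B) + exp (-B) / (2 * B) := by
    field_simp
    norm_num
  rw [h4]
  linarith

/-- `∫_{1/2}^∞ s³ e^(-μ s²)` -/
private theorem mi_half {μ : ℝ} (hμ : 0 < μ) :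
    ∫ s in Ioi (1 / 2 : ℝ), s ^ 3 * exp (-(μ * s ^ 2)) =
      (μ / 4 + 1) * exp (-(μ / 4)) / (2 * μ ^ 2) := by
  have hd : ∀ x ∈ Ici (1 / 2 : ℝ), HasDerivAt
      (fun s : ℝ => -((μ * s ^ 2 + 1) * exp (-(μ * s ^ 2)) / (2 * μ ^ 2)))
      (x ^ 3 * exp (-(μ * x ^ 2))) x := by
    intro x _
    have h1 : HasDerivAt (fun s : ℝ => s ^ 2) (2 * x) x := by
      have := hasDerivAt_pow 2 x
      simpa using this
    have h2 : HasDerivAt (fun s : ℝ => μ * s ^ 2 + 1) (μ * (2 * x)) x :=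
      (h1.const_mul μ).add_const 1
    have h := ((h2.mul (mi_sq_deriv μ x)).div_const (2 * μ ^ 2)).neg
    refine h.congr_deriv ?_
    field_simp
    ring
  have ht : Filter.Tendsto (fun s : ℝ => -((μ * s ^ 2 + 1) * exp (-(μ * s ^ 2)) / (2 * μ ^ 2)))
      Filter.atTop (nhds 0) := by
    have h1 : Filter.Tendsto (fun x : ℝ => x ^ 1 * exp (-x)) Filter.atTop (nhds 0) :=
      Real.tendsto_pow_mul_exp_neg_atTop_nhds_zero 1
    have h2 : Filter.Tendsto (fun x : ℝ => (x + 1) * exp (-x)) Filter.atTop (nhds 0) := by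
      have := h1.add Real.tendsto_exp_neg_atTop_nhds_zero
      rw [add_zero] at this
      refine this.congr (fun x => ?_)
      ring
    have h3 := ((h2.comp (mi_tend hμ)).div_const (2 * μ ^ 2)).neg
    simpa using h3
  have hp : ∀ x ∈ Ioi (1 / 2 : ℝ), 0 ≤ x ^ 3 * exp (-(μ * x ^ 2)) := by
    intro x hx
    have hx' : (1 / 2 : ℝ) < x := hx
    have := Real.exp_pos (-(μ * x ^ 2))
    positivity
  rw [integral_Ioi_of_hasDerivAt_of_nonneg' hd hp ht]
  have : μ * (1 / 2 : ℝ) ^ 2 = μ / 4 := by ring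
  simp only [this]
  ring

private theorem mi_exp3 : (22 : ℝ) ≤ exp (3105 / 1000) := by
  have h1 := Real.exp_one_gt_d9
  have h2 : exp (3105 / 1000) = exp 1 ^ 3 * exp (105 / 1000) := by
    rw [← Real.exp_nat_mul, ← Real.exp_add]
    norm_num
  have h3 : (105 / 1000 : ℝ) + 1 ≤ exp (105 / 1000) := Real.add_one_le_exp _
  have h4 : (2718 / 1000 : ℝ) ^ 3 ≤ exp 1 ^ 3 :=
    pow_le_pow_left₀ (by norm_num) (by linarith) 3
  rw [h2]
  have h5 := mul_le_mul h4 h3 (by norm_num) (pow_nonneg (Real.exp_pos 1).le 3)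
  refine le_trans ?_ h5
  norm_num

private theorem mi_z {z : ℝ} (hz : 3105 / 1000 ≤ z) :
    (z + 1) * exp (-z) ≤ 18660 / 100000 := by
  have h1 : (z - 3105 / 1000) + 1 ≤ exp (z - 3105 / 1000) := Real.add_one_le_exp _
  have h2 : exp z = exp (3105 / 1000) * exp (z - 3105 / 1000) := by
    rw [← Real.exp_add]
    congr 1
    ring
  have h3 := mi_exp3
  rw [Real.exp_neg, ← div_eq_mul_inv, div_le_iff₀ (Real.exp_pos z), h2]
  have h4 : 22 * ((z - 3105 / 1000) + 1) ≤ exp (3105 / 1000) * exp (z - 3105 / 1000) := by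
    apply mul_le_mul h3 h1 (by linarith) (by linarith)
  nlinarith

/-- contribution of `[1/2, ∞)` -/
private theorem mi_far {B : ℝ} (hB : 23 ≤ B) :
    ∫ s in Ioi (1 / 2 : ℝ), s ^ 3 * exp (-(27 / 50 * B * s ^ 2)) ≤
      3200 / 10000 / B ^ 2 := by
  have hB0 : 0 < B := by linarith
  rw [mi_half (by positivity)]
  have h1 := mi_z (z := 27 / 50 * B / 4) (by linarith)
  rw [div_le_div_iff₀ (by positivity) (by positivity)]
  have h2 : 0 < B ^ 2 := by positivity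
  nlinarith [mul_le_mul_of_nonneg_right h1 h2.le]

private theorem mi_q1 {s : ℝ} (h1 : s ≤ 1 / 2) :
    149 / 200 ≤ 1 - 14 / 25 * s + s ^ 2 / 10 := by
  nlinarith

private theorem mi_q2 {s : ℝ} (h1 : s ≤ 1) :
    27 / 50 ≤ 1 - 14 / 25 * s + s ^ 2 / 10 := by
  nlinarith

private theorem mi_split (k : ℕ) {B c : ℝ} (hB : 0 < B) (hc : 0 ≤ c)
    (hk : ∀ s : ℝ, 1 / 2 ≤ s → s ^ k ≤ c * s ^ 3) :
    ∫ s in Ioo (0 : ℝ) 1, s ^ k * exp (-(B * ((1 - 14 / 25 * s + s ^ 2 / 10) * s ^ 2))) ≤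
      (∫ s in Ioi (0 : ℝ), s ^ k * exp (-(149 / 200 * B * s ^ 2))) +
      c * ∫ s in Ioi (1 / 2 : ℝ), s ^ 3 * exp (-(27 / 50 * B * s ^ 2)) := by
  have hcont : Continuous (fun s : ℝ =>
      s ^ k * exp (-(B * ((1 - 14 / 25 * s + s ^ 2 / 10) * s ^ 2)))) := by fun_prop
  have hint : IntegrableOn (fun s : ℝ =>
      s ^ k * exp (-(B * ((1 - 14 / 25 * s + s ^ 2 / 10) * s ^ 2)))) (Icc 0 1) :=
    hcont.integrableOn_Icc
  have hint1 : IntegrableOn (fun s : ℝ =>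
      s ^ k * exp (-(B * ((1 - 14 / 25 * s + s ^ 2 / 10) * s ^ 2)))) (Ioc 0 (1 / 2)) :=
    hint.mono_set (fun x hx => ⟨hx.1.le, by linarith [hx.2]⟩)
  have hint2 : IntegrableOn (fun s : ℝ =>
      s ^ k * exp (-(B * ((1 - 14 / 25 * s + s ^ 2 / 10) * s ^ 2)))) (Ioo (1 / 2) 1) :=
    hint.mono_set (fun x hx => ⟨by linarith [hx.1], hx.2.le⟩)
  have hU : Ioo (0 : ℝ) 1 = Ioc 0 (1 / 2) ∪ Ioo (1 / 2) 1 :=
    (Ioc_union_Ioo_eq_Ioo (by norm_num) (by norm_num)).symm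
  have hdis : Disjoint (Ioc (0 : ℝ) (1 / 2)) (Ioo (1 / 2) 1) := by
    rw [Set.disjoint_left]
    intro x hx hx'
    exact absurd hx'.1 (not_lt.2 hx.2)
  rw [hU, setIntegral_union hdis measurableSet_Ioo hint1 hint2]
  have hA := mi_ii k (μ := 149 / 200 * B) (by positivity)
  have hBi := mi_ii 3 (μ := 27 / 50 * B) (by positivity)
  have hsub1 : Ioc (0 : ℝ) (1 / 2) ⊆ Ioi 0 := fun x hx => hx.1
  have hsub2 : Ioo (1 / 2 : ℝ) 1 ⊆ Ioi (1 / 2) := fun x hx => hx.1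
  have hsub3 : Ioi (1 / 2 : ℝ) ⊆ Ioi 0 := fun x hx => by
    have hx' : (1 / 2 : ℝ) < x := hx
    show (0 : ℝ) < x
    linarith
  apply add_le_add
  · refine le_trans (setIntegral_mono_on hint1 (hA.mono_set hsub1) measurableSet_Ioc ?_)
      (setIntegral_mono_set hA ?_ (Filter.Eventually.of_forall hsub1))
    · intro s hs
      apply mul_le_mul_of_nonneg_left _ (pow_nonneg hs.1.le k)
      rw [Real.exp_le_exp, neg_le_neg_iff]
      have h1 := mi_q1 hs.2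
      have h2 : 0 ≤ s ^ 2 := sq_nonneg s
      have h3 := mul_le_mul_of_nonneg_right h1 h2
      have h4 := mul_le_mul_of_nonneg_left h3 hB.le
      linarith
    · refine (ae_restrict_iff' measurableSet_Ioi).2 (Filter.Eventually.of_forall ?_)
      intro s hs
      have hs' : (0 : ℝ) < s := hs
      have := Real.exp_pos (-(149 / 200 * B * s ^ 2))
      show 0 ≤ s ^ k * exp (-(149 / 200 * B * s ^ 2))
      positivity
  · rw [← integral_const_mul]
    refine le_trans (setIntegral_mono_on hint2 (((hBi.mono_set hsub3).mono_set hsub2).const_mul c)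
      measurableSet_Ioo ?_)
      (setIntegral_mono_set ((hBi.mono_set hsub3).const_mul c) ?_
        (Filter.Eventually.of_forall hsub2))
    · intro s hs
      have hs1 : 1 / 2 < s := hs.1
      rw [← mul_assoc c]
      apply mul_le_mul (hk s hs1.le) _ (Real.exp_pos _).le (by positivity)
      rw [Real.exp_le_exp, neg_le_neg_iff]
      have h1 := mi_q2 hs.2.le
      have h2 : 0 ≤ s ^ 2 := sq_nonneg s
      have h3 := mul_le_mul_of_nonneg_right h1 h2
      have h4 := mul_le_mul_of_nonneg_left h3 hB.le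
      linarith
    · refine (ae_restrict_iff' measurableSet_Ioi).2 (Filter.Eventually.of_forall ?_)
      intro s hs
      have hs' : (1 / 2 : ℝ) < s := hs
      have := Real.exp_pos (-(27 / 50 * B * s ^ 2))
      show 0 ≤ c * (s ^ 3 * exp (-(27 / 50 * B * s ^ 2)))
      positivity

/-- Split at `1/2`: exponent `≥ .745 B s²` on `[0, 1/2]`, `≥ .54 B s²` on `[1/2, 1]`, there `s² ≤ 2 s³`;
`∫_{1/2}^∞ s³ e^(-λ B s²) = (z + 1) e^(-z)/(2 λ² B²)`, `z = λ B/4`, and `(z+1) e^(-z)` decreases. -/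
theorem left_j2 {B : ℝ} (hB : 23 ≤ B) :
    ∫ s in Ioo (0 : ℝ) 1, s ^ 2 * exp (-(B * ((1 - 14 / 25 * s + s ^ 2 / 10) * s ^ 2))) ≤
      83 / 100 / (B * √B) := by
  have hB0 : 0 < B := by linarith
  have h1 := mi_split 2 (B := B) (c := 2) hB0 (by norm_num) (by
    intro s hs
    have : 0 ≤ s ^ 2 := sq_nonneg s
    nlinarith)
  have h2 := mi_far hB
  rw [int_m2 (by positivity)] at h1
  have hS : 0 < √B := Real.sqrt_pos.2 hB0
  have hSS : √B * √B = B := Real.mul_self_sqrt hB0.le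
  have hS1 : 479 / 100 ≤ √B := by
    apply Real.le_sqrt_of_sq_le
    norm_num
    linarith
  have h3 : √(π / (149 / 200 * B)) ≤ 2054 / 1000 / √B := by
    rw [Real.sqrt_le_left (by positivity), div_pow, Real.sq_sqrt hB0.le, div_le_div_iff₀
      (by positivity) hB0]
    have := Real.pi_lt_d4
    nlinarith
  have h4 : √(π / (149 / 200 * B)) / (4 * (149 / 200 * B)) ≤ 690 / 1000 / (B * √B) := by
    have h5 : √(π / (149 / 200 * B)) / (4 * (149 / 200 * B)) ≤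
        2054 / 1000 / √B / (4 * (149 / 200 * B)) := by
      apply div_le_div_of_nonneg_right h3 (by positivity)
    refine le_trans h5 ?_
    rw [div_div, div_le_div_iff₀ (by positivity) (by positivity)]
    have : 0 < B * √B := by positivity
    nlinarith
  have h6 : 3200 / 10000 / B ^ 2 ≤ 67 / 1000 / (B * √B) := by
    rw [div_le_div_iff₀ (by positivity) (by positivity)]
    have h7 : B ^ 2 = (B * √B) * √B := by
      rw [mul_assoc, hSS]
      ring
    rw [h7]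
    have : 0 < B * √B := by positivity
    nlinarith
  have h8 : 83 / 100 / (B * √B) = 690 / 1000 / (B * √B) + 2 * (67 / 1000 / (B * √B)) +
      6 / 1000 / (B * √B) := by ring
  have h9 : 0 ≤ 6 / 1000 / (B * √B) := by positivity
  rw [h8]
  linarith

theorem left_j3 {B : ℝ} (hB : 23 ≤ B) :
    ∫ s in Ioo (0 : ℝ) 1, s ^ 3 * exp (-(B * ((1 - 14 / 25 * s + s ^ 2 / 10) * s ^ 2))) ≤
      123 / 100 / B ^ 2 := by
  have hB0 : 0 < B := by linarith
  have h1 := mi_split 3 (B := B) (c := 1) hB0 (by norm_num) (by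
    intro s hs
    linarith)
  have h2 := mi_far hB
  rw [int_m3 (by positivity)] at h1
  have h3 : 1 / (2 * (149 / 200 * B) ^ 2) ≤ 901 / 1000 / B ^ 2 := by
    rw [div_le_div_iff₀ (by positivity) (by positivity)]
    have : 0 < B ^ 2 := by positivity
    nlinarith
  have h8 : 123 / 100 / B ^ 2 = 901 / 1000 / B ^ 2 + 3200 / 10000 / B ^ 2 +
      9 / 1000 / B ^ 2 := by ring
  have h9 : 0 ≤ 9 / 1000 / B ^ 2 := by positivity
  rw [h8]
  linarith

end SokalF1B
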