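import Pool.Agent.Lib_MP_af4de1_f1.MainB3

/-!
# LEMMA MAIN: `M2` and the Gaussian comparison on `|s| < 1`, the part `1 ≤ |s| < 3/2`
-/

set_option autoImplicit false

open Complex MeasureTheory Set SokalU SokalPG SokalF1G SokalF1M

namespace SokalF1B

theorem amgm {c s : ℝ} : c * s ≤ 7 / 100 + 25 / 7 * (c ^ 2 * s ^ 2) := by
  nlinarith [sq_nonneg (c * s - 7 / 50)]

/-- The Gaussian integrand. -/
noncomputable def gau (x y δ s : ℝ) : ℂ :=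
  (1 - ((1 + x)⁻¹ : ℝ) * I) *
    cexp (I / δ * (1 - I * ((x : ℂ) + y * I)) * (((((1 + x)⁻¹ : ℝ) : ℂ) + I) * s) ^ 2 / 2)

theorem norm_gau {x y δ : ℝ} (hδ : 0 < δ) (s : ℝ) :
    ‖gau x y δ s‖ = Wc x * Real.exp (-(Qf x y / δ * s ^ 2)) := by
  unfold gau
  have h := gauss_re (x := x) (y := y) hδ s
  rw [one_div] at h
  rw [norm_mul, norm_slope, Complex.norm_exp, h]

section

variable {x y δ la μ j2 j3 : ℝ} {hl : ℝ → ℝ} (h : HypH x y δ la μ j2 j3 hl)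

include h

/-- `M2` on `|s| < 1` -/
theorem HypH.M2 : ∫ s in Ioo (-1 : ℝ) 1,
    ‖gi (1 + x)⁻¹ (1 + x) (fun σ => σ * gs σ) (((x : ℂ) + y * I) / δ) 0 (-((δ : ℂ) * I)) s‖ ≤
      Wc x ^ 4 * ((1 / 2 + 63 / 3125) * (1 / (2 * (la * (Qf x y / δ)) ^ 2)) +
        36 / 35 * (1 + x)⁻¹ ^ 2 * (1 / (la * (Qf x y / δ)) ^ 3) +
        1 / 2 * (j3 / (Qf x y / δ) ^ 2)) := by
  have hB := h.hB
  have hla := h.hla
  have hx := h.hx
  have hδ := h.hδ
  have hW := Wc_pos x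
  have hν : 0 < la * (Qf x y / δ) := by positivity
  have hc0 := h.c0
  have iA := (ii_m3 hν).const_mul (Wc x ^ 4 * (1 / 2 + 63 / 3125))
  have iB := (ii_m5 hν).const_mul (Wc x ^ 4 * (36 / 35 * (1 + x)⁻¹ ^ 2))
  have key := split_bound
    (h := fun s => ‖gi (1 + x)⁻¹ (1 + x) (fun σ => σ * gs σ) (((x : ℂ) + y * I) / δ) 0
      (-((δ : ℂ) * I)) s‖)
    (φ := fun s => Wc x ^ 4 * (1 / 2 + 63 / 3125) *
        (s ^ 3 * Real.exp (-(la * (Qf x y / δ) * s ^ 2))) +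
      Wc x ^ 4 * (36 / 35 * (1 + x)⁻¹ ^ 2) * (s ^ 5 * Real.exp (-(la * (Qf x y / δ) * s ^ 2))))
    (ψ := fun s => Wc x ^ 4 * (1 / 2) * (s ^ 3 * Real.exp (-(Qf x y / δ * hl s))))
    (h.int wt_mul_gs).norm.integrableOn
    (iA.fun_add iB)
    (fun s hs => by positivity)
    ((h.iL 3).const_mul _)
    (fun s hs => by
      refine (norm_gi_le' hx hδ (fun σ => σ * gs σ) s (norm_hgs hx s)
        (h.R hs.1.le hs.2.le)).trans ?_
      have h1 := max_ga_nonneg hx hs.1.le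
      have hs0 := hs.1
      have h2 : (1 + x)⁻¹ * s ≤ 7 / 100 + 25 / 7 * ((1 + x)⁻¹ ^ 2 * s ^ 2) := amgm
      rw [abs_of_pos hs0]
      calc Wc x * (Wc x ^ 3 * s ^ 3 * (1 / 2 + 36 / 125 * max (ga x s) 0) *
            Real.exp (-(la * (Qf x y / δ) * s ^ 2))) ≤
          Wc x * (Wc x ^ 3 * s ^ 3 * (1 / 2 + 36 / 125 *
            (7 / 100 + 25 / 7 * ((1 + x)⁻¹ ^ 2 * s ^ 2))) *
            Real.exp (-(la * (Qf x y / δ) * s ^ 2))) := by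
              have := h1.trans h2
              gcongr
        _ = _ := by ring)
    (fun s hs => by
      refine (norm_gi_le' hx hδ (fun σ => σ * gs σ) (-s) (norm_hgs hx (-s))
        (h.L hs.1.le hs.2.le)).trans ?_
      rw [max_ga_nonpos hx (by linarith [hs.1]), abs_neg, abs_of_pos hs.1]
      refine le_of_eq ?_
      ring)
  refine key.trans ?_
  rw [integral_add iA iB, integral_const_mul,
    integral_const_mul, integral_const_mul, int_m3 hν, int_m5 hν]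
  have h2 := h.hj3
  have h3 : Wc x ^ 4 * (1 / 2) *
      ∫ s in Ioo (0 : ℝ) 1, s ^ 3 * Real.exp (-(Qf x y / δ * hl s)) ≤
      Wc x ^ 4 * (1 / 2) * (j3 / (Qf x y / δ) ^ 2) := by gcongr
  refine (add_le_add_right h3 _).trans (le_of_eq ?_)
  ring

/-- pointwise Gaussian comparison -/
theorem HypH.diff {s m : ℝ} (h1 : |s| < 1) (hm : m ≤ Hf x y s / δ) :
    ‖gi (1 + x)⁻¹ (1 + x) (fun _ => 1) (((x : ℂ) + y * I) / δ) 0 (-((δ : ℂ) * I)) s -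
      gau x y δ s‖ ≤
      Wc x ^ 4 * (‖(x : ℂ) + y * I‖ / δ) * (|s| ^ 3 * (1 / 6 + 9 / 125 * max (ga x s) 0)) *
        ((Real.exp (-m) + Real.exp (-(Qf x y / δ * s ^ 2))) / 2) := by
  have hx := h.hx
  have hδ := h.hδ
  have hW := Wc_pos x
  have hs1 : |s| < 1 + x := by linarith
  have hpz : pz (1 + x)⁻¹ (1 + x) s = ((((1 + x)⁻¹ : ℝ) : ℂ) + I) * s := by
    unfold pz
    have h2 : pc (1 + x)⁻¹ (1 + x) s = (1 + x)⁻¹ * s :=
      pc_mid h.c0 (by linarith [(abs_lt.1 hs1).1]) (by linarith [(abs_lt.1 hs1).2])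
    rw [h2]
    push_cast
    ring
  have hre : (pz (1 + x)⁻¹ (1 + x) s).re = ga x s := by rw [pz_re, pc_eq hx]
  have hpv : pv (1 + x)⁻¹ (1 + x) s = 1 - ((1 + x)⁻¹ : ℝ) * I := by
    unfold pv
    rw [if_pos hs1]
  set σ := pz (1 + x)⁻¹ (1 + x) s with hσ
  set A := I / δ * (1 - I * ((x : ℂ) + y * I)) * σ ^ 2 / 2 with hA
  have e1 : gi (1 + x)⁻¹ (1 + x) (fun _ => 1) (((x : ℂ) + y * I) / δ) 0 (-((δ : ℂ) * I)) s =
      (1 - ((1 + x)⁻¹ : ℝ) * I) * cexp (A + ((x : ℂ) + y * I) / δ *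
        (cexp σ - 1 - σ - σ ^ 2 / 2)) := by
    unfold gi
    rw [hpv, ← hσ, one_mul, f_eq hδ]
  have e2 : gau x y δ s = (1 - ((1 + x)⁻¹ : ℝ) * I) * cexp A := by
    unfold gau
    rw [← hpz]
  have n1 : ‖cexp (A + ((x : ℂ) + y * I) / δ * (cexp σ - 1 - σ - σ ^ 2 / 2))‖ ≤
      Real.exp (-m) := by
    rw [← f_eq hδ, hσ]
    have h3 : pz (1 + x)⁻¹ (1 + x) s = ((ga x s : ℝ) : ℂ) + s * I := by
      unfold pz
      rw [pc_eq hx]
    rw [h3, norm_f_K hδ]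
    exact Real.exp_le_exp.2 (neg_le_neg hm)
  have n2 : ‖cexp A‖ = Real.exp (-(Qf x y / δ * s ^ 2)) := by
    have h3 := gauss_re (x := x) (y := y) hδ s
    rw [one_div, ← hpz] at h3
    rw [Complex.norm_exp, h3]
  have n3 := norm_exp_sub_exp2 (A + ((x : ℂ) + y * I) / δ * (cexp σ - 1 - σ - σ ^ 2 / 2)) A
  rw [← Complex.norm_exp, ← Complex.norm_exp, n2] at n3
  have n4 : ‖A + ((x : ℂ) + y * I) / δ * (cexp σ - 1 - σ - σ ^ 2 / 2) - A‖ ≤
      ‖(x : ℂ) + y * I‖ / δ * ((Wc x * |s|) ^ 3 * (1 / 6 + 9 / 125 * max (ga x s) 0)) := by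
    rw [add_sub_cancel_left, norm_mul, norm_div, Complex.norm_real, Real.norm_of_nonneg hδ.le]
    have h3 := taylor3 (v := σ) (by rw [hre]; exact ga_le_one x s)
    rw [hre] at h3
    have h4 := norm_pz hx s
    rw [← hσ] at h4
    have h5 : 0 ≤ max (ga x s) 0 := le_max_right _ _
    refine mul_le_mul_of_nonneg_left ?_ (by positivity)
    refine h3.trans ?_
    gcongr
  rw [e1, e2, ← mul_sub, norm_mul, norm_slope]
  have h5 : 0 ≤ max (ga x s) 0 := le_max_right _ _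
  calc Wc x * ‖cexp (A + ((x : ℂ) + y * I) / δ * (cexp σ - 1 - σ - σ ^ 2 / 2)) - cexp A‖ ≤
      Wc x * ((‖(x : ℂ) + y * I‖ / δ * ((Wc x * |s|) ^ 3 * (1 / 6 + 9 / 125 * max (ga x s) 0))) *
        ((Real.exp (-m) + Real.exp (-(Qf x y / δ * s ^ 2))) / 2)) := by
        refine mul_le_mul_of_nonneg_left (n3.trans ?_) hW.le
        gcongr
    _ = _ := by ring

/-- `M0` on `|s| < 1` -/
theorem HypH.M0 : ∫ s in Ioo (-1 : ℝ) 1,
    ‖gi (1 + x)⁻¹ (1 + x) (fun _ => 1) (((x : ℂ) + y * I) / δ) 0 (-((δ : ℂ) * I)) s -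
      gau x y δ s‖ ≤
      Wc x ^ 4 * (‖(x : ℂ) + y * I‖ / δ) * (1 / 2 * (
        (1 / 6 + 63 / 12500) * (1 / (2 * (la * (Qf x y / δ)) ^ 2) + 1 / (2 * (Qf x y / δ) ^ 2)) +
        9 / 35 * (1 + x)⁻¹ ^ 2 * (1 / (la * (Qf x y / δ)) ^ 3 + 1 / (Qf x y / δ) ^ 3) +
        1 / 6 * (j3 / (Qf x y / δ) ^ 2 + 1 / (2 * (Qf x y / δ) ^ 2)))) := by
  have hB := h.hB
  have hla := h.hla
  have hx := h.hx
  have hδ := h.hδ
  have hW := Wc_pos x
  have hν : 0 < la * (Qf x y / δ) := by positivity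
  have hc0 := h.c0
  set P := Wc x ^ 4 * (‖(x : ℂ) + y * I‖ / δ) * (1 / 2) with hP
  have hP0 : 0 ≤ P := by positivity
  have iA := (((ii_m3 hν).const_mul (P * (1 / 6 + 63 / 12500))).fun_add
    ((ii_m3 hB).const_mul (P * (1 / 6 + 63 / 12500))))
  have iB := (((ii_m5 hν).const_mul (P * (9 / 35 * (1 + x)⁻¹ ^ 2))).fun_add
    ((ii_m5 hB).const_mul (P * (9 / 35 * (1 + x)⁻¹ ^ 2))))
  have iC : IntegrableOn (fun s : ℝ => P * (1 / 6) * (s ^ 3 * Real.exp (-(Qf x y / δ * hl s))))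
      (Ioo 0 1) := (h.iL 3).const_mul _
  have iD : IntegrableOn (fun s : ℝ => P * (1 / 6) * (s ^ 3 * Real.exp (-(Qf x y / δ * s ^ 2))))
      (Ioo 0 1) := ((ii_m3 hB).mono_set Ioo_subset_Ioi_self).const_mul _
  have hgc : Continuous (gau x y δ) := by
    unfold gau
    fun_prop
  have key := split_bound
    (h := fun s => ‖gi (1 + x)⁻¹ (1 + x) (fun _ => 1) (((x : ℂ) + y * I) / δ) 0
      (-((δ : ℂ) * I)) s - gau x y δ s‖)
    (φ := fun s => (P * (1 / 6 + 63 / 12500) * (s ^ 3 * Real.exp (-(la * (Qf x y / δ) * s ^ 2))) +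
      P * (1 / 6 + 63 / 12500) * (s ^ 3 * Real.exp (-(Qf x y / δ * s ^ 2)))) +
      (P * (9 / 35 * (1 + x)⁻¹ ^ 2) * (s ^ 5 * Real.exp (-(la * (Qf x y / δ) * s ^ 2))) +
      P * (9 / 35 * (1 + x)⁻¹ ^ 2) * (s ^ 5 * Real.exp (-(Qf x y / δ * s ^ 2)))))
    (ψ := fun s => P * (1 / 6) * (s ^ 3 * Real.exp (-(Qf x y / δ * hl s))) +
      P * (1 / 6) * (s ^ 3 * Real.exp (-(Qf x y / δ * s ^ 2))))
    ((h.int (wt_const 1)).integrableOn.sub
      ((hgc.integrableOn_Icc (a := -1) (b := 1)).mono_set Ioo_subset_Icc_self)).norm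
    (iA.fun_add iB)
    (fun s hs => by positivity)
    (iC.fun_add iD)
    (fun s hs => by
      have hs0 := hs.1
      refine (h.diff (by rw [abs_of_pos hs0]; exact hs.2) (h.R hs.1.le hs.2.le)).trans ?_
      have h1 := max_ga_nonneg hx hs.1.le
      have h2 : (1 + x)⁻¹ * s ≤ 7 / 100 + 25 / 7 * ((1 + x)⁻¹ ^ 2 * s ^ 2) := amgm
      rw [abs_of_pos hs0]
      calc Wc x ^ 4 * (‖(x : ℂ) + y * I‖ / δ) * (s ^ 3 * (1 / 6 + 9 / 125 * max (ga x s) 0)) *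
            ((Real.exp (-(la * (Qf x y / δ) * s ^ 2)) + Real.exp (-(Qf x y / δ * s ^ 2))) / 2) ≤
          Wc x ^ 4 * (‖(x : ℂ) + y * I‖ / δ) * (s ^ 3 * (1 / 6 + 9 / 125 *
            (7 / 100 + 25 / 7 * ((1 + x)⁻¹ ^ 2 * s ^ 2)))) *
            ((Real.exp (-(la * (Qf x y / δ) * s ^ 2)) + Real.exp (-(Qf x y / δ * s ^ 2))) / 2) := by
              have := h1.trans h2
              gcongr
        _ = _ := by
          rw [hP]
          ring)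
    (fun s hs => by
      have hs0 := hs.1
      refine (h.diff (by rw [abs_neg, abs_of_pos hs0]; exact hs.2)
        (h.L hs.1.le hs.2.le)).trans ?_
      rw [max_ga_nonpos hx (by linarith [hs.1]), abs_neg, abs_of_pos hs.1, neg_sq]
      refine le_of_eq ?_
      rw [hP]
      ring)
  refine key.trans ?_
  rw [integral_add iA iB, integral_add ((ii_m3 hν).const_mul _) ((ii_m3 hB).const_mul _),
    integral_add ((ii_m5 hν).const_mul _) ((ii_m5 hB).const_mul _), integral_add iC iD]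
  simp only [integral_const_mul]
  rw [int_m3 hν, int_m5 hν, int_m3 hB, int_m5 hB]
  have h2 := h.hj3
  have h3 : P * (1 / 6) *
      ∫ s in Ioo (0 : ℝ) 1, s ^ 3 * Real.exp (-(Qf x y / δ * hl s)) ≤
      P * (1 / 6) * (j3 / (Qf x y / δ) ^ 2) := by gcongr
  have h4 : ∫ s in Ioo (0 : ℝ) 1, s ^ 3 * Real.exp (-(Qf x y / δ * s ^ 2)) ≤
      1 / (2 * (Qf x y / δ) ^ 2) := by
    rw [← int_m3 hB]
    refine setIntegral_mono_set (ii_m3 hB) ?_ (Ioo_subset_Ioi_self).eventuallyLE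
    filter_upwards [self_mem_ae_restrict measurableSet_Ioi] with s hs
    have hs' : (0 : ℝ) < s := hs
    positivity
  have h5 : P * (1 / 6) * ∫ s in Ioo (0 : ℝ) 1, s ^ 3 * Real.exp (-(Qf x y / δ * s ^ 2)) ≤
      P * (1 / 6) * (1 / (2 * (Qf x y / δ) ^ 2)) := by gcongr
  refine (add_le_add_right (add_le_add h3 h5) _).trans (le_of_eq ?_)
  rw [hP]
  ring

/-! ### `1 ≤ |s| < 3/2` -/

theorem HypH.O0 : ∫ s in Ioo (-(3 / 2)) (3 / 2) \ Ioo (-1 : ℝ) 1,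
    ‖gi (1 + x)⁻¹ (1 + x) (fun _ => 1) (((x : ℂ) + y * I) / δ) 0 (-((δ : ℂ) * I)) s‖ ≤
      Wc x * (Real.exp (-(μ * (Qf x y / δ))) / (μ * (Qf x y / δ))) := by
  have hB := h.hB
  have hμ := h.hμ
  refine outer_bound (h.int (wt_const 1)).norm.integrableOn (Wc_pos x).le (by positivity)
    fun s h1 h2 => ?_
  have h3 := norm_gi_le' (A := 1) h.hx h.hδ (fun _ => 1) s (by simp) (h.O h1 h2)
  rwa [one_mul] at h3

theorem HypH.O1 : ∫ s in Ioo (-(3 / 2)) (3 / 2) \ Ioo (-1 : ℝ) 1,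
    ‖gi (1 + x)⁻¹ (1 + x) gs (((x : ℂ) + y * I) / δ) 0 (-((δ : ℂ) * I)) s‖ ≤
      (Wc x ^ 2 * (1773 / 1000)) *
        (Wc x * (Real.exp (-(μ * (Qf x y / δ))) / (μ * (Qf x y / δ)))) := by
  have hB := h.hB
  have hμ := h.hμ
  have hW := Wc_pos x
  have h0 := outer_bound (h := fun s => ‖gi (1 + x)⁻¹ (1 + x) gs (((x : ℂ) + y * I) / δ) 0
    (-((δ : ℂ) * I)) s‖) (C := Wc x ^ 2 * (1773 / 1000) * Wc x) (ν := μ * (Qf x y / δ))
    (h.int wt_gs).norm.integrableOn (by positivity) (by positivity)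
    fun s h1 h2 => ?_
  · refine h0.trans (le_of_eq ?_)
    ring
  have h3 := norm_gi_le' h.hx h.hδ gs s (norm_gs h.hx s) (h.O h1 h2)
  refine h3.trans ?_
  have h4 := max_ga_one x s
  have h5 : s ^ 2 ≤ 9 / 4 := by
    rw [← sq_abs]
    nlinarith [abs_nonneg s]
  have h6 : Wc x ^ 2 * s ^ 2 * (1 / 2 + 36 / 125 * max (ga x s) 0) ≤
      Wc x ^ 2 * (9 / 4) * (1 / 2 + 36 / 125 * 1) := by
    have h7 : 0 ≤ max (ga x s) 0 := le_max_right _ _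
    gcongr
  calc Wc x * (Wc x ^ 2 * s ^ 2 * (1 / 2 + 36 / 125 * max (ga x s) 0) *
        Real.exp (-(μ * (Qf x y / δ) * s ^ 2))) ≤
      Wc x * (Wc x ^ 2 * (9 / 4) * (1 / 2 + 36 / 125 * 1) *
        Real.exp (-(μ * (Qf x y / δ) * s ^ 2))) := by gcongr
    _ = Wc x ^ 2 * (1773 / 1000) * Wc x * Real.exp (-(μ * (Qf x y / δ) * s ^ 2)) := by ring

theorem HypH.O2 : ∫ s in Ioo (-(3 / 2)) (3 / 2) \ Ioo (-1 : ℝ) 1,
    ‖gi (1 + x)⁻¹ (1 + x) (fun σ => σ * gs σ) (((x : ℂ) + y * I) / δ) 0 (-((δ : ℂ) * I)) s‖ ≤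
      (Wc x ^ 3 * (5319 / 2000)) *
        (Wc x * (Real.exp (-(μ * (Qf x y / δ))) / (μ * (Qf x y / δ)))) := by
  have hB := h.hB
  have hμ := h.hμ
  have hW := Wc_pos x
  have h0 := outer_bound (h := fun s => ‖gi (1 + x)⁻¹ (1 + x) (fun σ => σ * gs σ)
    (((x : ℂ) + y * I) / δ) 0 (-((δ : ℂ) * I)) s‖) (C := Wc x ^ 3 * (5319 / 2000) * Wc x)
    (ν := μ * (Qf x y / δ))
    (h.int wt_mul_gs).norm.integrableOn (by positivity) (by positivity)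
    fun s h1 h2 => ?_
  · refine h0.trans (le_of_eq ?_)
    ring
  have h3 := norm_gi_le' h.hx h.hδ (fun σ => σ * gs σ) s (norm_hgs h.hx s) (h.O h1 h2)
  refine h3.trans ?_
  have h4 := max_ga_one x s
  have h5 : |s| ^ 3 ≤ (3 / 2) ^ 3 := pow_le_pow_left₀ (abs_nonneg _) h2.le 3
  have h6 : Wc x ^ 3 * |s| ^ 3 * (1 / 2 + 36 / 125 * max (ga x s) 0) ≤
      Wc x ^ 3 * (3 / 2) ^ 3 * (1 / 2 + 36 / 125 * 1) := by
    have h7 : 0 ≤ max (ga x s) 0 := le_max_right _ _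
    gcongr
  calc Wc x * (Wc x ^ 3 * |s| ^ 3 * (1 / 2 + 36 / 125 * max (ga x s) 0) *
        Real.exp (-(μ * (Qf x y / δ) * s ^ 2))) ≤
      Wc x * (Wc x ^ 3 * (3 / 2) ^ 3 * (1 / 2 + 36 / 125 * 1) *
        Real.exp (-(μ * (Qf x y / δ) * s ^ 2))) := by gcongr
    _ = Wc x ^ 3 * (5319 / 2000) * Wc x * Real.exp (-(μ * (Qf x y / δ) * s ^ 2)) := by ring

end

end SokalF1B
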