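import Pool.Agent.Lib_MP_af4de1_f1.GLem

/-!
# Structural constants of LEMMA MAIN, `y ≥ 0`

`K = √(x² + y²)`, `D = √((1+y)² + x²)`, `c = 1/(1+x)`, `Qf x y` the coefficient of `s²` (GLem.lean).
No condition on `x` besides `x ≥ 0`.
-/

set_option autoImplicit false

namespace SokalF1B

open Real SokalF1G

/-! ### Bernstein certificates -/

private theorem s1c_la_c {p q u v : ℝ} (hp : 0 ≤ p) (hq : 0 ≤ q) (hu : 0 ≤ u) (hv : 0 ≤ v) :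
    0 ≤ (404 / 81) * q ^ 6 * v ^ 2 +
      (808 / 81) * q ^ 6 * u * v +
      (404 / 81) * q ^ 6 * u ^ 2 +
      (2020 / 81) * p * q ^ 5 * v ^ 2 +
      (4040 / 81) * p * q ^ 5 * u * v +
      (2020 / 81) * p * q ^ 5 * u ^ 2 +
      (1843 / 81) * p ^ 2 * q ^ 4 * v ^ 2 +
      (189422 / 2025) * p ^ 2 * q ^ 4 * u * v +
      (110947 / 2025) * p ^ 2 * q ^ 4 * u ^ 2 +
      (28 / 9) * p ^ 3 * q ^ 3 * v ^ 2 +
      (34228 / 225) * p ^ 3 * q ^ 3 * u * v +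
      (6376 / 75) * p ^ 3 * q ^ 3 * u ^ 2 +
      (251 / 324) * p ^ 4 * q ^ 2 * v ^ 2 +
      (615359 / 4050) * p ^ 4 * q ^ 2 * u * v +
      (12921971 / 202500) * p ^ 4 * q ^ 2 * u ^ 2 +
      (1363 / 324) * p ^ 5 * q * v ^ 2 +
      (12181 / 162) * p ^ 5 * q * u * v +
      (4916167 / 202500) * p ^ 5 * q * u ^ 2 +
      (2449 / 1296) * p ^ 6 * v ^ 2 +
      (247129 / 16200) * p ^ 6 * u * v +
      (4059409 / 810000) * p ^ 6 * u ^ 2 := by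
  positivity

private theorem s1c_la {c y : ℝ} (h1 : 0 ≤ c) (h2 : c ≤ 1 / 2) (h3 : 0 ≤ y) (h4 : y ≤ 18 / 25) :
    0 ≤ (51 / 25) ^ 2 * (c ^ 2 * (1 + y) + (1 - c) ^ 2 * (1 + c) / 2) ^ 2 -
      (1 + c ^ 2) ^ 2 * (c ^ 2 * (1 + y) ^ 2 + (1 - c) ^ 2) := by
  have h := s1c_la_c (sub_nonneg.2 h1) (sub_nonneg.2 h2) (sub_nonneg.2 h3) (sub_nonneg.2 h4)
  refine le_of_le_of_eq h ?_
  ring

private theorem s1c_lb_c {p q u v : ℝ} (hp : 0 ≤ p) (hq : 0 ≤ q) (hu : 0 ≤ u) (hv : 0 ≤ v) :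
    0 ≤ (2449 / 1296) * q ^ 6 * v ^ 2 +
      (247129 / 16200) * q ^ 6 * u * v +
      (4059409 / 810000) * q ^ 6 * u ^ 2 +
      (1496 / 81) * p * q ^ 5 * v ^ 2 +
      (218431 / 2025) * p * q ^ 5 * u * v +
      (363103 / 10125) * p * q ^ 5 * u ^ 2 +
      (5839 / 81) * p ^ 2 * q ^ 4 * v ^ 2 +
      (638522 / 2025) * p ^ 2 * q ^ 4 * u * v +
      (6162859 / 50625) * p ^ 2 * q ^ 4 * u ^ 2 +
      (11110 / 81) * p ^ 3 * q ^ 3 * v ^ 2 +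
      (1005464 / 2025) * p ^ 3 * q ^ 3 * u * v +
      (12972562 / 50625) * p ^ 3 * q ^ 3 * u ^ 2 +
      (11312 / 81) * p ^ 4 * q ^ 2 * v ^ 2 +
      (958288 / 2025) * p ^ 4 * q ^ 2 * u * v +
      (17050496 / 50625) * p ^ 4 * q ^ 2 * u ^ 2 +
      (6464 / 81) * p ^ 5 * q * v ^ 2 +
      (555904 / 2025) * p ^ 5 * q * u * v +
      (11951936 / 50625) * p ^ 5 * q * u ^ 2 +
      (1616 / 81) * p ^ 6 * v ^ 2 +
      (138976 / 2025) * p ^ 6 * u * v +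
      (2987984 / 50625) * p ^ 6 * u ^ 2 := by
  positivity

private theorem s1c_lb {c y : ℝ} (h1 : 1 / 2 ≤ c) (h2 : c ≤ 1) (h3 : 0 ≤ y) (h4 : y ≤ 18 / 25) :
    0 ≤ (51 / 25) ^ 2 * (c ^ 2 * (1 + y) + (1 - c) ^ 2 * (1 + c) / 2) ^ 2 -
      (1 + c ^ 2) ^ 2 * (c ^ 2 * (1 + y) ^ 2 + (1 - c) ^ 2) := by
  have h := s1c_lb_c (sub_nonneg.2 h1) (sub_nonneg.2 h2) (sub_nonneg.2 h3) (sub_nonneg.2 h4)
  refine le_of_le_of_eq h ?_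
  ring

private theorem s1c_g_c {p q u v : ℝ} (hp : 0 ≤ p) (hq : 0 ≤ q) (hu : 0 ≤ u) (hv : 0 ≤ v) :
    0 ≤ (25 / 64) * q ^ 8 * v ^ 2 +
      (25 / 32) * q ^ 8 * u * v +
      (25 / 64) * q ^ 8 * u ^ 2 +
      (75 / 32) * p * q ^ 7 * v ^ 2 +
      (75 / 16) * p * q ^ 7 * u * v +
      (75 / 32) * p * q ^ 7 * u ^ 2 +
      (425 / 64) * p ^ 2 * q ^ 6 * v ^ 2 +
      (461 / 32) * p ^ 2 * q ^ 6 * u * v +
      (497 / 64) * p ^ 2 * q ^ 6 * u ^ 2 +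
      (25 / 2) * p ^ 3 * q ^ 5 * v ^ 2 +
      (245 / 8) * p ^ 3 * q ^ 5 * u * v +
      (145 / 8) * p ^ 3 * q ^ 5 * u ^ 2 +
      (5833 / 648) * p ^ 4 * q ^ 4 * v ^ 2 +
      (19685 / 648) * p ^ 4 * q ^ 4 * u * v +
      (179711 / 8100) * p ^ 4 * q ^ 4 * u ^ 2 +
      (1057 / 1296) * p ^ 5 * q ^ 3 * v ^ 2 +
      (1499 / 81) * p ^ 5 * q ^ 3 * u * v +
      (678151 / 32400) * p ^ 5 * q ^ 3 * u ^ 2 +
      (5591 / 1296) * p ^ 6 * q ^ 2 * v ^ 2 +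
      (15797 / 648) * p ^ 6 * q ^ 2 * u * v +
      (16751159 / 810000) * p ^ 6 * q ^ 2 * u ^ 2 +
      (25 / 4) * p ^ 7 * q * v ^ 2 +
      (43 / 2) * p ^ 7 * q * u * v +
      (25007 / 2500) * p ^ 7 * q * u ^ 2 +
      (25 / 16) * p ^ 8 * v ^ 2 +
      (43 / 8) * p ^ 8 * u * v +
      (3789 / 10000) * p ^ 8 * u ^ 2 := by
  positivity

private theorem s1c_g {c y : ℝ} (h1 : 0 ≤ c) (h2 : c ≤ 1) (h3 : 0 ≤ y) (h4 : y ≤ 18 / 25) :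
    0 ≤ (9 / 10) ^ 2 * (c ^ 2 * (1 + y) + (1 - c) ^ 2 * (1 + c) / 2) ^ 2 -
      (103 / 50) ^ 2 * (c ^ 4 * ((1 - c) ^ 2 + c ^ 2 * y ^ 2)) := by
  have h := s1c_g_c (sub_nonneg.2 h1) (sub_nonneg.2 h2) (sub_nonneg.2 h3) (sub_nonneg.2 h4)
  refine le_of_le_of_eq h ?_
  ring

private theorem s1c_b_c {p q u v : ℝ} (hp : 0 ≤ p) (hq : 0 ≤ q) (hu : 0 ≤ u) (hv : 0 ≤ v) :
    0 ≤ (8189 / 5184) * q ^ 6 * v ^ 2 +
      (8189 / 2592) * q ^ 6 * u * v +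
      (8189 / 5184) * q ^ 6 * u ^ 2 +
      (8189 / 1296) * p * q ^ 5 * v ^ 2 +
      (8189 / 648) * p * q ^ 5 * u * v +
      (8189 / 1296) * p * q ^ 5 * u ^ 2 +
      (3133 / 108) * p ^ 2 * q ^ 4 * v ^ 2 +
      (18607 / 216) * p ^ 2 * q ^ 4 * u * v +
      (7140239 / 135000) * p ^ 2 * q ^ 4 * u ^ 2 +
      (109439 / 1296) * p ^ 3 * q ^ 3 * v ^ 2 +
      (82057 / 324) * p ^ 3 * q ^ 3 * u * v +
      (122993861 / 810000) * p ^ 3 * q ^ 3 * u ^ 2 +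
      (70633 / 648) * p ^ 4 * q ^ 2 * v ^ 2 +
      (107083 / 324) * p ^ 4 * q ^ 2 * u * v +
      (87597427 / 405000) * p ^ 4 * q ^ 2 * u ^ 2 +
      (625 / 8) * p ^ 5 * q * v ^ 2 +
      (1075 / 4) * p ^ 5 * q * u * v +
      (1070753 / 5000) * p ^ 5 * q * u ^ 2 +
      (625 / 16) * p ^ 6 * v ^ 2 +
      (1075 / 8) * p ^ 6 * u * v +
      (1113189 / 10000) * p ^ 6 * u ^ 2 := by
  positivity

private theorem s1c_b {c y : ℝ} (h1 : 0 ≤ c) (h2 : c ≤ 1) (h3 : 0 ≤ y) (h4 : y ≤ 18 / 25) :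
    0 ≤ (9 / 2) ^ 2 * (c ^ 2 * (1 + y) + (1 - c) ^ 2 * (1 + c) / 2) ^ 2 -
      (103 / 50) ^ 2 * ((1 - c) ^ 2 + c ^ 2 * y ^ 2) := by
  have h := s1c_b_c (sub_nonneg.2 h1) (sub_nonneg.2 h2) (sub_nonneg.2 h3) (sub_nonneg.2 h4)
  refine le_of_le_of_eq h ?_
  ring

/-! ### Reduction to `c` -/

private theorem s1q {x y c : ℝ} (hx : 0 ≤ x) (hc : c = 1 / (1 + x)) :
    c * Qf x y = c ^ 2 * (1 + y) + (1 - c) ^ 2 * (1 + c) / 2 := by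
  obtain ⟨-, -, h3⟩ := c_facts hx
  rw [← hc] at h3
  have hq : Qf x y = (1 + y) * c + x * (1 - c ^ 2) / 2 := by
    unfold Qf
    rw [hc]
    ring
  rw [hq]
  linear_combination ((1 - c ^ 2) / 2) * h3

private theorem s1exp0 : exp (18 / 25) ≤ 103 / 50 := by
  have h1 : exp 1 < 27182818286 / 10000000000 := by
    have := Real.exp_one_lt_d9
    norm_num at this ⊢
    exact this
  have h2 : exp (18 / 25) ^ 25 = exp 1 ^ 18 := by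
    rw [← Real.exp_nat_mul, ← Real.exp_nat_mul]
    norm_num
  have h3 : exp (18 / 25) ^ 25 ≤ (103 / 50) ^ 25 := by
    rw [h2]
    refine (pow_le_pow_left₀ (exp_pos 1).le h1.le 18).trans ?_
    norm_num
  exact le_of_pow_le_pow_left₀ (by norm_num) (by norm_num) h3

private theorem s1exp {y : ℝ} (hy1 : y ≤ 18 / 25) : exp y ≤ 103 / 50 :=
  (exp_le_exp.mpr hy1).trans s1exp0

private theorem s1exp2 {y : ℝ} (hy : 0 ≤ y) (hy1 : y ≤ 18 / 25) : exp y ≤ 6 / 5 * (1 + y) := by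
  have ha : 0 ≤ 1 - y / (18 / 25) := by
    rw [sub_nonneg, div_le_one (by norm_num)]
    exact hy1
  have hb : 0 ≤ y / (18 / 25) := by positivity
  have h2 := convexOn_exp.2 (Set.mem_univ 0) (Set.mem_univ (18 / 25)) ha hb (by ring)
  simp only [smul_eq_mul, Real.exp_zero, mul_zero, mul_one, zero_add] at h2
  have h3 : y / (18 / 25) * (18 / 25) = y := by field_simp
  rw [h3] at h2
  have h4 : y / (18 / 25) * exp (18 / 25) ≤ y / (18 / 25) * (103 / 50) :=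
    mul_le_mul_of_nonneg_left s1exp0 hb
  have h5 : 1 - y / (18 / 25) + y / (18 / 25) * (103 / 50) ≤ 6 / 5 * (1 + y) := by
    have h6 : 1 - y / (18 / 25) + y / (18 / 25) * (103 / 50) = 1 + 53 / 36 * y := by ring
    rw [h6]
    linarith
  linarith

private theorem s1Q0 {x y c : ℝ} (hx : 0 ≤ x) (hy : 0 ≤ y) (hc : c = 1 / (1 + x)) :
    0 ≤ Qf x y := by
  obtain ⟨h1, h2, h3⟩ := c_facts hx
  rw [← hc] at h1 h2 h3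
  have h4 : 0 ≤ c * Qf x y := by
    rw [s1q hx hc]
    positivity
  exact nonneg_of_mul_nonneg_right h4 h1

/-- steepness; true supremum `1.0164` -/
theorem s1_l {x y : ℝ} (hx : 0 ≤ x) (hy : 0 ≤ y) (hy1 : y ≤ 18 / 25) :
    (1 + (1 / (1 + x)) ^ 2) * √((1 + y) ^ 2 + x ^ 2) ≤ 2 * (51 / 50) * Qf x y := by
  obtain ⟨c, hc⟩ : ∃ c, c = 1 / (1 + x) := ⟨_, rfl⟩
  obtain ⟨h1, h2, h3⟩ := c_facts hx
  rw [← hc] at h1 h2 h3 ⊢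
  have hQ := s1q (y := y) hx hc
  have hQ0 := s1Q0 hx hy hc
  have hP : 0 ≤ (51 / 25) ^ 2 * (c ^ 2 * (1 + y) + (1 - c) ^ 2 * (1 + c) / 2) ^ 2 -
      (1 + c ^ 2) ^ 2 * (c ^ 2 * (1 + y) ^ 2 + (1 - c) ^ 2) := by
    rcases le_total c (1 / 2) with h | h
    · exact s1c_la h1.le h hy hy1
    · exact s1c_lb h h2 hy hy1
  refine (abs_le_of_sq_le_sq' ?_ (by positivity)).2
  have hc2 : 0 < c ^ 2 := by positivity
  refine le_of_mul_le_mul_left ?_ hc2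
  have e1 : c ^ 2 * ((1 + c ^ 2) * √((1 + y) ^ 2 + x ^ 2)) ^ 2 =
      (1 + c ^ 2) ^ 2 * (c ^ 2 * (1 + y) ^ 2 + (1 - c) ^ 2) := by
    rw [mul_pow, Real.sq_sqrt (by positivity), ← h3]
    ring
  have e2 : c ^ 2 * (2 * (51 / 50) * Qf x y) ^ 2 =
      (51 / 25) ^ 2 * (c ^ 2 * (1 + y) + (1 - c) ^ 2 * (1 + c) / 2) ^ 2 := by
    rw [← hQ]
    ring
  rw [e1, e2]
  linarith

theorem s1_mu {x y : ℝ} (hx : 0 ≤ x) (hy : 0 ≤ y) (hy1 : y ≤ 18 / 25) :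
    √(x ^ 2 + y ^ 2) ^ 3 * exp y ≤ 103 / 50 * √((1 + y) ^ 2 + x ^ 2) ^ 3 := by
  have h1 : √(x ^ 2 + y ^ 2) ≤ √((1 + y) ^ 2 + x ^ 2) := Real.sqrt_le_sqrt (by nlinarith)
  have h2 : √(x ^ 2 + y ^ 2) ^ 3 ≤ √((1 + y) ^ 2 + x ^ 2) ^ 3 :=
    pow_le_pow_left₀ (Real.sqrt_nonneg _) h1 3
  calc √(x ^ 2 + y ^ 2) ^ 3 * exp y ≤ √((1 + y) ^ 2 + x ^ 2) ^ 3 * (103 / 50) :=
        mul_le_mul h2 (s1exp hy1) (exp_pos y).le (by positivity)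
    _ = 103 / 50 * √((1 + y) ^ 2 + x ^ 2) ^ 3 := mul_comm _ _

/-- true supremum `.385` -/
theorem s1_nu {x y : ℝ} (hx : 0 ≤ x) (hy : 0 ≤ y) (hy1 : y ≤ 18 / 25) :
    √(x ^ 2 + y ^ 2) * exp y ≤ 3 / 5 * √((1 + y) ^ 2 + x ^ 2) ^ 3 := by
  have hkd : 2 * √(x ^ 2 + y ^ 2) ≤ (1 + y) ^ 2 + x ^ 2 := by
    refine (abs_le_of_sq_le_sq' ?_ (by positivity)).2
    rw [mul_pow, Real.sq_sqrt (by positivity)]
    nlinarith [sq_nonneg (x ^ 2 - (2 - (1 + y) ^ 2)), hy]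
  have hD2 : √((1 + y) ^ 2 + x ^ 2) ^ 2 = (1 + y) ^ 2 + x ^ 2 := Real.sq_sqrt (by positivity)
  have hYD : 1 + y ≤ √((1 + y) ^ 2 + x ^ 2) := Real.le_sqrt_of_sq_le (by nlinarith)
  have hK0 : 0 ≤ √(x ^ 2 + y ^ 2) := Real.sqrt_nonneg _
  have he := s1exp2 hy hy1
  calc √(x ^ 2 + y ^ 2) * exp y ≤ √(x ^ 2 + y ^ 2) * (6 / 5 * (1 + y)) :=
        mul_le_mul_of_nonneg_left he hK0
    _ = 3 / 5 * ((2 * √(x ^ 2 + y ^ 2)) * (1 + y)) := by ring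
    _ ≤ 3 / 5 * (((1 + y) ^ 2 + x ^ 2) * √((1 + y) ^ 2 + x ^ 2)) :=
        mul_le_mul_of_nonneg_left (mul_le_mul hkd hYD (by linarith) (by positivity)) (by norm_num)
    _ = 3 / 5 * √((1 + y) ^ 2 + x ^ 2) ^ 3 := by
        rw [pow_succ (√((1 + y) ^ 2 + x ^ 2)) 2, hD2]

theorem s1_kd {x y : ℝ} (hx : 0 ≤ x) (hy : 0 ≤ y) (hy1 : y ≤ 18 / 25) :
    2 * √(x ^ 2 + y ^ 2) ≤ (1 + y) ^ 2 + x ^ 2 := by
  refine (abs_le_of_sq_le_sq' ?_ (by positivity)).2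
  rw [mul_pow, Real.sq_sqrt (by positivity)]
  nlinarith [sq_nonneg (x ^ 2 - (2 - (1 + y) ^ 2)), hy]

/-- true supremum `.86` -/
theorem s1_gam {x y : ℝ} (hx : 0 ≤ x) (hy : 0 ≤ y) (hy1 : y ≤ 18 / 25) :
    (1 / (1 + x)) ^ 2 * (√(x ^ 2 + y ^ 2) * exp y) ≤ 9 / 10 * Qf x y := by
  obtain ⟨c, hc⟩ : ∃ c, c = 1 / (1 + x) := ⟨_, rfl⟩
  obtain ⟨h1, h2, h3⟩ := c_facts hx
  rw [← hc] at h1 h2 h3 ⊢
  have hQ := s1q (y := y) hx hc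
  have hQ0 := s1Q0 hx hy hc
  have hP := s1c_g h1.le h2 hy hy1
  have hK0 : 0 ≤ √(x ^ 2 + y ^ 2) := Real.sqrt_nonneg _
  have hs : c ^ 2 * (√(x ^ 2 + y ^ 2) * exp y) ≤ c ^ 2 * (√(x ^ 2 + y ^ 2) * (103 / 50)) :=
    mul_le_mul_of_nonneg_left (mul_le_mul_of_nonneg_left (s1exp hy1) hK0) (by positivity)
  refine hs.trans ?_
  refine (abs_le_of_sq_le_sq' ?_ (by positivity)).2
  have hc2 : 0 < c ^ 2 := by positivity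
  refine le_of_mul_le_mul_left ?_ hc2
  have e1 : c ^ 2 * (c ^ 2 * (√(x ^ 2 + y ^ 2) * (103 / 50))) ^ 2 =
      (103 / 50) ^ 2 * (c ^ 4 * ((1 - c) ^ 2 + c ^ 2 * y ^ 2)) := by
    rw [mul_pow, mul_pow, Real.sq_sqrt (by positivity), ← h3]
    ring
  have e2 : c ^ 2 * (9 / 10 * Qf x y) ^ 2 =
      (9 / 10) ^ 2 * (c ^ 2 * (1 + y) + (1 - c) ^ 2 * (1 + c) / 2) ^ 2 := by
    rw [← hQ]
    ring
  rw [e1, e2]
  linarith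

/-- true supremum `4.11` -/
theorem s1_B {x y : ℝ} (hx : 0 ≤ x) (hy : 0 ≤ y) (hy1 : y ≤ 18 / 25) :
    √(x ^ 2 + y ^ 2) * exp y ≤ 9 / 2 * Qf x y := by
  obtain ⟨c, hc⟩ : ∃ c, c = 1 / (1 + x) := ⟨_, rfl⟩
  obtain ⟨h1, h2, h3⟩ := c_facts hx
  rw [← hc] at h1 h2 h3
  have hQ := s1q (y := y) hx hc
  have hQ0 := s1Q0 hx hy hc
  have hP := s1c_b h1.le h2 hy hy1
  have hK0 : 0 ≤ √(x ^ 2 + y ^ 2) := Real.sqrt_nonneg _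
  refine (mul_le_mul_of_nonneg_left (s1exp hy1) hK0).trans ?_
  refine (abs_le_of_sq_le_sq' ?_ (by positivity)).2
  have hc2 : 0 < c ^ 2 := by positivity
  refine le_of_mul_le_mul_left ?_ hc2
  have e1 : c ^ 2 * (√(x ^ 2 + y ^ 2) * (103 / 50)) ^ 2 =
      (103 / 50) ^ 2 * ((1 - c) ^ 2 + c ^ 2 * y ^ 2) := by
    rw [mul_pow, Real.sq_sqrt (by positivity), ← h3]
    ring
  have e2 : c ^ 2 * (9 / 2 * Qf x y) ^ 2 =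
      (9 / 2) ^ 2 * (c ^ 2 * (1 + y) + (1 - c) ^ 2 * (1 + c) / 2) ^ 2 := by
    rw [← hQ]
    ring
  rw [e1, e2]
  linarith

end SokalF1B
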