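import Pool.Agent.Lib_MP_af4de1_f1.MainB6

/-!
# LEMMA MAIN: the numbers for `y ≤ 0`
-/

set_option autoImplicit false

open Complex MeasureTheory Set SokalU SokalPG SokalF1G SokalF1M

namespace SokalF1B

/-- The structural facts which are used for `y ≤ 0`. -/
structure NegF (x y : ℝ) : Prop where
  x0 : 0 ≤ x
  y0 : -(3 / 4) ≤ y
  y1 : y ≤ 0
  T : -(41 / 20) * x ≤ y
  D2 : 17 / 50 ≤ (1 + y) ^ 2 + x ^ 2
  l : (1 + (1 / (1 + x)) ^ 2) * √((1 + y) ^ 2 + x ^ 2) ≤ 2 * (129 / 100) * Qf x y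
  mu : √(x ^ 2 + y ^ 2) ^ 3 * Real.exp y ≤ 6 / 5 * √((1 + y) ^ 2 + x ^ 2) ^ 3
  nu : √(x ^ 2 + y ^ 2) * Real.exp y ≤ 2 * √((1 + y) ^ 2 + x ^ 2) ^ 3
  gam : (1 / (1 + x)) ^ 2 * (√(x ^ 2 + y ^ 2) * Real.exp y) ≤ 3 / 5 * Qf x y
  B : √(x ^ 2 + y ^ 2) * Real.exp y ≤ 21 / 10 * Qf x y

section

variable {x y δ r : ℝ}

theorem NegF.q (h : NegF x y) : 0 < Qf x y := by
  have hx := h.x0
  have h0 := h.y0
  have h2 : 1 / (1 + x) ≤ 1 := by
    rw [div_le_one (by linarith)]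
    linarith
  have h3 : 0 ≤ 1 / (1 + x) := by positivity
  have h1 : (1 / (1 + x)) ^ 2 ≤ 1 := by nlinarith
  have h4 : 0 < (1 + y) / (1 + x) := div_pos (by linarith) (by linarith)
  have h5 : 0 ≤ x * (1 - (1 / (1 + x)) ^ 2) / 2 := by
    have : 0 ≤ 1 - (1 / (1 + x)) ^ 2 := by linarith
    positivity
  unfold Qf
  linarith

theorem NegF.hB (h : NegF x y) (hδ : 0 < δ) (hr : 499 / 10 ≤ r)
    (hrd : r * δ = √(x ^ 2 + y ^ 2) * Real.exp y) : 23 ≤ Qf x y / δ := by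
  have hdl := dl hr hδ hrd
  rw [le_div_iff₀ hδ]
  have h1 := h.B
  have hq := h.q
  linarith

/-- `HypH` for `y ≤ 0`. -/
theorem NegF.hyp (h : NegF x y) (hδ : 0 < δ) (hr : 499 / 10 ≤ r)
    (hrd : r * δ = √(x ^ 2 + y ^ 2) * Real.exp y) :
    HypH x y δ (9 / 10) (19 / 50) (83 / 100) (123 / 100)
      (fun s => (1 - 14 / 25 * s + s ^ 2 / 10) * s ^ 2) := by
  have hD : DomG x y := ⟨h.x0, by linarith [h.y0], by linarith [h.y1], h.D2⟩
  have hq := h.q
  have hB := h.hB hδ hr hrd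
  have hy := h.y1
  have hy0 := h.y0
  refine ⟨h.x0, hδ, ?_, hq, by norm_num, by norm_num, ?_, ?_, by fun_prop, ?_, left_j2 hB,
    left_j3 hB⟩
  · rw [abs_of_nonpos hy]
    linarith
  · intro s h0 h1
    exact G1_negT hD hy h.T h0 h1
  · intro s h0 h1
    refine le_trans (le_of_eq ?_) (G3_neg hD hy (s := -s) (by linarith) (by linarith))
    ring
  · intro s h0 h1
    rcases le_total 0 s with h' | h'
    · rw [abs_of_nonneg h'] at h0 h1
      refine le_trans ?_ (G2 hD h0 h1.le)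
      have := mul_nonneg hq.le (sq_nonneg s)
      nlinarith
    · rw [abs_of_nonpos h'] at h0 h1
      refine le_trans ?_ (G3_neg hD hy (by linarith) h')
      have h2 : 19 / 50 ≤ 1 + 14 / 25 * s + s ^ 2 / 10 := by nlinarith
      gcongr

theorem NegF.num (h : NegF x y) (hδ : 0 < δ) (hr : 499 / 10 ≤ r)
    (hrd : r * δ = √(x ^ 2 + y ^ 2) * Real.exp y) :
    Num x y δ (9 / 10) (19 / 50) (83 / 100) (123 / 100) (129 / 100) (6 / 499) (12 / 499)
      (20 / 499) (583 / 1000) 23 (13 / 10000) (1004 / 10000) (4291 / 10000) (323 / 10000)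
      (6862 / 10000) (507 / 1000) := by
  have hdl := dl hr hδ hrd
  have hq := h.q
  have hp : (31415 / 10000 : ℝ) ≤ Real.pi := by
    have := Real.pi_gt_d4
    norm_num at this ⊢
    linarith
  have hc : (1 + x)⁻¹ = 1 / (1 + x) := by rw [one_div]
  have hB := h.hB hδ hr hrd
  refine ⟨by norm_num, by norm_num, by norm_num, by norm_num, by norm_num, by norm_num,
    by norm_num, by norm_num, by norm_num, by norm_num, by norm_num, by norm_num,
    ?_, ?_, ?_, ?_, ?_, hB, ?_, ?_, ?_, ?_, ?_, ?_, ?_⟩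
  · rw [Wc_sq, hc]
    exact h.l
  · rw [hc]
    have h1 := h.gam
    have h2 := mul_le_mul_of_nonneg_left hdl (sq_nonneg (1 / (1 + x)))
    calc (1 / (1 + x)) ^ 2 * δ ≤ (1 / (1 + x)) ^ 2 * (√(x ^ 2 + y ^ 2) * Real.exp y / (499 / 10)) := h2
      _ = (1 / (1 + x)) ^ 2 * (√(x ^ 2 + y ^ 2) * Real.exp y) / (499 / 10) := by ring
      _ ≤ 3 / 5 * Qf x y / (499 / 10) := by gcongr
      _ = 6 / 499 * Qf x y := by ring
  · rw [norm_K]
    have h1 := h.mu
    have h2 := mul_le_mul_of_nonneg_left hdl (sq_nonneg (√(x ^ 2 + y ^ 2)))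
    calc √(x ^ 2 + y ^ 2) ^ 2 * δ ≤
        √(x ^ 2 + y ^ 2) ^ 2 * (√(x ^ 2 + y ^ 2) * Real.exp y / (499 / 10)) := h2
      _ = √(x ^ 2 + y ^ 2) ^ 3 * Real.exp y / (499 / 10) := by ring
      _ ≤ 6 / 5 * √((1 + y) ^ 2 + x ^ 2) ^ 3 / (499 / 10) := by gcongr
      _ = 12 / 499 * Dn x y ^ 3 := by unfold Dn; ring
  · have h1 := h.nu
    calc δ ≤ √(x ^ 2 + y ^ 2) * Real.exp y / (499 / 10) := hdl
      _ ≤ 2 * √((1 + y) ^ 2 + x ^ 2) ^ 3 / (499 / 10) := by gcongr
      _ = 20 / 499 * Dn x y ^ 3 := by unfold Dn; ring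
  · unfold Dn
    apply Real.le_sqrt_of_sq_le
    have := h.D2
    norm_num
    linarith
  · norm_num
    linarith
  · norm_num
  · norm_num
    linarith
  · norm_num
    linarith
  · norm_num
    linarith
  · have h1 := mul_exp_mono (B := Qf x y / δ) (b := 23) (c := 19 / 25) (a := 23) (by norm_num) hB
      (by norm_num)
    have h2 : 23 * Real.exp (-1) * Real.exp (-((19 / 25 - 1 / 23) * 23)) =
        23 * (Real.exp (-((17 : ℕ) : ℝ)) * Real.exp (-(12 / 25))) := by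
      rw [mul_assoc, ← Real.exp_add, ← Real.exp_add]
      norm_num
    have h3 := exp_neg_nat_le (n := 17) (a := (2718 / 1000 : ℝ) ^ 17) (by norm_num) le_rfl
    have h5 : Real.exp (-(12 / 25)) ≤ 1 / (161 / 100) := by
      rw [Real.exp_neg, ← one_div]
      refine one_div_le_one_div_of_le (by norm_num) ?_
      have := Real.quadratic_le_exp_of_nonneg (x := 12 / 25) (by norm_num)
      have h6 := Real.sum_le_exp_of_nonneg (x := 12 / 25) (by norm_num) 4
      refine le_trans ?_ h6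
      simp [Finset.sum_range_succ, Nat.factorial]
      norm_num
    have h7 : Real.exp (-((17 : ℕ) : ℝ)) * Real.exp (-(12 / 25)) ≤
        1 / (2718 / 1000 : ℝ) ^ 17 * (1 / (161 / 100)) :=
      mul_le_mul h3 h5 (Real.exp_pos _).le (by positivity)
    rw [h2] at h1
    have h4 : Real.exp (-(2 * (19 / 50 * (Qf x y / δ)))) =
        Real.exp (-(19 / 25 * (Qf x y / δ))) := by
      congr 1
      ring
    rw [h4, mul_assoc]
    calc 129 / 100 * (Qf x y / δ * Real.exp (-(19 / 25 * (Qf x y / δ)))) ≤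
          129 / 100 * (23 * (1 / (2718 / 1000 : ℝ) ^ 17 * (1 / (161 / 100)))) := by
          refine mul_le_mul_of_nonneg_left (h1.trans ?_) (by norm_num)
          linarith
      _ ≤ 31415 / 10000 * (13 / 10000) ^ 2 * (19 / 50) ^ 2 := by norm_num
      _ ≤ Real.pi * (13 / 10000) ^ 2 * (19 / 50) ^ 2 := by gcongr
  · have h1 := mul_exp_mono (B := Qf x y / δ) (b := 23) (c := 2) (a := 23) (by norm_num) hB
      (by norm_num)
    have h2 : 23 * Real.exp (-1) * Real.exp (-((2 - 1 / 23) * 23)) =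
        23 * Real.exp (-((46 : ℕ) : ℝ)) := by
      rw [mul_assoc, ← Real.exp_add]
      norm_num
    have h3 := exp_neg_nat_le (n := 46) (a := (2718 / 1000 : ℝ) ^ 22) (by norm_num)
      (pow_le_pow_right₀ (by norm_num) (by norm_num))
    rw [h2] at h1
    have h4 : Real.exp (-(2 * (1 * (Qf x y / δ)))) = Real.exp (-(2 * (Qf x y / δ))) := by
      congr 1
      ring
    rw [h4, mul_assoc]
    calc 129 / 100 * (Qf x y / δ * Real.exp (-(2 * (Qf x y / δ)))) ≤
          129 / 100 * (23 * (1 / (2718 / 1000 : ℝ) ^ 22)) := by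
          refine mul_le_mul_of_nonneg_left (h1.trans ?_) (by norm_num)
          linarith
      _ ≤ 31415 / 10000 * (1 / 1000) ^ 2 * 1 ^ 2 := by norm_num
      _ ≤ Real.pi * (1 / 1000) ^ 2 * 1 ^ 2 := by gcongr

end

end SokalF1B
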