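import Pool.Agent.Lib_MP_af4de1_u.Defs

/-!
# The saddle point on `|q| = 1` in the `y`-parametrisation

`t = -i δ`, `ρ = δ r`, `K = δ κ = x + i y`, `κ` the saddle point of `E t` at the point `zp t κ = r exp(i (η - ρ + δ/2))`.
Everything is an explicit function of `y`: `x = sx ρ y = √(ρ² e^(-2y) - y²)`, `ψ = arg K = sP ρ y = arcsin (y e^y/ρ)`,
`η = sE ρ y = ψ + ρ - x`.
-/

set_option autoImplicit false

open Complex Set Filter Topology

namespace SokalF1S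

/-- real part of `K` -/
noncomputable def sx (ρ y : ℝ) : ℝ := √(ρ ^ 2 * Real.exp (-2 * y) - y ^ 2)

/-- argument of `K` -/
noncomputable def sP (ρ y : ℝ) : ℝ := Real.arcsin (y * Real.exp y / ρ)

/-- the centred angle `η` -/
noncomputable def sE (ρ y : ℝ) : ℝ := sP ρ y + ρ - sx ρ y

/-- `K` -/
noncomputable def sK (ρ y : ℝ) : ℂ := sx ρ y + y * I

/-- `|1 - i K|²` -/
noncomputable def sD2 (ρ y : ℝ) : ℝ := (1 + y) ^ 2 + sx ρ y ^ 2

/-- closed domain: `ρ > 0`, `|y| e^y ≤ ρ` -/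
def Dom (ρ y : ℝ) : Prop := 0 < ρ ∧ |y| * Real.exp y ≤ ρ

theorem Dom.pos {ρ y : ℝ} (h : Dom ρ y) : 0 < ρ := h.1

theorem abs_mul_exp_eq (ρ y : ℝ) : |y * Real.exp y / ρ| = |y| * Real.exp y / |ρ| := by
  rw [abs_div, abs_mul, Real.abs_exp]

theorem Dom.abs_le_exp {ρ y : ℝ} (h : Dom ρ y) : |y| ≤ ρ * Real.exp (-y) := by
  have h1 := h.2
  have h2 : Real.exp y * Real.exp (-y) = 1 := by rw [← Real.exp_add]; simp
  have h3 : |y| = |y| * Real.exp y * Real.exp (-y) := by rw [mul_assoc, h2, mul_one]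
  rw [h3]
  exact mul_le_mul_of_nonneg_right h1 (Real.exp_pos _).le

theorem exp_two (ρ y : ℝ) : ρ ^ 2 * Real.exp (-2 * y) = (ρ * Real.exp (-y)) ^ 2 := by
  rw [mul_pow, ← Real.exp_nat_mul]
  congr 2
  push_cast
  ring

theorem Dom.rad_nonneg {ρ y : ℝ} (h : Dom ρ y) : 0 ≤ ρ ^ 2 * Real.exp (-2 * y) - y ^ 2 := by
  rw [exp_two, sub_nonneg, ← sq_abs y]
  exact pow_le_pow_left₀ (abs_nonneg _) h.abs_le_exp 2

theorem sx_nonneg (ρ y : ℝ) : 0 ≤ sx ρ y := Real.sqrt_nonneg _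

theorem sx_sq {ρ y : ℝ} (h : Dom ρ y) : sx ρ y ^ 2 = (ρ * Real.exp (-y)) ^ 2 - y ^ 2 := by
  unfold sx
  rw [Real.sq_sqrt h.rad_nonneg, exp_two]

theorem sx_sq_add {ρ y : ℝ} (h : Dom ρ y) : sx ρ y ^ 2 + y ^ 2 = (ρ * Real.exp (-y)) ^ 2 := by
  rw [sx_sq h]; ring

theorem sx_le {ρ y : ℝ} (h : Dom ρ y) : sx ρ y ≤ ρ * Real.exp (-y) := by
  have h1 : 0 ≤ ρ * Real.exp (-y) := mul_nonneg h.1.le (Real.exp_pos _).le
  refine abs_le_of_sq_le_sq' ?_ h1 |>.2
  have := sx_sq_add h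
  nlinarith [sq_nonneg y]

theorem sx_pos {ρ y : ℝ} (_ : 0 < ρ) (h : |y| * Real.exp y < ρ) : 0 < sx ρ y := by
  unfold sx
  apply Real.sqrt_pos.2
  rw [exp_two, sub_pos, ← sq_abs y]
  refine pow_lt_pow_left₀ ?_ (abs_nonneg _) two_ne_zero
  have h2 : Real.exp y * Real.exp (-y) = 1 := by rw [← Real.exp_add]; simp
  calc |y| = |y| * Real.exp y * Real.exp (-y) := by rw [mul_assoc, h2, mul_one]
    _ < ρ * Real.exp (-y) := mul_lt_mul_of_pos_right h (Real.exp_pos _)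

theorem Dom.sin {ρ y : ℝ} (h : Dom ρ y) : Real.sin (sP ρ y) = y * Real.exp y / ρ := by
  have h1 : |y * Real.exp y / ρ| ≤ 1 := by
    rw [abs_mul_exp_eq, abs_of_pos h.1, div_le_one h.1]
    exact h.2
  exact Real.sin_arcsin (abs_le.1 h1).1 (abs_le.1 h1).2

theorem Dom.cos {ρ y : ℝ} (h : Dom ρ y) : Real.cos (sP ρ y) = sx ρ y * Real.exp y / ρ := by
  have h0 := h.1
  unfold sP
  rw [Real.cos_arcsin]
  have h2 : Real.exp y * Real.exp (-y) = 1 := by rw [← Real.exp_add]; simp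
  have e : 1 - (y * Real.exp y / ρ) ^ 2 = (sx ρ y * Real.exp y / ρ) ^ 2 := by
    rw [div_pow, div_pow, mul_pow (sx ρ y), sx_sq h]
    field_simp
    have : Real.exp y ^ 2 * Real.exp (-y) ^ 2 = 1 := by rw [← mul_pow, h2, one_pow]
    linear_combination (-(ρ ^ 2)) * this
  rw [e, Real.sqrt_sq]
  have := sx_nonneg ρ y
  positivity

theorem sP_abs_le (ρ y : ℝ) : |sP ρ y| ≤ Real.pi / 2 :=
  abs_le.2 ⟨Real.neg_pi_div_two_le_arcsin _, Real.arcsin_le_pi_div_two _⟩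

theorem sP_nonneg {ρ y : ℝ} (hρ : 0 < ρ) (hy : 0 ≤ y) : 0 ≤ sP ρ y :=
  Real.arcsin_nonneg.2 (by positivity)

theorem sP_nonpos {ρ y : ℝ} (hρ : 0 < ρ) (hy : y ≤ 0) : sP ρ y ≤ 0 :=
  Real.arcsin_nonpos.2 (div_nonpos_of_nonpos_of_nonneg
    (mul_nonpos_of_nonpos_of_nonneg hy (Real.exp_pos _).le) hρ.le)

/-- polar form of `K` -/
theorem sK_polar {ρ y : ℝ} (h : Dom ρ y) :
    sK ρ y = (ρ * Real.exp (-y) : ℝ) * cexp (sP ρ y * I) := by
  have h0 := h.1
  have h2 : Real.exp y * Real.exp (-y) = 1 := by rw [← Real.exp_add]; simp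
  rw [Complex.exp_mul_I, ← Complex.ofReal_cos, ← Complex.ofReal_sin, h.cos, h.sin]
  unfold sK
  apply Complex.ext
  · simp only [Complex.add_re, Complex.ofReal_re, Complex.mul_re, Complex.I_re, mul_zero,
      Complex.ofReal_im, Complex.I_im, mul_one, sub_self, add_zero, Complex.add_im, zero_mul,
      sub_zero, Complex.mul_im, add_zero, mul_zero]
    field_simp
    linear_combination (-(sx ρ y)) * h2
  · simp only [Complex.add_im, Complex.ofReal_im, Complex.mul_im, Complex.ofReal_re, Complex.I_im,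
      mul_one, Complex.I_re, mul_zero, add_zero, zero_add, Complex.add_re, Complex.mul_re,
      zero_mul, sub_zero]
    field_simp
    linear_combination (-y) * h2

theorem norm_sK {ρ y : ℝ} (h : Dom ρ y) : ‖sK ρ y‖ = ρ * Real.exp (-y) := by
  rw [sK_polar h, norm_mul, Complex.norm_exp_ofReal_mul_I, mul_one, Complex.norm_real,
    Real.norm_of_nonneg (mul_nonneg h.1.le (Real.exp_pos _).le)]

/-- the saddle point equation -/
theorem sK_eq {ρ y : ℝ} (h : Dom ρ y) :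
    sK ρ y * cexp (-I * sK ρ y) = ρ * cexp ((sE ρ y - ρ : ℝ) * I) := by
  have h1 : -I * sK ρ y = (y : ℂ) + (-sx ρ y : ℝ) * I := by
    unfold sK
    push_cast
    linear_combination (-(y : ℂ)) * Complex.I_sq
  rw [h1, sK_polar h, Complex.exp_add, ← Complex.ofReal_exp]
  have h2 : (Real.exp (-y) : ℂ) * (Real.exp y : ℂ) = 1 := by
    rw [← Complex.ofReal_mul, ← Real.exp_add]; simp
  have h3 : cexp (sP ρ y * I) * cexp ((-sx ρ y : ℝ) * I) = cexp ((sE ρ y - ρ : ℝ) * I) := by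
    rw [← Complex.exp_add]
    congr 1
    unfold sE
    push_cast
    ring
  rw [← h3]
  push_cast
  push_cast at h2
  linear_combination (ρ * cexp (sP ρ y * I) * cexp (-(sx ρ y : ℂ) * I)) * h2

/-- the point with the saddle point `K/δ` -/
theorem zp_eq {ρ y δ : ℝ} (h : Dom ρ y) (hδ : 0 < δ) :
    SokalU.zp (-((δ : ℂ) * I)) (sK ρ y / δ) =
      (ρ / δ : ℝ) * cexp ((sE ρ y - ρ + δ / 2 : ℝ) * I) := by
  have hd : (δ : ℂ) ≠ 0 := by exact_mod_cast hδ.ne'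
  have h1 := sK_eq h
  unfold SokalU.zp
  have e1 : -((δ : ℂ) * I) * (sK ρ y / δ) - -((δ : ℂ) * I) / 2 = -I * sK ρ y + (δ / 2 : ℝ) * I := by
    push_cast
    field_simp
    ring
  have e2 : cexp ((sE ρ y - ρ + δ / 2 : ℝ) * I) =
      cexp ((sE ρ y - ρ : ℝ) * I) * cexp ((δ / 2 : ℝ) * I) := by
    rw [← Complex.exp_add]
    congr 1
    push_cast
    ring
  rw [e1, Complex.exp_add, e2]
  calc sK ρ y / δ * (cexp (-I * sK ρ y) * cexp ((δ / 2 : ℝ) * I))
      = (sK ρ y * cexp (-I * sK ρ y)) * cexp ((δ / 2 : ℝ) * I) / δ := by ring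
    _ = _ := by
        rw [h1]
        push_cast
        ring

/-- real part of the exponent -/
theorem S_re {ρ y δ : ℝ} (hδ : 0 < δ) :
    (SokalU.S (-((δ : ℂ) * I)) (sK ρ y / δ)).re = sx ρ y * (1 + y) / δ := by
  have hd : (δ : ℂ) ≠ 0 := by exact_mod_cast hδ.ne'
  have e : SokalU.S (-((δ : ℂ) * I)) (sK ρ y / δ) =
      ((sx ρ y * (1 + y) / δ : ℝ) : ℂ) + ((y / δ - (sx ρ y ^ 2 - y ^ 2) / (2 * δ) : ℝ) : ℂ) * I := by
    unfold SokalU.S sK
    push_cast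
    field_simp
    ring_nf
    rw [Complex.I_pow_three, Complex.I_sq]
    ring
  rw [e, Complex.add_re, Complex.ofReal_re, Complex.re_ofReal_mul, Complex.I_re, mul_zero, add_zero]

theorem norm_one_sub {ρ y : ℝ} : ‖1 - I * sK ρ y‖ ^ 2 = sD2 ρ y := by
  rw [Complex.sq_norm, Complex.normSq_apply]
  unfold sK sD2
  simp
  ring

/-! ### derivatives in `y` -/

theorem hasDerivAt_sx {ρ y : ℝ} (hρ : 0 < ρ) (h : |y| * Real.exp y < ρ) :
    HasDerivAt (sx ρ) (-(sx ρ y ^ 2 + y ^ 2 + y) / sx ρ y) y := by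
  have hD : Dom ρ y := ⟨hρ, h.le⟩
  have hx := sx_pos hρ h
  have h1 : HasDerivAt (fun y : ℝ => ρ ^ 2 * Real.exp (-2 * y) - y ^ 2)
      (ρ ^ 2 * (Real.exp (-2 * y) * -2) - 2 * y) y := by
    have e1 : HasDerivAt (fun y : ℝ => -2 * y) (-2) y := by
      simpa using (hasDerivAt_id y).const_mul (-2 : ℝ)
    have e2 := (e1.exp).const_mul (ρ ^ 2)
    have e3 : HasDerivAt (fun y : ℝ => y ^ 2) (2 * y) y := by
      simpa using hasDerivAt_pow 2 y
    exact e2.sub e3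
  have h2 : ρ ^ 2 * Real.exp (-2 * y) - y ^ 2 ≠ 0 := by
    intro h0
    have : sx ρ y = 0 := by
      unfold sx
      rw [h0, Real.sqrt_zero]
    exact hx.ne' this
  have h3 := h1.sqrt h2
  refine h3.congr_deriv ?_
  have h4 := sx_sq_add hD
  rw [← exp_two] at h4
  change (ρ ^ 2 * (Real.exp (-2 * y) * -2) - 2 * y) / (2 * sx ρ y) = _
  rw [div_eq_div_iff (by positivity) hx.ne']
  linear_combination (2 * sx ρ y) * h4

theorem hasDerivAt_sP {ρ y : ℝ} (hρ : 0 < ρ) (h : |y| * Real.exp y < ρ) :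
    HasDerivAt (sP ρ) ((1 + y) / sx ρ y) y := by
  have hD : Dom ρ y := ⟨hρ, h.le⟩
  have hx := sx_pos hρ h
  have h1 : HasDerivAt (fun y : ℝ => y * Real.exp y / ρ) ((1 + y) * Real.exp y / ρ) y := by
    have e1 := ((hasDerivAt_id y).mul (Real.hasDerivAt_exp y)).div_const ρ
    refine e1.congr_deriv ?_
    simp only [id]
    ring
  have h2 : |y * Real.exp y / ρ| < 1 := by
    rw [abs_mul_exp_eq, abs_of_pos hρ, div_lt_one hρ]
    exact h
  have h3 := (Real.hasDerivAt_arcsin (x := y * Real.exp y / ρ) (by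
    intro h0; rw [h0] at h2; norm_num at h2) (by
    intro h0; rw [h0] at h2; norm_num at h2)).comp y h1
  refine h3.congr_deriv ?_
  have h4 : √(1 - (y * Real.exp y / ρ) ^ 2) = sx ρ y * Real.exp y / ρ := by
    have := hD.cos
    unfold sP at this
    rwa [Real.cos_arcsin] at this
  rw [h4]
  have := Real.exp_pos y
  field_simp

theorem hasDerivAt_sE {ρ y : ℝ} (hρ : 0 < ρ) (h : |y| * Real.exp y < ρ) :
    HasDerivAt (sE ρ) (sD2 ρ y / sx ρ y) y := by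
  have h1 := ((hasDerivAt_sP hρ h).add_const ρ).sub (hasDerivAt_sx hρ h)
  refine h1.congr_deriv ?_
  have hx := sx_pos hρ h
  unfold sD2
  field_simp
  ring

/-- the derivative of `δ Φ = x (1 + y)` -/
theorem hasDerivAt_sPhi {ρ y : ℝ} (hρ : 0 < ρ) (h : |y| * Real.exp y < ρ) :
    HasDerivAt (fun y => sx ρ y * (1 + y)) (-(y * (sD2 ρ y / sx ρ y))) y := by
  have h1 := (hasDerivAt_sx hρ h).mul ((hasDerivAt_id y).const_add 1)
  refine h1.congr_deriv ?_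
  have hx := sx_pos hρ h
  unfold sD2
  simp only [id]
  field_simp
  ring

theorem continuous_sx (ρ : ℝ) : Continuous (sx ρ) := by
  unfold sx
  fun_prop

theorem continuous_sP (ρ : ℝ) : Continuous (sP ρ) := by
  unfold sP
  exact Real.continuous_arcsin.comp (by fun_prop)

theorem continuous_sE (ρ : ℝ) : Continuous (sE ρ) := by
  unfold sE
  exact ((continuous_sP ρ).add_const ρ).sub (continuous_sx ρ)

/-- `y e^y` is strictly increasing on `[-1,∞)` -/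
theorem strictMonoOn_mul_exp : StrictMonoOn (fun y : ℝ => y * Real.exp y) (Ici (-1)) := by
  refine strictMonoOn_of_deriv_pos (convex_Ici _) (by fun_prop) fun y hy => ?_
  rw [interior_Ici] at hy
  have e1 : HasDerivAt (fun y : ℝ => y * Real.exp y) ((1 + y) * Real.exp y) y := by
    refine ((hasDerivAt_id y).mul (Real.hasDerivAt_exp y)).congr_deriv ?_
    simp only [id]
    ring
  rw [e1.deriv]
  have : 0 < 1 + y := by linarith [mem_Ioi.1 hy]
  positivity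

theorem dom_iff {ρ y : ℝ} : |y| * Real.exp y ≤ ρ ↔ -ρ ≤ y * Real.exp y ∧ y * Real.exp y ≤ ρ := by
  rw [← abs_le, abs_mul, Real.abs_exp]

/-- between two points of the domain -/
theorem dom_between {ρ y₁ y₂ y : ℝ} (h1 : Dom ρ y₁) (h2 : Dom ρ y₂) (hy1 : -1 ≤ y₁)
    (hy : y ∈ Ioo y₁ y₂) : |y| * Real.exp y < ρ := by
  have a1 := (dom_iff.1 h1.2).1
  have a2 := (dom_iff.1 h2.2).2
  have b1 := strictMonoOn_mul_exp (mem_Ici.2 hy1) (mem_Ici.2 (hy1.trans hy.1.le)) hy.1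
  have b2 := strictMonoOn_mul_exp (mem_Ici.2 (hy1.trans hy.1.le))
    (mem_Ici.2 (hy1.trans (hy.1.le.trans hy.2.le))) hy.2
  simp only at b1 b2
  have : |y * Real.exp y| < ρ := abs_lt.2 ⟨by linarith, by linarith⟩
  rwa [abs_mul, Real.abs_exp] at this

theorem sD2_pos {ρ y : ℝ} (hy : -1 < y) : 0 < sD2 ρ y := by
  unfold sD2
  have : 0 < 1 + y := by linarith
  positivity

/-- `η` is strictly increasing in `y` -/
theorem sE_strictMonoOn {ρ y₁ y₂ : ℝ} (h1 : Dom ρ y₁) (h2 : Dom ρ y₂) (hy1 : -1 ≤ y₁) :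
    StrictMonoOn (sE ρ) (Icc y₁ y₂) := by
  refine strictMonoOn_of_deriv_pos (convex_Icc _ _) (continuous_sE ρ).continuousOn fun y hy => ?_
  rw [interior_Icc] at hy
  have h3 := dom_between h1 h2 hy1 hy
  rw [(hasDerivAt_sE h1.1 h3).deriv]
  exact div_pos (sD2_pos (by linarith [hy.1])) (sx_pos h1.1 h3)

/-- existence of the saddle point -/
theorem exists_sE {ρ y₁ y₂ η : ℝ} (h12 : y₁ ≤ y₂) (h1 : sE ρ y₁ ≤ η) (h2 : η ≤ sE ρ y₂) :
    ∃ y ∈ Icc y₁ y₂, sE ρ y = η :=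
  intermediate_value_Icc h12 (continuous_sE ρ).continuousOn ⟨h1, h2⟩

theorem sE_zero {ρ : ℝ} (hρ : 0 < ρ) : sE ρ 0 = 0 := by
  unfold sE sP sx
  simp [Real.sqrt_sq hρ.le]

theorem dom_zero {ρ : ℝ} (hρ : 0 < ρ) : Dom ρ 0 := ⟨hρ, by simpa using hρ.le⟩

end SokalF1S
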