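import Pool.Agent.Lib_MP_af4de1_f1.MainA
import Pool.Agent.Lib_MP_af4de1_f1.Sad
import Pool.Agent.Lib_MP_af4de1_f1.Dec

/-!
# LEMMA MAIN, glue: from the three brackets to `E`, `DE`, `D²E` at the point `wp r δ (sE (r δ) y)`
-/

set_option autoImplicit false

open Complex MeasureTheory Filter Topology SokalU SokalPG SokalF1 SokalF1S

namespace SokalF1M

/-- The size of the wave, `exp(Φ) / D^(1/2)`. -/
noncomputable def sM (r δ y : ℝ) : ℝ :=
  Real.exp (sx (r * δ) y * (1 + y) / δ) / (sD2 (r * δ) y) ^ (1 / 4 : ℝ)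

/-- The modulus of the Gaussian. -/
noncomputable def sG (r δ y : ℝ) : ℝ := √(2 * Real.pi * δ / √(sD2 (r * δ) y))

theorem wp_eq_zp {r δ y : ℝ} (hδ : 0 < δ) (hD : Dom (r * δ) y) :
    wp r δ (sE (r * δ) y) = zp (-((δ : ℂ) * I)) (sK (r * δ) y / δ) := by
  rw [zp_eq hD hδ, mul_div_cancel_right₀ _ hδ.ne']
  rfl

theorem norm_one_sub' (ρ y : ℝ) : ‖1 - I * sK ρ y‖ = √(sD2 ρ y) := by
  rw [← norm_one_sub, Real.sqrt_sq (norm_nonneg _)]

theorem D2E_Ef (t z : ℂ) : SokalBPlus.D2E t z = DE t z + Ef 2 t z := by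
  unfold SokalBPlus.D2E
  congr 1
  unfold DE Ef
  have e1 : cexp (-t) * (cexp (-t) * z) = cexp (-(t * ((2 : ℕ) : ℂ))) * z := by
    rw [← mul_assoc, ← Complex.exp_add]
    congr 2
    push_cast
    ring
  have e2 : cexp (-(t * (((2 : ℕ) : ℂ) * (((2 : ℕ) : ℂ) - 1) / 2))) = cexp (-t) := by
    congr 1
    push_cast
    ring
  rw [e1, e2]
  ring

theorem sG_pos {r δ y : ℝ} (hδ : 0 < δ) (hy : -1 < y) : 0 < sG r δ y := by
  unfold sG
  have := sD2_pos (ρ := r * δ) hy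
  have := Real.pi_pos
  positivity

theorem sM_pos {r δ y : ℝ} (hy : -1 < y) : 0 < sM r δ y := by
  unfold sM
  have := sD2_pos (ρ := r * δ) hy
  positivity

theorem sM_sG {r δ y : ℝ} (hδ : 0 < δ) (hy : -1 < y) :
    Real.exp (sx (r * δ) y * (1 + y) / δ) / √(2 * Real.pi * δ) = sM r δ y / sG r δ y := by
  have h1 := sD2_pos (ρ := r * δ) hy
  have h2 : 0 < 2 * Real.pi * δ := by have := Real.pi_pos; positivity
  have h3 : √(√(sD2 (r * δ) y)) = (sD2 (r * δ) y) ^ (1 / 4 : ℝ) := by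
    rw [Real.sqrt_eq_rpow, Real.sqrt_eq_rpow, ← Real.rpow_mul h1.le]
    norm_num
  unfold sM sG
  rw [Real.sqrt_div h2.le, h3]
  have h4 : 0 < √(2 * Real.pi * δ) := Real.sqrt_pos.2 h2
  have h5 : 0 < (sD2 (r * δ) y) ^ (1 / 4 : ℝ) := Real.rpow_pos_of_pos h1 _
  field_simp

/-- The three conclusions of LEMMA MAIN from bounds for the three brackets. -/
theorem main_glue {r δ y c s1 e0 e1 e2 : ℝ} (hc : 0 < c) (hs : 0 < s1) (hcs : c * s1 ≤ 1)
    (hδ : 0 < δ) (hD : Dom (r * δ) y) (hy : -1 < y) (hk : |y| < c * s1) (he0 : e0 < 1)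
    (h0 : (1 - e0) * sG r δ y ≤ ‖br c s1 δ (sK (r * δ) y / δ) (fun _ => 1)‖)
    (h0' : ‖br c s1 δ (sK (r * δ) y / δ) (fun _ => 1)‖ ≤ (1 + e0) * sG r δ y)
    (h1 : ‖br c s1 δ (sK (r * δ) y / δ) gs‖ ≤ e1 * sG r δ y)
    (h2 : ‖br c s1 δ (sK (r * δ) y / δ) (fun h => h * gs h)‖ ≤ e2 * sG r δ y) :
    (1 - e0) * sM r δ y ≤ ‖E (tt δ) (wp r δ (sE (r * δ) y))‖ ∧
    ‖E (tt δ) (wp r δ (sE (r * δ) y))‖ ≤ (1 + e0) * sM r δ y ∧
    ‖DE (tt δ) (wp r δ (sE (r * δ) y)) - sK (r * δ) y / δ * E (tt δ) (wp r δ (sE (r * δ) y))‖ ≤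
      ‖sK (r * δ) y / δ‖ * e1 / (√(sD2 (r * δ) y) * (1 - e0)) *
        ‖E (tt δ) (wp r δ (sE (r * δ) y))‖ ∧
    ‖SokalBPlus.D2E (tt δ) (wp r δ (sE (r * δ) y)) * E (tt δ) (wp r δ (sE (r * δ) y)) -
      DE (tt δ) (wp r δ (sE (r * δ) y)) ^ 2‖ ≤
      (‖sK (r * δ) y / δ‖ / √(sD2 (r * δ) y) * (1 + e2 / (δ * (1 - e0))) +
        (‖sK (r * δ) y / δ‖ * e1 / (√(sD2 (r * δ) y) * (1 - e0))) ^ 2) *
        ‖E (tt δ) (wp r δ (sE (r * δ) y))‖ ^ 2 := by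
  have hG := sG_pos (r := r) hδ hy
  have hM := sM_pos (r := r) (δ := δ) hy
  have hd : (δ : ℂ) ≠ 0 := by exact_mod_cast hδ.ne'
  set κ : ℂ := sK (r * δ) y / δ with hκ
  have hK : (δ : ℂ) * κ = sK (r * δ) y := by rw [hκ, mul_div_cancel₀ _ hd]
  have hDp : 0 < √(sD2 (r * δ) y) := Real.sqrt_pos.2 (sD2_pos hy)
  have hn : ‖1 - I * (δ * κ)‖ = √(sD2 (r * δ) y) := by rw [hK, norm_one_sub']
  have hK0 : 1 - I * (δ * κ) ≠ 0 := norm_pos_iff.1 (by rw [hn]; exact hDp)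
  have hk' : |κ.im| < c * s1 / δ := by
    have e : κ = ((1 / δ : ℝ) : ℂ) * sK (r * δ) y := by rw [hκ]; push_cast; ring
    have e2 : (sK (r * δ) y).im = y := by unfold sK; simp
    rw [e, Complex.im_ofReal_mul, e2, abs_mul, abs_of_pos (by positivity : 0 < 1 / δ), one_div,
      inv_mul_eq_div]
    gcongr
  set b1 := br c s1 δ κ (fun _ => 1) with hb1
  have he0' : 0 < 1 - e0 := by linarith
  have hb1p : 0 < ‖b1‖ := lt_of_lt_of_le (mul_pos he0' hG) h0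
  have hb1n : b1 ≠ 0 := norm_pos_iff.1 hb1p
  have hnE := norm_E hc hs hcs hδ hk'
  rw [← wp_eq_zp hδ hD, hκ, S_re hδ, ← hκ, ← hb1] at hnE
  have hnE2 : ‖E (tt δ) (wp r δ (sE (r * δ) y))‖ = sM r δ y * (‖b1‖ / sG r δ y) := by
    have h3 := sM_sG (r := r) hδ hy
    rw [show tt δ = -((δ : ℂ) * I) from rfl, hnE, mul_div_right_comm, h3]
    ring
  have hE0 : E (tt δ) (wp r δ (sE (r * δ) y)) ≠ 0 := by
    rw [← norm_pos_iff, hnE2]
    positivity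
  have hr1 : 1 - e0 ≤ ‖b1‖ / sG r δ y := by rwa [le_div_iff₀ hG]
  have hr2 : ‖b1‖ / sG r δ y ≤ 1 + e0 := by rwa [div_le_iff₀ hG]
  set w := wp r δ (sE (r * δ) y) with hw
  set κ' : ℂ := DE (tt δ) w / E (tt δ) w with hκ'
  have hwz : w = zp (-((δ : ℂ) * I)) κ := wp_eq_zp hδ hD
  have hdiv := DE_div hc hs hcs hδ hk' (κ' := κ') (by rw [hκ', hwz]; rfl) hb1n hK0
  have hdiv2 := D2E_div hc hs hcs hδ hk' (κ' := κ') (by rw [hκ', hwz]; rfl) hb1n hK0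
  rw [← hwz, ← D2E_Ef] at hdiv2
  have hbound : ‖κ' - κ‖ ≤ ‖κ‖ * e1 / (√(sD2 (r * δ) y) * (1 - e0)) := by
    rw [hdiv, norm_div, norm_mul, norm_mul, hn]
    have h3 : √(sD2 (r * δ) y) * (1 - e0) * sG r δ y ≤ √(sD2 (r * δ) y) * ‖b1‖ := by
      rw [mul_assoc]
      exact mul_le_mul_of_nonneg_left h0 hDp.le
    have h4 : ‖κ‖ * ‖br c s1 δ κ gs‖ ≤ ‖κ‖ * e1 * sG r δ y := by
      rw [mul_assoc]
      exact mul_le_mul_of_nonneg_left h1 (norm_nonneg _)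
    have h5 : 0 ≤ e1 := by
      by_contra h6
      push Not at h6
      have := (norm_nonneg _).trans h1
      nlinarith
    calc ‖κ‖ * ‖br c s1 δ κ gs‖ / (√(sD2 (r * δ) y) * ‖b1‖) ≤
          ‖κ‖ * e1 * sG r δ y / (√(sD2 (r * δ) y) * (1 - e0) * sG r δ y) := by gcongr
      _ = _ := by field_simp
  have he : ∀ a : ℂ, DE (tt δ) w - a * E (tt δ) w = (κ' - a) * E (tt δ) w := by
    intro a
    rw [hκ']
    field_simp
  refine ⟨?_, ?_, ?_, ?_⟩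
  · rw [hnE2, mul_comm]
    exact mul_le_mul_of_nonneg_left hr1 hM.le
  · rw [hnE2, mul_comm (1 + e0)]
    exact mul_le_mul_of_nonneg_left hr2 hM.le
  · rw [he, norm_mul]
    exact mul_le_mul_of_nonneg_right hbound (norm_nonneg _)
  · have h3 : SokalBPlus.D2E (tt δ) w * E (tt δ) w - DE (tt δ) w ^ 2 =
        (SokalBPlus.D2E (tt δ) w / E (tt δ) w - κ' ^ 2) * E (tt δ) w ^ 2 := by
      rw [hκ']
      field_simp
    rw [h3, norm_mul, norm_pow]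
    refine mul_le_mul_of_nonneg_right ?_ (by positivity)
    have h4 : SokalBPlus.D2E (tt δ) w / E (tt δ) w - κ' ^ 2 =
        κ / (1 - I * (δ * κ)) * (1 - I / δ * (br c s1 δ κ (fun h => h * gs h) / b1)) -
          (κ' - κ) ^ 2 := hdiv2
    rw [h4]
    refine (norm_sub_le _ _).trans (add_le_add ?_ ?_)
    · rw [norm_mul, norm_div, hn]
      refine mul_le_mul_of_nonneg_left ?_ (by positivity)
      refine (norm_sub_le _ _).trans ?_
      rw [norm_one, norm_mul, norm_div, Complex.norm_I, Complex.norm_real,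
        Real.norm_of_nonneg hδ.le, norm_div]
      have h5 : ‖br c s1 δ κ (fun h => h * gs h)‖ / ‖b1‖ ≤ e2 / (1 - e0) := by
        have h6 : 0 ≤ e2 := by
          by_contra h6
          push Not at h6
          have := (norm_nonneg _).trans h2
          nlinarith
        calc ‖br c s1 δ κ (fun h => h * gs h)‖ / ‖b1‖ ≤ e2 * sG r δ y / ((1 - e0) * sG r δ y) := by
              gcongr
          _ = _ := by field_simp
      have h6 : 1 / δ * (‖br c s1 δ κ (fun h => h * gs h)‖ / ‖b1‖) ≤ 1 / δ * (e2 / (1 - e0)) :=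
        mul_le_mul_of_nonneg_left h5 (by positivity)
      have h7 : 1 / δ * (e2 / (1 - e0)) = e2 / (δ * (1 - e0)) := by field_simp
      linarith
    · rw [norm_pow]
      exact pow_le_pow_left₀ (norm_nonneg _) hbound 2

end SokalF1M
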