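import Pool.Agent.Lib_MP_af4de1_f1.GLem

/-!
# Structural constants of LEMMA MAIN, `y ≤ 0` (first part)

`K = √(x² + y²)`, `D = √((1+y)² + x²)`, `c = 1/(1+x)`, `Qf x y` the coefficient of `s²` (GLem.lean).
`hΦ` is the condition `Φ ≥ .44 r`.  It forces `x` to be at least an explicit increasing function of `|y|`
(`x² ((1+y)² - .1936 e^(2y)) ≥ .1936 e^(2y) y²`); the suprema are attained on that curve.
-/

set_option autoImplicit false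

namespace SokalF1B

open Real SokalF1G

/-! ### Certificates -/

private theorem s2cD0 {t : ℝ} (h1 : (2 / 5) ≤ t) (h2 : t ≤ (39 / 80)) :
    0 ≤ 121 / 625 * (36787 / 100000 * (1 + (1 - 2 * t) + (1 - 2 * t) ^ 2 / 2 + (1 - 2 * t) ^ 3 / 6)) *
        (2 * t - 33 / 50) - (17 / 50 - (1 - t) ^ 2) * (1 - t) ^ 2 - 1 / 5000 := by
  have p : 0 ≤ t - (2 / 5) := sub_nonneg.2 h1
  have q : 0 ≤ (39 / 80) - t := sub_nonneg.2 h2
  have h : 0 ≤ (469655693312 / 1435546875) * ((39 / 80) - t) ^ 4 +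
      (2851639111616 / 3349609375) * (t - (2 / 5)) ^ 1 * ((39 / 80) - t) ^ 3 +
      (2634403000064 / 3349609375) * (t - (2 / 5)) ^ 2 * ((39 / 80) - t) ^ 2 +
      (610826691971 / 2009765625) * (t - (2 / 5)) ^ 3 * ((39 / 80) - t) ^ 1 +
      (568523074501 / 13398437500) * (t - (2 / 5)) ^ 4 := by
    positivity
  refine le_of_le_of_eq h ?_
  ring

private theorem s2cD1 {t : ℝ} (h1 : (39 / 80) ≤ t) (h2 : t ≤ (17 / 32)) :
    0 ≤ 121 / 625 * (36787 / 100000 * (1 + (1 - 2 * t) + (1 - 2 * t) ^ 2 / 2 + (1 - 2 * t) ^ 3 / 6)) *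
        (2 * t - 33 / 50) - (17 / 50 - (1 - t) ^ 2) * (1 - t) ^ 2 - 1 / 5000 := by
  have p : 0 ≤ t - (39 / 80) := sub_nonneg.2 h1
  have q : 0 ≤ (17 / 32) - t := sub_nonneg.2 h2
  have h : 0 ≤ (2274092298004 / 3349609375) * ((17 / 32) - t) ^ 4 +
      (16500593685232 / 10048828125) * (t - (39 / 80)) ^ 1 * ((17 / 32) - t) ^ 3 +
      (183530260202 / 133984375) * (t - (39 / 80)) ^ 2 * ((17 / 32) - t) ^ 2 +
      (65416060928 / 133984375) * (t - (39 / 80)) ^ 3 * ((17 / 32) - t) ^ 1 +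
      (26492550727 / 321562500) * (t - (39 / 80)) ^ 4 := by
    positivity
  refine le_of_le_of_eq h ?_
  ring

private theorem s2cD2 {t : ℝ} (h1 : (17 / 32) ≤ t) (h2 : t ≤ (23 / 40)) :
    0 ≤ 121 / 625 * (36787 / 100000 * (1 + (1 - 2 * t) + (1 - 2 * t) ^ 2 / 2 + (1 - 2 * t) ^ 3 / 6)) *
        (2 * t - 33 / 50) - (17 / 50 - (1 - t) ^ 2) * (1 - t) ^ 2 - 1 / 5000 := by
  have p : 0 ≤ t - (17 / 32) := sub_nonneg.2 h1
  have q : 0 ≤ (23 / 40) - t := sub_nonneg.2 h2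
  have h : 0 ≤ (26492550727 / 321562500) * ((23 / 40) - t) ^ 4 +
      (68677324486 / 401953125) * (t - (17 / 32)) ^ 1 * ((23 / 40) - t) ^ 3 +
      (7994200272 / 19140625) * (t - (17 / 32)) ^ 2 * ((23 / 40) - t) ^ 2 +
      (2058860089056 / 3349609375) * (t - (17 / 32)) ^ 3 * ((23 / 40) - t) ^ 1 +
      (958935463616 / 3349609375) * (t - (17 / 32)) ^ 4 := by
    positivity
  refine le_of_le_of_eq h ?_
  ring

private theorem s2cD3 {t : ℝ} (h1 : (23 / 40) ≤ t) (h2 : t ≤ (3 / 4)) :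
    0 ≤ 121 / 625 * (36787 / 100000 * (1 + (1 - 2 * t) + (1 - 2 * t) ^ 2 / 2 + (1 - 2 * t) ^ 3 / 6)) *
        (2 * t - 33 / 50) - (17 / 50 - (1 - t) ^ 2) * (1 - t) ^ 2 - 1 / 5000 := by
  have p : 0 ≤ t - (23 / 40) := sub_nonneg.2 h1
  have q : 0 ≤ (3 / 4) - t := sub_nonneg.2 h2
  have h : 0 ≤ (14983366619 / 13398437500) * ((3 / 4) - t) ^ 4 +
      (85494288407 / 6699218750) * (t - (23 / 40)) ^ 1 * ((3 / 4) - t) ^ 3 +
      (33353496063 / 669921875) * (t - (23 / 40)) ^ 2 * ((3 / 4) - t) ^ 2 +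
      (656509906 / 11484375) * (t - (23 / 40)) ^ 3 * ((3 / 4) - t) ^ 1 +
      (531434664 / 26796875) * (t - (23 / 40)) ^ 4 := by
    positivity
  refine le_of_le_of_eq h ?_
  ring

private theorem s2cM0 {t : ℝ} (h1 : (1 / 2) ≤ t) (h2 : t ≤ (5 / 8)) :
    0 ≤ 121 / 625 * (36787 / 100000 * (1 + (1 - 2 * t) + (1 - 2 * t) ^ 2 / 2 + (1 - 2 * t) ^ 3 / 6)) *
        (1729 / 1000 * (1 + 2 / 3 * (t - 16 / 25))) * (2 * t - 1) -
      (t ^ 2 - 1729 / 1000 * (1 + 2 / 3 * (t - 16 / 25)) * (1 - t) ^ 2) * (1 - t) ^ 2 := by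
  have p : 0 ≤ t - (1 / 2) := sub_nonneg.2 h1
  have q : 0 ≤ (5 / 8) - t := sub_nonneg.2 h2
  have h : 0 ≤ (10898432 / 9375) * ((5 / 8) - t) ^ 5 +
      (69793994147008 / 18310546875) * (t - (1 / 2)) ^ 1 * ((5 / 8) - t) ^ 4 +
      (16999523719576 / 3662109375) * (t - (1 / 2)) ^ 2 * ((5 / 8) - t) ^ 3 +
      (15859822957762 / 6103515625) * (t - (1 / 2)) ^ 3 * ((5 / 8) - t) ^ 2 +
      (151944013191949 / 219726562500) * (t - (1 / 2)) ^ 4 * ((5 / 8) - t) ^ 1 +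
      (8476022460261 / 97656250000) * (t - (1 / 2)) ^ 5 := by
    positivity
  refine le_of_le_of_eq h ?_
  ring

private theorem s2cM1 {t : ℝ} (h1 : (5 / 8) ≤ t) (h2 : t ≤ (3 / 4)) :
    0 ≤ 121 / 625 * (36787 / 100000 * (1 + (1 - 2 * t) + (1 - 2 * t) ^ 2 / 2 + (1 - 2 * t) ^ 3 / 6)) *
        (1729 / 1000 * (1 + 2 / 3 * (t - 16 / 25))) * (2 * t - 1) -
      (t ^ 2 - 1729 / 1000 * (1 + 2 / 3 * (t - 16 / 25)) * (1 - t) ^ 2) * (1 - t) ^ 2 := by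
  have p : 0 ≤ t - (5 / 8) := sub_nonneg.2 h1
  have q : 0 ≤ (3 / 4) - t := sub_nonneg.2 h2
  have h : 0 ≤ (8476022460261 / 97656250000) * ((3 / 4) - t) ^ 5 +
      (77532984327847 / 439453125000) * (t - (5 / 8)) ^ 1 * ((3 / 4) - t) ^ 4 +
      (11824354236733 / 21972656250) * (t - (5 / 8)) ^ 2 * ((3 / 4) - t) ^ 3 +
      (23731505161853 / 18310546875) * (t - (5 / 8)) ^ 3 * ((3 / 4) - t) ^ 2 +
      (68140343880913 / 54931640625) * (t - (5 / 8)) ^ 4 * ((3 / 4) - t) ^ 1 +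
      (21634146183254 / 54931640625) * (t - (5 / 8)) ^ 5 := by
    positivity
  refine le_of_le_of_eq h ?_
  ring

private theorem s2cG0_0 {x : ℝ} (h1 : 0 ≤ x) (h2 : x ≤ (1 / 2)) :
    0 ≤ (129 / 50) ^ 2 * ((1 + x) * (1 - (143 / 200)) + x ^ 2 * (2 + x) / 2) ^ 2 -
      ((1 + x) ^ 2 + 1) ^ 2 * ((1 - (143 / 200)) ^ 2 + x ^ 2) := by
  have p : 0 ≤ x - 0 := sub_nonneg.2 h1
  have q : 0 ≤ (1 / 2) - x := sub_nonneg.2 h2
  have h : 0 ≤ (21576609 / 1562500) * ((1 / 2) - x) ^ 6 +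
      (151036263 / 1562500) * (x - 0) ^ 1 * ((1 / 2) - x) ^ 5 +
      (1694630129 / 6250000) * (x - 0) ^ 2 * ((1 / 2) - x) ^ 4 +
      (145719676 / 390625) * (x - 0) ^ 3 * ((1 / 2) - x) ^ 3 +
      (1585423879 / 6250000) * (x - 0) ^ 4 * ((1 / 2) - x) ^ 2 +
      (242571091 / 3125000) * (x - 0) ^ 5 * ((1 / 2) - x) ^ 1 +
      (58592231 / 6250000) * (x - 0) ^ 6 := by
    positivity
  refine le_of_le_of_eq h ?_
  ring

private theorem s2cG0_1 {x : ℝ} (h1 : (1 / 2) ≤ x) (h2 : x ≤ 1) :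
    0 ≤ (129 / 50) ^ 2 * ((1 + x) * (1 - (143 / 200)) + x ^ 2 * (2 + x) / 2) ^ 2 -
      ((1 + x) ^ 2 + 1) ^ 2 * ((1 - (143 / 200)) ^ 2 + x ^ 2) := by
  have p : 0 ≤ x - (1 / 2) := sub_nonneg.2 h1
  have q : 0 ≤ 1 - x := sub_nonneg.2 h2
  have h : 0 ≤ (58592231 / 6250000) * (1 - x) ^ 6 +
      (21796459 / 625000) * (x - (1 / 2)) ^ 1 * (1 - x) ^ 5 +
      (249535919 / 6250000) * (x - (1 / 2)) ^ 2 * (1 - x) ^ 4 +
      (40118237 / 781250) * (x - (1 / 2)) ^ 3 * (1 - x) ^ 3 +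
      (1006475209 / 6250000) * (x - (1 / 2)) ^ 4 * (1 - x) ^ 2 +
      (171011949 / 781250) * (x - (1 / 2)) ^ 5 * (1 - x) ^ 1 +
      (37284584 / 390625) * (x - (1 / 2)) ^ 6 := by
    positivity
  refine le_of_le_of_eq h ?_
  ring

private theorem s2cG0_inf {x : ℝ} (h1 : 1 ≤ x) :
    0 ≤ (129 / 50) ^ 2 * ((1 + x) * (1 - (143 / 200)) + x ^ 2 * (2 + x) / 2) ^ 2 -
      ((1 + x) ^ 2 + 1) ^ 2 * ((1 - (143 / 200)) ^ 2 + x ^ 2) := by
  have p : 0 ≤ x - 1 := sub_nonneg.2 h1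
  have h : 0 ≤ (4660573 / 3125000) +
      (276403059 / 25000000) * (x - 1) ^ 1 +
      (3114297409 / 100000000) * (x - 1) ^ 2 +
      (19550659 / 500000) * (x - 1) ^ 3 +
      (23715749 / 1000000) * (x - 1) ^ 4 +
      (6641 / 1000) * (x - 1) ^ 5 +
      (6641 / 10000) * (x - 1) ^ 6 := by
    positivity
  refine le_of_le_of_eq h ?_
  ring

private theorem s2cG1 {x : ℝ} (h1 : (41 / 50) ≤ x) :
    0 ≤ (129 / 50) ^ 2 * ((1 + x) * (1 - (181 / 250)) + x ^ 2 * (2 + x) / 2) ^ 2 -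
      ((1 + x) ^ 2 + 1) ^ 2 * ((1 - (181 / 250)) ^ 2 + x ^ 2) := by
  have p : 0 ≤ x - (41 / 50) := sub_nonneg.2 h1
  have h : 0 ≤ (12776131091441 / 156250000000000) +
      (3861220058343 / 1562500000000) * (x - (41 / 50)) ^ 1 +
      (33837423031 / 2500000000) * (x - (41 / 50)) ^ 2 +
      (1485046193 / 62500000) * (x - (41 / 50)) ^ 3 +
      (18006743 / 1000000) * (x - (41 / 50)) ^ 4 +
      (1480943 / 250000) * (x - (41 / 50)) ^ 5 +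
      (6641 / 10000) * (x - (41 / 50)) ^ 6 := by
    positivity
  refine le_of_le_of_eq h ?_
  ring

private theorem s2cG2 {x : ℝ} (h1 : (7 / 8) ≤ x) :
    0 ≤ (129 / 50) ^ 2 * ((1 + x) * (1 - (183 / 250)) + x ^ 2 * (2 + x) / 2) ^ 2 -
      ((1 + x) ^ 2 + 1) ^ 2 * ((1 - (183 / 250)) ^ 2 + x ^ 2) := by
  have p : 0 ≤ x - (7 / 8) := sub_nonneg.2 h1
  have h : 0 ≤ (48933057361 / 1638400000000) +
      (1807698129337 / 512000000000) * (x - (7 / 8)) ^ 1 +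
      (10939723151479 / 640000000000) * (x - (7 / 8)) ^ 2 +
      (4414421383 / 160000000) * (x - (7 / 8)) ^ 3 +
      (1569361171 / 80000000) * (x - (7 / 8)) ^ 4 +
      (245717 / 40000) * (x - (7 / 8)) ^ 5 +
      (6641 / 10000) * (x - (7 / 8)) ^ 6 := by
    positivity
  refine le_of_le_of_eq h ?_
  ring

private theorem s2cG3 {x : ℝ} (h1 : (187 / 200) ≤ x) :
    0 ≤ (129 / 50) ^ 2 * ((1 + x) * (1 - (37 / 50)) + x ^ 2 * (2 + x) / 2) ^ 2 -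
      ((1 + x) ^ 2 + 1) ^ 2 * ((1 - (37 / 50)) ^ 2 + x ^ 2) := by
  have p : 0 ≤ x - (187 / 200) := sub_nonneg.2 h1
  have h : 0 ≤ (22316719601214169 / 640000000000000000) +
      (8241961473528161 / 1600000000000000) * (x - (187 / 200)) ^ 1 +
      (69561470048483 / 3200000000000) * (x - (187 / 200)) ^ 2 +
      (128784048163 / 4000000000) * (x - (187 / 200)) ^ 3 +
      (1715738107 / 80000000) * (x - (187 / 200)) ^ 4 +
      (6382001 / 1000000) * (x - (187 / 200)) ^ 5 +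
      (6641 / 10000) * (x - (187 / 200)) ^ 6 := by
    positivity
  refine le_of_le_of_eq h ?_
  ring

private theorem s2cG4 {x : ℝ} (h1 : 1 ≤ x) :
    0 ≤ (129 / 50) ^ 2 * ((1 + x) * (1 - (3 / 4)) + x ^ 2 * (2 + x) / 2) ^ 2 -
      ((1 + x) ^ 2 + 1) ^ 2 * ((1 - (3 / 4)) ^ 2 + x ^ 2) := by
  have p : 0 ≤ x - 1 := sub_nonneg.2 h1
  have h : 0 ≤ (631 / 10000) +
      (3673 / 500) * (x - 1) ^ 1 +
      (220357 / 8000) * (x - 1) ^ 2 +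
      (376203 / 10000) * (x - 1) ^ 3 +
      (47003 / 2000) * (x - 1) ^ 4 +
      (6641 / 1000) * (x - 1) ^ 5 +
      (6641 / 10000) * (x - 1) ^ 6 := by
    positivity
  refine le_of_le_of_eq h ?_
  ring

/-! ### The exponential function and the condition -/

private theorem s2cub (z : ℝ) : 1 + z + z ^ 2 / 2 + z ^ 3 / 6 ≤ exp z := by
  rcases le_total 0 z with h | h
  · exact e_ge3 h
  · have h1 := en_ge3 (x := -z) (by linarith)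
    rw [neg_neg] at h1
    refine le_of_eq_of_le ?_ h1
    ring

private theorem s2exp (t : ℝ) :
    36787 / 100000 * (1 + (1 - 2 * t) + (1 - 2 * t) ^ 2 / 2 + (1 - 2 * t) ^ 3 / 6) ≤
      exp (-(2 * t)) := by
  have h1 : (36787 / 100000 : ℝ) ≤ exp (-1) := by
    have h2 : exp 1 < 27182818286 / 10000000000 := by
      have := Real.exp_one_lt_d9
      norm_num at this ⊢
      exact this
    rw [exp_neg]
    have h3 := inv_anti₀ (exp_pos 1) h2.le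
    refine le_trans ?_ h3
    norm_num
  have h4 : exp (-(2 * t)) = exp (-1) * exp (1 - 2 * t) := by
    rw [← exp_add]
    congr 1
    ring
  rw [h4]
  calc 36787 / 100000 * (1 + (1 - 2 * t) + (1 - 2 * t) ^ 2 / 2 + (1 - 2 * t) ^ 3 / 6)
      ≤ 36787 / 100000 * exp (1 - 2 * t) := mul_le_mul_of_nonneg_left (s2cub _) (by norm_num)
    _ ≤ exp (-1) * exp (1 - 2 * t) := mul_le_mul_of_nonneg_right h1 (exp_pos _).le

/-- the square of the condition, `y = -t` -/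
private theorem s2sq {x t : ℝ} (hΦ : 11 / 25 * (√(x ^ 2 + (-t) ^ 2) * exp (-t)) ≤ x * (1 + -t)) :
    121 / 625 * exp (-(2 * t)) * (x ^ 2 + t ^ 2) ≤ x ^ 2 * (1 - t) ^ 2 := by
  have h0 : 0 ≤ 11 / 25 * (√(x ^ 2 + (-t) ^ 2) * exp (-t)) := by positivity
  have h1 := pow_le_pow_left₀ h0 hΦ 2
  have h2 : √(x ^ 2 + (-t) ^ 2) ^ 2 = x ^ 2 + t ^ 2 := by
    rw [Real.sq_sqrt (by positivity)]
    ring
  have h3 : exp (-(2 * t)) = exp (-t) ^ 2 := by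
    rw [← Real.exp_nat_mul]
    congr 1
    push_cast
    ring
  rw [h3]
  calc 121 / 625 * exp (-t) ^ 2 * (x ^ 2 + t ^ 2)
      = (11 / 25 * (√(x ^ 2 + (-t) ^ 2) * exp (-t))) ^ 2 := by
        rw [mul_pow, mul_pow, h2]
        ring
    _ ≤ (x * (1 + -t)) ^ 2 := h1
    _ = x ^ 2 * (1 - t) ^ 2 := by ring

/-- lower bounds for `x` -/
private theorem s2low {x t x₀ t₀ : ℝ} (hx : 0 ≤ x) (h0 : 0 < t₀) (ht : t₀ ≤ t) (h1 : t ≤ 3 / 4)
    (hx0 : 0 < x₀) (hs : 121 / 625 * exp (-(2 * t)) * (x ^ 2 + t ^ 2) ≤ x ^ 2 * (1 - t) ^ 2)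
    (hn : x₀ ^ 2 * (1 - t₀) ^ 2 ≤ 121 / 625 * (36787 / 100000 * (1 + (1 - 2 * t₀) +
      (1 - 2 * t₀) ^ 2 / 2 + (1 - 2 * t₀) ^ 3 / 6)) * (x₀ ^ 2 + t₀ ^ 2)) : x₀ ≤ x := by
  have hn' : x₀ ^ 2 * (1 - t₀) ^ 2 ≤ 121 / 625 * exp (-(2 * t₀)) * (x₀ ^ 2 + t₀ ^ 2) := by
    refine hn.trans ?_
    refine mul_le_mul_of_nonneg_right ?_ (by positivity)
    exact mul_le_mul_of_nonneg_left (s2exp t₀) (by norm_num)
  -- `e^(-t) / (1 - t)` increases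
  have hA : exp (-(2 * t₀)) * (1 - t) ^ 2 ≤ exp (-(2 * t)) * (1 - t₀) ^ 2 := by
    have h2 : 1 - (t - t₀) ≤ exp (-(t - t₀)) := by
      have := add_one_le_exp (-(t - t₀))
      linarith
    have h3 : 1 - t ≤ exp (-(t - t₀)) * (1 - t₀) := by
      have h4 : (1 - (t - t₀)) * (1 - t₀) ≤ exp (-(t - t₀)) * (1 - t₀) :=
        mul_le_mul_of_nonneg_right h2 (by linarith)
      have h5 : 0 ≤ (t - t₀) * t₀ := mul_nonneg (by linarith) h0.le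
      nlinarith
    have h6 : (1 - t) ^ 2 ≤ (exp (-(t - t₀)) * (1 - t₀)) ^ 2 :=
      pow_le_pow_left₀ (by linarith) h3 2
    have h7 : exp (-(2 * t)) = exp (-(2 * t₀)) * exp (-(t - t₀)) ^ 2 := by
      rw [← Real.exp_nat_mul, ← exp_add]
      congr 1
      push_cast
      ring
    rw [h7]
    calc exp (-(2 * t₀)) * (1 - t) ^ 2 ≤ exp (-(2 * t₀)) * (exp (-(t - t₀)) * (1 - t₀)) ^ 2 :=
          mul_le_mul_of_nonneg_left h6 (exp_pos _).le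
      _ = exp (-(2 * t₀)) * exp (-(t - t₀)) ^ 2 * (1 - t₀) ^ 2 := by ring
  have hp : 0 < 121 / 625 * exp (-(2 * t)) * (1 - t₀) ^ 2 := by
    have : 0 < 1 - t₀ := by linarith
    positivity
  have h8 : (121 / 625 * exp (-(2 * t)) * (1 - t₀) ^ 2) * (x₀ ^ 2 * (x ^ 2 + t ^ 2)) ≤
      (121 / 625 * exp (-(2 * t)) * (1 - t₀) ^ 2) * (x ^ 2 * (x₀ ^ 2 + t₀ ^ 2)) := by
    calc (121 / 625 * exp (-(2 * t)) * (1 - t₀) ^ 2) * (x₀ ^ 2 * (x ^ 2 + t ^ 2))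
        = (121 / 625 * exp (-(2 * t)) * (x ^ 2 + t ^ 2)) * (x₀ ^ 2 * (1 - t₀) ^ 2) := by ring
      _ ≤ (x ^ 2 * (1 - t) ^ 2) * (x₀ ^ 2 * (1 - t₀) ^ 2) :=
          mul_le_mul_of_nonneg_right hs (by positivity)
      _ ≤ (x ^ 2 * (1 - t) ^ 2) * (121 / 625 * exp (-(2 * t₀)) * (x₀ ^ 2 + t₀ ^ 2)) :=
          mul_le_mul_of_nonneg_left hn' (by positivity)
      _ = (121 / 625 * x ^ 2 * (x₀ ^ 2 + t₀ ^ 2)) * (exp (-(2 * t₀)) * (1 - t) ^ 2) := by ring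
      _ ≤ (121 / 625 * x ^ 2 * (x₀ ^ 2 + t₀ ^ 2)) * (exp (-(2 * t)) * (1 - t₀) ^ 2) :=
          mul_le_mul_of_nonneg_left hA (by positivity)
      _ = _ := by ring
  have h9 := le_of_mul_le_mul_left h8 hp
  have h10 : (x₀ * t) ^ 2 ≤ (x * t₀) ^ 2 := by nlinarith
  have h11 : x₀ * t ≤ x * t₀ := le_of_pow_le_pow_left₀ two_ne_zero (by positivity) h10
  have h12 : x * t₀ ≤ x * t := mul_le_mul_of_nonneg_left ht hx
  exact le_of_mul_le_mul_right (h11.trans h12) (by linarith)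

/-- `l` increases with `t` -/
private theorem s2mono {x t t₁ : ℝ} (hx : 0 ≤ x) (h0 : 0 ≤ t) (h : t ≤ t₁) (h1 : t₁ ≤ 1)
    (hG : 0 ≤ (129 / 50) ^ 2 * ((1 + x) * (1 - t₁) + x ^ 2 * (2 + x) / 2) ^ 2 -
      ((1 + x) ^ 2 + 1) ^ 2 * ((1 - t₁) ^ 2 + x ^ 2)) :
    0 ≤ (129 / 50) ^ 2 * ((1 + x) * (1 - t) + x ^ 2 * (2 + x) / 2) ^ 2 -
      ((1 + x) ^ 2 + 1) ^ 2 * ((1 - t) ^ 2 + x ^ 2) := by
  have hu0 : 0 ≤ 1 - (t + t₁) / 2 := by linarith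
  have hu1 : 0 ≤ (t + t₁) / 2 := by linarith
  have e : (129 / 50) ^ 2 * ((1 + x) * (1 - t) + x ^ 2 * (2 + x) / 2) ^ 2 -
      ((1 + x) ^ 2 + 1) ^ 2 * ((1 - t) ^ 2 + x ^ 2) =
      ((129 / 50) ^ 2 * ((1 + x) * (1 - t₁) + x ^ 2 * (2 + x) / 2) ^ 2 -
      ((1 + x) ^ 2 + 1) ^ 2 * ((1 - t₁) ^ 2 + x ^ 2)) +
      2 * (t₁ - t) * ((t + t₁) / 2 * ((129 / 50) ^ 2 * ((1 + x) * (x ^ 2 * (2 + x))) / 2) +
        (1 - (t + t₁) / 2) * (6641 / 2500 + 6641 / 1250 * x + 6641 / 1250 * x ^ 2 +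
          29923 / 5000 * x ^ 3 + 11641 / 5000 * x ^ 4)) := by
    ring
  rw [e]
  have ht : 0 ≤ t₁ - t := by linarith
  refine add_nonneg hG ?_
  refine mul_nonneg (by positivity) (add_nonneg (mul_nonneg hu1 (by positivity))
    (mul_nonneg hu0 (by positivity)))

/-- the polynomial inequality for `l` -/
private theorem s2poly {x t : ℝ} (hx : 0 ≤ x) (ht0 : 0 ≤ t) (ht : t ≤ 3 / 4)
    (hs : 121 / 625 * exp (-(2 * t)) * (x ^ 2 + t ^ 2) ≤ x ^ 2 * (1 - t) ^ 2) :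
    0 ≤ (129 / 50) ^ 2 * ((1 + x) * (1 - t) + x ^ 2 * (2 + x) / 2) ^ 2 -
      ((1 + x) ^ 2 + 1) ^ 2 * ((1 - t) ^ 2 + x ^ 2) := by
  rcases le_total t (143 / 200) with h1 | h1
  · refine s2mono hx ht0 h1 (by norm_num) ?_
    rcases le_total x (1 / 2) with h2 | h2
    · exact s2cG0_0 hx h2
    rcases le_total x 1 with h3 | h3
    · exact s2cG0_1 h2 h3
    · exact s2cG0_inf h3
  rcases le_total t (181 / 250) with h2 | h2
  · refine s2mono hx ht0 h2 (by norm_num) (s2cG1 ?_)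
    exact s2low hx (by norm_num) h1 ht (by norm_num) hs (by norm_num)
  rcases le_total t (183 / 250) with h3 | h3
  · refine s2mono hx ht0 h3 (by norm_num) (s2cG2 ?_)
    exact s2low hx (by norm_num) h2 ht (by norm_num) hs (by norm_num)
  rcases le_total t (37 / 50) with h4 | h4
  · refine s2mono hx ht0 h4 (by norm_num) (s2cG3 ?_)
    exact s2low hx (by norm_num) h3 ht (by norm_num) hs (by norm_num)
  · refine s2mono hx ht0 ht (by norm_num) (s2cG4 ?_)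
    exact s2low hx (by norm_num) h4 ht (by norm_num) hs (by norm_num)

private theorem s2pos {x t : ℝ} (ht : 0 < t)
    (hs : 121 / 625 * exp (-(2 * t)) * (x ^ 2 + t ^ 2) ≤ x ^ 2 * (1 - t) ^ 2) :
    121 / 625 * exp (-(2 * t)) < (1 - t) ^ 2 := by
  by_contra hn
  push Not at hn
  have h1 := mul_le_mul_of_nonneg_left hn (sq_nonneg x)
  have h2 : 0 < 121 / 625 * exp (-(2 * t)) * t ^ 2 := by positivity
  nlinarith

private theorem s2El {t : ℝ} : 121 / 625 * (36787 / 100000 * (1 + (1 - 2 * t) +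
    (1 - 2 * t) ^ 2 / 2 + (1 - 2 * t) ^ 3 / 6)) ≤ 121 / 625 * exp (-(2 * t)) :=
  mul_le_mul_of_nonneg_left (s2exp t) (by norm_num)

private theorem s2D' {x t : ℝ} (ht : t ≤ 3 / 4)
    (hs : 121 / 625 * exp (-(2 * t)) * (x ^ 2 + t ^ 2) ≤ x ^ 2 * (1 - t) ^ 2) :
    17 / 50 ≤ (1 - t) ^ 2 + x ^ 2 := by
  by_contra hn
  push Not at hn
  have ht2 : 2 / 5 ≤ t := by
    by_contra h
    push Not at h
    nlinarith [sq_nonneg x]
  have hD : 0 ≤ 121 / 625 * (36787 / 100000 * (1 + (1 - 2 * t) + (1 - 2 * t) ^ 2 / 2 +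
      (1 - 2 * t) ^ 3 / 6)) * (2 * t - 33 / 50) - (17 / 50 - (1 - t) ^ 2) * (1 - t) ^ 2 -
        1 / 5000 := by
    rcases le_total t (39 / 80) with h1 | h1
    · exact s2cD0 ht2 h1
    rcases le_total t (17 / 32) with h2 | h2
    · exact s2cD1 h1 h2
    rcases le_total t (23 / 40) with h3 | h3
    · exact s2cD2 h2 h3
    · exact s2cD3 h3 ht
  obtain ⟨E, hE⟩ : ∃ E, E = 121 / 625 * exp (-(2 * t)) := ⟨_, rfl⟩
  have hp := s2pos (by linarith) hs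
  have hl := s2El (t := t)
  rw [← hE] at hp hs hl
  have h1 : x ^ 2 * ((1 - t) ^ 2 - E) ≤ (17 / 50 - (1 - t) ^ 2) * ((1 - t) ^ 2 - E) :=
    mul_le_mul_of_nonneg_right (by linarith) (by linarith)
  have h2 : E * (2 * t - 33 / 50) ≤ (17 / 50 - (1 - t) ^ 2) * (1 - t) ^ 2 := by
    nlinarith
  have h3 := mul_le_mul_of_nonneg_right hl (show 0 ≤ 2 * t - 33 / 50 by linarith)
  linarith

private theorem s2mu' {x t : ℝ} (ht0 : 1 / 2 ≤ t) (ht : t ≤ 3 / 4)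
    (hs : 121 / 625 * exp (-(2 * t)) * (x ^ 2 + t ^ 2) ≤ x ^ 2 * (1 - t) ^ 2) :
    x ^ 2 + t ^ 2 ≤ 1729 / 1000 * (1 + 2 / 3 * (t - 16 / 25)) * ((1 - t) ^ 2 + x ^ 2) := by
  by_contra hn
  push Not at hn
  have hM : 0 ≤ 121 / 625 * (36787 / 100000 * (1 + (1 - 2 * t) + (1 - 2 * t) ^ 2 / 2 +
      (1 - 2 * t) ^ 3 / 6)) * (1729 / 1000 * (1 + 2 / 3 * (t - 16 / 25))) * (2 * t - 1) -
      (t ^ 2 - 1729 / 1000 * (1 + 2 / 3 * (t - 16 / 25)) * (1 - t) ^ 2) * (1 - t) ^ 2 := by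
    rcases le_total t (5 / 8) with h1 | h1
    · exact s2cM0 ht0 h1
    · exact s2cM1 h1 ht
  obtain ⟨E, hE⟩ : ∃ E, E = 121 / 625 * exp (-(2 * t)) := ⟨_, rfl⟩
  obtain ⟨R, hR⟩ : ∃ R, R = 1729 / 1000 * (1 + 2 / 3 * (t - 16 / 25)) := ⟨_, rfl⟩
  have hR1 : 1 < R := by
    rw [hR]
    linarith
  have hp := s2pos (by linarith) hs
  have hl := s2El (t := t)
  rw [← hE] at hp hs hl
  rw [← hR] at hn hM
  have h1 : (x ^ 2 * (R - 1)) * ((1 - t) ^ 2 - E) < (t ^ 2 - R * (1 - t) ^ 2) * ((1 - t) ^ 2 - E) :=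
    mul_lt_mul_of_pos_right (by linarith) (by linarith)
  have h2 : (E * t ^ 2) * (R - 1) ≤ (x ^ 2 * ((1 - t) ^ 2 - E)) * (R - 1) :=
    mul_le_mul_of_nonneg_right (by linarith) (by linarith)
  have h4 : E * R * (2 * t - 1) < (t ^ 2 - R * (1 - t) ^ 2) * (1 - t) ^ 2 := by
    nlinarith
  have h5 := mul_le_mul_of_nonneg_right hl
    (show 0 ≤ R * (2 * t - 1) from mul_nonneg (by linarith) (by linarith))
  linarith

private theorem s2R {t : ℝ} (ht0 : 1 / 2 ≤ t) :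
    (1729 / 1000 * (1 + 2 / 3 * (t - 16 / 25))) ^ 3 * exp (-(2 * t)) ≤ (6 / 5) ^ 2 := by
  have h1 : 1 + 2 / 3 * (t - 16 / 25) ≤ exp (2 / 3 * (t - 16 / 25)) := by
    have := add_one_le_exp (2 / 3 * (t - 16 / 25))
    linarith
  have h2 := pow_le_pow_left₀ (show 0 ≤ 1 + 2 / 3 * (t - 16 / 25) by linarith) h1 3
  have h3 : exp (2 / 3 * (t - 16 / 25)) ^ 3 * exp (-(2 * t)) = exp (-(32 / 25)) := by
    rw [← Real.exp_nat_mul, ← exp_add]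
    congr 1
    push_cast
    ring
  have h4 : (35957 / 10000 : ℝ) ≤ exp (32 / 25) := by
    have h5 : exp (32 / 25) = exp 1 * exp (7 / 25) := by
      rw [← exp_add]
      norm_num
    have h6 : (27182 / 10000 : ℝ) ≤ exp 1 := by
      have := Real.exp_one_gt_d9
      norm_num at this ⊢
      linarith
    have h7 := s2cub (7 / 25)
    rw [h5]
    calc (35957 / 10000 : ℝ) ≤ 27182 / 10000 * (1 + 7 / 25 + (7 / 25) ^ 2 / 2 + (7 / 25) ^ 3 / 6) := by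
          norm_num
      _ ≤ exp 1 * exp (7 / 25) := mul_le_mul h6 h7 (by norm_num) (exp_pos 1).le
  have h8 : exp (-(32 / 25)) ≤ 10000 / 35957 := by
    rw [exp_neg]
    have := inv_anti₀ (by norm_num) h4
    refine this.trans (le_of_eq (by norm_num))
  calc (1729 / 1000 * (1 + 2 / 3 * (t - 16 / 25))) ^ 3 * exp (-(2 * t))
      = (1729 / 1000) ^ 3 * ((1 + 2 / 3 * (t - 16 / 25)) ^ 3 * exp (-(2 * t))) := by ring
    _ ≤ (1729 / 1000) ^ 3 * (exp (2 / 3 * (t - 16 / 25)) ^ 3 * exp (-(2 * t))) :=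
        mul_le_mul_of_nonneg_left (mul_le_mul_of_nonneg_right h2 (exp_pos _).le) (by norm_num)
    _ = (1729 / 1000) ^ 3 * exp (-(32 / 25)) := by rw [h3]
    _ ≤ (1729 / 1000) ^ 3 * (10000 / 35957) := mul_le_mul_of_nonneg_left h8 (by norm_num)
    _ ≤ (6 / 5) ^ 2 := by norm_num

/-! ### The four inequalities -/

/-- true infimum `.34303` (at `y = -.5385`) -/
theorem s2_D {x y : ℝ} (hx : 0 ≤ x) (hy : -(3 / 4) ≤ y) (hy1 : y ≤ 0)
    (hΦ : 11 / 25 * (√(x ^ 2 + y ^ 2) * exp y) ≤ x * (1 + y)) :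
    17 / 50 ≤ (1 + y) ^ 2 + x ^ 2 := by
  obtain ⟨t, rfl⟩ : ∃ t, y = -t := ⟨-y, by ring⟩
  have h := s2D' (by linarith) (s2sq hΦ)
  refine h.trans (le_of_eq ?_)
  ring

theorem s2_T {x y : ℝ} (hx : 0 ≤ x) (hy : -(3 / 4) ≤ y) (hy1 : y ≤ 0)
    (hΦ : 11 / 25 * (√(x ^ 2 + y ^ 2) * exp y) ≤ x * (1 + y)) :
    -(41 / 20) * x ≤ y := by
  obtain ⟨t, rfl⟩ : ∃ t, y = -t := ⟨-y, by ring⟩
  have hs := s2sq hΦ
  have h1 : (1 - t) ^ 2 ≤ exp (-(2 * t)) := by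
    have h2 : 1 - t ≤ exp (-t) := en_ge1
    have h3 : exp (-(2 * t)) = exp (-t) ^ 2 := by
      rw [← Real.exp_nat_mul]
      congr 1
      push_cast
      ring
    rw [h3]
    exact pow_le_pow_left₀ (by linarith) h2 2
  have hp := exp_pos (-(2 * t))
  have h4 : exp (-(2 * t)) * (121 / 625 * (x ^ 2 + t ^ 2)) ≤ exp (-(2 * t)) * x ^ 2 := by
    have := mul_le_mul_of_nonneg_left h1 (sq_nonneg x)
    nlinarith
  have h5 := le_of_mul_le_mul_left h4 hp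
  have h6 : t ^ 2 ≤ (41 / 20 * x) ^ 2 := by nlinarith [sq_nonneg x]
  have h7 : t ≤ 41 / 20 * x := le_of_pow_le_pow_left₀ two_ne_zero (by positivity) h6
  linarith

/-- true supremum `1.2796` (at `x = .91, y = -.728`); `1.3334` without `hΦ` -/
theorem s2_l {x y : ℝ} (hx : 0 ≤ x) (hy : -(3 / 4) ≤ y) (hy1 : y ≤ 0)
    (hΦ : 11 / 25 * (√(x ^ 2 + y ^ 2) * exp y) ≤ x * (1 + y)) :
    (1 + (1 / (1 + x)) ^ 2) * √((1 + y) ^ 2 + x ^ 2) ≤ 2 * (129 / 100) * Qf x y := by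
  obtain ⟨t, rfl⟩ : ∃ t, y = -t := ⟨-y, by ring⟩
  have hG := s2poly hx (by linarith) (by linarith) (s2sq hΦ)
  have hx1 : 0 < 1 + x := by linarith
  have hq : Qf x (-t) * (1 + x) ^ 2 = (1 + x) * (1 - t) + x ^ 2 * (2 + x) / 2 := by
    unfold Qf
    field_simp
    ring
  have hc : (1 + (1 / (1 + x)) ^ 2) * (1 + x) ^ 2 = (1 + x) ^ 2 + 1 := by
    field_simp
  have hB : 0 ≤ (1 + x) * (1 - t) + x ^ 2 * (2 + x) / 2 := by
    have : 0 ≤ 1 - t := by linarith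
    positivity
  have h1 : ((1 + x) ^ 2 + 1) * √((1 + -t) ^ 2 + x ^ 2) ≤
      129 / 50 * ((1 + x) * (1 - t) + x ^ 2 * (2 + x) / 2) := by
    refine le_of_pow_le_pow_left₀ two_ne_zero (by positivity) ?_
    rw [mul_pow, mul_pow, Real.sq_sqrt (by positivity)]
    have e : (1 + -t) ^ 2 + x ^ 2 = (1 - t) ^ 2 + x ^ 2 := by ring
    rw [e]
    linarith
  have h2 : 0 < (1 + x) ^ 2 := by positivity
  refine le_of_mul_le_mul_right ?_ h2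
  calc (1 + (1 / (1 + x)) ^ 2) * √((1 + -t) ^ 2 + x ^ 2) * (1 + x) ^ 2
      = ((1 + (1 / (1 + x)) ^ 2) * (1 + x) ^ 2) * √((1 + -t) ^ 2 + x ^ 2) := by ring
    _ = ((1 + x) ^ 2 + 1) * √((1 + -t) ^ 2 + x ^ 2) := by rw [hc]
    _ ≤ 129 / 50 * ((1 + x) * (1 - t) + x ^ 2 * (2 + x) / 2) := h1
    _ = 129 / 50 * (Qf x (-t) * (1 + x) ^ 2) := by rw [hq]
    _ = 2 * (129 / 100) * Qf x (-t) * (1 + x) ^ 2 := by ring

/-- true supremum `1.1333` (at `x = .56, y = -.647`) -/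
theorem s2_mu {x y : ℝ} (hx : 0 ≤ x) (hy : -(3 / 4) ≤ y) (hy1 : y ≤ 0)
    (hΦ : 11 / 25 * (√(x ^ 2 + y ^ 2) * exp y) ≤ x * (1 + y)) :
    √(x ^ 2 + y ^ 2) ^ 3 * exp y ≤ 6 / 5 * √((1 + y) ^ 2 + x ^ 2) ^ 3 := by
  obtain ⟨t, rfl⟩ : ∃ t, y = -t := ⟨-y, by ring⟩
  have hD0 : 0 ≤ √((1 + -t) ^ 2 + x ^ 2) := Real.sqrt_nonneg _
  rcases le_total t (1 / 2) with h1 | h1
  · have h2 : √(x ^ 2 + (-t) ^ 2) ≤ √((1 + -t) ^ 2 + x ^ 2) := Real.sqrt_le_sqrt (by nlinarith)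
    have h3 : √(x ^ 2 + (-t) ^ 2) ^ 3 ≤ √((1 + -t) ^ 2 + x ^ 2) ^ 3 :=
      pow_le_pow_left₀ (Real.sqrt_nonneg _) h2 3
    have h4 : exp (-t) ≤ 1 := exp_le_one_iff.2 hy1
    calc √(x ^ 2 + (-t) ^ 2) ^ 3 * exp (-t) ≤ √((1 + -t) ^ 2 + x ^ 2) ^ 3 * 1 :=
          mul_le_mul h3 h4 (exp_pos _).le (by positivity)
      _ ≤ 6 / 5 * √((1 + -t) ^ 2 + x ^ 2) ^ 3 := by
          have : 0 ≤ √((1 + -t) ^ 2 + x ^ 2) ^ 3 := by positivity
          linarith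
  · have h2 := s2mu' h1 (by linarith) (s2sq hΦ)
    have h3 := s2R h1
    obtain ⟨R, hR⟩ : ∃ R, R = 1729 / 1000 * (1 + 2 / 3 * (t - 16 / 25)) := ⟨_, rfl⟩
    have hR0 : 0 < R := by
      rw [hR]
      linarith
    rw [← hR] at h2 h3
    refine le_of_pow_le_pow_left₀ two_ne_zero (by positivity) ?_
    have e1 : (√(x ^ 2 + (-t) ^ 2) ^ 3 * exp (-t)) ^ 2 = (x ^ 2 + t ^ 2) ^ 3 * exp (-(2 * t)) := by
      have e3 : √(x ^ 2 + (-t) ^ 2) ^ 2 = x ^ 2 + t ^ 2 := by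
        rw [Real.sq_sqrt (by positivity)]
        ring
      have e4 : exp (-(2 * t)) = exp (-t) ^ 2 := by
        rw [← Real.exp_nat_mul]
        congr 1
        push_cast
        ring
      rw [e4, ← e3]
      ring
    have e2 : (6 / 5 * √((1 + -t) ^ 2 + x ^ 2) ^ 3) ^ 2 = (6 / 5) ^ 2 * ((1 - t) ^ 2 + x ^ 2) ^ 3 := by
      have e3 : √((1 + -t) ^ 2 + x ^ 2) ^ 2 = (1 - t) ^ 2 + x ^ 2 := by
        rw [Real.sq_sqrt (by positivity)]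
        ring
      rw [← e3]
      ring
    rw [e1, e2]
    have h4 := pow_le_pow_left₀ (by positivity) h2 3
    calc (x ^ 2 + t ^ 2) ^ 3 * exp (-(2 * t))
        ≤ (R * ((1 - t) ^ 2 + x ^ 2)) ^ 3 * exp (-(2 * t)) :=
          mul_le_mul_of_nonneg_right h4 (exp_pos _).le
      _ = (R ^ 3 * exp (-(2 * t))) * ((1 - t) ^ 2 + x ^ 2) ^ 3 := by ring
      _ ≤ (6 / 5) ^ 2 * ((1 - t) ^ 2 + x ^ 2) ^ 3 := mul_le_mul_of_nonneg_right h3 (by positivity)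

end SokalF1B
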