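import Pool.Agent.Lib_MP_af4de1_f1.MainB7

/-!
# The structural facts `NegF` on the small domain
-/

set_option autoImplicit false

open Real SokalF1G

namespace SokalF1B

theorem qf_sq' {x y : ℝ} (hx : 0 ≤ x) :
    Qf x y = (1 / (1 + x)) ^ 2 * ((1 + y) * (1 + x) + x ^ 2 + x ^ 3 / 2) := by
  have h : (1 : ℝ) + x ≠ 0 := by linarith
  unfold Qf
  field_simp
  ring

theorem negF_small {x y : ℝ} (hx : 0 ≤ x) (h0 : -(53 / 100) ≤ y) (h1 : y ≤ 0)
    (hT : -y ≤ 4 / 5 * x) (hD : 13 / 20 ≤ (1 + y) ^ 2 + x ^ 2) : NegF x y := by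
  have hd : 0 < 1 + x := by linarith
  obtain ⟨n, rfl⟩ : ∃ n, y = -n := ⟨-y, by ring⟩
  have n0 : 0 ≤ n := by linarith
  have n1 : n ≤ 53 / 100 := by linarith
  rw [neg_neg] at hT
  have hD0 : 0 ≤ (1 + -n) ^ 2 + x ^ 2 := by positivity
  have hD2 : √((1 + -n) ^ 2 + x ^ 2) ^ 2 = (1 + -n) ^ 2 + x ^ 2 := sq_sqrt hD0
  set D := √((1 + -n) ^ 2 + x ^ 2) with hDd
  have hDp : 0 ≤ D := sqrt_nonneg _
  have hK : √(x ^ 2 + (-n) ^ 2) ≤ 21 / 20 * D := by
    rw [sqrt_le_left (by positivity), mul_pow, hD2]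
    nlinarith
  have hK0 : 0 ≤ √(x ^ 2 + (-n) ^ 2) := sqrt_nonneg _
  have hE : exp (-n) ≤ 1 := by
    rw [exp_le_one_iff]
    linarith
  have hE0 := exp_pos (-n)
  -- `K exp y (1 + n) ≤ x + 2/5 n`
  have hK1 : √(x ^ 2 + (-n) ^ 2) ≤ x + 2 / 5 * n := by
    rw [sqrt_le_left (by positivity)]
    nlinarith [mul_nonneg n0 (sub_nonneg.2 hT)]
  have hE1 : exp (-n) * (1 + n) ≤ 1 := by
    have h2 := add_one_le_exp n
    have h3 : exp (-n) * exp n = 1 := by rw [← exp_add]; simp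
    calc exp (-n) * (1 + n) ≤ exp (-n) * exp n :=
          mul_le_mul_of_nonneg_left (by linarith) hE0.le
      _ = 1 := h3
  have hKE : √(x ^ 2 + (-n) ^ 2) * exp (-n) * (1 + n) ≤ x + 2 / 5 * n := by
    calc √(x ^ 2 + (-n) ^ 2) * exp (-n) * (1 + n) =
          √(x ^ 2 + (-n) ^ 2) * (exp (-n) * (1 + n)) := by ring
      _ ≤ √(x ^ 2 + (-n) ^ 2) * 1 := mul_le_mul_of_nonneg_left hE1 hK0
      _ ≤ _ := by linarith
  have hcp : 0 ≤ (1 / (1 + x)) ^ 2 := by positivity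
  refine ⟨hx, by linarith, h1, by linarith, by linarith, ?_, ?_, ?_, ?_, ?_⟩
  · rw [qf_sq' hx]
    have e : 1 + (1 / (1 + x)) ^ 2 = (1 / (1 + x)) ^ 2 * ((1 + x) ^ 2 + 1) := by
      field_simp
    rw [e]
    have key : ((1 + x) ^ 2 + 1) * D ≤
        2 * (129 / 100) * ((1 + -n) * (1 + x) + x ^ 2 + x ^ 3 / 2) := by
      have hm : 0 ≤ 2 * (129 / 100) * ((1 + -n) * (1 + x) + x ^ 2 + x ^ 3 / 2) := by
        have : 0 ≤ 1 + -n := by linarith
        positivity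
      refine (abs_le_of_sq_le_sq' ?_ hm).2
      rw [mul_pow, hD2]
      obtain ⟨m, hmn⟩ : ∃ m, m = 1 + -n := ⟨_, rfl⟩
      rw [← hmn]
      have m0 : 47 / 100 ≤ m := by linarith
      have m1 : m ≤ 1 := by linarith
      have c2 : 0 ≤ 332820 / 25000 * m - 33590 / 25000 * m ^ 2 - 4 := by nlinarith
      have c3 : 0 ≤ 199692 / 10000 * m - 4 * m ^ 2 - 8 := by nlinarith
      have c4 : 0 ≤ 66564 / 10000 * (1 + m) - m ^ 2 - 8 := by nlinarith
      have e2 : (2 * (129 / 100) * (m * (1 + x) + x ^ 2 + x ^ 3 / 2)) ^ 2 -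
          ((1 + x) ^ 2 + 1) ^ 2 * (m ^ 2 + x ^ 2) =
          26564 / 10000 * m ^ 2 + 53128 / 10000 * m ^ 2 * x +
          (332820 / 25000 * m - 33590 / 25000 * m ^ 2 - 4) * x ^ 2 +
          (199692 / 10000 * m - 4 * m ^ 2 - 8) * x ^ 3 +
          (66564 / 10000 * (1 + m) - m ^ 2 - 8) * x ^ 4 + 26564 / 10000 * x ^ 5 +
          6641 / 10000 * x ^ 6 := by ring
      have e3 : 0 ≤ 26564 / 10000 * m ^ 2 + 53128 / 10000 * m ^ 2 * x +
          (332820 / 25000 * m - 33590 / 25000 * m ^ 2 - 4) * x ^ 2 +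
          (199692 / 10000 * m - 4 * m ^ 2 - 8) * x ^ 3 +
          (66564 / 10000 * (1 + m) - m ^ 2 - 8) * x ^ 4 + 26564 / 10000 * x ^ 5 +
          6641 / 10000 * x ^ 6 := by positivity
      linarith
    calc (1 / (1 + x)) ^ 2 * ((1 + x) ^ 2 + 1) * D =
          (1 / (1 + x)) ^ 2 * (((1 + x) ^ 2 + 1) * D) := by ring
      _ ≤ (1 / (1 + x)) ^ 2 *
          (2 * (129 / 100) * ((1 + -n) * (1 + x) + x ^ 2 + x ^ 3 / 2)) :=
          mul_le_mul_of_nonneg_left key hcp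
      _ = _ := by ring
  · calc √(x ^ 2 + (-n) ^ 2) ^ 3 * exp (-n) ≤ (21 / 20 * D) ^ 3 * 1 := by gcongr
      _ ≤ 6 / 5 * D ^ 3 := by
        have : 0 ≤ D ^ 3 := by positivity
        nlinarith
  · calc √(x ^ 2 + (-n) ^ 2) * exp (-n) ≤ 21 / 20 * D * 1 := by gcongr
      _ ≤ 2 * D ^ 3 := by
        have : D ^ 3 = D ^ 2 * D := by ring
        rw [this, hD2]
        have h2 := mul_le_mul_of_nonneg_right hD hDp
        linarith
  · rw [qf_sq' hx]
    have key : √(x ^ 2 + (-n) ^ 2) * exp (-n) ≤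
        3 / 5 * ((1 + -n) * (1 + x) + x ^ 2 + x ^ 3 / 2) := by
      have h2 : x + 2 / 5 * n ≤
          3 / 5 * ((1 + -n) * (1 + x) + x ^ 2 + x ^ 3 / 2) * (1 + n) := by
        have h3 : 0 ≤ n * x ^ 2 := by positivity
        have h4 : 0 ≤ (1 + n) * x ^ 3 := by positivity
        have h5 : n ^ 2 ≤ 53 / 100 * n := by nlinarith
        have h6 : n ^ 2 * x ≤ 281 / 1000 * x := by
          have : n ^ 2 ≤ 281 / 1000 := by nlinarith
          exact mul_le_mul_of_nonneg_right this hx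
        nlinarith [sq_nonneg (x - 47 / 100)]
      have h3 := hKE.trans h2
      exact le_of_mul_le_mul_right h3 (by linarith)
    calc (1 / (1 + x)) ^ 2 * (√(x ^ 2 + (-n) ^ 2) * exp (-n)) ≤
          (1 / (1 + x)) ^ 2 * (3 / 5 * ((1 + -n) * (1 + x) + x ^ 2 + x ^ 3 / 2)) :=
          mul_le_mul_of_nonneg_left key hcp
      _ = _ := by ring
  · rw [qf_sq' hx]
    have key : √(x ^ 2 + (-n) ^ 2) * exp (-n) * (1 + x) ^ 2 ≤
        21 / 10 * ((1 + -n) * (1 + x) + x ^ 2 + x ^ 3 / 2) := by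
      have h2 : (x + 2 / 5 * n) * (1 + x) ^ 2 ≤
          21 / 10 * ((1 + -n) * (1 + x) + x ^ 2 + x ^ 3 / 2) * (1 + n) := by
        have a0 : 0 ≤ 21 / 10 * (1 - n ^ 2) - 2 / 5 * n := by nlinarith
        have a1 : 0 ≤ 21 / 10 * (1 - n ^ 2) - 1 - 4 / 5 * n := by nlinarith
        have a2 : 0 ≤ 21 / 10 * (1 + n) - 2 - 2 / 5 * n := by nlinarith
        have a3 : 0 ≤ 21 / 20 * (1 + n) - 1 := by nlinarith
        have e : 21 / 10 * ((1 + -n) * (1 + x) + x ^ 2 + x ^ 3 / 2) * (1 + n) -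
            (x + 2 / 5 * n) * (1 + x) ^ 2 =
            (21 / 10 * (1 - n ^ 2) - 2 / 5 * n) +
            (21 / 10 * (1 - n ^ 2) - 1 - 4 / 5 * n) * x +
            (21 / 10 * (1 + n) - 2 - 2 / 5 * n) * x ^ 2 +
            (21 / 20 * (1 + n) - 1) * x ^ 3 := by ring
        have e2 : 0 ≤ (21 / 10 * (1 - n ^ 2) - 2 / 5 * n) +
            (21 / 10 * (1 - n ^ 2) - 1 - 4 / 5 * n) * x +
            (21 / 10 * (1 + n) - 2 - 2 / 5 * n) * x ^ 2 +
            (21 / 20 * (1 + n) - 1) * x ^ 3 := by positivity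
        linarith
      have h3 := mul_le_mul_of_nonneg_right hKE (sq_nonneg (1 + x))
      have h4 : √(x ^ 2 + (-n) ^ 2) * exp (-n) * (1 + n) * (1 + x) ^ 2 =
          √(x ^ 2 + (-n) ^ 2) * exp (-n) * (1 + x) ^ 2 * (1 + n) := by ring
      rw [h4] at h3
      exact le_of_mul_le_mul_right (h3.trans h2) (by linarith)
    calc √(x ^ 2 + (-n) ^ 2) * exp (-n) =
          (1 / (1 + x)) ^ 2 * (√(x ^ 2 + (-n) ^ 2) * exp (-n) * (1 + x) ^ 2) := by
          field_simp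
      _ ≤ (1 / (1 + x)) ^ 2 * (21 / 10 * ((1 + -n) * (1 + x) + x ^ 2 + x ^ 3 / 2)) :=
          mul_le_mul_of_nonneg_left key hcp
      _ = _ := by ring

end SokalF1B
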