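import Pool.Agent.Lib_MP_af4de1_f1.MainC
import Pool.Agent.Lib_MP_af4de1_f1.GLem

/-!
# The wave at the angle `sE (r δ) y + θ` on the path through the saddle point of `sE (r δ) y`

`Ht x y θ a s = a s - x (e^a cos (s+θ) - 1 - a) + y (e^a sin (s+θ) - s)`, `|f| = exp (- Ht/δ)`.
-/

set_option autoImplicit false

open Complex MeasureTheory Filter Topology SokalU SokalPG SokalF1 SokalF1S

namespace SokalF1M

/-- the height of the shifted path -/
noncomputable def Ht (x y θ a s : ℝ) : ℝ :=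
  a * s - x * (Real.exp a * Real.cos (s + θ) - 1 - a) + y * (Real.exp a * Real.sin (s + θ) - s)

theorem Ht_zero (x y a s : ℝ) : Ht x y 0 a s = SokalF1G.Ha x y a s := by
  unfold Ht SokalF1G.Ha
  rw [add_zero]

theorem pc_ga {x s : ℝ} (hx : 0 ≤ x) : pc (1 + x)⁻¹ (1 + x) s = SokalF1G.ga x s := by
  unfold pc SokalF1G.ga
  have h : (1 + x)⁻¹ * (1 + x) = 1 := inv_mul_cancel₀ (by linarith)
  rw [h, inv_mul_eq_div]

/-- The modulus of the integrand. -/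
theorem norm_f_shift {δ : ℝ} (ρ y θ a s : ℝ) :
    ‖f (-((δ : ℂ) * I)) (sK ρ y / δ) (θ * I) (a + s * I)‖ =
      Real.exp (-(Ht (sx ρ y) y θ a s / δ)) := by
  unfold f
  rw [Complex.norm_exp]
  congr 1
  have e1 : ((a : ℂ) + s * I) ^ 2 / (2 * -((δ : ℂ) * I)) =
      ((-(a * s / δ) : ℝ) : ℂ) + (((a ^ 2 - s ^ 2) / (2 * δ) : ℝ) : ℂ) * I := by
    rcases eq_or_ne δ 0 with rfl | hδ
    · simp
    have hd : (δ : ℂ) ≠ 0 := by exact_mod_cast hδ
    push_cast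
    field_simp
    ring_nf
    rw [Complex.I_sq]
    ring
  have e2 : cexp (θ * I + (a + s * I)) =
      ((Real.exp a * Real.cos (s + θ) : ℝ) : ℂ) + ((Real.exp a * Real.sin (s + θ) : ℝ) : ℂ) * I := by
    have : (θ : ℂ) * I + (a + s * I) = (a : ℂ) + ((s + θ : ℝ) : ℂ) * I := by push_cast; ring
    rw [this, Complex.exp_add, Complex.exp_mul_I, ← Complex.ofReal_exp, ← Complex.ofReal_cos,
      ← Complex.ofReal_sin]
    push_cast
    ring
  rw [e1, e2]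
  have e3 : sK ρ y / δ = ((1 / δ : ℝ) : ℂ) * sK ρ y := by push_cast; ring
  rw [e3]
  unfold sK Ht
  simp only [Complex.add_re, Complex.mul_re, Complex.sub_re, Complex.add_im, Complex.mul_im,
    Complex.sub_im, Complex.ofReal_re, Complex.ofReal_im, Complex.I_re, Complex.I_im,
    Complex.one_re, Complex.one_im]
  ring

/-- The absolute integral on the path with weight `e^(j a)`. -/
noncomputable def mI (c s1 r δ y θ : ℝ) (j : ℕ) : ℝ :=
  ∫ s : ℝ, ‖pv c s1 s‖ * (Real.exp (j * pc c s1 s) *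
    Real.exp (-(Ht (sx (r * δ) y) y θ (pc c s1 s) s / δ)))

theorem wp_add {r δ y : ℝ} (hδ : 0 < δ) (hD : Dom (r * δ) y) (θ : ℝ) :
    wp r δ (sE (r * δ) y + θ) = zp (-((δ : ℂ) * I)) (sK (r * δ) y / δ) * cexp (θ * I) := by
  rw [← wp_eq_zp hδ hD]
  unfold wp
  rw [mul_assoc, ← Complex.exp_add]
  congr 2
  push_cast
  ring

theorem norm_gi_shift {c s1 δ : ℝ} (a : ℂ) (ρ y θ : ℝ) (j : ℕ) (s : ℝ) :
    ‖gi c s1 (fun h => (a * cexp (θ * I + h)) ^ j) (sK ρ y / δ) (θ * I)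
      (-((δ : ℂ) * I)) s‖ = ‖a‖ ^ j * (‖pv c s1 s‖ * (Real.exp (j * pc c s1 s) *
        Real.exp (-(Ht (sx ρ y) y θ (pc c s1 s) s / δ)))) := by
  unfold gi
  rw [norm_mul, norm_mul, show pz c s1 s = (pc c s1 s : ℂ) + s * I from rfl,
    norm_f_shift, norm_pow, norm_mul, Complex.norm_exp, mul_pow, ← Real.exp_nat_mul]
  have e : ((θ : ℂ) * I + ((pc c s1 s : ℂ) + s * I)).re = pc c s1 s := by simp
  rw [e]
  ring

theorem im_kappa {ρ δ y c s1 : ℝ} (hδ : 0 < δ) (hk : |y| < c * s1) :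
    |(sK ρ y / δ : ℂ).im| < c * s1 / δ := by
  have e : (sK ρ y / δ : ℂ) = ((1 / δ : ℝ) : ℂ) * sK ρ y := by push_cast; ring
  have e2 : (sK ρ y).im = y := by unfold sK; simp
  rw [e, Complex.im_ofReal_mul, e2, abs_mul, abs_of_pos (by positivity : 0 < 1 / δ), one_div,
    inv_mul_eq_div]
  gcongr

theorem integrable_mI {ρ δ y c s1 : ℝ} (hc : 0 < c) (hs : 0 < s1) (hcs : c * s1 ≤ 1)
    (hδ : 0 < δ) (hk : |y| < c * s1) (θ : ℝ) (j : ℕ) :
    Integrable fun s : ℝ => ‖pv c s1 s‖ * (Real.exp (j * pc c s1 s) *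
      Real.exp (-(Ht (sx ρ y) y θ (pc c s1 s) s / δ))) := by
  have h1 := (integrable_path hc hs hcs hδ (sK ρ y / δ) (θ * I) (im_kappa hδ hk)
    (Wt_pow 1 (θ * I) j)).norm
  refine h1.congr (Eventually.of_forall fun s => ?_)
  simp only
  rw [norm_gi_shift, norm_one, one_pow, one_mul]

theorem Ef_shift_le {r δ y c s1 : ℝ} (hc : 0 < c) (hs : 0 < s1) (hcs : c * s1 ≤ 1)
    (hδ : 0 < δ) (hD : Dom (r * δ) y) (hy : -1 < y) (hk : |y| < c * s1) (θ : ℝ) (j : ℕ) :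
    ‖Ef j (tt δ) (wp r δ (sE (r * δ) y + θ))‖ ≤
      ‖sK (r * δ) y / δ‖ ^ j * sM r δ y * mI c s1 r δ y θ j / sG r δ y := by
  have hk' := im_kappa (ρ := r * δ) hδ hk
  have h1 := congrArg norm (path_formula hc hs hcs hδ (sK (r * δ) y / δ) (θ * I) hk' j)
  rw [← wp_add hδ hD, norm_mul, norm_mul, norm_gcst hδ, Complex.norm_exp, S_re hδ] at h1
  have h2 : 0 < √(2 * Real.pi * δ) := Real.sqrt_pos.2 (by have := Real.pi_pos; positivity)
  have h3 := sM_sG (r := r) hδ hy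
  have h4 : ‖∫ s : ℝ, gi c s1 (fun h => (sK (r * δ) y / δ * cexp (θ * I + h)) ^ j)
      (sK (r * δ) y / δ) (θ * I) (-((δ : ℂ) * I)) s‖ ≤
      ‖sK (r * δ) y / δ‖ ^ j * mI c s1 r δ y θ j := by
    refine (norm_integral_le_integral_norm _).trans (le_of_eq ?_)
    unfold mI
    rw [← integral_const_mul]
    refine integral_congr_ae (Eventually.of_forall fun s => ?_)
    exact norm_gi_shift _ _ _ _ _ _
  have h5 : ‖Ef j (tt δ) (wp r δ (sE (r * δ) y + θ))‖ =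
      Real.exp (sx (r * δ) y * (1 + y) / δ) / √(2 * Real.pi * δ) *
        ‖∫ s : ℝ, gi c s1 (fun h => (sK (r * δ) y / δ * cexp (θ * I + h)) ^ j)
          (sK (r * δ) y / δ) (θ * I) (-((δ : ℂ) * I)) s‖ := by
    rw [div_mul_eq_mul_div, eq_div_iff h2.ne', ← h1, mul_comm]
    rfl
  rw [h5, h3]
  have h6 : 0 ≤ sM r δ y / sG r δ y := by
    rw [← h3]
    positivity
  calc sM r δ y / sG r δ y * ‖∫ s : ℝ, gi c s1 (fun h => (sK (r * δ) y / δ *
        cexp (θ * I + h)) ^ j) (sK (r * δ) y / δ) (θ * I) (-((δ : ℂ) * I)) s‖ ≤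
      sM r δ y / sG r δ y * (‖sK (r * δ) y / δ‖ ^ j * mI c s1 r δ y θ j) :=
        mul_le_mul_of_nonneg_left h4 h6
    _ = _ := by ring

end SokalF1M
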