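import Pool.Agent.Lib_MP_af4de1_f1.TwoPiece

/-!
# N = 1, large `rho`: the condition (U) from the moments

`R = c_R R0`, `DR = c_R (-(i/δ)(h R0 + R1))`, `D²R = c_R ((i/δ) R0 - (1/δ²)(h² R0 + 2 h R1 + R2))`, `h = a_R + i s_R`, and the
same for `L` with `h' = -a_L + i s_L`.  With `K = δ DR/R = -i(h + r1)`, `r_j = R_j/R0`, `δ²(D²R/R - (DR/R)²) = iδ - r2 + r1² =: Λ_R`,
`μ = δ m`: `δ m (D²F/DF - DF/F) = (K_R + μ)(K_L + μ) + (Λ_R (K_L + μ) - Λ_L (K_R + μ))/(K_R - K_L)` (`SokalF1.U_pos`,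
`U_formula` with `P = Q = S = 0`), and with `x = Re`, `y = |Im|`: `x_R ≥ s_R - e_R + μ`, `y_R ≤ a_R + e_R`, ..., `‖K_R - K_L‖ ≥ p`.
The function `p (x x' - y y') - W (x' + y') - W' (x + y)` is increasing in `x`, `x'`.
-/

set_option autoImplicit false

namespace SokalN1

open Complex

private theorem crit_piece {δ : ℝ} (hδ : 0 < δ) {h R0 R1 R2 c R DR D2R : ℂ} (hR0 : R0 ≠ 0)
    (hR : R = c * R0) (hDR : DR = c * (-(I / δ) * (h * R0 + R1)))
    (hD2R : D2R = c * (I / δ * R0 - 1 / δ ^ 2 * (h ^ 2 * R0 + 2 * h * R1 + R2))) :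
    DR = (-(I * (h + R1 / R0)) / δ) * R ∧
      D2R = ((-(I * (h + R1 / R0)) / δ) ^ 2 + (I * δ - R2 / R0 + (R1 / R0) ^ 2) / δ ^ 2) * R := by
  have hδc : (δ : ℂ) ≠ 0 := by exact_mod_cast hδ.ne'
  constructor
  · rw [hDR, hR]
    field_simp
  · rw [hD2R, hR]
    have hI : I ^ 2 = -1 := I_sq
    have e : (-(I * (h + R1 / R0)) / δ) ^ 2 = -(h + R1 / R0) ^ 2 / δ ^ 2 := by
      rw [div_pow, neg_sq, mul_pow, hI]
      ring
    rw [e]
    field_simp
    ring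

/-- real part and imaginary part of `K`, the size of `Λ` -/
private theorem crit_bd {δ a s e V : ℝ} (hδ : 0 < δ) {R0 R1 R2 : ℂ} (hR0 : R0 ≠ 0)
    (hR1 : ‖R1‖ ≤ e * ‖R0‖) (hR2 : ‖R2‖ ≤ V * ‖R0‖) :
    0 ≤ e ∧ 0 ≤ V ∧ |(-(I * ((a + s * I) + R1 / R0))).re - s| ≤ e ∧
      |(-(I * ((a + s * I) + R1 / R0))).im| ≤ |a| + e ∧
      ‖I * δ - R2 / R0 + (R1 / R0) ^ 2‖ ≤ δ + V + e ^ 2 := by
  have hn : 0 < ‖R0‖ := norm_pos_iff.2 hR0
  have h1 : ‖R1 / R0‖ ≤ e := by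
    rw [norm_div, div_le_iff₀ hn]
    exact hR1
  have h2 : ‖R2 / R0‖ ≤ V := by
    rw [norm_div, div_le_iff₀ hn]
    exact hR2
  have he : 0 ≤ e := (norm_nonneg _).trans h1
  have hV : 0 ≤ V := (norm_nonneg _).trans h2
  refine ⟨he, hV, ?_, ?_, ?_⟩
  · have e1 : (-(I * ((a + s * I) + R1 / R0))).re - s = (R1 / R0).im := by
      simp
    rw [e1]
    exact (Complex.abs_im_le_norm _).trans h1
  · have e1 : (-(I * ((a + s * I) + R1 / R0))).im = -a + -(R1 / R0).re := by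
      simp
      ring
    rw [e1]
    refine (abs_add_le _ _).trans ?_
    rw [abs_neg, abs_neg]
    linarith [(Complex.abs_re_le_norm (R1 / R0)).trans h1]
  · refine (norm_add_le _ _).trans (add_le_add ((norm_sub_le _ _).trans (add_le_add ?_ h2)) ?_)
    · rw [norm_mul, Complex.norm_I, Complex.norm_real, Real.norm_of_nonneg hδ.le, one_mul]
    · rw [norm_pow]
      exact pow_le_pow_left₀ (norm_nonneg _) h1 2

private theorem crit_norm {z : ℂ} {y : ℝ} (hx : 0 < z.re) (hy : |z.im| ≤ y) : ‖z‖ ≤ z.re + y := by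
  refine (Complex.norm_le_abs_re_add_abs_im z).trans ?_
  rw [abs_of_pos hx]
  linarith

private theorem crit_core {KR KL ΛR ΛL : ℂ} {μ p x0 x0' y0 y0' W W' : ℝ} (hμ : 0 ≤ μ) (hp : 0 < p)
    (hx : x0 ≤ KR.re) (hx' : x0' ≤ KL.re) (hx0 : 0 < x0) (hx0' : 0 < x0')
    (hy : |KR.im| ≤ y0) (hy' : |KL.im| ≤ y0') (hW : ‖ΛR‖ ≤ W) (hW' : ‖ΛL‖ ≤ W')
    (hpK : p ≤ KR.re - KL.re)
    (hcrit : p * (y0 * y0') + W * (x0' + y0') + W' * (x0 + y0) < p * (x0 * x0')) :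
    0 < ((KR + μ) * (KL + μ) + (ΛR * (KL + μ) - ΛL * (KR + μ)) / (KR - KL)).re := by
  have hy0 : 0 ≤ y0 := (abs_nonneg _).trans hy
  have hy0' : 0 ≤ y0' := (abs_nonneg _).trans hy'
  have hW0 : 0 ≤ W := (norm_nonneg _).trans hW
  have hW0' : 0 ≤ W' := (norm_nonneg _).trans hW'
  have hKK : p ≤ ‖KR - KL‖ := by
    refine hpK.trans ?_
    rw [← Complex.sub_re]
    exact Complex.re_le_norm _
  set x := (KR + μ).re with hxdef
  set x' := (KL + μ).re with hx'def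
  have hxx : x0 ≤ x := by
    rw [hxdef, Complex.add_re, Complex.ofReal_re]
    linarith
  have hxx' : x0' ≤ x' := by
    rw [hx'def, Complex.add_re, Complex.ofReal_re]
    linarith
  have him : |(KR + μ).im| ≤ y0 := by
    rw [Complex.add_im, Complex.ofReal_im, add_zero]
    exact hy
  have him' : |(KL + μ).im| ≤ y0' := by
    rw [Complex.add_im, Complex.ofReal_im, add_zero]
    exact hy'
  have n1 : ‖KR + μ‖ ≤ x + y0 := crit_norm (by linarith) him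
  have n2 : ‖KL + μ‖ ≤ x' + y0' := crit_norm (by linarith) him'
  have hre1 : x * x' - y0 * y0' ≤ ((KR + μ) * (KL + μ)).re := by
    rw [Complex.mul_re]
    have h1 : |(KR + μ).im * (KL + μ).im| ≤ y0 * y0' := by
      rw [abs_mul]
      exact mul_le_mul him him' (abs_nonneg _) hy0
    have h2 := (abs_le.1 h1).2
    linarith
  have hN : ‖(ΛR * (KL + μ) - ΛL * (KR + μ)) / (KR - KL)‖ ≤
      (W * (x' + y0') + W' * (x + y0)) / p := by
    rw [norm_div]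
    have hnum : ‖ΛR * (KL + μ) - ΛL * (KR + μ)‖ ≤ W * (x' + y0') + W' * (x + y0) := by
      refine (norm_sub_le _ _).trans (add_le_add ?_ ?_)
      · rw [norm_mul]
        exact mul_le_mul hW n2 (norm_nonneg _) hW0
      · rw [norm_mul]
        exact mul_le_mul hW' n1 (norm_nonneg _) hW0'
    exact div_le_div₀ ((norm_nonneg _).trans hnum) hnum hp hKK
  have hre2 : -((W * (x' + y0') + W' * (x + y0)) / p) ≤
      ((ΛR * (KL + μ) - ΛL * (KR + μ)) / (KR - KL)).re :=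
    (abs_le.1 ((Complex.abs_re_le_norm _).trans hN)).1
  rw [Complex.add_re]
  have hA : W' ≤ p * x0' := by
    by_contra hcon
    push Not at hcon
    have h1 : p * x0' * x0 ≤ W' * x0 := mul_le_mul_of_nonneg_right hcon.le hx0.le
    have h2 : 0 ≤ p * (y0 * y0') := by positivity
    have h3 : 0 ≤ W * (x0' + y0') := mul_nonneg hW0 (by linarith)
    have h4 : 0 ≤ W' * y0 := by positivity
    nlinarith
  have hB : W ≤ p * x0 := by
    by_contra hcon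
    push Not at hcon
    have h1 : p * x0 * x0' ≤ W * x0' := mul_le_mul_of_nonneg_right hcon.le hx0'.le
    have h2 : 0 ≤ p * (y0 * y0') := by positivity
    have h3 : 0 ≤ W' * (x0 + y0) := mul_nonneg hW0' (by linarith)
    have h4 : 0 ≤ W * y0' := by positivity
    nlinarith
  have key : (W * (x' + y0') + W' * (x + y0)) < p * (x * x' - y0 * y0') := by
    have h1 : 0 ≤ (x - x0) * (p * x0' - W') := mul_nonneg (by linarith) (by linarith)
    have h2 : 0 ≤ (x' - x0') * (p * x0 - W) := mul_nonneg (by linarith) (by linarith)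
    have h3 : 0 ≤ p * ((x - x0) * (x' - x0')) :=
      mul_nonneg hp.le (mul_nonneg (by linarith) (by linarith))
    nlinarith
  have key2 : (W * (x' + y0') + W' * (x + y0)) / p < x * x' - y0 * y0' := by
    rw [div_lt_iff₀ hp]
    linarith
  linarith

theorem crit {δ m eR eL VR VL aR aL sR sL p : ℝ} {R0 R1 R2 L0 L1 L2 cR cL : ℂ} (hδ : 0 < δ) (hm : 0 < m)
    (hR0 : R0 ≠ 0) (hL0 : L0 ≠ 0) (hcR : cR ≠ 0) (hcL : cL ≠ 0)
    (hR1 : ‖R1‖ ≤ eR * ‖R0‖) (hR2 : ‖R2‖ ≤ VR * ‖R0‖) (hL1 : ‖L1‖ ≤ eL * ‖L0‖) (hL2 : ‖L2‖ ≤ VL * ‖L0‖)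
    (haR : 0 ≤ aR) (haL : 0 ≤ aL) (hp : 0 < p) (hp2 : p ≤ sR - sL - eR - eL) (hxR : eR < sR) (hxL : eL < sL)
    (hcrit : (aR + eR) * (aL + eL) * p + (δ + VR + eR ^ 2) * (sL + aL) + (δ + VL + eL ^ 2) * (sR + aR) <
      p * (sR - eR) * (sL - eL))
    {R DR D2R L DL D2L : ℂ} (hRe : R = cR * R0) (hLe : L = cL * L0)
    (hDR : DR = cR * (-(I / δ) * ((aR + sR * I) * R0 + R1)))
    (hDL : DL = cL * (-(I / δ) * ((-aL + sL * I) * L0 + L1)))
    (hD2R : D2R = cR * (I / δ * R0 - 1 / δ ^ 2 * ((aR + sR * I) ^ 2 * R0 + 2 * (aR + sR * I) * R1 + R2)))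
    (hD2L : D2L = cL * (I / δ * L0 - 1 / δ ^ 2 * ((-aL + sL * I) ^ 2 * L0 + 2 * (-aL + sL * I) * L1 + L2)))
    (h : (DR + DL) + m * (R + L) = 0) :
    0 < ((D2R + D2L) / (DR + DL) - (DR + DL) / (R + L)).re := by
  have hδc : (δ : ℂ) ≠ 0 := by exact_mod_cast hδ.ne'
  have hmc : (m : ℂ) ≠ 0 := by exact_mod_cast hm.ne'
  obtain ⟨hDR', hD2R'⟩ := crit_piece hδ hR0 hRe hDR hD2R
  obtain ⟨hDL', hD2L'⟩ := crit_piece hδ hL0 hLe hDL hD2L
  obtain ⟨heR, hVR, b1, b2, b3⟩ := crit_bd (a := aR) (s := sR) hδ hR0 hR1 hR2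
  obtain ⟨heL, hVL, d1, d2, d3⟩ := crit_bd (a := -aL) (s := sL) hδ hL0 hL1 hL2
  rw [Complex.ofReal_neg] at d1 d2
  set KR : ℂ := -(I * ((aR + sR * I) + R1 / R0)) with hKR
  set KL : ℂ := -(I * ((-aL + sL * I) + L1 / L0)) with hKL
  set ΛR : ℂ := I * δ - R2 / R0 + (R1 / R0) ^ 2 with hΛR
  set ΛL : ℂ := I * δ - L2 / L0 + (L1 / L0) ^ 2 with hΛL
  rw [abs_of_nonneg haR] at b2
  rw [abs_neg, abs_of_nonneg haL] at d2
  have hR : R ≠ 0 := by
    rw [hRe]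
    exact mul_ne_zero hcR hR0
  have c1 := abs_le.1 b1
  have c2 := abs_le.1 d1
  have hpK : p ≤ KR.re - KL.re := by linarith
  have hμ : 0 ≤ δ * m := by positivity
  have core := crit_core (KR := KR) (KL := KL) (ΛR := ΛR) (ΛL := ΛL) (μ := δ * m) (p := p)
    (x0 := sR - eR) (x0' := sL - eL) (y0 := aR + eR) (y0' := aL + eL) (W := δ + VR + eR ^ 2)
    (W' := δ + VL + eL ^ 2) hμ hp (by linarith) (by linarith) (by linarith) (by linarith) b2 d2 b3 d3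
    hpK (by
      have e1 : sL - eL + (aL + eL) = sL + aL := by ring
      have e2 : sR - eR + (aR + eR) = sR + aR := by ring
      rw [e1, e2]
      linarith)
  have hKRm : KR + (δ * m : ℝ) ≠ 0 := by
    intro h0
    have h1 := congrArg Complex.re h0
    rw [Complex.add_re, Complex.ofReal_re, Complex.zero_re] at h1
    linarith
  have hKLm : KL + (δ * m : ℝ) ≠ 0 := by
    intro h0
    have h1 := congrArg Complex.re h0
    rw [Complex.add_re, Complex.ofReal_re, Complex.zero_re] at h1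
    linarith
  have hKK : KR - KL ≠ 0 := by
    intro h0
    have h1 := congrArg Complex.re h0
    rw [Complex.sub_re, Complex.zero_re] at h1
    linarith
  have e0 : KR / δ + m = (KR + (δ * m : ℝ)) / δ := by
    push_cast
    field_simp
  have e1 : KL / δ + m = (KL + (δ * m : ℝ)) / δ := by
    push_cast
    field_simp
  have e01 : KR / δ - KL / δ = (KR - KL) / δ := by
    ring
  have f0 : KR / δ + m ≠ 0 := by
    rw [e0]
    exact div_ne_zero hKRm hδc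
  have f1 : KL / δ + m ≠ 0 := by
    rw [e1]
    exact div_ne_zero hKLm hδc
  have f01 : KR / δ - KL / δ ≠ 0 := by
    rw [e01]
    exact div_ne_zero hKK hδc
  have key := SokalF1.U_formula (κ0 := KR / δ) (κ1 := KL / δ) (l0 := ΛR / δ ^ 2) (l1 := ΛL / δ ^ 2)
    (p0 := R) (p1 := L) (P := 0) (Q := 0) (S := 0) hm (by
      rw [← hDR', ← hDL', add_zero, add_zero]
      exact h) f0 f1 f01 hR (by simp)
  rw [← hDR', ← hDL', ← hD2R', ← hD2L', add_zero, add_zero, add_zero] at key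
  rw [key]
  have e : (KR / δ + m) * (KL / δ + m) / m *
      ((1 + (ΛR / δ ^ 2 / (KR / δ + m) - ΛL / δ ^ 2 / (KL / δ + m)) / (KR / δ - KL / δ) +
        (0 + m * 0 - (KL / δ + ΛL / δ ^ 2 / (KL / δ + m)) * (0 + m * 0)) /
          ((KR / δ + m) * (KR / δ - KL / δ) * R)) /
        (1 + (0 - KL / δ * 0) / ((KR / δ - KL / δ) * R))) =
      ((1 / (δ ^ 2 * m) : ℝ) : ℂ) * ((KR + (δ * m : ℝ)) * (KL + (δ * m : ℝ)) +
        (ΛR * (KL + (δ * m : ℝ)) - ΛL * (KR + (δ * m : ℝ))) / (KR - KL)) := by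
    have z1 : (0 + (m : ℂ) * 0 - (KL / δ + ΛL / δ ^ 2 / (KL / δ + m)) * (0 + m * 0)) = 0 := by ring
    have z2 : (0 - KL / δ * 0 : ℂ) = 0 := by ring
    rw [z1, z2, zero_div, zero_div, add_zero, add_zero, div_one, e0, e1, e01]
    set A := KR + (δ * m : ℝ) with hA
    set B := KL + (δ * m : ℝ) with hB
    set C := KR - KL with hC
    push_cast
    field_simp
  rw [e, Complex.re_ofReal_mul]
  positivity

theorem crit_A {δ aR aL sR sL : ℝ} (hδ : 0 < δ) (hδ2 : δ ≤ 2606 / 10000) (hsR : 8 ≤ sR) (haR : 0 ≤ aR)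
    (haR2 : aR ≤ 461 / 10000 * sR) (hsL : 2089 / 1000 ≤ sL) (haL : 0 ≤ aL) (haL2 : aL ≤ 6 / 5) :
    (aR + 3 / 10) * (aL + 84 / 100) * (452 / 100) + (δ + 65 / 100 + (3 / 10) ^ 2) * (sL + aL) +
      (δ + 1 + (84 / 100) ^ 2) * (sR + aR) < 452 / 100 * (sR - 3 / 10) * (sL - 84 / 100) := by
  have h1 : (aR + 3 / 10) * (aL + 84 / 100) * (452 / 100) ≤
      (461 / 10000 * sR + 3 / 10) * (6 / 5 + 84 / 100) * (452 / 100) := by
    gcongr
  have h2 : (δ + 65 / 100 + (3 / 10) ^ 2) * (sL + aL) ≤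
      (2606 / 10000 + 65 / 100 + (3 / 10) ^ 2) * (sL + 6 / 5) := by
    gcongr
  have h3 : (δ + 1 + (84 / 100) ^ 2) * (sR + aR) ≤
      (2606 / 10000 + 1 + (84 / 100) ^ 2) * (sR + 461 / 10000 * sR) := by
    gcongr
  have h4 : 0 ≤ (sR - 8) * (sL - 2089 / 1000) := mul_nonneg (by linarith) (by linarith)
  nlinarith

theorem crit_C {δ aR aL sR sL : ℝ} (hδ : 0 < δ) (hδ2 : δ ≤ 3814 / 10000) (hsR : 13 ≤ sR) (haR : 0 ≤ aR)
    (haR2 : aR ≤ 284 / 10000 * sR) (hsL : 67 / 10 ≤ sL) (haL : 0 ≤ aL) (haL2 : aL ≤ 661 / 1000) :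
    (aR + 113 / 100) * (aL + 122 / 100) * (38 / 10) + (δ + 63 / 10 + (113 / 100) ^ 2) * (sL + aL) +
      (δ + 64 / 10 + (122 / 100) ^ 2) * (sR + aR) < 38 / 10 * (sR - 113 / 100) * (sL - 122 / 100) := by
  have h1 : (aR + 113 / 100) * (aL + 122 / 100) * (38 / 10) ≤
      (284 / 10000 * sR + 113 / 100) * (661 / 1000 + 122 / 100) * (38 / 10) := by
    gcongr
  have h2 : (δ + 63 / 10 + (113 / 100) ^ 2) * (sL + aL) ≤
      (3814 / 10000 + 63 / 10 + (113 / 100) ^ 2) * (sL + 661 / 1000) := by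
    gcongr
  have h3 : (δ + 64 / 10 + (122 / 100) ^ 2) * (sR + aR) ≤
      (3814 / 10000 + 64 / 10 + (122 / 100) ^ 2) * (sR + 284 / 10000 * sR) := by
    gcongr
  have h4 : 0 ≤ (sR - 13) * (sL - 67 / 10) := mul_nonneg (by linarith) (by linarith)
  nlinarith

end SokalN1
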