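import Mathlib

/-!
# N = 1, large `rho`: definitions

`h = a + i s` a saddle (`w e^h = h`), `v` the distance from it, `E(v) = (i/δ)(v²/2 - h (e^v - 1 - v))`,
`|e^{E(x + iy)}| = e^{-Ht a s x y / δ}`.
`AR`, `AL`: the moments `∫ v^j e^E dv` over the two paths
R: `+∞ - 2i → -2i → 2i → b + 2i → b + i∞`, L: `-b - i∞ → -b - 2i → -2i → (8/5)i → +∞ + (8/5)i`.
-/

set_option autoImplicit false

namespace SokalN1

open Complex Set MeasureTheory

/-- the exponent -/
noncomputable def EE (δ : ℝ) (h v : ℂ) : ℂ := (v ^ 2 / 2 - h * (cexp v - 1 - v)) * I / δ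

/-- the height -/
noncomputable def Ht (a s x y : ℝ) : ℝ :=
  x * y + a * (y - Real.exp x * Real.sin y) + s * (1 + x - Real.exp x * Real.cos y)

theorem re_EE (δ a s x y : ℝ) : (EE δ (a + s * I) (x + y * I)).re = -Ht a s x y / δ := by
  unfold EE Ht
  have h1 : cexp ((x : ℂ) + y * I) = (Real.exp x * Real.cos y : ℝ) + (Real.exp x * Real.sin y : ℝ) * I := by
    rw [Complex.exp_add, Complex.exp_mul_I, ← Complex.ofReal_exp, ← Complex.ofReal_cos, ← Complex.ofReal_sin]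
    push_cast
    ring
  rw [h1, Complex.div_ofReal_re]
  congr 1
  simp only [Complex.mul_re, Complex.mul_im, Complex.sub_re, Complex.sub_im, Complex.add_re, Complex.add_im,
    Complex.ofReal_re, Complex.ofReal_im, Complex.I_re, Complex.I_im, Complex.one_re, Complex.one_im, pow_two,
    Complex.div_ofNat_re, Complex.div_ofNat_im]
  ring

/-- the integrand `v^j e^{E(v)}` at `v = x + iy` -/
noncomputable def Wt (δ : ℝ) (h : ℂ) (j : ℕ) (x y : ℝ) : ℂ :=
  ((x : ℂ) + y * I) ^ j * cexp (EE δ h (x + y * I))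

theorem norm_Wt (δ a s : ℝ) (j : ℕ) (x y : ℝ) :
    ‖Wt δ (a + s * I) j x y‖ = √(x ^ 2 + y ^ 2) ^ j * Real.exp (-Ht a s x y / δ) := by
  unfold Wt
  rw [norm_mul, norm_pow, Complex.norm_exp, re_EE, Complex.norm_add_mul_I]

theorem continuous_EE (δ : ℝ) (h : ℂ) : Continuous (EE δ h) := by
  unfold EE
  fun_prop

theorem continuous_Wt_x (δ : ℝ) (h : ℂ) (j : ℕ) (y : ℝ) : Continuous fun x => Wt δ h j x y := by
  unfold Wt
  have := continuous_EE δ h
  fun_prop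

theorem continuous_Wt_y (δ : ℝ) (h : ℂ) (j : ℕ) (x : ℝ) : Continuous fun y => Wt δ h j x y := by
  unfold Wt
  have := continuous_EE δ h
  fun_prop

/-- moments over the path R -/
noncomputable def AR (δ b : ℝ) (h : ℂ) (j : ℕ) : ℂ :=
  -(∫ u in Ioi (0 : ℝ), Wt δ h j u (-2)) + (∫ y in (-2 : ℝ)..2, Wt δ h j 0 y) * I +
    (∫ x in (0 : ℝ)..b, Wt δ h j x 2) + (∫ y in Ioi (2 : ℝ), Wt δ h j b y) * I

/-- moments over the path L -/
noncomputable def AL (δ b : ℝ) (h : ℂ) (j : ℕ) : ℂ :=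
  (∫ y in Ioi (2 : ℝ), Wt δ h j (-b) (-y)) * I + (∫ x in (-b)..0, Wt δ h j x (-2)) +
    (∫ y in (-2 : ℝ)..(8 / 5), Wt δ h j 0 y) * I + ∫ u in Ioi (0 : ℝ), Wt δ h j u (8 / 5)

end SokalN1
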