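import Pool.Agent.Lib_MP_af4de1_f1.N1Defs

/-!
# N = 1, large `rho`: the main part, lower bound
-/

set_option autoImplicit false

namespace SokalN1

open Complex Set MeasureTheory

private theorem tay1 (t : ℝ) : ‖cexp (t * I) - 1‖ ≤ |t| := by
  have h := Real.norm_exp_I_mul_ofReal_sub_one_le (x := t)
  rwa [mul_comm, Real.norm_eq_abs] at h

private theorem hd1 (t : ℝ) : HasDerivAt (fun y : ℝ => (y : ℂ) * I) I t := by
  have h1 : HasDerivAt (fun y : ℝ => (y : ℂ)) 1 t := by simpa using (hasDerivAt_id t).ofReal_comp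
  simpa using h1.mul_const I

private theorem hd2 (t : ℝ) : HasDerivAt (fun y : ℝ => cexp (y * I)) (cexp (t * I) * I) t :=
  (hd1 t).cexp

private theorem tay2 {y : ℝ} (hy : 0 ≤ y) : ‖cexp (y * I) - 1 - y * I‖ ≤ y ^ 2 / 2 := by
  have key : ∀ t : ℝ, HasDerivAt (fun t : ℝ => cexp (t * I) - 1 - t * I) (cexp (t * I) * I - I) t :=
    fun t => ((hd2 t).sub_const 1).sub (hd1 t)
  refine image_norm_le_of_norm_deriv_right_le_deriv_boundary
    (f := fun t : ℝ => cexp (t * I) - 1 - t * I) (f' := fun t => cexp (t * I) * I - I) (a := 0) (b := y)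
    (B := fun t => t ^ 2 / 2) (B' := fun t => t)
    (fun t _ => (key t).continuousAt.continuousWithinAt) (fun t _ => (key t).hasDerivWithinAt)
    (by simp) (fun t => ?_) (fun t ht => ?_) ⟨hy, le_rfl⟩
  · have h := (hasDerivAt_pow 2 t).div_const 2
    refine h.congr_deriv ?_
    push_cast
    ring
  · have h1 : cexp (t * I) * I - I = (cexp (t * I) - 1) * I := by ring
    show ‖cexp (t * I) * I - I‖ ≤ t
    rw [h1, norm_mul, Complex.norm_I, mul_one]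
    have := tay1 t
    rwa [abs_of_nonneg ht.1] at this

private theorem tay3 {y : ℝ} (hy : 0 ≤ y) : ‖cexp (y * I) - 1 - y * I + (y : ℂ) ^ 2 / 2‖ ≤ y ^ 3 / 6 := by
  have hsq : ∀ t : ℝ, HasDerivAt (fun t : ℝ => (t : ℂ) ^ 2 / 2) (t : ℂ) t := by
    intro t
    have h1 : HasDerivAt (fun y : ℝ => (y : ℂ)) 1 t := by simpa using (hasDerivAt_id t).ofReal_comp
    have h2 := (h1.pow 2).div_const 2
    refine h2.congr_deriv ?_
    push_cast
    ring
  have key : ∀ t : ℝ, HasDerivAt (fun t : ℝ => cexp (t * I) - 1 - t * I + (t : ℂ) ^ 2 / 2)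
      (cexp (t * I) * I - I + t) t :=
    fun t => (((hd2 t).sub_const 1).sub (hd1 t)).add (hsq t)
  refine image_norm_le_of_norm_deriv_right_le_deriv_boundary
    (f := fun t : ℝ => cexp (t * I) - 1 - t * I + (t : ℂ) ^ 2 / 2)
    (f' := fun t => cexp (t * I) * I - I + t) (a := 0) (b := y)
    (B := fun t => t ^ 3 / 6) (B' := fun t => t ^ 2 / 2)
    (fun t _ => (key t).continuousAt.continuousWithinAt) (fun t _ => (key t).hasDerivWithinAt)
    (by simp) (fun t => ?_) (fun t ht => ?_) ⟨hy, le_rfl⟩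
  · have h := (hasDerivAt_pow 3 t).div_const 6
    refine h.congr_deriv ?_
    push_cast
    ring
  · have h1 : cexp (t * I) * I - I + t = (cexp (t * I) - 1 - t * I) * I := by
      linear_combination (t : ℂ) * I_sq
    show ‖cexp (t * I) * I - I + t‖ ≤ t ^ 2 / 2
    rw [h1, norm_mul, Complex.norm_I, mul_one]
    exact tay2 ht.1

private theorem tay3' (y : ℝ) : ‖cexp (y * I) - 1 - y * I + (y : ℂ) ^ 2 / 2‖ ≤ |y| ^ 3 / 6 := by
  rcases le_total 0 y with hy | hy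
  · rw [abs_of_nonneg hy]
    exact tay3 hy
  · have h := tay3 (y := -y) (by linarith)
    have e1 : (starRingEnd ℂ) (cexp (y * I) - 1 - y * I + (y : ℂ) ^ 2 / 2) =
        cexp (((-y : ℝ) : ℂ) * I) - 1 - ((-y : ℝ) : ℂ) * I + (((-y : ℝ) : ℂ)) ^ 2 / 2 := by
      simp only [map_add, map_sub, map_mul, map_one, map_div₀, map_pow, Complex.conj_ofReal, Complex.conj_I,
        ← Complex.exp_conj, map_ofNat]
      push_cast
      ring_nf
    rw [← Complex.norm_conj, e1, abs_of_nonpos hy]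
    exact h

/-- `|E - E₂| ≤ |h||y|³/(6δ)` on `v = iy`, `E₂(iy) = -(s + i(1 - a)) y²/(2δ)`:
`|e^{iy} - 1 - iy + y²/2| ≤ |y|³/6`. -/
theorem EE_sub_gauss {δ a s y : ℝ} (hδ : 0 < δ) :
    ‖EE δ (a + s * I) ((0 : ℝ) + y * I) - -((s + (1 - a) * I) / (2 * δ)) * y ^ 2‖ ≤
      ‖(a : ℂ) + s * I‖ * |y| ^ 3 / (6 * δ) := by
  have hδc : (δ : ℂ) ≠ 0 := by exact_mod_cast hδ.ne'
  have e1 : EE δ (a + s * I) ((0 : ℝ) + y * I) - -((s + (1 - a) * I) / (2 * δ)) * y ^ 2 =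
      -((a : ℂ) + s * I) * (cexp (y * I) - 1 - y * I + (y : ℂ) ^ 2 / 2) * (I / δ) := by
    unfold EE
    rw [Complex.ofReal_zero, zero_add]
    field_simp
    linear_combination ((y : ℂ) ^ 2 * I + (s : ℂ) * (y : ℂ) ^ 2) * I_sq
  rw [e1, norm_mul, norm_mul, norm_neg, norm_div, Complex.norm_I, Complex.norm_real,
    Real.norm_of_nonneg hδ.le]
  have h := tay3' y
  have h2 := mul_le_mul_of_nonneg_left h (norm_nonneg ((a : ℂ) + s * I))
  have h3 : ‖(a : ℂ) + s * I‖ * |y| ^ 3 / (6 * δ) = ‖(a : ℂ) + s * I‖ * (|y| ^ 3 / 6) * (1 / δ) := by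
    field_simp
  rw [h3]
  exact mul_le_mul_of_nonneg_right h2 (by positivity)

private theorem exp_diff {z w : ℂ} {M : ℝ} (hz : z.re ≤ M) (hw : w.re ≤ M) :
    ‖cexp z - cexp w‖ ≤ Real.exp M * ‖z - w‖ := by
  refine Convex.norm_image_sub_le_of_norm_deriv_le (𝕜 := ℂ) (f := cexp) (s := {c : ℂ | c.re ≤ M})
    (fun x _ => Complex.differentiableAt_exp) (fun x hx => ?_) (convex_halfSpace_re_le M) hw hz
  rw [Complex.deriv_exp, Complex.norm_exp]
  exact Real.exp_le_exp.2 hx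

private theorem int_cube {κ δ Y : ℝ} (hκ : 0 < κ) (hδ : 0 < δ) (hY : 0 ≤ Y) :
    ∫ y in (0 : ℝ)..Y, y ^ 3 * Real.exp (-κ * y ^ 2 / δ) ≤ δ ^ 2 / (2 * κ ^ 2) := by
  have hF : ∀ y : ℝ, HasDerivAt (fun y : ℝ => -(δ ^ 2 / (2 * κ ^ 2)) * (1 + κ * y ^ 2 / δ) *
      Real.exp (-κ * y ^ 2 / δ)) (y ^ 3 * Real.exp (-κ * y ^ 2 / δ)) y := by
    intro y
    have h1 : HasDerivAt (fun y : ℝ => y ^ 2) (2 * y) y := by simpa using hasDerivAt_pow 2 y
    have h2 : HasDerivAt (fun y : ℝ => -κ * y ^ 2 / δ) (-κ * (2 * y) / δ) y :=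
      (h1.const_mul (-κ)).div_const δ
    have h3 : HasDerivAt (fun y : ℝ => 1 + κ * y ^ 2 / δ) (κ * (2 * y) / δ) y :=
      ((h1.const_mul κ).div_const δ).const_add 1
    have h4 := (h3.const_mul (-(δ ^ 2 / (2 * κ ^ 2)))).mul h2.exp
    refine h4.congr_deriv ?_
    field_simp
    ring
  rw [intervalIntegral.integral_eq_sub_of_hasDerivAt (fun y _ => hF y)
    (Continuous.intervalIntegrable (by fun_prop) _ _)]
  have h5 : 0 ≤ δ ^ 2 / (2 * κ ^ 2) * (1 + κ * Y ^ 2 / δ) * Real.exp (-κ * Y ^ 2 / δ) := by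
    positivity
  have h6 : -(δ ^ 2 / (2 * κ ^ 2)) * (1 + κ * 0 ^ 2 / δ) * Real.exp (-κ * 0 ^ 2 / δ) =
      -(δ ^ 2 / (2 * κ ^ 2)) := by simp
  rw [h6]
  linarith

/-- one side of the error -/
private theorem side_err {κ δ Y A : ℝ} {f : ℝ → ℂ} (hκ : 0 < κ) (hδ : 0 < δ) (hY : 0 ≤ Y) (hA : 0 ≤ A)
    (hf : ∀ y : ℝ, 0 ≤ y → y ≤ Y → ‖f y‖ ≤ A * (y ^ 3 * Real.exp (-κ * y ^ 2 / δ))) :
    ‖∫ y in (0 : ℝ)..Y, f y‖ ≤ A * (δ ^ 2 / (2 * κ ^ 2)) := by
  have h1 : ‖∫ y in (0 : ℝ)..Y, f y‖ ≤ ∫ y in (0 : ℝ)..Y, A * (y ^ 3 * Real.exp (-κ * y ^ 2 / δ)) := by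
    apply intervalIntegral.norm_integral_le_of_norm_le hY
    · exact Filter.Eventually.of_forall fun y hy => hf y hy.1.le hy.2
    · exact Continuous.intervalIntegrable (by fun_prop) _ _
  rw [intervalIntegral.integral_const_mul] at h1
  exact h1.trans (mul_le_mul_of_nonneg_left (int_cube hκ hδ hY) hA)

/-- the tail of the Gaussian -/
private theorem tail_gauss {c Y : ℝ} (hc : 0 < c) (hY : 8 / 5 ≤ Y) :
    ∫ y in Ioi Y, Real.exp (-c * y ^ 2) ≤ 5 / (16 * c) * Real.exp (-(64 / 25 * c)) := by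
  have hF : ∀ y : ℝ, HasDerivAt (fun y : ℝ => -(5 / (16 * c)) * Real.exp (-c * y ^ 2))
      (5 / 8 * (y * Real.exp (-c * y ^ 2))) y := by
    intro y
    have h1 : HasDerivAt (fun y : ℝ => y ^ 2) (2 * y) y := by simpa using hasDerivAt_pow 2 y
    have h2 : HasDerivAt (fun y : ℝ => -c * y ^ 2) (-c * (2 * y)) y := h1.const_mul (-c)
    have h4 := h2.exp.const_mul (-(5 / (16 * c)))
    refine h4.congr_deriv ?_
    field_simp
    ring
  have hint : IntegrableOn (fun y : ℝ => 5 / 8 * (y * Real.exp (-c * y ^ 2))) (Ioi (8 / 5)) :=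
    ((integrable_mul_exp_neg_mul_sq hc).const_mul _).integrableOn
  have hlim : Filter.Tendsto (fun y : ℝ => -(5 / (16 * c)) * Real.exp (-c * y ^ 2)) Filter.atTop
      (nhds 0) := by
    have h1 : Filter.Tendsto (fun y : ℝ => -c * y ^ 2) Filter.atTop Filter.atBot := by
      have h2 : Filter.Tendsto (fun y : ℝ => y ^ 2) Filter.atTop Filter.atTop :=
        Filter.tendsto_pow_atTop (by norm_num)
      exact h2.const_mul_atTop_of_neg (by linarith)
    have h3 := (Real.tendsto_exp_atBot.comp h1).const_mul (-(5 / (16 * c)))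
    rw [mul_zero] at h3
    exact h3
  have hval := MeasureTheory.integral_Ioi_of_hasDerivAt_of_tendsto
    (f := fun y : ℝ => -(5 / (16 * c)) * Real.exp (-c * y ^ 2))
    (f' := fun y : ℝ => 5 / 8 * (y * Real.exp (-c * y ^ 2))) (a := 8 / 5) (m := 0)
    (hF (8 / 5)).continuousAt.continuousWithinAt (fun y _ => hF y) hint hlim
  have h1 : ∫ y in Ioi Y, Real.exp (-c * y ^ 2) ≤ ∫ y in Ioi (8 / 5 : ℝ), Real.exp (-c * y ^ 2) := by
    apply setIntegral_mono_set (integrable_exp_neg_mul_sq hc).integrableOn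
    · exact Filter.Eventually.of_forall fun y => (Real.exp_pos _).le
    · exact (Ioi_subset_Ioi hY).eventuallyLE
  have h2 : ∫ y in Ioi (8 / 5 : ℝ), Real.exp (-c * y ^ 2) ≤
      ∫ y in Ioi (8 / 5 : ℝ), 5 / 8 * (y * Real.exp (-c * y ^ 2)) := by
    apply setIntegral_mono_on (integrable_exp_neg_mul_sq hc).integrableOn hint measurableSet_Ioi
    intro y hy
    have hy' : 8 / 5 < y := hy
    have := Real.exp_pos (-c * y ^ 2)
    nlinarith
  rw [hval] at h2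
  refine h1.trans (h2.trans (le_of_eq ?_))
  have h3 : -c * (8 / 5 : ℝ) ^ 2 = -(64 / 25 * c) := by ring
  rw [h3]
  ring

/-- The main part against the Gaussian.  Proof: `‖e^E - e^{E₂}‖ ≤ ‖E - E₂‖ max(‖e^E‖, ‖e^{E₂}‖)`,
both are `≤ e^{-κ_i y²/δ}`; `∫_0^∞ y³ e^{-κy²/δ} = δ²/(2κ²)`; `∫_ℝ e^{E₂}` has modulus
`√(2πδ/‖1-h‖)` (`integral_gaussian_complex`); `∫_{y > 8/5} e^{-sy²/(2δ)} ≤ (5/8)(δ/s) e^{-(32/25)s/δ}`. -/
theorem main_low {δ κ1 κ2 a s y1 y2 : ℝ} (hδ : 0 < δ) (hs : 0 < s) (hκ1 : 0 < κ1) (hκ2 : 0 < κ2)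
    (hκ1s : κ1 ≤ s / 2) (hκ2s : κ2 ≤ s / 2) (hy1 : 8 / 5 ≤ y1) (hy2 : 8 / 5 ≤ y2)
    (h1 : ∀ y : ℝ, 0 ≤ y → y ≤ y1 → κ1 * y ^ 2 ≤ Ht a s 0 (-y))
    (h2 : ∀ y : ℝ, 0 ≤ y → y ≤ y2 → κ2 * y ^ 2 ≤ Ht a s 0 y) :
    √(2 * Real.pi * δ / ‖1 - ((a : ℂ) + s * I)‖) -
        ‖(a : ℂ) + s * I‖ * δ / 12 * (1 / κ1 ^ 2 + 1 / κ2 ^ 2) -
        5 / 4 * (δ / s) * Real.exp (-(32 / 25 * s / δ)) ≤
      ‖∫ y in (-y1)..y2, Wt δ (a + s * I) 0 0 y‖ := by
  have hδc : (δ : ℂ) ≠ 0 := by exact_mod_cast hδ.ne'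
  set h : ℂ := (a : ℂ) + s * I with hh
  set b : ℂ := (s + (1 - a) * I) / (2 * δ) with hb
  have hbre : b.re = s / (2 * δ) := by
    have e1 : b = ((s : ℂ) + (((1 - a : ℝ) : ℂ)) * I) / ((2 * δ : ℝ) : ℂ) := by
      rw [hb]
      push_cast
      ring
    rw [e1, Complex.div_ofReal_re]
    simp
  have hbpos : 0 < b.re := by rw [hbre]; positivity
  set c : ℝ := s / (2 * δ) with hc
  have hcpos : 0 < c := by positivity
  set G : ℝ → ℂ := fun y => cexp (-b * (y : ℂ) ^ 2) with hG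
  have hGcont : Continuous G := by
    rw [hG]
    fun_prop
  have hGnorm : ∀ y : ℝ, ‖G y‖ = Real.exp (-c * y ^ 2) := by
    intro y
    show ‖cexp (-b * (y : ℂ) ^ 2)‖ = _
    rw [Complex.norm_exp]
    congr 1
    have : ((y : ℂ)) ^ 2 = ((y ^ 2 : ℝ) : ℂ) := by push_cast; ring
    rw [this, Complex.re_mul_ofReal, Complex.neg_re, hbre]
  have hGint : Integrable G := by
    rw [← integrable_norm_iff hGcont.aestronglyMeasurable]
    simp only [hGnorm]
    exact integrable_exp_neg_mul_sq hcpos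
  -- the full integral
  have hfull : ‖∫ y : ℝ, G y‖ = √(2 * Real.pi * δ / ‖1 - h‖) := by
    have e1 : ∫ y : ℝ, G y = (Real.pi / b) ^ (1 / 2 : ℂ) := integral_gaussian_complex hbpos
    have e2 : (∫ y : ℝ, G y) ^ 2 = Real.pi / b := by
      rw [e1]
      have := Complex.cpow_nat_inv_pow (Real.pi / b) (n := 2) (by norm_num)
      rw [one_div]
      exact_mod_cast this
    have e3 : ‖∫ y : ℝ, G y‖ ^ 2 = 2 * Real.pi * δ / ‖1 - h‖ := by
      rw [← norm_pow, e2, norm_div, Complex.norm_real, Real.norm_of_nonneg Real.pi_pos.le]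
      have e4 : ‖b‖ = ‖1 - h‖ / (2 * δ) := by
        have e5 : b = I * (1 - h) / ((2 * δ : ℝ) : ℂ) := by
          rw [hb, hh]
          push_cast
          congr 1
          linear_combination (s : ℂ) * I_sq
        rw [e5, norm_div, norm_mul, Complex.norm_I, one_mul, Complex.norm_real,
          Real.norm_of_nonneg (by positivity)]
      rw [e4]
      have hne : ‖1 - h‖ ≠ 0 := by
        rw [norm_ne_zero_iff]
        intro h0
        have := congrArg Complex.im h0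
        rw [hh] at this
        simp at this
        exact hs.ne' this
      field_simp
    rw [← e3, Real.sqrt_sq (norm_nonneg _)]
  -- the tails
  have htail : ∀ Y : ℝ, 8 / 5 ≤ Y → ‖∫ y in Ioi Y, G y‖ ≤ 5 / 8 * (δ / s) * Real.exp (-(32 / 25 * s / δ)) := by
    intro Y hY
    refine (norm_integral_le_integral_norm _).trans ?_
    simp only [hGnorm]
    refine (tail_gauss hcpos hY).trans (le_of_eq ?_)
    have e1 : -(64 / 25 * c) = -(32 / 25 * s / δ) := by rw [hc]; field_simp; ring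
    have e2 : 5 / (16 * c) = 5 / 8 * (δ / s) := by rw [hc]; field_simp; ring
    rw [e1, e2]
  have hGeven : ∀ y : ℝ, G (-y) = G y := by
    intro y
    show cexp (-b * (((-y : ℝ) : ℂ)) ^ 2) = cexp (-b * (y : ℂ) ^ 2)
    congr 1
    push_cast
    ring
  have htail2 : ‖∫ y in Iic (-y1), G y‖ ≤ 5 / 8 * (δ / s) * Real.exp (-(32 / 25 * s / δ)) := by
    have e1 : ∫ y in Iic (-y1), G y = ∫ y in Ioi y1, G y := by
      have e2 := integral_comp_neg_Iic (-y1) G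
      rw [neg_neg] at e2
      rw [← e2]
      simp only [hGeven]
    rw [e1]
    exact htail y1 hy1
  have hsplit : ∫ y : ℝ, G y = (∫ y in Iic (-y1), G y) + (∫ y in (-y1)..y2, G y) + ∫ y in Ioi y2, G y := by
    have e1 := intervalIntegral.integral_Iic_add_Ioi (b := -y1) (f := G) hGint.integrableOn hGint.integrableOn
    have e2 := intervalIntegral.integral_interval_add_Ioi (a := -y1) (b := y2) (f := G) hGint.integrableOn
      hGint.integrableOn
    rw [← e1, ← e2]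
    ring
  have hlow : √(2 * Real.pi * δ / ‖1 - h‖) - 5 / 4 * (δ / s) * Real.exp (-(32 / 25 * s / δ)) ≤
      ‖∫ y in (-y1)..y2, G y‖ := by
    have e1 : (∫ y in (-y1)..y2, G y) = (∫ y : ℝ, G y) - ((∫ y in Iic (-y1), G y) + ∫ y in Ioi y2, G y) := by
      rw [hsplit]
      ring
    have e2 := norm_sub_norm_le (∫ y : ℝ, G y) ((∫ y in Iic (-y1), G y) + ∫ y in Ioi y2, G y)
    rw [← e1, hfull] at e2
    have e3 := norm_add_le (∫ y in Iic (-y1), G y) (∫ y in Ioi y2, G y)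
    have e4 := htail y2 hy2
    linarith
  -- the error
  have hW : ∀ y : ℝ, Wt δ h 0 0 y = cexp (EE δ h ((0 : ℝ) + y * I)) := by
    intro y
    unfold Wt
    rw [pow_zero, one_mul]
  have herr : ∀ (κ y : ℝ), 0 ≤ |y| → κ ≤ s / 2 → κ * y ^ 2 ≤ Ht a s 0 y →
      ‖Wt δ h 0 0 y - G y‖ ≤ ‖h‖ / (6 * δ) * (|y| ^ 3 * Real.exp (-κ * y ^ 2 / δ)) := by
    intro κ y _ hκs hHt
    rw [hW]
    show ‖cexp (EE δ h ((0 : ℝ) + y * I)) - cexp (-b * (y : ℂ) ^ 2)‖ ≤ _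
    have e1 : (EE δ h ((0 : ℝ) + y * I)).re ≤ -κ * y ^ 2 / δ := by
      rw [hh, re_EE]
      apply div_le_div_of_nonneg_right _ hδ.le
      linarith
    have e2 : (-b * (y : ℂ) ^ 2).re ≤ -κ * y ^ 2 / δ := by
      have : ((y : ℂ)) ^ 2 = ((y ^ 2 : ℝ) : ℂ) := by push_cast; ring
      rw [this, Complex.re_mul_ofReal, Complex.neg_re, hbre, hc]
      have e3 : -(s / (2 * δ)) * y ^ 2 = -(s / 2) * y ^ 2 / δ := by field_simp
      rw [e3]
      apply div_le_div_of_nonneg_right _ hδ.le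
      nlinarith [sq_nonneg y]
    refine (exp_diff e1 e2).trans ?_
    have e3 := EE_sub_gauss (a := a) (s := s) (y := y) hδ
    rw [← hh, ← hb] at e3
    calc Real.exp (-κ * y ^ 2 / δ) * ‖EE δ h ((0 : ℝ) + y * I) - -b * (y : ℂ) ^ 2‖
        ≤ Real.exp (-κ * y ^ 2 / δ) * (‖h‖ * |y| ^ 3 / (6 * δ)) :=
          mul_le_mul_of_nonneg_left e3 (Real.exp_pos _).le
      _ = _ := by ring
  have hWcont : Continuous fun y : ℝ => Wt δ h 0 0 y := continuous_Wt_y δ h 0 0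
  have hDcont : Continuous fun y : ℝ => Wt δ h 0 0 y - G y := hWcont.sub hGcont
  have hA : 0 ≤ ‖h‖ / (6 * δ) := by positivity
  have hright : ‖∫ y in (0 : ℝ)..y2, (Wt δ h 0 0 y - G y)‖ ≤ ‖h‖ / (6 * δ) * (δ ^ 2 / (2 * κ2 ^ 2)) := by
    apply side_err hκ2 hδ (by linarith) hA
    intro y hy hyY
    have := herr κ2 y (abs_nonneg _) hκ2s (h2 y hy hyY)
    rwa [abs_of_nonneg hy] at this
  have hleft : ‖∫ y in (-y1)..(0 : ℝ), (Wt δ h 0 0 y - G y)‖ ≤ ‖h‖ / (6 * δ) * (δ ^ 2 / (2 * κ1 ^ 2)) := by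
    have e1 := intervalIntegral.integral_comp_neg (a := 0) (b := y1) (fun y : ℝ => Wt δ h 0 0 y - G y)
    rw [neg_zero] at e1
    rw [← e1]
    apply side_err hκ1 hδ (by linarith) hA
    intro y hy hyY
    have e2 := herr κ1 (-y) (abs_nonneg _) hκ1s (by rw [neg_sq]; exact h1 y hy hyY)
    rwa [abs_neg, abs_of_nonneg hy, neg_sq] at e2
  have hsum : (∫ y in (-y1)..y2, Wt δ h 0 0 y) - ∫ y in (-y1)..y2, G y =
      (∫ y in (-y1)..(0 : ℝ), (Wt δ h 0 0 y - G y)) + ∫ y in (0 : ℝ)..y2, (Wt δ h 0 0 y - G y) := by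
    rw [← intervalIntegral.integral_sub (hWcont.intervalIntegrable _ _) (hGcont.intervalIntegrable _ _)]
    exact (intervalIntegral.integral_add_adjacent_intervals (hDcont.intervalIntegrable _ _)
      (hDcont.intervalIntegrable _ _)).symm
  have hfin : ‖∫ y in (-y1)..y2, G y‖ - (‖h‖ / (6 * δ) * (δ ^ 2 / (2 * κ1 ^ 2)) +
      ‖h‖ / (6 * δ) * (δ ^ 2 / (2 * κ2 ^ 2))) ≤ ‖∫ y in (-y1)..y2, Wt δ h 0 0 y‖ := by
    have e1 := norm_sub_norm_le (∫ y in (-y1)..y2, G y) (∫ y in (-y1)..y2, Wt δ h 0 0 y)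
    have e2 := norm_add_le (∫ y in (-y1)..(0 : ℝ), (Wt δ h 0 0 y - G y))
      (∫ y in (0 : ℝ)..y2, (Wt δ h 0 0 y - G y))
    rw [← hsum] at e2
    rw [norm_sub_rev] at e1
    linarith
  have hconst : ‖h‖ * δ / 12 * (1 / κ1 ^ 2 + 1 / κ2 ^ 2) =
      ‖h‖ / (6 * δ) * (δ ^ 2 / (2 * κ1 ^ 2)) + ‖h‖ / (6 * δ) * (δ ^ 2 / (2 * κ2 ^ 2)) := by
    field_simp
    ring
  rw [hconst]
  linarith

end SokalN1
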