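import Pool.Agent.Lib_MP_af4de1_f1.N1Defs

/-!
# N = 1, large `rho`: the main part, upper bounds for the moments

`‖Wt δ h j 0 y‖ = |y|^j e^{-Ht/δ} ≤ |y|^j e^{-κ y²/δ}`.
-/

set_option autoImplicit false

namespace SokalN1

open Complex Set MeasureTheory

private theorem int_one {κ δ Y : ℝ} (hκ : 0 < κ) (hδ : 0 < δ) :
    ∫ y in (0 : ℝ)..Y, y * Real.exp (-κ * y ^ 2 / δ) ≤ δ / 2 * (1 / κ) := by
  have hF : ∀ y : ℝ, HasDerivAt (fun y : ℝ => -(δ / (2 * κ)) * Real.exp (-κ * y ^ 2 / δ))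
      (y * Real.exp (-κ * y ^ 2 / δ)) y := by
    intro y
    have h1 : HasDerivAt (fun y : ℝ => y ^ 2) (2 * y) y := by simpa using hasDerivAt_pow 2 y
    have h2 : HasDerivAt (fun y : ℝ => -κ * y ^ 2 / δ) (-κ * (2 * y) / δ) y :=
      (h1.const_mul (-κ)).div_const δ
    have h4 := h2.exp.const_mul (-(δ / (2 * κ)))
    refine h4.congr_deriv ?_
    field_simp
  rw [intervalIntegral.integral_eq_sub_of_hasDerivAt (fun y _ => hF y)
    (Continuous.intervalIntegrable (by fun_prop) _ _)]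
  have h5 : 0 ≤ δ / (2 * κ) * Real.exp (-κ * Y ^ 2 / δ) := by positivity
  have h6 : -(δ / (2 * κ)) * Real.exp (-κ * 0 ^ 2 / δ) = -(δ / 2 * (1 / κ)) := by
    simp
    field_simp
  rw [h6]
  linarith

private theorem int_two {κ δ Y : ℝ} (hκ : 0 < κ) (hδ : 0 < δ) (hY : 0 ≤ Y) :
    ∫ y in (0 : ℝ)..Y, y ^ 2 * Real.exp (-κ * y ^ 2 / δ) ≤ √Real.pi / 4 * (δ / κ * √(δ / κ)) := by
  have hF : ∀ y : ℝ, HasDerivAt (fun y : ℝ => -(δ / (2 * κ)) * (y * Real.exp (-κ * y ^ 2 / δ)))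
      (y ^ 2 * Real.exp (-κ * y ^ 2 / δ) - δ / (2 * κ) * Real.exp (-κ * y ^ 2 / δ)) y := by
    intro y
    have h1 : HasDerivAt (fun y : ℝ => y ^ 2) (2 * y) y := by simpa using hasDerivAt_pow 2 y
    have h2 : HasDerivAt (fun y : ℝ => -κ * y ^ 2 / δ) (-κ * (2 * y) / δ) y :=
      (h1.const_mul (-κ)).div_const δ
    have h4 := ((hasDerivAt_id y).mul h2.exp).const_mul (-(δ / (2 * κ)))
    refine h4.congr_deriv ?_
    simp only [id]
    field_simp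
    ring
  have hc1 : Continuous fun y : ℝ => y ^ 2 * Real.exp (-κ * y ^ 2 / δ) := by fun_prop
  have hc2 : Continuous fun y : ℝ => δ / (2 * κ) * Real.exp (-κ * y ^ 2 / δ) := by fun_prop
  have h1 := intervalIntegral.integral_eq_sub_of_hasDerivAt (a := 0) (b := Y) (fun y _ => hF y)
    ((hc1.sub hc2).intervalIntegrable _ _)
  rw [intervalIntegral.integral_sub (hc1.intervalIntegrable _ _) (hc2.intervalIntegrable _ _)] at h1
  have h5 : 0 ≤ δ / (2 * κ) * (Y * Real.exp (-κ * Y ^ 2 / δ)) := by positivity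
  have h6 : ∫ y in (0 : ℝ)..Y, y ^ 2 * Real.exp (-κ * y ^ 2 / δ) ≤
      ∫ y in (0 : ℝ)..Y, δ / (2 * κ) * Real.exp (-κ * y ^ 2 / δ) := by
    have h7 : -(δ / (2 * κ)) * ((0 : ℝ) * Real.exp (-κ * 0 ^ 2 / δ)) = 0 := by simp
    rw [h7] at h1
    linarith
  refine h6.trans ?_
  rw [intervalIntegral.integral_const_mul]
  have hb : 0 < κ / δ := by positivity
  have e1 : ∀ y : ℝ, Real.exp (-κ * y ^ 2 / δ) = Real.exp (-(κ / δ) * y ^ 2) := by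
    intro y
    congr 1
    ring
  simp only [e1]
  have h8 : ∫ y in (0 : ℝ)..Y, Real.exp (-(κ / δ) * y ^ 2) ≤ √(Real.pi / (κ / δ)) / 2 := by
    rw [← integral_gaussian_Ioi, intervalIntegral.integral_of_le hY]
    apply setIntegral_mono_set (integrable_exp_neg_mul_sq hb).integrableOn
    · exact Filter.Eventually.of_forall fun y => (Real.exp_pos _).le
    · exact Ioc_subset_Ioi_self.eventuallyLE
  have h9 : √(Real.pi / (κ / δ)) = √Real.pi * √(δ / κ) := by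
    rw [← Real.sqrt_mul Real.pi_pos.le]
    congr 1
    field_simp
  rw [h9] at h8
  calc δ / (2 * κ) * ∫ y in (0 : ℝ)..Y, Real.exp (-(κ / δ) * y ^ 2)
      ≤ δ / (2 * κ) * (√Real.pi * √(δ / κ) / 2) := mul_le_mul_of_nonneg_left h8 (by positivity)
    _ = √Real.pi / 4 * (δ / κ * √(δ / κ)) := by ring

private theorem norm_le_of {δ κ a s y : ℝ} {j : ℕ} (hδ : 0 < δ) (h : κ * y ^ 2 ≤ Ht a s 0 y) :
    ‖Wt δ (a + s * I) j 0 y‖ ≤ |y| ^ j * Real.exp (-κ * y ^ 2 / δ) := by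
  rw [norm_Wt]
  have e1 : √((0 : ℝ) ^ 2 + y ^ 2) = |y| := by
    rw [zero_pow two_ne_zero, zero_add, Real.sqrt_sq_eq_abs]
  rw [e1]
  apply mul_le_mul_of_nonneg_left _ (by positivity)
  apply Real.exp_le_exp.2
  apply div_le_div_of_nonneg_right _ hδ.le
  linarith

private theorem both {δ κ1 κ2 a s y1 y2 B1 B2 : ℝ} {j : ℕ} (hδ : 0 < δ)
    (hy1 : 0 ≤ y1) (hy2 : 0 ≤ y2)
    (h1 : ∀ y : ℝ, 0 ≤ y → y ≤ y1 → κ1 * y ^ 2 ≤ Ht a s 0 (-y))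
    (h2 : ∀ y : ℝ, 0 ≤ y → y ≤ y2 → κ2 * y ^ 2 ≤ Ht a s 0 y)
    (hB1 : ∫ y in (0 : ℝ)..y1, y ^ j * Real.exp (-κ1 * y ^ 2 / δ) ≤ B1)
    (hB2 : ∫ y in (0 : ℝ)..y2, y ^ j * Real.exp (-κ2 * y ^ 2 / δ) ≤ B2) :
    ‖∫ y in (-y1)..y2, Wt δ (a + s * I) j 0 y‖ ≤ B1 + B2 := by
  have hcont : Continuous fun y : ℝ => Wt δ (a + s * I) j 0 y := continuous_Wt_y δ _ j 0
  rw [← intervalIntegral.integral_add_adjacent_intervals (hcont.intervalIntegrable (-y1) 0)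
    (hcont.intervalIntegrable 0 y2)]
  refine (norm_add_le _ _).trans (add_le_add ?_ ?_)
  · have e1 := intervalIntegral.integral_comp_neg (a := 0) (b := y1)
      (fun y : ℝ => Wt δ (a + s * I) j 0 y)
    rw [neg_zero] at e1
    rw [← e1]
    refine le_trans ?_ hB1
    apply intervalIntegral.norm_integral_le_of_norm_le hy1
    · refine Filter.Eventually.of_forall fun y hy => ?_
      have e2 := norm_le_of (δ := δ) (κ := κ1) (a := a) (s := s) (y := -y) (j := j) hδ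
        (by rw [neg_sq]; exact h1 y hy.1.le hy.2)
      rwa [abs_neg, abs_of_nonneg hy.1.le, neg_sq] at e2
    · exact Continuous.intervalIntegrable (by fun_prop) _ _
  · refine le_trans ?_ hB2
    apply intervalIntegral.norm_integral_le_of_norm_le hy2
    · refine Filter.Eventually.of_forall fun y hy => ?_
      have e2 := norm_le_of (δ := δ) (κ := κ2) (a := a) (s := s) (y := y) (j := j) hδ
        (h2 y hy.1.le hy.2)
      rwa [abs_of_nonneg hy.1.le] at e2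
    · exact Continuous.intervalIntegrable (by fun_prop) _ _

theorem main_up1 {δ κ1 κ2 a s y1 y2 : ℝ} (hδ : 0 < δ) (hκ1 : 0 < κ1) (hκ2 : 0 < κ2)
    (hy1 : 0 ≤ y1) (hy2 : 0 ≤ y2)
    (h1 : ∀ y : ℝ, 0 ≤ y → y ≤ y1 → κ1 * y ^ 2 ≤ Ht a s 0 (-y))
    (h2 : ∀ y : ℝ, 0 ≤ y → y ≤ y2 → κ2 * y ^ 2 ≤ Ht a s 0 y) :
    ‖∫ y in (-y1)..y2, Wt δ (a + s * I) 1 0 y‖ ≤ δ / 2 * (1 / κ1 + 1 / κ2) := by
  rw [mul_add]
  refine both hδ hy1 hy2 h1 h2 ?_ ?_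
  · simp only [pow_one]
    exact int_one hκ1 hδ
  · simp only [pow_one]
    exact int_one hκ2 hδ

theorem main_up2 {δ κ1 κ2 a s y1 y2 : ℝ} (hδ : 0 < δ) (hκ1 : 0 < κ1) (hκ2 : 0 < κ2)
    (hy1 : 0 ≤ y1) (hy2 : 0 ≤ y2)
    (h1 : ∀ y : ℝ, 0 ≤ y → y ≤ y1 → κ1 * y ^ 2 ≤ Ht a s 0 (-y))
    (h2 : ∀ y : ℝ, 0 ≤ y → y ≤ y2 → κ2 * y ^ 2 ≤ Ht a s 0 y) :
    ‖∫ y in (-y1)..y2, Wt δ (a + s * I) 2 0 y‖ ≤
      √Real.pi / 4 * (δ / κ1 * √(δ / κ1) + δ / κ2 * √(δ / κ2)) := by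
  rw [mul_add]
  exact both hδ hy1 hy2 h1 h2 (int_two hκ1 hδ hy1) (int_two hκ2 hδ hy2)

end SokalN1
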