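import Mathlib

/-!
# N = 1, large `rho`: the left saddle

`A(a) = √(rho² e^{-2a} - a²)`, `rho - A + arctan(a/A)`, continuous where `A > 0`: `0` at `a = 0`, at least `2π` at
`a = 6/5` (`rho ≥ 9`: `A(6/5) ≤ e^{-6/5} rho ≤ .3012 rho`; `8 ≤ rho ≤ 9`: `rho - A` is increasing in `rho`,
`8 - A = 5.9106` at `rho = 8`, `arctan(1.2/A) ≥ arctan(.49) ≥ .49/(1 + .49²) ≥ .39`).
-/

set_option autoImplicit false

namespace SokalN1

open Set

private theorem geoL_sq (a : ℝ) : Real.exp (-a) ^ 2 = Real.exp (-(2 * a)) := by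
  rw [← Real.exp_nat_mul]
  congr 1
  push_cast
  ring

private theorem geoL_e12 : Real.exp (12 / 5) ^ 5 = Real.exp 1 ^ 12 := by
  rw [← Real.exp_nat_mul, ← Real.exp_nat_mul]
  congr 1
  norm_num

private theorem geoL_lo : 110133 / 10000 ≤ Real.exp (12 / 5) := by
  refine le_of_pow_le_pow_left₀ (n := 5) (by norm_num) (Real.exp_pos _).le ?_
  rw [geoL_e12]
  refine le_trans ?_ (pow_le_pow_left₀ (by norm_num) Real.exp_one_gt_d9.le 12)
  norm_num

private theorem geoL_hi : Real.exp (12 / 5) ≤ 11027 / 1000 := by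
  refine le_of_pow_le_pow_left₀ (n := 5) (by norm_num) (by norm_num) ?_
  rw [geoL_e12]
  refine le_trans (pow_le_pow_left₀ (Real.exp_pos 1).le Real.exp_one_lt_d9.le 12) ?_
  norm_num

/-- `e^{-12/5} ≥ .0906864` -/
private theorem geoL_E2lo : 9068640 / 100000000 ≤ Real.exp (-(6 / 5 : ℝ)) ^ 2 := by
  rw [geoL_sq, show (2 * (6 / 5) : ℝ) = 12 / 5 by norm_num, Real.exp_neg]
  rw [le_inv_comm₀ (by norm_num) (Real.exp_pos _)]
  refine geoL_hi.trans ?_
  norm_num

private theorem geoL_E2hi : Real.exp (-(6 / 5 : ℝ)) ^ 2 ≤ 908 / 10000 := by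
  rw [geoL_sq, show (2 * (6 / 5) : ℝ) = 12 / 5 by norm_num, Real.exp_neg]
  rw [inv_le_comm₀ (Real.exp_pos _) (by norm_num)]
  refine le_trans ?_ geoL_lo
  norm_num

private theorem geoL_low {rho a : ℝ} (h8 : 8 ≤ rho) (ha : 0 ≤ a) (ha2 : a ≤ 6 / 5) :
    4363921 / 1000000 ≤ rho ^ 2 * Real.exp (-a) ^ 2 - a ^ 2 := by
  have h1 : Real.exp (-(6 / 5 : ℝ)) ^ 2 ≤ Real.exp (-a) ^ 2 :=
    pow_le_pow_left₀ (Real.exp_pos _).le (Real.exp_le_exp.2 (by linarith)) 2
  have h2 := geoL_E2lo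
  have h3 : (64 : ℝ) ≤ rho ^ 2 := by nlinarith
  have h4 : a ^ 2 ≤ (6 / 5) ^ 2 := pow_le_pow_left₀ ha ha2 2
  have h5 : 64 * (9068640 / 100000000) ≤ rho ^ 2 * Real.exp (-a) ^ 2 :=
    mul_le_mul h3 (h2.trans h1) (by norm_num) (by positivity)
  linarith

private theorem geoL_arctan {x : ℝ} (hx : 0 ≤ x) : x / (1 + x ^ 2) ≤ Real.arctan x := by
  set t := Real.arctan x with ht
  have h0 : 0 ≤ t := Real.arctan_nonneg.2 hx
  have h1 : t < Real.pi / 2 := Real.arctan_lt_pi_div_two x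
  have hx' : Real.tan t = x := Real.tan_arctan x
  have hc : 0 < Real.cos t := Real.cos_arctan_pos x
  have h2 : x / (1 + x ^ 2) = Real.sin t * Real.cos t := by
    rw [← hx', Real.tan_eq_sin_div_cos]
    have h3 := Real.sin_sq_add_cos_sq t
    have h4 : 1 + (Real.sin t / Real.cos t) ^ 2 = 1 / Real.cos t ^ 2 := by
      field_simp
      linarith
    rw [h4]
    field_simp
  rw [h2]
  have h3 : 0 ≤ Real.sin t := Real.sin_nonneg_of_nonneg_of_le_pi h0 (by linarith [Real.pi_pos])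
  calc Real.sin t * Real.cos t ≤ Real.sin t * 1 := mul_le_mul_of_nonneg_left (Real.cos_le_one t) h3
    _ ≤ t := by rw [mul_one]; exact Real.sin_le h0

theorem sad_L {rho φ : ℝ} (h8 : 8 ≤ rho) (h0 : 0 ≤ φ) (h1 : φ ≤ 2 * Real.pi) :
    ∃ a s : ℝ, 0 ≤ a ∧ a ≤ 6 / 5 ∧ 0 < s ∧ s ^ 2 + a ^ 2 = rho ^ 2 * Real.exp (-a) ^ 2 ∧
      s - rho - Real.arctan (a / s) = φ - 2 * Real.pi := by
  have hpi := Real.pi_lt_d4
  have hpi0 := Real.pi_pos
  have hrho : 0 < rho := by linarith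
  set A : ℝ → ℝ := fun a => √(rho ^ 2 * Real.exp (-a) ^ 2 - a ^ 2) with hA
  have hApos : ∀ a ∈ Icc (0 : ℝ) (6 / 5), 0 < A a := fun a ha =>
    Real.sqrt_pos.2 (by linarith [geoL_low h8 ha.1 ha.2])
  have hAsq : ∀ a ∈ Icc (0 : ℝ) (6 / 5), A a ^ 2 = rho ^ 2 * Real.exp (-a) ^ 2 - a ^ 2 := fun a ha =>
    Real.sq_sqrt (by linarith [geoL_low h8 ha.1 ha.2])
  have hAc : Continuous A := by
    rw [hA]
    fun_prop
  have hfc : ContinuousOn (fun a => rho - A a + Real.arctan (a / A a)) (Icc 0 (6 / 5)) := by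
    refine (continuousOn_const.sub hAc.continuousOn).add ?_
    exact Real.continuous_arctan.comp_continuousOn
      (continuousOn_id.div hAc.continuousOn fun a ha => (hApos a ha).ne')
  have hf0 : rho - A 0 + Real.arctan (0 / A 0) ≤ 2 * Real.pi - φ := by
    have : A 0 = rho := by
      rw [hA]
      simp only [neg_zero, Real.exp_zero, one_pow, mul_one, ne_eq, OfNat.ofNat_ne_zero, not_false_eq_true,
        zero_pow, sub_zero]
      exact Real.sqrt_sq hrho.le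
    rw [this, zero_div, Real.arctan_zero]
    linarith
  have hm : (6 / 5 : ℝ) ∈ Icc (0 : ℝ) (6 / 5) := ⟨by norm_num, le_rfl⟩
  have hf1 : 2 * Real.pi - φ ≤ rho - A (6 / 5) + Real.arctan ((6 / 5) / A (6 / 5)) := by
    have e1 := hAsq _ hm
    have e2 := hApos _ hm
    have e3 := geoL_E2hi
    have e4 : 0 ≤ Real.arctan ((6 / 5) / A (6 / 5)) := Real.arctan_nonneg.2 (by positivity)
    have e5 : rho ^ 2 * Real.exp (-(6 / 5 : ℝ)) ^ 2 ≤ rho ^ 2 * (908 / 10000) :=
      mul_le_mul_of_nonneg_left e3 (by positivity)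
    set B := A (6 / 5) with hB
    rcases le_total 9 rho with h9 | h9
    · have e6 : B ≤ 3014 / 10000 * rho := by
        refine le_of_pow_le_pow_left₀ (n := 2) two_ne_zero (by positivity) ?_
        nlinarith
      nlinarith
    · have e6 : B ≤ rho - 59 / 10 := by
        refine le_of_pow_le_pow_left₀ (n := 2) two_ne_zero (by linarith) ?_
        nlinarith
      have e7 : B ≤ 2433 / 1000 := by
        refine le_of_pow_le_pow_left₀ (n := 2) two_ne_zero (by norm_num) ?_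
        nlinarith
      have e8 : 4932 / 10000 ≤ (6 / 5) / B := by
        rw [le_div_iff₀ e2]
        linarith
      have e9 : 3967 / 10000 ≤ Real.arctan ((6 / 5) / B) := by
        refine le_trans ?_ (Real.arctan_mono e8)
        refine le_trans ?_ (geoL_arctan (by norm_num))
        norm_num
      linarith
  obtain ⟨a, ha, hfa⟩ := intermediate_value_Icc (by norm_num : (0 : ℝ) ≤ 6 / 5) hfc ⟨hf0, hf1⟩
  refine ⟨a, A a, ha.1, ha.2, hApos a ha, ?_, ?_⟩
  · rw [hAsq a ha]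
    ring
  · have hfa' : rho - A a + Real.arctan (a / A a) = 2 * Real.pi - φ := hfa
    linarith

/-- `s² ≥ 64 e^{-12/5} - 36/25 ≥ 4.3657`, `s = φ - 2π + rho + arctan(a/s) ≥ rho - 2π`; `rho ≥ 13`:
`rho e^{-a} ≥ s ≥ rho - 2π`, so `e^{-a} ≥ 1 - 2π/13 ≥ .5166`, `a ≤ .661`, `s ≥ 6.7168`. -/
theorem sad_L_facts {rho φ a s : ℝ} (h8 : 8 ≤ rho) (h0 : 0 ≤ φ) (ha : 0 ≤ a) (ha2 : a ≤ 6 / 5) (hs : 0 < s)
    (h : s ^ 2 + a ^ 2 = rho ^ 2 * Real.exp (-a) ^ 2) (hφ : s - rho - Real.arctan (a / s) = φ - 2 * Real.pi) :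
    s ≤ rho ∧ rho - 2 * Real.pi ≤ s ∧ 2089 / 1000 ≤ s ∧ a ≤ 575 / 1000 * s ∧
      (13 ≤ rho → a ≤ 661 / 1000 ∧ a ≤ 985 / 10000 * s) := by
  have hpi := Real.pi_lt_d4
  have hat : 0 ≤ Real.arctan (a / s) := Real.arctan_nonneg.2 (by positivity)
  have e1 : Real.exp (-a) ≤ 1 := Real.exp_le_one_iff.2 (by linarith)
  have e0 := Real.exp_pos (-a)
  have hsE : s ≤ rho * Real.exp (-a) := by
    refine le_of_pow_le_pow_left₀ (n := 2) two_ne_zero (by positivity) ?_
    rw [mul_pow]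
    linarith [sq_nonneg a]
  have hs1 : s ≤ rho := hsE.trans (mul_le_of_le_one_right (by linarith) e1)
  have hs2 : rho - 2 * Real.pi ≤ s := by linarith
  have hs3 : 2089 / 1000 ≤ s := by
    refine le_of_pow_le_pow_left₀ (n := 2) two_ne_zero hs.le ?_
    have := geoL_low h8 ha ha2
    norm_num
    linarith
  refine ⟨hs1, hs2, hs3, by linarith, fun h13 => ?_⟩
  have ha3 : a ≤ 661 / 1000 := by
    by_contra hcon
    push Not at hcon
    have h2 : (19365 / 10000 : ℝ) ≤ Real.exp (661 / 1000) := by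
      refine le_trans ?_ (Real.sum_le_exp_of_nonneg (by norm_num : (0 : ℝ) ≤ 661 / 1000) 6)
      norm_num [Finset.sum_range_succ, Nat.factorial]
    have h3 : Real.exp (661 / 1000) ≤ Real.exp a := Real.exp_le_exp.2 hcon.le
    have h4 : Real.exp (-a) * Real.exp a = 1 := by rw [← Real.exp_add]; simp
    have h5 : Real.exp (-a) * (19365 / 10000) ≤ 1 := by
      rw [← h4]
      exact mul_le_mul_of_nonneg_left (h2.trans h3) e0.le
    have h6 : rho * Real.exp (-a) * (19365 / 10000) ≤ rho := by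
      have := mul_le_mul_of_nonneg_left h5 (by linarith : (0 : ℝ) ≤ rho)
      linarith
    linarith
  exact ⟨ha3, by linarith⟩

open Complex in
/-- The saddle equation `rho e^g = g + iψ`, `ψ = φ + rho - π/2`, `g = -a + i(s - ψ)`. -/
theorem sad_L_eq {rho φ a s : ℝ} (hr : 0 < rho) (ha : 0 ≤ a) (hs : 0 < s)
    (h : s ^ 2 + a ^ 2 = rho ^ 2 * Real.exp (-a) ^ 2)
    (hφ : s - rho - Real.arctan (a / s) = φ - 2 * Real.pi) :
    (rho : ℂ) * cexp (-(a : ℂ) + ((s - (φ + rho - Real.pi / 2) : ℝ) : ℂ) * I) = -a + s * I := by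
  have e0 := Real.exp_pos (-a)
  set θ := Real.arctan (a / s) with hθ
  have h1 : s - (φ + rho - Real.pi / 2) = θ + Real.pi / 2 - 2 * Real.pi := by linarith
  have hR : 0 < rho * Real.exp (-a) := mul_pos hr e0
  have h2 : √(1 + (a / s) ^ 2) = rho * Real.exp (-a) / s := by
    rw [Real.sqrt_eq_iff_mul_self_eq (by positivity) (by positivity)]
    field_simp
    linarith
  have hc : Real.cos θ = s / (rho * Real.exp (-a)) := by
    rw [hθ, Real.cos_arctan, h2, one_div_div]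
  have hsn : Real.sin θ = a / (rho * Real.exp (-a)) := by
    rw [hθ, Real.sin_arctan, h2]
    field_simp
  rw [h1, Complex.exp_add, Complex.exp_mul_I, ← Complex.ofReal_cos, ← Complex.ofReal_sin,
    Real.cos_sub_two_pi, Real.sin_sub_two_pi, Real.cos_add_pi_div_two, Real.sin_add_pi_div_two, hc, hsn,
    ← Complex.ofReal_neg, ← Complex.ofReal_exp]
  push_cast
  have hr' : (rho : ℂ) ≠ 0 := by exact_mod_cast hr.ne'
  have he' : Complex.exp (-(a : ℂ)) ≠ 0 := Complex.exp_ne_zero _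
  field_simp

end SokalN1
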