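import Mathlib

/-!
# N = 1, large `rho`: the right saddle

`A(a) = √(rho² e^{2a} - a²)`, `A - rho + arctan(a/A)`: continuous on `[0, 3/5]`, `0` at `0`, at least `2π` at `3/5`
(`A(3/5) ≥ 1.8 rho`, `rho ≥ 8`).
-/

set_option autoImplicit false

namespace SokalN1

open Set

private theorem gr_arctan_le {x : ℝ} (hx : 0 ≤ x) : Real.arctan x ≤ x := by
  have h1 : 0 ≤ Real.arctan x := Real.arctan_nonneg.2 hx
  have h2 := Real.le_tan h1 (Real.arctan_lt_pi_div_two x)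
  rwa [Real.tan_arctan] at h2

private theorem gr_exp12 : (33 / 10 : ℝ) ≤ Real.exp (3 / 5) ^ 2 := by
  have h1 : Real.exp (3 / 5) ^ 2 = Real.exp 1 * Real.exp (1 / 5) := by
    rw [← Real.exp_nat_mul, ← Real.exp_add]
    norm_num
  have h2 := Real.exp_one_gt_d9
  have h3 := Real.quadratic_le_exp_of_nonneg (show (0 : ℝ) ≤ 1 / 5 by norm_num)
  rw [h1]
  nlinarith

private theorem gr_exp_one_sq : (7389 / 1000 : ℝ) ≤ Real.exp 1 ^ 2 := by
  have h2 := Real.exp_one_gt_d9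
  nlinarith

theorem sad_R {rho φ : ℝ} (h8 : 8 ≤ rho) (h0 : 0 ≤ φ) (h1 : φ ≤ 2 * Real.pi) :
    ∃ a s : ℝ, 0 ≤ a ∧ a ≤ 3 / 5 ∧ 0 < s ∧ s ^ 2 + a ^ 2 = rho ^ 2 * Real.exp a ^ 2 ∧
      s - rho + Real.arctan (a / s) = φ := by
  have hpi := Real.pi_lt_d2
  set A : ℝ → ℝ := fun a => √(rho ^ 2 * Real.exp a ^ 2 - a ^ 2) with hA
  have hpos : ∀ a ∈ Icc (0 : ℝ) (3 / 5), 0 < rho ^ 2 * Real.exp a ^ 2 - a ^ 2 := by
    intro a ha
    have h2 : 1 ≤ Real.exp a := Real.one_le_exp ha.1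
    have h3 : 64 ≤ rho ^ 2 := by nlinarith
    have h4 : 1 ≤ Real.exp a ^ 2 := by nlinarith
    have h5 : a ^ 2 ≤ 1 := by
      have := ha.1
      have := ha.2
      nlinarith
    nlinarith
  have hApos : ∀ a ∈ Icc (0 : ℝ) (3 / 5), 0 < A a := fun a ha => Real.sqrt_pos.2 (hpos a ha)
  have hcont : ContinuousOn (fun a => A a - rho + Real.arctan (a / A a)) (Icc (0 : ℝ) (3 / 5)) := by
    have hc : Continuous A := by
      rw [hA]
      fun_prop
    have hd : ContinuousOn (fun a => a / A a) (Icc (0 : ℝ) (3 / 5)) :=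
      continuousOn_id.div hc.continuousOn (fun a ha => (hApos a ha).ne')
    exact (hc.continuousOn.sub continuousOn_const).add (Real.continuous_arctan.comp_continuousOn hd)
  have h0' : A 0 - rho + Real.arctan (0 / A 0) = 0 := by
    have : A 0 = rho := by
      rw [hA]
      simp only [Real.exp_zero, one_pow, mul_one]
      rw [show rho ^ 2 - 0 ^ 2 = rho ^ 2 by ring, Real.sqrt_sq (by linarith)]
    rw [this, zero_div, Real.arctan_zero]
    ring
  have hend : 2 * Real.pi ≤ A (3 / 5) - rho + Real.arctan ((3 / 5) / A (3 / 5)) := by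
    have h2 : 9 / 5 * rho ≤ A (3 / 5) := by
      rw [hA]
      apply Real.le_sqrt_of_sq_le
      have := gr_exp12
      nlinarith
    have h3 : 0 < A (3 / 5) := by linarith
    have h4 : 0 ≤ Real.arctan ((3 / 5) / A (3 / 5)) := Real.arctan_nonneg.2 (by positivity)
    nlinarith
  have hivt := intermediate_value_Icc (show (0 : ℝ) ≤ 3 / 5 by norm_num) hcont
  obtain ⟨a, ha, hav⟩ := hivt (show φ ∈ _ from ⟨by simp only [h0']; exact h0, h1.trans hend⟩)
  refine ⟨a, A a, ha.1, ha.2, hApos a ha, ?_, hav⟩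
  have : A a ^ 2 = rho ^ 2 * Real.exp a ^ 2 - a ^ 2 := Real.sq_sqrt (hpos a ha).le
  rw [this]
  ring

/-- `e^{2a} ≥ 1 + 2a`; `e^a ≥ e a` (`Real.add_one_le_exp (a - 1)`): `s² ≥ (64 e² - 1) a² ≥ 471 a²`;
`rho ≥ 13`: `s² ≥ (169 e² - 1) a² ≥ 1247 a²`. -/
theorem sad_R_facts {rho a s : ℝ} (h8 : 8 ≤ rho) (ha : 0 ≤ a) (ha2 : a ≤ 3 / 5) (hs : 0 < s)
    (h : s ^ 2 + a ^ 2 = rho ^ 2 * Real.exp a ^ 2) :
    rho ≤ s ∧ s ≤ rho * Real.exp a ∧ a ≤ 461 / 10000 * s ∧ (13 ≤ rho → a ≤ 284 / 10000 * s) := by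
  have he : Real.exp 1 * a ≤ Real.exp a := by
    have h1 := Real.add_one_le_exp (a - 1)
    have h2 : Real.exp a = Real.exp 1 * Real.exp (a - 1) := by
      rw [← Real.exp_add]
      congr 1
      ring
    rw [h2]
    exact mul_le_mul_of_nonneg_left (by linarith) (Real.exp_pos 1).le
  have he2 : Real.exp 1 ^ 2 * a ^ 2 ≤ Real.exp a ^ 2 := by
    have := pow_le_pow_left₀ (mul_nonneg (Real.exp_pos 1).le ha) he 2
    rwa [mul_pow] at this
  have he3 : 7389 / 1000 * a ^ 2 ≤ Real.exp a ^ 2 := by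
    have := gr_exp_one_sq
    nlinarith [sq_nonneg a]
  have he4 : 1 + 2 * a ≤ Real.exp a ^ 2 := by
    have h1 := Real.add_one_le_exp (2 * a)
    have h2 : Real.exp a ^ 2 = Real.exp (2 * a) := by
      rw [← Real.exp_nat_mul]
      norm_num
    rw [h2]
    linarith
  have hr2 : 64 ≤ rho ^ 2 := by nlinarith
  refine ⟨?_, ?_, ?_, ?_⟩
  · apply le_of_sq_le_sq _ hs.le
    have h1 : rho ^ 2 * (1 + 2 * a) ≤ rho ^ 2 * Real.exp a ^ 2 := mul_le_mul_of_nonneg_left he4 (by positivity)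
    nlinarith
  · apply le_of_sq_le_sq _ (by have := Real.exp_pos a; positivity)
    rw [mul_pow]
    nlinarith [sq_nonneg a]
  · apply le_of_sq_le_sq _ (by positivity)
    have h1 : 64 * (7389 / 1000 * a ^ 2) ≤ rho ^ 2 * Real.exp a ^ 2 :=
      mul_le_mul hr2 he3 (by positivity) (by positivity)
    rw [mul_pow]
    nlinarith [sq_nonneg a]
  · intro h13
    apply le_of_sq_le_sq _ (by positivity)
    have hr3 : 169 ≤ rho ^ 2 := by nlinarith
    have h1 : 169 * (7389 / 1000 * a ^ 2) ≤ rho ^ 2 * Real.exp a ^ 2 :=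
      mul_le_mul hr3 he3 (by positivity) (by positivity)
    rw [mul_pow]
    nlinarith [sq_nonneg a]

/-- The distance of the two saddles. -/
theorem sad_gap {rho φ a s a' s' : ℝ} (ha : 0 ≤ a) (hs : 0 < s) (ha' : 0 ≤ a') (hs' : 0 < s')
    (h : s - rho + Real.arctan (a / s) = φ) (h' : s' - rho - Real.arctan (a' / s') = φ - 2 * Real.pi)
    {t t' : ℝ} (ht : a ≤ t * s) (ht' : a' ≤ t' * s') : 2 * Real.pi - t - t' ≤ s - s' := by
  have h1 : Real.arctan (a / s) ≤ t :=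
    (gr_arctan_le (div_nonneg ha hs.le)).trans ((div_le_iff₀ hs).2 ht)
  have h2 : Real.arctan (a' / s') ≤ t' :=
    (gr_arctan_le (div_nonneg ha' hs'.le)).trans ((div_le_iff₀ hs').2 ht')
  linarith

open Complex in
/-- The saddle equation `rho e^g = g + iψ`, `ψ = φ + rho - π/2`, `g = a + i(s - ψ)`. -/
theorem sad_R_eq {rho φ a s : ℝ} (hr : 0 < rho) (ha : 0 ≤ a) (hs : 0 < s)
    (h : s ^ 2 + a ^ 2 = rho ^ 2 * Real.exp a ^ 2) (hφ : s - rho + Real.arctan (a / s) = φ) :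
    (rho : ℂ) * cexp ((a : ℂ) + ((s - (φ + rho - Real.pi / 2) : ℝ) : ℂ) * I) = a + s * I := by
  have hθ : s - (φ + rho - Real.pi / 2) = Real.pi / 2 - Real.arctan (a / s) := by linarith
  set R : ℝ := rho * Real.exp a with hR
  have hRpos : 0 < R := mul_pos hr (Real.exp_pos a)
  have hR2 : s ^ 2 + a ^ 2 = R ^ 2 := by rw [h, hR, mul_pow]
  have hsq : √(1 + (a / s) ^ 2) = R / s := by
    have h1 : 1 + (a / s) ^ 2 = (R / s) ^ 2 := by
      rw [div_pow, div_pow, ← hR2]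
      field_simp
    rw [h1, Real.sqrt_sq (by positivity)]
  have hcos : Real.cos (Real.pi / 2 - Real.arctan (a / s)) = a / R := by
    rw [Real.cos_pi_div_two_sub, Real.sin_arctan, hsq]
    field_simp
  have hsin : Real.sin (Real.pi / 2 - Real.arctan (a / s)) = s / R := by
    rw [Real.sin_pi_div_two_sub, Real.cos_arctan, hsq]
    field_simp
  rw [hθ, Complex.exp_add, Complex.exp_mul_I, ← Complex.ofReal_exp, ← Complex.ofReal_cos, ← Complex.ofReal_sin,
    hcos, hsin, ← mul_assoc, ← Complex.ofReal_mul, ← hR]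
  have hRc : (R : ℂ) ≠ 0 := by exact_mod_cast hRpos.ne'
  push_cast
  field_simp

end SokalN1
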