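import Pool.Agent.Lib_MP_af4de1_f1.N1Defs

/-!
# N = 1, large `rho`: general estimates for horizontal parts
-/

set_option autoImplicit false

namespace SokalN1

open Complex Set MeasureTheory

/-- `√z e^{-cz}` decreases for `2 c z ≥ 1` -/
theorem sqrt_exp_dec {c z z0 : ℝ} (h0 : 0 < z0) (hc : 1 ≤ 2 * c * z0) (hz : z0 ≤ z) :
    √z * Real.exp (-(c * z)) ≤ √z0 * Real.exp (-(c * z0)) := by
  have h1 : √z ≤ √z0 * Real.exp (c * (z - z0)) := by
    rw [Real.sqrt_le_left (by positivity), mul_pow, Real.sq_sqrt h0.le]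
    have e : Real.exp (c * (z - z0)) ^ 2 = Real.exp (2 * (c * (z - z0))) := by
      rw [← Real.exp_nat_mul]; norm_num
    rw [e]
    have h2 := Real.add_one_le_exp (2 * (c * (z - z0)))
    have h3 : z0 * (2 * (c * (z - z0)) + 1) ≤ z0 * Real.exp (2 * (c * (z - z0))) :=
      mul_le_mul_of_nonneg_left h2 h0.le
    nlinarith [mul_le_mul_of_nonneg_right hc (sub_nonneg.mpr hz)]
  calc √z * Real.exp (-(c * z)) ≤ √z0 * Real.exp (c * (z - z0)) * Real.exp (-(c * z)) :=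
        mul_le_mul_of_nonneg_right h1 (Real.exp_pos _).le
    _ = √z0 * Real.exp (-(c * z0)) := by
        rw [mul_assoc, ← Real.exp_add]
        congr 2
        ring

theorem weight_two {j : ℕ} (hj : j ≤ 2) {u y : ℝ} (hy : 1 ≤ y ^ 2) :
    √(u ^ 2 + y ^ 2) ^ j ≤ u ^ 2 + y ^ 2 := by
  have h1 : 1 ≤ √(u ^ 2 + y ^ 2) := by
    rw [Real.one_le_sqrt]
    nlinarith [sq_nonneg u]
  calc √(u ^ 2 + y ^ 2) ^ j ≤ √(u ^ 2 + y ^ 2) ^ 2 := pow_le_pow_right₀ h1 hj
    _ = u ^ 2 + y ^ 2 := Real.sq_sqrt (by positivity)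

theorem weight_hor {j : ℕ} (hj : j ≤ 2) {u y : ℝ} (hu : 0 ≤ u) (hy : 256 / 100 ≤ y ^ 2) :
    √(u ^ 2 + y ^ 2) ^ j ≤ y ^ 2 * Real.exp (9 / 10 * u) := by
  refine (weight_two hj (by linarith)).trans ?_
  have h1 := Real.quadratic_le_exp_of_nonneg (x := 9 / 10 * u) (by positivity)
  have h2 : y ^ 2 * (1 + 9 / 10 * u + (9 / 10 * u) ^ 2 / 2) ≤ y ^ 2 * Real.exp (9 / 10 * u) :=
    mul_le_mul_of_nonneg_left h1 (sq_nonneg y)
  refine le_trans ?_ h2
  have h3 : 256 / 100 * ((9 / 10 * u) ^ 2 / 2) ≤ y ^ 2 * ((9 / 10 * u) ^ 2 / 2) :=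
    mul_le_mul_of_nonneg_right hy (by positivity)
  have h4 : 0 ≤ y ^ 2 * (9 / 10 * u) := by positivity
  nlinarith [sq_nonneg u]

theorem wt_int {δ a s y c d : ℝ} (hδ : 0 < δ) (hc : 0 < c) (h : ∀ u, 0 ≤ u → d + c * u ≤ Ht a s u y) (j : ℕ) :
    IntegrableOn (fun u => Wt δ (a + s * I) j u y) (Ioi 0) := by
  set ε : ℝ := c / (2 * δ) with hε
  have hε0 : 0 < ε := by positivity
  have hg : IntegrableOn (fun u : ℝ => (j.factorial / ε ^ j * Real.exp (ε * |y|) * Real.exp (-(d / δ))) *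
      Real.exp (-ε * u)) (Ioi 0) := (exp_neg_integrableOn_Ioi 0 hε0).const_mul _
  refine Integrable.mono' hg ((continuous_Wt_x δ _ j y).aestronglyMeasurable) ?_
  refine (ae_restrict_iff' measurableSet_Ioi).mpr (Filter.Eventually.of_forall fun u hu => ?_)
  have hu0 : (0 : ℝ) ≤ u := le_of_lt hu
  rw [norm_Wt]
  have h1 : √(u ^ 2 + y ^ 2) ≤ u + |y| := by
    rw [Real.sqrt_le_left (by positivity)]
    nlinarith [sq_abs y, abs_nonneg y, mul_nonneg hu0 (abs_nonneg y)]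
  have h2 : √(u ^ 2 + y ^ 2) ^ j ≤ (u + |y|) ^ j := pow_le_pow_left₀ (Real.sqrt_nonneg _) h1 j
  have h3 := Real.pow_div_factorial_le_exp (ε * (u + |y|)) (by positivity) j
  have h4 : (u + |y|) ^ j ≤ j.factorial / ε ^ j * Real.exp (ε * (u + |y|)) := by
    rw [mul_pow, div_le_iff₀ (by positivity)] at h3
    rw [div_mul_eq_mul_div, le_div_iff₀ (by positivity)]
    linarith
  have h5 : Real.exp (-Ht a s u y / δ) ≤ Real.exp (-(d / δ)) * Real.exp (-(2 * ε * u)) := by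
    rw [← Real.exp_add]
    refine Real.exp_le_exp.mpr ?_
    have h6 := h u hu0
    have e : 2 * ε = c / δ := by rw [hε]; field_simp
    rw [e, neg_div]
    have h7 : (d + c * u) / δ ≤ Ht a s u y / δ := div_le_div_of_nonneg_right h6 hδ.le
    have e2 : (d + c * u) / δ = d / δ + c / δ * u := by field_simp
    linarith
  calc √(u ^ 2 + y ^ 2) ^ j * Real.exp (-Ht a s u y / δ)
      ≤ (j.factorial / ε ^ j * Real.exp (ε * (u + |y|))) * (Real.exp (-(d / δ)) * Real.exp (-(2 * ε * u))) :=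
        mul_le_mul (h2.trans h4) h5 (Real.exp_pos _).le (by positivity)
    _ = j.factorial / ε ^ j * Real.exp (ε * |y|) * Real.exp (-(d / δ)) * Real.exp (-ε * u) := by
        have e1 : Real.exp (ε * (u + |y|)) = Real.exp (ε * |y|) * Real.exp (ε * u) := by
          rw [← Real.exp_add]; congr 1; ring
        have e2 : Real.exp (ε * u) * Real.exp (-(2 * ε * u)) = Real.exp (-ε * u) := by
          rw [← Real.exp_add]; congr 1; ring
        rw [e1, ← e2]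
        ring

theorem hor_le {δ a s y c0 c1 : ℝ} (hδ : 0 < δ) (hs : 0 < s)
    (h : ∀ u, 0 ≤ u → c0 * s + c1 * s * u ≤ Ht a s u y) (hy : 256 / 100 ≤ y ^ 2) {j : ℕ} (hj : j ≤ 2)
    (hc : 9 / 10 < c1 * (s / δ)) :
    ‖∫ u in Ioi (0 : ℝ), Wt δ (a + s * I) j u y‖ ≤
      y ^ 2 * Real.exp (-(c0 * (s / δ))) / (c1 * (s / δ) - 9 / 10) := by
  have hneg : -(c1 * (s / δ) - 9 / 10) < 0 := by linarith
  have hg : IntegrableOn (fun u : ℝ => (y ^ 2 * Real.exp (-(c0 * (s / δ)))) *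
      Real.exp (-(c1 * (s / δ) - 9 / 10) * u)) (Ioi 0) := (integrableOn_exp_mul_Ioi hneg 0).const_mul _
  have hb : ‖∫ u in Ioi (0 : ℝ), Wt δ (a + s * I) j u y‖ ≤
      ∫ u in Ioi (0 : ℝ), (y ^ 2 * Real.exp (-(c0 * (s / δ)))) * Real.exp (-(c1 * (s / δ) - 9 / 10) * u) := by
    refine norm_integral_le_of_norm_le hg ?_
    refine (ae_restrict_iff' measurableSet_Ioi).mpr (Filter.Eventually.of_forall fun u hu => ?_)
    have hu0 : (0 : ℝ) ≤ u := le_of_lt hu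
    rw [norm_Wt]
    have h1 := weight_hor hj hu0 hy
    have h5 : Real.exp (-Ht a s u y / δ) ≤ Real.exp (-(c0 * (s / δ))) * Real.exp (-(c1 * (s / δ) * u)) := by
      rw [← Real.exp_add]
      refine Real.exp_le_exp.mpr ?_
      have h7 : (c0 * s + c1 * s * u) / δ ≤ Ht a s u y / δ := div_le_div_of_nonneg_right (h u hu0) hδ.le
      have e2 : (c0 * s + c1 * s * u) / δ = c0 * (s / δ) + c1 * (s / δ) * u := by field_simp
      rw [neg_div]
      linarith
    calc √(u ^ 2 + y ^ 2) ^ j * Real.exp (-Ht a s u y / δ)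
        ≤ (y ^ 2 * Real.exp (9 / 10 * u)) * (Real.exp (-(c0 * (s / δ))) * Real.exp (-(c1 * (s / δ) * u))) :=
          mul_le_mul h1 h5 (Real.exp_pos _).le (by positivity)
      _ = (y ^ 2 * Real.exp (-(c0 * (s / δ)))) * Real.exp (-(c1 * (s / δ) - 9 / 10) * u) := by
          have e2 : Real.exp (9 / 10 * u) * Real.exp (-(c1 * (s / δ) * u)) =
              Real.exp (-(c1 * (s / δ) - 9 / 10) * u) := by
            rw [← Real.exp_add]; congr 1; ring
          rw [← e2]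
          ring
  refine hb.trans (le_of_eq ?_)
  rw [integral_const_mul, integral_exp_mul_Ioi hneg]
  simp only [mul_zero, Real.exp_zero]
  rw [neg_div_neg_eq]
  ring

theorem step_le {δ a s y M B p q : ℝ} (hpq : p ≤ q) (h : ∀ x ∈ Icc p q, M ≤ Ht a s x y / δ)
    (hB : ∀ x ∈ Icc p q, x ^ 2 + y ^ 2 ≤ B) (hy : 1 ≤ y ^ 2) {j : ℕ} (hj : j ≤ 2) :
    ‖∫ x in p..q, Wt δ (a + s * I) j x y‖ ≤ B * Real.exp (-M) * (q - p) := by
  have h1 := intervalIntegral.norm_integral_le_of_norm_le_const (a := p) (b := q) (C := B * Real.exp (-M))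
    (f := fun x => Wt δ (a + s * I) j x y) ?_
  · rwa [abs_of_nonneg (by linarith)] at h1
  intro x hx
  rw [uIoc_of_le hpq] at hx
  have hx' : x ∈ Icc p q := ⟨hx.1.le, hx.2⟩
  rw [norm_Wt]
  refine mul_le_mul ((weight_two hj hy).trans (hB x hx')) ?_ (Real.exp_pos _).le ?_
  · refine Real.exp_le_exp.mpr ?_
    rw [neg_div]
    exact neg_le_neg (h x hx')
  · have := hB x hx'
    nlinarith [sq_nonneg x]

theorem sqrt_div_swap {δ s : ℝ} : √(δ / s) = (√(s / δ))⁻¹ := by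
  rw [← Real.sqrt_inv, inv_div]

/-- the final comparison -/
theorem small_of {δ s X K c z0 ε : ℝ} (hδ : 0 < δ) (hs : 0 < s) (hz0 : 0 < z0) (hz : z0 * δ ≤ s)
    (hc : 1 ≤ 2 * c * z0) (hK : 0 ≤ K) (hX : X ≤ K * Real.exp (-(c * (s / δ))))
    (hfin : K * (√z0 * Real.exp (-(c * z0))) ≤ ε) : X ≤ ε * √(δ / s) := by
  have hz' : z0 ≤ s / δ := (le_div_iff₀ hδ).mpr hz
  have h1 := sqrt_exp_dec hz0 hc hz'
  have hzpos : 0 < s / δ := by positivity
  have hsq : 0 < √(s / δ) := Real.sqrt_pos.mpr hzpos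
  rw [sqrt_div_swap, ← div_eq_mul_inv, le_div_iff₀ hsq]
  calc X * √(s / δ) ≤ K * Real.exp (-(c * (s / δ))) * √(s / δ) := mul_le_mul_of_nonneg_right hX hsq.le
    _ = K * (√(s / δ) * Real.exp (-(c * (s / δ)))) := by ring
    _ ≤ K * (√z0 * Real.exp (-(c * z0))) := mul_le_mul_of_nonneg_left h1 hK
    _ ≤ ε := hfin

end SokalN1
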