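import Pool.Agent.Lib_MP_af4de1_f1.N1T
import Pool.Agent.Lib_MP_af4de1_f1.N1H0

/-!
# N = 1, large `rho`: heights on the path L (`h = -a + i s`, `a ≥ 0`)
-/

set_option autoImplicit false

namespace SokalN1

open Complex Set MeasureTheory

theorem ht_L_neg {a s y : ℝ} (hs : 0 < s) (ha : 0 ≤ a) (hy : 0 ≤ y) (hy2 : y ≤ 2) :
    347 / 1000 * s * y ^ 2 ≤ Ht (-a) s 0 (-y) := by
  have h1 := one_sub_cos_two (y := y) (abs_le.mpr ⟨by linarith, hy2⟩)
  have h2 : Real.sin y ≤ y := Real.sin_le hy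
  unfold Ht
  rw [Real.exp_zero, Real.sin_neg, Real.cos_neg]
  have h3 := mul_le_mul_of_nonneg_left h1 hs.le
  have h4 := mul_nonneg ha (sub_nonneg.mpr h2)
  nlinarith

theorem ht_L_pos {a s t y : ℝ} (hs : 0 < s) (ha : 0 ≤ a) (hat : a ≤ t * s) (hy : 0 ≤ y) (hy2 : y ≤ 8 / 5) :
    (399 / 1000 - 4 / 15 * t) * s * y ^ 2 ≤ Ht (-a) s 0 y := by
  have h1 := one_sub_cos_85 (y := y) (abs_le.mpr ⟨by linarith, hy2⟩)
  have h2 := sub_sin_le hy
  unfold Ht
  rw [Real.exp_zero]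
  have h3 := mul_le_mul_of_nonneg_left h1 hs.le
  have h5 : y ^ 3 / 6 ≤ 4 / 15 * y ^ 2 := by
    nlinarith [mul_le_mul_of_nonneg_left hy2 (sq_nonneg y)]
  have h6 : a * (y - Real.sin y) ≤ a * (4 / 15 * y ^ 2) := mul_le_mul_of_nonneg_left (h2.trans h5) ha
  have h7 : a * (4 / 15 * y ^ 2) ≤ t * s * (4 / 15 * y ^ 2) := mul_le_mul_of_nonneg_right hat (by positivity)
  nlinarith

/-- `cos (8/5) ≤ 0`, `sin (8/5) ≥ .99`, `e^u ≥ 1`. -/
theorem ht_L_hor {a s u : ℝ} (hs : 2 ≤ s) (ha : 0 ≤ a) (hat : a ≤ 575 / 1000 * s) (hu : 0 ≤ u) :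
    64 / 100 * s + s * u ≤ Ht (-a) s u (8 / 5) := by
  have h1 := cos_85
  have h2 := sin_85
  have h3 : 1 ≤ Real.exp u := Real.one_le_exp hu
  unfold Ht
  have h4 : 0 ≤ -(Real.exp u * Real.cos (8 / 5)) := by
    have := mul_nonneg (Real.exp_pos u).le (neg_nonneg.mpr h1)
    linarith
  have h5 : 99 / 100 ≤ Real.exp u * Real.sin (8 / 5) := by nlinarith
  have h6 : a * (8 / 5 - Real.exp u * Real.sin (8 / 5)) ≤ a * (61 / 100) :=
    mul_le_mul_of_nonneg_left (by linarith) ha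
  have h7 := mul_nonneg (by linarith : (0 : ℝ) ≤ s) h4
  nlinarith

theorem negL (a s : ℝ) : (-(a : ℂ) + s * I) = (((-a : ℝ) : ℂ) + s * I) := by push_cast; ring

theorem horizL_int {δ a s : ℝ} (hδ : 0 < δ) (hs : 2 ≤ s) (ha : 0 ≤ a) (hat : a ≤ 575 / 1000 * s) (j : ℕ) :
    IntegrableOn (fun u => Wt δ (-a + s * I) j u (8 / 5)) (Ioi 0) := by
  rw [negL]
  exact wt_int hδ (by linarith : 0 < s) (fun u hu => ht_L_hor hs ha hat hu) j

/-- `∫_0^∞ (8/5 + u)² e^{-(.64 + u) z} du = e^{-.64z}(2.56/z + 3.2/z² + 2/z³)`, `z = s/δ ≥ 12.4`: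
at most `.00029 z^{-1/2}`. -/
theorem horizL {δ a s : ℝ} (hδ : 0 < δ) (hs : 2 ≤ s) (hz : 124 / 10 * δ ≤ s) (ha : 0 ≤ a)
    (hat : a ≤ 575 / 1000 * s) {j : ℕ} (hj : j ≤ 2) :
    ‖∫ u in Ioi (0 : ℝ), Wt δ (-a + s * I) j u (8 / 5)‖ ≤ 1 / 1000 * √(δ / s) := by
  rw [negL]
  have hs0 : 0 < s := by linarith
  have hz' : 124 / 10 ≤ s / δ := (le_div_iff₀ hδ).mpr hz
  have h1 := hor_le (a := -a) (s := s) (y := 8 / 5) (c0 := 64 / 100) (c1 := 1) hδ hs0
    (fun u hu => by rw [one_mul]; exact ht_L_hor hs ha hat hu) (by norm_num) hj (by linarith)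
  refine small_of (K := 23 / 100) (c := 64 / 100) (z0 := 124 / 10) hδ hs0 (by norm_num) hz (by norm_num)
    (by norm_num) ?_ ?_
  · refine h1.trans ?_
    rw [div_le_iff₀ (by linarith)]
    have h2 : 0 < Real.exp (-(64 / 100 * (s / δ))) := Real.exp_pos _
    have h3 : (8 / 5 : ℝ) ^ 2 ≤ 23 / 100 * (1 * (s / δ) - 9 / 10) := by linarith
    nlinarith
  · have h4 : √(124 / 10 : ℝ) ≤ 353 / 100 := by
      rw [Real.sqrt_le_left (by norm_num)]
      norm_num
    have h5 : Real.exp (-(64 / 100 * (124 / 10))) ≤ 1 / 2048 := by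
      have h6 : Real.exp (-(64 / 100 * (124 / 10))) ≤ Real.exp (-(11 * (7 / 10))) :=
        Real.exp_le_exp.mpr (by norm_num)
      have h7 : Real.exp (-(11 * (7 / 10))) = (Real.exp (-(7 / 10))) ^ 11 := by
        rw [← Real.exp_nat_mul]; norm_num
      have h8 : Real.exp (-(7 / 10)) ≤ 1 / 2 := by
        rw [Real.exp_neg, inv_le_comm₀ (Real.exp_pos _) (by norm_num)]
        have := Real.sum_le_exp_of_nonneg (x := 7 / 10) (by norm_num) 5
        simp only [Finset.sum_range_succ, Finset.sum_range_zero, Nat.factorial] at this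
        norm_num at this
        norm_num
        linarith
      rw [h7] at h6
      refine h6.trans ((pow_le_pow_left₀ (Real.exp_pos _).le h8 11).trans ?_)
      norm_num
    have h9 := mul_le_mul h4 h5 (Real.exp_pos _).le (by norm_num)
    nlinarith

theorem expN (n : ℕ) : Real.exp (-(n * (7 / 10))) ≤ (1 / 2) ^ n := by
  have h7 : Real.exp (-(n * (7 / 10))) = (Real.exp (-(7 / 10))) ^ n := by
    rw [← Real.exp_nat_mul]; congr 1; ring
  have h8 : Real.exp (-(7 / 10)) ≤ 1 / 2 := by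
    rw [Real.exp_neg, inv_le_comm₀ (Real.exp_pos _) (by norm_num)]
    have := Real.sum_le_exp_of_nonneg (x := 7 / 10) (by norm_num) 5
    simp only [Finset.sum_range_succ, Finset.sum_range_zero, Nat.factorial] at this
    norm_num at this
    norm_num
    linarith
  rw [h7]
  exact pow_le_pow_left₀ (Real.exp_pos _).le h8 n

/-- the height on the lower step -/
theorem ht_L_step {a s x : ℝ} (hs : 0 ≤ s) (ha : 0 ≤ a) (hx : x ≤ 0) (hx1 : -1 ≤ x) :
    -2 * x + 138 / 100 * s * (1 + x) ≤ Ht (-a) s x (-2) := by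
  have h1 := cos_two_le
  have h2 : Real.sin 2 ≤ 1 := Real.sin_le_one 2
  have h2' : 0 ≤ Real.sin 2 := Real.sin_nonneg_of_nonneg_of_le_pi (by norm_num) Real.two_le_pi
  have h3 : Real.exp x ≤ 1 := Real.exp_le_one_iff.mpr hx
  have h4 := Real.add_one_le_exp x
  have h5 : Real.exp x * Real.sin 2 ≤ 1 := mul_le_one₀ h3 h2' h2
  unfold Ht
  rw [Real.sin_neg, Real.cos_neg]
  have h6 : 38 / 100 * (1 + x) ≤ -(Real.exp x * Real.cos 2) := by
    have h7 : 38 / 100 * Real.exp x ≤ -(Real.exp x * Real.cos 2) := by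
      nlinarith [Real.exp_pos x]
    linarith
  have h8 := mul_le_mul_of_nonneg_left h6 hs
  have h9 := mul_nonneg ha (by linarith : 0 ≤ 2 - Real.exp x * Real.sin 2)
  nlinarith

/-- `Ht (-a) s (-x) (-2) ≥ 2 x + s (1 - x + .38 e^{-x}) ≥ 2 x + 1.38 s (1 - x)`; with `z = s/δ ≥ 12.4` and
`2/δ ≥ 7.67` it is at least `11.2 δ`. -/
theorem stepL_A {δ a s b : ℝ} (hδ : 0 < δ) (hδ2 : δ ≤ 261 / 1000) (hs : 2 ≤ s) (hz : 124 / 10 * δ ≤ s) (ha : 0 ≤ a)
    (hb : 0 ≤ b) (hb2 : b ≤ 5 / 8) {j : ℕ} (hj : j ≤ 2) :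
    ‖∫ x in (-b)..0, Wt δ (-a + s * I) j x (-2)‖ ≤ 1 / 1000 * √(δ / s) := by
  rw [negL]
  have hs0 : 0 < s := by linarith
  have hz' : 124 / 10 ≤ s / δ := (le_div_iff₀ hδ).mpr hz
  have h1 := step_le (δ := δ) (a := -a) (s := s) (y := -2) (M := 478 / 100 + 5175 / 10000 * (s / δ)) (B := 44 / 10)
    (p := -b) (q := 0) (by linarith) (fun x hx => by
      have hx1 : -(5 / 8) ≤ x := by linarith [hx.1]
      have hx0 : x ≤ 0 := hx.2
      have h2 := ht_L_step (a := a) (s := s) (x := x) hs0.le ha hx0 (by linarith)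
      rw [le_div_iff₀ hδ]
      have e : (478 / 100 + 5175 / 10000 * (s / δ)) * δ = 478 / 100 * δ + 5175 / 10000 * s := by
        field_simp
      rw [e]
      refine le_trans ?_ h2
      nlinarith) (fun x hx => by
      have hx1 : -(5 / 8) ≤ x := by linarith [hx.1]
      have hx0 : x ≤ 0 := hx.2
      nlinarith) (by norm_num) hj
  refine small_of (K := 44 / 10 * (5 / 8) * Real.exp (-(478 / 100))) (c := 5175 / 10000) (z0 := 124 / 10) hδ hs0
    (by norm_num) hz (by norm_num) (by positivity) ?_ ?_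
  · refine h1.trans ?_
    have e : Real.exp (-(478 / 100 + 5175 / 10000 * (s / δ))) =
        Real.exp (-(478 / 100)) * Real.exp (-(5175 / 10000 * (s / δ))) := by
      rw [← Real.exp_add]; congr 1; ring
    rw [e]
    have h3 : 0 - -b ≤ 5 / 8 := by linarith
    have h4 : 0 < Real.exp (-(478 / 100)) * Real.exp (-(5175 / 10000 * (s / δ))) := by positivity
    nlinarith
  · have h4 : √(124 / 10 : ℝ) ≤ 353 / 100 := by
      rw [Real.sqrt_le_left (by norm_num)]
      norm_num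
    have h5 : Real.exp (-(478 / 100)) * Real.exp (-(5175 / 10000 * (124 / 10))) ≤ (1 / 2) ^ 15 := by
      rw [← Real.exp_add]
      refine le_trans (Real.exp_le_exp.mpr ?_) (expN 15)
      norm_num
    have h9 := mul_le_mul h4 h5 (by positivity) (by norm_num)
    have e : 44 / 10 * (5 / 8) * Real.exp (-(478 / 100)) *
        (√(124 / 10 : ℝ) * Real.exp (-(5175 / 10000 * (124 / 10)))) =
        44 / 10 * (5 / 8) * (√(124 / 10 : ℝ) * (Real.exp (-(478 / 100)) * Real.exp (-(5175 / 10000 * (124 / 10))))) := by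
      ring
    rw [e]
    norm_num at h9 ⊢
    linarith

/-- `1.38 (1 - 5/13) = .849`, `z ≥ 25`. -/
theorem stepL_C {δ a s b : ℝ} (hδ : 0 < δ) (hs : 2 ≤ s) (hz : 25 * δ ≤ s) (ha : 0 ≤ a)
    (hb : 0 ≤ b) (hb2 : b ≤ 5 / 13) {j : ℕ} (hj : j ≤ 2) :
    ‖∫ x in (-b)..0, Wt δ (-a + s * I) j x (-2)‖ ≤ 1 / 1000 * √(δ / s) := by
  rw [negL]
  have hs0 : 0 < s := by linarith
  have h1 := step_le (δ := δ) (a := -a) (s := s) (y := -2) (M := 84 / 100 * (s / δ)) (B := 44 / 10)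
    (p := -b) (q := 0) (by linarith) (fun x hx => by
      have hx1 : -(5 / 13) ≤ x := by linarith [hx.1]
      have hx0 : x ≤ 0 := hx.2
      have h2 := ht_L_step (a := a) (s := s) (x := x) hs0.le ha hx0 (by linarith)
      rw [le_div_iff₀ hδ]
      have e : (84 / 100 * (s / δ)) * δ = 84 / 100 * s := by
        field_simp
      rw [e]
      refine le_trans ?_ h2
      nlinarith) (fun x hx => by
      have hx1 : -(5 / 13) ≤ x := by linarith [hx.1]
      have hx0 : x ≤ 0 := hx.2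
      nlinarith) (by norm_num) hj
  refine small_of (K := 2) (c := 84 / 100) (z0 := 25) hδ hs0
    (by norm_num) hz (by norm_num) (by positivity) ?_ ?_
  · refine h1.trans ?_
    have h3 : 0 - -b ≤ 5 / 13 := by linarith
    have h4 : 0 < Real.exp (-(84 / 100 * (s / δ))) := by positivity
    nlinarith
  · have h4 : √(25 : ℝ) ≤ 5 := by
      rw [Real.sqrt_le_left (by norm_num)]
      norm_num
    have h5 : Real.exp (-(84 / 100 * 25)) ≤ (1 / 2) ^ 30 := by
      refine le_trans (Real.exp_le_exp.mpr ?_) (expN 30)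
      norm_num
    have h9 := mul_le_mul h4 h5 (by positivity) (by norm_num)
    norm_num at h9 ⊢
    linarith

end SokalN1
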