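import Pool.Agent.Lib_MP_af4de1_f1.N1HL

/-!
# N = 1, large `rho`: heights on the path R (`a ≥ 0`)
-/

set_option autoImplicit false

namespace SokalN1

open Complex Set MeasureTheory

theorem ht_R_neg {a s t y : ℝ} (hs : 0 < s) (ha : 0 ≤ a) (hat : a ≤ t * s) (hy : 0 ≤ y) (hy2 : y ≤ 2) :
    (347 / 1000 - t / 3) * s * y ^ 2 ≤ Ht a s 0 (-y) := by
  have h1 := one_sub_cos_two (y := y) (abs_le.mpr ⟨by linarith, hy2⟩)
  have h2 := sub_sin_le hy
  unfold Ht
  rw [Real.exp_zero, Real.sin_neg, Real.cos_neg]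
  have h3 := mul_le_mul_of_nonneg_left h1 hs.le
  have h5 : y ^ 3 / 6 ≤ 1 / 3 * y ^ 2 := by
    nlinarith [mul_le_mul_of_nonneg_left hy2 (sq_nonneg y)]
  have h6 : a * (y - Real.sin y) ≤ a * (1 / 3 * y ^ 2) := mul_le_mul_of_nonneg_left (h2.trans h5) ha
  have h7 : a * (1 / 3 * y ^ 2) ≤ t * s * (1 / 3 * y ^ 2) := mul_le_mul_of_nonneg_right hat (by positivity)
  nlinarith

theorem ht_R_pos {a s y : ℝ} (hs : 0 < s) (ha : 0 ≤ a) (hy : 0 ≤ y) (hy2 : y ≤ 2) :
    347 / 1000 * s * y ^ 2 ≤ Ht a s 0 y := by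
  have h1 := one_sub_cos_two (y := y) (abs_le.mpr ⟨by linarith, hy2⟩)
  have h2 : Real.sin y ≤ y := Real.sin_le hy
  unfold Ht
  rw [Real.exp_zero]
  have h3 := mul_le_mul_of_nonneg_left h1 hs.le
  have h4 := mul_nonneg ha (sub_nonneg.mpr h2)
  nlinarith

/-- `Ht a s u (-2) ≥ 1.28 s + 1.13 s u` (`e^u ≥ 1 + u`). -/
theorem ht_R_hor {a s u : ℝ} (hs : 8 ≤ s) (ha : 0 ≤ a) (hat : a ≤ 461 / 10000 * s) (hu : 0 ≤ u) :
    128 / 100 * s + 113 / 100 * s * u ≤ Ht a s u (-2) := by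
  have h1 := cos_two_le
  have h2' : 0 ≤ Real.sin 2 := Real.sin_nonneg_of_nonneg_of_le_pi (by norm_num) Real.two_le_pi
  have h4 := Real.add_one_le_exp u
  unfold Ht
  rw [Real.sin_neg, Real.cos_neg]
  have h6 : 38 / 100 * (1 + u) ≤ -(Real.exp u * Real.cos 2) := by
    have h7 : 38 / 100 * Real.exp u ≤ -(Real.exp u * Real.cos 2) := by
      nlinarith [Real.exp_pos u]
    linarith
  have hs0 : (0 : ℝ) ≤ s := by linarith
  have h8 := mul_le_mul_of_nonneg_left h6 hs0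
  have h9 := mul_nonneg ha (mul_nonneg (Real.exp_pos u).le h2')
  have h10 := mul_le_mul_of_nonneg_right hs hu
  nlinarith

theorem horizR_int {δ a s : ℝ} (hδ : 0 < δ) (hs : 8 ≤ s) (ha : 0 ≤ a) (hat : a ≤ 461 / 10000 * s) (j : ℕ) :
    IntegrableOn (fun u => Wt δ (a + s * I) j u (-2)) (Ioi 0) :=
  wt_int hδ (by linarith : 0 < 113 / 100 * s) (fun u hu => ht_R_hor hs ha hat hu) j

theorem horizR {δ a s : ℝ} (hδ : 0 < δ) (hs : 8 ≤ s) (hz : 499 / 10 * δ ≤ s) (ha : 0 ≤ a)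
    (hat : a ≤ 461 / 10000 * s) {j : ℕ} (hj : j ≤ 2) :
    ‖∫ u in Ioi (0 : ℝ), Wt δ (a + s * I) j u (-2)‖ ≤ 1 / 1000 * √(δ / s) := by
  have hs0 : 0 < s := by linarith
  have hz' : 499 / 10 ≤ s / δ := (le_div_iff₀ hδ).mpr hz
  have h1 := hor_le (a := a) (s := s) (y := -2) (c0 := 128 / 100) (c1 := 113 / 100) hδ hs0
    (fun u hu => ht_R_hor hs ha hat hu) (by norm_num) hj (by linarith)
  refine small_of (K := 1) (c := 128 / 100) (z0 := 499 / 10) hδ hs0 (by norm_num) hz (by norm_num)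
    (by norm_num) ?_ ?_
  · refine h1.trans ?_
    rw [div_le_iff₀ (by linarith)]
    have h2 : 0 < Real.exp (-(128 / 100 * (s / δ))) := Real.exp_pos _
    have h3 : (-2 : ℝ) ^ 2 ≤ 1 * (113 / 100 * (s / δ) - 9 / 10) := by linarith
    nlinarith
  · have h4 : √(499 / 10 : ℝ) ≤ 8 := by
      rw [Real.sqrt_le_left (by norm_num)]
      norm_num
    have h5 : Real.exp (-(128 / 100 * (499 / 10))) ≤ (1 / 2) ^ 60 := by
      refine le_trans (Real.exp_le_exp.mpr ?_) (expN 60)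
      norm_num
    have h9 := mul_le_mul h4 h5 (by positivity) (by norm_num)
    norm_num at h9 ⊢
    linarith

/-- `Ht a s x 2 ≥ 1.38 s` for `0 ≤ x ≤ 5/8` (`e^x sin 2 ≤ 2`). -/
theorem stepR {δ a s b : ℝ} (hδ : 0 < δ) (hs : 8 ≤ s) (hz : 499 / 10 * δ ≤ s) (ha : 0 ≤ a)
    (hb : 0 ≤ b) (hb2 : b ≤ 5 / 8) {j : ℕ} (hj : j ≤ 2) :
    ‖∫ x in (0 : ℝ)..b, Wt δ (a + s * I) j x 2‖ ≤ 1 / 1000 * √(δ / s) := by
  have hs0 : 0 < s := by linarith
  have h1 := step_le (δ := δ) (a := a) (s := s) (y := 2) (M := 138 / 100 * (s / δ)) (B := 44 / 10)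
    (p := 0) (q := b) hb (fun x hx => by
      have hx1 : x ≤ 5 / 8 := by linarith [hx.2]
      have hx0 : 0 ≤ x := hx.1
      have h2 : 138 / 100 * s ≤ Ht a s x 2 := by
        have c1 := cos_two_le
        have c2 : Real.sin 2 ≤ 1 := Real.sin_le_one 2
        have c2' : 0 ≤ Real.sin 2 := Real.sin_nonneg_of_nonneg_of_le_pi (by norm_num) Real.two_le_pi
        have c3 : Real.exp x ≤ 187 / 100 := (Real.exp_le_exp.mpr hx1).trans exp_58
        have c4 : 1 ≤ Real.exp x := Real.one_le_exp hx0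
        have c5 : Real.exp x * Real.sin 2 ≤ 187 / 100 * 1 := mul_le_mul c3 c2 c2' (by norm_num)
        unfold Ht
        have c6 : 38 / 100 ≤ -(Real.exp x * Real.cos 2) := by nlinarith
        have c8 := mul_le_mul_of_nonneg_left c6 hs0.le
        have c9 := mul_nonneg ha (by linarith : 0 ≤ 2 - Real.exp x * Real.sin 2)
        nlinarith
      rw [le_div_iff₀ hδ]
      have e : (138 / 100 * (s / δ)) * δ = 138 / 100 * s := by
        field_simp
      rw [e]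
      exact h2) (fun x hx => by
      have hx1 : x ≤ 5 / 8 := by linarith [hx.2]
      have hx0 : 0 ≤ x := hx.1
      nlinarith) (by norm_num) hj
  refine small_of (K := 3) (c := 138 / 100) (z0 := 499 / 10) hδ hs0
    (by norm_num) hz (by norm_num) (by positivity) ?_ ?_
  · refine h1.trans ?_
    have h3 : b - 0 ≤ 5 / 8 := by linarith
    have h4 : 0 < Real.exp (-(138 / 100 * (s / δ))) := by positivity
    nlinarith
  · have h4 : √(499 / 10 : ℝ) ≤ 8 := by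
      rw [Real.sqrt_le_left (by norm_num)]
      norm_num
    have h5 : Real.exp (-(138 / 100 * (499 / 10))) ≤ (1 / 2) ^ 60 := by
      refine le_trans (Real.exp_le_exp.mpr ?_) (expN 60)
      norm_num
    have h9 := mul_le_mul h4 h5 (by positivity) (by norm_num)
    norm_num at h9 ⊢
    linarith

end SokalN1
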