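import Pool.Agent.Lib_MP_af4de1_f1.GTay

/-!
# F1, N = 1: scalar bounds for `sin`, `cos`, `exp` used for the heights  [F1N1-Ht]
-/

set_option autoImplicit false

namespace SokalF1

open SokalF1G

theorem hts_cos_le8 {x : ℝ} (hx : 0 ≤ x) :
    Real.cos x ≤ 1 - x ^ 2 / 2 + x ^ 4 / 24 - x ^ 6 / 720 + x ^ 8 / 40320 := by
  have h := nonneg_of_deriv
    (f := fun x => 1 - x ^ 2 / 2 + x ^ 4 / 24 - x ^ 6 / 720 + x ^ 8 / 40320 - Real.cos x)
    (f' := fun x => Real.sin x - (x - x ^ 3 / 6 + x ^ 5 / 120 - x ^ 7 / 5040)) (fun y => by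
      have h1 := (((((hasDerivAt_const y (1 : ℝ)).sub ((hasDerivAt_pow 2 y).div_const 2)).add
        ((hasDerivAt_pow 4 y).div_const 24)).sub ((hasDerivAt_pow 6 y).div_const 720)).add
        ((hasDerivAt_pow 8 y).div_const 40320)).sub (Real.hasDerivAt_cos y)
      refine h1.congr_deriv ?_
      push_cast
      ring) (by simp) (fun y hy => sub_nonneg.2 (sin_ge7 hy)) hx
  simpa using h

/-- `1 - cos y ≥ .39 y²` on `[0, 1.7]` -/
theorem hts_one_sub_cos {y : ℝ} (h0 : 0 ≤ y) (h1 : y ≤ 17 / 10) :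
    39 / 100 * y ^ 2 ≤ 1 - Real.cos y := by
  have h := hts_cos_le8 h0
  have hw0 : 0 ≤ y ^ 2 := sq_nonneg y
  have hw : y ^ 2 ≤ 289 / 100 := by nlinarith
  obtain ⟨w, hw1⟩ : ∃ w, w = y ^ 2 := ⟨_, rfl⟩
  have e4 : y ^ 4 = w ^ 2 := by rw [hw1]; ring
  have e6 : y ^ 6 = w ^ 3 := by rw [hw1]; ring
  have e8 : y ^ 8 = w ^ 4 := by rw [hw1]; ring
  rw [e4, e6, e8, ← hw1] at h
  rw [← hw1] at hw0 hw ⊢
  have key : 0 ≤ 11 / 100 - w / 24 + w ^ 2 / 720 - w ^ 3 / 40320 := by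
    have hu : 0 ≤ 289 / 100 - w := sub_nonneg.2 hw
    have h3 : w ^ 3 ≤ 289 / 100 * w ^ 2 := by nlinarith [mul_nonneg (sq_nonneg w) hu]
    nlinarith [mul_nonneg hu hu]
  have := mul_nonneg hw0 key
  nlinarith

/-- `y - sin y ≤ .63 (1 - cos y)` on `[0, 1.7]` -/
theorem hts_y_sub_sin {y : ℝ} (h0 : 0 ≤ y) (h1 : y ≤ 17 / 10) :
    y - Real.sin y ≤ 63 / 100 * (1 - Real.cos y) := by
  have h := hts_cos_le8 h0
  have h' := sin_ge7 h0
  have key : 0 ≤ 63 / 200 - y / 6 - 21 / 800 * y ^ 2 + y ^ 3 / 120 + 7 / 8000 * y ^ 4 -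
      y ^ 5 / 5040 - y ^ 6 / 64000 := by
    obtain ⟨u, hu⟩ : ∃ u, u = 17 / 10 - y := ⟨_, rfl⟩
    have hy : y = 17 / 10 - u := by rw [hu]; ring
    have hu0 : 0 ≤ u := by rw [hu]; linarith
    have h4 : 0 ≤ y ^ 4 := by positivity
    have h5 : y ^ 5 ≤ 17 / 10 * y ^ 4 := by nlinarith
    have h6 : y ^ 6 ≤ 289 / 100 * y ^ 4 := by nlinarith
    have h7 : 0 ≤ 63 / 200 - y / 6 - 21 / 800 * y ^ 2 + y ^ 3 / 120 + 492 / 1000000 * y ^ 4 := by
      have h8 : 0 ≤ y ^ 3 := by positivity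
      rw [hy] at h4 h8 ⊢
      have hu1 : u ≤ 17 / 10 := by linarith
      nlinarith [mul_nonneg hu0 hu0, mul_nonneg (mul_nonneg hu0 hu0) hu0,
        mul_nonneg hu0 (sub_nonneg.mpr hu1), mul_nonneg (mul_nonneg hu0 hu0) (sub_nonneg.mpr hu1),
        mul_nonneg (mul_nonneg hu0 hu0) (mul_nonneg hu0 hu0)]
    nlinarith
  have h9 := mul_nonneg (sq_nonneg y) key
  nlinarith

theorem hts_cos17 : Real.cos (17 / 10) ≤ -(128 / 1000) := by
  have h := hts_cos_le8 (x := 17 / 10) (by norm_num)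
  norm_num at h ⊢
  linarith

theorem hts_sin17 : 991 / 1000 ≤ Real.sin (17 / 10) := by
  have h := sin_ge7 (x := 17 / 10) (by norm_num)
  norm_num at h ⊢
  linarith

theorem hts_sin17' : Real.sin (17 / 10) ≤ 992 / 1000 := by
  have h1 := Real.sin_sq_add_cos_sq (17 / 10)
  have h2 := hts_cos17
  by_contra h
  push Not at h
  nlinarith

theorem hts_exp_half : Real.exp (1 / 2) ≤ 16488 / 10000 := by
  have h := e_le3 (x := 1 / 2) (by norm_num) (by norm_num)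
  have h2 := Real.exp_bound' (x := 1 / 2) (by norm_num) (by norm_num) (n := 7) (by norm_num)
  norm_num [Finset.sum_range_succ, Nat.factorial] at h2
  norm_num
  linarith

/-- `e^x - 1 - x ≤ .6 x²` on `[0, 1/2]` -/
theorem hts_exp_two {x : ℝ} (h0 : 0 ≤ x) (h1 : x ≤ 1 / 2) :
    Real.exp x - 1 - x ≤ 3 / 5 * x ^ 2 := by
  have h := e_le3 h0 (by linarith)
  have h2 : 0 ≤ x ^ 2 := sq_nonneg x
  have h3 : x ^ 3 ≤ 1 / 2 * x ^ 2 := by nlinarith
  have h4 : x ^ 4 ≤ 1 / 4 * x ^ 2 := by nlinarith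
  linarith

end SokalF1
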