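import Pool.Agent.Lib_MP_af4de1_f1.N1Path
import Pool.Agent.Lib_MP_af4de1_fu.MElem
import Pool.Agent.Lib_MP_af4de1_f1.N1HtS

/-!
# F1, N = 1: heights along the two paths  [F1N1-Ht]

`ff h v = Im (v²/2 - h (e^v - 1 - v))`, `|exp (Ev δ h v)| = exp (-ff h v/δ)` (`norm_EE`, `EE = Ev` by `rfl`).  `ff_eq` (MElem):
`ff (a + s I) (x + y I) = x y - a (e^x sin y - y) - s (e^x cos y - 1 - x)`.
Scalar facts: on `[0, 1.7]`: `1 - cos y ≥ .39 y²` (`.3906` at 1.7), `y - sin y ≤ .63 (1 - cos y)` (`.6275` at 1.7);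
`cos 1.7 = -.12884`, `sin 1.7 = .99166`; `e^x - 1 - x ≤ (x²/2)/(1 - x/3)`, `e^(1/2) ≤ 1.6488`; for `1.7 ≤ y`: `e^x sin y ≤ y` (`x ≤ 1/2`).

R (`h = a + s I`, `ε = 1`).
hin: `ff(-yI) = s (1 - cos y) - a (y - sin y)`.  hout: `ff(yI) = s(1 - cos y) + a (y - sin y)`.
hinh: `v = x - 1.7 i`: `-1.7 x + a (.99166 e^x - 1.7) + s (.12884 e^x + 1 + x)`, `e^x ≥ 1 + x`.
houth: `v = x + 1.7 i`: `1.7 x + a (1.7 - .99166 e^x) + s(.12884 e^x + 1 + x)`, `e^x ≤ 1.65`.
hv: `v = x + i y`, `x = 4/ρ ≤ 1/2`: `4y/ρ + a (y - e^x sin y) + s e^x (1 - cos y) - s (e^x - 1 - x)`, `e^x - 1 - x ≤ 9.6/ρ²`;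
 to show `a (y - e^x sin y) + s (e^x - .9)(1 - cos y) ≥ (9.6/ρ²)(s - ρ)`: for `y ≥ π` `y - e^x sin y ≥ π` (`sin ≤ 0` on `[π, 2π]`) and
 `s - ρ ≤ a s`, `s ≤ 2ρ` give it (`9.6 * 2/8 ≤ π`); for `1.7 ≤ y ≤ π` the first term is `≥ 0`, `1 - cos y ≥ 1.128`,
 `s (.1 + 4/ρ) 1.128 ≥ 4.8 s/ρ²`.
L (`h = -b + s I`, `ε = -1`).
hin: `v = y I`: `s (1 - cos y) - b (y - sin y)`.  hout: `v = -y I`: `s (1 - cos y) + b (y - sin y)`.
hinh: `v = x + 1.7 i`: `1.7 x + b (.99166 e^x - 1.7) + s(.12884 e^x + 1 + x)`.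
houth: `v = -x - 1.7 i`: `1.7 x + b(1.7 - .99166 e^(-x)) + s (.12884 e^(-x) + 1 - x) ≥ 1.12884 (1 - x) s ≥ .55 s`.
hv: `v = -x - i y`: `4y/ρ + b (y - e^(-x) sin y) + s e^(-x) (1 - cos y) - s (e^(-x) - 1 + x)`, `e^(-x) - 1 + x ≤ x²/2 = 8/ρ²`, `s ≤ ρ`,
 `e^(-1/2) ≥ .6`.
-/

set_option autoImplicit false

namespace SokalF1

open Complex SokalFU

/-- the heights along the path with `x1 = 4/ρ` -/
structure Hts (ρ s A C κ : ℝ) (h : ℂ) (ε : ℝ) : Prop where
  hin : ∀ y : ℝ, 0 ≤ y → y ≤ 17 / 10 →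
    39 / 100 * (s - 63 / 100 * A) * y ^ 2 ≤ ff h (((-(ε * y) : ℝ) : ℂ) * I)
  hout : ∀ y : ℝ, 0 ≤ y → y ≤ 17 / 10 → 39 / 100 * s * y ^ 2 ≤ ff h (((ε * y : ℝ) : ℂ) * I)
  hinh : ∀ x : ℝ, 0 ≤ x → (1128 / 1000 * s - 709 / 1000 * A) + (1128 / 1000 * s - 17 / 10) * x ≤
    ff h (x - ε * (17 / 10) * I)
  houth : ∀ x : ℝ, 0 ≤ x → x ≤ 4 / ρ → 11 / 20 * s ≤ ff h (ε * (x + 17 / 10 * I))
  hv : ∀ y : ℝ, 17 / 10 ≤ y → (4 * y - C) / ρ + κ * s * (1 - Real.cos y) ≤
    ff h (ε * ((4 / ρ : ℝ) + y * I))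

theorem hts_R {ρ a s : ℝ} (hρ : 8 ≤ ρ) (ha : 0 ≤ a) (ha1 : a ≤ 3 / 5) (hs : ρ ≤ s) (hs2 : s ≤ 2 * ρ)
    (has : s - ρ ≤ a * s) : Hts ρ s a (48 / 5) (9 / 10) (a + s * I) 1 := by
  have hρ0 : 0 < ρ := by linarith
  have hs0 : 0 < s := by linarith
  have hc := hts_cos17
  have hs1 := hts_sin17
  have hs1' := hts_sin17'
  refine ⟨?_, ?_, ?_, ?_, ?_⟩
  · intro y h0 h1
    have e : (((-((1 : ℝ) * y) : ℝ) : ℂ) * I) = ((0 : ℝ) : ℂ) + ((-y : ℝ) : ℂ) * I := by
      push_cast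
      ring
    rw [e, ff_eq, Real.exp_zero, Real.sin_neg, Real.cos_neg]
    have h2 := hts_one_sub_cos h0 h1
    have h3 := hts_y_sub_sin h0 h1
    have h4 : 0 ≤ s - 63 / 100 * a := by linarith
    nlinarith [mul_le_mul_of_nonneg_left h2 h4, mul_le_mul_of_nonneg_left h3 ha]
  · intro y h0 h1
    have e : ((((1 : ℝ) * y : ℝ) : ℂ) * I) = ((0 : ℝ) : ℂ) + (y : ℂ) * I := by
      push_cast
      ring
    rw [e, ff_eq, Real.exp_zero]
    have h2 := hts_one_sub_cos h0 h1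
    have h3 := mul_nonneg ha (sub_nonneg.2 (Real.sin_le h0))
    nlinarith [mul_le_mul_of_nonneg_left h2 hs0.le]
  · intro x h0
    have e : ((x : ℂ) - ((1 : ℝ) : ℂ) * (17 / 10) * I) = (x : ℂ) + ((-(17 / 10) : ℝ) : ℂ) * I := by
      push_cast
      ring
    rw [e, ff_eq, Real.sin_neg, Real.cos_neg]
    have h2 := Real.add_one_le_exp x
    have h3 : 1 ≤ Real.exp x := by linarith
    have h4 : 991 / 1000 ≤ Real.exp x * Real.sin (17 / 10) := by nlinarith
    have h5 : Real.exp x * Real.cos (17 / 10) ≤ -(128 / 1000) * (x + 1) := by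
      have h6 : Real.exp x * Real.cos (17 / 10) ≤ Real.exp x * -(128 / 1000) :=
        mul_le_mul_of_nonneg_left hc (by linarith)
      linarith
    nlinarith [mul_le_mul_of_nonneg_left h4 ha, mul_le_mul_of_nonneg_left h5 hs0.le]
  · intro x h0 h1
    have hx : x ≤ 1 / 2 := h1.trans (by
      rw [div_le_iff₀ hρ0]
      linarith)
    have e : (((1 : ℝ) : ℂ) * ((x : ℂ) + 17 / 10 * I)) = (x : ℂ) + ((17 / 10 : ℝ) : ℂ) * I := by
      push_cast
      ring
    rw [e, ff_eq]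
    have h2 := Real.exp_pos x
    have h3 : Real.exp x ≤ 16488 / 10000 := (Real.exp_le_exp.2 hx).trans hts_exp_half
    have h4 : Real.exp x * Real.sin (17 / 10) ≤ 17 / 10 := by
      have h6 : Real.exp x * Real.sin (17 / 10) ≤ Real.exp x * (992 / 1000) :=
        mul_le_mul_of_nonneg_left hs1' h2.le
      linarith
    have h5 : Real.exp x * Real.cos (17 / 10) ≤ 0 := by
      have h6 : Real.exp x * Real.cos (17 / 10) ≤ Real.exp x * -(128 / 1000) :=
        mul_le_mul_of_nonneg_left hc h2.le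
      linarith
    nlinarith [mul_le_mul_of_nonneg_left h4 ha, mul_le_mul_of_nonneg_left h5 hs0.le,
      mul_nonneg hs0.le h0]
  · intro y hy
    have hx0 : 0 < 4 / ρ := by positivity
    have hx : 4 / ρ ≤ 1 / 2 := by
      rw [div_le_iff₀ hρ0]
      linarith
    have e : (((1 : ℝ) : ℂ) * (((4 / ρ : ℝ) : ℂ) + (y : ℂ) * I)) =
        ((4 / ρ : ℝ) : ℂ) + (y : ℂ) * I := by
      push_cast
      ring
    rw [e, ff_eq]
    have h2 := hts_exp_two hx0.le hx
    have h3 : Real.exp (4 / ρ) ≤ 16488 / 10000 := (Real.exp_le_exp.2 hx).trans hts_exp_half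
    have h4 := Real.add_one_le_exp (4 / ρ)
    have h5 := Real.cos_le_one y
    have h6 := Real.pi_gt_three
    have hx2 : 3 / 5 * (4 / ρ) ^ 2 = 48 / 5 / ρ / ρ := by
      field_simp
      norm_num
    rw [hx2] at h2
    have h48 : 0 < 48 / 5 / ρ := by positivity
    -- the inequality to show
    have key : 48 / 5 / ρ / ρ * (s - ρ) ≤ a * (y - Real.exp (4 / ρ) * Real.sin y) +
        s * ((Real.exp (4 / ρ) - 9 / 10) * (1 - Real.cos y)) := by
      have hcs : 0 ≤ s * ((Real.exp (4 / ρ) - 9 / 10) * (1 - Real.cos y)) :=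
        mul_nonneg hs0.le (mul_nonneg (by linarith) (by linarith))
      rcases le_total Real.pi y with hp | hp
      · have h7 : 3 ≤ y - Real.exp (4 / ρ) * Real.sin y := by
          rcases le_total y (2 * Real.pi) with hp2 | hp2
          · have h8 : Real.sin y ≤ 0 := by
              have h9 := Real.sin_nonneg_of_nonneg_of_le_pi (x := y - Real.pi) (by linarith)
                (by linarith)
              rw [Real.sin_sub_pi] at h9
              linarith
            have h10 : Real.exp (4 / ρ) * Real.sin y ≤ 0 :=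
              mul_nonpos_of_nonneg_of_nonpos (Real.exp_pos _).le h8
            linarith
          · have h10 : Real.exp (4 / ρ) * Real.sin y ≤ Real.exp (4 / ρ) * 1 :=
              mul_le_mul_of_nonneg_left (Real.sin_le_one y) (Real.exp_pos _).le
            linarith
        have h8 : 48 / 5 / ρ / ρ * (s - ρ) ≤ a * 3 := by
          have h9 : 48 / 5 / ρ / ρ * (s - ρ) ≤ 48 / 5 / ρ / ρ * (a * (2 * ρ)) := by
            refine mul_le_mul_of_nonneg_left ?_ (by positivity)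
            exact has.trans (mul_le_mul_of_nonneg_left hs2 ha)
          have h10 : 48 / 5 / ρ / ρ * (a * (2 * ρ)) = a * (96 / 5 / ρ) := by
            field_simp
            ring
          have h11 : 96 / 5 / ρ ≤ 3 := by
            rw [div_le_iff₀ hρ0]
            linarith
          rw [h10] at h9
          exact h9.trans (mul_le_mul_of_nonneg_left h11 ha)
        have h12 := mul_le_mul_of_nonneg_left h7 ha
        linarith
      · have hp2 : Real.pi / 2 ≤ 17 / 10 := by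
          have := Real.pi_lt_d2
          linarith
        have h7 : Real.sin y ≤ Real.sin (17 / 10) := by
          rw [← Real.sin_pi_sub y, ← Real.sin_pi_sub (17 / 10)]
          exact Real.sin_le_sin_of_le_of_le_pi_div_two (by linarith) (by linarith) (by linarith)
        have h8 : Real.cos y ≤ Real.cos (17 / 10) :=
          Real.cos_le_cos_of_nonneg_of_le_pi (by norm_num) hp hy
        have h9 : Real.exp (4 / ρ) * Real.sin y ≤ y := by
          have h10 : Real.exp (4 / ρ) * Real.sin y ≤ Real.exp (4 / ρ) * (992 / 1000) :=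
            mul_le_mul_of_nonneg_left (h7.trans hs1') (Real.exp_pos _).le
          linarith
        have h10 := mul_nonneg ha (sub_nonneg.2 h9)
        have h11 : 4 / ρ * (11 / 10) ≤ (Real.exp (4 / ρ) - 9 / 10) * (1 - Real.cos y) := by
          have h12 : 4 / ρ ≤ Real.exp (4 / ρ) - 9 / 10 := by linarith
          have h13 : 11 / 10 ≤ 1 - Real.cos y := by linarith
          exact mul_le_mul h12 h13 (by norm_num) (by linarith)
        have h12 := mul_le_mul_of_nonneg_left h11 hs0.le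
        have h13 : 48 / 5 / ρ / ρ * (s - ρ) ≤ s * (4 / ρ * (11 / 10)) := by
          have h14 : 48 / 5 / ρ / ρ * (s - ρ) ≤ 48 / 5 / ρ / ρ * s :=
            mul_le_mul_of_nonneg_left (by linarith) (by positivity)
          have h15 : 48 / 5 / ρ / ρ * s ≤ 48 / 5 / ρ / 8 * s := by
            refine mul_le_mul_of_nonneg_right ?_ hs0.le
            exact div_le_div_of_nonneg_left h48.le (by norm_num) hρ
          have h16 : 48 / 5 / ρ / 8 * s = s * (4 / ρ * (3 / 10)) := by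
            field_simp
            ring
          have h17 : s * (4 / ρ * (3 / 10)) ≤ s * (4 / ρ * (11 / 10)) :=
            mul_le_mul_of_nonneg_left (mul_le_mul_of_nonneg_left (by norm_num) hx0.le) hs0.le
          linarith
        linarith
    have h18 := mul_le_mul_of_nonneg_left h2 hs0.le
    have h19 : 48 / 5 / ρ / ρ * (s - ρ) = s * (48 / 5 / ρ / ρ) - 48 / 5 / ρ := by
      field_simp
    have h20 : (4 * y - 48 / 5) / ρ = 4 / ρ * y - 48 / 5 / ρ := by
      field_simp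
    rw [h20]
    rw [h19] at key
    linarith

private theorem htsL_exp_neg {x : ℝ} (hx : 0 ≤ x) : Real.exp (-x) - 1 + x ≤ x ^ 2 / 2 := by
  have h := SokalF1G.nonneg_of_deriv
    (f := fun x => 1 - x + x ^ 2 / 2 - Real.exp (-x))
    (f' := fun x => -1 + x + Real.exp (-x)) (fun y => by
      have h1 := (((hasDerivAt_const y (1 : ℝ)).sub (hasDerivAt_id y)).add
        ((hasDerivAt_pow 2 y).div_const 2)).sub (hasDerivAt_neg y).exp
      refine h1.congr_deriv ?_
      push_cast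
      ring) (by simp) (fun y _ => by
      have := Real.add_one_le_exp (-y)
      linarith) hx
  have h2 : 0 ≤ 1 - x + x ^ 2 / 2 - Real.exp (-x) := h
  linarith

theorem hts_L {ρ b s : ℝ} (hρ : 8 ≤ ρ) (hb : 0 ≤ b) (hb1 : b ≤ 6 / 5) (hs : 2 ≤ s) (hs2 : s ≤ ρ) :
    Hts ρ s b 8 (3 / 5) (((-b : ℝ) : ℂ) + s * I) (-1) := by
  have hρ0 : 0 < ρ := by linarith
  have hs0 : 0 < s := by linarith
  have hc := hts_cos17
  have hs1 := hts_sin17
  have hs1' := hts_sin17'
  refine ⟨?_, ?_, ?_, ?_, ?_⟩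
  · intro y h0 h1
    have e : (((-((-1 : ℝ) * y) : ℝ) : ℂ) * I) = ((0 : ℝ) : ℂ) + ((y : ℝ) : ℂ) * I := by
      push_cast
      ring
    rw [e, ff_eq, Real.exp_zero]
    have h2 := hts_one_sub_cos h0 h1
    have h3 := hts_y_sub_sin h0 h1
    have h4 : 0 ≤ s - 63 / 100 * b := by linarith
    nlinarith [mul_le_mul_of_nonneg_left h2 h4, mul_le_mul_of_nonneg_left h3 hb]
  · intro y h0 h1
    have e : ((((-1 : ℝ) * y : ℝ) : ℂ) * I) = ((0 : ℝ) : ℂ) + ((-y : ℝ) : ℂ) * I := by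
      push_cast
      ring
    rw [e, ff_eq, Real.exp_zero, Real.sin_neg, Real.cos_neg]
    have h2 := hts_one_sub_cos h0 h1
    have h3 := mul_nonneg hb (sub_nonneg.2 (Real.sin_le h0))
    nlinarith [mul_le_mul_of_nonneg_left h2 hs0.le]
  · intro x h0
    have e : ((x : ℂ) - ((-1 : ℝ) : ℂ) * (17 / 10) * I) = (x : ℂ) + ((17 / 10 : ℝ) : ℂ) * I := by
      push_cast
      ring
    rw [e, ff_eq]
    have h2 := Real.add_one_le_exp x
    have h3 : 1 ≤ Real.exp x := by linarith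
    have h4 : 991 / 1000 ≤ Real.exp x * Real.sin (17 / 10) := by nlinarith
    have h5 : Real.exp x * Real.cos (17 / 10) ≤ -(128 / 1000) * (x + 1) := by
      have h6 : Real.exp x * Real.cos (17 / 10) ≤ Real.exp x * -(128 / 1000) :=
        mul_le_mul_of_nonneg_left hc (by linarith)
      linarith
    nlinarith [mul_le_mul_of_nonneg_left h4 hb, mul_le_mul_of_nonneg_left h5 hs0.le]
  · intro x h0 h1
    have hx : x ≤ 1 / 2 := h1.trans (by
      rw [div_le_iff₀ hρ0]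
      linarith)
    have e : (((-1 : ℝ) : ℂ) * ((x : ℂ) + 17 / 10 * I)) =
        ((-x : ℝ) : ℂ) + ((-(17 / 10) : ℝ) : ℂ) * I := by
      push_cast
      ring
    rw [e, ff_eq, Real.sin_neg, Real.cos_neg]
    have h2 := Real.exp_pos (-x)
    have h3 : Real.exp (-x) ≤ 1 := Real.exp_le_one_iff.2 (by linarith)
    have h3' := Real.add_one_le_exp (-x)
    have h4 : Real.exp (-x) * Real.sin (17 / 10) ≤ 17 / 10 := by
      have h6 : Real.exp (-x) * Real.sin (17 / 10) ≤ Real.exp (-x) * (992 / 1000) :=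
        mul_le_mul_of_nonneg_left hs1' h2.le
      linarith
    have h5 : Real.exp (-x) * Real.cos (17 / 10) ≤ -(128 / 1000) * (1 - x) := by
      have h6 : Real.exp (-x) * Real.cos (17 / 10) ≤ Real.exp (-x) * -(128 / 1000) :=
        mul_le_mul_of_nonneg_left hc h2.le
      linarith
    have h7 : 0 ≤ s * (1 / 2 - x) := mul_nonneg hs0.le (by linarith)
    nlinarith [mul_le_mul_of_nonneg_left h4 hb, mul_le_mul_of_nonneg_left h5 hs0.le]
  · intro y hy
    have hx0 : 0 < 4 / ρ := by positivity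
    have hx : 4 / ρ ≤ 1 / 2 := by
      rw [div_le_iff₀ hρ0]
      linarith
    have e : (((-1 : ℝ) : ℂ) * (((4 / ρ : ℝ) : ℂ) + (y : ℂ) * I)) =
        ((-(4 / ρ) : ℝ) : ℂ) + ((-y : ℝ) : ℂ) * I := by
      push_cast
      ring
    rw [e, ff_eq, Real.sin_neg, Real.cos_neg]
    have h2 := htsL_exp_neg hx0.le
    have h3 : 3 / 5 ≤ Real.exp (-(4 / ρ)) := by
      have h4 : Real.exp (4 / ρ) ≤ 16488 / 10000 := (Real.exp_le_exp.2 hx).trans hts_exp_half
      have h5 : Real.exp (4 / ρ) * Real.exp (-(4 / ρ)) = 1 := by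
        rw [← Real.exp_add, add_neg_cancel, Real.exp_zero]
      have h6 := Real.exp_pos (-(4 / ρ))
      nlinarith
    have h3' : Real.exp (-(4 / ρ)) ≤ 1 := Real.exp_le_one_iff.2 (by linarith)
    have h5 := Real.cos_le_one y
    have hx2 : (4 / ρ) ^ 2 / 2 = 8 / ρ / ρ := by
      field_simp
      norm_num
    rw [hx2] at h2
    have h6 : s * (8 / ρ / ρ) ≤ 8 / ρ := by
      have h7 : s * (8 / ρ / ρ) ≤ ρ * (8 / ρ / ρ) :=
        mul_le_mul_of_nonneg_right hs2 (by positivity)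
      have h8 : ρ * (8 / ρ / ρ) = 8 / ρ := by field_simp
      linarith
    have h9 : Real.exp (-(4 / ρ)) * Real.sin y ≤ y := by
      have h10 : Real.exp (-(4 / ρ)) * Real.sin y ≤ Real.exp (-(4 / ρ)) * 1 :=
        mul_le_mul_of_nonneg_left (Real.sin_le_one y) (Real.exp_pos _).le
      linarith
    have h10 := mul_nonneg hb (sub_nonneg.2 h9)
    have h11 : 0 ≤ s * ((Real.exp (-(4 / ρ)) - 3 / 5) * (1 - Real.cos y)) :=
      mul_nonneg hs0.le (mul_nonneg (by linarith) (by linarith))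
    have h12 := mul_le_mul_of_nonneg_left h2 hs0.le
    have h20 : (4 * y - 8) / ρ = 4 / ρ * y - 8 / ρ := by
      field_simp
    rw [h20]
    linarith

end SokalF1
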