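import Pool.Agent.Lib_MP_af4de1_f1.GTay

/-!
# Auxiliary lemmas for `int_period`  [F1N1-IntB]

Bounds of `1 - cos t` for `|t| ≤ 1.2` and `1.2 ≤ |t| ≤ π`, absolute moments of the Gauss function.
-/

set_option autoImplicit false

namespace SokalF1

open MeasureTheory Set

theorem ip_near {t : ℝ} (ht : |t| ≤ 6 / 5) : 4425 / 10000 * t ^ 2 ≤ 1 - Real.cos t := by
  set x : ℝ := |t| / 2 with hx
  have hx0 : 0 ≤ x := by positivity
  have hx1 : x ≤ 3 / 5 := by linarith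
  have h1 := SokalF1G.sin_ge7 hx0
  have hw0 : 0 ≤ x ^ 2 := sq_nonneg x
  have hw1 : x ^ 2 ≤ 9 / 25 := by nlinarith
  obtain ⟨w, hw⟩ : ∃ w, w = x ^ 2 := ⟨_, rfl⟩
  rw [← hw] at hw0 hw1
  have h2 : x * (941 / 1000) ≤ Real.sin x := by
    refine le_trans ?_ h1
    have h3 : x - x ^ 3 / 6 + x ^ 5 / 120 - x ^ 7 / 5040 =
        x * (1 - w / 6 + w ^ 2 / 120 - w ^ 3 / 5040) := by rw [hw]; ring
    rw [h3]
    apply mul_le_mul_of_nonneg_left _ hx0
    have h4 : w ^ 3 ≤ 9 / 25 * w ^ 2 := by nlinarith [sq_nonneg w]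
    nlinarith [mul_nonneg hw0 (sub_nonneg.2 hw1), sq_nonneg (w - 9 / 25)]
  have h4 : (x * (941 / 1000)) ^ 2 ≤ Real.sin x ^ 2 :=
    pow_le_pow_left₀ (mul_nonneg hx0 (by norm_num)) h2 2
  have h5 : Real.cos t = 1 - 2 * Real.sin x ^ 2 := by
    have h6 : Real.cos t = Real.cos (2 * x) := by
      rw [hx, mul_div_cancel₀ _ (two_ne_zero), Real.cos_abs]
    rw [h6, Real.cos_two_mul, Real.cos_sq']
    ring
  rw [h5]
  have h6 : x ^ 2 = t ^ 2 / 4 := by rw [hx, div_pow, sq_abs]; ring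
  have h7 : (x * (941 / 1000)) ^ 2 = t ^ 2 / 4 * (941 / 1000) ^ 2 := by
    rw [mul_pow, h6]
  rw [h7] at h4
  nlinarith [sq_nonneg t]

theorem ip_far {t : ℝ} (h1 : 6 / 5 ≤ |t|) (h2 : |t| ≤ Real.pi) :
    637 / 1000 ≤ 1 - Real.cos t := by
  have h3 := ip_near (t := 6 / 5) (by rw [abs_of_nonneg] <;> norm_num)
  have h4 : Real.cos |t| ≤ Real.cos (6 / 5) :=
    Real.cos_le_cos_of_nonneg_of_le_pi (by norm_num) h2 h1
  rw [Real.cos_abs] at h4
  norm_num at h3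
  linarith

/-- zeroth moment -/
theorem ip_m0 {M : ℝ} : ∫ s : ℝ, Real.exp (-(M * s ^ 2 / 2)) = √(2 * Real.pi / M) := by
  have h := integral_gaussian (M / 2)
  have e : (fun s : ℝ => Real.exp (-(M * s ^ 2 / 2))) = fun s => Real.exp (-(M / 2) * s ^ 2) := by
    funext s
    congr 1
    ring
  rw [e, h]
  congr 1
  field_simp

theorem ip_m1 {M : ℝ} (hM : 0 < M) : ∫ s : ℝ, |s| * Real.exp (-(M * s ^ 2 / 2)) = 2 / M := by
  have h0 := integral_comp_abs (f := fun s : ℝ => s * Real.exp (-(M * s ^ 2 / 2)))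
  simp only [sq_abs] at h0
  rw [h0]
  have h := integral_rpow_mul_exp_neg_mul_rpow (p := 2) (q := 1) (b := M / 2) (by norm_num)
    (by norm_num) (by positivity)
  have e : ∫ s in Ioi (0 : ℝ), s * Real.exp (-(M * s ^ 2 / 2)) =
      ∫ s in Ioi (0 : ℝ), s ^ (1 : ℝ) * Real.exp (-(M / 2) * s ^ (2 : ℝ)) := by
    refine setIntegral_congr_fun measurableSet_Ioi fun s _ => ?_
    rw [Real.rpow_one, Real.rpow_two]
    congr 2
    ring
  rw [e, h]
  norm_num
  rw [Real.rpow_neg_one]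
  field_simp

theorem ip_m2 {M : ℝ} (hM : 0 < M) :
    ∫ s : ℝ, s ^ 2 * Real.exp (-(M * s ^ 2 / 2)) = √(2 * Real.pi / M) / M := by
  have h0 := integral_comp_abs (f := fun s : ℝ => s ^ 2 * Real.exp (-(M * s ^ 2 / 2)))
  simp only [sq_abs] at h0
  rw [h0]
  have h := integral_rpow_mul_exp_neg_mul_rpow (p := 2) (q := 2) (b := M / 2) (by norm_num)
    (by norm_num) (by positivity)
  have e : ∫ s in Ioi (0 : ℝ), s ^ 2 * Real.exp (-(M * s ^ 2 / 2)) =
      ∫ s in Ioi (0 : ℝ), s ^ (2 : ℝ) * Real.exp (-(M / 2) * s ^ (2 : ℝ)) := by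
    refine setIntegral_congr_fun measurableSet_Ioi fun s _ => ?_
    rw [Real.rpow_two]
    congr 2
    ring
  rw [e, h]
  have h3 : Real.Gamma ((2 + 1) / 2) = √Real.pi / 2 := by
    have h4 : ((2 + 1) / 2 : ℝ) = 1 / 2 + 1 := by norm_num
    rw [h4, Real.Gamma_add_one (by norm_num), Real.Gamma_one_half_eq]
    ring
  rw [h3]
  have h5 : (M / 2 : ℝ) ^ (-(2 + 1) / 2 : ℝ) = (M / 2)⁻¹ * (√(M / 2))⁻¹ := by
    have h6 : (-(2 + 1) / 2 : ℝ) = -1 + -(1 / 2) := by norm_num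
    rw [h6, Real.rpow_add (by positivity), Real.rpow_neg_one, Real.rpow_neg (by positivity),
      ← Real.sqrt_eq_rpow]
  rw [h5]
  have h7 : √(2 * Real.pi / M) = √Real.pi * (√(M / 2))⁻¹ := by
    rw [← Real.sqrt_inv, ← Real.sqrt_mul Real.pi_pos.le]
    congr 1
    field_simp
  rw [h7]
  field_simp

theorem ip_i0 {M : ℝ} (hM : 0 < M) : Integrable fun s : ℝ => Real.exp (-(M * s ^ 2 / 2)) := by
  have h := integrable_exp_neg_mul_sq (b := M / 2) (by positivity)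
  refine h.congr (Filter.Eventually.of_forall fun s => ?_)
  simp only
  congr 1
  ring

theorem ip_i1 {M : ℝ} (hM : 0 < M) :
    Integrable fun s : ℝ => |s| * Real.exp (-(M * s ^ 2 / 2)) := by
  have h := (integrable_mul_exp_neg_mul_sq (b := M / 2) (by positivity)).abs
  refine h.congr (Filter.Eventually.of_forall fun s => ?_)
  simp only [abs_mul, Real.abs_exp]
  congr 2
  ring

theorem ip_i2 {M : ℝ} (hM : 0 < M) :
    Integrable fun s : ℝ => s ^ 2 * Real.exp (-(M * s ^ 2 / 2)) := by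
  have h := integrable_rpow_mul_exp_neg_mul_sq (b := M / 2) (by positivity) (s := 2) (by norm_num)
  refine h.congr (Filter.Eventually.of_forall fun s => ?_)
  simp only [Real.rpow_two]
  congr 2
  ring

end SokalF1
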