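import Mathlib
import Pool.Agent.Lib_MP_af4de1_f1.N1IntB

/-!
# F1, N = 1: the outer vertical leg  [F1N1-Int]

`fT j β Λ x1 y = (y + x1)^j exp (-(β y) - Λ (1 - cos y))`, `j = 0, 1, 2`, `0 < β`, `0 < Λ`, `0 ≤ x1 ≤ 1/2`.

(1) `∫_{1.7}^{π}`: `1 - cos y ≥ 1.128`, `y + x1 ≤ 3.65`, length `≤ 1.45`.
(2) recursion over one period: `∫_{3π}^∞ fT j = ∫_π^∞ fT j (y + 2π)`, `(y + x1 + 2π)^j` expanded, `cos` periodic:
 with `q = e^(-2πβ)`, `P_j = ∫_π^{3π} fT j`: `T_0 = P_0 + q T_0`, `T_1 = P_1 + q (T_1 + 2π T_0)`, `T_2 = P_2 + q (T_2 + 4π T_1 + 4π² T_0)`.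
(3) one period, `y = 2π + t`, `|t| ≤ π`: for `|t| ≤ 1.2`: `1 - cos t ≥ .4425 t²`, `y + x1 ≤ 2π + x1 + |t|`; complete the square
 (`M = .885 Λ`): `-βt - M t²/2 = -M (t + β/M)²/2 + β²/(2M)`, `|t| ≤ |t + β/M| + β/M`, so `y + x1 ≤ p + |t + β/M|`,
 `p = 2π + x1 + β/M`, and `∫_ℝ (p + |t|)^j e^(-M t²/2)` = `gB j`.
 for `1.2 ≤ |t| ≤ π`: `1 - cos t ≥ .637`, `y ≥ π`, `y + x1 ≤ 10`, total length `≤ 4`.
-/

set_option autoImplicit false

namespace SokalF1

open MeasureTheory Set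

noncomputable def fT (j : ℕ) (β Λ x1 y : ℝ) : ℝ :=
  (y + x1) ^ j * Real.exp (-(β * y) - Λ * (1 - Real.cos y))

/-- `∫_ℝ (p + |t|)^j e^(-M t²/2) dt` for `j = 0, 1, 2` -/
noncomputable def gB (j : ℕ) (M p : ℝ) : ℝ :=
  match j with
  | 0 => √(2 * Real.pi / M)
  | 1 => p * √(2 * Real.pi / M) + 2 / M
  | _ => p ^ 2 * √(2 * Real.pi / M) + 4 * p / M + √(2 * Real.pi / M) / M

/-- bound of one period -/
noncomputable def PB (j : ℕ) (β Λ x1 : ℝ) : ℝ :=
  Real.exp (-(2 * Real.pi * β) + β ^ 2 / (2 * (885 / 1000 * Λ))) *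
    gB j (885 / 1000 * Λ) (2 * Real.pi + x1 + β / (885 / 1000 * Λ)) +
  4 * 10 ^ j * Real.exp (-(Real.pi * β) - 637 / 1000 * Λ)

/-- bound of `∫_π^∞ fT j` -/
noncomputable def TB (j : ℕ) (β Λ x1 : ℝ) : ℝ :=
  match j with
  | 0 => PB 0 β Λ x1 / (1 - Real.exp (-(2 * Real.pi * β)))
  | 1 => (PB 1 β Λ x1 + 2 * Real.pi * Real.exp (-(2 * Real.pi * β)) *
      (PB 0 β Λ x1 / (1 - Real.exp (-(2 * Real.pi * β))))) / (1 - Real.exp (-(2 * Real.pi * β)))
  | _ => (PB 2 β Λ x1 + Real.exp (-(2 * Real.pi * β)) * (4 * Real.pi *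
      ((PB 1 β Λ x1 + 2 * Real.pi * Real.exp (-(2 * Real.pi * β)) *
      (PB 0 β Λ x1 / (1 - Real.exp (-(2 * Real.pi * β))))) / (1 - Real.exp (-(2 * Real.pi * β)))) +
      4 * Real.pi ^ 2 * (PB 0 β Λ x1 / (1 - Real.exp (-(2 * Real.pi * β)))))) /
      (1 - Real.exp (-(2 * Real.pi * β)))

private theorem intA_cont (j : ℕ) (β Λ x1 : ℝ) : Continuous (fT j β Λ x1) := by
  unfold fT
  fun_prop

theorem integrableOn_fT {β Λ x1 : ℝ} (hβ : 0 < β) (hΛ : 0 < Λ) (hx : 0 ≤ x1) (j : ℕ) (T : ℝ) :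
    IntegrableOn (fT j β Λ x1) (Ioi T) := by
  have hb : 0 < β / 2 := by positivity
  refine integrable_of_isBigO_exp_neg hb (intA_cont j β Λ x1).continuousOn ?_
  refine Asymptotics.IsBigO.of_bound ((j.factorial : ℝ) / (β / 2) ^ j * Real.exp (β / 2 * x1)) ?_
  filter_upwards [Filter.eventually_ge_atTop (0 : ℝ)] with y hy
  have h0 : 0 ≤ y + x1 := by linarith
  have hc : 0 ≤ 1 - Real.cos y := by linarith [Real.cos_le_one y]
  unfold fT
  rw [norm_mul, Real.norm_of_nonneg (pow_nonneg h0 j), Real.norm_of_nonneg (Real.exp_pos _).le,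
    Real.norm_of_nonneg (Real.exp_pos _).le]
  have h1 := Real.pow_div_factorial_le_exp (β / 2 * (y + x1)) (by positivity) j
  rw [div_le_iff₀ (by positivity), mul_pow] at h1
  have h2 : (y + x1) ^ j ≤ Real.exp (β / 2 * (y + x1)) * j.factorial / (β / 2) ^ j := by
    rw [le_div_iff₀ (by positivity)]
    linarith
  have h3 : Real.exp (-(β * y) - Λ * (1 - Real.cos y)) ≤ Real.exp (-(β * y)) := by
    apply Real.exp_le_exp.2
    have := mul_nonneg hΛ.le hc
    linarith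
  calc (y + x1) ^ j * Real.exp (-(β * y) - Λ * (1 - Real.cos y))
      ≤ (Real.exp (β / 2 * (y + x1)) * j.factorial / (β / 2) ^ j) * Real.exp (-(β * y)) :=
        mul_le_mul h2 h3 (Real.exp_pos _).le (by positivity)
    _ = (j.factorial : ℝ) / (β / 2) ^ j * Real.exp (β / 2 * x1) * Real.exp (-(β / 2) * y) := by
        have e : Real.exp (β / 2 * (y + x1)) * Real.exp (-(β * y)) =
            Real.exp (β / 2 * x1) * Real.exp (-(β / 2) * y) := by
          rw [← Real.exp_add, ← Real.exp_add]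
          congr 1
          ring
        calc _ = (j.factorial : ℝ) / (β / 2) ^ j *
              (Real.exp (β / 2 * (y + x1)) * Real.exp (-(β * y))) := by ring
          _ = _ := by rw [e]; ring

private theorem intA_cos : Real.cos (17 / 10) ≤ -(128 / 1000) := by
  have hp1 := Real.pi_gt_d4
  have hp2 := Real.pi_lt_d4
  have e : Real.cos (17 / 10) = -Real.sin (17 / 10 - Real.pi / 2) := by
    rw [Real.sin_sub_pi_div_two, neg_neg]
  obtain ⟨x, hx⟩ : ∃ x, x = 17 / 10 - Real.pi / 2 := ⟨_, rfl⟩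
  rw [e, ← hx, neg_le_neg_iff]
  have h1 : 1292 / 10000 ≤ x := by rw [hx]; linarith
  have h2 : x ≤ 13 / 100 := by rw [hx]; linarith
  have h3 := Real.sin_gt_sub_cube (by linarith : 0 < x)
  have h4 : x ^ 3 ≤ (13 / 100) ^ 3 := pow_le_pow_left₀ (by linarith) h2 3
  norm_num at h4
  linarith

theorem int_mid {β Λ x1 : ℝ} (hβ : 0 < β) (hΛ : 0 < Λ) (hx : 0 ≤ x1) (hx1 : x1 ≤ 1 / 2) (j : ℕ) :
    ∫ y in (17 / 10 : ℝ)..Real.pi, fT j β Λ x1 y ≤
      29 / 20 * (73 / 20) ^ j * Real.exp (-(17 / 10 * β) - 1128 / 1000 * Λ) := by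
  have hp1 := Real.pi_gt_d4
  have hp2 := Real.pi_lt_d4
  have hle : (17 / 10 : ℝ) ≤ Real.pi := by linarith
  obtain ⟨C, hC⟩ : ∃ C, C = (73 / 20 : ℝ) ^ j * Real.exp (-(17 / 10 * β) - 1128 / 1000 * Λ) := ⟨_, rfl⟩
  have hC0 : 0 ≤ C := by rw [hC]; positivity
  have hb : ∀ y ∈ Icc (17 / 10 : ℝ) Real.pi, fT j β Λ x1 y ≤ C := by
    intro y hy
    have h1 : Real.cos y ≤ Real.cos (17 / 10) :=
      Real.cos_le_cos_of_nonneg_of_le_pi (by norm_num) hy.2 hy.1
    have h2 := intA_cos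
    unfold fT
    rw [hC]
    refine mul_le_mul (pow_le_pow_left₀ (by linarith [hy.1]) (by linarith [hy.2]) j) ?_
      (Real.exp_pos _).le (by positivity)
    apply Real.exp_le_exp.2
    have h3 : β * (17 / 10) ≤ β * y := mul_le_mul_of_nonneg_left hy.1 hβ.le
    have h4 : Λ * (1128 / 1000) ≤ Λ * (1 - Real.cos y) :=
      mul_le_mul_of_nonneg_left (by linarith) hΛ.le
    linarith
  have h1 : ∫ y in (17 / 10 : ℝ)..Real.pi, fT j β Λ x1 y ≤ ∫ _y in (17 / 10 : ℝ)..Real.pi, C :=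
    intervalIntegral.integral_mono_on hle ((intA_cont j β Λ x1).intervalIntegrable _ _)
      (continuous_const.intervalIntegrable _ _) hb
  rw [intervalIntegral.integral_const, smul_eq_mul] at h1
  refine h1.trans ?_
  have h2 : (Real.pi - 17 / 10) * C ≤ 29 / 20 * C := mul_le_mul_of_nonneg_right (by linarith) hC0
  refine h2.trans (le_of_eq ?_)
  rw [hC]
  ring

private theorem ip_int {M : ℝ} (hM : 0 < M) (p : ℝ) (j : ℕ) (hj : j ≤ 2) :
    (Integrable fun s : ℝ => (p + |s|) ^ j * Real.exp (-(M * s ^ 2 / 2))) ∧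
      ∫ s : ℝ, (p + |s|) ^ j * Real.exp (-(M * s ^ 2 / 2)) = gB j M p := by
  interval_cases j
  · simp only [pow_zero, one_mul, gB]
    exact ⟨ip_i0 hM, ip_m0⟩
  · have e : (fun s : ℝ => (p + |s|) ^ 1 * Real.exp (-(M * s ^ 2 / 2))) =
        fun s => p * Real.exp (-(M * s ^ 2 / 2)) + |s| * Real.exp (-(M * s ^ 2 / 2)) := by
      funext s
      ring
    rw [e]
    refine ⟨((ip_i0 hM).const_mul p).add (ip_i1 hM), ?_⟩
    rw [integral_add ((ip_i0 hM).const_mul p) (ip_i1 hM), integral_const_mul, ip_m0, ip_m1 hM]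
    rfl
  · have e : (fun s : ℝ => (p + |s|) ^ 2 * Real.exp (-(M * s ^ 2 / 2))) =
        fun s => (p ^ 2 * Real.exp (-(M * s ^ 2 / 2)) +
          2 * p * (|s| * Real.exp (-(M * s ^ 2 / 2)))) +
          s ^ 2 * Real.exp (-(M * s ^ 2 / 2)) := by
      funext s
      have := sq_abs s
      rw [← this]
      ring
    rw [e]
    have i1 := ((ip_i0 hM).const_mul (p ^ 2))
    have i2 := ((ip_i1 hM).const_mul (2 * p))
    refine ⟨(i1.add i2).add (ip_i2 hM), ?_⟩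
    have h1 := integral_add (i1.add i2) (ip_i2 hM)
    simp only [Pi.add_apply] at h1
    rw [h1, integral_add i1 i2, integral_const_mul,
      integral_const_mul, ip_m0, ip_m1 hM, ip_m2 hM]
    simp only [gB]
    ring

/-- far part of one period -/
private theorem ip_out {β Λ x1 : ℝ} (hβ : 0 < β) (hΛ : 0 < Λ) (hx : 0 ≤ x1) (hx1 : x1 ≤ 1 / 2)
    (j : ℕ) {y : ℝ} (h1 : Real.pi ≤ y) (h2 : y ≤ 3 * Real.pi) (h3 : 6 / 5 ≤ |y - 2 * Real.pi|) :
    fT j β Λ x1 y ≤ 10 ^ j * Real.exp (-(Real.pi * β) - 637 / 1000 * Λ) := by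
  unfold fT
  have hpi := Real.pi_lt_d2
  have hpi0 := Real.pi_pos
  have h4 : |y - 2 * Real.pi| ≤ Real.pi := abs_le.2 ⟨by linarith, by linarith⟩
  have h5 := ip_far h3 h4
  rw [Real.cos_sub_two_pi] at h5
  have h6 : (y + x1) ^ j ≤ 10 ^ j := pow_le_pow_left₀ (by linarith) (by linarith) j
  refine mul_le_mul h6 (Real.exp_le_exp.2 ?_) (Real.exp_pos _).le (by positivity)
  have h7 : β * Real.pi ≤ β * y := mul_le_mul_of_nonneg_left h1 hβ.le
  have h8 : Λ * (637 / 1000) ≤ Λ * (1 - Real.cos y) := mul_le_mul_of_nonneg_left h5 hΛ.le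
  linarith

/-- near part of one period -/
private theorem ip_in {β Λ x1 : ℝ} (hβ : 0 < β) (hΛ : 0 < Λ) (hx : 0 ≤ x1) (j : ℕ) {y : ℝ}
    (h3 : |y - 2 * Real.pi| ≤ 6 / 5) :
    fT j β Λ x1 y ≤ Real.exp (-(2 * Real.pi * β) + β ^ 2 / (2 * (885 / 1000 * Λ))) *
      ((2 * Real.pi + x1 + β / (885 / 1000 * Λ) +
        |y - (2 * Real.pi - β / (885 / 1000 * Λ))|) ^ j *
      Real.exp (-(885 / 1000 * Λ * (y - (2 * Real.pi - β / (885 / 1000 * Λ))) ^ 2 / 2))) := by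
  have hpi0 := Real.pi_gt_three
  set M : ℝ := 885 / 1000 * Λ with hM
  have hM0 : 0 < M := by positivity
  have h5 := ip_near h3
  rw [Real.cos_sub_two_pi] at h5
  have hb : 0 ≤ β / M := by positivity
  have h1 := abs_le.1 h3
  have h6 : (y + x1) ^ j ≤ (2 * Real.pi + x1 + β / M + |y - (2 * Real.pi - β / M)|) ^ j := by
    apply pow_le_pow_left₀ (by linarith)
    have := le_abs_self (y - (2 * Real.pi - β / M))
    linarith
  have h7 : Λ * (4425 / 10000 * (y - 2 * Real.pi) ^ 2) ≤ Λ * (1 - Real.cos y) :=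
    mul_le_mul_of_nonneg_left h5 hΛ.le
  have h8 : -(β * y) - Λ * (1 - Real.cos y) ≤ (-(2 * Real.pi * β) + β ^ 2 / (2 * M)) +
      -(M * (y - (2 * Real.pi - β / M)) ^ 2 / 2) := by
    have e : (-(2 * Real.pi * β) + β ^ 2 / (2 * M)) +
      -(M * (y - (2 * Real.pi - β / M)) ^ 2 / 2) = -(β * y) - M * (y - 2 * Real.pi) ^ 2 / 2 := by
      field_simp
      ring
    rw [e]
    have e2 : Λ * (4425 / 10000 * (y - 2 * Real.pi) ^ 2) = M * (y - 2 * Real.pi) ^ 2 / 2 := by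
      rw [hM]
      ring
    linarith
  unfold fT
  calc (y + x1) ^ j * Real.exp (-(β * y) - Λ * (1 - Real.cos y))
      ≤ (2 * Real.pi + x1 + β / M + |y - (2 * Real.pi - β / M)|) ^ j *
        Real.exp ((-(2 * Real.pi * β) + β ^ 2 / (2 * M)) +
          -(M * (y - (2 * Real.pi - β / M)) ^ 2 / 2)) :=
        mul_le_mul h6 (Real.exp_le_exp.2 h8) (Real.exp_pos _).le (by positivity)
    _ = _ := by
        rw [Real.exp_add]
        ring

theorem int_period {β Λ x1 : ℝ} (hβ : 0 < β) (hΛ : 0 < Λ) (hx : 0 ≤ x1) (hx1 : x1 ≤ 1 / 2) (j : ℕ)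
    (hj : j ≤ 2) : ∫ y in Real.pi..(3 * Real.pi), fT j β Λ x1 y ≤ PB j β Λ x1 := by
  have hpi := Real.pi_gt_d2
  have hpi' := Real.pi_lt_d2
  have hc : Continuous (fT j β Λ x1) := by
    unfold fT
    fun_prop
  have hi : ∀ a b : ℝ, IntervalIntegrable (fT j β Λ x1) volume a b := fun a b =>
    hc.intervalIntegrable a b
  rw [← intervalIntegral.integral_add_adjacent_intervals (hi Real.pi (2 * Real.pi - 6 / 5))
    (hi (2 * Real.pi - 6 / 5) (3 * Real.pi)),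
    ← intervalIntegral.integral_add_adjacent_intervals
      (hi (2 * Real.pi - 6 / 5) (2 * Real.pi + 6 / 5)) (hi (2 * Real.pi + 6 / 5) (3 * Real.pi))]
  set C : ℝ := 10 ^ j * Real.exp (-(Real.pi * β) - 637 / 1000 * Λ) with hC
  have hC0 : 0 ≤ C := by positivity
  have hout : ∀ a b : ℝ, a ≤ b → (∀ y, a ≤ y → y ≤ b → fT j β Λ x1 y ≤ C) →
      ∫ y in a..b, fT j β Λ x1 y ≤ (b - a) * C := by
    intro a b hab h
    have h1 := intervalIntegral.integral_mono_on hab (hi a b)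
      (intervalIntegrable_const (c := C)) fun y hy => h y hy.1 hy.2
    rw [intervalIntegral.integral_const, smul_eq_mul] at h1
    exact h1
  have o1 := hout Real.pi (2 * Real.pi - 6 / 5) (by linarith) fun y h1 h2 =>
    ip_out hβ hΛ hx hx1 j h1 (by linarith) (by
      rw [abs_of_nonpos (by linarith)]
      linarith)
  have o2 := hout (2 * Real.pi + 6 / 5) (3 * Real.pi) (by linarith) fun y h1 h2 =>
    ip_out hβ hΛ hx hx1 j (by linarith) h2 (by
      rw [abs_of_nonneg (by linarith)]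
      linarith)
  set M : ℝ := 885 / 1000 * Λ with hM
  have hM0 : 0 < M := by positivity
  set p : ℝ := 2 * Real.pi + x1 + β / M with hp
  set E : ℝ := Real.exp (-(2 * Real.pi * β) + β ^ 2 / (2 * M)) with hE
  obtain ⟨g1, g2⟩ := ip_int hM0 p j hj
  have g3 := g1.comp_sub_right (2 * Real.pi - β / M)
  have g4 := integral_sub_right_eq_self (μ := volume)
    (fun s : ℝ => (p + |s|) ^ j * Real.exp (-(M * s ^ 2 / 2))) (2 * Real.pi - β / M)
  have i3 : ∫ y in (2 * Real.pi - 6 / 5)..(2 * Real.pi + 6 / 5), fT j β Λ x1 y ≤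
      E * gB j M p := by
    have hab : 2 * Real.pi - 6 / 5 ≤ 2 * Real.pi + 6 / 5 := by linarith
    have hg := (g3.const_mul E)
    have h1 := intervalIntegral.integral_mono_on hab (hi _ _) hg.intervalIntegrable
      fun y hy => ip_in hβ hΛ hx j (y := y) (abs_le.2 ⟨by linarith [hy.1], by linarith [hy.2]⟩)
    refine h1.trans ?_
    rw [intervalIntegral.integral_of_le hab, ← g2, ← g4, ← integral_const_mul]
    refine setIntegral_le_integral hg (Filter.Eventually.of_forall fun y => ?_)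
    simp only [Pi.zero_apply]
    positivity
  have i4 : (2 * Real.pi - 6 / 5 - Real.pi) * C + (3 * Real.pi - (2 * Real.pi + 6 / 5)) * C ≤
      4 * C := by nlinarith
  have e : PB j β Λ x1 = E * gB j M p + 4 * C := by
    unfold PB
    rw [hC]
    ring
  rw [e]
  linarith

private theorem intA_shift (f : ℝ → ℝ) (a c : ℝ) :
    ∫ y in Ioi (a + c), f y = ∫ y in Ioi a, f (y + c) := by
  have h := (measurePreserving_add_right volume c).setIntegral_preimage_emb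
    (measurableEmbedding_addRight c) f (Ioi (a + c))
  rw [← h, preimage_add_const_Ioi, add_sub_cancel_right]

/-- one period further -/
private theorem intA_split {β Λ x1 : ℝ} (hβ : 0 < β) (hΛ : 0 < Λ) (hx : 0 ≤ x1) (j : ℕ) :
    ∫ y in Ioi Real.pi, fT j β Λ x1 y = (∫ y in Real.pi..(3 * Real.pi), fT j β Λ x1 y) +
      ∫ y in Ioi Real.pi, fT j β Λ x1 (y + 2 * Real.pi) := by
  have h1 : Real.pi ≤ 3 * Real.pi := by linarith [Real.pi_pos]
  rw [intervalIntegral.integral_of_le h1]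
  have h2 := intA_shift (fT j β Λ x1) Real.pi (2 * Real.pi)
  have h3 : Real.pi + 2 * Real.pi = 3 * Real.pi := by ring
  rw [h3] at h2
  rw [← h2, ← setIntegral_union (Ioc_disjoint_Ioi le_rfl) measurableSet_Ioi
    (integrableOn_fT hβ hΛ hx j _ |>.mono_set Ioc_subset_Ioi_self)
    (integrableOn_fT hβ hΛ hx j _), Ioc_union_Ioi_eq_Ioi h1]

private theorem intA_per (β Λ y : ℝ) :
    Real.exp (-(β * (y + 2 * Real.pi)) - Λ * (1 - Real.cos (y + 2 * Real.pi))) =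
      Real.exp (-(2 * Real.pi * β)) * Real.exp (-(β * y) - Λ * (1 - Real.cos y)) := by
  rw [Real.cos_add_two_pi, ← Real.exp_add]
  congr 1
  ring

theorem int_rec {β Λ x1 : ℝ} (hβ : 0 < β) (hΛ : 0 < Λ) (hx : 0 ≤ x1) (hx1 : x1 ≤ 1 / 2) (j : ℕ)
    (hj : j ≤ 2) : ∫ y in Ioi Real.pi, fT j β Λ x1 y ≤ TB j β Λ x1 := by
  obtain ⟨q, hq⟩ : ∃ q, q = Real.exp (-(2 * Real.pi * β)) := ⟨_, rfl⟩
  have hq0 : 0 < q := by rw [hq]; exact Real.exp_pos _
  have hq1 : q < 1 := by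
    rw [hq, Real.exp_lt_one_iff]
    have := Real.pi_pos
    have := mul_pos (mul_pos two_pos this) hβ
    linarith
  have h1q : 0 < 1 - q := by linarith
  have hpi := Real.pi_pos
  have hI := fun i => integrableOn_fT hβ hΛ hx i Real.pi
  obtain ⟨T0, hT0⟩ : ∃ t, t = ∫ y in Ioi Real.pi, fT 0 β Λ x1 y := ⟨_, rfl⟩
  obtain ⟨T1, hT1⟩ : ∃ t, t = ∫ y in Ioi Real.pi, fT 1 β Λ x1 y := ⟨_, rfl⟩
  obtain ⟨T2, hT2⟩ : ∃ t, t = ∫ y in Ioi Real.pi, fT 2 β Λ x1 y := ⟨_, rfl⟩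
  have s0 : T0 = (∫ y in Real.pi..(3 * Real.pi), fT 0 β Λ x1 y) + q * T0 := by
    have h := intA_split hβ hΛ hx (x1 := x1) 0
    rw [← hT0] at h
    have e : ∫ y in Ioi Real.pi, fT 0 β Λ x1 (y + 2 * Real.pi) = q * T0 := by
      rw [hT0, ← integral_const_mul]
      congr 1
      funext y
      unfold fT
      rw [intA_per, ← hq]
      ring
    rw [e] at h
    exact h
  have s1 : T1 = (∫ y in Real.pi..(3 * Real.pi), fT 1 β Λ x1 y) + q * (T1 + 2 * Real.pi * T0) := by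
    have h := intA_split hβ hΛ hx (x1 := x1) 1
    rw [← hT1] at h
    have e : ∫ y in Ioi Real.pi, fT 1 β Λ x1 (y + 2 * Real.pi) = q * (T1 + 2 * Real.pi * T0) := by
      rw [hT1, hT0, ← integral_const_mul (2 * Real.pi), ← integral_add (hI 1) ((hI 0).const_mul _),
        ← integral_const_mul]
      congr 1
      funext y
      unfold fT
      rw [intA_per, ← hq]
      ring
    rw [e] at h
    exact h
  have s2 : T2 = (∫ y in Real.pi..(3 * Real.pi), fT 2 β Λ x1 y) +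
      q * (T2 + 4 * Real.pi * T1 + 4 * Real.pi ^ 2 * T0) := by
    have h := intA_split hβ hΛ hx (x1 := x1) 2
    rw [← hT2] at h
    have e : ∫ y in Ioi Real.pi, fT 2 β Λ x1 (y + 2 * Real.pi) =
        q * (T2 + 4 * Real.pi * T1 + 4 * Real.pi ^ 2 * T0) := by
      have hI2 : IntegrableOn (fun y => fT 2 β Λ x1 y + 4 * Real.pi * fT 1 β Λ x1 y) (Ioi Real.pi) :=
        (hI 2).add ((hI 1).const_mul _)
      rw [hT2, hT1, hT0, ← integral_const_mul (4 * Real.pi), ← integral_add (hI 2) ((hI 1).const_mul _),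
        ← integral_const_mul (4 * Real.pi ^ 2),
        ← integral_add hI2 ((hI 0).const_mul _),
        ← integral_const_mul]
      congr 1
      funext y
      unfold fT
      rw [intA_per, ← hq]
      ring
    rw [e] at h
    exact h
  have b0 : T0 ≤ PB 0 β Λ x1 / (1 - q) := by
    rw [le_div_iff₀ h1q]
    have := int_period hβ hΛ hx hx1 0 (by norm_num)
    linarith
  have b1 : T1 ≤ (PB 1 β Λ x1 + 2 * Real.pi * q * (PB 0 β Λ x1 / (1 - q))) / (1 - q) := by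
    rw [le_div_iff₀ h1q]
    have h := int_period hβ hΛ hx hx1 1 (by norm_num)
    have h2 : 2 * Real.pi * q * T0 ≤ 2 * Real.pi * q * (PB 0 β Λ x1 / (1 - q)) :=
      mul_le_mul_of_nonneg_left b0 (by positivity)
    linarith
  have b2 : T2 ≤ (PB 2 β Λ x1 + q * (4 * Real.pi *
      ((PB 1 β Λ x1 + 2 * Real.pi * q * (PB 0 β Λ x1 / (1 - q))) / (1 - q)) +
      4 * Real.pi ^ 2 * (PB 0 β Λ x1 / (1 - q)))) / (1 - q) := by
    rw [le_div_iff₀ h1q]
    have h := int_period hβ hΛ hx hx1 2 (by norm_num)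
    have h2 : q * (4 * Real.pi * T1 + 4 * Real.pi ^ 2 * T0) ≤ q * (4 * Real.pi *
      ((PB 1 β Λ x1 + 2 * Real.pi * q * (PB 0 β Λ x1 / (1 - q))) / (1 - q)) +
      4 * Real.pi ^ 2 * (PB 0 β Λ x1 / (1 - q))) := by
      apply mul_le_mul_of_nonneg_left _ hq0.le
      exact add_le_add (mul_le_mul_of_nonneg_left b1 (by positivity))
        (mul_le_mul_of_nonneg_left b0 (by positivity))
    linarith
  interval_cases j
  · rw [← hT0]
    unfold TB
    rw [← hq]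
    exact b0
  · rw [← hT1]
    unfold TB
    rw [← hq]
    exact b1
  · rw [← hT2]
    unfold TB
    rw [← hq]
    exact b2

theorem int_outer {β Λ x1 : ℝ} (hβ : 0 < β) (hΛ : 0 < Λ) (hx : 0 ≤ x1) (hx1 : x1 ≤ 1 / 2) (j : ℕ)
    (hj : j ≤ 2) : ∫ y in Ioi (17 / 10 : ℝ), fT j β Λ x1 y ≤
      29 / 20 * (73 / 20) ^ j * Real.exp (-(17 / 10 * β) - 1128 / 1000 * Λ) + TB j β Λ x1 := by
  have h1 : (17 / 10 : ℝ) ≤ Real.pi := by linarith [Real.pi_gt_three]
  have hc : Continuous (fT j β Λ x1) := by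
    unfold fT
    fun_prop
  have h2 : ∫ y in Ioi (17 / 10 : ℝ), fT j β Λ x1 y =
      (∫ y in (17 / 10 : ℝ)..Real.pi, fT j β Λ x1 y) + ∫ y in Ioi Real.pi, fT j β Λ x1 y := by
    rw [intervalIntegral.integral_of_le h1, ← setIntegral_union (Ioc_disjoint_Ioi le_rfl)
      measurableSet_Ioi (integrableOn_fT hβ hΛ hx j _ |>.mono_set Ioc_subset_Ioi_self)
      (integrableOn_fT hβ hΛ hx j _), Ioc_union_Ioi_eq_Ioi h1]
  rw [h2]
  exact add_le_add (int_mid hβ hΛ hx hx1 j) (int_rec hβ hΛ hx hx1 j hj)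

end SokalF1
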