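import Mathlib

/-!
# N = 1, large `rho`: the lifts
-/

set_option autoImplicit false

namespace SokalN1

open Set MeasureTheory

/-- the integrand of the lifts is dominated on one period -/
theorem lift0_le {β X δ : ℝ} (hβ : 0 < β) (hX : 0 < X) (hδ : 0 < δ)
    (hcos : ∀ t : ℝ, |t| ≤ Real.pi / 2 → 2 / 5 * t ^ 2 ≤ 1 - Real.cos t) {y : ℝ} (h2 : 2 ≤ y)
    (h3 : y ≤ 2 + 2 * Real.pi) :
    Real.exp (-(β * y + X * (1 - Real.cos y)) / δ) ≤
      Real.exp (-(2 * Real.pi * β / δ) + β ^ 2 / (8 / 5 * X * δ)) *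
        Real.exp (-(2 / 5 * X / δ) * (y - (2 * Real.pi - 5 * β / (4 * X))) ^ 2) +
      Real.exp (-((2 * β + X) / δ)) := by
  have hp := Real.pi_gt_three
  have hcosy : Real.cos y = Real.cos (y - 2 * Real.pi) := (Real.cos_sub_two_pi y).symm
  by_cases ht : |y - 2 * Real.pi| ≤ Real.pi / 2
  · have h4 := hcos _ ht
    refine le_add_of_le_of_nonneg ?_ (Real.exp_nonneg _)
    rw [← Real.exp_add]
    refine Real.exp_le_exp.2 ?_
    have h5 : X * (2 / 5 * (y - 2 * Real.pi) ^ 2) ≤ X * (1 - Real.cos (y - 2 * Real.pi)) :=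
      mul_le_mul_of_nonneg_left h4 hX.le
    rw [hcosy]
    have e : -(2 * Real.pi * β / δ) + β ^ 2 / (8 / 5 * X * δ) +
        -(2 / 5 * X / δ) * (y - (2 * Real.pi - 5 * β / (4 * X))) ^ 2 =
        -(β * y + X * (2 / 5 * (y - 2 * Real.pi) ^ 2)) / δ := by
      field_simp
      ring
    rw [e]
    refine div_le_div_of_nonneg_right ?_ hδ.le
    linarith
  · refine le_add_of_nonneg_of_le (mul_nonneg (Real.exp_nonneg _) (Real.exp_nonneg _)) ?_
    refine Real.exp_le_exp.2 ?_
    have h6 : Real.cos y ≤ 0 := by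
      rw [hcosy, ← Real.cos_abs]
      refine Real.cos_nonpos_of_pi_div_two_le_of_le (not_le.1 ht).le ?_
      rw [abs_le]
      constructor <;> linarith [Real.pi_gt_d2, Real.pi_lt_d2]
    rw [neg_div]
    refine neg_le_neg (div_le_div_of_nonneg_right ?_ hδ.le)
    nlinarith

theorem lift0_int {β X δ : ℝ} (hβ : 0 < β) (hX : 0 < X) (hδ : 0 < δ) :
    IntegrableOn (fun y : ℝ => Real.exp (-(β * y + X * (1 - Real.cos y)) / δ)) (Ioi 2) := by
  have h1 : IntegrableOn (fun y : ℝ => Real.exp (-(β / δ) * y)) (Ioi 2) :=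
    integrableOn_exp_mul_Ioi (neg_lt_zero.2 (div_pos hβ hδ)) 2
  refine Integrable.mono' h1 (by fun_prop) (Filter.Eventually.of_forall fun y => ?_)
  rw [Real.norm_eq_abs, Real.abs_exp]
  refine Real.exp_le_exp.2 ?_
  have h2 : 0 ≤ X * (1 - Real.cos y) := mul_nonneg hX.le (by linarith [Real.cos_le_one y])
  have h3 : -(β / δ) * y = -(β * y) / δ := by ring
  rw [h3]
  refine div_le_div_of_nonneg_right ?_ hδ.le
  linarith

/-- `G(y) = e^{-(βy + X(1 - cos y))/δ}`, `G(y + 2π) = q G(y)`, `q = e^{-2πβ/δ}`; so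
`∫_2^∞ G = (1 - q)⁻¹ ∫_2^{2+2π} G`.  `y = 2π + t`, `t ∈ [2 - 2π, 2]`: if `|t| ≤ π/2`, then
`1 - cos t ≥ (2/5)t²` and `-(βt + (2/5)X t²)/δ = -(2X/(5δ))(t + 5β/(4X))² + β²/(1.6 X δ)`; otherwise `cos t ≤ 0`
and `βy ≥ 2β`. -/
theorem lift0 {β X δ : ℝ} (hβ : 0 < β) (hX : 0 < X) (hδ : 0 < δ)
    (hcos : ∀ t : ℝ, |t| ≤ Real.pi / 2 → 2 / 5 * t ^ 2 ≤ 1 - Real.cos t) :
    IntegrableOn (fun y : ℝ => Real.exp (-(β * y + X * (1 - Real.cos y)) / δ)) (Ioi 2) ∧
    ∫ y in Ioi (2 : ℝ), Real.exp (-(β * y + X * (1 - Real.cos y)) / δ) ≤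
      (1 - Real.exp (-(2 * Real.pi * β / δ)))⁻¹ *
        (Real.exp (-(2 * Real.pi * β / δ) + β ^ 2 / (8 / 5 * X * δ)) * √(Real.pi * δ / (2 / 5 * X)) +
          2 * Real.pi * Real.exp (-((2 * β + X) / δ))) := by
  have hint := lift0_int hβ hX hδ
  refine ⟨hint, ?_⟩
  have hp := Real.pi_pos
  set G : ℝ → ℝ := fun y => Real.exp (-(β * y + X * (1 - Real.cos y)) / δ) with hG
  set q : ℝ := Real.exp (-(2 * Real.pi * β / δ)) with hq
  have hq1 : q < 1 := by
    rw [hq, Real.exp_lt_one_iff]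
    have : 0 < 2 * Real.pi * β / δ := by positivity
    linarith
  have hshift : ∀ y, G (y + 2 * Real.pi) = q * G y := by
    intro y
    simp only [hG, hq]
    rw [← Real.exp_add, Real.cos_add_two_pi]
    congr 1
    field_simp
    ring
  have hGc : Continuous G := by
    simp only [hG]
    fun_prop
  have hsplit : ∫ y in Ioi (2 : ℝ), G y = (∫ y in (2 : ℝ)..(2 + 2 * Real.pi), G y) +
      ∫ y in Ioi (2 + 2 * Real.pi), G y := by
    have h1 : IntegrableOn G (Ioi (2 + 2 * Real.pi)) := hint.mono_set (Ioi_subset_Ioi (by linarith))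
    rw [intervalIntegral.integral_of_le (by linarith), ← MeasureTheory.setIntegral_union
      (by
        rw [Set.disjoint_left]
        intro y hy hy2
        exact absurd hy.2 (not_le.2 hy2)) measurableSet_Ioi
      (hint.mono_set Ioc_subset_Ioi_self) h1]
    congr 1
    rw [Ioc_union_Ioi_eq_Ioi (by linarith)]
  have htail : ∫ y in Ioi (2 + 2 * Real.pi), G y = q * ∫ y in Ioi (2 : ℝ), G y := by
    rw [← MeasureTheory.integral_const_mul]
    have h1 : ∫ y in Ioi (2 : ℝ), G (y + 2 * Real.pi) = ∫ y in Ioi (2 + 2 * Real.pi), G y := by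
      rw [← MeasureTheory.integral_indicator measurableSet_Ioi, ← MeasureTheory.integral_indicator measurableSet_Ioi]
      rw [← MeasureTheory.integral_add_right_eq_self (fun y => (Ioi (2 + 2 * Real.pi)).indicator G y) (2 * Real.pi)]
      congr 1
      funext y
      by_cases hy : 2 < y
      · rw [indicator_of_mem (show y ∈ Ioi (2 : ℝ) from hy), indicator_of_mem (by
          show 2 + 2 * Real.pi < y + 2 * Real.pi
          linarith)]
      · rw [indicator_of_notMem (show y ∉ Ioi (2 : ℝ) from hy), indicator_of_notMem (by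
          show ¬ 2 + 2 * Real.pi < y + 2 * Real.pi
          linarith)]
    rw [← h1]
    congr 1
    funext y
    exact hshift y
  have hmain : (1 - q) * ∫ y in Ioi (2 : ℝ), G y = ∫ y in (2 : ℝ)..(2 + 2 * Real.pi), G y := by
    rw [htail] at hsplit
    linarith
  have hX5 : 0 < 2 / 5 * X / δ := by positivity
  have hgauss : ∫ y : ℝ, Real.exp (-(2 / 5 * X / δ) * (y - (2 * Real.pi - 5 * β / (4 * X))) ^ 2) =
      √(Real.pi * δ / (2 / 5 * X)) := by
    rw [MeasureTheory.integral_sub_right_eq_self (fun y : ℝ => Real.exp (-(2 / 5 * X / δ) * y ^ 2)),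
      integral_gaussian]
    congr 1
    field_simp
  have hgi : Integrable fun y : ℝ => Real.exp (-(2 / 5 * X / δ) * (y - (2 * Real.pi - 5 * β / (4 * X))) ^ 2) :=
    (integrable_exp_neg_mul_sq hX5).comp_sub_right _
  have hbound : ∫ y in (2 : ℝ)..(2 + 2 * Real.pi), G y ≤
      Real.exp (-(2 * Real.pi * β / δ) + β ^ 2 / (8 / 5 * X * δ)) * √(Real.pi * δ / (2 / 5 * X)) +
          2 * Real.pi * Real.exp (-((2 * β + X) / δ)) := by
    have h1 : ∫ y in (2 : ℝ)..(2 + 2 * Real.pi), G y ≤ ∫ y in (2 : ℝ)..(2 + 2 * Real.pi),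
        (Real.exp (-(2 * Real.pi * β / δ) + β ^ 2 / (8 / 5 * X * δ)) *
        Real.exp (-(2 / 5 * X / δ) * (y - (2 * Real.pi - 5 * β / (4 * X))) ^ 2) +
      Real.exp (-((2 * β + X) / δ))) := by
      refine intervalIntegral.integral_mono_on (by linarith) (hGc.intervalIntegrable _ _)
        (Continuous.intervalIntegrable (by fun_prop) _ _) fun y hy => ?_
      exact lift0_le hβ hX hδ hcos hy.1 hy.2
    refine h1.trans ?_
    rw [intervalIntegral.integral_add (Continuous.intervalIntegrable (by fun_prop) _ _)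
      (Continuous.intervalIntegrable (by fun_prop) _ _), intervalIntegral.integral_const_mul,
      intervalIntegral.integral_const, smul_eq_mul]
    refine add_le_add (mul_le_mul_of_nonneg_left ?_ (Real.exp_nonneg _)) (le_of_eq (by ring))
    rw [intervalIntegral.integral_of_le (by linarith), ← hgauss]
    exact MeasureTheory.setIntegral_le_integral hgi (Filter.Eventually.of_forall fun y => Real.exp_nonneg _)
  have h1q : 0 < 1 - q := by linarith
  rw [← div_eq_inv_mul, le_div_iff₀ h1q, mul_comm, hmain]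
  exact hbound

/-- `y ≤ 2π e^{y/(2π) - 1}`. -/
theorem weight_le {y : ℝ} (hy : 0 ≤ y) (j : ℕ) :
    y ^ j ≤ (2 * Real.pi) ^ j * Real.exp (j * (y / (2 * Real.pi)) - j) := by
  have hp := Real.pi_pos
  have h1 : y ≤ 2 * Real.pi * Real.exp (y / (2 * Real.pi) - 1) := by
    have h2 := Real.add_one_le_exp (y / (2 * Real.pi) - 1)
    have h3 : y / (2 * Real.pi) ≤ Real.exp (y / (2 * Real.pi) - 1) := by linarith
    rw [div_le_iff₀ (by positivity)] at h3
    linarith
  have h4 : Real.exp (j * (y / (2 * Real.pi)) - j) = Real.exp (y / (2 * Real.pi) - 1) ^ j := by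
    rw [← Real.exp_nat_mul]
    congr 1
    ring
  rw [h4, ← mul_pow]
  exact pow_le_pow_left₀ hy h1 j

end SokalN1
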