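import Pool.Agent.Lib_MP_af4de1_f1.N1T
import Pool.Agent.Lib_MP_af4de1_f1.N1L0

/-!
# N = 1, large `rho`: the lifts on the path L (`h = -a + i s`, `a ≥ 0`)

`Ht (-a) s (-b) (-y) = b y + a (y - e^{-b} sin y) - s (e^{-b} - 1 + b) + s e^{-b} (1 - cos y)
≥ b y - s b²/2 + s e^{-b} (1 - cos y)`; `lift0` with `β = b - jδ/(2π)`, `X = s e^{-b}`.
-/

set_option autoImplicit false

namespace SokalN1

open Complex Set MeasureTheory

theorem ht_L_lift {a s b y : ℝ} (hs : 0 < s) (ha : 0 ≤ a) (hb : 0 ≤ b) (hy : 2 ≤ y) :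
    b * y - s * b ^ 2 / 2 + s * Real.exp (-b) * (1 - Real.cos y) ≤ Ht (-a) s (-b) (-y) := by
  unfold Ht
  rw [Real.sin_neg, Real.cos_neg]
  have h1 := exp_neg_sub hb
  have h2 : 0 ≤ a * (y - Real.exp (-b) * Real.sin y) := by
    refine mul_nonneg ha ?_
    have h3 : Real.exp (-b) ≤ 1 := Real.exp_le_one_iff.2 (by linarith)
    have h4 := Real.exp_pos (-b)
    have h5 : Real.exp (-b) * Real.sin y ≤ 1 * 1 :=
      (mul_le_mul_of_nonneg_left (Real.sin_le_one y) h4.le).trans (mul_le_mul_of_nonneg_right h3 zero_le_one)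
    linarith
  have h6 : s * (Real.exp (-b) - 1 + b) ≤ s * (b ^ 2 / 2) := mul_le_mul_of_nonneg_left h1 hs.le
  nlinarith

/-- the weight `|v|^j` for `|y| ≥ 2` -/
theorem sqrt_pow_le {b y : ℝ} (hy : 2 ≤ y) (j : ℕ) :
    √(b ^ 2 + y ^ 2) ^ j ≤ (2 * Real.pi * √(1 + b ^ 2 / 4)) ^ j * Real.exp (j * (y / (2 * Real.pi)) - j) := by
  have h1 : √(b ^ 2 + y ^ 2) ≤ y * √(1 + b ^ 2 / 4) := by
    refine Real.sqrt_le_iff.2 ⟨by positivity, ?_⟩
    rw [mul_pow, Real.sq_sqrt (by positivity)]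
    have : 4 ≤ y ^ 2 := by nlinarith
    nlinarith [sq_nonneg b]
  have h2 := weight_le (y := y) (by linarith) j
  calc √(b ^ 2 + y ^ 2) ^ j ≤ (y * √(1 + b ^ 2 / 4)) ^ j := pow_le_pow_left₀ (Real.sqrt_nonneg _) h1 j
    _ = y ^ j * √(1 + b ^ 2 / 4) ^ j := mul_pow _ _ _
    _ ≤ ((2 * Real.pi) ^ j * Real.exp (j * (y / (2 * Real.pi)) - j)) * √(1 + b ^ 2 / 4) ^ j :=
        mul_le_mul_of_nonneg_right h2 (by positivity)
    _ = _ := by rw [mul_pow]; ring

/-- `y^j ≤ C e^{c y}` -/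
theorem pow_le_C_exp {c : ℝ} (hc : 0 < c) (j : ℕ) {y : ℝ} (hy : 0 ≤ y) :
    y ^ j ≤ (j.factorial / c ^ j) * Real.exp (c * y) := by
  have h1 := Real.pow_div_factorial_le_exp (c * y) (by positivity) j
  have hf : (0 : ℝ) < (j.factorial : ℝ) := by exact_mod_cast j.factorial_pos
  rw [div_le_iff₀ hf, mul_pow] at h1
  rw [div_mul_eq_mul_div, le_div_iff₀ (by positivity)]
  linarith

/-- A function on `Ioi 2` dominated by `C |v|^j e^{-c y}`. -/
theorem int_of_height {c C b : ℝ} (hc : 0 < c) (j : ℕ) {f : ℝ → ℂ} (hf : Continuous f)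
    (h : ∀ y, 2 < y → ‖f y‖ ≤ √(b ^ 2 + y ^ 2) ^ j * (C * Real.exp (-(c * y)))) (hC : 0 ≤ C) :
    IntegrableOn f (Ioi 2) := by
  have h0 : IntegrableOn (fun y : ℝ => Real.exp (-(c / 2) * y)) (Ioi 2) :=
    integrableOn_exp_mul_Ioi (by linarith) 2
  set D : ℝ := C * (√(1 + b ^ 2 / 4) ^ j * (j.factorial / (c / 2) ^ j)) with hD
  have h1 : IntegrableOn (fun y : ℝ => D * Real.exp (-(c / 2) * y)) (Ioi 2) := h0.const_mul D
  refine Integrable.mono' h1 hf.aestronglyMeasurable ?_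
  refine (ae_restrict_iff' measurableSet_Ioi).2 (Filter.Eventually.of_forall fun y hy => ?_)
  have hy2 : 2 < y := hy
  refine (h y hy2).trans ?_
  have h2 : √(b ^ 2 + y ^ 2) ≤ y * √(1 + b ^ 2 / 4) := by
    refine Real.sqrt_le_iff.2 ⟨by positivity, ?_⟩
    rw [mul_pow, Real.sq_sqrt (by positivity)]
    have : 4 ≤ y ^ 2 := by nlinarith
    nlinarith [sq_nonneg b]
  have h3 := pow_le_C_exp (c := c / 2) (by linarith) j (y := y) (by linarith)
  have h4 : √(b ^ 2 + y ^ 2) ^ j ≤ (j.factorial / (c / 2) ^ j) * Real.exp (c / 2 * y) * √(1 + b ^ 2 / 4) ^ j := by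
    calc √(b ^ 2 + y ^ 2) ^ j ≤ (y * √(1 + b ^ 2 / 4)) ^ j := pow_le_pow_left₀ (Real.sqrt_nonneg _) h2 j
      _ = y ^ j * √(1 + b ^ 2 / 4) ^ j := mul_pow _ _ _
      _ ≤ _ := mul_le_mul_of_nonneg_right h3 (by positivity)
  refine (mul_le_mul_of_nonneg_right h4 (mul_nonneg hC (Real.exp_nonneg _))).trans (le_of_eq ?_)
  have e : Real.exp (-(c / 2) * y) = Real.exp (c / 2 * y) * Real.exp (-(c * y)) := by
    rw [← Real.exp_add]
    congr 1
    ring
  rw [e, hD]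
  ring

theorem norm_Wt_L (δ a s b : ℝ) (j : ℕ) (y : ℝ) :
    ‖Wt δ (-a + s * I) j (-b) (-y)‖ = √(b ^ 2 + y ^ 2) ^ j * Real.exp (-Ht (-a) s (-b) (-y) / δ) := by
  have h := norm_Wt δ (-a) s j (-b) (-y)
  rw [neg_sq, neg_sq] at h
  rw [← h]
  push_cast
  rfl

theorem liftL_int {δ a s b : ℝ} (hδ : 0 < δ) (hs : 0 < s) (ha : 0 ≤ a) (hb : 0 < b) (j : ℕ) :
    IntegrableOn (fun y => Wt δ (-a + s * I) j (-b) (-y)) (Ioi 2) := by
  refine int_of_height (c := b / δ) (C := Real.exp (s * b ^ 2 / 2 / δ)) (b := b) (div_pos hb hδ) j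
    ?_ (fun y hy => ?_) (Real.exp_nonneg _)
  · have h := continuous_Wt_y δ (-a + s * I) j (-b)
    have h2 := h.comp continuous_neg
    convert h2 using 2
    simp [Function.comp]
  · rw [norm_Wt_L]
    refine mul_le_mul_of_nonneg_left ?_ (by positivity)
    rw [← Real.exp_add]
    refine Real.exp_le_exp.2 ?_
    have h1 := ht_L_lift hs ha hb.le hy.le
    have h2 : 0 ≤ s * Real.exp (-b) * (1 - Real.cos y) :=
      mul_nonneg (by positivity) (by linarith [Real.cos_le_one y])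
    have h3 : s * b ^ 2 / 2 / δ + -(b / δ * y) = (s * b ^ 2 / 2 - b * y) / δ := by ring
    rw [h3]
    refine div_le_div_of_nonneg_right ?_ hδ.le
    linarith

theorem liftL_gen {δ a s b : ℝ} (hδ : 0 < δ) (hb : 0 < b) (hδb : δ < 3 * b) (ha : 0 ≤ a) (hs : 0 < s)
    {j : ℕ} (hj : j ≤ 2) :
    ‖∫ y in Ioi (2 : ℝ), Wt δ (-a + s * I) j (-b) (-y)‖ ≤
      (2 * Real.pi * √(1 + b ^ 2 / 4)) ^ j * (1 - Real.exp (j - 2 * Real.pi * b / δ))⁻¹ *
        (Real.exp (-((2 * Real.pi * b - s * b ^ 2 / 2 - b ^ 2 * Real.exp b / (8 / 5 * s)) / δ)) *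
          √(5 / 2 * Real.pi) * √(δ / s) * Real.exp (b / 2) +
          2 * Real.pi * Real.exp (-((2 * b + s * (Real.exp (-b) - b ^ 2 / 2)) / δ))) := by
  have hp := Real.pi_pos
  have hp3 := Real.pi_gt_three
  have hj' : (j : ℝ) ≤ 2 := by exact_mod_cast hj
  have hj0 : (0 : ℝ) ≤ j := Nat.cast_nonneg j
  set β : ℝ := b - j * δ / (2 * Real.pi) with hβd
  have hβ : 0 < β := by
    rw [hβd, sub_pos, div_lt_iff₀ (by positivity)]
    nlinarith
  have hβb : β ≤ b := by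
    rw [hβd]
    have : 0 ≤ j * δ / (2 * Real.pi) := by positivity
    linarith
  set X : ℝ := s * Real.exp (-b) with hXd
  have hX : 0 < X := mul_pos hs (Real.exp_pos _)
  obtain ⟨hi, hle⟩ := lift0 hβ hX hδ fun t ht => one_sub_cos_half ht
  set K : ℝ := (2 * Real.pi * √(1 + b ^ 2 / 4)) ^ j * Real.exp (-j + s * b ^ 2 / 2 / δ) with hK
  have hK0 : 0 ≤ K := by positivity
  have hpt : ∀ y ∈ Ioi (2 : ℝ), ‖Wt δ (-a + s * I) j (-b) (-y)‖ ≤
      K * Real.exp (-(β * y + X * (1 - Real.cos y)) / δ) := by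
    intro y hy
    have hy2 : 2 < y := hy
    rw [norm_Wt_L]
    have h1 := ht_L_lift hs ha hb.le hy2.le
    have h2 : Real.exp (-Ht (-a) s (-b) (-y) / δ) ≤
        Real.exp (-(b * y - s * b ^ 2 / 2 + s * Real.exp (-b) * (1 - Real.cos y)) / δ) := by
      refine Real.exp_le_exp.2 (div_le_div_of_nonneg_right ?_ hδ.le)
      linarith
    refine (mul_le_mul (sqrt_pow_le hy2.le j) h2 (Real.exp_nonneg _) (by positivity)).trans (le_of_eq ?_)
    rw [hK]
    generalize (2 * Real.pi * √(1 + b ^ 2 / 4)) ^ j = B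
    have e0 : ∀ x1 x2 x3 x4 : ℝ, x1 + x2 = x3 + x4 → B * Real.exp x1 * Real.exp x2 = B * Real.exp x3 * Real.exp x4 := by
      intro x1 x2 x3 x4 h
      rw [mul_assoc, mul_assoc, ← Real.exp_add, ← Real.exp_add, h]
    refine e0 _ _ _ _ ?_
    rw [hβd, hXd]
    field_simp
    ring
  have hn : ‖∫ y in Ioi (2 : ℝ), Wt δ (-a + s * I) j (-b) (-y)‖ ≤
      K * ∫ y in Ioi (2 : ℝ), Real.exp (-(β * y + X * (1 - Real.cos y)) / δ) := by
    rw [← MeasureTheory.integral_const_mul]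
    refine (norm_integral_le_integral_norm _).trans ?_
    refine setIntegral_mono_on (liftL_int hδ hs ha hb j).norm (hi.const_mul K) measurableSet_Ioi hpt
  refine hn.trans ((mul_le_mul_of_nonneg_left hle hK0).trans ?_)
  have hβ2 : -(2 * Real.pi * β / δ) = j - 2 * Real.pi * b / δ := by
    rw [hβd]
    field_simp
    ring
  rw [hβ2]
  have hq : Real.exp (j - 2 * Real.pi * b / δ) < 1 := by
    rw [Real.exp_lt_one_iff, ← hβ2]
    have : 0 < 2 * Real.pi * β / δ := by positivity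
    linarith
  have hq' : 0 < 1 - Real.exp (j - 2 * Real.pi * b / δ) := by linarith
  rw [hK]
  have e1 : √(Real.pi * δ / (2 / 5 * X)) = √(5 / 2 * Real.pi) * √(δ / s) * Real.exp (b / 2) := by
    rw [← Real.sqrt_mul (by positivity)]
    have : Real.exp (b / 2) = √(Real.exp b) := by
      rw [Real.sqrt_eq_rpow, ← Real.exp_mul]
      congr 1
      ring
    rw [this, ← Real.sqrt_mul (by positivity)]
    congr 1
    rw [hXd, Real.exp_neg]
    field_simp
  rw [e1]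
  have e2 : Real.exp (-j + s * b ^ 2 / 2 / δ) * (Real.exp (j - 2 * Real.pi * b / δ + β ^ 2 / (8 / 5 * X * δ))) ≤
      Real.exp (-((2 * Real.pi * b - s * b ^ 2 / 2 - b ^ 2 * Real.exp b / (8 / 5 * s)) / δ)) := by
    rw [← Real.exp_add]
    refine Real.exp_le_exp.2 ?_
    have h1 : β ^ 2 / (8 / 5 * X * δ) ≤ b ^ 2 * Real.exp b / (8 / 5 * s) / δ := by
      have h2 : b ^ 2 * Real.exp b / (8 / 5 * s) / δ = b ^ 2 / (8 / 5 * X * δ) := by
        rw [hXd, Real.exp_neg]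
        field_simp
      rw [h2]
      refine div_le_div_of_nonneg_right ?_ (by positivity)
      exact pow_le_pow_left₀ hβ.le hβb 2
    have h3 : -((2 * Real.pi * b - s * b ^ 2 / 2 - b ^ 2 * Real.exp b / (8 / 5 * s)) / δ) =
        -(2 * Real.pi * b / δ) + s * b ^ 2 / 2 / δ + b ^ 2 * Real.exp b / (8 / 5 * s) / δ := by ring
    rw [h3]
    linarith
  have e3 : Real.exp (-j + s * b ^ 2 / 2 / δ) * Real.exp (-((2 * β + X) / δ)) ≤
      Real.exp (-((2 * b + s * (Real.exp (-b) - b ^ 2 / 2)) / δ)) := by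
    rw [← Real.exp_add]
    refine Real.exp_le_exp.2 ?_
    have h1 : -((2 * β + X) / δ) = -((2 * b + X) / δ) + j / Real.pi := by
      rw [hβd]
      field_simp
      ring
    have h2 : (j : ℝ) / Real.pi ≤ j := by
      rw [div_le_iff₀ hp]
      nlinarith
    rw [h1]
    have h3 : -((2 * b + s * (Real.exp (-b) - b ^ 2 / 2)) / δ) = -((2 * b + X) / δ) + s * b ^ 2 / 2 / δ := by
      rw [hXd]
      ring
    rw [h3]
    linarith
  have hA : 0 ≤ (2 * Real.pi * √(1 + b ^ 2 / 4)) ^ j * (1 - Real.exp (j - 2 * Real.pi * b / δ))⁻¹ :=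
    mul_nonneg (by positivity) (inv_nonneg.2 hq'.le)
  calc (2 * Real.pi * √(1 + b ^ 2 / 4)) ^ j * Real.exp (-j + s * b ^ 2 / 2 / δ) *
        ((1 - Real.exp (j - 2 * Real.pi * b / δ))⁻¹ *
          (Real.exp (j - 2 * Real.pi * b / δ + β ^ 2 / (8 / 5 * X * δ)) *
            (√(5 / 2 * Real.pi) * √(δ / s) * Real.exp (b / 2)) + 2 * Real.pi * Real.exp (-((2 * β + X) / δ))))
      = (2 * Real.pi * √(1 + b ^ 2 / 4)) ^ j * (1 - Real.exp (j - 2 * Real.pi * b / δ))⁻¹ *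
        ((Real.exp (-j + s * b ^ 2 / 2 / δ) * Real.exp (j - 2 * Real.pi * b / δ + β ^ 2 / (8 / 5 * X * δ))) *
            (√(5 / 2 * Real.pi) * √(δ / s) * Real.exp (b / 2)) +
          2 * Real.pi * (Real.exp (-j + s * b ^ 2 / 2 / δ) * Real.exp (-((2 * β + X) / δ)))) := by ring
    _ ≤ (2 * Real.pi * √(1 + b ^ 2 / 4)) ^ j * (1 - Real.exp (j - 2 * Real.pi * b / δ))⁻¹ *
        (Real.exp (-((2 * Real.pi * b - s * b ^ 2 / 2 - b ^ 2 * Real.exp b / (8 / 5 * s)) / δ)) *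
            (√(5 / 2 * Real.pi) * √(δ / s) * Real.exp (b / 2)) +
          2 * Real.pi * Real.exp (-((2 * b + s * (Real.exp (-b) - b ^ 2 / 2)) / δ))) := by
        refine mul_le_mul_of_nonneg_left (add_le_add ?_ ?_) hA
        · exact mul_le_mul_of_nonneg_right e2 (by positivity)
        · exact mul_le_mul_of_nonneg_left e3 (by positivity)
    _ = _ := by ring

end SokalN1
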