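import Pool.Agent.Lib_MP_af4de1_f1.N1LL

/-!
# N = 1, large `rho`: the lifts on the path L, numbers

`b = 5/rho`.  A: `rho ≤ 13`, `δ ≤ 10 rho/499`: exponent
`≥ 49.9 (10π - 12.5 s/rho - 15.625 e^b/(s rho))/rho² ≥ 49.9 (31.41 - 12.96)/169 ≥ 5.447`,
`e^{-5.447} √(5π/2) e^{5/16} ≤ .0166`; last term: `(2b + s(e^{-b} - b²/2))/δ ≥ 49.9 (10/rho² + .34 (rho - 2π)/rho)
≥ 49.9 * .2259 ≥ 11.2`.  C: `rho ≥ 13`, `δ rho ≤ 7.2552`, `s ≥ rho - 2π ≥ 6.71`: exponent
`≥ (10π - 12.5 - .264)/7.2552 ≥ 2.5707`, `e^{-2.5707} √(5π/2) e^{5/26} ≤ .2599`, `2πb/δ ≥ 4.3301`; last term: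
`s/δ ≥ 25.7`, `e^{-b} - b²/2 ≥ .6`.
-/

set_option autoImplicit false

namespace SokalN1

open Complex Set MeasureTheory

private theorem exp_low (n : ℕ) {t : ℝ} (ht : 0 ≤ t) :
    (2718 / 1000 : ℝ) ^ n * (1 + t + t ^ 2 / 2) ≤ Real.exp (n + t) := by
  rw [Real.exp_add, ← Real.exp_one_pow]
  have h1 := Real.exp_one_gt_d9
  have h2 : (2718 / 1000 : ℝ) ^ n ≤ Real.exp 1 ^ n :=
    pow_le_pow_left₀ (by norm_num) (by linarith) n
  exact mul_le_mul h2 (Real.quadratic_le_exp_of_nonneg ht) (by positivity) (by positivity)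

/-- `(1 - e^(-P))⁻¹ ≤ M/(M - 1)` if `e^P ≥ M` -/
private theorem geo {u M : ℝ} (hM : 1 < M) (h : M ≤ Real.exp (-u)) :
    0 < 1 - Real.exp u ∧ (1 - Real.exp u)⁻¹ ≤ M / (M - 1) := by
  have h1 : Real.exp u ≤ 1 / M := by
    have h2 : Real.exp u = 1 / Real.exp (-u) := by rw [Real.exp_neg, one_div, inv_inv]
    rw [h2]
    exact one_div_le_one_div_of_le (by linarith) h
  have h3 : 1 / M < 1 := by
    rw [div_lt_one (by linarith)]
    exact hM
  have h4 : 0 < 1 - Real.exp u := by linarith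
  refine ⟨h4, ?_⟩
  rw [inv_le_comm₀ h4 (by apply div_pos <;> linarith), inv_div]
  have h5 : (M - 1) / M = 1 - 1 / M := by
    rw [sub_div, div_self (by linarith)]
  rw [h5]
  linarith

private theorem fin {δ s b P E1 E2 Q Qj qj t1 t2 R x : ℝ} {j : ℕ}
    (h : x ≤ Q ^ j * (1 - Real.exp (j - P))⁻¹ * (Real.exp (-E1) * √(5 / 2 * Real.pi) * √(δ / s) *
      Real.exp (b / 2) + 2 * Real.pi * Real.exp (-E2)))
    (hQ0 : 0 ≤ Q) (hQ : Q ^ j ≤ Qj)
    (hq : 0 < 1 - Real.exp (j - P) ∧ (1 - Real.exp (j - P))⁻¹ ≤ qj)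
    (h1 : Real.exp (-E1) * √(5 / 2 * Real.pi) * Real.exp (b / 2) ≤ t1)
    (h2 : 2 * Real.pi * Real.exp (-E2) ≤ t2 * √(δ / s)) (ht : 0 ≤ t1 + t2)
    (hR : Qj * qj * (t1 + t2) ≤ R) : x ≤ R * √(δ / s) := by
  have hr : 0 ≤ √(δ / s) := Real.sqrt_nonneg _
  have e1 : Real.exp (-E1) * √(5 / 2 * Real.pi) * √(δ / s) * Real.exp (b / 2) +
      2 * Real.pi * Real.exp (-E2) ≤ (t1 + t2) * √(δ / s) := by
    have := mul_le_mul_of_nonneg_right h1 hr
    linarith
  have e0 : 0 ≤ Q ^ j := pow_nonneg hQ0 j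
  have e3 : 0 ≤ (1 - Real.exp (j - P))⁻¹ := inv_nonneg.2 hq.1.le
  have e2 : Q ^ j * (1 - Real.exp (j - P))⁻¹ ≤ Qj * qj :=
    mul_le_mul hQ hq.2 e3 (e0.trans hQ)
  refine h.trans ((mul_le_mul_of_nonneg_left e1 (mul_nonneg e0 e3)).trans ?_)
  have e4 : 0 ≤ (t1 + t2) * √(δ / s) := mul_nonneg ht hr
  refine (mul_le_mul_of_nonneg_right e2 e4).trans ?_
  rw [← mul_assoc]
  exact mul_le_mul_of_nonneg_right hR hr

private theorem sqrt_5pi : √(5 / 2 * Real.pi) ≤ 2803 / 1000 := by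
  rw [Real.sqrt_le_left (by norm_num)]
  have := Real.pi_lt_d4
  norm_num
  linarith

/-- the last term -/
private theorem last_term {δ s E2 t2 L : ℝ} (hδ : 0 < δ) (hs : 0 < s)
    (hE : L ≤ E2 - s / δ / 32 + 1 / 2) (hL : 8 * Real.pi * Real.exp (-L) ≤ t2) :
    2 * Real.pi * Real.exp (-E2) ≤ t2 * √(δ / s) := by
  set z : ℝ := s / δ with hz
  have hz0 : 0 < z := by positivity
  have e1 : √(δ / s) * √z = 1 := by
    rw [← Real.sqrt_mul (by positivity), hz]
    have : δ / s * (s / δ) = 1 := by field_simp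
    rw [this, Real.sqrt_one]
  have e2 : √z ≤ 4 * Real.exp (z / 32 - 1 / 2) := by
    apply Real.sqrt_le_iff.2
    refine ⟨by positivity, ?_⟩
    rw [mul_pow, ← Real.exp_nat_mul]
    have h1 := Real.add_one_le_exp (z / 16 - 1)
    have h2 : ((2 : ℕ) : ℝ) * (z / 32 - 1 / 2) = z / 16 - 1 := by push_cast; ring
    rw [h2]
    linarith
  have e3 : 1 ≤ 4 * Real.exp (z / 32 - 1 / 2) * √(δ / s) := by
    calc (1 : ℝ) = √z * √(δ / s) := by rw [mul_comm, e1]
      _ ≤ _ := mul_le_mul_of_nonneg_right e2 (Real.sqrt_nonneg _)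
  have e4 : 0 < 2 * Real.pi * Real.exp (-E2) := by positivity
  calc 2 * Real.pi * Real.exp (-E2) = 2 * Real.pi * Real.exp (-E2) * 1 := by ring
    _ ≤ 2 * Real.pi * Real.exp (-E2) * (4 * Real.exp (z / 32 - 1 / 2) * √(δ / s)) :=
        mul_le_mul_of_nonneg_left e3 e4.le
    _ = 8 * Real.pi * Real.exp (-(E2 - z / 32 + 1 / 2)) * √(δ / s) := by
        have : Real.exp (-(E2 - z / 32 + 1 / 2)) = Real.exp (-E2) * Real.exp (z / 32 - 1 / 2) := by
          rw [← Real.exp_add]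
          congr 1
          ring
        rw [this]
        ring
    _ ≤ 8 * Real.pi * Real.exp (-L) * √(δ / s) := by
        apply mul_le_mul_of_nonneg_right _ (Real.sqrt_nonneg _)
        apply mul_le_mul_of_nonneg_left _ (by positivity)
        exact Real.exp_le_exp.2 (by linarith)
    _ ≤ t2 * √(δ / s) := mul_le_mul_of_nonneg_right hL (Real.sqrt_nonneg _)

/-- the first exponent -/
private theorem first_exp {δ rho s N0 B0 : ℝ} (hδ : 0 < δ) (hr : 0 < rho) (hs : 0 < s) (hN : 0 ≤ N0)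
    (hB0 : δ * rho ≤ B0)
    (h : N0 ≤ 10 * Real.pi - 25 / 2 * s / rho - 125 / 8 * Real.exp (5 / rho) / (s * rho)) :
    N0 / B0 ≤ (2 * Real.pi * (5 / rho) - s * (5 / rho) ^ 2 / 2 -
      (5 / rho) ^ 2 * Real.exp (5 / rho) / (8 / 5 * s)) / δ := by
  have e1 : (2 * Real.pi * (5 / rho) - s * (5 / rho) ^ 2 / 2 -
      (5 / rho) ^ 2 * Real.exp (5 / rho) / (8 / 5 * s)) / δ =
      (10 * Real.pi - 25 / 2 * s / rho - 125 / 8 * Real.exp (5 / rho) / (s * rho)) / (δ * rho) := by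
    generalize Real.exp (5 / rho) = X
    field_simp
    ring
  rw [e1]
  exact div_le_div₀ (hN.trans h) h (by positivity) hB0

/-- the second exponent -/
private theorem second_exp {δ rho s c0 : ℝ} (hδ : 0 < δ) (hs : 0 < s)
    (hc : c0 ≤ Real.exp (-(5 / rho)) - (5 / rho) ^ 2 / 2) :
    (10 / rho + c0 * s) / δ ≤
      (2 * (5 / rho) + s * (Real.exp (-(5 / rho)) - (5 / rho) ^ 2 / 2)) / δ := by
  apply div_le_div_of_nonneg_right _ hδ.le
  have h1 := mul_le_mul_of_nonneg_left hc hs.le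
  have h2 : 2 * (5 / rho) = 10 / rho := by ring
  rw [h2]
  linarith

private theorem Q_le {b c : ℝ} (hc : 0 ≤ c) (h : 1 + b ^ 2 / 4 ≤ c ^ 2) :
    2 * Real.pi * √(1 + b ^ 2 / 4) ≤ 62832 / 10000 * c := by
  have h1 : √(1 + b ^ 2 / 4) ≤ c := Real.sqrt_le_iff.2 ⟨hc, h⟩
  have h2 := Real.pi_lt_d4
  have h3 : 2 * Real.pi ≤ 62832 / 10000 := by linarith
  exact mul_le_mul h3 h1 (Real.sqrt_nonneg _) (by norm_num)

theorem liftL_A {δ rho a s : ℝ} (hδ : 0 < δ) (h8 : 8 ≤ rho) (h13 : rho ≤ 13) (hz : 499 / 10 * δ ≤ rho)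
    (ha : 0 ≤ a) (hs : rho - 2 * Real.pi ≤ s) (hs1 : 2089 / 1000 ≤ s) (hs2 : s ≤ rho) :
    ‖∫ y in Ioi (2 : ℝ), Wt δ (-a + s * I) 0 (-(5 / rho)) (-y)‖ ≤ 18 / 1000 * √(δ / s) ∧
    ‖∫ y in Ioi (2 : ℝ), Wt δ (-a + s * I) 1 (-(5 / rho)) (-y)‖ ≤ 12 / 100 * √(δ / s) ∧
    ‖∫ y in Ioi (2 : ℝ), Wt δ (-a + s * I) 2 (-(5 / rho)) (-y)‖ ≤ 80 / 100 * √(δ / s) := by
  have hr : 0 < rho := by linarith
  have hs0 : 0 < s := by linarith
  have hpi := Real.pi_gt_d4
  have hpi2 := Real.pi_lt_d4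
  set b : ℝ := 5 / rho with hb
  have hb0 : 0 < b := by positivity
  have hb1 : b ≤ 5 / 8 := by
    rw [hb]
    exact div_le_div_of_nonneg_left (by norm_num) (by norm_num) h8
  have hb2 : 5 / 13 ≤ b := by
    rw [hb]
    exact div_le_div_of_nonneg_left (by norm_num) hr h13
  have hδ1 : δ ≤ 130 / 499 := by linarith
  have hδb : δ < 3 * b := by linarith
  have hexpb : Real.exp b ≤ 187 / 100 := (Real.exp_le_exp.2 hb1).trans exp_58
  -- the product
  have hprod : δ * rho ≤ 1690 / 499 := by nlinarith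
  have hP : 9 ≤ 2 * Real.pi * b / δ := by
    have e1 : 2 * Real.pi * b / δ = 10 * Real.pi / (δ * rho) := by rw [hb]; field_simp; ring
    rw [e1, le_div_iff₀ (by positivity)]
    nlinarith
  -- first exponent
  have hN : 18455 / 1000 ≤ 10 * Real.pi - 25 / 2 * s / rho - 125 / 8 * Real.exp (5 / rho) / (s * rho) := by
    rw [← hb]
    have e1 : 25 / 2 * s / rho + 125 / 8 * Real.exp b / (s * rho) ≤ 1296 / 100 := by
      have e2 : 25 / 2 * s / rho + 125 / 8 * Real.exp b / (s * rho) =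
          (25 / 2 * s ^ 2 + 125 / 8 * Real.exp b) / (s * rho) := by
        field_simp
      rw [e2, div_le_iff₀ (by positivity)]
      have e3 : 125 / 8 * Real.exp b ≤ 2922 / 100 := by linarith
      rcases le_total 8 s with h | h
      · nlinarith
      · nlinarith
    linarith
  have hE1 := first_exp hδ hr hs0 (by norm_num) hprod hN
  -- second exponent
  have hc : 339 / 1000 ≤ Real.exp (-(5 / rho)) - (5 / rho) ^ 2 / 2 := by
    rw [← hb]
    have e1 : 1 / (187 / 100) ≤ Real.exp (-b) := by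
      rw [Real.exp_neg, ← one_div]
      exact one_div_le_one_div_of_le (Real.exp_pos _) hexpb
    have e2 : b ^ 2 ≤ (5 / 8) ^ 2 := pow_le_pow_left₀ hb0.le hb1 2
    norm_num at e1 e2
    linarith
  have hE2 := second_exp hδ hs0 hc
  rw [← hb] at hE1 hE2
  set E1 : ℝ := (2 * Real.pi * b - s * b ^ 2 / 2 - b ^ 2 * Real.exp b / (8 / 5 * s)) / δ with hE1d
  set E2 : ℝ := (2 * b + s * (Real.exp (-b) - b ^ 2 / 2)) / δ with hE2d
  have t1 : Real.exp (-E1) * √(5 / 2 * Real.pi) * Real.exp (b / 2) ≤ 171 / 10000 := by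
    have e1 : Real.exp (-E1) * √(5 / 2 * Real.pi) * Real.exp (b / 2) =
        Real.exp (-(E1 - b / 2)) * √(5 / 2 * Real.pi) := by
      have : Real.exp (-(E1 - b / 2)) = Real.exp (-E1) * Real.exp (b / 2) := by
        rw [← Real.exp_add]
        congr 1
        ring
      rw [this]
      ring
    rw [e1]
    have e2 : (5107 / 1000 : ℝ) ≤ E1 - b / 2 := by
      norm_num at hE1
      linarith
    have e3 := exp_low 5 (t := 107 / 1000) (by norm_num)
    norm_num at e3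
    have e4 : Real.exp (-(E1 - b / 2)) ≤ 1 / 165 := by
      rw [Real.exp_neg, ← one_div]
      apply one_div_le_one_div_of_le (by norm_num)
      have e5 : Real.exp (5107 / 1000) ≤ Real.exp (E1 - b / 2) := Real.exp_le_exp.2 e2
      linarith
    calc Real.exp (-(E1 - b / 2)) * √(5 / 2 * Real.pi) ≤ 1 / 165 * (2803 / 1000) :=
          mul_le_mul e4 sqrt_5pi (Real.sqrt_nonneg _) (by norm_num)
      _ ≤ 171 / 10000 := by norm_num
  have t2 : 2 * Real.pi * Real.exp (-E2) ≤ 4 / 10000 * √(δ / s) := by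
    apply last_term (L := 11 + 1 / 10) hδ hs0
    · have e1 : (10 / rho + 339 / 1000 * s) / δ - s / δ / 32 ≥ 1065 / 100 := by
        have e2 : (10 / rho + 339 / 1000 * s) / δ - s / δ / 32 =
            (10 / rho + 30775 / 100000 * s) / δ := by ring
        rw [e2, ge_iff_le, le_div_iff₀ hδ]
        have e3 : (0 : ℝ) < 10 / rho := by positivity
        have e4 : 1065 / 100 * δ ≤ 1065 / 4990 * 1 * rho := by linarith
        refine e4.trans ?_
        have e5 : 1065 / 4990 * 1 * rho ≤ 10 / rho + 30775 / 100000 * (rho - 62832 / 10000) := by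
          rw [← sub_le_iff_le_add, le_div_iff₀ hr]
          nlinarith [sq_nonneg (rho - 10)]
        have e6 : rho - 62832 / 10000 ≤ s := by linarith
        linarith
      linarith
    · have e3 := exp_low 11 (t := 1 / 10) (by norm_num)
      norm_num at e3
      have e4 : Real.exp (-(11 + 1 / 10 : ℝ)) ≤ 1 / 63000 := by
        rw [Real.exp_neg, ← one_div]
        apply one_div_le_one_div_of_le (by norm_num)
        norm_num
        linarith
      have e5 : 8 * Real.pi * Real.exp (-(11 + 1 / 10 : ℝ)) ≤ 8 * (31416 / 10000) * (1 / 63000) :=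
        mul_le_mul (by linarith) e4 (Real.exp_pos _).le (by norm_num)
      refine e5.trans (by norm_num)
  have hQ0 : 0 ≤ 2 * Real.pi * √(1 + b ^ 2 / 4) := by positivity
  have hQ : 2 * Real.pi * √(1 + b ^ 2 / 4) ≤ 6584 / 1000 := by
    refine (Q_le (c := 10478 / 10000) (by norm_num) ?_).trans (by norm_num)
    have e2 : b ^ 2 ≤ (5 / 8) ^ 2 := pow_le_pow_left₀ hb0.le hb1 2
    norm_num at e2 ⊢
    linarith
  have hgeo : ∀ j : ℕ, j ≤ 2 → 0 < 1 - Real.exp (j - 2 * Real.pi * b / δ) ∧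
      (1 - Real.exp (j - 2 * Real.pi * b / δ))⁻¹ ≤ 1001 / (1001 - 1) := by
    intro j hj
    apply geo (by norm_num)
    have hj' : (j : ℝ) ≤ 2 := by exact_mod_cast hj
    have e3 := exp_low 7 (t := 0) le_rfl
    norm_num at e3
    have e5 : Real.exp 7 ≤ Real.exp (-((j : ℝ) - 2 * Real.pi * b / δ)) :=
      Real.exp_le_exp.2 (by linarith)
    linarith
  refine ⟨?_, ?_, ?_⟩
  · exact fin (j := 0) (liftL_gen hδ hb0 hδb ha hs0 (j := 0) (by norm_num)) hQ0 (le_refl _)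
      (hgeo 0 (by norm_num)) t1 t2 (by norm_num) (by norm_num)
  · have hQ1 : (2 * Real.pi * √(1 + b ^ 2 / 4)) ^ 1 ≤ 6584 / 1000 := by rwa [pow_one]
    exact fin (j := 1) (liftL_gen hδ hb0 hδb ha hs0 (j := 1) (by norm_num)) hQ0 hQ1
      (hgeo 1 (by norm_num)) t1 t2 (by norm_num) (by norm_num)
  · have hQ2 : (2 * Real.pi * √(1 + b ^ 2 / 4)) ^ 2 ≤ (6584 / 1000) ^ 2 := pow_le_pow_left₀ hQ0 hQ 2
    exact fin (j := 2) (liftL_gen hδ hb0 hδb ha hs0 (j := 2) (by norm_num)) hQ0 hQ2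
      (hgeo 2 (by norm_num)) t1 t2 (by norm_num) (by norm_num)

theorem liftL_C {δ rho a s : ℝ} (hδ : 0 < δ) (h13 : 13 ≤ rho) (hz : 499 / 10 * δ ≤ rho)
    (hl : δ * rho ≤ 72552 / 10000) (ha : 0 ≤ a) (hs : rho - 2 * Real.pi ≤ s) (hs2 : s ≤ rho) :
    ‖∫ y in Ioi (2 : ℝ), Wt δ (-a + s * I) 0 (-(5 / rho)) (-y)‖ ≤ 27 / 100 * √(δ / s) ∧
    ‖∫ y in Ioi (2 : ℝ), Wt δ (-a + s * I) 1 (-(5 / rho)) (-y)‖ ≤ 176 / 100 * √(δ / s) ∧
    ‖∫ y in Ioi (2 : ℝ), Wt δ (-a + s * I) 2 (-(5 / rho)) (-y)‖ ≤ 1210 / 100 * √(δ / s) := by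
  have hr : 0 < rho := by linarith
  have hpi := Real.pi_gt_d6
  have hpi2 := Real.pi_lt_d4
  have hs1 : 6716 / 1000 ≤ s := by linarith
  have hs0 : 0 < s := by linarith
  set b : ℝ := 5 / rho with hb
  have hb0 : 0 < b := by positivity
  have hb1 : b ≤ 5 / 13 := by
    rw [hb]
    exact div_le_div_of_nonneg_left (by norm_num) (by norm_num) h13
  have hδb : δ < 3 * b := by
    have e1 : 3 * b = 15 / rho := by rw [hb]; ring
    rw [e1, lt_div_iff₀ hr]
    linarith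
  have hexpb : Real.exp b ≤ 14697 / 10000 := by
    have e1 := exp_sub_C hb0.le hb1
    have e2 : b ^ 2 ≤ (5 / 13) ^ 2 := pow_le_pow_left₀ hb0.le hb1 2
    norm_num at e2
    linarith
  have hP : 433 / 100 ≤ 2 * Real.pi * b / δ := by
    have e1 : 2 * Real.pi * b / δ = 10 * Real.pi / (δ * rho) := by rw [hb]; field_simp; ring
    rw [e1, le_div_iff₀ (by positivity)]
    nlinarith
  -- first exponent
  have hN : 1865 / 100 ≤ 10 * Real.pi - 25 / 2 * s / rho - 125 / 8 * Real.exp (5 / rho) / (s * rho) := by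
    rw [← hb]
    have e1 : 25 / 2 * s / rho ≤ 25 / 2 := by
      rw [div_le_iff₀ hr]
      linarith
    have e2 : 125 / 8 * Real.exp b / (s * rho) ≤ 2635 / 10000 := by
      rw [div_le_iff₀ (by positivity)]
      have e3 : 6716 / 1000 * 13 ≤ s * rho := mul_le_mul hs1 h13 (by norm_num) hs0.le
      linarith
    linarith
  have hE1 := first_exp hδ hr hs0 (by norm_num) hl hN
  -- second exponent
  have hc : 6 / 10 ≤ Real.exp (-(5 / rho)) - (5 / rho) ^ 2 / 2 := by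
    rw [← hb]
    have e1 : 1 / (14697 / 10000) ≤ Real.exp (-b) := by
      rw [Real.exp_neg, ← one_div]
      exact one_div_le_one_div_of_le (Real.exp_pos _) hexpb
    have e2 : b ^ 2 ≤ (5 / 13) ^ 2 := pow_le_pow_left₀ hb0.le hb1 2
    norm_num at e1 e2
    linarith
  have hE2 := second_exp hδ hs0 hc
  rw [← hb] at hE1 hE2
  set E1 : ℝ := (2 * Real.pi * b - s * b ^ 2 / 2 - b ^ 2 * Real.exp b / (8 / 5 * s)) / δ with hE1d
  set E2 : ℝ := (2 * b + s * (Real.exp (-b) - b ^ 2 / 2)) / δ with hE2d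
  have t1 : Real.exp (-E1) * √(5 / 2 * Real.pi) * Real.exp (b / 2) ≤ 2627 / 10000 := by
    have e1 : Real.exp (-E1) * √(5 / 2 * Real.pi) * Real.exp (b / 2) =
        Real.exp (-(E1 - b / 2)) * √(5 / 2 * Real.pi) := by
      have : Real.exp (-(E1 - b / 2)) = Real.exp (-E1) * Real.exp (b / 2) := by
        rw [← Real.exp_add]
        congr 1
        ring
      rw [this]
      ring
    rw [e1]
    have e2 : (2375 / 1000 : ℝ) ≤ E1 - b / 2 := by
      norm_num at hE1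
      linarith
    have e3 := exp_low 2 (t := 375 / 1000) (by norm_num)
    norm_num at e3
    have e4 : Real.exp (-(E1 - b / 2)) ≤ 1 / (1067 / 100) := by
      rw [Real.exp_neg, ← one_div]
      apply one_div_le_one_div_of_le (by norm_num)
      have e5 : Real.exp (19 / 8) ≤ Real.exp (E1 - b / 2) := Real.exp_le_exp.2 (by linarith)
      linarith
    calc Real.exp (-(E1 - b / 2)) * √(5 / 2 * Real.pi) ≤ 1 / (1067 / 100) * (2803 / 1000) :=
          mul_le_mul e4 sqrt_5pi (Real.sqrt_nonneg _) (by norm_num)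
      _ ≤ 2627 / 10000 := by norm_num
  have hz1 : 257 / 10 ≤ s / δ := by
    rw [le_div_iff₀ hδ]
    linarith
  have t2 : 2 * Real.pi * Real.exp (-E2) ≤ 1 / 10000 * √(δ / s) := by
    apply last_term (L := 14) hδ hs0
    · have e2 : (10 / rho + 6 / 10 * s) / δ = 10 / rho / δ + 6 / 10 * (s / δ) := by ring
      have e3 : 0 < 10 / rho / δ := by positivity
      linarith
    · have e3 := exp_low 14 (t := 0) le_rfl
      norm_num at e3
      have e4 : Real.exp (-(14 : ℝ)) ≤ 1 / 1000000 := by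
        rw [Real.exp_neg, ← one_div]
        apply one_div_le_one_div_of_le (by norm_num)
        linarith
      have e5 : 8 * Real.pi * Real.exp (-(14 : ℝ)) ≤ 8 * (31416 / 10000) * (1 / 1000000) :=
        mul_le_mul (by linarith) e4 (Real.exp_pos _).le (by norm_num)
      refine e5.trans (by norm_num)
  have hQ0 : 0 ≤ 2 * Real.pi * √(1 + b ^ 2 / 4) := by positivity
  have hQ : 2 * Real.pi * √(1 + b ^ 2 / 4) ≤ 6399 / 1000 := by
    refine (Q_le (c := 10184 / 10000) (by norm_num) ?_).trans (by norm_num)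
    have e2 : b ^ 2 ≤ (5 / 13) ^ 2 := pow_le_pow_left₀ hb0.le hb1 2
    norm_num at e2 ⊢
    linarith
  have hX : (10 : ℝ) ≤ Real.exp (233 / 100) := by
    have e3 := exp_low 2 (t := 33 / 100) (by norm_num)
    norm_num at e3
    linarith
  have hX1 : (25 : ℝ) ≤ Real.exp (333 / 100) := by
    have e1 : (333 / 100 : ℝ) = 1 + 233 / 100 := by norm_num
    have e2 := Real.exp_one_gt_d9
    rw [e1, Real.exp_add]
    nlinarith [Real.exp_pos (233 / 100)]
  have hX2 : (60 : ℝ) ≤ Real.exp (433 / 100) := by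
    have e1 : (433 / 100 : ℝ) = 1 + 333 / 100 := by norm_num
    have e2 := Real.exp_one_gt_d9
    rw [e1, Real.exp_add]
    nlinarith [Real.exp_pos (333 / 100)]
  refine ⟨?_, ?_, ?_⟩
  · refine fin (j := 0) (qj := 60 / (60 - 1)) (liftL_gen hδ hb0 hδb ha hs0 (j := 0) (by norm_num)) hQ0
      (le_refl _) (geo (by norm_num) ?_) t1 t2 (by norm_num) (by norm_num)
    refine hX2.trans (Real.exp_le_exp.2 ?_)
    push_cast
    linarith
  · have hQ1 : (2 * Real.pi * √(1 + b ^ 2 / 4)) ^ 1 ≤ 6399 / 1000 := by rwa [pow_one]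
    refine fin (j := 1) (qj := 25 / (25 - 1)) (liftL_gen hδ hb0 hδb ha hs0 (j := 1) (by norm_num)) hQ0
      hQ1 (geo (by norm_num) ?_) t1 t2 (by norm_num) (by norm_num)
    refine hX1.trans (Real.exp_le_exp.2 ?_)
    push_cast
    linarith
  · have hQ2 : (2 * Real.pi * √(1 + b ^ 2 / 4)) ^ 2 ≤ (6399 / 1000) ^ 2 := pow_le_pow_left₀ hQ0 hQ 2
    refine fin (j := 2) (qj := 10 / (10 - 1)) (liftL_gen hδ hb0 hδb ha hs0 (j := 2) (by norm_num)) hQ0
      hQ2 (geo (by norm_num) ?_) t1 t2 (by norm_num) (by norm_num)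
    refine hX.trans (Real.exp_le_exp.2 ?_)
    push_cast
    linarith

end SokalN1
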