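import Pool.Agent.Lib_MP_af4de1_f1.N1T
import Pool.Agent.Lib_MP_af4de1_f1.N1L0
import Pool.Agent.Lib_MP_af4de1_f1.N1LL

/-!
# N = 1, large `rho`: the lifts on the path R

`Ht a s b y ≥ (b + a) y - c + s (1 - cos y)`, `c = a e^b + s (e^b - 1 - b)`; `lift0` with
`β = b + a - jδ/(2π)`, `X = s`.  Exponent: `2π(b + a) - c - (b + a)²/(1.6 s) ≥ 2πb - rho (e^b - 1 - b) - b²/(1.6 rho)`,
because `s ≤ rho e^a`, `e^a - 1 ≤ 1.371 a` and
`2π - e^b - 1.371 rho (e^b - 1 - b) - (2b + a)/(1.6 s) ≥ 6.28 - 1.87 - 2.68 - .15 > 0`.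
-/

set_option autoImplicit false

namespace SokalN1

open Complex Set MeasureTheory

theorem ht_R_lift {a s b y : ℝ} (hs : 0 < s) (ha : 0 ≤ a) (hb : 0 ≤ b) :
    (b + a) * y - (a * Real.exp b + s * (Real.exp b - 1 - b)) + s * (1 - Real.cos y) ≤ Ht a s b y := by
  unfold Ht
  have h1 : 0 ≤ a * Real.exp b * (1 - Real.sin y) :=
    mul_nonneg (mul_nonneg ha (Real.exp_nonneg _)) (by linarith [Real.sin_le_one y])
  have h2 : 0 ≤ s * ((Real.exp b - 1) * (1 - Real.cos y)) := by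
    refine mul_nonneg hs.le (mul_nonneg ?_ (by linarith [Real.cos_le_one y]))
    have := Real.add_one_le_exp b
    linarith
  nlinarith

theorem liftR_int {δ a s b : ℝ} (hδ : 0 < δ) (hs : 0 < s) (ha : 0 ≤ a) (hb : 0 < b) (j : ℕ) :
    IntegrableOn (fun y => Wt δ (a + s * I) j b y) (Ioi 2) := by
  refine int_of_height (c := b / δ) (C := Real.exp ((a * Real.exp b + s * (Real.exp b - 1 - b)) / δ)) (b := b)
    (div_pos hb hδ) j (continuous_Wt_y δ (a + s * I) j b) (fun y hy => ?_) (Real.exp_nonneg _)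
  rw [norm_Wt]
  refine mul_le_mul_of_nonneg_left ?_ (by positivity)
  rw [← Real.exp_add]
  refine Real.exp_le_exp.2 ?_
  have h1 := ht_R_lift (y := y) hs ha hb.le
  have h2 : 0 ≤ s * (1 - Real.cos y) := mul_nonneg hs.le (by linarith [Real.cos_le_one y])
  have h3 : (a * Real.exp b + s * (Real.exp b - 1 - b)) / δ + -(b / δ * y) =
      ((a * Real.exp b + s * (Real.exp b - 1 - b)) - b * y) / δ := by ring
  rw [h3]
  refine div_le_div_of_nonneg_right ?_ hδ.le
  have h4 : 0 ≤ a * y := mul_nonneg ha (by linarith)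
  linarith

theorem key_R {rho a s b : ℝ} (h8 : 8 ≤ rho) (hb0 : 0 < b) (hbr : b * rho = 5) (hb58 : b ≤ 5 / 8)
    (ha : 0 ≤ a) (ha2 : a ≤ 3 / 5) (hs : rho ≤ s) (hs2 : s ≤ rho * Real.exp a) :
    2 * Real.pi * b - rho * (Real.exp b - 1 - b) - b ^ 2 / (8 / 5 * rho) ≤
      2 * Real.pi * (b + a) - (a * Real.exp b + s * (Real.exp b - 1 - b)) - (b + a) ^ 2 / (8 / 5 * s) := by
  have hr0 : 0 < rho := by linarith
  have hs0 : 0 < s := by linarith
  have hexpb : Real.exp b ≤ 187 / 100 := (Real.exp_le_exp.2 hb58).trans exp_58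
  have hsub := exp_sub_A hb0.le hb58
  have hsub0 : 0 ≤ Real.exp b - 1 - b := by linarith [Real.add_one_le_exp b]
  have hea := exp_le_lin ha ha2
  have hsr : s - rho ≤ 1371 / 1000 * rho * a := by
    have : rho * (Real.exp a - 1) ≤ rho * (1371 / 1000 * a) := mul_le_mul_of_nonneg_left hea hr0.le
    linarith
  have k1 : (b + a) ^ 2 / (8 / 5 * s) ≤ (b + a) ^ 2 / (8 / 5 * rho) :=
    div_le_div_of_nonneg_left (by positivity) (by positivity) (by linarith)
  have k2 : (b + a) ^ 2 / (8 / 5 * rho) - b ^ 2 / (8 / 5 * rho) ≤ 3 / 20 * a := by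
    rw [← sub_div, div_le_iff₀ (by positivity)]
    have h1 : (b + a) ^ 2 - b ^ 2 = a * (2 * b + a) := by ring
    have h2 : 3 / 20 * a * (8 / 5 * rho) = a * (6 / 25 * rho) := by ring
    rw [h1, h2]
    refine mul_le_mul_of_nonneg_left ?_ ha
    linarith
  have k3 : (s - rho) * (Real.exp b - 1 - b) ≤ 268 / 100 * a := by
    have k4 : rho * (Real.exp b - 1 - b) ≤ 125 / 64 := by
      have : rho * (Real.exp b - 1 - b) ≤ rho * (5 / 8 * b ^ 2) := mul_le_mul_of_nonneg_left hsub hr0.le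
      have h5 : rho * (5 / 8 * b ^ 2) = 5 / 8 * 5 * b := by
        rw [← hbr]
        ring
      rw [h5] at this
      linarith
    calc (s - rho) * (Real.exp b - 1 - b) ≤ (1371 / 1000 * rho * a) * (Real.exp b - 1 - b) :=
          mul_le_mul_of_nonneg_right hsr hsub0
      _ = (1371 / 1000 * a) * (rho * (Real.exp b - 1 - b)) := by ring
      _ ≤ (1371 / 1000 * a) * (125 / 64) := mul_le_mul_of_nonneg_left k4 (by positivity)
      _ ≤ _ := by linarith
  have k5 : a * Real.exp b ≤ a * (187 / 100) := mul_le_mul_of_nonneg_left hexpb ha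
  have k6 : (s - rho) * (Real.exp b - 1 - b) = s * (Real.exp b - 1 - b) - rho * (Real.exp b - 1 - b) := by ring
  have k7 : 2 * 3.14 * a ≤ 2 * Real.pi * a := by
    have := Real.pi_gt_d2
    nlinarith
  have k8 : 2 * Real.pi * (b + a) = 2 * Real.pi * b + 2 * Real.pi * a := by ring
  linarith

theorem liftR_gen {δ rho a s b : ℝ} (hδ : 0 < δ) (h8 : 8 ≤ rho) (hδ2 : δ * rho ≤ 73 / 10) (hb : b = 5 / rho)
    (ha : 0 ≤ a) (ha2 : a ≤ 3 / 5) (hs : rho ≤ s) (hs2 : s ≤ rho * Real.exp a) {j : ℕ} (hj : j ≤ 2) :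
    ‖∫ y in Ioi (2 : ℝ), Wt δ (a + s * I) j b y‖ ≤
      (2 * Real.pi * √(1 + b ^ 2 / 4)) ^ j * (1 - Real.exp (j - 2 * Real.pi * b / δ))⁻¹ *
        (Real.exp (-((2 * Real.pi * b - rho * (Real.exp b - 1 - b) - b ^ 2 / (8 / 5 * rho)) / δ)) *
          √(5 / 2 * Real.pi) * √(δ / s) + 2 * Real.pi * Real.exp (-(3 / 4 * s / δ))) := by
  have hp := Real.pi_pos
  have hp3 := Real.pi_gt_three
  have hp4 := Real.pi_gt_d2
  have hr0 : 0 < rho := by linarith
  have hs0 : 0 < s := by linarith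
  have hb0 : 0 < b := by rw [hb]; positivity
  have hbr : b * rho = 5 := by rw [hb]; field_simp
  have hb58 : b ≤ 5 / 8 := by
    rw [hb]
    exact div_le_div_of_nonneg_left (by norm_num) (by norm_num) h8
  have hj' : (j : ℝ) ≤ 2 := by exact_mod_cast hj
  have hj0 : (0 : ℝ) ≤ j := Nat.cast_nonneg j
  have hδb : δ ≤ 73 / 50 * b := by
    have : δ * rho ≤ 73 / 50 * b * rho := by rw [mul_assoc, hbr]; linarith
    exact le_of_mul_le_mul_right this hr0
  have hjδ : (j : ℝ) * δ ≤ 3 * b := by nlinarith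
  set β : ℝ := b + a - j * δ / (2 * Real.pi) with hβd
  have hβb : 0 < b - j * δ / (2 * Real.pi) := by
    rw [sub_pos, div_lt_iff₀ (by positivity)]
    nlinarith
  have hβ : 0 < β := by
    rw [hβd]
    linarith
  have hβba : β ≤ b + a := by
    rw [hβd]
    have : 0 ≤ j * δ / (2 * Real.pi) := by positivity
    linarith
  obtain ⟨hi, hle⟩ := lift0 hβ hs0 hδ fun t ht => one_sub_cos_half ht
  set c : ℝ := a * Real.exp b + s * (Real.exp b - 1 - b) with hc
  set K : ℝ := (2 * Real.pi * √(1 + b ^ 2 / 4)) ^ j * Real.exp (-j + c / δ) with hK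
  have hK0 : 0 ≤ K := by positivity
  have hpt : ∀ y ∈ Ioi (2 : ℝ), ‖Wt δ (a + s * I) j b y‖ ≤
      K * Real.exp (-(β * y + s * (1 - Real.cos y)) / δ) := by
    intro y hy
    have hy2 : 2 < y := hy
    rw [norm_Wt]
    have h1 := ht_R_lift (y := y) hs0 ha hb0.le
    have h2 : Real.exp (-Ht a s b y / δ) ≤
        Real.exp (-((b + a) * y - c + s * (1 - Real.cos y)) / δ) := by
      refine Real.exp_le_exp.2 (div_le_div_of_nonneg_right ?_ hδ.le)
      linarith
    refine (mul_le_mul (sqrt_pow_le hy2.le j) h2 (Real.exp_nonneg _) (by positivity)).trans (le_of_eq ?_)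
    rw [hK]
    generalize (2 * Real.pi * √(1 + b ^ 2 / 4)) ^ j = B
    have e0 : ∀ x1 x2 x3 x4 : ℝ, x1 + x2 = x3 + x4 → B * Real.exp x1 * Real.exp x2 = B * Real.exp x3 * Real.exp x4 := by
      intro x1 x2 x3 x4 h
      rw [mul_assoc, mul_assoc, ← Real.exp_add, ← Real.exp_add, h]
    refine e0 _ _ _ _ ?_
    rw [hβd]
    field_simp
    ring
  have hn : ‖∫ y in Ioi (2 : ℝ), Wt δ (a + s * I) j b y‖ ≤
      K * ∫ y in Ioi (2 : ℝ), Real.exp (-(β * y + s * (1 - Real.cos y)) / δ) := by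
    rw [← MeasureTheory.integral_const_mul]
    refine (norm_integral_le_integral_norm _).trans ?_
    refine setIntegral_mono_on (liftR_int hδ hs0 ha hb0 j).norm (hi.const_mul K) measurableSet_Ioi hpt
  refine hn.trans ((mul_le_mul_of_nonneg_left hle hK0).trans ?_)
  have hβ2 : -(2 * Real.pi * β / δ) = j - 2 * Real.pi * (b + a) / δ := by
    rw [hβd]
    field_simp
    ring
  rw [hβ2]
  have hqq : (j : ℝ) - 2 * Real.pi * (b + a) / δ ≤ j - 2 * Real.pi * b / δ := by
    have : 2 * Real.pi * b / δ ≤ 2 * Real.pi * (b + a) / δ :=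
      div_le_div_of_nonneg_right (by nlinarith) hδ.le
    linarith
  have hq : Real.exp (j - 2 * Real.pi * b / δ) < 1 := by
    rw [Real.exp_lt_one_iff, sub_neg, lt_div_iff₀ hδ]
    nlinarith
  have hq' : 0 < 1 - Real.exp (j - 2 * Real.pi * b / δ) := by linarith
  have hq2 : (1 - Real.exp (j - 2 * Real.pi * (b + a) / δ))⁻¹ ≤ (1 - Real.exp (j - 2 * Real.pi * b / δ))⁻¹ :=
    inv_anti₀ hq' (by linarith [Real.exp_le_exp.2 hqq])
  rw [hK]
  have e1 : √(Real.pi * δ / (2 / 5 * s)) = √(5 / 2 * Real.pi) * √(δ / s) := by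
    rw [← Real.sqrt_mul (by positivity)]
    congr 1
    field_simp
  rw [e1]
  -- the exponent
  have hexpb : Real.exp b ≤ 187 / 100 := (Real.exp_le_exp.2 hb58).trans exp_58
  have hsub := exp_sub_A hb0.le hb58
  have hsub0 : 0 ≤ Real.exp b - 1 - b := by linarith [Real.add_one_le_exp b]
  have hea := exp_le_lin ha ha2
  have hsr : s - rho ≤ 1371 / 1000 * rho * a := by nlinarith
  have key : 2 * Real.pi * b - rho * (Real.exp b - 1 - b) - b ^ 2 / (8 / 5 * rho) ≤
      2 * Real.pi * (b + a) - c - (b + a) ^ 2 / (8 / 5 * s) := key_R h8 hb0 hbr hb58 ha ha2 hs hs2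
  have e2 : Real.exp (-j + c / δ) * (Real.exp (j - 2 * Real.pi * (b + a) / δ + β ^ 2 / (8 / 5 * s * δ))) ≤
      Real.exp (-((2 * Real.pi * b - rho * (Real.exp b - 1 - b) - b ^ 2 / (8 / 5 * rho)) / δ)) := by
    rw [← Real.exp_add]
    refine Real.exp_le_exp.2 ?_
    have h1 : β ^ 2 / (8 / 5 * s * δ) ≤ (b + a) ^ 2 / (8 / 5 * s) / δ := by
      rw [div_div]
      refine div_le_div_of_nonneg_right ?_ (by positivity)
      exact pow_le_pow_left₀ hβ.le hβba 2
    have h2 := div_le_div_of_nonneg_right key hδ.le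
    have h3 : (2 * Real.pi * (b + a) - c - (b + a) ^ 2 / (8 / 5 * s)) / δ =
        2 * Real.pi * (b + a) / δ - c / δ - (b + a) ^ 2 / (8 / 5 * s) / δ := by ring
    rw [h3] at h2
    linarith
  have e3 : Real.exp (-j + c / δ) * Real.exp (-((2 * β + s) / δ)) ≤ Real.exp (-(3 / 4 * s / δ)) := by
    rw [← Real.exp_add]
    refine Real.exp_le_exp.2 ?_
    have h1 : -((2 * β + s) / δ) = -((2 * (b + a) + s) / δ) + j / Real.pi := by
      rw [hβd]
      field_simp
      ring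
    have h2 : (j : ℝ) / Real.pi ≤ j := by
      rw [div_le_iff₀ hp]
      nlinarith
    rw [h1]
    have h3 : c - (2 * (b + a) + s) ≤ -(3 / 4 * s) := by
      rw [hc]
      have h4 : a * Real.exp b ≤ a * 2 := mul_le_mul_of_nonneg_left (by linarith) ha
      have h5 : s * (Real.exp b - 1 - b) ≤ s * (1 / 4) := by
        refine mul_le_mul_of_nonneg_left (hsub.trans ?_) hs0.le
        have h6 : b ^ 2 ≤ (5 / 8) ^ 2 := pow_le_pow_left₀ hb0.le hb58 2
        linarith
      linarith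
    have h4 := div_le_div_of_nonneg_right h3 hδ.le
    have h5 : (c - (2 * (b + a) + s)) / δ = c / δ - (2 * (b + a) + s) / δ := by ring
    have h6 : -(3 / 4 * s) / δ = -(3 / 4 * s / δ) := by ring
    rw [h5, h6] at h4
    linarith
  have hA : 0 ≤ (2 * Real.pi * √(1 + b ^ 2 / 4)) ^ j * (1 - Real.exp (j - 2 * Real.pi * b / δ))⁻¹ :=
    mul_nonneg (by positivity) (inv_nonneg.2 hq'.le)
  calc (2 * Real.pi * √(1 + b ^ 2 / 4)) ^ j * Real.exp (-j + c / δ) *
        ((1 - Real.exp (j - 2 * Real.pi * (b + a) / δ))⁻¹ *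
          (Real.exp (j - 2 * Real.pi * (b + a) / δ + β ^ 2 / (8 / 5 * s * δ)) *
            (√(5 / 2 * Real.pi) * √(δ / s)) + 2 * Real.pi * Real.exp (-((2 * β + s) / δ))))
      ≤ (2 * Real.pi * √(1 + b ^ 2 / 4)) ^ j * Real.exp (-j + c / δ) *
        ((1 - Real.exp (j - 2 * Real.pi * b / δ))⁻¹ *
          (Real.exp (j - 2 * Real.pi * (b + a) / δ + β ^ 2 / (8 / 5 * s * δ)) *
            (√(5 / 2 * Real.pi) * √(δ / s)) + 2 * Real.pi * Real.exp (-((2 * β + s) / δ)))) := by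
        refine mul_le_mul_of_nonneg_left (mul_le_mul_of_nonneg_right hq2 (by positivity)) (by positivity)
    _ = (2 * Real.pi * √(1 + b ^ 2 / 4)) ^ j * (1 - Real.exp (j - 2 * Real.pi * b / δ))⁻¹ *
        ((Real.exp (-j + c / δ) * Real.exp (j - 2 * Real.pi * (b + a) / δ + β ^ 2 / (8 / 5 * s * δ))) *
            (√(5 / 2 * Real.pi) * √(δ / s)) +
          2 * Real.pi * (Real.exp (-j + c / δ) * Real.exp (-((2 * β + s) / δ)))) := by ring
    _ ≤ (2 * Real.pi * √(1 + b ^ 2 / 4)) ^ j * (1 - Real.exp (j - 2 * Real.pi * b / δ))⁻¹ *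
        (Real.exp (-((2 * Real.pi * b - rho * (Real.exp b - 1 - b) - b ^ 2 / (8 / 5 * rho)) / δ)) *
            (√(5 / 2 * Real.pi) * √(δ / s)) + 2 * Real.pi * Real.exp (-(3 / 4 * s / δ))) := by
        refine mul_le_mul_of_nonneg_left (add_le_add ?_ ?_) hA
        · exact mul_le_mul_of_nonneg_right e2 (by positivity)
        · exact mul_le_mul_of_nonneg_left e3 (by positivity)
    _ = _ := by ring

end SokalN1
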