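import Pool.Agent.Lib_MP_af4de1_f1.N1LR

/-!
# N = 1, large `rho`: the lifts on the path R, numbers

`b = 5/rho`.  A: `rho ≤ 13`, `δ ≤ 10 rho/499`: exponent `≥ 49.9 (10π - 15.625 - 15.625/64)/169 ≥ 4.59`,
`e^{-4.59} √(5π/2) ≤ .0285`.  C: `rho ≥ 13`, `δ rho ≤ 7.2552`: exponent `≥ (10π - 14.375 - .0925)/7.2552 ≥ 2.3359`,
`e^{-2.3359} √(5π/2) ≤ .2711`, `2πb/δ ≥ 4.3301`.
-/

set_option autoImplicit false

namespace SokalN1

open Complex Set MeasureTheory

/-- numerical upper bounds of `exp` at negative points -/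
private theorem lrn_exp {x f r : ℝ} (n : ℕ) (hx : x ≤ -(n + f)) (hf : 0 ≤ f) (hr : 0 < r)
    (h : 1 ≤ r * ((27182818283 / 10000000000) ^ n * (1 + f + f ^ 2 / 2 + f ^ 3 / 6 + f ^ 4 / 24))) :
    Real.exp x ≤ r := by
  have h1 : (27182818283 / 10000000000 : ℝ) < Real.exp 1 := by
    have := Real.exp_one_gt_d9
    norm_num at this ⊢
    exact this
  have h2 : (27182818283 / 10000000000 : ℝ) ^ n ≤ Real.exp n := by
    have : Real.exp n = Real.exp 1 ^ n := by
      rw [← Real.exp_nat_mul, mul_one]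
    rw [this]
    exact pow_le_pow_left₀ (by norm_num) h1.le n
  have h3 : 1 + f + f ^ 2 / 2 + f ^ 3 / 6 + f ^ 4 / 24 ≤ Real.exp f := by
    have := Real.sum_le_exp_of_nonneg hf 5
    simp only [Finset.sum_range_succ, Finset.sum_range_zero, Nat.factorial] at this
    norm_num at this
    linarith
  have h4 : (27182818283 / 10000000000) ^ n * (1 + f + f ^ 2 / 2 + f ^ 3 / 6 + f ^ 4 / 24) ≤
      Real.exp (n + f) := by
    rw [Real.exp_add]
    exact mul_le_mul h2 h3 (by positivity) (Real.exp_pos _).le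
  have h5 : 1 ≤ r * Real.exp (n + f) := h.trans (mul_le_mul_of_nonneg_left h4 hr.le)
  calc Real.exp x ≤ Real.exp (-(n + f)) := Real.exp_le_exp.2 hx
    _ = (Real.exp (n + f))⁻¹ := Real.exp_neg _
    _ ≤ r := by
        rw [inv_le_iff_one_le_mul₀ (Real.exp_pos _)]
        exact h5

private theorem lrn_tiny {δ s : ℝ} (hδ : 0 < δ) (hs : 0 < s) (hz : 48 ≤ s / δ) :
    2 * Real.pi * Real.exp (-(3 / 4 * s / δ)) ≤ 1 / 100000 * √(δ / s) := by
  obtain ⟨z, hzd⟩ : ∃ z, z = s / δ := ⟨_, rfl⟩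
  rw [← hzd] at hz
  have hz0 : 0 < z := by linarith
  have e1 : δ / s = z⁻¹ := by rw [hzd, inv_div]
  have e2 : 3 / 4 * s / δ = 3 / 4 * z := by rw [hzd]; ring
  rw [e1, e2]
  have h1 : z⁻¹ ≤ √(z⁻¹) := by
    apply Real.le_sqrt_of_sq_le
    have h2 : z⁻¹ ≤ 1 := inv_le_one_of_one_le₀ (by linarith)
    have h3 : 0 ≤ z⁻¹ := (inv_pos.2 hz0).le
    nlinarith
  have h4 : z / 4 ≤ Real.exp (z / 4) := by
    have := Real.add_one_le_exp (z / 4)
    linarith
  have h5 : Real.exp (-(3 / 4 * z)) = Real.exp (-(z / 2)) * (Real.exp (z / 4))⁻¹ := by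
    rw [← Real.exp_neg, ← Real.exp_add]
    congr 1
    ring
  have h6 : Real.exp (-(z / 2)) ≤ 1 / 10000000 := by
    refine lrn_exp 24 (f := 0) ?_ le_rfl (by norm_num) ?_
    · push_cast
      linarith
    · norm_num
  have h7 : (Real.exp (z / 4))⁻¹ ≤ 4 * z⁻¹ := by
    have : (Real.exp (z / 4))⁻¹ ≤ (z / 4)⁻¹ := inv_anti₀ (by positivity) h4
    refine this.trans (le_of_eq ?_)
    rw [inv_div]
    ring
  have hpi := Real.pi_lt_four
  have hpi0 := Real.pi_pos
  calc 2 * Real.pi * Real.exp (-(3 / 4 * z)) ≤ 2 * 4 * (1 / 10000000 * (4 * z⁻¹)) := by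
        rw [h5]
        refine mul_le_mul (by linarith) (mul_le_mul h6 h7 (by positivity) (by norm_num))
          (by positivity) (by norm_num)
    _ ≤ 1 / 100000 * z⁻¹ := by
        have : 0 < z⁻¹ := inv_pos.2 hz0
        linarith
    _ ≤ 1 / 100000 * √(z⁻¹) := mul_le_mul_of_nonneg_left h1 (by norm_num)

private theorem lrn_fin {B B0 q q0 X G w Y L R5 : ℝ} (j : ℕ) (hB : 0 ≤ B) (hB0 : B ≤ B0)
    (hq : q ≤ q0) (hq0 : q0 < 1) (hX : X * R5 ≤ G) (hw : 0 ≤ w)
    (hY : Y ≤ 1 / 100000 * w) (h0 : 0 ≤ X * R5 * w + Y)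
    (hL : B0 ^ j * (1 - q0)⁻¹ * (G + 1 / 100000) ≤ L) :
    B ^ j * (1 - q)⁻¹ * (X * R5 * w + Y) ≤ L * w := by
  have h1 : B ^ j ≤ B0 ^ j := pow_le_pow_left₀ hB hB0 j
  have h2 : (1 - q)⁻¹ ≤ (1 - q0)⁻¹ := inv_anti₀ (by linarith) (by linarith)
  have h3 : 0 ≤ (1 - q0)⁻¹ := inv_nonneg.2 (by linarith)
  have h4 : 0 ≤ (1 - q)⁻¹ := inv_nonneg.2 (by linarith)
  have h5 : X * R5 * w + Y ≤ (G + 1 / 100000) * w := by
    have := mul_le_mul_of_nonneg_right hX hw
    linarith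
  have hB00 : 0 ≤ B0 := hB.trans hB0
  calc B ^ j * (1 - q)⁻¹ * (X * R5 * w + Y) ≤ B0 ^ j * (1 - q0)⁻¹ * ((G + 1 / 100000) * w) :=
        mul_le_mul (mul_le_mul h1 h2 h4 (by positivity)) h5 h0 (by positivity)
    _ = (B0 ^ j * (1 - q0)⁻¹ * (G + 1 / 100000)) * w := by ring
    _ ≤ L * w := mul_le_mul_of_nonneg_right hL hw

private theorem lrn_r5 : √(5 / 2 * Real.pi) ≤ 28026 / 10000 := by
  rw [Real.sqrt_le_left (by norm_num)]
  have := Real.pi_lt_d4
  norm_num at this ⊢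
  linarith

theorem liftR_A {δ rho a s : ℝ} (hδ : 0 < δ) (h8 : 8 ≤ rho) (h13 : rho ≤ 13) (hz : 499 / 10 * δ ≤ rho)
    (ha : 0 ≤ a) (ha2 : a ≤ 3 / 5) (hs : rho ≤ s) (hs2 : s ≤ rho * Real.exp a) :
    ‖∫ y in Ioi (2 : ℝ), Wt δ (a + s * I) 0 (5 / rho) y‖ ≤ 3 / 100 * √(δ / s) ∧
    ‖∫ y in Ioi (2 : ℝ), Wt δ (a + s * I) 1 (5 / rho) y‖ ≤ 20 / 100 * √(δ / s) ∧
    ‖∫ y in Ioi (2 : ℝ), Wt δ (a + s * I) 2 (5 / rho) y‖ ≤ 130 / 100 * √(δ / s) := by
  have hr0 : 0 < rho := by linarith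
  have hs0 : 0 < s := by linarith
  have hδr : δ * rho ≤ 33868 / 10000 := by nlinarith
  have hδr2 : δ * rho * 499 ≤ 1690 := by nlinarith
  have hδr0 : 0 < δ * rho := by positivity
  have hp3 := Real.pi_gt_d4
  have hp4 := Real.pi_lt_d4
  norm_num at hp3 hp4
  have hp0 := Real.pi_pos
  obtain ⟨b, hb⟩ : ∃ b, b = 5 / rho := ⟨_, rfl⟩
  have hb0 : 0 < b := by rw [hb]; positivity
  have hbr : b * rho = 5 := by rw [hb]; field_simp
  have hb58 : b ≤ 5 / 8 := by
    rw [hb]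
    exact div_le_div_of_nonneg_left (by norm_num) (by norm_num) h8
  have hz : 48 ≤ s / δ := by
    rw [le_div_iff₀ hδ]
    linarith
  have htiny := lrn_tiny hδ hs0 hz
  have hB : 2 * Real.pi * √(1 + b ^ 2 / 4) ≤ 6584 / 1000 := by
    have h1 : √(1 + b ^ 2 / 4) ≤ 10478 / 10000 := by
      rw [Real.sqrt_le_left (by norm_num)]
      have h2 : b ^ 2 ≤ (5 / 8) ^ 2 := pow_le_pow_left₀ hb0.le hb58 2
      norm_num at h2 ⊢
      linarith
    calc 2 * Real.pi * √(1 + b ^ 2 / 4) ≤ 2 * (31416 / 10000) * (10478 / 10000) := by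
          refine mul_le_mul (by linarith) h1 (Real.sqrt_nonneg _) (by norm_num)
      _ ≤ _ := by norm_num
  have hE : 459 / 100 ≤ (2 * Real.pi * b - rho * (Real.exp b - 1 - b) - b ^ 2 / (8 / 5 * rho)) / δ := by
    have h1 : rho * (Real.exp b - 1 - b) ≤ rho * (5 / 8 * b ^ 2) :=
      mul_le_mul_of_nonneg_left (exp_sub_A hb0.le hb58) hr0.le
    have h2 : rho * (5 / 8 * b ^ 2) = 25 / 8 * b := by
      have : rho * (5 / 8 * b ^ 2) = 5 / 8 * (b * rho) * b := by ring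
      rw [this, hbr]
      ring
    have h3 : b ^ 2 / (8 / 5 * rho) ≤ 4883 / 100000 * b := by
      rw [div_le_iff₀ (by positivity)]
      have h4 : 4883 / 100000 * b * (8 / 5 * rho) = b * (8 / 5 * (4883 / 100000) * rho) := by ring
      rw [h4, pow_two]
      refine mul_le_mul_of_nonneg_left ?_ hb0.le
      linarith
    rw [le_div_iff₀ hδ]
    have h5 : 6.28318 * b - 25 / 8 * b - 4883 / 100000 * b ≤
        2 * Real.pi * b - rho * (Real.exp b - 1 - b) - b ^ 2 / (8 / 5 * rho) := by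
      have : 6.28318 * b ≤ 2 * Real.pi * b := by
        refine mul_le_mul_of_nonneg_right ?_ hb0.le
        have := Real.pi_gt_d6
        norm_num at this ⊢
        linarith
      linarith
    refine le_trans ?_ h5
    refine le_of_mul_le_mul_right ?_ hr0
    have h6 : (6.28318 * b - 25 / 8 * b - 4883 / 100000 * b) * rho =
        (6.28318 - 25 / 8 - 4883 / 100000) * (b * rho) := by ring
    rw [h6, hbr]
    norm_num
    linarith
  have hX : Real.exp (-((2 * Real.pi * b - rho * (Real.exp b - 1 - b) -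
      b ^ 2 / (8 / 5 * rho)) / δ)) * √(5 / 2 * Real.pi) ≤ 286 / 10000 := by
    have h1 : Real.exp (-((2 * Real.pi * b - rho * (Real.exp b - 1 - b) -
        b ^ 2 / (8 / 5 * rho)) / δ)) ≤ 102 / 10000 := by
      refine lrn_exp 4 (f := 59 / 100) ?_ (by norm_num) (by norm_num) (by norm_num)
      push_cast
      linarith
    calc _ ≤ (102 / 10000 : ℝ) * (28026 / 10000) :=
          mul_le_mul h1 lrn_r5 (Real.sqrt_nonneg _) (by norm_num)
      _ ≤ _ := by norm_num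
  have hq : ∀ j : ℕ, j ≤ 2 → Real.exp (j - 2 * Real.pi * b / δ) ≤ 1 / 1000 := by
    intro j hj
    have hj' : (j : ℝ) ≤ 2 := by exact_mod_cast hj
    refine lrn_exp 7 (f := 0) ?_ le_rfl (by norm_num) (by norm_num)
    have h1 : 9 ≤ 2 * Real.pi * b / δ := by
      rw [le_div_iff₀ hδ]
      refine le_of_mul_le_mul_right ?_ hr0
      have : 2 * Real.pi * b * rho = 2 * Real.pi * (b * rho) := by ring
      rw [this, hbr]
      linarith
    push_cast
    linarith
  rw [← hb]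
  have hw : 0 ≤ √(δ / s) := Real.sqrt_nonneg _
  have hgen := fun (j : ℕ) (hj : j ≤ 2) =>
    liftR_gen hδ h8 (by linarith) hb ha ha2 hs hs2 hj
  refine ⟨(hgen 0 (by norm_num)).trans ?_, (hgen 1 (by norm_num)).trans ?_,
    (hgen 2 (by norm_num)).trans ?_⟩
  · refine lrn_fin 0 (by positivity) hB (hq 0 (by norm_num)) (by norm_num) hX hw htiny
      (by positivity) (by norm_num)
  · refine lrn_fin 1 (by positivity) hB (hq 1 (by norm_num)) (by norm_num) hX hw htiny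
      (by positivity) (by norm_num)
  · refine lrn_fin 2 (by positivity) hB (hq 2 (by norm_num)) (by norm_num) hX hw htiny
      (by positivity) (by norm_num)

theorem liftR_C {δ rho a s : ℝ} (hδ : 0 < δ) (h13 : 13 ≤ rho) (hz : 499 / 10 * δ ≤ rho)
    (hl : δ * rho ≤ 72552 / 10000)
    (ha : 0 ≤ a) (ha2 : a ≤ 3 / 5) (hs : rho ≤ s) (hs2 : s ≤ rho * Real.exp a) :
    ‖∫ y in Ioi (2 : ℝ), Wt δ (a + s * I) 0 (5 / rho) y‖ ≤ 28 / 100 * √(δ / s) ∧
    ‖∫ y in Ioi (2 : ℝ), Wt δ (a + s * I) 1 (5 / rho) y‖ ≤ 183 / 100 * √(δ / s) ∧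
    ‖∫ y in Ioi (2 : ℝ), Wt δ (a + s * I) 2 (5 / rho) y‖ ≤ 1250 / 100 * √(δ / s) := by
  have hr0 : 0 < rho := by linarith
  have hs0 : 0 < s := by linarith
  have hδr0 : 0 < δ * rho := by positivity
  have hp3 := Real.pi_gt_d6
  have hp4 := Real.pi_lt_d4
  norm_num at hp3 hp4
  have hp0 := Real.pi_pos
  obtain ⟨b, hb⟩ : ∃ b, b = 5 / rho := ⟨_, rfl⟩
  have hb0 : 0 < b := by rw [hb]; positivity
  have hbr : b * rho = 5 := by rw [hb]; field_simp
  have hb13 : b ≤ 5 / 13 := by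
    rw [hb]
    exact div_le_div_of_nonneg_left (by norm_num) (by norm_num) h13
  have hz : 48 ≤ s / δ := by
    rw [le_div_iff₀ hδ]
    linarith
  have htiny := lrn_tiny hδ hs0 hz
  have hB : 2 * Real.pi * √(1 + b ^ 2 / 4) ≤ 6399 / 1000 := by
    have h1 : √(1 + b ^ 2 / 4) ≤ 101833 / 100000 := by
      rw [Real.sqrt_le_left (by norm_num)]
      have h2 : b ^ 2 ≤ (5 / 13) ^ 2 := pow_le_pow_left₀ hb0.le hb13 2
      norm_num at h2 ⊢
      linarith
    calc 2 * Real.pi * √(1 + b ^ 2 / 4) ≤ 2 * (31416 / 10000) * (101833 / 100000) := by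
          refine mul_le_mul (by linarith) h1 (Real.sqrt_nonneg _) (by norm_num)
      _ ≤ _ := by norm_num
  have hE : 23359 / 10000 ≤
      (2 * Real.pi * b - rho * (Real.exp b - 1 - b) - b ^ 2 / (8 / 5 * rho)) / δ := by
    have h1 : rho * (Real.exp b - 1 - b) ≤ rho * (575 / 1000 * b ^ 2) :=
      mul_le_mul_of_nonneg_left (exp_sub_C hb0.le hb13) hr0.le
    have h2 : rho * (575 / 1000 * b ^ 2) = 575 / 200 * b := by
      have : rho * (575 / 1000 * b ^ 2) = 575 / 1000 * (b * rho) * b := by ring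
      rw [this, hbr]
      ring
    have h3 : b ^ 2 / (8 / 5 * rho) ≤ 185 / 10000 * b := by
      rw [div_le_iff₀ (by positivity)]
      have h4 : 185 / 10000 * b * (8 / 5 * rho) = b * (185 / 10000 * (8 / 5) * rho) := by ring
      rw [h4, pow_two]
      refine mul_le_mul_of_nonneg_left ?_ hb0.le
      refine hb13.trans ?_
      norm_num
      linarith
    rw [le_div_iff₀ hδ]
    have h5 : 6.28318 * b - 575 / 200 * b - 185 / 10000 * b ≤
        2 * Real.pi * b - rho * (Real.exp b - 1 - b) - b ^ 2 / (8 / 5 * rho) := by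
      have : 6.28318 * b ≤ 2 * Real.pi * b := by
        refine mul_le_mul_of_nonneg_right ?_ hb0.le
        norm_num
        linarith
      linarith
    refine le_trans ?_ h5
    refine le_of_mul_le_mul_right ?_ hr0
    have h6 : (6.28318 * b - 575 / 200 * b - 185 / 10000 * b) * rho =
        (6.28318 - 575 / 200 - 185 / 10000) * (b * rho) := by ring
    rw [h6, hbr]
    norm_num
    linarith
  have hX : Real.exp (-((2 * Real.pi * b - rho * (Real.exp b - 1 - b) -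
      b ^ 2 / (8 / 5 * rho)) / δ)) * √(5 / 2 * Real.pi) ≤ 2713 / 10000 := by
    have h1 : Real.exp (-((2 * Real.pi * b - rho * (Real.exp b - 1 - b) -
        b ^ 2 / (8 / 5 * rho)) / δ)) ≤ 968 / 10000 := by
      refine lrn_exp 2 (f := 3359 / 10000) ?_ (by norm_num) (by norm_num) (by norm_num)
      push_cast
      linarith
    calc _ ≤ (968 / 10000 : ℝ) * (28026 / 10000) :=
          mul_le_mul h1 lrn_r5 (Real.sqrt_nonneg _) (by norm_num)
      _ ≤ _ := by norm_num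
  have hE2 : 433 / 100 ≤ 2 * Real.pi * b / δ := by
    rw [le_div_iff₀ hδ]
    refine le_of_mul_le_mul_right ?_ hr0
    have : 2 * Real.pi * b * rho = 2 * Real.pi * (b * rho) := by ring
    rw [this, hbr]
    linarith
  have hq0 : Real.exp (((0 : ℕ) : ℝ) - 2 * Real.pi * b / δ) ≤ 133 / 10000 := by
    refine lrn_exp 4 (f := 33 / 100) ?_ (by norm_num) (by norm_num) (by norm_num)
    push_cast
    linarith
  have hq1 : Real.exp (((1 : ℕ) : ℝ) - 2 * Real.pi * b / δ) ≤ 36 / 1000 := by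
    refine lrn_exp 3 (f := 33 / 100) ?_ (by norm_num) (by norm_num) (by norm_num)
    push_cast
    linarith
  have hq2 : Real.exp (((2 : ℕ) : ℝ) - 2 * Real.pi * b / δ) ≤ 975 / 10000 := by
    refine lrn_exp 2 (f := 33 / 100) ?_ (by norm_num) (by norm_num) (by norm_num)
    push_cast
    linarith
  rw [← hb]
  have hw : 0 ≤ √(δ / s) := Real.sqrt_nonneg _
  have hgen := fun (j : ℕ) (hj : j ≤ 2) =>
    liftR_gen hδ (by linarith) (by linarith) hb ha ha2 hs hs2 hj
  refine ⟨(hgen 0 (by norm_num)).trans ?_, (hgen 1 (by norm_num)).trans ?_,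
    (hgen 2 (by norm_num)).trans ?_⟩
  · refine lrn_fin 0 (by positivity) hB hq0 (by norm_num) hX hw htiny
      (by positivity) (by norm_num)
  · refine lrn_fin 1 (by positivity) hB hq1 (by norm_num) hX hw htiny
      (by positivity) (by norm_num)
  · refine lrn_fin 2 (by positivity) hB hq2 (by norm_num) hX hw htiny
      (by positivity) (by norm_num)

end SokalN1
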