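import Pool.Agent.Lib_MP_af4de1_f1.N1Rep
import Pool.Agent.Lib_MP_af4de1_f1.N1HR
import Pool.Agent.Lib_MP_af4de1_f1.N1HL
import Pool.Agent.Lib_MP_af4de1_f1.N1LR
import Pool.Agent.Lib_MP_af4de1_f1.N1LL

/-!
# N = 1, large `rho`: the pieces `SokalF1.AR`, `SokalF1.AL` (weights `h^j`) on the two paths

`g = g₀ + v`, `g₀ = ± a + i(s - ψ)` the saddle, `h₀ = g₀ + iψ`: `k(g) = k(g₀) e^{E(v)}`, `h = h₀ + v`.
R: `Im g = s - ψ - 2 ∈ (-π, 0)` at `+∞`, `Re g = a + b > 0` on the way to `+i∞`;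
L: `Re g = -a - b < 0` at `-i∞`, `Im g = s - ψ + 8/5 ∈ (-π, 0)` at `+∞`.
-/

set_option autoImplicit false

namespace SokalN1

open Complex MeasureTheory Set SokalFU SokalFW

private theorem lk_shift (f : ℝ → ℂ) (a : ℝ) :
    ∫ t in Ioi (0 : ℝ), f (a + t) = ∫ y in Ioi a, f y := by
  have h := (measurePreserving_add_left (volume : Measure ℝ) a).setIntegral_preimage_emb
    (measurableEmbedding_addLeft a) f (Ioi a)
  rwa [preimage_const_add_Ioi, sub_self] at h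

/-- the integrand with the weight `(g - g0)^j` -/
private noncomputable def lk_vk (rho δ ψ : ℝ) (g0 : ℂ) (j : ℕ) (g : ℂ) : ℂ :=
  (g - g0) ^ j * kk rho δ ψ g

private theorem lk_Adm (rho δ ψ : ℝ) (g0 : ℂ) (j : ℕ) : Adm δ rho ψ (lk_vk rho δ ψ g0 j) := by
  induction j with
  | zero =>
    have h : lk_vk rho δ ψ g0 0 = kk rho δ ψ := by
      funext g
      simp [lk_vk]
    rw [h]
    exact Adm.kk δ rho ψ
  | succ n ih =>
    have h : lk_vk rho δ ψ g0 (n + 1) =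
        fun g => g * lk_vk rho δ ψ g0 n g + (-g0) * lk_vk rho δ ψ g0 n g := by
      funext g
      unfold lk_vk
      ring
    rw [h]
    exact ih.id_mul.add (ih.const_mul _)

/-- the integrand at a saddle point -/
private theorem lk_saddle {rho δ ψ : ℝ} {h g0 : ℂ} (hg : h = g0 + ψ * I)
    (h2 : (rho : ℂ) * cexp g0 = h) (j : ℕ) (v : ℂ) :
    lk_vk rho δ ψ g0 j (g0 + v) = kk rho δ ψ g0 * (v ^ j * cexp (EE δ h v)) := by
  unfold lk_vk
  rw [kk_saddle hg h2]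
  have e1 : SokalFU.EE δ h v = EE δ h v := by
    unfold SokalFU.EE EE
    ring
  rw [e1, add_sub_cancel_left]
  ring

/-- the moments in `h` from the moments in `v` -/
private theorem lk_mom {rho δ ψ : ℝ} {W : (ℂ → ℂ) → ℂ} (hW : SokalF1.IsW δ rho ψ W) {h g0 : ℂ}
    (hg : h = g0 + ψ * I) :
    W (SokalF1.hk rho δ ψ 0) = W (lk_vk rho δ ψ g0 0) ∧
    W (SokalF1.hk rho δ ψ 1) = h * W (lk_vk rho δ ψ g0 0) + W (lk_vk rho δ ψ g0 1) ∧
    W (SokalF1.hk rho δ ψ 2) = h ^ 2 * W (lk_vk rho δ ψ g0 0) + 2 * h * W (lk_vk rho δ ψ g0 1) +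
      W (lk_vk rho δ ψ g0 2) := by
  have a0 := lk_Adm rho δ ψ g0 0
  have a1 := lk_Adm rho δ ψ g0 1
  have a2 := lk_Adm rho δ ψ g0 2
  refine ⟨?_, ?_, ?_⟩
  · have e : SokalF1.hk rho δ ψ 0 = lk_vk rho δ ψ g0 0 := by
      funext g
      unfold SokalF1.hk lk_vk
      rw [pow_zero, pow_zero]
    rw [e]
  · have e : SokalF1.hk rho δ ψ 1 =
        fun g => h * lk_vk rho δ ψ g0 0 g + lk_vk rho δ ψ g0 1 g := by
      funext g
      unfold SokalF1.hk lk_vk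
      rw [hg]
      ring
    rw [e, hW.add (a0.const_mul _) a1, hW.smul]
  · have e : SokalF1.hk rho δ ψ 2 = fun g => (h ^ 2 * lk_vk rho δ ψ g0 0 g +
        2 * h * lk_vk rho δ ψ g0 1 g) + lk_vk rho δ ψ g0 2 g := by
      funext g
      unfold SokalF1.hk lk_vk
      rw [hg]
      ring
    rw [e, hW.add ((a0.const_mul _).add (a1.const_mul _)) a2,
      hW.add (a0.const_mul _) (a1.const_mul _), hW.smul, hW.smul]

private theorem lk_R {rho δ ψ b : ℝ} {h g0 : ℂ} (hδ : 0 < δ) (hr : 0 < rho) (hg : h = g0 + ψ * I)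
    (hh : (rho : ℂ) * cexp g0 = h) (h0 : 0 < g0.re + b)
    (h1 : -Real.pi < g0.im - 2) (h2 : g0.im - 2 < 0) (j : ℕ) :
    Rw (lk_vk rho δ ψ g0 j) = kk rho δ ψ g0 * AR δ b h j := by
  have hA := lk_Adm rho δ ψ g0 j
  obtain ⟨P, hP⟩ := hA.prim
  set k := lk_vk rho δ ψ g0 j with hk
  have hs : ∀ v : ℂ, k (g0 + v) = kk rho δ ψ g0 * (v ^ j * cexp (EE δ h v)) := fun v =>
    lk_saddle hg hh j v
  have e0 := hA.Rw_eq hδ hr hP (g0 := g0 + b + 2 * I) (g1 := g0 - 2 * I)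
    (by simpa using h0) (by simp; linarith) (by simp; linarith)
  have s1 := seg_int hA.cont hP (g0 + 2 * I) 1 0 b
  have s2 := seg_int hA.cont hP g0 I (-2) 2
  have i1 : IT k (g0 + b + 2 * I) = kk rho δ ψ g0 * ((∫ y in Ioi (2 : ℝ), Wt δ h j b y) * I) := by
    unfold IT
    have q : (∫ t in Ioi (0 : ℝ), k (g0 + b + 2 * I + t * I)) = kk rho δ ψ g0 *
        ∫ t in Ioi (0 : ℝ), Wt δ h j b (2 + t) := by
      rw [← integral_const_mul]
      congr 1
      funext t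
      unfold Wt
      rw [← hs]
      congr 1
      push_cast
      ring
    rw [← lk_shift (fun y : ℝ => Wt δ h j b y) 2, q]
    ring
  have i2 : IV k (g0 - 2 * I) = kk rho δ ψ g0 * ∫ u in Ioi (0 : ℝ), Wt δ h j u (-2) := by
    unfold IV
    rw [← integral_const_mul]
    congr 1
    funext t
    unfold Wt
    rw [← hs]
    congr 1
    push_cast
    ring
  have i3 : P (g0 + 2 * I + b) - P (g0 + 2 * I) = kk rho δ ψ g0 *
      ∫ x in (0 : ℝ)..b, Wt δ h j x 2 := by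
    rw [ofReal_zero, zero_mul, add_zero, mul_one, one_mul] at s1
    rw [← s1, ← intervalIntegral.integral_const_mul]
    congr 1
    funext t
    unfold Wt
    rw [← hs]
    congr 1
    push_cast
    ring
  have i4 : P (g0 + 2 * I) - P (g0 - 2 * I) = kk rho δ ψ g0 *
      ((∫ y in (-2 : ℝ)..2, Wt δ h j 0 y) * I) := by
    have e1 : g0 + ((2 : ℝ) : ℂ) * I = g0 + 2 * I := by push_cast; ring
    have e2 : g0 + ((-2 : ℝ) : ℂ) * I = g0 - 2 * I := by push_cast; ring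
    rw [e1, e2] at s2
    have q : (∫ t in (-2 : ℝ)..2, k (g0 + t * I)) = kk rho δ ψ g0 *
        ∫ y in (-2 : ℝ)..2, Wt δ h j 0 y := by
      rw [← intervalIntegral.integral_const_mul]
      congr 1
      funext t
      unfold Wt
      rw [← hs]
      congr 1
      push_cast
      ring
    rw [← s2, q]
    ring
  rw [e0, i1, i2]
  have e3 : g0 + b + 2 * I = g0 + 2 * I + b := by ring
  rw [e3]
  unfold AR
  linear_combination i3 + i4

private theorem lk_L {rho δ ψ b : ℝ} {h g0 : ℂ} (hδ : 0 < δ) (hr : 0 < rho) (hg : h = g0 + ψ * I)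
    (hh : (rho : ℂ) * cexp g0 = h) (h0 : g0.re - b < 0)
    (h1 : -Real.pi < g0.im + 8 / 5) (h2 : g0.im + 8 / 5 < 0) (j : ℕ) :
    Lw (lk_vk rho δ ψ g0 j) = kk rho δ ψ g0 * AL δ b h j := by
  have hA := lk_Adm rho δ ψ g0 j
  obtain ⟨P, hP⟩ := hA.prim
  set k := lk_vk rho δ ψ g0 j with hk
  have hs : ∀ v : ℂ, k (g0 + v) = kk rho δ ψ g0 * (v ^ j * cexp (EE δ h v)) := fun v =>
    lk_saddle hg hh j v
  have hb : BDir ψ (g0 - b - 2 * I) I := BDir_vert (by simpa using h0)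
  have e0 := hA.Lw_eq hδ hr hP hb (g1 := g0 + 8 / 5 * I)
    (by simp; linarith) (by simp; linarith)
  have s1 := seg_int hA.cont hP (g0 - 2 * I) 1 (-b) 0
  have s2 := seg_int hA.cont hP g0 I (-2) (8 / 5)
  have i1 : IB k (g0 - b - 2 * I) I = kk rho δ ψ g0 *
      ((∫ y in Ioi (2 : ℝ), Wt δ h j (-b) (-y)) * I) := by
    unfold IB
    have q : (∫ t in Ioi (0 : ℝ), k (g0 - b - 2 * I + t * (-I))) = kk rho δ ψ g0 *
        ∫ t in Ioi (0 : ℝ), Wt δ h j (-b) (-(2 + t)) := by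
      rw [← integral_const_mul]
      congr 1
      funext t
      unfold Wt
      rw [← hs]
      congr 1
      push_cast
      ring
    rw [← lk_shift (fun y : ℝ => Wt δ h j (-b) (-y)) 2, q]
    ring
  have i2 : IV k (g0 + 8 / 5 * I) = kk rho δ ψ g0 * ∫ u in Ioi (0 : ℝ), Wt δ h j u (8 / 5) := by
    unfold IV
    rw [← integral_const_mul]
    congr 1
    funext t
    unfold Wt
    rw [← hs]
    congr 1
    push_cast
    ring
  have i3 : P (g0 - 2 * I) - P (g0 - b - 2 * I) = kk rho δ ψ g0 *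
      ∫ x in (-b)..0, Wt δ h j x (-2) := by
    have e1 : g0 - 2 * I + ((-b : ℝ) : ℂ) * 1 = g0 - b - 2 * I := by push_cast; ring
    have e2 : g0 - 2 * I + ((0 : ℝ) : ℂ) * 1 = g0 - 2 * I := by push_cast; ring
    rw [e1, e2, one_mul] at s1
    rw [← s1, ← intervalIntegral.integral_const_mul]
    congr 1
    funext t
    unfold Wt
    rw [← hs]
    congr 1
    push_cast
    ring
  have i4 : P (g0 + 8 / 5 * I) - P (g0 - 2 * I) = kk rho δ ψ g0 *
      ((∫ y in (-2 : ℝ)..(8 / 5), Wt δ h j 0 y) * I) := by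
    have e1 : g0 + ((8 / 5 : ℝ) : ℂ) * I = g0 + 8 / 5 * I := by push_cast; ring
    have e2 : g0 + ((-2 : ℝ) : ℂ) * I = g0 - 2 * I := by push_cast; ring
    rw [e1, e2] at s2
    have q : (∫ t in (-2 : ℝ)..(8 / 5), k (g0 + t * I)) = kk rho δ ψ g0 *
        ∫ y in (-2 : ℝ)..(8 / 5), Wt δ h j 0 y := by
      rw [← intervalIntegral.integral_const_mul]
      congr 1
      funext t
      unfold Wt
      rw [← hs]
      congr 1
      push_cast
      ring
    rw [← s2, q]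
    ring
  rw [e0, i1, i2]
  unfold AL
  linear_combination i3 + i4

theorem link_R {δ rho ψ a s b : ℝ} (hδ : 0 < δ) (hr : 0 < rho) (hb : 0 < b) (ha : 0 ≤ a)
    (hs : 8 ≤ s) (has : a ≤ 461 / 10000 * s)
    (hsad : (rho : ℂ) * cexp ((a : ℂ) + ((s - ψ : ℝ) : ℂ) * I) = a + s * I)
    (h1 : -Real.pi < s - ψ - 2) (h2 : s - ψ - 2 < 0) :
    ∃ c : ℂ, c ≠ 0 ∧ SokalF1.AR rho δ ψ 0 = c * AR δ b (a + s * I) 0 ∧
      SokalF1.AR rho δ ψ 1 = c * ((a + s * I) * AR δ b (a + s * I) 0 + AR δ b (a + s * I) 1) ∧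
      SokalF1.AR rho δ ψ 2 = c * ((a + s * I) ^ 2 * AR δ b (a + s * I) 0 +
        2 * (a + s * I) * AR δ b (a + s * I) 1 + AR δ b (a + s * I) 2) := by
  have hg : (a + s * I : ℂ) = ((a : ℂ) + ((s - ψ : ℝ) : ℂ) * I) + ψ * I := by
    push_cast
    ring
  have key := fun j => lk_R (b := b) hδ hr hg hsad (by simp; linarith) (by simpa using h1)
    (by simpa using h2) j
  obtain ⟨m0, m1, m2⟩ := lk_mom (SokalF1.isW_R hδ hr ψ) hg
  refine ⟨kk rho δ ψ ((a : ℂ) + ((s - ψ : ℝ) : ℂ) * I), Complex.exp_ne_zero _, ?_, ?_, ?_⟩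
  · unfold SokalF1.AR
    rw [m0, key]
  · unfold SokalF1.AR
    rw [m1, key, key]
    ring
  · unfold SokalF1.AR
    rw [m2, key, key, key]
    ring

theorem link_L {δ rho ψ a s b : ℝ} (hδ : 0 < δ) (hr : 0 < rho) (hb : 0 < b) (ha : 0 ≤ a)
    (hs : 2 ≤ s) (has : a ≤ 575 / 1000 * s)
    (hsad : (rho : ℂ) * cexp (-(a : ℂ) + ((s - ψ : ℝ) : ℂ) * I) = -a + s * I)
    (h1 : -Real.pi < s - ψ + 8 / 5) (h2 : s - ψ + 8 / 5 < 0) :
    ∃ c : ℂ, c ≠ 0 ∧ SokalF1.AL rho δ ψ 0 = c * AL δ b (-a + s * I) 0 ∧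
      SokalF1.AL rho δ ψ 1 = c * ((-a + s * I) * AL δ b (-a + s * I) 0 + AL δ b (-a + s * I) 1) ∧
      SokalF1.AL rho δ ψ 2 = c * ((-a + s * I) ^ 2 * AL δ b (-a + s * I) 0 +
        2 * (-a + s * I) * AL δ b (-a + s * I) 1 + AL δ b (-a + s * I) 2) := by
  have hg : (-a + s * I : ℂ) = (-(a : ℂ) + ((s - ψ : ℝ) : ℂ) * I) + ψ * I := by
    push_cast
    ring
  have key := fun j => lk_L (b := b) hδ hr hg hsad (by simp; linarith) (by simpa using h1)
    (by simpa using h2) j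
  obtain ⟨m0, m1, m2⟩ := lk_mom (SokalF1.isW_L hδ hr ψ) hg
  refine ⟨kk rho δ ψ (-(a : ℂ) + ((s - ψ : ℝ) : ℂ) * I), Complex.exp_ne_zero _, ?_, ?_, ?_⟩
  · unfold SokalF1.AL
    rw [m0, key]
  · unfold SokalF1.AL
    rw [m1, key, key]
    ring
  · unfold SokalF1.AL
    rw [m2, key, key, key]
    ring

end SokalN1
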