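import Pool.Agent.Lib_MP_af4de1_f1.N1G1
import Pool.Agent.Lib_MP_af4de1_f1.N1G2
import Pool.Agent.Lib_MP_af4de1_f1.N1HL
import Pool.Agent.Lib_MP_af4de1_f1.N1LLn

/-!
# N = 1, large `rho`: the piece L (`h = -a + i s`, `a ≥ 0`)

`x = √(δ/s)`, `κ1 = 347/1000 s`, `κ2 = (399/1000 - 4/15 t) s`.
A (`t = .575`): `x² ≤ .0804` (`s ≥ 2.089` and `s ≥ rho - 2π`, `δ ≤ 10 rho/499`), `‖1 - h‖ ≤ 1.4524 s`,
`‖h‖ ≤ 1.1536 s`: `‖AL 0‖ ≥ (2.0799 - .679 - .018 - .003) x ≥ 1.37 x`, `‖AL 1‖ ≤ (.986 + .12 + .002) x`,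
`‖AL 2‖ ≤ (.467 + .8 + .002) x`.
C (`t = .0985`): `x² ≤ .0389`, `‖1 - h‖ ≤ 1.0303 s`, `‖h‖ ≤ 1.005 s`: `‖AL 0‖ ≥ (2.4695 - .256 - .27 - .003) x ≥ 1.93 x`,
`‖AL 1‖ ≤ (.553 + 1.76 + .002) x`, `‖AL 2‖ ≤ (.163 + 12.1 + .002) x`.
-/

set_option autoImplicit false

namespace SokalN1

open Complex Set MeasureTheory

private theorem sl_norm1 {a s N : ℝ} (hN : 0 ≤ N) (hs : 0 ≤ s)
    (h : (1 + a) ^ 2 + s ^ 2 ≤ (N * s) ^ 2) : ‖1 - (-(a : ℂ) + s * I)‖ ≤ N * s := by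
  have e : ‖1 - (-(a : ℂ) + s * I)‖ ^ 2 = (1 + a) ^ 2 + s ^ 2 := by
    rw [Complex.sq_norm, Complex.normSq_apply]
    simp
    ring
  exact (pow_le_pow_iff_left₀ (norm_nonneg _) (mul_nonneg hN hs) two_ne_zero).1 (by rw [e]; exact h)

private theorem sl_norm2 {a s N : ℝ} (hN : 0 ≤ N) (hs : 0 ≤ s)
    (h : a ^ 2 + s ^ 2 ≤ (N * s) ^ 2) : ‖-(a : ℂ) + s * I‖ ≤ N * s := by
  have e : ‖-(a : ℂ) + s * I‖ ^ 2 = a ^ 2 + s ^ 2 := by
    rw [Complex.sq_norm, Complex.normSq_apply]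
    simp
    ring
  exact (pow_le_pow_iff_left₀ (norm_nonneg _) (mul_nonneg hN hs) two_ne_zero).1 (by rw [e]; exact h)

/-- `5/4 x² e^{-32/(25 x²)} ≤ x/1000` for `x ≤ 3/10` -/
private theorem sl_tail {δ s : ℝ} (hδ : 0 < δ) (hs : 0 < s) (hX : √(δ / s) ≤ 3 / 10) :
    5 / 4 * (δ / s) * Real.exp (-(32 / 25 * s / δ)) ≤ 1 / 1000 * √(δ / s) := by
  have hq : 0 < δ / s := div_pos hδ hs
  have hx : 0 ≤ √(δ / s) := Real.sqrt_nonneg _
  have hx2 : √(δ / s) * √(δ / s) = δ / s := Real.mul_self_sqrt hq.le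
  have h1 : δ / s ≤ 9 / 100 := by nlinarith
  have h2 : δ ≤ 9 / 100 * s := by rwa [div_le_iff₀ hs] at h1
  have h3 : 14 ≤ 32 / 25 * s / δ := by
    rw [le_div_iff₀ hδ]
    linarith
  have h4 : Real.exp (-(32 / 25 * s / δ)) ≤ 1 / 16384 := by
    calc Real.exp (-(32 / 25 * s / δ)) ≤ Real.exp (-14) := Real.exp_le_exp.2 (by linarith)
      _ = (Real.exp 1 ^ 14)⁻¹ := by
        rw [Real.exp_neg, ← Real.exp_nat_mul]
        norm_num
      _ ≤ ((2 : ℝ) ^ 14)⁻¹ := inv_anti₀ (by norm_num) (pow_le_pow_left₀ (by norm_num)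
        (by linarith [Real.exp_one_gt_d9]) 14)
      _ = 1 / 16384 := by norm_num
  have h5 : 5 / 4 * (δ / s) * Real.exp (-(32 / 25 * s / δ)) ≤ 5 / 4 * (δ / s) * (1 / 16384) :=
    mul_le_mul_of_nonneg_left h4 (by positivity)
  refine h5.trans ?_
  have h6 : δ / s ≤ 3 / 10 * √(δ / s) := by
    calc δ / s = √(δ / s) * √(δ / s) := hx2.symm
      _ ≤ 3 / 10 * √(δ / s) := mul_le_mul_of_nonneg_right hX hx
  linarith

private theorem sl_main0 {δ a s t κ X P N H : ℝ} (hδ : 0 < δ) (hs : 2 ≤ s) (ha : 0 ≤ a)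
    (hat : a ≤ t * s) (hκ : κ = 399 / 1000 - 4 / 15 * t) (hκ0 : 0 < κ) (hκ1 : κ ≤ 1 / 2)
    (hX : √(δ / s) ≤ X) (hX2 : X ≤ 3 / 10) (hN : ‖1 - (-(a : ℂ) + s * I)‖ ≤ N * s)
    (hH : ‖-(a : ℂ) + s * I‖ ≤ H * s) (hP : 0 ≤ P) (hPN : P ^ 2 * N ≤ 2 * Real.pi) :
    (P - H / 12 * (1 / (347 / 1000) ^ 2 + 1 / κ ^ 2) * X - 1 / 1000) * √(δ / s) ≤
      ‖∫ y in (-2 : ℝ)..(8 / 5), Wt δ (-a + s * I) 0 0 y‖ := by
  have hs0 : 0 < s := by linarith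
  have hq : 0 < δ / s := div_pos hδ hs0
  have hx : 0 ≤ √(δ / s) := Real.sqrt_nonneg _
  have hx2 : √(δ / s) * √(δ / s) = δ / s := Real.mul_self_sqrt hq.le
  have h := main_low (κ1 := 347 / 1000 * s) (κ2 := κ * s) (a := -a) (y1 := 2) (y2 := 8 / 5) hδ hs0
    (by positivity) (by positivity) (by nlinarith) (by nlinarith) (by norm_num) le_rfl
    (fun y h0 h1 => ht_L_neg hs0 ha h0 h1)
    (fun y h0 h1 => by rw [hκ]; exact ht_L_pos hs0 ha hat h0 h1)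
  simp only [Complex.ofReal_neg] at h
  refine le_trans ?_ h
  have hn0 : 0 < ‖1 - (-(a : ℂ) + s * I)‖ := by
    rw [norm_pos_iff]
    intro h0
    have := congrArg Complex.im h0
    simp at this
    linarith
  have e1 : P * √(δ / s) ≤ √(2 * Real.pi * δ / ‖1 - (-(a : ℂ) + s * I)‖) := by
    apply Real.le_sqrt_of_sq_le
    rw [le_div_iff₀ hn0, mul_pow, pow_two (√(δ / s)), hx2]
    calc P ^ 2 * (δ / s) * ‖1 - (-(a : ℂ) + s * I)‖ ≤ P ^ 2 * (δ / s) * (N * s) :=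
          mul_le_mul_of_nonneg_left hN (by positivity)
      _ = (P ^ 2 * N) * δ := by field_simp
      _ ≤ 2 * Real.pi * δ := mul_le_mul_of_nonneg_right hPN hδ.le
  have hC : 0 ≤ 1 / (347 / 1000 : ℝ) ^ 2 + 1 / κ ^ 2 := by positivity
  have hH0 : 0 ≤ H := by
    have := (norm_nonneg (-(a : ℂ) + s * I)).trans hH
    by_contra hc
    push Not at hc
    nlinarith
  have e2 : ‖-(a : ℂ) + s * I‖ * δ / 12 * (1 / (347 / 1000 * s) ^ 2 + 1 / (κ * s) ^ 2) ≤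
      H / 12 * (1 / (347 / 1000) ^ 2 + 1 / κ ^ 2) * X * √(δ / s) := by
    have e3 : ‖-(a : ℂ) + s * I‖ * δ / 12 * (1 / (347 / 1000 * s) ^ 2 + 1 / (κ * s) ^ 2) ≤
        H * s * δ / 12 * (1 / (347 / 1000 * s) ^ 2 + 1 / (κ * s) ^ 2) := by
      refine mul_le_mul_of_nonneg_right ?_ (by positivity)
      refine div_le_div_of_nonneg_right ?_ (by norm_num)
      exact mul_le_mul_of_nonneg_right hH hδ.le
    have e4 : H * s * δ / 12 * (1 / (347 / 1000 * s) ^ 2 + 1 / (κ * s) ^ 2) =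
        H / 12 * (1 / (347 / 1000) ^ 2 + 1 / κ ^ 2) * (√(δ / s) * √(δ / s)) := by
      rw [hx2]
      field_simp
    rw [e4] at e3
    refine e3.trans ?_
    rw [← mul_assoc]
    refine mul_le_mul_of_nonneg_right ?_ hx
    exact mul_le_mul_of_nonneg_left hX (by positivity)
  have e5 := sl_tail hδ hs0 (hX.trans hX2)
  have e6 : (P - H / 12 * (1 / (347 / 1000) ^ 2 + 1 / κ ^ 2) * X - 1 / 1000) * √(δ / s) =
      P * √(δ / s) - H / 12 * (1 / (347 / 1000) ^ 2 + 1 / κ ^ 2) * X * √(δ / s) -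
        1 / 1000 * √(δ / s) := by ring
  rw [e6]
  linarith

private theorem sl_main1 {δ a s t κ X : ℝ} (hδ : 0 < δ) (hs : 2 ≤ s) (ha : 0 ≤ a)
    (hat : a ≤ t * s) (hκ : κ = 399 / 1000 - 4 / 15 * t) (hκ0 : 0 < κ) (hX : √(δ / s) ≤ X) :
    ‖∫ y in (-2 : ℝ)..(8 / 5), Wt δ (-a + s * I) 1 0 y‖ ≤
      (1 / 2 * (1 / (347 / 1000) + 1 / κ) * X) * √(δ / s) := by
  have hs0 : 0 < s := by linarith
  have hq : 0 < δ / s := div_pos hδ hs0
  have hx : 0 ≤ √(δ / s) := Real.sqrt_nonneg _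
  have hx2 : √(δ / s) * √(δ / s) = δ / s := Real.mul_self_sqrt hq.le
  have h := main_up1 (κ1 := 347 / 1000 * s) (κ2 := κ * s) (a := -a) (y1 := 2) (y2 := 8 / 5) hδ
    (by positivity) (by positivity) (by norm_num) (by norm_num)
    (fun y h0 h1 => ht_L_neg hs0 ha h0 h1)
    (fun y h0 h1 => by rw [hκ]; exact ht_L_pos hs0 ha hat h0 h1)
  simp only [Complex.ofReal_neg] at h
  refine h.trans ?_
  have e1 : δ / 2 * (1 / (347 / 1000 * s) + 1 / (κ * s)) =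
      1 / 2 * (1 / (347 / 1000) + 1 / κ) * (√(δ / s) * √(δ / s)) := by
    rw [hx2]
    field_simp
  rw [e1, ← mul_assoc]
  refine mul_le_mul_of_nonneg_right ?_ hx
  exact mul_le_mul_of_nonneg_left hX (by positivity)

private theorem sl_sqrt {q c κ : ℝ} (hq : 0 ≤ q) (hκ : 0 < κ) (hc : 0 ≤ c) (h : 1 ≤ c ^ 2 * κ) :
    √(q / κ) ≤ c * √q := by
  rw [Real.sqrt_le_iff]
  refine ⟨mul_nonneg hc (Real.sqrt_nonneg _), ?_⟩
  rw [mul_pow, Real.sq_sqrt hq, div_le_iff₀ hκ]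
  nlinarith

private theorem sl_main2 {δ a s t κ X c : ℝ} (hδ : 0 < δ) (hs : 2 ≤ s) (ha : 0 ≤ a)
    (hat : a ≤ t * s) (hκ : κ = 399 / 1000 - 4 / 15 * t) (hκ0 : 0 < κ) (hX : √(δ / s) ≤ X)
    (hc : 0 ≤ c) (hcκ : 1 ≤ c ^ 2 * κ) :
    ‖∫ y in (-2 : ℝ)..(8 / 5), Wt δ (-a + s * I) 2 0 y‖ ≤
      (4432 / 10000 * (1698 / 1000 / (347 / 1000) + c / κ) * X ^ 2) * √(δ / s) := by
  have hs0 : 0 < s := by linarith
  have hq : 0 < δ / s := div_pos hδ hs0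
  have hx : 0 ≤ √(δ / s) := Real.sqrt_nonneg _
  have hx2 : √(δ / s) ^ 2 = δ / s := Real.sq_sqrt hq.le
  have h := main_up2 (κ1 := 347 / 1000 * s) (κ2 := κ * s) (a := -a) (y1 := 2) (y2 := 8 / 5) hδ
    (by positivity) (by positivity) (by norm_num) (by norm_num)
    (fun y h0 h1 => ht_L_neg hs0 ha h0 h1)
    (fun y h0 h1 => by rw [hκ]; exact ht_L_pos hs0 ha hat h0 h1)
  simp only [Complex.ofReal_neg] at h
  refine h.trans ?_
  have e0 : √Real.pi / 4 ≤ 4432 / 10000 := by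
    have : √Real.pi ≤ 17728 / 10000 := by
      rw [Real.sqrt_le_iff]
      refine ⟨by norm_num, ?_⟩
      have := Real.pi_lt_d4
      norm_num
      linarith
    linarith
  have e1 : δ / (347 / 1000 * s) = δ / s / (347 / 1000) := by field_simp
  have e2 : δ / (κ * s) = δ / s / κ := by field_simp
  have e3 : √(δ / s / (347 / 1000)) ≤ 1698 / 1000 * √(δ / s) :=
    sl_sqrt hq.le (by norm_num) (by norm_num) (by norm_num)
  have e4 : √(δ / s / κ) ≤ c * √(δ / s) := sl_sqrt hq.le hκ0 hc hcκ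
  rw [e1, e2]
  have e5 : δ / s / (347 / 1000) * √(δ / s / (347 / 1000)) + δ / s / κ * √(δ / s / κ) ≤
      δ / s / (347 / 1000) * (1698 / 1000 * √(δ / s)) + δ / s / κ * (c * √(δ / s)) :=
    add_le_add (mul_le_mul_of_nonneg_left e3 (by positivity))
      (mul_le_mul_of_nonneg_left e4 (by positivity))
  have e6 : δ / s / (347 / 1000) * (1698 / 1000 * √(δ / s)) + δ / s / κ * (c * √(δ / s)) =
      (1698 / 1000 / (347 / 1000) + c / κ) * (δ / s) * √(δ / s) := by ring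
  have e7 : δ / s ≤ X ^ 2 := by
    rw [← hx2]
    exact pow_le_pow_left₀ hx hX 2
  calc √Real.pi / 4 * (δ / s / (347 / 1000) * √(δ / s / (347 / 1000)) + δ / s / κ * √(δ / s / κ))
      ≤ 4432 / 10000 * ((1698 / 1000 / (347 / 1000) + c / κ) * (δ / s) * √(δ / s)) := by
        rw [← e6]
        exact mul_le_mul e0 e5 (by positivity) (by norm_num)
    _ = 4432 / 10000 * (1698 / 1000 / (347 / 1000) + c / κ) * (δ / s) * √(δ / s) := by ring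
    _ ≤ (4432 / 10000 * (1698 / 1000 / (347 / 1000) + c / κ) * X ^ 2) * √(δ / s) := by
        refine mul_le_mul_of_nonneg_right ?_ hx
        exact mul_le_mul_of_nonneg_left e7 (by positivity)

private theorem sl_up {δ b : ℝ} {h : ℂ} {j : ℕ} {l m n k : ℝ}
    (h1 : ‖∫ y in Ioi (2 : ℝ), Wt δ h j (-b) (-y)‖ ≤ l)
    (h2 : ‖∫ x in (-b)..0, Wt δ h j x (-2)‖ ≤ m)
    (h3 : ‖∫ y in (-2 : ℝ)..(8 / 5), Wt δ h j 0 y‖ ≤ n)
    (h4 : ‖∫ u in Ioi (0 : ℝ), Wt δ h j u (8 / 5)‖ ≤ k) : ‖AL δ b h j‖ ≤ n + l + m + k := by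
  unfold AL
  refine (norm_add_le _ _).trans ?_
  have e1 := norm_add_le ((∫ y in Ioi (2 : ℝ), Wt δ h j (-b) (-y)) * I + (∫ x in (-b)..0, Wt δ h j x (-2)))
    ((∫ y in (-2 : ℝ)..(8 / 5), Wt δ h j 0 y) * I)
  have e2 := norm_add_le ((∫ y in Ioi (2 : ℝ), Wt δ h j (-b) (-y)) * I) (∫ x in (-b)..0, Wt δ h j x (-2))
  rw [norm_mul, Complex.norm_I, mul_one] at e1 e2
  linarith

private theorem sl_low {δ b : ℝ} {h : ℂ} {j : ℕ} {l m n k : ℝ}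
    (h1 : ‖∫ y in Ioi (2 : ℝ), Wt δ h j (-b) (-y)‖ ≤ l)
    (h2 : ‖∫ x in (-b)..0, Wt δ h j x (-2)‖ ≤ m)
    (h3 : n ≤ ‖∫ y in (-2 : ℝ)..(8 / 5), Wt δ h j 0 y‖)
    (h4 : ‖∫ u in Ioi (0 : ℝ), Wt δ h j u (8 / 5)‖ ≤ k) : n - l - m - k ≤ ‖AL δ b h j‖ := by
  have e0 : (∫ y in (-2 : ℝ)..(8 / 5), Wt δ h j 0 y) * I = AL δ b h j -
      ((∫ y in Ioi (2 : ℝ), Wt δ h j (-b) (-y)) * I + (∫ x in (-b)..0, Wt δ h j x (-2)) +
        ∫ u in Ioi (0 : ℝ), Wt δ h j u (8 / 5)) := by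
    unfold AL
    ring
  have e1 := congrArg norm e0
  rw [norm_mul, Complex.norm_I, mul_one] at e1
  have e2 := norm_sub_le (AL δ b h j)
    ((∫ y in Ioi (2 : ℝ), Wt δ h j (-b) (-y)) * I + (∫ x in (-b)..0, Wt δ h j x (-2)) +
        ∫ u in Ioi (0 : ℝ), Wt δ h j u (8 / 5))
  have e3 := norm_add_le ((∫ y in Ioi (2 : ℝ), Wt δ h j (-b) (-y)) * I + (∫ x in (-b)..0, Wt δ h j x (-2)))
    (∫ u in Ioi (0 : ℝ), Wt δ h j u (8 / 5))
  have e4 := norm_add_le ((∫ y in Ioi (2 : ℝ), Wt δ h j (-b) (-y)) * I) (∫ x in (-b)..0, Wt δ h j x (-2))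
  rw [norm_mul, Complex.norm_I, mul_one] at e4
  linarith

private theorem sl_fin {δ b : ℝ} {h : ℂ} {x c0 c1 c2 r1 r2 : ℝ} (hx : 0 < x) (hc0 : 0 < c0)
    (h0 : c0 * x ≤ ‖AL δ b h 0‖) (h1 : ‖AL δ b h 1‖ ≤ c1 * x) (h2 : ‖AL δ b h 2‖ ≤ c2 * x)
    (h3 : c1 ≤ r1 * c0) (h4 : c2 ≤ r2 * c0) (hr1 : 0 ≤ r1) (hr2 : 0 ≤ r2) :
    AL δ b h 0 ≠ 0 ∧ ‖AL δ b h 1‖ ≤ r1 * ‖AL δ b h 0‖ ∧ ‖AL δ b h 2‖ ≤ r2 * ‖AL δ b h 0‖ := by
  refine ⟨?_, ?_, ?_⟩
  · intro h5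
    rw [h5, norm_zero] at h0
    have := mul_pos hc0 hx
    linarith
  · calc ‖AL δ b h 1‖ ≤ c1 * x := h1
      _ ≤ r1 * c0 * x := mul_le_mul_of_nonneg_right h3 hx.le
      _ = r1 * (c0 * x) := by ring
      _ ≤ r1 * ‖AL δ b h 0‖ := mul_le_mul_of_nonneg_left h0 hr1
  · calc ‖AL δ b h 2‖ ≤ c2 * x := h2
      _ ≤ r2 * c0 * x := mul_le_mul_of_nonneg_right h4 hx.le
      _ = r2 * (c0 * x) := by ring
      _ ≤ r2 * ‖AL δ b h 0‖ := mul_le_mul_of_nonneg_left h0 hr2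

theorem side_L_A {δ rho a s : ℝ} (hδ : 0 < δ) (h8 : 8 ≤ rho) (h13 : rho ≤ 13) (hz : 499 / 10 * δ ≤ rho)
    (ha : 0 ≤ a) (ha2 : a ≤ 6 / 5) (has : a ≤ 575 / 1000 * s) (hs : rho - 2 * Real.pi ≤ s)
    (hs1 : 2089 / 1000 ≤ s) (hs2 : s ≤ rho) :
    AL δ (5 / rho) (-a + s * I) 0 ≠ 0 ∧
    ‖AL δ (5 / rho) (-a + s * I) 1‖ ≤ 84 / 100 * ‖AL δ (5 / rho) (-a + s * I) 0‖ ∧
    ‖AL δ (5 / rho) (-a + s * I) 2‖ ≤ 1 * ‖AL δ (5 / rho) (-a + s * I) 0‖ := by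
  have hpi := Real.pi_lt_d4
  have hpi2 := Real.pi_gt_d4
  have hs0 : 0 < s := by linarith
  have h2s : 2 ≤ s := by linarith
  have hrho : 0 < rho := by linarith
  have hq : 0 < δ / s := div_pos hδ hs0
  have hx : 0 < √(δ / s) := Real.sqrt_pos.2 hq
  have hδs : δ ≤ 804 / 10000 * s := by linarith
  have hX : √(δ / s) ≤ 28356 / 100000 := by
    rw [Real.sqrt_le_iff]
    refine ⟨by norm_num, ?_⟩
    rw [div_le_iff₀ hs0]
    norm_num
    linarith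
  have hz2 : 124 / 10 * δ ≤ s := by linarith
  have hb0 : 0 ≤ 5 / rho := by positivity
  have hb1 : 5 / rho ≤ 5 / 8 := div_le_div_of_nonneg_left (by norm_num) (by norm_num) h8
  obtain ⟨l0, l1, l2⟩ := liftL_A hδ h8 h13 hz ha hs hs1 hs2
  have hδ2 : δ ≤ 261 / 1000 := by linarith
  have st := fun (j : ℕ) (hj : j ≤ 2) => stepL_A (b := 5 / rho) hδ hδ2 h2s hz2 ha hb0 hb1 (j := j) hj
  have ho := fun (j : ℕ) (hj : j ≤ 2) => horizL (a := a) hδ h2s hz2 ha has (j := j) hj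
  have hN : ‖1 - (-(a : ℂ) + s * I)‖ ≤ 14524 / 10000 * s := by
    apply sl_norm1 (by norm_num) hs0.le
    nlinarith
  have hH : ‖-(a : ℂ) + s * I‖ ≤ 11536 / 10000 * s := by
    apply sl_norm2 (by norm_num) hs0.le
    nlinarith
  have m0 := sl_main0 (t := 575 / 1000) (κ := 399 / 1000 - 4 / 15 * (575 / 1000)) (P := 20798 / 10000) hδ h2s ha
    has rfl (by norm_num) (by norm_num) hX (by norm_num) hN hH (by norm_num) (by norm_num; linarith)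
  have m1 := sl_main1 (t := 575 / 1000) (κ := 399 / 1000 - 4 / 15 * (575 / 1000)) hδ h2s ha
    has rfl (by norm_num) hX
  have m2 := sl_main2 (t := 575 / 1000) (κ := 399 / 1000 - 4 / 15 * (575 / 1000)) (c := 2018 / 1000) hδ h2s ha
    has rfl (by norm_num) hX (by norm_num) (by norm_num)
  refine sl_fin (c0 := 137 / 100) (c1 := 1110 / 1000) (c2 := 1272 / 1000) hx (by norm_num) ?_ ?_ ?_ (by norm_num)
    (by norm_num) (by norm_num) (by norm_num)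
  · refine le_trans ?_ (sl_low l0 (st 0 (by norm_num)) m0 (ho 0 (by norm_num)))
    have : (137 / 100 : ℝ) ≤ (20798 / 10000 - 11536 / 10000 / 12 * (1 / (347 / 1000) ^ 2 +
      1 / (399 / 1000 - 4 / 15 * (575 / 1000)) ^ 2) * (28356 / 100000) - 1 / 1000) - 18 / 1000 - 1 / 1000 -
      1 / 1000 := by norm_num
    have h2 := mul_le_mul_of_nonneg_right this hx.le
    linarith
  · refine (sl_up l1 (st 1 (by norm_num)) m1 (ho 1 (by norm_num))).trans ?_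
    have : (1 / 2 * (1 / (347 / 1000) + 1 / (399 / 1000 - 4 / 15 * (575 / 1000))) * (28356 / 100000)) +
      12 / 100 + 1 / 1000 + 1 / 1000 ≤ (1110 / 1000 : ℝ) := by norm_num
    have h2 := mul_le_mul_of_nonneg_right this hx.le
    linarith
  · refine (sl_up l2 (st 2 (by norm_num)) m2 (ho 2 (by norm_num))).trans ?_
    have : (4432 / 10000 * (1698 / 1000 / (347 / 1000) + 2018 / 1000 / (399 / 1000 - 4 / 15 * (575 / 1000))) *
      (28356 / 100000) ^ 2) + 80 / 100 + 1 / 1000 + 1 / 1000 ≤ (1272 / 1000 : ℝ) := by norm_num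
    have h2 := mul_le_mul_of_nonneg_right this hx.le
    linarith

theorem side_L_C {δ rho a s : ℝ} (hδ : 0 < δ) (h13 : 13 ≤ rho) (hz : 499 / 10 * δ ≤ rho)
    (hl : δ * rho ≤ 72552 / 10000)
    (ha : 0 ≤ a) (ha2 : a ≤ 661 / 1000) (has : a ≤ 985 / 10000 * s) (hs : rho - 2 * Real.pi ≤ s) (hs2 : s ≤ rho) :
    AL δ (5 / rho) (-a + s * I) 0 ≠ 0 ∧
    ‖AL δ (5 / rho) (-a + s * I) 1‖ ≤ 122 / 100 * ‖AL δ (5 / rho) (-a + s * I) 0‖ ∧
    ‖AL δ (5 / rho) (-a + s * I) 2‖ ≤ 64 / 10 * ‖AL δ (5 / rho) (-a + s * I) 0‖ := by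
  have hpi := Real.pi_lt_d4
  have hpi2 := Real.pi_gt_d4
  have hs67 : 6716 / 1000 ≤ s := by linarith
  have hs0 : 0 < s := by linarith
  have h2s : 2 ≤ s := by linarith
  have hrho : 0 < rho := by linarith
  have hq : 0 < δ / s := div_pos hδ hs0
  have hx : 0 < √(δ / s) := Real.sqrt_pos.2 hq
  have hδs : δ ≤ 389 / 10000 * s := by linarith
  have hX : √(δ / s) ≤ 19724 / 100000 := by
    rw [Real.sqrt_le_iff]
    refine ⟨by norm_num, ?_⟩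
    rw [div_le_iff₀ hs0]
    norm_num
    linarith
  have hz2 : 25 * δ ≤ s := by linarith
  have hb0 : 0 ≤ 5 / rho := by positivity
  have hb1 : 5 / rho ≤ 5 / 13 := div_le_div_of_nonneg_left (by norm_num) (by norm_num) h13
  obtain ⟨l0, l1, l2⟩ := liftL_C hδ h13 hz hl ha hs hs2
  have st := fun (j : ℕ) (hj : j ≤ 2) => stepL_C (b := 5 / rho) hδ h2s hz2 ha hb0 hb1 (j := j) hj
  have ho := fun (j : ℕ) (hj : j ≤ 2) => horizL (a := a) hδ h2s (by linarith) ha (by linarith) (j := j) hj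
  have hN : ‖1 - (-(a : ℂ) + s * I)‖ ≤ 10303 / 10000 * s := by
    apply sl_norm1 (by norm_num) hs0.le
    nlinarith
  have hH : ‖-(a : ℂ) + s * I‖ ≤ 10050 / 10000 * s := by
    apply sl_norm2 (by norm_num) hs0.le
    nlinarith
  have m0 := sl_main0 (t := 985 / 10000) (κ := 399 / 1000 - 4 / 15 * (985 / 10000)) (P := 24694 / 10000) hδ h2s ha
    has rfl (by norm_num) (by norm_num) hX (by norm_num) hN hH (by norm_num) (by norm_num; linarith)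
  have m1 := sl_main1 (t := 985 / 10000) (κ := 399 / 1000 - 4 / 15 * (985 / 10000)) hδ h2s ha
    has rfl (by norm_num) hX
  have m2 := sl_main2 (t := 985 / 10000) (κ := 399 / 1000 - 4 / 15 * (985 / 10000)) (c := 1638 / 1000) hδ h2s ha
    has rfl (by norm_num) hX (by norm_num) (by norm_num)
  refine sl_fin (c0 := 193 / 100) (c1 := 2315 / 1000) (c2 := 12265 / 1000) hx (by norm_num) ?_ ?_ ?_ (by norm_num)
    (by norm_num) (by norm_num) (by norm_num)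
  · refine le_trans ?_ (sl_low l0 (st 0 (by norm_num)) m0 (ho 0 (by norm_num)))
    have : (193 / 100 : ℝ) ≤ (24694 / 10000 - 10050 / 10000 / 12 * (1 / (347 / 1000) ^ 2 +
      1 / (399 / 1000 - 4 / 15 * (985 / 10000)) ^ 2) * (19724 / 100000) - 1 / 1000) - 27 / 100 - 1 / 1000 -
      1 / 1000 := by norm_num
    have h2 := mul_le_mul_of_nonneg_right this hx.le
    linarith
  · refine (sl_up l1 (st 1 (by norm_num)) m1 (ho 1 (by norm_num))).trans ?_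
    have : (1 / 2 * (1 / (347 / 1000) + 1 / (399 / 1000 - 4 / 15 * (985 / 10000))) * (19724 / 100000)) +
      176 / 100 + 1 / 1000 + 1 / 1000 ≤ (2315 / 1000 : ℝ) := by norm_num
    have h2 := mul_le_mul_of_nonneg_right this hx.le
    linarith
  · refine (sl_up l2 (st 2 (by norm_num)) m2 (ho 2 (by norm_num))).trans ?_
    have : (4432 / 10000 * (1698 / 1000 / (347 / 1000) + 1638 / 1000 / (399 / 1000 - 4 / 15 * (985 / 10000))) *
      (19724 / 100000) ^ 2) + 1210 / 100 + 1 / 1000 + 1 / 1000 ≤ (12265 / 1000 : ℝ) := by norm_num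
    have h2 := mul_le_mul_of_nonneg_right this hx.le
    linarith

end SokalN1
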