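import Pool.Agent.Lib_MP_af4de1_f1.N1G1
import Pool.Agent.Lib_MP_af4de1_f1.N1G2
import Pool.Agent.Lib_MP_af4de1_f1.N1HR
import Pool.Agent.Lib_MP_af4de1_f1.N1LRn

/-!
# N = 1, large `rho`: the piece R

`x = √(δ/s) ≤ .14157`, `κ1 = (347/1000 - t/3) s`, `κ2 = 347/1000 s`, `‖1 - h‖ ≤ s √(1 + 1/rho²)`.
A (`t = .0461`): `‖AR 0‖ ≥ (2.4968 - .2056 - .03 - .003) x ≥ 2.25 x`, `‖AR 1‖ ≤ (.4175 + .2 + .002) x`,
`‖AR 2‖ ≤ (.09 + 1.3 + .002) x`.
C (`t = .0284`): `‖AR 0‖ ≥ (2.5029 - .2007 - .28 - .003) x ≥ 2.018 x`, `‖AR 1‖ ≤ (.4139 + 1.83 + .002) x`,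
`‖AR 2‖ ≤ (.089 + 12.5 + .002) x`.
-/

set_option autoImplicit false

namespace SokalN1

open Complex Set MeasureTheory

private theorem sr_tri {A M S L : ℂ} {H : ℂ} (h : A = -H + M * I + S + L * I) :
    ‖M‖ - ‖H‖ - ‖S‖ - ‖L‖ ≤ ‖A‖ ∧ ‖A‖ ≤ ‖H‖ + ‖M‖ + ‖S‖ + ‖L‖ := by
  have hI : ∀ z : ℂ, ‖z * I‖ = ‖z‖ := fun z => by rw [norm_mul, Complex.norm_I, mul_one]
  constructor
  · have e : M * I = A + H - S - L * I := by rw [h]; ring
    have h1 : ‖M‖ ≤ ‖A‖ + ‖H‖ + ‖S‖ + ‖L‖ := by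
      rw [← hI M, e]
      have := norm_sub_le (A + H - S) (L * I)
      have h2 := norm_sub_le (A + H) S
      have h3 := norm_add_le A H
      rw [hI] at this
      linarith
    linarith
  · rw [h]
    have h1 := norm_add_le (-H + M * I + S) (L * I)
    have h2 := norm_add_le (-H + M * I) S
    have h3 := norm_add_le (-H) (M * I)
    rw [hI] at h1 h3
    rw [norm_neg] at h3
    linarith

private theorem sr_core {δ a s b L0 L1 L2 : ℝ} (hδ : 0 < δ) (hs : 8 ≤ s) (hz : 499 / 10 * δ ≤ s)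
    (ha : 0 ≤ a) (ha2 : a ≤ 3 / 5) (hat : a ≤ 461 / 10000 * s) (hb : 0 ≤ b) (hb2 : b ≤ 5 / 8)
    (hL0 : ‖∫ y in Ioi (2 : ℝ), Wt δ (a + s * I) 0 b y‖ ≤ L0 * √(δ / s))
    (hL1 : ‖∫ y in Ioi (2 : ℝ), Wt δ (a + s * I) 1 b y‖ ≤ L1 * √(δ / s))
    (hL2 : ‖∫ y in Ioi (2 : ℝ), Wt δ (a + s * I) 2 b y‖ ≤ L2 * √(δ / s)) :
    (22891 / 10000 - L0) * √(δ / s) ≤ ‖AR δ b (a + s * I) 0‖ ∧
    ‖AR δ b (a + s * I) 1‖ ≤ (4196 / 10000 + L1) * √(δ / s) ∧
    ‖AR δ b (a + s * I) 2‖ ≤ (92 / 1000 + L2) * √(δ / s) := by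
  have hs0 : 0 < s := by linarith
  have hk1 : 0 < (347 / 1000 - 461 / 10000 / 3) * s := by
    have : (0 : ℝ) < 347 / 1000 - 461 / 10000 / 3 := by norm_num
    positivity
  have hk2 : 0 < 347 / 1000 * s := by positivity
  have g1 : ∀ y : ℝ, 0 ≤ y → y ≤ 2 →
      (347 / 1000 - 461 / 10000 / 3) * s * y ^ 2 ≤ Ht a s 0 (-y) :=
    fun y hy hy2 => ht_R_neg hs0 ha hat hy hy2
  have g2 : ∀ y : ℝ, 0 ≤ y → y ≤ 2 → 347 / 1000 * s * y ^ 2 ≤ Ht a s 0 y :=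
    fun y hy hy2 => ht_R_pos hs0 ha hy hy2
  have hlow := main_low (y1 := 2) (y2 := 2) hδ hs0 hk1 hk2 (by linarith) (by linarith)
    (by norm_num) (by norm_num) g1 g2
  have hup1 := main_up1 (y1 := 2) (y2 := 2) hδ hk1 hk2 (by norm_num) (by norm_num) g1 g2
  have hup2 := main_up2 (y1 := 2) (y2 := 2) hδ hk1 hk2 (by norm_num) (by norm_num) g1 g2
  have hH := fun (j : ℕ) (hj : j ≤ 2) => horizR hδ hs hz ha hat hj
  have hS := fun (j : ℕ) (hj : j ≤ 2) => stepR hδ hs hz ha hb hb2 hj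
  obtain ⟨x, hx⟩ : ∃ x, x = √(δ / s) := ⟨_, rfl⟩
  rw [← hx] at hL0 hL1 hL2 ⊢
  simp only [← hx] at hH hS
  have hx0 : 0 < x := by
    rw [hx]
    exact Real.sqrt_pos.2 (div_pos hδ hs0)
  have hx2 : x ^ 2 = δ / s := by
    rw [hx]
    exact Real.sq_sqrt (div_pos hδ hs0).le
  have hδx : δ = x ^ 2 * s := by
    rw [hx2]
    field_simp
  have hx2b : x ^ 2 ≤ 10 / 499 := by
    rw [hx2, div_le_iff₀ hs0]
    linarith
  have hxb : x ≤ 1416 / 10000 := by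
    refine (abs_le_of_sq_le_sq' ?_ (by norm_num)).2
    refine hx2b.trans ?_
    norm_num
  have hpi := Real.pi_gt_d4
  have hpi2 := Real.pi_lt_d4
  norm_num at hpi hpi2
  -- the Gaussian
  have e1 : 24968 / 10000 * x ≤ √(2 * Real.pi * δ / ‖1 - ((a : ℂ) + s * I)‖) := by
    have hn : ‖1 - ((a : ℂ) + s * I)‖ ≤ 100779 / 100000 * s := by
      have e : (1 : ℂ) - ((a : ℂ) + s * I) = ((1 - a : ℝ) : ℂ) + ((-s : ℝ) : ℂ) * I := by
        push_cast
        ring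
      rw [e, Complex.norm_add_mul_I, Real.sqrt_le_left (by positivity)]
      nlinarith
    have hn0 : 0 < ‖1 - ((a : ℂ) + s * I)‖ := by
      rw [norm_pos_iff]
      intro h
      have := congrArg Complex.im h
      simp at this
      linarith
    refine Real.le_sqrt_of_sq_le ?_
    rw [le_div_iff₀ hn0, mul_pow, hδx]
    have h1 : (24968 / 10000 : ℝ) ^ 2 * x ^ 2 * ‖1 - ((a : ℂ) + s * I)‖ ≤
        (24968 / 10000 : ℝ) ^ 2 * x ^ 2 * (100779 / 100000 * s) :=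
      mul_le_mul_of_nonneg_left hn (by positivity)
    have h2 : (24968 / 10000 : ℝ) ^ 2 * (100779 / 100000) * (x ^ 2 * s) ≤
        2 * Real.pi * (x ^ 2 * s) := by
      refine mul_le_mul_of_nonneg_right ?_ (by positivity)
      norm_num
      linarith
    linarith
  have e2 : ‖(a : ℂ) + s * I‖ * δ / 12 * (1 / ((347 / 1000 - 461 / 10000 / 3) * s) ^ 2 +
      1 / (347 / 1000 * s) ^ 2) ≤ 20552 / 100000 * x := by
    have hn : ‖(a : ℂ) + s * I‖ ≤ 100107 / 100000 * s := by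
      rw [Complex.norm_add_mul_I, Real.sqrt_le_left (by positivity)]
      have : a ^ 2 ≤ (461 / 10000 * s) ^ 2 := pow_le_pow_left₀ ha hat 2
      nlinarith
    have h1 : ‖(a : ℂ) + s * I‖ * δ / 12 * (1 / ((347 / 1000 - 461 / 10000 / 3) * s) ^ 2 +
        1 / (347 / 1000 * s) ^ 2) ≤ (100107 / 100000 * s) * δ / 12 *
        (1 / ((347 / 1000 - 461 / 10000 / 3) * s) ^ 2 + 1 / (347 / 1000 * s) ^ 2) := by
      gcongr
    refine h1.trans ?_
    have h2 : (100107 / 100000 * s) * δ / 12 *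
        (1 / ((347 / 1000 - 461 / 10000 / 3) * s) ^ 2 + 1 / (347 / 1000 * s) ^ 2) =
        (100107 / 100000 / 12 * (1 / (347 / 1000 - 461 / 10000 / 3) ^ 2 + 1 / (347 / 1000) ^ 2)) *
          x * x := by
      rw [hδx]
      field_simp
    rw [h2]
    have h3 : (100107 / 100000 / 12 * (1 / (347 / 1000 - 461 / 10000 / 3) ^ 2 +
        1 / (347 / 1000) ^ 2)) * x ≤ 20552 / 100000 := by
      refine (mul_le_mul_of_nonneg_left hxb (by norm_num)).trans ?_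
      norm_num
    exact mul_le_mul_of_nonneg_right h3 hx0.le
  have e3 : 5 / 4 * (δ / s) * Real.exp (-(32 / 25 * s / δ)) ≤ 18 / 100000 * x := by
    have h1 : Real.exp (-(32 / 25 * s / δ)) ≤ 1 / 1000 := by
      have h2 : (2.7 : ℝ) ^ 10 ≤ Real.exp 10 := by
        have h3 : Real.exp 10 = Real.exp 1 ^ 10 := by
          rw [← Real.exp_nat_mul]
          norm_num
        rw [h3]
        refine pow_le_pow_left₀ (by norm_num) ?_ 10
        have := Real.exp_one_gt_d9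
        norm_num at this ⊢
        linarith
      have h4 : (10 : ℝ) ≤ 32 / 25 * s / δ := by
        rw [le_div_iff₀ hδ]
        linarith
      calc Real.exp (-(32 / 25 * s / δ)) ≤ Real.exp (-10) := Real.exp_le_exp.2 (by linarith)
        _ = (Real.exp 10)⁻¹ := Real.exp_neg _
        _ ≤ ((2.7 : ℝ) ^ 10)⁻¹ := inv_anti₀ (by positivity) h2
        _ ≤ 1 / 1000 := by norm_num
    rw [← hx2]
    have h5 : 5 / 4 * x ^ 2 * Real.exp (-(32 / 25 * s / δ)) ≤ 5 / 4 * x ^ 2 * (1 / 1000) :=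
      mul_le_mul_of_nonneg_left h1 (by positivity)
    nlinarith
  have e4 : δ / 2 * (1 / ((347 / 1000 - 461 / 10000 / 3) * s) + 1 / (347 / 1000 * s)) ≤
      4176 / 10000 * x := by
    have h2 : δ / 2 * (1 / ((347 / 1000 - 461 / 10000 / 3) * s) + 1 / (347 / 1000 * s)) =
        (1 / 2 * (1 / (347 / 1000 - 461 / 10000 / 3) + 1 / (347 / 1000))) * x * x := by
      rw [hδx]
      field_simp
    rw [h2]
    have h3 : (1 / 2 * (1 / (347 / 1000 - 461 / 10000 / 3) + 1 / (347 / 1000))) * x ≤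
        4176 / 10000 := by
      refine (mul_le_mul_of_nonneg_left hxb (by norm_num)).trans ?_
      norm_num
    exact mul_le_mul_of_nonneg_right h3 hx0.le
  have e5 : √Real.pi / 4 * (δ / ((347 / 1000 - 461 / 10000 / 3) * s) *
      √(δ / ((347 / 1000 - 461 / 10000 / 3) * s)) + δ / (347 / 1000 * s) *
      √(δ / (347 / 1000 * s))) ≤ 90 / 1000 * x := by
    have r0 : √Real.pi ≤ 17725 / 10000 := by
      rw [Real.sqrt_le_left (by norm_num)]
      norm_num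
      linarith
    have d1 : δ / ((347 / 1000 - 461 / 10000 / 3) * s) =
        (1 / (347 / 1000 - 461 / 10000 / 3)) * x ^ 2 := by
      rw [hδx]
      field_simp
    have d2 : δ / (347 / 1000 * s) = (1 / (347 / 1000)) * x ^ 2 := by
      rw [hδx]
      field_simp
    have r1 : √(δ / ((347 / 1000 - 461 / 10000 / 3) * s)) ≤ 17365 / 10000 * x := by
      rw [Real.sqrt_le_left (by positivity), d1, mul_pow]
      exact mul_le_mul_of_nonneg_right (by norm_num) (by positivity)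
    have r2 : √(δ / (347 / 1000 * s)) ≤ 16977 / 10000 * x := by
      rw [Real.sqrt_le_left (by positivity), d2, mul_pow]
      exact mul_le_mul_of_nonneg_right (by norm_num) (by positivity)
    have h1 : √Real.pi / 4 * (δ / ((347 / 1000 - 461 / 10000 / 3) * s) *
        √(δ / ((347 / 1000 - 461 / 10000 / 3) * s)) + δ / (347 / 1000 * s) *
        √(δ / (347 / 1000 * s))) ≤ 17725 / 10000 / 4 *
        (δ / ((347 / 1000 - 461 / 10000 / 3) * s) * (17365 / 10000 * x) +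
          δ / (347 / 1000 * s) * (16977 / 10000 * x)) := by
      gcongr
    refine h1.trans ?_
    rw [d1, d2]
    have h2 : (17725 / 10000 / 4 : ℝ) * (1 / (347 / 1000 - 461 / 10000 / 3) * x ^ 2 *
        (17365 / 10000 * x) + 1 / (347 / 1000) * x ^ 2 * (16977 / 10000 * x)) =
        (17725 / 10000 / 4 * (1 / (347 / 1000 - 461 / 10000 / 3) * (17365 / 10000) +
          1 / (347 / 1000) * (16977 / 10000))) * x ^ 2 * x := by ring
    rw [h2]
    refine mul_le_mul_of_nonneg_right ?_ hx0.le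
    refine (mul_le_mul_of_nonneg_left hx2b (by norm_num)).trans ?_
    norm_num
  refine ⟨?_, ?_, ?_⟩
  · have h := (sr_tri (A := AR δ b (a + s * I) 0) rfl).1
    have h1 := hH 0 (by norm_num)
    have h2 := hS 0 (by norm_num)
    linarith
  · have h := (sr_tri (A := AR δ b (a + s * I) 1) rfl).2
    have h1 := hH 1 (by norm_num)
    have h2 := hS 1 (by norm_num)
    linarith
  · have h := (sr_tri (A := AR δ b (a + s * I) 2) rfl).2
    have h1 := hH 2 (by norm_num)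
    have h2 := hS 2 (by norm_num)
    linarith

private theorem sr_end {A B C : ℂ} {x l0 l1 l2 p q : ℝ} (hx : 0 < x) (hl0 : 0 < l0)
    (h0 : l0 * x ≤ ‖A‖) (h1 : ‖B‖ ≤ l1 * x) (h2 : ‖C‖ ≤ l2 * x) (hp : 0 ≤ p) (hq : 0 ≤ q)
    (h3 : l1 ≤ p * l0) (h4 : l2 ≤ q * l0) : A ≠ 0 ∧ ‖B‖ ≤ p * ‖A‖ ∧ ‖C‖ ≤ q * ‖A‖ := by
  have h5 : 0 < l0 * x := mul_pos hl0 hx
  refine ⟨?_, ?_, ?_⟩
  · rw [← norm_pos_iff]
    linarith
  · calc ‖B‖ ≤ l1 * x := h1
      _ ≤ (p * l0) * x := mul_le_mul_of_nonneg_right h3 hx.le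
      _ = p * (l0 * x) := by ring
      _ ≤ p * ‖A‖ := mul_le_mul_of_nonneg_left h0 hp
  · calc ‖C‖ ≤ l2 * x := h2
      _ ≤ (q * l0) * x := mul_le_mul_of_nonneg_right h4 hx.le
      _ = q * (l0 * x) := by ring
      _ ≤ q * ‖A‖ := mul_le_mul_of_nonneg_left h0 hq

theorem side_R_A {δ rho a s : ℝ} (hδ : 0 < δ) (h8 : 8 ≤ rho) (h13 : rho ≤ 13) (hz : 499 / 10 * δ ≤ rho)
    (ha : 0 ≤ a) (ha2 : a ≤ 3 / 5) (has : a ≤ 461 / 10000 * s) (hs : rho ≤ s) (hs2 : s ≤ rho * Real.exp a) :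
    AR δ (5 / rho) (a + s * I) 0 ≠ 0 ∧
    ‖AR δ (5 / rho) (a + s * I) 1‖ ≤ 3 / 10 * ‖AR δ (5 / rho) (a + s * I) 0‖ ∧
    ‖AR δ (5 / rho) (a + s * I) 2‖ ≤ 65 / 100 * ‖AR δ (5 / rho) (a + s * I) 0‖ := by
  obtain ⟨l0, l1, l2⟩ := liftR_A hδ h8 h13 hz ha ha2 hs hs2
  have hs0 : 0 < s := by linarith
  obtain ⟨h0, h1, h2⟩ := sr_core hδ (by linarith) (by linarith) ha ha2 has (b := 5 / rho)
    (by positivity) (div_le_div_of_nonneg_left (by norm_num) (by norm_num) h8) l0 l1 l2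
  exact sr_end (Real.sqrt_pos.2 (div_pos hδ hs0)) (by norm_num) h0 h1 h2 (by norm_num)
    (by norm_num) (by norm_num) (by norm_num)

theorem side_R_C {δ rho a s : ℝ} (hδ : 0 < δ) (h13 : 13 ≤ rho) (hz : 499 / 10 * δ ≤ rho)
    (hl : δ * rho ≤ 72552 / 10000)
    (ha : 0 ≤ a) (ha2 : a ≤ 3 / 5) (has : a ≤ 284 / 10000 * s) (hs : rho ≤ s) (hs2 : s ≤ rho * Real.exp a) :
    AR δ (5 / rho) (a + s * I) 0 ≠ 0 ∧
    ‖AR δ (5 / rho) (a + s * I) 1‖ ≤ 113 / 100 * ‖AR δ (5 / rho) (a + s * I) 0‖ ∧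
    ‖AR δ (5 / rho) (a + s * I) 2‖ ≤ 63 / 10 * ‖AR δ (5 / rho) (a + s * I) 0‖ := by
  obtain ⟨l0, l1, l2⟩ := liftR_C hδ h13 hz hl ha ha2 hs hs2
  have hs0 : 0 < s := by linarith
  obtain ⟨h0, h1, h2⟩ := sr_core hδ (by linarith) (by linarith) ha ha2 (by linarith)
    (b := 5 / rho) (by positivity)
    (div_le_div_of_nonneg_left (by norm_num) (by norm_num) (by linarith)) l0 l1 l2
  exact sr_end (Real.sqrt_pos.2 (div_pos hδ hs0)) (by norm_num) h0 h1 h2 (by norm_num)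
    (by norm_num) (by norm_num) (by norm_num)

end SokalN1
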