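import Pool.Agent.Lib_MP_af4de1_f1.N1Link
import Pool.Agent.Lib_MP_af4de1_f1.N1SR
import Pool.Agent.Lib_MP_af4de1_f1.N1SL
import Pool.Agent.Lib_MP_af4de1_f1.N1GeoR
import Pool.Agent.Lib_MP_af4de1_f1.N1GeoL
import Pool.Agent.Lib_MP_af4de1_f1.N1Crit

/-!
# N = 1, `rho > 8`: at most one zero on `|z| = r`, and it is simple

`50 ≤ r`, `8 < δ r`, `δ² r ≤ 7.2552`.
-/

set_option autoImplicit false

namespace SokalN1

open Complex

private theorem arctan_le {x : ℝ} (hx : 0 ≤ x) : Real.arctan x ≤ x := by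
  have h := Real.le_tan (Real.arctan_nonneg.2 hx) (Real.arctan_lt_pi_div_two x)
  rwa [Real.tan_arctan] at h

theorem U_point {δ rho ψ m : ℝ} (hδ : 0 < δ) (h8 : 8 ≤ rho) (hz : 499 / 10 * δ ≤ rho)
    (hl : δ * rho ≤ 72552 / 10000) (hψ : rho - Real.pi / 2 ≤ ψ) (hψ2 : ψ < rho - Real.pi / 2 + 2 * Real.pi)
    (hm : 0 < m)
    (h : (SokalF1.T1 δ (SokalF1.AL rho δ ψ) + SokalF1.T1 δ (SokalF1.AR rho δ ψ)) +
      m * (SokalF1.AL rho δ ψ 0 + SokalF1.AR rho δ ψ 0) = 0) :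
    0 < ((SokalF1.T2 δ (SokalF1.AL rho δ ψ) + SokalF1.T2 δ (SokalF1.AR rho δ ψ)) /
        (SokalF1.T1 δ (SokalF1.AL rho δ ψ) + SokalF1.T1 δ (SokalF1.AR rho δ ψ)) -
      (SokalF1.T1 δ (SokalF1.AL rho δ ψ) + SokalF1.T1 δ (SokalF1.AR rho δ ψ)) /
        (SokalF1.AL rho δ ψ 0 + SokalF1.AR rho δ ψ 0)).re := by
  have hr : 0 < rho := by linarith
  have hpi1 : 3.1415 < Real.pi := Real.pi_gt_d4
  have hpi2 : Real.pi < 3.1416 := Real.pi_lt_d4
  obtain ⟨φ, hφ⟩ : ∃ φ, φ = ψ - rho + Real.pi / 2 := ⟨_, rfl⟩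
  have hφ0 : 0 ≤ φ := by linarith
  have hφ1 : φ ≤ 2 * Real.pi := by linarith
  have hψe : φ + rho - Real.pi / 2 = ψ := by linarith
  obtain ⟨aR, sR, haR, haR2, hsR, hcR, hpR⟩ := sad_R h8 hφ0 hφ1
  obtain ⟨hR1, hR2, hR3, hR4⟩ := sad_R_facts h8 haR haR2 hsR hcR
  obtain ⟨aL, sL, haL, haL2, hsL, hcL, hpL⟩ := sad_L h8 hφ0 hφ1
  obtain ⟨hL1, hL2, hL3, hL4, hL5⟩ := sad_L_facts h8 hφ0 haL haL2 hsL hcL hpL
  have eR := sad_R_eq hr haR hsR hcR hpR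
  have eL := sad_L_eq hr haL hsL hcL hpL
  rw [hψe] at eR eL
  have hb : (0 : ℝ) < 5 / rho := by positivity
  have hsR8 : 8 ≤ sR := h8.trans hR1
  -- arctan bounds
  have tR0 : 0 ≤ Real.arctan (aR / sR) := Real.arctan_nonneg.2 (by positivity)
  have tR1 : Real.arctan (aR / sR) < Real.pi / 2 := Real.arctan_lt_pi_div_two _
  have tL0 : 0 ≤ Real.arctan (aL / sL) := Real.arctan_nonneg.2 (by positivity)
  have tRs : Real.arctan (aR / sR) ≤ 461 / 10000 := by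
    refine (arctan_le (by positivity)).trans ?_
    rw [div_le_iff₀ hsR]
    exact hR3
  have tLs : Real.arctan (aL / sL) ≤ 575 / 1000 := by
    refine (arctan_le (by positivity)).trans ?_
    rw [div_le_iff₀ hsL]
    exact hL4
  obtain ⟨cR, hcR0, r0, r1, r2⟩ := link_R (b := 5 / rho) hδ hr hb haR hsR8 hR3 eR (by linarith) (by linarith)
  obtain ⟨cL, hcL0, l0, l1, l2⟩ := link_L (b := 5 / rho) hδ hr hb haL (by linarith) hL4 eL
    (by linarith) (by linarith)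
  have hδc : (δ : ℂ) ≠ 0 := by exact_mod_cast hδ.ne'
  -- the algebra
  have fin : ∀ {eR eL VR VL p : ℝ},
      AR δ (5 / rho) (aR + sR * I) 0 ≠ 0 → AL δ (5 / rho) (-aL + sL * I) 0 ≠ 0 →
      ‖AR δ (5 / rho) (aR + sR * I) 1‖ ≤ eR * ‖AR δ (5 / rho) (aR + sR * I) 0‖ →
      ‖AR δ (5 / rho) (aR + sR * I) 2‖ ≤ VR * ‖AR δ (5 / rho) (aR + sR * I) 0‖ →
      ‖AL δ (5 / rho) (-aL + sL * I) 1‖ ≤ eL * ‖AL δ (5 / rho) (-aL + sL * I) 0‖ →
      ‖AL δ (5 / rho) (-aL + sL * I) 2‖ ≤ VL * ‖AL δ (5 / rho) (-aL + sL * I) 0‖ →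
      0 < p → p ≤ sR - sL - eR - eL → eR < sR → eL < sL →
      (aR + eR) * (aL + eL) * p + (δ + VR + eR ^ 2) * (sL + aL) + (δ + VL + eL ^ 2) * (sR + aR) <
        p * (sR - eR) * (sL - eL) →
      0 < ((SokalF1.T2 δ (SokalF1.AL rho δ ψ) + SokalF1.T2 δ (SokalF1.AR rho δ ψ)) /
        (SokalF1.T1 δ (SokalF1.AL rho δ ψ) + SokalF1.T1 δ (SokalF1.AR rho δ ψ)) -
      (SokalF1.T1 δ (SokalF1.AL rho δ ψ) + SokalF1.T1 δ (SokalF1.AR rho δ ψ)) /
        (SokalF1.AL rho δ ψ 0 + SokalF1.AR rho δ ψ 0)).re := by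
    intro eR eL VR VL p a1 a2 a3 a4 a5 a6 a7 a8 a9 a10 a11
    have key := crit (cR := cR) (cL := cL) hδ hm a1 a2 hcR0 hcL0 a3 a4 a5 a6 haR haL a7 a8 a9 a10 a11
      (R := SokalF1.AR rho δ ψ 0) (DR := SokalF1.T1 δ (SokalF1.AR rho δ ψ))
      (D2R := SokalF1.T2 δ (SokalF1.AR rho δ ψ)) (L := SokalF1.AL rho δ ψ 0)
      (DL := SokalF1.T1 δ (SokalF1.AL rho δ ψ)) (D2L := SokalF1.T2 δ (SokalF1.AL rho δ ψ)) r0 l0
      (by unfold SokalF1.T1; rw [r1]; ring) (by unfold SokalF1.T1; rw [l1]; ring)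
      (by unfold SokalF1.T2; rw [r0, r2]; ring) (by unfold SokalF1.T2; rw [l0, l2]; ring)
      (by rw [add_comm (SokalF1.T1 δ (SokalF1.AR rho δ ψ)), add_comm (SokalF1.AR rho δ ψ 0)]; exact h)
    rw [add_comm (SokalF1.T2 δ (SokalF1.AR rho δ ψ)), add_comm (SokalF1.T1 δ (SokalF1.AR rho δ ψ)),
      add_comm (SokalF1.AR rho δ ψ 0)] at key
    exact key
  rcases le_total rho 13 with h13 | h13
  · obtain ⟨b1, b2, b3⟩ := side_R_A hδ h8 h13 hz haR haR2 hR3 hR1 hR2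
    obtain ⟨c1, c2, c3⟩ := side_L_A hδ h8 h13 hz haL haL2 hL4 hL2 hL3 hL1
    have gap := sad_gap haR hsR haL hsL hpR hpL hR3 hL4
    have hδ2 : δ ≤ 2606 / 10000 := by linarith
    exact fin (p := 452 / 100) b1 c1 b2 b3 c2 c3 (by norm_num) (by linarith) (by linarith) (by linarith)
      (crit_A hδ hδ2 hsR8 haR hR3 hL3 haL haL2)
  · obtain ⟨b1, b2, b3⟩ := side_R_C hδ h13 hz hl haR haR2 (hR4 h13) hR1 hR2
    obtain ⟨c1, c2, c3⟩ := side_L_C hδ h13 hz hl haL (hL5 h13).1 (hL5 h13).2 hL2 hL1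
    have gap := sad_gap haR hsR haL hsL hpR hpL (hR4 h13) (hL5 h13).2
    have hδ2 : δ ≤ 3814 / 10000 := by
      by_contra hc
      push Not at hc
      nlinarith
    exact fin (p := 38 / 10) b1 c1 b2 b3 c2 c3 (by norm_num) (by linarith) (by linarith) (by linarith)
      (crit_C hδ hδ2 (h13.trans hR1) haR (hR4 h13) (by linarith) haL (hL5 h13).1)

theorem dist_big {δ r : ℝ} (hδ : 0 < δ) (hr : 50 ≤ r) (h8 : 8 < δ * r) (hl : δ ^ 2 * r ≤ 72552 / 10000) :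
    SokalFU.Dist δ r := by
  have hδ1 : δ < 1 := by
    by_contra hc
    push Not at hc
    nlinarith
  have hq : SokalFU.qa δ ≠ 1 := by
    unfold SokalFU.qa
    intro h1
    rw [Complex.exp_eq_one_iff] at h1
    obtain ⟨n, hn⟩ := h1
    have h2 : (δ : ℂ) * I = ((n * (2 * Real.pi) : ℝ) : ℂ) * I := by
      rw [hn]
      push_cast
      ring
    have h3 := mul_right_cancel₀ I_ne_zero h2
    have h4 : δ = n * (2 * Real.pi) := by exact_mod_cast h3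
    have hpi : 3 < Real.pi := Real.pi_gt_three
    have h5 : 0 < n := by
      by_contra hc
      push Not at hc
      have : (n : ℝ) ≤ 0 := by exact_mod_cast hc
      nlinarith
    have h6 : (1 : ℝ) ≤ n := by exact_mod_cast h5
    nlinarith
  have hε : 0 < min (1 / 10) (r - 8 / δ) := by
    refine lt_min (by norm_num) ?_
    rw [sub_pos, div_lt_iff₀ hδ]
    linarith
  refine SokalF1.dist_of_LR hδ hq hε (fun ρ => ρ - Real.pi / 2) ?_
  rintro ρ ψ hρ h1 h2 h3 h4 - ⟨m, hm, h5⟩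
  have e1 := min_le_left (1 / 10) (r - 8 / δ)
  have e2 := min_le_right (1 / 10) (r - 8 / δ)
  set ε := min (1 / 10) (r - 8 / δ)
  have h8' : 8 ≤ δ * (r - ε) := by
    have : 8 / δ ≤ r - ε := by linarith
    rw [div_le_iff₀ hδ] at this
    linarith
  have hz : 499 / 10 * δ ≤ ρ := by nlinarith
  have hl' : δ * ρ ≤ 72552 / 10000 := by nlinarith
  exact U_point hδ (h8'.trans h1.le) hz hl' h3 h4 hm h5

/-- the hypothesis `n1b` of `SokalV3.dist_F1_chain` -/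
theorem n1b (α r : ℝ) (hα : 0 < α) (hr : 50 ≤ r) (h8 : 8 < α * r) (h : 1 + (α * r) ^ 2 ≤ 7.2552 * r) :
    SokalFU.Dist α r := by
  refine dist_big hα hr h8 ?_
  have h1 : (α ^ 2 * r) * r ≤ 7.2552 * r := by nlinarith
  have h2 : α ^ 2 * r ≤ 7.2552 := le_of_mul_le_mul_right h1 (by linarith)
  norm_num at h2 ⊢
  linarith

end SokalN1
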