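import Pool.Agent.Lib_MP_af4de1_f1.N1Ht
import Pool.Agent.Lib_MP_af4de1_f1.N1Int
import Pool.Agent.Lib_MP_af4de1_fu.MInteg
import Pool.Agent.Lib_MP_af4de1_fu.MGauss

/-!
# F1, N = 1: the moments of a piece

`h = ε A + s I`, `λ = s/δ`, `M0 = Jp 1`, `M1 = Jp v`, `M2 = Jp v²` on the path with `x1 = 4/ρ`:
`|M0 - J| ≤ cubic + 13/5 e^(-.55 λ) + e^(C/ρδ) TB 0`, `|J| = (2πδ/|1-h|)^(1/2)`, `|M1| ≤ .. + 8 e^(-.55 λ) + e^(C/ρδ) TB 1`,
`|M2| ≤ .. + 25 e^(-.55 λ) + e^(C/ρδ) TB 2`.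
-/

set_option autoImplicit false

namespace SokalF1

open Complex SokalFU SokalF SokalFW SokalTI MeasureTheory Set

theorem norm_Ev {δ : ℝ} (h v : ℂ) : ‖cexp (Ev δ h v)‖ = Real.exp (-(ff h v) / δ) := norm_EE h v

theorem norm_Ev_le {δ : ℝ} (hδ : 0 < δ) {h v : ℂ} {b : ℝ} (hb : b ≤ ff h v) :
    ‖cexp (Ev δ h v)‖ ≤ Real.exp (-b / δ) := by
  rw [norm_Ev]
  exact Real.exp_le_exp.2 (div_le_div_of_nonneg_right (neg_le_neg hb) hδ.le)

theorem cont_Ev (δ : ℝ) (h : ℂ) : Continuous fun v : ℂ => cexp (Ev δ h v) := by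
  unfold Ev gg
  fun_prop

/-- the main leg: symmetric interval -/
theorem main_le {f : ℝ → ℂ} (hf : Continuous f) {g1 g2 : ℝ → ℝ} {T : ℝ} (hT : 0 ≤ T)
    (h1 : ∀ y, 0 ≤ y → y ≤ T → ‖f y‖ ≤ g1 y) (h2 : ∀ y, 0 ≤ y → y ≤ T → ‖f (-y)‖ ≤ g2 y)
    (i1 : IntegrableOn g1 (Ioi 0)) (i2 : IntegrableOn g2 (Ioi 0))
    (p1 : ∀ y, 0 < y → 0 ≤ g1 y) (p2 : ∀ y, 0 < y → 0 ≤ g2 y) :
    ‖∫ y in (-T)..T, f y‖ ≤ (∫ y in Ioi (0 : ℝ), g1 y) + ∫ y in Ioi (0 : ℝ), g2 y := by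
  have e : ∫ y in (-T)..T, f y = (∫ y in (0 : ℝ)..T, f y) + ∫ y in (0 : ℝ)..T, f (-y) := by
    rw [intervalIntegral.integral_comp_neg, neg_zero, add_comm,
      intervalIntegral.integral_add_adjacent_intervals (hf.intervalIntegrable _ _)
        (hf.intervalIntegrable _ _)]
  have key : ∀ {F : ℝ → ℂ} {g : ℝ → ℝ}, (∀ y, 0 ≤ y → y ≤ T → ‖F y‖ ≤ g y) →
      IntegrableOn g (Ioi 0) → (∀ y, 0 < y → 0 ≤ g y) →
      ‖∫ y in (0 : ℝ)..T, F y‖ ≤ ∫ y in Ioi (0 : ℝ), g y := by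
    intro F g hF hi hp
    rw [intervalIntegral.integral_of_le hT]
    refine (norm_integral_le_of_norm_le (hi.mono_set Ioc_subset_Ioi_self) ?_).trans ?_
    · rw [ae_restrict_iff' measurableSet_Ioc]
      exact Filter.Eventually.of_forall fun y hy => hF y hy.1.le hy.2
    · refine setIntegral_mono_set hi ?_ (Filter.Eventually.of_forall Ioc_subset_Ioi_self)
      rw [Filter.EventuallyLE, ae_restrict_iff' measurableSet_Ioi]
      exact Filter.Eventually.of_forall fun y hy => hp y hy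
  rw [e]
  exact (norm_add_le _ _).trans (add_le_add (key h1 i1 p1) (key h2 i2 p2))

/-- the data of a piece -/
structure Pc (δ ρ s A C κ ε : ℝ) : Prop where
  hδ : 0 < δ
  hρ : 8 ≤ ρ
  hε : ε = 1 ∨ ε = -1
  hA : 0 ≤ A
  hκ : 0 < κ
  hs : 2 ≤ s
  hlam : 12 * δ ≤ s
  hAs : 709 / 1000 * A ≤ 578 / 1000 * s
  hc1 : 3 * δ ≤ 1128 / 1000 * s - 17 / 10
  hc3 : (C - 34 / 5) / ρ ≤ (1128 / 1000 * κ - 11 / 20) * s
  ht : Hts ρ s A C κ (((ε * A : ℝ) : ℂ) + s * I) ε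

variable {δ ρ s A C κ ε : ℝ}

/-- the saddle point -/
noncomputable def hh (s A ε : ℝ) : ℂ := ((ε * A : ℝ) : ℂ) + s * I

theorem Pc.x1 (P : Pc δ ρ s A C κ ε) : 0 ≤ 4 / ρ ∧ 4 / ρ ≤ 1 / 2 := by
  have h := P.hρ
  constructor
  · positivity
  · rw [div_le_div_iff₀ (by linarith) (by norm_num)]
    linarith

theorem Pc.epsabs (P : Pc δ ρ s A C κ ε) : |ε| = 1 := by
  rcases P.hε with h | h <;> rw [h] <;> simp

theorem Pc.cin (P : Pc δ ρ s A C κ ε) : 0 < 39 / 100 * (s - 63 / 100 * A) := by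
  have h1 := P.hAs
  have h2 := P.hs
  have h3 := P.hA
  nlinarith

/-- the outer vertical leg -/
theorem Pc.out (P : Pc δ ρ s A C κ ε) (j : ℕ) (hj : j ≤ 2) :
    ‖∫ y in Ioi (17 / 10 : ℝ), (ε * (((4 / ρ : ℝ) : ℂ) + y * I)) ^ j *
      cexp (Ev δ (hh s A ε) (ε * (((4 / ρ : ℝ) : ℂ) + y * I)))‖ ≤
    29 / 20 * (73 / 20) ^ j * Real.exp (-(11 / 20 * s) / δ) +
      Real.exp (C / (ρ * δ)) * TB j (4 / (ρ * δ)) (κ * s / δ) (4 / ρ) := by
  have hδ := P.hδ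
  have hρ : 0 < ρ := by linarith [P.hρ]
  have hs : 0 < s := by linarith [P.hs]
  have hκ := P.hκ
  have hβ : 0 < 4 / (ρ * δ) := by positivity
  have hΛ : 0 < κ * s / δ := by positivity
  obtain ⟨x0, x1⟩ := P.x1
  have i1 := integrableOn_fT hβ hΛ x0 j (17 / 10)
  have hb : ∀ y ∈ Ioi (17 / 10 : ℝ), ‖(ε * (((4 / ρ : ℝ) : ℂ) + y * I)) ^ j *
      cexp (Ev δ (hh s A ε) (ε * (((4 / ρ : ℝ) : ℂ) + y * I)))‖ ≤
      Real.exp (C / (ρ * δ)) * fT j (4 / (ρ * δ)) (κ * s / δ) (4 / ρ) y := by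
    intro y hy
    have hy' : 17 / 10 < y := hy
    have h1 := norm_Ev_le hδ (P.ht.hv y hy'.le)
    have h2 : ‖((ε : ℂ) * (((4 / ρ : ℝ) : ℂ) + y * I))‖ ≤ y + 4 / ρ := by
      rw [norm_mul, Complex.norm_real, Real.norm_eq_abs, P.epsabs, one_mul]
      refine (norm_add_le _ _).trans ?_
      rw [Complex.norm_real, norm_mul, norm_I, mul_one, Complex.norm_real, Real.norm_of_nonneg x0,
        Real.norm_of_nonneg (by linarith)]
      linarith
    rw [norm_mul, norm_pow]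
    refine (mul_le_mul (pow_le_pow_left₀ (norm_nonneg _) h2 j) h1 (norm_nonneg _)
      (by positivity)).trans (le_of_eq ?_)
    unfold fT
    rw [mul_left_comm, ← Real.exp_add]
    congr 2
    field_simp
    ring
  have h3 : ‖∫ y in Ioi (17 / 10 : ℝ), (ε * (((4 / ρ : ℝ) : ℂ) + y * I)) ^ j *
      cexp (Ev δ (hh s A ε) (ε * (((4 / ρ : ℝ) : ℂ) + y * I)))‖ ≤
      ∫ y in Ioi (17 / 10 : ℝ), Real.exp (C / (ρ * δ)) *
        fT j (4 / (ρ * δ)) (κ * s / δ) (4 / ρ) y := by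
    refine norm_integral_le_of_norm_le (i1.const_mul _) ?_
    rw [ae_restrict_iff' measurableSet_Ioi]
    exact Filter.Eventually.of_forall hb
  refine h3.trans ?_
  rw [integral_const_mul]
  have h4 := int_outer hβ hΛ x0 x1 j hj
  have h5 : Real.exp (C / (ρ * δ)) * Real.exp (-(17 / 10 * (4 / (ρ * δ))) -
      1128 / 1000 * (κ * s / δ)) ≤ Real.exp (-(11 / 20 * s) / δ) := by
    rw [← Real.exp_add, Real.exp_le_exp]
    have h6 := P.hc3
    have h7 : C / (ρ * δ) + (-(17 / 10 * (4 / (ρ * δ))) - 1128 / 1000 * (κ * s / δ)) =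
        ((C - 34 / 5) / ρ - 1128 / 1000 * κ * s) / δ := by
      field_simp
      ring
    rw [h7, div_le_div_iff_of_pos_right hδ]
    linarith
  calc Real.exp (C / (ρ * δ)) * ∫ y in Ioi (17 / 10 : ℝ), fT j (4 / (ρ * δ)) (κ * s / δ) (4 / ρ) y
      ≤ Real.exp (C / (ρ * δ)) * (29 / 20 * (73 / 20) ^ j *
        Real.exp (-(17 / 10 * (4 / (ρ * δ))) - 1128 / 1000 * (κ * s / δ)) +
        TB j (4 / (ρ * δ)) (κ * s / δ) (4 / ρ)) := mul_le_mul_of_nonneg_left h4 (Real.exp_pos _).le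
    _ = 29 / 20 * (73 / 20) ^ j * (Real.exp (C / (ρ * δ)) *
        Real.exp (-(17 / 10 * (4 / (ρ * δ))) - 1128 / 1000 * (κ * s / δ))) +
        Real.exp (C / (ρ * δ)) * TB j (4 / (ρ * δ)) (κ * s / δ) (4 / ρ) := by ring
    _ ≤ _ := by
        have h8 : (0 : ℝ) ≤ 29 / 20 * (73 / 20) ^ j := by positivity
        linarith [mul_le_mul_of_nonneg_left h5 h8]

/-- the outer horizontal leg -/
theorem Pc.outh (P : Pc δ ρ s A C κ ε) (j : ℕ) :
    ‖∫ x in (0 : ℝ)..(4 / ρ), (ε * ((x : ℂ) + 17 / 10 * I)) ^ j *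
      cexp (Ev δ (hh s A ε) (ε * ((x : ℂ) + 17 / 10 * I)))‖ ≤
    1 / 2 * (11 / 5) ^ j * Real.exp (-(11 / 20 * s) / δ) := by
  have hδ := P.hδ
  obtain ⟨x0, x1⟩ := P.x1
  have h1 : ∀ x ∈ Set.uIoc (0 : ℝ) (4 / ρ), ‖(ε * ((x : ℂ) + 17 / 10 * I)) ^ j *
      cexp (Ev δ (hh s A ε) (ε * ((x : ℂ) + 17 / 10 * I)))‖ ≤
      (11 / 5) ^ j * Real.exp (-(11 / 20 * s) / δ) := by
    intro x hx
    rw [Set.uIoc_of_le x0] at hx
    have h1 := norm_Ev_le hδ (P.ht.houth x hx.1.le hx.2)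
    have h2 : ‖((ε : ℂ) * ((x : ℂ) + 17 / 10 * I))‖ ≤ 11 / 5 := by
      rw [norm_mul, Complex.norm_real, Real.norm_eq_abs, P.epsabs, one_mul]
      refine (norm_add_le _ _).trans ?_
      have h3 : ‖(17 / 10 * I : ℂ)‖ = 17 / 10 := by
        rw [norm_mul, norm_I, mul_one]
        norm_num
      rw [h3, Complex.norm_real, Real.norm_of_nonneg hx.1.le]
      linarith [hx.2]
    rw [norm_mul, norm_pow]
    exact mul_le_mul (pow_le_pow_left₀ (norm_nonneg _) h2 j) h1 (norm_nonneg _) (by positivity)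
  refine (intervalIntegral.norm_integral_le_of_norm_le_const h1).trans ?_
  rw [sub_zero, abs_of_nonneg x0]
  have h2 : (0 : ℝ) ≤ (11 / 5) ^ j * Real.exp (-(11 / 20 * s) / δ) := by positivity
  nlinarith

/-- the inner horizontal leg -/
theorem Pc.inh (P : Pc δ ρ s A C κ ε) (j : ℕ) (hj : j ≤ 2) :
    ‖∫ x in Ioi (0 : ℝ), ((x : ℂ) - ε * (17 / 10) * I) ^ j *
      cexp (Ev δ (hh s A ε) ((x : ℂ) - ε * (17 / 10) * I))‖ ≤
    (17 / 10) ^ j / (3 - j * (10 / 17)) * Real.exp (-(11 / 20 * s) / δ) := by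
  have hδ := P.hδ
  have hc1 := P.hc1
  have hAs := P.hAs
  have hj' : (j : ℝ) ≤ 2 := by exact_mod_cast hj
  have hj0 : (0 : ℝ) ≤ j := Nat.cast_nonneg j
  set σ := 1128 / 1000 * s - 17 / 10 with hσ
  have hτ : 0 < 3 - (j : ℝ) * (10 / 17) := by nlinarith
  have hσδ : 3 ≤ σ / δ := by rw [le_div_iff₀ hδ]; exact hc1
  have hb : ∀ x ∈ Ioi (0 : ℝ), ‖((x : ℂ) - ε * (17 / 10) * I) ^ j *
      cexp (Ev δ (hh s A ε) ((x : ℂ) - ε * (17 / 10) * I))‖ ≤
      (17 / 10) ^ j * Real.exp (-(11 / 20 * s + (3 - j * (10 / 17)) * δ * x) / δ) := by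
    intro x hx
    have hx' : 0 < x := hx
    have h1 := norm_Ev_le hδ (P.ht.hinh x hx'.le)
    have h2 : ‖((x : ℂ) - ε * (17 / 10) * I)‖ ≤ 17 / 10 * Real.exp (10 / 17 * x) := by
      have h3 : ‖((x : ℂ) - ε * (17 / 10) * I)‖ ≤ x + 17 / 10 := by
        refine (norm_sub_le _ _).trans ?_
        have h4 : ‖((ε : ℂ) * (17 / 10) * I)‖ = 17 / 10 := by
          rw [norm_mul, norm_I, mul_one, norm_mul, Complex.norm_real, Real.norm_eq_abs, P.epsabs,
            one_mul]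
          norm_num
        rw [h4, Complex.norm_real, Real.norm_of_nonneg hx'.le]
      have h5 := Real.add_one_le_exp (10 / 17 * x)
      linarith
    have h6 : ‖((x : ℂ) - ε * (17 / 10) * I)‖ ^ j ≤ (17 / 10) ^ j * Real.exp (j * (10 / 17 * x)) := by
      rw [Real.exp_nat_mul, ← mul_pow]
      exact pow_le_pow_left₀ (norm_nonneg _) h2 j
    rw [norm_mul, norm_pow]
    refine (mul_le_mul h6 h1 (norm_nonneg _) (by positivity)).trans ?_
    rw [mul_assoc, ← Real.exp_add]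
    refine mul_le_mul_of_nonneg_left (Real.exp_le_exp.2 ?_) (by positivity)
    have h7 : 3 * x ≤ σ / δ * x := mul_le_mul_of_nonneg_right hσδ hx'.le
    have h8 : 11 / 20 * s / δ ≤ (1128 / 1000 * s - 709 / 1000 * A) / δ := by
      apply div_le_div_of_nonneg_right _ hδ.le
      linarith
    have e1 : -(1128 / 1000 * s - 709 / 1000 * A + σ * x) / δ =
        -((1128 / 1000 * s - 709 / 1000 * A) / δ) - σ / δ * x := by ring
    have e2 : -(11 / 20 * s + (3 - (j : ℝ) * (10 / 17)) * δ * x) / δ =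
        -(11 / 20 * s / δ) - (3 - (j : ℝ) * (10 / 17)) * x := by
      field_simp
      ring
    rw [e1, e2]
    linarith
  have h9 := int_lin (b := 11 / 20 * s) (σ := (3 - (j : ℝ) * (10 / 17)) * δ) (by positivity) hδ
  have h3 : ‖∫ x in Ioi (0 : ℝ), ((x : ℂ) - ε * (17 / 10) * I) ^ j *
      cexp (Ev δ (hh s A ε) ((x : ℂ) - ε * (17 / 10) * I))‖ ≤
      ∫ x in Ioi (0 : ℝ), (17 / 10) ^ j *
        Real.exp (-(11 / 20 * s + (3 - j * (10 / 17)) * δ * x) / δ) := by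
    refine norm_integral_le_of_norm_le (h9.1.const_mul _) ?_
    rw [ae_restrict_iff' measurableSet_Ioi]
    exact Filter.Eventually.of_forall hb
  refine h3.trans (le_of_eq ?_)
  rw [integral_const_mul, h9.2]
  field_simp

/-- heights on the main leg, `ε` resolved -/
theorem Pc.main_ht (P : Pc δ ρ s A C κ ε) :
    (∀ y : ℝ, 0 ≤ y → y ≤ 17 / 10 → 39 / 100 * s * y ^ 2 ≤ ff (hh s A ε) ((y : ℂ) * I)) ∧
      (∀ y : ℝ, 0 ≤ y → y ≤ 17 / 10 → 39 / 100 * (s - 63 / 100 * A) * y ^ 2 ≤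
        ff (hh s A ε) (((-y : ℝ) : ℂ) * I)) ∨
    (∀ y : ℝ, 0 ≤ y → y ≤ 17 / 10 → 39 / 100 * (s - 63 / 100 * A) * y ^ 2 ≤
        ff (hh s A ε) ((y : ℂ) * I)) ∧
      (∀ y : ℝ, 0 ≤ y → y ≤ 17 / 10 → 39 / 100 * s * y ^ 2 ≤ ff (hh s A ε) (((-y : ℝ) : ℂ) * I)) := by
  have h : Hts ρ s A C κ (hh s A ε) ε := P.ht
  rcases P.hε with he | he
  · left
    constructor
    · intro y h0 h1
      have h2 := h.hout y h0 h1
      rwa [show ε * y = y by rw [he, one_mul]] at h2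
    · intro y h0 h1
      have h2 := h.hin y h0 h1
      rwa [show ε * y = y by rw [he, one_mul]] at h2
  · right
    constructor
    · intro y h0 h1
      have h2 := h.hin y h0 h1
      rwa [show -(ε * y) = y by rw [he]; ring] at h2
    · intro y h0 h1
      have h2 := h.hout y h0 h1
      rwa [show ε * y = -y by rw [he]; ring] at h2

/-- the main leg from bounds on the two halves -/
theorem Pc.main_of (P : Pc δ ρ s A C κ ε) {f : ℝ → ℂ} (hf : Continuous f) {g : ℝ → ℝ → ℝ}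
    (hg : ∀ c : ℝ, 0 < c → IntegrableOn (g c) (Ioi 0) ∧ ∀ y, 0 < y → 0 ≤ g c y)
    (h1 : ∀ y c : ℝ, 0 ≤ y → y ≤ 17 / 10 → 0 < c → c ≤ 39 / 100 * s →
      c * y ^ 2 ≤ ff (hh s A ε) ((y : ℂ) * I) → ‖f y‖ ≤ g c y)
    (h2 : ∀ y c : ℝ, 0 ≤ y → y ≤ 17 / 10 → 0 < c → c ≤ 39 / 100 * s →
      c * y ^ 2 ≤ ff (hh s A ε) (((-y : ℝ) : ℂ) * I) → ‖f (-y)‖ ≤ g c y) :
    ‖∫ y in (-(17 / 10) : ℝ)..(17 / 10), f y‖ ≤
      (∫ y in Ioi (0 : ℝ), g (39 / 100 * (s - 63 / 100 * A)) y) +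
        ∫ y in Ioi (0 : ℝ), g (39 / 100 * s) y := by
  have c1 := P.cin
  have c2 : 0 < 39 / 100 * s := by
    have := P.hs
    linarith
  have c3 : 39 / 100 * (s - 63 / 100 * A) ≤ 39 / 100 * s := by
    have := P.hA
    linarith
  have hT : (0 : ℝ) ≤ 17 / 10 := by norm_num
  rcases P.main_ht with ⟨a, b⟩ | ⟨a, b⟩
  · rw [add_comm]
    exact main_le hf hT (fun y h0 hy => h1 y _ h0 hy c2 le_rfl (a y h0 hy))
      (fun y h0 hy => h2 y _ h0 hy c1 c3 (b y h0 hy)) (hg _ c2).1 (hg _ c1).1 (hg _ c2).2 (hg _ c1).2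
  · exact main_le hf hT (fun y h0 hy => h1 y _ h0 hy c1 c3 (a y h0 hy))
      (fun y h0 hy => h2 y _ h0 hy c2 le_rfl (b y h0 hy)) (hg _ c1).1 (hg _ c2).1 (hg _ c1).2 (hg _ c2).2

theorem int_t1 {c δ : ℝ} (hc : 0 < c) (hδ : 0 < δ) :
    IntegrableOn (fun t : ℝ => t * Real.exp (-(c * t ^ 2) / δ)) (Ioi 0) ∧
    ∫ t in Ioi (0 : ℝ), t * Real.exp (-(c * t ^ 2) / δ) = δ / (2 * c) := by
  have hd : ∀ x : ℝ, HasDerivAt (fun t : ℝ => -(δ / (2 * c)) * Real.exp (-(c * t ^ 2) / δ))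
      (x * Real.exp (-(c * x ^ 2) / δ)) x := by
    intro x
    have h1 : HasDerivAt (fun t : ℝ => -(c * t ^ 2) / δ) (-(c * (2 * x)) / δ) x := by
      have := (((hasDerivAt_pow 2 x).const_mul c).neg).div_const δ
      simpa using this
    have h2 := (h1.exp).const_mul (-(δ / (2 * c)))
    refine h2.congr_deriv ?_
    field_simp
  have hlim : Filter.Tendsto (fun t : ℝ => -(δ / (2 * c)) * Real.exp (-(c * t ^ 2) / δ)) Filter.atTop
      (nhds 0) := by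
    have h1 : Filter.Tendsto (fun t : ℝ => c / δ * t ^ 2) Filter.atTop Filter.atTop :=
      (Filter.tendsto_pow_atTop two_ne_zero).const_mul_atTop (by positivity)
    have h2 := (Real.tendsto_exp_neg_atTop_nhds_zero.comp h1).const_mul (-(δ / (2 * c)))
    rw [mul_zero] at h2
    refine h2.congr fun t => ?_
    simp only [Function.comp]
    congr 2
    ring
  have hp : ∀ x ∈ Ioi (0 : ℝ), 0 ≤ x * Real.exp (-(c * x ^ 2) / δ) := fun x hx =>
    mul_nonneg (le_of_lt hx) (Real.exp_pos _).le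
  have h := integral_Ioi_of_hasDerivAt_of_nonneg' (fun x _ => hd x) hp hlim
  refine ⟨integrableOn_Ioi_deriv_of_nonneg' (fun x _ => hd x) hp hlim, ?_⟩
  rw [h]
  simp

theorem Pc.main1 (P : Pc δ ρ s A C κ ε) :
    ‖∫ y in (-(17 / 10) : ℝ)..(17 / 10), ((y : ℂ) * I) ^ 1 * cexp (Ev δ (hh s A ε) (y * I))‖ ≤
      δ / (39 / 50 * (s - 63 / 100 * A)) + δ / (39 / 50 * s) := by
  have hδ := P.hδ
  have hc := P.cin
  have hs := P.hs
  have h := P.main_of (f := fun y : ℝ => ((y : ℂ) * I) ^ 1 * cexp (Ev δ (hh s A ε) (y * I)))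
    (g := fun c t => t * Real.exp (-(c * t ^ 2) / δ))
    (((continuous_ofReal.mul continuous_const).pow 1).mul
      ((cont_Ev δ (hh s A ε)).comp (continuous_ofReal.mul continuous_const)))
    (fun c hc => ⟨(int_t1 hc hδ).1, fun y hy => mul_nonneg hy.le (Real.exp_pos _).le⟩)
    (fun y c h0 hy hc hc' hf => by
      rw [norm_mul, pow_one, norm_mul, norm_I, mul_one, Complex.norm_real, Real.norm_of_nonneg h0]
      exact mul_le_mul_of_nonneg_left (norm_Ev_le hδ hf) h0)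
    (fun y c h0 hy hc hc' hf => by
      rw [norm_mul, pow_one, norm_mul, norm_I, mul_one, Complex.norm_real, norm_neg,
        Real.norm_of_nonneg h0]
      exact mul_le_mul_of_nonneg_left (norm_Ev_le hδ hf) h0)
  refine h.trans (le_of_eq ?_)
  rw [(int_t1 hc hδ).2, (int_t1 (by linarith) hδ).2]
  congr 1 <;> congr 1 <;> ring

theorem Pc.main2 (P : Pc δ ρ s A C κ ε) :
    ‖∫ y in (-(17 / 10) : ℝ)..(17 / 10), ((y : ℂ) * I) ^ 2 * cexp (Ev δ (hh s A ε) (y * I))‖ ≤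
      √Real.pi / 4 * (δ / (39 / 100 * (s - 63 / 100 * A)) * √(δ / (39 / 100 * (s - 63 / 100 * A)))) +
      √Real.pi / 4 * (δ / (39 / 100 * s) * √(δ / (39 / 100 * s))) := by
  have hδ := P.hδ
  have hc := P.cin
  have hs := P.hs
  have h := P.main_of (f := fun y : ℝ => ((y : ℂ) * I) ^ 2 * cexp (Ev δ (hh s A ε) (y * I)))
    (g := fun c t => t ^ 2 * Real.exp (-(c * t ^ 2) / δ))
    (((continuous_ofReal.mul continuous_const).pow 2).mul
      ((cont_Ev δ (hh s A ε)).comp (continuous_ofReal.mul continuous_const)))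
    (fun c hc => ⟨(int_t2 hc hδ).1, fun y hy => mul_nonneg (sq_nonneg y) (Real.exp_pos _).le⟩)
    (fun y c h0 hy hc hc' hf => by
      rw [norm_mul, norm_pow, norm_mul, norm_I, mul_one, Complex.norm_real, Real.norm_of_nonneg h0]
      exact mul_le_mul_of_nonneg_left (norm_Ev_le hδ hf) (sq_nonneg y))
    (fun y c h0 hy hc hc' hf => by
      rw [norm_mul, norm_pow, norm_mul, norm_I, mul_one, Complex.norm_real, norm_neg,
        Real.norm_of_nonneg h0]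
      exact mul_le_mul_of_nonneg_left (norm_Ev_le hδ hf) (sq_nonneg y))
  refine h.trans (le_of_eq ?_)
  rw [(int_t2 hc hδ).2, (int_t2 (by linarith) hδ).2]

/-- the cubic term on the main leg -/
theorem cubic_pt {δ : ℝ} (hδ : 0 < δ) {h : ℂ} {y c : ℝ} (hc' : c ≤ 39 / 100 * h.im)
    (hs : 0 ≤ h.im) (hf : c * |y| ^ 2 ≤ ff h ((y : ℂ) * I)) :
    ‖cexp (Ev δ h (y * I)) - cexp (E2 δ h (y * I))‖ ≤
      ‖h‖ / (6 * δ) * (|y| ^ 3 * Real.exp (-(c * |y| ^ 2) / δ)) := by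
  have h1 := norm_exp_sub_exp_le (Ev δ h (y * I)) (E2 δ h (y * I))
  have hv : ((y : ℂ) * I).re = 0 := by simp
  have e1 : Ev δ h (y * I) - E2 δ h (y * I) =
      -(I / δ) * h * (cexp (y * I) - 1 - y * I - (y * I) ^ 2 / 2) := by
    unfold Ev E2 gg
    ring
  have h2 : ‖Ev δ h (y * I) - E2 δ h (y * I)‖ ≤ ‖h‖ / (6 * δ) * |y| ^ 3 := by
    rw [e1, norm_mul, norm_mul, norm_neg, norm_div, norm_I, Complex.norm_real,
      Real.norm_of_nonneg hδ.le]
    have h3 := taylor3_left (v := (y : ℂ) * I) hv.le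
    have h4 : ‖(y : ℂ) * I‖ = |y| := by
      rw [norm_mul, norm_I, mul_one, Complex.norm_real, Real.norm_eq_abs]
    rw [h4] at h3
    have h5 : 0 ≤ 1 / δ * ‖h‖ := by positivity
    refine (mul_le_mul_of_nonneg_left h3 h5).trans (le_of_eq ?_)
    field_simp
  have h6 : Real.exp (max (Ev δ h (y * I)).re (E2 δ h (y * I)).re) ≤ Real.exp (-(c * |y| ^ 2) / δ) := by
    rw [Real.exp_le_exp]
    apply max_le
    · have h7 := norm_Ev_le hδ hf
      rw [Complex.norm_exp, Real.exp_le_exp] at h7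
      exact h7
    · have h7 := norm_E2 (δ := δ) h ((y : ℂ) * I)
      rw [Complex.norm_exp, Real.exp_eq_exp] at h7
      rw [h7]
      apply div_le_div_of_nonneg_right _ hδ.le
      have h8 : ((1 - h) * ((y : ℂ) * I) ^ 2 / 2).im = h.im * y ^ 2 / 2 := by
        have e2 : (1 - h) * ((y : ℂ) * I) ^ 2 / 2 = ((y ^ 2 / 2 : ℝ) : ℂ) * (h - 1) := by
          rw [mul_pow, I_sq]
          push_cast
          ring
        rw [e2, im_ofReal_mul, sub_im, one_im]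
        ring
      rw [h8, sq_abs]
      nlinarith [sq_nonneg y]
  refine h1.trans ((mul_le_mul h2 h6 (Real.exp_pos _).le (by positivity)).trans (le_of_eq ?_))
  ring

theorem hh_im (s A ε : ℝ) : (hh s A ε).im = s := by
  unfold hh
  simp

theorem hh_re (s A ε : ℝ) : (hh s A ε).re = ε * A := by
  unfold hh
  simp

/-- the full Gauss integral -/
noncomputable def Jg (δ : ℝ) (h : ℂ) : ℂ := (∫ t : ℝ, cexp (E2 δ h (t * I))) * I

theorem quad_im (h : ℂ) (t : ℝ) : ((1 - h) * ((t : ℂ) * I) ^ 2 / 2).im = h.im / 2 * t ^ 2 := by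
  have e2 : (1 - h) * ((t : ℂ) * I) ^ 2 / 2 = ((t ^ 2 / 2 : ℝ) : ℂ) * (h - 1) := by
    rw [mul_pow, I_sq]
    push_cast
    ring
  rw [e2, im_ofReal_mul, sub_im, one_im]
  ring

theorem norm_Jg {δ : ℝ} (hδ : 0 < δ) {h : ℂ} (hs : 0 < h.im) :
    ‖Jg δ h‖ = √(2 * Real.pi * δ / ‖1 - h‖) :=
  gauss_norm hδ (c := h.im / 2) (by positivity) fun t => (quad_im h t).ge

theorem Pc.main0 (P : Pc δ ρ s A C κ ε) :
    ‖I * (∫ y in (-(17 / 10) : ℝ)..(17 / 10), cexp (Ev δ (hh s A ε) (y * I))) -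
      Jg δ (hh s A ε)‖ ≤
      ‖hh s A ε‖ * δ / 3 * (1 / (39 / 50 * (s - 63 / 100 * A)) ^ 2 + 1 / (39 / 50 * s) ^ 2) +
      1 / 10 * Real.exp (-(11 / 20 * s) / δ) := by
  have hδ := P.hδ
  have hc := P.cin
  have hs : 0 < s := by linarith [P.hs]
  have hlam := P.hlam
  set h := hh s A ε with hhd
  have him : h.im = s := hh_im s A ε
  set G : ℝ → ℂ := fun t => cexp (E2 δ h (t * I)) with hG
  have hGi : Integrable G := gauss_integrable hδ (c := h.im / 2) (by rw [him]; positivity)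
    fun t => (quad_im h t).ge
  have hGn : ∀ t : ℝ, ‖G t‖ = Real.exp (-(s / 2 * t ^ 2) / δ) := by
    intro t
    rw [hG]
    simp only
    rw [norm_E2, quad_im, him]
  have hGe : ∀ t : ℝ, G (-t) = G t := by
    intro t
    rw [hG]
    simp only
    congr 1
    unfold E2
    push_cast
    ring
  have hEc : Continuous fun y : ℝ => cexp (Ev δ h (y * I)) :=
    (cont_Ev δ h).comp (continuous_ofReal.mul continuous_const)
  have hGc : Continuous G := by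
    rw [hG]
    unfold E2
    fun_prop
  -- the cubic part
  have h1 := P.main_of (f := fun y : ℝ => cexp (Ev δ h (y * I)) - G y)
    (g := fun c t => ‖h‖ / (6 * δ) * (t ^ 3 * Real.exp (-(c * t ^ 2) / δ)))
    (hEc.sub hGc)
    (fun c hc => ⟨(int_t3 hc hδ).1.const_mul _, fun y hy => by positivity⟩)
    (fun y c h0 hy hc hc' hf => by
      have := cubic_pt hδ (h := h) (y := y) (c := c) (by rw [him]; exact hc') (by rw [him]; exact hs.le)
        (by rw [abs_of_nonneg h0]; exact hf)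
      rwa [abs_of_nonneg h0] at this)
    (fun y c h0 hy hc hc' hf => by
      have := cubic_pt hδ (h := h) (y := -y) (c := c) (by rw [him]; exact hc')
        (by rw [him]; exact hs.le) (by rw [abs_neg, abs_of_nonneg h0]; exact hf)
      rwa [abs_neg, abs_of_nonneg h0] at this)
  rw [integral_const_mul, integral_const_mul, (int_t3 hc hδ).2, (int_t3 (by linarith) hδ).2] at h1
  -- the tails
  have h2 := int_tail (c := s / 2) (δ := δ) (T := 17 / 10) (by positivity) hδ (by norm_num)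
  have h3 : ‖∫ t in Ioi (17 / 10 : ℝ), G t‖ ≤ δ / (s / 2 * (17 / 10)) *
      Real.exp (-(s / 2 * (17 / 10) ^ 2) / δ) := by
    refine (norm_integral_le_of_norm_le h2.1 ?_).trans h2.2
    exact Filter.Eventually.of_forall fun t => (hGn t).le
  have h4 : ∫ t in Iic (-(17 / 10) : ℝ), G t = ∫ t in Ioi (17 / 10 : ℝ), G t := by
    have := integral_comp_neg_Ioi (17 / 10 : ℝ) G
    rw [← this]
    congr 1
    funext t
    exact hGe t
  have h5 : ∫ t : ℝ, G t = (∫ t in Iic (-(17 / 10) : ℝ), G t) +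
      ((∫ t in (-(17 / 10) : ℝ)..(17 / 10), G t) + ∫ t in Ioi (17 / 10 : ℝ), G t) := by
    rw [intervalIntegral.integral_interval_add_Ioi hGi.integrableOn hGi.integrableOn,
      intervalIntegral.integral_Iic_add_Ioi hGi.integrableOn hGi.integrableOn]
  have h6 : I * (∫ y in (-(17 / 10) : ℝ)..(17 / 10), cexp (Ev δ h (y * I))) - Jg δ h =
      I * ((∫ y in (-(17 / 10) : ℝ)..(17 / 10), (cexp (Ev δ h (y * I)) - G y)) -
        2 * ∫ t in Ioi (17 / 10 : ℝ), G t) := by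
    rw [intervalIntegral.integral_sub (hEc.intervalIntegrable _ _) (hGc.intervalIntegrable _ _)]
    have h7 : Jg δ h = (∫ t : ℝ, G t) * I := rfl
    rw [h7, h5, h4]
    ring
  rw [h6, norm_mul, norm_I, one_mul]
  refine (norm_sub_le _ _).trans ?_
  rw [norm_mul, RCLike.norm_ofNat]
  refine add_le_add (h1.trans (le_of_eq ?_)) ?_
  · have hc0 : s - 63 / 100 * A ≠ 0 := by
      intro h0
      rw [h0, mul_zero] at hc
      exact lt_irrefl _ hc
    field_simp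
    ring
  · refine (mul_le_mul_of_nonneg_left h3 (by norm_num)).trans ?_
    have h8 : Real.exp (-(s / 2 * (17 / 10) ^ 2) / δ) ≤ 1 / 2 * Real.exp (-(11 / 20 * s) / δ) := by
      have h9 : (1 : ℝ) ≤ 179 / 200 * (s / δ) := by
        have : 12 ≤ s / δ := by rw [le_div_iff₀ hδ]; linarith
        linarith
      have h10 : -(s / 2 * (17 / 10) ^ 2) / δ = -(179 / 200 * (s / δ)) + -(11 / 20 * s) / δ := by
        ring
      rw [h10, Real.exp_add]
      refine mul_le_mul_of_nonneg_right ?_ (Real.exp_pos _).le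
      have h11 : Real.exp (-(179 / 200 * (s / δ))) ≤ Real.exp (-1) := Real.exp_le_exp.2 (by linarith)
      have h12 : Real.exp (-1) ≤ 1 / 2 := by
        rw [Real.exp_neg, one_div]
        exact inv_anti₀ (by norm_num) (by linarith [Real.add_one_le_exp (1 : ℝ)])
      exact h11.trans h12
    have h13 : δ / (s / 2 * (17 / 10)) ≤ 1 / 10 := by
      rw [div_le_div_iff₀ (by positivity) (by norm_num)]
      linarith
    have h14 : 0 < Real.exp (-(11 / 20 * s) / δ) := Real.exp_pos _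
    calc 2 * (δ / (s / 2 * (17 / 10)) * Real.exp (-(s / 2 * (17 / 10) ^ 2) / δ))
        ≤ 2 * (1 / 10 * (1 / 2 * Real.exp (-(11 / 20 * s) / δ))) := by
          refine mul_le_mul_of_nonneg_left ?_ (by norm_num)
          exact mul_le_mul h13 h8 (Real.exp_pos _).le (by norm_num)
      _ = _ := by ring

/-- the moments -/
noncomputable def MM (δ ρ s A ε : ℝ) (j : ℕ) : ℂ := Jp (fun v => v ^ j) δ (hh s A ε) (4 / ρ) ε

theorem Pc.rest (P : Pc δ ρ s A C κ ε) (j : ℕ) (hj : j ≤ 2) :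
    ‖MM δ ρ s A ε j - I * (∫ y in (-(17 / 10) : ℝ)..(17 / 10), ((y : ℂ) * I) ^ j *
      cexp (Ev δ (hh s A ε) (y * I)))‖ ≤
    (29 / 20 * (73 / 20) ^ j + 1 / 2 * (11 / 5) ^ j + (17 / 10) ^ j / (3 - j * (10 / 17))) *
      Real.exp (-(11 / 20 * s) / δ) +
      Real.exp (C / (ρ * δ)) * TB j (4 / (ρ * δ)) (κ * s / δ) (4 / ρ) := by
  have h1 := P.out j hj
  have h2 := P.outh j
  have h3 := P.inh j hj
  unfold MM Jp
  set X0 := I * (∫ y in (-(17 / 10) : ℝ)..(17 / 10), ((y : ℂ) * I) ^ j *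
      cexp (Ev δ (hh s A ε) (y * I))) with hX0
  set X1 := ∫ y in Ioi (17 / 10 : ℝ), (ε * (((4 / ρ : ℝ) : ℂ) + y * I)) ^ j *
      cexp (Ev δ (hh s A ε) (ε * (((4 / ρ : ℝ) : ℂ) + y * I))) with hX1
  set X2 := ∫ x in (0 : ℝ)..(4 / ρ), (ε * ((x : ℂ) + 17 / 10 * I)) ^ j *
      cexp (Ev δ (hh s A ε) (ε * ((x : ℂ) + 17 / 10 * I))) with hX2
  set X3 := ∫ x in Ioi (0 : ℝ), ((x : ℂ) - ε * (17 / 10) * I) ^ j *
      cexp (Ev δ (hh s A ε) ((x : ℂ) - ε * (17 / 10) * I)) with hX3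
  have e : X0 + I * X1 + X2 - ε * X3 - X0 = I * X1 + X2 - ε * X3 := by ring
  rw [e]
  have h4 : ‖I * X1 + X2 - ε * X3‖ ≤ ‖X1‖ + ‖X2‖ + ‖X3‖ := by
    refine (norm_sub_le _ _).trans (add_le_add ((norm_add_le _ _).trans (le_of_eq ?_)) (le_of_eq ?_))
    · rw [norm_mul, norm_I, one_mul]
    · rw [norm_mul, Complex.norm_real, Real.norm_eq_abs, P.epsabs, one_mul]
  refine h4.trans ((add_le_add (add_le_add h1 h2) h3).trans (le_of_eq ?_))
  ring

/-- the bound of the zeroth moment -/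
theorem Pc.mom0 (P : Pc δ ρ s A C κ ε) :
    ‖MM δ ρ s A ε 0 - Jg δ (hh s A ε)‖ ≤
      ‖hh s A ε‖ * δ / 3 * (1 / (39 / 50 * (s - 63 / 100 * A)) ^ 2 + 1 / (39 / 50 * s) ^ 2) +
      13 / 5 * Real.exp (-(11 / 20 * s) / δ) +
      Real.exp (C / (ρ * δ)) * TB 0 (4 / (ρ * δ)) (κ * s / δ) (4 / ρ) := by
  have h1 := P.rest 0 (by norm_num)
  have h2 := P.main0
  simp only [pow_zero, one_mul] at h1
  have e : MM δ ρ s A ε 0 - Jg δ (hh s A ε) = (MM δ ρ s A ε 0 -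
      I * (∫ y in (-(17 / 10) : ℝ)..(17 / 10), cexp (Ev δ (hh s A ε) (y * I)))) +
      (I * (∫ y in (-(17 / 10) : ℝ)..(17 / 10), cexp (Ev δ (hh s A ε) (y * I))) -
        Jg δ (hh s A ε)) := by ring
  rw [e]
  refine (norm_add_le _ _).trans ((add_le_add h1 h2).trans ?_)
  have h3 := Real.exp_pos (-(11 / 20 * s) / δ)
  norm_num
  norm_num at h3
  linarith

theorem Pc.mom1 (P : Pc δ ρ s A C κ ε) :
    ‖MM δ ρ s A ε 1‖ ≤ δ / (39 / 50 * (s - 63 / 100 * A)) + δ / (39 / 50 * s) +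
      8 * Real.exp (-(11 / 20 * s) / δ) +
      Real.exp (C / (ρ * δ)) * TB 1 (4 / (ρ * δ)) (κ * s / δ) (4 / ρ) := by
  have h1 := P.rest 1 (by norm_num)
  have h2 := P.main1
  have e : MM δ ρ s A ε 1 = (MM δ ρ s A ε 1 - I * (∫ y in (-(17 / 10) : ℝ)..(17 / 10),
      ((y : ℂ) * I) ^ 1 * cexp (Ev δ (hh s A ε) (y * I)))) +
      I * (∫ y in (-(17 / 10) : ℝ)..(17 / 10), ((y : ℂ) * I) ^ 1 *
        cexp (Ev δ (hh s A ε) (y * I))) := by ring
  rw [e]
  refine (norm_add_le _ _).trans ?_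
  rw [norm_mul I, norm_I, one_mul]
  refine (add_le_add h1 h2).trans ?_
  have h3 := Real.exp_pos (-(11 / 20 * s) / δ)
  have h4 : (29 / 20 * (73 / 20) ^ 1 + 1 / 2 * (11 / 5) ^ 1 + (17 / 10) ^ 1 /
      (3 - ((1 : ℕ) : ℝ) * (10 / 17)) : ℝ) ≤ 8 := by norm_num
  nlinarith [mul_le_mul_of_nonneg_right h4 h3.le]

theorem Pc.mom2 (P : Pc δ ρ s A C κ ε) :
    ‖MM δ ρ s A ε 2‖ ≤
      √Real.pi / 4 * (δ / (39 / 100 * (s - 63 / 100 * A)) * √(δ / (39 / 100 * (s - 63 / 100 * A)))) +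
      √Real.pi / 4 * (δ / (39 / 100 * s) * √(δ / (39 / 100 * s))) +
      25 * Real.exp (-(11 / 20 * s) / δ) +
      Real.exp (C / (ρ * δ)) * TB 2 (4 / (ρ * δ)) (κ * s / δ) (4 / ρ) := by
  have h1 := P.rest 2 (by norm_num)
  have h2 := P.main2
  have e : MM δ ρ s A ε 2 = (MM δ ρ s A ε 2 - I * (∫ y in (-(17 / 10) : ℝ)..(17 / 10),
      ((y : ℂ) * I) ^ 2 * cexp (Ev δ (hh s A ε) (y * I)))) +
      I * (∫ y in (-(17 / 10) : ℝ)..(17 / 10), ((y : ℂ) * I) ^ 2 *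
        cexp (Ev δ (hh s A ε) (y * I))) := by ring
  rw [e]
  refine (norm_add_le _ _).trans ?_
  rw [norm_mul I, norm_I, one_mul]
  refine (add_le_add h1 h2).trans ?_
  have h3 := Real.exp_pos (-(11 / 20 * s) / δ)
  have h4 : (29 / 20 * (73 / 20) ^ 2 + 1 / 2 * (11 / 5) ^ 2 + (17 / 10) ^ 2 /
      (3 - ((2 : ℕ) : ℝ) * (10 / 17)) : ℝ) ≤ 25 := by norm_num
  nlinarith [mul_le_mul_of_nonneg_right h4 h3.le]

end SokalF1
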