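import Pool.Agent.Lib_MP_af4de1_f1.N1Rep

/-!
# F1, N = 1: the two paths

`Jp w δ h x1 ε`: `ε = 1` the right piece: from `+∞ - 1.7 i` to `-1.7 i`, up to `1.7 i`, to `x1 + 1.7 i`, up to infinity;
`ε = -1` the left piece: from `-x1 - i ∞` up to `-x1 - 1.7 i`, to `-1.7 i`, up to `1.7 i`, to `+∞ + 1.7 i`.
-/

set_option autoImplicit false

namespace SokalF1

open Complex SokalFU SokalF SokalFW SokalTI MeasureTheory Set

/-- the integral over the path with the weight `w` -/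
noncomputable def Jp (w : ℂ → ℂ) (δ : ℝ) (h : ℂ) (x1 ε : ℝ) : ℂ :=
  I * (∫ y in (-(17 / 10) : ℝ)..(17 / 10), w (y * I) * cexp (Ev δ h (y * I))) +
  I * (∫ y in Ioi (17 / 10 : ℝ), w (ε * (x1 + y * I)) * cexp (Ev δ h (ε * (x1 + y * I)))) +
  (∫ x in (0 : ℝ)..x1, w (ε * (x + 17 / 10 * I)) * cexp (Ev δ h (ε * (x + 17 / 10 * I)))) -
  ε * ∫ x in Ioi (0 : ℝ), w (x - ε * (17 / 10) * I) * cexp (Ev δ h (x - ε * (17 / 10) * I))

/-- the integrand with the weight `v^j` around `g0` -/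
noncomputable def vk (ρ δ ψ : ℝ) (g0 : ℂ) (j : ℕ) (g : ℂ) : ℂ := (g - g0) ^ j * kk ρ δ ψ g

theorem Adm_vk (ρ δ ψ : ℝ) (g0 : ℂ) (j : ℕ) : Adm δ ρ ψ (vk ρ δ ψ g0 j) := by
  induction j with
  | zero =>
    have h : vk ρ δ ψ g0 0 = kk ρ δ ψ := by
      funext g
      simp [vk]
    rw [h]
    exact Adm.kk δ ρ ψ
  | succ n ih =>
    have h : vk ρ δ ψ g0 (n + 1) = fun g => g * vk ρ δ ψ g0 n g + (-g0) * vk ρ δ ψ g0 n g := by
      funext g
      unfold vk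
      ring
    rw [h]
    exact ih.id_mul.add (ih.const_mul _)

theorem vk_saddle {ρ δ ψ : ℝ} {h : ℂ} (hh : h * cexp (-h) = ρ * cexp (-(I * ψ))) (j : ℕ) (v : ℂ) :
    vk ρ δ ψ (h - ψ * I) j (h - ψ * I + v) = kS δ ψ h * (v ^ j * cexp (Ev δ h v)) := by
  have h3 := hk_saddle (δ := δ) hh 0 v
  unfold hk at h3
  unfold vk
  rw [pow_zero, one_mul, pow_zero, one_mul] at h3
  rw [h3]
  have h4 : h - ψ * I + v - (h - ψ * I) = v := by ring
  rw [h4]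
  ring

theorem shift_Ioi (f : ℝ → ℂ) (a : ℝ) : ∫ t in Ioi (0 : ℝ), f (a + t) = ∫ y in Ioi a, f y := by
  have h := (measurePreserving_add_left (volume : Measure ℝ) a).setIntegral_preimage_emb
    (measurableEmbedding_addLeft a) f (Ioi a)
  rwa [preimage_const_add_Ioi, sub_self] at h

theorem right_path {ρ δ ψ x1 : ℝ} {h : ℂ} (hδ : 0 < δ) (hρ : 0 < ρ)
    (hh : h * cexp (-h) = ρ * cexp (-(I * ψ))) (h0 : 0 < h.re + x1)
    (h1 : -Real.pi < h.im - ψ - 17 / 10) (h2 : h.im - ψ - 17 / 10 < 0) (j : ℕ) :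
    Rw (vk ρ δ ψ (h - ψ * I) j) = kS δ ψ h * Jp (fun v => v ^ j) δ h x1 1 := by
  have hA := Adm_vk ρ δ ψ (h - ψ * I) j
  obtain ⟨P, hP⟩ := hA.prim
  set k := vk ρ δ ψ (h - ψ * I) j with hk
  set g0 : ℂ := h - ψ * I with hg0
  have hs : ∀ v : ℂ, k (g0 + v) = kS δ ψ h * (v ^ j * cexp (Ev δ h v)) := fun v =>
    vk_saddle hh j v
  have e0 := hA.Rw_eq hδ hρ hP (g0 := g0 + x1 + 17 / 10 * I) (g1 := g0 - 17 / 10 * I)
    (by simp [hg0]; linarith) (by simp [hg0]; linarith) (by simp [hg0]; linarith)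
  have s1 := seg_int hA.cont hP (g0 + 17 / 10 * I) 1 0 x1
  have s2 := seg_int hA.cont hP g0 I (-(17 / 10)) (17 / 10)
  have i1 : IT k (g0 + x1 + 17 / 10 * I) = kS δ ψ h * (I * ∫ y in Ioi (17 / 10 : ℝ),
      (((1 : ℝ) : ℂ) * (x1 + y * I)) ^ j * cexp (Ev δ h (((1 : ℝ) : ℂ) * (x1 + y * I)))) := by
    unfold IT
    have q : (∫ t in Ioi (0 : ℝ), k (g0 + x1 + 17 / 10 * I + t * I)) = kS δ ψ h *
        ∫ t in Ioi (0 : ℝ), (((1 : ℝ) : ℂ) * (x1 + ((17 / 10 + t : ℝ) : ℂ) * I)) ^ j *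
          cexp (Ev δ h (((1 : ℝ) : ℂ) * (x1 + ((17 / 10 + t : ℝ) : ℂ) * I))) := by
      rw [← integral_const_mul]
      congr 1
      funext t
      rw [← hs]
      congr 1
      push_cast
      ring
    rw [← shift_Ioi (fun y : ℝ => (((1 : ℝ) : ℂ) * (x1 + y * I)) ^ j *
      cexp (Ev δ h (((1 : ℝ) : ℂ) * (x1 + y * I)))) (17 / 10), q]
    ring
  have i2 : IV k (g0 - 17 / 10 * I) = kS δ ψ h * (((1 : ℝ) : ℂ) * ∫ x in Ioi (0 : ℝ),
      (x - ((1 : ℝ) : ℂ) * (17 / 10) * I) ^ j *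
        cexp (Ev δ h (x - ((1 : ℝ) : ℂ) * (17 / 10) * I))) := by
    unfold IV
    rw [ofReal_one, one_mul, ← integral_const_mul]
    congr 1
    funext t
    rw [← hs]
    congr 1
    ring
  have i3 : P (g0 + 17 / 10 * I + x1) - P (g0 + 17 / 10 * I) = kS δ ψ h *
      ∫ x in (0 : ℝ)..x1, (((1 : ℝ) : ℂ) * (x + 17 / 10 * I)) ^ j *
        cexp (Ev δ h (((1 : ℝ) : ℂ) * (x + 17 / 10 * I))) := by
    rw [ofReal_zero, zero_mul, add_zero, mul_one, one_mul] at s1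
    rw [← s1, ← intervalIntegral.integral_const_mul]
    congr 1
    funext t
    rw [← hs]
    congr 1
    push_cast
    ring
  have i4 : P (g0 + 17 / 10 * I) - P (g0 - 17 / 10 * I) = kS δ ψ h *
      (I * ∫ y in (-(17 / 10) : ℝ)..(17 / 10), (y * I) ^ j * cexp (Ev δ h (y * I))) := by
    have e1 : g0 + ((17 / 10 : ℝ) : ℂ) * I = g0 + 17 / 10 * I := by push_cast; ring
    have e2 : g0 + ((-(17 / 10) : ℝ) : ℂ) * I = g0 - 17 / 10 * I := by push_cast; ring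
    rw [e1, e2] at s2
    have q : (∫ t in (-(17 / 10) : ℝ)..(17 / 10), k (g0 + t * I)) = kS δ ψ h *
        ∫ y in (-(17 / 10) : ℝ)..(17 / 10), (y * I) ^ j * cexp (Ev δ h (y * I)) := by
      rw [← intervalIntegral.integral_const_mul]
      congr 1
      funext t
      rw [← hs]
    rw [← s2, q]
    ring
  rw [e0, i1, i2]
  have e3 : g0 + x1 + 17 / 10 * I = g0 + 17 / 10 * I + x1 := by ring
  rw [e3]
  unfold Jp
  linear_combination i3 + i4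

theorem left_path {ρ δ ψ x1 : ℝ} {h : ℂ} (hδ : 0 < δ) (hρ : 0 < ρ)
    (hh : h * cexp (-h) = ρ * cexp (-(I * ψ))) (h0 : h.re - x1 < 0)
    (h1 : -Real.pi < h.im - ψ + 17 / 10) (h2 : h.im - ψ + 17 / 10 < 0) (j : ℕ) :
    Lw (vk ρ δ ψ (h - ψ * I) j) = kS δ ψ h * Jp (fun v => v ^ j) δ h x1 (-1) := by
  have hA := Adm_vk ρ δ ψ (h - ψ * I) j
  obtain ⟨P, hP⟩ := hA.prim
  set k := vk ρ δ ψ (h - ψ * I) j with hk
  set g0 : ℂ := h - ψ * I with hg0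
  have hs : ∀ v : ℂ, k (g0 + v) = kS δ ψ h * (v ^ j * cexp (Ev δ h v)) := fun v =>
    vk_saddle hh j v
  have hb : BDir ψ (g0 - x1 - 17 / 10 * I) I := BDir_vert (by simp [hg0]; linarith)
  have e0 := hA.Lw_eq hδ hρ hP hb (g1 := g0 + 17 / 10 * I)
    (by simp [hg0]; linarith) (by simp [hg0]; linarith)
  have s1 := seg_int hA.cont hP (g0 - 17 / 10 * I) (-1) 0 x1
  have s2 := seg_int hA.cont hP g0 I (-(17 / 10)) (17 / 10)
  have i1 : IB k (g0 - x1 - 17 / 10 * I) I = kS δ ψ h * (I * ∫ y in Ioi (17 / 10 : ℝ),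
      (((-1 : ℝ) : ℂ) * (x1 + y * I)) ^ j * cexp (Ev δ h (((-1 : ℝ) : ℂ) * (x1 + y * I)))) := by
    unfold IB
    have q : (∫ t in Ioi (0 : ℝ), k (g0 - x1 - 17 / 10 * I + t * (-I))) = kS δ ψ h *
        ∫ t in Ioi (0 : ℝ), (((-1 : ℝ) : ℂ) * (x1 + ((17 / 10 + t : ℝ) : ℂ) * I)) ^ j *
          cexp (Ev δ h (((-1 : ℝ) : ℂ) * (x1 + ((17 / 10 + t : ℝ) : ℂ) * I))) := by
      rw [← integral_const_mul]
      congr 1
      funext t
      rw [← hs]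
      congr 1
      push_cast
      ring
    rw [← shift_Ioi (fun y : ℝ => (((-1 : ℝ) : ℂ) * (x1 + y * I)) ^ j *
      cexp (Ev δ h (((-1 : ℝ) : ℂ) * (x1 + y * I)))) (17 / 10), q]
    ring
  have i2 : IV k (g0 + 17 / 10 * I) = kS δ ψ h * ∫ x in Ioi (0 : ℝ),
      (x - ((-1 : ℝ) : ℂ) * (17 / 10) * I) ^ j *
        cexp (Ev δ h (x - ((-1 : ℝ) : ℂ) * (17 / 10) * I)) := by
    unfold IV
    rw [← integral_const_mul]
    congr 1
    funext t
    rw [← hs]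
    congr 1
    push_cast
    ring
  have i3 : P (g0 - 17 / 10 * I) - P (g0 - 17 / 10 * I - x1) = kS δ ψ h *
      ∫ x in (0 : ℝ)..x1, (((-1 : ℝ) : ℂ) * (x + 17 / 10 * I)) ^ j *
        cexp (Ev δ h (((-1 : ℝ) : ℂ) * (x + 17 / 10 * I))) := by
    have e1 : g0 - 17 / 10 * I + (x1 : ℂ) * (-1) = g0 - 17 / 10 * I - x1 := by ring
    have e2 : g0 - 17 / 10 * I + ((0 : ℝ) : ℂ) * (-1) = g0 - 17 / 10 * I := by push_cast; ring
    rw [e1, e2] at s1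
    have s1' : P (g0 - 17 / 10 * I) - P (g0 - 17 / 10 * I - x1) =
        ∫ t in (0 : ℝ)..x1, k (g0 - 17 / 10 * I + t * (-1)) := by
      linear_combination s1
    rw [s1', ← intervalIntegral.integral_const_mul]
    congr 1
    funext t
    rw [← hs]
    congr 1
    push_cast
    ring
  have i4 : P (g0 + 17 / 10 * I) - P (g0 - 17 / 10 * I) = kS δ ψ h *
      (I * ∫ y in (-(17 / 10) : ℝ)..(17 / 10), (y * I) ^ j * cexp (Ev δ h (y * I))) := by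
    have e1 : g0 + ((17 / 10 : ℝ) : ℂ) * I = g0 + 17 / 10 * I := by push_cast; ring
    have e2 : g0 + ((-(17 / 10) : ℝ) : ℂ) * I = g0 - 17 / 10 * I := by push_cast; ring
    rw [e1, e2] at s2
    have q : (∫ t in (-(17 / 10) : ℝ)..(17 / 10), k (g0 + t * I)) = kS δ ψ h *
        ∫ y in (-(17 / 10) : ℝ)..(17 / 10), (y * I) ^ j * cexp (Ev δ h (y * I)) := by
      rw [← intervalIntegral.integral_const_mul]
      congr 1
      funext t
      rw [← hs]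
    rw [← s2, q]
    ring
  rw [e0, i1, i2]
  have e3 : g0 - x1 - 17 / 10 * I = g0 - 17 / 10 * I - x1 := by ring
  rw [e3]
  unfold Jp
  rw [ofReal_neg, ofReal_one] at *
  linear_combination i3 + i4

end SokalF1
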