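import Pool.Agent.Lib_MP_af4de1_ti.RepD
import Pool.Agent.Lib_MP_af4de1_f1.Soft

/-!
# F1, N = 1: the representation `F = L + R` with both derivatives

`k(g) = exp((i/δ)(g²/2 - ρ e^g) - ψ g/δ)`, `h = g + iψ`, `hk j g = h^j k(g)`; `AL j`, `AR j` = its integrals over the
left and the right piece (`Lw`, `Rw` of Wave.lean: arbitrary contours by `Adm.Lw_eq`, `Adm.Rw_eq`, `Adm.Lw_path`, `Adm.Rw_path`).
`z = zp ρ δ ψ` (that is `i δ z e^(-iδ/2) = ρ e^(-iψ)`), `q = e^(iδ)`.  With one constant `C ≠ 0` for each `δ`, `e = e^(-iψ²/2δ)`: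
`F(z) C = e (AL 0 + AR 0)`, `z F(qz) C = e (-(i/δ)) (AL 1 + AR 1)`,
`(z F(qz) + q z² F(q²z)) C = e ((i/δ)(AL 0 + AR 0) - (1/δ²)(AL 2 + AR 2))`.
`dist_of_LR`: the two piece form of (U) implies `Dist`.
-/

set_option autoImplicit false

namespace SokalF1

open Complex SokalFU SokalF SokalFW SokalTI MeasureTheory Set

/-- the integrand with the weight `h^j`, `h = g + iψ` -/
noncomputable def hk (ρ δ ψ : ℝ) (j : ℕ) (g : ℂ) : ℂ := (g + ψ * I) ^ j * kk ρ δ ψ g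

/-- the left piece -/
noncomputable def AL (ρ δ ψ : ℝ) (j : ℕ) : ℂ := Lw (hk ρ δ ψ j)

/-- the right piece -/
noncomputable def AR (ρ δ ψ : ℝ) (j : ℕ) : ℂ := Rw (hk ρ δ ψ j)

theorem hk_zero (ρ δ ψ : ℝ) : hk ρ δ ψ 0 = kk ρ δ ψ := by
  funext g
  simp [hk]

theorem hk_succ (ρ δ ψ : ℝ) (j : ℕ) (g : ℂ) :
    hk ρ δ ψ (j + 1) g = (g + ψ * I) * hk ρ δ ψ j g := by
  unfold hk
  ring

theorem Adm_hk (ρ δ ψ : ℝ) (j : ℕ) : Adm δ ρ ψ (hk ρ δ ψ j) := by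
  induction j with
  | zero => rw [hk_zero]; exact Adm.kk δ ρ ψ
  | succ n ih =>
    have h : hk ρ δ ψ (n + 1) = fun g => g * hk ρ δ ψ n g + (ψ * I) * hk ρ δ ψ n g := by
      funext g
      rw [hk_succ]
      ring
    rw [h]
    exact ih.id_mul.add (ih.const_mul _)

/-- what the two pieces have in common -/
structure IsW (δ ρ ψ : ℝ) (W : (ℂ → ℂ) → ℂ) : Prop where
  add : ∀ {k1 k2 : ℂ → ℂ}, Adm δ ρ ψ k1 → Adm δ ρ ψ k2 → W (fun g => k1 g + k2 g) = W k1 + W k2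
  smul : ∀ (c : ℂ) (k : ℂ → ℂ), W (fun g => c * k g) = c * W k
  der : ∀ {k k1 : ℂ → ℂ}, Adm δ ρ ψ k1 → Adm δ ρ ψ k → (∀ z, HasDerivAt k (k1 z) z) → W k1 = 0

theorem isW_L {δ ρ : ℝ} (hδ : 0 < δ) (hρ : 0 < ρ) (ψ : ℝ) : IsW δ ρ ψ Lw where
  add := fun h1 h2 => Lw_add hδ hρ h1 h2
  smul := fun c k => Lw_const_mul k c
  der := fun h1 h hP => Lw_deriv hδ hρ h1 h hP

theorem isW_R {δ ρ : ℝ} (hδ : 0 < δ) (hρ : 0 < ρ) (ψ : ℝ) : IsW δ ρ ψ Rw where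
  add := fun h1 h2 => Rw_add hδ hρ h1 h2
  smul := fun c k => Rw_const_mul k c
  der := fun h1 h hP => Rw_deriv hδ hρ h1 h hP

/-- integration by parts: `∫ h^j ρ e^g k = ∫ h^(j+1) k + j (δ/i) ∫ h^(j-1) k` for `j = 0, 1` -/
theorem IsW.parts0 {δ ρ ψ : ℝ} {W : (ℂ → ℂ) → ℂ} (hδ : 0 < δ) (hW : IsW δ ρ ψ W) :
    W (fun g => ρ * (cexp g * kk ρ δ ψ g)) = W (hk ρ δ ψ 1) := by
  have hδc : (δ : ℂ) ≠ 0 := by exact_mod_cast hδ.ne'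
  have a1 := Adm_hk ρ δ ψ 1
  have a2 : Adm δ ρ ψ (fun g => ρ * (cexp g * kk ρ δ ψ g)) := ((Adm.kk δ ρ ψ).exp_mul).const_mul _
  have h1 := hW.der (k := kk ρ δ ψ)
    (k1 := fun g => I / δ * hk ρ δ ψ 1 g + (-(I / δ)) * (ρ * (cexp g * kk ρ δ ψ g)))
    ((a1.const_mul _).add (a2.const_mul _)) (Adm.kk δ ρ ψ) (fun z => by
      refine (kk_deriv ρ ψ z).congr_deriv ?_
      unfold hk
      ring)
  rw [hW.add (a1.const_mul _) (a2.const_mul _), hW.smul, hW.smul] at h1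
  have hI : (I / δ : ℂ) ≠ 0 := div_ne_zero I_ne_zero hδc
  have h2 : (I / δ : ℂ) * (W (hk ρ δ ψ 1) - W (fun g => ρ * (cexp g * kk ρ δ ψ g))) = 0 := by
    linear_combination h1
  rcases mul_eq_zero.1 h2 with h3 | h3
  · exact absurd h3 hI
  · exact (sub_eq_zero.1 h3).symm

theorem IsW.parts1 {δ ρ ψ : ℝ} {W : (ℂ → ℂ) → ℂ} (hδ : 0 < δ) (hW : IsW δ ρ ψ W) :
    W (fun g => ρ * (cexp g * hk ρ δ ψ 1 g)) = W (hk ρ δ ψ 2) - I * δ * W (kk ρ δ ψ) := by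
  have hδc : (δ : ℂ) ≠ 0 := by exact_mod_cast hδ.ne'
  have a0 := Adm.kk δ ρ ψ
  have a1 := Adm_hk ρ δ ψ 2
  have a2 : Adm δ ρ ψ (fun g => ρ * (cexp g * hk ρ δ ψ 1 g)) :=
    ((Adm_hk ρ δ ψ 1).exp_mul).const_mul _
  have b0 : Adm δ ρ ψ (fun g => I / δ * hk ρ δ ψ 2 g +
      (-(I / δ)) * (ρ * (cexp g * hk ρ δ ψ 1 g))) := (a1.const_mul _).add (a2.const_mul _)
  have h1 := hW.der (k := hk ρ δ ψ 1)
    (k1 := fun g => kk ρ δ ψ g + (I / δ * hk ρ δ ψ 2 g +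
      (-(I / δ)) * (ρ * (cexp g * hk ρ δ ψ 1 g))))
    (a0.add b0) (Adm_hk ρ δ ψ 1) (fun z => by
      have h2 : HasDerivAt (fun g : ℂ => g + ψ * I) 1 z := (hasDerivAt_id z).add_const _
      have h3 := h2.mul (kk_deriv (δ := δ) ρ ψ z)
      have h4 : hk ρ δ ψ 1 = (fun g : ℂ => g + ψ * I) * kk ρ δ ψ := by
        funext g
        simp [hk]
      rw [h4]
      refine h3.congr_deriv ?_
      unfold hk
      simp only [Pi.mul_apply]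
      ring)
  rw [hW.add a0 b0, hW.add (a1.const_mul _) (a2.const_mul _), hW.smul, hW.smul] at h1
  have h2 : (I / δ : ℂ) * (W (hk ρ δ ψ 2) - W (fun g => ρ * (cexp g * hk ρ δ ψ 1 g)) -
      I * δ * W (kk ρ δ ψ)) = 0 := by
    have h5 : (I / δ : ℂ) * (I * δ) = -1 := by
      field_simp
      rw [I_sq]
    linear_combination h1 - W (kk ρ δ ψ) * h5
  have hI : (I / δ : ℂ) ≠ 0 := div_ne_zero I_ne_zero hδc
  rcases mul_eq_zero.1 h2 with h3 | h3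
  · exact absurd h3 hI
  · linear_combination -h3

theorem IsW.parts2 {δ ρ ψ : ℝ} {W : (ℂ → ℂ) → ℂ} (hδ : 0 < δ) (hW : IsW δ ρ ψ W) :
    W (fun g => ρ ^ 2 * (cexp g * (cexp g * kk ρ δ ψ g))) =
      W (hk ρ δ ψ 2) - I * δ * W (kk ρ δ ψ) - I * δ * W (hk ρ δ ψ 1) := by
  have hδc : (δ : ℂ) ≠ 0 := by exact_mod_cast hδ.ne'
  have a0 : Adm δ ρ ψ (fun g => ρ * (cexp g * kk ρ δ ψ g)) := ((Adm.kk δ ρ ψ).exp_mul).const_mul _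
  have a1 : Adm δ ρ ψ (fun g => ρ * (cexp g * hk ρ δ ψ 1 g)) :=
    ((Adm_hk ρ δ ψ 1).exp_mul).const_mul _
  have a2 : Adm δ ρ ψ (fun g => ρ ^ 2 * (cexp g * (cexp g * kk ρ δ ψ g))) :=
    (((Adm.kk δ ρ ψ).exp_mul).exp_mul).const_mul _
  have b0 : Adm δ ρ ψ (fun g => I / δ * (ρ * (cexp g * hk ρ δ ψ 1 g)) +
      (-(I / δ)) * (ρ ^ 2 * (cexp g * (cexp g * kk ρ δ ψ g)))) :=
    (a1.const_mul _).add (a2.const_mul _)
  have h1 := hW.der (k := fun g => ρ * (cexp g * kk ρ δ ψ g))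
    (k1 := fun g => ρ * (cexp g * kk ρ δ ψ g) + (I / δ * (ρ * (cexp g * hk ρ δ ψ 1 g)) +
      (-(I / δ)) * (ρ ^ 2 * (cexp g * (cexp g * kk ρ δ ψ g)))))
    (a0.add b0) a0 (fun z => by
      have h3 := ((Complex.hasDerivAt_exp z).mul (kk_deriv (δ := δ) ρ ψ z)).const_mul (ρ : ℂ)
      refine h3.congr_deriv ?_
      unfold hk
      ring)
  rw [hW.add a0 b0, hW.add (a1.const_mul _) (a2.const_mul _), hW.smul (I / δ), hW.smul (-(I / δ)),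
    hW.parts0 hδ, hW.parts1 hδ] at h1
  have h2 : (I / δ : ℂ) * (W (hk ρ δ ψ 2) - I * δ * W (kk ρ δ ψ) - I * δ * W (hk ρ δ ψ 1) -
      W (fun g => ρ ^ 2 * (cexp g * (cexp g * kk ρ δ ψ g)))) = 0 := by
    have h5 : (I / δ : ℂ) * (I * δ) = -1 := by
      field_simp
      rw [I_sq]
    linear_combination h1 - W (hk ρ δ ψ 1) * h5
  have hI : (I / δ : ℂ) ≠ 0 := div_ne_zero I_ne_zero hδc
  rcases mul_eq_zero.1 h2 with h3 | h3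
  · exact absurd h3 hI
  · linear_combination -h3

theorem kk_shift {ρ δ ψ : ℝ} (hδ : 0 < δ) (g : ℂ) :
    kk ρ δ (ψ - δ) g = cexp g * kk ρ δ ψ g := by
  unfold kk
  rw [← Complex.exp_add]
  congr 1
  have hδc : (δ : ℂ) ≠ 0 := by exact_mod_cast hδ.ne'
  push_cast
  field_simp
  ring

theorem SL_AL {ρ δ : ℝ} (hρ : 0 < ρ) (hδ : 0 < δ) (ψ : ℝ) : SL ρ δ ψ 0 = Lw (kk ρ δ ψ) := by
  rw [SL_eq_Lw hρ hδ]
  congr 1
  funext g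
  simp [kj]

theorem SR_AR {ρ δ : ℝ} (hρ : 0 < ρ) (hδ : 0 < δ) (ψ : ℝ) : SR ρ δ ψ 0 = Rw (kk ρ δ ψ) := by
  rw [SR_eq_Rw hρ hδ]
  congr 1
  funext g
  simp [kj]

theorem zp_shift {ρ δ ψ : ℝ} : zp ρ δ (ψ - δ) = qa δ * zp ρ δ ψ := by
  unfold zp qa
  have h1 : cexp ((δ / 2 - ((ψ - δ : ℝ) : ℂ)) * I) = cexp (δ * I) * cexp ((δ / 2 - ψ) * I) := by
    rw [← Complex.exp_add]
    congr 1
    push_cast
    ring
  rw [h1]
  ring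

/-- The representation of `F`, `z F(qz)`, `z F(qz) + q z² F(q²z)`. -/
theorem rep_three {δ : ℝ} (hδ : 0 < δ) : ∃ C : ℂ, C ≠ 0 ∧ ∀ ρ ψ : ℝ, 0 < ρ →
    F (qa δ) (zp ρ δ ψ) * C = cexp (-(ψ ^ 2 / (2 * δ)) * I) * (AL ρ δ ψ 0 + AR ρ δ ψ 0) ∧
    zp ρ δ ψ * F (qa δ) (qa δ * zp ρ δ ψ) * C =
      cexp (-(ψ ^ 2 / (2 * δ)) * I) * (-(I / δ) * (AL ρ δ ψ 1 + AR ρ δ ψ 1)) ∧
    (zp ρ δ ψ * F (qa δ) (qa δ * zp ρ δ ψ) +
      qa δ * zp ρ δ ψ ^ 2 * F (qa δ) (qa δ * (qa δ * zp ρ δ ψ))) * C =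
      cexp (-(ψ ^ 2 / (2 * δ)) * I) * (I / δ * (AL ρ δ ψ 0 + AR ρ δ ψ 0) -
        1 / δ ^ 2 * (AL ρ δ ψ 2 + AR ρ δ ψ 2)) := by
  obtain ⟨C, hC, h⟩ := rep_F_const hδ
  have hδc : (δ : ℂ) ≠ 0 := by exact_mod_cast hδ.ne'
  refine ⟨C, hC, fun ρ ψ hρ => ?_⟩
  have e0 := h ρ ψ hρ
  have e1 := h ρ (ψ - δ) hρ
  have e2 := h ρ (ψ - δ - δ) hρ
  rw [SL_AL hρ hδ, SR_AR hρ hδ] at e0 e1 e2
  rw [zp_shift] at e1
  rw [zp_shift, zp_shift] at e2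
  have s1 : kk ρ δ (ψ - δ) = fun g => cexp g * kk ρ δ ψ g := funext fun g => kk_shift hδ g
  have s2 : kk ρ δ (ψ - δ - δ) = fun g => cexp g * (cexp g * kk ρ δ ψ g) := by
    funext g
    rw [kk_shift hδ, kk_shift hδ]
  rw [s1] at e1
  rw [s2] at e2
  have wL := isW_L hδ hρ ψ
  have wR := isW_R hδ hρ ψ
  have pL0 := wL.parts0 hδ
  have pR0 := wR.parts0 hδ
  have pL2 := wL.parts2 hδ
  have pR2 := wR.parts2 hδ
  rw [wL.smul] at pL0 pL2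
  rw [wR.smul] at pR0 pR2
  have hA0 : AL ρ δ ψ 0 = Lw (kk ρ δ ψ) := by unfold AL; rw [hk_zero]
  have hB0 : AR ρ δ ψ 0 = Rw (kk ρ δ ψ) := by unfold AR; rw [hk_zero]
  have x1 : zp ρ δ ψ * cexp (-(((ψ - δ : ℝ) : ℂ) ^ 2 / (2 * δ)) * I) =
      cexp (-(ψ ^ 2 / (2 * δ)) * I) * (-(I / δ)) * ρ := by
    unfold zp
    have h1 : cexp ((δ / 2 - ψ) * I) * cexp (-(((ψ - δ : ℝ) : ℂ) ^ 2 / (2 * δ)) * I) =
        cexp (-(ψ ^ 2 / (2 * δ)) * I) := by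
      rw [← Complex.exp_add]
      congr 1
      push_cast
      field_simp
      ring
    have h2 : (1 / I : ℂ) = -I := by
      rw [one_div, inv_I]
    calc (ρ : ℂ) / δ * cexp ((δ / 2 - ψ) * I) / I * cexp (-(((ψ - δ : ℝ) : ℂ) ^ 2 / (2 * δ)) * I)
        = (ρ : ℂ) / δ * (1 / I) * (cexp ((δ / 2 - ψ) * I) *
          cexp (-(((ψ - δ : ℝ) : ℂ) ^ 2 / (2 * δ)) * I)) := by ring
      _ = _ := by rw [h1, h2]; ring
  have x2 : qa δ * zp ρ δ ψ ^ 2 * cexp (-(((ψ - δ - δ : ℝ) : ℂ) ^ 2 / (2 * δ)) * I) =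
      cexp (-(ψ ^ 2 / (2 * δ)) * I) * (-(1 / δ ^ 2)) * ρ ^ 2 := by
    unfold zp qa
    have h1 : cexp (δ * I) * (cexp ((δ / 2 - ψ) * I)) ^ 2 *
        cexp (-(((ψ - δ - δ : ℝ) : ℂ) ^ 2 / (2 * δ)) * I) = cexp (-(ψ ^ 2 / (2 * δ)) * I) := by
      rw [← Complex.exp_nat_mul, ← Complex.exp_add, ← Complex.exp_add]
      congr 1
      push_cast
      field_simp
      ring
    have h2 : (1 / I ^ 2 : ℂ) = -1 := by
      rw [I_sq]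
      norm_num
    calc cexp (δ * I) * ((ρ : ℂ) / δ * cexp ((δ / 2 - ψ) * I) / I) ^ 2 *
          cexp (-(((ψ - δ - δ : ℝ) : ℂ) ^ 2 / (2 * δ)) * I)
        = (ρ : ℂ) ^ 2 / δ ^ 2 * (1 / I ^ 2) * (cexp (δ * I) * (cexp ((δ / 2 - ψ) * I)) ^ 2 *
          cexp (-(((ψ - δ - δ : ℝ) : ℂ) ^ 2 / (2 * δ)) * I)) := by
          rw [div_pow, mul_pow, div_pow]
          ring
      _ = _ := by rw [h1, h2]; ring
  have f1 : zp ρ δ ψ * F (qa δ) (qa δ * zp ρ δ ψ) * C =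
      cexp (-(ψ ^ 2 / (2 * δ)) * I) * (-(I / δ) * (AL ρ δ ψ 1 + AR ρ δ ψ 1)) := by
    unfold AL AR
    rw [← pL0, ← pR0]
    linear_combination (zp ρ δ ψ) * e1 +
      (Lw (fun g => cexp g * kk ρ δ ψ g) + Rw (fun g => cexp g * kk ρ δ ψ g)) * x1
  refine ⟨?_, f1, ?_⟩
  · rw [hA0, hB0]
    exact e0
  · have g2 : qa δ * zp ρ δ ψ ^ 2 * F (qa δ) (qa δ * (qa δ * zp ρ δ ψ)) * C =
        cexp (-(ψ ^ 2 / (2 * δ)) * I) * (-(1 / δ ^ 2)) *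
          (ρ ^ 2 * Lw (fun g => cexp g * (cexp g * kk ρ δ ψ g)) +
            ρ ^ 2 * Rw (fun g => cexp g * (cexp g * kk ρ δ ψ g))) := by
      linear_combination (qa δ * zp ρ δ ψ ^ 2) * e2 +
        (Lw (fun g => cexp g * (cexp g * kk ρ δ ψ g)) +
          Rw (fun g => cexp g * (cexp g * kk ρ δ ψ g))) * x2
    rw [pL2, pR2] at g2
    rw [add_mul, f1, g2, hA0, hB0]
    unfold AL AR
    have hI : (1 / (δ : ℂ) ^ 2) * (I * δ) = I / δ := by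
      field_simp
    linear_combination (cexp (-(ψ ^ 2 / (2 * δ)) * I)) *
      (Lw (kk ρ δ ψ) + Rw (kk ρ δ ψ) + Lw (hk ρ δ ψ 1) + Rw (hk ρ δ ψ 1)) * hI

/-- every point of the circle `|z| = ρ/δ` -/
theorem exists_zp {ρ δ : ℝ} (hδ : 0 < δ) (ψ1 : ℝ) {z : ℂ} (hz : ‖z‖ = ρ / δ) :
    ∃ ψ ∈ Ico ψ1 (ψ1 + 2 * Real.pi), z = zp ρ δ ψ := by
  set θ : ℝ := (z * I).arg with hθ
  have h1 : z * I = (ρ / δ : ℝ) * cexp (θ * I) := by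
    have h2 := Complex.norm_mul_exp_arg_mul_I (z * I)
    rw [norm_mul, norm_I, mul_one, hz] at h2
    exact h2.symm
  set n : ℤ := toIcoDiv Real.two_pi_pos ψ1 (δ / 2 - θ) with hn
  refine ⟨δ / 2 - θ - n • (2 * Real.pi), ?_, ?_⟩
  · exact toIcoMod_mem_Ico Real.two_pi_pos ψ1 (δ / 2 - θ)
  · unfold zp
    have h4 : ((δ : ℂ) / 2 - ((δ / 2 - θ - n • (2 * Real.pi) : ℝ) : ℂ)) * I =
        θ * I + n * (2 * Real.pi * I) := by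
      rw [zsmul_eq_mul]
      push_cast
      ring
    rw [h4, Complex.exp_add, Complex.exp_int_mul_two_pi_mul_I, mul_one, eq_div_iff I_ne_zero, h1]
    push_cast
    rfl

/-- the triple `(F, zF(qz), zF(qz) + q z² F(q²z))` of a piece from its moments -/
noncomputable def T1 (δ : ℝ) (A : ℕ → ℂ) : ℂ := -(I / δ) * A 1

noncomputable def T2 (δ : ℝ) (A : ℕ → ℂ) : ℂ := I / δ * A 0 - 1 / δ ^ 2 * A 2

/-- (U) in the two pieces implies `Dist`; the period of `ψ` may depend on `ρ`. -/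
theorem dist_of_LR {δ r ε : ℝ} (hδ : 0 < δ) (hq : qa δ ≠ 1) (hε : 0 < ε) (c : ℝ → ℝ)
    (H : ∀ ρ ψ : ℝ, 0 < ρ → δ * (r - ε) < ρ → ρ < δ * r → c ρ ≤ ψ → ψ < c ρ + 2 * Real.pi →
      AL ρ δ ψ 0 + AR ρ δ ψ 0 ≠ 0 →
      (∃ m : ℝ, 0 < m ∧ (T1 δ (AL ρ δ ψ) + T1 δ (AR ρ δ ψ)) + m * (AL ρ δ ψ 0 + AR ρ δ ψ 0) = 0) →
      0 < ((T2 δ (AL ρ δ ψ) + T2 δ (AR ρ δ ψ)) / (T1 δ (AL ρ δ ψ) + T1 δ (AR ρ δ ψ)) -
        (T1 δ (AL ρ δ ψ) + T1 δ (AR ρ δ ψ)) / (AL ρ δ ψ 0 + AR ρ δ ψ 0)).re) :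
    SokalFU.Dist δ r := by
  obtain ⟨C, hC, h⟩ := rep_three hδ
  refine dist_of_U hq hε fun u h1 h2 hFu hs => ?_
  obtain ⟨s, hs0, hs⟩ := hs
  have hu : u ≠ 0 := by
    rintro rfl
    rw [zero_mul, mul_zero, add_zero, F_zero] at hs
    exact one_ne_zero hs
  have hup : 0 < ‖u‖ := norm_pos_iff.2 hu
  have hρ : 0 < δ * ‖u‖ := mul_pos hδ hup
  obtain ⟨ψ, hψ, hz⟩ := exists_zp hδ (c (δ * ‖u‖)) (ρ := δ * ‖u‖) (z := u)
    (by rw [mul_div_cancel_left₀ _ hδ.ne'])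
  obtain ⟨e0, e1, e2⟩ := h (δ * ‖u‖) ψ hρ
  rw [← hz] at e0 e1 e2
  have key0 := H (δ * ‖u‖) ψ hρ (mul_lt_mul_of_pos_left h1 hδ) (mul_lt_mul_of_pos_left h2 hδ)
    hψ.1 hψ.2
  have hE0 : cexp (-(ψ ^ 2 / (2 * δ)) * I) ≠ 0 := Complex.exp_ne_zero _
  generalize cexp (-(ψ ^ 2 / (2 * δ)) * I) = E at e0 e1 e2 hE0
  generalize AL (δ * ‖u‖) δ ψ = A at e0 e1 e2 key0
  generalize AR (δ * ‖u‖) δ ψ = B at e0 e1 e2 key0
  generalize F (qa δ) (qa δ * (qa δ * u)) = F2 at e2 ⊢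
  generalize F (qa δ) (qa δ * u) = F1 at e1 e2 hs ⊢
  generalize F (qa δ) u = F0 at e0 hFu hs ⊢
  have t1 : E * (T1 δ A + T1 δ B) = u * F1 * C := by
    rw [e1]
    unfold T1
    ring
  have t2 : E * (T2 δ A + T2 δ B) = (u * F1 + qa δ * u ^ 2 * F2) * C := by
    rw [e2]
    unfold T2
    ring
  have hsum : A 0 + B 0 ≠ 0 := by
    intro h0
    rw [h0, mul_zero] at e0
    rcases mul_eq_zero.1 e0 with h3 | h3
    · exact hFu h3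
    · exact hC h3
  have hFq : F1 ≠ 0 := by
    intro h0
    rw [h0, mul_zero, mul_zero, add_zero] at hs
    exact hFu hs
  have hm : (T1 δ A + T1 δ B) + ((s⁻¹ : ℝ) : ℂ) * (A 0 + B 0) = 0 := by
    have hsc : (s : ℂ) ≠ 0 := by exact_mod_cast hs0.ne'
    have h3 : E * ((T1 δ A + T1 δ B) + ((s⁻¹ : ℝ) : ℂ) * (A 0 + B 0)) = 0 := by
      rw [mul_add, t1]
      have h4 : E * (((s⁻¹ : ℝ) : ℂ) * (A 0 + B 0)) = ((s⁻¹ : ℝ) : ℂ) * (F0 * C) := by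
        rw [e0]
        ring
      rw [h4]
      push_cast
      field_simp
      linear_combination C * hs
    rcases mul_eq_zero.1 h3 with h4 | h4
    · exact absurd h4 hE0
    · exact h4
  have key := key0 hsum ⟨s⁻¹, inv_pos.2 hs0, hm⟩
  have q1 : (T2 δ A + T2 δ B) / (T1 δ A + T1 δ B) = 1 + qa δ * u * F2 / F1 := by
    rw [← mul_div_mul_left _ _ hE0, t1, t2]
    field_simp
  have q2 : (T1 δ A + T1 δ B) / (A 0 + B 0) = u * F1 / F0 := by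
    rw [← mul_div_mul_left _ _ hE0, t1, ← e0]
    field_simp
  rw [q1, q2] at key
  exact key

/-- the integrand at a saddle point: `h0 e^(-h0) = ρ e^(-iψ)`, `g = h0 - iψ + v` -/
theorem hk_saddle {ρ δ ψ : ℝ} {h0 : ℂ} (hh : h0 * cexp (-h0) = ρ * cexp (-(I * ψ))) (j : ℕ) (v : ℂ) :
    hk ρ δ ψ j (h0 - ψ * I + v) = kS δ ψ h0 * ((h0 + v) ^ j * cexp (Ev δ h0 v)) := by
  have h2 := saddle_eq hh
  have h3 := kk_saddle (δ := δ) (g := h0 - ψ * I) (h := h0) (by ring) h2 v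
  unfold hk
  rw [h3, kk_kS h2]
  have h4 : h0 - ψ * I + v + ψ * I = h0 + v := by ring
  rw [h4]
  have h5 : EE δ h0 v = Ev δ h0 v := rfl
  rw [h5]
  ring

end SokalF1
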