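import Mathlib

/-!
# F1, N = 1: the two saddle points  [F1N1-Sad]

`h e^(-h) = ρ e^(-iψ)`, `ρ - π/2 ≤ ψ ≤ ρ + 3π/2`, `ρ ≥ 8`.
R: `h = a + i s`, `s = sqrt(ρ² e^(2a) - a²)`, `arg h = π/2 - arcsin (a e^(-a)/ρ)`, condition `s - ψ = arg h`.
 `Ψ(a) = s(a) - π/2 + arcsin (a e^(-a)/ρ)` is continuous on `[0, 3/5]`, `Ψ(0) = ρ - π/2`, `Ψ(3/5) ≥ ρ + 3π/2`
 (`s(3/5) ≥ 1.8 ρ` for `ρ ≥ 8`); intermediate value theorem.  `s ≥ ρ` since `ρ²(e^(2a) - 1) ≥ 2aρ² ≥ a²`; `s ≤ ρ e^a ≤ 2ρ`;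
 `s - ρ ≤ a s`: `s ≤ ρ e^a` gives `ρ/s ≥ e^(-a) ≥ 1 - a`.  Equation: `|h| = ρ e^a`, `h = ρ e^a e^(i(s - ψ))`.
 `π/2 - arg h = arctan (a/s) ≤ a/s`.
L: `h = -b + i s`, `s = sqrt(ρ² e^(-2b) - b²)`, `arg h = π/2 + arcsin (b e^b/ρ)`, condition `s - ψ + 2π = arg h`.
 `Ψ(b) = s(b) + 3π/2 - arcsin (b e^b/ρ)`, `Ψ(0) = ρ + 3π/2`, `Ψ(6/5) ≤ ρ - π/2` (for `ρ ≥ 8`: `s(6/5) ≤ .3012 ρ - 2.39/ρ`
 (square root of `ρ² e^(-2.4) - 1.44`), `arcsin x ≥ x`: `.3012 ρ - 2.39/ρ + 3π/2 - 3.98/ρ ≤ ρ - π/2`; at `ρ = 8`: `2.0895 + 4.7124 - .498 ≤ 6.4292`).  `s ≥ .261 ρ`: `s² = ρ² e^(-2b) - b² ≥ ρ²(e^(-2.4) - 1.44/64)`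
 (`e^(-2.4) ≥ .09071`, `.09071 - .0225 = .06821 ≥ .261² = .068121`); `s ≤ ρ`; `s = ψ - 2π + arg h ≥ ρ - 2π`;
 `b s ≤ ρ - s`: `s ≤ ρ e^(-b)`, `1 + b ≤ e^b`.
-/

set_option autoImplicit false

namespace SokalF1

open Complex

/-- the modulus at `a` -/
private noncomputable def sadR_s (ρ a : ℝ) : ℝ := √((ρ * Real.exp a) ^ 2 - a ^ 2)

private theorem sadR_eq {ρ a s ψ : ℝ} (hR : 0 < ρ * Real.exp a)
    (hs : s = (ρ * Real.exp a) * Real.cos (Real.arcsin (a / (ρ * Real.exp a))))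
    (hx1 : -1 ≤ a / (ρ * Real.exp a)) (hx2 : a / (ρ * Real.exp a) ≤ 1)
    (hψ : s - ψ = Real.pi / 2 - Real.arcsin (a / (ρ * Real.exp a))) :
    ((a : ℂ) + s * I) * cexp (-((a : ℂ) + s * I)) = ρ * cexp (-(I * ψ)) := by
  have hρ0 : ρ ≠ 0 := left_ne_zero_of_mul hR.ne'
  have h1 : Real.cos (s - ψ) = a / (ρ * Real.exp a) := by
    rw [hψ, Real.cos_pi_div_two_sub, Real.sin_arcsin hx1 hx2]
  have h2 : Real.sin (s - ψ) = s / (ρ * Real.exp a) := by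
    rw [hψ, Real.sin_pi_div_two_sub, hs, mul_div_cancel_left₀ _ hR.ne']
  have ha : a = (ρ * Real.exp a) * Real.cos (s - ψ) := by
    rw [h1]
    field_simp
  have hs' : s = (ρ * Real.exp a) * Real.sin (s - ψ) := by
    rw [h2]
    field_simp
  have h3 : ((a : ℂ) + s * I) = ((ρ * Real.exp a : ℝ) : ℂ) * cexp (((s - ψ : ℝ) : ℂ) * I) := by
    rw [Complex.exp_mul_I, ← Complex.ofReal_cos, ← Complex.ofReal_sin, mul_add, ← mul_assoc,
      ← Complex.ofReal_mul, ← Complex.ofReal_mul, ← ha, ← hs']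
  have h4 : ((a : ℂ) + s * I) * cexp (-((a : ℂ) + s * I)) =
      ((ρ * Real.exp a : ℝ) : ℂ) * cexp (((s - ψ : ℝ) : ℂ) * I) * cexp (-((a : ℂ) + s * I)) := by
    rw [← h3]
  rw [h4]
  push_cast
  rw [mul_assoc, mul_assoc, ← Complex.exp_add, ← Complex.exp_add]
  congr 2
  ring

private theorem sadR_exp : (3272 / 1000 : ℝ) ≤ Real.exp (6 / 5) := by
  have h1 : (1345 / 1000 : ℝ) ≤ Real.exp (3 / 10) := by
    have := Real.quadratic_le_exp_of_nonneg (show (0 : ℝ) ≤ 3 / 10 by norm_num)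
    linarith
  have h2 : Real.exp (6 / 5) = Real.exp (3 / 10) ^ 4 := by
    rw [← Real.exp_nat_mul]
    norm_num
  rw [h2]
  calc (3272 / 1000 : ℝ) ≤ (1345 / 1000) ^ 4 := by norm_num
    _ ≤ _ := pow_le_pow_left₀ (by norm_num) h1 4

theorem saddle_R {ρ ψ : ℝ} (hρ : 8 ≤ ρ) (h1 : ρ - Real.pi / 2 ≤ ψ) (h2 : ψ ≤ ρ + 3 * Real.pi / 2) :
    ∃ a s : ℝ, 0 ≤ a ∧ a ≤ 3 / 5 ∧ ρ ≤ s ∧ s ≤ 2 * ρ ∧ s - ρ ≤ a * s ∧
      Real.pi / 2 - a / s ≤ s - ψ ∧ s - ψ ≤ Real.pi / 2 ∧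
      ((a : ℂ) + s * I) * cexp (-((a : ℂ) + s * I)) = ρ * cexp (-(I * ψ)) := by
  have hρ0 : 0 < ρ := by linarith
  have hcont : ContinuousOn (fun a : ℝ => sadR_s ρ a - (Real.pi / 2 -
      Real.arcsin (a / (ρ * Real.exp a)))) (Set.Icc 0 (3 / 5)) := by
    unfold sadR_s
    apply Continuous.continuousOn
    have hc : Continuous fun a : ℝ => a / (ρ * Real.exp a) :=
      continuous_id.div (by fun_prop) fun a => (mul_pos hρ0 (Real.exp_pos a)).ne'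
    have hc2 := Real.continuous_arcsin.comp hc
    have hc3 : Continuous fun a : ℝ => √((ρ * Real.exp a) ^ 2 - a ^ 2) := by fun_prop
    exact hc3.sub (continuous_const.sub hc2)
  have hΨ0 : sadR_s ρ 0 - (Real.pi / 2 - Real.arcsin (0 / (ρ * Real.exp 0))) ≤ ψ := by
    unfold sadR_s
    rw [zero_div, Real.arcsin_zero, Real.exp_zero, mul_one, sub_zero]
    have : √(ρ ^ 2 - 0 ^ 2) = ρ := by
      rw [show ρ ^ 2 - 0 ^ 2 = ρ ^ 2 by ring]
      exact Real.sqrt_sq hρ0.le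
    rw [this]
    exact h1
  have hpi : Real.pi < 3.15 := Real.pi_lt_d2
  have hΨ1 : ψ ≤ sadR_s ρ (3 / 5) - (Real.pi / 2 -
      Real.arcsin ((3 / 5) / (ρ * Real.exp (3 / 5)))) := by
    have hs : 18 / 10 * ρ ≤ sadR_s ρ (3 / 5) := by
      unfold sadR_s
      apply Real.le_sqrt_of_sq_le
      have h3 : (ρ * Real.exp (3 / 5)) ^ 2 = ρ ^ 2 * Real.exp (6 / 5) := by
        rw [mul_pow, ← Real.exp_nat_mul]
        norm_num
      rw [h3]
      have h4 := sadR_exp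
      nlinarith [mul_le_mul_of_nonneg_left h4 (sq_nonneg ρ)]
    have hasin : 0 ≤ Real.arcsin ((3 / 5) / (ρ * Real.exp (3 / 5))) :=
      Real.arcsin_nonneg.2 (by positivity)
    linarith
  obtain ⟨a, ⟨ha0, ha1⟩, ha⟩ := intermediate_value_Icc (by norm_num : (0 : ℝ) ≤ 3 / 5) hcont
    ⟨hΨ0, hΨ1⟩
  simp only at ha
  have hE : 0 < Real.exp a := Real.exp_pos a
  have hE1 : 1 + a ≤ Real.exp a := by linarith [Real.add_one_le_exp a]
  set R : ℝ := ρ * Real.exp a with hRdef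
  have hR : 0 < R := mul_pos hρ0 hE
  have hRρ : ρ ≤ R := by
    rw [hRdef]
    nlinarith
  have haR : a < R := by linarith
  have hx0 : 0 ≤ a / R := div_nonneg ha0 hR.le
  have hx1 : a / R < 1 := (div_lt_one hR).2 haR
  have hcos : sadR_s ρ a = R * Real.cos (Real.arcsin (a / R)) := by
    rw [Real.cos_arcsin]
    unfold sadR_s
    rw [← hRdef]
    have h3 : R ^ 2 - a ^ 2 = R ^ 2 * (1 - (a / R) ^ 2) := by
      field_simp
    rw [h3, Real.sqrt_mul (sq_nonneg R), Real.sqrt_sq hR.le]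
  have hssq : sadR_s ρ a ^ 2 = R ^ 2 - a ^ 2 := by
    unfold sadR_s
    rw [← hRdef, Real.sq_sqrt]
    nlinarith
  have hs0 : 0 ≤ sadR_s ρ a := Real.sqrt_nonneg _
  have hsR : sadR_s ρ a ≤ R := by
    apply (pow_le_pow_iff_left₀ hs0 hR.le two_ne_zero).1
    rw [hssq]
    nlinarith [sq_nonneg a]
  have hsρ : ρ ≤ sadR_s ρ a := by
    apply (pow_le_pow_iff_left₀ hρ0.le hs0 two_ne_zero).1
    rw [hssq]
    have h3 : ρ * (1 + a) ≤ R := by
      rw [hRdef]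
      exact mul_le_mul_of_nonneg_left hE1 hρ0.le
    have h4 : (ρ * (1 + a)) ^ 2 ≤ R ^ 2 := pow_le_pow_left₀ (by positivity) h3 2
    nlinarith [mul_nonneg ha0 hρ0.le, mul_nonneg (mul_nonneg ha0 hρ0.le) hρ0.le, sq_nonneg a,
      mul_nonneg (sq_nonneg a) (sq_nonneg ρ)]
  have hspos : 0 < sadR_s ρ a := by linarith
  refine ⟨a, sadR_s ρ a, ha0, ha1, hsρ, ?_, ?_, ?_, ?_, ?_⟩
  · have h3 : Real.exp a ≤ 2 := by
      have h4 : Real.exp a ≤ Real.exp (Real.log 2) := by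
        apply Real.exp_le_exp.2
        have := Real.log_two_gt_d9
        linarith
      rwa [Real.exp_log (by norm_num)] at h4
    have h5 : R ≤ 2 * ρ := by
      rw [hRdef]
      nlinarith
    linarith
  · have h3 : 1 - a ≤ Real.exp (-a) := by linarith [Real.add_one_le_exp (-a)]
    have h4 : sadR_s ρ a * Real.exp (-a) ≤ ρ := by
      have h5 : ρ = R * Real.exp (-a) := by
        rw [hRdef, mul_assoc, ← Real.exp_add, add_neg_cancel, Real.exp_zero, mul_one]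
      conv_rhs => rw [h5]
      exact mul_le_mul_of_nonneg_right hsR (Real.exp_pos _).le
    nlinarith [mul_le_mul_of_nonneg_left h3 hs0]
  · have h3 : Real.arcsin (a / R) ≤ a / sadR_s ρ a := by
      have h4 : 0 ≤ Real.arcsin (a / R) := Real.arcsin_nonneg.2 hx0
      have h5 : Real.arcsin (a / R) < Real.pi / 2 := Real.arcsin_lt_pi_div_two.2 hx1
      have h6 := Real.le_tan h4 h5
      have h7 : Real.tan (Real.arcsin (a / R)) = a / sadR_s ρ a := by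
        rw [Real.tan_eq_sin_div_cos, Real.sin_arcsin (by linarith) hx1.le, hcos]
        rw [div_div]
      linarith
    linarith
  · have h4 : 0 ≤ Real.arcsin (a / R) := Real.arcsin_nonneg.2 hx0
    linarith
  · exact sadR_eq hR hcos (by linarith) hx1.le (by linarith)

private theorem sadL_exp_lt : Real.exp (6 / 5) < 33218 / 10000 := by
  have h1 : Real.exp (6 / 5) ^ 5 = Real.exp 1 ^ 6 := by
    rw [← Real.exp_nat_mul, ← Real.exp_nat_mul]
    norm_num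
  have h2 : Real.exp 1 ^ 6 < (33218 / 10000 : ℝ) ^ 5 := by
    refine (pow_lt_pow_left₀ Real.exp_one_lt_d9 (Real.exp_pos 1).le (by norm_num)).trans ?_
    norm_num
  rw [← h1] at h2
  exact lt_of_pow_lt_pow_left₀ 5 (by norm_num) h2

private theorem sadL_lt_exp : 3315 / 1000 < Real.exp (6 / 5) := by
  have h1 : Real.exp (6 / 5) ^ 5 = Real.exp 1 ^ 6 := by
    rw [← Real.exp_nat_mul, ← Real.exp_nat_mul]
    norm_num
  have h2 : (3315 / 1000 : ℝ) ^ 5 < Real.exp 1 ^ 6 := by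
    refine lt_trans ?_ (pow_lt_pow_left₀ Real.exp_one_gt_d9 (by norm_num) (by norm_num))
    norm_num
  rw [← h1] at h2
  exact lt_of_pow_lt_pow_left₀ 5 (Real.exp_pos _).le h2

/-- the value at `6 / 5` -/
private theorem sadL_end {ρ : ℝ} (hρ : 8 ≤ ρ) :
    Real.sqrt ((ρ * Real.exp (-(6 / 5))) ^ 2 - (6 / 5) ^ 2) + 3 * Real.pi / 2 -
      Real.arcsin ((6 / 5) * Real.exp (6 / 5) / ρ) ≤ ρ - Real.pi / 2 := by
  have hρ0 : 0 < ρ := by linarith
  obtain ⟨u, hu⟩ : ∃ u : ℝ, u = 1 / ρ := ⟨_, rfl⟩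
  have hρu : ρ * u = 1 := by rw [hu]; field_simp
  have hu0 : 0 < u := by rw [hu]; positivity
  have hu8 : u ≤ 1 / 8 := by
    rw [hu]
    exact one_div_le_one_div_of_le (by norm_num) hρ
  have hE1 := sadL_exp_lt
  have hE2 := sadL_lt_exp
  have hE3 : Real.exp (-(6 / 5)) ≤ 302 / 1000 := by
    rw [Real.exp_neg, inv_le_comm₀ (Real.exp_pos _) (by norm_num)]
    refine le_trans ?_ hE2.le
    norm_num
  have hE0 : 0 < Real.exp (-(6 / 5)) := Real.exp_pos _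
  have h1 : Real.sqrt ((ρ * Real.exp (-(6 / 5))) ^ 2 - (6 / 5) ^ 2) ≤
      302 / 1000 * ρ - 238 / 100 * u := by
    rw [Real.sqrt_le_left (by nlinarith)]
    have h2 : (ρ * Real.exp (-(6 / 5))) ^ 2 ≤ (302 / 1000 * ρ) ^ 2 := by
      refine pow_le_pow_left₀ (by positivity) ?_ 2
      nlinarith
    have h3 : (302 / 1000 * ρ - 238 / 100 * u) ^ 2 =
        (302 / 1000 * ρ) ^ 2 - 2 * (302 / 1000) * (238 / 100) * (ρ * u) + (238 / 100 * u) ^ 2 := by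
      ring
    rw [h3, hρu]
    nlinarith [sq_nonneg (238 / 100 * u)]
  have hx0 : 0 ≤ (6 / 5) * Real.exp (6 / 5) / ρ := by positivity
  have hx1 : (6 / 5) * Real.exp (6 / 5) / ρ ≤ 1 := by
    rw [div_le_one hρ0]
    linarith
  have h4 : (6 / 5) * Real.exp (6 / 5) / ρ ≤ Real.arcsin ((6 / 5) * Real.exp (6 / 5) / ρ) := by
    have h5 := Real.sin_le (Real.arcsin_nonneg.2 hx0)
    rwa [Real.sin_arcsin (by linarith) hx1] at h5
  have h6 : 3978 / 1000 * u ≤ (6 / 5) * Real.exp (6 / 5) / ρ := by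
    rw [hu, mul_one_div]
    gcongr
    linarith
  have hpi := Real.pi_lt_d4
  have h7 : 2 * Real.pi ≤ 698 / 1000 * ρ + 6358 / 1000 * u := by
    have h8 : 0 ≤ ρ * (698 / 1000 * ρ + 6358 / 1000 * u - 2 * 3.1416) := by
      have h9 : ρ * (698 / 1000 * ρ + 6358 / 1000 * u - 2 * 3.1416) =
          698 / 1000 * ρ ^ 2 + 6358 / 1000 * (ρ * u) - 2 * 3.1416 * ρ := by ring
      rw [h9, hρu]
      nlinarith
    have h10 := nonneg_of_mul_nonneg_right h8 hρ0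
    linarith
  linarith

theorem saddle_L {ρ ψ : ℝ} (hρ : 8 ≤ ρ) (h1 : ρ - Real.pi / 2 ≤ ψ) (h2 : ψ ≤ ρ + 3 * Real.pi / 2) :
    ∃ b s : ℝ, 0 ≤ b ∧ b ≤ 6 / 5 ∧ 261 / 1000 * ρ ≤ s ∧ ρ - 2 * Real.pi ≤ s ∧ s ≤ ρ ∧ b * s ≤ ρ - s ∧
      Real.pi / 2 ≤ s - ψ + 2 * Real.pi ∧ s - ψ + 2 * Real.pi ≤ Real.pi / 2 + b / s ∧
      (((-b : ℝ) : ℂ) + s * I) * cexp (-(((-b : ℝ) : ℂ) + s * I)) = ρ * cexp (-(I * ψ)) := by
  have hρ0 : 0 < ρ := by linarith
  -- intermediate value theorem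
  have hcont : ContinuousOn (fun b : ℝ => Real.sqrt ((ρ * Real.exp (-b)) ^ 2 - b ^ 2) +
      3 * Real.pi / 2 - Real.arcsin (b * Real.exp b / ρ)) (Set.Icc 0 (6 / 5)) := by
    apply Continuous.continuousOn
    have := Real.continuous_arcsin
    fun_prop
  have hivt := intermediate_value_Icc' (by norm_num : (0 : ℝ) ≤ 6 / 5) hcont
  have hmem : ψ ∈ Set.Icc (Real.sqrt ((ρ * Real.exp (-(6 / 5))) ^ 2 - (6 / 5) ^ 2) +
      3 * Real.pi / 2 - Real.arcsin ((6 / 5) * Real.exp (6 / 5) / ρ))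
      (Real.sqrt ((ρ * Real.exp (-0)) ^ 2 - 0 ^ 2) +
      3 * Real.pi / 2 - Real.arcsin (0 * Real.exp 0 / ρ)) := by
    constructor
    · exact (sadL_end hρ).trans h1
    · rw [neg_zero, Real.exp_zero, mul_one, zero_mul, zero_div, Real.arcsin_zero]
      have : Real.sqrt (ρ ^ 2 - 0 ^ 2) = ρ := by
        rw [zero_pow two_ne_zero, sub_zero, Real.sqrt_sq hρ0.le]
      rw [this]
      linarith
  obtain ⟨b, ⟨hb0, hb1⟩, hb⟩ := hivt hmem
  have hb' : Real.sqrt ((ρ * Real.exp (-b)) ^ 2 - b ^ 2) + 3 * Real.pi / 2 -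
      Real.arcsin (b * Real.exp b / ρ) = ψ := hb
  obtain ⟨s, hs⟩ : ∃ s : ℝ, s = Real.sqrt ((ρ * Real.exp (-b)) ^ 2 - b ^ 2) := ⟨_, rfl⟩
  obtain ⟨θ, hθ⟩ : ∃ θ : ℝ, θ = Real.arcsin (b * Real.exp b / ρ) := ⟨_, rfl⟩
  obtain ⟨e, he⟩ : ∃ e : ℝ, e = Real.exp b := ⟨_, rfl⟩
  obtain ⟨e', he'⟩ : ∃ e' : ℝ, e' = Real.exp (-b) := ⟨_, rfl⟩
  have hee : e * e' = 1 := by rw [he, he', ← Real.exp_add, add_neg_cancel, Real.exp_zero]
  have he0 : 0 < e := by rw [he]; exact Real.exp_pos _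
  have he'0 : 0 < e' := by rw [he']; exact Real.exp_pos _
  rw [← hs, ← hθ] at hb'
  have hs0 : 0 ≤ s := by rw [hs]; exact Real.sqrt_nonneg _
  -- size of `e'`
  have hE1 := sadL_exp_lt
  have he1 : 1 + b ≤ e := by rw [he]; linarith [Real.add_one_le_exp b]
  have heE : e ≤ 33218 / 10000 := by
    rw [he]
    exact (Real.exp_le_exp.2 hb1).trans hE1.le
  have he'E : 30104 / 100000 ≤ e' := by
    have h3 : e' = 1 / e := by
      rw [eq_div_iff he0.ne', mul_comm]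
      exact hee
    rw [h3, le_div_iff₀ he0]
    nlinarith
  have he'1 : e' ≤ 1 := by
    rw [he']
    exact Real.exp_le_one_iff.2 (by linarith)
  have hD : (261 / 1000 * ρ) ^ 2 ≤ (ρ * e') ^ 2 - b ^ 2 := by
    have h3 : (30104 / 100000 : ℝ) ^ 2 ≤ e' ^ 2 := pow_le_pow_left₀ (by norm_num) he'E 2
    have h4 : b ^ 2 ≤ (6 / 5) ^ 2 := pow_le_pow_left₀ hb0 hb1 2
    have h5 : (8 : ℝ) ^ 2 ≤ ρ ^ 2 := pow_le_pow_left₀ (by norm_num) hρ 2
    nlinarith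
  have hD0 : 0 ≤ (ρ * e') ^ 2 - b ^ 2 := le_trans (sq_nonneg _) hD
  have hss : s ^ 2 = (ρ * e') ^ 2 - b ^ 2 := by
    rw [hs, he']
    rw [he'] at hD0
    exact Real.sq_sqrt hD0
  have hs1 : 261 / 1000 * ρ ≤ s := by
    refine le_of_sq_le_sq ?_ hs0
    rw [hss]
    exact hD
  have hspos : 0 < s := lt_of_lt_of_le (by positivity) hs1
  have hs2 : s ≤ ρ * e' := by
    refine le_of_sq_le_sq ?_ (by positivity)
    rw [hss]
    nlinarith [sq_nonneg b]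
  -- the angle
  have hx0 : 0 ≤ b * e / ρ := by positivity
  have hx1 : b * e / ρ ≤ 1 := by
    rw [div_le_one hρ0]
    nlinarith
  rw [← he] at hθ
  have hθ0 : 0 ≤ θ := by rw [hθ]; exact Real.arcsin_nonneg.2 hx0
  have hsin : Real.sin θ = b * e / ρ := by
    rw [hθ]
    exact Real.sin_arcsin (by linarith) hx1
  have hcos : Real.cos θ = s * e / ρ := by
    rw [hθ, Real.cos_arcsin]
    have h3 : 1 - (b * e / ρ) ^ 2 = (s * e / ρ) ^ 2 := by
      have h4 : (s * e / ρ) ^ 2 = s ^ 2 * e ^ 2 / ρ ^ 2 := by ring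
      rw [h4, hss]
      have h5 : ((ρ * e') ^ 2 - b ^ 2) * e ^ 2 = ρ ^ 2 * (e * e') ^ 2 - (b * e) ^ 2 := by ring
      rw [h5, hee]
      field_simp
    rw [h3]
    exact Real.sqrt_sq (by positivity)
  have hcos0 : 0 < Real.cos θ := by rw [hcos]; positivity
  have hθ1 : θ ≤ b / s := by
    have h3 : θ < Real.pi / 2 := by
      rcases lt_or_eq_of_le (show θ ≤ Real.pi / 2 by rw [hθ]; exact Real.arcsin_le_pi_div_two _)
        with h | h
      · exact h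
      · rw [h, Real.cos_pi_div_two] at hcos0
        exact absurd hcos0 (lt_irrefl _)
    have h4 := Real.le_tan hθ0 h3
    rw [Real.tan_eq_sin_div_cos, hsin, hcos] at h4
    have h5 : b * e / ρ / (s * e / ρ) = b / s := by
      field_simp
    rwa [h5] at h4
  have hφ : s - ψ + 2 * Real.pi = Real.pi / 2 + θ := by linarith
  refine ⟨b, s, hb0, hb1, hs1, ?_, ?_, ?_, ?_, ?_, ?_⟩
  · linarith
  · nlinarith
  · nlinarith
  · rw [hφ]
    linarith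
  · rw [hφ]
    linarith
  · -- the equation
    have hc1 : Real.cos (Real.pi / 2 + θ) = -(b * e / ρ) := by
      rw [add_comm, Real.cos_add_pi_div_two, hsin]
    have hc2 : Real.sin (Real.pi / 2 + θ) = s * e / ρ := by
      rw [add_comm, Real.sin_add_pi_div_two, hcos]
    have hz : (((-b : ℝ) : ℂ) + s * I) = ((ρ * e' : ℝ) : ℂ) * cexp (((Real.pi / 2 + θ : ℝ) : ℂ) * I) := by
      rw [Complex.exp_mul_I, ← Complex.ofReal_cos, ← Complex.ofReal_sin, hc1, hc2]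
      have h3 : -b = ρ * e' * (-(b * e / ρ)) := by
        have : ρ * e' * (-(b * e / ρ)) = -(b * (e * e')) := by field_simp
        rw [this, hee, mul_one]
      have h4 : s = ρ * e' * (s * e / ρ) := by
        have : ρ * e' * (s * e / ρ) = s * (e * e') := by field_simp
        rw [this, hee, mul_one]
      rw [mul_add, ← mul_assoc, ← Complex.ofReal_mul, ← Complex.ofReal_mul, ← h3, ← h4]
    have hexp : cexp (-(((-b : ℝ) : ℂ) + s * I)) = (e : ℂ) * cexp (-((s : ℂ) * I)) := by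
      have h3 : -(((-b : ℝ) : ℂ) + s * I) = (b : ℂ) + -((s : ℂ) * I) := by
        push_cast
        ring
      rw [h3, Complex.exp_add, he, Complex.ofReal_exp]
    rw [hexp, hz]
    have h5 : ((ρ * e' : ℝ) : ℂ) * cexp (((Real.pi / 2 + θ : ℝ) : ℂ) * I) *
        ((e : ℂ) * cexp (-((s : ℂ) * I))) = ρ * ((e : ℂ) * e') *
        (cexp (((Real.pi / 2 + θ : ℝ) : ℂ) * I) * cexp (-((s : ℂ) * I))) := by
      push_cast
      ring
    rw [h5, ← Complex.ofReal_mul, hee, ← Complex.exp_add, ← hφ, Complex.ofReal_one, mul_one]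
    congr 1
    have h6 : (((s - ψ + 2 * Real.pi : ℝ)) : ℂ) * I + -((s : ℂ) * I) =
        -(I * ψ) + 2 * Real.pi * I := by
      push_cast
      ring
    rw [h6]
    exact Complex.exp_periodic _

end SokalF1
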