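import Pool.Agent.Lib_MP_af4de1_f1.N1Defs

/-!
# N = 1, large `rho`: elementary inequalities

`1 - cos y = 2 sin²(y/2)`, `sin x ≥ x - x³/6` (so `1 - cos y ≥ (y²/2)(1 - y²/24)²`, decreasing factor):
at `y = 2`: .3472, at `8/5`: .39902, at `π/2`: .4024.
-/

set_option autoImplicit false

namespace SokalN1

open Complex Set MeasureTheory

private theorem one_sub_cos_aux {y c k : ℝ} (hy : |y| ≤ c) (hc : c ^ 2 / 24 ≤ 1)
    (hk : k ≤ (1 - c ^ 2 / 24) ^ 2 / 2) : k * y ^ 2 ≤ 1 - Real.cos y := by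
  set t : ℝ := |y| / 2 with ht
  have ht0 : 0 ≤ t := by positivity
  have h1 : t - t ^ 3 / 6 ≤ Real.sin t := Real.sin_ge_sub_cube ht0
  have hy2 : |y| ^ 2 = y ^ 2 := sq_abs y
  have h2 : t * (1 - c ^ 2 / 24) ≤ Real.sin t := by
    refine le_trans ?_ h1
    have h3 : |y| ^ 2 ≤ c ^ 2 := pow_le_pow_left₀ (abs_nonneg y) hy 2
    have h4 : t ^ 2 = |y| ^ 2 / 4 := by rw [ht]; ring
    have h5 : t - t ^ 3 / 6 = t * (1 - t ^ 2 / 6) := by ring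
    rw [h5]
    apply mul_le_mul_of_nonneg_left _ ht0
    linarith
  have h3 : 0 ≤ t * (1 - c ^ 2 / 24) := mul_nonneg ht0 (by linarith)
  have h4 : (t * (1 - c ^ 2 / 24)) ^ 2 ≤ Real.sin t ^ 2 := pow_le_pow_left₀ h3 h2 2
  have h5 : Real.cos y = 1 - 2 * Real.sin t ^ 2 := by
    have h6 : Real.cos y = Real.cos (2 * t) := by
      rw [ht, mul_div_cancel₀ _ (two_ne_zero), Real.cos_abs]
    rw [h6, Real.cos_two_mul, Real.cos_sq']
    ring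
  rw [h5]
  have h6 : t ^ 2 = y ^ 2 / 4 := by rw [ht, div_pow, hy2]; ring
  have h7 : (t * (1 - c ^ 2 / 24)) ^ 2 = y ^ 2 / 4 * (1 - c ^ 2 / 24) ^ 2 := by
    rw [mul_pow, h6]
  rw [h7] at h4
  have h8 : k * y ^ 2 ≤ (1 - c ^ 2 / 24) ^ 2 / 2 * y ^ 2 :=
    mul_le_mul_of_nonneg_right hk (sq_nonneg y)
  linarith

theorem one_sub_cos_two {y : ℝ} (hy : |y| ≤ 2) : 347 / 1000 * y ^ 2 ≤ 1 - Real.cos y :=
  one_sub_cos_aux hy (by norm_num) (by norm_num)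

theorem one_sub_cos_85 {y : ℝ} (hy : |y| ≤ 8 / 5) : 399 / 1000 * y ^ 2 ≤ 1 - Real.cos y :=
  one_sub_cos_aux hy (by norm_num) (by norm_num)

theorem one_sub_cos_half {y : ℝ} (hy : |y| ≤ Real.pi / 2) : 2 / 5 * y ^ 2 ≤ 1 - Real.cos y := by
  have hpi := Real.pi_lt_d2
  have h : |y| ≤ 1.575 := by linarith
  exact one_sub_cos_aux h (by norm_num) (by norm_num)

/-- `cos 2 = 1 - 2 sin² 1`, `sin 1 ≥ 5/6`. -/
theorem cos_two_le : Real.cos 2 ≤ -(38 / 100) := by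
  have h := one_sub_cos_two (y := 2) (by norm_num)
  norm_num at h
  linarith

theorem sub_sin_le {y : ℝ} (hy : 0 ≤ y) : y - Real.sin y ≤ y ^ 3 / 6 := by
  have := Real.sin_ge_sub_cube hy
  linarith

/-- `8/5 > π/2` -/
theorem cos_85 : Real.cos (8 / 5) ≤ 0 := by
  have h1 := Real.pi_lt_d2
  have h2 := Real.pi_gt_d2
  apply Real.cos_nonpos_of_pi_div_two_le_of_le
  · linarith
  · linarith

theorem sin_85 : 99 / 100 ≤ Real.sin (8 / 5) := by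
  have h1 := Real.pi_lt_d2
  have h2 := Real.pi_gt_d2
  have h3 : Real.sin (8 / 5) = Real.cos (8 / 5 - Real.pi / 2) := by
    rw [Real.cos_sub_pi_div_two]
  rw [h3]
  have h4 := Real.one_sub_sq_div_two_le_cos (x := 8 / 5 - Real.pi / 2)
  nlinarith

private theorem exp_le_four {b : ℝ} (hb : 0 ≤ b) (hb1 : b ≤ 1) :
    Real.exp b ≤ 1 + b + b ^ 2 / 2 + b ^ 3 / 6 + 5 / 96 * b ^ 4 := by
  have h := Real.exp_bound' hb hb1 (n := 4) (by norm_num)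
  simp only [Finset.sum_range_succ, Finset.sum_range_zero, Nat.factorial] at h
  norm_num at h
  linarith

private theorem exp_le_five {b : ℝ} (hb : 0 ≤ b) (hb1 : b ≤ 1) :
    Real.exp b ≤ 1 + b + b ^ 2 / 2 + b ^ 3 / 6 + b ^ 4 / 24 + b ^ 5 / 100 := by
  have h := Real.exp_bound' hb hb1 (n := 5) (by norm_num)
  simp only [Finset.sum_range_succ, Finset.sum_range_zero, Nat.factorial] at h
  norm_num at h
  linarith

theorem exp_58 : Real.exp (5 / 8) ≤ 187 / 100 := by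
  have h := exp_le_five (b := 5 / 8) (by norm_num) (by norm_num)
  norm_num at h
  linarith

/-- true: `.6226` -/
theorem exp_sub_A {b : ℝ} (hb : 0 ≤ b) (hb2 : b ≤ 5 / 8) : Real.exp b - 1 - b ≤ 5 / 8 * b ^ 2 := by
  have h := exp_le_four hb (by linarith)
  have h2 : 0 ≤ b ^ 2 := sq_nonneg b
  have h3 : b / 6 + 5 / 96 * b ^ 2 ≤ 1 / 8 := by nlinarith
  nlinarith [mul_le_mul_of_nonneg_left h3 h2]

/-- true: `.5711` -/
theorem exp_sub_C {b : ℝ} (hb : 0 ≤ b) (hb2 : b ≤ 5 / 13) : Real.exp b - 1 - b ≤ 575 / 1000 * b ^ 2 := by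
  have h := exp_le_four hb (by linarith)
  have h2 : 0 ≤ b ^ 2 := sq_nonneg b
  have h3 : b / 6 + 5 / 96 * b ^ 2 ≤ 75 / 1000 := by nlinarith
  nlinarith [mul_le_mul_of_nonneg_left h3 h2]

/-- `e^(-b) - 1 + b ≤ b²/2` -/
theorem exp_neg_sub {b : ℝ} (hb : 0 ≤ b) : Real.exp (-b) - 1 + b ≤ b ^ 2 / 2 := by
  have h1 := Real.quadratic_le_exp_of_nonneg hb
  have h2 : 0 < 1 + b + b ^ 2 / 2 := by positivity
  have h3 : Real.exp (-b) ≤ 1 / (1 + b + b ^ 2 / 2) := by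
    rw [Real.exp_neg, ← one_div]
    exact one_div_le_one_div_of_le h2 h1
  have h4 : 1 / (1 + b + b ^ 2 / 2) ≤ 1 - b + b ^ 2 / 2 := by
    rw [div_le_iff₀ h2]
    have h5 : (1 - b + b ^ 2 / 2) * (1 + b + b ^ 2 / 2) = 1 + (b ^ 2) ^ 2 / 4 := by ring
    rw [h5]
    have := sq_nonneg (b ^ 2)
    linarith
  linarith

/-- true: `1.3702`; convexity of `exp` on `[0, 3/5]` and `exp (3/5) ≤ 1.8222`. -/
theorem exp_le_lin {a : ℝ} (ha : 0 ≤ a) (ha2 : a ≤ 3 / 5) : Real.exp a - 1 ≤ 1371 / 1000 * a := by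
  have h := exp_le_five ha (by linarith)
  have h2 : a ^ 2 ≤ (3 / 5) ^ 2 := pow_le_pow_left₀ ha ha2 2
  have h3 : a ^ 3 ≤ (3 / 5) ^ 3 := pow_le_pow_left₀ ha ha2 3
  have h4 : a ^ 4 ≤ (3 / 5) ^ 4 := pow_le_pow_left₀ ha ha2 4
  norm_num at h2 h3 h4
  have h5 : 1 + a / 2 + a ^ 2 / 6 + a ^ 3 / 24 + a ^ 4 / 100 ≤ 1371 / 1000 := by linarith
  have h6 := mul_le_mul_of_nonneg_left h5 ha
  have h7 : a * (1 + a / 2 + a ^ 2 / 6 + a ^ 3 / 24 + a ^ 4 / 100) =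
      a + a ^ 2 / 2 + a ^ 3 / 6 + a ^ 4 / 24 + a ^ 5 / 100 := by ring
  rw [h7] at h6
  linarith

end SokalN1
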