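import Pool.Agent.Lib_MP_af4de1_f1.Dec
import Pool.Agent.Lib_MP_af4de1_f1.Sad

/-!
# The top waves on `|q| = 1`: definitions and the interface statements

`t = -i δ`, `ρ = r δ`, waves `W0 r δ η = E t w`, `W1 = DE t w`, `W2 = D2E t w` at `w = r e^(i(η-ρ+δ/2))`.
`ph ρ y = Φ/r = x(1+y)/ρ`, the size of the wave with saddle `(ρ, y)` is `Mm r ρ y = e^(r ph)/√D`,
its saddle is `κ = sK ρ y/δ = (r/ρ) sK ρ y`.
-/

set_option autoImplicit false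

namespace SokalF1T

open Complex SokalU SokalF1 SokalF1S

/-- the wave at the centred angle `η` -/
noncomputable def W0 (r δ η : ℝ) : ℂ := E (tt δ) (wp r δ η)
/-- `D` of it -/
noncomputable def W1 (r δ η : ℝ) : ℂ := DE (tt δ) (wp r δ η)
/-- `D²` of it -/
noncomputable def W2 (r δ η : ℝ) : ℂ := SokalBPlus.D2E (tt δ) (wp r δ η)

/-- `Φ/r` -/
noncomputable def ph (ρ y : ℝ) : ℝ := sx ρ y * (1 + y) / ρ

/-- `√D`-normalised size -/
noncomputable def Mm (r ρ y : ℝ) : ℝ := Real.exp (r * ph ρ y) / √(√(sD2 ρ y))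

/-- the saddle -/
noncomputable def kp (r ρ y : ℝ) : ℂ := ((r / ρ : ℝ) : ℂ) * sK ρ y

/-- The domain of the top waves. -/
structure DD (ρ y : ℝ) : Prop where
  dom : Dom ρ y
  y0 : -(7 / 10) ≤ y
  y1 : y ≤ 18 / 25
  eta : |sE ρ y| ≤ 2 * Real.pi / 3
  phi : 11 / 25 ≤ ph ρ y

/-- Range of `(N, r, ρ)` for the top waves (`N ≥ 3`, or `N = 2` and `ρ ≥ 5/2`). -/
structure Rng (N : ℕ) (r ρ : ℝ) : Prop where
  hr : 499 / 10 ≤ r
  hρ : 0 < ρ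
  hN : 3 ≤ N ∨ (N = 2 ∧ 5 / 2 ≤ ρ)
  hQ : (N : ℝ) ^ 2 * (1 + ρ ^ 2) ≤ 7.2552 * r

/-- Range of `(r, ρ)` for one wave. -/
def Rng1 (r ρ : ℝ) : Prop :=
  499 / 10 ≤ r ∧ 0 < ρ ∧ (ρ ^ 2 ≤ 8065 / 10000 * r ∨ (5 / 2 ≤ ρ ∧ ρ ^ 2 ≤ 18138 / 10000 * r))

theorem Rng.one {N : ℕ} {r ρ : ℝ} (h : Rng N r ρ) : Rng1 r ρ := by
  obtain ⟨hr, hρ, hN, hQ⟩ := h
  refine ⟨hr, hρ, ?_⟩
  rcases hN with h3 | ⟨h2, h5⟩
  · left
    have h9 : (9 : ℝ) ≤ (N : ℝ) ^ 2 := by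
      have : (3 : ℝ) ≤ N := by exact_mod_cast h3
      nlinarith
    have : 9 * (1 + ρ ^ 2) ≤ 7.2552 * r :=
      (mul_le_mul_of_nonneg_right h9 (by positivity)).trans hQ
    norm_num at this ⊢
    nlinarith
  · right
    refine ⟨h5, ?_⟩
    subst h2
    norm_num at hQ ⊢
    nlinarith

theorem Rng1.rpos {r ρ : ℝ} (h : Rng1 r ρ) : 0 < r := by
  have := h.1; linarith

/-- `κ_true - κ` is bounded by this. -/
noncomputable def C1 (r ρ y : ℝ) : ℝ :=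
  (if 0 ≤ y then 1 else 3) + (if ρ ^ 2 ≤ 8065 / 10000 * r then 0 else √r / 3)

theorem wp_period (r δ η : ℝ) : wp r δ (η + 2 * Real.pi) = wp r δ η := by
  unfold wp
  have : ((η + 2 * Real.pi - r * δ + δ / 2 : ℝ) : ℂ) * I =
      ((η - r * δ + δ / 2 : ℝ) : ℂ) * I + 2 * Real.pi * I := by
    push_cast; ring
  rw [this, Complex.exp_add, Complex.exp_two_pi_mul_I, mul_one]

theorem W0_period (r δ η : ℝ) : W0 r δ (η + 2 * Real.pi) = W0 r δ η := by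
  unfold W0
  rw [wp_period]

theorem W1_period (r δ η : ℝ) : W1 r δ (η + 2 * Real.pi) = W1 r δ η := by
  unfold W1
  rw [wp_period]

theorem W2_period (r δ η : ℝ) : W2 r δ (η + 2 * Real.pi) = W2 r δ η := by
  unfold W2
  rw [wp_period]

end SokalF1T
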