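import Pool.Agent.Lib_MP_af4de1_v3.OwnPN
import Pool.Agent.Lib_MP_af4de1_f1.MainS2
import Pool.Agent.Lib_MP_af4de1_f1.MainS3
import Pool.Agent.Lib_MP_af4de1_f1.TopDefs

/-!
# The own wave on the domain `DD` (regime C), from the tails
-/

set_option autoImplicit false

open Complex MeasureTheory Set SokalU SokalPG SokalF1 SokalF1S SokalF1M SokalF1G SokalF1B

namespace SokalF1T

open SokalV3

/-- The structural facts for `y ≤ 0` on `DD`. -/
theorem DD.negF {ρ y : ℝ} (h : DD ρ y) (hy : y ≤ 0) : NegF (sx ρ y) y := by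
  have hρ := h.dom.1
  have hx := sx_nonneg ρ y
  have h0 := h.y0
  have h3 : -(3 / 4) ≤ y := by linarith
  have hΦ : 11 / 25 * (√(sx ρ y ^ 2 + y ^ 2) * Real.exp y) ≤ sx ρ y * (1 + y) := by
    have h1 : ρ = √(sx ρ y ^ 2 + y ^ 2) * Real.exp y := by
      have h2 : ‖sK ρ y‖ = √(sx ρ y ^ 2 + y ^ 2) := norm_K _ _
      rw [← h2, norm_sK h.dom, mul_assoc, ← Real.exp_add]
      simp
    have h2 := h.phi
    unfold ph at h2
    rw [le_div_iff₀ hρ] at h2
    rwa [← h1]
  exact ⟨hx, h3, hy, s2_T hx h3 hy hΦ, s2_D hx h3 hy hΦ, s2_l hx h3 hy hΦ, s2_mu hx h3 hy hΦ,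
    s2_nu hx h3 hy hΦ, s2_gam hx h3 hy hΦ, s2_B hx h3 hy hΦ⟩

/-- The tails on `DD`. -/
def PTailC : Prop := ∀ r δ y : ℝ, 499 / 10 ≤ r → 0 < δ → r * δ ≤ 173 / 100 → DD (r * δ) y →
  Tl r δ y (fun _ => 1) ≤ 1 / 20 * sG r δ y ∧
  ‖kap r δ y‖ / sD (r * δ) y * Tl r δ y gs ≤ 1 / 10 * sG r δ y ∧
  Tl r δ y (fun σ => σ * gs σ) ≤ 2 / 25 * (δ * sG r δ y)

/-- LEMMA MAIN on `DD`, from the tails. -/
theorem ownC_of_tails (hT : PTailC) {r δ y : ℝ} (hr : 499 / 10 ≤ r) (hδ : 0 < δ)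
    (hrho : r * δ ≤ 173 / 100) (hD : DD (r * δ) y) :
    Own r δ y (1 / 6) (if 0 ≤ y then 1 else 3)
      (9 / 5 * (‖kap r δ y‖ / sD (r * δ) y)) := by
  obtain ⟨t0, t1, t2⟩ := hT r δ y hr hδ hrho hD
  have hy1 : -1 < y := by linarith [hD.y0]
  have hG := sG_pos (r := r) hδ hy1
  have hx := sx_nonneg (r * δ) y
  have hDp : 0 < sD (r * δ) y := Real.sqrt_pos.2 (sD2_pos hy1)
  have hkD : 0 ≤ ‖kap r δ y‖ / sD (r * δ) y := by positivity
  have hK : ‖sK (r * δ) y‖ = √(sx (r * δ) y ^ 2 + y ^ 2) := norm_K _ _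
  have hP : 0 < sD2 (r * δ) y := sD2_pos hy1
  have t2' : ‖kap r δ y‖ / sD (r * δ) y * Tl r δ y (fun σ => σ * gs σ) ≤
      ‖kap r δ y‖ / sD (r * δ) y * (2 / 25 * (δ * sG r δ y)) :=
    mul_le_mul_of_nonneg_left t2 hkD
  have hp : 0 ≤ ‖kap r δ y‖ / sD (r * δ) y * (δ * sG r δ y) := by positivity
  rcases le_total 0 y with hy | hy
  · rw [if_pos hy]
    have key := own_pos (e := 13 / 100) (a := 92 / 100) (v0 := 126 / 100) (τ0 := 1 / 20)
      (τ1 := 12 / 100) (τ2 := ‖kap r δ y‖ / sD (r * δ) y * (1 / 10)) hr hδ hD.dom hy hD.y1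
      (by norm_num) (by norm_num) (by norm_num) (by norm_num) t0
      (t1.trans (by nlinarith)) (t2'.trans (by nlinarith))
    refine key.mono hy1 (by norm_num) ?_ (by linarith)
    have h1 : kD r δ y ≤ 1 / 2 := by
      unfold kD
      rw [div_le_iff₀ hP, hK]
      have := s1_kd hx hy hD.y1
      unfold sD2
      linarith
    linarith
  · have hF := DD.negF hD hy
    have h1 : kD r δ y ≤ 21 / 10 := by
      unfold kD
      rw [div_le_iff₀ hP, hK]
      have hρ := hD.dom.1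
      have hΦ : 11 / 25 * (√(sx (r * δ) y ^ 2 + y ^ 2) * Real.exp y) ≤
          sx (r * δ) y * (1 + y) := by
        have h2 := hD.phi
        unfold ph at h2
        rw [le_div_iff₀ hρ] at h2
        rwa [← rd_eq hD.dom]
      have := s2_kd hx (by linarith [hD.y0]) hy hΦ
      unfold sD2
      linarith
    rcases hy.eq_or_lt with h | h
    · -- `y = 0`: the first case applies
      have hy0 : 0 ≤ y := h.ge
      rw [if_pos hy0]
      have key := own_pos (e := 13 / 100) (a := 92 / 100) (v0 := 126 / 100) (τ0 := 1 / 20)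
        (τ1 := 12 / 100) (τ2 := ‖kap r δ y‖ / sD (r * δ) y * (1 / 10)) hr hδ hD.dom hy0 hD.y1
        (by norm_num) (by norm_num) (by norm_num) (by norm_num) t0
        (t1.trans (by nlinarith)) (t2'.trans (by nlinarith))
      refine key.mono hy1 (by norm_num) ?_ (by linarith)
      have h1 : kD r δ y ≤ 1 / 2 := by
        unfold kD
        rw [div_le_iff₀ hP, hK]
        have := s1_kd hx hy0 hD.y1
        unfold sD2
        linarith
      linarith
    · rw [if_neg (not_le.2 h)]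
      have key := own_neg (e := 151 / 1000) (a := 136 / 100) (v0 := 163 / 100) (τ0 := 1 / 20)
        (τ1 := 12 / 100) (τ2 := ‖kap r δ y‖ / sD (r * δ) y * (1 / 10)) hr hδ hD.dom hF
        (by norm_num) (by norm_num) (by norm_num) (by norm_num) t0
        (t1.trans (by nlinarith)) (t2'.trans (by nlinarith))
      refine key.mono hy1 (by norm_num) ?_ (by linarith)
      linarith

end SokalF1T
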