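import Pool.Agent.Lib_MP_af4de1_f1.PCb

/-!
# Regime C, part c: `PC` from the localisation, the own wave and the far waves
-/

set_option autoImplicit false

namespace SokalF1T

open Complex SokalU SokalF1 SokalF1S SokalF1M SokalV3

theorem pc_N {N : ℕ} {r δ : ℝ} (h : RegC N r δ) : N ≤ 5 := by
  by_contra hN
  push Not at hN
  have h1 := h.C
  have hN6 : (6 : ℝ) ≤ N := by exact_mod_cast hN
  have h2 : hst N ≤ 2 * Real.pi / 6 := by
    unfold hst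
    exact div_le_div_of_nonneg_left (by have := Real.pi_pos; positivity) (by norm_num) hN6
  have h0 : 0 ≤ hst N := by unfold hst; have := Real.pi_pos; positivity
  have h3 : hst N ^ 2 ≤ (2 * Real.pi / 6) ^ 2 := pow_le_pow_left₀ h0 h2 2
  have hpi := Real.pi_lt_d4
  have hpi0 := Real.pi_pos
  have h4 : 1 ≤ RR r δ := by unfold RR; nlinarith [sq_nonneg (r * δ)]
  nlinarith

theorem pc_rho {N : ℕ} {r δ : ℝ} (h : RegC N r δ) : r * δ ≤ 173 / 100 := by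
  have h1 := h.C
  have hN3 : (3 : ℝ) ≤ N := by exact_mod_cast h.N3
  have h2 : hst N ≤ 2 * Real.pi / 3 := by
    unfold hst
    exact div_le_div_of_nonneg_left (by have := Real.pi_pos; positivity) (by norm_num) hN3
  have h0 : 0 ≤ hst N := by unfold hst; have := Real.pi_pos; positivity
  have h3 : hst N ^ 2 ≤ (2 * Real.pi / 3) ^ 2 := pow_le_pow_left₀ h0 h2 2
  have hpi := Real.pi_lt_d4
  have hpi0 := Real.pi_pos
  unfold RR at h1
  have h5 : (r * δ) ^ 2 ≤ (173 / 100) ^ 2 := by nlinarith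
  exact (abs_le_of_sq_le_sq' h5 (by norm_num)).2

theorem pc_window {N : ℕ} (hN : 3 ≤ N) (f : ℤ → ℂ) :
    ∑ j ∈ Finset.Ico (-1 : ℤ) (-1 + N), f j =
      f (-1) + f 0 + ∑ j ∈ Finset.Ico (1 : ℤ) (-1 + N), f j := by
  have e : Finset.Ico (-1 : ℤ) (-1 + N) = insert (-1) (insert 0 (Finset.Ico (1 : ℤ) (-1 + N))) := by
    ext j
    simp only [Finset.mem_Ico, Finset.mem_insert]
    omega
  rw [e, Finset.sum_insert (by simp), Finset.sum_insert (by simp)]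
  ring

theorem pc_far_sum {J : Finset ℤ} (hJ : J.card ≤ 3) {c a : ℤ → ℂ} {g0 B : ℝ} (hg : 0 ≤ g0) (hB : 0 ≤ B)
    (hc : ∀ j, ‖c j‖ = g0) (ha : ∀ j ∈ J, ‖a j‖ ≤ B) : ‖∑ j ∈ J, c j * a j‖ ≤ 3 * (g0 * B) := by
  have h1 : ∀ j ∈ J, ‖c j * a j‖ ≤ g0 * B := fun j hj => by
    rw [norm_mul, hc j]
    exact mul_le_mul_of_nonneg_left (ha j hj) hg
  have h2 := norm_sum_le_of_le J h1
  rw [Finset.sum_const, nsmul_eq_mul] at h2
  have h3 : (J.card : ℝ) ≤ 3 := by exact_mod_cast hJ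
  exact h2.trans (mul_le_mul_of_nonneg_right h3 (by positivity))

/-- the three far sums -/
theorem pc_far {J : Finset ℤ} (hJ : J.card ≤ 3) {c a0 a1 a2 : ℤ → ℂ} {g0 r M : ℝ} (hg : 0 ≤ g0) (hr : 0 ≤ r)
    (hM : 0 ≤ M) (hc : ∀ j, ‖c j‖ = g0)
    (ha : ∀ j ∈ J, ‖a0 j‖ ≤ 1 / 3000 * M ∧ ‖a1 j‖ ≤ 1 / 3000 * r * M ∧ ‖a2 j‖ ≤ 1 / 3000 * r ^ 2 * M) :
    ‖∑ j ∈ J, c j * a0 j‖ ≤ 1 / 1000 * (g0 * M) ∧
    ‖∑ j ∈ J, c j * a1 j - r * ∑ j ∈ J, c j * a0 j‖ ≤ 2 / 1000 * r * (g0 * M) ∧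
    ‖∑ j ∈ J, c j * a2 j - 2 * r * ∑ j ∈ J, c j * a1 j + r ^ 2 * ∑ j ∈ J, c j * a0 j‖ ≤
      4 / 1000 * r ^ 2 * (g0 * M) := by
  refine ⟨?_, ?_, ?_⟩
  · refine (pc_far_sum hJ hg (by positivity) hc fun j hj => (ha j hj).1).trans (le_of_eq (by ring))
  · have e : ∑ j ∈ J, c j * a1 j - r * ∑ j ∈ J, c j * a0 j = ∑ j ∈ J, c j * (a1 j - r * a0 j) := by
      rw [Finset.mul_sum, ← Finset.sum_sub_distrib]
      exact Finset.sum_congr rfl fun j _ => by ring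
    rw [e]
    refine (pc_far_sum (B := 2 / 3000 * r * M) hJ hg (by positivity) hc fun j hj => ?_).trans
      (le_of_eq (by ring))
    obtain ⟨h0, h1, -⟩ := ha j hj
    have h3 : ‖(r : ℂ) * a0 j‖ ≤ r * (1 / 3000 * M) := by
      rw [norm_mul, Complex.norm_real, Real.norm_of_nonneg hr]
      exact mul_le_mul_of_nonneg_left h0 hr
    have := norm_sub_le (a1 j) (r * a0 j)
    linarith
  · have e : ∑ j ∈ J, c j * a2 j - 2 * r * ∑ j ∈ J, c j * a1 j + r ^ 2 * ∑ j ∈ J, c j * a0 j =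
        ∑ j ∈ J, c j * (a2 j - 2 * r * a1 j + r ^ 2 * a0 j) := by
      rw [Finset.mul_sum, Finset.mul_sum, ← Finset.sum_sub_distrib, ← Finset.sum_add_distrib]
      exact Finset.sum_congr rfl fun j _ => by ring
    rw [e]
    refine (pc_far_sum (B := 4 / 3000 * r ^ 2 * M) hJ hg (by positivity) hc fun j hj => ?_).trans
      (le_of_eq (by ring))
    obtain ⟨h0, h1, h2⟩ := ha j hj
    have h3 : ‖(r : ℂ) ^ 2 * a0 j‖ ≤ r ^ 2 * (1 / 3000 * M) := by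
      rw [norm_mul, norm_pow, Complex.norm_real, Real.norm_of_nonneg hr]
      exact mul_le_mul_of_nonneg_left h0 (by positivity)
    have h4 : ‖2 * (r : ℂ) * a1 j‖ ≤ 2 * r * (1 / 3000 * r * M) := by
      rw [norm_mul, norm_mul, Complex.norm_real, Real.norm_of_nonneg hr, Complex.norm_ofNat]
      exact mul_le_mul_of_nonneg_left h1 (by positivity)
    have := norm_add_le (a2 j - 2 * r * a1 j) ((r : ℂ) ^ 2 * a0 j)
    have := norm_sub_le (a2 j) (2 * (r : ℂ) * a1 j)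
    linarith

theorem pc_y_nonneg {ρ y : ℝ} (h : DD ρ y) (hs : 0 ≤ sE ρ y) : 0 ≤ y := by
  by_contra hy
  push Not at hy
  have hρ := h.dom.pos
  have hy0 := h.y0
  have := sE_strictMonoOn h.dom (dom_zero hρ) (by linarith : -1 ≤ y)
    (Set.left_mem_Icc.2 hy.le) (Set.right_mem_Icc.2 hy.le) hy
  rw [sE_zero hρ] at this
  linarith

theorem pc_y_neg {ρ y : ℝ} (h : DD ρ y) (hs : sE ρ y < 0) : y < 0 := by
  by_contra hy
  push Not at hy
  have hρ := h.dom.pos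
  rcases hy.eq_or_lt with h0 | h0
  · rw [← h0, sE_zero hρ] at hs
    exact lt_irrefl _ hs
  · have := sE_strictMonoOn (dom_zero hρ) h.dom (by norm_num : (-1 : ℝ) ≤ 0)
      (Set.left_mem_Icc.2 h0.le) (Set.right_mem_Icc.2 h0.le) h0
    rw [sE_zero hρ] at this
    linarith

/-- **Regime C** from the localisation, the own wave and the far waves. -/
theorem pc_of
    (hloc : ∀ {N : ℕ} {r del x m : ℝ}, RegC N r del → 0 ≤ x → x < 1 → 0 < m →
      (¬ ∃ y0 y1, DD (r * del) y0 ∧ sE (r * del) y0 = x * hst N ∧ DD (r * del) y1 ∧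
        sE (r * del) y1 = (x - 1) * hst N) →
      ∃ j0 ∈ Finset.Ico (-1 : ℤ) (-1 + N), ∑ i ∈ (Finset.Ico (-1 : ℤ) (-1 + N)).erase j0,
        ‖W1 r del ((x + i) * hst N) + m * W0 r del ((x + i) * hst N)‖ <
        ‖W1 r del ((x + j0) * hst N) + m * W0 r del ((x + j0) * hst N)‖)
    (hown : ∀ {r d y : ℝ}, 499 / 10 ≤ r → 0 < d → r * d ≤ 173 / 100 → DD (r * d) y →
      Own r d y (1 / 6) (if 0 ≤ y then 1 else 3) (9 / 5 * (‖kap r d y‖ / sD (r * d) y)))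
    (hfar : ∀ {N : ℕ} {r del x y : ℝ}, RegC N r del → 0 ≤ x → x < 1 → DD (r * del) y →
      (sE (r * del) y = x * hst N ∨ sE (r * del) y = (x - 1) * hst N) →
      (|sE (r * del) y| ≤ hst N / 2 ∨ (N = 3 ∧ |sE (r * del) y| ≤ 2 * Real.pi / 3 - 24 / 25)) →
      ∀ {i : ℤ}, 1 ≤ i → i < -1 + N →
      ‖W0 r del ((x + i) * hst N)‖ ≤ 1 / 3000 * Mm r (r * del) y ∧
      ‖W1 r del ((x + i) * hst N)‖ ≤ 1 / 3000 * r * Mm r (r * del) y ∧
      ‖W2 r del ((x + i) * hst N)‖ ≤ 1 / 3000 * r ^ 2 * Mm r (r * del) y) : PC := by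
  intro N r δ hR x g0 m c hx0 hx1 hg0 hc hm hF hT
  have hr := hR.r0
  have hδ := hR.d0
  have hr0 : 0 < r := by linarith
  have hN3 := hR.N3
  have hh : 0 < hst N := by
    unfold hst
    have : (0 : ℝ) < N := by exact_mod_cast (by omega : 0 < N)
    have := Real.pi_pos
    positivity
  -- both tops in `DD`
  have hex : ∃ y0 y1, DD (r * δ) y0 ∧ sE (r * δ) y0 = x * hst N ∧ DD (r * δ) y1 ∧
      sE (r * δ) y1 = (x - 1) * hst N := by
    by_contra hnot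
    obtain ⟨j0, hj0, hlt⟩ := hloc hR hx0 hx1 hm hnot
    have h1 : ∑ j ∈ Finset.Ico (-1 : ℤ) (-1 + N), c j * (W1 r δ ((x + j) * hst N) +
        m * W0 r δ ((x + j) * hst N)) = 0 := by
      rw [← hT, Finset.mul_sum, ← Finset.sum_add_distrib]
      refine Finset.sum_congr rfl fun j _ => ?_
      unfold W1 W0 wj
      ring
    rw [← Finset.add_sum_erase _ _ hj0] at h1
    have h2 : ‖c j0 * (W1 r δ ((x + j0) * hst N) + m * W0 r δ ((x + j0) * hst N))‖ ≤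
        ∑ i ∈ (Finset.Ico (-1 : ℤ) (-1 + N)).erase j0, g0 *
          ‖W1 r δ ((x + i) * hst N) + m * W0 r δ ((x + i) * hst N)‖ := by
      rw [eq_neg_of_add_eq_zero_left h1, norm_neg]
      refine (norm_sum_le _ _).trans (le_of_eq (Finset.sum_congr rfl fun i _ => ?_))
      rw [norm_mul, hc i]
    rw [norm_mul, hc j0, ← Finset.mul_sum] at h2
    have h3 := le_of_mul_le_mul_left h2 hg0
    linarith
  obtain ⟨y0, y1, hD0, hs0, hD1, hs1⟩ := hex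
  have hy0 : 0 ≤ y0 := pc_y_nonneg hD0 (by rw [hs0]; positivity)
  have hy1 : y1 < 0 := pc_y_neg hD1 (by rw [hs1]; exact mul_neg_of_neg_of_pos (by linarith) hh)
  have hρ := pc_rho hR
  have own0 := hown hr hδ hρ hD0
  have own1 := hown hr hδ hρ hD1
  rw [if_pos hy0] at own0
  rw [if_neg (not_le.2 hy1)] at own1
  obtain ⟨n0, s0, k0, -⟩ := pc_own (by linarith) own0
  obtain ⟨n1, s1, k1, -⟩ := pc_own (by have := hD1.y0; linarith) own1
  have T0 := pc_pos hr hδ hm hD0 hy0 own0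
  have T1 := pc_neg hr hδ hm hD1 hy1.le own1
  rw [sM_eq_Mm hr0 hδ (by linarith)] at s0
  rw [sM_eq_Mm hr0 hδ (by have := hD1.y0; linarith)] at s1
  have hcone := pc_cone hr hδ hm hD0 hy0 hD1 hy1.le k0 k1
  -- the values
  have e00 : V0 r δ y0 0 = W0 r δ ((x + (0 : ℤ)) * hst N) := by
    unfold V0 W0; rw [hs0]; norm_num
  have e01 : V1 r δ y0 0 = W1 r δ ((x + (0 : ℤ)) * hst N) := by
    unfold V1 W1; rw [hs0]; norm_num
  have e02 : V2 r δ y0 0 = W2 r δ ((x + (0 : ℤ)) * hst N) := by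
    unfold V2 W2; rw [hs0]; norm_num
  have e10 : V0 r δ y1 0 = W0 r δ ((x + (-1 : ℤ)) * hst N) := by
    unfold V0 W0; rw [hs1]; norm_num; ring_nf
  have e11 : V1 r δ y1 0 = W1 r δ ((x + (-1 : ℤ)) * hst N) := by
    unfold V1 W1; rw [hs1]; norm_num; ring_nf
  have e12 : V2 r δ y1 0 = W2 r δ ((x + (-1 : ℤ)) * hst N) := by
    unfold V2 W2; rw [hs1]; norm_num; ring_nf
  set κ0 := V1 r δ y0 0 / V0 r δ y0 0 with hκ0
  set κ1 := V1 r δ y1 0 / V0 r δ y1 0 with hκ1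
  set l0 := V2 r δ y0 0 / V0 r δ y0 0 - κ0 ^ 2 with hl0
  set l1 := V2 r δ y1 0 / V0 r δ y1 0 - κ1 ^ 2 with hl1
  -- the distance
  have hpair : 619 / 1000 * r ≤ ‖κ0 - κ1‖ := by
    have h1 := pairC hR (y0 := y0) (y1 := y1) (η := x * hst N)
      ⟨hD0.dom, by linarith, hs0⟩ ⟨hD1.dom, by have := hD1.y0; linarith, by rw [hs1]; ring⟩ hy0 hy1.le
    have h2 : ‖kap r δ y0 - kap r δ y1‖ ≤ ‖κ0 - κ1‖ + 1 + 3 := by
      have e : kap r δ y0 - kap r δ y1 = (κ0 - κ1) - (κ0 - kap r δ y0) + (κ1 - kap r δ y1) := by ring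
      rw [e]
      refine (norm_add_le _ _).trans ?_
      have := norm_sub_le (κ0 - κ1) (κ0 - kap r δ y0)
      linarith
    linarith
  -- the sums
  set J := Finset.Ico (1 : ℤ) (-1 + N) with hJ
  have hcard : J.card ≤ 3 := by
    have := pc_N hR
    rw [hJ, Int.card_Ico]
    omega
  set p0 := c 0 * V0 r δ y0 0 with hp0
  set p1 := c (-1) * V0 r δ y1 0 with hp1
  have f0 : ∑ j ∈ Finset.Ico (-1 : ℤ) (-1 + N), c j * E (tt δ) (wj N r δ x j) =
      p1 + p0 + ∑ j ∈ J, c j * W0 r δ ((x + j) * hst N) := by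
    rw [pc_window hN3, hp0, hp1, e00, e10]
    rfl
  have f1 : ∑ j ∈ Finset.Ico (-1 : ℤ) (-1 + N), c j * DE (tt δ) (wj N r δ x j) =
      κ1 * p1 + κ0 * p0 + ∑ j ∈ J, c j * W1 r δ ((x + j) * hst N) := by
    have g0' : κ0 * p0 = c 0 * V1 r δ y0 0 := by rw [hp0, hκ0]; field_simp
    have g1' : κ1 * p1 = c (-1) * V1 r δ y1 0 := by rw [hp1, hκ1]; field_simp
    rw [pc_window hN3, g0', g1', e01, e11]
    rfl
  have f2 : ∑ j ∈ Finset.Ico (-1 : ℤ) (-1 + N), c j * SokalBPlus.D2E (tt δ) (wj N r δ x j) =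
      (κ1 ^ 2 + l1) * p1 + (κ0 ^ 2 + l0) * p0 + ∑ j ∈ J, c j * W2 r δ ((x + j) * hst N) := by
    have g0' : (κ0 ^ 2 + l0) * p0 = c 0 * V2 r δ y0 0 := by
      rw [hl0, hp0]; field_simp; ring
    have g1' : (κ1 ^ 2 + l1) * p1 = c (-1) * V2 r δ y1 0 := by
      rw [hl1, hp1]; field_simp; ring
    rw [pc_window hN3, g0', g1', e02, e12]
    rfl
  rw [f0, f1] at hT
  rw [f0, f1, f2]
  have hMp : ∀ y : ℝ, -1 < y → 0 < Mm r (r * δ) y := fun y hy => by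
    rw [← sM_eq_Mm hr0 hδ hy]
    exact sM_pos hy
  rcases le_total x (1 / 2) with hx | hx
  · -- reference: the positive top
    have hfar' : ∀ j ∈ J, ‖W0 r δ ((x + j) * hst N)‖ ≤ 1 / 3000 * Mm r (r * δ) y0 ∧
        ‖W1 r δ ((x + j) * hst N)‖ ≤ 1 / 3000 * r * Mm r (r * δ) y0 ∧
        ‖W2 r δ ((x + j) * hst N)‖ ≤ 1 / 3000 * r ^ 2 * Mm r (r * δ) y0 := by
      intro j hj
      rw [hJ, Finset.mem_Ico] at hj
      refine hfar hR hx0 hx1 hD0 (Or.inl hs0) (Or.inl ?_) hj.1 hj.2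
      rw [hs0, abs_of_nonneg (by positivity)]
      nlinarith
    obtain ⟨h0, h1, h2⟩ := pc_far hcard hg0.le hr0.le (hMp y0 (by linarith)).le hc hfar'
    have := pc_two (L := g0 * Mm r (r * δ) y0) hr hm (mul_pos hg0 (hMp y0 (by linarith))) T0 T1 hcone hpair
      (p0 := p0) (p1 := p1) (by rw [hp0, norm_mul, hc 0]; nlinarith) (by rw [← hT]; ring) h0 h1 h2
      (by norm_num) (by norm_num) (by norm_num) (by norm_num)
    have e : (κ1 ^ 2 + l1) * p1 + (κ0 ^ 2 + l0) * p0 + ∑ j ∈ J, c j * W2 r δ ((x + j) * hst N) =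
        (κ0 ^ 2 + l0) * p0 + (κ1 ^ 2 + l1) * p1 + ∑ j ∈ J, c j * W2 r δ ((x + j) * hst N) := by ring
    have e' : κ1 * p1 + κ0 * p0 + ∑ j ∈ J, c j * W1 r δ ((x + j) * hst N) =
        κ0 * p0 + κ1 * p1 + ∑ j ∈ J, c j * W1 r δ ((x + j) * hst N) := by ring
    have e'' : p1 + p0 + ∑ j ∈ J, c j * W0 r δ ((x + j) * hst N) =
        p0 + p1 + ∑ j ∈ J, c j * W0 r δ ((x + j) * hst N) := by ring
    rw [e, e', e'']
    exact this
  · -- reference: the negative top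
    have hfar' : ∀ j ∈ J, ‖W0 r δ ((x + j) * hst N)‖ ≤ 1 / 3000 * Mm r (r * δ) y1 ∧
        ‖W1 r δ ((x + j) * hst N)‖ ≤ 1 / 3000 * r * Mm r (r * δ) y1 ∧
        ‖W2 r δ ((x + j) * hst N)‖ ≤ 1 / 3000 * r ^ 2 * Mm r (r * δ) y1 := by
      intro j hj
      rw [hJ, Finset.mem_Ico] at hj
      refine hfar hR hx0 hx1 hD1 (Or.inr hs1) (Or.inl ?_) hj.1 hj.2
      rw [hs1, abs_of_neg (mul_neg_of_neg_of_pos (by linarith) hh)]
      nlinarith
    have hM1 := hMp y1 (by have := hD1.y0; linarith)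
    obtain ⟨h0, h1, h2⟩ := pc_far hcard hg0.le hr0.le hM1.le hc hfar'
    exact pc_two (L := g0 * Mm r (r * δ) y1) hr hm (mul_pos hg0 hM1) T1 T0
      (by rw [mul_comm]; exact hcone) (by rw [norm_sub_rev]; exact hpair)
      (p0 := p1) (p1 := p0) (by rw [hp1, norm_mul, hc (-1)]; nlinarith) hT h0 h1 h2
      (by norm_num) (by norm_num) (by norm_num) (by norm_num)

end SokalF1T
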