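import Pool.Agent.Lib_MP_af4de1_f1.TopFarH
import Pool.Agent.Lib_MP_af4de1_f1.MonA

/-!
# The far waves on the path through `y = 0`
-/

set_option autoImplicit false

namespace SokalF1T

open Real MeasureTheory SokalF1M SokalF1S SokalPG SokalU SokalF1

theorem pc_h_mid {s : ℝ} (h : |s| ≤ 2) : pc (1 / 2) 2 s = s / 2 := by
  rw [abs_le] at h
  rw [pc_mid (by norm_num) h.1 h.2]; ring

theorem sx_y0 {ρ : ℝ} (hρ0 : 0 < ρ) : sx ρ 0 = ρ := by
  unfold sx
  simp [Real.sqrt_sq hρ0.le]

/-- height of the path -/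
theorem far_ht {ρ l θ : ℝ} (hρ0 : 0 < ρ) (h : FarOk ρ θ l) (hτ1 : |θ| ≤ π) (s : ℝ) :
    ρ * (1 - l) + (if 2 < |s| then |s| / 40 else s ^ 2 / 40) ≤ Ht (sx ρ 0) 0 θ (pc (1 / 2) 2 s) s := by
  unfold Ht
  rw [sx_y0 hρ0]
  split_ifs with h2
  · rcases le_total 0 s with h0 | h0
    · rw [abs_of_nonneg h0] at h2 ⊢
      rw [pc_right (by norm_num) (by norm_num) h2.le, show (1 / 2 * 2 : ℝ) = 1 by norm_num]
      have := far_pos hρ0.le h hτ1 h2.le
      linarith
    · rw [abs_of_nonpos h0] at h2 ⊢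
      have h3 : s ≤ -2 := by linarith
      rw [pc_left (by norm_num) (by norm_num) h3, show (1 / 2 * 2 : ℝ) = 1 by norm_num]
      have := far_neg hρ0.le h hτ1 h3
      linarith
  · push Not at h2
    rw [pc_h_mid h2]
    have := far_in hρ0.le h hτ1 h2
    linarith

theorem integrable_tail2 {b : ℝ} (hb : 0 < b) :
    Integrable fun s : ℝ => if 2 < |s| then exp (-b * |s|) else 0 := by
  have h1 := (integrable_exp_abs hb).indicator (s := {s : ℝ | 2 < |s|})
    (measurableSet_lt measurable_const (measurable_id.abs))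
  refine h1.congr (Filter.Eventually.of_forall fun s => ?_)
  simp only [Set.indicator, Set.mem_ofPred_eq]

theorem int_tail2 {b : ℝ} (hb : 0 < b) :
    ∫ s : ℝ, (if 2 < |s| then exp (-b * |s|) else 0) = 2 / b * exp (-(2 * b)) := by
  rw [integral_comp_abs (f := fun u => if 2 < u then exp (-b * u) else 0)]
  have e : (fun u : ℝ => if 2 < u then exp (-b * u) else 0) =
      (Set.Ioi (2 : ℝ)).indicator fun u => exp (-b * u) := by
    ext u
    simp only [Set.indicator, Set.mem_Ioi]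
  rw [e, setIntegral_indicator measurableSet_Ioi]
  have e2 : Set.Ioi (0 : ℝ) ∩ Set.Ioi 2 = Set.Ioi 2 := by
    ext u
    simp only [Set.mem_inter_iff, Set.mem_Ioi]
    constructor
    · exact fun h => h.2
    · intro h; exact ⟨by linarith, h⟩
  rw [e2, integral_exp_mul_Ioi (by linarith)]
  have : -b * 2 = -(2 * b) := by ring
  rw [this]
  field_simp

/-- shifted Gaussian -/
theorem int_gauss_shift {b a : ℝ} (hb : 0 < b) :
    Integrable (fun s : ℝ => exp (a * s) * exp (-b * s ^ 2)) ∧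
      ∫ s : ℝ, exp (a * s) * exp (-b * s ^ 2) = exp (a ^ 2 / (4 * b)) * √(π / b) := by
  have e : (fun s : ℝ => exp (a * s) * exp (-b * s ^ 2)) =
      fun s : ℝ => exp (a ^ 2 / (4 * b)) * exp (-b * (s - a / (2 * b)) ^ 2) := by
    ext s
    rw [← exp_add, ← exp_add]
    congr 1
    field_simp
    ring
  rw [e]
  refine ⟨((integrable_exp_neg_mul_sq hb).comp_sub_right _).const_mul _, ?_⟩
  rw [integral_const_mul, integral_sub_right_eq_self (fun s : ℝ => exp (-b * s ^ 2)), integral_gaussian]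

theorem norm_pv_half (s : ℝ) : ‖pv (1 / 2) 2 s‖ ≤ 9 / 8 := by
  unfold pv
  split_ifs
  · have h : ‖(1 - ((1 / 2 : ℝ) : ℂ) * Complex.I : ℂ)‖ ^ 2 ≤ (9 / 8) ^ 2 := by
      rw [Complex.sq_norm, Complex.normSq_apply]
      simp only [Complex.sub_re, Complex.one_re, Complex.mul_re, Complex.ofReal_re, Complex.I_re,
        mul_zero, Complex.ofReal_im, Complex.I_im, Complex.sub_im, Complex.one_im, Complex.mul_im]
      norm_num
    exact le_of_sq_le_sq (by simpa using h) (by norm_num)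
  · rw [norm_one]; norm_num

theorem mI_far {r δ θ l : ℝ} (hr : 0 < r) (hδ : 0 < δ) (h : FarOk (r * δ) θ l) (hτ1 : |θ| ≤ π) (j : ℕ) :
    mI (1 / 2) 2 r δ 0 θ j ≤ 9 / 8 * exp (-(r * (1 - l))) *
      (exp (5 / 2 * j ^ 2 * δ) * √(40 * π * δ) + exp j * (80 * δ * exp (-(1 / (20 * δ))))) := by
  have hρ : 0 < r * δ := by positivity
  have hk : |(0:ℝ)| < 1 / 2 * 2 := by norm_num
  have hint := integrable_mI (ρ := r * δ) (δ := δ) (y := 0) (c := 1 / 2) (s1 := 2) (by norm_num)
    (by norm_num) (by norm_num) hδ hk θ j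
  have hb : 0 < 1 / (40 * δ) := by positivity
  obtain ⟨i1, i1'⟩ := int_gauss_shift (b := 1 / (40 * δ)) (a := (j : ℝ) / 2) hb
  have i2 := integrable_tail2 (b := 1 / (40 * δ)) hb
  have hpt : ∀ s : ℝ, ‖pv (1 / 2) 2 s‖ * (exp (j * pc (1 / 2) 2 s) *
      exp (-(Ht (sx (r * δ) 0) 0 θ (pc (1 / 2) 2 s) s / δ))) ≤
      9 / 8 * exp (-(r * (1 - l))) *
        (exp ((j : ℝ) / 2 * s) * exp (-(1 / (40 * δ)) * s ^ 2) +
          exp j * (if 2 < |s| then exp (-(1 / (40 * δ)) * |s|) else 0)) := by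
    intro s
    have h1 := norm_pv_half s
    have h4 := far_ht hρ h hτ1 s
    have h5 : ∀ f : ℝ, r * δ * (1 - l) + f ≤ Ht (sx (r * δ) 0) 0 θ (pc (1 / 2) 2 s) s →
        exp (-(Ht (sx (r * δ) 0) 0 θ (pc (1 / 2) 2 s) s / δ)) ≤ exp (-(r * (1 - l))) * exp (-(f / δ)) := by
      intro f hf
      rw [← exp_add]
      apply exp_le_exp.2
      rw [← neg_add, neg_le_neg_iff]
      calc r * (1 - l) + f / δ = (r * δ * (1 - l) + f) / δ := by field_simp
        _ ≤ _ := div_le_div_of_nonneg_right hf hδ.le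
    have h6 : exp (j * pc (1 / 2) 2 s) *
        exp (-(Ht (sx (r * δ) 0) 0 θ (pc (1 / 2) 2 s) s / δ)) ≤ exp (-(r * (1 - l))) *
        (exp ((j : ℝ) / 2 * s) * exp (-(1 / (40 * δ)) * s ^ 2) +
          exp j * (if 2 < |s| then exp (-(1 / (40 * δ)) * |s|) else 0)) := by
      split_ifs at h4 ⊢ with h2
      · have h7 := h5 _ h4
        have h8 : exp (j * pc (1 / 2) 2 s) ≤ exp j := by
          have h3 := (abs_le.1 (pc_abs (c := 1 / 2) (s1 := 2) (by norm_num) (by norm_num) s)).2
          apply exp_le_exp.2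
          have : (j : ℝ) * pc (1 / 2) 2 s ≤ j * 1 := by
            apply mul_le_mul_of_nonneg_left _ (Nat.cast_nonneg j)
            linarith
          linarith
        rw [show -(|s| / 40 / δ) = -(1 / (40 * δ)) * |s| by field_simp] at h7
        have h9 := mul_le_mul h8 h7 (exp_pos _).le (exp_pos _).le
        have h10 : 0 < exp ((j : ℝ) / 2 * s) * exp (-(1 / (40 * δ)) * s ^ 2) := by positivity
        have h11 := exp_pos (-(r * (1 - l)))
        nlinarith
      · have h7 := h5 _ h4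
        push Not at h2
        rw [pc_h_mid h2] at h7 ⊢
        rw [show -(s ^ 2 / 40 / δ) = -(1 / (40 * δ)) * s ^ 2 by field_simp] at h7
        have e : exp (j * (s / 2)) = exp ((j : ℝ) / 2 * s) := by congr 1; ring
        rw [e, mul_zero, add_zero]
        have := mul_le_mul_of_nonneg_left h7 (exp_pos ((j : ℝ) / 2 * s)).le
        linarith
    calc ‖pv (1 / 2) 2 s‖ * (exp (j * pc (1 / 2) 2 s) *
          exp (-(Ht (sx (r * δ) 0) 0 θ (pc (1 / 2) 2 s) s / δ))) ≤
        9 / 8 * (exp (-(r * (1 - l))) * (exp ((j : ℝ) / 2 * s) * exp (-(1 / (40 * δ)) * s ^ 2) +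
          exp j * (if 2 < |s| then exp (-(1 / (40 * δ)) * |s|) else 0))) := by
          apply mul_le_mul h1 h6 (by positivity) (by norm_num)
      _ = _ := by ring
  unfold mI
  refine (integral_mono hint ((i1.add (i2.const_mul _)).const_mul _) hpt).trans ?_
  simp only [Pi.add_apply]
  rw [integral_const_mul, integral_add i1 (i2.const_mul _), i1', integral_const_mul, int_tail2 hb]
  apply le_of_eq
  congr 2
  · congr 1
    · congr 1; field_simp; ring
    · congr 1; field_simp
  · congr 1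
    rw [show -(2 * (1 / (40 * δ))) = -(1 / (20 * δ)) by field_simp; norm_num]
    congr 1
    field_simp
    norm_num

/-- The raw bound. -/
theorem far_raw {r δ θ l : ℝ} (hr : 499 / 10 ≤ r) (hδ : 0 < δ) (hρ : r * δ ≤ 17286 / 10000)
    (h : FarOk (r * δ) θ l) (hτ1 : |θ| ≤ π) {j : ℕ} (hj : j ≤ 2) :
    ‖Ef j (tt δ) (wp r δ θ)‖ ≤ 20 * r ^ j * exp (r * l) := by
  have hr0 : 0 < r := by linarith
  have hρ0 : 0 < r * δ := by positivity
  have hk : |(0:ℝ)| < 1 / 2 * 2 := by norm_num
  have h1 := Ef_shift_le (r := r) (δ := δ) (y := 0) (c := 1 / 2) (s1 := 2) (by norm_num) (by norm_num)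
    (by norm_num) hδ (dom_zero hρ0) (by norm_num) hk θ j
  rw [sE_zero hρ0, zero_add] at h1
  have hK : ‖sK (r * δ) 0 / (δ : ℂ)‖ = r := by
    rw [norm_div, norm_sK (dom_zero hρ0), Complex.norm_real, Real.norm_of_nonneg hδ.le, neg_zero, exp_zero]
    field_simp
  have h2 := sM_sG (r := r) (y := 0) hδ (by norm_num)
  rw [sx_y0 hρ0] at h2
  have h3 : r * δ * (1 + 0) / δ = r := by field_simp; ring
  rw [h3] at h2
  have h4 := mI_far hr0 hδ h hτ1 j
  rw [hK] at h1
  have e1 : r ^ j * sM r δ 0 * mI (1 / 2) 2 r δ 0 θ j / sG r δ 0 =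
      r ^ j * (exp r / √(2 * π * δ)) * mI (1 / 2) 2 r δ 0 θ j := by
    rw [h2]; ring
  rw [e1] at h1
  refine h1.trans ?_
  have hs : 0 < √(2 * π * δ) := Real.sqrt_pos.2 (by positivity)
  have hδ2 : δ ≤ 347 / 10000 := by
    by_contra hcon
    push Not at hcon
    have : (499 / 10 : ℝ) * (347 / 10000) < r * δ := by
      calc (499 / 10 : ℝ) * (347 / 10000) < (499 / 10) * δ := by gcongr
        _ ≤ r * δ := by gcongr
    linarith
  have hj2 : (j : ℝ) ≤ 2 := by exact_mod_cast hj
  have hj0 : (0 : ℝ) ≤ j := Nat.cast_nonneg j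
  have h5 : exp (5 / 2 * j ^ 2 * δ) * √(40 * π * δ) + exp j * (80 * δ * exp (-(1 / (20 * δ)))) ≤
      160 / 9 * √(2 * π * δ) := by
    have e2 : √(40 * π * δ) = √20 * √(2 * π * δ) := by
      rw [← Real.sqrt_mul (by norm_num)]; congr 1; ring
    have e3 : √20 ≤ 44722 / 10000 := by
      rw [Real.sqrt_le_left (by norm_num)]; norm_num
    have e5 : exp (5 / 2 * j ^ 2 * δ) ≤ 1416 / 1000 := by
      have h6 : exp (5 / 2 * j ^ 2 * δ) ≤ exp (347 / 1000) := by
        apply exp_le_exp.2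
        have : (j : ℝ) ^ 2 ≤ 4 := by nlinarith
        nlinarith
      have h7 := Real.exp_bound' (x := 347 / 1000) (by norm_num) (by norm_num) (n := 5) (by norm_num)
      simp [Finset.sum_range_succ, Nat.factorial] at h7
      norm_num at h7
      linarith
    have e4 : 80 * δ ≤ 595 / 100 * √(2 * π * δ) := by
      have h6 : (80 * δ) ^ 2 ≤ (595 / 100 * √(2 * π * δ)) ^ 2 := by
        rw [mul_pow, mul_pow, Real.sq_sqrt (by positivity)]
        have hp := pi_gt_d4
        nlinarith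
      exact le_of_sq_le_sq h6 (by positivity)
    have e6 : exp (-(1 / (20 * δ))) ≤ 252 / 1000 := by
      have h6 : 144 / 100 ≤ 1 / (20 * δ) := by
        rw [le_div_iff₀ (by positivity)]
        linarith
      have h7 : exp (-(1 / (20 * δ))) ≤ exp (-(144 / 100)) := exp_le_exp.2 (by linarith)
      refine h7.trans ?_
      rw [exp_neg, inv_le_comm₀ (exp_pos _) (by norm_num)]
      have := Real.sum_le_exp_of_nonneg (x := 144 / 100) (by norm_num) 4
      simp [Finset.sum_range_succ, Nat.factorial] at this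
      norm_num at this ⊢
      linarith
    have e7 : exp (j : ℝ) ≤ 739 / 100 := by
      have h6 : exp (j : ℝ) ≤ exp 2 := exp_le_exp.2 hj2
      have h7 : exp 2 = exp 1 ^ 2 := by rw [← exp_nat_mul]; norm_num
      have h8 := exp_one_lt_d9
      have h9 := exp_pos 1
      nlinarith
    have e8 : 80 * δ * exp (-(1 / (20 * δ))) ≤ 595 / 100 * √(2 * π * δ) * (252 / 1000) :=
      mul_le_mul e4 e6 (exp_pos _).le (by positivity)
    have e9 : exp j * (80 * δ * exp (-(1 / (20 * δ)))) ≤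
        739 / 100 * (595 / 100 * √(2 * π * δ) * (252 / 1000)) :=
      mul_le_mul e7 e8 (by positivity) (by norm_num)
    have e10 : exp (5 / 2 * j ^ 2 * δ) * √(40 * π * δ) ≤ 1416 / 1000 * (44722 / 10000 * √(2 * π * δ)) := by
      rw [e2]
      exact mul_le_mul e5 (mul_le_mul_of_nonneg_right e3 hs.le) (by positivity) (by norm_num)
    linarith
  have hrj : 0 < r ^ j := by positivity
  calc r ^ j * (exp r / √(2 * π * δ)) * mI (1 / 2) 2 r δ 0 θ j ≤
      r ^ j * (exp r / √(2 * π * δ)) *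
        (9 / 8 * exp (-(r * (1 - l))) * (160 / 9 * √(2 * π * δ))) := by
        apply mul_le_mul_of_nonneg_left _ (by positivity)
        exact h4.trans (mul_le_mul_of_nonneg_left h5 (by positivity))
    _ = 20 * r ^ j * (exp r * exp (-(r * (1 - l)))) := by
        field_simp
        ring
    _ = _ := by
        rw [← exp_add]
        congr 2
        ring

end SokalF1T
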