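import Pool.Agent.Lib_MP_af4de1_f1.TopLev
import Pool.Agent.Lib_MP_af4de1_f1.TopFarK
import Pool.Agent.Lib_MP_af4de1_v3.V3

/-!
# The far waves in regime C (`N = 3, 4, 5`)
-/

set_option autoImplicit false

namespace SokalF1T

open Real SokalF1M SokalF1S SokalPG SokalU SokalF1 SokalV3

theorem regC_cases {N : ℕ} {r δ : ℝ} (h : RegC N r δ) :
    (N = 3 ∧ r * δ ≤ 17286 / 10000) ∨ (N = 4 ∧ r * δ ≤ 1115 / 1000) ∨ (N = 5 ∧ r * δ ≤ 66 / 100) := by
  have hN := h.N3
  have hC := h.C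
  have hp1 := pi_pos
  have hp := pi_lt_d4
  have hpp : π ^ 2 ≤ 9.869651 := by
    have : π ^ 2 ≤ 3.1416 ^ 2 := by gcongr
    norm_num at this ⊢
    linarith
  have hrd : 0 < r * δ := mul_pos (by linarith [h.r0]) h.d0
  have hst2 : hst N ^ 2 * (N : ℝ) ^ 2 = 4 * π ^ 2 := by
    have : (N : ℝ) ≠ 0 := by
      have : 0 < N := by omega
      exact_mod_cast this.ne'
    unfold hst
    field_simp
    ring
  unfold RR at hC
  rcases lt_or_ge N 6 with h6 | h6
  · have : N = 3 ∨ N = 4 ∨ N = 5 := by omega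
    rcases this with rfl | rfl | rfl
    · left
      refine ⟨rfl, ?_⟩
      norm_num at hst2
      nlinarith
    · right; left
      refine ⟨rfl, ?_⟩
      norm_num at hst2
      nlinarith
    · right; right
      refine ⟨rfl, ?_⟩
      norm_num at hst2
      nlinarith
  · exfalso
    have h6' : (36 : ℝ) ≤ (N : ℝ) ^ 2 := by
      have : (6 : ℝ) ≤ N := by exact_mod_cast h6
      nlinarith
    have h7 : hst N ^ 2 * 36 ≤ 4 * π ^ 2 := by
      rw [← hst2]
      exact mul_le_mul_of_nonneg_left h6' (sq_nonneg _)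
    nlinarith [sq_nonneg (r * δ)]

/-- the angle of a far wave -/
theorem far_angle {N : ℕ} {r δ x y : ℝ} (hR : RegC N r δ) (hD : DD (r * δ) y)
    (hx0 : 0 ≤ x) (hx1 : x < 1) (hy : sE (r * δ) y = x * hst N ∨ sE (r * δ) y = (x - 1) * hst N)
    (hH : |sE (r * δ) y| ≤ hst N / 2 ∨ (N = 3 ∧ |sE (r * δ) y| ≤ 2 * π / 3 - 24 / 25))
    {i : ℤ} (h1 : 1 ≤ i) (h2 : i < -1 + N) :
    ∃ θ l : ℝ, |θ| ≤ π ∧ (θ = (x + i) * hst N ∨ θ + 2 * π = (x + i) * hst N) ∧ FarOk (r * δ) θ l ∧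
      l ≤ ph (r * δ) y - 24 / 100 := by
  have hpi := pi_gt_d4
  have hpi2 := pi_lt_d4
  have hN := hR.N3
  have hNpos : (0 : ℝ) < N := by exact_mod_cast (by omega : 0 < N)
  set h := hst N with hh
  have hh0 : 0 < h := by rw [hh]; unfold hst; positivity
  have hhN : h * N = 2 * π := by rw [hh]; unfold hst; field_simp
  set η := |sE (r * δ) y| with hη
  have hη0 : 0 ≤ η := abs_nonneg _
  have hηx : η = x * h ∨ η = (1 - x) * h := by
    rcases hy with e | e
    · left; rw [hη, e, abs_of_nonneg (by positivity)]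
    · right; rw [hη, e, abs_of_nonpos (mul_nonpos_of_nonpos_of_nonneg (by linarith) hh0.le)]; ring
  have hi1 : (1 : ℝ) ≤ i := by exact_mod_cast h1
  have hi2 : (i : ℝ) ≤ N - 2 := by
    have : i ≤ (N : ℤ) - 2 := by omega
    exact_mod_cast this
  -- the angle and its distance from the tops
  obtain ⟨θ, hθπ, hθe, hθd⟩ : ∃ θ : ℝ, |θ| ≤ π ∧ (θ = (x + i) * h ∨ θ + 2 * π = (x + i) * h) ∧
      ((h + x * h ≤ |θ| ∧ (x + i) * h ≤ π) ∨ (h + (1 - x) * h ≤ |θ| ∧ π ≤ (x + i) * h)) := by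
    have hpos : 0 ≤ (x + i) * h := mul_nonneg (by linarith) hh0.le
    have hup : (x + i) * h ≤ 2 * π := by
      rw [← hhN, mul_comm h]
      exact mul_le_mul_of_nonneg_right (by linarith) hh0.le
    rcases le_total ((x + i) * h) π with hle | hge
    · refine ⟨(x + i) * h, ?_, Or.inl rfl, Or.inl ⟨?_, hle⟩⟩
      · rw [abs_of_nonneg hpos]; exact hle
      · rw [abs_of_nonneg hpos]
        nlinarith
    · refine ⟨(x + i) * h - 2 * π, ?_, Or.inr (by ring), Or.inr ⟨?_, hge⟩⟩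
      · rw [abs_of_nonpos (by linarith)]; linarith
      · rw [abs_of_nonpos (by linarith)]
        nlinarith
  have hθ1 : h ≤ |θ| := by
    rcases hθd with ⟨h3, _⟩ | ⟨h3, _⟩
    · have : 0 ≤ x * h := by positivity
      linarith
    · have : 0 ≤ (1 - x) * h := mul_nonneg (by linarith) hh0.le
      linarith
  have hθη : η ≤ h / 2 → h + η ≤ |θ| := by
    intro hle
    rcases hηx with e | e <;> rcases hθd with ⟨h3, _⟩ | ⟨h3, _⟩
    · linarith
    · nlinarith
    · nlinarith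
    · linarith
  rcases regC_cases hR with ⟨rfl, hρ⟩ | ⟨rfl, hρ⟩ | ⟨rfl, hρ⟩
  · -- `N = 3`
    have hh3 : h = 2 * π / 3 := by rw [hh]; unfold hst; norm_num
    rcases le_total (r * δ) (3 / 4) with hs | hs
    · exact ⟨θ, 1 / 5, hθπ, hθe, FarOk.s3 hs (by linarith), by linarith [hD.phi]⟩
    · rcases le_total η (h / 2) with hle | hge
      · refine ⟨θ, cos η - 1 / 4, hθπ, hθe, FarOk.b3 hρ hη0 (by linarith) ?_, ?_⟩
        · have := hθη hle
          linarith
        · have := lev3 hD hs (by linarith) (by rw [← hη]; linarith)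
          linarith
      · have hη2 : η ≤ 2 * π / 3 - 24 / 25 := by
          rcases hH with h4 | ⟨_, h4⟩
          · linarith
          · exact h4
        have hη3 : η ≤ 11345 / 10000 := by linarith
        refine ⟨θ, cos η - 1 / 4, hθπ, hθe, FarOk.c3 hρ ?_ ?_, ?_⟩
        · have h5 : cos (11345 / 10000) ≤ cos η := cos_le_cos_of_nonneg_of_le_pi hη0 (by linarith) hη3
          have h6 := SokalF1G.cos_ge6 (x := 11345 / 10000) (by norm_num)
          norm_num at h6 h5 ⊢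
          linarith
        · have hi : (i : ℝ) = 1 := by
            have : i = 1 := by norm_num at h2; omega
            exact_mod_cast this
          rw [hi] at hθd
          have hh2 : h + h ≤ |θ| + η := by
            rcases hηx with e | e <;> rcases hθd with ⟨h3, h7⟩ | ⟨h3, h7⟩
            · nlinarith
            · linarith
            · linarith
            · nlinarith
          linarith
        · have := lev3 hD hs (by linarith) (by rw [← hη]; linarith)
          linarith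
  · -- `N = 4`
    have hh4 : h = π / 2 := by rw [hh]; unfold hst; norm_num; ring
    have hle : η ≤ h / 2 := by
      rcases hH with h4 | ⟨h4, _⟩
      · exact h4
      · norm_num at h4
    refine ⟨θ, cos η - 31 / 100, hθπ, hθe, FarOk.b4 hρ hη0 (by linarith) ?_, ?_⟩
    · have := hθη hle
      linarith
    · have := lev4 hD (by rw [← hη]; linarith)
      linarith
  · -- `N = 5`
    have hh5 : h = 2 * π / 5 := by rw [hh]; unfold hst; norm_num
    have hle : η ≤ h / 2 := by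
      rcases hH with h4 | ⟨h4, _⟩
      · exact h4
      · norm_num at h4
    refine ⟨θ, cos η - 28 / 100, hθπ, hθe, FarOk.b5 hρ hη0 (by linarith) ?_, ?_⟩
    · have := hθη hle
      linarith
    · have := lev5 hD (by rw [← hη]; linarith)
      linarith

theorem sD2_le {ρ y : ℝ} (hD : DD ρ y) (hρ : ρ ≤ 17286 / 10000) : sD2 ρ y ≤ 16 := by
  have h1 := sx_sq hD.dom
  have e : sD2 ρ y = 1 + 2 * y + (ρ * exp (-y)) ^ 2 := by
    unfold sD2
    rw [h1]; ring
  rw [e]
  have h2 : (ρ * exp (-y)) ^ 2 = ρ ^ 2 * exp (-2 * y) := by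
    rw [mul_pow, ← exp_nat_mul]; congr 2; push_cast; ring
  have h3 : exp (-2 * y) ≤ 41 / 10 := by
    have h4 : exp (-2 * y) ≤ exp (7 / 5) := exp_le_exp.2 (by linarith [hD.y0])
    have h5 : exp (7 / 5) ≤ 41 / 10 := by
      have h6 : exp (7 / 5) = exp 1 * exp (2 / 5) := by rw [← exp_add]; norm_num
      have h7 := exp_one_lt_d9
      have h8 : exp (2 / 5) * exp (-(2 / 5)) = 1 := by rw [← exp_add]; simp
      have h9 : exp (2 / 5) ≤ 3 / 2 := by
        have := Real.exp_bound' (x := 2 / 5) (by norm_num) (by norm_num) (n := 4) (by norm_num)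
        simp [Finset.sum_range_succ, Nat.factorial] at this
        norm_num at this
        linarith
      rw [h6]
      have h10 := exp_pos (2 / 5)
      nlinarith
    linarith
  have h4 : ρ ^ 2 ≤ 299 / 100 := by
    have := hD.dom.1
    nlinarith
  have h5 : ρ ^ 2 * exp (-2 * y) ≤ 299 / 100 * (41 / 10) :=
    mul_le_mul h4 h3 (exp_pos _).le (by norm_num)
  have h6 := hD.y1
  rw [h2]
  linarith

theorem Mm_ge {r ρ y : ℝ} (hD : DD ρ y) (hρ : ρ ≤ 17286 / 10000) : exp (r * ph ρ y) ≤ 2 * Mm r ρ y := by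
  have h1 := sD2_le hD hρ
  have h2 := sD2_pos (ρ := ρ) hD.gt_neg_one
  have h3 : √(√(sD2 ρ y)) ≤ 2 := by
    rw [Real.sqrt_le_left (by norm_num), Real.sqrt_le_left (by norm_num)]
    linarith
  have h4 : 0 < √(√(sD2 ρ y)) := Real.sqrt_pos.2 (Real.sqrt_pos.2 h2)
  unfold Mm
  rw [mul_div_assoc', le_div_iff₀ h4]
  have h5 := exp_pos (r * ph ρ y)
  nlinarith

theorem exp_small {r : ℝ} (hr : 499 / 10 ≤ r) : exp (-(24 / 100 * r)) ≤ 66 / 10000000 := by
  have h1 : exp (-(24 / 100 * r)) ≤ exp (-(11976 / 1000)) := exp_le_exp.2 (by linarith)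
  refine h1.trans ?_
  rw [exp_neg, inv_le_comm₀ (exp_pos _) (by norm_num)]
  have h2 : exp (11976 / 1000) = exp 1 ^ 11 * exp (976 / 1000) := by
    rw [← exp_nat_mul, ← exp_add]; norm_num
  have h3 : (2.7182 : ℝ) ^ 11 ≤ exp 1 ^ 11 := by
    have := exp_one_gt_d9
    gcongr
    linarith
  have h4 : 26 / 10 ≤ exp (976 / 1000) := by
    have := Real.sum_le_exp_of_nonneg (x := 976 / 1000) (by norm_num) 5
    simp [Finset.sum_range_succ, Nat.factorial] at this
    norm_num at this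
    linarith
  rw [h2]
  calc (66 / 10000000 : ℝ)⁻¹ ≤ (2.7182 : ℝ) ^ 11 * (26 / 10) := by norm_num
    _ ≤ _ := by gcongr

/-- **The far waves.** -/
theorem far_Ef {N : ℕ} {r δ x y : ℝ} (hR : RegC N r δ) (hx0 : 0 ≤ x) (hx1 : x < 1)
    (hD : DD (r * δ) y) (hy : sE (r * δ) y = x * hst N ∨ sE (r * δ) y = (x - 1) * hst N)
    (hH : |sE (r * δ) y| ≤ hst N / 2 ∨ (N = 3 ∧ |sE (r * δ) y| ≤ 2 * π / 3 - 24 / 25))
    {i : ℤ} (h1 : 1 ≤ i) (h2 : i < -1 + N) {j : ℕ} (hj : j ≤ 2) :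
    ‖Ef j (tt δ) (wp r δ ((x + i) * hst N))‖ ≤ 265 / 1000000 * (r ^ j * Mm r (r * δ) y) := by
  obtain ⟨θ, l, hθ, he, hok, hl⟩ := far_angle hR hD hx0 hx1 hy hH h1 h2
  have hr := hR.r0
  have hρ : r * δ ≤ 17286 / 10000 := by
    rcases regC_cases hR with ⟨_, h⟩ | ⟨_, h⟩ | ⟨_, h⟩
    · exact h
    · linarith
    · linarith
  have hwp : wp r δ ((x + i) * hst N) = wp r δ θ := by
    rcases he with e | e
    · rw [e]
    · rw [← e, wp_period]
  rw [hwp]
  refine (far_raw hr hR.d0 hρ hok hθ hj).trans ?_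
  have h3 : exp (r * l) ≤ exp (-(24 / 100 * r)) * exp (r * ph (r * δ) y) := by
    rw [← exp_add]
    apply exp_le_exp.2
    nlinarith
  have h4 := exp_small hr
  have h5 := Mm_ge (r := r) hD hρ
  have h6 : exp (r * l) ≤ 66 / 10000000 * (2 * Mm r (r * δ) y) :=
    h3.trans (mul_le_mul h4 h5 (exp_pos _).le (by norm_num))
  have h7 : 0 < r ^ j := by positivity
  have h8 : 0 ≤ Mm r (r * δ) y := by
    have := exp_pos (r * ph (r * δ) y)
    linarith
  calc 20 * r ^ j * exp (r * l) = r ^ j * (20 * exp (r * l)) := by ring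
    _ ≤ r ^ j * (265 / 1000000 * Mm r (r * δ) y) := by
      apply mul_le_mul_of_nonneg_left _ h7.le
      linarith
    _ = _ := by ring

/-- **The far waves**, final form. -/
theorem far_le {N : ℕ} {r δ x y : ℝ} (hR : RegC N r δ) (hx0 : 0 ≤ x) (hx1 : x < 1)
    (hD : DD (r * δ) y) (hy : sE (r * δ) y = x * hst N ∨ sE (r * δ) y = (x - 1) * hst N)
    (hH : |sE (r * δ) y| ≤ hst N / 2 ∨ (N = 3 ∧ |sE (r * δ) y| ≤ 2 * π / 3 - 24 / 25))
    {i : ℤ} (h1 : 1 ≤ i) (h2 : i < -1 + N) :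
    ‖W0 r δ ((x + i) * hst N)‖ ≤ 1 / 3000 * Mm r (r * δ) y ∧
    ‖W1 r δ ((x + i) * hst N)‖ ≤ 1 / 3000 * r * Mm r (r * δ) y ∧
    ‖W2 r δ ((x + i) * hst N)‖ ≤ 1 / 3000 * r ^ 2 * Mm r (r * δ) y := by
  have hr := hR.r0
  have hρ : r * δ ≤ 17286 / 10000 := by
    rcases regC_cases hR with ⟨_, h⟩ | ⟨_, h⟩ | ⟨_, h⟩
    · exact h
    · linarith
    · linarith
  have hM : 0 ≤ Mm r (r * δ) y := by
    have h5 := Mm_ge (r := r) hD hρ
    have := exp_pos (r * ph (r * δ) y)
    linarith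
  have e0 := far_Ef hR hx0 hx1 hD hy hH h1 h2 (j := 0) (by norm_num)
  have e1 := far_Ef hR hx0 hx1 hD hy hH h1 h2 (j := 1) (by norm_num)
  have e2 := far_Ef hR hx0 hx1 hD hy hH h1 h2 (j := 2) le_rfl
  rw [SokalF1M.Ef_zero, pow_zero, one_mul] at e0
  rw [SokalF1M.Ef_one, pow_one] at e1
  have hr0 : 0 < r := by linarith
  have h5 : 0 ≤ r * Mm r (r * δ) y := by positivity
  have h6 : 0 ≤ r ^ 2 * Mm r (r * δ) y := by positivity
  refine ⟨?_, ?_, ?_⟩
  · unfold W0
    linarith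
  · unfold W1
    refine e1.trans ?_
    linarith
  · unfold W2
    rw [D2E_Ef]
    refine (norm_add_le _ _).trans ?_
    have h7 : r * Mm r (r * δ) y ≤ 10 / 499 * (r ^ 2 * Mm r (r * δ) y) := by
      have : r ≤ 10 / 499 * r ^ 2 := by nlinarith
      calc r * Mm r (r * δ) y ≤ (10 / 499 * r ^ 2) * Mm r (r * δ) y := by gcongr
        _ = _ := by ring
    linarith

end SokalF1T
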