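import Pool.Agent.Lib_MP_af4de1_f1.TopLoc
import Pool.Agent.Lib_MP_af4de1_f1.TopFar
import Pool.Agent.Lib_MP_af4de1_f1.OwnC
import Pool.Agent.Lib_MP_af4de1_f1.PCc

/-!
# Regime C (`N = 3, 4, 5`, `11/10 < h²/R`) from the tails of the own wave
-/

set_option autoImplicit false

namespace SokalF1T

open Complex SokalU SokalF1 SokalF1S SokalV3

theorem kap_eq_kp {r δ : ℝ} (y : ℝ) (hr : 0 < r) (hδ : 0 < δ) : kap r δ y = kp r (r * δ) y := by
  unfold kap kp
  push_cast
  have h1 : (δ : ℂ) ≠ 0 := by exact_mod_cast hδ.ne'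
  have h2 : (r : ℂ) ≠ 0 := by exact_mod_cast hr.ne'
  field_simp

/-- **Regime C.** -/
theorem pc_of_tails (hT : PTailC) : PC := by
  refine pc_of ?_ (fun hr hd hρ hD => ownC_of_tails hT hr hd hρ hD)
    (fun hR hx0 hx1 hD hy hH => far_le hR hx0 hx1 hD hy hH)
  intro N r del x m hR hx0 hx1 hm hnot
  have hr := hR.r0
  have hr0 : 0 < r := by linarith
  have hδ := hR.d0
  refine loc_of hR hx0 hx1 hm.le hnot ?_ ?_
  · intro y hD
    have hy : -1 < y := by linarith [hD.y0]
    have own := ownC_of_tails hT hr hδ (pc_rho hR) hD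
    have e0 : V0 r del y 0 = W0 r del (sE (r * del) y) := by unfold V0 W0; rw [add_zero]
    have e1 : V1 r del y 0 = W1 r del (sE (r * del) y) := by unfold V1 W1; rw [add_zero]
    constructor
    · have := own.o0
      rw [sM_eq_Mm hr0 hδ hy, e0] at this
      linarith
    · have := own.o1
      rw [e0, e1, kap_eq_kp y hr0 hδ] at this
      refine this.trans (mul_le_mul_of_nonneg_right ?_ (norm_nonneg _))
      split_ifs <;> norm_num
  · intro y hD hy hH i h1 h2
    have hM : 0 < Mm r (r * del) y := by
      unfold Mm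
      have := sD2_pos (ρ := r * del) (y := y) (by linarith [hD.y0])
      positivity
    have hN := pc_N hR
    obtain ⟨f0, f1, -⟩ := far_le hR hx0 hx1 hD hy (by
      rcases (show N = 3 ∨ 4 ≤ N by have := hR.N3; omega) with h | h
      · right
        refine ⟨h, ?_⟩
        subst h
        unfold hst at hH
        push_cast at hH
        exact hH
      · left
        have h4 : (4 : ℝ) ≤ N := by exact_mod_cast h
        have hpi := Real.pi_lt_d4
        have h5 : hst N ≤ 2 * Real.pi / 4 := by
          unfold hst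
          exact div_le_div_of_nonneg_left (by positivity) (by norm_num) h4
        linarith) h1 h2
    have h3 : 0 < r * Mm r (r * del) y := mul_pos hr0 hM
    exact ⟨by linarith, by linarith⟩

end SokalF1T
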