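import Pool.Agent.Lib_MP_af4de1_f1.Comb
import Pool.Agent.Lib_MP_af4de1_f1.TopDefs
import Pool.Agent.Lib_MP_af4de1_v3.PairC

/-!
# Regime C: (U) from the two top waves and small far waves, part a: facts on `DD`
-/

set_option autoImplicit false

namespace SokalF1T

open Complex SokalU SokalF1 SokalF1S SokalF1M SokalV3

theorem sM_eq_Mm {r δ y : ℝ} (hr : 0 < r) (hδ : 0 < δ) (hy : -1 < y) : sM r δ y = Mm r (r * δ) y := by
  have hD := sD2_pos (ρ := r * δ) hy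
  unfold sM Mm ph
  congr 1
  · congr 1
    field_simp
  · rw [Real.sqrt_eq_rpow, Real.sqrt_eq_rpow, ← Real.rpow_mul hD.le]
    norm_num

/-- `Re K ≥ 11/25 |K|` on `DD` -/
theorem pc_re {ρ y : ℝ} (h : DD ρ y) : 11 / 25 * ‖sK ρ y‖ ≤ sx ρ y := by
  have hρ := h.dom.pos
  have hy : 0 < 1 + y := by have := h.y0; linarith
  rw [norm_sK h.dom]
  have h1 := h.phi
  unfold ph at h1
  rw [le_div_iff₀ hρ] at h1
  have h2 : 1 + y ≤ Real.exp y := by linarith [Real.add_one_le_exp y]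
  have h3 : Real.exp y * Real.exp (-y) = 1 := by rw [← Real.exp_add]; simp
  have h4 := sx_nonneg ρ y
  have h5 : sx ρ y * (1 + y) ≤ sx ρ y * Real.exp y := mul_le_mul_of_nonneg_left h2 h4
  have h6 : 11 / 25 * ρ ≤ sx ρ y * Real.exp y := h1.trans h5
  have h7 := mul_le_mul_of_nonneg_right h6 (Real.exp_pos (-y)).le
  rw [mul_assoc (sx ρ y), h3, mul_one] at h7
  linarith

/-- `|y| ≤ 2.041 x` on `DD` -/
theorem pc_tan {ρ y : ℝ} (h : DD ρ y) : |y| ≤ 2041 / 1000 * sx ρ y := by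
  have h1 := pc_re h
  have h2 := sx_sq_add h.dom
  have h3 := sx_nonneg ρ y
  rw [norm_sK h.dom] at h1
  have hρ := h.dom.pos
  have h0 : 0 ≤ ρ * Real.exp (-y) := by positivity
  have h4 : (11 / 25 * (ρ * Real.exp (-y))) ^ 2 ≤ sx ρ y ^ 2 := pow_le_pow_left₀ (by positivity) h1 2
  refine abs_le_of_sq_le_sq ?_ (by positivity)
  nlinarith

/-- `D² ≥ 1/5` on `DD` -/
theorem pc_D {ρ y : ℝ} (h : DD ρ y) : 1 / 5 ≤ sD2 ρ y := by
  have h1 := pc_tan h
  have h2 : y ^ 2 ≤ (2041 / 1000 * sx ρ y) ^ 2 := by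
    rw [← sq_abs y]; exact pow_le_pow_left₀ (abs_nonneg _) h1 2
  have h3 := h.y0
  unfold sD2
  nlinarith

/-- `D² ≥ 1` for `y ≥ 0` -/
theorem pc_D_pos {ρ y : ℝ} (hy : 0 ≤ y) : 1 ≤ sD2 ρ y := by
  unfold sD2
  nlinarith [sq_nonneg (sx ρ y)]

theorem pc_kap_re (r δ y : ℝ) : (kap r δ y).re = sx (r * δ) y / δ := by
  unfold kap
  rw [Complex.div_ofReal_re]
  unfold sK
  simp

theorem pc_kap_im (r δ y : ℝ) : (kap r δ y).im = y / δ := by
  unfold kap
  rw [Complex.div_ofReal_im]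
  unfold sK
  simp

theorem pc_norm_kap {r δ y : ℝ} (hδ : 0 < δ) (h : Dom (r * δ) y) : ‖kap r δ y‖ = r * Real.exp (-y) := by
  unfold kap
  rw [norm_div, norm_sK h, Complex.norm_real, Real.norm_of_nonneg hδ.le]
  field_simp

theorem pc_exp_lo {y : ℝ} (h : y ≤ 18 / 25) : 243 / 500 ≤ Real.exp (-y) := by
  have h1 : Real.exp (18 / 25 : ℝ) ≤ 500 / 243 := by
    have := Real.exp_bound' (x := 18 / 25) (by norm_num) (by norm_num) (n := 6) (by norm_num)
    refine this.trans ?_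
    norm_num [Finset.sum_range_succ, Nat.factorial]
  have h2 : Real.exp (-(18 / 25) : ℝ) ≤ Real.exp (-y) := Real.exp_le_exp.2 (by linarith)
  have h3 : Real.exp (-(18 / 25) : ℝ) = (Real.exp (18 / 25 : ℝ))⁻¹ := Real.exp_neg _
  have h4 : (243 : ℝ) / 500 ≤ (Real.exp (18 / 25 : ℝ))⁻¹ := by
    rw [show (243 : ℝ) / 500 = (500 / 243)⁻¹ by norm_num]
    exact inv_anti₀ (Real.exp_pos _) h1
  linarith

theorem pc_exp_hi {y : ℝ} (h : -(7 / 10) ≤ y) : Real.exp (-y) ≤ 2014 / 1000 := by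
  have h1 : Real.exp (7 / 10 : ℝ) ≤ 2014 / 1000 := by
    have := Real.exp_bound' (x := 7 / 10) (by norm_num) (by norm_num) (n := 7) (by norm_num)
    refine this.trans ?_
    norm_num [Finset.sum_range_succ, Nat.factorial]
  exact (Real.exp_le_exp.2 (by linarith)).trans h1

end SokalF1T
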