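import Pool.Agent.Lib_MP_af4de1_f1.PCa

/-!
# Regime C, part b: the top waves and the combination
-/

set_option autoImplicit false

namespace SokalF1T

open Complex SokalU SokalF1 SokalF1S SokalF1M SokalV3

/-- what is used of a top wave -/
structure TopF (r m : ℝ) (κ l : ℂ) (cm d X : ℝ) : Prop where
  cm : cm * (r + m) ≤ ‖κ + m‖
  d : ‖κ - r‖ ≤ d * r
  X : ‖l / (κ + m)‖ ≤ X

/-- the combination with the constants of regime C -/
theorem pc_two {r m L : ℝ} {κ0 κ1 l0 l1 p0 p1 P Q S : ℂ} {cm0 d0 X0 cm1 d1 X1 : ℝ} (hr : 499 / 10 ≤ r)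
    (hm : 0 < m) (hL : 0 < L) (F0 : TopF r m κ0 l0 cm0 d0 X0) (F1 : TopF r m κ1 l1 cm1 d1 X1)
    (hA : Cone (271 / 100) ((κ0 + m) * (κ1 + m))) (hD : 619 / 1000 * r ≤ ‖κ0 - κ1‖)
    (hp : 5 / 6 * L ≤ ‖p0‖) (h : (κ0 * p0 + κ1 * p1 + Q) + m * (p0 + p1 + P) = 0)
    (h0 : ‖P‖ ≤ 1 / 1000 * L) (h1 : ‖Q - r * P‖ ≤ 2 / 1000 * r * L)
    (h2 : ‖S - 2 * r * Q + r ^ 2 * P‖ ≤ 4 / 1000 * r ^ 2 * L)
    (hcm : 39 / 100 ≤ cm0) (hd : d1 ≤ 188 / 100) (hX1 : X1 ≤ 9 / 2) (hX : X0 + X1 ≤ 643 / 100) :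
    0 < (((κ0 ^ 2 + l0) * p0 + (κ1 ^ 2 + l1) * p1 + S) / (κ0 * p0 + κ1 * p1 + Q) -
      (κ0 * p0 + κ1 * p1 + Q) / (p0 + p1 + P)).re := by
  have hr0 : 0 < r := by linarith
  have hDpos : 0 < ‖κ0 - κ1‖ := lt_of_lt_of_le (by positivity) hD
  refine comb (H := r) (L := L) (b0 := 1 / 1000) (b1 := 2 / 1000) (b2 := 4 / 1000) (cT := 5 / 6)
    (cD := 619 / 1000) (cm := 39 / 100) (d := 188 / 100) (e := 198 / 100) (tA := 271 / 100) (χ := 21 / 100)
    (b := 1 / 100) (ν := 27 / 100) hm hr0 hr0 hL h (by norm_num) (by norm_num) (by norm_num)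
    (by norm_num) (by norm_num) hp (by norm_num) hA hD ?_ ?_ ?_ ?_ h0 h1 h2 (by norm_num) (by norm_num) ?_
    (by norm_num) ?_
  · exact (mul_le_mul_of_nonneg_right hcm (by linarith)).trans F0.cm
  · exact F1.d.trans (mul_le_mul_of_nonneg_right hd hr0.le)
  · have e1 : κ1 + l1 / (κ1 + m) - r = (κ1 - r) + l1 / (κ1 + m) := by ring
    rw [e1]
    refine (norm_add_le _ _).trans ?_
    have := F1.d.trans (mul_le_mul_of_nonneg_right hd hr0.le)
    have := F1.X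
    linarith
  · rw [norm_div, div_le_iff₀ hDpos]
    refine (norm_sub_le _ _).trans ?_
    have := F0.X
    have := F1.X
    nlinarith
  · rw [div_self hr0.ne']
    norm_num
  · have s1 : (27 / 100 : ℝ) / √(1 - (27 / 100) ^ 2) ≤ 29 / 100 := by
      rw [div_le_iff₀ (by norm_num)]
      have : (94 / 100 : ℝ) ≤ √(1 - (27 / 100) ^ 2) := Real.le_sqrt_of_sq_le (by norm_num)
      linarith
    have s2 : (1 / 100 : ℝ) / √(1 - (1 / 100) ^ 2) ≤ 2 / 100 := by
      rw [div_le_iff₀ (by norm_num)]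
      have : (9 / 10 : ℝ) ≤ √(1 - (1 / 100) ^ 2) := Real.le_sqrt_of_sq_le (by norm_num)
      linarith
    have t1 : (0 : ℝ) ≤ (27 / 100 : ℝ) / √(1 - (27 / 100) ^ 2) := by positivity
    have t2 : (0 : ℝ) ≤ (1 / 100 : ℝ) / √(1 - (1 / 100) ^ 2) := by positivity
    nlinarith

/-- the own wave -/
theorem pc_own {r δ y k : ℝ} (hy : -1 < y)
    (h : Own r δ y (1 / 6) k (9 / 5 * (‖kap r δ y‖ / sD (r * δ) y))) :
    V0 r δ y 0 ≠ 0 ∧ 5 / 6 * sM r δ y ≤ ‖V0 r δ y 0‖ ∧ ‖V1 r δ y 0 / V0 r δ y 0 - kap r δ y‖ ≤ k ∧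
      ‖V2 r δ y 0 / V0 r δ y 0 - (V1 r δ y 0 / V0 r δ y 0) ^ 2‖ ≤
        9 / 5 * (‖kap r δ y‖ / sD (r * δ) y) + k ^ 2 := by
  have hM : 0 < sM r δ y := sM_pos hy
  have h0 : 5 / 6 * sM r δ y ≤ ‖V0 r δ y 0‖ := by
    have := h.o0
    linarith
  have hpos : 0 < ‖V0 r δ y 0‖ := lt_of_lt_of_le (by positivity) h0
  have hne : V0 r δ y 0 ≠ 0 := norm_pos_iff.1 hpos
  have h1 : ‖V1 r δ y 0 / V0 r δ y 0 - kap r δ y‖ ≤ k := by
    have e1 : V1 r δ y 0 / V0 r δ y 0 - kap r δ y = (V1 r δ y 0 - kap r δ y * V0 r δ y 0) / V0 r δ y 0 := by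
      field_simp
    rw [e1, norm_div, div_le_iff₀ hpos]
    exact h.o1
  refine ⟨hne, h0, h1, ?_⟩
  have e2 : V2 r δ y 0 / V0 r δ y 0 - (V1 r δ y 0 / V0 r δ y 0) ^ 2 =
      (V2 r δ y 0 - 2 * kap r δ y * V1 r δ y 0 + kap r δ y ^ 2 * V0 r δ y 0) / V0 r δ y 0 -
        (V1 r δ y 0 / V0 r δ y 0 - kap r δ y) ^ 2 := by
    field_simp
    ring
  rw [e2]
  refine (norm_sub_le _ _).trans (add_le_add ?_ ?_)
  · rw [norm_div, div_le_iff₀ hpos]
    exact h.o2
  · rw [norm_pow]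
    exact pow_le_pow_left₀ (norm_nonneg _) h1 2

/-- `|κ + m|` from `kap` -/
theorem pc_cm {r m k c a : ℝ} {κ κs : ℂ} (hr : 499 / 10 ≤ r) (hm : 0 < m) (ha0 : 0 ≤ a) (ha : a ≤ 1)
    (hk : ‖κ - κs‖ ≤ k) (hk0 : 0 ≤ k) (hre : 11 / 25 * ‖κs‖ ≤ κs.re) (hn : a * r ≤ ‖κs‖)
    (hc : c ≤ 848 / 1000 * a - k * (10 / 499)) : c * (r + m) ≤ ‖κ + m‖ := by
  have h1 : 848 / 1000 * (‖κs‖ + m) ≤ ‖κs + m‖ := by
    refine comb_le_norm (by norm_num) (by norm_num) ?_ hm.le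
    refine le_trans ?_ hre
    have := norm_nonneg κs
    nlinarith
  have h2 : ‖κs + m‖ ≤ ‖κ + m‖ + k := by
    have e : κs + m = (κ + m) - (κ - κs) := by ring
    rw [e]
    exact (norm_sub_le _ _).trans (by linarith)
  have h3 : c * (r + m) ≤ (848 / 1000 * a - k * (10 / 499)) * (r + m) :=
    mul_le_mul_of_nonneg_right hc (by linarith)
  have h4 : k ≤ k * (10 / 499) * (r + m) := by nlinarith
  have h5 : a * m ≤ m := mul_le_of_le_one_left hm.le ha
  nlinarith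

/-- the positive top -/
theorem pc_pos {r δ y m : ℝ} (hr : 499 / 10 ≤ r) (hδ : 0 < δ) (hm : 0 < m) (hD : DD (r * δ) y) (hy : 0 ≤ y)
    (h : Own r δ y (1 / 6) 1 (9 / 5 * (‖kap r δ y‖ / sD (r * δ) y))) :
    TopF r m (V1 r δ y 0 / V0 r δ y 0) (V2 r δ y 0 / V0 r δ y 0 - (V1 r δ y 0 / V0 r δ y 0) ^ 2)
      (39 / 100) (108 / 100) (193 / 100) := by
  obtain ⟨hne, h0, h1, h2⟩ := pc_own (by linarith) h
  set κ := V1 r δ y 0 / V0 r δ y 0
  set l := V2 r δ y 0 / V0 r δ y 0 - κ ^ 2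
  have hK := pc_norm_kap hδ hD.dom
  have hre : 11 / 25 * ‖kap r δ y‖ ≤ (kap r δ y).re := by
    have := pc_re hD
    rw [pc_kap_re, le_div_iff₀ hδ, hK]
    rw [norm_sK hD.dom] at this
    linarith
  have hK1 : 243 / 500 * r ≤ ‖kap r δ y‖ := by
    rw [hK, mul_comm]
    exact mul_le_mul_of_nonneg_left (pc_exp_lo hD.y1) (by linarith)
  have hK2 : ‖kap r δ y‖ ≤ r := by
    rw [hK]
    refine mul_le_of_le_one_right (by linarith) ?_
    exact Real.exp_le_one_iff.2 (by linarith)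
  set K := ‖kap r δ y‖
  have hre0 : 0 ≤ (kap r δ y).re := le_trans (by positivity) hre
  have hkm : K - 1 ≤ ‖κ + m‖ := by
    have h3 := comb_norm_le hre0 hm.le
    have h4 : ‖kap r δ y + m‖ ≤ ‖κ + m‖ + 1 := by
      have e : kap r δ y + m = (κ + m) - (κ - kap r δ y) := by ring
      rw [e]
      exact (norm_sub_le _ _).trans (by linarith)
    linarith
  have hKr : 2425 / 100 ≤ K := by nlinarith
  refine ⟨?_, ?_, ?_⟩
  · exact pc_cm hr hm (by norm_num) (by norm_num) h1 (by norm_num) hre hK1 (by norm_num)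
  · have h3 : ‖kap r δ y - r‖ ≤ 10584 / 10000 * r := by
      refine abs_le_of_sq_le_sq' ?_ (by linarith) |>.2
      have e : ‖kap r δ y - r‖ ^ 2 = K ^ 2 - 2 * r * (kap r δ y).re + r ^ 2 := by
        have e1 : K ^ 2 = (kap r δ y).re ^ 2 + (kap r δ y).im ^ 2 := by
          rw [Complex.sq_norm, Complex.normSq_apply]; ring
        rw [e1, Complex.sq_norm, Complex.normSq_apply]
        simp only [Complex.sub_re, Complex.sub_im, Complex.ofReal_re, Complex.ofReal_im, sub_zero]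
        ring
      rw [e]
      nlinarith
    have e : κ - r = (κ - kap r δ y) + (kap r δ y - r) := by ring
    rw [e]
    refine (norm_add_le _ _).trans ?_
    linarith
  · rw [norm_div, div_le_iff₀ (by linarith)]
    have hsD : 1 ≤ sD (r * δ) y := by
      unfold sD
      exact Real.one_le_sqrt.2 (pc_D_pos hy)
    have h3 : K / sD (r * δ) y ≤ K := div_le_self (norm_nonneg _) hsD
    nlinarith

/-- the negative top -/
theorem pc_neg {r δ y m : ℝ} (hr : 499 / 10 ≤ r) (hδ : 0 < δ) (hm : 0 < m) (hD : DD (r * δ) y) (hy : y ≤ 0)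
    (h : Own r δ y (1 / 6) 3 (9 / 5 * (‖kap r δ y‖ / sD (r * δ) y))) :
    TopF r m (V1 r δ y 0 / V0 r δ y 0) (V2 r δ y 0 / V0 r δ y 0 - (V1 r δ y 0 / V0 r δ y 0) ^ 2)
      (78 / 100) (188 / 100) (9 / 2) := by
  obtain ⟨hne, h0, h1, h2⟩ := pc_own (by have := hD.y0; linarith) h
  set κ := V1 r δ y 0 / V0 r δ y 0
  set l := V2 r δ y 0 / V0 r δ y 0 - κ ^ 2
  have hK := pc_norm_kap hδ hD.dom
  have hre : 11 / 25 * ‖kap r δ y‖ ≤ (kap r δ y).re := by
    have := pc_re hD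
    rw [pc_kap_re, le_div_iff₀ hδ, hK]
    rw [norm_sK hD.dom] at this
    linarith
  have hK1 : r ≤ ‖kap r δ y‖ := by
    rw [hK]
    refine le_mul_of_one_le_right (by linarith) ?_
    exact Real.one_le_exp (by linarith)
  have hK2 : ‖kap r δ y‖ ≤ 2014 / 1000 * r := by
    rw [hK, mul_comm]
    exact mul_le_mul_of_nonneg_right (pc_exp_hi hD.y0) (by linarith)
  set K := ‖kap r δ y‖
  have hre0 : 0 ≤ (kap r δ y).re := le_trans (by positivity) hre
  have hkm : K - 3 ≤ ‖κ + m‖ := by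
    have h3 := comb_norm_le hre0 hm.le
    have h4 : ‖kap r δ y + m‖ ≤ ‖κ + m‖ + 3 := by
      have e : kap r δ y + m = (κ + m) - (κ - kap r δ y) := by ring
      rw [e]
      exact (norm_sub_le _ _).trans (by linarith)
    linarith
  refine ⟨?_, ?_, ?_⟩
  · exact pc_cm hr hm (by norm_num) le_rfl h1 (by norm_num) hre (by linarith) (by norm_num)
  · have h3 : ‖kap r δ y - r‖ ≤ 1813 / 1000 * r := by
      refine abs_le_of_sq_le_sq' ?_ (by linarith) |>.2
      have e : ‖kap r δ y - r‖ ^ 2 = K ^ 2 - 2 * r * (kap r δ y).re + r ^ 2 := by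
        have e1 : K ^ 2 = (kap r δ y).re ^ 2 + (kap r δ y).im ^ 2 := by
          rw [Complex.sq_norm, Complex.normSq_apply]; ring
        rw [e1, Complex.sq_norm, Complex.normSq_apply]
        simp only [Complex.sub_re, Complex.sub_im, Complex.ofReal_re, Complex.ofReal_im, sub_zero]
        ring
      rw [e]
      have h4 : 2 * r * (11 / 25 * K) ≤ 2 * r * (kap r δ y).re :=
        mul_le_mul_of_nonneg_left hre (by linarith)
      have h5 : 0 ≤ (2014 / 1000 * r - K) * (K + 2014 / 1000 * r - 22 / 25 * r) :=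
        mul_nonneg (by linarith) (by linarith)
      nlinarith
    have e : κ - r = (κ - kap r δ y) + (kap r δ y - r) := by ring
    rw [e]
    refine (norm_add_le _ _).trans ?_
    linarith
  · rw [norm_div, div_le_iff₀ (by linarith)]
    have hsD : 447 / 1000 ≤ sD (r * δ) y := by
      unfold sD
      refine Real.le_sqrt_of_sq_le ?_
      have := pc_D hD
      linarith
    have h3 : K / sD (r * δ) y ≤ K * (1000 / 447) := by
      rw [div_le_iff₀ (by linarith)]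
      have : 0 ≤ K := norm_nonneg _
      nlinarith
    nlinarith

/-- the cone -/
theorem pc_cone {r δ yp yn m : ℝ} {κp κn : ℂ} (hr : 499 / 10 ≤ r) (hδ : 0 < δ) (hm : 0 < m)
    (hDp : DD (r * δ) yp) (hyp : 0 ≤ yp) (hDn : DD (r * δ) yn) (hyn : yn ≤ 0)
    (hp : ‖κp - kap r δ yp‖ ≤ 1) (hn : ‖κn - kap r δ yn‖ ≤ 3) :
    Cone (271 / 100) ((κp + m) * (κn + m)) := by
  have hKp := pc_norm_kap hδ hDp.dom
  have hKn := pc_norm_kap hδ hDn.dom
  have hK1 : 2425 / 100 ≤ ‖kap r δ yp‖ := by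
    rw [hKp]
    have := pc_exp_lo hDp.y1
    nlinarith
  have hK2 : 499 / 10 ≤ ‖kap r δ yn‖ := by
    rw [hKn]
    have : 1 ≤ Real.exp (-yn) := Real.one_le_exp (by linarith)
    nlinarith
  have hre : ∀ y : ℝ, 0 ≤ (kap r δ y).re := fun y => by
    rw [pc_kap_re]; exact div_nonneg (sx_nonneg _ _) hδ.le
  have him : ∀ y : ℝ, DD (r * δ) y → |(kap r δ y).im| ≤ 2041 / 1000 * (kap r δ y).re := fun y hy => by
    rw [pc_kap_im, pc_kap_re, abs_div, abs_of_pos hδ, mul_div_assoc']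
    exact div_le_div_of_nonneg_right (pc_tan hy) hδ.le
  have c1 : Cone (2041 / 1000) ((kap r δ yp + m) * (kap r δ yn + m)) := by
    refine (Cone.add_pos (by norm_num) (him yp hDp) (hre yp) hm).opp
      (Cone.add_pos (by norm_num) (him yn hDn) (hre yn) hm) (by norm_num) ?_ ?_
    · simp only [Complex.add_im, Complex.ofReal_im, add_zero]
      rw [pc_kap_im]
      positivity
    · simp only [Complex.add_im, Complex.ofReal_im, add_zero]
      rw [pc_kap_im]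
      exact div_nonpos_of_nonpos_of_nonneg hyn hδ.le
  have hkp : 2425 / 100 ≤ ‖kap r δ yp + m‖ := hK1.trans (comb_norm_le (hre yp) hm.le)
  have hkn : 499 / 10 ≤ ‖kap r δ yn + m‖ := hK2.trans (comb_norm_le (hre yn) hm.le)
  have hp0 : kap r δ yp + m ≠ 0 := norm_pos_iff.1 (by linarith)
  have hn0 : kap r δ yn + m ≠ 0 := norm_pos_iff.1 (by linarith)
  have e1 : ‖(κp - kap r δ yp) / (kap r δ yp + m)‖ ≤ 4124 / 100000 := by
    rw [norm_div, div_le_iff₀ (by linarith)]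
    linarith
  have e2 : ‖(κn - kap r δ yn) / (kap r δ yn + m)‖ ≤ 6013 / 100000 := by
    rw [norm_div, div_le_iff₀ (by linarith)]
    linarith
  have s1 : (4124 / 100000 : ℝ) / √(1 - (4124 / 100000) ^ 2) ≤ 413 / 10000 := by
    rw [div_le_iff₀ (by norm_num)]
    have : (999 / 1000 : ℝ) ≤ √(1 - (4124 / 100000) ^ 2) := Real.le_sqrt_of_sq_le (by norm_num)
    linarith
  have s2 : (6013 / 100000 : ℝ) / √(1 - (6013 / 100000) ^ 2) ≤ 603 / 10000 := by
    rw [div_le_iff₀ (by norm_num)]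
    have : (998 / 1000 : ℝ) ≤ √(1 - (6013 / 100000) ^ 2) := Real.le_sqrt_of_sq_le (by norm_num)
    linarith
  have c2 := (Cone.one_add (by norm_num) e1).mono s1
  have c3 := (Cone.one_add (by norm_num) e2).mono s2
  have c4 := (c1.mul c2 (by norm_num) (by norm_num) (by norm_num)).mono
    (t := 2275 / 1000) (by norm_num)
  have c5 := (c4.mul c3 (by norm_num) (by norm_num) (by norm_num)).mono
    (t := 271 / 100) (by norm_num)
  have e3 : (κp + m) * (κn + m) = (kap r δ yp + m) * (kap r δ yn + m) *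
      (1 + (κp - kap r δ yp) / (kap r δ yp + m)) * (1 + (κn - kap r δ yn) / (kap r δ yn + m)) := by
    field_simp
    ring
  rw [e3]
  exact c5

end SokalF1T
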