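import Pool.Agent.Lib_MP_af4de1_f1.PtcE
import Pool.Agent.Lib_MP_af4de1_f1.OwnC

/-!
# The own wave on the domain `DD` (regime C)
-/

set_option autoImplicit false

open Complex MeasureTheory Set SokalU SokalPG SokalF1 SokalF1S SokalF1M SokalF1G SokalF1B

namespace SokalF1T

open SokalV3

theorem polarC {ρ y : ℝ} (h : Dom ρ y) :
    ρ * Real.exp (-y) * Real.cos (sP ρ y) = sx ρ y ∧ ρ * Real.exp (-y) * Real.sin (sP ρ y) = y := by
  have hρ := h.1
  have e : Real.exp (-y) * Real.exp y = 1 := by rw [← Real.exp_add]; simp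
  constructor
  · rw [h.cos]
    calc ρ * Real.exp (-y) * (sx ρ y * Real.exp y / ρ)
        = sx ρ y * (Real.exp (-y) * Real.exp y) * (ρ / ρ) := by ring
      _ = sx ρ y := by rw [e, div_self hρ.ne', mul_one, mul_one]
  · rw [h.sin]
    calc ρ * Real.exp (-y) * (y * Real.exp y / ρ)
        = y * (Real.exp (-y) * Real.exp y) * (ρ / ρ) := by ring
      _ = y := by rw [e, div_self hρ.ne', mul_one, mul_one]

theorem ga_Icc {x s : ℝ} (hx : 0 ≤ x) (hs : 0 ≤ s) : 0 ≤ ga x s ∧ ga x s ≤ 1 := by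
  unfold ga
  have h : 0 ≤ s / (1 + x) := by positivity
  exact ⟨le_max_of_le_right (le_min (by norm_num) h), max_le (by norm_num) (min_le_left _ _)⟩

theorem ga_Icc_neg {x s : ℝ} (hx : 0 ≤ x) (hs : 0 ≤ s) : -1 ≤ ga x (-s) ∧ ga x (-s) ≤ 0 := by
  unfold ga
  have h : -s / (1 + x) ≤ 0 := div_nonpos_of_nonpos_of_nonneg (by linarith) (by linarith)
  exact ⟨le_max_left _ _, max_le (by norm_num) ((min_le_right _ _).trans h)⟩

theorem pz_eq_ga {x : ℝ} (hx : 0 ≤ x) (s : ℝ) :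
    pz (1 + x)⁻¹ (1 + x) s = ((ga x s : ℝ) : ℂ) + s * I := by
  unfold pz
  rw [pc_eq hx]

/-- pointwise bound on the right half line -/
theorem giC_R {x y δ : ℝ} (hx : 0 ≤ x) (hδ : 0 < δ) {w : ℂ → ℂ} (hw : WtC w) {v : ℝ}
    (hv : 3 / 2 ≤ v) :
    ‖gi (1 + x)⁻¹ (1 + x) w (((x : ℂ) + y * I) / δ) 0 (-((δ : ℂ) * I)) v‖ ≤
      1556 / 100 * Real.exp (3 / 10 * v - Hf x y v / δ) := by
  obtain ⟨a0, a1⟩ := ga_Icc hx (by linarith : 0 ≤ v)
  have h := pz_eq_ga hx v
  refine (norm_gi_le' hx hδ w v (A := 11 * Real.exp (3 / 10 * v)) (m := Hf x y v / δ) ?_ le_rfl).trans ?_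
  · rw [h]
    exact hw.R _ _ a0 a1 hv
  · have hW := Wc_le hx
    have e : Real.exp (3 / 10 * v - Hf x y v / δ) =
        Real.exp (3 / 10 * v) * Real.exp (-(Hf x y v / δ)) := by
      rw [← Real.exp_add]
      congr 1
    rw [e]
    have h0 : 0 < Real.exp (3 / 10 * v) * Real.exp (-(Hf x y v / δ)) := by positivity
    have e2 : Wc x * (11 * Real.exp (3 / 10 * v) * Real.exp (-(Hf x y v / δ))) =
        Wc x * 11 * (Real.exp (3 / 10 * v) * Real.exp (-(Hf x y v / δ))) := by ring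
    rw [e2]
    refine mul_le_mul_of_nonneg_right ?_ h0.le
    linarith

/-- pointwise bound on the left half line -/
theorem giC_L {x y δ : ℝ} (hx : 0 ≤ x) (hδ : 0 < δ) {w : ℂ → ℂ} (hw : WtC w) {v : ℝ}
    (hv : 3 / 2 ≤ v) :
    ‖gi (1 + x)⁻¹ (1 + x) w (((x : ℂ) + y * I) / δ) 0 (-((δ : ℂ) * I)) (-v)‖ ≤
      1132 / 100 * Real.exp (3 / 10 * v - Hf x y (-v) / δ) := by
  obtain ⟨a0, a1⟩ := ga_Icc_neg hx (by linarith : 0 ≤ v)
  have h := pz_eq_ga hx (-v)
  refine (norm_gi_le' hx hδ w (-v) (A := 8 * Real.exp (3 / 10 * v)) (m := Hf x y (-v) / δ)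
    ?_ le_rfl).trans ?_
  · rw [h]
    exact hw.L _ _ a0 a1 hv
  · have hW := Wc_le hx
    have e : Real.exp (3 / 10 * v - Hf x y (-v) / δ) =
        Real.exp (3 / 10 * v) * Real.exp (-(Hf x y (-v) / δ)) := by
      rw [← Real.exp_add]
      congr 1
    rw [e]
    have h0 : 0 < Real.exp (3 / 10 * v) * Real.exp (-(Hf x y (-v) / δ)) := by positivity
    have e2 : Wc x * (8 * Real.exp (3 / 10 * v) * Real.exp (-(Hf x y (-v) / δ))) =
        Wc x * 8 * (Real.exp (3 / 10 * v) * Real.exp (-(Hf x y (-v) / δ))) := by ring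
    rw [e2]
    refine mul_le_mul_of_nonneg_right ?_ h0.le
    linarith

/-! ### Numbers -/

theorem e12 : Real.exp (-12) ≤ 62 / 10 ^ 7 := by
  have h : Real.exp (-12) = Real.exp (-1) ^ 12 := by
    rw [← Real.exp_nat_mul]
    norm_num
  rw [h]
  refine (pow_le_pow_left₀ (Real.exp_pos _).le Real.exp_neg_one_lt_d9.le 12).trans ?_
  norm_num

theorem e995 : Real.exp (-(995 / 100)) ≤ 48 / 10 ^ 6 := by
  have h : Real.exp (-(995 / 100)) = Real.exp (-1) ^ 10 * Real.exp (1 / 20) := by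
    rw [← Real.exp_nat_mul, ← Real.exp_add]
    norm_num
  have h1 : Real.exp (1 / 20) ≤ 1 / (1 - 1 / 20) :=
    Real.exp_bound_div_one_sub_of_interval (by norm_num) (by norm_num)
  rw [h]
  have h2 := pow_le_pow_left₀ (Real.exp_pos _).le Real.exp_neg_one_lt_d9.le 10
  refine (mul_le_mul h2 h1 (Real.exp_pos _).le (by norm_num)).trans ?_
  norm_num

theorem e865 : Real.exp (-(865 / 100)) ≤ 19 / 10 ^ 5 := by
  have h : Real.exp (-(865 / 100)) = Real.exp (-1) ^ 9 * Real.exp (7 / 20) := by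
    rw [← Real.exp_nat_mul, ← Real.exp_add]
    norm_num
  have h1 : Real.exp (7 / 20) ≤ 1 / (1 - 7 / 20) :=
    Real.exp_bound_div_one_sub_of_interval (by norm_num) (by norm_num)
  rw [h]
  have h2 := pow_le_pow_left₀ (Real.exp_pos _).le Real.exp_neg_one_lt_d9.le 9
  refine (mul_le_mul h2 h1 (Real.exp_pos _).le (by norm_num)).trans ?_
  norm_num

section

variable {r δ y : ℝ} {w : ℂ → ℂ}

theorem tlC_R_pos (hδ : 0 < δ) (hδ0 : δ ≤ 173 / 4990) (hrho : r * δ ≤ 173 / 100)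
    (hD : DD (r * δ) y) (hy : 0 ≤ y) (hw : WtC w) :
    ∫ v in Ioi (3 / 2 : ℝ), ‖gi (1 + sx (r * δ) y)⁻¹ (1 + sx (r * δ) y) w
      (sK (r * δ) y / δ) 0 (-((δ : ℂ) * I)) v‖ ≤ 1556 / 100 * (359 / 10000 * √δ ^ 3) := by
  obtain ⟨ρ, hρe⟩ : ∃ ρ, ρ = r * δ := ⟨_, rfl⟩
  rw [← hρe] at hD hrho ⊢
  obtain ⟨pc, ps⟩ := polarC hD.dom
  have hx := sx_nonneg ρ y
  have hρ := hD.dom.1
  obtain ⟨k, hk⟩ : ∃ k, k = ρ * Real.exp (-y) := ⟨_, rfl⟩
  obtain ⟨ψ, hψ⟩ : ∃ ψ, ψ = sP ρ y := ⟨_, rfl⟩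
  rw [← hk, ← hψ] at pc ps
  have hk0 : 0 ≤ k := by rw [hk]; positivity
  have hexp : Real.exp (-y) ≤ 1 := Real.exp_le_one_iff.2 (by linarith)
  have hk1 : k ≤ 173 / 100 := by
    rw [hk]
    have : ρ * Real.exp (-y) ≤ ρ * 1 := mul_le_mul_of_nonneg_left hexp hρ.le
    linarith
  have hψ0 : 0 ≤ ψ := by rw [hψ]; exact sP_nonneg hρ hy
  have hψ1 : ψ ≤ Real.pi / 2 := by
    have := sP_abs_le ρ y
    rw [← hψ] at this
    exact (abs_le.1 this).2
  have hπ := Real.pi_pos
  have hπl : (3.1415 : ℝ) < Real.pi := Real.pi_gt_d4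
  have hy1 : k * Real.sin ψ ≤ 18 / 25 := by rw [ps]; exact hD.y1
  have hg : ∀ v : ℝ, 3 / 2 ≤ v → ‖gi (1 + sx ρ y)⁻¹ (1 + sx ρ y) w
      (sK ρ y / δ) 0 (-((δ : ℂ) * I)) v‖ ≤
        1556 / 100 * Real.exp (3 / 10 * v - Hf (sx ρ y) y v / δ) := fun v hv => giC_R hx hδ hw hv
  have hq3 : 0 ≤ √δ ^ 3 := by positivity
  have hcr := pte_crude (c0 := 7 / 25) (E := 62 / 10 ^ 7) (N := 12) (K := 2 / 10000) hδ hδ0
    (by norm_num) (by norm_num) e12 (by norm_num)
  rcases le_total (3 / 10) k with h3 | h3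
  · have hl := ptc_lumpR h3 hψ0 hψ1 (by
      rw [ps, hk, mul_assoc, ← Real.exp_add]
      simpa using hrho) (by
      have h1 := (abs_le.1 hD.eta).2
      unfold sE at h1
      rw [ps, pc, hk, mul_assoc, ← Real.exp_add, hψ]
      simp only [neg_add_cancel, Real.exp_zero, mul_one]
      exact h1) (by linarith)
    have he1 : (2.7182818283 : ℝ) < Real.exp 1 := Real.exp_one_gt_d9
    have hc1 : 318 / 1000 ≤ 39 / 100 * (Real.exp 1 * k) := by nlinarith
    have key := ptc_int_lump' (H := Hf (sx ρ y) y) (C := 1556 / 100) (δ := δ) (c0 := 7 / 25)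
      (v0 := 2 * Real.pi - ψ)
      (f := (1 - k * Real.sin ψ) * (2 * Real.pi - ψ) + 2 * (k * Real.cos ψ) - Real.exp 1 * k)
      (A := 1 - k * Real.sin ψ) (c := 39 / 100 * (Real.exp 1 * k)) (by norm_num)
      (fun v => norm_nonneg _) hg hδ (by linarith) (by linarith) (by linarith) (by linarith)
      (by linarith)
      (fun v hv hv' => by
        have := ptc_Rpos hk0 hk1 hψ0 hψ1 hy1 hv (by linarith)
        rwa [pc, ps] at this)
      (fun v hv hv' => by
        have h1 := ptc_Rpos_far hk0 hk1 hψ0 hψ1 (s := v) (by linarith)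
        have h2 := ptc_cos_quad (u := 2 * Real.pi - ψ - v) (by linarith) (by linarith)
        have h4 : Real.cos (2 * Real.pi - ψ - v) = Real.cos (v + ψ) := by
          rw [show 2 * Real.pi - ψ - v = 2 * Real.pi - (v + ψ) by ring, Real.cos_two_pi_sub]
        rw [h4] at h2
        have h5 : Hf (sx ρ y) y v = (1 - k * Real.sin ψ) * v + 2 * (k * Real.cos ψ) -
            Real.exp 1 * k * Real.cos (v + ψ) := by
          rw [← h1, pc, ps]
        rw [h5]
        have h6 : 0 ≤ Real.exp 1 * k := by positivity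
        have h7 := mul_le_mul_of_nonneg_left h2 h6
        have e : (1 - k * Real.sin ψ) * (2 * Real.pi - ψ) + 2 * (k * Real.cos ψ) -
            Real.exp 1 * k - (1 - k * Real.sin ψ) * (2 * Real.pi - ψ - v) +
            39 / 100 * (Real.exp 1 * k) * (2 * Real.pi - ψ - v) ^ 2 =
          (1 - k * Real.sin ψ) * v + 2 * (k * Real.cos ψ) -
            Real.exp 1 * k * (1 - 39 / 100 * (2 * Real.pi - ψ - v) ^ 2) := by ring
        rw [e]
        linarith)
      (fun v hv => by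
        have h1 := ptc_Rpos_far hk0 hk1 hψ0 hψ1 (s := v) (by linarith)
        have h5 : Hf (sx ρ y) y v = (1 - k * Real.sin ψ) * v + 2 * (k * Real.cos ψ) -
            Real.exp 1 * k * Real.cos (v + ψ) := by
          rw [← h1, pc, ps]
        rw [h5]
        have h6 : 0 ≤ Real.exp 1 * k := by positivity
        have h7 := mul_le_mul_of_nonneg_left (Real.cos_le_one (v + ψ)) h6
        have e : (1 - k * Real.sin ψ) * (2 * Real.pi - ψ) + 2 * (k * Real.cos ψ) -
            Real.exp 1 * k + (1 - k * Real.sin ψ) * (v - (2 * Real.pi - ψ)) =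
          (1 - k * Real.sin ψ) * v + 2 * (k * Real.cos ψ) - Real.exp 1 * k * 1 := by ring
        rw [e]
        linarith)
    refine key.trans (mul_le_mul_of_nonneg_left ?_ (by norm_num))
    have hlump := pte_lump (δ := δ) (A0 := 7 / 25) (g := 69 / 200) (E := 48 / 10 ^ 6)
      (N := 995 / 100) (cq := 3144 / 1000) (K := 357 / 10000)
      (f := (1 - k * Real.sin ψ) * (2 * Real.pi - ψ) + 2 * (k * Real.cos ψ) - Real.exp 1 * k)
      (A := 1 - k * Real.sin ψ) (c := 39 / 100 * (Real.exp 1 * k)) hδ hδ0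
      (by linarith) (by norm_num) (by linarith) (by norm_num) (by linarith) (by norm_num) e995
      (by norm_num) (by
        have := Real.pi_lt_d4
        norm_num at this
        nlinarith) (by norm_num)
    linarith
  · have key := ptc_int_crude' (H := Hf (sx ρ y) y) (C := 1556 / 100) (δ := δ) (c0 := 7 / 25)
      (by norm_num) (fun v => norm_nonneg _) hg hδ (by linarith) (fun v hv => by
        rcases le_total (v + ψ) (3 * Real.pi / 2) with h | h
        · have := ptc_Rpos hk0 hk1 hψ0 hψ1 hy1 hv h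
          rwa [pc, ps] at this
        · have h1 := ptc_Rpos_far hk0 hk1 hψ0 hψ1 (s := v) h
          have h5 : Hf (sx ρ y) y v = (1 - k * Real.sin ψ) * v + 2 * (k * Real.cos ψ) -
              Real.exp 1 * k * Real.cos (v + ψ) := by
            rw [← h1, pc, ps]
          rw [h5]
          have he1 : Real.exp 1 < 2.7182818286 := Real.exp_one_lt_d9
          have h6 : 0 ≤ Real.exp 1 * k := by positivity
          have h7 := mul_le_mul_of_nonneg_left (Real.cos_le_one (v + ψ)) h6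
          have h8 : Real.exp 1 * k ≤ 82 / 100 := by
            norm_num at he1
            nlinarith
          have h9 : Real.sin ψ ≤ 1 := Real.sin_le_one _
          have h10 : 0 ≤ Real.cos ψ := Real.cos_nonneg_of_mem_Icc ⟨by linarith, hψ1⟩
          have h11 : 0 ≤ k * Real.cos ψ := by positivity
          have h12 : k * Real.sin ψ ≤ 3 / 10 := by nlinarith
          nlinarith)
    refine key.trans (mul_le_mul_of_nonneg_left ?_ (by norm_num))
    linarith

theorem tlC_L_pos (hδ : 0 < δ) (hδ0 : δ ≤ 173 / 4990) (hrho : r * δ ≤ 173 / 100)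
    (hD : DD (r * δ) y) (hy : 0 ≤ y) (hw : WtC w) :
    ∫ v in Ioi (3 / 2 : ℝ), ‖gi (1 + sx (r * δ) y)⁻¹ (1 + sx (r * δ) y) w
      (sK (r * δ) y / δ) 0 (-((δ : ℂ) * I)) (-v)‖ ≤ 1132 / 100 * (14 / 100000 * √δ ^ 3) := by
  have hx := sx_nonneg (r * δ) y
  have hρ := hD.dom.1
  have hx1 : sx (r * δ) y ≤ 173 / 100 := by
    refine (sx_le hD.dom).trans ?_
    have hexp : Real.exp (-y) ≤ 1 := Real.exp_le_one_iff.2 (by linarith)
    have : r * δ * Real.exp (-y) ≤ r * δ * 1 := mul_le_mul_of_nonneg_left hexp hρ.le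
    linarith
  have hcr := pte_crude (c0 := 2 / 5) (E := 62 / 10 ^ 7) (N := 12) (K := 14 / 100000) hδ hδ0
    (by norm_num) (by norm_num) e12 (by norm_num)
  have key := ptc_int_crude' (H := fun v => Hf (sx (r * δ) y) y (-v)) (C := 1132 / 100) (δ := δ)
      (c0 := 2 / 5) (by norm_num) (fun v => norm_nonneg _)
      (fun v hv => giC_L hx hδ hw hv (y := y)) hδ (by linarith)
      (fun v hv => ptc_Lpos hx hx1 hy hD.y1 hv)
  exact key.trans (mul_le_mul_of_nonneg_left hcr (by norm_num))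

theorem kC_le {ρ y : ℝ} (hρ : 0 < ρ) (hrho : ρ ≤ 173 / 100) (h0 : -(7 / 10) ≤ y) (h1 : y ≤ 0) :
    ρ * Real.exp (-y) ≤ 3486 / 1000 := by
  have h2 := ptc_exp_chord (n := -y) (by linarith) (by linarith)
  have h3 : Real.exp (-y) ≤ 2015 / 1000 := by linarith
  have h4 := Real.exp_pos (-y)
  nlinarith

theorem tlC_R_neg (hδ : 0 < δ) (hδ0 : δ ≤ 173 / 4990) (hrho : r * δ ≤ 173 / 100)
    (hD : DD (r * δ) y) (hy : y ≤ 0) (hw : WtC w) :
    ∫ v in Ioi (3 / 2 : ℝ), ‖gi (1 + sx (r * δ) y)⁻¹ (1 + sx (r * δ) y) w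
      (sK (r * δ) y / δ) 0 (-((δ : ℂ) * I)) v‖ ≤ 1556 / 100 * (14 / 100000 * √δ ^ 3) := by
  have hx := sx_nonneg (r * δ) y
  have hρ := hD.dom.1
  have hx1 : sx (r * δ) y ≤ 349 / 100 := by
    have h1 := sx_le hD.dom
    have h2 := kC_le hρ hrho hD.y0 hy
    linarith
  have hcr := pte_crude (c0 := 2 / 5) (E := 62 / 10 ^ 7) (N := 12) (K := 14 / 100000) hδ hδ0
    (by norm_num) (by norm_num) e12 (by norm_num)
  have key := ptc_int_crude' (H := fun v => Hf (sx (r * δ) y) y v) (C := 1556 / 100) (δ := δ)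
      (c0 := 2 / 5) (by norm_num) (fun v => norm_nonneg _)
      (fun v hv => giC_R hx hδ hw hv (y := y)) hδ (by linarith)
      (fun v hv => ptc_Rneg hx hx1 hD.y0 hy hv)
  exact key.trans (mul_le_mul_of_nonneg_left hcr (by norm_num))

theorem tlC_L_neg (hδ : 0 < δ) (hδ0 : δ ≤ 173 / 4990) (hrho : r * δ ≤ 173 / 100)
    (hD : DD (r * δ) y) (hy : y ≤ 0) (hw : WtC w) :
    ∫ v in Ioi (3 / 2 : ℝ), ‖gi (1 + sx (r * δ) y)⁻¹ (1 + sx (r * δ) y) w
      (sK (r * δ) y / δ) 0 (-((δ : ℂ) * I)) (-v)‖ ≤ 1132 / 100 * (156 / 10000 * √δ ^ 3) := by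
  obtain ⟨ρ, hρe⟩ : ∃ ρ, ρ = r * δ := ⟨_, rfl⟩
  rw [← hρe] at hD hrho ⊢
  obtain ⟨pc, ps⟩ := polarC hD.dom
  have hx := sx_nonneg ρ y
  have hρ := hD.dom.1
  have hk1 := kC_le hρ hrho hD.y0 hy
  obtain ⟨k, hk⟩ : ∃ k, k = ρ * Real.exp (-y) := ⟨_, rfl⟩
  obtain ⟨χ, hχ⟩ : ∃ χ, χ = -sP ρ y := ⟨_, rfl⟩
  have hχ' : sP ρ y = -χ := by rw [hχ, neg_neg]
  rw [← hk, hχ', Real.cos_neg] at pc
  rw [← hk, hχ', Real.sin_neg, mul_neg] at ps
  rw [← hk] at hk1
  have hk0 : 0 ≤ k := by rw [hk]; positivity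
  have hk1' : k ≤ 349 / 100 := by linarith
  have hχ0 : 0 ≤ χ := by
    have := sP_nonpos hρ hy
    linarith
  have hχ1 : χ ≤ Real.pi / 2 := by
    have := (abs_le.1 (sP_abs_le ρ y)).1
    linarith
  have hπ := Real.pi_pos
  have hπl : (3.1415 : ℝ) < Real.pi := Real.pi_gt_d4
  have hn : k * Real.sin χ ≤ 7 / 10 := by linarith [hD.y0]
  have hn0 : 0 ≤ k * Real.sin χ := by linarith
  have hg : ∀ v : ℝ, 3 / 2 ≤ v → ‖gi (1 + sx ρ y)⁻¹ (1 + sx ρ y) w
      (sK ρ y / δ) 0 (-((δ : ℂ) * I)) (-v)‖ ≤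
        1132 / 100 * Real.exp (3 / 10 * v - Hf (sx ρ y) y (-v) / δ) :=
    fun v hv => giC_L hx hδ hw hv
  have hq3 : 0 ≤ √δ ^ 3 := by positivity
  have hcr := pte_crude (c0 := 1 / 5) (E := 19 / 10 ^ 5) (N := 865 / 100) (K := 85 / 10000) hδ hδ0
    (by norm_num) (by norm_num) e865 (by norm_num)
  have hH : ∀ v : ℝ, 3 * Real.pi / 2 ≤ v + χ → Hf (sx ρ y) y (-v) =
      (1 - k * Real.sin χ) * v - Real.exp (-1) * k * Real.cos (v + χ) := fun v hv => by
    have h1 := ptc_Lneg_far hk0 hk1' hχ0 hχ1 hn hv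
    rw [← h1, pc, ps]
  have hH2 : ∀ v : ℝ, 3 / 2 ≤ v → v + χ ≤ 3 * Real.pi / 2 →
      1 / 5 * v ≤ Hf (sx ρ y) y (-v) := fun v hv hv' => by
    have h1 := ptc_Lneg hk0 hk1' hχ0 hχ1 hn hv hv'
    rw [pc, ps] at h1
    linarith
  rcases le_total (4 / 5) k with h3 | h3
  · have hl := ptc_lumpL h3 hχ0 hχ1 hn (by
      have e : k * Real.sin χ = -y := by linarith
      rw [e, hk]
      exact mul_le_mul_of_nonneg_right hrho (Real.exp_pos _).le)
    have he1 : (0.36787944116 : ℝ) < Real.exp (-1) := Real.exp_neg_one_gt_d9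
    have hc1 : 1147 / 10000 ≤ 39 / 100 * (Real.exp (-1) * k) := by
      norm_num at he1
      nlinarith
    have key := ptc_int_lump' (H := fun v => Hf (sx ρ y) y (-v)) (C := 1132 / 100) (δ := δ)
      (c0 := 1 / 5) (v0 := 2 * Real.pi - χ)
      (f := (1 - k * Real.sin χ) * (2 * Real.pi - χ) - Real.exp (-1) * k)
      (A := 1 - k * Real.sin χ) (c := 39 / 100 * (Real.exp (-1) * k)) (by norm_num)
      (fun v => norm_nonneg _) hg hδ (by linarith) (by linarith) (by linarith) (by linarith)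
      (by linarith)
      (fun v hv hv' => hH2 v hv (by linarith))
      (fun v hv hv' => by
        have h2 := ptc_cos_quad (u := 2 * Real.pi - χ - v) (by linarith) (by linarith)
        have h4 : Real.cos (2 * Real.pi - χ - v) = Real.cos (v + χ) := by
          rw [show 2 * Real.pi - χ - v = 2 * Real.pi - (v + χ) by ring, Real.cos_two_pi_sub]
        rw [h4] at h2
        rw [hH v (by linarith)]
        have h6 : 0 ≤ Real.exp (-1) * k := by positivity
        have h7 := mul_le_mul_of_nonneg_left h2 h6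
        have e : (1 - k * Real.sin χ) * (2 * Real.pi - χ) -
            Real.exp (-1) * k - (1 - k * Real.sin χ) * (2 * Real.pi - χ - v) +
            39 / 100 * (Real.exp (-1) * k) * (2 * Real.pi - χ - v) ^ 2 =
          (1 - k * Real.sin χ) * v -
            Real.exp (-1) * k * (1 - 39 / 100 * (2 * Real.pi - χ - v) ^ 2) := by ring
        rw [e]
        linarith)
      (fun v hv => by
        rw [hH v (by linarith)]
        have h6 : 0 ≤ Real.exp (-1) * k := by positivity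
        have h7 := mul_le_mul_of_nonneg_left (Real.cos_le_one (v + χ)) h6
        have e : (1 - k * Real.sin χ) * (2 * Real.pi - χ) -
            Real.exp (-1) * k + (1 - k * Real.sin χ) * (v - (2 * Real.pi - χ)) =
          (1 - k * Real.sin χ) * v - Real.exp (-1) * k * 1 := by ring
        rw [e]
        linarith)
    refine key.trans (mul_le_mul_of_nonneg_left ?_ (by norm_num))
    have hlump := pte_lump (δ := δ) (A0 := 3 / 10) (g := 43 / 100) (E := 62 / 10 ^ 7)
      (N := 12) (cq := 5235 / 1000) (K := 71 / 10000)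
      (f := (1 - k * Real.sin χ) * (2 * Real.pi - χ) - Real.exp (-1) * k)
      (A := 1 - k * Real.sin χ) (c := 39 / 100 * (Real.exp (-1) * k)) hδ hδ0
      (by linarith) (by norm_num) (by linarith) (by norm_num) (by linarith) (by norm_num) e12
      (by norm_num) (by
        have := Real.pi_lt_d4
        norm_num at this
        nlinarith) (by norm_num)
    linarith
  · have key := ptc_int_crude' (H := fun v => Hf (sx ρ y) y (-v)) (C := 1132 / 100) (δ := δ)
      (c0 := 1 / 5) (by norm_num) (fun v => norm_nonneg _) hg hδ (by linarith) (fun v hv => by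
        rcases le_total (v + χ) (3 * Real.pi / 2) with h | h
        · exact hH2 v hv h
        · rw [hH v h]
          have he1 : Real.exp (-1) < 0.3678794412 := Real.exp_neg_one_lt_d9
          have h6 : 0 ≤ Real.exp (-1) * k := by positivity
          have h7 := mul_le_mul_of_nonneg_left (Real.cos_le_one (v + χ)) h6
          have h8 : Real.exp (-1) * k ≤ 3 / 10 := by
            norm_num at he1
            nlinarith
          nlinarith)
    refine key.trans (mul_le_mul_of_nonneg_left ?_ (by norm_num))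
    linarith

theorem sGC {Dm m : ℝ} (hδ : 0 < δ) (hy : -1 < y) (hm0 : 0 ≤ m) (hD : √(sD2 (r * δ) y) ≤ Dm)
    (hm : m ^ 2 * Dm ≤ 2 * Real.pi) : m * √δ ^ 3 ≤ δ * sG r δ y := by
  have hp : 0 < √(sD2 (r * δ) y) := Real.sqrt_pos.2 (sD2_pos hy)
  have h1 : m * √δ ≤ sG r δ y := by
    unfold sG
    refine Real.le_sqrt_of_sq_le ?_
    rw [mul_pow, Real.sq_sqrt hδ.le, le_div_iff₀ hp]
    have h2 : m ^ 2 * √(sD2 (r * δ) y) ≤ m ^ 2 * Dm :=
      mul_le_mul_of_nonneg_left hD (sq_nonneg m)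
    nlinarith
  have e : m * √δ ^ 3 = √δ ^ 2 * (m * √δ) := by ring
  rw [e, Real.sq_sqrt hδ.le]
  exact mul_le_mul_of_nonneg_left h1 hδ.le

theorem tlC_pos (hδ : 0 < δ) (hδ0 : δ ≤ 173 / 4990) (hrho : r * δ ≤ 173 / 100)
    (hD : DD (r * δ) y) (hy : 0 ≤ y) (hw : WtC w) :
    Tl r δ y w ≤ 2 / 5 * (δ * sG r δ y) := by
  have h := pte_split (f := fun s : ℝ => ‖gi (1 + sx (r * δ) y)⁻¹ (1 + sx (r * δ) y) w
    (sK (r * δ) y / δ) 0 (-((δ : ℂ) * I)) s‖) (fun s => norm_nonneg _)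
    (tlC_R_pos hδ hδ0 hrho hD hy hw) (tlC_L_pos hδ hδ0 hrho hD hy hw)
  have h2 : √(sD2 (r * δ) y) ≤ 2 := by
    refine Real.sqrt_le_iff.2 ⟨by norm_num, ?_⟩
    have h3 := sx_sq_add hD.dom
    have h4 : sD2 (r * δ) y = sx (r * δ) y ^ 2 + y ^ 2 + (1 + 2 * y) := by
      unfold sD2
      ring
    have hρ := hD.dom.1
    have h5 : Real.exp (-y) ^ 2 * (1 + 2 * y) ≤ 1 := by
      have k1 : 1 + 2 * y ≤ Real.exp y ^ 2 := by
        rw [← Real.exp_nat_mul]
        have := Real.add_one_le_exp (2 * y)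
        push_cast
        linarith
      have k2 : Real.exp (-y) ^ 2 * Real.exp y ^ 2 = 1 := by
        rw [← mul_pow, ← Real.exp_add]
        simp
      have k3 : 0 ≤ Real.exp (-y) ^ 2 := by positivity
      nlinarith
    have h6 : (r * δ * Real.exp (-y)) ^ 2 ≤ (173 / 100) ^ 2 * Real.exp (-y) ^ 2 := by
      rw [mul_pow]
      have : (r * δ) ^ 2 ≤ (173 / 100) ^ 2 := pow_le_pow_left₀ hρ.le hrho 2
      exact mul_le_mul_of_nonneg_right this (by positivity)
    rw [h4, h3]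
    have h7 : Real.exp (-y) ^ 2 ≤ 1 / (1 + 2 * y) := by
      rw [le_div_iff₀ (by linarith)]
      exact h5
    have h8 : (173 / 100) ^ 2 * (1 / (1 + 2 * y)) + (1 + 2 * y) ≤ 4 := by
      have hz : 0 < 1 + 2 * y := by linarith
      rw [mul_one_div, ← le_sub_iff_add_le, div_le_iff₀ hz]
      nlinarith [hD.y1]
    nlinarith
  have h3 := sGC (r := r) (δ := δ) (y := y) (m := 177 / 100) hδ (by linarith) (by norm_num) h2 (by
    have := Real.pi_gt_d4
    norm_num at this ⊢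
    linarith)
  have hq3 : 0 ≤ √δ ^ 3 := by positivity
  unfold Tl
  refine h.trans ?_
  linarith

theorem tlC_neg (hδ : 0 < δ) (hδ0 : δ ≤ 173 / 4990) (hrho : r * δ ≤ 173 / 100)
    (hD : DD (r * δ) y) (hy : y ≤ 0) (hw : WtC w) :
    Tl r δ y w ≤ 3 / 20 * (δ * sG r δ y) := by
  have h := pte_split (f := fun s : ℝ => ‖gi (1 + sx (r * δ) y)⁻¹ (1 + sx (r * δ) y) w
    (sK (r * δ) y / δ) 0 (-((δ : ℂ) * I)) s‖) (fun s => norm_nonneg _)
    (tlC_R_neg hδ hδ0 hrho hD hy hw) (tlC_L_neg hδ hδ0 hrho hD hy hw)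
  have hy0 := hD.y0
  have h2 : √(sD2 (r * δ) y) ≤ 363 / 100 := by
    refine Real.sqrt_le_iff.2 ⟨by norm_num, ?_⟩
    have h3 := sx_sq_add hD.dom
    have h4 : sD2 (r * δ) y = sx (r * δ) y ^ 2 + y ^ 2 + (1 + 2 * y) := by
      unfold sD2
      ring
    have hk := kC_le hD.dom.1 hrho hD.y0 hy
    have hk0 : 0 ≤ r * δ * Real.exp (-y) := mul_nonneg hD.dom.1.le (Real.exp_pos _).le
    rw [h4, h3]
    nlinarith
  have h3 := sGC (r := r) (δ := δ) (y := y) (m := 13 / 10) hδ (by linarith) (by norm_num) h2 (by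
    have := Real.pi_gt_d4
    norm_num at this ⊢
    linarith)
  have hq3 : 0 ≤ √δ ^ 3 := by positivity
  unfold Tl
  refine h.trans ?_
  linarith

end

/-- LEMMA MAIN on `DD`. -/
theorem ownC {r δ y : ℝ} (hr : 499 / 10 ≤ r) (hδ : 0 < δ)
    (hrho : r * δ ≤ 173 / 100) (hD : DD (r * δ) y) :
    Own r δ y (1 / 6) (if 0 ≤ y then 1 else 3)
      (9 / 5 * (‖kap r δ y‖ / sD (r * δ) y)) := by
  have hδ0 : δ ≤ 173 / 4990 := by
    have : 499 / 10 * δ ≤ r * δ := mul_le_mul_of_nonneg_right hr hδ.le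
    linarith
  have hy1 : -1 < y := by linarith [hD.y0]
  have hG := sG_pos (r := r) hδ hy1
  have hx := sx_nonneg (r * δ) y
  have hDp : 0 < sD (r * δ) y := Real.sqrt_pos.2 (sD2_pos hy1)
  have hkD : 0 ≤ ‖kap r δ y‖ / sD (r * δ) y := by positivity
  have hK : ‖sK (r * δ) y‖ = √(sx (r * δ) y ^ 2 + y ^ 2) := norm_K _ _
  have hP : 0 < sD2 (r * δ) y := sD2_pos hy1
  have hp : 0 ≤ ‖kap r δ y‖ / sD (r * δ) y * (δ * sG r δ y) := by positivity
  have hkd : ‖kap r δ y‖ / sD (r * δ) y * (δ * sG r δ y) =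
      ‖sK (r * δ) y‖ / sD (r * δ) y * sG r δ y := by
    rw [norm_kap_div hδ]
    field_simp
  have hposc : 0 ≤ y → Own r δ y (1 / 6) 1 (9 / 5 * (‖kap r δ y‖ / sD (r * δ) y)) := by
    intro hy
    have hT : ∀ w : ℂ → ℂ, WtC w → Tl r δ y w ≤ 2 / 5 * (δ * sG r δ y) :=
      fun w hw => tlC_pos hδ hδ0 hrho hD hy hw
    have hkr : ‖sK (r * δ) y‖ / sD (r * δ) y ≤ 1 := by
      rw [div_le_one hDp, hK]
      unfold sD sD2
      refine Real.sqrt_le_sqrt ?_
      nlinarith
    have t0 : Tl r δ y (fun _ => 1) ≤ 14 / 1000 * sG r δ y := by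
      have := hT _ wtC_one
      nlinarith
    have t1 : ‖kap r δ y‖ / sD (r * δ) y * Tl r δ y gs ≤
        4 / 9 * ((1 - 1 / 10) * sG r δ y) := by
      have k1 := mul_le_mul_of_nonneg_left (hT _ wtC_gs) hkD
      have k2 : ‖kap r δ y‖ / sD (r * δ) y * (2 / 5 * (δ * sG r δ y)) =
          2 / 5 * (‖sK (r * δ) y‖ / sD (r * δ) y * sG r δ y) := by
        rw [← hkd]
        ring
      rw [k2] at k1
      have k3 := mul_le_mul_of_nonneg_right hkr hG.le
      linarith
    have t2 : ‖kap r δ y‖ / sD (r * δ) y * Tl r δ y (fun σ => σ * gs σ) ≤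
        ‖kap r δ y‖ / sD (r * δ) y * (4 / 9) * (δ * ((1 - 1 / 10) * sG r δ y)) := by
      have k1 := mul_le_mul_of_nonneg_left (hT _ wtC_sgs) hkD
      linarith
    have key := own_pos (e := 1 / 10) (a := 883 / 1000) (v0 := 1243 / 1000) (τ0 := 14 / 1000)
      (τ1 := 4 / 9) (τ2 := ‖kap r δ y‖ / sD (r * δ) y * (4 / 9)) hr hδ hD.dom hy hD.y1
      (by norm_num) (by norm_num) (by norm_num) (by norm_num) t0 t1 t2
    refine key.mono hy1 (by norm_num) ?_ (by linarith)
    have h1 : kD r δ y ≤ 1 / 2 := by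
      unfold kD
      rw [div_le_iff₀ hP, hK]
      have := s1_kd hx hy hD.y1
      unfold sD2
      linarith
    linarith
  rcases le_total 0 y with hy | hy
  · rw [if_pos hy]
    exact hposc hy
  · rcases hy.eq_or_lt with h | h
    · rw [if_pos h.ge]
      exact hposc h.ge
    · rw [if_neg (not_le.2 h)]
      have hF := DD.negF hD hy
      have hT : ∀ w : ℂ → ℂ, WtC w → Tl r δ y w ≤ 3 / 20 * (δ * sG r δ y) :=
        fun w hw => tlC_neg hδ hδ0 hrho hD hy hw
      have h1 : kD r δ y ≤ 21 / 10 := by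
        unfold kD
        rw [div_le_iff₀ hP, hK]
        have hρ := hD.dom.1
        have hΦ : 11 / 25 * (√(sx (r * δ) y ^ 2 + y ^ 2) * Real.exp y) ≤
            sx (r * δ) y * (1 + y) := by
          have h2 := hD.phi
          unfold ph at h2
          rw [le_div_iff₀ hρ] at h2
          rwa [← rd_eq hD.dom]
        have := s2_kd hx (by linarith [hD.y0]) hy hΦ
        unfold sD2
        linarith
      have hkr : ‖sK (r * δ) y‖ / sD (r * δ) y ≤ 148 / 100 := by
        rw [div_le_iff₀ hDp, hK]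
        unfold sD
        have e : (148 / 100 : ℝ) * √(sD2 (r * δ) y) = √((148 / 100) ^ 2 * sD2 (r * δ) y) := by
          rw [Real.sqrt_mul (by norm_num), Real.sqrt_sq (by norm_num)]
        rw [e]
        refine Real.sqrt_le_sqrt ?_
        have h2 := hF.D2
        have h3 := hD.y0
        unfold sD2
        nlinarith
      have t0 : Tl r δ y (fun _ => 1) ≤ 53 / 10000 * sG r δ y := by
        have := hT _ wtC_one
        nlinarith
      have t1 : ‖kap r δ y‖ / sD (r * δ) y * Tl r δ y gs ≤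
          249 / 1000 * ((1 - 107 / 1000) * sG r δ y) := by
        have k1 := mul_le_mul_of_nonneg_left (hT _ wtC_gs) hkD
        have k2 : ‖kap r δ y‖ / sD (r * δ) y * (3 / 20 * (δ * sG r δ y)) =
            3 / 20 * (‖sK (r * δ) y‖ / sD (r * δ) y * sG r δ y) := by
          rw [← hkd]
          ring
        rw [k2] at k1
        have k3 := mul_le_mul_of_nonneg_right hkr hG.le
        linarith
      have t2 : ‖kap r δ y‖ / sD (r * δ) y * Tl r δ y (fun σ => σ * gs σ) ≤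
          ‖kap r δ y‖ / sD (r * δ) y * (168 / 1000) * (δ * ((1 - 107 / 1000) * sG r δ y)) := by
        have k1 := mul_le_mul_of_nonneg_left (hT _ wtC_sgs) hkD
        have k4 : ‖kap r δ y‖ / sD (r * δ) y * (168 / 1000) * (δ * ((1 - 107 / 1000) * sG r δ y)) =
            168 / 1000 * (893 / 1000) * (‖kap r δ y‖ / sD (r * δ) y * (δ * sG r δ y)) := by ring
        rw [k4]
        linarith
      have key := own_neg (e := 107 / 1000) (a := 1292 / 1000) (v0 := 1593 / 1000)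
        (τ0 := 53 / 10000) (τ1 := 249 / 1000)
        (τ2 := ‖kap r δ y‖ / sD (r * δ) y * (168 / 1000)) hr hδ hD.dom hF
        (by norm_num) (by norm_num) (by norm_num) (by norm_num) t0 t1 t2
      refine key.mono hy1 (by norm_num) ?_ (by linarith)
      linarith

end SokalF1T
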