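import Mathlib

/-!
# Polynomials in two variables, non negative on a box: kernel certificate

`E` is a syntax for polynomials with rational coefficients in `X`, `Y`; `bisE` subdivides the box
`α ≤ γ X < β`, `α' ≤ γ' Y < β'` and checks that all coefficients after the substitution
`X = (α + β x)/(γ (1 + x))`, `Y = (α' + β' y)/(γ' (1 + y))` are non negative.
-/

set_option autoImplicit false

namespace SokalPB

/-! ### One variable -/

def addP : List ℤ → List ℤ → List ℤ
  | [], l => l
  | a :: l, [] => a :: l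
  | a :: l, b :: m => (a + b) :: addP l m

def smulP (c : ℤ) : List ℤ → List ℤ
  | [] => []
  | a :: l => (c * a) :: smulP c l

def mulP : List ℤ → List ℤ → List ℤ
  | [], _ => []
  | a :: l, m => addP (smulP a m) (0 :: mulP l m)

noncomputable def evP : List ℤ → ℝ → ℝ
  | [], _ => 0
  | a :: l, x => a + x * evP l x

theorem evP_addP (l m : List ℤ) (x : ℝ) : evP (addP l m) x = evP l x + evP m x := by
  induction l generalizing m with
  | nil => simp [addP, evP]
  | cons a l ih =>
    cases m with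
    | nil => simp [addP, evP]
    | cons b m =>
      simp only [addP, evP, ih]
      push_cast
      ring

theorem evP_smulP (c : ℤ) (l : List ℤ) (x : ℝ) : evP (smulP c l) x = c * evP l x := by
  induction l with
  | nil => simp [smulP, evP]
  | cons a l ih =>
    simp only [smulP, evP, ih]
    push_cast
    ring

theorem evP_mulP (l m : List ℤ) (x : ℝ) : evP (mulP l m) x = evP l x * evP m x := by
  induction l with
  | nil => simp [mulP, evP]
  | cons a l ih =>
    simp only [mulP, evP_addP, evP_smulP, evP, ih]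
    push_cast
    ring

/-! ### Two variables -/

def addQ : List (List ℤ) → List (List ℤ) → List (List ℤ)
  | [], l => l
  | a :: l, [] => a :: l
  | a :: l, b :: m => addP a b :: addQ l m

def smulQ (c : List ℤ) : List (List ℤ) → List (List ℤ)
  | [] => []
  | a :: l => mulP c a :: smulQ c l

def mulQ : List (List ℤ) → List (List ℤ) → List (List ℤ)
  | [], _ => []
  | a :: l, m => addQ (smulQ a m) ([] :: mulQ l m)

noncomputable def evQ : List (List ℤ) → ℝ → ℝ → ℝ
  | [], _, _ => 0
  | a :: l, x, y => evP a y + x * evQ l x y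

theorem evQ_addQ (l m : List (List ℤ)) (x y : ℝ) :
    evQ (addQ l m) x y = evQ l x y + evQ m x y := by
  induction l generalizing m with
  | nil => simp [addQ, evQ]
  | cons a l ih =>
    cases m with
    | nil => simp [addQ, evQ]
    | cons b m =>
      simp only [addQ, evQ, ih, evP_addP]
      ring

theorem evQ_smulQ (c : List ℤ) (l : List (List ℤ)) (x y : ℝ) :
    evQ (smulQ c l) x y = evP c y * evQ l x y := by
  induction l with
  | nil => simp [smulQ, evQ]
  | cons a l ih =>
    simp only [smulQ, evQ, ih, evP_mulP]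
    ring

theorem evQ_mulQ (l m : List (List ℤ)) (x y : ℝ) :
    evQ (mulQ l m) x y = evQ l x y * evQ m x y := by
  induction l with
  | nil => simp [mulQ, evQ]
  | cons a l ih =>
    simp only [mulQ, evQ_addQ, evQ_smulQ, evQ, ih, evP]
    ring

def powQ (l : List (List ℤ)) : ℕ → List (List ℤ)
  | 0 => [[1]]
  | n + 1 => mulQ l (powQ l n)

theorem evQ_powQ (l : List (List ℤ)) (n : ℕ) (x y : ℝ) : evQ (powQ l n) x y = evQ l x y ^ n := by
  induction n with
  | zero => simp [powQ, evQ, evP]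
  | succ n ih => rw [powQ, evQ_mulQ, ih, pow_succ']

/-! ### Syntax -/

inductive E
  | X : E
  | Y : E
  | c : ℤ → E
  | add : E → E → E
  | sub : E → E → E
  | mul : E → E → E
  | pow : E → ℕ → E
  | dv : E → ℕ → E

noncomputable def E.eval : E → ℝ → ℝ → ℝ
  | .X, x, _ => x
  | .Y, _, y => y
  | .c n, _, _ => (n : ℝ)
  | .add a b, x, y => a.eval x y + b.eval x y
  | .sub a b, x, y => a.eval x y - b.eval x y
  | .mul a b, x, y => a.eval x y * b.eval x y
  | .pow a n, x, y => a.eval x y ^ n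
  | .dv a n, x, y => a.eval x y / (n : ℝ)

/-- denominator and polynomial -/
def E.toQ : E → ℕ × List (List ℤ)
  | .X => (1, [[], [1]])
  | .Y => (1, [[0, 1]])
  | .c n => (1, [[n]])
  | .add a b => (a.toQ.1 * b.toQ.1,
      addQ (smulQ [(b.toQ.1 : ℤ)] a.toQ.2) (smulQ [(a.toQ.1 : ℤ)] b.toQ.2))
  | .sub a b => (a.toQ.1 * b.toQ.1,
      addQ (smulQ [(b.toQ.1 : ℤ)] a.toQ.2) (smulQ [-(a.toQ.1 : ℤ)] b.toQ.2))
  | .mul a b => (a.toQ.1 * b.toQ.1, mulQ a.toQ.2 b.toQ.2)
  | .pow a n => (a.toQ.1 ^ n, powQ a.toQ.2 n)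
  | .dv a n => (a.toQ.1 * n, a.toQ.2)

theorem E.toQ_spec (e : E) (h : e.toQ.1 ≠ 0) (x y : ℝ) :
    evQ e.toQ.2 x y = e.toQ.1 * e.eval x y := by
  induction e with
  | X => simp [E.toQ, E.eval, evQ, evP]
  | Y => simp [E.toQ, E.eval, evQ, evP]
  | c n => simp [E.toQ, E.eval, evQ, evP]
  | add a b iha ihb =>
    simp only [E.toQ] at h ⊢
    rw [evQ_addQ, evQ_smulQ, evQ_smulQ, iha (left_ne_zero_of_mul h), ihb (right_ne_zero_of_mul h)]
    simp only [evP, E.eval]
    push_cast
    ring
  | sub a b iha ihb =>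
    simp only [E.toQ] at h ⊢
    rw [evQ_addQ, evQ_smulQ, evQ_smulQ, iha (left_ne_zero_of_mul h), ihb (right_ne_zero_of_mul h)]
    simp only [evP, E.eval]
    push_cast
    ring
  | mul a b iha ihb =>
    simp only [E.toQ] at h ⊢
    rw [evQ_mulQ, iha (left_ne_zero_of_mul h), ihb (right_ne_zero_of_mul h)]
    simp only [E.eval]
    push_cast
    ring
  | pow a n ih =>
    simp only [E.toQ] at h ⊢
    rw [evQ_powQ]
    simp only [E.eval]
    rcases Nat.eq_zero_or_pos n with hn | hn
    · subst hn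
      simp
    · rw [ih (fun h0 => h (by rw [h0, Nat.zero_pow hn]))]
      push_cast
      ring
  | dv a n ih =>
    simp only [E.toQ] at h ⊢
    rw [ih (left_ne_zero_of_mul h)]
    simp only [E.eval]
    have : (n : ℝ) ≠ 0 := Nat.cast_ne_zero.2 (right_ne_zero_of_mul h)
    push_cast
    field_simp

/-! ### Substitution -/

/-- `(γ (1 + x))ⁿ` -/
def pwP (γ : ℤ) : ℕ → List ℤ
  | 0 => [1]
  | n + 1 => mulP [γ, γ] (pwP γ n)

theorem evP_pwP (γ : ℤ) (n : ℕ) (x : ℝ) : evP (pwP γ n) x = (γ * (1 + x)) ^ n := by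
  induction n with
  | zero => simp [pwP, evP]
  | succ n ih =>
    rw [pwP, evP_mulP, ih, pow_succ']
    simp only [evP]
    ring

def subP (α β γ : ℤ) : ℕ → List ℤ → List ℤ
  | 0, _ => []
  | _ + 1, [] => []
  | n + 1, a :: l => addP (smulP a (pwP γ (n + 1))) (mulP [α, β] (subP α β γ n l))

theorem evP_subP {α β γ : ℤ} {X x : ℝ} (h : X * (γ * (1 + x)) = α + β * x) (n : ℕ) (l : List ℤ)
    (hl : l.length ≤ n) : evP (subP α β γ n l) x = (γ * (1 + x)) ^ n * evP l X := by
  induction n generalizing l with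
  | zero =>
    have : l = [] := List.length_eq_zero_iff.1 (by omega)
    subst this
    simp [subP, evP]
  | succ n ih =>
    cases l with
    | nil => simp [subP, evP]
    | cons a l =>
      simp only [subP, evP_addP, evP_smulP, evP_pwP, evP_mulP, evP]
      rw [ih l (by simpa using hl)]
      have e : (α : ℝ) + x * (β + x * 0) = X * (γ * (1 + x)) := by rw [h]; ring
      rw [e]
      ring

def tenQ (l : List ℤ) (a : List ℤ) : List (List ℤ) :=
  match l with
  | [] => []
  | c :: l => smulP c a :: tenQ l a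

theorem evQ_tenQ (l a : List ℤ) (x y : ℝ) : evQ (tenQ l a) x y = evP l x * evP a y := by
  induction l with
  | nil => simp [tenQ, evQ, evP]
  | cons c l ih =>
    simp only [tenQ, evQ, evP, ih, evP_smulP]
    ring

def subQ (α β γ : ℤ) : ℕ → List (List ℤ) → List (List ℤ)
  | 0, _ => []
  | _ + 1, [] => []
  | n + 1, a :: l => addQ (tenQ (pwP γ (n + 1)) a) (mulQ [[α], [β]] (subQ α β γ n l))

theorem evQ_subQ {α β γ : ℤ} {X x y : ℝ} (h : X * (γ * (1 + x)) = α + β * x) (n : ℕ)
    (l : List (List ℤ)) (hl : l.length ≤ n) :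
    evQ (subQ α β γ n l) x y = (γ * (1 + x)) ^ n * evQ l X y := by
  induction n generalizing l with
  | zero =>
    have : l = [] := List.length_eq_zero_iff.1 (by omega)
    subst this
    simp [subQ, evQ]
  | succ n ih =>
    cases l with
    | nil => simp [subQ, evQ]
    | cons a l =>
      simp only [subQ, evQ_addQ, evQ_tenQ, evP_pwP, evQ_mulQ, evQ, evP]
      rw [ih l (by simpa using hl)]
      have e : (α : ℝ) + y * 0 + x * (β + y * 0 + x * 0) = X * (γ * (1 + x)) := by rw [h]; ring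
      rw [e]
      ring

def rowQ (α β γ : ℤ) (m : ℕ) : List (List ℤ) → List (List ℤ)
  | [] => []
  | a :: l => subP α β γ m a :: rowQ α β γ m l

def lenB (m : ℕ) : List (List ℤ) → Bool
  | [] => true
  | a :: l => Nat.ble a.length m && lenB m l

theorem evQ_rowQ {α β γ : ℤ} {Y y : ℝ} (h : Y * (γ * (1 + y)) = α + β * y) (m : ℕ) (x : ℝ)
    (l : List (List ℤ)) (hl : lenB m l = true) :
    evQ (rowQ α β γ m l) x y = (γ * (1 + y)) ^ m * evQ l x Y := by
  induction l with
  | nil => simp [rowQ, evQ]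
  | cons a l ih =>
    simp only [lenB, Bool.and_eq_true] at hl
    simp only [rowQ, evQ]
    rw [ih hl.2, evP_subP h m a (Nat.le_of_ble_eq_true hl.1)]
    ring

def nnP : List ℤ → Bool
  | [] => true
  | Int.ofNat _ :: l => nnP l
  | Int.negSucc _ :: _ => false

def nnQ : List (List ℤ) → Bool
  | [] => true
  | a :: l => nnP a && nnQ l

theorem nnP_spec {l : List ℤ} (h : nnP l = true) {x : ℝ} (hx : 0 ≤ x) : 0 ≤ evP l x := by
  induction l with
  | nil => simp [evP]
  | cons a l ih =>
    cases a with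
    | ofNat n =>
      simp only [nnP] at h
      have h1 := ih h
      simp only [evP]
      have h2 : (0 : ℝ) ≤ ((Int.ofNat n : ℤ) : ℝ) := by simp
      positivity
    | negSucc n => simp [nnP] at h

theorem nnQ_spec {l : List (List ℤ)} (h : nnQ l = true) {x y : ℝ} (hx : 0 ≤ x) (hy : 0 ≤ y) :
    0 ≤ evQ l x y := by
  induction l with
  | nil => simp [evQ]
  | cons a l ih =>
    simp only [nnQ, Bool.and_eq_true] at h
    simp only [evQ]
    have h1 := ih h.2
    have h2 := nnP_spec h.1 hy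
    positivity

/-! ### The box -/

/-- `n`, `m` bounds for the lengths; `q` the polynomial -/
def okB (n m : ℕ) (q : List (List ℤ)) (α β γ α' β' γ' : ℤ) : Bool :=
  nnQ (subQ α β γ n (rowQ α' β' γ' m q))

theorem length_rowQ (α β γ : ℤ) (m : ℕ) (l : List (List ℤ)) :
    (rowQ α β γ m l).length = l.length := by
  induction l with
  | nil => rfl
  | cons a l ih => simp [rowQ, ih]

theorem okB_spec {n m : ℕ} {q : List (List ℤ)} {α β γ α' β' γ' : ℤ} (hn : q.length ≤ n)
    (hm : lenB m q = true) (hγ : 0 < γ) (hγ' : 0 < γ') (h : okB n m q α β γ α' β' γ' = true)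
    {X Y : ℝ} (h1 : (α : ℝ) ≤ γ * X) (h2 : γ * X < β) (h3 : (α' : ℝ) ≤ γ' * Y)
    (h4 : γ' * Y < β') : 0 ≤ evQ q X Y := by
  have g1 : (0 : ℝ) < γ := by exact_mod_cast hγ
  have g2 : (0 : ℝ) < γ' := by exact_mod_cast hγ'
  obtain ⟨x, hx⟩ : ∃ x, x = (γ * X - α) / (β - γ * X) := ⟨_, rfl⟩
  obtain ⟨y, hy⟩ : ∃ y, y = (γ' * Y - α') / (β' - γ' * Y) := ⟨_, rfl⟩
  have d1 : 0 < (β : ℝ) - γ * X := by linarith
  have d2 : 0 < (β' : ℝ) - γ' * Y := by linarith
  have hx0 : 0 ≤ x := by rw [hx]; exact div_nonneg (by linarith) d1.le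
  have hy0 : 0 ≤ y := by rw [hy]; exact div_nonneg (by linarith) d2.le
  have hx' : x * (β - γ * X) = γ * X - α := by rw [hx, div_mul_cancel₀ _ d1.ne']
  have hy' : y * (β' - γ' * Y) = γ' * Y - α' := by rw [hy, div_mul_cancel₀ _ d2.ne']
  have ex : X * (γ * (1 + x)) = α + β * x := by linear_combination -hx'
  have ey : Y * (γ' * (1 + y)) = α' + β' * y := by linear_combination -hy'
  have k1 := nnQ_spec h hx0 hy0
  rw [evQ_subQ ex n _ (by rw [length_rowQ]; exact hn), evQ_rowQ ey m _ _ hm] at k1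
  have p1 : (0 : ℝ) < (γ * (1 + x)) ^ n := by positivity
  have p2 : (0 : ℝ) < (γ' * (1 + y)) ^ m := by positivity
  exact nonneg_of_mul_nonneg_right (nonneg_of_mul_nonneg_right k1 p1) p2

/-- bisection, alternating -/
def bisB (n m : ℕ) (q : List (List ℤ)) : ℕ → ℤ → ℤ → ℤ → ℤ → ℤ → ℤ → Bool
  | 0, α, β, γ, α', β', γ' => okB n m q α β γ α' β' γ'
  | k + 1, α, β, γ, α', β', γ' => okB n m q α β γ α' β' γ' ||
      -- split the side which is longer: `(β - α)/γ` or `(β' - α')/γ'`
      if (β' - α') * γ ≤ (β - α) * γ' then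
        bisB n m q k (2 * α) (α + β) (2 * γ) α' β' γ' &&
        bisB n m q k (α + β) (2 * β) (2 * γ) α' β' γ'
      else
        bisB n m q k α β γ (2 * α') (α' + β') (2 * γ') &&
        bisB n m q k α β γ (α' + β') (2 * β') (2 * γ')

theorem bisB_spec {n m : ℕ} {q : List (List ℤ)} (hn : q.length ≤ n) (hm : lenB m q = true) (k : ℕ) :
    ∀ {α β γ α' β' γ' : ℤ}, 0 < γ → 0 < γ' → bisB n m q k α β γ α' β' γ' = true →
    ∀ {X Y : ℝ}, (α : ℝ) ≤ γ * X → γ * X < β → (α' : ℝ) ≤ γ' * Y → γ' * Y < β' →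
      0 ≤ evQ q X Y := by
  induction k with
  | zero =>
    intro α β γ α' β' γ' h0 h0' h X Y h1 h2 h3 h4
    exact okB_spec hn hm h0 h0' h h1 h2 h3 h4
  | succ k ih =>
    intro α β γ α' β' γ' h0 h0' h X Y h1 h2 h3 h4
    rw [bisB, Bool.or_eq_true] at h
    rcases h with h | h
    · exact okB_spec hn hm h0 h0' h h1 h2 h3 h4
    · split_ifs at h
      · rw [Bool.and_eq_true] at h
        rcases lt_or_ge ((2 * γ : ℤ) * X) ((α + β : ℤ) : ℝ) with hc | hc
        · refine ih (by omega) h0' h.1 ?_ hc h3 h4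
          push_cast
          linarith
        · refine ih (by omega) h0' h.2 hc ?_ h3 h4
          push_cast
          linarith
      · rw [Bool.and_eq_true] at h
        rcases lt_or_ge ((2 * γ' : ℤ) * Y) ((α' + β' : ℤ) : ℝ) with hc | hc
        · refine ih h0 (by omega) h.1 h1 h2 ?_ hc
          push_cast
          linarith
        · refine ih h0 (by omega) h.2 h1 h2 hc ?_
          push_cast
          linarith

def maxL : List (List ℤ) → ℕ
  | [] => 0
  | a :: l => max a.length (maxL l)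

theorem lenB_maxL (l : List (List ℤ)) (m : ℕ) (h : maxL l ≤ m) : lenB m l = true := by
  induction l with
  | nil => rfl
  | cons a l ih =>
    simp only [maxL] at h
    simp only [lenB, Bool.and_eq_true]
    exact ⟨Nat.ble_eq_true_of_le (le_trans (le_max_left _ _) h), ih (le_trans (le_max_right _ _) h)⟩

/-- run on a polynomial `q` with denominator `d` -/
def runQ (dq : ℕ × List (List ℤ)) (k : ℕ) (α β γ α' β' γ' : ℤ) : Bool :=
  Nat.blt 0 dq.1 && bisB dq.2.length (maxL dq.2) dq.2 k α β γ α' β' γ'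

theorem E.nonneg (e : E) (k : ℕ) {α β γ α' β' γ' : ℤ} (hγ : 0 < γ) (hγ' : 0 < γ')
    (h : runQ e.toQ k α β γ α' β' γ' = true) {X Y : ℝ} (h1 : (α : ℝ) ≤ γ * X) (h2 : γ * X < β)
    (h3 : (α' : ℝ) ≤ γ' * Y) (h4 : γ' * Y < β') : 0 ≤ e.eval X Y := by
  rw [runQ, Bool.and_eq_true] at h
  have hd : 0 < e.toQ.1 := by
    have := h.1
    exact Nat.le_of_ble_eq_true this
  have k1 := bisB_spec le_rfl (lenB_maxL _ _ le_rfl) k hγ hγ' h.2 h1 h2 h3 h4
  rw [e.toQ_spec hd.ne'] at k1
  have hd' : (0 : ℝ) < e.toQ.1 := by exact_mod_cast hd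
  exact nonneg_of_mul_nonneg_right k1 hd'

end SokalPB
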