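import Pool.Agent.Lib_MP_af4de1_f1.PtcCert
import Pool.Agent.Lib_MP_af4de1_v3.SadBase

/-!
# The lump on the right half line, `0 ≤ y`: the main inequality
-/

set_option autoImplicit false

namespace SokalF1B

open Real

theorem ptc_arctan {t : ℝ} (ht : 0 ≤ t) : 3 * t / (3 + t ^ 2) ≤ arctan t := by
  have hm : MonotoneOn (fun u : ℝ => arctan u - 3 * u / (3 + u ^ 2)) (Set.Ici 0) := by
    have hd : ∀ u : ℝ, HasDerivAt (fun u : ℝ => arctan u - 3 * u / (3 + u ^ 2))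
        (1 / (1 + u ^ 2) - (3 * (3 + u ^ 2) - 3 * u * (2 * u)) / (3 + u ^ 2) ^ 2) u := by
      intro u
      have h1 := hasDerivAt_arctan u
      have h2 : HasDerivAt (fun u : ℝ => 3 * u) 3 u := by
        simpa using (hasDerivAt_id u).const_mul (3 : ℝ)
      have h3 : HasDerivAt (fun u : ℝ => 3 + u ^ 2) (2 * u) u := by
        simpa using (hasDerivAt_pow 2 u).const_add (3 : ℝ)
      exact h1.sub (h2.div h3 (by positivity))
    refine monotoneOn_of_deriv_nonneg (convex_Ici 0)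
      (fun u _ => (hd u).continuousAt.continuousWithinAt)
      (fun u _ => (hd u).differentiableAt.differentiableWithinAt) fun u _ => ?_
    rw [(hd u).deriv]
    have e : 1 / (1 + u ^ 2) - (3 * (3 + u ^ 2) - 3 * u * (2 * u)) / (3 + u ^ 2) ^ 2 =
        4 * u ^ 4 / ((1 + u ^ 2) * (3 + u ^ 2) ^ 2) := by
      field_simp
      ring
    rw [e]
    positivity
  have h := hm (Set.mem_Ici.2 le_rfl) (Set.mem_Ici.2 ht) ht
  simp only [arctan_zero, mul_zero, zero_div, sub_zero] at h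
  linarith

/-- half angle parameter -/
theorem ptc_half {ψ : ℝ} (h0 : 0 ≤ ψ) (h1 : ψ ≤ π / 2) :
    ∃ t, 0 ≤ t ∧ t ≤ 1 ∧ sin ψ = 2 * t / (1 + t ^ 2) ∧ cos ψ = (1 - t ^ 2) / (1 + t ^ 2) ∧
      6 * t / (3 + t ^ 2) ≤ ψ := by
  have hp := pi_pos
  have hc : 0 < cos (ψ / 2) := cos_pos_of_mem_Ioo ⟨by linarith, by linarith⟩
  have ht0 : 0 ≤ tan (ψ / 2) := tan_nonneg_of_nonneg_of_le_pi_div_two (by linarith) (by linarith)
  have ht1 : tan (ψ / 2) ≤ 1 := by
    rw [← tan_pi_div_four]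
    rcases (show ψ / 2 ≤ π / 4 by linarith).eq_or_lt with h | h
    · rw [h]
    · exact (tan_lt_tan_of_nonneg_of_lt_pi_div_two (by linarith) (by linarith) h).le
  have hcos : cos (ψ / 2) ^ 2 = 1 / (1 + tan (ψ / 2) ^ 2) := by
    rw [one_div]
    exact (inv_one_add_tan_sq hc.ne').symm
  have hsin : sin (ψ / 2) = tan (ψ / 2) * cos (ψ / 2) := (tan_mul_cos hc.ne').symm
  refine ⟨tan (ψ / 2), ht0, ht1, ?_, ?_, ?_⟩
  · have e : sin ψ = 2 * sin (ψ / 2) * cos (ψ / 2) := by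
      rw [← sin_two_mul]
      congr 1
      ring
    rw [e, hsin]
    calc 2 * (tan (ψ / 2) * cos (ψ / 2)) * cos (ψ / 2) = 2 * tan (ψ / 2) * cos (ψ / 2) ^ 2 := by
          ring
      _ = _ := by rw [hcos]; ring
  · have e : cos ψ = 2 * cos (ψ / 2) ^ 2 - 1 := by
      rw [← cos_two_mul]
      congr 1
      ring
    rw [e, hcos]
    have : 0 < 1 + tan (ψ / 2) ^ 2 := by positivity
    field_simp
    ring
  · have h2 := ptc_arctan ht0
    rw [arctan_tan (by linarith) (by linarith)] at h2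
    have e : 6 * tan (ψ / 2) / (3 + tan (ψ / 2) ^ 2) =
        2 * (3 * tan (ψ / 2) / (3 + tan (ψ / 2) ^ 2)) := by ring
    rw [e]
    linarith

/-- The lump on the right half line. -/
theorem ptc_lumpR {k ψ : ℝ} (hk : 3 / 10 ≤ k) (h0 : 0 ≤ ψ) (h1 : ψ ≤ π / 2)
    (hρ : k * exp (k * sin ψ) ≤ 173 / 100)
    (hη : ψ + k * exp (k * sin ψ) - k * cos ψ ≤ 2 * π / 3) (hy1 : k * sin ψ ≤ 1) :
    69 / 200 + (1 - k * sin ψ) ^ 2 / (4 * (39 / 100 * (exp 1 * k))) ≤
      (1 - k * sin ψ) * (2 * π - ψ) + 2 * (k * cos ψ) - exp 1 * k := by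
  have hk0 : 0 < k := by linarith
  have hs0 : 0 ≤ sin ψ := sin_nonneg_of_nonneg_of_le_pi h0 (by linarith [pi_pos])
  have hy0 : 0 ≤ k * sin ψ := by positivity
  have hk2 : k ≤ 7 / 4 := by
    have h2 : 1 ≤ exp (k * sin ψ) := one_le_exp hy0
    nlinarith
  obtain ⟨t, t0, t1, hs, hc, hψ⟩ := ptc_half h0 h1
  have hP := ptcP_nonneg hk hk2 t0 t1
  have hpl : (31415 / 10000 : ℝ) ≤ π := by
    have := pi_gt_d4
    norm_num at this ⊢
    linarith
  have hpu : π ≤ (31416 / 10000 : ℝ) := by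
    have := pi_lt_d4
    norm_num at this ⊢
    linarith
  have hel : (27182 / 10000 : ℝ) ≤ exp 1 := by
    have := exp_one_gt_d9
    norm_num at this ⊢
    linarith
  have heu : exp 1 ≤ (27183 / 10000 : ℝ) := by
    have := exp_one_lt_d9
    norm_num at this ⊢
    linarith
  -- exponential
  have hexp : 1 + k * sin ψ + (k * sin ψ) ^ 2 / 2 + (k * sin ψ) ^ 3 / 6 + (k * sin ψ) ^ 4 / 24 ≤
      exp (k * sin ψ) := by
    have h := sum_le_exp_of_nonneg hy0 5
    simp only [Finset.sum_range_succ, Finset.sum_range_zero, Nat.factorial] at h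
    norm_num at h
    linarith
  set y := k * sin ψ with hy
  -- the polynomial divided by `K (1+t²)⁴ (3+t²)`
  have hA : 0 < 1 + t ^ 2 := by positivity
  have hB : 0 < 3 + t ^ 2 := by positivity
  have eP : ptcP k t = (k * (1895 / 1000 + 3 / 5 * (6 * t / (3 + t ^ 2)) +
      y * (6 * t / (3 + t ^ 2)) - 2 * (31416 / 10000) * y + 2 / 5 * (k * cos ψ) -
      27183 / 10000 * k + 2 * k * (1 + y + y ^ 2 / 2 + y ^ 3 / 6 + y ^ 4 / 24)) -
      59 / 250 * (1 - y) ^ 2) * ((1 + t ^ 2) ^ 4 * (3 + t ^ 2)) := by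
    rw [hy, hs, hc]
    unfold ptcP
    field_simp
    ring
  have h2 : 0 ≤ k * (1895 / 1000 + 3 / 5 * (6 * t / (3 + t ^ 2)) +
      y * (6 * t / (3 + t ^ 2)) - 2 * (31416 / 10000) * y + 2 / 5 * (k * cos ψ) -
      27183 / 10000 * k + 2 * k * (1 + y + y ^ 2 / 2 + y ^ 3 / 6 + y ^ 4 / 24)) -
      59 / 250 * (1 - y) ^ 2 := by
    rw [eP] at hP
    exact nonneg_of_mul_nonneg_left hP (by positivity)
  have h3 : 59 / 250 * (1 - y) ^ 2 / k ≤ 1895 / 1000 + 3 / 5 * (6 * t / (3 + t ^ 2)) +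
      y * (6 * t / (3 + t ^ 2)) - 2 * (31416 / 10000) * y + 2 / 5 * (k * cos ψ) -
      27183 / 10000 * k + 2 * k * (1 + y + y ^ 2 / 2 + y ^ 3 / 6 + y ^ 4 / 24) := by
    rw [div_le_iff₀ hk0]
    linarith
  have h4 : (1 - y) ^ 2 / (4 * (39 / 100 * (exp 1 * k))) ≤ 59 / 250 * (1 - y) ^ 2 / k := by
    rw [div_le_div_iff₀ (by positivity) hk0]
    have h5 : 0 ≤ (1 - y) ^ 2 * k := by positivity
    have h6 : 0 ≤ (1 - y) ^ 2 * k * (exp 1 - 27182 / 10000) := mul_nonneg h5 (by linarith)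
    nlinarith
  have h7 := mul_le_mul_of_nonneg_left hψ hy0
  have h8 := mul_le_mul_of_nonneg_right hpu hy0
  have h9 := mul_le_mul_of_nonneg_right heu hk0.le
  have h10 := mul_le_mul_of_nonneg_left hexp hk0.le
  -- the two constraints, with multipliers 2/5 and 8/5
  linarith

end SokalF1B
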