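import Pool.Agent.Lib_MP_af4de1_f1.GLem

/-!
# Tails on `DD`, `ρ ≤ 1.73`: the left half line for `y ≤ 0`

`x = k cos χ`, `y = -(k sin χ)`, `0 ≤ χ ≤ π/2`, `k ≤ 3.49`, `n = k sin χ ≤ 7/10`, `v = |s|`:
`H = (α - n) v + x (1 - α) - e^(-α) k cos (v + χ)`, `α = min 1 (v/(1+x))`.
Hints for `ptc_Lneg`.  If `cos (v + χ) ≤ 0` and `α = v/(1+x)`:
`H ≥ v (v - x)/(1+x) + x - n v ≥ v/5`, i.e. `v² - v (x + (n + 1/5)(1+x)) + x (1 + x) ≥ 0` for `v ≥ 3/2`, `n ≤ 7/10`
(discriminant `-.39 x² - .58 x + .81`); if `α = 1`: `(1 - n) v`.  If `v + χ < π/2`: `cos ≤ cos (3/2) ≤ .071`,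
`n ≤ k χ ≤ .25`.
Hints for `ptc_Lneg_far`: `1 + x + χ ≤ 4.70 < 3π/2` (`x ≤ 2`: `χ ≤ π/2`; `x ≥ 2`: `χ ≤ tan χ = n/x`), so `α = 1`.
-/

set_option autoImplicit false

namespace SokalF1B

open Real SokalF1G

private theorem ga_neg_ptcb {x s : ℝ} (hx : 0 ≤ x) (hs : 0 ≤ s) : ga x (-s) = -min 1 (s / (1 + x)) := by
  unfold ga
  have h1 : 0 ≤ s / (1 + x) := by positivity
  have h2 : -s / (1 + x) = -(s / (1 + x)) := by ring
  rw [h2, min_eq_right (by linarith)]
  rcases le_total 1 (s / (1 + x)) with h | h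
  · rw [min_eq_left h, max_eq_left (by linarith)]
  · rw [min_eq_right h, max_eq_right (by linarith)]

private theorem hf_neg_ptcb {k χ s α : ℝ} (hx : 0 ≤ k * cos χ) (hs : 0 ≤ s)
    (hα : min 1 (s / (1 + k * cos χ)) = α) :
    Hf (k * cos χ) (-(k * sin χ)) (-s) =
      (α - k * sin χ) * s + k * cos χ * (1 - α) - exp (-α) * k * cos (s + χ) := by
  unfold Hf Ha
  rw [ga_neg_ptcb hx hs, hα, cos_neg, sin_neg, cos_add]
  ring

theorem ptc_Lneg {k χ s : ℝ} (hk : 0 ≤ k) (hk1 : k ≤ 349 / 100) (h0 : 0 ≤ χ) (h1 : χ ≤ π / 2)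
    (hn : k * sin χ ≤ 7 / 10) (hs : 3 / 2 ≤ s) (hsχ : s + χ ≤ 3 * π / 2) :
    s / 5 ≤ Hf (k * cos χ) (-(k * sin χ)) (-s) := by
  have hpi := pi_gt_d4
  have hpi2 := pi_lt_d4
  have hcos : 0 ≤ cos χ := cos_nonneg_of_neg_pi_div_two_le_of_le (by linarith) h1
  have hsin : 0 ≤ sin χ := sin_nonneg_of_nonneg_of_le_pi h0 (by linarith)
  have hx : 0 ≤ k * cos χ := mul_nonneg hk hcos
  have hn0 : 0 ≤ k * sin χ := mul_nonneg hk hsin
  have hs0 : 0 ≤ s := by linarith
  obtain ⟨α, hα⟩ : ∃ α, min 1 (s / (1 + k * cos χ)) = α := ⟨_, rfl⟩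
  rw [hf_neg_ptcb hx hs0 hα]
  generalize hX : k * cos χ = x at *
  generalize hN : k * sin χ = n at *
  have hx1 : 0 < 1 + x := by linarith
  rcases le_total (s + χ) (π / 2) with hc | hc
  · -- the cosine is positive
    have hχ : χ ≤ 708 / 10000 := by linarith
    have hsχ2 : sin χ ≤ 708 / 10000 := (sin_le h0).trans hχ
    have hn2 : n ≤ 349 / 100 * (708 / 10000) := by
      rw [← hN]
      exact mul_le_mul hk1 hsχ2 hsin (by norm_num)
    have hcc : cos (s + χ) ≤ 708 / 10000 := by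
      rw [← sin_pi_div_two_sub]
      refine (sin_le (by linarith)).trans (by linarith)
    have hcc0 : 0 ≤ cos (s + χ) := cos_nonneg_of_neg_pi_div_two_le_of_le (by linarith) hc
    have hα0 : 0 ≤ α := by
      rw [← hα]
      exact le_min zero_le_one (by positivity)
    have he : exp (-α) ≤ 1 := by
      rw [exp_le_one_iff]
      linarith
    have hterm : exp (-α) * k * cos (s + χ) ≤ 349 / 100 * (708 / 10000) := by
      have h2 : exp (-α) * k ≤ 1 * (349 / 100) := mul_le_mul he hk1 hk zero_le_one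
      rw [one_mul] at h2
      exact mul_le_mul h2 hcc hcc0 (by norm_num)
    have hs2 : s ≤ 1571 / 1000 := by linarith
    have hns : n * s ≤ 349 / 100 * (708 / 10000) * (1571 / 1000) := mul_le_mul hn2 hs2 hs0 (by norm_num)
    have hq : 1 ≤ α * s + x * (1 - α) := by
      rcases le_total 1 (s / (1 + x)) with h | h
      · rw [min_eq_left h] at hα
        rw [← hα]
        linarith
      · rw [min_eq_right h] at hα
        rw [← hα]
        have h2 : s / (1 + x) * s + x * (1 - s / (1 + x)) = (s ^ 2 + x * (1 + x - s)) / (1 + x) := by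
          field_simp
        rw [h2, le_div_iff₀ hx1]
        nlinarith [sq_nonneg (x - s / 2)]
    norm_num at hterm hns
    have h3 : (α - n) * s + x * (1 - α) = α * s + x * (1 - α) - n * s := by ring
    rw [h3]
    linarith
  · have hcc : cos (s + χ) ≤ 0 := cos_nonpos_of_pi_div_two_le_of_le hc (by linarith)
    have hterm : exp (-α) * k * cos (s + χ) ≤ 0 :=
      mul_nonpos_of_nonneg_of_nonpos (mul_nonneg (exp_pos _).le hk) hcc
    suffices h : s / 5 ≤ (α - n) * s + x * (1 - α) by linarith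
    rcases le_total 1 (s / (1 + x)) with h | h
    · rw [min_eq_left h] at hα
      rw [← hα]
      nlinarith [mul_nonneg (by linarith : 0 ≤ 7 / 10 - n) hs0]
    · rw [min_eq_right h] at hα
      rw [← hα]
      have h2 : (s / (1 + x) - n) * s + x * (1 - s / (1 + x)) =
          (s ^ 2 - n * s * (1 + x) + x * (1 + x - s)) / (1 + x) := by
        field_simp
      rw [h2, le_div_iff₀ hx1]
      have h3 : n * s * (1 + x) ≤ 7 / 10 * s * (1 + x) :=
        mul_le_mul_of_nonneg_right (mul_le_mul_of_nonneg_right hn hs0) hx1.le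
      suffices h4 : 0 ≤ s ^ 2 - s * (9 / 10 + 19 / 10 * x) + x + x ^ 2 by nlinarith
      rcases le_total x 1 with h5 | h5
      · have h6 : 0 ≤ s - 3 / 2 := by linarith
        nlinarith [mul_nonneg h6 h6, mul_nonneg h6 (by linarith : 0 ≤ 1 - x), sq_nonneg (x - 9 / 10)]
      · nlinarith [sq_nonneg (s - (19 / 20 * x + 9 / 20))]

theorem ptc_Lneg_far {k χ s : ℝ} (hk : 0 ≤ k) (hk1 : k ≤ 349 / 100) (h0 : 0 ≤ χ) (h1 : χ ≤ π / 2)
    (hn : k * sin χ ≤ 7 / 10) (hsχ : 3 * π / 2 ≤ s + χ) :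
    Hf (k * cos χ) (-(k * sin χ)) (-s) = (1 - k * sin χ) * s - exp (-1) * k * cos (s + χ) := by
  have hpi := pi_gt_d4
  have hpi2 := pi_lt_d4
  have hcos : 0 ≤ cos χ := cos_nonneg_of_neg_pi_div_two_le_of_le (by linarith) h1
  have hx : 0 ≤ k * cos χ := mul_nonneg hk hcos
  have hs0 : 0 ≤ s := by linarith
  have hxs : 1 + k * cos χ ≤ s := by
    rcases le_total (k * cos χ) 2 with h | h
    · linarith
    · have hcos1 : 0 < cos χ := by
        rcases hcos.lt_or_eq with h2 | h2
        · exact h2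
        · rw [← h2] at h
          norm_num at h
      have hχ2 : χ < π / 2 := by
        rcases h1.lt_or_eq with h2 | h2
        · exact h2
        · rw [h2, cos_pi_div_two] at hcos1
          exact absurd hcos1 (lt_irrefl _)
      have htan : χ * cos χ ≤ sin χ := by
        rcases h0.lt_or_eq with h2 | h2
        · have h3 := lt_tan h2 hχ2
          rw [tan_eq_sin_div_cos, lt_div_iff₀ hcos1] at h3
          exact h3.le
        · rw [← h2]
          simp
      have hxχ : k * cos χ * χ ≤ 7 / 10 := by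
        have h3 := mul_le_mul_of_nonneg_left htan hk
        linarith
      have hk2 : k * cos χ ≤ 349 / 100 := by
        have h3 := mul_le_mul_of_nonneg_left (cos_le_one χ) hk
        linarith
      generalize k * cos χ = x at *
      have h4 : x + χ ≤ 37 / 10 := by
        by_contra h5
        push Not at h5
        have h6 : 0 ≤ x - 2 := by linarith
        have h7 : 0 ≤ 349 / 100 - x := by linarith
        nlinarith [mul_nonneg h6 h7]
      linarith
  have hα : min 1 (s / (1 + k * cos χ)) = 1 := by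
    apply min_eq_left
    rw [le_div_iff₀ (by linarith)]
    linarith
  rw [hf_neg_ptcb hx hs0 hα]
  ring

end SokalF1B
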