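import Pool.Agent.Lib_MP_af4de1_f1.GLem

/-!
# Tails on `DD`, `ρ ≤ 1.73`: the two easy half lines (`H ≥ 2/5 |s|`)

Hints. `a = ga x s` is `± min 1 (|s|/(1+x))`.
Left, `0 ≤ y`: `H = α v + y v + x (1 - α) - e^(-α) (x cos v + y sin v)`, `v = |s|`; `cos v ≤ 71/1000` for
`3/2 ≤ v ≤ 3π/2`, and for `v ≥ 3π/2` one has `α = 1`.  Margins: `.966 v - 1.12`, `.6 v - .64`.
Right, `y = -n ≤ 0`: `H = (a+n) v + x (1+a) - e^a (x cos v + n sin v)`; for `v ≤ 3π/2`:
`H ≥ a v + n (v - e^a) + x (1 + a - (71/1000) e^a)`, with `v²/(1+x) + (1+x) ≥ 2 v` if `a = v/(1+x)`;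
for `v ≥ 3π/2 > 1 + x`: `a = 1`, `H ≥ v + n (v - e) - (e - 2) x`.
-/

set_option autoImplicit false

namespace SokalF1B

open Real SokalF1G

private theorem cosb {v : ℝ} (h0 : 3 / 2 ≤ v) (h1 : v ≤ 449 / 100) : cos v ≤ 86 / 1000 := by
  rcases le_total v π with hv | hv
  · have h2 : cos v ≤ cos (3 / 2) := Real.cos_le_cos_of_nonneg_of_le_pi (by norm_num) hv h0
    have h3 : cos (3 / 2) ≤ 1 - (3 / 2 : ℝ) ^ 2 / 2 + (3 / 2 : ℝ) ^ 4 / 24 := cos_le4 (by norm_num)
    norm_num at h3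
    linarith
  · have hπ := Real.pi_gt_d2
    have h2 : cos v ≤ 0 := Real.cos_nonpos_of_pi_div_two_le_of_le (by linarith) (by linarith)
    linarith

private theorem expc {a : ℝ} (h0 : 0 ≤ a) (h1 : a ≤ 1) : exp a ≤ 1 + 1719 / 1000 * a := by
  have h2 := convexOn_exp.2 (Set.mem_univ (1 : ℝ)) (Set.mem_univ (0 : ℝ)) h0 (sub_nonneg.2 h1)
    (by ring)
  simp only [smul_eq_mul, mul_one, mul_zero, add_zero, exp_zero] at h2
  have h3 := mul_le_mul_of_nonneg_left e1_hi h0
  linarith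

theorem ptc_Lpos {x y s : ℝ} (hx : 0 ≤ x) (hx1 : x ≤ 173 / 100) (hy : 0 ≤ y) (hy1 : y ≤ 18 / 25)
    (hs : 3 / 2 ≤ s) : 2 / 5 * s ≤ Hf x y (-s) := by
  obtain ⟨c, hc⟩ : ∃ c, c = 1 / (1 + x) := ⟨_, rfl⟩
  obtain ⟨k1, k2, k3⟩ := c_facts hx
  rw [← hc] at k1 k2 k3
  unfold Hf
  rcases le_total (c * s) 1 with hcs | hcs
  · rw [ga_mid hc (by linarith) (by nlinarith)]
    obtain ⟨a, ha⟩ : ∃ a, a = c * s := ⟨_, rfl⟩
    have ha0 : 0 ≤ a := by rw [ha]; exact mul_nonneg k1.le (by linarith)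
    have hs1 : a * (1 + x) = s := by
      have : c * (1 + x) = 1 := by linarith
      calc a * (1 + x) = (c * (1 + x)) * s := by rw [ha]; ring
        _ = s := by rw [this, one_mul]
    have hs2 : s ≤ 273 / 100 := by nlinarith
    have ha1 : 54 / 100 ≤ a := by nlinarith
    have h1 := cosb hs (by linarith)
    have h2 : exp (-a) ≤ 1 := Real.exp_le_one_iff.2 (by linarith)
    have h3 := exp_pos (-a)
    rw [show c * -s = -a by rw [ha]; ring]
    unfold Ha
    rw [cos_neg, sin_neg]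
    have h4 : exp (-a) * cos s ≤ 86 / 1000 := by
      calc exp (-a) * cos s ≤ exp (-a) * (86 / 1000) := mul_le_mul_of_nonneg_left h1 h3.le
        _ ≤ 1 * (86 / 1000) := mul_le_mul_of_nonneg_right h2 (by norm_num)
        _ = 86 / 1000 := one_mul _
    have h5 : exp (-a) * sin s ≤ 1 := by
      calc exp (-a) * sin s ≤ exp (-a) * 1 := mul_le_mul_of_nonneg_left (sin_le_one s) h3.le
        _ ≤ 1 := by rw [mul_one]; exact h2
    have h6 : x * (exp (-a) * cos s) ≤ x * (86 / 1000) := mul_le_mul_of_nonneg_left h4 hx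
    have h7 : 0 ≤ y * (s - exp (-a) * sin s) := mul_nonneg hy (by linarith)
    have h8 : 0 ≤ x * (1 - a) := mul_nonneg hx (by linarith)
    have h9 : (54 / 100 - 2 / 5) * (3 / 2) ≤ (a - 2 / 5) * s :=
      mul_le_mul (by linarith) hs (by norm_num) (by linarith)
    linarith
  · rw [ga_lo hc (by linarith)]
    unfold Ha
    rw [cos_neg, sin_neg]
    have h2 := em1_hi
    have h3 := exp_pos (-1 : ℝ)
    have h5 : exp (-1) * sin s ≤ 1 := by
      calc exp (-1) * sin s ≤ exp (-1) * 1 := mul_le_mul_of_nonneg_left (sin_le_one s) h3.le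
        _ ≤ 1 := by linarith
    have h7 : 0 ≤ y * (s - exp (-1) * sin s) := mul_nonneg hy (by linarith)
    have h4 : exp (-1) * cos s ≤ 3679 / 10000 := by
      calc exp (-1) * cos s ≤ exp (-1) * 1 := mul_le_mul_of_nonneg_left (cos_le_one s) h3.le
        _ ≤ _ := by linarith
    have h6 : x * (exp (-1) * cos s) ≤ x * (3679 / 10000) := mul_le_mul_of_nonneg_left h4 hx
    linarith

theorem ptc_Rneg {x y s : ℝ} (hx : 0 ≤ x) (hx1 : x ≤ 349 / 100) (hy : -(7 / 10) ≤ y) (hy1 : y ≤ 0)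
    (hs : 3 / 2 ≤ s) : 2 / 5 * s ≤ Hf x y s := by
  obtain ⟨c, hc⟩ : ∃ c, c = 1 / (1 + x) := ⟨_, rfl⟩
  obtain ⟨k1, k2, k3⟩ := c_facts hx
  rw [← hc] at k1 k2 k3
  obtain ⟨n, hn⟩ : ∃ n, n = -y := ⟨_, rfl⟩
  have hn0 : 0 ≤ n := by linarith
  have hn1 : n ≤ 7 / 10 := by linarith
  have hyn : y = -n := by linarith
  unfold Hf
  rcases le_total (c * s) 1 with hcs | hcs
  · have hcs0 : 0 ≤ c * s := mul_nonneg k1.le (by linarith)
    rw [ga_mid hc (by linarith) hcs]
    obtain ⟨a, ha⟩ : ∃ a, a = c * s := ⟨_, rfl⟩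
    rw [← ha] at hcs hcs0 ⊢
    have hs1 : a * (1 + x) = s := by
      have : c * (1 + x) = 1 := by linarith
      calc a * (1 + x) = (c * (1 + x)) * s := by rw [ha]; ring
        _ = s := by rw [this, one_mul]
    have hs2 : s ≤ 449 / 100 := by nlinarith
    have h1 := cosb hs hs2
    have h2 := expc hcs0 hcs
    have h2' : exp a ≤ 2719 / 1000 := by linarith
    have h3 := exp_pos a
    unfold Ha
    rw [hyn]
    have h4 : exp a * cos s ≤ 86 / 1000 * (1 + 1719 / 1000 * a) := by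
      calc exp a * cos s ≤ exp a * (86 / 1000) := mul_le_mul_of_nonneg_left h1 h3.le
        _ ≤ _ := by linarith
    have h5 : exp a * sin s ≤ 2719 / 1000 := by
      calc exp a * sin s ≤ exp a * 1 := mul_le_mul_of_nonneg_left (sin_le_one s) h3.le
        _ ≤ _ := by linarith
    have h6 := mul_le_mul_of_nonneg_left h4 hx
    have h7 := mul_le_mul_of_nonneg_left h5 hn0
    have h8 : 0 ≤ (1 + x) * (a - 1) ^ 2 := by positivity
    have h9 : 0 ≤ x * a := mul_nonneg hx hcs0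
    have h10 : n * (3 / 2) ≤ n * s := mul_le_mul_of_nonneg_left hs hn0
    have h11 : a * s = (1 + x) * (a - 1) ^ 2 + 2 * s - (1 + x) := by
      rw [← hs1]
      ring
    linarith
  · rw [ga_hi hc hcs]
    have hs1 : 1 + x ≤ s := by
      have h1 : c * (1 + x) = 1 := by linarith
      nlinarith
    unfold Ha
    rw [hyn]
    have h2 := e1_hi
    have h2' := e1_lo
    have h3 := exp_pos (1 : ℝ)
    have h5 : exp 1 * sin s ≤ 2719 / 1000 := by
      calc exp 1 * sin s ≤ exp 1 * 1 := mul_le_mul_of_nonneg_left (sin_le_one s) h3.le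
        _ ≤ _ := by linarith
    have h7 := mul_le_mul_of_nonneg_left h5 hn0
    rcases le_total s 3 with h30 | h30
    · have h1 := cosb hs (by linarith)
      have h4 : exp 1 * cos s ≤ 1 := by
        calc exp 1 * cos s ≤ exp 1 * (86 / 1000) := mul_le_mul_of_nonneg_left h1 h3.le
          _ ≤ _ := by linarith
      have h6 := mul_le_mul_of_nonneg_left h4 hx
      have h10 : n * (3 / 2) ≤ n * s := mul_le_mul_of_nonneg_left hs hn0
      linarith
    · have h4 : exp 1 * cos s ≤ 2719 / 1000 := by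
        calc exp 1 * cos s ≤ exp 1 * 1 := mul_le_mul_of_nonneg_left (cos_le_one s) h3.le
          _ ≤ _ := by linarith
      have h6 := mul_le_mul_of_nonneg_left h4 hx
      have h10 : n * 3 ≤ n * s := mul_le_mul_of_nonneg_left h30 hn0
      linarith

end SokalF1B
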