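import Pool.Agent.Lib_MP_af4de1_f1.PolBox

/-!
# Certificate for the lump on the right half line, `0 ≤ y`
-/

set_option autoImplicit false

namespace SokalF1B
open SokalPB

/-- The polynomial: `K (1+t²)⁴ (3+t²)` times (Lagrangian - loss - 69/200), `t = tan (ψ/2)`. -/
noncomputable def ptcP (K t : ℝ) : ℝ :=
  K * (1895 / 1000 * ((1 + t ^ 2) ^ 4 * (3 + t ^ 2))) + K * (18 / 5 * t * (1 + t ^ 2) ^ 4) +
  K ^ 2 * (12 * t ^ 2 * (1 + t ^ 2) ^ 3) -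
  K ^ 2 * (4 * (31416 / 10000) * t * (1 + t ^ 2) ^ 3 * (3 + t ^ 2)) +
  K ^ 2 * (2 / 5 * (1 - t ^ 2) * (1 + t ^ 2) ^ 3 * (3 + t ^ 2)) -
  K ^ 2 * (27183 / 10000 * ((1 + t ^ 2) ^ 4 * (3 + t ^ 2))) +
  2 * K ^ 2 * (((1 + t ^ 2) ^ 4 + 2 * K * t * (1 + t ^ 2) ^ 3 +
    (2 * K * t) ^ 2 * (1 + t ^ 2) ^ 2 / 2 + (2 * K * t) ^ 3 * (1 + t ^ 2) / 6 +
    (2 * K * t) ^ 4 / 24) * (3 + t ^ 2)) -
  59 / 250 * ((1 + t ^ 2 - 2 * K * t) ^ 2 * (1 + t ^ 2) ^ 2 * (3 + t ^ 2))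

private def w1 : E := .add (.c 1) (.pow .Y 2)
private def w3 : E := .add (.c 3) (.pow .Y 2)
private def q (a : ℤ) (b : ℕ) : E := .dv (.c a) b
private def kt : E := .mul (.mul (.c 2) .X) .Y

private def ptcE : E :=
  .sub (.add (.sub (.add (.sub (.add (.add (.mul .X (.mul (q 1895 1000) (.mul (.pow w1 4) w3)))
    (.mul .X (.mul (.mul (q 18 5) .Y) (.pow w1 4))))
    (.mul (.pow .X 2) (.mul (.mul (.c 12) (.pow .Y 2)) (.pow w1 3))))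
    (.mul (.pow .X 2) (.mul (.mul (.mul (.mul (.c 4) (q 31416 10000)) .Y) (.pow w1 3)) w3)))
    (.mul (.pow .X 2) (.mul (.mul (.mul (q 2 5) (.sub (.c 1) (.pow .Y 2))) (.pow w1 3)) w3)))
    (.mul (.pow .X 2) (.mul (q 27183 10000) (.mul (.pow w1 4) w3))))
    (.mul (.mul (.c 2) (.pow .X 2)) (.mul (.add (.add (.add (.add (.pow w1 4)
      (.mul kt (.pow w1 3))) (.dv (.mul (.pow kt 2) (.pow w1 2)) 2))
      (.dv (.mul (.pow kt 3) w1) 6)) (.dv (.pow kt 4) 24)) w3)))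
    (.mul (q 59 250) (.mul (.mul (.pow (.sub w1 kt) 2) (.pow w1 2)) w3))

private theorem ptcE_eval (K t : ℝ) : ptcE.eval K t = ptcP K t := by
  unfold ptcP ptcE w1 w3 q kt
  simp only [E.eval]
  push_cast
  rfl

private theorem ptcE_run : runQ ptcE.toQ 6 30 176 100 0 101 100 = true := by decide +kernel

theorem ptcP_nonneg {K t : ℝ} (h1 : 3 / 10 ≤ K) (h2 : K ≤ 7 / 4) (h3 : 0 ≤ t) (h4 : t ≤ 1) :
    0 ≤ ptcP K t := by
  rw [← ptcE_eval]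
  refine ptcE.nonneg 6 (by norm_num) (by norm_num) ptcE_run ?_ ?_ ?_ ?_ <;> push_cast <;> linarith

end SokalF1B
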