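import Pool.Agent.Lib_MP_af4de1_f1.PtcD

/-!
# Tails on `DD`: integral of one half line, for a function which is dominated
-/

set_option autoImplicit false

namespace SokalF1B

open MeasureTheory Set Real

private theorem ptcD_int' {b : ℝ} (hb : 0 < b) (s : ℝ) :
    IntegrableOn (fun v => exp (-b * v)) (Ioi s) ∧ ∫ v in Ioi s, exp (-b * v) = exp (-(s * b)) / b := by
  refine ⟨integrableOn_exp_mul_Ioi (by linarith) s, ?_⟩
  rw [integral_exp_mul_Ioi (by linarith) s, neg_div_neg_eq]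
  congr 2
  ring

theorem ptc_int_crude' {H g : ℝ → ℝ} {C δ c0 : ℝ} (hC0 : 0 ≤ C) (hg0 : ∀ v, 0 ≤ g v)
    (hg : ∀ v, 3 / 2 ≤ v → g v ≤ C * exp (3 / 10 * v - H v / δ)) (hδ : 0 < δ)
    (hc : 3 / 10 * δ < c0) (h : ∀ v, 3 / 2 ≤ v → c0 * v ≤ H v) :
    ∫ v in Ioi (3 / 2 : ℝ), g v ≤
      C * (exp (-(3 / 2 * (c0 / δ - 3 / 10))) / (c0 / δ - 3 / 10)) := by
  have hb : 0 < c0 / δ - 3 / 10 := by
    rw [sub_pos, lt_div_iff₀ hδ]
    exact hc
  obtain ⟨h1, h2⟩ := ptcD_int' hb (3 / 2)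
  rw [← h2, ← integral_const_mul]
  refine integral_mono_of_nonneg (Filter.Eventually.of_forall hg0) (h1.const_mul C) ?_
  filter_upwards [ae_restrict_mem measurableSet_Ioi] with v hv
  rw [mem_Ioi] at hv
  refine (hg v hv.le).trans (mul_le_mul_of_nonneg_left (exp_le_exp.2 ?_) hC0)
  have h3 : c0 / δ * v ≤ H v / δ := by
    rw [div_mul_eq_mul_div]
    exact div_le_div_of_nonneg_right (h v hv.le) hδ.le
  linarith

/-- The same with one lump with centre `v0 ≤ 2 π`: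
`H(v) ≥ c₀ v` for `v ≤ v0 - π/2`, `H(v) ≥ f - A (v0 - v) + c (v0 - v)²` for `v0 - π/2 ≤ v ≤ v0`,
`H(v) ≥ f + A (v - v0)` for `v ≥ v0`. -/
theorem ptc_int_lump' {H g : ℝ → ℝ} {C δ c0 v0 f A c : ℝ} (hC0 : 0 ≤ C) (hg0 : ∀ v, 0 ≤ g v)
    (hg : ∀ v, 3 / 2 ≤ v → g v ≤ C * exp (3 / 10 * v - H v / δ)) (hδ : 0 < δ) (hc0 : 3 / 10 * δ < c0)
    (hA : 3 / 10 * δ < A) (hc : 0 < c) (hv0 : v0 ≤ 2 * π) (hv1 : 3 / 2 ≤ v0)
    (h1 : ∀ v, 3 / 2 ≤ v → v ≤ v0 - π / 2 → c0 * v ≤ H v)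
    (h2 : ∀ v, v0 - π / 2 ≤ v → v ≤ v0 → f - A * (v0 - v) + c * (v0 - v) ^ 2 ≤ H v)
    (h3 : ∀ v, v0 ≤ v → f + A * (v - v0) ≤ H v) :
    ∫ v in Ioi (3 / 2 : ℝ), g v ≤
      C * (exp (-(3 / 2 * (c0 / δ - 3 / 10))) / (c0 / δ - 3 / 10) +
      exp (3 / 5 * π) * (exp (-((f - A ^ 2 / (4 * c)) / δ)) * √(π * δ / c) +
        exp (-(f / δ)) / (A / δ - 3 / 10))) := by
  have hb : 0 < c0 / δ - 3 / 10 := by
    rw [sub_pos, lt_div_iff₀ hδ]
    exact hc0
  have hb' : 0 < A / δ - 3 / 10 := by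
    rw [sub_pos, lt_div_iff₀ hδ]
    exact hA
  have hcδ : 0 < c / δ := div_pos hc hδ
  obtain ⟨hg1, hg1'⟩ := ptcD_int' hb (3 / 2)
  obtain ⟨hg3, hg3'⟩ := ptcD_int' hb' v0
  -- the Gaussian part
  obtain ⟨C2, hC2⟩ : ∃ C2 : ℝ, C2 = exp (3 / 5 * π) * exp (-((f - A ^ 2 / (4 * c)) / δ)) := ⟨_, rfl⟩
  obtain ⟨C3, hC3⟩ : ∃ C3 : ℝ, C3 = exp (3 / 5 * π) * exp (-(f / δ)) * exp (v0 * (A / δ - 3 / 10)) :=
    ⟨_, rfl⟩
  have hC20 : 0 < C2 := by rw [hC2]; positivity
  have hC30 : 0 < C3 := by rw [hC3]; positivity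
  have hG : Integrable (fun v => C2 * exp (-(c / δ) * (v + (A / (2 * c) - v0)) ^ 2)) :=
    ((integrable_exp_neg_mul_sq hcδ).comp_add_right (A / (2 * c) - v0)).const_mul C2
  have hG' : ∫ v, C2 * exp (-(c / δ) * (v + (A / (2 * c) - v0)) ^ 2) = C2 * √(π * δ / c) := by
    rw [integral_const_mul, integral_add_right_eq_self (fun v => exp (-(c / δ) * v ^ 2)),
      integral_gaussian]
    congr 2
    field_simp
  have hG0 : ∀ v, 0 ≤ C2 * exp (-(c / δ) * (v + (A / (2 * c) - v0)) ^ 2) := fun v => by positivity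
  -- the last part
  have hE : Integrable ((Ioi v0).indicator (fun v => C3 * exp (-(A / δ - 3 / 10) * v))) :=
    (integrable_indicator_iff measurableSet_Ioi).2 (hg3.const_mul C3)
  have hE' : ∫ v, (Ioi v0).indicator (fun v => C3 * exp (-(A / δ - 3 / 10) * v)) v =
      exp (3 / 5 * π) * (exp (-(f / δ)) / (A / δ - 3 / 10)) := by
    rw [integral_indicator measurableSet_Ioi, integral_const_mul, hg3', hC3]
    have e1 : exp (v0 * (A / δ - 3 / 10)) * exp (-(v0 * (A / δ - 3 / 10))) = 1 := by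
      rw [← exp_add, add_neg_cancel, exp_zero]
    calc exp (3 / 5 * π) * exp (-(f / δ)) * exp (v0 * (A / δ - 3 / 10)) *
          (exp (-(v0 * (A / δ - 3 / 10))) / (A / δ - 3 / 10))
        = exp (3 / 5 * π) * (exp (-(f / δ)) / (A / δ - 3 / 10)) *
          (exp (v0 * (A / δ - 3 / 10)) * exp (-(v0 * (A / δ - 3 / 10)))) := by ring
      _ = _ := by rw [e1, mul_one]
  have hE0 : ∀ v, 0 ≤ (Ioi v0).indicator (fun v => C3 * exp (-(A / δ - 3 / 10) * v)) v :=
    fun v => indicator_nonneg (fun v _ => by positivity) v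
  -- domination
  have hdom : ∫ v in Ioi (3 / 2 : ℝ), g v ≤
      ∫ v in Ioi (3 / 2 : ℝ), C * (exp (-(c0 / δ - 3 / 10) * v) +
        (C2 * exp (-(c / δ) * (v + (A / (2 * c) - v0)) ^ 2) +
          (Ioi v0).indicator (fun v => C3 * exp (-(A / δ - 3 / 10) * v)) v)) := by
    refine integral_mono_of_nonneg (Filter.Eventually.of_forall hg0)
      ((hg1.add (hG.integrableOn.add hE.integrableOn)).const_mul C) ?_
    filter_upwards [ae_restrict_mem measurableSet_Ioi] with v hv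
    rw [mem_Ioi] at hv
    refine (hg v hv.le).trans (mul_le_mul_of_nonneg_left ?_ hC0)
    have k1 : 0 ≤ exp (-(c0 / δ - 3 / 10) * v) := (exp_pos _).le
    have k2 := hG0 v
    have k3 := hE0 v
    rcases le_or_gt v (v0 - π / 2) with hv1 | hv1
    · have k4 : exp (3 / 10 * v - H v / δ) ≤ exp (-(c0 / δ - 3 / 10) * v) := by
        refine exp_le_exp.2 ?_
        have k5 : c0 / δ * v ≤ H v / δ := by
          rw [div_mul_eq_mul_div]
          exact div_le_div_of_nonneg_right (h1 v hv.le hv1) hδ.le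
        linarith
      linarith
    · rcases le_or_gt v v0 with hv2 | hv2
      · have k4 : exp (3 / 10 * v - H v / δ) ≤
            C2 * exp (-(c / δ) * (v + (A / (2 * c) - v0)) ^ 2) := by
          rw [hC2, ← exp_add, ← exp_add]
          refine exp_le_exp.2 ?_
          have k5 : (f - A * (v0 - v) + c * (v0 - v) ^ 2) / δ ≤ H v / δ :=
            div_le_div_of_nonneg_right (h2 v hv1.le hv2) hδ.le
          have k6 : (f - A * (v0 - v) + c * (v0 - v) ^ 2) / δ =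
              (f - A ^ 2 / (4 * c)) / δ + c / δ * (v + (A / (2 * c) - v0)) ^ 2 := by
            field_simp
            ring
          rw [k6] at k5
          linarith
        linarith
      · have k4 : exp (3 / 10 * v - H v / δ) ≤
            (Ioi v0).indicator (fun v => C3 * exp (-(A / δ - 3 / 10) * v)) v := by
          rw [indicator_of_mem (mem_Ioi.2 hv2)]
          rw [hC3, ← exp_add, ← exp_add, ← exp_add]
          refine exp_le_exp.2 ?_
          have k5 : (f + A * (v - v0)) / δ ≤ H v / δ :=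
            div_le_div_of_nonneg_right (h3 v hv2.le) hδ.le
          have k6 : (f + A * (v - v0)) / δ = f / δ + A / δ * (v - v0) := by
            field_simp
          rw [k6] at k5
          nlinarith
        linarith
  refine hdom.trans ?_
  rw [integral_const_mul]
  refine mul_le_mul_of_nonneg_left ?_ hC0
  have hsplit : ∫ v in Ioi (3 / 2 : ℝ), (exp (-(c0 / δ - 3 / 10) * v) +
        (C2 * exp (-(c / δ) * (v + (A / (2 * c) - v0)) ^ 2) +
          (Ioi v0).indicator (fun v => C3 * exp (-(A / δ - 3 / 10) * v)) v)) =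
      (∫ v in Ioi (3 / 2 : ℝ), exp (-(c0 / δ - 3 / 10) * v)) +
        ((∫ v in Ioi (3 / 2 : ℝ), C2 * exp (-(c / δ) * (v + (A / (2 * c) - v0)) ^ 2)) +
          ∫ v in Ioi (3 / 2 : ℝ),
            (Ioi v0).indicator (fun v => C3 * exp (-(A / δ - 3 / 10) * v)) v) := by
    refine (integral_add hg1 (hG.integrableOn.add hE.integrableOn)).trans ?_
    congr 1
    exact integral_add hG.integrableOn hE.integrableOn
  rw [hsplit, hg1']
  have k1 : ∫ v in Ioi (3 / 2 : ℝ), C2 * exp (-(c / δ) * (v + (A / (2 * c) - v0)) ^ 2) ≤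
      C2 * √(π * δ / c) := by
    rw [← hG']
    exact setIntegral_le_integral hG (Filter.Eventually.of_forall hG0)
  have k2 : ∫ v in Ioi (3 / 2 : ℝ), (Ioi v0).indicator
      (fun v => C3 * exp (-(A / δ - 3 / 10) * v)) v ≤
      exp (3 / 5 * π) * (exp (-(f / δ)) / (A / δ - 3 / 10)) := by
    rw [← hE']
    exact setIntegral_le_integral hE (Filter.Eventually.of_forall hE0)
  have k3 : exp (3 / 5 * π) * (exp (-((f - A ^ 2 / (4 * c)) / δ)) * √(π * δ / c) +
        exp (-(f / δ)) / (A / δ - 3 / 10)) =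
      C2 * √(π * δ / c) +
      exp (3 / 5 * π) * (exp (-(f / δ)) / (A / δ - 3 / 10)) := by
    rw [hC2]
    ring
  rw [k3]
  linarith


end SokalF1B
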