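import Pool.Agent.Lib_MP_af4de1_f1.PtcA
import Pool.Agent.Lib_MP_af4de1_f1.PtcB
import Pool.Agent.Lib_MP_af4de1_f1.PtcC

/-!
# Tails on `DD`: heights on the right half line for `0 ≤ y`, lump on the left half line for `y ≤ 0`
-/

set_option autoImplicit false

namespace SokalF1B

open Real SokalF1G

theorem ptc_Ha_polar (k ψ a s : ℝ) : Ha (k * cos ψ) (k * sin ψ) a s =
    (a - k * sin ψ) * s + k * cos ψ * (1 + a) - exp a * (k * cos (s + ψ)) := by
  unfold Ha
  rw [cos_add]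
  ring

theorem ptc_cos_small {φ : ℝ} (h : 3 / 2 ≤ φ) (h1 : φ ≤ π) : cos φ ≤ 71 / 1000 := by
  rcases le_total φ (π / 2) with h2 | h2
  · have h3 : cos φ = sin (π / 2 - φ) := (sin_pi_div_two_sub φ).symm
    have h4 : sin (π / 2 - φ) ≤ π / 2 - φ := sin_le (by linarith)
    have h5 := pi_lt_d4
    norm_num at h5
    linarith
  · have h3 : cos φ ≤ 0 := cos_nonpos_of_pi_div_two_le_of_le h2 (by linarith [pi_pos])
    linarith

theorem ptc_ga_one {x s : ℝ} (hx : 0 ≤ x) (h : 1 + x ≤ s) : ga x s = 1 := by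
  refine ga_hi (c := 1 / (1 + x)) rfl ?_
  rw [one_div, inv_mul_eq_div, le_div_iff₀ (by linarith)]
  linarith

theorem ptc_ga_mid {x s : ℝ} (hx : 0 ≤ x) (h0 : 0 ≤ s) (h : s ≤ 1 + x) :
    ga x s = s / (1 + x) := by
  have hp : 0 < 1 + x := by linarith
  rw [ga_mid (c := 1 / (1 + x)) rfl (by
    have : 0 ≤ 1 / (1 + x) * s := by positivity
    linarith) (by
    rw [one_div, inv_mul_eq_div, div_le_one hp]
    exact h)]
  ring

/-- the height on the right half line, `0 ≤ y`, before the lump -/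
theorem ptc_Rpos {k ψ s : ℝ} (hk : 0 ≤ k) (hk1 : k ≤ 173 / 100) (h0 : 0 ≤ ψ) (h1 : ψ ≤ π / 2)
    (hn : k * sin ψ ≤ 18 / 25) (hs : 3 / 2 ≤ s) (hsψ : s + ψ ≤ 3 * π / 2) :
    7 / 25 * s ≤ Hf (k * cos ψ) (k * sin ψ) s := by
  have hπ := pi_pos
  have hπl : (3.1415 : ℝ) < π := pi_gt_d4
  have hπu : π < 3.1416 := pi_lt_d4
  have hc0 : 0 ≤ cos ψ := cos_nonneg_of_mem_Icc ⟨by linarith, h1⟩
  have hs0 : 0 ≤ sin ψ := sin_nonneg_of_nonneg_of_le_pi h0 (by linarith)
  have hx : 0 ≤ k * cos ψ := by positivity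
  have hy : 0 ≤ k * sin ψ := by positivity
  unfold Hf
  -- first part: `a s + x (1 + a) ≥ s`
  have key : s ≤ ga (k * cos ψ) s * s + k * cos ψ * (1 + ga (k * cos ψ) s) ∧
      0 ≤ ga (k * cos ψ) s ∧ ga (k * cos ψ) s ≤ 1 := by
    rcases le_total (1 + k * cos ψ) s with h | h
    · rw [ptc_ga_one hx h]
      refine ⟨?_, by norm_num, le_rfl⟩
      nlinarith
    · rw [ptc_ga_mid hx (by linarith) h]
      have hp : 0 < 1 + k * cos ψ := by linarith
      refine ⟨?_, by positivity, ?_⟩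
      · obtain ⟨x, hxe⟩ : ∃ x, x = k * cos ψ := ⟨_, rfl⟩
        rw [← hxe] at h hp ⊢
        have e : s / (1 + x) * s + x * (1 + s / (1 + x)) - s = (s ^ 2 + x * (1 + x) - s) / (1 + x) := by
          field_simp
          ring
        have h2 : 0 ≤ (s ^ 2 + x * (1 + x) - s) / (1 + x) := by
          refine div_nonneg ?_ hp.le
          nlinarith
        linarith
      · rw [div_le_one hp]
        exact h
  obtain ⟨key1, a0, a1⟩ := key
  rw [ptc_Ha_polar]
  have hE : exp (ga (k * cos ψ) s) ≤ 2719 / 1000 := by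
    refine (exp_le_exp.2 a1).trans ?_
    exact e1_hi
  have hE0 := exp_pos (ga (k * cos ψ) s)
  rcases le_total (π / 2) (s + ψ) with h | h
  · have hcn : cos (s + ψ) ≤ 0 := cos_nonpos_of_pi_div_two_le_of_le h (by linarith)
    have h2 : exp (ga (k * cos ψ) s) * (k * cos (s + ψ)) ≤ 0 :=
      mul_nonpos_of_nonneg_of_nonpos hE0.le (mul_nonpos_of_nonneg_of_nonpos hk hcn)
    have h3 : k * sin ψ * s ≤ 18 / 25 * s := mul_le_mul_of_nonneg_right hn (by linarith)
    linarith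
  · have hψ : ψ ≤ 71 / 1000 := by
      have : (3.1416 : ℝ) / 2 - 3 / 2 ≤ 71 / 1000 := by norm_num
      linarith
    have hsin : sin ψ ≤ 71 / 1000 := (sin_le h0).trans hψ
    have hc1 := ptc_cos_small (φ := s + ψ) (by linarith) (by linarith)
    have hc2 : 0 ≤ cos (s + ψ) := cos_nonneg_of_mem_Icc ⟨by linarith, h⟩
    have h2 : exp (ga (k * cos ψ) s) * (k * cos (s + ψ)) ≤ 2719 / 1000 * (173 / 100 * (71 / 1000)) := by
      gcongr
    have h3 : k * sin ψ ≤ 173 / 100 * (71 / 1000) := by gcongr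
    have h4 : k * sin ψ * s ≤ 173 / 100 * (71 / 1000) * s := mul_le_mul_of_nonneg_right h3 (by linarith)
    norm_num at h2 h4
    linarith

/-- the height on the right half line, `0 ≤ y`, at the lump -/
theorem ptc_Rpos_far {k ψ s : ℝ} (hk : 0 ≤ k) (hk1 : k ≤ 173 / 100) (h0 : 0 ≤ ψ) (h1 : ψ ≤ π / 2)
    (hsψ : 3 * π / 2 ≤ s + ψ) :
    Hf (k * cos ψ) (k * sin ψ) s =
      (1 - k * sin ψ) * s + 2 * (k * cos ψ) - exp 1 * k * cos (s + ψ) := by
  have hπ := pi_pos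
  have hπl : (3.1415 : ℝ) < π := pi_gt_d4
  have hc0 : 0 ≤ cos ψ := cos_nonneg_of_mem_Icc ⟨by linarith, h1⟩
  have hx : 0 ≤ k * cos ψ := by positivity
  have hx1 : k * cos ψ ≤ 173 / 100 := by
    have := cos_le_one ψ
    nlinarith
  have hs : 1 + k * cos ψ ≤ s := by
    norm_num at hπl
    linarith
  unfold Hf
  rw [ptc_Ha_polar, ptc_ga_one hx hs]
  ring

/-- `cos u ≤ 1 - 39/100 u²` for `0 ≤ u ≤ π/2` -/
theorem ptc_cos_quad {u : ℝ} (h0 : 0 ≤ u) (h1 : u ≤ π / 2) : cos u ≤ 1 - 39 / 100 * u ^ 2 := by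
  have h2 := cos_le4 h0
  have hπu : π < 3.1416 := pi_lt_d4
  have h3 : u ^ 2 ≤ 264 / 100 := by
    norm_num at hπu
    nlinarith
  nlinarith [mul_nonneg (sq_nonneg u) (sub_nonneg.2 h3)]

theorem ptc_exp_chord {n : ℝ} (h0 : 0 ≤ n) (h1 : n ≤ 7 / 10) : exp n ≤ 1 + 1449 / 1000 * n := by
  have h7 : exp (7 / 10) ≤ 20143 / 10000 := by
    have h2 : exp (7 / 10) ^ 10 = exp 1 ^ 7 := by
      rw [← exp_nat_mul, ← exp_nat_mul]
      norm_num
    have h3 : exp 1 ^ 7 ≤ (27182818286 / 10000000000 : ℝ) ^ 7 := by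
      have h0' : exp 1 ≤ (27182818286 / 10000000000 : ℝ) := by
        have := exp_one_lt_d9
        norm_num at this ⊢
        exact this.le
      exact pow_le_pow_left₀ (exp_pos 1).le h0' 7
    by_contra h4
    push Not at h4
    have h5 : (20143 / 10000 : ℝ) ^ 10 < exp (7 / 10) ^ 10 :=
      pow_lt_pow_left₀ h4 (by norm_num) (by norm_num)
    rw [h2] at h5
    have h6 := h5.trans_le h3
    norm_num at h6
  have h2 := convexOn_exp.2 (Set.mem_univ 0) (Set.mem_univ (7 / 10))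
    (show 0 ≤ 1 - 10 / 7 * n by linarith) (show 0 ≤ 10 / 7 * n by linarith) (by ring)
  simp only [smul_eq_mul, mul_zero, zero_add, exp_zero, mul_one] at h2
  have e : 10 / 7 * n * (7 / 10) = n := by ring
  rw [e] at h2
  have h3 := mul_le_mul_of_nonneg_left h7 (show 0 ≤ 10 / 7 * n by linarith)
  linarith

/-- The lump on the left half line, `y = -n ≤ 0`. -/
theorem ptc_lumpL {k χ : ℝ} (hk : 4 / 5 ≤ k) (h0 : 0 ≤ χ) (h1 : χ ≤ π / 2)
    (hn : k * sin χ ≤ 7 / 10) (hρ : k ≤ 173 / 100 * exp (k * sin χ)) :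
    43 / 100 + (1 - k * sin χ) ^ 2 / (4 * (39 / 100 * (exp (-1) * k))) ≤
      (1 - k * sin χ) * (2 * π - χ) - exp (-1) * k := by
  have hπ := pi_pos
  have hk0 : 0 < k := by linarith
  have hs0 : 0 ≤ sin χ := sin_nonneg_of_nonneg_of_le_pi h0 (by linarith)
  have hn0 : 0 ≤ k * sin χ := by positivity
  have hpl : (31415 / 10000 : ℝ) ≤ π := by
    have := pi_gt_d4
    norm_num at this ⊢
    linarith
  have hpu : π ≤ (31416 / 10000 : ℝ) := by
    have := pi_lt_d4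
    norm_num at this ⊢
    linarith
  have hj : 2 / π * χ ≤ sin χ := mul_le_sin h0 h1
  have hj2 : χ ≤ π / 2 * sin χ := by
    have h2 := mul_le_mul_of_nonneg_left hj (show 0 ≤ π / 2 by positivity)
    have e : π / 2 * (2 / π * χ) = χ := by field_simp
    linarith
  have hj3 : k * χ ≤ 15708 / 10000 * (k * sin χ) := by
    have h2 := mul_le_mul_of_nonneg_left hj2 hk0.le
    have h3 : k * (π / 2 * sin χ) = π / 2 * (k * sin χ) := by ring
    have h4 : π / 2 * (k * sin χ) ≤ 15708 / 10000 * (k * sin χ) :=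
      mul_le_mul_of_nonneg_right (by linarith) hn0
    linarith
  have hch := ptc_exp_chord hn0 hn
  obtain ⟨n, hne⟩ : ∃ n, n = k * sin χ := ⟨_, rfl⟩
  rw [← hne] at hn hρ hn0 hj3 hch ⊢
  have hkm : k ≤ 173 / 100 + 2507 / 1000 * n := by linarith
  have hem := em1_lo
  have heu := em1_hi
  have hee : exp 1 * exp (-1) = 1 := by rw [← exp_add]; simp
  have hE0 := exp_pos (-1)
  -- `(1-n)²/(4 c) ≤ 17425/10000 (1-n)²/k`
  have h4 : (1 - n) ^ 2 / (4 * (39 / 100 * (exp (-1) * k))) ≤ 17430 / 10000 * (1 - n) ^ 2 / k := by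
    rw [div_le_div_iff₀ (by positivity) hk0]
    have h5 : 0 ≤ (1 - n) ^ 2 * k := by positivity
    have h6 : 0 ≤ (1 - n) ^ 2 * k * (exp (-1) - 3678 / 10000) := mul_nonneg h5 (by linarith)
    nlinarith
  have h5 : χ * (1 - n) ≤ 15708 / 10000 * n * (1 - n) / k := by
    rw [le_div_iff₀ hk0]
    have := mul_le_mul_of_nonneg_right hj3 (show 0 ≤ 1 - n by linarith)
    linarith
  have h6 : exp (-1) * k ≤ 3679 / 10000 * k := mul_le_mul_of_nonneg_right heu hk0.le
  have h7 : 2 * (31415 / 10000) * (1 - n) ≤ 2 * π * (1 - n) :=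
    mul_le_mul_of_nonneg_right (by linarith) (by linarith)
  have key : 0 ≤ k * (2 * (31415 / 10000) * (1 - n) - 43 / 100 - 3679 / 10000 * k) -
      15708 / 10000 * n * (1 - n) - 17430 / 10000 * (1 - n) ^ 2 := by
    have g0 : 0 ≤ 4 / 5 * (2 * (31415 / 10000) * (1 - n) - 43 / 100 - 3679 / 10000 * (4 / 5)) -
        15708 / 10000 * n * (1 - n) - 17430 / 10000 * (1 - n) ^ 2 := by nlinarith
    have g1 : 0 ≤ (173 / 100 + 2507 / 1000 * n) * (2 * (31415 / 10000) * (1 - n) - 43 / 100 -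
        3679 / 10000 * (173 / 100 + 2507 / 1000 * n)) -
        15708 / 10000 * n * (1 - n) - 17430 / 10000 * (1 - n) ^ 2 := by nlinarith
    have g2 : 0 ≤ (k - 4 / 5) * (173 / 100 + 2507 / 1000 * n - k) :=
      mul_nonneg (by linarith) (by linarith)
    obtain ⟨M, hM⟩ : ∃ M, M = 173 / 100 + 2507 / 1000 * n := ⟨_, rfl⟩
    rw [← hM] at g1 g2 hkm
    obtain ⟨α, hα⟩ : ∃ α, α = 2 * (31415 / 10000) * (1 - n) - 43 / 100 := ⟨_, rfl⟩
    obtain ⟨γ, hγ⟩ : ∃ γ, γ = 15708 / 10000 * n * (1 - n) + 17430 / 10000 * (1 - n) ^ 2 := ⟨_, rfl⟩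
    have g0' : 0 ≤ 4 / 5 * (α - 3679 / 10000 * (4 / 5)) - γ := by rw [hα, hγ]; linarith
    have g1' : 0 ≤ M * (α - 3679 / 10000 * M) - γ := by rw [hα, hγ]; linarith
    have hMk : 0 < M - 4 / 5 := by rw [hM]; linarith
    have g3 : 0 ≤ (M - 4 / 5) * (k * (α - 3679 / 10000 * k) - γ) := by
      have e : (M - 4 / 5) * (k * (α - 3679 / 10000 * k) - γ) =
          (M - k) * (4 / 5 * (α - 3679 / 10000 * (4 / 5)) - γ) +
          (k - 4 / 5) * (M * (α - 3679 / 10000 * M) - γ) +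
          3679 / 10000 * (M - 4 / 5) * ((k - 4 / 5) * (M - k)) := by ring
      rw [e]
      have i1 : 0 ≤ M - k := by linarith
      have i2 : 0 ≤ k - 4 / 5 := by linarith
      positivity
    have g4 := nonneg_of_mul_nonneg_right g3 hMk
    rw [hα, hγ] at g4
    linarith
  have key2 : 15708 / 10000 * n * (1 - n) / k + 17430 / 10000 * (1 - n) ^ 2 / k ≤
      2 * (31415 / 10000) * (1 - n) - 43 / 100 - 3679 / 10000 * k := by
    rw [← add_div, div_le_iff₀ hk0]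
    linarith
  linarith

end SokalF1B
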