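import Pool.Agent.Lib_MP_af4de1_f1.PtcA
import Pool.Agent.Lib_MP_af4de1_f1.PtcB
import Pool.Agent.Lib_MP_af4de1_f1.PtcC
import Pool.Agent.Lib_MP_af4de1_f1.PtcR
import Pool.Agent.Lib_MP_af4de1_f1.PtcD2
import Pool.Agent.Lib_MP_af4de1_v3.OwnGlue

/-!
# Tails on `DD`: weights and numbers
-/

set_option autoImplicit false

namespace SokalF1B

open MeasureTheory Set Real SokalF1 SokalF1M

/-! ### The weights -/

private theorem pte_exp {u : ℝ} (h : 0 ≤ u) :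
    1 + u + u ^ 2 / 2 + u ^ 3 / 6 + u ^ 4 / 24 + u ^ 5 / 120 ≤ exp u := by
  have := Real.sum_le_exp_of_nonneg h 6
  simp only [Finset.sum_range_succ, Finset.sum_range_zero, Nat.factorial] at this
  norm_num at this
  linarith

private theorem pte_e1 {s : ℝ} (h : 3 / 2 ≤ s) :
    (s + 1 / 3) * (s + 15 / 4) ≤ 11 * exp (3 / 10 * s) := by
  have h1 := pte_exp (u := 3 / 10 * s) (by linarith)
  have h2 : (s + 1 / 3) * (s + 15 / 4) ≤ 11 * (1 + 3 / 10 * s + (3 / 10 * s) ^ 2 / 2 +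
      (3 / 10 * s) ^ 3 / 6 + (3 / 10 * s) ^ 4 / 24 + (3 / 10 * s) ^ 5 / 120) := by
    nlinarith [mul_nonneg (by linarith : 0 ≤ s) (sq_nonneg (s - 5)), sq_nonneg (s - 5),
      mul_nonneg (by linarith : 0 ≤ s) (sq_nonneg (s * (s - 5))), sq_nonneg (s * (s - 5)),
      mul_nonneg (by linarith : 0 ≤ s) (sq_nonneg (s ^ 2 - 25))]
  linarith

private theorem pte_e2 {s : ℝ} (h : 3 / 2 ≤ s) :
    (s + 1 / 3) * (s + 4 / 3) ≤ 8 * exp (3 / 10 * s) := by
  have h1 := pte_exp (u := 3 / 10 * s) (by linarith)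
  have h2 : (s + 1 / 3) * (s + 4 / 3) ≤ 8 * (1 + 3 / 10 * s + (3 / 10 * s) ^ 2 / 2 +
      (3 / 10 * s) ^ 3 / 6 + (3 / 10 * s) ^ 4 / 24 + (3 / 10 * s) ^ 5 / 120) := by
    nlinarith [mul_nonneg (by linarith : 0 ≤ s) (sq_nonneg (s - 5)), sq_nonneg (s - 5),
      mul_nonneg (by linarith : 0 ≤ s) (sq_nonneg (s * (s - 5))), sq_nonneg (s * (s - 5)),
      mul_nonneg (by linarith : 0 ≤ s) (sq_nonneg (s ^ 2 - 25))]
  linarith

/-- A weight which is small enough on the tails. -/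
structure WtC (w : ℂ → ℂ) : Prop where
  R : ∀ a s : ℝ, 0 ≤ a → a ≤ 1 → 3 / 2 ≤ s → ‖w (a + s * Complex.I)‖ ≤ 11 * exp (3 / 10 * s)
  L : ∀ a s : ℝ, -1 ≤ a → a ≤ 0 → 3 / 2 ≤ s →
    ‖w (a + (-s : ℝ) * Complex.I)‖ ≤ 8 * exp (3 / 10 * s)

private theorem pte_norm {a s b : ℝ} (hb : 0 ≤ b) (h : a ^ 2 + s ^ 2 ≤ b ^ 2) :
    ‖(a + s * Complex.I : ℂ)‖ ≤ b := by
  rw [norm_K]
  exact Real.sqrt_le_iff.2 ⟨hb, h⟩

private theorem pte_gs (a s : ℝ) {b E : ℝ} (hE : exp a ≤ E) (hb : 0 ≤ b)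
    (h : (1 + a) ^ 2 + s ^ 2 ≤ b ^ 2) : ‖gs (a + s * Complex.I)‖ ≤ E + b := by
  unfold gs
  have h1 : ‖Complex.exp (a + s * Complex.I)‖ = exp a := by
    rw [Complex.norm_exp]
    simp
  have h2 : ‖((1 + a : ℝ) + s * Complex.I : ℂ)‖ ≤ b := pte_norm hb h
  have e : Complex.exp (a + s * Complex.I) - 1 - (a + s * Complex.I) =
      Complex.exp (a + s * Complex.I) - ((1 + a : ℝ) + s * Complex.I) := by
    push_cast
    ring
  rw [e]
  refine (norm_sub_le _ _).trans ?_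
  rw [h1]
  linarith

theorem wtC_one : WtC (fun _ => 1) := by
  constructor
  · intro a s _ _ hs
    have := pte_exp (u := 3 / 10 * s) (by linarith)
    simp only [norm_one]
    have h1 : 1 ≤ exp (3 / 10 * s) := Real.one_le_exp (by linarith)
    linarith
  · intro a s _ _ hs
    simp only [norm_one]
    have h1 : 1 ≤ exp (3 / 10 * s) := Real.one_le_exp (by linarith)
    linarith

private theorem pte_gR {a s : ℝ} (h0 : 0 ≤ a) (h1 : a ≤ 1) (hs : 3 / 2 ≤ s) :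
    ‖gs (a + s * Complex.I)‖ ≤ s + 15 / 4 ∧ ‖(a + s * Complex.I : ℂ)‖ ≤ s + 1 / 3 := by
  constructor
  · have hE : exp a ≤ 2.7182818286 :=
      (exp_le_exp.2 h1).trans Real.exp_one_lt_d9.le
    refine (pte_gs a s hE (b := s + 1) (by linarith) (by nlinarith)).trans ?_
    norm_num
    linarith
  · exact pte_norm (by linarith) (by nlinarith)

private theorem pte_gL {a s : ℝ} (h0 : -1 ≤ a) (h1 : a ≤ 0) (hs : 3 / 2 ≤ s) :
    ‖gs (a + (-s : ℝ) * Complex.I)‖ ≤ s + 4 / 3 ∧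
      ‖(a + (-s : ℝ) * Complex.I : ℂ)‖ ≤ s + 1 / 3 := by
  constructor
  · have hE : exp a ≤ 1 := Real.exp_le_one_iff.2 h1
    refine (pte_gs a (-s) hE (b := s + 1 / 3) (by linarith) (by nlinarith)).trans ?_
    linarith
  · exact pte_norm (by linarith) (by nlinarith)

theorem wtC_gs : WtC gs := by
  constructor
  · intro a s h0 h1 hs
    have k1 := (pte_gR h0 h1 hs).1
    have k2 := pte_e1 hs
    nlinarith
  · intro a s h0 h1 hs
    have k1 := (pte_gL h0 h1 hs).1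
    have k2 := pte_e2 hs
    nlinarith

theorem wtC_sgs : WtC (fun σ => σ * gs σ) := by
  constructor
  · intro a s h0 h1 hs
    obtain ⟨k1, k2⟩ := pte_gR h0 h1 hs
    have k3 := pte_e1 hs
    simp only [norm_mul]
    refine le_trans ?_ k3
    gcongr
  · intro a s h0 h1 hs
    obtain ⟨k1, k2⟩ := pte_gL h0 h1 hs
    have k3 := pte_e2 hs
    simp only [norm_mul]
    refine le_trans ?_ k3
    gcongr

/-! ### Splitting -/

theorem pte_split {f : ℝ → ℝ} (h0 : ∀ s, 0 ≤ f s) {A B : ℝ}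
    (hA : ∫ v in Ioi (3 / 2 : ℝ), f v ≤ A) (hB : ∫ v in Ioi (3 / 2 : ℝ), f (-v) ≤ B) :
    ∫ s in {s : ℝ | 3 / 2 ≤ |s|}, f s ≤ A + B := by
  have hA0 : 0 ≤ A := (integral_nonneg h0).trans hA
  have hB0 : 0 ≤ B := (integral_nonneg (fun v => h0 (-v))).trans hB
  by_cases hI : IntegrableOn f {s : ℝ | 3 / 2 ≤ |s|}
  · have e : {s : ℝ | 3 / 2 ≤ |s|} = Iic (-(3 / 2)) ∪ Ici (3 / 2) := by
      ext s
      simp only [mem_setOf_eq, mem_union, mem_Iic, mem_Ici, le_abs]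
      constructor
      · rintro (h | h)
        · exact Or.inr h
        · exact Or.inl (by linarith)
      · rintro (h | h)
        · exact Or.inr (by linarith)
        · exact Or.inl h
    rw [e] at hI ⊢
    have hd : Disjoint (Iic (-(3 / 2 : ℝ))) (Ici (3 / 2)) := by
      rw [Set.disjoint_left]
      intro s h1 h2
      rw [mem_Iic] at h1
      rw [mem_Ici] at h2
      linarith
    rw [setIntegral_union hd measurableSet_Ici (hI.mono_set subset_union_left)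
      (hI.mono_set subset_union_right), integral_Ici_eq_integral_Ioi,
      ← integral_comp_neg_Ioi (3 / 2) f]
    linarith
  · rw [integral_undef hI]
    linarith

/-! ### Numbers -/

theorem pte_decay {h δ δ0 : ℝ} (hδ : 0 < δ) (hδ0 : δ ≤ δ0) (hh : 2 * δ0 ≤ h) :
    exp (-(h / δ)) ≤ exp (-(h / δ0)) * (δ / δ0) ^ 2 := by
  have h0 : 0 < δ0 := hδ.trans_le hδ0
  obtain ⟨t, ht⟩ : ∃ t, t = δ0 / δ := ⟨_, rfl⟩
  have ht1 : 1 ≤ t := by rw [ht, one_le_div hδ]; exact hδ0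
  have e1 : δ / δ0 = t⁻¹ := by rw [ht, inv_div]
  have e2 : h / δ = h / δ0 * t := by rw [ht]; field_simp
  have h2 : 2 ≤ h / δ0 := by rw [le_div_iff₀ h0]; exact hh
  have h3 : t ^ 2 ≤ exp (h / δ0 * (t - 1)) := by
    have k1 : t ≤ exp (t - 1) := by
      have := Real.add_one_le_exp (t - 1)
      linarith
    have k2 : t ^ 2 ≤ exp (t - 1) ^ 2 := pow_le_pow_left₀ (by linarith) k1 2
    refine k2.trans ?_
    rw [← Real.exp_nat_mul]
    refine exp_le_exp.2 ?_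
    push_cast
    nlinarith
  rw [e1, e2]
  have e3 : exp (-(h / δ0 * t)) = exp (-(h / δ0)) * (exp (h / δ0 * (t - 1)))⁻¹ := by
    rw [← Real.exp_neg, ← Real.exp_add]
    congr 1
    ring
  rw [e3, inv_pow]
  have h4 : 0 < t ^ 2 := by positivity
  exact mul_le_mul_of_nonneg_left (inv_anti₀ h4 h3) (exp_pos _).le

/-- the same, in terms of `q = √δ` -/
theorem pte_decay' {h δ E N : ℝ} (hδ : 0 < δ) (hδ0 : δ ≤ 173 / 4990) (hh : 7 / 100 ≤ h)
    (hN : N ≤ h * (4990 / 173)) (hE : exp (-N) ≤ E) :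
    exp (-(h / δ)) ≤ 832 * E * √δ ^ 4 := by
  have h1 := pte_decay (h := h) hδ hδ0 (by linarith)
  refine h1.trans ?_
  have h2 : exp (-(h / (173 / 4990))) ≤ E := by
    refine le_trans (exp_le_exp.2 ?_) hE
    have : h / (173 / 4990) = h * (4990 / 173) := by ring
    linarith
  have hE0 : 0 ≤ E := (exp_pos _).le.trans hE
  have h3 : (δ / (173 / 4990)) ^ 2 ≤ 832 * √δ ^ 4 := by
    have e : √δ ^ 4 = δ ^ 2 := by
      have : √δ ^ 4 = (√δ ^ 2) ^ 2 := by ring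
      rw [this, Real.sq_sqrt hδ.le]
    rw [e]
    nlinarith [sq_nonneg δ]
  calc exp (-(h / (173 / 4990))) * (δ / (173 / 4990)) ^ 2 ≤ E * (832 * √δ ^ 4) := by gcongr
    _ = _ := by ring

theorem pte_sqrt {δ : ℝ} (hδ0 : δ ≤ 173 / 4990) : √δ ≤ 1863 / 10000 := by
  refine Real.sqrt_le_iff.2 ⟨by norm_num, hδ0.trans (by norm_num)⟩

private theorem pte_e920 : exp (9 / 20) ≤ 157 / 100 := by
  have h : exp (9 / 20) ^ 20 = exp 1 ^ 9 := by
    rw [← Real.exp_nat_mul, ← Real.exp_nat_mul]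
    norm_num
  refine (pow_le_pow_iff_left₀ (exp_pos _).le (by norm_num) (by norm_num : (20 : ℕ) ≠ 0)).1 ?_
  rw [h]
  refine (pow_le_pow_left₀ (exp_pos _).le Real.exp_one_lt_d9.le 9).trans ?_
  norm_num

private theorem pte_e35 : exp (3 / 5 * π) ≤ 67 / 10 := by
  have h0 : exp (3 / 5 * π) ≤ exp (19 / 10) := by
    refine exp_le_exp.2 ?_
    have := Real.pi_lt_d4
    norm_num at this
    linarith
  refine h0.trans ?_
  have h : exp (19 / 10) ^ 10 = exp 1 ^ 19 := by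
    rw [← Real.exp_nat_mul, ← Real.exp_nat_mul]
    norm_num
  refine (pow_le_pow_iff_left₀ (exp_pos _).le (by norm_num) (by norm_num : (10 : ℕ) ≠ 0)).1 ?_
  rw [h]
  refine (pow_le_pow_left₀ (exp_pos _).le Real.exp_one_lt_d9.le 19).trans ?_
  norm_num

/-- the crude part -/
theorem pte_crude {δ c0 E N K : ℝ} (hδ : 0 < δ) (hδ0 : δ ≤ 173 / 4990) (hc : 1 / 5 ≤ c0)
    (hN : N ≤ 3 / 2 * c0 * (4990 / 173)) (hE : exp (-N) ≤ E)
    (hK : 157 / 100 * E * (538 / 100) ≤ K * (c0 - 105 / 10000)) :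
    exp (-(3 / 2 * (c0 / δ - 3 / 10))) / (c0 / δ - 3 / 10) ≤ K * √δ ^ 3 := by
  have hq := pte_sqrt hδ0
  have hq0 : 0 < √δ := Real.sqrt_pos.2 hδ
  have hE0 : 0 ≤ E := (exp_pos _).le.trans hE
  have hc1 : 0 < c0 - 105 / 10000 := by linarith
  have h1 : exp (-(3 / 2 * (c0 / δ - 3 / 10))) ≤ 157 / 100 * (832 * E * √δ ^ 4) := by
    have e : -(3 / 2 * (c0 / δ - 3 / 10)) = 9 / 20 + -(3 / 2 * c0 / δ) := by ring
    rw [e, Real.exp_add]
    have k := pte_decay' (h := 3 / 2 * c0) hδ hδ0 (by linarith) hN hE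
    have k2 := pte_e920
    gcongr
  have h2 : (c0 - 105 / 10000) / √δ ^ 2 ≤ c0 / δ - 3 / 10 := by
    rw [Real.sq_sqrt hδ.le]
    have e : c0 / δ - 3 / 10 = (c0 - 3 / 10 * δ) / δ := by field_simp
    rw [e]
    refine div_le_div_of_nonneg_right ?_ hδ.le
    linarith
  have h3 : 0 < (c0 - 105 / 10000) / √δ ^ 2 := by positivity
  calc exp (-(3 / 2 * (c0 / δ - 3 / 10))) / (c0 / δ - 3 / 10)
      ≤ 157 / 100 * (832 * E * √δ ^ 4) / ((c0 - 105 / 10000) / √δ ^ 2) := by gcongr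
    _ = 157 / 100 * E * (832 * √δ ^ 3) / (c0 - 105 / 10000) * √δ ^ 3 := by
        field_simp
    _ ≤ 157 / 100 * E * (538 / 100) / (c0 - 105 / 10000) * √δ ^ 3 := by
        have : √δ ^ 3 ≤ (1863 / 10000) ^ 3 := pow_le_pow_left₀ hq0.le hq 3
        have h832 : 832 * √δ ^ 3 ≤ 538 / 100 := by
          norm_num at this ⊢
          linarith
        gcongr
    _ ≤ K * √δ ^ 3 := by
        refine mul_le_mul_of_nonneg_right ?_ (by positivity)
        rw [div_le_iff₀ hc1]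
        exact hK

/-- the lump -/
theorem pte_lump {δ f A c A0 g E N cq K : ℝ} (hδ : 0 < δ) (hδ0 : δ ≤ 173 / 4990)
    (hg : g ≤ f - A ^ 2 / (4 * c)) (hg0 : 7 / 100 ≤ g) (hc : 0 < c) (hA0 : 1 / 5 ≤ A0) (hA : A0 ≤ A)
    (hN : N ≤ g * (4990 / 173)) (hE : exp (-N) ≤ E) (hcq0 : 0 ≤ cq) (hcq : π ≤ cq ^ 2 * c)
    (hK : 67 / 10 * 832 * E * (cq * (3471 / 100000) * (A0 - 105 / 10000) + 6467 / 1000000) ≤
      K * (A0 - 105 / 10000)) :
    exp (3 / 5 * π) * (exp (-((f - A ^ 2 / (4 * c)) / δ)) * √(π * δ / c) +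
        exp (-(f / δ)) / (A / δ - 3 / 10)) ≤ K * √δ ^ 3 := by
  have hq := pte_sqrt hδ0
  have hq0 : 0 < √δ := Real.sqrt_pos.2 hδ
  have hE0 : 0 ≤ E := (exp_pos _).le.trans hE
  have hc1 : 0 < A0 - 105 / 10000 := by linarith
  have hd := pte_decay' hδ hδ0 hg0 hN hE
  have h1 : exp (-((f - A ^ 2 / (4 * c)) / δ)) ≤ 832 * E * √δ ^ 4 := by
    refine le_trans (exp_le_exp.2 (neg_le_neg ?_)) hd
    exact div_le_div_of_nonneg_right hg hδ.le
  have h2 : exp (-(f / δ)) ≤ 832 * E * √δ ^ 4 := by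
    refine le_trans (exp_le_exp.2 (neg_le_neg ?_)) hd
    have : 0 ≤ A ^ 2 / (4 * c) := by positivity
    exact div_le_div_of_nonneg_right (by linarith) hδ.le
  have h3 : √(π * δ / c) ≤ cq * √δ := by
    refine Real.sqrt_le_iff.2 ⟨by positivity, ?_⟩
    rw [mul_pow, Real.sq_sqrt hδ.le, div_le_iff₀ hc]
    nlinarith
  have h4 : (A0 - 105 / 10000) / √δ ^ 2 ≤ A / δ - 3 / 10 := by
    rw [Real.sq_sqrt hδ.le]
    have e : A / δ - 3 / 10 = (A - 3 / 10 * δ) / δ := by field_simp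
    rw [e]
    refine div_le_div_of_nonneg_right ?_ hδ.le
    linarith
  have h5 : 0 < (A0 - 105 / 10000) / √δ ^ 2 := by positivity
  have h6 := pte_e35
  have hp2 : √δ ^ 2 ≤ 3471 / 100000 := by
    refine (pow_le_pow_left₀ hq0.le hq 2).trans ?_
    norm_num
  have hp3 : √δ ^ 3 ≤ 6467 / 1000000 := by
    refine (pow_le_pow_left₀ hq0.le hq 3).trans ?_
    norm_num
  have h7 : 0 ≤ exp (-((f - A ^ 2 / (4 * c)) / δ)) * √(π * δ / c) +
      exp (-(f / δ)) / (A / δ - 3 / 10) :=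
    add_nonneg (by positivity) (div_nonneg (exp_pos _).le (h5.le.trans h4))
  obtain ⟨B, hB⟩ : ∃ B, B = A0 - 105 / 10000 := ⟨_, rfl⟩
  rw [← hB] at hc1 h4 h5 hK
  calc exp (3 / 5 * π) * (exp (-((f - A ^ 2 / (4 * c)) / δ)) * √(π * δ / c) +
        exp (-(f / δ)) / (A / δ - 3 / 10))
      ≤ 67 / 10 * (832 * E * √δ ^ 4 * (cq * √δ) +
        832 * E * √δ ^ 4 / (B / √δ ^ 2)) := by gcongr
    _ = 67 / 10 * 832 * E * (cq * √δ ^ 2 + √δ ^ 3 / B) * √δ ^ 3 := by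
        field_simp
    _ ≤ 67 / 10 * 832 * E * (cq * (3471 / 100000) + 6467 / 1000000 / B) *
        √δ ^ 3 := by gcongr
    _ ≤ K * √δ ^ 3 := by
        refine mul_le_mul_of_nonneg_right ?_ (by positivity)
        have e : 67 / 10 * 832 * E * (cq * (3471 / 100000) + 6467 / 1000000 / B) =
          67 / 10 * 832 * E * (cq * (3471 / 100000) * B + 6467 / 1000000) / B := by
          field_simp
        rw [e, div_le_iff₀ hc1]
        exact hK

end SokalF1B
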