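import Pool.Agent.Lib_MP_af4de1_f1.TopGapD

/-!
# [FT-G1] monotonicity
(see `TopGapD.lean` for the curve and its one variable descriptions)
-/

set_option autoImplicit false

namespace SokalF1T

open SokalF1S

private theorem deriv_sPhi {ρ y₁ y₂ y : ℝ} (h1 : Dom ρ y₁) (h2 : Dom ρ y₂) (hy : -1 ≤ y₁)
    (h : y ∈ Set.Ioo y₁ y₂) : deriv (fun y => sx ρ y * (1 + y)) y = -(y * (sD2 ρ y / sx ρ y)) ∧
      0 ≤ sD2 ρ y / sx ρ y := by
  have h3 := dom_between h1 h2 hy h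
  refine ⟨(hasDerivAt_sPhi h1.1 h3).deriv, ?_⟩
  have h4 := sx_pos h1.1 h3
  have h5 : 0 ≤ sD2 ρ y := by unfold sD2; positivity
  positivity

private theorem cont_sPhi (ρ : ℝ) : Continuous (fun y => sx ρ y * (1 + y)) :=
  (continuous_sx ρ).mul (continuous_const.add continuous_id)

/-- [FT-DD1] `ph` increases up to `y = 0` and decreases afterwards. -/
theorem ph_mono_neg {ρ y₁ y₂ : ℝ} (h1 : Dom ρ y₁) (h2 : Dom ρ y₂) (hy : -1 ≤ y₁) (h12 : y₁ ≤ y₂)
    (h0 : y₂ ≤ 0) : ph ρ y₁ ≤ ph ρ y₂ := by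
  have h3 : MonotoneOn (fun y => sx ρ y * (1 + y)) (Set.Icc y₁ y₂) := by
    refine monotoneOn_of_deriv_nonneg (convex_Icc _ _) (cont_sPhi ρ).continuousOn ?_ ?_
    · rw [interior_Icc]
      intro y h
      exact (hasDerivAt_sPhi h1.1 (dom_between h1 h2 hy h)).differentiableAt.differentiableWithinAt
    · rw [interior_Icc]
      intro y h
      obtain ⟨e, h4⟩ := deriv_sPhi h1 h2 hy h
      rw [e]
      have h5 : y ≤ 0 := h.2.le.trans h0
      have := mul_nonneg (neg_nonneg.2 h5) h4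
      linarith
  have h4 := h3 (Set.left_mem_Icc.2 h12) (Set.right_mem_Icc.2 h12) h12
  unfold ph
  exact div_le_div_of_nonneg_right h4 h1.1.le

/-- [FT-DD1] -/
theorem ph_anti_pos {ρ y₁ y₂ : ℝ} (h1 : Dom ρ y₁) (h2 : Dom ρ y₂) (hy : 0 ≤ y₁) (h12 : y₁ ≤ y₂) :
    ph ρ y₂ ≤ ph ρ y₁ := by
  have hy' : -1 ≤ y₁ := by linarith
  have h3 : AntitoneOn (fun y => sx ρ y * (1 + y)) (Set.Icc y₁ y₂) := by
    refine antitoneOn_of_deriv_nonpos (convex_Icc _ _) (cont_sPhi ρ).continuousOn ?_ ?_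
    · rw [interior_Icc]
      intro y h
      exact (hasDerivAt_sPhi h1.1 (dom_between h1 h2 hy' h)).differentiableAt.differentiableWithinAt
    · rw [interior_Icc]
      intro y h
      obtain ⟨e, h4⟩ := deriv_sPhi h1 h2 hy' h
      rw [e]
      have h5 : 0 ≤ y := hy.trans h.1.le
      have := mul_nonneg h5 h4
      linarith
  have h4 := h3 (Set.left_mem_Icc.2 h12) (Set.right_mem_Icc.2 h12) h12
  unfold ph
  exact div_le_div_of_nonneg_right h4 h1.1.le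

/-- [FT-DD3] between `0` and a point of `DD`. -/
theorem DD_between {ρ b y : ℝ} (h : DD ρ b) (hy : (b ≤ y ∧ y ≤ 0) ∨ (0 ≤ y ∧ y ≤ b)) : DD ρ y := by
  have hρ := h.dom.1
  have hz : Dom ρ 0 := dom_zero hρ
  have hb := h.y0
  have hb1 := h.y1
  have hm := strictMonoOn_mul_exp.monotoneOn
  have hd := dom_iff.1 h.dom.2
  rcases hy with ⟨h1, h2⟩ | ⟨h1, h2⟩
  · have hdy : Dom ρ y := by
      refine ⟨hρ, dom_iff.2 ⟨?_, ?_⟩⟩
      · have h3 := hm (Set.mem_Ici.2 (by linarith : (-1 : ℝ) ≤ b))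
          (Set.mem_Ici.2 (by linarith : (-1 : ℝ) ≤ y)) h1
        simp only at h3
        linarith [hd.1]
      · have h3 : y * Real.exp y ≤ 0 :=
          mul_nonpos_of_nonpos_of_nonneg h2 (Real.exp_pos _).le
        linarith
    refine ⟨hdy, by linarith, by linarith, ?_, ?_⟩
    · have hs := (sE_strictMonoOn h.dom hz (by linarith)).monotoneOn
      have hb0 : b ≤ 0 := h1.trans h2
      have h3 := hs (Set.left_mem_Icc.2 hb0) (Set.mem_Icc.2 ⟨h1, h2⟩) h1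
      have h4 := hs (Set.mem_Icc.2 ⟨h1, h2⟩) (Set.right_mem_Icc.2 hb0) h2
      rw [sE_zero hρ] at h4
      have h5 := (abs_le.1 h.eta).1
      rw [abs_le]
      exact ⟨h5.trans h3, h4.trans (by positivity)⟩
    · exact h.phi.trans (ph_mono_neg h.dom hdy (by linarith) h1 h2)
  · have hdy : Dom ρ y := by
      refine ⟨hρ, dom_iff.2 ⟨?_, ?_⟩⟩
      · have h3 : 0 ≤ y * Real.exp y := mul_nonneg h1 (Real.exp_pos _).le
        linarith
      · have h3 := hm (Set.mem_Ici.2 (by linarith : (-1 : ℝ) ≤ y))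
          (Set.mem_Ici.2 (by linarith : (-1 : ℝ) ≤ b)) h2
        simp only at h3
        linarith [hd.2]
    refine ⟨hdy, by linarith, by linarith, ?_, ?_⟩
    · have hs := (sE_strictMonoOn hz h.dom (by linarith)).monotoneOn
      have hb0 : 0 ≤ b := h1.trans h2
      have h3 := hs (Set.left_mem_Icc.2 hb0) (Set.mem_Icc.2 ⟨h1, h2⟩) h1
      have h4 := hs (Set.mem_Icc.2 ⟨h1, h2⟩) (Set.right_mem_Icc.2 hb0) h2
      rw [sE_zero hρ] at h3
      have h5 := (abs_le.1 h.eta).2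
      rw [abs_le]
      refine ⟨?_, h4.trans h5⟩
      have : 0 ≤ 2 * Real.pi / 3 := by positivity
      linarith
    · exact h.phi.trans (ph_anti_pos hdy h.dom h1 h2)

/-- [FT-DD3] every angle between `0` and `sE ρ b` is attained in `DD`. -/
theorem DD_exists {ρ b η : ℝ} (h : DD ρ b) (hη : (sE ρ b ≤ η ∧ η ≤ 0) ∨ (0 ≤ η ∧ η ≤ sE ρ b)) :
    ∃ y, DD ρ y ∧ sE ρ y = η ∧ ((b ≤ y ∧ y ≤ 0) ∨ (0 ≤ y ∧ y ≤ b)) := by
  have hρ := h.dom.1
  have hz : Dom ρ 0 := dom_zero hρ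
  have hb := h.y0
  rcases hη with ⟨h1, h2⟩ | ⟨h1, h2⟩
  · have hb0 : b ≤ 0 := by
      by_contra hlt
      have hlt' : 0 < b := not_le.1 hlt
      have h3 := sE_strictMonoOn hz h.dom (by linarith) (Set.left_mem_Icc.2 hlt'.le)
        (Set.right_mem_Icc.2 hlt'.le) hlt'
      rw [sE_zero hρ] at h3
      linarith
    obtain ⟨y, hy, e⟩ := exists_sE hb0 h1 (by rw [sE_zero hρ]; exact h2)
    exact ⟨y, DD_between h (Or.inl ⟨hy.1, hy.2⟩), e, Or.inl ⟨hy.1, hy.2⟩⟩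
  · have hb0 : 0 ≤ b := by
      by_contra hlt
      have hlt' : b < 0 := not_le.1 hlt
      have h3 := sE_strictMonoOn h.dom hz (by linarith) (Set.left_mem_Icc.2 hlt'.le)
        (Set.right_mem_Icc.2 hlt'.le) hlt'
      rw [sE_zero hρ] at h3
      linarith
    obtain ⟨y, hy, e⟩ := exists_sE hb0 (by rw [sE_zero hρ]; exact h1) h2
    exact ⟨y, DD_between h (Or.inr ⟨hy.1, hy.2⟩), e, Or.inr ⟨hy.1, hy.2⟩⟩

end SokalF1T
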