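import Pool.Agent.Lib_MP_af4de1_f1.TopGapD

/-!
# [FT-G2] trial values
(see `TopGapD.lean` for the curve and its one variable descriptions)
-/

set_option autoImplicit false

namespace SokalF1T

open SokalF1S

private noncomputable def kk (ρ a c : ℝ) : ℝ :=
  -Real.log c + Real.log (Real.cos (a + ρ * c)) - ρ * c * (Real.sin (a + ρ * c) / Real.cos (a + ρ * c))

private noncomputable def gg (ρ a c : ℝ) : ℝ :=
  c * (1 - Real.log c + Real.log (Real.cos (a + ρ * c)))

private theorem th_der (ρ a c : ℝ) : HasDerivAt (fun c : ℝ => a + ρ * c) ρ c :=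
  (((hasDerivAt_id c).const_mul ρ).const_add a).congr_deriv (by ring)

private theorem cos_der (ρ a c : ℝ) :
    HasDerivAt (fun c : ℝ => Real.cos (a + ρ * c)) (-(ρ * Real.sin (a + ρ * c))) c :=
  (th_der ρ a c).cos.congr_deriv (by ring)

private theorem sin_der (ρ a c : ℝ) :
    HasDerivAt (fun c : ℝ => Real.sin (a + ρ * c)) (ρ * Real.cos (a + ρ * c)) c :=
  (th_der ρ a c).sin.congr_deriv (by ring)

private theorem gg_der {ρ a c : ℝ} (hc : 0 < c) (hcos : 0 < Real.cos (a + ρ * c)) :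
    HasDerivAt (gg ρ a) (kk ρ a c) c := by
  have h1 := (((Real.hasDerivAt_log hc.ne').const_sub 1).add ((cos_der ρ a c).log hcos.ne'))
  have h2 := (hasDerivAt_id c).mul h1
  refine h2.congr_deriv ?_
  unfold kk
  simp only [id, Pi.add_apply]
  field_simp
  ring

private theorem kk_der {ρ a c : ℝ} (hc : 0 < c) (hcos : 0 < Real.cos (a + ρ * c)) :
    HasDerivAt (kk ρ a)
      (-(((1 + ρ * c * (Real.sin (a + ρ * c) / Real.cos (a + ρ * c))) ^ 2 + ρ ^ 2 * c ^ 2) / c)) c := by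
  have h1 := ((Real.hasDerivAt_log hc.ne').neg).add ((cos_der ρ a c).log hcos.ne')
  have h2 := ((hasDerivAt_id c).const_mul ρ).mul ((sin_der ρ a c).div (cos_der ρ a c) hcos.ne')
  have h3 := h1.sub h2
  refine h3.congr_deriv ?_
  have hC := hcos.ne'
  simp only [id, Pi.div_apply]
  generalize Real.cos (a + ρ * c) = C at hC ⊢
  generalize Real.sin (a + ρ * c) = S
  field_simp
  ring

private theorem gg_trial {ρ a c₀ c : ℝ} (hρ : 0 < ρ) (h0 : 0 < c₀) (hc : 0 < c)
    (t0 : |a + ρ * c₀| < Real.pi / 2) (t1 : |a + ρ * c| < Real.pi / 2) (hk : kk ρ a c₀ = 0) :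
    gg ρ a c ≤ gg ρ a c₀ := by
  have hpos : ∀ u v t : ℝ, 0 < u → |a + ρ * u| < Real.pi / 2 → |a + ρ * v| < Real.pi / 2 →
      u ≤ t → t ≤ v → 0 < t ∧ 0 < Real.cos (a + ρ * t) := by
    intro u v t hu h1 h2 h3 h4
    have h5 := mul_le_mul_of_nonneg_left h3 hρ.le
    have h6 := mul_le_mul_of_nonneg_left h4 hρ.le
    rw [abs_lt] at h1 h2
    exact ⟨by linarith, Real.cos_pos_of_mem_Ioo ⟨by linarith [h1.1], by linarith [h2.2]⟩⟩
  have kanti : ∀ u v : ℝ, 0 < u → |a + ρ * u| < Real.pi / 2 → |a + ρ * v| < Real.pi / 2 →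
      AntitoneOn (kk ρ a) (Set.Icc u v) := by
    intro u v hu h1 h2
    refine antitoneOn_of_deriv_nonpos (convex_Icc _ _) ?_ ?_ ?_
    · intro t ht
      obtain ⟨p1, p2⟩ := hpos u v t hu h1 h2 ht.1 ht.2
      exact (kk_der p1 p2).continuousAt.continuousWithinAt
    · intro t ht
      rw [interior_Icc] at ht
      obtain ⟨p1, p2⟩ := hpos u v t hu h1 h2 ht.1.le ht.2.le
      exact (kk_der p1 p2).differentiableAt.differentiableWithinAt
    · intro t ht
      rw [interior_Icc] at ht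
      obtain ⟨p1, p2⟩ := hpos u v t hu h1 h2 ht.1.le ht.2.le
      rw [(kk_der p1 p2).deriv]
      have : 0 ≤ ((1 + ρ * t * (Real.sin (a + ρ * t) / Real.cos (a + ρ * t))) ^ 2 +
        ρ ^ 2 * t ^ 2) / t := by positivity
      linarith
  rcases le_total c c₀ with h | h
  · have hm : MonotoneOn (gg ρ a) (Set.Icc c c₀) := by
      refine monotoneOn_of_deriv_nonneg (convex_Icc _ _) ?_ ?_ ?_
      · intro t ht
        obtain ⟨p1, p2⟩ := hpos c c₀ t hc t1 t0 ht.1 ht.2
        exact (gg_der p1 p2).continuousAt.continuousWithinAt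
      · intro t ht
        rw [interior_Icc] at ht
        obtain ⟨p1, p2⟩ := hpos c c₀ t hc t1 t0 ht.1.le ht.2.le
        exact (gg_der p1 p2).differentiableAt.differentiableWithinAt
      · intro t ht
        rw [interior_Icc] at ht
        obtain ⟨p1, p2⟩ := hpos c c₀ t hc t1 t0 ht.1.le ht.2.le
        rw [(gg_der p1 p2).deriv, ← hk]
        exact kanti c c₀ hc t1 t0 ⟨ht.1.le, ht.2.le⟩ ⟨h, le_refl _⟩ ht.2.le
    exact hm ⟨le_refl _, h⟩ ⟨h, le_refl _⟩ h
  · have hm : AntitoneOn (gg ρ a) (Set.Icc c₀ c) := by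
      refine antitoneOn_of_deriv_nonpos (convex_Icc _ _) ?_ ?_ ?_
      · intro t ht
        obtain ⟨p1, p2⟩ := hpos c₀ c t h0 t0 t1 ht.1 ht.2
        exact (gg_der p1 p2).continuousAt.continuousWithinAt
      · intro t ht
        rw [interior_Icc] at ht
        obtain ⟨p1, p2⟩ := hpos c₀ c t h0 t0 t1 ht.1.le ht.2.le
        exact (gg_der p1 p2).differentiableAt.differentiableWithinAt
      · intro t ht
        rw [interior_Icc] at ht
        obtain ⟨p1, p2⟩ := hpos c₀ c t h0 t0 t1 ht.1.le ht.2.le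
        rw [(gg_der p1 p2).deriv, ← hk]
        exact kanti c₀ c h0 t0 t1 ⟨le_refl _, h⟩ ⟨ht.1.le, ht.2.le⟩ ht.1.le
    exact hm ⟨le_refl _, h⟩ ⟨h, le_refl _⟩ h

/-- [FT-DD2] trial values.  Proof: `g(c) = c(1 - log c + log cos(η - ρ + ρ c))` has `c g'' = -((1 + ρ c tan θ)² + ρ² c²) < 0`
and `g' = 0` at `c = x/ρ` (where `θ = ψ`), `g(x/ρ) = ph`. -/
theorem ph_trial {ρ y c : ℝ} (h : Dom ρ y) (hx : |y| * Real.exp y < ρ) (hy : -1 < y) (hc : 0 < c)
    (hθ : |sE ρ y - ρ * (1 - c)| < Real.pi / 2) :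
    c * (1 - Real.log c + Real.log (Real.cos (sE ρ y - ρ * (1 - c)))) ≤ ph ρ y := by
  have hρ := h.1
  have hx0 := sx_pos hρ hx
  have hcosv := h.cos
  have hsinv := h.sin
  have hey := Real.exp_pos y
  have hcos0 : 0 < Real.cos (sP ρ y) := by rw [hcosv]; positivity
  have hψ : |sP ρ y| < Real.pi / 2 := by
    rcases lt_or_eq_of_le (sP_abs_le ρ y) with h1 | h1
    · exact h1
    · exfalso
      have h2 : Real.cos (sP ρ y) = 0 := by
        rw [← Real.cos_abs, h1, Real.cos_pi_div_two]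
      linarith
  have e0 : sE ρ y - ρ + ρ * (sx ρ y / ρ) = sP ρ y := by
    unfold sE
    field_simp
    ring
  have e1 : sE ρ y - ρ * (1 - c) = sE ρ y - ρ + ρ * c := by ring
  have hl : Real.log (sx ρ y * Real.exp y / ρ) = Real.log (sx ρ y / ρ) + y := by
    have : sx ρ y * Real.exp y / ρ = sx ρ y / ρ * Real.exp y := by ring
    rw [this, Real.log_mul (by positivity) hey.ne', Real.log_exp]
  have hk : kk ρ (sE ρ y - ρ) (sx ρ y / ρ) = 0 := by
    unfold kk
    rw [e0, hcosv, hsinv, hl]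
    field_simp
    ring
  have hg : gg ρ (sE ρ y - ρ) (sx ρ y / ρ) = ph ρ y := by
    unfold gg ph
    rw [e0, hcosv, hl]
    ring
  have key := gg_trial (a := sE ρ y - ρ) hρ (div_pos hx0 hρ) hc (by rw [e0]; exact hψ)
    (by rw [← e1]; exact hθ) hk
  rw [hg] at key
  rw [e1]
  exact key

end SokalF1T
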