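import Pool.Agent.Lib_MP_af4de1_f1.TG1

/-!
# [FT-G3] boundary, negative side
(see `TopGapD.lean` for the curve and its one variable descriptions)
-/

set_option autoImplicit false

namespace SokalF1T

open SokalF1S

/-- [FT-DD4] boundary, negative side. -/
theorem bdry_neg {ρ : ℝ} (hρ : 0 < ρ) :
    ∃ b, b ≤ 0 ∧ DD ρ b ∧ ((b = -(7 / 10) ∨ ph ρ b = 11 / 25) ∨ sE ρ b = -(2 * Real.pi / 3)) := by
  have cph : Continuous (ph ρ) := by
    unfold ph
    exact ((continuous_sx ρ).mul (continuous_const.add continuous_id)).div_const ρ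
  have cd : Continuous fun y : ℝ => |y| * Real.exp y := continuous_abs.mul Real.continuous_exp
  set S : Set ℝ := Set.Icc (-(7 / 10)) 0 ∩
    {y | |y| * Real.exp y ≤ ρ ∧ |sE ρ y| ≤ 2 * Real.pi / 3 ∧ 11 / 25 ≤ ph ρ y} with hS
  have hcl : IsClosed {y | |y| * Real.exp y ≤ ρ ∧ |sE ρ y| ≤ 2 * Real.pi / 3 ∧ 11 / 25 ≤ ph ρ y} :=
    (isClosed_le cd continuous_const).inter ((isClosed_le (continuous_sE ρ).abs continuous_const).inter
      (isClosed_le continuous_const cph))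
  have hcomp : IsCompact S := isCompact_Icc.inter_right hcl
  have hne : S.Nonempty := by
    refine ⟨0, ⟨by norm_num, le_refl 0⟩, ?_, ?_, ?_⟩
    · simpa using hρ.le
    · rw [sE_zero hρ, abs_zero]
      positivity
    · unfold ph sx
      simp only [mul_zero, Real.exp_zero, mul_one, ne_eq, OfNat.ofNat_ne_zero, not_false_eq_true,
        zero_pow, sub_zero, add_zero]
      rw [Real.sqrt_sq hρ.le, div_self hρ.ne']
      norm_num
  obtain ⟨b, ⟨⟨hb1, hb2⟩, hb3, hb4, hb5⟩, hmin⟩ := hcomp.exists_isLeast hne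
  have hDb : Dom ρ b := ⟨hρ, hb3⟩
  refine ⟨b, hb2, ⟨hDb, hb1, by linarith, hb4, hb5⟩, ?_⟩
  by_contra hcon
  rw [not_or, not_or] at hcon
  obtain ⟨⟨h1, h2⟩, h3⟩ := hcon
  have a1 : -(7 / 10) < b := lt_of_le_of_ne hb1 (Ne.symm h1)
  have a2 : 11 / 25 < ph ρ b := lt_of_le_of_ne hb5 (Ne.symm h2)
  have a3 : -(2 * Real.pi / 3) < sE ρ b := lt_of_le_of_ne (abs_le.1 hb4).1 (Ne.symm h3)
  have a4 : sE ρ b ≤ 0 := by
    have := (sE_strictMonoOn hDb (dom_zero hρ) (by linarith)).monotoneOn ⟨le_rfl, hb2⟩ ⟨hb2, le_rfl⟩ hb2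
    rwa [sE_zero hρ] at this
  have a4' : sE ρ b < 2 * Real.pi / 3 := lt_of_le_of_lt a4 (by positivity)
  have a5 : |b| * Real.exp b < ρ := by
    refine lt_of_le_of_ne hb3 fun he => ?_
    have e1 := sx_sq_add hDb
    have e2 : ρ * Real.exp (-b) = |b| := by
      rw [← he, mul_assoc, ← Real.exp_add]
      simp
    rw [e2, sq_abs] at e1
    have e3 : sx ρ b = 0 := by
      have : sx ρ b ^ 2 = 0 := by linarith
      exact pow_eq_zero_iff two_ne_zero |>.1 this
    have e4 : ph ρ b = 0 := by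
      unfold ph
      rw [e3]
      simp
    rw [e4] at a2
    norm_num at a2
  have ev : ∀ᶠ y in nhds b, -(7 / 10) < y ∧ 11 / 25 < ph ρ y ∧ -(2 * Real.pi / 3) < sE ρ y ∧
      sE ρ y < 2 * Real.pi / 3 ∧ |y| * Real.exp y < ρ := by
    refine (eventually_gt_nhds a1).and ?_
    refine ((cph.tendsto b).eventually (eventually_gt_nhds a2)).and ?_
    refine (((continuous_sE ρ).tendsto b).eventually (eventually_gt_nhds a3)).and ?_
    refine (((continuous_sE ρ).tendsto b).eventually (eventually_lt_nhds a4')).and ?_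
    exact (cd.tendsto b).eventually (eventually_lt_nhds a5)
  obtain ⟨y, ⟨c1, c2, c3, c4, c5⟩, hyb⟩ :=
    ((ev.filter_mono nhdsWithin_le_nhds).and (self_mem_nhdsWithin (s := Set.Iio b))).exists
  have hyb' : y < b := hyb
  have : b ≤ y := hmin ⟨⟨c1.le, by linarith⟩, c5.le, abs_le.2 ⟨c3.le, c4.le⟩, c2.le⟩
  linarith

end SokalF1T
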