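import Pool.Agent.Lib_MP_af4de1_f1.TG1

/-!
# [FT-G4] boundary, positive side; rho at least 5/2
(see `TopGapD.lean` for the curve and its one variable descriptions)
-/

set_option autoImplicit false

namespace SokalF1T

open SokalF1S

private theorem arc_lower_g4 {x : ℝ} (hx : 0 ≤ x) : Real.sin x + Real.sin x ^ 3 / 6 ≤ x := by
  have hm : MonotoneOn (fun x : ℝ => x - Real.sin x - Real.sin x ^ 3 / 6) (Set.Ici 0) := by
    have hd : ∀ y : ℝ, HasDerivAt (fun x : ℝ => x - Real.sin x - Real.sin x ^ 3 / 6)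
        (1 - Real.cos y - 3 * Real.sin y ^ 2 * Real.cos y / 6) y := by
      intro y
      have h1 := Real.hasDerivAt_sin y
      have h2 := (h1.pow 3).div_const 6
      have h3 := ((hasDerivAt_id y).sub h1).sub h2
      refine h3.congr_deriv ?_
      simp
    refine monotoneOn_of_deriv_nonneg (convex_Ici _)
      (fun y _ => (hd y).continuousAt.continuousWithinAt)
      (fun y _ => (hd y).differentiableAt.differentiableWithinAt) ?_
    intro y _
    rw [(hd y).deriv]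
    have hc1 := Real.cos_le_one y
    have hc2 := Real.neg_one_le_cos y
    have hs : Real.sin y ^ 2 = 1 - Real.cos y ^ 2 := by
      have := Real.sin_sq_add_cos_sq y
      linarith
    rw [hs]
    have : 1 - Real.cos y - 3 * (1 - Real.cos y ^ 2) * Real.cos y / 6 =
        (1 - Real.cos y) * ((1 - Real.cos y) * (2 + Real.cos y) / 2) := by ring
    rw [this]
    apply mul_nonneg (by linarith)
    apply div_nonneg _ (by norm_num)
    apply mul_nonneg (by linarith) (by linarith)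
  have h := hm (Set.mem_Ici.2 le_rfl) (Set.mem_Ici.2 hx) hx
  simp only [Real.sin_zero] at h
  norm_num at h
  linarith

private theorem exp72_g4 : (2.0544 : ℝ) ≤ Real.exp (18 / 25) := by
  have h := Real.sum_le_exp_of_nonneg (x := 18 / 25) (by norm_num) 8
  refine le_trans ?_ h
  simp only [Finset.sum_range_succ, Finset.sum_range_zero, Nat.factorial]
  norm_num

private theorem two_pi_three_g4 : 2 * Real.pi / 3 < 2.0944 := by
  have := Real.pi_lt_d4
  norm_num at this ⊢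
  linarith

/-- at `y = 18/25` the angle is above `2π/3` -/
private theorem sE_top_g4 {ρ : ℝ} (h : Dom ρ (18 / 25)) : 2 * Real.pi / 3 < sE ρ (18 / 25) := by
  have hρ := h.1
  have hs := h.sin
  have hc := h.cos
  set ψ := sP ρ (18 / 25) with hψ
  have hψ0 : 0 ≤ ψ := sP_nonneg hρ (by norm_num)
  have he := exp72_g4
  have hepos := Real.exp_pos (18 / 25 : ℝ)
  set s := Real.sin ψ with hsdef
  set c := Real.cos ψ with hcdef
  have hspos : 0 < s := by rw [hs]; positivity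
  have hs1 : s ≤ 1 := Real.sin_le_one _
  have hcn : 0 ≤ c := by
    rw [hc]
    have := sx_nonneg ρ (18 / 25)
    positivity
  have hsc : s ^ 2 + c ^ 2 = 1 := Real.sin_sq_add_cos_sq _
  have harc := arc_lower_g4 hψ0
  -- `s ρ = y e^y`, `s x = y c`
  have e1 : s * ρ = 18 / 25 * Real.exp (18 / 25) := by
    rw [hs]; field_simp
  have e2 : s * sx ρ (18 / 25) = 18 / 25 * c := by
    have h2 : c * ρ = sx ρ (18 / 25) * Real.exp (18 / 25) := by rw [hc]; field_simp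
    have h3 : (s * sx ρ (18 / 25)) * (ρ * Real.exp (18 / 25)) =
        (18 / 25 * c) * (ρ * Real.exp (18 / 25)) := by
      linear_combination (sx ρ (18 / 25) * Real.exp (18 / 25)) * e1 -
        (18 / 25 * Real.exp (18 / 25)) * h2
    exact mul_right_cancel₀ (by positivity) h3
  have hcle : c ≤ 1 - s ^ 2 / 2 - s ^ 4 / 8 := by
    have hp : 0 ≤ 1 - s ^ 2 / 2 - s ^ 4 / 8 := by
      have h2 : s ^ 2 ≤ 1 := pow_le_one₀ hspos.le hs1
      have h4 : s ^ 4 ≤ 1 := pow_le_one₀ hspos.le hs1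
      linarith
    refine (abs_le_of_sq_le_sq' ?_ hp).2
    have h6 : 0 ≤ s ^ 6 := by positivity
    have h8 : 0 ≤ s ^ 8 := by positivity
    nlinarith
  have hkey : 2.0944 * s < s * sE ρ (18 / 25) := by
    have e3 : s * sE ρ (18 / 25) = s * ψ + 18 / 25 * Real.exp (18 / 25) - 18 / 25 * c := by
      unfold sE
      rw [← hψ]
      linear_combination e1 - e2
    rw [e3]
    have h1 : s * (s + s ^ 3 / 6) ≤ s * ψ := mul_le_mul_of_nonneg_left harc hspos.le
    have h4 : (0 : ℝ) ≤ (s ^ 2 - 0.44) ^ 2 := sq_nonneg _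
    have h5 : (0 : ℝ) ≤ (s - 0.66) ^ 2 := sq_nonneg _
    norm_num at *
    nlinarith
  have : 2.0944 < sE ρ (18 / 25) := by
    have h1 : s * 2.0944 < s * sE ρ (18 / 25) := by linarith
    exact lt_of_mul_lt_mul_left h1 hspos.le
  exact two_pi_three_g4.trans this

private theorem continuous_ph_g4 {ρ : ℝ} : Continuous (ph ρ) := by
  unfold ph
  exact ((continuous_sx ρ).mul (by fun_prop)).div_const ρ

private theorem ph_zero_g4 {ρ : ℝ} (hρ : 0 < ρ) : ph ρ 0 = 1 := by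
  unfold ph sx
  simp [Real.sqrt_sq hρ.le, hρ.ne']

private theorem dom_of_g4 {ρ Y y : ℝ} (hD : Dom ρ Y) (h0 : 0 ≤ y) (h1 : y ≤ Y) : Dom ρ y := by
  refine ⟨hD.1, le_trans ?_ hD.2⟩
  rw [abs_of_nonneg h0, abs_of_nonneg (h0.trans h1)]
  exact mul_le_mul h1 (Real.exp_le_exp.2 h1) (Real.exp_pos _).le (h0.trans h1)

private theorem bdry_aux_g4 {ρ Y : ℝ} (hD : Dom ρ Y) (h0 : 0 ≤ Y) (h1 : Y ≤ 18 / 25)
    (h : ph ρ Y ≤ 11 / 25 ∨ 2 * Real.pi / 3 ≤ sE ρ Y) :
    ∃ b, 0 ≤ b ∧ DD ρ b ∧ (ph ρ b = 11 / 25 ∨ sE ρ b = 2 * Real.pi / 3) := by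
  have hρ := hD.1
  have hmono := sE_strictMonoOn (dom_zero hρ) hD (by norm_num : (-1 : ℝ) ≤ 0)
  have hE0 := sE_zero hρ
  have hpi := Real.pi_pos
  -- the second step
  have key : ∀ Z : ℝ, 0 ≤ Z → Z ≤ Y → sE ρ Z ≤ 2 * Real.pi / 3 → ph ρ Z ≤ 11 / 25 →
      ∃ b, 0 ≤ b ∧ DD ρ b ∧ (ph ρ b = 11 / 25 ∨ sE ρ b = 2 * Real.pi / 3) := by
    intro Z hZ0 hZY hZE hZp
    have hiv := intermediate_value_Icc' hZ0 (continuous_ph_g4 (ρ := ρ)).continuousOn
    have hmem : (11 / 25 : ℝ) ∈ Set.Icc (ph ρ Z) (ph ρ 0) := by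
      rw [ph_zero_g4 hρ]
      exact ⟨hZp, by norm_num⟩
    obtain ⟨b, hb, hpb⟩ := hiv hmem
    have hb0 := hb.1
    have hbZ := hb.2
    have hbY := hbZ.trans hZY
    have hEb0 : 0 ≤ sE ρ b := by
      rw [← hE0]
      exact hmono.monotoneOn ⟨le_rfl, h0⟩ ⟨hb0, hbY⟩ hb0
    have hEb1 : sE ρ b ≤ sE ρ Z := hmono.monotoneOn ⟨hb0, hbY⟩ ⟨hZ0, hZY⟩ hbZ
    refine ⟨b, hb0, ⟨dom_of_g4 hD hb0 hbY, by linarith, by linarith, ?_, hpb.ge⟩, Or.inl hpb⟩
    rw [abs_of_nonneg hEb0]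
    exact hEb1.trans hZE
  by_cases hE : 2 * Real.pi / 3 ≤ sE ρ Y
  · obtain ⟨y, hy, hEy⟩ := exists_sE h0 (by rw [hE0]; positivity : sE ρ 0 ≤ 2 * Real.pi / 3) hE
    by_cases hp : ph ρ y ≤ 11 / 25
    · exact key y hy.1 hy.2 hEy.le hp
    · push Not at hp
      refine ⟨y, hy.1, ⟨dom_of_g4 hD hy.1 hy.2, by linarith [hy.1], hy.2.trans h1, ?_, hp.le⟩,
        Or.inr hEy⟩
      rw [hEy, abs_of_nonneg (by positivity)]
  · push Not at hE
    have hp : ph ρ Y ≤ 11 / 25 := by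
      rcases h with h | h
      · exact h
      · linarith
    exact key Y h0 le_rfl hE.le hp

/-- [FT-DD5] boundary, positive side (`y ≤ 18/25` never stops before `2π/3`: at `y = 18/25`
`η = ψ + 1.479/sin ψ - .72 cot ψ ≥ 2.14 > 2π/3`). -/
theorem bdry_pos {ρ : ℝ} (hρ : 0 < ρ) :
    ∃ b, 0 ≤ b ∧ DD ρ b ∧ (ph ρ b = 11 / 25 ∨ sE ρ b = 2 * Real.pi / 3) := by
  by_cases hD : (18 / 25 : ℝ) * Real.exp (18 / 25) ≤ ρ
  · have h : Dom ρ (18 / 25) := ⟨hρ, by rw [abs_of_nonneg (by norm_num)]; exact hD⟩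
    exact bdry_aux_g4 h (by norm_num) le_rfl (Or.inr (sE_top_g4 h).le)
  · push Not at hD
    have hiv := intermediate_value_Icc (a := (0 : ℝ)) (b := 18 / 25) (by norm_num)
      (f := fun y : ℝ => y * Real.exp y) (by fun_prop)
    obtain ⟨Y, hY, hYe⟩ := hiv (show ρ ∈ _ by
      simp only [zero_mul]
      exact ⟨hρ.le, hD.le⟩)
    simp only at hYe
    have h : Dom ρ Y := ⟨hρ, by rw [abs_of_nonneg hY.1]; exact hYe.le⟩
    have hsx : sx ρ Y = 0 := by
      have h1 := sx_sq h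
      have h2 : ρ * Real.exp (-Y) = Y := by
        rw [← hYe, mul_assoc, ← Real.exp_add]
        simp
      rw [h2, sub_self] at h1
      exact pow_eq_zero_iff (two_ne_zero) |>.1 h1
    refine bdry_aux_g4 h hY.1 hY.2 (Or.inl ?_)
    unfold ph
    rw [hsx]
    norm_num

/-- [FT-DD8] `ρ ≥ 5/2`: the whole range `|η| ≤ 2π/3` is in `DD` (`y ∈ [-.6, .715]`, `ph ≥ .69`). -/
theorem DD_two {ρ η : ℝ} (hρ : 5 / 2 ≤ ρ) (hη : |η| ≤ 2 * Real.pi / 3) : ∃ y, DD ρ y ∧ sE ρ y = η := by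
  have hρ0 : 0 < ρ := by linarith
  have hpi := two_pi_three_g4
  obtain ⟨hη1, hη2⟩ := abs_le.1 hη
  -- the two ends
  have hA : Dom ρ (-(7 / 10)) := by
    refine ⟨hρ0, ?_⟩
    rw [abs_neg, abs_of_nonneg (by norm_num)]
    have : Real.exp (-(7 / 10)) ≤ 1 := Real.exp_le_one_iff.2 (by norm_num)
    linarith
  have hB : Dom ρ (18 / 25) := by
    refine ⟨hρ0, ?_⟩
    rw [abs_of_nonneg (by norm_num)]
    have h1 : Real.exp (18 / 25) ≤ Real.exp 1 := Real.exp_le_exp.2 (by norm_num)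
    have h2 := Real.exp_one_lt_d9
    norm_num at h2
    linarith
  -- exponentials
  have he14 : (4.05 : ℝ) ≤ Real.exp (7 / 5) := by
    have h := Real.sum_le_exp_of_nonneg (x := 7 / 5) (by norm_num) 9
    refine le_trans ?_ h
    simp only [Finset.sum_range_succ, Finset.sum_range_zero, Nat.factorial]
    norm_num
  have hxA : sx ρ (-(7 / 10)) ^ 2 = ρ ^ 2 * Real.exp (7 / 5) - (7 / 10) ^ 2 := by
    rw [sx_sq hA, ← exp_two]
    norm_num
  have hxB : sx ρ (18 / 25) ^ 2 = ρ ^ 2 * Real.exp (-(36 / 25)) - (18 / 25) ^ 2 := by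
    rw [sx_sq hB, ← exp_two]
    norm_num
  have hA0 := sx_nonneg ρ (-(7 / 10))
  have hB0 := sx_nonneg ρ (18 / 25)
  have hρ2 : 25 / 4 ≤ ρ ^ 2 := by nlinarith
  have hxA2 : 4.05 * ρ ^ 2 - 49 / 100 ≤ sx ρ (-(7 / 10)) ^ 2 := by
    rw [hxA]
    nlinarith
  have heB : (0.2 : ℝ) ≤ Real.exp (-(36 / 25)) := by
    have h1 : Real.exp (36 / 25) ≤ 5 := by
      have h2 : Real.exp (36 / 25) = Real.exp (12 / 25) ^ 3 := by
        rw [← Real.exp_nat_mul]
        norm_num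
      have h3 : Real.exp (12 / 25) ≤ 1.7 := by
        have h4 := Real.exp_one_lt_d9
        have h5 : Real.exp (12 / 25) ≤ Real.exp (1 / 2) := Real.exp_le_exp.2 (by norm_num)
        have h6 : Real.exp (1 / 2) ^ 2 = Real.exp 1 := by
          rw [← Real.exp_nat_mul]
          norm_num
        have h7 : Real.exp (1 / 2) ≤ 1.7 := by
          refine (abs_le_of_sq_le_sq' ?_ (by norm_num)).2
          rw [h6]
          norm_num at h4 ⊢
          linarith
        exact h5.trans h7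
      rw [h2]
      have h8 : Real.exp (12 / 25) ^ 3 ≤ 1.7 ^ 3 := pow_le_pow_left₀ (Real.exp_pos _).le h3 3
      norm_num at h8 ⊢
      linarith
    rw [Real.exp_neg]
    have h2 : (5 : ℝ)⁻¹ ≤ (Real.exp (36 / 25))⁻¹ := inv_anti₀ (Real.exp_pos _) h1
    norm_num at h2 ⊢
    linarith
  have hxB2 : 0.2 * ρ ^ 2 - 324 / 625 ≤ sx ρ (18 / 25) ^ 2 := by
    rw [hxB]
    nlinarith
  -- angle at the left end
  have hEA : sE ρ (-(7 / 10)) ≤ -(2 * Real.pi / 3) := by
    have h1 : sP ρ (-(7 / 10)) ≤ 0 := sP_nonpos hρ0 (by norm_num)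
    have h2 : ρ + 2.0944 ≤ sx ρ (-(7 / 10)) := by
      refine (abs_le_of_sq_le_sq' ?_ hA0).2
      nlinarith
    unfold sE
    linarith
  have hEB : 2 * Real.pi / 3 ≤ sE ρ (18 / 25) := (sE_top_g4 hB).le
  obtain ⟨y, hy, hyE⟩ := exists_sE (by norm_num : (-(7 / 10) : ℝ) ≤ 18 / 25)
    (hEA.trans hη1) (hη2.trans hEB)
  have hyD : Dom ρ y := by
    rcases eq_or_lt_of_le hy.1 with h | h
    · rw [← h]; exact hA
    · rcases eq_or_lt_of_le hy.2 with h' | h'
      · rw [h']; exact hB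
      · exact ⟨hρ0, (dom_between hA hB (by norm_num) ⟨h, h'⟩).le⟩
  refine ⟨y, ⟨hyD, hy.1, hy.2, by rw [hyE]; exact hη, ?_⟩, hyE⟩
  rcases le_total y 0 with h0 | h0
  · refine le_trans ?_ (ph_mono_neg hA hyD (by norm_num) hy.1 h0)
    unfold ph
    rw [le_div_iff₀ hρ0]
    have h2 : 1.9 * ρ ≤ sx ρ (-(7 / 10)) := by
      refine (abs_le_of_sq_le_sq' ?_ hA0).2
      nlinarith
    norm_num at h2 ⊢
    linarith
  · refine le_trans ?_ (ph_anti_pos hyD hB h0 hy.2)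
    unfold ph
    rw [le_div_iff₀ hρ0]
    have h2 : 0.26 * ρ ≤ sx ρ (18 / 25) := by
      refine (abs_le_of_sq_le_sq' ?_ hB0).2
      nlinarith
    norm_num at h2 ⊢
    linarith

end SokalF1T
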