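import Pool.Agent.Lib_MP_af4de1_f1.TG1
import Pool.Agent.Lib_MP_af4de1_f1.TG2

/-!
# [FT-G5] size of the boundary angles
(see `TopGapD.lean` for the curve and its one variable descriptions)
-/

set_option autoImplicit false

namespace SokalF1T

open SokalF1S

/-! ### numerical values -/

private theorem sqrt3_G5 : (1732 : ℝ) / 1000 ≤ √3 := by
  apply Real.le_sqrt_of_sq_le
  norm_num

private theorem cos_sub_G5 {u : ℝ} (h0 : 0 < u) (h1 : u ≤ 1) :
    1 / 2 * (1 - u ^ 2 / 2) + 866 / 1000 * (u - u ^ 3 / 6) ≤ Real.cos (Real.pi / 3 - u) := by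
  rw [Real.cos_sub, Real.cos_pi_div_three, Real.sin_pi_div_three]
  have h2 := Real.one_sub_sq_div_two_le_cos (x := u)
  have h3 := (Real.sin_gt_sub_cube h0).le
  have h4 := sqrt3_G5
  have h5 : 0 ≤ u - u ^ 3 / 6 := by
    have : 0 ≤ u * (1 - u ^ 2 / 6) := mul_nonneg h0.le (by nlinarith)
    nlinarith
  have h6 : 866 / 1000 * (u - u ^ 3 / 6) ≤ √3 / 2 * Real.sin u :=
    mul_le_mul (by linarith) h3 h5 (by positivity)
  linarith

/-- `cos (24/25) > .5731` -/
private theorem cos96_G5 : (5731 : ℝ) / 10000 ≤ Real.cos (24 / 25) := by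
  have hp1 := Real.pi_gt_d4
  have hp2 := Real.pi_lt_d4
  obtain ⟨u, hu⟩ : ∃ u, u = Real.pi / 3 - 24 / 25 := ⟨_, rfl⟩
  have hu1 : 871 / 10000 ≤ u := by rw [hu]; norm_num at hp1; linarith
  have hu2 : u ≤ 873 / 10000 := by rw [hu]; norm_num at hp2; linarith
  have h1 := cos_sub_G5 (u := u) (by linarith) (by linarith)
  have e : Real.pi / 3 - u = 24 / 25 := by rw [hu]; ring
  rw [e] at h1
  refine le_trans ?_ h1
  have h2 : u ^ 2 ≤ (873 / 10000) ^ 2 := pow_le_pow_left₀ (by linarith) hu2 2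
  have h3 : u ^ 3 ≤ (873 / 10000) ^ 3 := pow_le_pow_left₀ (by linarith) hu2 3
  norm_num at h2 h3
  linarith

/-- `cos (2π/3 - 319/300) > .5130` -/
private theorem cosB_G5 : (5130 : ℝ) / 10000 ≤ Real.cos (2 * Real.pi / 3 - 319 / 300) := by
  have hp1 := Real.pi_gt_d4
  have hp2 := Real.pi_lt_d4
  obtain ⟨u, hu⟩ : ∃ u, u = 319 / 300 - Real.pi / 3 := ⟨_, rfl⟩
  have hu1 : 16 / 1000 ≤ u := by rw [hu]; norm_num at hp2; linarith
  have hu2 : u ≤ 17 / 1000 := by rw [hu]; norm_num at hp1; linarith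
  have h1 := cos_sub_G5 (u := u) (by linarith) (by linarith)
  have e : Real.pi / 3 - u = 2 * Real.pi / 3 - 319 / 300 := by rw [hu]; ring
  rw [e] at h1
  refine le_trans ?_ h1
  have h2 : u ^ 2 ≤ (17 / 1000) ^ 2 := pow_le_pow_left₀ (by linarith) hu2 2
  have h3 : u ^ 3 ≤ (17 / 1000) ^ 3 := pow_le_pow_left₀ (by linarith) hu2 3
  norm_num at h2 h3
  linarith

private theorem exp56_G5 : (1750 : ℝ) / 1000 ≤ Real.exp (14 / 25) := by
  have h := Real.sum_le_exp_of_nonneg (x := (14 : ℝ) / 25) (by norm_num) 6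
  refine le_trans ?_ h
  norm_num [Finset.sum_range_succ, Nat.factorial]

private theorem exp65_G5 : Real.exp (13 / 20) ≤ 19156 / 10000 := by
  have h := Real.exp_bound' (x := (13 : ℝ) / 20) (by norm_num) (by norm_num) (n := 7) (by norm_num)
  refine h.trans ?_
  norm_num [Finset.sum_range_succ, Nat.factorial]

private theorem exp70l_G5 : (20137 : ℝ) / 10000 ≤ Real.exp (7 / 10) := by
  have h := Real.sum_le_exp_of_nonneg (x := (7 : ℝ) / 10) (by norm_num) 8
  refine le_trans ?_ h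
  norm_num [Finset.sum_range_succ, Nat.factorial]

private theorem exp70u_G5 : Real.exp (7 / 10) ≤ 20138 / 10000 := by
  have h := Real.exp_bound' (x := (7 : ℝ) / 10) (by norm_num) (by norm_num) (n := 8) (by norm_num)
  refine h.trans ?_
  norm_num [Finset.sum_range_succ, Nat.factorial]

/-- tangent of the sine at `π/4` -/
private theorem tangent_G5 {β : ℝ} (h0 : 0 ≤ β) (h1 : β ≤ Real.pi / 2) :
    √2 * Real.sin β - (1 - Real.pi / 4) ≤ β := by
  have hpi := Real.pi_lt_d4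
  norm_num at hpi
  obtain ⟨d, hd⟩ : ∃ d, d = β - Real.pi / 4 := ⟨_, rfl⟩
  have hβ : β = Real.pi / 4 + d := by rw [hd]; ring
  have hs2 : √2 * √2 = 2 := Real.mul_self_sqrt (by norm_num)
  have h2 : √2 * Real.sin β = Real.cos d + Real.sin d := by
    rw [hβ, Real.sin_add, Real.sin_pi_div_four, Real.cos_pi_div_four]
    linear_combination (Real.cos d + Real.sin d) / 2 * hs2
  rw [h2]
  have h3 : Real.cos d + Real.sin d ≤ 1 + d := by
    rcases le_total 0 d with h | h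
    · exact add_le_add (Real.cos_le_one d) (Real.sin_le h)
    · rcases h.lt_or_eq with h | h
      · obtain ⟨e, he⟩ : ∃ e, e = -d := ⟨_, rfl⟩
        have he0 : 0 < e := by linarith
        have he1 : e ≤ 1 := by linarith
        have hd' : d = -e := by linarith
        rw [hd', Real.cos_neg, Real.sin_neg]
        have h4 := (Real.sin_gt_sub_cube he0).le
        have h5 := (Real.sin_gt_sub_cube (x := e / 2) (by linarith)).le
        have h6 : Real.cos e = 1 - 2 * Real.sin (e / 2) ^ 2 := by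
          have h7 := Real.cos_sq_add_sin_sq (e / 2)
          have h8 := Real.cos_two_mul (e / 2)
          have e2 : 2 * (e / 2) = e := by ring
          rw [e2] at h8
          linarith
        have h9 : (e / 2) * (9 / 10) ≤ Real.sin (e / 2) := by
          refine le_trans ?_ h5
          have : 0 ≤ e * (1 - e ^ 2) := mul_nonneg he0.le (by nlinarith)
          nlinarith
        have h10 : ((e / 2) * (9 / 10)) ^ 2 ≤ Real.sin (e / 2) ^ 2 :=
          pow_le_pow_left₀ (by positivity) h9 2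
        have h11 : 0 ≤ e ^ 2 * (1 - e) := mul_nonneg (sq_nonneg e) (by linarith)
        have h12 : 0 ≤ e ^ 2 := sq_nonneg e
        nlinarith
      · rw [h]
        simp
  linarith

/-! ### the domain -/

private theorem sx_pos_G5 {ρ b : ℝ} (h : DD ρ b) : 0 < sx ρ b := by
  rcases (sx_nonneg ρ b).lt_or_eq with h1 | h1
  · exact h1
  · exfalso
    have h2 := h.phi
    unfold ph at h2
    rw [← h1, zero_mul, zero_div] at h2
    norm_num at h2

private theorem strict_G5 {ρ b : ℝ} (h : DD ρ b) : |b| * Real.exp b < ρ := by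
  have h1 := sx_pos_G5 h
  have h2 := sx_sq_add h.dom
  have h3 : |b| < ρ * Real.exp (-b) := by
    have h4 : 0 ≤ ρ * Real.exp (-b) := mul_nonneg h.dom.1.le (Real.exp_pos _).le
    apply abs_lt_of_sq_lt_sq _ h4
    nlinarith [sq_pos_of_pos h1]
  have h5 : Real.exp (-b) * Real.exp b = 1 := by rw [← Real.exp_add]; simp
  calc |b| * Real.exp b < ρ * Real.exp (-b) * Real.exp b :=
        mul_lt_mul_of_pos_right h3 (Real.exp_pos b)
    _ = ρ := by rw [mul_assoc, h5, mul_one]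

private theorem sin70_G5 {ρ : ℝ} (h : Dom ρ (-(7 / 10))) :
    3476 / 10000 / ρ ≤ Real.sin (-sP ρ (-(7 / 10))) := by
  rw [Real.sin_neg, h.sin]
  have e : -(-(7 / 10) * Real.exp (-(7 / 10)) / ρ) = (7 / 10 * Real.exp (-(7 / 10))) / ρ := by ring
  rw [e]
  refine div_le_div_of_nonneg_right ?_ h.1.le
  have h5 : Real.exp (-(7 / 10)) = (Real.exp (7 / 10))⁻¹ := Real.exp_neg _
  rw [h5]
  have h6 : (20138 / 10000 : ℝ)⁻¹ ≤ (Real.exp (7 / 10))⁻¹ := inv_anti₀ (Real.exp_pos _) exp70u_G5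
  norm_num at h6 ⊢
  linarith

/-- the angle at `b = -7/10` -/
private theorem sE70_G5 {ρ : ℝ} (h : Dom ρ (-(7 / 10))) :
    3476 / 10000 / ρ + sx ρ (-(7 / 10)) - ρ ≤ - sE ρ (-(7 / 10)) := by
  have hρ := h.1
  have h2 := sP_nonpos hρ (y := -(7 / 10)) (by norm_num)
  have h3 : Real.sin (-sP ρ (-(7 / 10))) ≤ -sP ρ (-(7 / 10)) := Real.sin_le (by linarith)
  have h4 := sin70_G5 h
  unfold sE
  linarith

private theorem sE70b_G5 {ρ : ℝ} (h : Dom ρ (-(7 / 10))) :
    4915 / 10000 / ρ - 2147 / 10000 + sx ρ (-(7 / 10)) - ρ ≤ - sE ρ (-(7 / 10)) := by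
  have hρ := h.1
  have hpi := Real.pi_gt_d4
  norm_num at hpi
  have h2 := sP_nonpos hρ (y := -(7 / 10)) (by norm_num)
  have h3 := tangent_G5 (β := -sP ρ (-(7 / 10))) (by linarith)
    (by have := abs_le.1 (sP_abs_le ρ (-(7 / 10))); linarith [this.1])
  have h4 := sin70_G5 h
  have h5 : (14141 : ℝ) / 10000 ≤ √2 := by
    apply Real.le_sqrt_of_sq_le
    norm_num
  have h6 : (14141 : ℝ) / 10000 * (3476 / 10000 / ρ) ≤ √2 * Real.sin (-sP ρ (-(7 / 10))) :=
    mul_le_mul h5 h4 (by positivity) (by positivity)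
  have h7 : 4915 / 10000 / ρ ≤ (14141 : ℝ) / 10000 * (3476 / 10000 / ρ) := by
    rw [← mul_div_assoc]
    refine div_le_div_of_nonneg_right ?_ hρ.le
    norm_num
  unfold sE
  linarith

private theorem sx70_G5 {ρ : ℝ} (h : Dom ρ (-(7 / 10))) :
    (20137 / 10000 * ρ) ^ 2 - 49 / 100 ≤ sx ρ (-(7 / 10)) ^ 2 := by
  have hρ := h.1
  rw [sx_sq h]
  have h1 : (20137 / 10000 * ρ) ^ 2 ≤ (ρ * Real.exp (-(-(7 / 10)))) ^ 2 := by
    refine pow_le_pow_left₀ (by positivity) ?_ 2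
    rw [neg_neg, mul_comm ρ]
    exact mul_le_mul_of_nonneg_right exp70l_G5 hρ.le
  have e : ((-(7 / 10) : ℝ)) ^ 2 = 49 / 100 := by norm_num
  rw [e]
  linarith

private theorem sx70u_G5 {ρ : ℝ} (h : Dom ρ (-(7 / 10))) :
    sx ρ (-(7 / 10)) ^ 2 ≤ (20138 / 10000 * ρ) ^ 2 - 49 / 100 := by
  have hρ := h.1
  rw [sx_sq h]
  have h1 : (ρ * Real.exp (-(-(7 / 10)))) ^ 2 ≤ (20138 / 10000 * ρ) ^ 2 := by
    refine pow_le_pow_left₀ (mul_nonneg hρ.le (Real.exp_pos _).le) ?_ 2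
    rw [neg_neg, mul_comm ρ]
    exact mul_le_mul_of_nonneg_right exp70u_G5 hρ.le
  have e : ((-(7 / 10) : ℝ)) ^ 2 = 49 / 100 := by norm_num
  rw [e]
  linarith

/-- `ph = 11/25`, `b ≤ 0` -/
private theorem rho_neg_G5 {ρ b : ℝ} (h : DD ρ b) (hb : b ≤ 0) (hph : ph ρ b = 11 / 25) : ρ ≤ 1 := by
  by_contra hc
  push Not at hc
  have hρ := h.dom.1
  have hb0 := h.y0
  have h1 : sx ρ b * (1 + b) = 11 / 25 * ρ := by
    unfold ph at hph
    rw [div_eq_iff hρ.ne'] at hph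
    exact hph
  have h2 := sx_sq_add h.dom
  -- lower bound of `(1 + b) e^(-b)`
  have h3 : 604 / 1000 ≤ (1 + b) * Real.exp (-b) := by
    have h4 : Real.exp (7 / 10) * (1 + (-b - 7 / 10)) ≤ Real.exp (-b) := by
      have h5 := Real.add_one_le_exp (-b - 7 / 10)
      have h6 : Real.exp (-b) = Real.exp (7 / 10) * Real.exp (-b - 7 / 10) := by
        rw [← Real.exp_add]
        congr 1
        ring
      rw [h6]
      exact mul_le_mul_of_nonneg_left (by linarith) (Real.exp_pos _).le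
    have h5 : (1 + b) * (Real.exp (7 / 10) * (1 + (-b - 7 / 10))) ≤ (1 + b) * Real.exp (-b) :=
      mul_le_mul_of_nonneg_left h4 (by linarith)
    have h6 := exp70l_G5
    have h7 : 3 / 10 ≤ (1 + b) * (1 + (-b - 7 / 10)) := by nlinarith
    have h8 : Real.exp (7 / 10) * (3 / 10) ≤ Real.exp (7 / 10) * ((1 + b) * (1 + (-b - 7 / 10))) :=
      mul_le_mul_of_nonneg_left h7 (Real.exp_pos _).le
    have h9 : (1 + b) * (Real.exp (7 / 10) * (1 + (-b - 7 / 10))) =
        Real.exp (7 / 10) * ((1 + b) * (1 + (-b - 7 / 10))) := by ring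
    linarith
  -- the equation multiplied by `(1+b)²`
  have h4 : (11 / 25 * ρ) ^ 2 + (b * (1 + b)) ^ 2 = (ρ * ((1 + b) * Real.exp (-b))) ^ 2 := by
    rw [← h1]
    linear_combination (1 + b) ^ 2 * h2
  have h5 : (ρ * (604 / 1000)) ^ 2 ≤ (ρ * ((1 + b) * Real.exp (-b))) ^ 2 :=
    pow_le_pow_left₀ (by positivity) (mul_le_mul_of_nonneg_left h3 hρ.le) 2
  have h6 : (b * (1 + b)) ^ 2 ≤ (1 / 4) ^ 2 := by
    apply sq_le_sq'
    · nlinarith [sq_nonneg (b + 1 / 2)]
    · nlinarith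
  have h7 : 1 < ρ ^ 2 := by nlinarith
  nlinarith

/-- [FT-DD6] (true: 55.2° = .9634 for `b ≤ 0` at ρ = .4, ≥ 63.9° for `b ≥ 0`). -/
theorem bd_abs_ge {ρ b : ℝ} (h : Bd ρ b) : 24 / 25 ≤ |sE ρ b| := by
  by_contra hc
  push Not at hc
  obtain ⟨hD, hb⟩ := h
  have hρ := hD.dom.1
  rcases hb with hb | hph
  · subst hb
    have h1 := hD.phi
    unfold ph at h1
    rw [le_div_iff₀ hρ] at h1
    have h2 := sE70b_G5 hD.dom
    have h3 := neg_le_abs (sE ρ (-(7 / 10)))
    have h4 := sx70_G5 hD.dom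
    have h5 := sx70u_G5 hD.dom
    have h6 : 22 / 15 * ρ ≤ sx ρ (-(7 / 10)) := by linarith
    have h7 : (22 / 15 * ρ) ^ 2 ≤ sx ρ (-(7 / 10)) ^ 2 := pow_le_pow_left₀ (by positivity) h6 2
    have h8 : 1 / 2 ≤ ρ := by
      by_contra h9
      push Not at h9
      nlinarith
    obtain ⟨u, hu⟩ : ∃ u, u = ρ - 1 / 2 := ⟨_, rfl⟩
    have hu0 : 0 ≤ u := by linarith
    have hρu : ρ = 1 / 2 + u := by linarith
    have h9 : sx ρ (-(7 / 10)) < 24 / 25 - (4915 / 10000 / ρ - 2147 / 10000) + ρ := by linarith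
    have h10 : sx ρ (-(7 / 10)) * ρ < (24 / 25 - (4915 / 10000 / ρ - 2147 / 10000) + ρ) * ρ :=
      mul_lt_mul_of_pos_right h9 hρ
    have e1 : (24 / 25 - (4915 / 10000 / ρ - 2147 / 10000) + ρ) * ρ =
        11747 / 10000 * ρ + ρ ^ 2 - 4915 / 10000 := by
      field_simp
      ring
    rw [e1] at h10
    have h11 : 0 ≤ sx ρ (-(7 / 10)) * ρ := mul_nonneg (sx_nonneg _ _) hρ.le
    have h12 : (sx ρ (-(7 / 10)) * ρ) ^ 2 < (11747 / 10000 * ρ + ρ ^ 2 - 4915 / 10000) ^ 2 :=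
      pow_lt_pow_left₀ h10 h11 two_ne_zero
    have h13 : ((20137 / 10000 * ρ) ^ 2 - 49 / 100) * ρ ^ 2 ≤ (sx ρ (-(7 / 10)) * ρ) ^ 2 := by
      rw [mul_pow (sx ρ (-(7 / 10)))]
      exact mul_le_mul_of_nonneg_right h4 (sq_nonneg ρ)
    have h14 : ((20137 / 10000 * ρ) ^ 2 - 49 / 100) * ρ ^ 2 <
        (11747 / 10000 * ρ + ρ ^ 2 - 4915 / 10000) ^ 2 := lt_of_le_of_lt h13 h12
    rw [hρu] at h14
    have h15 : 0 ≤ u ^ 2 := by positivity
    have h16 : 0 ≤ u ^ 3 := by positivity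
    have h17 : 0 ≤ u ^ 4 := by positivity
    ring_nf at h14
    linarith
  · have hpi := Real.pi_gt_three
    have h1 := ph_trial (c := 1) hD.dom (strict_G5 hD) (by linarith [hD.y0]) one_pos
      (by rw [sub_self, mul_zero, sub_zero]; linarith)
    rw [sub_self, mul_zero, sub_zero, Real.log_one, sub_zero, one_mul, hph] at h1
    have h2 : Real.cos (24 / 25) ≤ Real.cos (sE ρ b) := by
      rw [← Real.cos_abs (sE ρ b)]
      exact Real.cos_le_cos_of_nonneg_of_le_pi (abs_nonneg _) (by linarith) hc.le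
    have h3 := cos96_G5
    have hpos : 0 < Real.cos (sE ρ b) := by linarith
    have h4 : Real.log (Real.cos (sE ρ b)) ≤ -(14 / 25) := by linarith
    have h5 : Real.cos (sE ρ b) ≤ Real.exp (-(14 / 25)) := (Real.log_le_iff_le_exp hpos).1 h4
    rw [Real.exp_neg] at h5
    have h6 : (Real.exp (14 / 25))⁻¹ ≤ (1750 / 1000 : ℝ)⁻¹ := inv_anti₀ (by norm_num) exp56_G5
    norm_num at h6
    linarith

/-- `ph = 11/25`, `b ≥ 0` -/
private theorem rho_pos_G5 {ρ b : ℝ} (h : DD ρ b) (hb : 0 ≤ b) (hph : ph ρ b = 11 / 25) :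
    ρ ≤ 29 / 20 := by
  by_contra hc
  push Not at hc
  have hρ := h.dom.1
  have h1 : sx ρ b * (1 + b) = 11 / 25 * ρ := by
    have h1 := hph
    unfold ph at h1
    rw [div_eq_iff hρ.ne'] at h1
    exact h1
  have h2 := sx_sq_add h.dom
  have hE : Real.exp (-b) * Real.exp b = 1 := by rw [← Real.exp_add]; simp
  -- step 1
  have hb2 : 13 / 20 ≤ b := by
    by_contra hb3
    push Not at hb3
    have h3 : Real.exp b ≤ 19156 / 10000 :=
      (Real.exp_le_exp.2 hb3.le).trans exp65_G5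
    have h4 : Real.exp b * (33 / 20) ≤ 19156 / 10000 * (1 + b) := by
      have h5 := Real.add_one_le_exp (13 / 20 - b)
      have h6 : Real.exp (13 / 20) = Real.exp b * Real.exp (13 / 20 - b) := by
        rw [← Real.exp_add]
        congr 1
        ring
      have h7 : Real.exp b * ((33 / 20 - b) * (1 + b)) ≤ Real.exp (13 / 20) * (1 + b) := by
        rw [h6, mul_assoc]
        refine mul_le_mul_of_nonneg_left ?_ (Real.exp_pos b).le
        exact mul_le_mul_of_nonneg_right (by linarith) (by linarith)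
      have h8 : 33 / 20 ≤ (33 / 20 - b) * (1 + b) := by nlinarith
      have h9 : Real.exp b * (33 / 20) ≤ Real.exp b * ((33 / 20 - b) * (1 + b)) :=
        mul_le_mul_of_nonneg_left h8 (Real.exp_pos b).le
      have h10 : Real.exp (13 / 20) * (1 + b) ≤ 19156 / 10000 * (1 + b) :=
        mul_le_mul_of_nonneg_right exp65_G5 (by linarith)
      linarith
    -- `ρ² (1+b)² = e^(2b) ((11/25)² ρ² + b² (1+b)²)`
    have h5 : (ρ * (1 + b)) ^ 2 = (11 / 25 * ρ * Real.exp b) ^ 2 +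
        (b * (1 + b) * Real.exp b) ^ 2 := by
      have h6 : (ρ * (1 + b)) ^ 2 = (ρ * Real.exp (-b)) ^ 2 * (1 + b) ^ 2 * Real.exp b ^ 2 := by
        have : (ρ * Real.exp (-b)) ^ 2 * (1 + b) ^ 2 * Real.exp b ^ 2 =
            (ρ * (1 + b)) ^ 2 * (Real.exp (-b) * Real.exp b) ^ 2 := by ring
        rw [this, hE]
        ring
      rw [h6, ← h2, ← h1]
      ring
    have hb1 : 0 < 1 + b := by linarith
    have h6 : (11 / 25 * ρ * Real.exp b) ^ 2 ≤ (11 / 25 * ρ * (1161 / 1000 * (1 + b))) ^ 2 := by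
      refine pow_le_pow_left₀ (by positivity) ?_ 2
      refine mul_le_mul_of_nonneg_left ?_ (by positivity)
      linarith
    have h7 : (b * (1 + b) * Real.exp b) ^ 2 ≤ (13 / 20 * (1 + b) * (19156 / 10000)) ^ 2 := by
      refine pow_le_pow_left₀ (by positivity) ?_ 2
      refine mul_le_mul ?_ h3 (Real.exp_pos b).le (by positivity)
      exact mul_le_mul_of_nonneg_right hb3.le hb1.le
    have h8 : ρ ^ 2 * (1 + b) ^ 2 ≤ ((11 / 25 * (1161 / 1000)) ^ 2 * ρ ^ 2 +
        (13 / 20 * (19156 / 10000)) ^ 2) * (1 + b) ^ 2 := by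
      have e1 : ρ ^ 2 * (1 + b) ^ 2 = (ρ * (1 + b)) ^ 2 := by ring
      rw [e1, h5]
      refine (add_le_add h6 h7).trans (le_of_eq ?_)
      ring
    have h9 : ρ ^ 2 ≤ (11 / 25 * (1161 / 1000)) ^ 2 * ρ ^ 2 + (13 / 20 * (19156 / 10000)) ^ 2 :=
      le_of_mul_le_mul_right h8 (by positivity)
    have h10 : (29 / 20 : ℝ) ^ 2 < ρ ^ 2 := pow_lt_pow_left₀ hc (by norm_num) two_ne_zero
    norm_num at h9 h10
    linarith
  -- step 2
  have hx : sx ρ b ≤ 4 / 15 * ρ := by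
    have h3 : sx ρ b * (33 / 20) ≤ sx ρ b * (1 + b) :=
      mul_le_mul_of_nonneg_left (by linarith) (sx_nonneg ρ b)
    linarith
  have hψ := sP_nonneg hρ hb
  obtain ⟨θ, hθ⟩ : ∃ θ, θ = sE ρ b - ρ * (1 - 4 / 15) := ⟨_, rfl⟩
  have hθ0 : 0 ≤ θ := by
    rw [hθ]
    unfold sE
    linarith
  have hθ1 : θ ≤ 2 * Real.pi / 3 - 319 / 300 := by
    have h3 := (le_abs_self _).trans h.eta
    rw [hθ]
    linarith
  have hpi := Real.pi_gt_three
  have hpi2 := Real.pi_lt_d2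
  have h3 := ph_trial (c := 4 / 15) h.dom (strict_G5 h) (by linarith [h.y0]) (by norm_num)
    (by
      rw [← hθ, abs_of_nonneg hθ0]
      norm_num at hpi2
      linarith)
  rw [← hθ, hph] at h3
  have h4 : Real.cos (2 * Real.pi / 3 - 319 / 300) ≤ Real.cos θ :=
    Real.cos_le_cos_of_nonneg_of_le_pi hθ0 (by linarith) hθ1
  have h5 := cosB_G5
  have hpos : 0 < Real.cos θ := by linarith
  have h6 : Real.log (Real.cos θ) - Real.log (4 / 15) ≤ 13 / 20 := by linarith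
  rw [← Real.log_div hpos.ne' (by norm_num)] at h6
  have h7 := (Real.log_le_iff_le_exp (by positivity)).1 h6
  have h8 := h7.trans exp65_G5
  rw [div_le_iff₀ (by norm_num)] at h8
  linarith

/-- `b = -7/10` with a lower bound of the angle -/
private theorem rho70_G5 {ρ : ℝ} (h : Dom ρ (-(7 / 10))) :
    (|sE ρ (-(7 / 10))| ≤ 2 * Real.pi / 3 → ρ ≤ 2) ∧
      (|sE ρ (-(7 / 10))| ≤ Real.pi / 2 → ρ ≤ 29 / 20) := by
  have hρ := h.1
  have h1 := sE70_G5 h
  have h2 := sx70_G5 h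
  have h3 := neg_le_abs (sE ρ (-(7 / 10)))
  have hpi2 := Real.pi_lt_d4
  have hx0 := sx_nonneg ρ (-(7 / 10))
  have e1 : (3476 / 10000 / ρ) * ρ = 3476 / 10000 := by field_simp
  constructor
  · intro h4
    by_contra hc
    push Not at hc
    have h5 : 198 / 100 * ρ ≤ sx ρ (-(7 / 10)) := by
      refine abs_le_of_sq_le_sq' ?_ hx0 |>.2
      refine le_trans ?_ h2
      nlinarith
    have h6 : 3476 / 10000 / ρ + 98 / 100 * ρ ≤ 21 / 10 := by
      norm_num at hpi2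
      linarith
    have h7 : (3476 / 10000 / ρ + 98 / 100 * ρ) * ρ ≤ 21 / 10 * ρ :=
      mul_le_mul_of_nonneg_right h6 hρ.le
    rw [add_mul, e1] at h7
    nlinarith
  · intro h4
    by_contra hc
    push Not at hc
    have h5 : 195 / 100 * ρ ≤ sx ρ (-(7 / 10)) := by
      refine abs_le_of_sq_le_sq' ?_ hx0 |>.2
      refine le_trans ?_ h2
      nlinarith
    have h6 : 3476 / 10000 / ρ + 95 / 100 * ρ ≤ 158 / 100 := by
      norm_num at hpi2
      linarith
    have h7 : (3476 / 10000 / ρ + 95 / 100 * ρ) * ρ ≤ 158 / 100 * ρ :=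
      mul_le_mul_of_nonneg_right h6 hρ.le
    rw [add_mul, e1] at h7
    nlinarith

/-- [FT-DD7] (true: 1.96). -/
theorem bd_rho {ρ b : ℝ} (h : Bd ρ b) : ρ ≤ 2 := by
  obtain ⟨hD, hb⟩ := h
  rcases hb with hb | hph
  · subst hb
    exact (rho70_G5 hD.dom).1 hD.eta
  · rcases le_total b 0 with hb | hb
    · exact (rho_neg_G5 hD hb hph).trans (by norm_num)
    · exact (rho_pos_G5 hD hb hph).trans (by norm_num)

/-- [FT-DD7] (true: 1.43 / 1.39). -/
theorem bd_rho' {ρ b : ℝ} (h : Bd ρ b) (hb : 0 ≤ b ∨ |sE ρ b| ≤ Real.pi / 2) : ρ ≤ 29 / 20 := by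
  obtain ⟨hD, hb'⟩ := h
  rcases hb' with hb' | hph
  · subst hb'
    rcases hb with hb | hb
    · norm_num at hb
    · exact (rho70_G5 hD.dom).2 hb
  · rcases le_total b 0 with hb0 | hb0
    · exact (rho_neg_G5 hD hb0 hph).trans (by norm_num)
    · exact rho_pos_G5 hD hb0 hph

end SokalF1T
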