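import Pool.Agent.Lib_MP_af4de1_f1.TG1
import Pool.Agent.Lib_MP_af4de1_f1.TG2
import Pool.Agent.Lib_MP_af4de1_f1.TG3
import Pool.Agent.Lib_MP_af4de1_f1.TG4
import Pool.Agent.Lib_MP_af4de1_f1.TG5
import Pool.Agent.Lib_MP_af4de1_f1.GTay

/-!
# [FT-G6] gap, N = 3
(see `TopGapD.lean` for the curve and its one variable descriptions)

The trial `c = 1/2` is used twice (helper85's idea): backwards at the boundary point, where `ph = 11/25`, it gives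
`|sE b - ρ/2| ≥ π/3 + 63/1000`; forwards at `H` it gives `ph(H) ≥ (1 + log (2 cos (π/3 - 63/1000)))/2 ≥ 5508/10000`.
For `b = -7/10` the angle is bounded by `bd_abs_ge` (`ρ ≤ 4/5`) or by `β + x - ρ` (`ρ ≥ 4/5`; trial `c = 1` for `ρ ≥ 13/10`).
-/

set_option autoImplicit false

namespace SokalF1T

open SokalF1S

theorem g3_str {ρ y : ℝ} (h : DD ρ y) : |y| * Real.exp y < ρ := by
  refine lt_of_le_of_ne h.dom.2 fun he => ?_
  have e1 := sx_sq_add h.dom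
  have e2 : ρ * Real.exp (-y) = |y| := by
    rw [← he, mul_assoc, ← Real.exp_add]
    simp
  rw [e2, sq_abs] at e1
  have e3 : sx ρ y = 0 := by
    have : sx ρ y ^ 2 = 0 := by linarith
    exact pow_eq_zero_iff two_ne_zero |>.1 this
  have e4 : ph ρ y = 0 := by
    unfold ph
    rw [e3]
    simp
  have := h.phi
  rw [e4] at this
  norm_num at this

/-- trial `c = 1/2` -/
theorem g3_half {ρ y C : ℝ} (h : DD ρ y) (hC : 0 < C) (hθ : |sE ρ y - ρ / 2| < Real.pi / 2)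
    (h1 : C ≤ Real.cos (sE ρ y - ρ / 2)) : (1 + Real.log (2 * C)) / 2 ≤ ph ρ y := by
  have e : sE ρ y - ρ * (1 - 1 / 2) = sE ρ y - ρ / 2 := by ring
  have h2 := ph_trial h.dom (g3_str h) (by linarith [h.y0]) (c := 1 / 2) (by norm_num)
    (by rw [e]; exact hθ)
  rw [e] at h2
  have h3 : Real.log C ≤ Real.log (Real.cos (sE ρ y - ρ / 2)) := Real.log_le_log hC h1
  have h4 : Real.log (2 * C) = Real.log 2 + Real.log C := Real.log_mul (by norm_num) hC.ne'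
  have h5 : Real.log (1 / 2) = -Real.log 2 := by rw [one_div, Real.log_inv]
  rw [h5] at h2
  linarith

/-- trial `c = 1` -/
theorem g3_one {ρ y C : ℝ} (h : DD ρ y) (hC : 0 < C) (hθ : |sE ρ y| < Real.pi / 2)
    (h1 : C ≤ Real.cos (sE ρ y)) : 1 + Real.log C ≤ ph ρ y := by
  have e : sE ρ y - ρ * (1 - 1) = sE ρ y := by ring
  have h2 := ph_trial h.dom (g3_str h) (by linarith [h.y0]) (c := 1) (by norm_num)
    (by rw [e]; exact hθ)
  rw [e] at h2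
  have h3 : Real.log C ≤ Real.log (Real.cos (sE ρ y)) := Real.log_le_log hC h1
  rw [Real.log_one] at h2
  linarith

theorem g3_cos {θ a C : ℝ} (h : |θ| ≤ a) (ha : a ≤ Real.pi) (hC : C ≤ Real.cos a) :
    C ≤ Real.cos θ := by
  rw [← Real.cos_abs θ]
  exact hC.trans (Real.cos_le_cos_of_nonneg_of_le_pi (abs_nonneg _) ha h)

theorem g3_sqrt3 : (1732 / 1000 : ℝ) ≤ √3 ∧ √3 ≤ (17321 / 10000 : ℝ) := by
  constructor
  · apply Real.le_sqrt_of_sq_le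
    norm_num
  · rw [Real.sqrt_le_left (by norm_num)]
    norm_num

theorem g3_cosA : (444 / 1000 : ℝ) ≤ Real.cos (Real.pi / 3 + 63 / 1000) := by
  rw [Real.cos_add, Real.cos_pi_div_three, Real.sin_pi_div_three]
  have h1 : 1 - (63 / 1000 : ℝ) ^ 2 / 2 ≤ Real.cos (63 / 1000) := SokalF1G.cos_ge2
  have h2 : Real.sin (63 / 1000 : ℝ) ≤ 63 / 1000 := SokalF1G.sin_le1 (by norm_num)
  have h3 : 0 ≤ Real.sin (63 / 1000 : ℝ) :=
    Real.sin_nonneg_of_nonneg_of_le_pi (by norm_num) (by linarith [Real.pi_gt_three])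
  obtain ⟨h4, h5⟩ := g3_sqrt3
  have h6 : √3 / 2 * Real.sin (63 / 1000) ≤ 17321 / 20000 * (63 / 1000) :=
    mul_le_mul (by linarith) h2 h3 (by norm_num)
  norm_num at h1 h6 ⊢
  linarith

theorem g3_cosB : (5535 / 10000 : ℝ) ≤ Real.cos (Real.pi / 3 - 63 / 1000) := by
  rw [Real.cos_sub, Real.cos_pi_div_three, Real.sin_pi_div_three]
  have h1 : 1 - (63 / 1000 : ℝ) ^ 2 / 2 ≤ Real.cos (63 / 1000) := SokalF1G.cos_ge2
  have h2 : (63 / 1000 : ℝ) - (63 / 1000) ^ 3 / 6 ≤ Real.sin (63 / 1000) :=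
    SokalF1G.sin_ge3 (by norm_num)
  obtain ⟨h4, h5⟩ := g3_sqrt3
  have h6 : 866 / 1000 * ((63 / 1000 : ℝ) - (63 / 1000) ^ 3 / 6) ≤ √3 / 2 * Real.sin (63 / 1000) :=
    mul_le_mul (by linarith) h2 (by norm_num) (by positivity)
  norm_num at h1 h6 ⊢
  linarith

theorem g3_log {c x : ℝ} (h0 : 0 < x) (h : Real.exp c ≤ x) : c ≤ Real.log x :=
  (Real.le_log_iff_exp_le h0).2 h

/-- upper bound of `exp` -/
theorem g3_exp_le {x : ℝ} (h0 : 0 ≤ x) (h1 : x ≤ 1) :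
    Real.exp x ≤ 1 + x + x ^ 2 / 2 + x ^ 3 / 6 + x ^ 4 / 24 + x ^ 5 / 120 + x ^ 6 / 720 * (7 / 6) := by
  have h := Real.exp_bound' h0 h1 (n := 6) (by norm_num)
  refine h.trans (le_of_eq ?_)
  simp [Finset.sum_range_succ, Nat.factorial]
  ring

/-- lower bound of `exp` -/
theorem g3_exp_ge {x : ℝ} (h0 : 0 ≤ x) :
    1 + x + x ^ 2 / 2 + x ^ 3 / 6 + x ^ 4 / 24 + x ^ 5 / 120 + x ^ 6 / 720 ≤ Real.exp x := by
  have h := Real.sum_le_exp_of_nonneg h0 7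
  refine le_trans (le_of_eq ?_) h
  simp [Finset.sum_range_succ, Nat.factorial]

/-- `exp (-(499/10) d) ≤ K` -/
theorem g3_K {d c K : ℝ} (hd : c / (499 / 10) ≤ d) (hK : Real.exp (-c) ≤ K) :
    Real.exp (-(499 / 10) * d) ≤ K := by
  refine (Real.exp_le_exp.2 ?_).trans hK
  rw [div_le_iff₀ (by norm_num)] at hd
  linarith

theorem g3_fin {ρ y b M m K : ℝ} (hM : max 1 (Real.exp (y - b)) ≤ M) (hb : 0 < sD2 ρ b)
    (hm0 : 0 ≤ m) (hm : sD2 ρ y ≤ m ^ 4 * sD2 ρ b)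
    (hK : Real.exp (-(499 / 10) * (ph ρ y - ph ρ b)) ≤ K) (hf : M * m * K ≤ 1 / 40) :
    GapC ρ y b ≤ 1 / 40 := by
  unfold GapC
  refine le_trans ?_ hf
  have h1 : 0 < √(√(sD2 ρ b)) := Real.sqrt_pos.2 (Real.sqrt_pos.2 hb)
  have h2 : √(√(sD2 ρ y)) / √(√(sD2 ρ b)) ≤ m := by
    rw [div_le_iff₀ h1]
    have h3 : √(√(m ^ 4 * sD2 ρ b)) = m * √(√(sD2 ρ b)) := by
      have e1 : m ^ 4 = (m ^ 2) ^ 2 := by ring
      rw [Real.sqrt_mul (by positivity), e1, Real.sqrt_sq (by positivity),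
        Real.sqrt_mul (by positivity), Real.sqrt_sq hm0]
    rw [← h3]
    exact Real.sqrt_le_sqrt (Real.sqrt_le_sqrt hm)
  have h4 : 0 ≤ √(√(sD2 ρ y)) / √(√(sD2 ρ b)) := by positivity
  have h5 : (0 : ℝ) ≤ max 1 (Real.exp (y - b)) := le_trans zero_le_one (le_max_left _ _)
  have h6 : 0 ≤ M := h5.trans hM
  exact mul_le_mul (mul_le_mul hM h2 h4 h6) hK (Real.exp_pos _).le (by positivity)

/-- the positive side: existence of `H` -/
theorem g3_pos {ρ η P : ℝ} (hρ : 0 < ρ) (h0 : 0 ≤ η) (h1 : η ≤ 2 * Real.pi / 3) (hP : 11 / 25 < P)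
    (H : ∀ y, DD ρ y → 0 ≤ y → 0 ≤ sE ρ y → sE ρ y ≤ η → P ≤ ph ρ y) :
    ∃ y, 0 ≤ y ∧ DD ρ y ∧ sE ρ y = η ∧ P ≤ ph ρ y := by
  obtain ⟨b, hb0, hb, hb1⟩ := bdry_pos hρ
  have hs0 : 0 ≤ sE ρ b := by
    have := (sE_strictMonoOn (dom_zero hρ) hb.dom (by linarith)).monotoneOn
      (Set.left_mem_Icc.2 hb0) (Set.right_mem_Icc.2 hb0) hb0
    rwa [sE_zero hρ] at this
  have hη : η ≤ sE ρ b := by
    by_contra hlt
    push Not at hlt
    rcases hb1 with h2 | h2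
    · have := H b hb hb0 hs0 hlt.le
      linarith
    · linarith
  obtain ⟨y, hy, e, hy2⟩ := DD_exists hb (Or.inr ⟨h0, hη⟩)
  have hy0 : 0 ≤ y := by
    rcases hy2 with ⟨h3, h4⟩ | ⟨h3, h4⟩
    · exact hb0.trans h3
    · exact h3
  exact ⟨y, hy0, hy, e, H y hy hy0 (by rw [e]; exact h0) e.le⟩

/-- the negative side: existence of `H` -/
theorem g3_neg {ρ η P : ℝ} (hρ : 0 < ρ) (h0 : η ≤ 0) (h1 : -(2 * Real.pi / 3) ≤ η)
    (hP : 11 / 25 < P) (H : ∀ y, DD ρ y → y ≤ 0 → sE ρ y ≤ 0 → η ≤ sE ρ y → P ≤ ph ρ y)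
    (H7 : DD ρ (-(7 / 10)) → sE ρ (-(7 / 10)) ≤ 0 → sE ρ (-(7 / 10)) ≤ η) :
    ∃ y, y ≤ 0 ∧ DD ρ y ∧ sE ρ y = η ∧ P ≤ ph ρ y := by
  obtain ⟨b, hb0, hb, hb1⟩ := bdry_neg hρ
  have hs0 : sE ρ b ≤ 0 := by
    have := (sE_strictMonoOn hb.dom (dom_zero hρ) (by linarith [hb.y0])).monotoneOn
      (Set.left_mem_Icc.2 hb0) (Set.right_mem_Icc.2 hb0) hb0
    rwa [sE_zero hρ] at this
  have hη : sE ρ b ≤ η := by
    by_contra hlt
    push Not at hlt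
    rcases hb1 with (h2 | h2) | h2
    · subst h2
      have := H7 hb hs0
      linarith
    · have := H b hb hb0 hs0 hlt.le
      linarith
    · linarith
  obtain ⟨y, hy, e, hy2⟩ := DD_exists hb (Or.inl ⟨hη, h0⟩)
  have hy0 : y ≤ 0 := by
    rcases hy2 with ⟨h3, h4⟩ | ⟨h3, h4⟩
    · exact h4
    · exact h4.trans hb0
  exact ⟨y, hy0, hy, e, H y hy hy0 (by rw [e]; exact h0) e.ge⟩

/-- the boundary angle, from the trial `c = 1/2` -/
theorem g3_back {ρ b : ℝ} (h : DD ρ b) (hb : ph ρ b = 11 / 25) :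
    Real.pi / 3 + 63 / 1000 ≤ |sE ρ b - ρ / 2| := by
  by_contra hlt
  push Not at hlt
  have hπ := Real.pi_gt_three
  have h1 : (444 / 1000 : ℝ) ≤ Real.cos (sE ρ b - ρ / 2) :=
    g3_cos hlt.le (by linarith) g3_cosA
  have h2 := g3_half h (by norm_num) (by linarith) h1
  rw [hb] at h2
  have h3 : (-(3 / 25) : ℝ) < Real.log (2 * (444 / 1000)) := by
    rw [Real.lt_log_iff_exp_lt (by norm_num), Real.exp_neg]
    have h4 := g3_exp_ge (x := 3 / 25) (by norm_num)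
    have h5 : (1127 / 1000 : ℝ) ≤ Real.exp (3 / 25) := le_trans (by norm_num) h4
    rw [inv_lt_comm₀ (Real.exp_pos _) (by norm_num)]
    refine lt_of_lt_of_le ?_ h5
    norm_num
  linarith

theorem g3_P : (5508 / 10000 : ℝ) ≤ (1 + Real.log (2 * (5535 / 10000))) / 2 := by
  have h1 : (1016 / 10000 : ℝ) ≤ Real.log (2 * (5535 / 10000)) := by
    refine g3_log (by norm_num) ((g3_exp_le (by norm_num) (by norm_num)).trans ?_)
    norm_num
  linarith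

/-- forward: `ph ≥ 5508/10000` -/
theorem g3_fwd {ρ y : ℝ} (h : DD ρ y) (hy : |sE ρ y - ρ / 2| ≤ Real.pi / 3 - 63 / 1000) :
    5508 / 10000 ≤ ph ρ y := by
  have hπ := Real.pi_gt_three
  exact g3_P.trans (g3_half h (by norm_num) (by linarith) (g3_cos hy (by linarith) g3_cosB))

theorem g3_K1 : Real.exp (-(5528 / 1000)) ≤ 398 / 100000 := by
  rw [Real.exp_neg]
  have h := Real.sum_le_exp_of_nonneg (x := 5528 / 1000) (by norm_num) 20
  have h2 : (2515 / 10 : ℝ) ≤ Real.exp (5528 / 1000) := by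
    refine le_trans ?_ h
    simp only [Finset.sum_range_succ, Finset.sum_range_zero, Nat.factorial]
    norm_num
  rw [inv_le_comm₀ (Real.exp_pos _) (by norm_num)]
  refine le_trans ?_ h2
  norm_num

theorem g3_K1' {d : ℝ} (hd : 1108 / 10000 ≤ d) : Real.exp (-(499 / 10) * d) ≤ 398 / 100000 :=
  g3_K (c := 5528 / 1000) (le_trans (by norm_num) hd) g3_K1

/-- `(1-t) e^t ≤ 1 - t²/2 - t³/3` -/
theorem g3_W {t : ℝ} (h0 : 0 ≤ t) (h1 : t ≤ 7 / 10) :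
    (1 - t) * Real.exp t ≤ 1 - t ^ 2 / 2 - t ^ 3 / 3 := by
  have h := g3_exp_le h0 (by linarith)
  have h2 : (1 - t) * Real.exp t ≤ (1 - t) * (1 + t + t ^ 2 / 2 + t ^ 3 / 6 + t ^ 4 / 24 +
      t ^ 5 / 120 + t ^ 6 / 720 * (7 / 6)) := mul_le_mul_of_nonneg_left h (by linarith)
  refine h2.trans ?_
  have h3 : 0 ≤ t ^ 4 := by positivity
  have h4 : 0 ≤ t ^ 5 := by positivity
  have h5 : 0 ≤ t ^ 6 := by positivity
  have h7 : 0 ≤ t ^ 7 := by positivity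
  have h6 : t ^ 6 ≤ t ^ 4 := by nlinarith [pow_le_pow_of_le_one h0 (by linarith : t ≤ 1) (by norm_num : 4 ≤ 6)]
  nlinarith

/-- lower bound -/
theorem g3_W2 {t : ℝ} (h0 : 0 ≤ t) (h1 : t ≤ 7 / 10) :
    1 - t ^ 2 / 2 - t ^ 3 / 2 ≤ (1 - t) * Real.exp t := by
  have h := Real.quadratic_le_exp_of_nonneg h0
  have h2 := mul_le_mul_of_nonneg_left h (by linarith : (0 : ℝ) ≤ 1 - t)
  refine le_trans (le_of_eq ?_) h2
  ring

/-- the curve `ph = φ` on the negative side -/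
theorem g3_curve {ρ b : ℝ} (h : DD ρ b) :
    sx ρ b * (1 + b) = ph ρ b * ρ ∧ sx ρ b ^ 2 + b ^ 2 = (ρ * Real.exp (-b)) ^ 2 := by
  have hρ := h.dom.1
  refine ⟨?_, sx_sq_add h.dom⟩
  unfold ph
  field_simp

/-- `ρ ≤ 3/5` and `D(b)² ≥ 1/4` -/
theorem g3_neg_facts {ρ b : ℝ} (h : DD ρ b) (hb : b ≤ 0) (hp : ph ρ b = 11 / 25) :
    ρ ≤ 3 / 5 ∧ 1 / 4 ≤ sD2 ρ b := by
  obtain ⟨e1, e2⟩ := g3_curve h
  rw [hp] at e1
  have hρ := h.dom.1
  have hb7 := h.y0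
  obtain ⟨t, ht⟩ : ∃ t, t = -b := ⟨_, rfl⟩
  have hbt : b = -t := by linarith
  subst hbt
  rw [neg_neg] at e2
  have t0 : 0 ≤ t := by linarith
  have t1 : t ≤ 7 / 10 := by linarith
  have w1 := g3_W t0 t1
  have w2 := g3_W2 t0 t1
  set x := sx ρ (-t) with hx
  have hx0 : 0 ≤ x := sx_nonneg _ _
  set W := (1 - t) * Real.exp t with hW
  have e3 : ρ ^ 2 * (W ^ 2 - (11 / 25) ^ 2) = t ^ 2 * (1 - t) ^ 2 := by
    have : ρ ^ 2 * W ^ 2 = (1 - t) ^ 2 * (ρ * Real.exp t) ^ 2 := by rw [hW]; ring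
    rw [mul_sub, this, ← e2]
    linear_combination (x * (1 + -t) + 11 / 25 * ρ) * e1
  have e4 : x ^ 2 * (W ^ 2 - (11 / 25) ^ 2) = (11 / 25) ^ 2 * t ^ 2 := by
    rw [hW]
    linear_combination (Real.exp t ^ 2 * (x * (1 + -t) + 11 / 25 * ρ)) * e1 - (11 / 25) ^ 2 * e2
  have t2 : t ^ 2 ≤ 49 / 100 := by nlinarith
  have t3 : t ^ 3 ≤ 343 / 1000 := by nlinarith
  have hV : 5835 / 10000 ≤ W := by linarith
  refine ⟨?_, ?_⟩
  · by_contra hlt
    push Not at hlt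
    have a1 : (5835 / 10000 : ℝ) ^ 2 ≤ W ^ 2 := pow_le_pow_left₀ (by norm_num) hV 2
    have a2 : (3 / 5 : ℝ) ^ 2 < ρ ^ 2 := pow_lt_pow_left₀ hlt (by norm_num) (by norm_num)
    have a3 : (3 / 5 : ℝ) ^ 2 * (W ^ 2 - (11 / 25) ^ 2) < ρ ^ 2 * (W ^ 2 - (11 / 25) ^ 2) :=
      mul_lt_mul_of_pos_right a2 (by norm_num at a1 ⊢; linarith)
    rw [e3] at a3
    have a4 : t ^ 2 * (1 - t) ^ 2 = (t * (1 - t)) ^ 2 := by ring
    have a5 : 0 ≤ t * (1 - t) := mul_nonneg t0 (by linarith)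
    rw [a4] at a3
    rcases le_total t (13 / 20) with h5 | h5
    · have b1 : 65 / 100 ≤ W := by
        refine le_trans ?_ w2
        have : t ^ 2 ≤ (13 / 20) ^ 2 := pow_le_pow_left₀ t0 h5 2
        have : t ^ 3 ≤ (13 / 20) ^ 3 := pow_le_pow_left₀ t0 h5 3
        norm_num at *
        linarith
      have b2 : (65 / 100 : ℝ) ^ 2 ≤ W ^ 2 := pow_le_pow_left₀ (by norm_num) b1 2
      have b3 : t * (1 - t) ≤ 1 / 4 := by nlinarith [sq_nonneg (t - 1 / 2)]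
      have b4 : (t * (1 - t)) ^ 2 ≤ (1 / 4) ^ 2 := pow_le_pow_left₀ a5 b3 2
      norm_num at a3 b2 b4
      linarith
    · have b3 : t * (1 - t) ≤ 2275 / 10000 := by nlinarith
      have b4 : (t * (1 - t)) ^ 2 ≤ (2275 / 10000) ^ 2 := pow_le_pow_left₀ a5 b3 2
      norm_num at a3 a1 b4
      linarith
  · unfold sD2
    rw [← hx]
    rcases le_total t (1 / 2) with h5 | h5
    · nlinarith [sq_nonneg x]
    · have b1 : W ≤ 83334 / 100000 := by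
        refine w1.trans ?_
        have : (1 / 2 : ℝ) ^ 2 ≤ t ^ 2 := pow_le_pow_left₀ (by norm_num) h5 2
        have : (1 / 2 : ℝ) ^ 3 ≤ t ^ 3 := pow_le_pow_left₀ (by norm_num) h5 3
        norm_num at *
        linarith
      have b2 : W ^ 2 ≤ (83334 / 100000) ^ 2 := pow_le_pow_left₀ (by linarith) b1 2
      have b3 : x ^ 2 * (W ^ 2 - (11 / 25) ^ 2) ≤ x ^ 2 * (501 / 1000) :=
        mul_le_mul_of_nonneg_left (by norm_num at b2 ⊢; linarith) (sq_nonneg x)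
      rw [e4] at b3
      nlinarith [sq_nonneg (t - 18 / 25)]


theorem g3_yle {ρ y y0 : ℝ} (h : DD ρ y) (h0 : 0 ≤ y0)
    (hr : ρ < y0 * (1 + y0 + y0 ^ 2 / 2 + y0 ^ 3 / 6)) : y ≤ y0 := by
  by_contra hlt
  push Not at hlt
  have h1 := g3_exp_ge h0
  have h2 : Real.exp y0 ≤ Real.exp y := Real.exp_le_exp.2 hlt.le
  have h3 := (dom_iff.1 h.dom.2).2
  have h4 : 1 + y0 + y0 ^ 2 / 2 + y0 ^ 3 / 6 ≤ Real.exp y := by
    have : 0 ≤ y0 ^ 4 / 24 + y0 ^ 5 / 120 + y0 ^ 6 / 720 := by positivity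
    linarith
  have h5 : y0 * (1 + y0 + y0 ^ 2 / 2 + y0 ^ 3 / 6) ≤ y * Real.exp y :=
    mul_le_mul hlt.le h4 (by positivity) (h0.trans hlt.le)
  linarith

theorem g3_D2le {ρ y y0 : ℝ} (h : DD ρ y) (hy : 0 ≤ y) (h0 : y ≤ y0) :
    sD2 ρ y ≤ (1 + y0) ^ 2 + ρ ^ 2 := by
  unfold sD2
  have h1 := sx_sq h.dom
  have h2 : Real.exp (-y) ≤ 1 := Real.exp_le_one_iff.2 (by linarith)
  have h3 : (ρ * Real.exp (-y)) ^ 2 ≤ ρ ^ 2 := by
    refine pow_le_pow_left₀ (mul_nonneg h.dom.1.le (Real.exp_pos _).le) ?_ 2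
    nlinarith [h.dom.1]
  have h4 : (1 + y) ^ 2 ≤ (1 + y0) ^ 2 := pow_le_pow_left₀ (by linarith) (by linarith) 2
  nlinarith [sq_nonneg y]

theorem g3_sE_nonpos {ρ b : ℝ} (h : DD ρ b) (hb : b ≤ 0) : sE ρ b ≤ 0 := by
  have := (sE_strictMonoOn h.dom (dom_zero h.dom.1) (by linarith [h.y0])).monotoneOn
    (Set.left_mem_Icc.2 hb) (Set.right_mem_Icc.2 hb) hb
  rwa [sE_zero h.dom.1] at this

theorem g3_sE_nonneg {ρ b : ℝ} (h : DD ρ b) (hb : 0 ≤ b) : 0 ≤ sE ρ b := by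
  have := (sE_strictMonoOn (dom_zero h.dom.1) h.dom (by linarith)).monotoneOn
    (Set.left_mem_Icc.2 hb) (Set.right_mem_Icc.2 hb) hb
  rwa [sE_zero h.dom.1] at this

/-- `exp (1 + u) ≤ M` -/
theorem g3_M {d u M : ℝ} (hd : d ≤ 1 + u) (hu0 : 0 ≤ u) (hu1 : u ≤ 1) (h1 : 1 ≤ M)
    (hM : 27182818286 / 10000000000 * (1 + u + u ^ 2 / 2 + u ^ 3 / 6 + u ^ 4 / 24 + u ^ 5 / 120 +
      u ^ 6 / 720 * (7 / 6)) ≤ M) : max 1 (Real.exp d) ≤ M := by
  refine max_le h1 ((Real.exp_le_exp.2 hd).trans ?_)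
  rw [Real.exp_add]
  refine le_trans ?_ hM
  have h2 := Real.exp_one_lt_d9
  exact mul_le_mul (by norm_num at h2 ⊢; linarith) (g3_exp_le hu0 hu1) (Real.exp_pos _).le
    (by norm_num)

/-- `b ≤ 0`, `ph = 11/25` -/
theorem g3_case1 {ρ b η : ℝ} (h : DD ρ b) (hb : b ≤ 0) (hp : ph ρ b = 11 / 25) (hη0 : 0 ≤ η)
    (hη : η + |sE ρ b| ≤ 2 * Real.pi / 3) : ∃ y, DD ρ y ∧ sE ρ y = η ∧ GapC ρ y b ≤ 1 / 40 := by
  have hρ := h.dom.1
  have hπ := Real.pi_gt_three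
  obtain ⟨r1, r2⟩ := g3_neg_facts h hb hp
  have hs := g3_sE_nonpos h hb
  have h1 := g3_back h hp
  rw [abs_of_nonpos (by linarith)] at h1
  rw [abs_of_nonpos hs] at hη
  obtain ⟨y, hy0, hy, e, hP⟩ := g3_pos (P := 5508 / 10000) hρ hη0 (by linarith) (by norm_num)
    (fun y hy hy0 h2 h3 => g3_fwd hy (abs_le.2 ⟨by linarith, by linarith⟩))
  refine ⟨y, hy, e, ?_⟩
  have hy1 : y ≤ 41 / 100 := g3_yle hy (by norm_num) (lt_of_le_of_lt r1 (by norm_num))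
  have hD := g3_D2le hy hy0 hy1
  have hρ2 : ρ ^ 2 ≤ (3 / 5) ^ 2 := pow_le_pow_left₀ hρ.le r1 2
  refine g3_fin (M := 304 / 100) (m := 176 / 100) (K := 398 / 100000)
    (g3_M (u := 11 / 100) (by linarith [h.y0]) (by norm_num) (by norm_num) (by norm_num)
      (by norm_num)) (by linarith) (by norm_num) ?_ (g3_K1' (by rw [hp]; linarith)) (by norm_num)
  norm_num at hρ2 hD ⊢
  linarith

/-- `b ≥ 0`, `ph = 11/25` -/
theorem g3_case2 {ρ b η : ℝ} (h : DD ρ b) (hb : 0 ≤ b) (hp : ph ρ b = 11 / 25) (hη0 : η ≤ 0)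
    (hη : -η + |sE ρ b| ≤ 2 * Real.pi / 3) :
    ∃ y, DD ρ y ∧ sE ρ y = η ∧ GapC ρ y b ≤ 1 / 40 := by
  have hρ := h.dom.1
  have hπ := Real.pi_gt_three
  have hπ2 := Real.pi_lt_d6
  have r1 : ρ ≤ 29 / 20 := bd_rho' ⟨h, Or.inr hp⟩ (Or.inl hb)
  have hs := g3_sE_nonneg h hb
  have h1 := g3_back h hp
  rw [abs_of_nonneg hs] at hη
  have h2 : Real.pi / 3 + 63 / 1000 ≤ sE ρ b - ρ / 2 := by
    rcases abs_cases (sE ρ b - ρ / 2) with ⟨h3, h4⟩ | ⟨h3, h4⟩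
    · linarith
    · rw [h3] at h1
      linarith
  have H7 : DD ρ (-(7 / 10)) → sE ρ (-(7 / 10)) ≤ 0 → sE ρ (-(7 / 10)) ≤ η := by
    intro g1 g2
    have g3 := bd_abs_ge (ρ := ρ) (b := -(7 / 10)) ⟨g1, Or.inl rfl⟩
    rw [abs_of_nonpos g2] at g3
    have g4 := g1.dom.2
    have g5 : (3 / 10 : ℝ) ≤ Real.exp (-(7 / 10)) := by
      have := Real.add_one_le_exp (-(7 / 10) : ℝ)
      linarith
    rw [abs_of_nonpos (by norm_num)] at g4
    norm_num at g4 g5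
    nlinarith
  obtain ⟨y, hy0, hy, e, hP⟩ := g3_neg (P := 5508 / 10000) hρ hη0 (by linarith) (by norm_num)
    (fun y hy hy0 h2 h3 => g3_fwd hy (abs_le.2 ⟨by linarith, by linarith⟩)) H7
  refine ⟨y, hy, e, ?_⟩
  have hM : max 1 (Real.exp (y - b)) ≤ 1 := max_le le_rfl (Real.exp_le_one_iff.2 (by linarith))
  have hD1 : 1 ≤ sD2 ρ b := by
    unfold sD2
    nlinarith [sq_nonneg (sx ρ b)]
  have hD2 : sD2 ρ y ≤ 954 / 100 := by
    unfold sD2
    have g1 := sx_sq hy.dom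
    have g2 : Real.exp (-y) ≤ 2014 / 1000 := by
      have g3 : Real.exp (-y) ≤ Real.exp (7 / 10) := Real.exp_le_exp.2 (by linarith [hy.y0])
      refine g3.trans ((g3_exp_le (by norm_num) (by norm_num)).trans ?_)
      norm_num
    have g3 : ρ * Real.exp (-y) ≤ 29 / 20 * (2014 / 1000) :=
      mul_le_mul r1 g2 (Real.exp_pos _).le (by norm_num)
    have g4 : (ρ * Real.exp (-y)) ^ 2 ≤ (29 / 20 * (2014 / 1000)) ^ 2 :=
      pow_le_pow_left₀ (mul_nonneg hρ.le (Real.exp_pos _).le) g3 2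
    have g5 : (1 + y) ^ 2 ≤ 1 := by nlinarith [hy.y0]
    norm_num at g4
    nlinarith [sq_nonneg y]
  refine g3_fin (M := 1) (m := 176 / 100) (K := 398 / 100000) hM (by linarith) (by norm_num) ?_
    (g3_K1' (by rw [hp]; linarith)) (by norm_num)
  norm_num
  linarith

/-- `b = -7/10` -/
theorem g3_seven {ρ : ℝ} (h : DD ρ (-(7 / 10))) :
    257 / 1000 ≤ ρ ^ 2 ∧ 507 / 1000 ≤ ρ ∧ 22 / 15 * ρ ≤ sx ρ (-(7 / 10)) ∧
    ph ρ (-(7 / 10)) ^ 2 * ρ ^ 2 ≤ 9 / 100 * (40554 / 10000 * ρ ^ 2 - 49 / 100) ∧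
    40549 / 10000 * ρ ^ 2 - 49 / 100 ≤ sx ρ (-(7 / 10)) ^ 2 ∧
    3476 / 10000 ≤ ρ * (-sP ρ (-(7 / 10))) := by
  have hρ := h.dom.1
  obtain ⟨e1, e2⟩ := g3_curve h
  have hφ := h.phi
  rw [neg_neg] at e2
  have E1 : Real.exp (7 / 10) ≤ 20138 / 10000 := by
    refine (g3_exp_le (by norm_num) (by norm_num)).trans ?_
    norm_num
  have E0 : 20137 / 10000 ≤ Real.exp (7 / 10) := by
    refine le_trans ?_ (g3_exp_ge (by norm_num))
    norm_num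
  have E2 : (ρ * Real.exp (7 / 10)) ^ 2 ≤ 40554 / 10000 * ρ ^ 2 := by
    have : Real.exp (7 / 10) ^ 2 ≤ (20138 / 10000) ^ 2 := pow_le_pow_left₀ (Real.exp_pos _).le E1 2
    rw [mul_pow]
    norm_num at this
    nlinarith [sq_nonneg ρ]
  have E3 : 40549 / 10000 * ρ ^ 2 ≤ (ρ * Real.exp (7 / 10)) ^ 2 := by
    have : (20137 / 10000 : ℝ) ^ 2 ≤ Real.exp (7 / 10) ^ 2 := pow_le_pow_left₀ (by norm_num) E0 2
    rw [mul_pow]
    norm_num at this
    nlinarith [sq_nonneg ρ]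
  have hx : 22 / 15 * ρ ≤ sx ρ (-(7 / 10)) := by
    have : 11 / 25 * ρ ≤ ph ρ (-(7 / 10)) * ρ := mul_le_mul_of_nonneg_right hφ hρ.le
    linarith
  have hx2 : (22 / 15 * ρ) ^ 2 ≤ sx ρ (-(7 / 10)) ^ 2 := pow_le_pow_left₀ (by positivity) hx 2
  have hr : 257 / 1000 ≤ ρ ^ 2 := by nlinarith
  refine ⟨hr, ?_, hx, ?_, ?_, ?_⟩
  · by_contra hlt
    push Not at hlt
    nlinarith
  · have : ph ρ (-(7 / 10)) ^ 2 * ρ ^ 2 = 9 / 100 * sx ρ (-(7 / 10)) ^ 2 := by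
      rw [← mul_pow, ← e1]
      ring
    rw [this]
    linarith
  · linarith
  · have hs := h.dom.sin
    have hP0 : 0 ≤ -sP ρ (-(7 / 10)) := by
      have := sP_nonpos hρ (by norm_num : (-(7 / 10) : ℝ) ≤ 0)
      linarith
    have h1 := Real.sin_le hP0
    rw [Real.sin_neg, hs] at h1
    have h2 : 3476 / 10000 ≤ 7 / 10 * Real.exp (-(7 / 10)) := by
      rw [Real.exp_neg, ← div_eq_mul_inv, le_div_iff₀ (Real.exp_pos _)]
      linarith
    have h3 : ρ * (-(-(7 / 10) * Real.exp (-(7 / 10)) / ρ)) = 7 / 10 * Real.exp (-(7 / 10)) := by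
      field_simp
    have h4 := mul_le_mul_of_nonneg_left h1 hρ.le
    rw [h3] at h4
    linarith


/-- the numbers of the case `b = -7/10`, trial `c = 1/2` -/
theorem g3_case7 {ρ η a C φ c m y0 u M K : ℝ} (h : DD ρ (-(7 / 10))) (hη0 : 0 ≤ η)
    (hη1 : η ≤ 2 * Real.pi / 3) (ha1 : η - ρ / 2 ≤ a) (ha2 : ρ / 2 ≤ a) (ha : a ≤ 3 / 2)
    (hC : 0 < C) (hCa : C ≤ Real.cos a) (hφ : ph ρ (-(7 / 10)) ≤ φ)
    (hc : Real.exp c ≤ 2 * C) (hΔ : 11 / 25 < (1 + c) / 2)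
    (hK : Real.exp (-(499 / 10) * ((1 + c) / 2 - φ)) ≤ K)
    (hy : ∀ y, 0 ≤ y → DD ρ y → y ≤ y0) (hu0 : 0 ≤ u) (hu1 : u ≤ 1) (hyu : y0 + 7 / 10 ≤ 1 + u)
    (hM1 : 1 ≤ M)
    (hM : 27182818286 / 10000000000 * (1 + u + u ^ 2 / 2 + u ^ 3 / 6 + u ^ 4 / 24 + u ^ 5 / 120 +
      u ^ 6 / 720 * (7 / 6)) ≤ M) (hm0 : 0 ≤ m)
    (hm : (1 + y0) ^ 2 + ρ ^ 2 ≤ m ^ 4 * (9 / 100 + sx ρ (-(7 / 10)) ^ 2))
    (hf : M * m * K ≤ 1 / 40) :
    ∃ y, DD ρ y ∧ sE ρ y = η ∧ GapC ρ y (-(7 / 10)) ≤ 1 / 40 := by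
  have hρ := h.dom.1
  have hπ := Real.pi_gt_three
  have hlog : c ≤ Real.log (2 * C) := g3_log (by linarith) hc
  obtain ⟨y, hy0, hyD, e, hP⟩ := g3_pos (P := (1 + c) / 2) hρ hη0 hη1 hΔ
    (fun y hy hy0 h2 h3 => by
      have h4 : |sE ρ y - ρ / 2| ≤ a := abs_le.2 ⟨by linarith, by linarith⟩
      refine le_trans ?_ (g3_half hy hC (by linarith) (g3_cos h4 (by linarith) hCa))
      linarith)
  refine ⟨y, hyD, e, ?_⟩
  have hy1 := hy y hy0 hyD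
  have hD := g3_D2le hyD hy0 hy1
  have hD1 : sD2 ρ (-(7 / 10)) = 9 / 100 + sx ρ (-(7 / 10)) ^ 2 := by
    unfold sD2
    norm_num
  refine g3_fin (M := M) (m := m) (K := K) (g3_M (u := u) (by linarith) hu0 hu1 hM1 hM)
    (sD2_pos (by norm_num)) hm0 (by rw [hD1]; linarith) ?_ hf
  refine (Real.exp_le_exp.2 ?_).trans hK
  linarith

theorem g3_K2 : Real.exp (-(5301 / 1000)) ≤ 4990 / 1000000 := by
  rw [Real.exp_neg]
  have h := Real.sum_le_exp_of_nonneg (x := 5301 / 1000) (by norm_num) 20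
  have h2 : (2005 / 10 : ℝ) ≤ Real.exp (5301 / 1000) := by
    refine le_trans ?_ h
    simp only [Finset.sum_range_succ, Finset.sum_range_zero, Nat.factorial]
    norm_num
  rw [inv_le_comm₀ (Real.exp_pos _) (by norm_num)]
  refine le_trans ?_ h2
  norm_num

theorem g3_case3 {ρ η : ℝ} (h : DD ρ (-(7 / 10))) (hη0 : 0 ≤ η)
    (hη : η + |sE ρ (-(7 / 10))| ≤ 2 * Real.pi / 3) :
    ∃ y, DD ρ y ∧ sE ρ y = η ∧ GapC ρ y (-(7 / 10)) ≤ 1 / 40 := by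
  have hρ := h.dom.1
  have hπ := Real.pi_gt_three
  have hπ2 := Real.pi_lt_d6
  obtain ⟨s1, s2, s3, s4, s5, s6⟩ := g3_seven h
  have hs := g3_sE_nonpos h (by norm_num)
  have hab := bd_abs_ge (ρ := ρ) (b := -(7 / 10)) ⟨h, Or.inl rfl⟩
  have hφ0 := h.phi
  have hsx := sx_nonneg ρ (-(7 / 10))
  have hEq : sE ρ (-(7 / 10)) = sP ρ (-(7 / 10)) + ρ - sx ρ (-(7 / 10)) := rfl
  rw [abs_of_nonpos hs] at hη hab
  have hη1 : η ≤ 2 * Real.pi / 3 := by linarith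
  have hx2 : (22 / 15 * ρ) ^ 2 ≤ sx ρ (-(7 / 10)) ^ 2 := pow_le_pow_left₀ (by positivity) s3 2
  set φ := ph ρ (-(7 / 10)) with hφ
  set x := sx ρ (-(7 / 10)) with hx
  have hle : ∀ {q : ℝ}, 0 ≤ q → φ ^ 2 * ρ ^ 2 ≤ q ^ 2 * ρ ^ 2 → φ ≤ q := by
    intro q hq h1
    have h2 : (φ * ρ) ^ 2 ≤ (q * ρ) ^ 2 := by rw [mul_pow, mul_pow]; exact h1
    have h3 := abs_le_of_sq_le_sq' h2 (by positivity)
    exact le_of_mul_le_mul_right h3.2 hρ
  rcases le_total ρ (33 / 50) with h1 | h1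
  · have hρ2 : ρ ^ 2 ≤ (33 / 50) ^ 2 := pow_le_pow_left₀ hρ.le h1 2
    have p1 : φ ≤ 514 / 1000 := hle (by norm_num) (by norm_num at hρ2 ⊢; linarith)
    refine g3_case7 (a := 881 / 1000) (C := 636 / 1000) (φ := 514 / 1000) (c := 2405 / 10000)
      (m := 141 / 100) (y0 := 43 / 100) (u := 13 / 100) (M := 31 / 10) (K := 4990 / 1000000)
      h hη0 hη1 (by linarith) (by linarith) (by norm_num) (by norm_num)
      (le_trans (by norm_num) (SokalF1G.cos_ge6 (by norm_num))) p1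
      ((g3_exp_le (by norm_num) (by norm_num)).trans (by norm_num)) (by norm_num)
      (g3_K (c := 5301 / 1000) (by norm_num) g3_K2)
      (fun y _ hy => g3_yle hy (by norm_num) (lt_of_le_of_lt h1 (by norm_num)))
      (by norm_num) (by norm_num) (by norm_num) (by norm_num) (by norm_num) (by norm_num) ?_
      (by norm_num)
    norm_num at hρ2 hx2 ⊢
    nlinarith
  rcases le_total ρ (4 / 5) with h2 | h2
  · have hρ2 : ρ ^ 2 ≤ (4 / 5) ^ 2 := pow_le_pow_left₀ hρ.le h2 2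
    have hρ3 : (33 / 50) ^ 2 ≤ ρ ^ 2 := pow_le_pow_left₀ (by norm_num) h1 2
    have p1 : φ ≤ 5443 / 10000 := hle (by norm_num) (by norm_num at hρ2 ⊢; linarith)
    refine g3_case7 (a := 8044 / 10000) (C := 693 / 1000) (φ := 5443 / 10000) (c := 3264 / 10000)
      (m := 13 / 10) (y0 := 1 / 2) (u := 2 / 10) (M := 333 / 100) (K := 4990 / 1000000)
      h hη0 hη1 (by linarith) (by linarith) (by norm_num) (by norm_num)
      (le_trans (by norm_num) (SokalF1G.cos_ge6 (by norm_num))) p1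
      ((g3_exp_le (by norm_num) (by norm_num)).trans (by norm_num)) (by norm_num)
      (g3_K (c := 5301 / 1000) (by norm_num) g3_K2)
      (fun y _ hy => g3_yle hy (by norm_num) (lt_of_le_of_lt h2 (by norm_num)))
      (by norm_num) (by norm_num) (by norm_num) (by norm_num) (by norm_num) (by norm_num) ?_
      (by norm_num)
    norm_num at hρ2 hρ3 hx2 ⊢
    nlinarith
  have hρ3 : (4 / 5) ^ 2 ≤ ρ ^ 2 := pow_le_pow_left₀ (by norm_num) h2 2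
  have p1 : φ ≤ 6042 / 10000 := hle (by norm_num) (by norm_num at hρ3 ⊢; nlinarith)
  rcases le_total ρ (13 / 10) with h3 | h3
  · have hρ2 : ρ ^ 2 ≤ (13 / 10) ^ 2 := pow_le_pow_left₀ hρ.le h3 2
    have q1 : 18136 / 10000 * ρ ≤ x := by
      refine abs_le_of_sq_le_sq' ?_ hsx |>.2
      rw [mul_pow]
      norm_num at hρ3 ⊢
      nlinarith
    have q2 : 108 / 100 ≤ -sE ρ (-(7 / 10)) := by
      refine le_of_mul_le_mul_left ?_ hρ
      rw [hEq]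
      nlinarith
    refine g3_case7 (a := 65 / 100) (C := 796 / 1000) (φ := 6042 / 10000) (c := 4649 / 10000)
      (m := 114 / 100) (y0 := 18 / 25) (u := 42 / 100) (M := 415 / 100) (K := 398 / 100000)
      h hη0 hη1 (by linarith) (by linarith) (by norm_num) (by norm_num)
      (le_trans (by norm_num) (SokalF1G.cos_ge6 (by norm_num))) p1
      ((g3_exp_le (by norm_num) (by norm_num)).trans (by norm_num)) (by norm_num)
      (g3_K1' (by norm_num)) (fun y _ hy => hy.y1)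
      (by norm_num) (by norm_num) (by norm_num) (by norm_num) (by norm_num) (by norm_num) ?_
      (by norm_num)
    norm_num at hρ3 ⊢
    nlinarith
  · have hρ4 : (13 / 10) ^ 2 ≤ ρ ^ 2 := pow_le_pow_left₀ (by norm_num) h3 2
    have q1 : 194 / 100 * ρ ≤ x := by
      refine abs_le_of_sq_le_sq' ?_ hsx |>.2
      rw [mul_pow]
      norm_num at hρ4 ⊢
      nlinarith
    have q2 : 148 / 100 ≤ -sE ρ (-(7 / 10)) := by
      refine le_of_mul_le_mul_left ?_ hρ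
      rw [hEq]
      nlinarith
    have hη2 : η ≤ 6144 / 10000 := by linarith
    have hlog : (-(2232 / 10000) : ℝ) ≤ Real.log (8 / 10) := by
      refine g3_log (by norm_num) ?_
      rw [Real.exp_neg, inv_le_comm₀ (Real.exp_pos _) (by norm_num)]
      refine le_trans ?_ (g3_exp_ge (by norm_num))
      norm_num
    have hcos : (8 / 10 : ℝ) ≤ Real.cos (6144 / 10000) :=
      le_trans (by norm_num) (SokalF1G.cos_ge6 (by norm_num))
    obtain ⟨y, hy0, hyD, e, hP⟩ := g3_pos (P := 77 / 100) hρ hη0 hη1 (by norm_num)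
      (fun y hy hy0 h4 h5 => by
        have h6 : |sE ρ y| ≤ 6144 / 10000 := by
          rw [abs_of_nonneg h4]
          linarith
        refine le_trans ?_ (g3_one (C := 8 / 10) hy (by norm_num) (by linarith)
          (g3_cos h6 (by linarith) hcos))
        linarith)
    refine ⟨y, hyD, e, ?_⟩
    have hD := g3_D2le hyD hy0 hyD.y1
    have hD1 : sD2 ρ (-(7 / 10)) = 9 / 100 + x ^ 2 := by
      unfold sD2
      norm_num [hx]
    refine g3_fin (M := 415 / 100) (m := 114 / 100) (K := 398 / 100000)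
      (g3_M (u := 42 / 100) (by linarith [hyD.y1]) (by norm_num) (by norm_num) (by norm_num)
        (by norm_num)) (sD2_pos (by norm_num)) (by norm_num) ?_ (g3_K1' (by linarith))
      (by norm_num)
    rw [hD1]
    norm_num at hρ4 hD ⊢
    nlinarith

/-- [FT-GAP3] (true supremum .006). `H` on the side opposite to the boundary point `b`. -/
theorem gap3 {ρ b η : ℝ} (h : Bd ρ b) (hs : (b ≤ 0 ∧ 0 ≤ η) ∨ (0 ≤ b ∧ η ≤ 0))
    (hη : |η| + |sE ρ b| ≤ 2 * Real.pi / 3) : ∃ y, DD ρ y ∧ sE ρ y = η ∧ GapC ρ y b ≤ 1 / 40 := by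
  obtain ⟨hD, hB⟩ := h
  rcases hs with ⟨hb, hη0⟩ | ⟨hb, hη0⟩
  · rw [abs_of_nonneg hη0] at hη
    rcases hB with hB | hB
    · subst hB
      exact g3_case3 hD hη0 hη
    · exact g3_case1 hD hb hB hη0 hη
  · rw [abs_of_nonpos hη0] at hη
    rcases hB with hB | hB
    · subst hB
      norm_num at hb
    · exact g3_case2 hD hb hB hη0 hη

end SokalF1T
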