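import Pool.Agent.Lib_MP_af4de1_f1.TG1
import Pool.Agent.Lib_MP_af4de1_f1.TG2
import Pool.Agent.Lib_MP_af4de1_f1.TG3
import Pool.Agent.Lib_MP_af4de1_f1.TG4
import Pool.Agent.Lib_MP_af4de1_f1.TG5
import Pool.Agent.Lib_MP_af4de1_f1.GTay

/-!
# [FT-G7] gap, N = 4, 5, 6
(see `TopGapD.lean` for the curve and its one variable descriptions)

PLAN: monotonicity (`TG1`) reduces `H` to the extreme angle `|η| = 2π/3 - |sE ρ b|` (resp. `π/2 - ..`) for `ph`; a lower bound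
of `ph ρ y` comes from `ph_trial` with an explicit `c` (for instance `c = 1` for `|η| ≤ 35°`: `ph ≥ 1 + log cos η`; for larger
angles on the positive side `c` between `.45` and `.9`); `DD` for `y`: existence by `bdry_neg/bdry_pos` + `DD_exists`
(if the boundary of that side came before `η`, `ph_trial` at the boundary point contradicts `ph = 11/25`).
Cruder bounds suffice for the prefactor: `y - b ≤ 147/100`, `D(b)² ≥ 17/50`, `D(y)² ≤ (1+y)² + (ρ e^(-y))²`.

Here `|η_H| ≤ 35°` by `bd_abs_ge`, `ph(H) ≥ 1 + log cos 35° ≥ .80`, rho ≤ 29/20 (true ≤ 1.23 for N = 4, .89 for N = 5, .59 for N = 6).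
`gapH4`: `ph(b')`: `11/25` or (`b' = -7/10`) `≤ .605` or the value at the angle `2π/N` on the side of `H`:
true values at the positive side: N = 4 (90°, rho ≤ 1.23) ≤ .63, N = 5 (72°, rho ≤ .89) ≤ .72, N = 6 (60°, rho ≤ .59) ≤ .70, while
`ph(H) ≥ .98, .99, .99` for these rho. An upper bound of `ph(b')` follows from `cos ψ` and `(1+y)e^(-y) ≤ 1 - y²/2 + y³/3`.
-/

set_option autoImplicit false

namespace SokalF1T

open SokalF1S

private theorem g7_exp_lb {x l : ℝ} (hx : 0 ≤ x)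
    (h : l ≤ 1 + x + x ^ 2 / 2 + x ^ 3 / 6 + x ^ 4 / 24) : l ≤ Real.exp x := by
  refine h.trans ?_
  have h1 := Real.sum_le_exp_of_nonneg hx 5
  simp only [Finset.sum_range_succ, Finset.sum_range_zero, Nat.factorial] at h1
  norm_num at h1
  linarith

private theorem g7_exp_ub {x u : ℝ} (h0 : 0 ≤ x) (h1 : x ≤ 1)
    (h : 1 + x + x ^ 2 / 2 + x ^ 3 / 6 + x ^ 4 / 24 + x ^ 5 / 100 ≤ u) : Real.exp x ≤ u := by
  have h2 := Real.exp_bound' h0 h1 (n := 5) (by norm_num)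
  simp only [Finset.sum_range_succ, Finset.sum_range_zero, Nat.factorial] at h2
  norm_num at h2
  linarith

private theorem g7_sx_pos {ρ y : ℝ} (h : DD ρ y) : 0 < sx ρ y := by
  have h1 : 11 / 25 ≤ sx ρ y * (1 + y) / ρ := h.phi
  rcases (sx_nonneg ρ y).eq_or_lt with h3 | h3
  · rw [← h3, zero_mul, zero_div] at h1
    norm_num at h1
  · exact h3

private theorem g7_strict {ρ y : ℝ} (h : DD ρ y) : |y| * Real.exp y < ρ := by
  have hx := g7_sx_pos h
  have h1 := sx_sq h.dom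
  refine lt_of_le_of_ne h.dom.2 fun he => ?_
  have h2 : ρ * Real.exp (-y) = |y| := by
    rw [← he, mul_assoc, ← Real.exp_add, add_neg_cancel, Real.exp_zero, mul_one]
  rw [h2, sq_abs, sub_self] at h1
  have h3 := pow_pos hx 2
  rw [h1] at h3
  exact lt_irrefl _ h3

private theorem g7_ph {ρ y : ℝ} (h : DD ρ y) :
    ph ρ y = Real.cos (sP ρ y) * ((1 + y) * Real.exp (-y)) := by
  have hρ := h.dom.1
  have h2 : Real.exp y * Real.exp (-y) = 1 := by rw [← Real.exp_add]; simp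
  rw [h.dom.cos]
  unfold ph
  calc sx ρ y * (1 + y) / ρ = sx ρ y * (1 + y) / ρ * (Real.exp y * Real.exp (-y)) := by rw [h2, mul_one]
    _ = _ := by ring

private theorem g7_cos_nonneg (ρ y : ℝ) : 0 ≤ Real.cos (sP ρ y) := by
  have h := abs_le.1 (sP_abs_le ρ y)
  exact Real.cos_nonneg_of_mem_Icc ⟨by linarith [h.1], h.2⟩

/-- lower bound for `ph` by the trial value `c = 1` -/
private theorem g7_low {ρ y a κ l : ℝ} (h : DD ρ y) (ha : |sE ρ y| ≤ a) (ha1 : a ≤ 1)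
    (hl : 0 < l) (hl2 : l ≤ 1 - a ^ 2 / 2) (hκ : κ ≤ 1 + Real.log l) : κ ≤ ph ρ y := by
  have h1 := ph_trial (c := 1) h.dom (g7_strict h) (by linarith [h.y0]) one_pos (by
    rw [sub_self, mul_zero, sub_zero]
    have := Real.pi_gt_three
    linarith)
  rw [sub_self, mul_zero, sub_zero, Real.log_one, sub_zero, one_mul] at h1
  have h2 : l ≤ Real.cos (sE ρ y) := by
    have h3 := Real.one_sub_sq_div_two_le_cos (x := sE ρ y)
    have h4 : sE ρ y ^ 2 ≤ a ^ 2 := by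
      rw [← sq_abs (sE ρ y)]
      exact pow_le_pow_left₀ (abs_nonneg _) ha 2
    linarith
  have h4 := Real.log_le_log hl h2
  linarith

private theorem g7_log4 : (793 / 1000 : ℝ) ≤ 1 + Real.log (8134 / 10000) := by
  have h : -(207 / 1000 : ℝ) ≤ Real.log (8134 / 10000) := by
    rw [Real.le_log_iff_exp_le (by norm_num), Real.exp_neg]
    have h1 : (12299 / 10000 : ℝ) ≤ Real.exp (207 / 1000) := g7_exp_lb (by norm_num) (by norm_num)
    calc (Real.exp (207 / 1000))⁻¹ ≤ (12299 / 10000 : ℝ)⁻¹ := inv_anti₀ (by norm_num) h1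
      _ ≤ 8134 / 10000 := by norm_num
  linarith

private theorem g7_logx {l : ℝ} (hl : 0 < l) : 2 - 1 / l ≤ 1 + Real.log l := by
  have := Real.one_sub_inv_le_log_of_pos hl
  rw [one_div]
  linarith

private theorem g7_up0 {ρ b : ℝ} (h : DD ρ b) (hc : b = -(7 / 10) ∨ ph ρ b = 11 / 25) :
    ph ρ b ≤ 605 / 1000 := by
  rcases hc with rfl | h1
  · rw [g7_ph h]
    have h2 := Real.cos_le_one (sP ρ (-(7 / 10)))
    have h3 : Real.exp (-(-(7 / 10 : ℝ))) ≤ 2014 / 1000 := by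
      rw [neg_neg]
      exact g7_exp_ub (by norm_num) (by norm_num) (by norm_num)
    have h4 := Real.exp_pos (-(-(7 / 10 : ℝ)))
    calc Real.cos (sP ρ (-(7 / 10))) * ((1 + -(7 / 10)) * Real.exp (-(-(7 / 10))))
        ≤ 1 * ((1 + -(7 / 10)) * (2014 / 1000)) := by
          refine mul_le_mul h2 ?_ (by positivity) one_pos.le
          linarith
      _ ≤ 605 / 1000 := by norm_num
  · rw [h1]
    norm_num

private theorem g7_ss_le {a c : ℝ} (hc : 0 ≤ c) (h : a ≤ c ^ 4) : √(√a) ≤ c := by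
  have h1 : √a ≤ c ^ 2 := Real.sqrt_le_iff.2 ⟨by positivity, h.trans_eq (by ring)⟩
  exact Real.sqrt_le_iff.2 ⟨hc, h1⟩

private theorem g7_le_ss {a c : ℝ} (h : c ^ 4 ≤ a) : c ≤ √(√a) := by
  refine Real.le_sqrt_of_sq_le (Real.le_sqrt_of_sq_le ?_)
  rw [← pow_mul]
  exact h

private theorem g7_gap {ρ y b e p q Δ : ℝ} (h1 : max 1 (Real.exp (y - b)) ≤ e)
    (h2 : sD2 ρ y ≤ p ^ 4) (hp : 0 ≤ p) (hq : 0 < q) (h3 : q ^ 4 ≤ sD2 ρ b)
    (h4 : Δ ≤ ph ρ y - ph ρ b) (h5 : e * (p / q) * 100 ≤ Real.exp (499 / 10 * Δ)) :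
    GapC ρ y b ≤ 1 / 100 := by
  have a1 := g7_ss_le hp h2
  have a2 := g7_le_ss h3
  have a3 : √(√(sD2 ρ y)) / √(√(sD2 ρ b)) ≤ p / q := div_le_div₀ hp a1 hq a2
  have a4 : Real.exp (-(499 / 10) * (ph ρ y - ph ρ b)) ≤ (Real.exp (499 / 10 * Δ))⁻¹ := by
    rw [← Real.exp_neg]
    exact Real.exp_le_exp.2 (by linarith)
  have e0 : 0 ≤ e := zero_le_one.trans ((le_max_left _ _).trans h1)
  unfold GapC
  calc max 1 (Real.exp (y - b)) * (√(√(sD2 ρ y)) / √(√(sD2 ρ b))) *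
        Real.exp (-(499 / 10) * (ph ρ y - ph ρ b))
      ≤ e * (p / q) * (Real.exp (499 / 10 * Δ))⁻¹ :=
        mul_le_mul (mul_le_mul h1 a3 (by positivity) e0) a4 (Real.exp_pos _).le (by positivity)
    _ ≤ 1 / 100 := by
      rw [← div_eq_mul_inv, div_le_iff₀ (Real.exp_pos _)]
      linarith

private theorem g7_rho_exp {ρ y : ℝ} (h : DD ρ y) (hρ : ρ ≤ 29 / 20) :
    sx ρ y ^ 2 ≤ 9432 / 1000 := by
  have h1 : Real.exp (-y) ≤ 2118 / 1000 := by
    refine (Real.exp_le_exp.2 (by linarith [h.y0] : -y ≤ 3 / 4)).trans ?_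
    exact g7_exp_ub (by norm_num) (by norm_num) (by norm_num)
  have h2 := sx_sq_add h.dom
  have h3 : ρ * Real.exp (-y) ≤ 29 / 20 * (2118 / 1000) :=
    mul_le_mul hρ h1 (Real.exp_pos _).le (by norm_num)
  have h4 : (ρ * Real.exp (-y)) ^ 2 ≤ (29 / 20 * (2118 / 1000)) ^ 2 :=
    pow_le_pow_left₀ (mul_nonneg h.dom.1.le (Real.exp_pos _).le) h3 2
  nlinarith [sq_nonneg y]

private theorem g7_D_ge {ρ b : ℝ} (h : DD ρ b) : (1 / 2 : ℝ) ^ 4 ≤ sD2 ρ b := by
  unfold sD2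
  nlinarith [sq_nonneg (sx ρ b), h.y0]

/-- the crude case -/
private theorem g7_far {ρ y b : ℝ} (hy : DD ρ y) (hb : DD ρ b) (hρ : ρ ≤ 29 / 20)
    (hΔ : 185 / 1000 ≤ ph ρ y - ph ρ b) : GapC ρ y b ≤ 1 / 100 := by
  refine g7_gap (e := 436 / 100) (p := 2) (q := 1 / 2) (Δ := 185 / 1000) ?_ ?_ (by norm_num)
    (by norm_num) (g7_D_ge hb) hΔ ?_
  · refine max_le (by norm_num) ?_
    have h1 : y - b ≤ 735 / 1000 + 735 / 1000 := by linarith [hy.y1, hb.y0]
    refine (Real.exp_le_exp.2 h1).trans ?_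
    rw [Real.exp_add]
    have h2 : Real.exp (735 / 1000) ≤ 2086 / 1000 :=
      g7_exp_ub (by norm_num) (by norm_num) (by norm_num)
    calc Real.exp (735 / 1000) * Real.exp (735 / 1000) ≤ 2086 / 1000 * (2086 / 1000) :=
          mul_le_mul h2 h2 (Real.exp_pos _).le (by norm_num)
      _ ≤ 436 / 100 := by norm_num
  · have h1 := g7_rho_exp hy hρ
    unfold sD2
    nlinarith [hy.y0, hy.y1]
  · have h1 : Real.exp (499 / 10 * (185 / 1000)) = Real.exp 1 ^ 8 * Real.exp (499 / 10 * (185 / 1000) - 8) := by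
      rw [← Real.exp_nat_mul, ← Real.exp_add]
      norm_num
    rw [h1]
    have h2 : (27 / 10 : ℝ) ≤ Real.exp 1 := by linarith [Real.exp_one_gt_d9]
    have h3 : (27 / 10 : ℝ) ^ 8 ≤ Real.exp 1 ^ 8 := pow_le_pow_left₀ (by norm_num) h2 8
    have h4 : (1 : ℝ) ≤ Real.exp (499 / 10 * (185 / 1000) - 8) := Real.one_le_exp (by norm_num)
    calc (436 / 100 * (2 / (1 / 2)) * 100 : ℝ) ≤ (27 / 10) ^ 8 * 1 := by norm_num
      _ ≤ _ := mul_le_mul h3 h4 zero_le_one (by positivity)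

/-- positive side, the upper bound for the base on a subinterval -/
private theorem g7_pos_piece {ρ y B L y1 m K : ℝ} (h : DD ρ y) (hρ : ρ ≤ 29 / 20)
    (hy0 : 0 ≤ y) (hL : L ≤ sE ρ y) (hy1 : y ≤ y1) (hB : 0 < B) (hB1 : B ≤ 1)
    (hm : m ≤ L - 29 / 20 * (1 - B / (1 + y1))) (hm0 : 0 ≤ m)
    (hK : (1 + y) * Real.exp (-y) ≤ K) (hKB : (1 - m ^ 2 / 2 + m ^ 4 / 24) * K ≤ B) :
    ph ρ y ≤ B := by
  by_contra hc
  push Not at hc
  have hρ0 := h.dom.1
  have h1y : 0 < 1 + y := by linarith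
  have hx : sx ρ y * (1 + y) = ρ * ph ρ y := by
    unfold ph
    field_simp
  have hx2 : ρ * (B / (1 + y)) ≤ sx ρ y := by
    rw [← mul_div_assoc, div_le_iff₀ h1y, hx]
    exact mul_le_mul_of_nonneg_left hc.le hρ0.le
  have h2 : B / (1 + y1) ≤ B / (1 + y) := div_le_div_of_nonneg_left hB.le h1y (by linarith)
  have h3 : B / (1 + y) ≤ 1 := by
    rw [div_le_one h1y]
    linarith
  have h4 : ρ * (1 - B / (1 + y)) ≤ 29 / 20 * (1 - B / (1 + y1)) :=
    mul_le_mul hρ (by linarith) (by linarith) (by norm_num)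
  have h5 : m ≤ sP ρ y := by
    have : sP ρ y = sE ρ y - ρ + sx ρ y := by
      unfold sE
      ring
    rw [this]
    linarith
  have h6 := (abs_le.1 (sP_abs_le ρ y)).2
  have h7 : Real.cos (sP ρ y) ≤ Real.cos m :=
    Real.cos_le_cos_of_nonneg_of_le_pi hm0 (by linarith [Real.pi_pos]) h5
  have h8 := SokalF1G.cos_le4 hm0
  have h9 : ph ρ y ≤ B := by
    rw [g7_ph h]
    calc Real.cos (sP ρ y) * ((1 + y) * Real.exp (-y))
        ≤ (1 - m ^ 2 / 2 + m ^ 4 / 24) * K :=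
          mul_le_mul (h7.trans h8) hK (by positivity) ((g7_cos_nonneg ρ y).trans (h7.trans h8))
      _ ≤ B := hKB
  linarith

private theorem g7_K {y K : ℝ} (hy : 0 ≤ y) (h : 1 + y ≤ K * (1 + y + y ^ 2 / 2 + y ^ 3 / 6))
    (hK : 0 ≤ K) : (1 + y) * Real.exp (-y) ≤ K := by
  rw [Real.exp_neg, ← div_eq_mul_inv, div_le_iff₀ (Real.exp_pos _)]
  refine h.trans (mul_le_mul_of_nonneg_left ?_ hK)
  exact g7_exp_lb hy (by nlinarith [pow_nonneg hy 4])

private theorem g7_K0 {y : ℝ} (hy : 0 ≤ y) : (1 + y) * Real.exp (-y) ≤ 1 :=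
  g7_K hy (by nlinarith [pow_nonneg hy 2, pow_nonneg hy 3]) zero_le_one

private theorem g7_K1 {y : ℝ} (hy : 2 / 5 ≤ y) : (1 + y) * Real.exp (-y) ≤ 94 / 100 :=
  g7_K (by linarith) (by nlinarith [sq_nonneg (y - 2 / 5), mul_nonneg (sub_nonneg.2 hy) (sq_nonneg y)])
    (by norm_num)

private theorem g7_K2 {y : ℝ} (hy : 11 / 20 ≤ y) : (1 + y) * Real.exp (-y) ≤ 897 / 1000 :=
  g7_K (by linarith) (by nlinarith [sq_nonneg (y - 11 / 20), mul_nonneg (sub_nonneg.2 hy) (sq_nonneg y)])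
    (by norm_num)

private theorem g7_pos4 {ρ y : ℝ} (h : DD ρ y) (hρ : ρ ≤ 29 / 20) (hy : 0 ≤ y)
    (hL : 15707 / 10000 ≤ sE ρ y) : ph ρ y ≤ 69 / 100 := by
  rcases le_total y (2 / 5) with h1 | h1
  · exact g7_pos_piece (y1 := 2 / 5) (m := 83 / 100) (K := 1) h hρ hy hL h1 (by norm_num)
      (by norm_num) (by norm_num) (by norm_num) (g7_K0 hy) (by norm_num)
  · rcases le_total y (11 / 20) with h2 | h2
    · exact g7_pos_piece (y1 := 11 / 20) (m := 766 / 1000) (K := 94 / 100) h hρ hy hL h2 (by norm_num)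
        (by norm_num) (by norm_num) (by norm_num) (g7_K1 h1) (by norm_num)
    · exact g7_pos_piece (y1 := 18 / 25) (m := 702 / 1000) (K := 897 / 1000) h hρ hy hL h.y1
        (by norm_num) (by norm_num) (by norm_num) (by norm_num) (g7_K2 h2) (by norm_num)

private theorem g7_pos5 {ρ y : ℝ} (h : DD ρ y) (hρ : ρ ≤ 29 / 20) (hy : 0 ≤ y)
    (hL : 12566 / 10000 ≤ sE ρ y) : ph ρ y ≤ 84 / 100 := by
  rcases le_total y (2 / 5) with h1 | h1
  · exact g7_pos_piece (y1 := 2 / 5) (m := 67 / 100) (K := 1) h hρ hy hL h1 (by norm_num)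
      (by norm_num) (by norm_num) (by norm_num) (g7_K0 hy) (by norm_num)
  · exact g7_pos_piece (y1 := 18 / 25) (m := 51 / 100) (K := 94 / 100) h hρ hy hL h.y1
      (by norm_num) (by norm_num) (by norm_num) (by norm_num) (g7_K1 h1) (by norm_num)

private theorem g7_pos6 {ρ y : ℝ} (h : DD ρ y) (hρ : ρ ≤ 29 / 20) (hy : 0 ≤ y)
    (hL : 10471 / 10000 ≤ sE ρ y) : ph ρ y ≤ 89 / 100 := by
  rcases le_total y (2 / 5) with h1 | h1
  · exact g7_pos_piece (y1 := 2 / 5) (m := 51 / 100) (K := 1) h hρ hy hL h1 (by norm_num)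
      (by norm_num) (by norm_num) (by norm_num) (g7_K0 hy) (by norm_num)
  · exact g7_pos_piece (y1 := 18 / 25) (m := 347 / 1000) (K := 94 / 100) h hρ hy hL h.y1
      (by norm_num) (by norm_num) (by norm_num) (by norm_num) (g7_K1 h1) (by norm_num)

/-- positive side, the prefactor -/
private theorem g7_pos_gap {ρ y b : ℝ} (hy : DD ρ y) (hb : DD ρ b) (hρ : ρ ≤ 29 / 20)
    (hy0 : 0 ≤ y) (hyb : y ≤ b) (hΔ : 1003 / 10000 ≤ ph ρ y - ph ρ b) : GapC ρ y b ≤ 1 / 100 := by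
  refine g7_gap (e := 1) (p := 147 / 100) (q := 1) (Δ := 1003 / 10000) ?_ ?_ (by norm_num)
    (by norm_num) ?_ hΔ ?_
  · refine max_le le_rfl ?_
    rw [← Real.exp_zero]
    exact Real.exp_le_exp.2 (by linarith)
  · have h2 := sx_sq_add hy.dom
    have h1 : Real.exp (-y) ≤ 1 := by
      rw [← Real.exp_zero]
      exact Real.exp_le_exp.2 (by linarith)
    have h3 : ρ * Real.exp (-y) ≤ 29 / 20 * 1 :=
      mul_le_mul hρ h1 (Real.exp_pos _).le (by norm_num)
    have h4 : (ρ * Real.exp (-y)) ^ 2 ≤ (29 / 20 * 1) ^ 2 :=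
      pow_le_pow_left₀ (mul_nonneg hy.dom.1.le (Real.exp_pos _).le) h3 2
    unfold sD2
    nlinarith [hy.y1]
  · unfold sD2
    nlinarith [sq_nonneg (sx ρ b)]
  · have h1 : Real.exp (499 / 10 * (1003 / 10000)) = Real.exp 1 ^ 5 * Real.exp (499 / 10 * (1003 / 10000) - 5) := by
      rw [← Real.exp_nat_mul, ← Real.exp_add]
      norm_num
    rw [h1]
    have h2 : (27182 / 10000 : ℝ) ≤ Real.exp 1 := by linarith [Real.exp_one_gt_d9]
    have h3 : (27182 / 10000 : ℝ) ^ 5 ≤ Real.exp 1 ^ 5 := pow_le_pow_left₀ (by norm_num) h2 5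
    have h4 : (1 : ℝ) ≤ Real.exp (499 / 10 * (1003 / 10000) - 5) := Real.one_le_exp (by norm_num)
    calc (1 * (147 / 100 / 1) * 100 : ℝ) ≤ (27182 / 10000) ^ 5 * 1 := by norm_num
      _ ≤ _ := mul_le_mul h3 h4 zero_le_one (by positivity)

/-- negative side, the prefactor -/
private theorem g7_neg_gap {ρ y b : ℝ} (hy : DD ρ y) (hb : DD ρ b) (hρ : ρ ≤ 29 / 20)
    (hy0 : y ≤ 0) (hΔ : 1335 / 10000 ≤ ph ρ y - ph ρ b) : GapC ρ y b ≤ 1 / 100 := by
  refine g7_gap (e := 2118 / 1000) (p := 18 / 10) (q := 1 / 2) (Δ := 1335 / 10000) ?_ ?_ (by norm_num)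
    (by norm_num) (g7_D_ge hb) hΔ ?_
  · refine max_le (by norm_num) ?_
    have h1 : y - b ≤ 3 / 4 := by linarith [hb.y0]
    exact (Real.exp_le_exp.2 h1).trans (g7_exp_ub (by norm_num) (by norm_num) (by norm_num))
  · have h1 := g7_rho_exp hy hρ
    unfold sD2
    nlinarith [hy.y0]
  · have h1 : Real.exp (499 / 10 * (1335 / 10000)) = Real.exp 1 ^ 6 * Real.exp (499 / 10 * (1335 / 10000) - 6) := by
      rw [← Real.exp_nat_mul, ← Real.exp_add]
      norm_num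
    rw [h1]
    have h2 : (27182 / 10000 : ℝ) ≤ Real.exp 1 := by linarith [Real.exp_one_gt_d9]
    have h3 : (27182 / 10000 : ℝ) ^ 6 ≤ Real.exp 1 ^ 6 := pow_le_pow_left₀ (by norm_num) h2 6
    have h4 : (192 / 100 : ℝ) ≤ Real.exp (499 / 10 * (1335 / 10000) - 6) :=
      g7_exp_lb (by norm_num) (by norm_num)
    calc (2118 / 1000 * (18 / 10 / (1 / 2)) * 100 : ℝ) ≤ (27182 / 10000) ^ 6 * (192 / 100) := by norm_num
      _ ≤ _ := mul_le_mul h3 h4 (by norm_num) (by positivity)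

/-- negative side: size of the base point -/
private theorem g7_neg {ρ b L E : ℝ} (h : DD ρ b) (hρ : ρ ≤ 29 / 20) (hb : b ≤ 0)
    (hL3 : Real.pi / 3 ≤ L) (hL : sE ρ b = -L) (hE : 0 ≤ E)
    (hp : ∀ u, 0 ≤ u → u ≤ 1571 / 1000 → u + 29 / 20 * (E * (1 - u ^ 2 / 2 + u ^ 4 / 24) - 1) < L) :
    ph ρ b ≤ 1 / 2 ∨ E ≤ Real.exp (-b) := by
  have hρ0 := h.dom.1
  have h2 : Real.exp b * Real.exp (-b) = 1 := by rw [← Real.exp_add]; simp
  have hx : sx ρ b = ρ * (Real.exp (-b) * Real.cos (sP ρ b)) := by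
    rw [h.dom.cos]
    calc sx ρ b = sx ρ b * (Real.exp b * Real.exp (-b)) := by rw [h2, mul_one]
      _ = _ := by field_simp
  have hu0 : 0 ≤ -sP ρ b := neg_nonneg.2 (sP_nonpos hρ0 hb)
  have hu1 : -sP ρ b ≤ Real.pi / 2 := by linarith [(abs_le.1 (sP_abs_le ρ b)).1]
  have hL' : L = -sP ρ b + ρ * (Real.exp (-b) * Real.cos (sP ρ b) - 1) := by
    have : sE ρ b = sP ρ b + ρ - sx ρ b := rfl
    rw [hx] at this
    linarith
  rcases le_total (Real.exp (-b) * Real.cos (sP ρ b)) 1 with h3 | h3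
  · left
    have h4 : L ≤ -sP ρ b := by
      have := mul_nonneg hρ0.le (sub_nonneg.2 h3)
      linarith
    have h5 : Real.cos (sP ρ b) ≤ 1 / 2 := by
      rw [← Real.cos_neg, ← Real.cos_pi_div_three]
      exact Real.cos_le_cos_of_nonneg_of_le_pi (by positivity) (by linarith [Real.pi_pos]) (by linarith)
    have h6 : (1 + b) * Real.exp (-b) ≤ 1 := by
      have h7 := Real.add_one_le_exp b
      calc (1 + b) * Real.exp (-b) ≤ Real.exp b * Real.exp (-b) :=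
            mul_le_mul_of_nonneg_right (by linarith) (Real.exp_pos _).le
        _ = 1 := h2
    rw [g7_ph h]
    have h8 : 0 ≤ (1 + b) * Real.exp (-b) := mul_nonneg (by linarith [h.y0]) (Real.exp_pos _).le
    calc Real.cos (sP ρ b) * ((1 + b) * Real.exp (-b)) ≤ 1 / 2 * 1 :=
          mul_le_mul h5 h6 h8 (by norm_num)
      _ = 1 / 2 := by norm_num
  · right
    by_contra hc
    push Not at hc
    have h4 := hp (-sP ρ b) hu0 (by linarith [Real.pi_lt_d4])
    have h5 : Real.cos (sP ρ b) ≤ 1 - (-sP ρ b) ^ 2 / 2 + (-sP ρ b) ^ 4 / 24 := by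
      rw [← Real.cos_neg]
      exact SokalF1G.cos_le4 hu0
    have h6 : Real.exp (-b) * Real.cos (sP ρ b) ≤ E * (1 - (-sP ρ b) ^ 2 / 2 + (-sP ρ b) ^ 4 / 24) :=
      mul_le_mul hc.le h5 (g7_cos_nonneg ρ b) hE
    have h7 : ρ * (Real.exp (-b) * Real.cos (sP ρ b) - 1) ≤ 29 / 20 * (Real.exp (-b) * Real.cos (sP ρ b) - 1) :=
      mul_le_mul_of_nonneg_right hρ (by linarith)
    linarith

private theorem g7_neg2 {ρ b t E : ℝ} (h : DD ρ b) (ht : 0 ≤ t) (ht1 : t ≤ 1) (hE : Real.exp t ≤ E)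
    (h1 : E ≤ Real.exp (-b)) : t ≤ -b ∧ (1 + b) * Real.exp (-b) ≤ (1 - t) * E := by
  have h2 : t ≤ -b := Real.exp_le_exp.1 (hE.trans h1)
  refine ⟨h2, ?_⟩
  have h3 : Real.exp (-b) * (1 + (t + b)) ≤ Real.exp t := by
    have h4 := Real.add_one_le_exp (t + b)
    have h5 : Real.exp t = Real.exp (-b) * Real.exp (t + b) := by
      rw [← Real.exp_add]
      congr 1
      ring
    rw [h5]
    exact mul_le_mul_of_nonneg_left (by linarith) (Real.exp_pos _).le
  have h5 : 0 ≤ t * (-b - t) := mul_nonneg ht (by linarith)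
  calc (1 + b) * Real.exp (-b) ≤ ((1 - t) * (1 + (t + b))) * Real.exp (-b) :=
        mul_le_mul_of_nonneg_right (by nlinarith) (Real.exp_pos _).le
    _ = (1 - t) * (Real.exp (-b) * (1 + (t + b))) := by ring
    _ ≤ (1 - t) * E := mul_le_mul_of_nonneg_left (h3.trans hE) (by linarith)

private theorem g7_ph_le {ρ b K : ℝ} (h : DD ρ b) (hK : (1 + b) * Real.exp (-b) ≤ K) : ph ρ b ≤ K := by
  rw [g7_ph h]
  have h8 : 0 ≤ (1 + b) * Real.exp (-b) := mul_nonneg (by linarith [h.y0]) (Real.exp_pos _).le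
  calc Real.cos (sP ρ b) * ((1 + b) * Real.exp (-b)) ≤ 1 * ((1 + b) * Real.exp (-b)) :=
        mul_le_mul_of_nonneg_right (Real.cos_le_one _) h8
    _ ≤ K := by rw [one_mul]; exact hK

private theorem g7_neg4 {ρ b : ℝ} (h : DD ρ b) (hρ : ρ ≤ 29 / 20) (hb : b ≤ 0)
    (hL : sE ρ b = -(Real.pi / 2)) : ph ρ b ≤ 659 / 1000 := by
  have hpi := Real.pi_gt_d4
  rcases g7_neg (E := 194 / 100) h hρ hb (by linarith) hL (by norm_num) (fun u h0 h1 => by
    have h2 : u + 29 / 20 * (194 / 100 * (1 - u ^ 2 / 2 + u ^ 4 / 24) - 1) < 15707 / 10000 := by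
      rcases le_total u 1 with h3 | h3
      · have h4 : u ^ 4 ≤ u ^ 2 := pow_le_pow_of_le_one h0 h3 (by norm_num)
        nlinarith [sq_nonneg (u - 388 / 1000)]
      · have h4 : u ^ 4 ≤ 2469 / 1000 * u ^ 2 := by
          have : u ^ 2 ≤ 2469 / 1000 := by nlinarith
          nlinarith [sq_nonneg u]
        nlinarith
    linarith) with h5 | h5
  · linarith
  · obtain ⟨_, h6⟩ := g7_neg2 (t := 66 / 100) (E := 1935 / 1000) h (by norm_num) (by norm_num)
      (g7_exp_ub (by norm_num) (by norm_num) (by norm_num))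
      ((by norm_num : (1935 / 1000 : ℝ) ≤ 194 / 100).trans h5)
    exact g7_ph_le h (h6.trans (by norm_num))

private theorem g7_neg5 {ρ b : ℝ} (h : DD ρ b) (hρ : ρ ≤ 29 / 20) (hb : b ≤ 0)
    (hL : sE ρ b = -(2 * Real.pi / 5)) : ph ρ b ≤ 804 / 1000 := by
  have hpi := Real.pi_gt_d4
  rcases g7_neg (E := 171 / 100) h hρ hb (by linarith) hL (by norm_num) (fun u h0 h1 => by
    have h2 : u + 29 / 20 * (171 / 100 * (1 - u ^ 2 / 2 + u ^ 4 / 24) - 1) < 12566 / 10000 := by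
      rcases le_total u 1 with h3 | h3
      · have h4 : u ^ 4 ≤ u ^ 2 := pow_le_pow_of_le_one h0 h3 (by norm_num)
        nlinarith [sq_nonneg (u - 44 / 100)]
      · have h4 : u ^ 4 ≤ 2469 / 1000 * u ^ 2 := by
          have : u ^ 2 ≤ 2469 / 1000 := by nlinarith
          nlinarith [sq_nonneg u]
        nlinarith
    linarith) with h5 | h5
  · linarith
  · obtain ⟨_, h6⟩ := g7_neg2 (t := 53 / 100) h (by norm_num) (by norm_num)
      (g7_exp_ub (by norm_num) (by norm_num) (by norm_num) : Real.exp (53 / 100) ≤ 171 / 100) h5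
    exact g7_ph_le h (h6.trans (by norm_num))

private theorem g7_neg6 {ρ b : ℝ} (h : DD ρ b) (hρ : ρ ≤ 29 / 20) (hb : b ≤ 0)
    (hL : sE ρ b = -(2 * Real.pi / 6)) : ph ρ b ≤ 862 / 1000 := by
  have hpi := Real.pi_gt_d4
  rcases g7_neg (E := 155 / 100) h hρ hb (by linarith) hL (by norm_num) (fun u h0 h1 => by
    have h2 : u + 29 / 20 * (155 / 100 * (1 - u ^ 2 / 2 + u ^ 4 / 24) - 1) < 10471 / 10000 := by
      rcases le_total u 1 with h3 | h3
      · have h4 : u ^ 4 ≤ u ^ 2 := pow_le_pow_of_le_one h0 h3 (by norm_num)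
        nlinarith [sq_nonneg (u - 485 / 1000)]
      · have h4 : u ^ 4 ≤ 2469 / 1000 * u ^ 2 := by
          have : u ^ 2 ≤ 2469 / 1000 := by nlinarith
          nlinarith [sq_nonneg u]
        nlinarith
    linarith) with h5 | h5
  · linarith
  · have hρ0 := h.dom.1
    have he : Real.exp (43 / 100) ≤ 1538 / 1000 := g7_exp_ub (by norm_num) (by norm_num) (by norm_num)
    obtain ⟨h7, _⟩ := g7_neg2 (t := 43 / 100) h (by norm_num) (by norm_num)
      (he.trans (by norm_num) : Real.exp (43 / 100) ≤ 155 / 100) h5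
    obtain ⟨_, h6⟩ := g7_neg2 (t := 43 / 100) (E := 1538 / 1000) h (by norm_num) (by norm_num)
      he ((by norm_num : (1538 / 1000 : ℝ) ≤ 155 / 100).trans h5)
    -- the sine
    have h8 : b * Real.exp b ≤ -(43 / 100) * Real.exp (-(43 / 100)) := by
      have := strictMonoOn_mul_exp.monotoneOn (Set.mem_Ici.2 (by linarith [h.y0] : (-1 : ℝ) ≤ b))
        (Set.mem_Ici.2 (by norm_num : (-1 : ℝ) ≤ -(43 / 100))) (by linarith)
      exact this
    have h9 : (65 / 100 : ℝ) ≤ Real.exp (-(43 / 100)) := by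
      rw [Real.exp_neg]
      calc (65 / 100 : ℝ) ≤ (1538 / 1000)⁻¹ := by norm_num
        _ ≤ (Real.exp (43 / 100))⁻¹ := inv_anti₀ (Real.exp_pos _) he
    have h10 : Real.sin (sP ρ b) ≤ -(192 / 1000) := by
      rw [h.dom.sin, div_le_iff₀ hρ0]
      nlinarith
    have h11 : Real.cos (sP ρ b) ≤ 982 / 1000 := by
      have h12 := Real.sin_sq_add_cos_sq (sP ρ b)
      have h13 := g7_cos_nonneg ρ b
      nlinarith
    rw [g7_ph h]
    have h14 : 0 ≤ (1 + b) * Real.exp (-b) := mul_nonneg (by linarith [h.y0]) (Real.exp_pos _).le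
    calc Real.cos (sP ρ b) * ((1 + b) * Real.exp (-b)) ≤ 982 / 1000 * ((1 - 43 / 100) * (1538 / 1000)) :=
          mul_le_mul h11 h6 h14 (by norm_num)
      _ ≤ 862 / 1000 := by norm_num

private theorem g7_sE_nonneg {ρ y : ℝ} (h : Dom ρ y) (hy : 0 ≤ y) : 0 ≤ sE ρ y := by
  have h1 := (sE_strictMonoOn (dom_zero h.1) h (by norm_num)).monotoneOn
    (Set.left_mem_Icc.2 hy) (Set.right_mem_Icc.2 hy) hy
  rwa [sE_zero h.1] at h1

private theorem g7_sE_nonpos {ρ y : ℝ} (h : Dom ρ y) (hy1 : -1 ≤ y) (hy : y ≤ 0) : sE ρ y ≤ 0 := by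
  have h1 := (sE_strictMonoOn h (dom_zero h.1) hy1).monotoneOn
    (Set.left_mem_Icc.2 hy) (Set.right_mem_Icc.2 hy) hy
  rwa [sE_zero h.1] at h1

private theorem g7_low4 {ρ y : ℝ} (h : DD ρ y) (ha : |sE ρ y| ≤ 6108 / 10000) :
    793 / 1000 ≤ ph ρ y :=
  g7_low (l := 8134 / 10000) h ha (by norm_num) (by norm_num) (by norm_num) g7_log4

private theorem g7_low5 {ρ y : ℝ} (h : DD ρ y) (ha : |sE ρ y| ≤ 2967 / 10000) :
    953 / 1000 ≤ ph ρ y :=
  g7_low (l := 9559 / 10000) h ha (by norm_num) (by norm_num) (by norm_num)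
    (le_trans (by norm_num) (g7_logx (by norm_num)))

private theorem g7_low6 {ρ y : ℝ} (h : DD ρ y) (ha : |sE ρ y| ≤ 873 / 10000) :
    996 / 1000 ≤ ph ρ y :=
  g7_low (l := 9961 / 10000) h ha (by norm_num) (by norm_num) (by norm_num)
    (le_trans (by norm_num) (g7_logx (by norm_num)))

/-- [FT-GAP4] (true supremum 1e-5). -/
theorem gap4 {ρ b η : ℝ} (h : Bd ρ b) (hs : (b ≤ 0 ∧ 0 ≤ η) ∨ (0 ≤ b ∧ η ≤ 0))
    (hη : |η| + |sE ρ b| ≤ Real.pi / 2) : ∃ y, DD ρ y ∧ sE ρ y = η ∧ GapC ρ y b ≤ 1 / 100 := by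
  have hpi := Real.pi_lt_d4
  have hpi2 := Real.pi_gt_three
  have h1 := bd_abs_ge h
  have hρ := bd_rho' h (Or.inr (by linarith [abs_nonneg η]))
  have hρ0 := h.1.dom.1
  have hη2 : |η| ≤ 6108 / 10000 := by linarith
  obtain ⟨y, hy, hyη⟩ : ∃ y, DD ρ y ∧ sE ρ y = η := by
    rcases hs with ⟨_, h3⟩ | ⟨_, h3⟩
    · rw [abs_of_nonneg h3] at hη2
      obtain ⟨c, hc0, hc, hcc⟩ := bdry_pos hρ0
      have h4 : η ≤ sE ρ c := by
        rcases hcc with h5 | h5
        · have h6 := bd_abs_ge ⟨hc, Or.inr h5⟩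
          rw [abs_of_nonneg (g7_sE_nonneg hc.dom hc0)] at h6
          linarith
        · rw [h5]
          linarith
      obtain ⟨y, hy, hyη, _⟩ := DD_exists hc (Or.inr ⟨h3, h4⟩)
      exact ⟨y, hy, hyη⟩
    · rw [abs_of_nonpos h3] at hη2
      obtain ⟨c, hc0, hc, hcc⟩ := bdry_neg hρ0
      have h4 : sE ρ c ≤ η := by
        rcases hcc with h5 | h5
        · have h6 := bd_abs_ge ⟨hc, h5⟩
          rw [abs_of_nonpos (g7_sE_nonpos hc.dom (by linarith [hc.y0]) hc0)] at h6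
          linarith
        · rw [h5]
          linarith
      obtain ⟨y, hy, hyη, _⟩ := DD_exists hc (Or.inl ⟨h4, h3⟩)
      exact ⟨y, hy, hyη⟩
  refine ⟨y, hy, hyη, g7_far hy h.1 hρ ?_⟩
  have h5 := g7_low4 hy (by rw [hyη]; exact hη2)
  have h6 := g7_up0 h.1 h.2
  linarith

/-- [FT-GAPH4] `N = 4, 5, 6`: base `b'` on the side of `H` (true supremum 1e-5). -/
theorem gapH4 {N : ℕ} {ρ b y b' : ℝ} (hN : N = 4 ∨ N = 5 ∨ N = 6) (h : Bd ρ b) (hH : DD ρ y)
    (hs : (b ≤ 0 ∧ 0 ≤ y ∧ 0 ≤ b') ∨ (0 ≤ b ∧ y ≤ 0 ∧ b' ≤ 0))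
    (hη : |sE ρ y| + |sE ρ b| ≤ 2 * Real.pi / N) (hb' : DD ρ b')
    (hc : (b' = -(7 / 10) ∨ ph ρ b' = 11 / 25) ∨ |sE ρ b'| = 2 * Real.pi / N) : GapC ρ y b' ≤ 1 / 100 := by
  have hpi := Real.pi_lt_d4
  have hpi2 := Real.pi_gt_d4
  have h1 := bd_abs_ge h
  have hN4 : 2 * Real.pi / N ≤ Real.pi / 2 := by
    rcases hN with rfl | rfl | rfl <;> norm_num <;> linarith
  have hρ := bd_rho' h (Or.inr (by linarith [abs_nonneg (sE ρ y)]))
  rcases hc with hc | hc
  · refine g7_far hH hb' hρ ?_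
    have h5 := g7_low4 hH (by linarith)
    have h6 := g7_up0 hb' hc
    linarith
  · rcases hs with ⟨_, hy, hb⟩ | ⟨_, hy, hb⟩
    · rw [abs_of_nonneg (g7_sE_nonneg hb'.dom hb)] at hc
      have hyb : y ≤ b' := by
        by_contra hcon
        push Not at hcon
        have h7 := sE_strictMonoOn hb'.dom hH.dom (by linarith) (Set.left_mem_Icc.2 hcon.le)
          (Set.right_mem_Icc.2 hcon.le) hcon
        have h8 := le_abs_self (sE ρ y)
        linarith
      refine g7_pos_gap hH hb' hρ hy hyb ?_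
      rcases hN with rfl | rfl | rfl
      · norm_num at hη hc
        have h5 := g7_low4 hH (by linarith)
        have h6 := g7_pos4 hb' hρ hb (by rw [hc]; linarith)
        linarith
      · norm_num at hη hc
        have h5 := g7_low5 hH (by linarith)
        have h6 := g7_pos5 hb' hρ hb (by rw [hc]; linarith)
        linarith
      · norm_num at hη hc
        have h5 := g7_low6 hH (by linarith)
        have h6 := g7_pos6 hb' hρ hb (by rw [hc]; linarith)
        linarith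
    · rw [abs_of_nonpos (g7_sE_nonpos hb'.dom (by linarith [hb'.y0]) hb)] at hc
      refine g7_neg_gap hH hb' hρ hy ?_
      rcases hN with rfl | rfl | rfl
      · norm_num at hη hc
        have h5 := g7_low4 hH (by linarith)
        have h6 := g7_neg4 hb' hρ hb (by linarith)
        linarith
      · norm_num at hη hc
        have h5 := g7_low5 hH (by linarith)
        have h6 := g7_neg5 hb' hρ hb (by linarith)
        linarith
      · norm_num at hη hc
        have h5 := g7_low6 hH (by linarith)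
        have h6 := g7_neg6 hb' hρ hb (by linarith)
        linarith

end SokalF1T
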