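import Pool.Agent.Lib_MP_af4de1_f1.TG1
import Pool.Agent.Lib_MP_af4de1_f1.TG2
import Pool.Agent.Lib_MP_af4de1_f1.TG3
import Pool.Agent.Lib_MP_af4de1_f1.TG4
import Pool.Agent.Lib_MP_af4de1_f1.TG5
import Pool.Agent.Lib_MP_af4de1_f1.GTay

/-!
# [FT-G8] gap of the third wave, N = 3
(see `TopGapD.lean` for the curve and its one variable descriptions)

The trial value `ph_trial` is used twice, with the same `c`: at the boundary point `b`, where it gives
a lower bound for the angle (`g8_L1`, `g8_L2`), and at `y`, where it gives a lower bound for `ph`.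
-/

set_option autoImplicit false

namespace SokalF1T

open SokalF1S

private theorem g8_strict {ρ y : ℝ} (h : DD ρ y) : |y| * Real.exp y < ρ := by
  rcases lt_or_eq_of_le h.dom.2 with h1 | h1
  · exact h1
  · exfalso
    have h2 := sx_sq h.dom
    have h3 : ρ * Real.exp (-y) = |y| := by
      rw [← h1, mul_assoc, ← Real.exp_add]
      simp
    rw [h3, sq_abs, sub_self] at h2
    have h4 : sx ρ y = 0 := by simpa using h2
    have h5 := h.phi
    unfold ph at h5
    rw [h4] at h5
    norm_num at h5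

/-- trial values -/
private theorem g8_tr {ρ y c A C : ℝ} (h : DD ρ y) (hc : 0 < c)
    (hA : |sE ρ y - ρ * (1 - c)| ≤ A) (hA' : A < Real.pi / 2) (hC0 : 0 < C)
    (hC : C ≤ Real.cos A) : c * (1 + Real.log (C / c)) ≤ ph ρ y := by
  have h1 := ph_trial h.dom (g8_strict h) (by linarith [h.y0]) hc (hA.trans_lt hA')
  refine le_trans ?_ h1
  have h2 : C ≤ Real.cos (sE ρ y - ρ * (1 - c)) := by
    refine hC.trans ?_
    rw [← Real.cos_abs (sE ρ y - ρ * (1 - c))]
    exact Real.cos_le_cos_of_nonneg_of_le_pi (abs_nonneg _) (by linarith [Real.pi_pos]) hA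
  have h3 := Real.log_le_log hC0 h2
  rw [Real.log_div hC0.ne' hc.ne']
  exact mul_le_mul_of_nonneg_left (by linarith) hc.le

private theorem g8_tr' {ρ y c A C : ℝ} (h : DD ρ y) (hc : 0 < c)
    (hA : |sE ρ y - ρ * (1 - c)| ≤ A) (hA' : A < Real.pi / 2) (hC0 : 0 < C)
    (hC : C ≤ Real.cos A) : c * (2 - c / C) ≤ ph ρ y := by
  refine le_trans ?_ (g8_tr h hc hA hA' hC0 hC)
  have h1 := Real.one_sub_inv_le_log_of_pos (div_pos hC0 hc)
  rw [inv_div] at h1
  exact mul_le_mul_of_nonneg_left (by linarith) hc.le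

/-- the same backwards -/
private theorem g8_rev {ρ y c A C : ℝ} (h : DD ρ y) (hc : 0 < c) (hA' : A < Real.pi / 2)
    (hC0 : 0 < C) (hC : C ≤ Real.cos A) (hp : ph ρ y < c * (1 + Real.log (C / c))) :
    A < |sE ρ y - ρ * (1 - c)| := by
  by_contra hcon
  exact absurd (g8_tr h hc (not_lt.1 hcon) hA' hC0 hC) (not_le.2 hp)

private theorem g8_pos {ρ y : ℝ} (h : DD ρ y) (hy : 0 ≤ y) : 0 ≤ sE ρ y := by
  have h1 := (sE_strictMonoOn (dom_zero h.dom.1) h.dom (by norm_num : (-1 : ℝ) ≤ 0)).monotoneOn
    (Set.mem_Icc.2 ⟨le_rfl, hy⟩) (Set.mem_Icc.2 ⟨hy, le_rfl⟩) hy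
  rwa [sE_zero h.dom.1] at h1

private theorem g8_neg {ρ y : ℝ} (h : DD ρ y) (hy : y ≤ 0) : sE ρ y ≤ 0 := by
  have h1 := (sE_strictMonoOn h.dom (dom_zero h.dom.1) (by linarith [h.y0])).monotoneOn
    (Set.mem_Icc.2 ⟨le_rfl, hy⟩) (Set.mem_Icc.2 ⟨hy, le_rfl⟩) hy
  rwa [sE_zero h.dom.1] at h1

private theorem g8_cos {x C : ℝ} (hx : 0 ≤ x)
    (h : C ≤ 1 - x ^ 2 / 2 + x ^ 4 / 24 - x ^ 6 / 720) : C ≤ Real.cos x :=
  h.trans (SokalF1G.cos_ge6 hx)

private theorem g8_e70 : Real.exp (7 / 10) ≤ 2015 / 1000 := by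
  refine (SokalF1G.e_le3 (by norm_num) (by norm_num)).trans ?_
  norm_num

private theorem g8_sin {ρ b : ℝ} (h : DD ρ b) : ρ * Real.sin (-sP ρ b) = -b * Real.exp b := by
  rw [Real.sin_neg, h.dom.sin]
  have := h.dom.1.ne'
  field_simp

private theorem g8_phi {ρ b : ℝ} (h : DD ρ b) : sx ρ b * (1 + b) = ph ρ b * ρ := by
  unfold ph
  have := h.dom.1.ne'
  field_simp

private theorem g8_phi_le {ρ b : ℝ} (h : DD ρ b) : ph ρ b ≤ Real.cos (sP ρ b) := by
  rw [h.dom.cos]
  unfold ph
  refine div_le_div_of_nonneg_right ?_ h.dom.1.le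
  refine mul_le_mul_of_nonneg_left ?_ (sx_nonneg _ _)
  have := Real.add_one_le_exp b
  linarith

/-- the angle of a boundary point on the negative side -/
private theorem g8_L1 {ρ b : ℝ} (h : Bd ρ b) (hb : b ≤ 0) : 551 / 500 ≤ -sE ρ b + 9 / 20 * ρ := by
  obtain ⟨hD, hc⟩ := h
  have hρ := hD.dom.1
  have hs := g8_neg hD hb
  have hπ := Real.pi_gt_d4
  rcases hc with hc | hc
  · have h1 := g8_phi hD
    have h2 := g8_sin hD
    have h3 : 0 ≤ -sP ρ b := by linarith [sP_nonpos hρ hb]
    have h4 := Real.sin_le h3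
    have h5 : sE ρ b = sP ρ b + ρ - sx ρ b := rfl
    have h6 := hD.phi
    have h7 : 22 / 15 * ρ ≤ sx ρ b := by
      have h8 : 11 / 25 * ρ ≤ ph ρ b * ρ := mul_le_mul_of_nonneg_right h6 hρ.le
      rw [← h1, hc] at h8
      rw [hc]
      linarith
    have h8 : (4878 / 10000 : ℝ) ≤ Real.exp b := by
      have := SokalF1G.en_ge3 (x := 7 / 10) (by norm_num)
      rw [hc]
      refine le_trans ?_ this
      norm_num
    have h9 : (341 / 1000 : ℝ) ≤ ρ * -sP ρ b := by
      have h10 := mul_le_mul_of_nonneg_left h4 hρ.le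
      rw [h2] at h10
      rw [hc] at h10 h8 ⊢
      linarith
    by_contra hcon
    push Not at hcon
    have h10 : -sP ρ b + 11 / 12 * ρ < 551 / 500 := by linarith
    nlinarith [mul_lt_mul_of_pos_left h10 hρ, sq_nonneg (ρ - 3 / 5)]
  · have h1 := g8_rev (c := 11 / 20) (A := 551 / 500) (C := 903 / 2000) hD (by norm_num)
      (by linarith) (by norm_num) (g8_cos (by norm_num) (by norm_num)) (by
        rw [hc]
        have h2 : -(1 / 5) < Real.log (903 / 2000 / (11 / 20)) := by
          rw [Real.lt_log_iff_exp_lt (by norm_num)]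
          have h3 := SokalF1G.en_le2 (x := 1 / 5) (by norm_num)
          refine h3.trans_lt ?_
          norm_num
        linarith)
    have h2 : sE ρ b - ρ * (1 - 11 / 20) ≤ 0 := by linarith
    rw [abs_of_nonpos h2] at h1
    linarith

/-- the angle of a boundary point on the positive side -/
private theorem g8_L2 {ρ b : ℝ} (h : Bd ρ b) (hb : 0 ≤ b) : 111 / 100 + 14 / 25 * ρ ≤ sE ρ b := by
  have hρ' := bd_rho' h (Or.inl hb)
  obtain ⟨hD, hc⟩ := h
  have hρ := hD.dom.1
  have hs := g8_pos hD hb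
  have hπ := Real.pi_gt_d4
  rcases hc with hc | hc
  · exfalso
    linarith
  · have h1 := g8_rev (c := 11 / 25) (A := 111 / 100) (C := 442 / 1000) hD (by norm_num)
      (by linarith) (by norm_num) (g8_cos (by norm_num) (by norm_num)) (by
        rw [hc]
        have h2 : 0 < Real.log (442 / 1000 / (11 / 25)) := Real.log_pos (by norm_num)
        linarith)
    rcases le_total 0 (sE ρ b - ρ * (1 - 11 / 25)) with h2 | h2
    · rw [abs_of_nonneg h2] at h1
      linarith
    · exfalso
      rw [abs_of_nonpos h2] at h1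
      linarith

private theorem g8_num : Real.exp (3 / 4) * (2031 / 1000) * Real.exp (-(499 / 10) * (13 / 125)) ≤
    1 / 40 := by
  have h1 : Real.exp (3 / 4) * (2031 / 1000) * Real.exp (-(499 / 10) * (13 / 125)) =
      2031 / 1000 * Real.exp (-(11099 / 2500)) := by
    have : Real.exp (3 / 4) * Real.exp (-(499 / 10) * (13 / 125)) =
        Real.exp (-(11099 / 2500)) := by
      rw [← Real.exp_add]
      norm_num
    rw [← this]
    ring
  rw [h1, Real.exp_neg, ← div_eq_mul_inv, div_le_iff₀ (Real.exp_pos _)]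
  have h2 : Real.exp (11099 / 2500) = Real.exp 1 ^ 4 * Real.exp (1099 / 2500) := by
    rw [← Real.exp_nat_mul, ← Real.exp_add]
    norm_num
  have h3 : (2718 / 1000 : ℝ) ^ 4 ≤ Real.exp 1 ^ 4 :=
    pow_le_pow_left₀ (by norm_num) (by linarith [Real.exp_one_gt_d9]) 4
  have h4 := Real.quadratic_le_exp_of_nonneg (x := 1099 / 2500) (by norm_num)
  rw [h2]
  have h5 : (2718 / 1000 : ℝ) ^ 4 * (1 + 1099 / 2500 + (1099 / 2500) ^ 2 / 2) ≤
      Real.exp 1 ^ 4 * Real.exp (1099 / 2500) :=
    mul_le_mul h3 h4 (by norm_num) (by positivity)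
  refine le_trans ?_ (mul_le_mul_of_nonneg_left h5 (by norm_num))
  norm_num

private theorem g8_gap {ρ y b' : ℝ} (h1 : y - b' ≤ 3 / 4) (h2 : sD2 ρ y ≤ 17 * sD2 ρ b')
    (h3 : 0 < sD2 ρ b') (h4 : ph ρ b' + 13 / 125 ≤ ph ρ y) : GapC ρ y b' ≤ 1 / 40 := by
  unfold GapC
  refine le_trans ?_ g8_num
  have e1 : max 1 (Real.exp (y - b')) ≤ Real.exp (3 / 4) :=
    max_le (Real.one_le_exp (by norm_num)) (Real.exp_le_exp.2 h1)
  have e2 : √(√(sD2 ρ y)) / √(√(sD2 ρ b')) ≤ 2031 / 1000 := by
    rw [div_le_iff₀ (Real.sqrt_pos.2 (Real.sqrt_pos.2 h3))]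
    have hk : (2031 / 1000 : ℝ) * √(√(sD2 ρ b')) =
        √(√((2031 / 1000) ^ 4 * sD2 ρ b')) := by
      rw [Real.sqrt_mul (by norm_num), Real.sqrt_mul (Real.sqrt_nonneg _)]
      congr 1
      rw [show ((2031 / 1000 : ℝ)) ^ 4 = ((2031 / 1000) ^ 2) ^ 2 by norm_num,
        Real.sqrt_sq (by norm_num), Real.sqrt_sq (by norm_num)]
    rw [hk]
    refine Real.sqrt_le_sqrt (Real.sqrt_le_sqrt (h2.trans ?_))
    exact mul_le_mul_of_nonneg_right (by norm_num) h3.le
  have e3 : Real.exp (-(499 / 10) * (ph ρ y - ph ρ b')) ≤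
      Real.exp (-(499 / 10) * (13 / 125)) :=
    Real.exp_le_exp.2 (by linarith)
  have p1 : 0 ≤ √(√(sD2 ρ y)) / √(√(sD2 ρ b')) := by positivity
  exact mul_le_mul (mul_le_mul e1 e2 p1 (Real.exp_pos _).le) e3 (Real.exp_pos _).le
    (by positivity)

/-- [FT-GAPH3] `N = 3`, the third wave: base `b'` on the side of `H` (true supremum .004). -/
theorem gapH3 {ρ b y b' : ℝ} (h : Bd ρ b) (hH : DD ρ y) (hs : (b ≤ 0 ∧ 0 ≤ y ∧ 0 ≤ b') ∨ (0 ≤ b ∧ y ≤ 0 ∧ b' ≤ 0))
    (hη : |sE ρ y| + |sE ρ b| ≤ 2 * Real.pi / 3) (hb' : DD ρ b')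
    (hc : (b' = -(7 / 10) ∨ ph ρ b' = 11 / 25) ∨ |sE ρ b'| = 2 * Real.pi / 3) : GapC ρ y b' ≤ 1 / 40 := by
  have hρ := h.1.dom.1
  have hπ1 := Real.pi_gt_d4
  have hπ2 := Real.pi_lt_d4
  have hφ := g8_phi hb'
  have hφ44 := hb'.phi
  rcases hs with ⟨hb, hy, hb0⟩ | ⟨hb, hy, hb0⟩
  · -- `b ≤ 0`, `H` and `b'` on the positive side
    have hL1 := g8_L1 h hb
    have hge := bd_abs_ge h
    have hsb := g8_neg h.1 hb
    have hsy := g8_pos hH hy
    have hr := bd_rho h
    rw [abs_of_nonneg hsy, abs_of_nonpos hsb] at hη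
    rw [abs_of_nonpos hsb] at hge
    refine g8_gap (by linarith [hH.y1]) ?_ (sD2_pos (by linarith)) ?_
    · have e1 : sD2 ρ y ≤ 17 := by
        have h1 := sx_sq hH.dom
        have h2 : Real.exp (-y) ≤ 1 := Real.exp_le_one_iff.2 (by linarith)
        have h3 : ρ * Real.exp (-y) ≤ 2 := by
          have := mul_le_mul hr h2 (Real.exp_pos _).le (by norm_num : (0 : ℝ) ≤ 2)
          linarith
        have h4 : 0 ≤ ρ * Real.exp (-y) := mul_nonneg hρ.le (Real.exp_pos _).le
        unfold sD2
        have h5 := hH.y1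
        nlinarith [sq_nonneg y]
      have e2 : 1 ≤ sD2 ρ b' := by
        unfold sD2
        nlinarith [sq_nonneg (sx ρ b')]
      linarith
    · rcases hc with (hc | hc) | hc
      · exfalso
        linarith
      · have h1 := g8_tr' (c := 11 / 20) (A := 9925 / 10000) (C := 546 / 1000) hH (by norm_num)
          (abs_le.2 ⟨by linarith, by linarith⟩) (by linarith) (by norm_num)
          (g8_cos (by norm_num) (by norm_num))
        rw [hc]
        refine le_trans ?_ h1
        norm_num
      · have hsb' := g8_pos hb' hb0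
        rw [abs_of_nonneg hsb'] at hc
        have hE : sE ρ b' = sP ρ b' + ρ - sx ρ b' := rfl
        have hcosle := g8_phi_le hb'
        have hb1 := hb'.y1
        have hP0 : 0 ≤ sP ρ b' := sP_nonneg hρ hb0
        have hPle := abs_le.1 (sP_abs_le ρ b')
        have hx0 := sx_nonneg ρ b'
        -- `x ≥ φ ρ / 1.72`
        have hx1 : ph ρ b' * ρ ≤ 43 / 25 * sx ρ b' := by
          rw [← hφ]
          nlinarith
        -- `ρ ≥ 1.3`
        have hr1 : 13 / 10 ≤ ρ := by
          by_contra hcon
          push Not at hcon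
          have h2 : 11 / 25 * ρ ≤ ph ρ b' * ρ := mul_le_mul_of_nonneg_right hφ44 hρ.le
          have h3 : 28 / 25 ≤ sP ρ b' := by linarith
          have h4 := Real.cos_le_cos_of_nonneg_of_le_pi (by norm_num) (by linarith) h3
          have h5 := SokalF1G.cos_le4 (x := 28 / 25) (by norm_num)
          norm_num at h5
          linarith
        rcases le_total ρ (9 / 5) with hr2 | hr2
        · have hφ62 : ph ρ b' ≤ 31 / 50 := by
            by_contra hcon
            push Not at hcon
            have h2 : 31 / 50 * ρ ≤ ph ρ b' * ρ := mul_le_mul_of_nonneg_right hcon.le hρ.le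
            have h3 : 943 / 1000 ≤ sP ρ b' := by linarith
            have h4 := Real.cos_le_cos_of_nonneg_of_le_pi (by norm_num) (by linarith) h3
            have h5 := SokalF1G.cos_le4 (x := 943 / 1000) (by norm_num)
            norm_num at h5
            linarith
          have h1 := g8_tr' (c := 7 / 10) (A := 3 / 4) (C := 731 / 1000) hH (by norm_num)
            (abs_le.2 ⟨by linarith, by linarith⟩) (by linarith) (by norm_num)
            (g8_cos (by norm_num) (by norm_num))
          norm_num at h1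
          linarith
        · have hφ66 : ph ρ b' ≤ 67 / 100 := by
            by_contra hcon
            push Not at hcon
            have h2 : 67 / 100 * ρ ≤ ph ρ b' * ρ := mul_le_mul_of_nonneg_right hcon.le hρ.le
            have h3 : 873 / 1000 ≤ sP ρ b' := by linarith
            have h4 := Real.cos_le_cos_of_nonneg_of_le_pi (by norm_num) (by linarith) h3
            have h5 := SokalF1G.cos_le4 (x := 873 / 1000) (by norm_num)
            norm_num at h5
            linarith
          have h1 := g8_tr' (c := 7 / 10) (A := 3 / 5) (C := 8253 / 10000) hH (by norm_num)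
            (abs_le.2 ⟨by linarith, by linarith⟩) (by linarith) (by norm_num)
            (g8_cos (by norm_num) (by norm_num))
          norm_num at h1
          linarith
  · -- `b ≥ 0`, `H` and `b'` on the negative side
    have hL2 := g8_L2 h hb
    have hsb := g8_pos h.1 hb
    have hsy := g8_neg hH hy
    have hr := bd_rho' h (Or.inl hb)
    have he := g8_e70
    have hy0 := hH.y0
    have hb'0 := hb'.y0
    rw [abs_of_nonpos hsy, abs_of_nonneg hsb] at hη
    refine g8_gap (by linarith) ?_ (sD2_pos (by linarith)) ?_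
    · have h1 := sx_sq hH.dom
      have h2 : Real.exp (-y) ≤ 2015 / 1000 := (Real.exp_le_exp.2 (by linarith)).trans he
      have h3 : ρ * Real.exp (-y) ≤ ρ * (2015 / 1000) := mul_le_mul_of_nonneg_left h2 hρ.le
      have h4 : 0 ≤ ρ * Real.exp (-y) := mul_nonneg hρ.le (Real.exp_pos _).le
      have e1 : sD2 ρ y ≤ 1 + 41 / 10 * ρ ^ 2 := by
        unfold sD2
        nlinarith
      have e2 : 9 / 100 ≤ sD2 ρ b' := by
        unfold sD2
        nlinarith [sq_nonneg (sx ρ b')]
      have e3 : 22 / 25 * ρ ≤ sD2 ρ b' := by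
        have h5 : 11 / 25 * ρ ≤ ph ρ b' * ρ := mul_le_mul_of_nonneg_right hφ44 hρ.le
        unfold sD2
        nlinarith [sq_nonneg (1 + b' - sx ρ b')]
      rcases le_total ρ (1 / 10) with h6 | h6
      · nlinarith
      · nlinarith [mul_nonneg (sub_nonneg.2 h6) (sub_nonneg.2 hr)]
    · rcases hc with (hc | hc) | hc
      · -- `b' = -7/10`
        have hx := sx_le hb'.dom
        have h3 := sx_sq hb'.dom
        have h4 : Real.exp (-b') ≤ 2015 / 1000 := (Real.exp_le_exp.2 (by linarith)).trans he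
        have h5 : ρ * Real.exp (-b') ≤ ρ * (2015 / 1000) := mul_le_mul_of_nonneg_left h4 hρ.le
        have h6 : 0 ≤ ρ * Real.exp (-b') := mul_nonneg hρ.le (Real.exp_pos _).le
        have h7 : 22 / 15 * ρ ≤ sx ρ b' := by
          have h8 : 11 / 25 * ρ ≤ ph ρ b' * ρ := mul_le_mul_of_nonneg_right hφ44 hρ.le
          rw [← hφ, hc] at h8
          rw [hc]
          linarith
        have h9 : (ρ * Real.exp (-b')) ^ 2 ≤ (ρ * (2015 / 1000)) ^ 2 := pow_le_pow_left₀ h6 h5 2
        have h10 : (22 / 15 * ρ) ^ 2 ≤ sx ρ b' ^ 2 := pow_le_pow_left₀ (by positivity) h7 2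
        have h11 : b' ^ 2 = 49 / 100 := by
          rw [hc]
          norm_num
        have h2 : 1 / 2 ≤ ρ := by
          by_contra hcon
          push Not at hcon
          nlinarith
        have h12 : ph ρ b' * ρ = 3 / 10 * sx ρ b' := by
          rw [← hφ, hc]
          ring
        rcases le_total ρ (7 / 10) with h13 | h13
        · have h14 : ph ρ b' ≤ 5265 / 10000 := by
            have h15 : sx ρ b' ≤ 1755 / 1000 * ρ := by
              refine abs_le_of_sq_le_sq' ?_ (by positivity) |>.2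
              nlinarith
            have h16 : ph ρ b' * ρ ≤ 5265 / 10000 * ρ := by linarith
            exact le_of_mul_le_mul_right h16 hρ
          have h17 := g8_tr' (c := 13 / 20) (A := 8795 / 10000) (C := 637 / 1000) hH (by norm_num)
            (abs_le.2 ⟨by linarith, by linarith⟩) (by linarith) (by norm_num)
            (g8_cos (by norm_num) (by norm_num))
          norm_num at h17
          linarith
        · have h14 : ph ρ b' ≤ 6045 / 10000 := by
            have h16 : ph ρ b' * ρ ≤ 6045 / 10000 * ρ := by linarith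
            exact le_of_mul_le_mul_right h16 hρ
          have h17 := g8_tr' (c := 3 / 4) (A := 7675 / 10000) (C := 719 / 1000) hH (by norm_num)
            (abs_le.2 ⟨by linarith, by linarith⟩) (by linarith) (by norm_num)
            (g8_cos (by norm_num) (by norm_num))
          norm_num at h17
          linarith
      · have h1 := g8_tr' (c := 11 / 20) (A := 9844 / 10000) (C := 55 / 100) hH (by norm_num)
          (abs_le.2 ⟨by linarith, by linarith⟩) (by linarith) (by norm_num)
          (g8_cos (by norm_num) (by norm_num))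
        rw [hc]
        refine le_trans ?_ h1
        norm_num
      · -- no such point for `ρ ≤ 29/20`
        exfalso
        have hsb' := g8_neg hb' hb0
        rw [abs_of_nonpos hsb'] at hc
        have hE : sE ρ b' = sP ρ b' + ρ - sx ρ b' := rfl
        have hcosle := g8_phi_le hb'
        have hPle := abs_le.1 (sP_abs_le ρ b')
        have hx := sx_le hb'.dom
        have h2 : Real.exp (-b') ≤ 2015 / 1000 := (Real.exp_le_exp.2 (by linarith)).trans he
        have h3 : ρ * Real.exp (-b') ≤ ρ * (2015 / 1000) := mul_le_mul_of_nonneg_left h2 hρ.le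
        have hsin := g8_sin hb'
        have h4 : -b' * Real.exp b' ≤ 35 / 100 := by
          have h5 := strictMonoOn_mul_exp.monotoneOn
            (Set.mem_Ici.2 (by norm_num : (-1 : ℝ) ≤ -(7 / 10)))
            (Set.mem_Ici.2 (by linarith : (-1 : ℝ) ≤ b')) hb'0
          have h6 := SokalF1G.en_le4 (x := 7 / 10) (by norm_num)
          norm_num at h6
          norm_num at h5
          linarith
        have h5 : 62 / 100 ≤ -sP ρ b' := by linarith
        have h6 : Real.sin (62 / 100) ≤ Real.sin (-sP ρ b') :=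
          Real.sin_le_sin_of_le_of_le_pi_div_two (by linarith) (by linarith) h5
        have h7 := SokalF1G.sin_ge3 (x := 62 / 100) (by norm_num)
        have h8 : (58 / 100 : ℝ) ≤ Real.sin (-sP ρ b') := by
          refine le_trans ?_ (h7.trans h6)
          norm_num
        have h9 : ρ ≤ 61 / 100 := by
          have := mul_le_mul_of_nonneg_left h8 hρ.le
          rw [hsin] at this
          linarith
        have h10 : 14 / 10 ≤ -sP ρ b' := by linarith
        have h11 := Real.cos_le_cos_of_nonneg_of_le_pi (by norm_num) (by linarith) h10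
        rw [Real.cos_neg] at h11
        have h12 := SokalF1G.cos_le4 (x := 14 / 10) (by norm_num)
        norm_num at h12
        linarith

end SokalF1T
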