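import Pool.Agent.Lib_MP_af4de1_f1.TG1
import Pool.Agent.Lib_MP_af4de1_f1.TG2
import Pool.Agent.Lib_MP_af4de1_f1.TG4

/-!
# [FT-G9] gap, N = 2
(see `TopGapD.lean` for the curve and its one variable descriptions)

Upper bounds of `ph` at the base come from the dual trial values: for every `v`
`ρ ph(y) + v η(y) ≤ x(v) + v (ψ(v) + ρ)` (`tg9_phi_le`). Lower bounds at `y` from `ph_trial` with
`c = 1 - η/ρ`.

Numbers (ph at 60° / -120°, ph at -60° / 120°): rho 2.5: .922/.735, .929/.691; 3: .942/.808, .949/.763;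
3.5: .956/.854, .961/.816; 4: .966/.886, .970/.855; 4.5: .973/.908, .976/.884.
-/

set_option autoImplicit false

namespace SokalF1T

open SokalF1S Set

theorem tg9_neg {ρ b : ℝ} (h : Dom ρ b) (h1 : -1 ≤ b) (h0 : b ≤ 0) : sE ρ b ≤ 0 := by
  have := (sE_strictMonoOn h (dom_zero h.1) h1).monotoneOn (left_mem_Icc.2 h0)
    (right_mem_Icc.2 h0) h0
  rwa [sE_zero h.1] at this

theorem tg9_pos {ρ b : ℝ} (h : Dom ρ b) (h0 : 0 ≤ b) : 0 ≤ sE ρ b := by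
  have := (sE_strictMonoOn (dom_zero h.1) h (by norm_num)).monotoneOn (left_mem_Icc.2 h0)
    (right_mem_Icc.2 h0) h0
  rwa [sE_zero h.1] at this

/-- the tangent lines of `ρ ph` as a function of `η` lie above it -/
theorem tg9_phi_le {ρ b v : ℝ} (hb : Dom ρ b) (hv : Dom ρ v) (hb1 : -1 ≤ b) (hv1 : -1 ≤ v) :
    sx ρ b * (1 + b) + v * sE ρ b ≤ sx ρ v * (1 + v) + v * sE ρ v := by
  have hcont : Continuous (fun y => sx ρ y * (1 + y) + v * sE ρ y) :=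
    ((continuous_sx ρ).mul (continuous_const.add continuous_id)).add
      (continuous_const.mul (continuous_sE ρ))
  have hder : ∀ y, |y| * Real.exp y < ρ → HasDerivAt (fun y => sx ρ y * (1 + y) + v * sE ρ y)
      ((v - y) * (sD2 ρ y / sx ρ y)) y := by
    intro y hy
    refine ((hasDerivAt_sPhi hb.1 hy).add ((hasDerivAt_sE hb.1 hy).const_mul v)).congr_deriv ?_
    ring
  rcases le_total b v with h | h
  · have hm : MonotoneOn (fun y => sx ρ y * (1 + y) + v * sE ρ y) (Icc b v) := by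
      refine monotoneOn_of_deriv_nonneg (convex_Icc _ _) hcont.continuousOn ?_ ?_
      · intro y hy
        rw [interior_Icc] at hy
        exact (hder y (dom_between hb hv hb1 hy)).differentiableAt.differentiableWithinAt
      · intro y hy
        rw [interior_Icc] at hy
        have h1 := dom_between hb hv hb1 hy
        rw [(hder y h1).deriv]
        exact mul_nonneg (by linarith [hy.2])
          (div_pos (sD2_pos (by linarith [hy.1])) (sx_pos hb.1 h1)).le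
    exact hm (left_mem_Icc.2 h) (right_mem_Icc.2 h) h
  · have hm : AntitoneOn (fun y => sx ρ y * (1 + y) + v * sE ρ y) (Icc v b) := by
      refine antitoneOn_of_deriv_nonpos (convex_Icc _ _) hcont.continuousOn ?_ ?_
      · intro y hy
        rw [interior_Icc] at hy
        exact (hder y (dom_between hv hb hv1 hy)).differentiableAt.differentiableWithinAt
      · intro y hy
        rw [interior_Icc] at hy
        have h1 := dom_between hv hb hv1 hy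
        rw [(hder y h1).deriv]
        exact mul_nonpos_of_nonpos_of_nonneg (by linarith [hy.1])
          (div_pos (sD2_pos (by linarith [hy.1])) (sx_pos hb.1 h1)).le
    exact hm (left_mem_Icc.2 h) (right_mem_Icc.2 h) h

theorem tg9_cos {p : ℝ} (h : |p| ≤ Real.pi / 2) :
    Real.cos p + p * Real.sin p ≤ 1 + p ^ 2 / 2 := by
  have h1 := Real.cos_two_mul (p / 2)
  have h2 := Real.sin_two_mul (p / 2)
  have e : 2 * (p / 2) = p := by ring
  rw [e] at h1 h2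
  have h3 := Real.sin_sq_add_cos_sq (p / 2)
  have hpi := Real.pi_pos
  have hp := abs_le.1 h
  have h4 : 0 ≤ p * Real.sin (p / 2) := by
    rcases le_total 0 p with hp0 | hp0
    · exact mul_nonneg hp0 (Real.sin_nonneg_of_nonneg_of_le_pi (by linarith) (by linarith [hp.2]))
    · exact mul_nonneg_of_nonpos_of_nonpos hp0
        (Real.sin_nonpos_of_nonpos_of_neg_pi_le (by linarith) (by linarith [hp.1]))
  have h5 : Real.cos (p / 2) ≤ 1 := Real.cos_le_one _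
  have h6 := mul_le_mul_of_nonneg_left h5 h4
  have h7 := sq_nonneg (p / 2 - Real.sin (p / 2))
  rw [h1, h2]
  nlinarith

theorem tg9_arcsin {s : ℝ} (h : |s| ≤ 9 / 20) : Real.arcsin s ^ 2 ≤ 23 / 20 * s ^ 2 := by
  have key : ∀ z : ℝ, 0 ≤ z → z ≤ 9 / 20 →
      0 ≤ Real.arcsin z ∧ Real.arcsin z ≤ 107 / 100 * z := by
    intro z h0 h1
    refine ⟨Real.arcsin_nonneg.2 h0, ?_⟩
    rcases h0.eq_or_lt with h | h
    · rw [← h]; simp
    have hpi := Real.pi_gt_three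
    rw [Real.arcsin_le_iff_le_sin' ⟨by linarith, by linarith⟩]
    have h3 := Real.sin_gt_sub_cube (x := 107 / 100 * z) (by linarith)
    have h4 : z ^ 2 ≤ (9 / 20) ^ 2 := pow_le_pow_left₀ h0 h1 2
    nlinarith
  have key2 : ∀ z : ℝ, 0 ≤ z → z ≤ 9 / 20 → Real.arcsin z ^ 2 ≤ 23 / 20 * z ^ 2 := by
    intro z h0 h1
    obtain ⟨a1, a2⟩ := key z h0 h1
    have := pow_le_pow_left₀ a1 a2 2
    nlinarith [sq_nonneg z]
  rcases le_total 0 s with h0 | h0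
  · exact key2 s h0 (by rwa [abs_of_nonneg h0] at h)
  · have h1 := key2 (-s) (by linarith) (by rwa [abs_of_nonpos h0] at h)
    rwa [Real.arcsin_neg, neg_sq, neg_sq] at h1

/-- upper bound of `ph` by a trial value `v` -/
theorem tg9_ph_le {ρ b v : ℝ} (hb : Dom ρ b) (hb1 : -1 ≤ b) (hv1 : -1 ≤ v)
    (hv : |v| * Real.exp v ≤ 9 / 20 * ρ) :
    ph ρ b ≤ Real.exp (-v) + 23 / 40 * v ^ 2 * Real.exp v / ρ ^ 2 + v * (1 - sE ρ b / ρ) := by
  have hρ := hb.1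
  have hvD : Dom ρ v := ⟨hρ, by linarith⟩
  have h1 := tg9_phi_le hb hvD hb1 hv1
  have h2e : Real.exp v * Real.exp (-v) = 1 := by rw [← Real.exp_add]; simp
  have hev := Real.exp_pos v
  have hev' := Real.exp_pos (-v)
  have hc : sx ρ v = ρ * Real.exp (-v) * Real.cos (sP ρ v) := by
    rw [hvD.cos]
    field_simp
    linear_combination (-(sx ρ v)) * h2e
  have hs : v = ρ * Real.exp (-v) * Real.sin (sP ρ v) := by
    rw [hvD.sin]
    field_simp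
    linear_combination (-v) * h2e
  have h2 : sE ρ v = sP ρ v + ρ - sx ρ v := rfl
  have h3 := tg9_cos (sP_abs_le ρ v)
  have h4 : sP ρ v ^ 2 ≤ 23 / 20 * (v * Real.exp v / ρ) ^ 2 := by
    refine tg9_arcsin ?_
    rw [abs_mul_exp_eq, abs_of_pos hρ, div_le_iff₀ hρ]
    exact hv
  have h5 : sx ρ v + v * sP ρ v ≤ ρ * Real.exp (-v) + 23 / 40 * v ^ 2 * Real.exp v / ρ := by
    have e1 : sx ρ v + v * sP ρ v =
        ρ * Real.exp (-v) * (Real.cos (sP ρ v) + sP ρ v * Real.sin (sP ρ v)) := by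
      linear_combination hc + (sP ρ v) * hs
    have e2 : ρ * Real.exp (-v) + 23 / 40 * v ^ 2 * Real.exp v / ρ =
        ρ * Real.exp (-v) * (1 + 23 / 40 * (v * Real.exp v / ρ) ^ 2) := by
      field_simp
      linear_combination (-(23 * v ^ 2 * Real.exp v)) * h2e
    rw [e1, e2]
    refine mul_le_mul_of_nonneg_left ?_ (by positivity)
    linarith
  unfold ph
  rw [div_le_iff₀ hρ]
  have e3 : (Real.exp (-v) + 23 / 40 * v ^ 2 * Real.exp v / ρ ^ 2 + v * (1 - sE ρ b / ρ)) * ρ =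
      (ρ * Real.exp (-v) + 23 / 40 * v ^ 2 * Real.exp v / ρ) + v * (ρ - sE ρ b) := by
    field_simp
  rw [e3]
  rw [h2] at h1
  nlinarith

theorem tg9_log {s : ℝ} (h0 : 0 ≤ s) (h1 : s ≤ 1 / 2) :
    s + s ^ 2 / 2 + s ^ 3 / 3 + s ^ 4 / 4 ≤ -Real.log (1 - s) := by
  have h := Real.hasSum_pow_div_log_of_abs_lt_one (x := s) (by rw [abs_of_nonneg h0]; linarith)
  have h2 := sum_le_hasSum (Finset.range 4) (fun n _ => by positivity) h
  refine le_trans (le_of_eq ?_) h2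
  simp only [Finset.sum_range_succ, Finset.sum_range_zero]
  norm_num

/-- lower bound of `c (1 - log c)` -/
theorem tg9_clog {c w : ℝ} (hw : w ≤ 1 / 2) (h : |1 - c| ≤ w) :
    1 - w ^ 2 / 2 - w ^ 3 / 6 - w ^ 4 / 12 - w ^ 5 / 4 ≤ c * (1 - Real.log c) := by
  have hmon : ∀ s : ℝ, 0 ≤ s → s ≤ w → 1 - w ^ 2 / 2 - w ^ 3 / 6 - w ^ 4 / 12 - w ^ 5 / 4 ≤
      1 - s ^ 2 / 2 - s ^ 3 / 6 - s ^ 4 / 12 - s ^ 5 / 4 := by
    intro s h0 h1
    have a2 := pow_le_pow_left₀ h0 h1 2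
    have a3 := pow_le_pow_left₀ h0 h1 3
    have a4 := pow_le_pow_left₀ h0 h1 4
    have a5 := pow_le_pow_left₀ h0 h1 5
    linarith
  rcases le_total c 1 with hc | hc
  · rw [abs_of_nonneg (by linarith)] at h
    have h1 := tg9_log (s := 1 - c) (by linarith) (by linarith)
    rw [sub_sub_cancel] at h1
    refine (hmon (1 - c) (by linarith) h).trans ?_
    have h2 : c * ((1 - c) + (1 - c) ^ 2 / 2 + (1 - c) ^ 3 / 3 + (1 - c) ^ 4 / 4) ≤
        c * (-Real.log c) := mul_le_mul_of_nonneg_left h1 (by linarith)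
    nlinarith
  · rw [abs_of_nonpos (by linarith)] at h
    set s := c - 1 with hs
    have h0 : 0 ≤ s := by linarith
    have hsw : s ≤ w := by linarith
    have hs2 : s ≤ 1 / 2 := by linarith
    refine (hmon s h0 hsw).trans ?_
    have hc1 : c = 1 + s := by rw [hs]; ring
    have h3 : 0 ≤ s - s ^ 2 / 2 + s ^ 3 / 2 := by nlinarith [pow_nonneg h0 3]
    have h4 : Real.log c ≤ s - s ^ 2 / 2 + s ^ 3 / 2 := by
      rw [Real.log_le_iff_le_exp (by linarith)]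
      refine le_trans ?_ (Real.quadratic_le_exp_of_nonneg h3)
      rw [hc1]
      have a4 := pow_nonneg h0 4
      have a6 := pow_nonneg h0 6
      have a5 : s ^ 5 ≤ s ^ 4 * (1 / 2) := by
        have : s ^ 5 = s ^ 4 * s := by ring
        rw [this]
        exact mul_le_mul_of_nonneg_left hs2 a4
      nlinarith
    have h5 : c * (1 - (s - s ^ 2 / 2 + s ^ 3 / 2)) ≤ c * (1 - Real.log c) :=
      mul_le_mul_of_nonneg_left (by linarith) (by linarith)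
    refine le_trans ?_ h5
    rw [hc1]
    have a3 := pow_nonneg h0 3
    have a4 : s ^ 4 ≤ s ^ 3 * (1 / 2) := by
      have : s ^ 4 = s ^ 3 * s := by ring
      rw [this]
      exact mul_le_mul_of_nonneg_left hs2 a3
    have a5 : s ^ 4 * (5 / 12) ≤ s ^ 3 / 6 + s ^ 5 / 4 := by
      have : 0 ≤ s ^ 3 * ((2 / 3 - s) * (1 - s)) :=
        mul_nonneg a3 (mul_nonneg (by linarith) (by linarith))
      nlinarith
    nlinarith

theorem tg9_exp_le {ρ y : ℝ} (hρ : 5 / 2 ≤ ρ) (h : DD ρ y) : |y| * Real.exp y < ρ := by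
  have h1 : |y| ≤ 3 / 4 := abs_le.2 ⟨by linarith [h.y0], by linarith [h.y1]⟩
  have h2 : Real.exp y ≤ Real.exp 1 := Real.exp_le_exp.2 (by linarith [h.y1])
  have h3 := Real.exp_one_lt_d9
  have h4 := Real.exp_pos y
  have : |y| * Real.exp y ≤ 3 / 4 * Real.exp y := mul_le_mul_of_nonneg_right h1 h4.le
  linarith

/-- lower bound of `ph` in the inner sixth -/
theorem tg9_ph_ge {ρ y : ℝ} (hρ : 5 / 2 ≤ ρ) (h : DD ρ y) (he : |sE ρ y| ≤ Real.pi / 3) :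
    1 - (Real.pi / (3 * ρ)) ^ 2 / 2 - (Real.pi / (3 * ρ)) ^ 3 / 6 - (Real.pi / (3 * ρ)) ^ 4 / 12 -
      (Real.pi / (3 * ρ)) ^ 5 / 4 ≤ ph ρ y := by
  have hρ0 : 0 < ρ := by linarith
  have hpi := Real.pi_lt_d2
  have hw : Real.pi / (3 * ρ) ≤ 1 / 2 := by
    rw [div_le_iff₀ (by linarith)]
    linarith
  have hs : |sE ρ y / ρ| ≤ Real.pi / (3 * ρ) := by
    rw [abs_div, abs_of_pos hρ0, div_le_div_iff₀ hρ0 (by linarith)]
    nlinarith
  have hc : |1 - (1 - sE ρ y / ρ)| ≤ Real.pi / (3 * ρ) := by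
    rw [sub_sub_cancel]
    exact hs
  refine (tg9_clog hw hc).trans ?_
  have e0 : sE ρ y - ρ * (1 - (1 - sE ρ y / ρ)) = 0 := by
    field_simp
    ring
  have h1 := ph_trial (c := 1 - sE ρ y / ρ) h.dom (tg9_exp_le hρ h) (by linarith [h.y0])
    (by linarith [(abs_le.1 hs).2]) (by rw [e0, abs_zero]; positivity)
  rw [e0, Real.cos_zero, Real.log_one, add_zero] at h1
  exact h1

/-- upper bound of `ph` at `-2π/3` -/
theorem tg9_ph_neg {ρ b t : ℝ} (hρ : 5 / 2 ≤ ρ) (h : DD ρ b) (hb : sE ρ b = -(2 * Real.pi / 3))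
    (ht0 : 0 ≤ t) (ht : t ≤ 1) :
    ph ρ b ≤ Real.exp t - t - 2 * t * (Real.pi / (3 * ρ)) +
      23 / 40 * t ^ 2 * Real.exp (-t) * (1 / ρ) ^ 2 := by
  have hρ0 : 0 < ρ := by linarith
  have hte : |(-t)| * Real.exp (-t) ≤ 9 / 20 * ρ := by
    rw [abs_neg, abs_of_nonneg ht0]
    have h1 : Real.exp (-t) ≤ 1 := Real.exp_le_one_iff.2 (by linarith)
    have h2 : t * Real.exp (-t) ≤ t * 1 := mul_le_mul_of_nonneg_left h1 ht0
    linarith
  refine (tg9_ph_le h.dom (by linarith [h.y0]) (by linarith) hte).trans (le_of_eq ?_)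
  rw [hb, neg_neg]
  field_simp
  ring

/-- upper bound of `ph` at `2π/3` -/
theorem tg9_ph_pos {ρ b : ℝ} (hρ : 5 / 2 ≤ ρ) (h : DD ρ b) (hb : sE ρ b = 2 * Real.pi / 3) :
    ph ρ b ≤ Real.exp (-(1 / 2)) + 1 / 2 - (Real.pi / (3 * ρ)) +
      23 / 160 * Real.exp (1 / 2) * (1 / ρ) ^ 2 := by
  have hρ0 : 0 < ρ := by linarith
  have hte : |(1 / 2 : ℝ)| * Real.exp (1 / 2) ≤ 9 / 20 * ρ := by
    rw [abs_of_nonneg (by norm_num)]
    have h1 : Real.exp (1 / 2 : ℝ) ≤ 17 / 10 := by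
      have h2 := Real.exp_bound' (x := 1 / 2) (by norm_num) (by norm_num) (n := 4) (by norm_num)
      refine h2.trans ?_
      norm_num [Finset.sum_range_succ, Nat.factorial]
    linarith
  refine (tg9_ph_le h.dom (by linarith [h.y0]) (by norm_num) hte).trans (le_of_eq ?_)
  rw [hb]
  field_simp
  ring

theorem tg9_sqrt {A : ℝ} (h : 0 ≤ A) : √(√A) ^ 4 = A := by
  have h1 := Real.sq_sqrt h
  have h2 := Real.sq_sqrt (Real.sqrt_nonneg A)
  calc √(√A) ^ 4 = (√(√A) ^ 2) ^ 2 := by ring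
    _ = A := by rw [h2, h1]

theorem tg9_root {A B E P : ℝ} (hA : 0 ≤ A) (hB : 0 < B) (hP : 0 ≤ P)
    (h : E ^ 4 * A ≤ P ^ 4 * B) : E * (√(√A) / √(√B)) ≤ P := by
  have h1 : 0 < √(√B) := Real.sqrt_pos.2 (Real.sqrt_pos.2 hB)
  rw [← mul_div_assoc, div_le_iff₀ h1]
  refine le_of_not_gt fun h2 => ?_
  have h3 := pow_lt_pow_left₀ h2 (by positivity) (n := 4) (by norm_num)
  rw [mul_pow, mul_pow, tg9_sqrt hA, tg9_sqrt hB.le] at h3
  linarith

theorem tg9_final {ρ y b P g K : ℝ}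
    (hP : max 1 (Real.exp (y - b)) * (√(√(sD2 ρ y)) / √(√(sD2 ρ b))) ≤ P)
    (hg : g ≤ ph ρ y - ph ρ b) (hK : P ≤ K * Real.exp (499 / 10 * g)) (hP0 : 0 ≤ P) :
    GapC ρ y b ≤ K := by
  unfold GapC
  have h1 : Real.exp (-(499 / 10) * (ph ρ y - ph ρ b)) ≤ Real.exp (-(499 / 10 * g)) :=
    Real.exp_le_exp.2 (by linarith)
  have h2 : Real.exp (499 / 10 * g) * Real.exp (-(499 / 10 * g)) = 1 := by
    rw [← Real.exp_add]; simp
  calc max 1 (Real.exp (y - b)) * (√(√(sD2 ρ y)) / √(√(sD2 ρ b))) *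
      Real.exp (-(499 / 10) * (ph ρ y - ph ρ b))
      ≤ P * Real.exp (-(499 / 10 * g)) := mul_le_mul hP h1 (Real.exp_pos _).le hP0
    _ ≤ K * Real.exp (499 / 10 * g) * Real.exp (-(499 / 10 * g)) :=
        mul_le_mul_of_nonneg_right hK (Real.exp_pos _).le
    _ = K := by rw [mul_assoc, h2, mul_one]

theorem tg9_D2 {ρ y : ℝ} (h : Dom ρ y) : sD2 ρ y = 1 + 2 * y + (ρ * Real.exp (-y)) ^ 2 := by
  unfold sD2
  linear_combination sx_sq_add h

theorem tg9_Y {ρ y : ℝ} (h : Dom ρ y) (hy : 0 ≤ y) (he : |sE ρ y| ≤ Real.pi / 3) :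
    Real.exp y * (1 - Real.pi / (3 * ρ)) ≤ 1 := by
  have hρ := h.1
  have h1 := sx_le h
  have h2 : sE ρ y = sP ρ y + ρ - sx ρ y := rfl
  have h3 := sP_nonneg hρ hy
  have h4 := (abs_le.1 he).2
  have h5 : ρ - Real.pi / 3 ≤ ρ * Real.exp (-y) := by linarith
  have h6 : Real.exp y * Real.exp (-y) = 1 := by rw [← Real.exp_add]; simp
  have h7 := mul_le_mul_of_nonneg_left h5 (Real.exp_pos y).le
  have h8 : Real.exp y * (1 - Real.pi / (3 * ρ)) * ρ = Real.exp y * (ρ - Real.pi / 3) := by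
    field_simp
  have h9 : Real.exp y * (1 - Real.pi / (3 * ρ)) * ρ ≤ 1 * ρ := by
    rw [h8, one_mul]
    refine h7.trans (le_of_eq ?_)
    linear_combination ρ * h6
  exact le_of_mul_le_mul_right h9 hρ

theorem tg9_B {ρ b : ℝ} (h : DD ρ b) (hb : b ≤ 0) (hs : sE ρ b = -(2 * Real.pi / 3)) :
    Real.exp (-b) ^ 2 ≤ (1 + 2 * (Real.pi / (3 * ρ))) ^ 2 + 9 / 16 * (1 / ρ) ^ 2 := by
  have hρ := h.dom.1
  have hpi := Real.pi_pos
  have h2 : sE ρ b = sP ρ b + ρ - sx ρ b := rfl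
  have h3 := sP_nonpos hρ hb
  have h4 : sx ρ b ≤ ρ + 2 * Real.pi / 3 := by linarith
  have h5 := sx_sq_add h.dom
  have h6 := pow_le_pow_left₀ (sx_nonneg ρ b) h4 2
  have h7 : b ^ 2 ≤ 9 / 16 := by nlinarith [h.y0]
  have h8 : Real.exp (-b) ^ 2 * ρ ^ 2 ≤
      ((1 + 2 * (Real.pi / (3 * ρ))) ^ 2 + 9 / 16 * (1 / ρ) ^ 2) * ρ ^ 2 := by
    have e1 : ((1 + 2 * (Real.pi / (3 * ρ))) ^ 2 + 9 / 16 * (1 / ρ) ^ 2) * ρ ^ 2 =
        (ρ + 2 * Real.pi / 3) ^ 2 + 9 / 16 := by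
      field_simp
    rw [e1]
    rw [mul_pow] at h5
    linarith
  exact le_of_mul_le_mul_right h8 (by positivity)

theorem tg9_preA {ρ y b Y0 q0 P : ℝ} (h : DD ρ y) (hb : DD ρ b) (hy0 : 0 ≤ y) (hb0 : b ≤ 0)
    (hY : Real.exp y ≤ Y0) (hq : Real.exp (-b) ^ 2 ≤ q0) (hP : 0 ≤ P)
    (hfin : q0 * (Y0 ^ 4 * (2 * Y0 - 1) + Y0 ^ 2 * ρ ^ 2) + P ^ 4 / 2 ≤ P ^ 4 * ρ ^ 2) :
    max 1 (Real.exp (y - b)) * (√(√(sD2 ρ y)) / √(√(sD2 ρ b))) ≤ P := by
  rw [max_eq_right (Real.one_le_exp (by linarith))]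
  have hDy : 0 < sD2 ρ y := sD2_pos (by linarith)
  have hDb : 0 < sD2 ρ b := sD2_pos (by linarith [hb.y0])
  refine tg9_root hDy.le hDb hP ?_
  rw [tg9_D2 h.dom, tg9_D2 hb.dom]
  have e1 : Real.exp (y - b) = Real.exp y * Real.exp (-b) := by
    rw [← Real.exp_add]; congr 1
  have e2 : Real.exp y * Real.exp (-y) = 1 := by rw [← Real.exp_add]; simp
  have hY1 : 1 ≤ Real.exp y := Real.one_le_exp hy0
  have hq1 : 1 ≤ Real.exp (-b) ^ 2 := one_le_pow₀ (Real.one_le_exp (by linarith))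
  have hyY : y + 1 ≤ Real.exp y := Real.add_one_le_exp y
  have e3 : Real.exp (y - b) ^ 4 * (1 + 2 * y + (ρ * Real.exp (-y)) ^ 2) =
      (Real.exp (-b) ^ 2) ^ 2 * (Real.exp y ^ 4 * (1 + 2 * y) + Real.exp y ^ 2 * ρ ^ 2) := by
    rw [e1]
    have e4 : Real.exp y ^ 2 * Real.exp (-y) ^ 2 = 1 := by rw [← mul_pow, e2, one_pow]
    linear_combination (Real.exp (-b) ^ 4 * Real.exp y ^ 2 * ρ ^ 2) * e4
  rw [e3, mul_pow ρ]
  set q := Real.exp (-b) ^ 2 with hqdef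
  set Y := Real.exp y with hYdef
  have hY0 : 1 ≤ Y0 := hY1.trans hY
  have i1 : Y ^ 4 ≤ Y0 ^ 4 := pow_le_pow_left₀ (by linarith) hY 4
  have i2 : Y ^ 2 ≤ Y0 ^ 2 := pow_le_pow_left₀ (by linarith) hY 2
  have i3 : Y ^ 4 * (1 + 2 * y) ≤ Y0 ^ 4 * (2 * Y0 - 1) :=
    mul_le_mul i1 (by linarith) (by linarith) (by positivity)
  have i4 : Y ^ 2 * ρ ^ 2 ≤ Y0 ^ 2 * ρ ^ 2 := mul_le_mul_of_nonneg_right i2 (sq_nonneg _)
  have hnn : 0 ≤ Y0 ^ 4 * (2 * Y0 - 1) + Y0 ^ 2 * ρ ^ 2 := by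
    have : 0 ≤ 2 * Y0 - 1 := by linarith
    positivity
  have hq0 : 0 ≤ q := by linarith
  calc q ^ 2 * (Y ^ 4 * (1 + 2 * y) + Y ^ 2 * ρ ^ 2)
      ≤ q ^ 2 * (Y0 ^ 4 * (2 * Y0 - 1) + Y0 ^ 2 * ρ ^ 2) :=
        mul_le_mul_of_nonneg_left (by linarith) (sq_nonneg _)
    _ = q * (q * (Y0 ^ 4 * (2 * Y0 - 1) + Y0 ^ 2 * ρ ^ 2)) := by ring
    _ ≤ q * (q0 * (Y0 ^ 4 * (2 * Y0 - 1) + Y0 ^ 2 * ρ ^ 2)) :=
        mul_le_mul_of_nonneg_left (mul_le_mul_of_nonneg_right hq hnn) hq0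
    _ ≤ q * (P ^ 4 * ρ ^ 2 - P ^ 4 / 2) := mul_le_mul_of_nonneg_left (by linarith) hq0
    _ ≤ P ^ 4 * (1 + 2 * b + ρ ^ 2 * q) := by
        have hP4 : 0 ≤ P ^ 4 := by positivity
        have : P ^ 4 * (1 + 2 * b + q / 2) ≥ 0 :=
          mul_nonneg hP4 (by linarith [hb.y0])
        nlinarith

theorem tg9_preB {ρ y b P : ℝ} (hρ : 5 / 2 ≤ ρ) (h : DD ρ y) (hb : DD ρ b) (hy0 : y ≤ 0)
    (hb0 : 0 ≤ b) (he : |sE ρ y| ≤ Real.pi / 3) (hs : sE ρ b = 2 * Real.pi / 3) (hP : 0 ≤ P)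
    (hfin : 1 + (ρ + Real.pi / 3) ^ 2 ≤ P ^ 4 * (1 + (ρ - 2 * Real.pi / 3) ^ 2)) :
    max 1 (Real.exp (y - b)) * (√(√(sD2 ρ y)) / √(√(sD2 ρ b))) ≤ P := by
  rw [max_eq_left (Real.exp_le_one_iff.2 (by linarith))]
  have hpi := Real.pi_lt_d2
  have hpi0 := Real.pi_pos
  have hρ0 : 0 < ρ := by linarith
  have hDy : 0 < sD2 ρ y := sD2_pos (by linarith [h.y0])
  have hDb : 0 < sD2 ρ b := sD2_pos (by linarith [hb.y0])
  refine tg9_root hDy.le hDb hP ?_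
  have e1 : sE ρ y = sP ρ y + ρ - sx ρ y := rfl
  have e2 : sE ρ b = sP ρ b + ρ - sx ρ b := rfl
  have h1 := sP_nonpos hρ0 hy0
  have h2 := sP_nonneg hρ0 hb0
  have h3 := (abs_le.1 he).1
  have h4 : sx ρ y ≤ ρ + Real.pi / 3 := by linarith
  have h5 : ρ - 2 * Real.pi / 3 ≤ sx ρ b := by linarith
  have h6 : sD2 ρ y ≤ 1 + (ρ + Real.pi / 3) ^ 2 := by
    unfold sD2
    have a1 := pow_le_pow_left₀ (sx_nonneg ρ y) h4 2
    have a2 : (1 + y) ^ 2 ≤ 1 := by nlinarith [h.y0]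
    linarith
  have h7 : 1 + (ρ - 2 * Real.pi / 3) ^ 2 ≤ sD2 ρ b := by
    unfold sD2
    have a1 := pow_le_pow_left₀ (by linarith) h5 2
    have a2 : 1 ≤ (1 + b) ^ 2 := by nlinarith
    linarith
  have hP4 : 0 ≤ P ^ 4 := by positivity
  rw [one_pow, one_mul]
  calc sD2 ρ y ≤ _ := h6
    _ ≤ _ := hfin
    _ ≤ _ := mul_le_mul_of_nonneg_left h7 hP4

theorem tg9_inv {ρ : ℝ} (hρ : 0 < ρ) : (1 / ρ) ^ 2 ≤ 114 / 125 * (Real.pi / (3 * ρ)) ^ 2 := by
  have hpi := Real.pi_gt_d4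
  have e : 114 / 125 * (Real.pi / (3 * ρ)) ^ 2 = 114 / 1125 * Real.pi ^ 2 * (1 / ρ) ^ 2 := by
    field_simp
    norm_num
  rw [e]
  have h1 : 1 ≤ 114 / 1125 * Real.pi ^ 2 := by nlinarith
  have h2 : 0 ≤ (1 / ρ) ^ 2 := sq_nonneg _
  nlinarith

/-- powers lie below chords -/
theorem tg9_chord {w s p : ℝ} (hw : 0 ≤ w) (h2 : w ^ 2 ≤ s * w - p) (hs : 0 ≤ s) (_hp : 0 ≤ p)
    (hsp : p ≤ s ^ 2) (hsp2 : 2 * p ≤ s ^ 2) :
    w ^ 3 ≤ (s ^ 2 - p) * w - s * p ∧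
    w ^ 4 ≤ (s * (s ^ 2 - p) - s * p) * w - (s ^ 2 - p) * p ∧
    w ^ 5 ≤ (s * (s * (s ^ 2 - p) - s * p) - (s ^ 2 - p) * p) * w - (s * (s ^ 2 - p) - s * p) * p := by
  have h3 : w ^ 3 ≤ (s ^ 2 - p) * w - s * p := by
    have a1 := mul_le_mul_of_nonneg_left h2 hw
    have a2 := mul_le_mul_of_nonneg_left h2 hs
    nlinarith
  have h4 : w ^ 4 ≤ (s * (s ^ 2 - p) - s * p) * w - (s ^ 2 - p) * p := by
    have a1 := mul_le_mul_of_nonneg_left h3 hw
    have a2 := mul_le_mul_of_nonneg_left h2 (sub_nonneg.2 hsp)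
    nlinarith
  refine ⟨h3, h4, ?_⟩
  have a1 := mul_le_mul_of_nonneg_left h4 hw
  have a0 : 0 ≤ s * (s ^ 2 - p) - s * p := by
    have : s * (s ^ 2 - p) - s * p = s * (s ^ 2 - 2 * p) := by ring
    rw [this]
    exact mul_nonneg hs (by linarith)
  have a2 := mul_le_mul_of_nonneg_left h2 a0
  nlinarith

theorem tg9_e (x : ℝ) : Real.exp x * Real.exp (-x) = 1 := by rw [← Real.exp_add]; simp

/-- numeric form of the bound at `-2π/3` -/
theorem tg9_numA {w u2 E t e1 e2 w1 w2 g : ℝ} (hw1 : w1 ≤ w) (hw2 : w ≤ w2) (h0 : 0 < w1)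
    (hu : u2 ≤ 114 / 125 * w ^ 2) (hu0 : 0 ≤ u2) (_ht0 : 0 ≤ t)
    (he1 : Real.exp t ≤ e1) (he2 : Real.exp (-t) ≤ e2) (he20 : 0 ≤ e2)
    (hE : E ≤ Real.exp t - t - 2 * t * w + 23 / 40 * t ^ 2 * Real.exp (-t) * u2)
    (hlin : ∀ a2 a3 a4 a5 : ℝ,
      a2 ≤ (w1 + w2) * w - w1 * w2 →
      a3 ≤ ((w1 + w2) ^ 2 - w1 * w2) * w - (w1 + w2) * (w1 * w2) →
      a4 ≤ ((w1 + w2) * ((w1 + w2) ^ 2 - w1 * w2) - (w1 + w2) * (w1 * w2)) * w -
        ((w1 + w2) ^ 2 - w1 * w2) * (w1 * w2) →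
      a5 ≤ ((w1 + w2) * ((w1 + w2) * ((w1 + w2) ^ 2 - w1 * w2) - (w1 + w2) * (w1 * w2)) -
        ((w1 + w2) ^ 2 - w1 * w2) * (w1 * w2)) * w -
        ((w1 + w2) * ((w1 + w2) ^ 2 - w1 * w2) - (w1 + w2) * (w1 * w2)) * (w1 * w2) →
      g ≤ 1 - a2 / 2 - a3 / 6 - a4 / 12 - a5 / 4 -
        (e1 - t - 2 * t * w + 23 / 40 * t ^ 2 * e2 * (114 / 125 * a2))) :
    g ≤ 1 - w ^ 2 / 2 - w ^ 3 / 6 - w ^ 4 / 12 - w ^ 5 / 4 - E := by
  have hw : 0 ≤ w := by linarith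
  have c2 : w ^ 2 ≤ (w1 + w2) * w - w1 * w2 := by
    nlinarith [mul_nonneg (sub_nonneg.2 hw1) (sub_nonneg.2 hw2)]
  have hp : 0 ≤ w1 * w2 := mul_nonneg h0.le (by linarith)
  obtain ⟨c3, c4, c5⟩ := tg9_chord hw c2 (by linarith) hp (by nlinarith) (by nlinarith)
  have h := hlin _ _ _ _ c2 c3 c4 c5
  have i1 : Real.exp (-t) * u2 ≤ e2 * (114 / 125 * w ^ 2) := mul_le_mul he2 hu hu0 he20
  have i2 : 23 / 40 * t ^ 2 * (Real.exp (-t) * u2) ≤ 23 / 40 * t ^ 2 * (e2 * (114 / 125 * w ^ 2)) :=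
    mul_le_mul_of_nonneg_left i1 (by positivity)
  nlinarith

/-- [FT-GAP2] `N = 2`, `5/2 ≤ ρ ≤ 7/2`, base at `2π/3` (true supremum .0097). -/
theorem gap2a {ρ b y : ℝ} (h1 : 5 / 2 ≤ ρ) (h2 : ρ ≤ 7 / 2) (hb : DD ρ b) (hy : DD ρ y)
    (hb' : |sE ρ b| = 2 * Real.pi / 3) (hy' : |sE ρ y| ≤ Real.pi / 3) (hs : (b ≤ 0 ∧ 0 ≤ y) ∨ (0 ≤ b ∧ y ≤ 0)) :
    GapC ρ y b ≤ 1 / 40 := by
  have hρ0 : 0 < ρ := by linarith
  have hpi1 := Real.pi_gt_d4
  have hpi2 := Real.pi_lt_d4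
  have hw1 : 2991 / 10000 ≤ Real.pi / (3 * ρ) := by
    rw [le_div_iff₀ (by linarith)]
    linarith
  have hw2 : Real.pi / (3 * ρ) ≤ 4189 / 10000 := by
    rw [div_le_iff₀ (by linarith)]
    linarith
  have hu := tg9_inv hρ0
  have hu0 : 0 ≤ (1 / ρ) ^ 2 := sq_nonneg _
  have hge := tg9_ph_ge h1 hy hy'
  have hK : (9 / 4 : ℝ) ≤ 1 / 40 * Real.exp (499 / 10 * (91 / 1000)) := by
    have e1 : Real.exp (499 / 10 * (91 / 1000) : ℝ) = Real.exp 1 ^ 4 * Real.exp (5409 / 10000) := by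
      rw [← Real.exp_nat_mul, ← Real.exp_add]
      norm_num
    have e2 := Real.exp_one_gt_d9
    have e3 := Real.quadratic_le_exp_of_nonneg (x := 5409 / 10000) (by norm_num)
    have e4 : (2.7182 : ℝ) ^ 4 ≤ Real.exp 1 ^ 4 := pow_le_pow_left₀ (by norm_num) (by linarith) 4
    have e5 : (2.7182 : ℝ) ^ 4 * (1 + 5409 / 10000 + (5409 / 10000) ^ 2 / 2) ≤
        Real.exp 1 ^ 4 * Real.exp (5409 / 10000) := mul_le_mul e4 e3 (by norm_num) (by positivity)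
    rw [e1]
    norm_num at e5 ⊢
    linarith
  rcases hs with ⟨hb0, hy0⟩ | ⟨hb0, hy0⟩
  · have hse : sE ρ b = -(2 * Real.pi / 3) := by
      have := tg9_neg hb.dom (by linarith [hb.y0]) hb0
      rw [abs_of_nonpos this] at hb'
      linarith
    have hph := tg9_ph_neg h1 hb hse (t := 9 / 20) (by norm_num) (by norm_num)
    have he1 : Real.exp (9 / 20 : ℝ) ≤ 15684 / 10000 := by
      refine (Real.exp_bound' (x := 9 / 20) (by norm_num) (by norm_num) (n := 6) (by norm_num)).trans ?_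
      norm_num [Finset.sum_range_succ, Nat.factorial]
    have he2 : Real.exp (-(9 / 20) : ℝ) ≤ 13 / 20 := by
      have a1 := Real.quadratic_le_exp_of_nonneg (x := 9 / 20) (by norm_num)
      have a2 := tg9_e (9 / 20)
      have a3 := Real.exp_pos (-(9 / 20) : ℝ)
      nlinarith
    have hg : (91 / 1000 : ℝ) ≤ 1 - (Real.pi / (3 * ρ)) ^ 2 / 2 - (Real.pi / (3 * ρ)) ^ 3 / 6 -
        (Real.pi / (3 * ρ)) ^ 4 / 12 - (Real.pi / (3 * ρ)) ^ 5 / 4 - ph ρ b := by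
      refine tg9_numA hw1 hw2 (by norm_num) hu hu0 (by norm_num) he1 he2 (by norm_num) hph ?_
      intro a2 a3 a4 a5 i2 i3 i4 i5
      norm_num at i2 i3 i4 i5 ⊢
      linarith
    refine tg9_final (P := 9 / 4) (g := 91 / 1000) ?_ (by linarith) hK (by norm_num)
    refine tg9_preA (Y0 := 173 / 100) (q0 := 7 / 2) hy hb hy0 hb0 ?_ ?_ (by norm_num) ?_
    · have a1 := tg9_Y hy.dom hy0 hy'
      have a2 := Real.exp_pos y
      nlinarith
    · refine (tg9_B hb hb0 hse).trans ?_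
      nlinarith
    · nlinarith
  · have hse : sE ρ b = 2 * Real.pi / 3 := by
      have := tg9_pos hb.dom hb0
      rwa [abs_of_nonneg this] at hb'
    have hph := tg9_ph_pos h1 hb hse
    have he1 : Real.exp (1 / 2 : ℝ) ≤ 17 / 10 := by
      refine (Real.exp_bound' (x := 1 / 2) (by norm_num) (by norm_num) (n := 4) (by norm_num)).trans ?_
      norm_num [Finset.sum_range_succ, Nat.factorial]
    have he2 : Real.exp (-(1 / 2) : ℝ) ≤ 8 / 13 := by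
      have a1 := Real.quadratic_le_exp_of_nonneg (x := 1 / 2) (by norm_num)
      have a2 := tg9_e (1 / 2)
      have a3 := Real.exp_pos (-(1 / 2) : ℝ)
      nlinarith
    have hg : (91 / 1000 : ℝ) ≤ 1 - (Real.pi / (3 * ρ)) ^ 2 / 2 - (Real.pi / (3 * ρ)) ^ 3 / 6 -
        (Real.pi / (3 * ρ)) ^ 4 / 12 - (Real.pi / (3 * ρ)) ^ 5 / 4 - ph ρ b := by
      set w := Real.pi / (3 * ρ) with hw
      have c2 : w ^ 2 ≤ (2991 / 10000 + 4189 / 10000) * w - 2991 / 10000 * (4189 / 10000) := by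
        nlinarith [mul_nonneg (sub_nonneg.2 hw1) (sub_nonneg.2 hw2)]
      obtain ⟨c3, c4, c5⟩ := tg9_chord (by linarith) c2 (by norm_num) (by norm_num) (by norm_num)
        (by norm_num)
      have i1 : Real.exp (1 / 2) * (1 / ρ) ^ 2 ≤ 17 / 10 * (114 / 125 * w ^ 2) :=
        mul_le_mul he1 hu hu0 (by norm_num)
      norm_num at c2 c3 c4 c5 i1 hph he2 ⊢
      nlinarith
    refine tg9_final (P := 9 / 4) (g := 91 / 1000) ?_ (by linarith) hK (by norm_num)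
    refine tg9_preB h1 hy hb hy0 hb0 hy' hse (by norm_num) ?_
    nlinarith

/-- [FT-GAP2] `N = 2`, `7/2 ≤ ρ ≤ 9/2`, base at `2π/3` (true supremum .0554). -/
theorem gap2b {ρ b y : ℝ} (h1 : 7 / 2 ≤ ρ) (h2 : ρ ≤ 9 / 2) (hb : DD ρ b) (hy : DD ρ y)
    (hb' : |sE ρ b| = 2 * Real.pi / 3) (hy' : |sE ρ y| ≤ Real.pi / 3) (hs : (b ≤ 0 ∧ 0 ≤ y) ∨ (0 ≤ b ∧ y ≤ 0)) :
    GapC ρ y b ≤ 1 / 12 := by
  have hρ0 : 0 < ρ := by linarith
  have h1' : 5 / 2 ≤ ρ := by linarith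
  have hpi1 := Real.pi_gt_d4
  have hpi2 := Real.pi_lt_d4
  have hw1 : 2327 / 10000 ≤ Real.pi / (3 * ρ) := by
    rw [le_div_iff₀ (by linarith)]
    linarith
  have hw2 : Real.pi / (3 * ρ) ≤ 2993 / 10000 := by
    rw [div_le_iff₀ (by linarith)]
    linarith
  have hu := tg9_inv hρ0
  have hu0 : 0 ≤ (1 / ρ) ^ 2 := sq_nonneg _
  have hge := tg9_ph_ge h1' hy hy'
  have hK : (17 / 10 : ℝ) ≤ 1 / 12 * Real.exp (499 / 10 * (121 / 2000)) := by
    have e1 : Real.exp (499 / 10 * (121 / 2000) : ℝ) = Real.exp 1 ^ 3 * Real.exp (379 / 20000) := by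
      rw [← Real.exp_nat_mul, ← Real.exp_add]
      norm_num
    have e2 := Real.exp_one_gt_d9
    have e3 := Real.add_one_le_exp (379 / 20000 : ℝ)
    have e4 : (2.7182 : ℝ) ^ 3 ≤ Real.exp 1 ^ 3 := pow_le_pow_left₀ (by norm_num) (by linarith) 3
    have e5 : (2.7182 : ℝ) ^ 3 * (379 / 20000 + 1) ≤
        Real.exp 1 ^ 3 * Real.exp (379 / 20000) := mul_le_mul e4 e3 (by norm_num) (by positivity)
    rw [e1]
    norm_num at e5 ⊢
    linarith
  rcases hs with ⟨hb0, hy0⟩ | ⟨hb0, hy0⟩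
  · have hse : sE ρ b = -(2 * Real.pi / 3) := by
      have := tg9_neg hb.dom (by linarith [hb.y0]) hb0
      rw [abs_of_nonpos this] at hb'
      linarith
    have hph := tg9_ph_neg h1' hb hse (t := 3 / 8) (by norm_num) (by norm_num)
    have he1 : Real.exp (3 / 8 : ℝ) ≤ 14551 / 10000 := by
      refine (Real.exp_bound' (x := 3 / 8) (by norm_num) (by norm_num) (n := 6) (by norm_num)).trans ?_
      norm_num [Finset.sum_range_succ, Nat.factorial]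
    have he2 : Real.exp (-(3 / 8) : ℝ) ≤ 7 / 10 := by
      have a1 := Real.quadratic_le_exp_of_nonneg (x := 3 / 8) (by norm_num)
      have a2 := tg9_e (3 / 8)
      have a3 := Real.exp_pos (-(3 / 8) : ℝ)
      nlinarith
    have hg : (121 / 2000 : ℝ) ≤ 1 - (Real.pi / (3 * ρ)) ^ 2 / 2 - (Real.pi / (3 * ρ)) ^ 3 / 6 -
        (Real.pi / (3 * ρ)) ^ 4 / 12 - (Real.pi / (3 * ρ)) ^ 5 / 4 - ph ρ b := by
      refine tg9_numA hw1 hw2 (by norm_num) hu hu0 (by norm_num) he1 he2 (by norm_num) hph ?_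
      intro a2 a3 a4 a5 i2 i3 i4 i5
      norm_num at i2 i3 i4 i5 ⊢
      linarith
    refine tg9_final (P := 17 / 10) (g := 121 / 2000) ?_ (by linarith) hK (by norm_num)
    refine tg9_preA (Y0 := 143 / 100) (q0 := 263 / 100) hy hb hy0 hb0 ?_ ?_ (by norm_num) ?_
    · have a1 := tg9_Y hy.dom hy0 hy'
      have a2 := Real.exp_pos y
      nlinarith
    · refine (tg9_B hb hb0 hse).trans ?_
      nlinarith
    · nlinarith
  · have hse : sE ρ b = 2 * Real.pi / 3 := by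
      have := tg9_pos hb.dom hb0
      rwa [abs_of_nonneg this] at hb'
    have hph := tg9_ph_pos h1' hb hse
    have he1 : Real.exp (1 / 2 : ℝ) ≤ 17 / 10 := by
      refine (Real.exp_bound' (x := 1 / 2) (by norm_num) (by norm_num) (n := 4) (by norm_num)).trans ?_
      norm_num [Finset.sum_range_succ, Nat.factorial]
    have he2 : Real.exp (-(1 / 2) : ℝ) ≤ 8 / 13 := by
      have a1 := Real.quadratic_le_exp_of_nonneg (x := 1 / 2) (by norm_num)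
      have a2 := tg9_e (1 / 2)
      have a3 := Real.exp_pos (-(1 / 2) : ℝ)
      nlinarith
    have hg : (121 / 2000 : ℝ) ≤ 1 - (Real.pi / (3 * ρ)) ^ 2 / 2 - (Real.pi / (3 * ρ)) ^ 3 / 6 -
        (Real.pi / (3 * ρ)) ^ 4 / 12 - (Real.pi / (3 * ρ)) ^ 5 / 4 - ph ρ b := by
      set w := Real.pi / (3 * ρ) with hw
      have c2 : w ^ 2 ≤ (2327 / 10000 + 2993 / 10000) * w - 2327 / 10000 * (2993 / 10000) := by
        nlinarith [mul_nonneg (sub_nonneg.2 hw1) (sub_nonneg.2 hw2)]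
      obtain ⟨c3, c4, c5⟩ := tg9_chord (by linarith) c2 (by norm_num) (by norm_num) (by norm_num)
        (by norm_num)
      have i1 : Real.exp (1 / 2) * (1 / ρ) ^ 2 ≤ 17 / 10 * (114 / 125 * w ^ 2) :=
        mul_le_mul he1 hu hu0 (by norm_num)
      norm_num at c2 c3 c4 c5 i1 hph he2 ⊢
      nlinarith
    refine tg9_final (P := 17 / 10) (g := 121 / 2000) ?_ (by linarith) hK (by norm_num)
    refine tg9_preB h1' hy hb hy0 hb0 hy' hse (by norm_num) ?_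
    nlinarith

end SokalF1T
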