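import Mathlib

/-!
# Polynomial bound for `e^(a u) (c cos u + s sin u)`, `a = ±1/2`
-/

set_option autoImplicit false

namespace SokalF1T

open Complex

theorem enc8 {a u c s : ℝ} (ha : a ^ 2 = 1 / 4) (hu0 : 0 ≤ u) (hu2 : u ≤ 2) (hcs : c ^ 2 + s ^ 2 ≤ 102 / 100) :
    Real.exp (a * u) * (c * Real.cos u + s * Real.sin u) ≤
      c * (1 + a * u - 3 / 8 * u ^ 2 - 11 * a / 24 * u ^ 3 - 7 / 384 * u ^ 4 + 41 * a / 1920 * u ^ 5 +
        13 / 5120 * u ^ 6 + 29 * a / 322560 * u ^ 7) +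
      s * (u + a * u ^ 2 - 1 / 24 * u ^ 3 - a / 8 * u ^ 4 - 19 / 1920 * u ^ 5 + 11 * a / 5760 * u ^ 6 +
        139 / 322560 * u ^ 7) + 125 / 1000000 * u ^ 8 := by
  set z : ℂ := ((a * u : ℝ) : ℂ) + (u : ℂ) * I with hz
  have hzn : ‖z‖ ^ 2 = 5 / 4 * u ^ 2 := by
    rw [Complex.sq_norm, Complex.normSq_apply, hz]
    simp only [Complex.add_re, Complex.ofReal_re, Complex.mul_re, Complex.I_re, mul_zero, Complex.ofReal_im,
      Complex.I_im, mul_one, sub_self, add_zero, Complex.add_im, Complex.mul_im, zero_add]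
    nlinarith
  have hz3 : ‖z‖ ≤ 3 := by
    have h0 := norm_nonneg z
    nlinarith
  have hb := Complex.exp_bound' (x := z) (n := 8) (by
    norm_num
    linarith)
  set S : ℂ := ∑ m ∈ Finset.range 8, z ^ m / (m.factorial : ℂ) with hS
  have hb2 : ‖cexp z - S‖ ≤ 122 / 1000000 * u ^ 8 := by
    refine hb.trans ?_
    have e : ‖z‖ ^ 8 = (5 / 4 * u ^ 2) ^ 4 := by rw [← hzn]; ring
    rw [e]
    have : ((8 : ℕ).factorial : ℝ) = 40320 := by norm_num [Nat.factorial]
    rw [this]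
    have h8 : 0 ≤ u ^ 8 := by positivity
    nlinarith
  -- the real part
  set w : ℂ := (c : ℂ) - (s : ℂ) * I with hw
  have hwn : ‖w‖ ≤ 101 / 100 := by
    have : ‖w‖ ^ 2 ≤ 102 / 100 := by
      rw [Complex.sq_norm, Complex.normSq_apply, hw]
      simp only [Complex.sub_re, Complex.ofReal_re, Complex.mul_re, Complex.I_re, mul_zero, Complex.ofReal_im,
        Complex.I_im, mul_one, sub_self, sub_zero, Complex.sub_im, Complex.mul_im, zero_sub, add_zero]
      nlinarith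
    nlinarith [norm_nonneg w]
  have h1 : (w * (cexp z - S)).re ≤ 125 / 1000000 * u ^ 8 := by
    refine (Complex.re_le_norm _).trans ?_
    rw [norm_mul]
    have h8 : 0 ≤ u ^ 8 := by positivity
    calc ‖w‖ * ‖cexp z - S‖ ≤ 101 / 100 * ‖cexp z - S‖ := by gcongr
      _ ≤ 101 / 100 * (122 / 1000000 * u ^ 8) := by gcongr
      _ ≤ _ := by nlinarith
  have h2 : (w * cexp z).re = Real.exp (a * u) * (c * Real.cos u + s * Real.sin u) := by
    rw [hz, Complex.exp_add, Complex.exp_mul_I, ← Complex.ofReal_exp, ← Complex.ofReal_cos,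
      ← Complex.ofReal_sin, hw]
    simp only [Complex.sub_re, Complex.sub_im, Complex.mul_re, Complex.mul_im, Complex.add_re,
      Complex.add_im, Complex.ofReal_re, Complex.ofReal_im, Complex.I_re, Complex.I_im]
    ring
  have hI : (I : ℂ) ^ 2 = -1 := Complex.I_sq
  have haC : (a : ℂ) ^ 2 = 1 / 4 := by
    rw [← Complex.ofReal_pow, ha]; norm_num
  have h3 : S = ((1 + a * u - 3 / 8 * u ^ 2 - 11 * a / 24 * u ^ 3 - 7 / 384 * u ^ 4 + 41 * a / 1920 * u ^ 5 +
        13 / 5120 * u ^ 6 + 29 * a / 322560 * u ^ 7 : ℝ) : ℂ) +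
      ((u + a * u ^ 2 - 1 / 24 * u ^ 3 - a / 8 * u ^ 4 - 19 / 1920 * u ^ 5 + 11 * a / 5760 * u ^ 6 +
        139 / 322560 * u ^ 7 : ℝ) : ℂ) * I := by
    have e1 : z = (u : ℂ) * (a + I) := by rw [hz]; push_cast; ring
    have p2 : ((a : ℂ) + I) ^ 2 = -3 / 4 + 2 * a * I := by linear_combination haC + hI
    have p3 : ((a : ℂ) + I) ^ 3 = -11 * a / 4 - I / 4 := by
      rw [pow_succ, p2]
      linear_combination (2 * I) * haC + 2 * (a : ℂ) * hI
    have p4 : ((a : ℂ) + I) ^ 4 = -7 / 16 - 3 * a * I := by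
      rw [pow_succ, p3]
      linear_combination (-11 / 4 : ℂ) * haC - (1 / 4 : ℂ) * hI
    have p5 : ((a : ℂ) + I) ^ 5 = 41 * a / 16 - 19 / 16 * I := by
      rw [pow_succ, p4]
      linear_combination (-3 * I) * haC - 3 * (a : ℂ) * hI
    have p6 : ((a : ℂ) + I) ^ 6 = 117 / 64 + 11 * a / 8 * I := by
      rw [pow_succ, p5]
      linear_combination (41 / 16 : ℂ) * haC - (19 / 16 : ℂ) * hI
    have p7 : ((a : ℂ) + I) ^ 7 = 29 * a / 64 + 139 / 64 * I := by
      rw [pow_succ, p6]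
      linear_combination (11 / 8 * I : ℂ) * haC + 11 / 8 * (a : ℂ) * hI
    rw [hS, e1]
    simp only [Finset.sum_range_succ, Finset.range_zero, Finset.sum_empty, mul_pow, p2, p3, p4, p5, p6, p7,
      pow_zero, pow_one, Nat.factorial]
    push_cast
    ring
  have h4 : (w * S).re = c * (1 + a * u - 3 / 8 * u ^ 2 - 11 * a / 24 * u ^ 3 - 7 / 384 * u ^ 4 +
        41 * a / 1920 * u ^ 5 + 13 / 5120 * u ^ 6 + 29 * a / 322560 * u ^ 7) +
      s * (u + a * u ^ 2 - 1 / 24 * u ^ 3 - a / 8 * u ^ 4 - 19 / 1920 * u ^ 5 + 11 * a / 5760 * u ^ 6 +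
        139 / 322560 * u ^ 7) := by
    rw [h3, hw]
    rw [mul_add, Complex.add_re]
    simp only [Complex.sub_re, Complex.sub_im, Complex.mul_re, Complex.mul_im, Complex.ofReal_re,
      Complex.ofReal_im, Complex.I_re, Complex.I_im]
    ring
  rw [mul_sub, Complex.sub_re, h2, h4] at h1
  linarith

end SokalF1T
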