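import Pool.Agent.Lib_MP_af4de1_f1.TopFarI

/-!
# Height of the path through `y = 0` (slope 1/2) at the far waves, `N = 3, 4, 5`
-/

set_option autoImplicit false

namespace SokalF1T

open Real

/-- `cos (s + θ) ≤ cos (|θ| - |s|)` -/
theorem cos_add_le {s θ : ℝ} (hs : |s| ≤ π) (hθ : |θ| ≤ π) : cos (s + θ) ≤ cos (|θ| - |s|) := by
  rw [cos_add, cos_sub, cos_abs, cos_abs]
  have h1 : 0 ≤ sin |s| := sin_nonneg_of_nonneg_of_le_pi (abs_nonneg _) hs
  have h2 : 0 ≤ sin |θ| := sin_nonneg_of_nonneg_of_le_pi (abs_nonneg _) hθ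
  have h3 : |sin s * sin θ| = sin |θ| * sin |s| := by
    rw [abs_mul, abs_sin_eq_sin_abs_of_abs_le_pi hs, abs_sin_eq_sin_abs_of_abs_le_pi hθ]
    ring
  have h4 := neg_abs_le (sin s * sin θ)
  nlinarith

theorem gmax {H η A B : ℝ} (hη0 : 0 ≤ η) (hη : η ≤ H) (hH0 : 0 < H) (hH : H ≤ π / 2)
    (hB : 0 ≤ B) :
    A * cos η - B * sin η ≤ max A (A * cos H - B * sin H) := by
  have hsη : 0 ≤ sin η := sin_nonneg_of_nonneg_of_le_pi hη0 (by linarith [pi_pos])
  have hcη : cos η ≤ 1 := cos_le_one η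
  rcases le_total 0 A with hA0 | hA0
  · refine le_max_of_le_left ?_
    nlinarith
  · -- both end values are nonpositive
    set M := max A (A * cos H - B * sin H) with hM
    have hsH : 0 < sin H := sin_pos_of_pos_of_lt_pi hH0 (by linarith [pi_pos])
    have hcH : 0 ≤ cos H := cos_nonneg_of_neg_pi_div_two_le_of_le (by linarith [pi_pos]) hH
    have hM0 : M ≤ 0 := max_le hA0 (by nlinarith)
    have h1 : sin H * (A * cos η - B * sin η) =
        sin (H - η) * A + sin η * (A * cos H - B * sin H) := by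
      rw [sin_sub]; ring
    have h2 : 0 ≤ sin (H - η) := sin_nonneg_of_nonneg_of_le_pi (by linarith) (by linarith [pi_pos])
    have h3 : sin H ≤ sin (H - η) + sin η := by
      have e1 : sin (H - η) + sin η = 2 * sin (H / 2) * cos (H / 2 - η) := by
        have := sin_add_sin (H - η) η
        rw [this]
        congr 2 <;> ring_nf
      have e2 : sin H = 2 * sin (H / 2) * cos (H / 2) := by
        rw [← sin_two_mul]; congr 1; ring
      rw [e1, e2]
      have h4 : 0 ≤ sin (H / 2) := sin_nonneg_of_nonneg_of_le_pi (by linarith) (by linarith [pi_pos])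
      have h5 : cos (H / 2) ≤ cos (H / 2 - η) := by
        rw [← cos_abs (H / 2 - η)]
        refine cos_le_cos_of_nonneg_of_le_pi (abs_nonneg _) (by linarith [pi_pos]) ?_
        rw [abs_le]
        constructor <;> linarith
      nlinarith
    have h6 : sin H * (A * cos η - B * sin η) ≤ sin H * M := by
      rw [h1]
      have a1 : sin (H - η) * A ≤ sin (H - η) * M := mul_le_mul_of_nonneg_left (le_max_left _ _) h2
      have a2 : sin η * (A * cos H - B * sin H) ≤ sin η * M :=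
        mul_le_mul_of_nonneg_left (le_max_right _ _) hsη
      nlinarith
    exact le_of_mul_le_mul_left h6 hsH

/-- the two end points for `e cos (h + η - u) - cos η` -/
theorem gend {e h η u : ℝ} (he : 0 ≤ e) (hη0 : 0 ≤ η) (hη : η ≤ h / 2) (hh0 : 0 < h) (hh : h ≤ π)
    (hu0 : 0 ≤ u) (hu : u ≤ h) :
    e * cos (h + η - u) - cos η ≤
      max (e * cos (h - u) - 1) (e * cos (3 * h / 2 - u) - cos (h / 2)) := by
  have hB : 0 ≤ e * sin (h - u) :=
    mul_nonneg he (sin_nonneg_of_nonneg_of_le_pi (by linarith) (by linarith))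
  have key := gmax (H := h / 2) (η := η) (A := e * cos (h - u) - 1) (B := e * sin (h - u))
    hη0 hη (by linarith) (by linarith) hB
  have e1 : e * cos (h + η - u) - cos η =
      (e * cos (h - u) - 1) * cos η - e * sin (h - u) * sin η := by
    rw [show h + η - u = (h - u) + η by ring, cos_add]; ring
  have e2 : e * cos (3 * h / 2 - u) - cos (h / 2) =
      (e * cos (h - u) - 1) * cos (h / 2) - e * sin (h - u) * sin (h / 2) := by
    rw [show 3 * h / 2 - u = (h - u) + h / 2 by ring, cos_add]; ring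
  rw [e1, e2]
  exact key

theorem scale {ρ ρN b L : ℝ} (h0 : 0 ≤ ρ) (h1 : ρ ≤ ρN) (hL : 0 ≤ L) (h : ρN * b ≤ L) : ρ * b ≤ L := by
  rcases le_total 0 b with hb | hb
  · exact (mul_le_mul_of_nonneg_right h1 hb).trans h
  · exact (mul_nonpos_of_nonneg_of_nonpos h0 hb).trans hL

theorem in_gen {h ρN ρ η θ s M : ℝ} (hh0 : 0 < h) (hh : h ≤ 2 * π / 3) (hρ0 : 0 ≤ ρ) (hρ : ρ ≤ ρN)
    (hη0 : 0 ≤ η) (hη : η ≤ h / 2) (hτ : h + η ≤ |θ|) (hτ1 : |θ| ≤ π) (hs : |s| ≤ 2)
    (fa : ∀ u, 0 ≤ u → u ≤ 2 → u ≤ h → ρN * (exp (-1 / 2 * u) * cos (h - u) + u / 2 + (M - 1)) ≤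
      19 / 40 * u ^ 2)
    (fb : ∀ u, 0 ≤ u → u ≤ 2 → u ≤ h → ρN * (exp (-1 / 2 * u) * cos (3 * h / 2 - u) + u / 2 + M -
      cos (h / 2)) ≤ 19 / 40 * u ^ 2)
    (fc : ∀ u, 0 ≤ u → u ≤ 2 → u ≤ h → ρN * (exp (1 / 2 * u) * cos (h - u) - u / 2 + (M - 1)) ≤
      19 / 40 * u ^ 2)
    (fd : ∀ u, 0 ≤ u → u ≤ 2 → u ≤ h → ρN * (exp (1 / 2 * u) * cos (3 * h / 2 - u) - u / 2 + M -
      cos (h / 2)) ≤ 19 / 40 * u ^ 2)
    (fe : ∀ u, h ≤ u → u ≤ 2 → ρN * (exp (-1 / 2 * u) + u / 2 + M - cos (h / 2)) ≤ 19 / 40 * u ^ 2)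
    (ff : ∀ u, h ≤ u → u ≤ 2 → ρN * (exp (1 / 2 * u) - u / 2 + M - cos (h / 2)) ≤ 19 / 40 * u ^ 2) :
    ρ * (exp (s / 2) * cos (s + θ) - s / 2 + M - cos η) ≤ 19 / 40 * s ^ 2 := by
  have hpi3 := pi_gt_three
  have hρN : 0 ≤ ρN := hρ0.trans hρ
  refine scale hρ0 hρ (by positivity) ?_
  have hs0 := abs_nonneg s
  have hu2 : |s| ^ 2 = s ^ 2 := sq_abs s
  have c1 := cos_add_le (s := s) (θ := θ) (by linarith) hτ1
  have hch : cos (h / 2) ≤ cos η := cos_le_cos_of_nonneg_of_le_pi hη0 (by linarith) hη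
  -- the two signs of `s`
  have main : ∀ (σ : ℝ), σ = 1 / 2 ∨ σ = -1 / 2 → exp (s / 2) = exp (σ * |s|) →
      -s / 2 = -(σ * |s|) → ρN * (exp (s / 2) * cos (s + θ) - s / 2 + M - cos η) ≤ 19 / 40 * s ^ 2 := by
    intro σ hσ e1 e2
    have hp : 0 < exp (σ * |s|) := exp_pos _
    rcases le_total |s| h with hle | hge
    · have c2 : cos (|θ| - |s|) ≤ cos (h + η - |s|) :=
        cos_le_cos_of_nonneg_of_le_pi (by linarith) (by linarith) (by linarith)
      have g := gend (e := exp (σ * |s|)) (h := h) (η := η) (u := |s|) hp.le hη0 hη hh0 (by linarith) hs0 hle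
      have b1 : exp (s / 2) * cos (s + θ) - s / 2 + M - cos η ≤
          max (exp (σ * |s|) * cos (h - |s|) - 1)
            (exp (σ * |s|) * cos (3 * h / 2 - |s|) - cos (h / 2)) + (M - σ * |s|) := by
        have : exp (s / 2) * cos (s + θ) ≤ exp (σ * |s|) * cos (h + η - |s|) := by
          rw [e1]
          exact mul_le_mul_of_nonneg_left (c1.trans c2) hp.le
        linarith
      rcases max_cases (exp (σ * |s|) * cos (h - |s|) - 1)
            (exp (σ * |s|) * cos (3 * h / 2 - |s|) - cos (h / 2)) with ⟨e3, _⟩ | ⟨e3, _⟩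
      · rw [e3] at b1
        refine (mul_le_mul_of_nonneg_left b1 hρN).trans ?_
        rcases hσ with rfl | rfl
        · have := fc |s| hs0 hs hle
          rw [hu2] at this
          linarith
        · have := fa |s| hs0 hs hle
          rw [hu2] at this
          linarith
      · rw [e3] at b1
        refine (mul_le_mul_of_nonneg_left b1 hρN).trans ?_
        rcases hσ with rfl | rfl
        · have := fd |s| hs0 hs hle
          rw [hu2] at this
          linarith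
        · have := fb |s| hs0 hs hle
          rw [hu2] at this
          linarith
    · have b1 : exp (s / 2) * cos (s + θ) - s / 2 + M - cos η ≤
          exp (σ * |s|) - σ * |s| + M - cos (h / 2) := by
        have : exp (s / 2) * cos (s + θ) ≤ exp (σ * |s|) * 1 := by
          rw [e1]
          exact mul_le_mul_of_nonneg_left (cos_le_one _) hp.le
        linarith
      refine (mul_le_mul_of_nonneg_left b1 hρN).trans ?_
      rcases hσ with rfl | rfl
      · have := ff |s| hge hs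
        rw [hu2] at this
        linarith
      · have := fe |s| hge hs
        rw [hu2] at this
        linarith
  rcases le_total 0 s with h0 | h0
  · refine main (1 / 2) (Or.inl rfl) ?_ ?_
    · rw [abs_of_nonneg h0]; congr 1; ring
    · rw [abs_of_nonneg h0]; ring
  · refine main (-1 / 2) (Or.inr rfl) ?_ ?_
    · rw [abs_of_nonpos h0]; congr 1; ring
    · rw [abs_of_nonpos h0]; ring

/-! ### `N = 3` -/

theorem cos_23 : cos (2 * π / 3) = -1 / 2 := by
  rw [show 2 * π / 3 = π - π / 3 by ring, cos_pi_sub, cos_pi_div_three]; norm_num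

theorem sin_23 : sin (2 * π / 3) = √3 / 2 := by
  rw [show 2 * π / 3 = π - π / 3 by ring, sin_pi_sub, sin_pi_div_three]

theorem sqrt3_le : √3 / 2 ≤ 86603 / 100000 := by
  have : √3 ≤ 173206 / 100000 := by
    rw [sqrt_le_left (by norm_num)]; norm_num
  linarith

theorem in3 {ρ η θ s : ℝ} (hρ0 : 0 ≤ ρ) (hρ : ρ ≤ 17286 / 10000)
    (hη0 : 0 ≤ η) (hη : η ≤ π / 3) (hτ : 2 * π / 3 + η ≤ |θ|) (hτ1 : |θ| ≤ π) (hs : |s| ≤ 2) :
    ρ * (exp (s / 2) * cos (s + θ) - s / 2 + 1 / 4 - cos η) ≤ 19 / 40 * s ^ 2 := by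
  have hpi := pi_gt_d2
  have hh2 : 2 * π / 3 / 2 = π / 3 := by ring
  have hh3 : 3 * (2 * π / 3) / 2 = π := by ring
  refine in_gen (h := 2 * π / 3) (M := 1 / 4) (by positivity) le_rfl hρ0 hρ hη0 (by linarith) hτ hτ1 hs ?_ ?_ ?_ ?_ ?_ ?_
  · intro u h0 h2 _
    have hsu : 0 ≤ sin u := sin_nonneg_of_nonneg_of_le_pi h0 (by linarith)
    have := i3a h0 h2
    rw [cos_sub, cos_23, sin_23]
    have hE := exp_pos (-1 / 2 * u)
    have h5 := mul_le_mul_of_nonneg_right sqrt3_le hsu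
    have h6 := mul_le_mul_of_nonneg_left h5 hE.le
    linarith
  · intro u h0 h2 _
    have := i3b h0 h2
    rw [hh3, hh2, cos_pi_sub, cos_pi_div_three]
    linarith
  · intro u h0 h2 _
    have hsu : 0 ≤ sin u := sin_nonneg_of_nonneg_of_le_pi h0 (by linarith)
    have := i3c h0 h2
    rw [cos_sub, cos_23, sin_23]
    have hE := exp_pos (1 / 2 * u)
    have h5 := mul_le_mul_of_nonneg_right sqrt3_le hsu
    have h6 := mul_le_mul_of_nonneg_left h5 hE.le
    linarith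
  · intro u h0 h2 _
    have := i3d h0 h2
    rw [hh3, hh2, cos_pi_sub, cos_pi_div_three]
    linarith
  · intro u h0 h2
    exfalso
    linarith
  · intro u h0 h2
    exfalso
    linarith

/-! ### `u ≥ h` for `N = 4, 5` -/

theorem exp_half_mul {u : ℝ} : exp (1 / 2 * u) * (2 - u / 2) ≤ 27183 / 10000 := by
  have h1 : 1 + (1 - u / 2) ≤ exp (1 - u / 2) := by linarith [add_one_le_exp (1 - u / 2)]
  have h2 : exp (1 / 2 * u) * exp (1 - u / 2) = exp 1 := by rw [← exp_add]; congr 1; ring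
  have h3 := exp_one_lt_d9
  have h4 := exp_pos (1 / 2 * u)
  nlinarith

theorem exp_half_mul2 {u : ℝ} (hu : u ≤ 2) :
    exp (1 / 2 * u) * (1 + (1 - u / 2) + (1 - u / 2) ^ 2 / 2) ≤ 27183 / 10000 := by
  have h1 : 1 + (1 - u / 2) + (1 - u / 2) ^ 2 / 2 ≤ exp (1 - u / 2) :=
    quadratic_le_exp_of_nonneg (by linarith)
  have h2 : exp (1 / 2 * u) * exp (1 - u / 2) = exp 1 := by rw [← exp_add]; congr 1; ring
  have h3 := exp_one_lt_d9
  have h4 := exp_pos (1 / 2 * u)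
  nlinarith

theorem exp_neg_half_mul {u : ℝ} : exp (-1 / 2 * u) * (1 + u / 2) ≤ 1 := by
  have h1 : u / 2 + 1 ≤ exp (u / 2) := add_one_le_exp _
  have h2 : exp (-1 / 2 * u) * exp (u / 2) = 1 := by
    rw [← exp_add, show -1 / 2 * u + u / 2 = 0 by ring, exp_zero]
  have h4 := exp_pos (-1 / 2 * u)
  nlinarith

/-! ### `N = 4` -/

theorem sqrt2_ge : 7071 / 10000 ≤ √2 / 2 := by
  have : 14142 / 10000 ≤ √2 := by
    apply le_sqrt_of_sq_le; norm_num
  linarith

theorem sqrt2_le : √2 / 2 ≤ 70711 / 100000 := by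
  have : √2 ≤ 141422 / 100000 := by
    rw [sqrt_le_left (by norm_num)]; norm_num
  linarith

theorem cos_34 : cos (3 * (π / 2) / 2) = -(√2 / 2) := by
  rw [show 3 * (π / 2) / 2 = π - π / 4 by ring, cos_pi_sub, cos_pi_div_four]

theorem sin_34 : sin (3 * (π / 2) / 2) = √2 / 2 := by
  rw [show 3 * (π / 2) / 2 = π - π / 4 by ring, sin_pi_sub, sin_pi_div_four]

theorem in4 {ρ η θ s : ℝ} (hρ0 : 0 ≤ ρ) (hρ : ρ ≤ 1115 / 1000)
    (hη0 : 0 ≤ η) (hη : η ≤ π / 4) (hτ : π / 2 + η ≤ |θ|) (hτ1 : |θ| ≤ π) (hs : |s| ≤ 2) :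
    ρ * (exp (s / 2) * cos (s + θ) - s / 2 + 31 / 100 - cos η) ≤ 19 / 40 * s ^ 2 := by
  have hpi := pi_gt_d2
  have hpi2 := pi_lt_d4
  have hh2 : π / 2 / 2 = π / 4 := by ring
  refine in_gen (h := π / 2) (M := 31 / 100) (by positivity) (by linarith) hρ0 hρ hη0 (by linarith) hτ hτ1 hs
    ?_ ?_ ?_ ?_ ?_ ?_
  · intro u h0 h2 h3
    have := i4a h0 (by linarith)
    rw [cos_pi_div_two_sub]
    linarith
  · intro u h0 h2 h3
    have hsu : 0 ≤ sin u := sin_nonneg_of_nonneg_of_le_pi h0 (by linarith)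
    have hcu : 0 ≤ cos u := cos_nonneg_of_neg_pi_div_two_le_of_le (by linarith) h3
    have := i4b h0 (by linarith)
    rw [cos_sub, cos_34, sin_34, hh2, cos_pi_div_four]
    have hE := exp_pos (-1 / 2 * u)
    have h6 := mul_le_mul_of_nonneg_left (mul_le_mul_of_nonneg_right sqrt2_le hsu) hE.le
    have h7 := mul_le_mul_of_nonneg_left (mul_le_mul_of_nonneg_right sqrt2_ge hcu) hE.le
    have h8 := sqrt2_ge
    linarith
  · intro u h0 h2 h3
    have := i4c h0 (by linarith)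
    rw [cos_pi_div_two_sub]
    linarith
  · intro u h0 h2 h3
    have hsu : 0 ≤ sin u := sin_nonneg_of_nonneg_of_le_pi h0 (by linarith)
    have hcu : 0 ≤ cos u := cos_nonneg_of_neg_pi_div_two_le_of_le (by linarith) h3
    have := i4d h0 (by linarith)
    rw [cos_sub, cos_34, sin_34, hh2, cos_pi_div_four]
    have hE := exp_pos (1 / 2 * u)
    have h6 := mul_le_mul_of_nonneg_left (mul_le_mul_of_nonneg_right sqrt2_le hsu) hE.le
    have h7 := mul_le_mul_of_nonneg_left (mul_le_mul_of_nonneg_right sqrt2_ge hcu) hE.le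
    have h8 := sqrt2_ge
    linarith
  · intro u h0 h2
    have h9 := exp_neg_half_mul (u := u)
    have h8 := sqrt2_ge
    rw [hh2, cos_pi_div_four]
    have hu : 157 / 100 ≤ u := by linarith
    have h10 : exp (-1 / 2 * u) ≤ 561 / 1000 := by
      have := exp_pos (-1 / 2 * u)
      nlinarith
    nlinarith
  · intro u h0 h2
    have h9 := exp_half_mul2 h2
    have h8 := sqrt2_ge
    rw [hh2, cos_pi_div_four]
    have hu : 157 / 100 ≤ u := by linarith
    set X := 1 + (1 - u / 2) + (1 - u / 2) ^ 2 / 2 with hX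
    have h11 : 0 < X := by rw [hX]; nlinarith [sq_nonneg (1 - u / 2)]
    refine le_of_mul_le_mul_right ?_ h11
    have e : 1115 / 1000 * (exp (1 / 2 * u) - u / 2 + 31 / 100 - √2 / 2) * X ≤
        1115 / 1000 * (27183 / 10000 + (-(u / 2) + 31 / 100 - 7071 / 10000) * X) := by
      have : (1115 / 1000) * (exp (1 / 2 * u) * X) ≤ 1115 / 1000 * (27183 / 10000) := by gcongr
      nlinarith
    refine e.trans ?_
    rw [hX]
    nlinarith [mul_nonneg (by linarith : 0 ≤ u - 157 / 100) (by linarith : 0 ≤ 2 - u),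
      mul_nonneg (mul_nonneg (by linarith : 0 ≤ u - 157 / 100) (by linarith : 0 ≤ 2 - u)) (by linarith : 0 ≤ u),
      mul_nonneg (mul_nonneg (by linarith : 0 ≤ u - 157 / 100) (by linarith : 0 ≤ 2 - u)) (sq_nonneg u)]

/-! ### `N = 5` -/

theorem cos_36 : 80901 / 100000 ≤ cos (π / 5) ∧ cos (π / 5) ≤ 80902 / 100000 := by
  rw [cos_pi_div_five]
  have h1 : 223606 / 100000 ≤ √5 := by
    apply le_sqrt_of_sq_le; norm_num
  have h2 : √5 ≤ 223607 / 100000 := by
    rw [sqrt_le_left (by norm_num)]; norm_num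
  constructor <;> linarith

theorem cos_72 : 30901 / 100000 ≤ cos (2 * π / 5) ∧ cos (2 * π / 5) ≤ 30902 / 100000 := by
  have h1 : 223606 / 100000 ≤ √5 := by
    apply le_sqrt_of_sq_le; norm_num
  have h2 : √5 ≤ 223607 / 100000 := by
    rw [sqrt_le_left (by norm_num)]; norm_num
  have h3 : √5 ^ 2 = 5 := sq_sqrt (by norm_num)
  have e : cos (2 * π / 5) = (√5 - 1) / 4 := by
    rw [show 2 * π / 5 = 2 * (π / 5) by ring, cos_two_mul, cos_pi_div_five]
    nlinarith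
  rw [e]
  constructor <;> linarith

theorem sin_72 : sin (2 * π / 5) ≤ 95106 / 100000 := by
  have h1 := cos_72.1
  have h2 := sin_sq_add_cos_sq (2 * π / 5)
  nlinarith

theorem in5 {ρ η θ s : ℝ} (hρ0 : 0 ≤ ρ) (hρ : ρ ≤ 66 / 100)
    (hη0 : 0 ≤ η) (hη : η ≤ π / 5) (hτ : 2 * π / 5 + η ≤ |θ|) (hτ1 : |θ| ≤ π) (hs : |s| ≤ 2) :
    ρ * (exp (s / 2) * cos (s + θ) - s / 2 + 28 / 100 - cos η) ≤ 19 / 40 * s ^ 2 := by
  have hpi := pi_gt_d2
  have hpi2 := pi_lt_d4
  have hh2 : 2 * π / 5 / 2 = π / 5 := by ring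
  have e108 : 3 * (2 * π / 5) / 2 = π - 2 * π / 5 := by ring
  have c1 := cos_36.1
  have c2 := cos_72.1
  have c3 := cos_72.2
  have c4 := sin_72
  refine in_gen (h := 2 * π / 5) (M := 28 / 100) (by positivity) (by linarith) hρ0 hρ hη0 (by linarith) hτ hτ1 hs
    ?_ ?_ ?_ ?_ ?_ ?_
  · intro u h0 h2 h3
    have hsu : 0 ≤ sin u := sin_nonneg_of_nonneg_of_le_pi h0 (by linarith)
    have hcu : 0 ≤ cos u := cos_nonneg_of_neg_pi_div_two_le_of_le (by linarith) (by linarith)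
    have := i5a h0 (by linarith)
    rw [cos_sub]
    have hE := exp_pos (-1 / 2 * u)
    have h6 := mul_le_mul_of_nonneg_left (mul_le_mul_of_nonneg_right c4 hsu) hE.le
    have h7 := mul_le_mul_of_nonneg_left (mul_le_mul_of_nonneg_right c3 hcu) hE.le
    linarith
  · intro u h0 h2 h3
    have hsu : 0 ≤ sin u := sin_nonneg_of_nonneg_of_le_pi h0 (by linarith)
    have hcu : 0 ≤ cos u := cos_nonneg_of_neg_pi_div_two_le_of_le (by linarith) (by linarith)
    have := i5b h0 (by linarith)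
    rw [cos_sub, e108, cos_pi_sub, sin_pi_sub, hh2]
    have hE := exp_pos (-1 / 2 * u)
    have h6 := mul_le_mul_of_nonneg_left (mul_le_mul_of_nonneg_right c4 hsu) hE.le
    have h7 := mul_le_mul_of_nonneg_left (mul_le_mul_of_nonneg_right c2 hcu) hE.le
    linarith
  · intro u h0 h2 h3
    have hsu : 0 ≤ sin u := sin_nonneg_of_nonneg_of_le_pi h0 (by linarith)
    have hcu : 0 ≤ cos u := cos_nonneg_of_neg_pi_div_two_le_of_le (by linarith) (by linarith)
    have := i5c h0 (by linarith)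
    rw [cos_sub]
    have hE := exp_pos (1 / 2 * u)
    have h6 := mul_le_mul_of_nonneg_left (mul_le_mul_of_nonneg_right c4 hsu) hE.le
    have h7 := mul_le_mul_of_nonneg_left (mul_le_mul_of_nonneg_right c3 hcu) hE.le
    linarith
  · intro u h0 h2 h3
    have hsu : 0 ≤ sin u := sin_nonneg_of_nonneg_of_le_pi h0 (by linarith)
    have hcu : 0 ≤ cos u := cos_nonneg_of_neg_pi_div_two_le_of_le (by linarith) (by linarith)
    have := i5d h0 (by linarith)
    rw [cos_sub, e108, cos_pi_sub, sin_pi_sub, hh2]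
    have hE := exp_pos (1 / 2 * u)
    have h6 := mul_le_mul_of_nonneg_left (mul_le_mul_of_nonneg_right c4 hsu) hE.le
    have h7 := mul_le_mul_of_nonneg_left (mul_le_mul_of_nonneg_right c2 hcu) hE.le
    linarith
  · intro u h0 h2
    have h9 := exp_neg_half_mul (u := u)
    rw [hh2]
    have hu : 1256 / 1000 ≤ u := by linarith
    have h10 : exp (-1 / 2 * u) ≤ 62 / 100 := by
      have := exp_pos (-1 / 2 * u)
      nlinarith
    nlinarith
  · intro u h0 h2
    have h9 := exp_half_mul (u := u)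
    rw [hh2]
    have hu : 1256 / 1000 ≤ u := by linarith
    have h11 : 0 < 2 - u / 2 := by linarith
    refine le_of_mul_le_mul_right ?_ h11
    have e : 66 / 100 * (exp (1 / 2 * u) - u / 2 + 28 / 100 - cos (π / 5)) * (2 - u / 2) ≤
        66 / 100 * (27183 / 10000 + (-(u / 2) + 28 / 100 - 80901 / 100000) * (2 - u / 2)) := by
      have : (66 / 100) * (exp (1 / 2 * u) * (2 - u / 2)) ≤ 66 / 100 * (27183 / 10000) := by gcongr
      nlinarith
    refine e.trans ?_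
    nlinarith [mul_nonneg (by linarith : 0 ≤ u - 1256 / 1000) (by linarith : 0 ≤ 2 - u),
      mul_nonneg (mul_nonneg (by linarith : 0 ≤ u - 1256 / 1000) (by linarith : 0 ≤ 2 - u))
        (by linarith : 0 ≤ u)]

/-! ### `N = 3`, the top wave slightly beyond `60°` -/

theorem in3' {ρ η θ s : ℝ} (hρ0 : 0 ≤ ρ) (hρ : ρ ≤ 17286 / 10000)
    (hη : 4225 / 10000 ≤ cos η) (hτ : π - 9 / 100 ≤ |θ|) (hτ1 : |θ| ≤ π) (hs : |s| ≤ 2) :
    ρ * (exp (s / 2) * cos (s + θ) - s / 2 + 1 / 4 - cos η) ≤ 19 / 40 * s ^ 2 := by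
  have hpi := pi_gt_d2
  have hpi2 := pi_lt_d4
  refine scale hρ0 hρ (by positivity) ?_
  have hs0 := abs_nonneg s
  have hu2 : |s| ^ 2 = s ^ 2 := sq_abs s
  have c1 := cos_add_le (s := s) (θ := θ) (by linarith) hτ1
  have c2 : cos (|θ| - |s|) ≤ cos (π - (|s| + 9 / 100)) :=
    cos_le_cos_of_nonneg_of_le_pi (by linarith) (by linarith) (by linarith)
  have hsu : 0 ≤ sin |s| := sin_nonneg_of_nonneg_of_le_pi hs0 (by linarith)
  have c3 : cos (π - (|s| + 9 / 100)) ≤ -9959 / 10000 * cos |s| + 9 / 100 * sin |s| + 1 / 10000 * (3 / 5) := by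
    rw [cos_pi_sub, cos_add]
    have k1 : sin (9 / 100) ≤ 9 / 100 := sin_le (by norm_num)
    have k2 : 1 - (9 / 100) ^ 2 / 2 ≤ cos (9 / 100) := one_sub_sq_div_two_le_cos
    have k3 : cos (9 / 100) ≤ 1 - (9 / 100) ^ 2 / 2 + (9 / 100) ^ 4 * (5 / 96) := by
      have := Real.cos_bound (x := 9 / 100) (by norm_num [abs_of_pos])
      have := (abs_le.1 this).2
      norm_num [abs_of_pos] at this ⊢
      linarith
    have k4 := mul_le_mul_of_nonneg_right k1 hsu
    have k5 : |cos |s| * (9959 / 10000 - cos (9 / 100))| ≤ 1 * (1 / 10000 * (3 / 5)) := by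
      rw [abs_mul]
      refine mul_le_mul (abs_cos_le_one _) ?_ (abs_nonneg _) zero_le_one
      rw [abs_le]
      constructor <;> norm_num at k2 k3 ⊢ <;> linarith
    have k6 := (abs_le.1 k5).2
    linarith
  have main : ∀ (σ : ℝ), σ = 1 / 2 ∨ σ = -1 / 2 → exp (s / 2) = exp (σ * |s|) →
      -s / 2 = -(σ * |s|) →
      17286 / 10000 * (exp (s / 2) * cos (s + θ) - s / 2 + 1 / 4 - cos η) ≤ 19 / 40 * s ^ 2 := by
    intro σ hσ e1 e2
    have hp : 0 < exp (σ * |s|) := exp_pos _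
    have b0 : exp (s / 2) * cos (s + θ) ≤ exp (σ * |s|) *
        (-9959 / 10000 * cos |s| + 9 / 100 * sin |s| + 1 / 10000 * (3 / 5)) := by
      rw [e1]
      exact mul_le_mul_of_nonneg_left ((c1.trans c2).trans c3) hp.le
    rcases hσ with rfl | rfl
    · have h1 := i3f hs0 hs
      rw [hu2] at h1
      have h2 : exp (1 / 2 * |s|) ≤ 3 := by
        have : exp (1 / 2 * |s|) ≤ exp 1 := exp_le_exp.2 (by linarith)
        have := exp_one_lt_d9
        linarith
      linarith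
    · have h1 := i3e hs0 hs
      rw [hu2] at h1
      have h2 : exp (-1 / 2 * |s|) ≤ 1 := by
        rw [exp_le_one_iff]; linarith
      linarith
  rcases le_total 0 s with h0 | h0
  · refine main (1 / 2) (Or.inl rfl) ?_ ?_
    · rw [abs_of_nonneg h0]; congr 1; ring
    · rw [abs_of_nonneg h0]; ring
  · refine main (-1 / 2) (Or.inr rfl) ?_ ?_
    · rw [abs_of_nonpos h0]; congr 1; ring
    · rw [abs_of_nonpos h0]; ring

/-! ### the outer part of the path -/

theorem exp_neg_one_le : exp (-1) ≤ 36790 / 100000 := by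
  rw [exp_neg, inv_le_comm₀ (exp_pos _) (by norm_num)]
  have := exp_one_gt_d9
  norm_num at this ⊢
  linarith

theorem cos_sub_le {w η : ℝ} (h0 : w ≤ η) (h1 : -η ≤ w) (h2 : η ≤ π / 3) :
    cos w - cos η ≤ 867 / 1000 * (η - w) := by
  have e : cos w - cos η = 2 * sin ((η + w) / 2) * sin ((η - w) / 2) := by
    rw [cos_sub_cos]
    have e1 : (w - η) / 2 = -((η - w) / 2) := by ring
    rw [e1, sin_neg, add_comm w η]; ring
  have h3 : sin ((η - w) / 2) ≤ (η - w) / 2 := sin_le (by linarith)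
  have h4 : 0 ≤ sin ((η - w) / 2) := sin_nonneg_of_nonneg_of_le_pi (by linarith) (by linarith [pi_pos])
  have h5 : sin ((η + w) / 2) ≤ 867 / 1000 := by
    have : sin ((η + w) / 2) ≤ sin (π / 3) :=
      sin_le_sin_of_le_of_le_pi_div_two (by linarith [pi_pos]) (by linarith [pi_pos]) (by linarith)
    rw [sin_pi_div_three] at this
    linarith [sqrt3_le]
  rw [e]
  nlinarith

/-- `s ≥ 2`, `N = 3`, `η ≤ 60°`. -/
theorem out_pos3 {ρ η θ s : ℝ} (hρ0 : 0 ≤ ρ) (hρ : ρ ≤ 17286 / 10000)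
    (hη0 : 0 ≤ η) (hη : η ≤ π / 3) (hτ : 2 * π / 3 + η ≤ |θ|) (hτ1 : |θ| ≤ π) (hs : 2 ≤ s) :
    ρ * (exp 1 * cos (s + θ) - 2 + 5 / 4 - cos η) ≤ 39 / 40 * s := by
  have hpi := pi_gt_d4
  have hpi2 := pi_lt_d4
  have h1 := exp_one_lt_d9
  have hE := exp_pos 1
  have hC : 1 / 2 ≤ cos η := by
    rw [← cos_pi_div_three]
    exact cos_le_cos_of_nonneg_of_le_pi hη0 (by linarith) hη
  rcases le_total s (262 / 100) with h26 | h26
  · have c1 := cos_add_le (s := s) (θ := θ) (by rw [abs_of_nonneg (by linarith)]; linarith) hτ1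
    rw [abs_of_nonneg (by linarith : (0:ℝ) ≤ s)] at c1
    -- `cos (|θ| - s) - cos η ≤ (s - 2π/3)⁺`
    set v := s - 2 * π / 3 with hv
    have c2 : cos (|θ| - s) - cos η ≤ 867 / 1000 * max v 0 := by
      have hm := le_max_right v 0
      rcases le_total η (|θ| - s) with h3 | h3
      · have : cos (|θ| - s) ≤ cos η := cos_le_cos_of_nonneg_of_le_pi hη0 (by linarith) h3
        linarith
      · rcases le_total (-η) (|θ| - s) with h4 | h4
        · refine (cos_sub_le h3 h4 hη).trans ?_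
          have := le_max_left v 0
          linarith
        · have : cos (|θ| - s) ≤ cos η := by
            rw [← cos_neg (|θ| - s)]
            exact cos_le_cos_of_nonneg_of_le_pi hη0 (by linarith) (by linarith)
          linarith
    have c3 : exp 1 * cos (s + θ) - cos η ≤ exp 1 - 1 + 867 / 1000 * max v 0 := by
      have k1 : exp 1 * cos (s + θ) ≤ exp 1 * cos (|θ| - s) := mul_le_mul_of_nonneg_left c1 hE.le
      have k2 : (exp 1 - 1) * cos (|θ| - s) ≤ (exp 1 - 1) * 1 :=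
        mul_le_mul_of_nonneg_left (cos_le_one _) (by linarith [add_one_le_exp (1:ℝ)])
      linarith
    have hm0 := le_max_right v 0
    have h3 : ρ * (exp 1 * cos (s + θ) - 2 + 5 / 4 - cos η) ≤ ρ * (96829 / 100000 + 867 / 1000 * max v 0) :=
      mul_le_mul_of_nonneg_left (by linarith) hρ0
    have h4 : ρ * (96829 / 100000 + 867 / 1000 * max v 0) ≤
        17286 / 10000 * (96829 / 100000 + 867 / 1000 * max v 0) :=
      mul_le_mul_of_nonneg_right hρ (by linarith)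
    refine (h3.trans h4).trans ?_
    rcases max_cases v 0 with ⟨e, _⟩ | ⟨e, _⟩ <;> rw [e]
    · linarith
    · linarith
  · have h2 : exp 1 * cos (s + θ) ≤ exp 1 * 1 :=
      mul_le_mul_of_nonneg_left (cos_le_one _) (exp_pos _).le
    have h3 : ρ * (exp 1 * cos (s + θ) - 2 + 5 / 4 - cos η) ≤ ρ * (196829 / 100000 - 1 / 2) :=
      mul_le_mul_of_nonneg_left (by linarith) hρ0
    have h4 : ρ * (196829 / 100000 - 1 / 2 : ℝ) ≤ 17286 / 10000 * (196829 / 100000 - 1 / 2) :=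
      mul_le_mul_of_nonneg_right hρ (by norm_num)
    linarith

/-- `s ≤ -2`, `N = 3`, `|θ| ≥ π - 9/100`. -/
theorem out_neg3' {ρ η θ s : ℝ} (hρ0 : 0 ≤ ρ) (hρ : ρ ≤ 17286 / 10000)
    (hη : 4225 / 10000 ≤ cos η) (hτ : π - 9 / 100 ≤ |θ|) (hτ1 : |θ| ≤ π) (hs : s ≤ -2) :
    ρ * (exp (-1) * cos (s + θ) + 5 / 4 - cos η) ≤ -(39 / 40) * s := by
  have hpi := pi_gt_d4
  have hpi2 := pi_lt_d4
  have h1 := exp_neg_one_le
  have hE := exp_pos (-1)
  rcases le_total s (-213 / 100) with h26 | h26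
  · have h2 : exp (-1) * cos (s + θ) ≤ exp (-1) * 1 :=
      mul_le_mul_of_nonneg_left (cos_le_one _) hE.le
    have h3 : ρ * (exp (-1) * cos (s + θ) + 5 / 4 - cos η) ≤ ρ * (1196 / 1000) :=
      mul_le_mul_of_nonneg_left (by linarith) hρ0
    have h4 : ρ * (1196 / 1000 : ℝ) ≤ 17286 / 10000 * (1196 / 1000) :=
      mul_le_mul_of_nonneg_right hρ (by norm_num)
    linarith
  · have c1 := cos_add_le (s := s) (θ := θ) (by rw [abs_of_nonpos (by linarith)]; linarith) hτ1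
    rw [abs_of_nonpos (by linarith : s ≤ 0)] at c1
    have c2 : cos (|θ| - -s) ≤ cos (π / 4) :=
      cos_le_cos_of_nonneg_of_le_pi (by linarith) (by linarith) (by linarith)
    rw [cos_pi_div_four] at c2
    have c3 := sqrt2_le
    have h2 : exp (-1) * cos (s + θ) ≤ 36790 / 100000 * (70711 / 100000) := by
      calc exp (-1) * cos (s + θ) ≤ exp (-1) * (70711 / 100000) :=
            mul_le_mul_of_nonneg_left (by linarith) hE.le
        _ ≤ _ := mul_le_mul_of_nonneg_right h1 (by norm_num)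
    have h3 : ρ * (exp (-1) * cos (s + θ) + 5 / 4 - cos η) ≤ ρ * (109 / 100) :=
      mul_le_mul_of_nonneg_left (by linarith) hρ0
    have h4 : ρ * (109 / 100 : ℝ) ≤ 17286 / 10000 * (109 / 100) :=
      mul_le_mul_of_nonneg_right hρ (by norm_num)
    linarith

/-- `s ≥ 2`, `N = 3`, `|θ| ≥ π - 9/100`. -/
theorem out_pos3' {ρ η θ s : ℝ} (hρ0 : 0 ≤ ρ) (hρ : ρ ≤ 17286 / 10000)
    (hη : 4225 / 10000 ≤ cos η) (hτ : π - 9 / 100 ≤ |θ|) (hτ1 : |θ| ≤ π) (hs : 2 ≤ s) :
    ρ * (exp 1 * cos (s + θ) - 2 + 5 / 4 - cos η) ≤ 39 / 40 * s := by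
  have hpi := pi_gt_d4
  have hpi2 := pi_lt_d4
  have h1 := exp_one_lt_d9
  have hE := exp_pos 1
  -- from a bound of the cosine
  have fin : ∀ C : ℝ, 0 ≤ C → cos (s + θ) ≤ C → 17286 / 10000 * (27183 / 10000 * C - 1172 / 1000) ≤ 39 / 40 * s →
      ρ * (exp 1 * cos (s + θ) - 2 + 5 / 4 - cos η) ≤ 39 / 40 * s := by
    intro C hC0 hC h
    have h2 : exp 1 * cos (s + θ) ≤ 27183 / 10000 * C := by
      calc exp 1 * cos (s + θ) ≤ exp 1 * C := mul_le_mul_of_nonneg_left hC hE.le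
        _ ≤ _ := mul_le_mul_of_nonneg_right (by linarith) hC0
    have h3 : ρ * (exp 1 * cos (s + θ) - 2 + 5 / 4 - cos η) ≤ ρ * (27183 / 10000 * C - 1172 / 1000) :=
      mul_le_mul_of_nonneg_left (by linarith) hρ0
    exact h3.trans (scale hρ0 hρ (by linarith) h)
  rcases le_total (275 / 100) s with h27 | h27
  · exact fin 1 zero_le_one (cos_le_one _) (by linarith)
  have c1 := cos_add_le (s := s) (θ := θ) (by rw [abs_of_nonneg (by linarith)]; linarith) hτ1
  rw [abs_of_nonneg (by linarith : (0:ℝ) ≤ s)] at c1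
  rcases le_total (255 / 100) s with h25 | h25
  · have c2 : cos (|θ| - s) ≤ cos (301 / 1000) :=
      cos_le_cos_of_nonneg_of_le_pi (by norm_num) (by linarith) (by linarith)
    have k3 := Real.cos_bound (x := 301 / 1000) (by norm_num [abs_of_pos])
    have k4 := (abs_le.1 k3).2
    refine fin (9552 / 10000) (by norm_num) ?_ (by linarith)
    norm_num [abs_of_pos] at k4
    linarith
  rcases le_total (11 / 5) s with h22 | h22
  · have c2 : cos (|θ| - s) ≤ cos (501 / 1000) :=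
      cos_le_cos_of_nonneg_of_le_pi (by norm_num) (by linarith) (by linarith)
    have k3 := Real.cos_bound (x := 501 / 1000) (by norm_num [abs_of_pos])
    have k4 := (abs_le.1 k3).2
    refine fin (8778 / 10000) (by norm_num) ?_ (by linarith)
    norm_num [abs_of_pos] at k4
    linarith
  · have c2 : cos (|θ| - s) ≤ cos (π / 4) :=
      cos_le_cos_of_nonneg_of_le_pi (by linarith) (by linarith) (by linarith)
    rw [cos_pi_div_four] at c2
    have c3 := sqrt2_le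
    exact fin (70711 / 100000) (by norm_num) (by linarith) (by linarith)

/-- small `ρ`, `N = 3` -/
theorem in3s {ρ θ s : ℝ} (hρ0 : 0 ≤ ρ) (hρ : ρ ≤ 3 / 4) (hτ : 2 * π / 3 ≤ |θ|) (hτ1 : |θ| ≤ π)
    (hs : |s| ≤ 2) : ρ * (exp (s / 2) * cos (s + θ) - s / 2 - 1 / 5) ≤ 19 / 40 * s ^ 2 := by
  have hpi := pi_gt_d2
  have hpi2 := pi_lt_d4
  refine scale hρ0 hρ (by positivity) ?_
  have hs0 := abs_nonneg s
  have hu2 : |s| ^ 2 = s ^ 2 := sq_abs s
  have c1 := cos_add_le (s := s) (θ := θ) (by linarith) hτ1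
  have c2 : cos (|θ| - |s|) ≤ cos (2 * π / 3 - |s|) :=
    cos_le_cos_of_nonneg_of_le_pi (by linarith) (by linarith) (by linarith)
  have hsu : 0 ≤ sin |s| := sin_nonneg_of_nonneg_of_le_pi hs0 (by linarith)
  have c3 : cos (2 * π / 3 - |s|) ≤ -1 / 2 * cos |s| + 86603 / 100000 * sin |s| := by
    rw [cos_sub, cos_23, sin_23]
    have h5 := mul_le_mul_of_nonneg_right sqrt3_le hsu
    linarith
  have main : ∀ (σ : ℝ), σ = 1 / 2 ∨ σ = -1 / 2 → exp (s / 2) = exp (σ * |s|) →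
      -s / 2 = -(σ * |s|) →
      3 / 4 * (exp (s / 2) * cos (s + θ) - s / 2 - 1 / 5) ≤ 19 / 40 * s ^ 2 := by
    intro σ hσ e1 e2
    have hp : 0 < exp (σ * |s|) := exp_pos _
    have b0 : exp (s / 2) * cos (s + θ) ≤ exp (σ * |s|) *
        (-1 / 2 * cos |s| + 86603 / 100000 * sin |s|) := by
      rw [e1]
      exact mul_le_mul_of_nonneg_left ((c1.trans c2).trans c3) hp.le
    rcases hσ with rfl | rfl
    · have h1 := i3t hs0 hs
      rw [hu2] at h1
      linarith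
    · have h1 := i3s hs0 hs
      rw [hu2] at h1
      linarith
  rcases le_total 0 s with h0 | h0
  · refine main (1 / 2) (Or.inl rfl) ?_ ?_
    · rw [abs_of_nonneg h0]; congr 1; ring
    · rw [abs_of_nonneg h0]; ring
  · refine main (-1 / 2) (Or.inr rfl) ?_ ?_
    · rw [abs_of_nonpos h0]; congr 1; ring
    · rw [abs_of_nonpos h0]; ring

/-- The cases for the far waves; `l` is the exponent in `|E| ≤ C e^(r l)`. -/
inductive FarOk (ρ θ : ℝ) : ℝ → Prop
  | s3 (h1 : ρ ≤ 3 / 4) (h2 : 2 * π / 3 ≤ |θ|) : FarOk ρ θ (1 / 5)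
  | b3 {η : ℝ} (h1 : ρ ≤ 17286 / 10000) (h2 : 0 ≤ η) (h3 : η ≤ π / 3) (h4 : 2 * π / 3 + η ≤ |θ|) :
      FarOk ρ θ (cos η - 1 / 4)
  | c3 {η : ℝ} (h1 : ρ ≤ 17286 / 10000) (h2 : 4225 / 10000 ≤ cos η) (h3 : π - 9 / 100 ≤ |θ|) :
      FarOk ρ θ (cos η - 1 / 4)
  | b4 {η : ℝ} (h1 : ρ ≤ 1115 / 1000) (h2 : 0 ≤ η) (h3 : η ≤ π / 4) (h4 : π / 2 + η ≤ |θ|) :
      FarOk ρ θ (cos η - 31 / 100)
  | b5 {η : ℝ} (h1 : ρ ≤ 66 / 100) (h2 : 0 ≤ η) (h3 : η ≤ π / 5) (h4 : 2 * π / 5 + η ≤ |θ|) :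
      FarOk ρ θ (cos η - 28 / 100)

theorem far_in {ρ l θ s : ℝ} (hρ0 : 0 ≤ ρ) (h : FarOk ρ θ l) (hτ1 : |θ| ≤ π) (hs : |s| ≤ 2) :
    ρ * (exp (s / 2) * cos (s + θ) - s / 2 - l) ≤ 19 / 40 * s ^ 2 := by
  cases h with
  | s3 h1 h2 => exact in3s hρ0 h1 h2 hτ1 hs
  | b3 h1 h2 h3 h4 => have := in3 hρ0 h1 h2 h3 h4 hτ1 hs; linarith
  | c3 h1 h2 h3 => have := in3' hρ0 h1 h2 h3 hτ1 hs; linarith
  | b4 h1 h2 h3 h4 => have := in4 hρ0 h1 h2 h3 h4 hτ1 hs; linarith
  | b5 h1 h2 h3 h4 => have := in5 hρ0 h1 h2 h3 h4 hτ1 hs; linarith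

/-- `s ≤ -2`, crude -/
theorem out_neg_l {ρ ρN C l θ s : ℝ} (hρ0 : 0 ≤ ρ) (hρ : ρ ≤ ρN) (hC : C ≤ l)
    (hN : ρN * (136790 / 100000 - C) ≤ 195 / 100) (hC1 : C ≤ 1) (hs : s ≤ -2) :
    ρ * (exp (-1) * cos (s + θ) + 1 - l) ≤ -(39 / 40) * s := by
  have h1 := exp_neg_one_le
  have h2 : exp (-1) * cos (s + θ) ≤ exp (-1) * 1 :=
    mul_le_mul_of_nonneg_left (cos_le_one _) (exp_pos _).le
  have h3 : ρ * (exp (-1) * cos (s + θ) + 1 - l) ≤ ρ * (136790 / 100000 - C) :=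
    mul_le_mul_of_nonneg_left (by linarith) hρ0
  have h4 : ρ * (136790 / 100000 - C) ≤ ρN * (136790 / 100000 - C) :=
    mul_le_mul_of_nonneg_right hρ (by linarith)
  linarith

/-- `s ≥ 2`, crude -/
theorem out_pos_l {ρ ρN C l θ s : ℝ} (hρ0 : 0 ≤ ρ) (hρ : ρ ≤ ρN) (hC : C ≤ l)
    (hN : ρN * (171829 / 100000 - C) ≤ 195 / 100) (hC1 : C ≤ 1) (hs : 2 ≤ s) :
    ρ * (exp 1 * cos (s + θ) - 1 - l) ≤ 39 / 40 * s := by
  have h1 := exp_one_lt_d9
  have h2 : exp 1 * cos (s + θ) ≤ exp 1 * 1 :=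
    mul_le_mul_of_nonneg_left (cos_le_one _) (exp_pos _).le
  have h3 : ρ * (exp 1 * cos (s + θ) - 1 - l) ≤ ρ * (171829 / 100000 - C) :=
    mul_le_mul_of_nonneg_left (by linarith) hρ0
  have h4 : ρ * (171829 / 100000 - C) ≤ ρN * (171829 / 100000 - C) :=
    mul_le_mul_of_nonneg_right hρ (by linarith)
  linarith

theorem cos_ge_quarter {η : ℝ} (h2 : 0 ≤ η) (h3 : η ≤ π / 4) : 7071 / 10000 ≤ cos η := by
  have := cos_le_cos_of_nonneg_of_le_pi h2 (by linarith [pi_pos]) h3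
  rw [cos_pi_div_four] at this
  linarith [sqrt2_ge]

theorem cos_ge_fifth {η : ℝ} (h2 : 0 ≤ η) (h3 : η ≤ π / 5) : 80901 / 100000 ≤ cos η := by
  have := cos_le_cos_of_nonneg_of_le_pi h2 (by linarith [pi_pos]) h3
  linarith [cos_36.1]

theorem far_neg {ρ l θ s : ℝ} (hρ0 : 0 ≤ ρ) (h : FarOk ρ θ l) (hτ1 : |θ| ≤ π) (hs : s ≤ -2) :
    ρ * (exp (-1) * cos (s + θ) + 1 - l) ≤ -(39 / 40) * s := by
  have hpi := pi_gt_three
  cases h with
  | s3 h1 h2 => exact out_neg_l (C := 1 / 5) hρ0 h1 le_rfl (by norm_num) (by norm_num) hs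
  | b3 h1 h2 h3 h4 =>
    have hc := cos_le_cos_of_nonneg_of_le_pi h2 (by linarith) h3
    rw [cos_pi_div_three] at hc
    exact out_neg_l (C := 1 / 4) hρ0 h1 (by linarith) (by norm_num) (by norm_num) hs
  | c3 h1 h2 h3 => have := out_neg3' hρ0 h1 h2 h3 hτ1 hs; linarith
  | b4 h1 h2 h3 h4 =>
    have hc := cos_ge_quarter h2 h3
    exact out_neg_l (C := 39 / 100) hρ0 h1 (by linarith) (by norm_num) (by norm_num) hs
  | b5 h1 h2 h3 h4 =>
    have hc := cos_ge_fifth h2 h3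
    exact out_neg_l (C := 39 / 100) hρ0 h1 (by linarith) (by norm_num) (by norm_num) hs

theorem far_pos {ρ l θ s : ℝ} (hρ0 : 0 ≤ ρ) (h : FarOk ρ θ l) (hτ1 : |θ| ≤ π) (hs : 2 ≤ s) :
    ρ * (exp 1 * cos (s + θ) - 1 - l) ≤ 39 / 40 * s := by
  have hpi := pi_gt_three
  cases h with
  | s3 h1 h2 => exact out_pos_l (C := 1 / 5) hρ0 h1 le_rfl (by norm_num) (by norm_num) hs
  | b3 h1 h2 h3 h4 => have := out_pos3 hρ0 h1 h2 h3 h4 hτ1 hs; linarith
  | c3 h1 h2 h3 => have := out_pos3' hρ0 h1 h2 h3 hτ1 hs; linarith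
  | b4 h1 h2 h3 h4 =>
    have hc := cos_ge_quarter h2 h3
    exact out_pos_l (C := 39 / 100) hρ0 h1 (by linarith) (by norm_num) (by norm_num) hs
  | b5 h1 h2 h3 h4 =>
    have hc := cos_ge_fifth h2 h3
    exact out_pos_l (C := 39 / 100) hρ0 h1 (by linarith) (by norm_num) (by norm_num) hs

end SokalF1T
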