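import Pool.Agent.Lib_MP_af4de1_f1.TopFarE

/-!
# The one-variable inequalities for the far waves, `N = 3, 4, 5`
-/

set_option autoImplicit false

namespace SokalF1T

theorem i3a {u : ℝ} (h0 : 0 ≤ u) (hU : u ≤ 2) :
    17286 / 10000 * (Real.exp ((-1 / 2) * u) * ((-1 / 2) * Real.cos u + (86603 / 100000) * Real.sin u) - (-1 / 2) * u + (-3 / 4)) ≤
      19 / 40 * u ^ 2 := by
  have e := enc8 (a := -1 / 2) (c := -1 / 2) (s := 86603 / 100000) (by norm_num) h0 (by linarith) (by norm_num)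
  have hv : 0 ≤ 2 - u := by linarith
  have p : ∀ i j : ℕ, 0 ≤ u ^ i * (2 - u) ^ j := fun i j =>
    mul_nonneg (pow_nonneg h0 i) (pow_nonneg hv j)
  linarith [p 0 8, p 1 7, p 2 6, p 3 5, p 4 4, p 5 3, p 6 2, p 7 1, p 8 0]

theorem i3b {u : ℝ} (h0 : 0 ≤ u) (hU : u ≤ 2) :
    17286 / 10000 * (Real.exp ((-1 / 2) * u) * ((-1) * Real.cos u + (0) * Real.sin u) - (-1 / 2) * u + (-1 / 4)) ≤
      19 / 40 * u ^ 2 := by
  have e := enc8 (a := -1 / 2) (c := -1) (s := 0) (by norm_num) h0 (by linarith) (by norm_num)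
  have hv : 0 ≤ 2 - u := by linarith
  have p : ∀ i j : ℕ, 0 ≤ u ^ i * (2 - u) ^ j := fun i j =>
    mul_nonneg (pow_nonneg h0 i) (pow_nonneg hv j)
  linarith [p 0 8, p 1 7, p 2 6, p 3 5, p 4 4, p 5 3, p 6 2, p 7 1, p 8 0]

theorem i3c {u : ℝ} (h0 : 0 ≤ u) (hU : u ≤ 2) :
    17286 / 10000 * (Real.exp ((1 / 2) * u) * ((-1 / 2) * Real.cos u + (86603 / 100000) * Real.sin u) - (1 / 2) * u + (-3 / 4)) ≤
      19 / 40 * u ^ 2 := by
  have e := enc8 (a := 1 / 2) (c := -1 / 2) (s := 86603 / 100000) (by norm_num) h0 (by linarith) (by norm_num)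
  have hv : 0 ≤ 2 - u := by linarith
  have p : ∀ i j : ℕ, 0 ≤ u ^ i * (2 - u) ^ j := fun i j =>
    mul_nonneg (pow_nonneg h0 i) (pow_nonneg hv j)
  linarith [p 0 8, p 1 7, p 2 6, p 3 5, p 4 4, p 5 3, p 6 2, p 7 1, p 8 0]

theorem i3d {u : ℝ} (h0 : 0 ≤ u) (hU : u ≤ 2) :
    17286 / 10000 * (Real.exp ((1 / 2) * u) * ((-1) * Real.cos u + (0) * Real.sin u) - (1 / 2) * u + (-1 / 4)) ≤
      19 / 40 * u ^ 2 := by
  have e := enc8 (a := 1 / 2) (c := -1) (s := 0) (by norm_num) h0 (by linarith) (by norm_num)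
  have hv : 0 ≤ 2 - u := by linarith
  have p : ∀ i j : ℕ, 0 ≤ u ^ i * (2 - u) ^ j := fun i j =>
    mul_nonneg (pow_nonneg h0 i) (pow_nonneg hv j)
  linarith [p 0 8, p 1 7, p 2 6, p 3 5, p 4 4, p 5 3, p 6 2, p 7 1, p 8 0]

theorem i3e {u : ℝ} (h0 : 0 ≤ u) (hU : u ≤ 2) :
    17286 / 10000 * (Real.exp ((-1 / 2) * u) * ((-9959 / 10000) * Real.cos u + (9 / 100) * Real.sin u) - (-1 / 2) * u + (1 / 4 - 4224 / 10000)) ≤
      19 / 40 * u ^ 2 := by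
  have e := enc8 (a := -1 / 2) (c := -9959 / 10000) (s := 9 / 100) (by norm_num) h0 (by linarith) (by norm_num)
  rcases le_total u (1) with hm | hm
  · have hv : 0 ≤ 1 - u := by linarith
    have p : ∀ i j : ℕ, 0 ≤ u ^ i * (1 - u) ^ j := fun i j =>
      mul_nonneg (pow_nonneg h0 i) (pow_nonneg hv j)
    linarith [p 0 8, p 1 7, p 2 6, p 3 5, p 4 4, p 5 3, p 6 2, p 7 1, p 8 0]
  · have hv : 0 ≤ 2 - u := by linarith
    have hw : 0 ≤ u - 1 := by linarith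
    have p : ∀ i j : ℕ, 0 ≤ (u - 1) ^ i * (2 - u) ^ j := fun i j =>
      mul_nonneg (pow_nonneg hw i) (pow_nonneg hv j)
    linarith [p 0 8, p 1 7, p 2 6, p 3 5, p 4 4, p 5 3, p 6 2, p 7 1, p 8 0]

theorem i3f {u : ℝ} (h0 : 0 ≤ u) (hU : u ≤ 2) :
    17286 / 10000 * (Real.exp ((1 / 2) * u) * ((-9959 / 10000) * Real.cos u + (9 / 100) * Real.sin u) - (1 / 2) * u + (1 / 4 - 42 / 100)) ≤
      19 / 40 * u ^ 2 := by
  have e := enc8 (a := 1 / 2) (c := -9959 / 10000) (s := 9 / 100) (by norm_num) h0 (by linarith) (by norm_num)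
  have hv : 0 ≤ 2 - u := by linarith
  have p : ∀ i j : ℕ, 0 ≤ u ^ i * (2 - u) ^ j := fun i j =>
    mul_nonneg (pow_nonneg h0 i) (pow_nonneg hv j)
  linarith [p 0 8, p 1 7, p 2 6, p 3 5, p 4 4, p 5 3, p 6 2, p 7 1, p 8 0]

theorem i3s {u : ℝ} (h0 : 0 ≤ u) (hU : u ≤ 2) :
    3 / 4 * (Real.exp ((-1 / 2) * u) * ((-1 / 2) * Real.cos u + (86603 / 100000) * Real.sin u) - (-1 / 2) * u + (-1 / 5)) ≤
      19 / 40 * u ^ 2 := by
  have e := enc8 (a := -1 / 2) (c := -1 / 2) (s := 86603 / 100000) (by norm_num) h0 (by linarith) (by norm_num)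
  rcases le_total u (1) with hm | hm
  · have hv : 0 ≤ 1 - u := by linarith
    have p : ∀ i j : ℕ, 0 ≤ u ^ i * (1 - u) ^ j := fun i j =>
      mul_nonneg (pow_nonneg h0 i) (pow_nonneg hv j)
    linarith [p 0 12, p 1 11, p 2 10, p 3 9, p 4 8, p 5 7, p 6 6, p 7 5, p 8 4, p 9 3, p 10 2, p 11 1, p 12 0]
  · have hv : 0 ≤ 2 - u := by linarith
    have hw : 0 ≤ u - 1 := by linarith
    have p : ∀ i j : ℕ, 0 ≤ (u - 1) ^ i * (2 - u) ^ j := fun i j =>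
      mul_nonneg (pow_nonneg hw i) (pow_nonneg hv j)
    linarith [p 0 12, p 1 11, p 2 10, p 3 9, p 4 8, p 5 7, p 6 6, p 7 5, p 8 4, p 9 3, p 10 2, p 11 1, p 12 0]

theorem i3t {u : ℝ} (h0 : 0 ≤ u) (hU : u ≤ 2) :
    3 / 4 * (Real.exp ((1 / 2) * u) * ((-1 / 2) * Real.cos u + (86603 / 100000) * Real.sin u) - (1 / 2) * u + (-1 / 5)) ≤
      19 / 40 * u ^ 2 := by
  have e := enc8 (a := 1 / 2) (c := -1 / 2) (s := 86603 / 100000) (by norm_num) h0 (by linarith) (by norm_num)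
  have hv : 0 ≤ 2 - u := by linarith
  have p : ∀ i j : ℕ, 0 ≤ u ^ i * (2 - u) ^ j := fun i j =>
    mul_nonneg (pow_nonneg h0 i) (pow_nonneg hv j)
  linarith [p 0 8, p 1 7, p 2 6, p 3 5, p 4 4, p 5 3, p 6 2, p 7 1, p 8 0]

theorem i4a {u : ℝ} (h0 : 0 ≤ u) (hU : u ≤ 1571 / 1000) :
    1115 / 1000 * (Real.exp ((-1 / 2) * u) * ((0) * Real.cos u + (1) * Real.sin u) - (-1 / 2) * u + (-69 / 100)) ≤
      19 / 40 * u ^ 2 := by
  have e := enc8 (a := -1 / 2) (c := 0) (s := 1) (by norm_num) h0 (by linarith) (by norm_num)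
  have hv : 0 ≤ 1571 / 1000 - u := by linarith
  have p : ∀ i j : ℕ, 0 ≤ u ^ i * (1571 / 1000 - u) ^ j := fun i j =>
    mul_nonneg (pow_nonneg h0 i) (pow_nonneg hv j)
  linarith [p 0 8, p 1 7, p 2 6, p 3 5, p 4 4, p 5 3, p 6 2, p 7 1, p 8 0]

theorem i4b {u : ℝ} (h0 : 0 ≤ u) (hU : u ≤ 1571 / 1000) :
    1115 / 1000 * (Real.exp ((-1 / 2) * u) * ((-7071 / 10000) * Real.cos u + (70711 / 100000) * Real.sin u) - (-1 / 2) * u + (31 / 100 - 7071 / 10000)) ≤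
      19 / 40 * u ^ 2 := by
  have e := enc8 (a := -1 / 2) (c := -7071 / 10000) (s := 70711 / 100000) (by norm_num) h0 (by linarith) (by norm_num)
  have hv : 0 ≤ 1571 / 1000 - u := by linarith
  have p : ∀ i j : ℕ, 0 ≤ u ^ i * (1571 / 1000 - u) ^ j := fun i j =>
    mul_nonneg (pow_nonneg h0 i) (pow_nonneg hv j)
  linarith [p 0 8, p 1 7, p 2 6, p 3 5, p 4 4, p 5 3, p 6 2, p 7 1, p 8 0]

theorem i4c {u : ℝ} (h0 : 0 ≤ u) (hU : u ≤ 1571 / 1000) :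
    1115 / 1000 * (Real.exp ((1 / 2) * u) * ((0) * Real.cos u + (1) * Real.sin u) - (1 / 2) * u + (-69 / 100)) ≤
      19 / 40 * u ^ 2 := by
  have e := enc8 (a := 1 / 2) (c := 0) (s := 1) (by norm_num) h0 (by linarith) (by norm_num)
  have hv : 0 ≤ 1571 / 1000 - u := by linarith
  have p : ∀ i j : ℕ, 0 ≤ u ^ i * (1571 / 1000 - u) ^ j := fun i j =>
    mul_nonneg (pow_nonneg h0 i) (pow_nonneg hv j)
  linarith [p 0 8, p 1 7, p 2 6, p 3 5, p 4 4, p 5 3, p 6 2, p 7 1, p 8 0]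

theorem i4d {u : ℝ} (h0 : 0 ≤ u) (hU : u ≤ 1571 / 1000) :
    1115 / 1000 * (Real.exp ((1 / 2) * u) * ((-7071 / 10000) * Real.cos u + (70711 / 100000) * Real.sin u) - (1 / 2) * u + (31 / 100 - 7071 / 10000)) ≤
      19 / 40 * u ^ 2 := by
  have e := enc8 (a := 1 / 2) (c := -7071 / 10000) (s := 70711 / 100000) (by norm_num) h0 (by linarith) (by norm_num)
  have hv : 0 ≤ 1571 / 1000 - u := by linarith
  have p : ∀ i j : ℕ, 0 ≤ u ^ i * (1571 / 1000 - u) ^ j := fun i j =>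
    mul_nonneg (pow_nonneg h0 i) (pow_nonneg hv j)
  linarith [p 0 8, p 1 7, p 2 6, p 3 5, p 4 4, p 5 3, p 6 2, p 7 1, p 8 0]

theorem i5a {u : ℝ} (h0 : 0 ≤ u) (hU : u ≤ 12567 / 10000) :
    66 / 100 * (Real.exp ((-1 / 2) * u) * ((30902 / 100000) * Real.cos u + (95106 / 100000) * Real.sin u) - (-1 / 2) * u + (-72 / 100)) ≤
      19 / 40 * u ^ 2 := by
  have e := enc8 (a := -1 / 2) (c := 30902 / 100000) (s := 95106 / 100000) (by norm_num) h0 (by linarith) (by norm_num)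
  have hv : 0 ≤ 12567 / 10000 - u := by linarith
  have p : ∀ i j : ℕ, 0 ≤ u ^ i * (12567 / 10000 - u) ^ j := fun i j =>
    mul_nonneg (pow_nonneg h0 i) (pow_nonneg hv j)
  linarith [p 0 8, p 1 7, p 2 6, p 3 5, p 4 4, p 5 3, p 6 2, p 7 1, p 8 0]

theorem i5b {u : ℝ} (h0 : 0 ≤ u) (hU : u ≤ 12567 / 10000) :
    66 / 100 * (Real.exp ((-1 / 2) * u) * ((-30901 / 100000) * Real.cos u + (95106 / 100000) * Real.sin u) - (-1 / 2) * u + (28 / 100 - 80901 / 100000)) ≤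
      19 / 40 * u ^ 2 := by
  have e := enc8 (a := -1 / 2) (c := -30901 / 100000) (s := 95106 / 100000) (by norm_num) h0 (by linarith) (by norm_num)
  have hv : 0 ≤ 12567 / 10000 - u := by linarith
  have p : ∀ i j : ℕ, 0 ≤ u ^ i * (12567 / 10000 - u) ^ j := fun i j =>
    mul_nonneg (pow_nonneg h0 i) (pow_nonneg hv j)
  linarith [p 0 8, p 1 7, p 2 6, p 3 5, p 4 4, p 5 3, p 6 2, p 7 1, p 8 0]

theorem i5c {u : ℝ} (h0 : 0 ≤ u) (hU : u ≤ 12567 / 10000) :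
    66 / 100 * (Real.exp ((1 / 2) * u) * ((30902 / 100000) * Real.cos u + (95106 / 100000) * Real.sin u) - (1 / 2) * u + (-72 / 100)) ≤
      19 / 40 * u ^ 2 := by
  have e := enc8 (a := 1 / 2) (c := 30902 / 100000) (s := 95106 / 100000) (by norm_num) h0 (by linarith) (by norm_num)
  have hv : 0 ≤ 12567 / 10000 - u := by linarith
  have p : ∀ i j : ℕ, 0 ≤ u ^ i * (12567 / 10000 - u) ^ j := fun i j =>
    mul_nonneg (pow_nonneg h0 i) (pow_nonneg hv j)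
  linarith [p 0 8, p 1 7, p 2 6, p 3 5, p 4 4, p 5 3, p 6 2, p 7 1, p 8 0]

theorem i5d {u : ℝ} (h0 : 0 ≤ u) (hU : u ≤ 12567 / 10000) :
    66 / 100 * (Real.exp ((1 / 2) * u) * ((-30901 / 100000) * Real.cos u + (95106 / 100000) * Real.sin u) - (1 / 2) * u + (28 / 100 - 80901 / 100000)) ≤
      19 / 40 * u ^ 2 := by
  have e := enc8 (a := 1 / 2) (c := -30901 / 100000) (s := 95106 / 100000) (by norm_num) h0 (by linarith) (by norm_num)
  have hv : 0 ≤ 12567 / 10000 - u := by linarith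
  have p : ∀ i j : ℕ, 0 ≤ u ^ i * (12567 / 10000 - u) ^ j := fun i j =>
    mul_nonneg (pow_nonneg h0 i) (pow_nonneg hv j)
  linarith [p 0 8, p 1 7, p 2 6, p 3 5, p 4 4, p 5 3, p 6 2, p 7 1, p 8 0]

end SokalF1T
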