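import Pool.Agent.Lib_MP_af4de1_f1.TG1
import Pool.Agent.Lib_MP_af4de1_f1.TG2
import Pool.Agent.Lib_MP_af4de1_f1.TG3
import Pool.Agent.Lib_MP_af4de1_f1.TG4
import Pool.Agent.Lib_MP_af4de1_f1.TG5
import Pool.Agent.Lib_MP_af4de1_f1.TG6
import Pool.Agent.Lib_MP_af4de1_f1.TG7
import Pool.Agent.Lib_MP_af4de1_f1.TG8
import Pool.Agent.Lib_MP_af4de1_f1.TG9
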