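import Pool.Agent.Lib_MP_af4de1_f1.TopDefs

/-!
# [FT-DD*], [FT-GAP*] The domain `DD`, its boundary, and the gap facts

`ph ρ y = x(1+y)/ρ = cos ψ (1+y) e^(-y)`, `x = sx ρ y`, `ψ = sP ρ y`, `D² = sD2 ρ y = (1+y)² + x²`.
All statements are about the explicit curve `y ↦ (sE ρ y, ph ρ y)` of `Sad.lean`
(`dη/dy = D²/x > 0`, `d(x(1+y))/dy = -y D²/x`).

TRIAL VALUES (`ph_trial`): `ph` is the maximum over `c > 0` of `c (1 - log c + log cos (η - ρ(1-c)))`, which is strictly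
concave in `c`; every trial `c` gives a LOWER bound.

BOUNDARY (`Bd`): `b ≤ 0`, `ph = 11/25`: with `t = -b ∈ [0, 7/10]`: `cos β = .44 e^(-t)/(1-t)`, `ρ = t e^(-t)/sin β`,
`x = .44 ρ/(1-t)`, `|η| = β + x - ρ`; `b = -7/10`: `sin β = (7/10) e^(-7/10)/ρ`, `x = ρ cos β e^(7/10)`, `|η| = β + x - ρ`,
`.507 ≤ ρ ≤ 1.96`.  `b ≥ 0`, `ph = 11/25`: `cos ψ = .44 e^b/(1+b)`, `ρ = b e^b/sin ψ`, `x = .44 ρ/(1+b)`,
`η = ψ + ρ - x`, `ρ ≤ 1.43`.  All facts below are inequalities in ONE variable along these curves.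
-/

set_option autoImplicit false

namespace SokalF1T

open SokalF1S

/-- inner boundary points -/
def Bd (ρ b : ℝ) : Prop := DD ρ b ∧ (b = -(7 / 10) ∨ ph ρ b = 11 / 25)

/-- loss between `H = (ρ,y)` and the base `(ρ,b)` at `r = 499/10` -/
noncomputable def GapC (ρ y b : ℝ) : ℝ :=
  max 1 (Real.exp (y - b)) * (√(√(sD2 ρ y)) / √(√(sD2 ρ b))) *
    Real.exp (-(499 / 10) * (ph ρ y - ph ρ b))

end SokalF1T
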