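import Pool.Agent.Lib_MP_af4de1_f1.TG2
import Pool.Agent.Lib_MP_af4de1_f1.GTay
import Pool.Agent.Lib_MP_af4de1_f1.TopFarH

/-!
# Lower bounds of the level `ph` of the top wave, from trial values
-/

set_option autoImplicit false

namespace SokalF1T

open Real SokalF1S

theorem DD.strict {ρ y : ℝ} (h : DD ρ y) : |y| * exp y < ρ := by
  refine lt_of_le_of_ne h.dom.2 fun he => ?_
  have hρ := h.dom.1
  have h1 : sx ρ y = 0 := by
    have h2 := sx_sq h.dom
    have h3 : ρ * exp (-y) = |y| := by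
      rw [← he, mul_assoc, ← exp_add]; simp
    rw [h3, sq_abs, sub_self] at h2
    exact pow_eq_zero_iff (two_ne_zero) |>.1 h2
  have h4 := h.phi
  unfold ph at h4
  rw [h1] at h4
  norm_num at h4

theorem DD.gt_neg_one {ρ y : ℝ} (h : DD ρ y) : -1 < y := by
  have := h.y0
  linarith

/-- trial value `c = 1` -/
theorem ph_one {ρ y : ℝ} (h : DD ρ y) (hη : |sE ρ y| < π / 2) : 1 + log (cos (sE ρ y)) ≤ ph ρ y := by
  have := ph_trial (c := 1) h.dom h.strict h.gt_neg_one one_pos (by simpa using hη)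
  simpa using this

theorem one_add_log_ge {z D : ℝ} (hD : 0 < D) (hz1 : z ≤ 1) (hz0 : 0 < z) (hz : (1 + D - z) ^ 2 ≤ 2 * D) :
    z - D ≤ 1 + log z := by
  have h1 : z - D - 1 ≤ log z := by
    rw [le_log_iff_exp_le hz0]
    have h2 : exp (-(1 + D - z)) * exp (1 + D - z) = 1 := by rw [← exp_add]; simp
    have h3 : 1 + (1 + D - z) + (1 + D - z) ^ 2 / 2 ≤ exp (1 + D - z) :=
      quadratic_le_exp_of_nonneg (by linarith)
    set x := 1 + D - z with hx
    have hx0 : 0 < x := by linarith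
    have h4 : exp (-x) ≤ 1 - x + x ^ 2 / 2 := by
      have h5 := exp_pos (-x)
      have h6 : exp (-x) * (1 + x + x ^ 2 / 2) ≤ 1 := by
        calc exp (-x) * (1 + x + x ^ 2 / 2) ≤ exp (-x) * exp x := by gcongr
          _ = 1 := h2
      have h7 : 1 ≤ (1 - x + x ^ 2 / 2) * (1 + x + x ^ 2 / 2) := by nlinarith [sq_nonneg (x ^ 2)]
      have h8 : 0 < 1 + x + x ^ 2 / 2 := by positivity
      exact le_of_mul_le_mul_right (h6.trans h7) h8
    rw [show z - D - 1 = -x by rw [hx]; ring]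
    linarith
  linarith

/-- `N = 4` -/
theorem lev4 {ρ y : ℝ} (h : DD ρ y) (hη : |sE ρ y| ≤ π / 4) : cos |sE ρ y| - 7 / 100 ≤ ph ρ y := by
  have h1 := cos_ge_quarter (abs_nonneg _) hη
  have h2 := ph_one h (by linarith [pi_pos])
  rw [← cos_abs] at h2
  have h3 := one_add_log_ge (z := cos |sE ρ y|) (D := 7 / 100) (by norm_num) (cos_le_one _) (by linarith)
    (by nlinarith [cos_le_one |sE ρ y|])
  linarith

/-- `N = 5` -/
theorem lev5 {ρ y : ℝ} (h : DD ρ y) (hη : |sE ρ y| ≤ π / 5) : cos |sE ρ y| - 4 / 100 ≤ ph ρ y := by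
  have h1 := cos_ge_fifth (abs_nonneg _) hη
  have h2 := ph_one h (by linarith [pi_pos])
  rw [← cos_abs] at h2
  have h3 := one_add_log_ge (z := cos |sE ρ y|) (D := 4 / 100) (by norm_num) (cos_le_one _) (by linarith)
    (by nlinarith [cos_le_one |sE ρ y|])
  linarith

theorem lev3_poly {t : ℝ} (h0 : 0 ≤ t) (h1 : t ≤ 1135 / 1000) :
    (1 + 2 * t / 3) ^ 4 ≤ (1 - t ^ 2 / 8) * ((1 + 2 * t / 3) ^ 3 +
      (2 * t / 3 + t ^ 2 / 2 - t ^ 4 / 24) * (1 + 2 * t / 3) ^ 2 +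
      (2 * t / 3 + t ^ 2 / 2 - t ^ 4 / 24) ^ 2 * (1 + 2 * t / 3) / 2 +
      (2 * t / 3 + t ^ 2 / 2 - t ^ 4 / 24) ^ 3 / 6) := by
  have hv : 0 ≤ 1135 / 1000 - t := by linarith
  have p : ∀ i j : ℕ, 0 ≤ t ^ 2 * (t ^ i * (1135 / 1000 - t) ^ j) := fun i j =>
    mul_nonneg (sq_nonneg t) (mul_nonneg (pow_nonneg h0 i) (pow_nonneg hv j))
  linarith [p 0 12, p 1 11, p 2 10, p 3 9, p 4 8, p 5 7, p 6 6, p 7 5, p 8 4, p 9 3, p 10 2, p 11 1, p 12 0]

/-- `N = 3`, `ρ ≥ 3/4` -/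
theorem lev3 {ρ y : ℝ} (h : DD ρ y) (hρ : 3 / 4 ≤ ρ) (hρ1 : ρ ≤ 2) (hη : |sE ρ y| ≤ 1135 / 1000) :
    cos |sE ρ y| ≤ ph ρ y := by
  have hpi := pi_gt_d2
  rcases le_total 0 (sE ρ y) with hs | hs
  · -- left side, `c = cos η`
    rw [abs_of_nonneg hs] at hη ⊢
    set η := sE ρ y with hηd
    have hc0 : 0 < cos η := cos_pos_of_mem_Ioo ⟨by linarith, by linarith⟩
    have h1 : 1 - cos η ≤ η ^ 2 / 2 := by linarith [one_sub_sq_div_two_le_cos (x := η)]
    have h1' : 0 ≤ 1 - cos η := by linarith [cos_le_one η]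
    have h2 : ρ * (1 - cos η) ≤ 2 * η := by
      calc ρ * (1 - cos η) ≤ 2 * (η ^ 2 / 2) := by gcongr
        _ ≤ 2 * η := by nlinarith
    have h3 : |η - ρ * (1 - cos η)| ≤ η := by
      rw [abs_le]
      constructor
      · linarith
      · have : 0 ≤ ρ * (1 - cos η) := mul_nonneg (by linarith) h1'
        linarith
    have h4 := ph_trial (c := cos η) h.dom h.strict h.gt_neg_one hc0 (by rw [← hηd]; linarith)
    rw [← hηd] at h4
    have h5 : cos η ≤ cos (η - ρ * (1 - cos η)) := by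
      rw [← cos_abs (η - ρ * (1 - cos η))]
      exact cos_le_cos_of_nonneg_of_le_pi (abs_nonneg _) (by linarith) h3
    have h6 : log (cos η) ≤ log (cos (η - ρ * (1 - cos η))) := log_le_log hc0 h5
    nlinarith
  · -- right side, `c = 1 + 2 t/3`
    rw [abs_of_nonpos hs] at hη ⊢
    set η := sE ρ y with hηd
    set t := -η with ht
    have ht0 : 0 ≤ t := by linarith
    set c := 1 + 2 * t / 3 with hc
    have hc1 : 1 ≤ c := by rw [hc]; linarith
    have h3 : |η - ρ * (1 - c)| ≤ t / 2 := by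
      have e : η - ρ * (1 - c) = -t + ρ * (2 * t / 3) := by rw [hc, ht]; ring
      rw [e, abs_le]
      constructor
      · nlinarith
      · nlinarith
    have h4 := ph_trial (c := c) h.dom h.strict h.gt_neg_one (by linarith) (by rw [← hηd]; linarith)
    rw [← hηd] at h4
    have hq0 : 0 < 1 - t ^ 2 / 8 := by nlinarith
    have h5 : 1 - t ^ 2 / 8 ≤ cos (η - ρ * (1 - c)) := by
      rw [← cos_abs (η - ρ * (1 - c))]
      have h6 : cos (t / 2) ≤ cos |η - ρ * (1 - c)| :=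
        cos_le_cos_of_nonneg_of_le_pi (abs_nonneg _) (by linarith) h3
      have h7 := one_sub_sq_div_two_le_cos (x := t / 2)
      have h8 : 1 - (t / 2) ^ 2 / 2 = 1 - t ^ 2 / 8 := by ring
      linarith
    have h6 : log (1 - t ^ 2 / 8) ≤ log (cos (η - ρ * (1 - c))) := log_le_log hq0 h5
    set w := 2 * t / 3 + t ^ 2 / 2 - t ^ 4 / 24 with hw
    have hw0 : 0 ≤ w := by
      have ht2 : t ^ 2 ≤ 2 := by nlinarith
      have : t ^ 4 ≤ 2 * t ^ 2 := by nlinarith [mul_nonneg (sq_nonneg t) (sub_nonneg.2 ht2)]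
      nlinarith [sq_nonneg t]
    have hcos : cos t ≤ 1 - t ^ 2 / 2 + t ^ 4 / 24 := by
      have := SokalF1G.cos_le4 ht0
      linarith
    have hcw : cos t ≤ c - w := by rw [hc, hw]; linarith
    set v := w / c with hv
    have hv0 : 0 ≤ v := by positivity
    have h7 : c ≤ (1 - t ^ 2 / 8) * exp v := by
      have h8 : 1 + v + v ^ 2 / 2 + v ^ 3 / 6 ≤ exp v := by
        have := Real.sum_le_exp_of_nonneg hv0 4
        simp [Finset.sum_range_succ, Nat.factorial] at this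
        linarith
      have h9 : c ^ 4 ≤ (1 - t ^ 2 / 8) * (c ^ 3 + w * c ^ 2 + w ^ 2 * c / 2 + w ^ 3 / 6) :=
        lev3_poly ht0 hη
      have hc3 : 0 < c ^ 3 := by positivity
      have h10 : c ^ 4 ≤ (1 - t ^ 2 / 8) * (1 + v + v ^ 2 / 2 + v ^ 3 / 6) * c ^ 3 := by
        refine h9.trans (le_of_eq ?_)
        rw [hv]
        field_simp
      have h11 : c * c ^ 3 ≤ (1 - t ^ 2 / 8) * (1 + v + v ^ 2 / 2 + v ^ 3 / 6) * c ^ 3 := by
        calc c * c ^ 3 = c ^ 4 := by ring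
          _ ≤ _ := h10
      exact (le_of_mul_le_mul_right h11 hc3).trans (mul_le_mul_of_nonneg_left h8 hq0.le)
    have h8 : log c ≤ log (1 - t ^ 2 / 8) + v := by
      have := log_le_log (by linarith) h7
      rwa [log_mul hq0.ne' (exp_pos _).ne', log_exp] at this
    have h9 : cos t ≤ c * (1 - v) := by
      have : c * (1 - v) = c - w := by rw [hv]; field_simp
      rw [this]; exact hcw
    have h10 : c * (1 - v) ≤ c * (1 - log c + log (cos (η - ρ * (1 - c)))) :=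
      mul_le_mul_of_nonneg_left (by linarith) (by linarith)
    linarith

end SokalF1T
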