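import Pool.Agent.Lib_MP_af4de1_f1.TopMonP
import Pool.Agent.Lib_MP_af4de1_f1.MainS2
import Pool.Agent.Lib_MP_af4de1_f1.MainS3

/-!
# The waves beyond the negative boundary point `b = -t` of `DD` (owner helper31)

`K = |K|`, `p = -sP`, `x = K cos p`, `t = K sin p`.  Height
`Ht = a s + x (1+a) + t s - e^a K cos (s-ε-p)`.
-/

set_option autoImplicit false

namespace SokalF1T

open Complex SokalU SokalF1 SokalF1S SokalF1M SokalF1G SokalF1B

/-- the facts at the negative boundary -/
structure NB (x t K p ρ : ℝ) : Prop where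
  x0 : 0 ≤ x
  t0 : 0 ≤ t
  t1 : t ≤ 7 / 10
  r0 : 0 < ρ
  r1 : ρ ≤ 173 / 100
  K0 : 0 < K
  hx : x = K * Real.cos p
  ht : t = K * Real.sin p
  C0 : 11 / 25 ≤ Real.cos p
  S0 : 1 / 5 ≤ Real.sin p
  p0 : 0 ≤ p
  p1 : p ≤ 28 / 25
  Kr : K = ρ * Real.exp t
  D2 : 17 / 50 ≤ (1 + -t) ^ 2 + x ^ 2
  br : (t = 7 / 10 ∧ 7 / 10 ≤ x ∧ ρ ≤ x ∧ 386 / 100 * ρ - 3617 / 1000 ≤ x ∧ 146 / 100 * ρ ≤ x) ∨
    (ρ ≤ 31 / 50 ∧ 3 / 5 ≤ Real.sin p ∧ x ≤ 91 / 100 ∧ ρ - x ≤ 87 / 250)

section

variable {x t K p ρ ε δ s w : ℝ}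

theorem NB.hx' (h : NB x t K p ρ) : x = K * Real.cos (-p) := by
  rw [Real.cos_neg]
  exact h.hx

theorem NB.ht' (h : NB x t K p ρ) : -t = K * Real.sin (-p) := by
  rw [Real.sin_neg, mul_neg, ← h.ht]

theorem NB.dom (h : NB x t K p ρ) : DomG x (-t) :=
  ⟨h.x0, by linarith [h.t1], by linarith [h.t0], h.D2⟩

theorem NB.p2 (h : NB x t K p ρ) : 1 / 5 ≤ p := h.S0.trans (Real.sin_le h.p0)

theorem NB.rx (h : NB x t K p ρ) : ρ - x ≤ 87 / 250 := by
  rcases h.br with h1 | h1
  · linarith [h1.2.2.1]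
  · exact h1.2.2.2

theorem NB.q (h : NB x t K p ρ) : 0 < Qf x (-t) := by
  have hx := h.x0
  have h2 : 1 / (1 + x) ≤ 1 := by
    rw [div_le_one (by linarith)]
    linarith
  have h3 : 0 ≤ 1 / (1 + x) := by positivity
  have h1 : (1 / (1 + x)) ^ 2 ≤ 1 := by nlinarith
  have h4 : 0 < (1 + -t) / (1 + x) := div_pos (by linarith [h.t1]) (by linarith)
  have h5 : 0 ≤ x * (1 - (1 / (1 + x)) ^ 2) / 2 := by
    have : 0 ≤ 1 - (1 / (1 + x)) ^ 2 := by linarith
    positivity
  unfold Qf
  linarith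

theorem NB.K2 (h : NB x t K p ρ) : x ^ 2 + t ^ 2 = K ^ 2 := by
  have := Real.sin_sq_add_cos_sq p
  calc x ^ 2 + t ^ 2 = (K * Real.cos p) ^ 2 + (K * Real.sin p) ^ 2 := by rw [← h.hx, ← h.ht]
    _ = K ^ 2 * (Real.sin p ^ 2 + Real.cos p ^ 2) := by ring
    _ = K ^ 2 := by rw [this, mul_one]

theorem NB.xK (h : NB x t K p ρ) : 11 / 25 * K ≤ x ∧ x ≤ K := by
  constructor
  · rw [h.hx]
    have := mul_le_mul_of_nonneg_left h.C0 h.K0.le
    linarith
  · rw [h.hx]
    exact mul_le_of_le_one_right h.K0.le (Real.cos_le_one _)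

/-- `K - x ≤ 5/8 t` -/
theorem NB.Kx (h : NB x t K p ρ) : K - x ≤ 5 / 8 * t := by
  obtain ⟨h1, h2⟩ := h.xK
  have h3 := h.K2
  apply le_of_sq_le_sq _ (by linarith [h.t0])
  nlinarith [h.K0]

theorem tm_e7 : Real.exp (7 / 10) ≤ 20138 / 10000 := by
  have h := Real.exp_bound' (x := 7 / 10) (by norm_num) (by norm_num) (n := 8) (by norm_num)
  refine h.trans ?_
  norm_num [Finset.sum_range_succ, Nat.factorial]

theorem tm_e7' : 20137 / 10000 ≤ Real.exp (7 / 10) := by
  have := Real.sum_le_exp_of_nonneg (x := 7 / 10) (by norm_num) 8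
  norm_num [Finset.sum_range_succ, Nat.factorial] at this
  linarith

theorem NB.Kle (h : NB x t K p ρ) : K ≤ 20138 / 10000 * ρ := by
  rw [h.Kr, mul_comm]
  exact mul_le_mul_of_nonneg_right ((Real.exp_le_exp.2 h.t1).trans tm_e7) h.r0.le

/-- right side, near -/
theorem NB.near (h : NB x t K p ρ) (hε : 0 ≤ ε) (hE : p + x - ρ + ε ≤ 2 * Real.pi / 3)
    (h0 : 0 ≤ s) (h1 : s ≤ p) : 19 / 50 * Qf x (-t) * s ^ 2 ≤ Ht x (-t) (-ε) (ga x s) s := by
  have hpi := Real.pi_gt_d4
  have hc : Real.cos (s + -ε + -p) ≤ Real.cos (s + -p) := by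
    rw [← Real.cos_neg (s + -ε + -p), ← Real.cos_neg (s + -p)]
    refine tm_cos_far (by linarith) (by linarith) ?_
    have := h.rx
    have := h.p1
    linarith
  refine le_trans ?_ (tm_compare h.K0.le h.hx' h.ht' hc)
  have hq := h.q
  have hy : -t ≤ 0 := by linarith [h.t0]
  rcases le_total s 1 with h2 | h2
  · refine le_trans ?_ (G1_neg h.dom hy h0 h2)
    have h3 : 19 / 50 ≤ 1 - s / 4 := by linarith
    gcongr
  · refine le_trans ?_ (G2 h.dom h2 (by linarith [h.p1]))
    have := mul_nonneg hq.le (sq_nonneg s)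
    linarith

/-- left side, near -/
theorem NB.left_near (h : NB x t K p ρ) (hε : 0 ≤ ε) (h0 : 0 ≤ w) (h1 : w ≤ 3 / 2)
    (h2 : 2 * (w + p) + ε ≤ 2 * Real.pi) :
    19 / 50 * Qf x (-t) * (-w) ^ 2 ≤ Ht x (-t) (-ε) (ga x (-w)) (-w) := by
  have hc : Real.cos (-w + -ε + -p) ≤ Real.cos (-w + -p) := by
    rw [← Real.cos_neg (-w + -ε + -p), ← Real.cos_neg (-w + -p)]
    exact tm_cos_far (by linarith [h.p0]) (by linarith) (by linarith)
  refine le_trans ?_ (tm_compare h.K0.le h.hx' h.ht' hc)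
  have hq := h.q
  have hy : -t ≤ 0 := by linarith [h.t0]
  refine le_trans ?_ (G3_neg h.dom hy (s := -w) (by linarith) (by linarith))
  have h3 : 19 / 50 ≤ 1 + 14 / 25 * -w + (-w) ^ 2 / 10 := by nlinarith
  gcongr

theorem NB.left_un (h : NB x t K p ρ) (h1 : 111 / 100 ≤ w) (h4 : w ≤ 1 + x) :
    3 / 10 * w - 16 / 100 - Real.exp (ga x (-w)) * K * Real.cos (-w + -ε + -p) ≤
        Ht x (-t) (-ε) (ga x (-w)) (-w) := by
  obtain ⟨k1, k2, k3⟩ := c_facts h.x0
  obtain ⟨c, hc⟩ : ∃ c, c = 1 / (1 + x) := ⟨_, rfl⟩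
  rw [← hc] at k1 k2 k3
  have ht1 := h.t1
  have hx0 := h.x0
  have hcx : c * (1 + x) = 1 := by rw [hc]; field_simp
  have h2 : c * w ≤ 1 := by
    calc c * w ≤ c * (1 + x) := mul_le_mul_of_nonneg_left h4 k1.le
      _ = 1 := hcx
  rw [tm_Ht h.hx' h.ht', ga_mid hc (by linarith) (by nlinarith)]
  have h5 : c * (w + 42 / 100) ^ 2 + (1 + x) - 2 * (w + 42 / 100) =
      c * ((w + 42 / 100) - (1 + x)) ^ 2 := by
    linear_combination (2 * (w + 42 / 100) - (1 + x)) * hcx
  have h6 : 0 ≤ c * ((w + 42 / 100) - (1 + x)) ^ 2 := by positivity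
  have h7 : c * (w + 42 / 100) ^ 2 ≤ c * (w ^ 2 + w) := by
    apply mul_le_mul_of_nonneg_left _ k1.le
    nlinarith
  have h8 : x * (1 - c * w) = x - (1 - c) * w := by
    rw [← k3]
    ring
  have h9 : t * w ≤ 7 / 10 * w := mul_le_mul_of_nonneg_right ht1 (by linarith)
  have h10 : x * (1 + c * -w) = x - (1 - c) * w := by
    rw [← h8]
    ring
  rw [h10]
  nlinarith

theorem NB.left_cl (h : NB x t K p ρ) (h4 : 1 + x ≤ w) :
    3 / 10 * w - Real.exp (-1) * K * Real.cos (-w + -ε + -p) ≤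
        Ht x (-t) (-ε) (ga x (-w)) (-w) := by
  obtain ⟨k1, k2, k3⟩ := c_facts h.x0
  obtain ⟨c, hc⟩ : ∃ c, c = 1 / (1 + x) := ⟨_, rfl⟩
  rw [← hc] at k1 k2 k3
  have ht1 := h.t1
  have hx0 := h.x0
  have h2 : 1 ≤ c * w := by
    calc 1 = c * (1 + x) := by rw [hc]; field_simp
      _ ≤ c * w := mul_le_mul_of_nonneg_left h4 k1.le
  rw [tm_Ht h.hx' h.ht', ga_lo hc (by linarith)]
  have h9 : t * w ≤ 7 / 10 * w := mul_le_mul_of_nonneg_right ht1 (by linarith)
  linarith

/-- left side: the cosine is negative -/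
theorem NB.left_i (h : NB x t K p ρ) (h1 : 111 / 100 ≤ w) (hcos : Real.cos (-w + -ε + -p) ≤ 0) :
    w / 25 ≤ Ht x (-t) (-ε) (ga x (-w)) (-w) := by
  have hK := h.K0
  rcases le_total w (1 + x) with h2 | h2
  · have h3 : Real.exp (ga x (-w)) * K * Real.cos (-w + -ε + -p) ≤ 0 :=
      mul_nonpos_of_nonneg_of_nonpos (by positivity) hcos
    have := h.left_un (ε := ε) h1 h2
    linarith
  · have h3 : Real.exp (-1) * K * Real.cos (-w + -ε + -p) ≤ 0 :=
      mul_nonpos_of_nonneg_of_nonpos (by positivity) hcos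
    have := h.left_cl (ε := ε) h2
    linarith

/-- left side, far -/
theorem NB.left_far (h : NB x t K p ρ) (hε : 0 ≤ ε) (hE : p + x - ρ + ε ≤ 2 * Real.pi / 3)
    (h1 : 3 / 2 ≤ w) : w / 25 ≤ Ht x (-t) (-ε) (ga x (-w)) (-w) := by
  have hpi := Real.pi_gt_d4
  have hpi2 := Real.pi_lt_d4
  have hK := h.K0
  have hK1 := h.Kle
  have hx0 := h.x0
  have hr1 := h.r1
  have hr0 := h.r0
  have hp := h.p2
  have hcc : Real.cos (-w + -ε + -p) = Real.cos (w + ε + p) := by
    rw [← Real.cos_neg (-w + -ε + -p)]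
    congr 1
    ring
  rcases le_total (w + ε + p) (3 * Real.pi / 2) with h2 | h2
  · exact h.left_i (by linarith) (by rw [hcc]; exact tm_cos_neg (by linarith) h2)
  · obtain ⟨z, hz⟩ : ∃ z, z = w + ε + p - 3 * Real.pi / 2 := ⟨_, rfl⟩
    have hz0 : 0 ≤ z := by linarith
    have hcz := tm_cos_beyond hz hz0
    have hc1 := Real.cos_le_one (w + ε + p)
    have hs : 2617 / 1000 + x - ρ + z ≤ w := by linarith
    rcases h.br with ⟨b1, b2, b3, b4, b5⟩ | ⟨b1, b2, b3, b4⟩
    · rcases le_total w (1 + x) with h3 | h3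
      · -- not clamped
        have h4 := h.left_un (ε := ε) (by linarith) h3
        rw [hcc] at h4
        have hz1 : z ≤ 113 / 1000 := by linarith
        have hg : Real.exp (ga x (-w)) ≤ 1 := by
          rw [Real.exp_le_one_iff]
          have h5 := max_ga_nonpos hx0 (by linarith : -w ≤ 0)
          exact (le_max_left _ _).trans h5.le
        have hK2 : K ≤ 3484 / 1000 := hK1.trans (by linarith)
        have h5 : Real.exp (ga x (-w)) * K * Real.cos (w + ε + p) ≤ 394 / 1000 := by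
          rcases le_total (Real.cos (w + ε + p)) 0 with h6 | h6
          · exact (mul_nonpos_of_nonneg_of_nonpos (by positivity) h6).trans (by norm_num)
          · calc Real.exp (ga x (-w)) * K * Real.cos (w + ε + p) ≤ 1 * (3484 / 1000) * (113 / 1000) := by
                  gcongr
                  exact hcz.trans hz1
              _ ≤ 394 / 1000 := by norm_num
        linarith
      · -- clamped
        have h4 := h.left_cl (ε := ε) h3
        rw [hcc] at h4
        have hEK : Real.exp (-1) * K ≤ 7411 / 10000 * ρ := by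
          have e1 := em1_hi
          have e2 : Real.exp (-1) * K ≤ 3679 / 10000 * (20138 / 10000 * ρ) := by gcongr
          linarith
        have hEK0 : 0 < Real.exp (-1) * K := by positivity
        have hend : 0 ≤ 13 / 50 * (3617 / 1000 + x - ρ) - 7411 / 10000 * ρ := by linarith
        rcases le_total z 1 with hz1 | hz1
        · have h5 : Real.exp (-1) * K * Real.cos (w + ε + p) ≤ Real.exp (-1) * K * z :=
            mul_le_mul_of_nonneg_left hcz hEK0.le
          have h6 : Real.exp (-1) * K * z ≤ 7411 / 10000 * ρ * z := mul_le_mul_of_nonneg_right hEK hz0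
          have h7 := mul_nonneg hz0 hend
          have h8 : 0 ≤ (1 - z) * (13 / 50 * (2617 / 1000 + x - ρ)) :=
            mul_nonneg (by linarith) (by linarith)
          linarith
        · have h5 : Real.exp (-1) * K * Real.cos (w + ε + p) ≤ Real.exp (-1) * K * 1 :=
            mul_le_mul_of_nonneg_left hc1 hEK0.le
          linarith
    · -- small `ρ`
      have h3 : 1 + x ≤ w := by linarith
      have h4 := h.left_cl (ε := ε) h3
      rw [hcc] at h4
      have h5 : Real.exp (-1) * K * Real.cos (w + ε + p) ≤ 46 / 100 := by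
        have e1 := em1_hi
        have hK2 : K ≤ 1249 / 1000 := hK1.trans (by linarith)
        calc Real.exp (-1) * K * Real.cos (w + ε + p) ≤ Real.exp (-1) * K * 1 :=
              mul_le_mul_of_nonneg_left hc1 (by positivity)
          _ ≤ 3679 / 10000 * (1249 / 1000) * 1 := by gcongr
          _ ≤ 46 / 100 := by norm_num
      linarith

theorem tm_fin {c t : ℝ} (hc5 : 1 / 2 ≤ c) (ht1 : t ≤ 7 / 10) :
    3 / 50 ≤ 3 / 5 * c * (280 / 1000 + 404 / 1000 * c) + t * (611 / 2000 - 5 / 8 * c) := by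
  have h6 : 611 / 2000 - 5 / 8 * c ≤ 0 := by linarith
  have h7 : 7 / 10 * (611 / 2000 - 5 / 8 * c) ≤ t * (611 / 2000 - 5 / 8 * c) :=
    mul_le_mul_of_nonpos_right ht1 h6
  nlinarith [sq_nonneg (c - 554 / 1000)]

/-- right side, far -/
theorem NB.far (h : NB x t K p ρ) (hδ : 0 < δ) (hδ1 : δ ≤ ρ / (499 / 10)) (h1 : p ≤ s) :
    s / 25 + δ * max (ga x s) 0 ≤ Ht x (-t) (-ε) (ga x s) s := by
  obtain ⟨k1, k2, k3⟩ := c_facts h.x0
  obtain ⟨c, hc⟩ : ∃ c, c = 1 / (1 + x) := ⟨_, rfl⟩
  have hcc : (1 + x)⁻¹ = c := by rw [hc, one_div]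
  rw [← hc] at k1 k2 k3
  have hK := h.K0
  have hK1 := h.Kle
  have hx0 := h.x0
  have hr1 := h.r1
  have hr0 := h.r0
  have ht0 := h.t0
  have ht1 := h.t1
  have hp := h.p2
  have hs0 : 0 < s := by linarith
  have hu := h.Kx
  obtain ⟨hx1, hx2⟩ := h.xK
  have hK2 := h.K2
  have hcx : c * (1 + x) = 1 := by rw [hc]; field_simp
  have hcos := Real.cos_le_one (s + -ε + -p)
  -- the weight
  have hxr : 11 / 25 * ρ ≤ x := by
    have h2 : 1 ≤ Real.exp t := Real.one_le_exp ht0
    have h3 : ρ ≤ K := by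
      rw [h.Kr]
      nlinarith
    linarith
  have hδc : δ * c ≤ 1 / 50 := by
    have h2 : ρ * c ≤ 499 / 500 := by
      have h3 : ρ ≤ 499 / 500 * (1 + x) := by
        rcases h.br with ⟨b1, b2, b3, b4, b5⟩ | ⟨b1, b2, b3, b4⟩ <;> linarith
      calc ρ * c ≤ 499 / 500 * (1 + x) * c := mul_le_mul_of_nonneg_right h3 k1.le
        _ = 499 / 500 := by rw [mul_assoc, mul_comm (1 + x) c, hcx, mul_one]
    have h4 := mul_le_mul_of_nonneg_right hδ1 k1.le
    have h5 : ρ / (499 / 10) * c = ρ * c / (499 / 10) := by ring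
    linarith
  have hm : δ * max (ga x s) 0 ≤ s / 50 := by
    have h2 := max_ga_nonneg hx0 hs0.le
    rw [hcc] at h2
    have h3 := mul_le_mul_of_nonneg_left h2 hδ.le
    have h4 := mul_le_mul_of_nonneg_right hδc hs0.le
    linarith
  suffices hmain : 3 / 50 * s ≤ Ht x (-t) (-ε) (ga x s) s by linarith
  rw [tm_Ht h.hx' h.ht']
  rcases le_total (c * s) 1 with h2 | h2
  · -- not clamped
    have hcs0 : 0 < c * s := by positivity
    rw [ga_mid hc (by linarith) h2]
    have hE : Real.exp (c * s) ≤ 1 + c * s + 7200 / 10000 * (c * s) ^ 2 := by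
      have h3 := e_le3 hcs0.le h2
      have h4 := mul_nonneg (sq_nonneg (c * s)) (sub_nonneg.2 h2)
      have h5 := mul_nonneg (mul_nonneg (sq_nonneg (c * s)) hcs0.le) (sub_nonneg.2 h2)
      have h6 := sq_nonneg (c * s)
      have e1 : (c * s) ^ 3 = (c * s) ^ 2 * (c * s) := by ring
      have e2 : (c * s) ^ 4 = (c * s) ^ 2 * (c * s) * (c * s) := by ring
      rw [e1, e2] at h3
      linarith
    have hEc : Real.exp (c * s) * K * Real.cos (s + -ε + -p) ≤
        (1 + c * s + 7200 / 10000 * (c * s) ^ 2) * K := by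
      calc Real.exp (c * s) * K * Real.cos (s + -ε + -p) ≤ Real.exp (c * s) * K * 1 :=
            mul_le_mul_of_nonneg_left hcos (by positivity)
        _ ≤ _ := by
          rw [mul_one]
          exact mul_le_mul_of_nonneg_right hE hK.le
    -- `u = K - x`
    obtain ⟨u, hud⟩ : ∃ u, u = K - x := ⟨_, rfl⟩
    have hu0 : 0 ≤ u := by linarith
    have hKu : K = x + u := by linarith
    have hu2 : u * (K + x) = t ^ 2 := by
      rw [hud]
      linarith
    -- `t ≤ K s`
    have htK : t ≤ K * s := by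
      calc t = K * Real.sin p := h.ht
        _ ≤ K * p := mul_le_mul_of_nonneg_left (Real.sin_le h.p0) hK.le
        _ ≤ K * s := mul_le_mul_of_nonneg_left h1 hK.le
    have hKx0 : 0 < K + x := by linarith
    -- the linear part
    have hlin : s * (t * (x - c * t)) ≤ (t * s - u * (1 + c * s)) * (K + x) := by
      have h3 : t * t ≤ t * (K * s) := mul_le_mul_of_nonneg_left htK ht0
      have h4 : (t * s - u * (1 + c * s)) * (K + x) =
          t * s * (K + x) - (1 + c * s) * (u * (K + x)) := by ring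
      rw [h4, hu2]
      linarith
    have hquad : c * s ^ 2 * (1 - 7200 / 10000 * (c * K)) + (t * s - u * (1 + c * s)) ≤
        c * s * s + x * (1 + c * s) + t * s - (1 + c * s + 7200 / 10000 * (c * s) ^ 2) * K := by
      apply le_of_eq
      rw [hud]
      ring
    have hcK : c * K = 1 - c + c * u := by
      rw [hKu]
      linarith
    rcases h.br with ⟨b1, b2, b3, b4, b5⟩ | ⟨b1, b2, b3, b4⟩
    · -- `t = 7/10`
      have hA : 0 ≤ c * s ^ 2 * (1 - 7200 / 10000 * (c * K)) := by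
        apply mul_nonneg (by positivity)
        rw [hcK]
        nlinarith
      have hc1 : c * t ≤ 7 / 17 := by
        have h3 : c ≤ 10 / 17 := by
          rw [hc, div_le_iff₀ (by linarith)]
          linarith
        calc c * t ≤ 10 / 17 * (7 / 10) := by gcongr
          _ = 7 / 17 := by norm_num
      have h5 : 3 / 50 * (K + x) ≤ t * (x - c * t) := by
        rw [b1] at hc1 hu ⊢
        linarith
      have h6 : 3 / 50 * s ≤ t * s - u * (1 + c * s) := by
        refine le_of_mul_le_mul_right ?_ hKx0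
        have h7 := mul_le_mul_of_nonneg_left h5 hs0.le
        linarith
      linarith
    · -- small
      have h5 : s * (t * (611 / 2000 - 5 / 8 * c)) ≤ t * s - u * (1 + c * s) := by
        refine le_of_mul_le_mul_right ?_ hKx0
        refine le_trans ?_ hlin
        have h6 : 611 / 2000 * (K + x) ≤ x := by linarith
        have h7 : t ≤ 5 / 8 * (K + x) := by
          apply le_of_sq_le_sq _ (by positivity)
          rw [← hu2, hud]
          have h70 : K - x ≤ 25 / 64 * (K + x) := by linarith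
          have h71 := mul_le_mul_of_nonneg_right h70 hKx0.le
          have h72 : (5 / 8 * (K + x)) ^ 2 = 25 / 64 * (K + x) * (K + x) := by ring
          rw [h72]
          exact h71
        have h8 : t * ((611 / 2000 - 5 / 8 * c) * (K + x)) ≤ t * (x - c * t) := by
          apply mul_le_mul_of_nonneg_left _ ht0
          have h73 := mul_le_mul_of_nonneg_left h7 k1.le
          linarith
        have h9 := mul_le_mul_of_nonneg_left h8 hs0.le
        linarith
      have hA1 : 280 / 1000 + 404 / 1000 * c ≤ 1 - 7200 / 10000 * (c * K) := by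
        rw [hcK]
        have h6 : c * u ≤ c * (5 / 8 * (7 / 10)) := by
          apply mul_le_mul_of_nonneg_left _ k1.le
          linarith
        linarith
      have hs6 : 3 / 5 ≤ s := b2.trans ((Real.sin_le h.p0).trans h1)
      have hA2 : s * (3 / 5 * c * (280 / 1000 + 404 / 1000 * c)) ≤
          c * s ^ 2 * (1 - 7200 / 10000 * (c * K)) := by
        have h6 : 3 / 5 * (c * s) ≤ s * (c * s) := mul_le_mul_of_nonneg_right hs6 hcs0.le
        have h7 : 0 ≤ 280 / 1000 + 404 / 1000 * c := by positivity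
        calc s * (3 / 5 * c * (280 / 1000 + 404 / 1000 * c)) =
              (3 / 5 * (c * s)) * (280 / 1000 + 404 / 1000 * c) := by ring
          _ ≤ (s * (c * s)) * (280 / 1000 + 404 / 1000 * c) := mul_le_mul_of_nonneg_right h6 h7
          _ ≤ (s * (c * s)) * (1 - 7200 / 10000 * (c * K)) :=
            mul_le_mul_of_nonneg_left hA1 (by positivity)
          _ = _ := by ring
      have hc5 : 1 / 2 ≤ c := by
        rw [hc, le_div_iff₀ (by linarith)]
        linarith
      have hfin := tm_fin hc5 ht1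
      have h10 := mul_le_mul_of_nonneg_left hfin hs0.le
      linarith
  · -- clamped
    rw [ga_hi hc h2]
    have hs1 : 1 + x ≤ s := by
      by_contra hlt
      push Not at hlt
      have := mul_lt_mul_of_pos_left hlt k1
      linarith
    have hE := e1_hi
    have hEc : Real.exp 1 * K * Real.cos (s + -ε + -p) ≤ 2719 / 1000 * K := by
      calc Real.exp 1 * K * Real.cos (s + -ε + -p) ≤ Real.exp 1 * K * 1 :=
            mul_le_mul_of_nonneg_left hcos (by positivity)
        _ ≤ 2719 / 1000 * K * 1 := by gcongr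
        _ = _ := by ring
    have h3 : (47 / 50 + t) * (1 + x) ≤ (47 / 50 + t) * s :=
      mul_le_mul_of_nonneg_left hs1 (by linarith)
    have h4 : 0 ≤ t * x := by positivity
    linarith

theorem NB.point (h : NB x t K p ρ) (hε : 0 ≤ ε) (hE : p + x - ρ + ε ≤ 2 * Real.pi / 3)
    (hδ : 0 < δ) (hδ1 : δ ≤ ρ / (499 / 10)) (s : ℝ) :
    19 / 50 * Qf x (-t) * s ^ 2 ≤ Ht x (-t) (-ε) (ga x s) s ∨
      |s| / 25 + δ * max (ga x s) 0 ≤ Ht x (-t) (-ε) (ga x s) s := by
  rcases le_total 0 s with h0 | h0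
  · rcases le_total s p with h1 | h1
    · exact Or.inl (h.near hε hE h0 h1)
    · right
      rw [abs_of_nonneg h0]
      exact h.far hδ hδ1 h1
  · obtain ⟨w, rfl⟩ : ∃ w, s = -w := ⟨-s, by ring⟩
    have hw : 0 ≤ w := by linarith
    rw [max_ga_nonpos h.x0 h0, mul_zero, add_zero, abs_neg, abs_of_nonneg hw]
    rcases le_total w (3 / 2) with h1 | h1
    · rcases le_total (2 * (w + p) + ε) (2 * Real.pi) with h2 | h2
      · exact Or.inl (h.left_near hε hw h1 h2)
      · right
        have hpi := Real.pi_gt_d4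
        have hpi2 := Real.pi_lt_d4
        have hr := h.rx
        have hp1 := h.p1
        refine h.left_i (by linarith) ?_
        have hcc : Real.cos (-w + -ε + -p) = Real.cos (w + ε + p) := by
          rw [← Real.cos_neg (-w + -ε + -p)]
          congr 1
          ring
        rw [hcc]
        exact tm_cos_neg (by linarith) (by linarith)
    · exact Or.inr (h.left_far hε hE h1)

end

theorem tm_NB {ρ b : ℝ} (hB : Bd ρ b) (hb : b ≤ 0) (hρ1 : ρ ≤ 173 / 100) :
    NB (sx ρ b) (-b) (ρ * Real.exp (-b)) (-sP ρ b) ρ ∧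
      11 / 25 * (√(sx ρ b ^ 2 + b ^ 2) * Real.exp b) ≤ sx ρ b * (1 + b) ∧
      √(sx ρ b ^ 2 + b ^ 2) * Real.exp b = ρ := by
  obtain ⟨hD, hbb⟩ := hB
  have hρ := hD.dom.1
  have hx := sx_nonneg ρ b
  have hsin := hD.dom.sin
  have hcos := hD.dom.cos
  have hE0 := Real.exp_pos b
  have hb7 := hD.y0
  have hEE : Real.exp (-b) * Real.exp b = 1 := by rw [← Real.exp_add]; simp
  have hK : √(sx ρ b ^ 2 + b ^ 2) * Real.exp b = ρ := by
    have h2 : ‖sK ρ b‖ = √(sx ρ b ^ 2 + b ^ 2) := norm_K _ _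
    rw [← h2, norm_sK hD.dom, mul_assoc, ← Real.exp_add]
    simp
  have hph : 11 / 25 * ρ ≤ sx ρ b * (1 + b) := by
    have h2 := hD.phi
    unfold ph at h2
    rwa [le_div_iff₀ hρ] at h2
  have h1b : 0 < 1 + b := by linarith
  have hC : Real.cos (sP ρ b) * ρ = sx ρ b * Real.exp b := by
    rw [hcos]
    field_simp
  have hS : Real.sin (sP ρ b) * ρ = b * Real.exp b := by
    rw [hsin]
    field_simp
  have C0 : 11 / 25 ≤ Real.cos (sP ρ b) := by
    have h1 := Real.add_one_le_exp b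
    have h2 : 11 / 25 * ρ ≤ Real.cos (sP ρ b) * ρ := by
      rw [hC]
      refine hph.trans (mul_le_mul_of_nonneg_left (by linarith) hx)
    exact le_of_mul_le_mul_right h2 hρ
  have hsc := Real.sin_sq_add_cos_sq (sP ρ b)
  have p0 : 0 ≤ -sP ρ b := by linarith [sP_nonpos hρ hb]
  have hp2 := (abs_le.1 (sP_abs_le ρ b)).1
  have hsn : Real.sin (-sP ρ b) = -Real.sin (sP ρ b) := Real.sin_neg _
  have hcn : Real.cos (-sP ρ b) = Real.cos (sP ρ b) := Real.cos_neg _
  have p1 : -sP ρ b ≤ 28 / 25 := by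
    by_contra hlt
    push Not at hlt
    have h1 := Real.cos_le_cos_of_nonneg_of_le_pi (by norm_num) (by linarith [Real.pi_pos]) hlt.le
    have := tm_cos_112
    rw [hcn] at h1
    linarith
  have hx' : sx ρ b = ρ * Real.exp (-b) * Real.cos (-sP ρ b) := by
    rw [hcn, hcos]
    calc sx ρ b = sx ρ b * (Real.exp (-b) * Real.exp b) := by rw [hEE, mul_one]
      _ = _ := by field_simp
  have ht' : -b = ρ * Real.exp (-b) * Real.sin (-sP ρ b) := by
    rw [hsn, hsin]
    calc -b = -b * (Real.exp (-b) * Real.exp b) := by rw [hEE, mul_one]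
      _ = _ := by field_simp
  have hΦ : 11 / 25 * (√(sx ρ b ^ 2 + b ^ 2) * Real.exp b) ≤ sx ρ b * (1 + b) := by
    rw [hK]
    exact hph
  have hD2 := s2_D hx (by linarith) hb hΦ
  have hx2 : sx ρ b ^ 2 = (ρ * Real.exp (-b)) ^ 2 - b ^ 2 := sx_sq hD.dom
  have hxr : 11 / 25 * ρ ≤ sx ρ b := by
    refine hph.trans ?_
    nlinarith
  -- the two branches
  have hbr : 1 / 5 ≤ Real.sin (-sP ρ b) ∧ ((-b = 7 / 10 ∧ 7 / 10 ≤ sx ρ b ∧ ρ ≤ sx ρ b ∧
      386 / 100 * ρ - 3617 / 1000 ≤ sx ρ b ∧ 146 / 100 * ρ ≤ sx ρ b) ∨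
      (ρ ≤ 31 / 50 ∧ 3 / 5 ≤ Real.sin (-sP ρ b) ∧ sx ρ b ≤ 91 / 100 ∧ ρ - sx ρ b ≤ 87 / 250)) := by
    rw [hsn]
    by_cases h7 : b = -(7 / 10)
    · have e1 := tm_e7
      have e2 := tm_e7'
      have eb : -b = 7 / 10 := by rw [h7]; norm_num
      rw [eb] at hx2
      have hb2 : b ^ 2 = 49 / 100 := by rw [h7]; norm_num
      rw [hb2] at hx2
      have hph' : 22 / 15 * ρ ≤ sx ρ b := by
        rw [h7] at hph ⊢
        linarith
      have hKhi : (ρ * Real.exp (7 / 10)) ^ 2 ≤ (20138 / 10000) ^ 2 * ρ ^ 2 := by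
        rw [mul_pow, mul_comm]
        gcongr
      have hKlo : (20137 / 10000) ^ 2 * ρ ^ 2 ≤ (ρ * Real.exp (7 / 10)) ^ 2 := by
        rw [mul_pow, mul_comm (ρ ^ 2)]
        gcongr
      constructor
      · -- the sine
        have h3 : Real.exp b * (20138 / 10000) ≥ 1 := by
          rw [eb] at hEE
          nlinarith
        have h4 : (1 / 5) * ρ ≤ -Real.sin (sP ρ b) * ρ := by
          rw [neg_mul, hS, h7]
          rw [h7] at h3
          linarith
        exact le_of_mul_le_mul_right h4 hρ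
      · left
        refine ⟨eb, ?_, by linarith, ?_, by linarith⟩
        · -- `x ≥ 7/10`
          by_contra hlt
          push Not at hlt
          have h5 : ρ ^ 2 ≤ (15 / 22 * sx ρ b) ^ 2 := by
            apply pow_le_pow_left₀ hρ.le
            linarith
          have h6 : sx ρ b ^ 2 ≤ (7 / 10) ^ 2 := pow_le_pow_left₀ hx hlt.le 2
          have h8 : (15 / 22 * sx ρ b) ^ 2 = 225 / 484 * sx ρ b ^ 2 := by ring
          rw [h8] at h5
          norm_num at h6
          linarith
        · by_contra hlt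
          push Not at hlt
          have h5 : sx ρ b ^ 2 < (386 / 100 * ρ - 3617 / 1000) ^ 2 := by
            apply pow_lt_pow_left₀ hlt hx two_ne_zero
          have h6 : 0 < 386 / 100 * ρ - 3617 / 1000 := lt_of_le_of_lt hx hlt
          have h8 : 0 ≤ (ρ - 93 / 100) * (173 / 100 - ρ) := mul_nonneg (by linarith) (by linarith)
          have h9 : (386 / 100 * ρ - 3617 / 1000) ^ 2 =
              (386 / 100) ^ 2 * ρ ^ 2 - 2 * (386 / 100) * (3617 / 1000) * ρ + (3617 / 1000) ^ 2 := by ring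
          rw [h9] at h5
          have h10 : (ρ - 93 / 100) * (173 / 100 - ρ) = -ρ ^ 2 + (93 / 100 + 173 / 100) * ρ -
              93 / 100 * (173 / 100) := by ring
          rw [h10] at h8
          linarith
    · have hpe : ph ρ b = 11 / 25 := by
        rcases hbb with h | h
        · exact absurd h h7
        · exact h
      have xr : sx ρ b * (1 + b) = 11 / 25 * ρ := by
        unfold ph at hpe
        rw [div_eq_iff hρ.ne'] at hpe
        exact hpe
      have hen : Real.exp b ≤ 1 + b + b ^ 2 / 2 := by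
        have h3 := en_le2 (x := -b) (by linarith)
        rw [neg_neg] at h3
        nlinarith
      have C1 : Real.cos (sP ρ b) ≤ 4 / 5 := by
        have h3 : Real.cos (sP ρ b) * (1 + b) = 11 / 25 * Real.exp b := by
          have h4 : Real.cos (sP ρ b) * (1 + b) * ρ = 11 / 25 * Real.exp b * ρ := by
            calc Real.cos (sP ρ b) * (1 + b) * ρ = Real.cos (sP ρ b) * ρ * (1 + b) := by ring
              _ = sx ρ b * (1 + b) * Real.exp b := by rw [hC]; ring
              _ = _ := by rw [xr]; ring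
          exact mul_right_cancel₀ hρ.ne' h4
        by_contra hlt
        push Not at hlt
        nlinarith
      have S00 : 0 ≤ -Real.sin (sP ρ b) := by
        rw [← hsn]
        exact Real.sin_nonneg_of_nonneg_of_le_pi p0 (by linarith [Real.pi_pos])
      have S0 : 3 / 5 ≤ -Real.sin (sP ρ b) := by
        apply le_of_sq_le_sq _ S00
        nlinarith
      have hρ62 : ρ ≤ 31 / 50 := by
        have h3 : -b * Real.exp b ≤ 368 / 1000 := by
          have h4 := Real.add_one_le_exp (-b - 1)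
          have h5 : -b ≤ Real.exp (-b - 1) := by linarith
          have h6 : -b * Real.exp b ≤ Real.exp (-b - 1) * Real.exp b :=
            mul_le_mul_of_nonneg_right h5 hE0.le
          rw [← Real.exp_add] at h6
          have e : -b - 1 + b = -1 := by ring
          rw [e] at h6
          have := em1_hi
          linarith
        have h4 : 3 / 5 * ρ ≤ -Real.sin (sP ρ b) * ρ := mul_le_mul_of_nonneg_right S0 hρ.le
        have h5 : -Real.sin (sP ρ b) * ρ = -b * Real.exp b := by
          rw [neg_mul, hS]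
          ring
        linarith
      refine ⟨by linarith, Or.inr ⟨hρ62, S0, ?_, ?_⟩⟩
      · by_contra hlt
        push Not at hlt
        nlinarith
      · linarith
  refine ⟨⟨hx, by linarith, by linarith, hρ, hρ1, by positivity, hx', ht', ?_, hbr.1, p0, p1, rfl,
    ?_, hbr.2⟩, hΦ, hK⟩
  · rw [hcn]
    exact C0
  · rw [neg_neg]
    exact hD2

/-- MON, negative side (true constant 1.2). -/
theorem mon_neg {r ρ b ε : ℝ} (hr : 499 / 10 ≤ r) (hB : Bd ρ b) (hb : b ≤ 0) (hρ : ρ ≤ 173 / 100)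
    (hε : 0 ≤ ε) (hs : |sE ρ b| + ε ≤ 2 * Real.pi / 3) :
    ‖W0 r (ρ / r) (sE ρ b - ε)‖ ≤ 15 * Mm r ρ b ∧
      ‖W1 r (ρ / r) (sE ρ b - ε)‖ ≤ 15 * (r * Real.exp (-b)) * Mm r ρ b := by
  obtain ⟨h, hΦ, hK⟩ := tm_NB hB hb hρ
  have hr0 : 0 < r := by linarith
  have hρ0 := h.r0
  have hx0 := h.x0
  have hδ : 0 < ρ / r := by positivity
  have e : r * (ρ / r) = ρ := by field_simp
  have hδ1 : ρ / r ≤ ρ / (499 / 10) := div_le_div_of_nonneg_left hρ0.le (by norm_num) hr
  have hb7 := hB.1.y0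
  have hE : -sP ρ b + sx ρ b - ρ + ε ≤ 2 * Real.pi / 3 := by
    have h1 := neg_abs_le (sE ρ b)
    unfold sE at h1 hs
    linarith
  rw [sub_eq_add_neg]
  refine waves_of_mI hr0 hB.1.dom (by linarith) (by rw [abs_of_nonpos hb]; linarith) ?_
  intro j hj
  have hBq := s2_B hx0 (by linarith) hb hΦ
  rw [hK] at hBq
  have hl := s2_l hx0 (by linarith) hb hΦ
  have hq := h.q
  rw [neg_neg] at hq
  have hpt := h.point hε hE hδ hδ1
  rw [neg_neg] at hpt
  have key := mI_le (r := r) (δ := ρ / r) (y := b) (θ := -ε) (j := j) hj hδ (by linarith)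
    (by rw [e]; exact hq) (by
      rw [e, le_div_iff₀ hδ]
      linarith) (by rw [e]; exact hl) (by
      rw [e]
      have hx35 : sx ρ b ≤ 35 / 10 := by
        have h1 := h.xK.2
        have h2 := h.Kle
        linarith
      have hQ : Qf (sx ρ b) b ≤ 2 := by
        have h1 : 1 / (1 + sx ρ b) + sx ρ b / 2 ≤ 2 := by
          have h0 : 0 < 1 + sx ρ b := by linarith
          rw [div_add' _ _ _ h0.ne', div_le_iff₀ h0]
          nlinarith
        have h2 : (1 + b) / (1 + sx ρ b) ≤ 1 / (1 + sx ρ b) := by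
          apply div_le_div_of_nonneg_right _ (by linarith)
          linarith
        have h3 : sx ρ b * (1 - (1 / (1 + sx ρ b)) ^ 2) / 2 ≤ sx ρ b / 2 := by
          have h4 : 0 ≤ sx ρ b * (1 / (1 + sx ρ b)) ^ 2 := by positivity
          linarith
        unfold Qf
        linarith
      have hδ2 : ρ / r ≤ 173 / 4990 := hδ1.trans (by linarith)
      calc (1 + (1 / (1 + sx ρ b)) ^ 2) * √((1 + b) ^ 2 + sx ρ b ^ 2) * (ρ / r) ≤
            (2 * (129 / 100) * Qf (sx ρ b) b) * (173 / 4990) := by gcongr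
        _ ≤ 1 / 5 := by linarith) (by
      rw [e]
      exact hpt)
  rw [e] at key
  exact key

end SokalF1T
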