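import Pool.Agent.Lib_MP_af4de1_f1.TopGap
import Pool.Agent.Lib_MP_af4de1_f1.TopMonN
import Pool.Agent.Lib_MP_af4de1_v3.V3

/-!
# LOC for `N ≥ 3` (regime C): if not both top waves are in `DD`, one wave dominates (owner helper31)

`L` = the top wave which is not in `DD`, `b` = the boundary point of `DD` on its side; `mon_neg`, `mon_pos` compare `L` with
the wave at `b` (factor 10), `gap3` compares this with the other top wave `H` (factor 1/40).
-/

set_option autoImplicit false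

namespace SokalF1T

open Complex SokalU SokalF1 SokalF1S

theorem tl_norm_kp {r ρ y : ℝ} (hr : 0 < r) (h : Dom ρ y) : ‖kp r ρ y‖ = r * Real.exp (-y) := by
  unfold kp
  have hρ := h.1
  rw [norm_mul, norm_sK h, Complex.norm_real, Real.norm_of_nonneg (by positivity)]
  field_simp

theorem tl_kp_re {r ρ y : ℝ} : (kp r ρ y).re = r / ρ * sx ρ y := by
  unfold kp sK
  simp

theorem tl_kp_re_ge {r ρ y : ℝ} (hr : 0 < r) (h : DD ρ y) :
    11 / 25 * (r * Real.exp (-y)) ≤ (kp r ρ y).re := by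
  rw [tl_kp_re]
  have hρ := h.dom.1
  have hy : -(7 / 10) ≤ y := h.y0
  have h1 := h.phi
  unfold ph at h1
  have h2 : 0 < 1 + y := by linarith
  have h3 : Real.exp (-y) * (1 + y) ≤ 1 := by
    have h4 := Real.add_one_le_exp y
    have h5 := Real.exp_pos (-y)
    calc Real.exp (-y) * (1 + y) ≤ Real.exp (-y) * Real.exp y := by
          apply mul_le_mul_of_nonneg_left _ h5.le
          linarith
      _ = 1 := by rw [← Real.exp_add]; simp
  have h6 : 11 / 25 * Real.exp (-y) ≤ sx ρ y / ρ := by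
    have h7 : sx ρ y * (1 + y) / ρ = sx ρ y / ρ * (1 + y) := by ring
    rw [h7] at h1
    by_contra hlt
    push Not at hlt
    have h8 : sx ρ y / ρ * (1 + y) < 11 / 25 * Real.exp (-y) * (1 + y) :=
      mul_lt_mul_of_pos_right hlt h2
    nlinarith
  calc 11 / 25 * (r * Real.exp (-y)) = r * (11 / 25 * Real.exp (-y)) := by ring
    _ ≤ r * (sx ρ y / ρ) := mul_le_mul_of_nonneg_left h6 hr.le
    _ = r / ρ * sx ρ y := by ring

/-- `|κ + m| ≥ .84 (|κ| + m)` -/
theorem tl_kp_add_ge {r ρ y m : ℝ} (hr : 0 < r) (h : DD ρ y) (hm : 0 ≤ m) :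
    21 / 25 * (r * Real.exp (-y) + m) ≤ ‖kp r ρ y + m‖ := by
  have h1 := tl_kp_re_ge hr h
  have h2 := tl_norm_kp hr h.dom
  set K := r * Real.exp (-y) with hK
  have hK0 : 0 ≤ K := by positivity
  have h3 : ‖kp r ρ y + m‖ ^ 2 = K ^ 2 + 2 * m * (kp r ρ y).re + m ^ 2 := by
    rw [← h2, ← Complex.normSq_eq_norm_sq, ← Complex.normSq_eq_norm_sq]
    simp only [Complex.normSq_apply, Complex.add_re, Complex.add_im, Complex.ofReal_re, Complex.ofReal_im]
    ring
  have h4 : (21 / 25 * (K + m)) ^ 2 ≤ ‖kp r ρ y + m‖ ^ 2 := by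
    rw [h3]
    have h5 : m * (11 / 25 * K) ≤ m * (kp r ρ y).re := mul_le_mul_of_nonneg_left h1 hm
    nlinarith [sq_nonneg (K - m), mul_nonneg hm hK0]
  exact le_of_sq_le_sq h4 (norm_nonneg _)

theorem tl_exp18 : Real.exp (18 / 25) ≤ 206 / 100 := by
  have h := Real.exp_bound' (x := 18 / 25) (by norm_num) (by norm_num) (n := 5) (by norm_num)
  refine h.trans ?_
  norm_num [Finset.sum_range_succ, Nat.factorial]

/-- lower bound for the dominating wave -/
theorem tl_top_lower {r ρ y m : ℝ} {w0 w1 : ℂ} (hr : 499 / 10 ≤ r) (hD : DD ρ y) (hm : 0 ≤ m)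
    (h1 : 5 / 6 * Mm r ρ y ≤ ‖w0‖) (h2 : ‖w1 - kp r ρ y * w0‖ ≤ 3 * ‖w0‖) :
    59 / 100 * ((r * Real.exp (-y) + m) * Mm r ρ y) ≤ ‖w1 + m * w0‖ := by
  have hr0 : 0 < r := by linarith
  have hM : 0 < Mm r ρ y := by
    unfold Mm
    have := sD2_pos (ρ := ρ) (y := y) (by linarith [hD.y0])
    positivity
  have h3 := tl_kp_add_ge hr0 hD hm
  have hK : 3 ≤ 31 / 250 * (r * Real.exp (-y)) := by
    have h4 : Real.exp (-(18 / 25)) ≤ Real.exp (-y) := Real.exp_le_exp.2 (by linarith [hD.y1])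
    have h5 : (1 : ℝ) / 2.06 ≤ Real.exp (-(18 / 25)) := by
      rw [Real.exp_neg, ← one_div]
      apply one_div_le_one_div_of_le (Real.exp_pos _)
      have := tl_exp18
      norm_num at this ⊢
      linarith
    have h6 : (499 / 10 : ℝ) * (1 / 2.06) ≤ r * Real.exp (-y) :=
      mul_le_mul hr (h5.trans h4) (by norm_num) hr0.le
    norm_num at h6 ⊢
    linarith
  set K := r * Real.exp (-y) with hKd
  set W := ‖w0‖ with hW
  have hW0 : 0 ≤ W := norm_nonneg _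
  have h7 : ‖(kp r ρ y + m) * w0‖ ≤ ‖w1 + m * w0‖ + 3 * W := by
    have e : (kp r ρ y + m) * w0 = (w1 + m * w0) - (w1 - kp r ρ y * w0) := by ring
    rw [e]
    exact (norm_sub_le _ _).trans (by linarith)
  rw [norm_mul] at h7
  have h8 : (21 / 25 * (K + m)) * W ≤ ‖kp r ρ y + m‖ * W := mul_le_mul_of_nonneg_right h3 hW0
  have h10 : 179 / 250 * (K + m) * W ≤ ‖w1 + m * w0‖ := by
    have h11 : 3 * W ≤ 31 / 250 * (K + m) * W :=
      mul_le_mul_of_nonneg_right (by linarith) hW0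
    nlinarith
  have hK0 : 0 ≤ K := by positivity
  have h12 : 179 / 250 * (K + m) * (5 / 6 * Mm r ρ y) ≤ 179 / 250 * (K + m) * W :=
    mul_le_mul_of_nonneg_left h1 (by positivity)
  have h13 : 0 ≤ (K + m) * Mm r ρ y := by positivity
  nlinarith

/-- the gap factor -/
theorem tl_gap_use {r ρ y b : ℝ} (hr : 499 / 10 ≤ r) (hρ : ρ ≤ 2) (hy : DD ρ y) (hb : DD ρ b)
    (hG : GapC ρ y b ≤ 1 / 40) : 0 < Mm r ρ b ∧
    Mm r ρ b ≤ 1 / 40 * Mm r ρ y ∧ Real.exp (y - b) * Mm r ρ b ≤ 1 / 40 * Mm r ρ y := by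
  have hDy := sD2_pos (ρ := ρ) (y := y) (by linarith [hy.y0])
  have hDb := sD2_pos (ρ := ρ) (y := b) (by linarith [hb.y0])
  have hρ0 := hb.dom.1
  set A := √(√(sD2 ρ y)) with hA
  set B := √(√(sD2 ρ b)) with hB
  have hA0 : 0 < A := by positivity
  have hB0 : 0 < B := by positivity
  have hA1 : 1 / 2 ≤ A := by
    rw [hA]
    apply Real.le_sqrt_of_sq_le
    apply Real.le_sqrt_of_sq_le
    unfold sD2
    nlinarith [sq_nonneg (sx ρ y), hy.y0]
  have hB1 : B ≤ 3 := by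
    rw [hB]
    apply Real.sqrt_le_iff.2 ⟨by norm_num, ?_⟩
    apply Real.sqrt_le_iff.2 ⟨by norm_num, ?_⟩
    unfold sD2
    have h1 := sx_le hb.dom
    have h2 := sx_nonneg ρ b
    have h3 : Real.exp (-b) ≤ 206 / 100 := by
      refine (Real.exp_le_exp.2 (by linarith [hb.y0] : -b ≤ 18 / 25)).trans tl_exp18
    have h4 : sx ρ b ≤ 5 := h1.trans (by nlinarith [Real.exp_pos (-b)])
    nlinarith [hb.y0, hb.y1]
  set M := max 1 (Real.exp (y - b)) with hM
  have hM1 : 1 ≤ M := le_max_left _ _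
  have hM2 : Real.exp (y - b) ≤ M := le_max_right _ _
  unfold GapC at hG
  rw [← hM, ← hA, ← hB] at hG
  have hAB : 1 / 6 ≤ A / B := by
    rw [le_div_iff₀ hB0]
    linarith
  have hΔ : 0 ≤ ph ρ y - ph ρ b := by
    by_contra hlt
    push Not at hlt
    have h1 : 1 ≤ Real.exp (-(499 / 10) * (ph ρ y - ph ρ b)) := by
      rw [← Real.exp_zero]
      apply Real.exp_le_exp.2
      nlinarith
    have h2 : 1 / 6 ≤ M * (A / B) := by nlinarith
    have h3 : 1 / 6 ≤ M * (A / B) * Real.exp (-(499 / 10) * (ph ρ y - ph ρ b)) := by nlinarith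
    linarith
  have h1 : Real.exp (-r * (ph ρ y - ph ρ b)) ≤ Real.exp (-(499 / 10) * (ph ρ y - ph ρ b)) := by
    apply Real.exp_le_exp.2
    nlinarith
  have h2 : M * (A / B) * Real.exp (-r * (ph ρ y - ph ρ b)) ≤ 1 / 40 :=
    (mul_le_mul_of_nonneg_left h1 (by positivity)).trans hG
  have e1 : Mm r ρ b = (A / B) * Real.exp (-r * (ph ρ y - ph ρ b)) * Mm r ρ y := by
    unfold Mm
    rw [← hA, ← hB, show -r * (ph ρ y - ph ρ b) = r * ph ρ b - r * ph ρ y by ring, Real.exp_sub]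
    field_simp
  have hMy : 0 < Mm r ρ y := by unfold Mm; positivity
  have hMb : 0 < Mm r ρ b := by unfold Mm; positivity
  have h3 : M * Mm r ρ b ≤ 1 / 40 * Mm r ρ y := by
    calc M * Mm r ρ b = M * (A / B) * Real.exp (-r * (ph ρ y - ph ρ b)) * Mm r ρ y := by rw [e1]; ring
      _ ≤ _ := mul_le_mul_of_nonneg_right h2 hMy.le
  refine ⟨hMb, ?_, ?_⟩
  · nlinarith
  · nlinarith

/-- upper bound for the wave `L` -/
theorem tl_low_upper {r ρ y b m : ℝ} {w0 w1 : ℂ} (hr : 499 / 10 ≤ r) (hρ : ρ ≤ 2) (hy : DD ρ y) (hb : DD ρ b)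
    (hG : GapC ρ y b ≤ 1 / 40) (hm : 0 ≤ m) (h0 : ‖w0‖ ≤ 15 * Mm r ρ b)
    (h1 : ‖w1‖ ≤ 15 * (r * Real.exp (-b)) * Mm r ρ b) :
    ‖w1 + m * w0‖ ≤ 3 / 8 * ((r * Real.exp (-y) + m) * Mm r ρ y) := by
  obtain ⟨g0, g1, g2⟩ := tl_gap_use hr hρ hy hb hG
  have hr0 : 0 < r := by linarith
  have e : Real.exp (-b) = Real.exp (-y) * Real.exp (y - b) := by
    rw [← Real.exp_add]; congr 1; ring
  have h2 : ‖w1 + m * w0‖ ≤ 15 * (r * Real.exp (-b)) * Mm r ρ b + m * (15 * Mm r ρ b) := by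
    refine (norm_add_le _ _).trans (add_le_add h1 ?_)
    rw [norm_mul, Complex.norm_real, Real.norm_of_nonneg hm]
    exact mul_le_mul_of_nonneg_left h0 hm
  have h3 : 15 * (r * Real.exp (-b)) * Mm r ρ b = 15 * (r * Real.exp (-y)) * (Real.exp (y - b) * Mm r ρ b) := by
    rw [e]; ring
  have h4 : 15 * (r * Real.exp (-y)) * (Real.exp (y - b) * Mm r ρ b) ≤
      15 * (r * Real.exp (-y)) * (1 / 40 * Mm r ρ y) :=
    mul_le_mul_of_nonneg_left g2 (by positivity)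
  have h5 : m * (15 * Mm r ρ b) ≤ m * (15 * (1 / 40 * Mm r ρ y)) := by gcongr
  linarith

/-- upper bound for the far waves -/
theorem tl_far_upper {r ρ y m : ℝ} {w0 w1 : ℂ} (hr : 0 < r) (hy : DD ρ y) (hm : 0 ≤ m) (hM : 0 < Mm r ρ y)
    (h0 : ‖w0‖ ≤ 1 / 100 * Mm r ρ y) (h1 : ‖w1‖ ≤ 1 / 100 * r * Mm r ρ y) :
    ‖w1 + m * w0‖ ≤ 206 / 10000 * ((r * Real.exp (-y) + m) * Mm r ρ y) := by
  have h2 : ‖w1 + m * w0‖ ≤ 1 / 100 * r * Mm r ρ y + m * (1 / 100 * Mm r ρ y) := by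
    refine (norm_add_le _ _).trans (add_le_add h1 ?_)
    rw [norm_mul, Complex.norm_real, Real.norm_of_nonneg hm]
    exact mul_le_mul_of_nonneg_left h0 hm
  have h3 : 1 ≤ 206 / 100 * Real.exp (-y) := by
    have h4 : Real.exp y ≤ 206 / 100 := (Real.exp_le_exp.2 hy.y1).trans tl_exp18
    have h5 : Real.exp y * Real.exp (-y) = 1 := by rw [← Real.exp_add]; simp
    nlinarith [Real.exp_pos (-y)]
  have h6 : r * Mm r ρ y * 1 ≤ r * Mm r ρ y * (206 / 100 * Real.exp (-y)) :=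
    mul_le_mul_of_nonneg_left h3 (by positivity)
  have h7 : 0 ≤ m * Mm r ρ y := by positivity
  nlinarith

/-- the sum over all waves -/
theorem tl_sum_lt {N : ℕ} (hN : 3 ≤ N) (hN5 : N ≤ 5) {g : ℤ → ℝ} {jH jL : ℤ} {T : ℝ} (hT : 0 < T)
    (hj : (jH = 0 ∧ jL = -1) ∨ (jH = -1 ∧ jL = 0)) (hL : g jL ≤ 3 / 8 * T)
    (hF : ∀ i : ℤ, 1 ≤ i → i < -1 + N → g i ≤ 206 / 10000 * T) (hH : 59 / 100 * T ≤ g jH) :
    ∑ i ∈ (Finset.Ico (-1 : ℤ) (-1 + N)).erase jH, g i < g jH := by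
  have hN' : (3 : ℤ) ≤ N := by exact_mod_cast hN
  have hmem : jL ∈ (Finset.Ico (-1 : ℤ) (-1 + N)).erase jH := by
    rw [Finset.mem_erase, Finset.mem_Ico]
    omega
  rw [← Finset.add_sum_erase _ _ hmem]
  have h1 : ∑ i ∈ ((Finset.Ico (-1 : ℤ) (-1 + N)).erase jH).erase jL, g i ≤
      (((Finset.Ico (-1 : ℤ) (-1 + N)).erase jH).erase jL).card • (206 / 10000 * T) := by
    apply Finset.sum_le_card_nsmul
    intro i hi
    rw [Finset.mem_erase, Finset.mem_erase, Finset.mem_Ico] at hi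
    apply hF i <;> omega
  have h2 : (((Finset.Ico (-1 : ℤ) (-1 + N)).erase jH).erase jL).card ≤ 3 := by
    rw [Finset.card_erase_of_mem hmem, Finset.card_erase_of_mem, Int.card_Ico]
    · omega
    · rw [Finset.mem_Ico]
      omega
  have h3 : (((Finset.Ico (-1 : ℤ) (-1 + N)).erase jH).erase jL).card • (206 / 10000 * T) ≤
      3 * (206 / 10000 * T) := by
    rw [nsmul_eq_mul]
    apply mul_le_mul_of_nonneg_right _ (by positivity)
    exact_mod_cast h2
  linarith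

theorem tl_regC_facts {N : ℕ} {r del : ℝ} (h : SokalV3.RegC N r del) :
    N ≤ 5 ∧ 0 < r * del ∧ r * del ≤ 173 / 100 ∧ Rng1 r (r * del) ∧ 0 < hst N ∧ hst N ≤ 2 * Real.pi / 3 := by
  have hr := h.r0
  have hr0 : 0 < r := by linarith
  have hρ : 0 < r * del := mul_pos hr0 h.d0
  have hpi := Real.pi_lt_d4
  have hpi0 := Real.pi_pos
  have hC := h.C
  unfold SokalV3.RR at hC
  have h3 : (3 : ℝ) ≤ N := by exact_mod_cast h.N3
  have hst0 : 0 < hst N := by unfold hst; positivity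
  have hst3 : hst N ≤ 2 * Real.pi / 3 := by
    unfold hst
    exact div_le_div_of_nonneg_left (by positivity) (by norm_num) h3
  have hle : r * del ≤ 173 / 100 := by
    by_contra hlt
    push Not at hlt
    have h4 : hst N ^ 2 ≤ (2 * Real.pi / 3) ^ 2 := by gcongr
    nlinarith
  refine ⟨?_, hρ, hle, ⟨hr, hρ, Or.inl ?_⟩, hst0, hst3⟩
  · by_contra hlt
    push Not at hlt
    have h6 : (6 : ℝ) ≤ N := by exact_mod_cast hlt
    have h7 : hst N ≤ 2 * Real.pi / 6 := by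
      unfold hst
      exact div_le_div_of_nonneg_left (by positivity) (by norm_num) h6
    have h8 : hst N ^ 2 ≤ (2 * Real.pi / 6) ^ 2 := by gcongr
    nlinarith [sq_nonneg (r * del)]
  · nlinarith

theorem tl_sE_nonneg {ρ y : ℝ} (h : Dom ρ y) (hy : 0 ≤ y) : 0 ≤ sE ρ y := by
  rcases hy.eq_or_lt with rfl | hy
  · rw [sE_zero h.1]
  · have h3 := sE_strictMonoOn (dom_zero h.1) h (by norm_num) (Set.left_mem_Icc.2 hy.le)
      (Set.right_mem_Icc.2 hy.le) hy
    rw [sE_zero h.1] at h3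
    exact h3.le

theorem tl_sE_nonpos {ρ y : ℝ} (h : Dom ρ y) (hy1 : -1 ≤ y) (hy : y ≤ 0) : sE ρ y ≤ 0 := by
  rcases hy.eq_or_lt with rfl | hy
  · rw [sE_zero h.1]
  · have h3 := sE_strictMonoOn h (dom_zero h.1) hy1 (Set.left_mem_Icc.2 hy.le)
      (Set.right_mem_Icc.2 hy.le) hy
    rw [sE_zero h.1] at h3
    exact h3.le

/-- LOC, with the estimates of the own wave and of the far waves as hypotheses. -/
theorem loc_of {N : ℕ} {r del x m : ℝ} (hR : SokalV3.RegC N r del) (hx0 : 0 ≤ x) (hx1 : x < 1) (hm : 0 ≤ m)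
    (hnot : ¬ ∃ y0 y1, DD (r * del) y0 ∧ sE (r * del) y0 = x * hst N ∧
      DD (r * del) y1 ∧ sE (r * del) y1 = (x - 1) * hst N)
    (hown : ∀ y, DD (r * del) y → 5 / 6 * Mm r (r * del) y ≤ ‖W0 r del (sE (r * del) y)‖ ∧
      ‖W1 r del (sE (r * del) y) - kp r (r * del) y * W0 r del (sE (r * del) y)‖ ≤
        3 * ‖W0 r del (sE (r * del) y)‖)
    (hfar : ∀ y, DD (r * del) y → (sE (r * del) y = x * hst N ∨ sE (r * del) y = (x - 1) * hst N) →
      |sE (r * del) y| ≤ hst N - 24 / 25 → ∀ i : ℤ, 1 ≤ i → i < -1 + N → ‖W0 r del ((x + i) * hst N)‖ ≤ 1 / 100 * Mm r (r * del) y ∧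
        ‖W1 r del ((x + i) * hst N)‖ ≤ 1 / 100 * r * Mm r (r * del) y) :
    ∃ j0 ∈ Finset.Ico (-1 : ℤ) (-1 + N), ∑ i ∈ (Finset.Ico (-1 : ℤ) (-1 + N)).erase j0,
      ‖W1 r del ((x + i) * hst N) + m * W0 r del ((x + i) * hst N)‖ <
        ‖W1 r del ((x + j0) * hst N) + m * W0 r del ((x + j0) * hst N)‖ := by
  obtain ⟨hN5, hρ, hρ1, hR1, hh0, hh3⟩ := tl_regC_facts hR
  have hr := hR.r0
  have hr0 : 0 < r := by linarith
  have hN' : (3 : ℤ) ≤ N := by exact_mod_cast hR.N3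
  have hδ : r * del / r = del := by field_simp
  set ρ := r * del with hρd
  -- both cases at once
  have main : ∀ (y b : ℝ) (jH jL : ℤ), (jH = 0 ∧ jL = -1) ∨ (jH = -1 ∧ jL = 0) → DD ρ y → DD ρ b →
      GapC ρ y b ≤ 1 / 40 → sE ρ y = (x + jH) * hst N → |sE ρ y| ≤ hst N - 24 / 25 →
      ‖W0 r (ρ / r) ((x + jL) * hst N)‖ ≤ 15 * Mm r ρ b →
      ‖W1 r (ρ / r) ((x + jL) * hst N)‖ ≤ 15 * (r * Real.exp (-b)) * Mm r ρ b →
      ∃ j0 ∈ Finset.Ico (-1 : ℤ) (-1 + N), ∑ i ∈ (Finset.Ico (-1 : ℤ) (-1 + N)).erase j0,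
        ‖W1 r del ((x + i) * hst N) + m * W0 r del ((x + i) * hst N)‖ <
          ‖W1 r del ((x + j0) * hst N) + m * W0 r del ((x + j0) * hst N)‖ := by
    intro y b jH jL hj hy hb hG hyE hyh h0 h1
    rw [hδ] at h0 h1
    have hM : 0 < Mm r ρ y := by
      unfold Mm
      have := sD2_pos (ρ := ρ) (y := y) (by linarith [hy.y0])
      positivity
    refine ⟨jH, ?_, ?_⟩
    · rw [Finset.mem_Ico]
      omega
    · refine tl_sum_lt (T := (r * Real.exp (-y) + m) * Mm r ρ y) hR.N3 hN5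
        (g := fun i : ℤ => ‖W1 r del ((x + i) * hst N) + m * W0 r del ((x + i) * hst N)‖)
        (mul_pos (by positivity) hM) hj ?_ ?_ ?_
      · exact tl_low_upper hr (by linarith) hy hb hG hm h0 h1
      · intro i hi1 hi2
        obtain ⟨f0, f1⟩ := hfar y hy (by
          rw [hyE]
          rcases hj with ⟨rfl, -⟩ | ⟨rfl, -⟩
          · left
            push_cast
            ring
          · right
            push_cast
            ring) hyh i hi1 hi2
        exact tl_far_upper hr0 hy hm hM f0 f1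
      · obtain ⟨o1, o2⟩ := hown y hy
        have h2 := tl_top_lower hr hy hm o1 o2
        rw [hyE] at h2
        exact h2
  by_cases hA1 : ∃ y1, DD ρ y1 ∧ sE ρ y1 = (x - 1) * hst N
  · -- the positive wave is not in `DD`
    have hA0 : ¬ ∃ y0, DD ρ y0 ∧ sE ρ y0 = x * hst N := by
      rintro ⟨y0, h1, h2⟩
      obtain ⟨y1, h3, h4⟩ := hA1
      exact hnot ⟨y0, y1, h1, h2, h3, h4⟩
    obtain ⟨b, hb0, hb, hbb⟩ := bdry_pos hρ
    have hlt : sE ρ b < x * hst N := by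
      by_contra hle
      push Not at hle
      obtain ⟨y, hy, hyE, -⟩ := DD_exists hb (Or.inr ⟨by positivity, hle⟩)
      exact hA0 ⟨y, hy, hyE⟩
    have hxh : x * hst N ≤ hst N := by nlinarith
    have hB : Bd ρ b := ⟨hb, Or.inr (by
      rcases hbb with h | h
      · exact h
      · rw [h] at hlt
        linarith)⟩
    have hsb := tl_sE_nonneg hb.dom hb0
    have hab : |sE ρ b| = sE ρ b := abs_of_nonneg hsb
    have h24 := bd_abs_ge hB
    have hη0 : (x - 1) * hst N ≤ 0 := mul_nonpos_of_nonpos_of_nonneg (by linarith) hh0.le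
    obtain ⟨y, hy, hyE, hG⟩ := gap3 hB (η := (x - 1) * hst N) (Or.inr ⟨hb0, hη0⟩) (by
      rw [abs_of_nonpos hη0, hab]
      linarith)
    obtain ⟨m0, m1⟩ := mon_pos (ε := x * hst N - sE ρ b) hr hB hb0 (by linarith) (by
      rw [hab]
      linarith)
    rw [add_sub_cancel] at m0 m1
    refine main y b (-1) 0 (Or.inr ⟨rfl, rfl⟩) hy hb hG ?_ ?_ ?_ ?_
    · rw [hyE]
      push_cast
      ring
    · rw [hyE, abs_of_nonpos hη0]
      rw [hab] at h24
      linarith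
    · simpa using m0
    · simpa using m1
  · -- the negative wave is not in `DD`
    obtain ⟨b, hb0, hb, hbb⟩ := bdry_neg hρ
    have hη1 : (x - 1) * hst N ≤ 0 := mul_nonpos_of_nonpos_of_nonneg (by linarith) hh0.le
    have hlt : (x - 1) * hst N < sE ρ b := by
      by_contra hle
      push Not at hle
      obtain ⟨y, hy, hyE, -⟩ := DD_exists hb (Or.inl ⟨hle, hη1⟩)
      exact hA1 ⟨y, hy, hyE⟩
    have hxh : 0 ≤ x * hst N := by positivity
    have hB : Bd ρ b := ⟨hb, by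
      rcases hbb with h | h
      · exact h
      · rw [h] at hlt
        linarith⟩
    have hsb := tl_sE_nonpos hb.dom (by linarith [hb.y0]) hb0
    have hab : |sE ρ b| = -sE ρ b := abs_of_nonpos hsb
    have h24 := bd_abs_ge hB
    obtain ⟨y, hy, hyE, hG⟩ := gap3 hB (η := x * hst N) (Or.inl ⟨hb0, hxh⟩) (by
      rw [abs_of_nonneg hxh, hab]
      linarith)
    obtain ⟨m0, m1⟩ := mon_neg (ε := sE ρ b - (x - 1) * hst N) hr hB hb0 hρ1 (by linarith) (by
      rw [hab]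
      linarith)
    rw [sub_sub_cancel] at m0 m1
    refine main y b 0 (-1) (Or.inl ⟨rfl, rfl⟩) hy hb hG ?_ ?_ ?_ ?_
    · rw [hyE]
      push_cast
      ring
    · rw [hyE, abs_of_nonneg hxh]
      rw [hab] at h24
      linarith
    · have e : x + ((-1 : ℤ) : ℝ) = x - 1 := by push_cast; ring
      rw [e]
      exact m0
    · have e : x + ((-1 : ℤ) : ℝ) = x - 1 := by push_cast; ring
      rw [e]
      exact m1

end SokalF1T
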