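import Pool.Agent.Lib_MP_af4de1_f1.TopDefs

/-!
# [MAIN] interface (owners helper60, helper78)
-/

set_option autoImplicit false

namespace SokalF1T

open Complex SokalU SokalF1 SokalF1S

/-- MAIN: size of the top wave. -/
theorem main_size {r ρ y : ℝ} (hR : Rng1 r ρ) (hD : DD ρ y) :
    5 / 6 * Mm r ρ y ≤ ‖W0 r (ρ / r) (sE ρ y)‖ ∧ ‖W0 r (ρ / r) (sE ρ y)‖ ≤ 7 / 6 * Mm r ρ y := by
  sorry

/-- MAIN: logarithmic derivative. -/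
theorem main_kap {r ρ y : ℝ} (hR : Rng1 r ρ) (hD : DD ρ y) :
    ‖W1 r (ρ / r) (sE ρ y) - kp r ρ y * W0 r (ρ / r) (sE ρ y)‖ ≤
      C1 r ρ y * ‖W0 r (ρ / r) (sE ρ y)‖ := by
  sorry

/-- MAIN: second logarithmic derivative. -/
theorem main_lam {r ρ y : ℝ} (hR : Rng1 r ρ) (hD : DD ρ y) :
    ‖W2 r (ρ / r) (sE ρ y) * W0 r (ρ / r) (sE ρ y) - W1 r (ρ / r) (sE ρ y) ^ 2‖ ≤
      (7 / 5 * ‖kp r ρ y‖ / √(sD2 ρ y) + C1 r ρ y ^ 2) * ‖W0 r (ρ / r) (sE ρ y)‖ ^ 2 := by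
  sorry

end SokalF1T
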