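import Pool.Agent.Lib_MP_af4de1_f1.TopDefs
import Pool.Agent.Lib_MP_af4de1_f1.MonA

/-!
# [FT-MONZ] The zone next to the negative boundary (owner helper31)

Only for `N = 3`, `.1 < ρ < .63`: the negative boundary of `DD` is at `|η| = 55.2° .. 60°`.  The wave at
`sE ρ b - ε`, `0 ≤ ε ≤ π/36`, on the path through the boundary saddle `b` (`MonA.Ef_shift_le`): true constant `1.14`.
`|f_ε| = |f_0| exp((e^a |K|/δ)(cos (s - ε + ψ) - cos (s + ψ)))`, `ψ < 0`: the factor is `≤ 1` for `s ≤ |ψ| + ε/2`;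
for `s > |ψ|` (`≥ 40°`) `G_0 ≥ ..` dominates.
-/

set_option autoImplicit false

namespace SokalF1T

open Complex SokalU SokalF1 SokalF1S

theorem mon_zone {r ρ b ε : ℝ} (hr : 499 / 10 ≤ r) (hD : DD ρ b) (hb : b ≤ 0)
    (hp : b = -(7 / 10) ∨ ph ρ b = 11 / 25) (hs : |sE ρ b| ≤ Real.pi / 3) (hε : 0 ≤ ε) (hε1 : ε ≤ Real.pi / 36) :
    ‖W0 r (ρ / r) (sE ρ b - ε)‖ ≤ 3 * Mm r ρ b ∧
      ‖W1 r (ρ / r) (sE ρ b - ε)‖ ≤ 3 * (r * Real.exp (-b)) * Mm r ρ b := by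
  sorry

end SokalF1T
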