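import Pool.Agent.Lib_MP_af4de1_f1.TopDefs
import Pool.Agent.Lib_MP_af4de1_f1.MonA
import Pool.Agent.Lib_MP_af4de1_f1.MainB5

/-!
# The crude integral bound for a wave on a shifted path (owner helper31)

If for every `s` the height `Ht` is `≥ 19/50 Qf s²` or `≥ |s|/25 + δ max(a,0)`, then the absolute integrals
(weights `1`, `e^a`) are at most `15` times the Gaussian.
-/

set_option autoImplicit false

namespace SokalF1T

open Complex SokalU SokalPG SokalF1 SokalF1S SokalF1M SokalF1G SokalF1B MeasureTheory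

theorem exp_c0 : Real.exp (5 / 11) ≤ 158 / 100 := by
  have h := Real.exp_bound' (x := 5 / 11) (by norm_num) (by norm_num) (n := 5) (by norm_num)
  refine h.trans ?_
  norm_num [Finset.sum_range_succ, Nat.factorial]

theorem lin_le_quad {B s : ℝ} (hB : 11 ≤ B) : |s| ≤ 1 / 20 * B * s ^ 2 + 5 / 11 := by
  have h1 : |s| ≤ 11 / 20 * |s| ^ 2 + 5 / 11 := by nlinarith [sq_nonneg (|s| - 10 / 11)]
  rw [sq_abs] at h1
  nlinarith [sq_nonneg s]

theorem integral_abs_exp {μ : ℝ} (hμ : 0 < μ) :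
    (∫ s : ℝ, Real.exp (-(μ * |s|))) = 2 / μ ∧ Integrable fun s : ℝ => Real.exp (-(μ * |s|)) := by
  have h1 : (∫ s : ℝ, Real.exp (-(μ * |s|))) = 2 * ∫ s in Set.Ioi (0 : ℝ), Real.exp (-(μ * s)) :=
    integral_comp_abs (f := fun s => Real.exp (-(μ * s)))
  have h2 : ∫ s in Set.Ioi (0 : ℝ), Real.exp (-(μ * s)) = 1 / μ := by
    have := integral_exp_mul_Ioi (a := -μ) (by linarith) 0
    simp only [mul_zero, Real.exp_zero] at this
    rw [show (fun s : ℝ => Real.exp (-(μ * s))) = fun s => Real.exp (-μ * s) by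
      ext s; congr 1; ring]
    rw [this]
    field_simp
  refine ⟨by rw [h1, h2]; ring, ?_⟩
  by_contra hni
  have h3 := integral_undef hni
  rw [h1, h2] at h3
  have : 0 < 2 * (1 / μ) := by positivity
  linarith

theorem mI_le {r δ y θ : ℝ} {j : ℕ} (hj : j ≤ 1) (hδ : 0 < δ) (hy : -1 < y)
    (hq : 0 < Qf (sx (r * δ) y) y) (hB : 11 ≤ Qf (sx (r * δ) y) y / δ)
    (hl : (1 + (1 / (1 + sx (r * δ) y)) ^ 2) * √((1 + y) ^ 2 + sx (r * δ) y ^ 2) ≤
      2 * (129 / 100) * Qf (sx (r * δ) y) y)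
    (hd : (1 + (1 / (1 + sx (r * δ) y)) ^ 2) * √((1 + y) ^ 2 + sx (r * δ) y ^ 2) * δ ≤ 1 / 5)
    (hpt : ∀ s, 19 / 50 * Qf (sx (r * δ) y) y * s ^ 2 ≤
        Ht (sx (r * δ) y) y θ (ga (sx (r * δ) y) s) s ∨
      |s| / 25 + δ * max (ga (sx (r * δ) y) s) 0 ≤
        Ht (sx (r * δ) y) y θ (ga (sx (r * δ) y) s) s) :
    mI (1 + sx (r * δ) y)⁻¹ (1 + sx (r * δ) y) r δ y θ j ≤ 15 * sG r δ y := by
  have hx : 0 ≤ sx (r * δ) y := sx_nonneg _ _
  have hGe : sG r δ y = √(2 * Real.pi * δ / √((1 + y) ^ 2 + sx (r * δ) y ^ 2)) := rfl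
  unfold mI
  rw [hGe]
  set x := sx (r * δ) y with hxd
  set D := √((1 + y) ^ 2 + x ^ 2) with hD
  set q := Qf x y with hqd
  set B := q / δ with hBd
  have hD0 : 0 < D := Real.sqrt_pos.2 (by nlinarith [sq_nonneg x])
  have hW := Wc_pos x
  have hc : 1 / (1 + x) = (1 + x)⁻¹ := one_div _
  rw [hc, ← Wc_sq] at hl hd
  set W := Wc x with hWd
  have hB0 : 0 < B := by linarith
  have hν : 0 < 33 / 100 * B := by positivity
  have hμ : 0 < 1 / (25 * δ) := by positivity
  obtain ⟨i1, i2⟩ := integral_abs_exp hμ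
  have i3 : Integrable fun s : ℝ => Real.exp (-(33 / 100 * B) * s ^ 2) := integrable_exp_neg_mul_sq hν
  have i4 : (∫ s : ℝ, Real.exp (-(33 / 100 * B) * s ^ 2)) = √(Real.pi / (33 / 100 * B)) := integral_gaussian _
  have hga1 : ∀ s, (j : ℝ) * ga x s ≤ max (ga x s) 0 := by
    intro s
    rcases Nat.le_one_iff_eq_zero_or_eq_one.1 hj with rfl | rfl
    · simp
    · simp
  have hpw : ∀ s : ℝ, ‖pv (1 + x)⁻¹ (1 + x) s‖ * (Real.exp (j * pc (1 + x)⁻¹ (1 + x) s) *
      Real.exp (-(Ht x y θ (pc (1 + x)⁻¹ (1 + x) s) s / δ))) ≤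
      W * (158 / 100 * Real.exp (-(33 / 100 * B) * s ^ 2) + Real.exp (-(1 / (25 * δ) * |s|))) := by
    intro s
    rw [pc_eq hx]
    have h1 := norm_pv' x s
    have h2 := hga1 s
    have h3 : Real.exp (j * ga x s) * Real.exp (-(Ht x y θ (ga x s) s / δ)) ≤
        158 / 100 * Real.exp (-(33 / 100 * B) * s ^ 2) + Real.exp (-(1 / (25 * δ) * |s|)) := by
      rw [← Real.exp_add]
      rcases hpt s with h | h
      · have h4 : 19 / 50 * B * s ^ 2 ≤ Ht x y θ (ga x s) s / δ := by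
          rw [le_div_iff₀ hδ]
          calc 19 / 50 * B * s ^ 2 * δ = 19 / 50 * (B * δ) * s ^ 2 := by ring
            _ = 19 / 50 * q * s ^ 2 := by rw [hBd, div_mul_cancel₀ _ hδ.ne']
            _ ≤ _ := h
        have h5 : max (ga x s) 0 ≤ |s| := by
          refine max_le ?_ (abs_nonneg s)
          refine (le_abs_self _).trans ((ga_abs hx).trans ?_)
          have h6 : (1 + x)⁻¹ ≤ 1 := inv_le_one_of_one_le₀ (by linarith)
          exact mul_le_of_le_one_left (abs_nonneg s) h6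
        have h7 := lin_le_quad (s := s) hB
        have h8 : j * ga x s + -(Ht x y θ (ga x s) s / δ) ≤ 5 / 11 + -(33 / 100 * B) * s ^ 2 := by
          nlinarith
        have h9 : 0 ≤ Real.exp (-(1 / (25 * δ) * |s|)) := (Real.exp_pos _).le
        calc Real.exp (j * ga x s + -(Ht x y θ (ga x s) s / δ)) ≤
              Real.exp (5 / 11 + -(33 / 100 * B) * s ^ 2) := Real.exp_le_exp.2 h8
          _ = Real.exp (5 / 11) * Real.exp (-(33 / 100 * B) * s ^ 2) := Real.exp_add _ _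
          _ ≤ 158 / 100 * Real.exp (-(33 / 100 * B) * s ^ 2) :=
            mul_le_mul_of_nonneg_right exp_c0 (Real.exp_pos _).le
          _ ≤ _ := by linarith
      · have h4 : 1 / (25 * δ) * |s| + max (ga x s) 0 ≤ Ht x y θ (ga x s) s / δ := by
          rw [le_div_iff₀ hδ]
          calc (1 / (25 * δ) * |s| + max (ga x s) 0) * δ = |s| / 25 + δ * max (ga x s) 0 := by
                field_simp
            _ ≤ _ := h
        have h9 : 0 ≤ 158 / 100 * Real.exp (-(33 / 100 * B) * s ^ 2) := by positivity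
        have h8 : Real.exp (j * ga x s + -(Ht x y θ (ga x s) s / δ)) ≤
            Real.exp (-(1 / (25 * δ) * |s|)) := Real.exp_le_exp.2 (by linarith)
        linarith
    exact mul_le_mul h1 h3 (by positivity) hW.le
  have hI : (∫ s : ℝ, ‖pv (1 + x)⁻¹ (1 + x) s‖ * (Real.exp (j * pc (1 + x)⁻¹ (1 + x) s) *
      Real.exp (-(Ht x y θ (pc (1 + x)⁻¹ (1 + x) s) s / δ)))) ≤
      W * (158 / 100 * √(Real.pi / (33 / 100 * B)) + 2 / (1 / (25 * δ))) := by
    have h1 := integral_mono_of_nonneg (μ := volume)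
      (f := fun s : ℝ => ‖pv (1 + x)⁻¹ (1 + x) s‖ * (Real.exp (j * pc (1 + x)⁻¹ (1 + x) s) *
      Real.exp (-(Ht x y θ (pc (1 + x)⁻¹ (1 + x) s) s / δ))))
      (g := fun s => W * (158 / 100 * Real.exp (-(33 / 100 * B) * s ^ 2) +
        Real.exp (-(1 / (25 * δ) * |s|))))
      (Filter.Eventually.of_forall fun s => by positivity)
      (((i3.const_mul _).add i2).const_mul _) (Filter.Eventually.of_forall hpw)
    refine h1.trans (le_of_eq ?_)
    rw [integral_const_mul, integral_add (i3.const_mul _) i2, integral_const_mul, i4, i1]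
  refine hI.trans ?_
  set G := √(2 * Real.pi * δ / D) with hG
  have hG0 : 0 ≤ G := Real.sqrt_nonneg _
  have hG2 : G ^ 2 = 2 * Real.pi * δ / D := Real.sq_sqrt (by positivity)
  have hpi := Real.pi_gt_three
  -- the Gaussian part
  have k1 : W * √(Real.pi / (33 / 100 * B)) ≤ 198 / 100 * G := by
    apply le_of_sq_le_sq _ (by positivity)
    rw [mul_pow, mul_pow, hG2, Real.sq_sqrt (by positivity)]
    have e1 : W ^ 2 * (Real.pi / (33 / 100 * B)) = (W ^ 2 * D) * (Real.pi * δ / (33 / 100 * q * D)) := by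
      rw [hBd]
      field_simp
    have h5 : (W ^ 2 * D) * (Real.pi * δ / (33 / 100 * q * D)) ≤
        (2 * (129 / 100) * q) * (Real.pi * δ / (33 / 100 * q * D)) :=
      mul_le_mul_of_nonneg_right hl (by positivity)
    have e2 : (2 * (129 / 100) * q) * (Real.pi * δ / (33 / 100 * q * D)) =
        (129 / 33) * (2 * Real.pi * δ / D) := by
      field_simp
    rw [e1]
    refine h5.trans ?_
    rw [e2]
    have h6 : 0 ≤ 2 * Real.pi * δ / D := by positivity
    nlinarith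
  have k2 : W * (2 / (1 / (25 * δ))) ≤ 92 / 10 * G := by
    apply le_of_sq_le_sq _ (by positivity)
    rw [mul_pow, mul_pow, hG2]
    have e1 : W ^ 2 * (2 / (1 / (25 * δ))) ^ 2 = 2500 * (W ^ 2 * D * δ) * (δ / D) := by
      field_simp
      ring
    have h5 : 2500 * (W ^ 2 * D * δ) * (δ / D) ≤ 2500 * (1 / 5) * (δ / D) := by
      apply mul_le_mul_of_nonneg_right _ (by positivity)
      linarith
    have e2 : 2 * Real.pi * δ / D = 2 * Real.pi * (δ / D) := by ring
    rw [e1, e2]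
    refine h5.trans ?_
    have h6 : 0 ≤ δ / D := by positivity
    nlinarith
  calc W * (158 / 100 * √(Real.pi / (33 / 100 * B)) + 2 / (1 / (25 * δ))) =
        158 / 100 * (W * √(Real.pi / (33 / 100 * B))) + W * (2 / (1 / (25 * δ))) := by ring
    _ ≤ 158 / 100 * (198 / 100 * G) + 92 / 10 * G := by linarith
    _ ≤ 15 * G := by linarith

/-- from the integral to the two waves -/
theorem waves_of_mI {r ρ y θ : ℝ} (hr : 0 < r) (hD : Dom ρ y) (hy : -1 < y) (hy1 : |y| < 1)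
    (h : ∀ j : ℕ, j ≤ 1 → mI (1 + sx ρ y)⁻¹ (1 + sx ρ y) r (ρ / r) y θ j ≤ 15 * sG r (ρ / r) y) :
    ‖W0 r (ρ / r) (sE ρ y + θ)‖ ≤ 15 * Mm r ρ y ∧
      ‖W1 r (ρ / r) (sE ρ y + θ)‖ ≤ 15 * (r * Real.exp (-y)) * Mm r ρ y := by
  have hρ := hD.1
  have hδ : 0 < ρ / r := by positivity
  have e : r * (ρ / r) = ρ := by field_simp
  have hx : 0 ≤ sx ρ y := sx_nonneg _ _
  have hs : 0 < 1 + sx ρ y := by linarith
  have hcs : (1 + sx ρ y)⁻¹ * (1 + sx ρ y) = 1 := inv_mul_cancel₀ hs.ne'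
  have hG := sG_pos (r := r) (δ := ρ / r) hδ hy
  have hMe : sM r (ρ / r) y = Mm r ρ y := by
    unfold sM Mm ph
    rw [e]
    have h1 := sD2_pos (ρ := ρ) hy
    have h3 : √(√(sD2 ρ y)) = (sD2 ρ y) ^ (1 / 4 : ℝ) := by
      rw [Real.sqrt_eq_rpow, Real.sqrt_eq_rpow, ← Real.rpow_mul h1.le]
      norm_num
    rw [h3]
    congr 2
    field_simp
  have hM : 0 < Mm r ρ y := by
    have := sD2_pos (ρ := ρ) hy
    unfold Mm
    positivity
  have key : ∀ j : ℕ, j ≤ 1 → ‖Ef j (tt (ρ / r)) (wp r (ρ / r) (sE ρ y + θ))‖ ≤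
      15 * (r * Real.exp (-y)) ^ j * Mm r ρ y := by
    intro j hj
    have h1 := Ef_shift_le (r := r) (δ := ρ / r) (y := y) (c := (1 + sx ρ y)⁻¹) (s1 := 1 + sx ρ y)
      (inv_pos.2 hs) hs hcs.le hδ (by rw [e]; exact hD) hy (by rw [hcs]; exact hy1) θ j
    rw [e, hMe] at h1
    have h2 : ‖sK ρ y / ((ρ / r : ℝ) : ℂ)‖ = r * Real.exp (-y) := by
      rw [norm_div, norm_sK hD, Complex.norm_real, Real.norm_of_nonneg hδ.le]
      field_simp
    rw [h2] at h1
    refine h1.trans ?_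
    rw [div_le_iff₀ hG]
    calc (r * Real.exp (-y)) ^ j * Mm r ρ y * mI (1 + sx ρ y)⁻¹ (1 + sx ρ y) r (ρ / r) y θ j ≤
          (r * Real.exp (-y)) ^ j * Mm r ρ y * (15 * sG r (ρ / r) y) :=
          mul_le_mul_of_nonneg_left (h j hj) (by positivity)
      _ = _ := by ring
  constructor
  · have h0 := key 0 (by norm_num)
    rw [SokalF1M.Ef_zero, pow_zero, mul_one] at h0
    exact h0
  · have h1 := key 1 le_rfl
    rw [SokalF1M.Ef_one, pow_one] at h1
    exact h1

end SokalF1T
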