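import Pool.Agent.Lib_MP_af4de1_f1.TG5
import Pool.Agent.Lib_MP_af4de1_f1.TopMonI
import Pool.Agent.Lib_MP_af4de1_f1.MainB6

/-!
# The waves beyond the positive boundary point `b` of `DD` (owner helper31)

`K = |K|`, `ψ = sP`, `x = K cos ψ`, `b = K sin ψ`, `x (1+b) = .44 ρ`.  Height
`Ht = a s + x (1+a) - b s - e^a K cos (s+ε+ψ)`.
-/

set_option autoImplicit false

namespace SokalF1T

open Complex SokalU SokalF1 SokalF1S SokalF1M SokalF1G SokalF1B

/-- `cos B ≤ cos A` -/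
theorem tm_cos_far {A B : ℝ} (h0 : 0 ≤ A) (h1 : A ≤ B) (h2 : A + B ≤ 2 * Real.pi) :
    Real.cos B ≤ Real.cos A := by
  rcases le_total B Real.pi with h | h
  · exact Real.cos_le_cos_of_nonneg_of_le_pi h0 h h1
  · have h3 : Real.cos B = Real.cos (2 * Real.pi - B) := (Real.cos_two_pi_sub B).symm
    rw [h3]
    exact Real.cos_le_cos_of_nonneg_of_le_pi h0 (by linarith) (by linarith)

theorem tm_cos_neg {A : ℝ} (h0 : Real.pi / 2 ≤ A) (h1 : A ≤ 3 * Real.pi / 2) : Real.cos A ≤ 0 :=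
  Real.cos_nonpos_of_pi_div_two_le_of_le h0 (by linarith)

/-- beyond `3π/2` -/
theorem tm_cos_beyond {A z : ℝ} (hz : z = A - 3 * Real.pi / 2) (h0 : 0 ≤ z) :
    Real.cos A ≤ z := by
  have h1 : Real.cos A = Real.sin z := by
    have e : A = z + Real.pi + Real.pi / 2 := by rw [hz]; ring
    rw [e, Real.cos_add_pi_div_two, Real.sin_add_pi, neg_neg]
  rw [h1]
  exact Real.sin_le h0

theorem tm_Ht {x y θ a s K ψ : ℝ} (hx : x = K * Real.cos ψ) (hy : y = K * Real.sin ψ) :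
    Ht x y θ a s = a * s + x * (1 + a) - y * s - Real.exp a * K * Real.cos (s + θ + ψ) := by
  unfold Ht
  rw [Real.cos_add (s + θ) ψ]
  rw [hx, hy]
  ring

/-- comparison with the unshifted path -/
theorem tm_compare {x y θ s K ψ : ℝ} (hK : 0 ≤ K) (hx : x = K * Real.cos ψ) (hy : y = K * Real.sin ψ)
    (h : Real.cos (s + θ + ψ) ≤ Real.cos (s + ψ)) : Hf x y s ≤ Ht x y θ (ga x s) s := by
  have h1 : Hf x y s = Ht x y 0 (ga x s) s := by
    rw [Ht_zero]
    rfl
  rw [h1, tm_Ht hx hy, tm_Ht hx hy, add_zero]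
  have h2 : Real.exp (ga x s) * K * Real.cos (s + θ + ψ) ≤
      Real.exp (ga x s) * K * Real.cos (s + ψ) := mul_le_mul_of_nonneg_left h (by positivity)
  linarith

/-- the facts at the positive boundary -/
structure PB (x b K ψ ρ : ℝ) : Prop where
  x0 : 0 ≤ x
  b0 : 0 ≤ b
  b1 : b ≤ 33 / 50
  r0 : 0 < ρ
  r1 : ρ ≤ 29 / 20
  K0 : 0 < K
  hx : x = K * Real.cos ψ
  hb : b = K * Real.sin ψ
  xr : x * (1 + b) = 11 / 25 * ρ
  C0 : 11 / 25 ≤ Real.cos ψ
  S0 : 21 / 25 ≤ Real.sin ψ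
  p0 : 0 ≤ ψ
  p1 : ψ ≤ 28 / 25
  Kr : K = ρ * Real.exp (-b)

section

variable {x b K ψ ρ ε δ s : ℝ}

theorem PB.dom (h : PB x b K ψ ρ) : DomG x b :=
  ⟨h.x0, by linarith [h.b0], by linarith [h.b1], by nlinarith [h.b0, sq_nonneg x]⟩

theorem PB.q (h : PB x b K ψ ρ) : 0 < Qf x b :=
  (hyp_pos h.x0 h.b0 (by linarith [h.b1]) (δ := 1) one_pos).hq

theorem PB.x1 (h : PB x b K ψ ρ) : x ≤ 11 / 25 * ρ := by
  have := h.xr
  nlinarith [mul_nonneg h.x0 h.b0]

theorem PB.p84 (h : PB x b K ψ ρ) : 21 / 25 ≤ ψ := h.S0.trans (Real.sin_le h.p0)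

theorem PB.K1 (h : PB x b K ψ ρ) : K ≤ 43 / 50 * (1 : ℝ) := by
  have h1 : K * (21 / 25) ≤ b := by
    rw [h.hb]
    exact mul_le_mul_of_nonneg_left h.S0 h.K0.le
  linarith [h.b1]

/-- `K - x ≤ 5/8 b` -/
theorem PB.Kx (h : PB x b K ψ ρ) : K - x ≤ 5 / 8 * b := by
  have h1 : 11 / 25 * K ≤ x := by
    rw [h.hx]
    have := mul_le_mul_of_nonneg_left h.C0 h.K0.le
    linarith
  have h2 : x ≤ K := by
    rw [h.hx]
    exact mul_le_of_le_one_right h.K0.le (Real.cos_le_one _)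
  have h3 : x ^ 2 + b ^ 2 = K ^ 2 := by
    have := Real.sin_sq_add_cos_sq ψ
    calc x ^ 2 + b ^ 2 = (K * Real.cos ψ) ^ 2 + (K * Real.sin ψ) ^ 2 := by rw [← h.hx, ← h.hb]
      _ = K ^ 2 * (Real.sin ψ ^ 2 + Real.cos ψ ^ 2) := by ring
      _ = K ^ 2 := by rw [this, mul_one]
  apply le_of_sq_le_sq _ (by linarith [h.b0])
  nlinarith [h.K0]

/-- the right side, near -/
theorem PB.near (h : PB x b K ψ ρ) (hε : 0 ≤ ε) (hE : ψ + ρ - x + ε ≤ 2 * Real.pi / 3)
    (h0 : 0 ≤ s) (h1 : s ≤ 3 / 2) : 19 / 50 * Qf x b * s ^ 2 ≤ Ht x b ε (ga x s) s := by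
  have hpi := Real.pi_gt_d4
  have hc : Real.cos (s + ε + ψ) ≤ Real.cos (s + ψ) := by
    refine tm_cos_far (by linarith [h.p0]) (by linarith) ?_
    have := h.x1
    have := h.r0
    have := h.p1
    linarith
  refine le_trans ?_ (tm_compare h.K0.le h.hx h.hb hc)
  have hq := h.q
  rcases le_total s 1 with h2 | h2
  · refine le_trans ?_ (G1_pos h.dom h.b0 h0 h2)
    have h3 : 19 / 50 ≤ 1 - s ^ 2 / 11 := by nlinarith
    gcongr
  · refine le_trans ?_ (G2 h.dom h2 h1)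
    have := mul_nonneg hq.le (sq_nonneg s)
    linarith

/-- the left side, near -/
theorem PB.left_near (h : PB x b K ψ ρ) (hε : 0 ≤ ε) (hE : ψ + ρ - x + ε ≤ 2 * Real.pi / 3)
    (h0 : s ≤ 0) (h1 : -ψ ≤ s) : 19 / 50 * Qf x b * s ^ 2 ≤ Ht x b ε (ga x s) s := by
  have hpi := Real.pi_gt_d4
  have hc : Real.cos (s + ε + ψ) ≤ Real.cos (s + ψ) := by
    refine tm_cos_far (by linarith) (by linarith) ?_
    have := h.x1
    have := h.r0
    have := h.p1
    linarith
  refine le_trans ?_ (tm_compare h.K0.le h.hx h.hb hc)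
  have hq := h.q
  refine le_trans ?_ (G3_pos h.dom h.b0 (by linarith [h.p1]) h0)
  have h3 : 19 / 50 ≤ 1 + 3 / 10 * s := by linarith [h.p1]
  gcongr

/-- the left side, far -/
theorem PB.left_far (h : PB x b K ψ ρ) (h1 : s ≤ -ψ) :
    |s| / 25 ≤ Ht x b ε (ga x s) s := by
  obtain ⟨k1, k2, k3⟩ := c_facts h.x0
  obtain ⟨c, hc⟩ : ∃ c, c = 1 / (1 + x) := ⟨_, rfl⟩
  rw [← hc] at k1 k2 k3
  obtain ⟨w, rfl⟩ : ∃ w, s = -w := ⟨-s, by ring⟩
  have hw : 21 / 25 ≤ w := by linarith [h.p84]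
  rw [abs_neg, abs_of_nonneg (by linarith), tm_Ht h.hx h.hb]
  have hK := h.K0
  have hK1 := h.K1
  have hb0 := h.b0
  have hx0 := h.x0
  have hx1 := h.x1
  have hr1 := h.r1
  have hcos := Real.cos_le_one (-w + ε + ψ)
  rcases le_total (c * w) 1 with h2 | h2
  · -- unclamped
    rw [ga_mid hc (by linarith) (by nlinarith)]
    have hE : Real.exp (c * -w) ≤ 1 - c * w + (c * w) ^ 2 / 2 := by
      rw [mul_neg]
      exact en_le2 (by positivity)
    have hE0 := Real.exp_pos (c * -w)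
    have h3 : Real.exp (c * -w) * K * Real.cos (-w + ε + ψ) ≤ (1 - c * w + (c * w) ^ 2 / 2) * K := by
      calc Real.exp (c * -w) * K * Real.cos (-w + ε + ψ) ≤ Real.exp (c * -w) * K * 1 :=
            mul_le_mul_of_nonneg_left hcos (by positivity)
        _ ≤ _ := by
          rw [mul_one]
          exact mul_le_mul_of_nonneg_right hE hK.le
    have h4 : (K - x) * (1 - c * w) ≤ 5 / 8 * b := by
      have h5 := mul_le_mul_of_nonneg_right h.Kx (by linarith : 0 ≤ 1 - c * w)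
      have h6 : 0 ≤ b * (c * w) := by positivity
      linarith
    have h7 : 5 / 8 * b ≤ b * w := by nlinarith
    have hc6 : 61 / 100 ≤ c := by
      rw [hc, le_div_iff₀ (by linarith)]
      linarith
    have h8 : c * K ≤ 43 / 50 := by nlinarith
    have h9 : 57 / 100 * (c * w ^ 2) ≤ c * w ^ 2 * (1 - c * K / 2) := by
      have : 0 ≤ c * w ^ 2 := by positivity
      nlinarith
    have h10 : 21 / 25 * (61 / 100) * w ≤ c * w ^ 2 := by
      have : 21 / 25 * (61 / 100) ≤ w * c := by nlinarith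
      nlinarith
    nlinarith
  · -- clamped
    rw [ga_lo hc (by linarith)]
    have h3 : Real.exp (-1) * K * Real.cos (-w + ε + ψ) ≤ 37 / 100 * (43 / 50) := by
      calc Real.exp (-1) * K * Real.cos (-w + ε + ψ) ≤ Real.exp (-1) * K * 1 :=
            mul_le_mul_of_nonneg_left hcos (by positivity)
        _ ≤ 37 / 100 * (43 / 50) * 1 := by
          have := em1_hi
          gcongr
          · linarith
          · linarith
        _ = _ := by ring
    nlinarith

theorem tm_em66 {b : ℝ} (h0 : 0 ≤ b) (h1 : b ≤ 33 / 50) : Real.exp (1 - b) ≤ 27184 / 10000 - 1986 / 1000 * b := by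
  have hc := convexOn_exp.2 (Set.mem_univ (1 : ℝ)) (Set.mem_univ (17 / 50 : ℝ))
    (show (0 : ℝ) ≤ 1 - b / (33 / 50) by
      rw [sub_nonneg, div_le_one (by norm_num)]
      exact h1) (show (0 : ℝ) ≤ b / (33 / 50) by positivity) (by ring)
  simp only [smul_eq_mul] at hc
  have e : (1 - b / (33 / 50)) * 1 + b / (33 / 50) * (17 / 50) = 1 - b := by ring
  rw [e] at hc
  have e1 : Real.exp 1 ≤ 27183 / 10000 := by
    have := Real.exp_one_lt_d9
    linarith
  have e2 : Real.exp (17 / 50) ≤ 1405 / 1000 := by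
    have h := Real.exp_bound' (x := 17 / 50) (by norm_num) (by norm_num) (n := 5) (by norm_num)
    refine h.trans ?_
    norm_num [Finset.sum_range_succ, Nat.factorial]
  have h2 : 0 ≤ b / (33 / 50) := by positivity
  have h3 : 0 ≤ 1 - b / (33 / 50) := by
    rw [sub_nonneg, div_le_one (by norm_num)]
    exact h1
  have h4 := mul_le_mul_of_nonneg_left e1 h3
  have h5 := mul_le_mul_of_nonneg_left e2 h2
  refine hc.trans ?_
  have e3 : b / (33 / 50) = b * (50 / 33) := by ring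
  rw [e3] at h4 h5 ⊢
  linarith

/-- the right side, far -/
theorem PB.far (h : PB x b K ψ ρ) (hε : 0 ≤ ε) (hE : ψ + ρ - x + ε ≤ 2 * Real.pi / 3)
    (hδ : 0 < δ) (hδ1 : δ ≤ ρ / (499 / 10)) (h1 : 3 / 2 ≤ s) :
    |s| / 25 + δ * max (ga x s) 0 ≤ Ht x b ε (ga x s) s := by
  obtain ⟨k1, k2, k3⟩ := c_facts h.x0
  obtain ⟨c, hc⟩ : ∃ c, c = 1 / (1 + x) := ⟨_, rfl⟩
  rw [← hc] at k1 k2 k3
  have hpi := Real.pi_gt_d4
  have hpi2 := Real.pi_lt_d4
  have hK := h.K0
  have hb0 := h.b0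
  have hb1 := h.b1
  have hx0 := h.x0
  have hx1 := h.x1
  have hr1 := h.r1
  have hr0 := h.r0
  have hp := h.p84
  have hδ2 : δ ≤ 29 / 998 := hδ1.trans (by linarith)
  have hm1 : δ * max (ga x s) 0 ≤ δ := by
    have := max_ga_one x s
    nlinarith
  have hc6 : 61 / 100 ≤ c := by
    rw [hc, le_div_iff₀ (by linarith)]
    linarith
  rw [abs_of_nonneg (by linarith), tm_Ht h.hx h.hb]
  rcases le_total (s + ε + ψ) (3 * Real.pi / 2) with h2 | h2
  · -- the cosine is negative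
    have hcos : Real.cos (s + ε + ψ) ≤ 0 := tm_cos_neg (by linarith) h2
    have h3 : Real.exp (ga x s) * K * Real.cos (s + ε + ψ) ≤ 0 :=
      mul_nonpos_of_nonneg_of_nonpos (by positivity) hcos
    rcases le_total (c * s) 1 with h4 | h4
    · have h5 : 0 ≤ c * s := by nlinarith
      rw [ga_mid hc (by linarith) h4] at h3 hm1 ⊢
      have h6 : 91 / 100 ≤ c * s := by nlinarith
      have h7 : 91 / 100 * s ≤ c * s * s := by nlinarith
      have h8 : 0 ≤ x * (1 + c * s) := by nlinarith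
      nlinarith
    · rw [ga_hi hc h4] at h3 hm1 ⊢
      nlinarith
  · -- beyond `3π/2`
    obtain ⟨z, hz⟩ : ∃ z, z = s + ε + ψ - 3 * Real.pi / 2 := ⟨_, rfl⟩
    have hz0 : 0 ≤ z := by linarith
    have hcz := tm_cos_beyond hz hz0
    have hc1 := Real.cos_le_one (s + ε + ψ)
    have hs : 2617 / 1000 + ρ - x + z ≤ s := by linarith
    have hclamp : 1 ≤ c * s := by
      have h3 : 1 + x ≤ s := by linarith
      calc 1 = c * (1 + x) := by rw [hc]; field_simp
        _ ≤ c * s := mul_le_mul_of_nonneg_left h3 k1.le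
    rw [ga_hi hc hclamp] at hm1 ⊢
    have hKe : Real.exp 1 * K = ρ * Real.exp (1 - b) := by
      rw [h.Kr, sub_eq_add_neg, Real.exp_add]
      ring
    have hE1 := tm_em66 hb0 hb1
    rw [hKe]
    have hP : 0 < ρ * Real.exp (1 - b) := by positivity
    set C := Real.cos (s + ε + ψ) with hC
    -- the value at `z = 1`
    have hend : 0 ≤ (24 / 25 - b) * (3617 / 1000 + ρ - x) + 2 * x - ρ * Real.exp (1 - b) - ρ / (499 / 10) := by
      have h5 : ρ * Real.exp (1 - b) ≤ ρ * (27184 / 10000 - 1986 / 1000 * b) :=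
        mul_le_mul_of_nonneg_left hE1 hr0.le
      have h6 : 11 / 25 * ρ ≤ x * (26 / 25 + b) := by
        rw [← h.xr]
        nlinarith
      have h7 : 0 ≤ (29 / 20 - ρ) * (27184 / 10000 - 24 / 25 - 11 / 25 + 10 / 499 - 986 / 1000 * b) :=
        mul_nonneg (by linarith) (by linarith)
      linarith
    have hδm : δ * max 1 0 ≤ ρ / (499 / 10) := hm1.trans hδ1
    rcases le_total z 1 with hz1 | hz1
    · have h5 : ρ * Real.exp (1 - b) * C ≤ ρ * Real.exp (1 - b) * z :=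
        mul_le_mul_of_nonneg_left hcz hP.le
      have h6 : (24 / 25 - b) * (2617 / 1000 + ρ - x + z) ≤ (24 / 25 - b) * s :=
        mul_le_mul_of_nonneg_left hs (by linarith)
      have h8 : 0 ≤ (1 - z) * ((24 / 25 - b) * (2617 / 1000 + ρ - x) + 2 * x - ρ / (499 / 10)) := by
        apply mul_nonneg (by linarith)
        have h9 : 0 ≤ (24 / 25 - b - 3 / 10) * (2617 / 1000 + ρ - x) :=
          mul_nonneg (by linarith) (by linarith)
        linarith
      have h10 := mul_nonneg hz0 hend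
      linarith
    · have h5 : ρ * Real.exp (1 - b) * C ≤ ρ * Real.exp (1 - b) * 1 :=
        mul_le_mul_of_nonneg_left hc1 hP.le
      have h6 : (24 / 25 - b) * (3617 / 1000 + ρ - x) ≤ (24 / 25 - b) * s :=
        mul_le_mul_of_nonneg_left (by linarith) (by linarith)
      linarith

theorem PB.point (h : PB x b K ψ ρ) (hε : 0 ≤ ε) (hE : ψ + ρ - x + ε ≤ 2 * Real.pi / 3)
    (hδ : 0 < δ) (hδ1 : δ ≤ ρ / (499 / 10)) (s : ℝ) :
    19 / 50 * Qf x b * s ^ 2 ≤ Ht x b ε (ga x s) s ∨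
      |s| / 25 + δ * max (ga x s) 0 ≤ Ht x b ε (ga x s) s := by
  rcases le_total 0 s with h0 | h0
  · rcases le_total s (3 / 2) with h1 | h1
    · exact Or.inl (h.near hε hE h0 h1)
    · exact Or.inr (h.far hε hE hδ hδ1 h1)
  · rcases le_total (-ψ) s with h1 | h1
    · exact Or.inl (h.left_near hε hE h0 h1)
    · right
      rw [max_ga_nonpos h.x0 h0, mul_zero, add_zero]
      exact h.left_far h1

end

theorem tm_cos_112 : Real.cos (28 / 25) < 11 / 25 := by
  have h := cos_le4 (x := 28 / 25) (by norm_num)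
  norm_num at h ⊢
  linarith

theorem tm_exp_le {b : ℝ} (h0 : 0 ≤ b) (h1 : b ≤ 18 / 25) : 11 / 25 * Real.exp b ≤ 53 / 100 * (1 + b) := by
  have hc := convexOn_exp.2 (Set.mem_univ (0 : ℝ)) (Set.mem_univ (18 / 25 : ℝ))
    (show (0 : ℝ) ≤ 1 - b / (18 / 25) by
      rw [sub_nonneg, div_le_one (by norm_num)]
      exact h1) (show (0 : ℝ) ≤ b / (18 / 25) by positivity) (by ring)
  simp only [smul_eq_mul, Real.exp_zero] at hc
  have e : (1 - b / (18 / 25)) * 0 + b / (18 / 25) * (18 / 25) = b := by ring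
  rw [e] at hc
  have e2 : Real.exp (18 / 25) ≤ 206 / 100 := by
    have h := Real.exp_bound' (x := 18 / 25) (by norm_num) (by norm_num) (n := 5) (by norm_num)
    refine h.trans ?_
    norm_num [Finset.sum_range_succ, Nat.factorial]
  have h2 : 0 ≤ b / (18 / 25) := by positivity
  have h5 := mul_le_mul_of_nonneg_left e2 h2
  have e3 : b / (18 / 25) = b * (25 / 18) := by ring
  rw [e3] at h5 hc
  linarith

theorem tm_PB {ρ b : ℝ} (hB : Bd ρ b) (hb : 0 ≤ b) :
    PB (sx ρ b) b (ρ * Real.exp (-b)) (sP ρ b) ρ := by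
  obtain ⟨hD, hbb⟩ := hB
  have hρ1 := bd_rho' ⟨hD, hbb⟩ (Or.inl hb)
  have hph : ph ρ b = 11 / 25 := by
    rcases hbb with h | h
    · linarith
    · exact h
  have hρ := hD.dom.1
  have hx := sx_nonneg ρ b
  have hsin := hD.dom.sin
  have hcos := hD.dom.cos
  have hE0 := Real.exp_pos b
  have hEE : Real.exp (-b) * Real.exp b = 1 := by rw [← Real.exp_add]; simp
  have xr : sx ρ b * (1 + b) = 11 / 25 * ρ := by
    unfold ph at hph
    rw [div_eq_iff hρ.ne'] at hph
    exact hph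
  have hC : Real.cos (sP ρ b) * (1 + b) = 11 / 25 * Real.exp b := by
    rw [hcos]
    calc sx ρ b * Real.exp b / ρ * (1 + b) = (sx ρ b * (1 + b)) * Real.exp b / ρ := by ring
      _ = 11 / 25 * ρ * Real.exp b / ρ := by rw [xr]
      _ = 11 / 25 * Real.exp b := by field_simp
  have h1b : 0 < 1 + b := by linarith
  have C0 : 11 / 25 ≤ Real.cos (sP ρ b) := by
    have h1 := Real.add_one_le_exp b
    by_contra hlt
    push Not at hlt
    nlinarith
  have C1 : Real.cos (sP ρ b) ≤ 53 / 100 := by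
    have h1 := tm_exp_le hb hD.y1
    by_contra hlt
    push Not at hlt
    nlinarith
  have hsc := Real.sin_sq_add_cos_sq (sP ρ b)
  have p0 := sP_nonneg hρ hb
  have hp2 := (abs_le.1 (sP_abs_le ρ b)).2
  have S00 : 0 ≤ Real.sin (sP ρ b) := Real.sin_nonneg_of_nonneg_of_le_pi p0 (by linarith [Real.pi_pos])
  have S0 : 21 / 25 ≤ Real.sin (sP ρ b) := by
    apply le_of_sq_le_sq _ S00
    nlinarith
  have p1 : sP ρ b ≤ 28 / 25 := by
    by_contra hlt
    push Not at hlt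
    have h1 := Real.cos_le_cos_of_nonneg_of_le_pi (by norm_num) (by linarith [Real.pi_pos]) hlt.le
    have := tm_cos_112
    linarith
  have hx' : sx ρ b = ρ * Real.exp (-b) * Real.cos (sP ρ b) := by
    rw [hcos]
    calc sx ρ b = sx ρ b * (Real.exp (-b) * Real.exp b) := by rw [hEE, mul_one]
      _ = _ := by field_simp
  have hb' : b = ρ * Real.exp (-b) * Real.sin (sP ρ b) := by
    rw [hsin]
    calc b = b * (Real.exp (-b) * Real.exp b) := by rw [hEE, mul_one]
      _ = _ := by field_simp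
  have b1 : b ≤ 33 / 50 := by
    by_contra hlt
    push Not at hlt
    have e1 : (193 / 100 : ℝ) ≤ Real.exp (33 / 50) := by
      have := Real.sum_le_exp_of_nonneg (x := 33 / 50) (by norm_num) 5
      norm_num [Finset.sum_range_succ, Nat.factorial] at this
      linarith
    have e2 : 193 / 100 * (1 + (b - 33 / 50)) ≤ Real.exp b := by
      have h1 : Real.exp b = Real.exp (33 / 50) * Real.exp (b - 33 / 50) := by
        rw [← Real.exp_add]; congr 1; ring
      have h2 := Real.add_one_le_exp (b - 33 / 50)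
      rw [h1]
      nlinarith [Real.exp_pos (33 / 50)]
    have e3 : 193 / 100 ≤ Real.exp b := by linarith
    -- the sine
    have h3 : 43 / 50 ≤ Real.sin (sP ρ b) := by
      rw [hsin, le_div_iff₀ hρ]
      nlinarith
    have h4 : 51 / 100 ≤ Real.cos (sP ρ b) := by
      by_contra hlt2
      push Not at hlt2
      nlinarith [hD.y1]
    nlinarith
  exact ⟨hx, hb, b1, hρ, hρ1, by positivity, hx', hb', xr, C0, S0, p0, p1, rfl⟩

/-- MON, positive side (true constant 1.2). -/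
theorem mon_pos {r ρ b ε : ℝ} (hr : 499 / 10 ≤ r) (hB : Bd ρ b) (hb : 0 ≤ b)
    (hε : 0 ≤ ε) (hs : |sE ρ b| + ε ≤ 2 * Real.pi / 3) :
    ‖W0 r (ρ / r) (sE ρ b + ε)‖ ≤ 15 * Mm r ρ b ∧
      ‖W1 r (ρ / r) (sE ρ b + ε)‖ ≤ 15 * (r * Real.exp (-b)) * Mm r ρ b := by
  have h := tm_PB hB hb
  have hr0 : 0 < r := by linarith
  have hρ := h.r0
  have hx0 := h.x0
  have hx1 := h.x1
  have hδ : 0 < ρ / r := by positivity
  have e : r * (ρ / r) = ρ := by field_simp
  have hδ1 : ρ / r ≤ ρ / (499 / 10) := div_le_div_of_nonneg_left hρ.le (by norm_num) hr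
  have hE : sP ρ b + ρ - sx ρ b + ε ≤ 2 * Real.pi / 3 := by
    have h1 := le_abs_self (sE ρ b)
    unfold sE at h1 hs
    linarith
  refine waves_of_mI hr0 hB.1.dom (by linarith) (by rw [abs_of_nonneg hb]; linarith [h.b1]) ?_
  intro j hj
  have hK : √(sx ρ b ^ 2 + b ^ 2) * Real.exp b = ρ := by
    have h2 : ‖sK ρ b‖ = √(sx ρ b ^ 2 + b ^ 2) := norm_K _ _
    rw [← h2, norm_sK hB.1.dom, mul_assoc, ← Real.exp_add]
    simp
  have hBq := s1_B hx0 hb hB.1.y1
  rw [hK] at hBq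
  have hl := s1_l hx0 hb hB.1.y1
  have hq := h.q
  have hl' : (1 + (1 / (1 + sx ρ b)) ^ 2) * √((1 + b) ^ 2 + sx ρ b ^ 2) ≤
      2 * (129 / 100) * Qf (sx ρ b) b := hl.trans (by nlinarith)
  have key := mI_le (r := r) (δ := ρ / r) (y := b) (θ := ε) (j := j) hj hδ (by linarith)
    (by rw [e]; exact hq) (by
      rw [e, le_div_iff₀ hδ]
      linarith) (by rw [e]; exact hl') (by
      rw [e]
      have hD1 : √((1 + b) ^ 2 + sx ρ b ^ 2) ≤ 18 / 10 := by
        apply Real.sqrt_le_iff.2 ⟨by norm_num, ?_⟩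
        nlinarith [h.b1, h.r1]
      have hc1 : (1 / (1 + sx ρ b)) ^ 2 ≤ 1 := by
        have h2 : 1 / (1 + sx ρ b) ≤ 1 := by
          rw [div_le_one (by linarith)]
          linarith
        have h3 : 0 ≤ 1 / (1 + sx ρ b) := by positivity
        nlinarith
      have hδ2 : ρ / r ≤ 29 / 998 := hδ1.trans (by linarith [h.r1])
      calc (1 + (1 / (1 + sx ρ b)) ^ 2) * √((1 + b) ^ 2 + sx ρ b ^ 2) * (ρ / r) ≤
            (1 + 1) * (18 / 10) * (29 / 998) := by gcongr
        _ ≤ 1 / 5 := by norm_num) (by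
      rw [e]
      exact h.point hε hE hδ hδ1)
  rw [e] at key
  exact key

end SokalF1T
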