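import Pool.Agent.Lib_MP_af4de1_f1.TopDefs

/-!
# The variational lower bound for the size of a wave

`sx ρ y * (1 + y)` is the maximum over `k` of `k (1 + log (ρ cos (η - ρ + k)/k))`, `η = sE ρ y`.
The test value `k = ρ (1 - λ)`, `λ = η ρ/R`, `R = 1 + ρ²` gives the angle `η/R`.
-/

set_option autoImplicit false

namespace SokalF1T

open Real SokalF1S Set

/-- maximum of a concave function at a critical point -/
theorem le_of_deriv2 {g g' g'' : ℝ → ℝ} {a b x k : ℝ} (hx : x ∈ Ioo a b) (hk : k ∈ Ioo a b)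
    (h1 : ∀ s ∈ Ioo a b, HasDerivAt g (g' s) s) (h2 : ∀ s ∈ Ioo a b, HasDerivAt g' (g'' s) s)
    (h3 : ∀ s ∈ Ioo a b, g'' s ≤ 0) (h4 : g' x = 0) : g k ≤ g x := by
  have hanti : AntitoneOn g' (Ioo a b) := by
    refine antitoneOn_of_deriv_nonpos (convex_Ioo a b)
      (fun s hs => (h2 s hs).continuousAt.continuousWithinAt)
      (fun s hs => ?_) (fun s hs => ?_)
    · rw [interior_Ioo] at hs
      exact (h2 s hs).differentiableAt.differentiableWithinAt
    · rw [interior_Ioo] at hs
      rw [(h2 s hs).deriv]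
      exact h3 s hs
  rcases le_total k x with h | h
  · have hsub : Icc k x ⊆ Ioo a b := fun s hs => ⟨hk.1.trans_le hs.1, hs.2.trans_lt hx.2⟩
    have hm : MonotoneOn g (Icc k x) := by
      refine monotoneOn_of_deriv_nonneg (convex_Icc k x)
        (fun s hs => (h1 s (hsub hs)).continuousAt.continuousWithinAt)
        (fun s hs => ?_) (fun s hs => ?_)
      · rw [interior_Icc] at hs
        exact (h1 s (hsub (Ioo_subset_Icc_self hs))).differentiableAt.differentiableWithinAt
      · rw [interior_Icc] at hs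
        have hs' := hsub (Ioo_subset_Icc_self hs)
        rw [(h1 s hs').deriv, ← h4]
        exact hanti hs' hx hs.2.le
    exact hm (left_mem_Icc.2 h) (right_mem_Icc.2 h) h
  · have hsub : Icc x k ⊆ Ioo a b := fun s hs => ⟨hx.1.trans_le hs.1, hs.2.trans_lt hk.2⟩
    have hm : AntitoneOn g (Icc x k) := by
      refine antitoneOn_of_deriv_nonpos (convex_Icc x k)
        (fun s hs => (h1 s (hsub hs)).continuousAt.continuousWithinAt)
        (fun s hs => ?_) (fun s hs => ?_)
      · rw [interior_Icc] at hs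
        exact (h1 s (hsub (Ioo_subset_Icc_self hs))).differentiableAt.differentiableWithinAt
      · rw [interior_Icc] at hs
        have hs' := hsub (Ioo_subset_Icc_self hs)
        rw [(h1 s hs').deriv, ← h4]
        exact hanti hx hs' hs.1.le
    exact hm (left_mem_Icc.2 h) (right_mem_Icc.2 h) h

/-- strict domain -/
theorem sP_abs_lt {ρ y : ℝ} (hρ : 0 < ρ) (h : |y| * Real.exp y < ρ) : |sP ρ y| < π / 2 := by
  have hD : Dom ρ y := ⟨hρ, h.le⟩
  have hc : 0 < Real.cos (sP ρ y) := by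
    rw [hD.cos]
    have := sx_pos hρ h
    have := Real.exp_pos y
    positivity
  have h1 := sP_abs_le ρ y
  rcases h1.lt_or_eq with h2 | h2
  · exact h2
  · exfalso
    rcases abs_eq (by positivity : (0 : ℝ) ≤ π / 2) |>.1 h2 with h3 | h3
    · rw [h3, Real.cos_pi_div_two] at hc
      exact lt_irrefl _ hc
    · rw [h3, Real.cos_neg, Real.cos_pi_div_two] at hc
      exact lt_irrefl _ hc

/-- The variational principle. -/
theorem var_le {ρ y k : ℝ} (hρ : 0 < ρ) (h : |y| * Real.exp y < ρ) (hk : 0 < k)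
    (hc : |sE ρ y - ρ + k| < π / 2) :
    k * (1 + Real.log (ρ * Real.cos (sE ρ y - ρ + k) / k)) ≤ sx ρ y * (1 + y) := by
  have hD : Dom ρ y := ⟨hρ, h.le⟩
  have hx := sx_pos hρ h
  have hψ := sP_abs_lt hρ h
  set θ := sE ρ y - ρ with hθ
  have hang : θ + sx ρ y = sP ρ y := by
    rw [hθ]; unfold sE; ring
  set a := max 0 (-(π / 2) - θ) with ha
  set b := π / 2 - θ with hb
  have hcos : ∀ s ∈ Ioo a b, 0 < Real.cos (θ + s) := by
    intro s hs
    apply Real.cos_pos_of_mem_Ioo
    have h1 := (max_lt_iff.1 hs.1).2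
    have h2 := hs.2
    constructor <;> [linarith; (rw [hb] at h2; linarith)]
  have hpos : ∀ s ∈ Ioo a b, 0 < s := fun s hs => (max_lt_iff.1 hs.1).1
  have mem : ∀ s, 0 < s → |θ + s| < π / 2 → s ∈ Ioo a b := by
    intro s hs hs2
    have := abs_lt.1 hs2
    refine ⟨max_lt hs (by linarith), ?_⟩
    rw [hb]; linarith
  have hxm : sx ρ y ∈ Ioo a b := mem _ hx (by rw [hang]; exact hψ)
  have hkm : k ∈ Ioo a b := mem _ hk hc
  have key := le_of_deriv2 (g := fun s => s * (1 + (Real.log ρ + Real.log (Real.cos (θ + s)) - Real.log s)))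
    (g' := fun s => (Real.log ρ + Real.log (Real.cos (θ + s)) - Real.log s) -
      s * (Real.sin (θ + s) / Real.cos (θ + s)))
    (g'' := fun s => -((1 + s * (Real.sin (θ + s) / Real.cos (θ + s))) ^ 2 + s ^ 2) / s)
    hxm hkm ?_ ?_ ?_ ?_
  · have e : ∀ s, 0 < s → 0 < Real.cos (θ + s) →
        Real.log (ρ * Real.cos (θ + s) / s) = Real.log ρ + Real.log (Real.cos (θ + s)) - Real.log s := by
      intro s h1 h2
      rw [Real.log_div (by positivity) h1.ne', Real.log_mul hρ.ne' h2.ne']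
    rw [e k hk (hcos k hkm)]
    refine key.trans (le_of_eq ?_)
    rw [← e _ hx (hcos _ hxm), hang, hD.cos]
    have e2 : ρ * (sx ρ y * Real.exp y / ρ) / sx ρ y = Real.exp y := by field_simp
    rw [e2, Real.log_exp]
  · intro s hs
    have hs0 := hpos s hs
    have hc0 := hcos s hs
    have d0 : HasDerivAt (fun s : ℝ => θ + s) 1 s := (hasDerivAt_id s).const_add θ
    have d1 : HasDerivAt (fun s => Real.cos (θ + s)) (-Real.sin (θ + s)) s :=
      d0.cos.congr_deriv (by ring)
    have d2 : HasDerivAt (fun s => Real.log (Real.cos (θ + s))) (-Real.sin (θ + s) / Real.cos (θ + s)) s :=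
      d1.log hc0.ne'
    have d3 := (Real.hasDerivAt_log hs0.ne')
    have d4 := (hasDerivAt_id s).mul ((((d2.const_add (Real.log ρ)).sub d3)).const_add 1)
    refine d4.congr_deriv ?_
    simp only [id, Pi.sub_apply]
    field_simp
    ring
  · intro s hs
    have hs0 := hpos s hs
    have hc0 := hcos s hs
    have d0 : HasDerivAt (fun s : ℝ => θ + s) 1 s := (hasDerivAt_id s).const_add θ
    have d1 : HasDerivAt (fun s => Real.cos (θ + s)) (-Real.sin (θ + s)) s :=
      d0.cos.congr_deriv (by ring)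
    have d1' : HasDerivAt (fun s => Real.sin (θ + s)) (Real.cos (θ + s)) s :=
      d0.sin.congr_deriv (by ring)
    have d2 : HasDerivAt (fun s => Real.log (Real.cos (θ + s))) (-Real.sin (θ + s) / Real.cos (θ + s)) s :=
      d1.log hc0.ne'
    have d3 := (Real.hasDerivAt_log hs0.ne')
    have d4 := ((d2.const_add (Real.log ρ)).sub d3).sub
      ((hasDerivAt_id s).mul (d1'.div d1 hc0.ne'))
    refine d4.congr_deriv ?_
    simp only [id, Pi.div_apply]
    field_simp
    ring
  · intro s hs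
    have hs0 := hpos s hs
    have : 0 ≤ ((1 + s * (Real.sin (θ + s) / Real.cos (θ + s))) ^ 2 + s ^ 2) := by positivity
    rw [neg_div]
    exact neg_nonpos.2 (div_nonneg this hs0.le)
  · rw [hang, hD.cos, hD.sin]
    have e3 : Real.log ρ + Real.log (sx ρ y * Real.exp y / ρ) - Real.log (sx ρ y) = y := by
      rw [Real.log_div (by positivity) hρ.ne', Real.log_mul hx.ne' (Real.exp_pos y).ne', Real.log_exp]
      ring
    rw [e3]
    have := Real.exp_pos y
    field_simp
    ring

/-- The explicit lower bound (test value `k = ρ (1 - λ)`). -/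
theorem ph_ge {ρ y : ℝ} (hρ : 0 < ρ) (h : |y| * Real.exp y < ρ)
    (hl : sE ρ y * ρ / (1 + ρ ^ 2) < 1) (hc : |sE ρ y / (1 + ρ ^ 2)| < π / 2) :
    (1 - sE ρ y * ρ / (1 + ρ ^ 2)) * (1 + Real.log (Real.cos (sE ρ y / (1 + ρ ^ 2))) -
      Real.log (1 - sE ρ y * ρ / (1 + ρ ^ 2))) ≤ ph ρ y := by
  have hR : 0 < 1 + ρ ^ 2 := by positivity
  set η := sE ρ y with hη
  set lam := η * ρ / (1 + ρ ^ 2) with hlam
  have hl' : 0 < 1 - lam := by linarith
  have e1 : η - ρ + ρ * (1 - lam) = η / (1 + ρ ^ 2) := by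
    rw [hlam]; field_simp; ring
  have key := var_le (k := ρ * (1 - lam)) hρ h (by positivity) (by rw [← hη, e1]; exact hc)
  rw [← hη, e1] at key
  have hcp : 0 < Real.cos (η / (1 + ρ ^ 2)) :=
    Real.cos_pos_of_mem_Ioo ⟨(abs_lt.1 hc).1, (abs_lt.1 hc).2⟩
  have e2 : ρ * Real.cos (η / (1 + ρ ^ 2)) / (ρ * (1 - lam)) = Real.cos (η / (1 + ρ ^ 2)) / (1 - lam) := by
    field_simp
  rw [e2, Real.log_div hcp.ne' hl'.ne'] at key
  unfold ph
  rw [le_div_iff₀ hρ]
  calc _ = ρ * (1 - lam) * (1 + (Real.log (Real.cos (η / (1 + ρ ^ 2))) - Real.log (1 - lam))) := by ring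
    _ ≤ _ := key

end SokalF1T
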