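import Pool.Agent.Lib_MP_af4de1_f1.Alg

/-!
# (U) with exactly two pieces

`F = R + L`, `R = p0 + P`, `DR = κ0 p0 + Q`, `D²R = (κ0² + l0) p0 + S`, and the same for `L` with `κ1, p1`.
With `κ_R = DR/R`, `l_R = D²R/R - κ_R²`:
`D²F/DF - DF/F = (κ_R + m)(κ_L + m)/m · (1 + X)`, `X = (l_R/(κ_R+m) - l_L/(κ_L+m))/(κ_R - κ_L)`.
-/

set_option autoImplicit false

namespace SokalF1

theorem Cone.mul {s t : ℝ} {u v : ℂ} (hu : Cone s u) (hv : Cone t v) (hs : 0 ≤ s) (ht : 0 ≤ t)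
    (hst : s * t < 1) : Cone ((s + t) / (1 - s * t)) (u * v) := by
  obtain ⟨a1, b1⟩ := hu
  obtain ⟨a2, b2⟩ := hv
  have hp : 0 < u.re * v.re := mul_pos a1 a2
  have c1 : |u.im * v.im| ≤ s * t * (u.re * v.re) := by
    rw [abs_mul]
    calc |u.im| * |v.im| ≤ (s * u.re) * (t * v.re) := by gcongr
      _ = _ := by ring
  have c2 : |u.re * v.im + u.im * v.re| ≤ (s + t) * (u.re * v.re) := by
    refine (abs_add_le _ _).trans ?_
    rw [abs_mul, abs_mul, abs_of_pos a1, abs_of_pos a2]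
    calc u.re * |v.im| + |u.im| * v.re ≤ u.re * (t * v.re) + (s * u.re) * v.re := by gcongr
      _ = _ := by ring
  have hre : (1 - s * t) * (u.re * v.re) ≤ (u * v).re := by
    rw [Complex.mul_re]
    have := (abs_le.1 c1).2
    linarith
  have h1 : 0 < 1 - s * t := by linarith
  refine ⟨lt_of_lt_of_le (by positivity) hre, ?_⟩
  rw [Complex.mul_im, div_mul_eq_mul_div, le_div_iff₀ h1]
  have h2 : (s + t) * ((1 - s * t) * (u.re * v.re)) ≤ (s + t) * (u * v).re := by gcongr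
  calc |u.re * v.im + u.im * v.re| * (1 - s * t) ≤ (s + t) * (u.re * v.re) * (1 - s * t) := by gcongr
    _ = (s + t) * ((1 - s * t) * (u.re * v.re)) := by ring
    _ ≤ _ := h2

/-- One piece: `κ_R - κ0` and `l_R`. -/
theorem piece_bounds {κ0 l0 p0 P Q S : ℂ} {r H b0 b1 b2 d : ℝ} (hp : p0 ≠ 0) (hb01 : b0 < 1)
    (hH : 0 ≤ H) (hd : ‖κ0 - r‖ ≤ d * H)
    (h0 : ‖P‖ ≤ b0 * ‖p0‖) (h1 : ‖Q - r * P‖ ≤ b1 * H * ‖p0‖)
    (h2 : ‖S - 2 * r * Q + r ^ 2 * P‖ ≤ b2 * H ^ 2 * ‖p0‖) :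
    p0 + P ≠ 0 ∧ ‖(κ0 * p0 + Q) / (p0 + P) - κ0‖ ≤ (b1 + d * b0) / (1 - b0) * H ∧
      ‖((κ0 ^ 2 + l0) * p0 + S) / (p0 + P) - ((κ0 * p0 + Q) / (p0 + P)) ^ 2‖ ≤
        ((b1 + d * b0) / (1 - b0) * H) ^ 2 + (‖l0‖ + (b2 + 2 * d * b1 + d ^ 2 * b0) * H ^ 2) / (1 - b0) := by
  have hnp : 0 < ‖p0‖ := norm_pos_iff.2 hp
  have hb0 : 0 ≤ b0 := by
    have := (norm_nonneg P).trans h0
    exact nonneg_of_mul_nonneg_left this hnp
  have hb1H : 0 ≤ b1 * H := by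
    have := (norm_nonneg _).trans h1
    exact nonneg_of_mul_nonneg_left this hnp
  have hdH : 0 ≤ d * H := (norm_nonneg _).trans hd
  have hlow : (1 - b0) * ‖p0‖ ≤ ‖p0 + P‖ := by
    have := norm_sub_le_norm_add p0 P
    nlinarith
  have h1b : 0 < 1 - b0 := by linarith
  have hpos : 0 < ‖p0 + P‖ := lt_of_lt_of_le (by positivity) hlow
  have hne : p0 + P ≠ 0 := norm_pos_iff.1 hpos
  have e1 : (κ0 * p0 + Q) / (p0 + P) - κ0 = (Q - κ0 * P) / (p0 + P) := by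
    field_simp
    ring
  have n1 : ‖Q - κ0 * P‖ ≤ (b1 + d * b0) * H * ‖p0‖ := by
    have e : Q - κ0 * P = (Q - r * P) - (κ0 - r) * P := by ring
    rw [e]
    refine (norm_sub_le _ _).trans ?_
    rw [norm_mul]
    have : ‖κ0 - r‖ * ‖P‖ ≤ (d * H) * (b0 * ‖p0‖) := mul_le_mul hd h0 (norm_nonneg _) hdH
    nlinarith
  have c1 : ‖(κ0 * p0 + Q) / (p0 + P) - κ0‖ ≤ (b1 + d * b0) / (1 - b0) * H := by
    rw [e1, norm_div, div_le_iff₀ hpos]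
    have h3 : 0 ≤ (b1 + d * b0) * H := by
      have := (norm_nonneg _).trans n1
      exact nonneg_of_mul_nonneg_left this hnp
    calc ‖Q - κ0 * P‖ ≤ (b1 + d * b0) * H * ‖p0‖ := n1
      _ = (b1 + d * b0) / (1 - b0) * H * ((1 - b0) * ‖p0‖) := by
        field_simp
      _ ≤ _ := by
        have h4 : 0 ≤ (b1 + d * b0) / (1 - b0) * H := by
          have : (b1 + d * b0) / (1 - b0) * H = ((b1 + d * b0) * H) / (1 - b0) := by ring
          rw [this]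
          positivity
        exact mul_le_mul_of_nonneg_left hlow h4
  refine ⟨hne, c1, ?_⟩
  have e2 : ((κ0 ^ 2 + l0) * p0 + S) / (p0 + P) - ((κ0 * p0 + Q) / (p0 + P)) ^ 2 =
      (l0 * p0 + ((S - 2 * r * Q + r ^ 2 * P) - 2 * (κ0 - r) * (Q - r * P) + (κ0 - r) ^ 2 * P)) / (p0 + P) -
        ((κ0 * p0 + Q) / (p0 + P) - κ0) ^ 2 := by
    field_simp
    ring
  rw [e2]
  refine (norm_sub_le _ _).trans ?_
  rw [add_comm]
  refine add_le_add ?_ ?_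
  · rw [norm_pow]
    exact pow_le_pow_left₀ (norm_nonneg _) c1 2
  · rw [norm_div, div_le_iff₀ hpos]
    have n2 : ‖l0 * p0 + ((S - 2 * r * Q + r ^ 2 * P) - 2 * (κ0 - r) * (Q - r * P) + (κ0 - r) ^ 2 * P)‖ ≤
        (‖l0‖ + (b2 + 2 * d * b1 + d ^ 2 * b0) * H ^ 2) * ‖p0‖ := by
      refine (norm_add_le _ _).trans ?_
      have k1 : ‖(S - 2 * r * Q + r ^ 2 * P) - 2 * (κ0 - r) * (Q - r * P) + (κ0 - r) ^ 2 * P‖ ≤
          ‖S - 2 * r * Q + r ^ 2 * P‖ + 2 * ‖κ0 - r‖ * ‖Q - r * P‖ + ‖κ0 - r‖ ^ 2 * ‖P‖ := by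
        refine (norm_add_le _ _).trans ?_
        refine add_le_add ((norm_sub_le _ _).trans (le_of_eq ?_)) (le_of_eq ?_)
        · rw [norm_mul, norm_mul, Complex.norm_ofNat]
        · rw [norm_mul, norm_pow]
      have k2 : ‖κ0 - r‖ * ‖Q - r * P‖ ≤ (d * H) * (b1 * H * ‖p0‖) :=
        mul_le_mul hd h1 (norm_nonneg _) hdH
      have k3 : ‖κ0 - r‖ ^ 2 * ‖P‖ ≤ (d * H) ^ 2 * (b0 * ‖p0‖) :=
        mul_le_mul (pow_le_pow_left₀ (norm_nonneg _) hd 2) h0 (norm_nonneg _) (by positivity)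
      rw [norm_mul]
      nlinarith
    have h3 : 0 ≤ (‖l0‖ + (b2 + 2 * d * b1 + d ^ 2 * b0) * H ^ 2) := by
      have := (norm_nonneg _).trans n2
      exact nonneg_of_mul_nonneg_left this hnp
    calc _ ≤ (‖l0‖ + (b2 + 2 * d * b1 + d ^ 2 * b0) * H ^ 2) * ‖p0‖ := n2
      _ = (‖l0‖ + (b2 + 2 * d * b1 + d ^ 2 * b0) * H ^ 2) / (1 - b0) * ((1 - b0) * ‖p0‖) := by
        field_simp
      _ ≤ _ := mul_le_mul_of_nonneg_left hlow (by positivity)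

/-- (U) for two pieces, from bounds on the pieces. -/
theorem U_two {R DR D2R L DL D2L : ℂ} {m : ℝ} (hm : 0 < m) (hR : R ≠ 0) (hL : L ≠ 0)
    (h : (DR + DL) + m * (R + L) = 0) {tA χ : ℝ} (htA : 0 ≤ tA)
    (hA : Cone tA ((DR / R + m) * (DL / L + m))) (hne : DR / R - DL / L ≠ 0)
    (hX : ‖((D2R / R - (DR / R) ^ 2) / (DR / R + m) - (D2L / L - (DL / L) ^ 2) / (DL / L + m)) /
      (DR / R - DL / L)‖ ≤ χ) (hχ : χ < 1) (ht : tA * (χ / √(1 - χ ^ 2)) < 1) :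
    0 < ((D2R + D2L) / (DR + DL) - (DR + DL) / (R + L)).re := by
  have hprod := hA.ne_zero
  have h0 : DR / R + m ≠ 0 := left_ne_zero_of_mul hprod
  have h1 : DL / L + m ≠ 0 := right_ne_zero_of_mul hprod
  have key := U_pos (κ0 := DR / R) (κ1 := DL / L) (l0 := D2R / R - (DR / R) ^ 2)
    (l1 := D2L / L - (DL / L) ^ 2) (p0 := R) (p1 := L) (P := 0) (Q := 0) (S := 0) (m := m) hm
    (by
      rw [div_mul_cancel₀ _ hR, div_mul_cancel₀ _ hL]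
      linear_combination h) h0 h1 hne hR (tA := tA) (χ := χ) (b := 0) (n := 0) htA hA
    (by simp) (by norm_num) hX (by simp) (by linarith) (by simpa using ht)
  have e1 : ((DR / R) ^ 2 + (D2R / R - (DR / R) ^ 2)) * R = D2R := by
    field_simp
    ring
  have e2 : ((DL / L) ^ 2 + (D2L / L - (DL / L) ^ 2)) * L = D2L := by
    field_simp
    ring
  rw [e1, e2, div_mul_cancel₀ _ hR, div_mul_cancel₀ _ hL, add_zero, add_zero, add_zero] at key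
  exact key

/-- (U) from the data of the two top waves and absolute sums over the far waves. -/
theorem U_waves {κ0 κ1 l0 l1 p0 p1 P Q S P' Q' S' : ℂ} {r m H b0 b1 b2 d cm cD ℓ e τ tA χ : ℝ}
    (hm : 0 < m) (hr : 0 < r) (hH : 0 < H) (hp0 : p0 ≠ 0) (hp1 : p1 ≠ 0) (hb01 : b0 < 1)
    (h : (κ0 * p0 + Q + (κ1 * p1 + Q')) + m * (p0 + P + (p1 + P')) = 0)
    (hd0 : ‖κ0 - r‖ ≤ d * H) (hd1 : ‖κ1 - r‖ ≤ d * H)
    (h00 : ‖P‖ ≤ b0 * ‖p0‖) (h01 : ‖Q - r * P‖ ≤ b1 * H * ‖p0‖)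
    (h02 : ‖S - 2 * r * Q + r ^ 2 * P‖ ≤ b2 * H ^ 2 * ‖p0‖)
    (h10 : ‖P'‖ ≤ b0 * ‖p1‖) (h11 : ‖Q' - r * P'‖ ≤ b1 * H * ‖p1‖)
    (h12 : ‖S' - 2 * r * Q' + r ^ 2 * P'‖ ≤ b2 * H ^ 2 * ‖p1‖)
    (hl0 : ‖l0‖ ≤ ℓ) (hl1 : ‖l1‖ ≤ ℓ)
    (hm0 : cm * r ≤ ‖κ0 + m‖) (hm1 : cm * r ≤ ‖κ1 + m‖) (hD : cD * H ≤ ‖κ0 - κ1‖)
    (htA : 0 ≤ tA) (hA : Cone tA ((κ0 + m) * (κ1 + m)))
    (he : (b1 + d * b0) / (1 - b0) ≤ e) (he0 : e * H < cm * r) (heD : 2 * e < cD)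
    (hτ : (e * H / (cm * r)) / √(1 - (e * H / (cm * r)) ^ 2) ≤ τ) (hτ1 : τ * τ < 1)
    (hτA : (τ + τ) / (1 - τ * τ) * tA < 1)
    (hχ : 2 * ((e * H) ^ 2 + (ℓ + (b2 + 2 * d * b1 + d ^ 2 * b0) * H ^ 2) / (1 - b0)) ≤
      χ * ((cm * r - e * H) * ((cD - 2 * e) * H))) (hχ1 : χ < 1)
    (ht : ((τ + τ) / (1 - τ * τ) + tA) / (1 - (τ + τ) / (1 - τ * τ) * tA) * (χ / √(1 - χ ^ 2)) < 1) :
    0 < (((κ0 ^ 2 + l0) * p0 + S + ((κ1 ^ 2 + l1) * p1 + S')) / (κ0 * p0 + Q + (κ1 * p1 + Q')) -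
      (κ0 * p0 + Q + (κ1 * p1 + Q')) / (p0 + P + (p1 + P'))).re := by
  obtain ⟨a1, a2, a3⟩ := piece_bounds (l0 := l0) hp0 hb01 hH.le hd0 h00 h01 h02
  obtain ⟨c1, c2, c3⟩ := piece_bounds (l0 := l1) hp1 hb01 hH.le hd1 h10 h11 h12
  set KR := (κ0 * p0 + Q) / (p0 + P) with hKR
  set KL := (κ1 * p1 + Q') / (p1 + P') with hKL
  have h1b : 0 < 1 - b0 := by linarith
  have a2' : ‖KR - κ0‖ ≤ e * H := a2.trans (mul_le_mul_of_nonneg_right he hH.le)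
  have c2' : ‖KL - κ1‖ ≤ e * H := c2.trans (mul_le_mul_of_nonneg_right he hH.le)
  have heH : 0 ≤ e * H := (norm_nonneg _).trans a2'
  have he00 : 0 ≤ e := nonneg_of_mul_nonneg_left heH hH
  have hcm : 0 < cm * r := lt_of_le_of_lt heH he0
  -- the main cone
  have hz0 : ‖(KR - κ0) / (κ0 + m)‖ ≤ e * H / (cm * r) := by
    rw [norm_div]
    exact div_le_div₀ heH a2' hcm hm0
  have hz1 : ‖(KL - κ1) / (κ1 + m)‖ ≤ e * H / (cm * r) := by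
    rw [norm_div]
    exact div_le_div₀ heH c2' hcm hm1
  have hk0 : κ0 + m ≠ 0 := norm_pos_iff.1 (lt_of_lt_of_le hcm hm0)
  have hk1 : κ1 + m ≠ 0 := norm_pos_iff.1 (lt_of_lt_of_le hcm hm1)
  have hlt : e * H / (cm * r) < 1 := by rwa [div_lt_one hcm]
  have cc0 := (Cone.one_add hlt hz0).mono hτ
  have cc1 := (Cone.one_add hlt hz1).mono hτ
  have hτ0 : 0 ≤ τ := le_trans (by positivity) hτ
  have cc := cc0.mul cc1 hτ0 hτ0 hτ1
  have hτ2 : 0 ≤ (τ + τ) / (1 - τ * τ) := by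
    have : 0 < 1 - τ * τ := by linarith
    positivity
  have cA := cc.mul hA hτ2 htA hτA
  have eA : (1 + (KR - κ0) / (κ0 + m)) * (1 + (KL - κ1) / (κ1 + m)) * ((κ0 + m) * (κ1 + m)) =
      (KR + m) * (KL + m) := by
    field_simp
    ring
  rw [eA] at cA
  -- lower bounds
  have dR : cm * r - e * H ≤ ‖KR + m‖ := by
    have e5 : κ0 + m = (KR + m) - (KR - κ0) := by ring
    have := norm_sub_le (KR + m) (KR - κ0)
    rw [← e5] at this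
    linarith
  have dL : cm * r - e * H ≤ ‖KL + m‖ := by
    have e5 : κ1 + m = (KL + m) - (KL - κ1) := by ring
    have := norm_sub_le (KL + m) (KL - κ1)
    rw [← e5] at this
    linarith
  have dD : (cD - 2 * e) * H ≤ ‖KR - KL‖ := by
    have e5 : κ0 - κ1 = (KR - KL) - ((KR - κ0) - (KL - κ1)) := by ring
    have h6 := norm_sub_le (KR - KL) ((KR - κ0) - (KL - κ1))
    rw [← e5] at h6
    have h7 := norm_sub_le (KR - κ0) (KL - κ1)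
    linarith
  have pm : 0 < cm * r - e * H := by linarith
  have pD : 0 < (cD - 2 * e) * H := mul_pos (by linarith) hH
  set Y := (e * H) ^ 2 + (ℓ + (b2 + 2 * d * b1 + d ^ 2 * b0) * H ^ 2) / (1 - b0) with hY
  have yR : ‖((κ0 ^ 2 + l0) * p0 + S) / (p0 + P) - KR ^ 2‖ ≤ Y := by
    refine a3.trans ?_
    have h8 : 0 ≤ (b1 + d * b0) / (1 - b0) * H := (norm_nonneg _).trans a2
    have h9 : ((b1 + d * b0) / (1 - b0) * H) ^ 2 ≤ (e * H) ^ 2 :=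
      pow_le_pow_left₀ h8 (mul_le_mul_of_nonneg_right he hH.le) 2
    have h10 : (‖l0‖ + (b2 + 2 * d * b1 + d ^ 2 * b0) * H ^ 2) / (1 - b0) ≤
        (ℓ + (b2 + 2 * d * b1 + d ^ 2 * b0) * H ^ 2) / (1 - b0) := by gcongr
    exact add_le_add h9 h10
  have yL : ‖((κ1 ^ 2 + l1) * p1 + S') / (p1 + P') - KL ^ 2‖ ≤ Y := by
    refine c3.trans ?_
    have h8 : 0 ≤ (b1 + d * b0) / (1 - b0) * H := (norm_nonneg _).trans c2
    have h9 : ((b1 + d * b0) / (1 - b0) * H) ^ 2 ≤ (e * H) ^ 2 :=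
      pow_le_pow_left₀ h8 (mul_le_mul_of_nonneg_right he hH.le) 2
    have h10 : (‖l1‖ + (b2 + 2 * d * b1 + d ^ 2 * b0) * H ^ 2) / (1 - b0) ≤
        (ℓ + (b2 + 2 * d * b1 + d ^ 2 * b0) * H ^ 2) / (1 - b0) := by gcongr
    exact add_le_add h9 h10
  have hY0 : 0 ≤ Y := (norm_nonneg _).trans yR
  have hKD : KR - KL ≠ 0 := norm_pos_iff.1 (lt_of_lt_of_le pD dD)
  refine U_two hm a1 c1 h ?_ cA hKD (χ := χ) ?_ hχ1 ht
  · have : 0 < 1 - (τ + τ) / (1 - τ * τ) * tA := by linarith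
    positivity
  · rw [norm_div]
    rw [div_le_iff₀ (lt_of_lt_of_le pD dD)]
    have x1 : ‖(((κ0 ^ 2 + l0) * p0 + S) / (p0 + P) - KR ^ 2) / (KR + m)‖ ≤ Y / (cm * r - e * H) := by
      rw [norm_div]
      exact div_le_div₀ hY0 yR pm dR
    have x2 : ‖(((κ1 ^ 2 + l1) * p1 + S') / (p1 + P') - KL ^ 2) / (KL + m)‖ ≤ Y / (cm * r - e * H) := by
      rw [norm_div]
      exact div_le_div₀ hY0 yL pm dL
    have x3 := (norm_sub_le _ _).trans (add_le_add x1 x2)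
    refine x3.trans ?_
    have hχ0 : 0 ≤ χ := by
      by_contra hcon
      push Not at hcon
      have : χ * ((cm * r - e * H) * ((cD - 2 * e) * H)) < 0 :=
        mul_neg_of_neg_of_pos hcon (mul_pos pm pD)
      linarith
    have x4 : Y / (cm * r - e * H) + Y / (cm * r - e * H) ≤ χ * ((cD - 2 * e) * H) := by
      rw [← add_div, div_le_iff₀ pm]
      calc Y + Y = 2 * Y := by ring
        _ ≤ _ := hχ
        _ = _ := by ring
    exact x4.trans (mul_le_mul_of_nonneg_left dD hχ0)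

end SokalF1
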