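import Pool.Agent.Lib_MP_af4de1_f1.Alg
import Pool.Agent.Lib_MP_af4de1_f1.TwoPiece

/-!
# (U) for exactly two waves, from the data of their saddle points
-/

set_option autoImplicit false

namespace SokalF1

/-- The product of two points, one above and one below the real axis. -/
theorem cone_pair {a b : ℂ} {T : ℝ} (ha : 0 < a.re) (hb : 0 < b.re) (hai : 0 ≤ a.im) (hbi : b.im ≤ 0)
    (h1 : a.im ≤ T * a.re) (h2 : -b.im ≤ T * b.re) : Cone T (a * b) := by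
  have hab : 0 < a.re * b.re := mul_pos ha hb
  have hT : 0 ≤ T := by
    by_contra h
    push Not at h
    nlinarith
  have hre : a.re * b.re ≤ (a * b).re := by
    rw [Complex.mul_re]
    nlinarith
  refine ⟨lt_of_lt_of_le hab hre, ?_⟩
  have h3 : T * (a.re * b.re) ≤ T * (a * b).re := mul_le_mul_of_nonneg_left hre hT
  rw [Complex.mul_im]
  refine (abs_le.2 ⟨?_, ?_⟩).trans h3
  · nlinarith [mul_le_mul_of_nonneg_left h2 ha.le, mul_nonneg hai hb.le]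
  · nlinarith [mul_le_mul_of_nonneg_right h1 hb.le, mul_nonneg ha.le (neg_nonneg.2 hbi)]

theorem norm_le_add {s : ℂ} {m : ℝ} (hs : 0 ≤ s.re) (hm : 0 ≤ m) : ‖s‖ ≤ ‖s + m‖ := by
  rw [← Real.sqrt_sq (norm_nonneg s), ← Real.sqrt_sq (norm_nonneg (s + m))]
  apply Real.sqrt_le_sqrt
  rw [Complex.sq_norm, Complex.sq_norm, Complex.normSq_apply, Complex.normSq_apply]
  simp only [Complex.add_re, Complex.ofReal_re, Complex.add_im, Complex.ofReal_im, add_zero]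
  nlinarith [mul_nonneg hs hm]

theorem div_sqrt_le {e τ : ℝ} (_he : 0 ≤ e) (he1 : e < 1) (hτ : 0 ≤ τ) (h : e ^ 2 ≤ τ ^ 2 * (1 - e ^ 2)) :
    e / √(1 - e ^ 2) ≤ τ := by
  have hs : 0 < 1 - e ^ 2 := by nlinarith
  have h2 : 0 < √(1 - e ^ 2) := Real.sqrt_pos.2 hs
  rw [div_le_iff₀ h2]
  refine abs_le_of_sq_le_sq' ?_ (by positivity) |>.2
  rw [mul_pow, Real.sq_sqrt hs.le]
  exact h

/-- (U) for two waves. -/
theorem two_core {κ0 κ1 l0 l1 p0 p1 s0 s1 : ℂ} {m C0 C1 A0 A1 L0 L1 T Δ χ z0 z1 τ0 τ1 t tA τχ : ℝ}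
    (hm : 0 < m) (h : κ0 * p0 + κ1 * p1 + m * (p0 + p1) = 0) (hp : p0 ≠ 0)
    (hs0 : 0 < s0.re) (hs1 : 0 < s1.re) (hi0 : 0 ≤ s0.im) (hi1 : s1.im ≤ 0)
    (hT0 : s0.im ≤ T * s0.re) (hT1 : -s1.im ≤ T * s1.re)
    (hC0 : ‖κ0 - s0‖ ≤ C0) (hC1 : ‖κ1 - s1‖ ≤ C1)
    (hA0 : A0 ≤ ‖s0‖) (hA1 : A1 ≤ ‖s1‖) (hA0p : 0 < A0) (hA1p : 0 < A1)
    (hz0 : C0 ≤ z0 * A0) (hz1 : C1 ≤ z1 * A1) (hz01 : z0 < 1) (hz11 : z1 < 1)
    (hτ0 : 0 ≤ τ0) (hτ1 : 0 ≤ τ1) (hτ0' : z0 ^ 2 ≤ τ0 ^ 2 * (1 - z0 ^ 2))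
    (hτ1' : z1 ^ 2 ≤ τ1 ^ 2 * (1 - z1 ^ 2)) (hττ : τ0 * τ1 < 1)
    (ht : τ0 + τ1 ≤ t * (1 - τ0 * τ1)) (htT : t * T < 1) (htA : t + T ≤ tA * (1 - t * T))
    (hΔ : Δ ≤ s1.re - s0.re) (hΔ0 : 0 < Δ - C0 - C1)
    (hl0 : ‖l0‖ ≤ L0) (hl1 : ‖l1‖ ≤ L1)
    (hχ : L0 / ((1 - z0) * A0) + L1 / ((1 - z1) * A1) ≤ χ * (Δ - C0 - C1)) (hχ1 : χ < 1)
    (hτχ : 0 ≤ τχ) (hτχ' : χ ^ 2 ≤ τχ ^ 2 * (1 - χ ^ 2)) (hfin : tA * τχ < 1) :
    0 < (((κ0 ^ 2 + l0) * p0 + (κ1 ^ 2 + l1) * p1) / (κ0 * p0 + κ1 * p1) -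
      (κ0 * p0 + κ1 * p1) / (p0 + p1)).re := by
  have hC00 : 0 ≤ C0 := (norm_nonneg _).trans hC0
  have hC10 : 0 ≤ C1 := (norm_nonneg _).trans hC1
  have hz00 : 0 ≤ z0 := by
    by_contra hh
    push Not at hh
    nlinarith
  have hz10 : 0 ≤ z1 := by
    by_contra hh
    push Not at hh
    nlinarith
  have hT : 0 ≤ T := by
    by_contra hh
    push Not at hh
    nlinarith
  have htt : 0 ≤ t := by
    by_contra hh
    push Not at hh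
    nlinarith
  have htA0 : 0 ≤ tA := by
    by_contra hh
    push Not at hh
    nlinarith
  have n0 : A0 ≤ ‖s0 + m‖ := hA0.trans (norm_le_add hs0.le hm.le)
  have n1 : A1 ≤ ‖s1 + m‖ := hA1.trans (norm_le_add hs1.le hm.le)
  have n0p : 0 < ‖s0 + m‖ := lt_of_lt_of_le hA0p n0
  have n1p : 0 < ‖s1 + m‖ := lt_of_lt_of_le hA1p n1
  have ne0 : s0 + m ≠ 0 := norm_pos_iff.1 n0p
  have ne1 : s1 + m ≠ 0 := norm_pos_iff.1 n1p
  -- the quotients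
  have q0 : ‖(κ0 - s0) / (s0 + m)‖ ≤ z0 := by
    rw [norm_div, div_le_iff₀ n0p]
    calc ‖κ0 - s0‖ ≤ z0 * A0 := hC0.trans hz0
      _ ≤ z0 * ‖s0 + m‖ := mul_le_mul_of_nonneg_left n0 hz00
  have q1 : ‖(κ1 - s1) / (s1 + m)‖ ≤ z1 := by
    rw [norm_div, div_le_iff₀ n1p]
    calc ‖κ1 - s1‖ ≤ z1 * A1 := hC1.trans hz1
      _ ≤ z1 * ‖s1 + m‖ := mul_le_mul_of_nonneg_left n1 hz10
  have c0 := (Cone.one_add hz01 q0).mono (div_sqrt_le hz00 hz01 hτ0 hτ0')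
  have c1 := (Cone.one_add hz11 q1).mono (div_sqrt_le hz10 hz11 hτ1 hτ1')
  have hττ' : 0 < 1 - τ0 * τ1 := by linarith
  have c01 := (c0.mul c1 hτ0 hτ1 hττ).mono (by rwa [div_le_iff₀ hττ'] : (τ0 + τ1) / (1 - τ0 * τ1) ≤ t)
  have cs : Cone T ((s0 + m) * (s1 + m)) := by
    refine cone_pair ?_ ?_ ?_ ?_ ?_ ?_
    · simp only [Complex.add_re, Complex.ofReal_re]; linarith
    · simp only [Complex.add_re, Complex.ofReal_re]; linarith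
    · simp only [Complex.add_im, Complex.ofReal_im, add_zero]; exact hi0
    · simp only [Complex.add_im, Complex.ofReal_im, add_zero]; exact hi1
    · simp only [Complex.add_im, Complex.ofReal_im, add_zero, Complex.add_re, Complex.ofReal_re]
      nlinarith
    · simp only [Complex.add_im, Complex.ofReal_im, add_zero, Complex.add_re, Complex.ofReal_re]
      nlinarith
  have htT' : 0 < 1 - t * T := by linarith
  have cA := (c01.mul cs htt hT htT).mono (by rwa [div_le_iff₀ htT'] : (t + T) / (1 - t * T) ≤ tA)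
  have eA : (1 + (κ0 - s0) / (s0 + m)) * (1 + (κ1 - s1) / (s1 + m)) * ((s0 + m) * (s1 + m)) =
      (κ0 + m) * (κ1 + m) := by
    field_simp
    ring
  rw [eA] at cA
  -- lower bounds
  have d0 : (1 - z0) * A0 ≤ ‖κ0 + m‖ := by
    have e5 : κ0 + m = (s0 + m) + (κ0 - s0) := by ring
    have h5 := norm_sub_le_norm_add (s0 + (m : ℂ)) (κ0 - s0)
    rw [← e5] at h5
    linarith
  have d1 : (1 - z1) * A1 ≤ ‖κ1 + m‖ := by
    have e5 : κ1 + m = (s1 + m) + (κ1 - s1) := by ring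
    have h5 := norm_sub_le_norm_add (s1 + (m : ℂ)) (κ1 - s1)
    rw [← e5] at h5
    linarith
  have p0' : 0 < (1 - z0) * A0 := mul_pos (by linarith) hA0p
  have p1' : 0 < (1 - z1) * A1 := mul_pos (by linarith) hA1p
  have e0 : κ0 + m ≠ 0 := norm_pos_iff.1 (lt_of_lt_of_le p0' d0)
  have e1 : κ1 + m ≠ 0 := norm_pos_iff.1 (lt_of_lt_of_le p1' d1)
  have dΔ : Δ - C0 - C1 ≤ ‖κ0 - κ1‖ := by
    have e5 : κ0 - κ1 = -((s1 - s0) - ((κ0 - s0) - (κ1 - s1))) := by ring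
    rw [e5, norm_neg]
    have h5 := norm_sub_norm_le (s1 - s0) ((κ0 - s0) - (κ1 - s1))
    have h6 := norm_sub_le (κ0 - s0) (κ1 - s1)
    have h7 : s1.re - s0.re ≤ ‖s1 - s0‖ := by
      have := Complex.re_le_norm (s1 - s0)
      simpa using this
    linarith
  have eΔ : κ0 - κ1 ≠ 0 := norm_pos_iff.1 (lt_of_lt_of_le hΔ0 dΔ)
  have hX : ‖(l0 / (κ0 + m) - l1 / (κ1 + m)) / (κ0 - κ1)‖ ≤ χ := by
    have hn : 0 < ‖κ0 - κ1‖ := norm_pos_iff.2 eΔ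
    rw [norm_div, div_le_iff₀ hn]
    have hL0 : 0 ≤ L0 := (norm_nonneg _).trans hl0
    have hL1 : 0 ≤ L1 := (norm_nonneg _).trans hl1
    have a0 : ‖l0 / (κ0 + m)‖ ≤ L0 / ((1 - z0) * A0) := by
      rw [norm_div]
      exact div_le_div₀ hL0 hl0 p0' d0
    have a1 : ‖l1 / (κ1 + m)‖ ≤ L1 / ((1 - z1) * A1) := by
      rw [norm_div]
      exact div_le_div₀ hL1 hl1 p1' d1
    have hχ0 : 0 ≤ χ := by
      have b0 : 0 ≤ L0 / ((1 - z0) * A0) + L1 / ((1 - z1) * A1) := by positivity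
      by_contra hh
      push Not at hh
      nlinarith
    calc ‖l0 / (κ0 + m) - l1 / (κ1 + m)‖ ≤ ‖l0 / (κ0 + m)‖ + ‖l1 / (κ1 + m)‖ := norm_sub_le _ _
      _ ≤ χ * (Δ - C0 - C1) := (add_le_add a0 a1).trans hχ
      _ ≤ χ * ‖κ0 - κ1‖ := mul_le_mul_of_nonneg_left dΔ hχ0
  have hχ0 : 0 ≤ χ := (norm_nonneg _).trans hX
  have hlast : χ / √(1 - χ ^ 2) ≤ τχ := div_sqrt_le hχ0 hχ1 hτχ hτχ'
  have key := U_pos (P := 0) (Q := 0) (S := 0) (b := 0) (n := 0) (tA := tA) (χ := χ) (p1 := p1)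
    (l0 := l0) (l1 := l1) hm (by rw [add_zero, add_zero]; exact h) e0 e1 eΔ hp htA0 cA (by simp) (by norm_num) hX
    (by simp) (by simpa using hχ1) (by
      have h9 : tA * (χ / √(1 - χ ^ 2)) ≤ tA * τχ := mul_le_mul_of_nonneg_left hlast htA0
      simp only [zero_add, zero_div, mul_zero, add_zero]
      linarith)
  simpa using key

end SokalF1
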