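import Pool.Agent.Lib_MP_af4de1_f1.TopDefs

/-!
# The two saddle points for `N = 2`, `ρ ≥ 5/2`
-/

set_option autoImplicit false

namespace SokalF1T

open Complex SokalU SokalF1 SokalF1S

theorem exp072_le : Real.exp (18 / 25) ≤ 2.0545 := by
  have h := Real.exp_bound' (x := 18 / 25) (by norm_num) (by norm_num) (n := 7) (by norm_num)
  refine h.trans ?_
  norm_num [Finset.sum_range_succ, Nat.factorial]

theorem exp072_ge : 2.0544 ≤ Real.exp (18 / 25) := by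
  have h := Real.sum_le_exp_of_nonneg (x := 18 / 25) (by norm_num) 8
  refine le_trans ?_ h
  norm_num [Finset.sum_range_succ, Nat.factorial]

/-- `y e^y ≤ 1.4793` on `[0, 18/25]` -/
theorem yexp_le {y : ℝ} (h0 : 0 ≤ y) (h1 : y ≤ 18 / 25) : y * Real.exp y ≤ 1.4793 := by
  have h2 : Real.exp y ≤ Real.exp (18 / 25) := Real.exp_le_exp.2 h1
  have h3 := exp072_le
  calc y * Real.exp y ≤ (18 / 25) * 2.0545 := by
        refine mul_le_mul h1 (h2.trans h3) (Real.exp_pos _).le (by norm_num)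
    _ ≤ 1.4793 := by norm_num

/-- `|y| e^y ≤ e^(-1)` for `y ≤ 0` -/
theorem negexp_le {y : ℝ} (_h : y ≤ 0) : -y * Real.exp y ≤ 0.3679 := by
  have h1 : -y ≤ Real.exp (-y - 1) := by
    have := Real.add_one_le_exp (-y - 1)
    linarith
  have h2 : -y * Real.exp y ≤ Real.exp (-y - 1) * Real.exp y :=
    mul_le_mul_of_nonneg_right h1 (Real.exp_pos _).le
  rw [← Real.exp_add] at h2
  have h3 : -y - 1 + y = -1 := by ring
  rw [h3] at h2
  have h4 := Real.exp_neg_one_lt_d9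
  linarith

theorem dom_pos {ρ y : ℝ} (hρ : 5 / 2 ≤ ρ) (h0 : 0 ≤ y) (h1 : y ≤ 18 / 25) : Dom ρ y := by
  refine ⟨by linarith, ?_⟩
  rw [abs_of_nonneg h0]
  have := yexp_le h0 h1
  linarith

theorem dom_neg {ρ y : ℝ} (hρ : 5 / 2 ≤ ρ) (h1 : y ≤ 0) : Dom ρ y := by
  refine ⟨by linarith, ?_⟩
  rw [abs_of_nonpos h1]
  have := negexp_le h1
  linarith

/-- `ψ ≤ y/x` in the form `y ≤ T x → ψ ≤ T` -/
theorem sP_le_of {ρ y T : ℝ} (h : Dom ρ y) (hT : 0 ≤ T) (hy : y ≤ T * sx ρ y) (hx : 0 < sx ρ y) :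
    sP ρ y ≤ T := by
  rcases le_or_gt (sP ρ y) 0 with h0 | h0
  · linarith
  have hρ := h.1
  have hc : 0 < Real.cos (sP ρ y) := by
    rw [h.cos]
    have := Real.exp_pos y
    positivity
  have hlt : sP ρ y < Real.pi / 2 := by
    have h2 := (abs_le.1 (sP_abs_le ρ y)).2
    refine lt_of_le_of_ne h2 fun he => ?_
    rw [he, Real.cos_pi_div_two] at hc
    exact lt_irrefl _ hc
  have h1 := Real.le_tan h0.le hlt
  have h2 : Real.tan (sP ρ y) = y / sx ρ y := by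
    rw [Real.tan_eq_sin_div_cos, h.sin, h.cos]
    have := Real.exp_pos y
    field_simp
  rw [h2] at h1
  refine h1.trans ?_
  rwa [div_le_iff₀ hx]

theorem sP_neg {ρ y : ℝ} : -sP ρ y = Real.arcsin (-(y * Real.exp y) / ρ) := by
  unfold sP
  rw [neg_div, Real.arcsin_neg]

theorem neg_sP_le_of {ρ y T : ℝ} (h : Dom ρ y) (hT : 0 ≤ T) (hy : -y ≤ T * sx ρ y) (hx : 0 < sx ρ y) :
    -sP ρ y ≤ T := by
  rcases le_or_gt (-sP ρ y) 0 with h0 | h0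
  · linarith
  have hρ := h.1
  have hc : 0 < Real.cos (-sP ρ y) := by
    rw [Real.cos_neg, h.cos]
    have := Real.exp_pos y
    positivity
  have hlt : -sP ρ y < Real.pi / 2 := by
    have h2 := (abs_le.1 (sP_abs_le ρ y)).1
    refine lt_of_le_of_ne (by linarith) fun he => ?_
    rw [he, Real.cos_pi_div_two] at hc
    exact lt_irrefl _ hc
  have h1 := Real.le_tan h0.le hlt
  have h2 : Real.tan (-sP ρ y) = -y / sx ρ y := by
    rw [Real.tan_neg, Real.tan_eq_sin_div_cos, h.sin, h.cos]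
    have := Real.exp_pos y
    field_simp
  rw [h2] at h1
  refine h1.trans ?_
  rwa [div_le_iff₀ hx]

/-- `|y| ≤ T x` from `|y| e^y ≤ e` and `e² (1+T²) ≤ T² ρ²` -/
theorem abs_le_T {ρ y T e : ℝ} (h : Dom ρ y) (hT : 0 ≤ T) (he : |y| * Real.exp y ≤ e)
    (hc : e ^ 2 * (1 + T ^ 2) ≤ T ^ 2 * ρ ^ 2) : |y| ≤ T * sx ρ y := by
  refine abs_le_of_sq_le_sq' ?_ (mul_nonneg hT (sx_nonneg _ _)) |>.2
  rw [mul_pow, sx_sq h, sq_abs]
  have h1 : Real.exp y * Real.exp (-y) = 1 := by rw [← Real.exp_add]; simp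
  have h2 : (|y| * Real.exp y) ^ 2 ≤ e ^ 2 := pow_le_pow_left₀ (by positivity) he 2
  rw [mul_pow, sq_abs] at h2
  have h3 : y ^ 2 * (1 + T ^ 2) ≤ T ^ 2 * (ρ * Real.exp (-y)) ^ 2 := by
    have h4 : y ^ 2 * Real.exp y ^ 2 * (1 + T ^ 2) ≤ T ^ 2 * ρ ^ 2 :=
      (mul_le_mul_of_nonneg_right h2 (by positivity)).trans hc
    have h5 := mul_le_mul_of_nonneg_right h4 (sq_nonneg (Real.exp (-y)))
    have e1 : y ^ 2 * Real.exp y ^ 2 * (1 + T ^ 2) * Real.exp (-y) ^ 2 = y ^ 2 * (1 + T ^ 2) := by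
      have : Real.exp y ^ 2 * Real.exp (-y) ^ 2 = 1 := by rw [← mul_pow, h1, one_pow]
      linear_combination (y ^ 2 * (1 + T ^ 2)) * this
    rw [e1] at h5
    rw [mul_pow]
    linarith
  nlinarith

/-- `x ≥ ρ` for `-1 ≤ y ≤ 0`, `ρ ≥ 1` -/
theorem sx_ge {ρ y : ℝ} (hρ : 5 / 2 ≤ ρ) (h0 : -(7 / 10) ≤ y) (h1 : y ≤ 0) : ρ ≤ sx ρ y := by
  have hD := dom_neg hρ h1
  refine abs_le_of_sq_le_sq' ?_ (sx_nonneg _ _) |>.2
  rw [sx_sq hD, mul_pow, ← Real.exp_nat_mul]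
  have h2 : 1 - 2 * y ≤ Real.exp (((2 : ℕ) : ℝ) * -y) := by
    have := Real.add_one_le_exp (((2 : ℕ) : ℝ) * -y)
    push_cast at this ⊢
    linarith
  have h3 : ρ ^ 2 * (1 - 2 * y) ≤ ρ ^ 2 * Real.exp (((2 : ℕ) : ℝ) * -y) :=
    mul_le_mul_of_nonneg_left h2 (sq_nonneg ρ)
  have h4 : 1 ≤ ρ ^ 2 := by nlinarith
  have h5 : -y * 1 ≤ -y * ρ ^ 2 := mul_le_mul_of_nonneg_left h4 (by linarith)
  nlinarith

/-! ### existence of the saddle points -/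

/-- `ψ sin ψ + ..`: the inequality at `y = 18/25` -/
theorem eta_up {ρ : ℝ} (hρ : 5 / 2 ≤ ρ) : 2 * Real.pi / 3 ≤ sE ρ (18 / 25) := by
  have hD := dom_pos (y := 18 / 25) hρ (by norm_num) le_rfl
  have hρ0 : 0 < ρ := by linarith
  have hE1 := exp072_le
  have hE2 := exp072_ge
  set E := Real.exp (18 / 25) with hE
  have hpi := Real.pi_lt_d6
  have hE' : Real.exp (-(18 / 25)) = 1 / E := by rw [Real.exp_neg, ← hE, one_div]
  have hx2 := sx_sq hD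
  rw [hE'] at hx2
  have hx0 := sx_nonneg ρ (18 / 25)
  set x := sx ρ (18 / 25) with hx
  have hEp : 0 < E := by linarith
  have hinv : 1 / E ≤ 0.48677 := by
    rw [div_le_iff₀ hEp]
    linarith
  have hinv0 : 0 < 1 / E := by positivity
  have hxs : x ^ 2 ≤ (ρ * 0.48677) ^ 2 - 0.5184 := by
    rw [hx2]
    have h1 : (ρ * (1 / E)) ^ 2 ≤ (ρ * 0.48677) ^ 2 := by
      refine pow_le_pow_left₀ (by positivity) ?_ 2
      exact mul_le_mul_of_nonneg_left hinv hρ0.le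
    norm_num at h1 ⊢
    linarith
  have hψ0 : 0 ≤ sP ρ (18 / 25) := sP_nonneg hρ0 (by norm_num)
  unfold sE
  rw [← hx]
  -- the arcsine
  have hsin := hD.sin
  rw [← hE] at hsin
  have harg : 1.4791 / ρ ≤ Real.sin (sP ρ (18 / 25)) := by
    rw [hsin]
    refine div_le_div_of_nonneg_right ?_ hρ0.le
    nlinarith
  have hψs : Real.sin (sP ρ (18 / 25)) ≤ sP ρ (18 / 25) := Real.sin_le hψ0
  set ψ := sP ρ (18 / 25) with hψ
  have hψ1 : 1.4791 / ρ ≤ ψ := harg.trans hψs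
  have hR0 : 0 ≤ 1.4791 / ρ + ρ - 2.0944 := by
    have : 0 < 1.4791 / ρ := by positivity
    linarith
  have hxR : x ≤ 1.4791 / ρ + ρ - 2.0944 := by
    refine abs_le_of_sq_le_sq' ?_ hR0 |>.2
    refine hxs.trans ?_
    have e1 : (1.4791 / ρ + ρ - 2.0944) ^ 2 - ((ρ * 0.48677) ^ 2 - 0.5184) =
        ((1.4791 + ρ ^ 2 - 2.0944 * ρ) ^ 2 - ρ ^ 2 * ((ρ * 0.48677) ^ 2 - 0.5184)) / ρ ^ 2 := by
      field_simp
    have e2 : 0 ≤ (1.4791 + ρ ^ 2 - 2.0944 * ρ) ^ 2 - ρ ^ 2 * ((ρ * 0.48677) ^ 2 - 0.5184) := by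
      obtain ⟨t, rfl⟩ : ∃ t, ρ = 5 / 2 + t := ⟨ρ - 5 / 2, by ring⟩
      have ht : 0 ≤ t := by linarith
      have e3 : 0 ≤ t ^ 4 := by positivity
      have e4 : 0 ≤ t ^ 3 := by positivity
      have e5 : 0 ≤ t ^ 2 := by positivity
      ring_nf
      nlinarith
    have e3 : 0 ≤ (1.4791 / ρ + ρ - 2.0944) ^ 2 - ((ρ * 0.48677) ^ 2 - 0.5184) := by
      rw [e1]
      positivity
    linarith
  linarith

theorem eta_lo {ρ : ℝ} (hρ : 5 / 2 ≤ ρ) : sE ρ (-(7 / 10)) ≤ -(2 * Real.pi / 3) := by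
  have hD := dom_neg (y := -(7 / 10)) hρ (by norm_num)
  have hρ0 : 0 < ρ := by linarith
  have hψ := sP_nonpos (y := -(7 / 10)) hρ0 (by norm_num)
  have hpi := Real.pi_lt_d6
  have hx2 := sx_sq hD
  have hx0 := sx_nonneg ρ (-(7 / 10))
  have he : 2 ≤ Real.exp (7 / 10) := by
    have h := Real.sum_le_exp_of_nonneg (x := 7 / 10) (by norm_num) 6
    refine le_trans ?_ h
    norm_num [Finset.sum_range_succ, Nat.factorial]
  have hx : ρ + 2.0944 ≤ sx ρ (-(7 / 10)) := by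
    refine abs_le_of_sq_le_sq' ?_ hx0 |>.2
    rw [hx2, neg_neg, mul_pow]
    have h1 : (2 : ℝ) ^ 2 ≤ Real.exp (7 / 10) ^ 2 := pow_le_pow_left₀ (by norm_num) he 2
    have h2 := mul_le_mul_of_nonneg_left h1 (sq_nonneg ρ)
    nlinarith
  unfold sE
  linarith

theorem ph_pos {ρ y : ℝ} (hρ : 5 / 2 ≤ ρ) (h0 : 0 ≤ y) (h1 : y ≤ 18 / 25) : 11 / 25 ≤ ph ρ y := by
  have hD := dom_pos hρ h0 h1
  have hρ0 : 0 < ρ := by linarith
  have hy := yexp_le h0 h1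
  have he : Real.exp y * Real.exp (-y) = 1 := by rw [← Real.exp_add]; simp
  have hx : 0.8 * (ρ * Real.exp (-y)) ≤ sx ρ y := by
    refine abs_le_of_sq_le_sq' ?_ (sx_nonneg _ _) |>.2
    rw [sx_sq hD]
    have h2 : y ≤ 1.4793 * Real.exp (-y) := by
      have := mul_le_mul_of_nonneg_right hy (Real.exp_pos (-y)).le
      rw [mul_assoc, he, mul_one] at this
      exact this
    have h3 : y ^ 2 ≤ (1.4793 * Real.exp (-y)) ^ 2 := pow_le_pow_left₀ h0 h2 2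
    have h4 : (25 / 4) * Real.exp (-y) ^ 2 ≤ ρ ^ 2 * Real.exp (-y) ^ 2 :=
      mul_le_mul_of_nonneg_right (by nlinarith) (sq_nonneg _)
    nlinarith
  have h5 : 1 - y / 2 ≤ Real.exp (-y / 2) := by
    have := Real.add_one_le_exp (-y / 2)
    linarith
  have h6 : (1 - y / 2) ^ 2 ≤ Real.exp (-y) := by
    have h7 : Real.exp (-y) = Real.exp (-y / 2) ^ 2 := by
      rw [← Real.exp_nat_mul]
      congr 1
      push_cast
      ring
    rw [h7]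
    exact pow_le_pow_left₀ (by linarith) h5 2
  have h8 : 0.7 ≤ (1 + y) * Real.exp (-y) := by
    have h9 : (1 + y) * (1 - y / 2) ^ 2 ≤ (1 + y) * Real.exp (-y) :=
      mul_le_mul_of_nonneg_left h6 (by linarith)
    nlinarith [mul_nonneg h0 (sq_nonneg y)]
  unfold ph
  rw [le_div_iff₀ hρ0]
  calc 11 / 25 * ρ ≤ 0.8 * ρ * 0.7 := by linarith
    _ ≤ 0.8 * ρ * ((1 + y) * Real.exp (-y)) := mul_le_mul_of_nonneg_left h8 (by positivity)
    _ = 0.8 * (ρ * Real.exp (-y)) * (1 + y) := by ring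
    _ ≤ sx ρ y * (1 + y) := mul_le_mul_of_nonneg_right hx (by linarith)

theorem ph_neg {ρ y : ℝ} (hρ : 5 / 2 ≤ ρ) (h0 : -(7 / 10) ≤ y) (h1 : y ≤ 0) : 11 / 25 ≤ ph ρ y := by
  have hD := dom_neg hρ h1
  have hρ0 : 0 < ρ := by linarith
  have hy := negexp_le h1
  have he : Real.exp y * Real.exp (-y) = 1 := by rw [← Real.exp_add]; simp
  have hx : 0.9 * (ρ * Real.exp (-y)) ≤ sx ρ y := by
    refine abs_le_of_sq_le_sq' ?_ (sx_nonneg _ _) |>.2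
    rw [sx_sq hD]
    have h2 : -y ≤ 0.3679 * Real.exp (-y) := by
      have := mul_le_mul_of_nonneg_right hy (Real.exp_pos (-y)).le
      rw [mul_assoc, he, mul_one] at this
      exact this
    have h3 : (-y) ^ 2 ≤ (0.3679 * Real.exp (-y)) ^ 2 := pow_le_pow_left₀ (by linarith) h2 2
    have h4 : (25 / 4) * Real.exp (-y) ^ 2 ≤ ρ ^ 2 * Real.exp (-y) ^ 2 :=
      mul_le_mul_of_nonneg_right (by nlinarith) (sq_nonneg _)
    nlinarith
  have h6 := Real.quadratic_le_exp_of_nonneg (x := -y) (by linarith)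
  have h8 : 0.5 ≤ (1 + y) * Real.exp (-y) := by
    have h9 : (1 + y) * (1 + -y + (-y) ^ 2 / 2) ≤ (1 + y) * Real.exp (-y) :=
      mul_le_mul_of_nonneg_left h6 (by linarith)
    nlinarith [mul_nonneg (neg_nonneg.2 h1) (sq_nonneg y)]
  unfold ph
  rw [le_div_iff₀ hρ0]
  calc 11 / 25 * ρ ≤ 0.9 * ρ * 0.5 := by linarith
    _ ≤ 0.9 * ρ * ((1 + y) * Real.exp (-y)) := mul_le_mul_of_nonneg_left h8 (by positivity)
    _ = 0.9 * (ρ * Real.exp (-y)) * (1 + y) := by ring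
    _ ≤ sx ρ y * (1 + y) := mul_le_mul_of_nonneg_right hx (by linarith)

theorem ex_pos {ρ η : ℝ} (hρ : 5 / 2 ≤ ρ) (h0 : 0 ≤ η) (h1 : η ≤ 2 * Real.pi / 3) :
    ∃ y, 0 ≤ y ∧ y ≤ 18 / 25 ∧ sE ρ y = η ∧ DD ρ y := by
  obtain ⟨y, hy, he⟩ := exists_sE (ρ := ρ) (y₁ := 0) (y₂ := 18 / 25) (η := η) (by norm_num)
    (by rw [sE_zero (by linarith)]; exact h0) (h1.trans (eta_up hρ))
  exact ⟨y, hy.1, hy.2, he, dom_pos hρ hy.1 hy.2, by linarith [hy.1], hy.2,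
    by rw [he, abs_of_nonneg h0]; exact h1, ph_pos hρ hy.1 hy.2⟩

theorem ex_neg {ρ η : ℝ} (hρ : 5 / 2 ≤ ρ) (h0 : -(2 * Real.pi / 3) ≤ η) (h1 : η ≤ 0) :
    ∃ y, -(7 / 10) ≤ y ∧ y ≤ 0 ∧ sE ρ y = η ∧ DD ρ y := by
  obtain ⟨y, hy, he⟩ := exists_sE (ρ := ρ) (y₁ := -(7 / 10)) (y₂ := 0) (η := η) (by norm_num)
    ((eta_lo hρ).trans h0) (by rw [sE_zero (by linarith)]; exact h1)
  exact ⟨y, hy.1, hy.2, he, dom_neg hρ hy.2, hy.1, by linarith [hy.2],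
    by rw [he, abs_of_nonpos h1]; linarith, ph_neg hρ hy.1 hy.2⟩

/-! ### estimates -/

theorem exp_neg_ge {ρ y : ℝ} (hρ : 0 < ρ) (hD : Dom ρ y) (h0 : 0 ≤ y) (h : sE ρ y ≤ 2 * Real.pi / 3) :
    1 - 2.0944 / ρ ≤ Real.exp (-y) := by
  have h1 := sx_le hD
  have h2 := sP_nonneg hρ h0
  have hpi := Real.pi_lt_d6
  unfold sE at h
  have h3 : ρ * (1 - 2.0944 / ρ) ≤ ρ * Real.exp (-y) := by
    have : ρ * (1 - 2.0944 / ρ) = ρ - 2.0944 := by field_simp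
    rw [this]
    linarith
  exact le_of_mul_le_mul_left h3 hρ

theorem kp_re {r ρ y : ℝ} : (kp r ρ y).re = r / ρ * sx ρ y := by
  unfold kp sK
  simp

theorem kp_im {r ρ y : ℝ} : (kp r ρ y).im = r / ρ * y := by
  unfold kp sK
  simp

theorem norm_kp {r ρ y : ℝ} (hr : 0 < r) (hD : Dom ρ y) : ‖kp r ρ y‖ = r * Real.exp (-y) := by
  have hρ := hD.1
  unfold kp
  rw [norm_mul, Complex.norm_real, Real.norm_of_nonneg (by positivity), norm_sK hD]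
  field_simp

/-- `|κ|/D ≤ 1.032 r/ρ` -/
theorem kp_div {r ρ y : ℝ} (hr : 0 < r) (hρ : 5 / 2 ≤ ρ) (h0 : -(7 / 10) ≤ y) (h1 : y ≤ 18 / 25) (hD : Dom ρ y) :
    ‖kp r ρ y‖ / √(sD2 ρ y) ≤ 1.032 * (r / ρ) := by
  have hρ0 := hD.1
  have hD2 : 0 < sD2 ρ y := sD2_pos (by linarith)
  have hs : 0 < √(sD2 ρ y) := Real.sqrt_pos.2 hD2
  rw [div_le_iff₀ hs, norm_kp hr hD]
  have h2 : ρ * Real.exp (-y) ≤ 1.032 * √(sD2 ρ y) := by
    refine abs_le_of_sq_le_sq' ?_ (by positivity) |>.2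
    rw [← sx_sq_add hD, mul_pow, Real.sq_sqrt hD2.le]
    unfold sD2
    rcases le_total 0 y with h3 | h3
    · nlinarith [sq_nonneg (sx ρ y)]
    · have h4 := sx_ge hρ h0 h3
      have h5 : (25 / 4 : ℝ) ≤ sx ρ y ^ 2 := by nlinarith
      nlinarith
  have h3 : r * Real.exp (-y) = r / ρ * (ρ * Real.exp (-y)) := by field_simp
  rw [h3]
  calc r / ρ * (ρ * Real.exp (-y)) ≤ r / ρ * (1.032 * √(sD2 ρ y)) :=
        mul_le_mul_of_nonneg_left h2 (by positivity)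
    _ = _ := by ring

/-- the real part of the difference -/
theorem kp_sub {r ρ y0 y1 T0 T1 : ℝ} (hr : 0 < r) (hρ : 0 < ρ) (he : sE ρ y0 - sE ρ y1 = Real.pi)
    (h0 : sP ρ y0 ≤ T0) (h1 : -sP ρ y1 ≤ T1) :
    (Real.pi - T0 - T1) * (r / ρ) ≤ (kp r ρ y1).re - (kp r ρ y0).re := by
  rw [kp_re, kp_re]
  unfold sE at he
  have h2 : Real.pi - T0 - T1 ≤ sx ρ y1 - sx ρ y0 := by linarith
  have h3 : 0 ≤ r / ρ := by positivity
  have := mul_le_mul_of_nonneg_right h2 h3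
  linarith

end SokalF1T
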