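import Pool.Agent.Lib_MP_af4de1_f1.Glue
import Pool.Agent.Lib_MP_af4de1_f1.Alg

/-!
# F1: the root of unity, `del = 0`, `N ≥ 2`: `waveU_root`, `waveU_zero`

`E 0 w = e^w`, `w_j = r e^(iθ_j)`.  `T_j = c_j e^(w_j)`, top wave `μ` (smallest angle), second wave `ν`.
From `∑ (w_j + m) T_j = 0` and `|w_j + m| ≤ |w_μ + m|`: `|T_ν| ≥ .79 |T_μ|`; far waves are small:
`∑_far |w_j - w_μ| |T_j| ≤ (26/100) |w_ν - w_μ| |T_ν|`.
`D2F/DF - DF/F = 1 + (w_μ + m)(w_ν + m)(1 + e3)/(m (1 + e2))`.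
-/

set_option autoImplicit false

namespace SokalF1

open Complex SokalU SokalFU

/-! ### The waves for `del = 0` -/

theorem tt_zero : tt 0 = 0 := by simp [tt]

theorem E_tt_zero (z : ℂ) : E (tt 0) z = cexp z := by
  rw [tt_zero]
  unfold E SokalF.F
  rw [neg_zero, Complex.exp_zero, Complex.exp_eq_exp_ℂ, NormedSpace.exp_eq_tsum_div]
  refine tsum_congr fun k => ?_
  rw [one_pow, one_mul]

theorem DE_tt_zero (z : ℂ) : DE (tt 0) z = z * cexp z := by
  unfold DE
  rw [E_tt_zero, tt_zero, neg_zero, Complex.exp_zero, one_mul]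

theorem D2E_tt_zero (z : ℂ) : SokalBPlus.D2E (tt 0) z = (z ^ 2 + z) * cexp z := by
  unfold SokalBPlus.D2E
  rw [DE_tt_zero, tt_zero, neg_zero, Complex.exp_zero, one_mul, ← tt_zero, DE_tt_zero]
  ring

/-! ### The algebra -/

theorem z0_core {ι : Type*} (s : Finset ι) (w T : ι → ℂ) {w0 w1 T0 T1 : ℂ} {m e tA : ℝ} (hm : 0 < m)
    (hsum : (w0 * T0 + w1 * T1 + ∑ j ∈ s, w j * T j) + m * (T0 + T1 + ∑ j ∈ s, T j) = 0)
    (hF : T0 + T1 + ∑ j ∈ s, T j ≠ 0) (hA : Cone tA ((w0 + m) * (w1 + m))) (hD : w0 - w1 ≠ 0) (hT1 : T1 ≠ 0)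
    (hfar : ∑ j ∈ s, ‖w0 - w j‖ * ‖T j‖ ≤ e * (‖w0 - w1‖ * ‖T1‖)) (hle : ∀ j ∈ s, ‖w j + m‖ ≤ ‖w1 + m‖)
    (htA : 0 ≤ tA) (he : e < 1) (ht : tA * (e / √(1 - e ^ 2)) + tA * (e / √(1 - e ^ 2)) +
      (e / √(1 - e ^ 2)) * (e / √(1 - e ^ 2)) < 1) :
    0 < (((w0 ^ 2 + w0) * T0 + (w1 ^ 2 + w1) * T1 + ∑ j ∈ s, (w j ^ 2 + w j) * T j) /
        (w0 * T0 + w1 * T1 + ∑ j ∈ s, w j * T j) -
      (w0 * T0 + w1 * T1 + ∑ j ∈ s, w j * T j) / (T0 + T1 + ∑ j ∈ s, T j)).re := by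
  have hmC : (m : ℂ) ≠ 0 := by exact_mod_cast hm.ne'
  have hprod := hA.ne_zero
  have hA0 : w0 + m ≠ 0 := left_ne_zero_of_mul hprod
  have hA1 : w1 + m ≠ 0 := right_ne_zero_of_mul hprod
  have hn1 : 0 < ‖w1 + m‖ := norm_pos_iff.2 hA1
  have hnD : 0 < ‖w0 - w1‖ := norm_pos_iff.2 hD
  have hnT : 0 < ‖T1‖ := norm_pos_iff.2 hT1
  set F := T0 + T1 + ∑ j ∈ s, T j with hFdef
  set D := w0 * T0 + w1 * T1 + ∑ j ∈ s, w j * T j with hDdef
  set X2 := ∑ j ∈ s, (w0 - w j) * T j with hX2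
  set X3 := ∑ j ∈ s, (w0 - w j) * (w j + m) * T j with hX3
  have hX2n : ‖X2‖ ≤ e * (‖w0 - w1‖ * ‖T1‖) := by
    refine (norm_sum_le _ _).trans (le_trans (le_of_eq ?_) hfar)
    exact Finset.sum_congr rfl fun j _ => norm_mul _ _
  have hX3n : ‖X3‖ ≤ e * (‖w0 - w1‖ * ‖w1 + m‖ * ‖T1‖) := by
    have h1 : ‖X3‖ ≤ (∑ j ∈ s, ‖w0 - w j‖ * ‖T j‖) * ‖w1 + m‖ := by
      rw [Finset.sum_mul]
      refine (norm_sum_le _ _).trans (Finset.sum_le_sum fun j hj => ?_)
      rw [norm_mul, norm_mul]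
      calc ‖w0 - w j‖ * ‖w j + m‖ * ‖T j‖ ≤ ‖w0 - w j‖ * ‖w1 + m‖ * ‖T j‖ := by
            gcongr; exact hle j hj
        _ = ‖w0 - w j‖ * ‖T j‖ * ‖w1 + m‖ := by ring
    refine h1.trans ?_
    calc (∑ j ∈ s, ‖w0 - w j‖ * ‖T j‖) * ‖w1 + m‖ ≤ e * (‖w0 - w1‖ * ‖T1‖) * ‖w1 + m‖ := by gcongr
      _ = _ := by ring
  have e1 : (w0 + m) * F = (w0 - w1) * T1 + X2 := by
    have h1 : X2 = w0 * ∑ j ∈ s, T j - ∑ j ∈ s, w j * T j := by
      rw [hX2, Finset.mul_sum, ← Finset.sum_sub_distrib]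
      exact Finset.sum_congr rfl fun j _ => by ring
    rw [h1]
    have h2 : ∑ j ∈ s, w j * T j = D - w0 * T0 - w1 * T1 := by rw [hDdef]; ring
    have h3 : ∑ j ∈ s, T j = F - T0 - T1 := by rw [hFdef]; ring
    rw [h2, h3]
    linear_combination hsum
  set D2 := (w0 ^ 2 + w0) * T0 + (w1 ^ 2 + w1) * T1 + ∑ j ∈ s, (w j ^ 2 + w j) * T j with hD2def
  have e2 : D2 - m ^ 2 * F + m * F = -((w0 - w1) * (w1 + m) * T1 + X3) := by
    have h1 : X3 = w0 * ∑ j ∈ s, w j * T j + w0 * m * ∑ j ∈ s, T j - (∑ j ∈ s, (w j ^ 2 + w j) * T j) +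
        (1 - m) * ∑ j ∈ s, w j * T j := by
      rw [hX3, Finset.mul_sum, Finset.mul_sum, Finset.mul_sum, ← Finset.sum_add_distrib,
        ← Finset.sum_sub_distrib, ← Finset.sum_add_distrib]
      exact Finset.sum_congr rfl fun j _ => by ring
    rw [h1]
    have h2 : ∑ j ∈ s, w j * T j = D - w0 * T0 - w1 * T1 := by rw [hDdef]; ring
    have h3 : ∑ j ∈ s, T j = F - T0 - T1 := by rw [hFdef]; ring
    have h4 : ∑ j ∈ s, (w j ^ 2 + w j) * T j = D2 - (w0 ^ 2 + w0) * T0 - (w1 ^ 2 + w1) * T1 := by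
      rw [hD2def]; ring
    rw [h2, h3, h4]
    linear_combination (w0 - m + 1) * hsum
  have hDF : D = -(m * F) := by linear_combination hsum
  have hmF : (m : ℂ) * F ≠ 0 := mul_ne_zero hmC hF
  have hD10 : (w0 - w1) * T1 ≠ 0 := mul_ne_zero hD hT1
  -- the two errors
  set z2 := X2 / ((w0 - w1) * T1) with hz2
  set z3 := X3 / ((w0 - w1) * (w1 + m) * T1) with hz3
  have hz2n : ‖z2‖ ≤ e := by
    rw [hz2, norm_div, norm_mul, div_le_iff₀ (by positivity)]
    exact hX2n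
  have hz3n : ‖z3‖ ≤ e := by
    rw [hz3, norm_div, norm_mul, norm_mul, div_le_iff₀ (by positivity)]
    exact hX3n
  have e0 : 0 ≤ e := (norm_nonneg _).trans hz2n
  have c2 := Cone.one_add he hz2n
  have c3 := Cone.one_add he hz3n
  have hB0 := c2.ne_zero
  have e3 : (w0 + m) * F = (w0 - w1) * T1 * (1 + z2) := by
    rw [e1, hz2]; field_simp
  have e4 : (w0 - w1) * (w1 + m) * T1 + X3 = (w0 - w1) * (w1 + m) * T1 * (1 + z3) := by
    rw [hz3]; field_simp
  have e5 : D2 / D - D / F = 1 + (w0 + m) * (w1 + m) * ((1 + z3) / (1 + z2)) / m := by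
    have h1 : D2 = m ^ 2 * F - m * F - (w0 - w1) * (w1 + m) * T1 * (1 + z3) := by
      rw [← e4]; linear_combination e2
    have h2 : (w0 - w1) * T1 = (w0 + m) * F / (1 + z2) := by
      rw [e3]; field_simp
    have h3 : (w0 - w1) * (w1 + m) * T1 = (w0 + m) * F / (1 + z2) * (w1 + m) := by
      rw [← h2]; ring
    rw [h1, h3, hDF]
    field_simp
    ring
  rw [e5]
  have hBn : 0 < Complex.normSq (1 + z2) := Complex.normSq_pos.2 hB0
  have key := Cone.re_mul3 hA c3 c2.conj htA (by positivity) ht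
  have e6 : (w0 + m) * (w1 + m) * ((1 + z3) / (1 + z2)) / m =
      ((1 / (m * Complex.normSq (1 + z2)) : ℝ) : ℂ) *
        ((w0 + m) * (w1 + m) * (1 + z3) * (starRingEnd ℂ) (1 + z2)) := by
    have h4 : (1 + z2) * (starRingEnd ℂ) (1 + z2) = (Complex.normSq (1 + z2) : ℂ) := Complex.mul_conj _
    have h3 : (Complex.normSq (1 + z2) : ℂ) ≠ 0 := by exact_mod_cast hBn.ne'
    push_cast
    rw [← h4] at h3 ⊢
    have h5 : (starRingEnd ℂ) (1 + z2) ≠ 0 := right_ne_zero_of_mul h3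
    field_simp
  rw [e6, Complex.add_re, Complex.one_re, Complex.re_ofReal_mul]
  positivity

/-! ### Cosines -/

theorem z0_superadd {a b : ℝ} (ha : 0 ≤ a) (hb : 0 ≤ b) (hab : a + b ≤ Real.pi) :
    (1 - Real.cos a) + (1 - Real.cos b) ≤ 1 - Real.cos (a + b) := by
  have h1 : 0 ≤ Real.sin (a / 2) := Real.sin_nonneg_of_nonneg_of_le_pi (by linarith) (by linarith)
  have h2 : 0 ≤ Real.sin (b / 2) := Real.sin_nonneg_of_nonneg_of_le_pi (by linarith) (by linarith)
  have h3 : 0 ≤ Real.cos ((a + b) / 2) :=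
    Real.cos_nonneg_of_neg_pi_div_two_le_of_le (by linarith [Real.pi_pos]) (by linarith)
  have ea : Real.cos a = 1 - 2 * Real.sin (a / 2) ^ 2 := by
    have := Real.cos_sq' (a / 2)
    have h := Real.cos_two_mul (a / 2)
    rw [show 2 * (a / 2) = a by ring] at h
    rw [h, this]; ring
  have eb : Real.cos b = 1 - 2 * Real.sin (b / 2) ^ 2 := by
    have := Real.cos_sq' (b / 2)
    have h := Real.cos_two_mul (b / 2)
    rw [show 2 * (b / 2) = b by ring] at h
    rw [h, this]; ring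
  have eab : Real.cos (a + b) = 1 - 2 * Real.sin ((a + b) / 2) ^ 2 := by
    have := Real.cos_sq' ((a + b) / 2)
    have h := Real.cos_two_mul ((a + b) / 2)
    rw [show 2 * ((a + b) / 2) = a + b by ring] at h
    rw [h, this]; ring
  have key : (1 - Real.cos (a + b)) - ((1 - Real.cos a) + (1 - Real.cos b)) =
      4 * Real.sin (a / 2) * Real.sin (b / 2) * Real.cos ((a + b) / 2) := by
    rw [ea, eb, eab]
    have h5 : Real.sin ((a + b) / 2) = Real.sin (a / 2) * Real.cos (b / 2) + Real.cos (a / 2) * Real.sin (b / 2) := by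
      rw [show (a + b) / 2 = a / 2 + b / 2 by ring, Real.sin_add]
    have h6 : Real.cos ((a + b) / 2) = Real.cos (a / 2) * Real.cos (b / 2) - Real.sin (a / 2) * Real.sin (b / 2) := by
      rw [show (a + b) / 2 = a / 2 + b / 2 by ring, Real.cos_add]
    rw [h5, h6]
    have h7 := Real.sin_sq_add_cos_sq (a / 2)
    have h8 := Real.sin_sq_add_cos_sq (b / 2)
    linear_combination (2 * Real.sin (b / 2) ^ 2) * h7 + (2 * Real.sin (a / 2) ^ 2) * h8
  have : 0 ≤ 4 * Real.sin (a / 2) * Real.sin (b / 2) * Real.cos ((a + b) / 2) := by positivity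
  linarith

theorem z0_mul {h : ℝ} (hh : 0 ≤ h) : ∀ k : ℕ, (k : ℝ) * h ≤ Real.pi →
    (k : ℝ) * (1 - Real.cos h) ≤ 1 - Real.cos (k * h) := by
  intro k
  induction k with
  | zero => intro _; simp
  | succ k ih =>
    intro hk
    push_cast at hk ⊢
    have h1 : (k : ℝ) * h ≤ Real.pi := by nlinarith
    have h2 := ih h1
    have h3 := z0_superadd (a := k * h) (b := h) (by positivity) hh (by nlinarith)
    rw [show ((k : ℝ) + 1) * h = k * h + h by ring]
    nlinarith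

/-- `|sin (k y)| ≤ k |sin y|` -/
theorem z0_sin (y : ℝ) : ∀ k : ℕ, |Real.sin (k * y)| ≤ k * |Real.sin y| := by
  intro k
  induction k with
  | zero => simp
  | succ k ih =>
    push_cast
    rw [show ((k : ℝ) + 1) * y = k * y + y by ring, Real.sin_add]
    refine (abs_add_le _ _).trans ?_
    rw [abs_mul, abs_mul]
    have h1 := Real.abs_cos_le_one y
    have h2 := Real.abs_cos_le_one (k * y)
    have h3 := abs_nonneg (Real.sin (k * y))
    have h4 := abs_nonneg (Real.sin y)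
    nlinarith

/-! ### Geometric sums -/

theorem z0_geom {x : ℝ} (hx0 : 0 ≤ x) (hx1 : x < 1) (M : ℕ) : ∑ j ∈ Finset.range M, x ^ j ≤ 1 / (1 - x) := by
  have h1 := mul_neg_geom_sum x M
  have h2 : 0 < 1 - x := by linarith
  rw [le_div_iff₀ h2, mul_comm, h1]
  have := pow_nonneg hx0 M
  linarith

theorem z0_s1 {ρ : ℝ} (h0 : 0 ≤ ρ) (h1 : ρ ≤ 7 / 100) (M : ℕ) :
    ∑ k ∈ Finset.range M, ((k : ℝ) + 1) * ρ ^ (k + 1) ≤ 0.0815 := by
  have h2 : ∀ k : ℕ, ((k : ℝ) + 1) * ρ ^ (k + 1) ≤ 7 / 100 * (14 / 100) ^ k := by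
    intro k
    have h3 : (k : ℝ) + 1 ≤ 2 ^ k := by
      have := Nat.lt_two_pow_self (n := k)
      exact_mod_cast this
    calc ((k : ℝ) + 1) * ρ ^ (k + 1) ≤ 2 ^ k * (7 / 100) ^ (k + 1) := by gcongr
      _ = 7 / 100 * (14 / 100) ^ k := by
        rw [pow_succ, ← mul_assoc, ← mul_pow]; norm_num; ring
  refine (Finset.sum_le_sum fun k _ => h2 k).trans ?_
  rw [← Finset.mul_sum]
  have := z0_geom (x := 14 / 100) (by norm_num) (by norm_num) M
  norm_num at this ⊢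
  linarith

theorem z0_s2 {ρ : ℝ} (h0 : 0 ≤ ρ) (h1 : ρ ≤ 7 / 100) (M : ℕ) :
    ∑ k ∈ Finset.range M, ((k : ℝ) + 2) * ρ ^ (k + 1) ≤ 0.1565 := by
  have h2 : ∀ k : ℕ, ((k : ℝ) + 2) * ρ ^ (k + 1) ≤ 14 / 100 * (21 / 200) ^ k := by
    intro k
    have h3 : (k : ℝ) + 2 ≤ 2 * (3 / 2) ^ k := by
      induction k with
      | zero => norm_num
      | succ k ih =>
        push_cast
        rw [pow_succ]
        have h4 : (0 : ℝ) ≤ k := Nat.cast_nonneg k
        nlinarith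
    calc ((k : ℝ) + 2) * ρ ^ (k + 1) ≤ (2 * (3 / 2) ^ k) * (7 / 100) ^ (k + 1) := by gcongr
      _ = 14 / 100 * ((3 / 2) ^ k * (7 / 100) ^ k) := by rw [pow_succ]; ring
      _ = 14 / 100 * (21 / 200) ^ k := by rw [← mul_pow]; norm_num
  refine (Finset.sum_le_sum fun k _ => h2 k).trans ?_
  rw [← Finset.mul_sum]
  have := z0_geom (x := 21 / 200) (by norm_num) (by norm_num) M
  norm_num at this ⊢
  linarith

/-! ### The numbers -/

theorem z0_hst_pos {N : ℕ} (hN : 2 ≤ N) : 0 < hst N := by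
  have : (0 : ℝ) < N := by exact_mod_cast (by omega : 0 < N)
  unfold hst
  have := Real.pi_pos
  positivity

theorem z0_hst_mul {N : ℕ} (hN : 2 ≤ N) : (N : ℝ) * hst N = 2 * Real.pi := by
  have : (N : ℝ) ≠ 0 := by exact_mod_cast (by omega : N ≠ 0)
  unfold hst
  field_simp

theorem z0_hst_le {N : ℕ} (hN : 2 ≤ N) : hst N ≤ Real.pi := by
  have h3 : (2 : ℝ) ≤ N := by exact_mod_cast hN
  unfold hst
  have := Real.pi_pos
  calc 2 * Real.pi / N ≤ 2 * Real.pi / 2 := by gcongr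
    _ = Real.pi := by ring

theorem z0_rho {N : ℕ} {r : ℝ} (hN : 2 ≤ N) (hr : 499 / 10 ≤ r) (hQ : 27 / 5 ≤ r * hst N ^ 2) :
    2.66 ≤ r * (1 - Real.cos (hst N)) := by
  have hh := z0_hst_pos hN
  have hm := z0_hst_mul hN
  have hle := z0_hst_le hN
  have hpi := Real.pi_gt_d4
  have hpi2 := Real.pi_lt_d4
  have hNpos : (0 : ℝ) < N := by exact_mod_cast (by omega : 0 < N)
  set h := hst N with hdef
  rcases (by omega : N ≤ 19 ∨ 20 ≤ N) with h19 | h20
  · have h19' : (N : ℝ) ≤ 19 := by exact_mod_cast h19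
    have h1 : 33 / 100 ≤ h := by
      by_contra hc
      push Not at hc
      have : (N : ℝ) * h ≤ 19 * (33 / 100) := by nlinarith
      norm_num at hpi
      linarith
    have h2 : Real.cos h ≤ Real.cos (33 / 100) :=
      Real.cos_le_cos_of_nonneg_of_le_pi (by norm_num) (by linarith) h1
    have h3 := Real.cos_bound (x := 33 / 100) (by rw [abs_of_pos (by norm_num)]; norm_num)
    rw [abs_le, abs_of_pos (by norm_num : (0 : ℝ) < 33 / 100)] at h3
    have h4 := h3.2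
    norm_num at h4
    have h5 : 0.0538 ≤ 1 - Real.cos h := by norm_num; linarith
    nlinarith
  · have h20' : (20 : ℝ) ≤ N := by exact_mod_cast h20
    have h1 : h ≤ 0.3142 := by
      by_contra hc
      push Not at hc
      have : 20 * 0.3142 ≤ (N : ℝ) * h := by nlinarith
      norm_num at hpi2 this
      linarith
    have h3 := Real.cos_bound (x := h) (by rw [abs_of_pos hh]; linarith)
    rw [abs_le, abs_of_pos hh] at h3
    have h4 := h3.2
    have h5 : h ^ 2 * (1 / 2 - 5 / 96 * h ^ 2) ≤ 1 - Real.cos h := by nlinarith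
    have h6 : h ^ 2 ≤ 0.0988 := by nlinarith
    have h7 : 0.4948 ≤ 1 / 2 - 5 / 96 * h ^ 2 := by linarith
    have h10 : 5.4 ≤ r * h ^ 2 := by norm_num; linarith
    calc (2.66 : ℝ) ≤ 5.4 * 0.4948 := by norm_num
      _ ≤ r * h ^ 2 * (1 / 2 - 5 / 96 * h ^ 2) := by gcongr
      _ = r * (h ^ 2 * (1 / 2 - 5 / 96 * h ^ 2)) := by ring
      _ ≤ _ := by gcongr

theorem z0_exp : Real.exp (-2.66) ≤ 7 / 100 := by
  have h := Real.sum_le_exp_of_nonneg (x := 2.66) (by norm_num) 13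
  simp only [Finset.sum_range_succ, Finset.sum_range_zero, Nat.factorial] at h
  norm_num at h
  rw [Real.exp_neg, inv_le_comm₀ (Real.exp_pos _) (by norm_num)]
  norm_num
  linarith

/-- the far waves -/
theorem z0_far {N : ℕ} {r X c : ℝ} (hN : 2 ≤ N) (hr0 : 0 < r) (hρ : 2.66 ≤ r * (1 - Real.cos (hst N)))
    (hX0 : 0 ≤ X) (hX1 : X ≤ 1 / 2) {ω : ℕ → ℝ} (hc : 0 ≤ c)
    (hω1 : ∀ k, ω k ≤ ((k : ℝ) + 1) * c)
    (hω2 : ∀ k, k < N - 2 → ω k ≤ (((N - 2 - k : ℕ) : ℝ) + 1) * c) :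
    ∑ k ∈ Finset.range (N - 2), ω k * Real.exp (r * Real.cos ((X + (k + 1)) * hst N)) ≤
      c * (0.0815 * Real.exp (r * Real.cos (X * hst N)) + 0.1565 * Real.exp (r * Real.cos ((1 - X) * hst N))) := by
  have hh := z0_hst_pos hN
  have hm := z0_hst_mul hN
  set h := hst N with hdef
  set ρ := Real.exp (-(r * (1 - Real.cos h))) with hρdef
  have hρ0 : 0 ≤ ρ := (Real.exp_pos _).le
  have hρ1 : ρ ≤ 7 / 100 := by
    refine le_trans (Real.exp_le_exp.mpr ?_) z0_exp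
    linarith
  set a0 := Real.exp (r * Real.cos (X * h)) with ha0
  set a1 := Real.exp (r * Real.cos ((1 - X) * h)) with ha1
  have ha0' : 0 < a0 := Real.exp_pos _
  have ha1' : 0 < a1 := Real.exp_pos _
  -- chain
  have chain : ∀ (y : ℝ) (i : ℕ), 0 ≤ y → y + i * h ≤ Real.pi →
      Real.exp (r * Real.cos (y + i * h)) ≤ Real.exp (r * Real.cos y) * ρ ^ i := by
    intro y i hy hyi
    have h1 := z0_superadd (a := y) (b := i * h) hy (by positivity) hyi
    have h2 := z0_mul hh.le i (by linarith)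
    rw [hρdef, ← Real.exp_nat_mul, ← Real.exp_add]
    refine Real.exp_le_exp.mpr ?_
    have h3 : r * Real.cos (y + i * h) ≤ r * (Real.cos y - i * (1 - Real.cos h)) := by
      gcongr
      linarith
    linarith
  have term : ∀ k ∈ Finset.range (N - 2), ω k * Real.exp (r * Real.cos ((X + (k + 1)) * h)) ≤
      c * a0 * (((k : ℝ) + 1) * ρ ^ (k + 1)) +
        c * a1 * ((((N - 2 - k : ℕ) : ℝ) + 1) * ρ ^ (N - 2 - k)) := by
    intro k hk
    rw [Finset.mem_range] at hk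
    have n1 : 0 ≤ c * a0 * (((k : ℝ) + 1) * ρ ^ (k + 1)) := by positivity
    have n2 : 0 ≤ c * a1 * ((((N - 2 - k : ℕ) : ℝ) + 1) * ρ ^ (N - 2 - k)) := by positivity
    rcases le_or_gt ((X + (k + 1)) * h) Real.pi with h1 | h1
    · have h2 := chain (X * h) (k + 1) (by positivity) (by push_cast; linarith)
      have h3 : X * h + ((k + 1 : ℕ) : ℝ) * h = (X + (k + 1)) * h := by push_cast; ring
      rw [h3] at h2
      have h4 : ω k * Real.exp (r * Real.cos ((X + (k + 1)) * h)) ≤ (((k : ℝ) + 1) * c) * (a0 * ρ ^ (k + 1)) :=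
        mul_le_mul (hω1 k) h2 (Real.exp_pos _).le (by positivity)
      linarith
    · have h5 : ((N - 2 - k : ℕ) : ℝ) = N - 2 - k := by
        rw [Nat.cast_sub (by omega), Nat.cast_sub (by omega)]; push_cast; ring
      have h6 : (1 - X) * h + ((N - 2 - k : ℕ) : ℝ) * h = 2 * Real.pi - (X + (k + 1)) * h := by
        rw [h5, ← hm]; ring
      have h2 := chain ((1 - X) * h) (N - 2 - k) (mul_nonneg (by linarith) hh.le) (by rw [h6]; linarith)
      rw [h6, Real.cos_two_pi_sub] at h2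
      have h4 : ω k * Real.exp (r * Real.cos ((X + (k + 1)) * h)) ≤
          ((((N - 2 - k : ℕ) : ℝ) + 1) * c) * (a1 * ρ ^ (N - 2 - k)) :=
        mul_le_mul (hω2 k hk) h2 (Real.exp_pos _).le (by positivity)
      linarith
  refine (Finset.sum_le_sum term).trans ?_
  rw [Finset.sum_add_distrib, ← Finset.mul_sum, ← Finset.mul_sum]
  have s1 := z0_s1 hρ0 hρ1 (N - 2)
  have s2 := z0_s2 hρ0 hρ1 (N - 2)
  have s3 : ∑ k ∈ Finset.range (N - 2), (((N - 2 - k : ℕ) : ℝ) + 1) * ρ ^ (N - 2 - k) =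
      ∑ k ∈ Finset.range (N - 2), ((k : ℝ) + 2) * ρ ^ (k + 1) := by
    rw [← Finset.sum_range_reflect (fun k => ((k : ℝ) + 2) * ρ ^ (k + 1)) (N - 2)]
    refine Finset.sum_congr rfl fun k hk => ?_
    rw [Finset.mem_range] at hk
    have e1 : N - 2 - 1 - k + 1 = N - 2 - k := by omega
    have e2 : ((N - 2 - 1 - k : ℕ) : ℝ) + 2 = ((N - 2 - k : ℕ) : ℝ) + 1 := by
      rw [← e1]; push_cast; ring
    rw [e1, e2]
  rw [s3]
  have t1 : c * a0 * ∑ k ∈ Finset.range (N - 2), ((k : ℝ) + 1) * ρ ^ (k + 1) ≤ c * a0 * 0.0815 := by gcongr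
  have t2 : c * a1 * ∑ k ∈ Finset.range (N - 2), ((k : ℝ) + 2) * ρ ^ (k + 1) ≤ c * a1 * 0.1565 := by gcongr
  linarith

/-! ### The points -/

/-- `r e^(iθ)` -/
noncomputable def Wv (r θ : ℝ) : ℂ := (r : ℂ) * cexp ((θ : ℂ) * I)

theorem Wv_re (r θ : ℝ) : (Wv r θ).re = r * Real.cos θ := by
  unfold Wv
  rw [Complex.re_ofReal_mul, Complex.exp_ofReal_mul_I_re]

theorem Wv_im (r θ : ℝ) : (Wv r θ).im = r * Real.sin θ := by
  unfold Wv
  rw [Complex.im_ofReal_mul, Complex.exp_ofReal_mul_I_im]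

theorem norm_Wv_add (r θ m : ℝ) : ‖Wv r θ + m‖ ^ 2 = r ^ 2 + m ^ 2 + 2 * r * m * Real.cos θ := by
  rw [Complex.sq_norm, Complex.normSq_apply, Complex.add_re, Complex.add_im, Wv_re, Wv_im, Complex.ofReal_re,
    Complex.ofReal_im]
  have := Real.sin_sq_add_cos_sq θ
  linear_combination r ^ 2 * this

theorem norm_Wv_sub {r : ℝ} (hr : 0 ≤ r) (a b : ℝ) : ‖Wv r a - Wv r b‖ = 2 * r * |Real.sin ((a - b) / 2)| := by
  have h1 : ‖Wv r a - Wv r b‖ ^ 2 = (2 * r * |Real.sin ((a - b) / 2)|) ^ 2 := by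
    rw [Complex.sq_norm, Complex.normSq_apply, Complex.sub_re, Complex.sub_im, Wv_re, Wv_re, Wv_im, Wv_im,
      mul_pow, sq_abs]
    have h2 : Real.cos (a - b) = 1 - 2 * Real.sin ((a - b) / 2) ^ 2 := by
      have h3 := Real.cos_sq' ((a - b) / 2)
      have h := Real.cos_two_mul ((a - b) / 2)
      rw [show 2 * ((a - b) / 2) = a - b by ring] at h
      rw [h, h3]; ring
    rw [Real.cos_sub] at h2
    have h4 := Real.sin_sq_add_cos_sq a
    have h5 := Real.sin_sq_add_cos_sq b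
    linear_combination r ^ 2 * h4 + r ^ 2 * h5 - 2 * r ^ 2 * h2
  exact (pow_left_inj₀ (norm_nonneg _) (by positivity) two_ne_zero).mp h1

theorem norm_le_of_cos {r m a b : ℝ} (hr : 0 ≤ r) (hm : 0 ≤ m) (h : Real.cos a ≤ Real.cos b) :
    ‖Wv r a + m‖ ≤ ‖Wv r b + m‖ := by
  have h1 : ‖Wv r a + m‖ ^ 2 ≤ ‖Wv r b + m‖ ^ 2 := by
    rw [norm_Wv_add, norm_Wv_add]
    have : 2 * r * m * Real.cos a ≤ 2 * r * m * Real.cos b := by gcongr
    linarith
  exact le_of_sq_le_sq h1 (norm_nonneg _)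

theorem z0_cos {h η : ℝ} (h0 : 0 ≤ h) (h1 : h ≤ η) (h2 : η ≤ 2 * Real.pi - h) : Real.cos η ≤ Real.cos h := by
  rcases le_total η Real.pi with h3 | h3
  · exact Real.cos_le_cos_of_nonneg_of_le_pi h0 h3 h1
  · rw [← Real.cos_two_pi_sub η]
    exact Real.cos_le_cos_of_nonneg_of_le_pi h0 (by linarith) (by linarith)

/-- the main cone -/
theorem z0_cone {r m α β : ℝ} (hr : 499 / 10 ≤ r) (hm : 0 < m) (h0 : 0 ≤ α) (hαβ : α ≤ β)
    (hs : α + β ≤ Real.pi) (hs8 : 8 ≤ r * Real.sin ((α + β) / 2))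
    (ht : r * (Real.cos α - Real.cos β) ≤ 1 / 4) :
    Cone (1 / 10) ((Wv r α + m) * (Wv r (-β) + m)) := by
  have hr0 : 0 < r := by linarith
  have hpi := Real.pi_pos
  set δ := (β - α) / 2 with hδ
  set S := (α + β) / 2 with hS
  have hδ0 : 0 ≤ δ := by rw [hδ]; linarith
  have hsδ0 : 0 ≤ Real.sin δ := Real.sin_nonneg_of_nonneg_of_le_pi hδ0 (by rw [hδ]; linarith)
  have hcS : 0 ≤ Real.cos S :=
    Real.cos_nonneg_of_neg_pi_div_two_le_of_le (by rw [hS]; linarith) (by rw [hS]; linarith)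
  have hcδ : 0 ≤ Real.cos δ :=
    Real.cos_nonneg_of_neg_pi_div_two_le_of_le (by rw [hδ]; linarith) (by rw [hδ]; linarith)
  have hA : α = S - δ := by rw [hS, hδ]; ring
  have hB : β = S + δ := by rw [hS, hδ]; ring
  have e1 : Real.cos α - Real.cos β = 2 * Real.sin S * Real.sin δ := by
    rw [hA, hB, Real.cos_sub, Real.cos_add]; ring
  have e1' : Real.cos α + Real.cos β = 2 * Real.cos S * Real.cos δ := by
    rw [hA, hB, Real.cos_sub, Real.cos_add]; ring
  have e2 : Real.sin β - Real.sin α = 2 * Real.cos S * Real.sin δ := by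
    rw [hA, hB, Real.sin_sub, Real.sin_add]; ring
  have hsδ : Real.sin δ ≤ 1 / 64 := by
    rw [e1] at ht
    have : 2 * 8 * Real.sin δ ≤ 2 * (r * Real.sin S) * Real.sin δ := by gcongr
    linarith
  have hcδ2 : 0.99 ≤ Real.cos δ := by
    have h5 := Real.sin_sq_add_cos_sq δ
    have h6 : Real.sin δ ^ 2 ≤ (1 / 64) ^ 2 := by gcongr
    by_contra hcon
    push Not at hcon
    nlinarith
  have hcδ1 := Real.cos_le_one δ
  have e3 : Real.cos (α - β) = 1 - 2 * Real.sin δ ^ 2 := by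
    have h3 := Real.cos_sq' δ
    have h := Real.cos_two_mul δ
    rw [show α - β = -(2 * δ) by rw [hδ]; ring, Real.cos_neg, h, h3]; ring
  have e4 : Real.sin (α - β) = -(2 * Real.sin δ * Real.cos δ) := by
    rw [show α - β = -(2 * δ) by rw [hδ]; ring, Real.sin_neg, Real.sin_two_mul]
  have hre : ((Wv r α + m) * (Wv r (-β) + m)).re =
      m ^ 2 + m * r * (Real.cos α + Real.cos β) + r ^ 2 * Real.cos (α - β) := by
    rw [Complex.mul_re, Complex.add_re, Complex.add_re, Complex.add_im, Complex.add_im, Wv_re, Wv_re, Wv_im, Wv_im,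
      Complex.ofReal_re, Complex.ofReal_im, Real.cos_neg, Real.sin_neg, Real.cos_sub]
    ring
  have him : ((Wv r α + m) * (Wv r (-β) + m)).im =
      -(m * r * (Real.sin β - Real.sin α)) + r ^ 2 * Real.sin (α - β) := by
    rw [Complex.mul_im, Complex.add_re, Complex.add_re, Complex.add_im, Complex.add_im, Wv_re, Wv_re, Wv_im, Wv_im,
      Complex.ofReal_re, Complex.ofReal_im, Real.cos_neg, Real.sin_neg, Real.sin_sub]
    ring
  have hc1 : 0.999 ≤ Real.cos (α - β) := by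
    rw [e3]
    have : Real.sin δ ^ 2 ≤ (1 / 64) ^ 2 := by gcongr
    norm_num at this ⊢
    linarith
  have hmr : 0 < m * r := mul_pos hm hr0
  have hlow : m * r * (2 * Real.cos S) * 0.99 + r ^ 2 * 0.999 ≤ ((Wv r α + m) * (Wv r (-β) + m)).re := by
    rw [hre, e1']
    have h1 : m * r * (2 * Real.cos S) * 0.99 ≤ m * r * (2 * Real.cos S) * Real.cos δ := by gcongr
    have h2 : r ^ 2 * 0.999 ≤ r ^ 2 * Real.cos (α - β) := by gcongr
    have h3 : 0 ≤ m ^ 2 := sq_nonneg m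
    linarith
  have hup : |((Wv r α + m) * (Wv r (-β) + m)).im| ≤ m * r * (2 * Real.cos S) * (1 / 64) + r ^ 2 * (1 / 32) := by
    rw [him, e2, e4]
    refine (abs_add_le _ _).trans ?_
    rw [abs_neg, abs_mul, abs_mul, abs_mul, abs_mul, abs_mul, abs_neg, abs_mul, abs_mul, abs_of_pos hm,
      abs_of_pos hr0, abs_of_nonneg hsδ0, abs_of_pos (by norm_num : (0 : ℝ) < 2), abs_of_nonneg (sq_nonneg r),
      abs_of_nonneg hcS, abs_of_nonneg hcδ]
    have h1 : m * r * (2 * Real.cos S * Real.sin δ) ≤ m * r * (2 * Real.cos S * (1 / 64)) := by gcongr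
    have h2 : r ^ 2 * (2 * Real.sin δ * Real.cos δ) ≤ r ^ 2 * (2 * (1 / 64) * 1) := by gcongr
    linarith
  have hq : 0 ≤ m * r * (2 * Real.cos S) := by positivity
  refine ⟨lt_of_lt_of_le (by positivity) hlow, hup.trans ?_⟩
  have h2 : 0 < r ^ 2 := by positivity
  have : m * r * (2 * Real.cos S) * (1 / 64) + r ^ 2 * (1 / 32) ≤
      1 / 10 * (m * r * (2 * Real.cos S) * 0.99 + r ^ 2 * 0.999) := by norm_num; nlinarith
  linarith

/-- The theorem for one sign. -/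
theorem z0_main {N : ℕ} {r X m g0 : ℝ} (hN : 2 ≤ N) (hr : 499 / 10 ≤ r) (hQ : 27 / 5 ≤ r * hst N ^ 2)
    (hX0 : 0 ≤ X) (hX1 : X ≤ 1 / 2) (hm : 0 < m) (hg : 0 < g0) {σ : ℝ} (hσ : σ = 1 ∨ σ = -1)
    {c0 c1 : ℂ} {c : ℕ → ℂ} (h0 : ‖c0‖ = g0) (h1 : ‖c1‖ = g0) (hc : ∀ k, ‖c k‖ = g0)
    {w0 w1 : ℂ} {w : ℕ → ℂ} (hw0 : w0 = Wv r (σ * (X * hst N))) (hw1 : w1 = Wv r (-(σ * ((1 - X) * hst N))))
    (hw : ∀ k, w k = Wv r (σ * ((X + (k + 1)) * hst N)))
    (hsum : (w0 * (c0 * cexp w0) + w1 * (c1 * cexp w1) + ∑ k ∈ Finset.range (N - 2), w k * (c k * cexp (w k))) +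
      m * (c0 * cexp w0 + c1 * cexp w1 + ∑ k ∈ Finset.range (N - 2), c k * cexp (w k)) = 0)
    (hF : c0 * cexp w0 + c1 * cexp w1 + ∑ k ∈ Finset.range (N - 2), c k * cexp (w k) ≠ 0) :
    0 < (((w0 ^ 2 + w0) * (c0 * cexp w0) + (w1 ^ 2 + w1) * (c1 * cexp w1) +
          ∑ k ∈ Finset.range (N - 2), (w k ^ 2 + w k) * (c k * cexp (w k))) /
        (w0 * (c0 * cexp w0) + w1 * (c1 * cexp w1) + ∑ k ∈ Finset.range (N - 2), w k * (c k * cexp (w k))) -
      (w0 * (c0 * cexp w0) + w1 * (c1 * cexp w1) + ∑ k ∈ Finset.range (N - 2), w k * (c k * cexp (w k))) /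
        (c0 * cexp w0 + c1 * cexp w1 + ∑ k ∈ Finset.range (N - 2), c k * cexp (w k))).re := by
  have hr0 : 0 < r := by linarith
  have hpi := Real.pi_pos
  have hh := z0_hst_pos hN
  have hmul := z0_hst_mul hN
  have hle3 := z0_hst_le hN
  have hρ := z0_rho hN hr hQ
  set h := hst N with hdef
  have hσc : ∀ y : ℝ, Real.cos (σ * y) = Real.cos y := by
    intro y
    rcases hσ with hs | hs
    · rw [hs, one_mul]
    · rw [hs, neg_one_mul, Real.cos_neg]
  have hσs : ∀ y : ℝ, |Real.sin (σ * y)| = |Real.sin y| := by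
    intro y
    rcases hσ with hs | hs
    · rw [hs, one_mul]
    · rw [hs, neg_one_mul, Real.sin_neg, abs_neg]
  set a0 := Real.exp (r * Real.cos (X * h)) with ha0
  set a1 := Real.exp (r * Real.cos ((1 - X) * h)) with ha1
  have ha0' : 0 < a0 := Real.exp_pos _
  have ha1' : 0 < a1 := Real.exp_pos _
  have n0 : ‖c0 * cexp w0‖ = g0 * a0 := by
    rw [norm_mul, Complex.norm_exp, h0, hw0, Wv_re, hσc]
  have n1 : ‖c1 * cexp w1‖ = g0 * a1 := by
    rw [norm_mul, Complex.norm_exp, h1, hw1, Wv_re, Real.cos_neg, hσc]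
  have nk : ∀ k, ‖c k * cexp (w k)‖ = g0 * Real.exp (r * Real.cos ((X + (k + 1)) * h)) := by
    intro k
    rw [norm_mul, Complex.norm_exp, hc k, hw k, Wv_re, hσc]
  -- half step
  have hsin0 : 0 < Real.sin (h / 2) := Real.sin_pos_of_pos_of_lt_pi (by linarith) (by linarith)
  have hcosh : 1 - Real.cos h = 2 * Real.sin (h / 2) ^ 2 := by
    have h3 := Real.cos_sq' (h / 2)
    have h4 := Real.cos_two_mul (h / 2)
    rw [show 2 * (h / 2) = h by ring] at h4
    rw [h4, h3]; ring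
  have hs8 : 8 ≤ r * Real.sin (h / 2) := by
    rw [hcosh] at hρ
    have h5 : (8 : ℝ) ^ 2 ≤ (r * Real.sin (h / 2)) ^ 2 := by
      rw [mul_pow]
      have h6 : 1.33 ≤ r * Real.sin (h / 2) ^ 2 := by linarith
      have h7 : r * 1.33 ≤ r * (r * Real.sin (h / 2) ^ 2) := by gcongr
      have h8 : r ^ 2 * Real.sin (h / 2) ^ 2 = r * (r * Real.sin (h / 2) ^ 2) := by ring
      rw [h8]
      linarith
    exact le_of_sq_le_sq h5 (by positivity)
  -- the order of the cosines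
  have hcos10 : Real.cos ((1 - X) * h) ≤ Real.cos (X * h) := by
    refine Real.cos_le_cos_of_nonneg_of_le_pi (by positivity) ?_ ?_
    · nlinarith
    · nlinarith
  have hcosk : ∀ k, k < N - 2 → Real.cos ((X + (k + 1)) * h) ≤ Real.cos ((1 - X) * h) := by
    intro k hk
    have hk' : (k : ℝ) + 2 ≤ N := by
      have : k + 2 ≤ N := by omega
      exact_mod_cast this
    refine z0_cos (mul_nonneg (by linarith) hh.le) ?_ ?_
    · have : (0 : ℝ) ≤ k := Nat.cast_nonneg k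
      gcongr
      linarith
    · rw [← hmul]
      have : (X + (k + 1)) + (1 - X) ≤ N := by linarith
      nlinarith
  -- far sums
  have hNk : ∀ k, k < N - 2 → ((N - 2 - k : ℕ) : ℝ) = N - 2 - k := by
    intro k hk
    rw [Nat.cast_sub (by omega), Nat.cast_sub (by omega)]; push_cast; ring
  have far1 : ∑ k ∈ Finset.range (N - 2), Real.exp (r * Real.cos ((X + (k + 1)) * h)) ≤
      0.0815 * a0 + 0.1565 * a1 := by
    have := z0_far hN hr0 hρ hX0 hX1 (ω := fun _ => 1) (c := 1) (by norm_num)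
      (fun k => by have : (0 : ℝ) ≤ k := Nat.cast_nonneg k; linarith)
      (fun k _ => by have : (0 : ℝ) ≤ ((N - 2 - k : ℕ) : ℝ) := Nat.cast_nonneg _; linarith)
    simpa using this
  have far2 : ∑ k ∈ Finset.range (N - 2), |Real.sin ((k + 1) * (h / 2))| *
      Real.exp (r * Real.cos ((X + (k + 1)) * h)) ≤ Real.sin (h / 2) * (0.0815 * a0 + 0.1565 * a1) := by
    refine z0_far hN hr0 hρ hX0 hX1 (ω := fun k => |Real.sin ((k + 1) * (h / 2))|) hsin0.le ?_ ?_
    · intro k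
      have := z0_sin (h / 2) (k + 1)
      rw [abs_of_pos hsin0] at this
      push_cast at this
      exact this
    · intro k hk
      have h5 := z0_sin (h / 2) (N - 2 - k + 1)
      rw [abs_of_pos hsin0] at h5
      have h6 : ((N - 2 - k + 1 : ℕ) : ℝ) * (h / 2) = Real.pi - (k + 1) * (h / 2) := by
        push_cast
        rw [hNk k hk]
        linear_combination hmul / 2
      rw [h6, Real.sin_pi_sub] at h5
      push_cast at h5
      exact h5
  -- the second wave is large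
  have hAn : ∀ y, Real.cos y ≤ Real.cos (X * h) → ‖Wv r (σ * y) + m‖ ≤ ‖w0 + m‖ := by
    intro y hy
    rw [hw0]
    refine norm_le_of_cos hr0.le hm.le ?_
    rw [hσc, hσc]
    exact hy
  have hw1le : ‖w1 + m‖ ≤ ‖w0 + m‖ := by
    rw [hw1, hw0]
    refine norm_le_of_cos hr0.le hm.le ?_
    rw [Real.cos_neg, hσc, hσc]
    exact hcos10
  have hwk1 : ∀ k ∈ Finset.range (N - 2), ‖w k + m‖ ≤ ‖w1 + m‖ := by
    intro k hk
    rw [Finset.mem_range] at hk
    rw [hw k, hw1]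
    refine norm_le_of_cos hr0.le hm.le ?_
    rw [Real.cos_neg, hσc, hσc]
    exact hcosk k hk
  have hA0 : 0 < ‖w0 + m‖ := by
    have h5 : ‖w0 + m‖ ^ 2 = r ^ 2 + m ^ 2 + 2 * r * m * Real.cos (X * h) := by
      rw [hw0, norm_Wv_add, hσc]
    have h6 : 0 ≤ Real.cos (X * h) :=
      Real.cos_nonneg_of_neg_pi_div_two_le_of_le (by nlinarith) (by nlinarith)
    have h7 : 0 < ‖w0 + m‖ ^ 2 := by rw [h5]; positivity
    rcases (norm_nonneg (w0 + m)).lt_or_eq with h8 | h8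
    · exact h8
    · rw [← h8] at h7
      norm_num at h7
  have tie : 0.79 * a0 ≤ a1 := by
    have e1 : (w0 + m) * (c0 * cexp w0) = -((w1 + m) * (c1 * cexp w1) +
        ∑ k ∈ Finset.range (N - 2), (w k + m) * (c k * cexp (w k))) := by
      have h5 : ∑ k ∈ Finset.range (N - 2), (w k + m) * (c k * cexp (w k)) =
          ∑ k ∈ Finset.range (N - 2), w k * (c k * cexp (w k)) +
            m * ∑ k ∈ Finset.range (N - 2), c k * cexp (w k) := by
        rw [Finset.mul_sum, ← Finset.sum_add_distrib]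
        exact Finset.sum_congr rfl fun k _ => by ring
      rw [h5]
      linear_combination hsum
    have h2 : ‖w0 + m‖ * (g0 * a0) ≤ ‖w0 + m‖ * (g0 * a1 + g0 * (0.0815 * a0 + 0.1565 * a1)) := by
      calc ‖w0 + m‖ * (g0 * a0) = ‖(w0 + m) * (c0 * cexp w0)‖ := by rw [norm_mul, n0]
        _ = ‖(w1 + m) * (c1 * cexp w1) + ∑ k ∈ Finset.range (N - 2), (w k + m) * (c k * cexp (w k))‖ := by
            rw [e1, norm_neg]
        _ ≤ ‖(w1 + m) * (c1 * cexp w1)‖ + ∑ k ∈ Finset.range (N - 2), ‖(w k + m) * (c k * cexp (w k))‖ :=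
            (norm_add_le _ _).trans (add_le_add le_rfl (norm_sum_le _ _))
        _ ≤ ‖w0 + m‖ * (g0 * a1) + ‖w0 + m‖ * (g0 * (0.0815 * a0 + 0.1565 * a1)) := by
            refine add_le_add ?_ ?_
            · rw [norm_mul, n1]
              gcongr
            · have h6 : ∑ k ∈ Finset.range (N - 2), ‖(w k + m) * (c k * cexp (w k))‖ ≤
                  ∑ k ∈ Finset.range (N - 2), ‖w0 + m‖ * (g0 * Real.exp (r * Real.cos ((X + (k + 1)) * h))) := by
                refine Finset.sum_le_sum fun k hk => ?_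
                rw [norm_mul, nk]
                gcongr
                exact (hwk1 k hk).trans hw1le
              refine h6.trans ?_
              rw [← Finset.mul_sum, ← Finset.mul_sum]
              gcongr
        _ = _ := by ring
    have h3 : g0 * a0 ≤ g0 * a1 + g0 * (0.0815 * a0 + 0.1565 * a1) := le_of_mul_le_mul_left h2 hA0
    have h4 : a0 ≤ a1 + (0.0815 * a0 + 0.1565 * a1) := by
      have : g0 * a0 ≤ g0 * (a1 + (0.0815 * a0 + 0.1565 * a1)) := by linarith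
      exact le_of_mul_le_mul_left this hg
    linarith
  have htie : r * (Real.cos (X * h) - Real.cos ((1 - X) * h)) ≤ 1 / 4 := by
    by_contra hcon
    push Not at hcon
    have h5 : a1 * Real.exp (1 / 4) < a0 := by
      rw [ha0, ha1, ← Real.exp_add]
      exact Real.exp_lt_exp.mpr (by linarith)
    have h6 := Real.quadratic_le_exp_of_nonneg (x := 1 / 4) (by norm_num)
    have h7 : a1 * (1 + 1 / 4 + (1 / 4) ^ 2 / 2) ≤ a1 * Real.exp (1 / 4) := by gcongr
    norm_num at h7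
    linarith
  -- the cone
  have hcone : Cone (1 / 10) ((w0 + m) * (w1 + m)) := by
    have h5 := z0_cone (m := m) (α := X * h) (β := (1 - X) * h) hr hm (by positivity) (by nlinarith)
      (by linarith [show X * h + (1 - X) * h = h by ring])
      (by rw [show X * h + (1 - X) * h = h by ring]; exact hs8) htie
    rcases hσ with hs | hs
    · rw [hw0, hw1, hs, one_mul, one_mul]
      exact h5
    · have h6 := h5.conj
      rw [map_mul, map_add, map_add, Complex.conj_ofReal] at h6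
      have h7 : ∀ y : ℝ, (starRingEnd ℂ) (Wv r y) = Wv r (-y) := by
        intro y
        apply Complex.ext
        · rw [Complex.conj_re, Wv_re, Wv_re, Real.cos_neg]
        · rw [Complex.conj_im, Wv_im, Wv_im, Real.sin_neg]; ring
      rw [h7, h7, neg_neg] at h6
      rw [hw0, hw1, hs, neg_one_mul, neg_one_mul, neg_neg]
      exact h6
  -- differences
  have hd1 : ‖w0 - w1‖ = 2 * r * Real.sin (h / 2) := by
    rw [hw0, hw1, norm_Wv_sub hr0.le]
    have : (σ * (X * h) - -(σ * ((1 - X) * h))) / 2 = σ * (h / 2) := by ring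
    rw [this, hσs, abs_of_pos hsin0]
  have hdk : ∀ k, ‖w0 - w k‖ = 2 * r * |Real.sin ((k + 1) * (h / 2))| := by
    intro k
    rw [hw0, hw k, norm_Wv_sub hr0.le]
    have : (σ * (X * h) - σ * ((X + (k + 1)) * h)) / 2 = σ * (-((k + 1) * (h / 2))) := by ring
    rw [this, hσs, Real.sin_neg, abs_neg]
  have hfar : ∑ k ∈ Finset.range (N - 2), ‖w0 - w k‖ * ‖c k * cexp (w k)‖ ≤
      13 / 50 * (‖w0 - w1‖ * ‖c1 * cexp w1‖) := by
    have e1 : ∑ k ∈ Finset.range (N - 2), ‖w0 - w k‖ * ‖c k * cexp (w k)‖ =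
        2 * r * g0 * ∑ k ∈ Finset.range (N - 2), |Real.sin ((k + 1) * (h / 2))| *
          Real.exp (r * Real.cos ((X + (k + 1)) * h)) := by
      rw [Finset.mul_sum]
      refine Finset.sum_congr rfl fun k _ => ?_
      rw [hdk, nk]; ring
    rw [e1, hd1, n1]
    calc 2 * r * g0 * ∑ k ∈ Finset.range (N - 2), |Real.sin ((k + 1) * (h / 2))| *
          Real.exp (r * Real.cos ((X + (k + 1)) * h))
        ≤ 2 * r * g0 * (Real.sin (h / 2) * (0.0815 * a0 + 0.1565 * a1)) := by gcongr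
      _ ≤ 2 * r * g0 * (Real.sin (h / 2) * (13 / 50 * a1)) := by
          gcongr
          linarith
      _ = _ := by ring
  have hT1 : c1 * cexp w1 ≠ 0 := by
    rw [← norm_pos_iff, n1]; positivity
  have hD : w0 - w1 ≠ 0 := by
    rw [← norm_pos_iff, hd1]; positivity
  have hsq : (24 / 25 : ℝ) ≤ √(1 - (13 / 50) ^ 2) := by
    refine Real.le_sqrt_of_sq_le ?_
    norm_num
  have hq : (13 / 50 : ℝ) / √(1 - (13 / 50) ^ 2) ≤ 13 / 48 := by
    rw [div_le_div_iff₀ (by linarith) (by norm_num)]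
    linarith
  have hq0 : 0 ≤ (13 / 50 : ℝ) / √(1 - (13 / 50) ^ 2) := by positivity
  refine z0_core (Finset.range (N - 2)) w (fun k => c k * cexp (w k)) (e := 13 / 50) hm hsum hF hcone hD hT1
    hfar hwk1 (by norm_num) (by norm_num) ?_
  nlinarith

/-- sum over the window -/
theorem sum_window {N : ℕ} (hN : 2 ≤ N) (f : ℤ → ℂ) :
    ∑ j ∈ Finset.Ico (-1 : ℤ) (-1 + N), f j = f 0 + f (-1) + ∑ k ∈ Finset.range (N - 2), f ((k : ℤ) + 1) := by
  have h1 : ∑ j ∈ Finset.Ico (-1 : ℤ) (-1 + N), f j = ∑ k ∈ Finset.range N, f (-1 + k) := by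
    rw [Finset.sum_range]
    refine (Finset.sum_bij (fun (k : Fin N) _ => -1 + (k : ℤ)) ?_ ?_ ?_ ?_).symm
    · intro k _
      rw [Finset.mem_Ico]
      have := k.2
      constructor <;> omega
    · intro a _ b _ hab
      ext
      simpa using hab
    · intro j hj
      rw [Finset.mem_Ico] at hj
      refine ⟨⟨(j + 1).toNat, by omega⟩, Finset.mem_univ _, ?_⟩
      simp only
      omega
    · intro k _; rfl
  rw [h1]
  obtain ⟨M, rfl⟩ : ∃ M, N = M + 2 := ⟨N - 2, by omega⟩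
  rw [Finset.sum_range_succ', Finset.sum_range_succ']
  simp only [Nat.add_sub_cancel]
  have h2 : ∑ k ∈ Finset.range M, f (-1 + ((k + 1 + 1 : ℕ) : ℤ)) = ∑ k ∈ Finset.range M, f ((k : ℤ) + 1) := by
    refine Finset.sum_congr rfl fun k _ => ?_
    congr 1
    push_cast
    ring
  rw [h2]
  norm_num
  ring

/-- sum over the window, reflected -/
theorem sum_window' {N : ℕ} (hN : 2 ≤ N) (f : ℤ → ℂ) :
    ∑ j ∈ Finset.Ico (-1 : ℤ) (-1 + N), f j = f (-1) + f 0 + ∑ k ∈ Finset.range (N - 2), f ((N : ℤ) - 2 - k) := by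
  rw [sum_window hN, ← Finset.sum_range_reflect]
  have : ∑ k ∈ Finset.range (N - 2), f (((N - 2 - 1 - k : ℕ) : ℤ) + 1) =
      ∑ k ∈ Finset.range (N - 2), f ((N : ℤ) - 2 - k) := by
    refine Finset.sum_congr rfl fun k hk => ?_
    rw [Finset.mem_range] at hk
    congr 1
    omega
  rw [this]
  ring

theorem wj_zero (N : ℕ) (r x : ℝ) (j : ℤ) : wj N r 0 x j = Wv r ((x + j) * hst N) := by
  unfold wj wp Wv
  congr 2
  norm_num

/-- **[Z0]** the waves at a root of unity. -/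
theorem waveU_root {N : ℕ} {r : ℝ} (hN : 2 ≤ N) (hr : 499 / 10 ≤ r) (hQ : 27 / 5 ≤ r * hst N ^ 2) :
    WaveU N 0 r := by
  intro x g0 m c hx0 hx1 hg hc hm hF hsum
  simp only [E_tt_zero, DE_tt_zero, D2E_tt_zero] at hF hsum ⊢
  have hmul := z0_hst_mul hN
  rcases le_total x (1 / 2) with hx | hx
  · rw [sum_window hN] at hF hsum ⊢
    rw [sum_window hN] at hsum ⊢
    rw [sum_window hN]
    have key := z0_main (c0 := c 0) (c1 := c (-1)) (c := fun k => c ((k : ℤ) + 1)) (w0 := wj N r 0 x 0)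
      (w1 := wj N r 0 x (-1)) (w := fun k => wj N r 0 x ((k : ℤ) + 1)) hN hr hQ hx0 hx hm hg (Or.inl rfl)
      (hc 0) (hc (-1)) (fun k => hc _)
      (by rw [wj_zero]; congr 1; push_cast; ring)
      (by rw [wj_zero]; congr 1; push_cast; ring)
      (fun k => by rw [wj_zero]; congr 1; push_cast; ring)
      (by
        rw [← hsum]
        simp only [mul_left_comm])
      hF
    convert key using 2
    simp only [mul_left_comm]
  · rw [sum_window' hN] at hF hsum ⊢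
    rw [sum_window' hN] at hsum ⊢
    rw [sum_window' hN]
    have hper : ∀ k : ℕ, wj N r 0 x ((N : ℤ) - 2 - k) = Wv r (-1 * (((1 - x) + (k + 1)) * hst N)) := by
      intro k
      rw [wj_zero]
      have h1 : (x + (((N : ℤ) - 2 - k : ℤ) : ℝ)) * hst N = -1 * (((1 - x) + (k + 1)) * hst N) + 2 * Real.pi := by
        rw [← hmul]; push_cast; ring
      rw [h1]
      unfold Wv
      congr 1
      push_cast
      rw [add_mul, Complex.exp_add, Complex.exp_two_pi_mul_I, mul_one]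
    have key := z0_main (c0 := c (-1)) (c1 := c 0) (c := fun k => c ((N : ℤ) - 2 - k)) (w0 := wj N r 0 x (-1))
      (w1 := wj N r 0 x 0) (w := fun k => wj N r 0 x ((N : ℤ) - 2 - k)) (X := 1 - x) hN hr hQ (by linarith)
      (by linarith) hm hg (Or.inr rfl)
      (hc (-1)) (hc 0) (fun k => hc _)
      (by rw [wj_zero]; congr 1; push_cast; ring)
      (by rw [wj_zero]; congr 1; push_cast; ring)
      hper
      (by
        rw [← hsum]
        simp only [mul_left_comm])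
      hF
    convert key using 2
    simp only [mul_left_comm]

/-- the form used in `Glue.lean` -/
theorem waveU_zero {N : ℕ} {r : ℝ} (hN : 2 ≤ N) (hr : 499 / 10 ≤ r) (hQ : (N : ℝ) ^ 2 ≤ 7.2552 * r) :
    WaveU N 0 r := by
  refine waveU_root hN hr ?_
  have hm := z0_hst_mul hN
  have hpi := Real.pi_gt_d4
  have hh := z0_hst_pos hN
  have h8 : 39.476 ≤ (N : ℝ) ^ 2 * hst N ^ 2 := by
    rw [← mul_pow, hm]
    norm_num at hpi
    nlinarith
  have h9 : 39.476 ≤ 7.2552 * (r * hst N ^ 2) := by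
    have : (N : ℝ) ^ 2 * hst N ^ 2 ≤ 7.2552 * r * hst N ^ 2 := by gcongr
    linarith
  norm_num at h9 ⊢
  linarith

end SokalF1
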